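import Mathlib

/-!
# Additive functions on finitely generated modules

`AddFn C`: a complex valued function on `C`-modules, additive on short exact sequences with finitely
generated middle term.  `Res φ M`: restriction of scalars along a ring homomorphism.
-/

universe u

namespace Pool.Agent.HT51

/-- A complex valued function on modules, additive on short exact sequences of finite modules. -/
structure AddFn (C : Type u) [CommRing C] where
  val : ∀ (M : Type u) [AddCommGroup M] [Module C M], ℂ
  add' : ∀ (L M N : Type u) [AddCommGroup L] [Module C L] [AddCommGroup M] [Module C M]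
    [AddCommGroup N] [Module C N] (f : L →ₗ[C] M) (g : M →ₗ[C] N),
    Function.Injective f → Function.Exact f g → Function.Surjective g → Module.Finite C M →
    val M = val L + val N

/-- Restriction of scalars along a ring homomorphism (type synonym). -/
def Res {A C : Type u} [CommRing A] [CommRing C] (_φ : A →+* C) (M : Type u) : Type u := M

section Res

variable {A C : Type u} [CommRing A] [CommRing C] (φ : A →+* C) (M : Type u)

instance [AddCommGroup M] : AddCommGroup (Res φ M) := inferInstanceAs (AddCommGroup M)

instance [AddCommGroup M] [Module C M] : Module A (Res φ M) :=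
  Module.compHom M φ

/-- The identity map `M → Res φ M`. -/
def toRes [AddCommGroup M] : M ≃+ Res φ M := AddEquiv.refl M

variable {M}

lemma toRes_smul [AddCommGroup M] [Module C M] (a : A) (x : M) :
    a • toRes φ M x = toRes φ M (φ a • x) := rfl

lemma res_smul [AddCommGroup M] [Module C M] (a : A) (x : Res φ M) :
    a • x = toRes φ M (φ a • (toRes φ M).symm x) := rfl

/-- Restriction of scalars of a linear map. -/
def resMap {N : Type u} [AddCommGroup M] [Module C M] [AddCommGroup N] [Module C N]
    (f : M →ₗ[C] N) : Res φ M →ₗ[A] Res φ N where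
  toFun := f
  map_add' := f.map_add
  map_smul' := fun a x => f.map_smul (φ a) x

lemma resMap_apply {N : Type u} [AddCommGroup M] [Module C M] [AddCommGroup N] [Module C N]
    (f : M →ₗ[C] N) (x : M) : resMap φ f (toRes φ M x) = toRes φ N (f x) := rfl

/-- A finite module stays finite when restricted along a finite ring homomorphism. -/
lemma res_finite [AddCommGroup M] [Module C M] [Module.Finite C M] (hφ : φ.Finite) :
    Module.Finite A (Res φ M) := by
  letI := φ.toAlgebra
  haveI : Module.Finite A C := hφ
  letI : Module A M := Module.compHom M φ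
  haveI : IsScalarTower A C M := ⟨fun a c x => by
    rw [Algebra.smul_def, mul_smul]; rfl⟩
  exact (Module.Finite.trans C M : Module.Finite A M)

end Res

namespace AddFn

variable {C : Type u} [CommRing C] (lam : AddFn C)

lemma val_punit : lam.val PUnit.{u + 1} = 0 := by
  have h := lam.add' PUnit.{u + 1} PUnit.{u + 1} PUnit.{u + 1} LinearMap.id LinearMap.id
    Function.injective_id (by intro x; constructor <;> intro _ <;> simp) Function.surjective_id
    inferInstance
  have h2 : lam.val PUnit.{u + 1} + 0 = lam.val PUnit.{u + 1} + lam.val PUnit.{u + 1} := by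
    rw [add_zero]; exact h
  exact (add_left_cancel h2).symm

lemma val_congr {M N : Type u} [AddCommGroup M] [Module C M] [AddCommGroup N] [Module C N]
    [Module.Finite C M] (e : M ≃ₗ[C] N) : lam.val M = lam.val N := by
  have hN : Module.Finite C N := Module.Finite.equiv e
  have h := lam.add' M N PUnit.{u + 1} e.toLinearMap 0 e.injective
    (by intro x; constructor
        · intro _; exact ⟨e.symm x, e.apply_symm_apply x⟩
        · intro _; rfl)
    (fun y => ⟨0, rfl⟩) hN
  rw [h, val_punit, add_zero]

lemma val_of_subsingleton (M : Type u) [AddCommGroup M] [Module C M] [Subsingleton M] :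
    lam.val M = 0 := by
  have hM : Module.Finite C M := inferInstance
  let e : M ≃ₗ[C] PUnit.{u + 1} :=
    { toFun := fun _ => PUnit.unit
      invFun := fun _ => 0
      left_inv := fun x => Subsingleton.elim _ _
      right_inv := fun x => rfl
      map_add' := fun _ _ => rfl
      map_smul' := fun _ _ => rfl }
  rw [lam.val_congr e, val_punit]

lemma val_sub_quot {M : Type u} [AddCommGroup M] [Module C M] [Module.Finite C M]
    (N : Submodule C M) : lam.val M = lam.val N + lam.val (M ⧸ N) :=
  lam.add' N M (M ⧸ N) N.subtype N.mkQ (Submodule.injective_subtype N)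
    (LinearMap.exact_subtype_mkQ N) (Submodule.mkQ_surjective N) inferInstance

variable [IsNoetherianRing C]

lemma val_ker_range {M N : Type u} [AddCommGroup M] [Module C M] [AddCommGroup N] [Module C N]
    [Module.Finite C M] (f : M →ₗ[C] N) :
    lam.val M = lam.val (LinearMap.ker f) + lam.val (LinearMap.range f) := by
  rw [lam.val_sub_quot (LinearMap.ker f), lam.val_congr f.quotKerEquivRange]

/-- `lam` kills all finite modules annihilated by `s`. -/
def Kills (s : C) : Prop :=
  ∀ (M : Type u) [AddCommGroup M] [Module C M], Module.Finite C M → (∀ x : M, s • x = 0) →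
    lam.val M = 0

variable {lam}

lemma Kills.pow {s : C} (h : lam.Kills s) (k : ℕ) : lam.Kills (s ^ k) := by
  induction k with
  | zero =>
    intro M _ _ _ hM
    have : Subsingleton M := ⟨fun x y => by
      have h1 := hM x
      have h2 := hM y
      rw [pow_zero, one_smul] at h1 h2
      rw [h1, h2]⟩
    exact lam.val_of_subsingleton M
  | succ k ih =>
    intro M _ _ hfin hM
    have : IsNoetherian C M := isNoetherian_of_isNoetherianRing_of_finite C M
    rw [lam.val_ker_range (LinearMap.lsmul C M s)]
    have h1 : lam.val (LinearMap.ker (LinearMap.lsmul C M s)) = 0 := by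
      refine h _ inferInstance ?_
      rintro ⟨x, hx⟩
      exact Subtype.ext hx
    have h2 : lam.val (LinearMap.range (LinearMap.lsmul C M s)) = 0 := by
      refine ih _ inferInstance ?_
      rintro ⟨y, x, rfl⟩
      refine Subtype.ext ?_
      show s ^ k • (s • x) = 0
      rw [← mul_smul, ← pow_succ]
      exact hM x
    rw [h1, h2, add_zero]

/-- A finite module all of whose elements are `s`-power torsion has value `0`. -/
lemma Kills.torsion {s : C} (h : lam.Kills s) (M : Type u) [AddCommGroup M] [Module C M]
    [Module.Finite C M] (hM : ∀ x : M, ∃ k : ℕ, s ^ k • x = 0) : lam.val M = 0 := by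
  classical
  obtain ⟨S, hS⟩ := (Module.Finite.fg_top : (⊤ : Submodule C M).FG)
  choose k hk using hM
  let K := S.sup k
  refine h.pow K M inferInstance ?_
  intro x
  have hx : x ∈ Submodule.span C (S : Set M) := by rw [hS]; trivial
  induction hx using Submodule.span_induction with
  | mem y hy =>
    have hle : k y ≤ K := Finset.le_sup (f := k) hy
    obtain ⟨j, hj⟩ := Nat.exists_eq_add_of_le hle
    rw [hj, add_comm, pow_add, mul_smul, hk, smul_zero]
  | zero => exact smul_zero _
  | add y z _ _ hy hz => rw [smul_add, hy, hz, add_zero]
  | smul a y _ hy => rw [smul_comm, hy, smul_zero]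

/-- A linear map with `s`-power torsion kernel and cokernel preserves the value. -/
lemma Kills.val_eq {s : C} (h : lam.Kills s) {M N : Type u} [AddCommGroup M] [Module C M]
    [AddCommGroup N] [Module C N] [Module.Finite C M] [Module.Finite C N] (f : M →ₗ[C] N)
    (hk : ∀ x, f x = 0 → ∃ k : ℕ, s ^ k • x = 0)
    (hc : ∀ y : N, ∃ k : ℕ, ∃ x, f x = s ^ k • y) : lam.val M = lam.val N := by
  have : IsNoetherian C M := isNoetherian_of_isNoetherianRing_of_finite C M
  have : IsNoetherian C N := isNoetherian_of_isNoetherianRing_of_finite C N
  rw [lam.val_ker_range f, lam.val_sub_quot (LinearMap.range f)]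
  have h1 : lam.val (LinearMap.ker f) = 0 := by
    refine h.torsion _ ?_
    rintro ⟨x, hx⟩
    obtain ⟨k, hk⟩ := hk x hx
    exact ⟨k, Subtype.ext hk⟩
  have h2 : lam.val (N ⧸ LinearMap.range f) = 0 := by
    refine h.torsion _ ?_
    intro y
    obtain ⟨y, rfl⟩ := Submodule.Quotient.mk_surjective _ y
    obtain ⟨k, x, hx⟩ := hc y
    refine ⟨k, ?_⟩
    rw [← Submodule.Quotient.mk_smul, Submodule.Quotient.mk_eq_zero]
    exact ⟨x, hx⟩
  rw [h1, h2, zero_add, add_zero]

end AddFn

/-- Restriction of an additive function along a finite ring homomorphism `φ : A → C`: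
an additive function on `C`-modules. -/
noncomputable def AddFn.res {A C : Type u} [CommRing A] [CommRing C] (lam : AddFn A) (φ : A →+* C)
    (hφ : φ.Finite) : AddFn C where
  val M _ _ := lam.val (Res φ M)
  add' L M N _ _ _ _ _ _ f g hf hfg hg hM := by
    haveI : Module.Finite A (Res φ M) := res_finite φ hφ
    exact lam.add' (Res φ L) (Res φ M) (Res φ N) (resMap φ f) (resMap φ g) hf hfg hg inferInstance

end Pool.Agent.HT51
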