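import Pool.Agent.HT51.Defs

/-!
# Block sums, block maps, eigenfunctions
-/

universe u

namespace Pool.Agent.HT51

open MvPolynomial

/-- The block sum `∑_{c i = a} x_i ^ n i` in `DiagRing`. -/
noncomputable def sB (k : Type u) [Field k] {N : ℕ} (n : Fin N → ℕ) (c : Fin N → Fin N)
    (a : Fin N) : DiagRing k n :=
  ∑ i ∈ Finset.univ.filter (fun i => c i = a), dx k n i ^ n i

/-- The block map `x_i ↦ s_{c i} ^ m i * x_i`. -/
noncomputable def psiC (k : Type u) [Field k] {N : ℕ} (n m : Fin N → ℕ) (c : Fin N → Fin N) :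
    MvPolynomial (Fin N) k →+* DiagRing k n :=
  eval₂Hom ((dmk k n).comp C) fun i => sB k n c (c i) ^ m i * dx k n i

lemma unit_pow_card {k : Type u} [Field k] [Fintype k] (e : kˣ) (a b : ℕ)
    (h : b * a = Fintype.card k - 1) : ((e : k) ^ a) ^ b = 1 := by
  classical
  rw [← pow_mul, mul_comm, h, ← Units.val_pow_eq_pow_val, ← Fintype.card_units, pow_card_eq_one,
    Units.val_one]

/-- `lam` is an eigenfunction for the scalings `x_i ↦ e_i ^ m i * x_i` with characters `χ i`. -/
def Eig {k : Type u} [Field k] [Fintype k] {N : ℕ} {n : Fin N → ℕ} (m : Fin N → ℕ)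
    (hnm : ∀ i, n i * m i = Fintype.card k - 1) (lam : AddFn (DiagRing k n))
    (χ : Fin N → MulChar k ℂ) : Prop :=
  ∀ (e : Fin N → kˣ) (W : Type u) [AddCommGroup W] [Module (DiagRing k n) W],
    Module.Finite (DiagRing k n) W →
    lam.val (Res (sc (n := n) (fun i => (e i : k) ^ m i)
      (fun i => unit_pow_card (e i) (m i) (n i) (hnm i))) W) = (∏ i, χ i (e i)) * lam.val W

end Pool.Agent.HT51
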