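import Pool.Agent.HT51.Eval
import Pool.Agent.HT51.Defs2

/-!
# Block sums are killed by eigenfunctions with non-trivial block character
-/

universe u

namespace Pool.Agent.HT51

open MvPolynomial

lemma val_res_res {A C D : Type u} [CommRing A] [CommRing C] [CommRing D] (lam : AddFn A)
    (φ : A →+* C) (ψ : C →+* D) (M : Type u) [AddCommGroup M] [Module D M] :
    lam.val (Res φ (Res ψ M)) = lam.val (Res (ψ.comp φ) M) := rfl

lemma val_res_congr {A C : Type u} [CommRing A] [CommRing C] (lam : AddFn A)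
    {φ ψ : A →+* C} (h : φ = ψ) (M : Type u) [AddCommGroup M] [Module C M] :
    lam.val (Res φ M) = lam.val (Res ψ M) := by
  subst h; rfl

lemma val_res_id {A : Type u} [CommRing A] (lam : AddFn A) (M : Type u) [AddCommGroup M]
    [Module A M] [Module.Finite A M] : lam.val (Res (RingHom.id A) M) = lam.val M := by
  refine (lam.val_congr (M := M) (N := Res (RingHom.id A) M) ?_).symm
  exact
    { toFun := fun x => x
      invFun := fun x => x
      left_inv := fun _ => rfl
      right_inv := fun _ => rfl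
      map_add' := fun _ _ => rfl
      map_smul' := fun _ _ => rfl }

section block

lemma sum_dx_pow {k : Type u} [Field k] {N : ℕ} (n : Fin N → ℕ) : ∑ i, dx k n i ^ n i = 0 := by
  have h1 : dmk k n (diag k n) = 0 :=
    Ideal.Quotient.eq_zero_iff_mem.mpr (Ideal.subset_span rfl)
  have h2 : dmk k n (diag k n) = ∑ i, dmk k n (X i ^ n i) := map_sum (dmk k n) _ _
  have h3 : ∀ i, dmk k n (X i ^ n i) = dx k n i ^ n i := fun i => map_pow (dmk k n) _ _
  rw [← h1, h2]
  exact Finset.sum_congr rfl fun i _ => (h3 i).symm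

variable {k : Type u} [Field k] [Fintype k] {N : ℕ} {n : Fin N → ℕ} (m : Fin N → ℕ)
  (hnm : ∀ i, n i * m i = Fintype.card k - 1)

/-- `DiagRing` modulo the block sum. -/
def BlkRing (k : Type u) [Field k] {N : ℕ} (n : Fin N → ℕ) (c : Fin N → Fin N) (a : Fin N) :
    Type u := DiagRing k n ⧸ Ideal.span {sB k n c a}

noncomputable instance (c : Fin N → Fin N) (a : Fin N) : CommRing (BlkRing k n c a) :=
  inferInstanceAs (CommRing (DiagRing k n ⧸ Ideal.span {sB k n c a}))

instance (c : Fin N → Fin N) (a : Fin N) : IsNoetherianRing (BlkRing k n c a) :=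
  inferInstanceAs (IsNoetherianRing (DiagRing k n ⧸ Ideal.span {sB k n c a}))

/-- The quotient map `DiagRing → BlkRing`. -/
noncomputable def bmk (k : Type u) [Field k] {N : ℕ} (n : Fin N → ℕ) (c : Fin N → Fin N)
    (a : Fin N) : DiagRing k n →+* BlkRing k n c a :=
  Ideal.Quotient.mk (Ideal.span {sB k n c a})

omit [Fintype k] in
lemma bmk_sB (c : Fin N → Fin N) (a : Fin N) : bmk k n c a (sB k n c a) = 0 :=
  Ideal.Quotient.eq_zero_iff_mem.mpr (Ideal.subset_span rfl)

omit [Fintype k] in
lemma bmk_surjective (c : Fin N → Fin N) (a : Fin N) : Function.Surjective (bmk k n c a) :=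
  Ideal.Quotient.mk_surjective

/-- Lift along `bmk`. -/
noncomputable def bLift {T : Type u} [CommRing T] (c : Fin N → Fin N) (a : Fin N)
    (g : DiagRing k n →+* T) (hg : g (sB k n c a) = 0) : BlkRing k n c a →+* T :=
  Ideal.Quotient.lift (Ideal.span {sB k n c a}) g (by
    intro x hx
    obtain ⟨y, rfl⟩ := Ideal.mem_span_singleton'.mp hx
    rw [map_mul, hg, mul_zero])

omit [Fintype k] in
lemma bLift_bmk {T : Type u} [CommRing T] (c : Fin N → Fin N) (a : Fin N)
    (g : DiagRing k n →+* T) (hg : g (sB k n c a) = 0) (b : DiagRing k n) :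
    bLift c a g hg (bmk k n c a b) = g b := rfl

/-- The map `k[X] → BlkRing[X]`, `x_i ↦ X ^ m i * x_i` on the block, `x_i ↦ x_i` outside. -/
noncomputable def rhoB0 (k : Type u) [Field k] {N : ℕ} (n m : Fin N → ℕ) (c : Fin N → Fin N)
    (a : Fin N) : MvPolynomial (Fin N) k →+* Polynomial (BlkRing k n c a) :=
  eval₂Hom (Polynomial.C.comp ((bmk k n c a).comp ((dmk k n).comp C)))
    fun i => (if c i = a then Polynomial.X ^ m i else 1) * Polynomial.C (bmk k n c a (dx k n i))

include hnm in
lemma rhoB0_diag (c : Fin N → Fin N) (a : Fin N) : rhoB0 k n m c a (diag k n) = 0 := by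
  classical
  have h1 : ∀ i, rhoB0 k n m c a (X i ^ n i)
      = (if c i = a then Polynomial.X ^ (Fintype.card k - 1) else 1)
        * Polynomial.C (bmk k n c a (dx k n i ^ n i)) := by
    intro i
    unfold rhoB0
    rw [map_pow, coe_eval₂Hom, eval₂_X, mul_pow, ← Polynomial.C_pow, ← map_pow]
    split_ifs with h
    · rw [← pow_mul, mul_comm (m i), hnm]
    · rw [one_pow]
  have hs : ∑ i ∈ Finset.univ.filter (fun i => c i = a),
      Polynomial.C (bmk k n c a (dx k n i ^ n i)) = 0 := by
    rw [← map_sum, ← map_sum]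
    have : bmk k n c a (∑ i ∈ Finset.univ.filter (fun i => c i = a), dx k n i ^ n i) = 0 :=
      bmk_sB c a
    rw [this, map_zero]
  have hd : ∑ i, Polynomial.C (bmk k n c a (dx k n i ^ n i)) = 0 := by
    rw [← map_sum, ← map_sum]
    rw [sum_dx_pow, map_zero, map_zero]
  have h3 : rhoB0 k n m c a (diag k n) = ∑ i, rhoB0 k n m c a (X i ^ n i) := by
    unfold diag
    rw [map_sum]
  rw [h3]
  rw [Finset.sum_congr rfl fun i _ => h1 i]
  rw [← Finset.sum_filter_add_sum_filter_not Finset.univ (fun i => c i = a)] at hd ⊢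
  rw [hs, zero_add] at hd
  have e1 : ∑ i ∈ Finset.univ.filter (fun i => c i = a),
      (if c i = a then (Polynomial.X : Polynomial (BlkRing k n c a)) ^ (Fintype.card k - 1) else 1)
        * Polynomial.C (bmk k n c a (dx k n i ^ n i)) = 0 := by
    have : ∀ i ∈ Finset.univ.filter (fun i => c i = a),
      (if c i = a then (Polynomial.X : Polynomial (BlkRing k n c a)) ^ (Fintype.card k - 1) else 1)
        * Polynomial.C (bmk k n c a (dx k n i ^ n i))
        = Polynomial.X ^ (Fintype.card k - 1) * Polynomial.C (bmk k n c a (dx k n i ^ n i)) := by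
      intro i hi
      rw [if_pos (Finset.mem_filter.mp hi).2]
    rw [Finset.sum_congr rfl this, ← Finset.mul_sum, hs, mul_zero]
  have e2 : ∑ i ∈ Finset.univ.filter (fun i => ¬ c i = a),
      (if c i = a then (Polynomial.X : Polynomial (BlkRing k n c a)) ^ (Fintype.card k - 1) else 1)
        * Polynomial.C (bmk k n c a (dx k n i ^ n i)) = 0 := by
    have : ∀ i ∈ Finset.univ.filter (fun i => ¬ c i = a),
      (if c i = a then (Polynomial.X : Polynomial (BlkRing k n c a)) ^ (Fintype.card k - 1) else 1)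
        * Polynomial.C (bmk k n c a (dx k n i ^ n i))
        = Polynomial.C (bmk k n c a (dx k n i ^ n i)) := by
      intro i hi
      rw [if_neg (Finset.mem_filter.mp hi).2, one_mul]
    rw [Finset.sum_congr rfl this, hd]
  rw [e1, e2, add_zero]

include hnm in
lemma rhoB0_sB (c : Fin N → Fin N) (a : Fin N) :
    rhoB0 k n m c a (∑ i ∈ Finset.univ.filter (fun i => c i = a), X i ^ n i) = 0 := by
  classical
  have hs : ∑ i ∈ Finset.univ.filter (fun i => c i = a),
      Polynomial.C (bmk k n c a (dx k n i ^ n i)) = 0 := by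
    rw [← map_sum, ← map_sum]
    have : bmk k n c a (∑ i ∈ Finset.univ.filter (fun i => c i = a), dx k n i ^ n i) = 0 :=
      bmk_sB c a
    rw [this, map_zero]
  rw [map_sum]
  have : ∀ i ∈ Finset.univ.filter (fun i => c i = a), rhoB0 k n m c a (X i ^ n i)
      = Polynomial.X ^ (Fintype.card k - 1) * Polynomial.C (bmk k n c a (dx k n i ^ n i)) := by
    intro i hi
    unfold rhoB0
    rw [map_pow, coe_eval₂Hom, eval₂_X, mul_pow, ← Polynomial.C_pow, ← map_pow,
      if_pos (Finset.mem_filter.mp hi).2, ← pow_mul, mul_comm (m i), hnm]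
  rw [Finset.sum_congr rfl this, ← Finset.mul_sum, hs, mul_zero]

/-- `rhoB0` on `DiagRing`. -/
noncomputable def rhoB1 (c : Fin N → Fin N) (a : Fin N) :
    DiagRing k n →+* Polynomial (BlkRing k n c a) :=
  Ideal.Quotient.lift (Ideal.span {diag k n}) (rhoB0 k n m c a) (by
    intro x hx
    obtain ⟨y, rfl⟩ := Ideal.mem_span_singleton'.mp hx
    rw [map_mul, rhoB0_diag m hnm, mul_zero])

lemma rhoB1_dmk (c : Fin N → Fin N) (a : Fin N) (p : MvPolynomial (Fin N) k) :
    rhoB1 m hnm c a (dmk k n p) = rhoB0 k n m c a p := rfl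

lemma rhoB1_sB (c : Fin N → Fin N) (a : Fin N) : rhoB1 m hnm c a (sB k n c a) = 0 := by
  have h : sB k n c a
      = dmk k n (∑ i ∈ Finset.univ.filter (fun i => c i = a), X i ^ n i) := by
    unfold sB
    rw [map_sum]
    exact Finset.sum_congr rfl fun i _ => (map_pow _ _ _).symm
  have h2 := congrArg (rhoB1 m hnm c a) h
  rw [rhoB1_dmk, rhoB0_sB m hnm] at h2
  exact h2

/-- `rhoB0` on `BlkRing`. -/
noncomputable def rhoB (c : Fin N → Fin N) (a : Fin N) :
    BlkRing k n c a →+* Polynomial (BlkRing k n c a) :=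
  bLift c a (rhoB1 m hnm c a) (rhoB1_sB m hnm c a)

lemma rhoB_mk (c : Fin N → Fin N) (a : Fin N) (p : MvPolynomial (Fin N) k) :
    rhoB m hnm c a (bmk k n c a (dmk k n p)) = rhoB0 k n m c a p := rfl

lemma rhoB_dx (c : Fin N → Fin N) (a : Fin N) (i : Fin N) :
    rhoB m hnm c a (bmk k n c a (dx k n i))
      = (if c i = a then Polynomial.X ^ m i else 1) * Polynomial.C (bmk k n c a (dx k n i)) := by
  rw [rhoB_mk]
  unfold rhoB0
  rw [coe_eval₂Hom, eval₂_X]

lemma rhoB_C (c : Fin N → Fin N) (a : Fin N) (x : k) :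
    rhoB m hnm c a (bmk k n c a (dmk k n (C x))) = Polynomial.C (bmk k n c a (dmk k n (C x))) := by
  rw [rhoB_mk]
  unfold rhoB0
  rw [coe_eval₂Hom, eval₂_C]
  rfl

omit [Fintype k] in
lemma bmk_surj (c : Fin N → Fin N) (a : Fin N) (b : BlkRing k n c a) :
    ∃ p : MvPolynomial (Fin N) k, b = bmk k n c a (dmk k n p) := by
  obtain ⟨b, rfl⟩ := Ideal.Quotient.mk_surjective b
  obtain ⟨p, rfl⟩ := Ideal.Quotient.mk_surjective b
  exact ⟨p, rfl⟩

lemma rhoB_hrho (c : Fin N → Fin N) (a : Fin N) (b : BlkRing k n c a) :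
    ∃ (L : ℕ) (b' : Polynomial (BlkRing k n c a)),
      Polynomial.eval₂RingHom (rhoB m hnm c a) Polynomial.X b'
        = Polynomial.X ^ L * Polynomial.C b := by
  obtain ⟨p, rfl⟩ := bmk_surj c a b
  induction p using MvPolynomial.induction_on with
  | C x =>
    refine ⟨0, Polynomial.C (bmk k n c a (dmk k n (C x))), ?_⟩
    rw [Polynomial.coe_eval₂RingHom, Polynomial.eval₂_C, rhoB_C, pow_zero, one_mul]
  | add p q hp hq =>
    obtain ⟨L, b, hb⟩ := hp
    obtain ⟨L', b', hb'⟩ := hq
    refine ⟨L + L', Polynomial.X ^ L' * b + Polynomial.X ^ L * b', ?_⟩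
    rw [map_add, map_mul, map_mul, hb, hb', map_add, map_add, map_pow, map_pow,
      Polynomial.coe_eval₂RingHom, Polynomial.eval₂_X, map_add]
    ring
  | mul_X p i hp =>
    obtain ⟨L, b, hb⟩ := hp
    by_cases h : c i = a
    · refine ⟨L + m i, b * Polynomial.C (bmk k n c a (dx k n i)), ?_⟩
      rw [map_mul, hb, Polynomial.coe_eval₂RingHom, Polynomial.eval₂_C, rhoB_dx, if_pos h,
        map_mul, map_mul, map_mul, pow_add]
      ring
    · refine ⟨L, b * Polynomial.C (bmk k n c a (dx k n i)), ?_⟩
      rw [map_mul, hb, Polynomial.coe_eval₂RingHom, Polynomial.eval₂_C, rhoB_dx, if_neg h,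
        map_mul, map_mul, map_mul]
      ring

/-- The value of `rhoB` at the image of a unit of `k` is a scaling. -/
lemma rhoB_eval (c : Fin N → Fin N) (a : Fin N) (w : kˣ) :
    ((Polynomial.evalRingHom (bmk k n c a (dmk k n (C (w : k))))).comp (rhoB m hnm c a)).comp
        (bmk k n c a)
      = (bmk k n c a).comp (sc (n := n) (fun i => ((if c i = a then w else 1 : kˣ) : k) ^ m i)
        (fun i => unit_pow_card _ (m i) (n i) (hnm i))) := by
  refine Ideal.Quotient.ringHom_ext ?_
  refine MvPolynomial.ringHom_ext ?_ ?_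
  · intro x
    simp only [RingHom.comp_apply]
    rw [sc_C, rhoB_C, Polynomial.coe_evalRingHom, Polynomial.eval_C]
  · intro i
    simp only [RingHom.comp_apply]
    rw [sc_dx, rhoB_dx, Polynomial.coe_evalRingHom, Polynomial.eval_mul, Polynomial.eval_C,
      map_mul]
    congr 1
    split_ifs with h
    · rw [Polynomial.eval_pow, Polynomial.eval_X, ← map_pow, ← map_pow, ← map_pow]
    · rw [Polynomial.eval_one, Units.val_one, one_pow, map_one, map_one, map_one]

/-- (F) `lam` kills the block sum if the block character is non-trivial. -/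
theorem kills_block (lam : AddFn (DiagRing k n)) (χ : Fin N → MulChar k ℂ)
    (hlam : Eig m hnm lam χ) (c : Fin N → Fin N) (a : Fin N)
    (hchi : ∏ i ∈ Finset.univ.filter (fun i => c i = a), χ i ≠ 1) :
    lam.Kills (sB k n c a) := by
  classical
  obtain ⟨w, hw⟩ : ∃ w : kˣ, (∏ i ∈ Finset.univ.filter (fun i => c i = a), χ i) (w : k) ≠ 1 := by
    by_contra hcon
    push Not at hcon
    refine hchi (MulChar.ext fun w => ?_)
    rw [hcon w, MulChar.one_apply_coe]
  intro M _ _ hfin hM
  have htor : Module.IsTorsionBySet (DiagRing k n) M (Ideal.span {sB k n c a}) := by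
    rintro x ⟨y, hy⟩
    obtain ⟨z, rfl⟩ := Ideal.mem_span_singleton'.mp hy
    show (z * sB k n c a) • x = 0
    rw [mul_smul, hM, smul_zero]
  let _ : Module (BlkRing k n c a) M := htor.module
  have hsmul : ∀ (b : DiagRing k n) (x : M), (bmk k n c a b) • x = b • x := fun b x => rfl
  have : Module.Finite (BlkRing k n c a) M := by
    obtain ⟨S, hS⟩ := hfin.fg_top
    refine ⟨S, ?_⟩
    rw [eq_top_iff]
    intro x _
    have hx : x ∈ Submodule.span (DiagRing k n) (S : Set M) := by rw [hS]; trivial
    induction hx using Submodule.span_induction with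
    | mem y hy => exact Submodule.subset_span hy
    | zero => exact zero_mem _
    | add y z _ _ hy hz => exact add_mem (hy trivial) (hz trivial)
    | smul b y _ hy =>
      rw [← hsmul]
      exact Submodule.smul_mem _ _ (hy trivial)
  have hbf : (bmk k n c a).Finite := RingHom.Finite.of_surjective _ Ideal.Quotient.mk_surjective
  -- the additive function on `BlkRing`
  have key := scal (lam.res (bmk k n c a) hbf) (rhoB m hnm c a) (rhoB_hrho m hnm c a)
    ![bmk k n c a (dmk k n (C (w : k))), bmk k n c a (dmk k n (C ((1 : kˣ) : k)))]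
    (by
      intro j
      have hu : ∀ v : kˣ, IsUnit (bmk k n c a (dmk k n (C (v : k)))) := fun v =>
        (((Units.isUnit v).map (C : k →+* MvPolynomial (Fin N) k)).map (dmk k n)).map
          (bmk k n c a)
      fin_cases j
      · exact hu w
      · exact hu 1)
    (by
      intro j
      fin_cases j
      · exact rhoB_C m hnm c a _
      · exact rhoB_C m hnm c a _) M
  have hval : ∀ v : kˣ, (lam.res (bmk k n c a) hbf).val
      (Res ((Polynomial.evalRingHom (bmk k n c a (dmk k n (C (v : k))))).comp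
        (rhoB m hnm c a)) M)
      = (∏ i, χ i ((if c i = a then v else 1 : kˣ) : k)) * lam.val M := by
    intro v
    have e1 : (lam.res (bmk k n c a) hbf).val
      (Res ((Polynomial.evalRingHom (bmk k n c a (dmk k n (C (v : k))))).comp
        (rhoB m hnm c a)) M)
      = lam.val (Res (((Polynomial.evalRingHom (bmk k n c a (dmk k n (C (v : k))))).comp
        (rhoB m hnm c a)).comp (bmk k n c a)) M) := rfl
    rw [e1, val_res_congr lam (rhoB_eval m hnm c a v) M]
    have e2 : lam.val (Res ((bmk k n c a).comp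
        (sc (n := n) (fun i => ((if c i = a then v else 1 : kˣ) : k) ^ m i)
        (fun i => unit_pow_card _ (m i) (n i) (hnm i)))) M)
        = lam.val (Res (sc (n := n) (fun i => ((if c i = a then v else 1 : kˣ) : k) ^ m i)
        (fun i => unit_pow_card _ (m i) (n i) (hnm i))) M) := rfl
    rw [e2, hlam (fun i => if c i = a then v else 1) M hfin]
  have h0 : (∏ i, χ i ((if c i = a then w else 1 : kˣ) : k)) * lam.val M
      = (∏ i, χ i ((if c i = a then (1 : kˣ) else 1 : kˣ) : k)) * lam.val M := by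
    rw [← hval w, ← hval 1]
    exact key
  have hp1 : (∏ i, χ i ((if c i = a then (1 : kˣ) else 1 : kˣ) : k)) = 1 := by
    refine Finset.prod_eq_one fun i _ => ?_
    rw [ite_self, Units.val_one, map_one]
  have hpw : (∏ i, χ i ((if c i = a then w else 1 : kˣ) : k))
      = (∏ i ∈ Finset.univ.filter (fun i => c i = a), χ i) (w : k) := by
    have : ∀ s : Finset (Fin N), (∏ i ∈ s, χ i) (w : k) = ∏ i ∈ s, χ i (w : k) := by
      intro s
      induction s using Finset.induction_on with
      | empty => rw [Finset.prod_empty, Finset.prod_empty, MulChar.one_apply_coe]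
      | insert i s hi ih => rw [Finset.prod_insert hi, Finset.prod_insert hi, MulChar.mul_apply, ih]
    rw [this, Finset.prod_filter]
    refine Finset.prod_congr rfl fun i _ => ?_
    split_ifs with h
    · rfl
    · rw [Units.val_one, map_one]
  rw [hp1, hpw, one_mul] at h0
  have h1 : ((∏ i ∈ Finset.univ.filter (fun i => c i = a), χ i) (w : k) - 1) * lam.val M = 0 := by
    rw [sub_mul, one_mul, h0, sub_self]
  rcases mul_eq_zero.mp h1 with h | h
  · exact absurd (sub_eq_zero.mp h) hw
  · exact h

end block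

end Pool.Agent.HT51
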