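import Pool.Agent.HT51.AddFn

/-!
# Diagonal hypersurfaces and matrix factorisations
-/

universe u

namespace Pool.Agent.HT51

open MvPolynomial

/-- The diagonal polynomial `∑ X i ^ n i`. -/
noncomputable def diag (k : Type u) [Field k] {N : ℕ} (n : Fin N → ℕ) : MvPolynomial (Fin N) k :=
  ∑ i, X i ^ n i

/-- The diagonal hypersurface ring `k[X]/(∑ X i ^ n i)`. -/
abbrev DiagRing (k : Type u) [Field k] {N : ℕ} (n : Fin N → ℕ) : Type u :=
  MvPolynomial (Fin N) k ⧸ Ideal.span {diag k n}

/-- The quotient map `k[X] → DiagRing`. -/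
noncomputable abbrev dmk (k : Type u) [Field k] {N : ℕ} (n : Fin N → ℕ) :
    MvPolynomial (Fin N) k →+* DiagRing k n := Ideal.Quotient.mk (Ideal.span {diag k n})

/-- The coordinates of `DiagRing`. -/
noncomputable abbrev dx (k : Type u) [Field k] {N : ℕ} (n : Fin N → ℕ) (i : Fin N) :
    DiagRing k n := dmk k n (X i)

section sc

variable {k : Type u} [Field k] {N : ℕ} {n : Fin N → ℕ}

/-- The scaling `X i ↦ u i * X i` of `DiagRing`, `u i ^ n i = 1`. -/
noncomputable def sc (u : Fin N → k) (hu : ∀ i, u i ^ n i = 1) : DiagRing k n →+* DiagRing k n :=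
  Ideal.Quotient.lift (Ideal.span {diag k n})
    ((dmk k n).comp (eval₂Hom (C : k →+* MvPolynomial (Fin N) k) fun i => C (u i) * X i))
    (by
      intro a ha
      obtain ⟨b, rfl⟩ := Ideal.mem_span_singleton'.mp ha
      rw [map_mul]
      have h : (eval₂Hom (C : k →+* MvPolynomial (Fin N) k) fun i => C (u i) * X i) (diag k n)
          = diag k n := by
        unfold diag
        rw [map_sum]
        refine Finset.sum_congr rfl fun i _ => ?_
        rw [map_pow, coe_eval₂Hom, eval₂_X, mul_pow, ← C_pow, hu, C_1, one_mul]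
      have h2 : ((dmk k n).comp (eval₂Hom (C : k →+* MvPolynomial (Fin N) k)
          fun i => C (u i) * X i)) (diag k n) = 0 := by
        rw [RingHom.comp_apply, h]
        exact Ideal.Quotient.eq_zero_iff_mem.mpr (Ideal.subset_span rfl)
      rw [h2, mul_zero])

@[simp] lemma sc_dx (u : Fin N → k) (hu : ∀ i, u i ^ n i = 1) (i : Fin N) :
    sc u hu (dx k n i) = dmk k n (C (u i)) * dx k n i := by
  unfold sc
  rw [Ideal.Quotient.lift_mk, RingHom.comp_apply, coe_eval₂Hom, eval₂_X, map_mul]

@[simp] lemma sc_C (u : Fin N → k) (hu : ∀ i, u i ^ n i = 1) (a : k) :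
    sc u hu (dmk k n (C a)) = dmk k n (C a) := by
  unfold sc
  rw [Ideal.Quotient.lift_mk, RingHom.comp_apply, coe_eval₂Hom, eval₂_C]

end sc

/-- A matrix factorisation of `f` of size `r`. -/
structure MF {R : Type u} [CommRing R] (f : R) (r : ℕ) where
  phi : Matrix (Fin r) (Fin r) R
  psi : Matrix (Fin r) (Fin r) R
  phi_psi : phi * psi = f • (1 : Matrix (Fin r) (Fin r) R)
  psi_phi : psi * phi = f • (1 : Matrix (Fin r) (Fin r) R)

/-- The cokernel of a square matrix. -/
abbrev Cok {T : Type u} [CommRing T] {r : ℕ} (A : Matrix (Fin r) (Fin r) T) : Type u :=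
  (Fin r → T) ⧸ LinearMap.range A.mulVecLin

/-- The product of the `z i` over the fibre of the label function `c` at `a`. -/
noncomputable def zb {N : ℕ} (z : Fin N → ℂ) (c : Fin N → Fin N) (a : Fin N) : ℂ :=
  ∏ i ∈ Finset.univ.filter (fun i => c i = a), z i

/-- Renaming the label `b` to `a`. -/
def merge {N : ℕ} (c : Fin N → Fin N) (a b : Fin N) : Fin N → Fin N :=
  fun i => if c i = b then a else c i

end Pool.Agent.HT51
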