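import Pool.Agent.HT51.Homotopy
import Pool.Agent.HT51.Defs

/-!
# Descent of the vanishing property of additive functions

`ZeroProp.of_basis`: from a finite free algebra `D` over `Q` to `Q`.
`ZeroProp.of_flat`: from subrings over which finitely many elements are defined.
`twistEquiv`: `k[X]/(g') ≃ κ[X]/(g) ⊗ k` if `g'(b X) = g`.
-/

universe u

namespace Pool.Agent.HT51

open TensorProduct

lemma AddFn.val_pi_mul {A : Type u} [CommRing A] (lam : AddFn A) (W : Type u) [AddCommGroup W]
    [Module A W] [Module.Finite A W] (d : ℕ) : lam.val (Fin d → W) = d * lam.val W := by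
  induction d with
  | zero =>
    rw [lam.val_of_subsingleton]
    simp
  | succ d ih =>
    rw [lam.add' W (Fin (d + 1) → W) (Fin d → W) (LinearMap.single A (fun _ => W) 0)
      (LinearMap.funLeft A W Fin.succ) ?_ ?_ ?_ inferInstance, ih]
    · push_cast
      ring
    · exact LinearMap.ker_eq_bot.mp (LinearMap.ker_single A (fun _ => W) 0)
    · intro x
      constructor
      · intro hx
        refine ⟨x 0, ?_⟩
        ext j
        refine Fin.cases ?_ (fun j => ?_) j
        · simp
        · have := congrFun hx j
          simpa using this.symm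
      · rintro ⟨y, rfl⟩
        ext j
        simp [LinearMap.funLeft]
    · intro y
      refine ⟨Fin.cons 0 y, ?_⟩
      ext j
      simp [LinearMap.funLeft]

/-- Descent along a finite free algebra. -/
lemma ZeroProp.of_basis {Q D : Type u} [CommRing Q] [CommRing D] [Algebra Q D] {s : ℕ}
    (hs : 0 < s) (b : Module.Basis (Fin s) Q D) (h : ZeroProp D) : ZeroProp Q := by
  intro nu h0 W _ _ _
  have hfD : Module.Finite Q D := Module.Finite.of_basis b
  have hfin : (algebraMap Q D).Finite := by
    rw [RingHom.Finite]
    convert hfD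
    exact Algebra.algebra_ext _ _ (fun r => rfl)
  let nu' : AddFn D := nu.res (algebraMap Q D) hfin
  have key : ∀ (W : Type u) [AddCommGroup W] [Module Q W] [Module.Finite Q W],
      nu'.val (D ⊗[Q] W) = s * nu.val W := by
    intro W _ _ _
    rw [← nu.val_pi_mul W s]
    have e : (D ⊗[Q] W) ≃ₗ[Q] (Fin s → W) :=
      (TensorProduct.equivFinsuppOfBasisLeft b).trans (Finsupp.linearEquivFunOnFinite Q W (Fin s))
    have e' : (D ⊗[Q] W) ≃ₗ[Q] Res (algebraMap Q D) (D ⊗[Q] W) :=
      { toFun := fun w => w
        invFun := fun w => w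
        left_inv := fun w => rfl
        right_inv := fun w => rfl
        map_add' := fun a b => rfl
        map_smul' := fun a w => by
          show a • w = (algebraMap Q D a) • w
          rw [algebraMap_smul] }
    show nu.val (Res (algebraMap Q D) (D ⊗[Q] W)) = _
    have : Module.Finite Q (D ⊗[Q] W) := Module.Finite.equiv e.symm
    rw [← nu.val_congr e', nu.val_congr e]
  have hD : nu'.val D = 0 := by
    have h1 := key Q
    rw [h0, mul_zero] at h1
    rw [← h1]
    exact (nu'.val_congr (TensorProduct.AlgebraTensorModule.rid Q D D)).symm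
  have h2 := h nu' hD (D ⊗[Q] W)
  rw [key W] at h2
  rcases mul_eq_zero.mp h2 with h3 | h3
  · exfalso
    have : (s : ℂ) ≠ 0 := Nat.cast_ne_zero.mpr hs.ne'
    exact this h3
  · exact h3

/-- If every finite subset of `A` comes from a ring with the vanishing property over which `A` is
flat then `A` has the property. -/
lemma ZeroProp.of_flat {A : Type u} [CommRing A]
    (h : ∀ S : Finset A, ∃ (B : Type u) (_ : CommRing B) (_ : Algebra B A),
      Module.Flat B A ∧ ZeroProp B ∧ ∀ a ∈ S, ∃ b : B, algebraMap B A b = a)
    [IsNoetherianRing A] : ZeroProp A := by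
  intro nu h0 W _ _ _
  classical
  -- cyclic modules
  have hc : ∀ I : Ideal A, nu.val (A ⧸ I) = 0 := by
    intro I
    obtain ⟨S, hS⟩ := (inferInstance : IsNoetherianRing A).noetherian I
    obtain ⟨B, _, _, hfl, hz, hB⟩ := h S
    choose g hg using hB
    let J : Ideal B := Ideal.span (Set.range fun a : S => g a.1 a.2)
    have hJ : J.map (algebraMap B A) = I := by
      rw [Ideal.map_span, ← hS]
      show Ideal.span _ = Ideal.span _
      congr 1
      ext a
      constructor
      · rintro ⟨_, ⟨⟨a, ha⟩, rfl⟩, rfl⟩
        rw [hg]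
        exact ha
      · intro ha
        exact ⟨g a ha, ⟨⟨a, ha⟩, rfl⟩, hg a ha⟩
    have h1 : (nu.base (A := B)).val (B ⧸ J) = 0 :=
      hz (nu.base (A := B)) (by rw [AddFn.base_self, h0]) (B ⧸ J)
    rw [AddFn.base_val] at h1
    rw [← h1, ← hJ]
    exact nu.val_congr (Algebra.TensorProduct.quotIdealMapEquivTensorQuot A J).toLinearEquiv
  refine IsNoetherianRing.induction_on_isQuotientEquivQuotientPrime A (M := W)
    (motive := fun M _ _ _ => nu.val M = 0) inferInstance ?_ ?_ ?_
  · intro M _ _ _ _
    exact nu.val_of_subsingleton M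
  · intro M _ _ _ p e
    rw [nu.val_congr e]
    exact hc _
  · intro M1 _ _ _ M2 _ _ _ M3 _ _ _ f g hf hg hfg h1 h2
    rw [nu.add' M1 M2 M3 f g hf hfg hg inferInstance, h1, h2, add_zero]

end Pool.Agent.HT51
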