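import Pool.Agent.HT51.ChDefs
import Pool.Agent.HT51.Desc

/-!
# Additive functions and localization

`zpk_of_away`: from `A_s` to `A`, for additive functions which kill `s`.
`ZeroProp.away`: from `A` to `A_s`.
`zpk_of_bir`: ring homomorphisms which are isomorphisms after inverting `s`.
-/

universe u

namespace Pool.Agent.HT51

open TensorProduct

section lattices

variable {A : Type u} [CommRing A] [IsNoetherianRing A] (s : A)

/-- The ring homomorphism to the localization. -/
abbrev awMap : A →+* Localization.Away s := algebraMap A (Localization.Away s)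

/-- A finite `A`-submodule with `s`-power torsion quotient. -/
def IsLat {V : Type u} [AddCommGroup V] [Module (Localization.Away s) V]
    (L : Submodule A (Res (awMap s) V)) : Prop :=
  L.FG ∧ ∀ v, ∃ k : ℕ, s ^ k • v ∈ L

variable {s}

omit [IsNoetherianRing A] in
lemma exists_lat (V : Type u) [AddCommGroup V] [Module (Localization.Away s) V]
    [Module.Finite (Localization.Away s) V] :
    ∃ L : Submodule A (Res (awMap s) V), IsLat s L := by
  obtain ⟨S, hS⟩ := (Module.Finite.fg_top : (⊤ : Submodule (Localization.Away s) V).FG)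
  let S' : Set (Res (awMap s) V) := (S : Set V)
  refine ⟨Submodule.span A S', ⟨Submodule.fg_span S.finite_toSet, ?_⟩⟩
  intro v
  have hv : (v : V) ∈ Submodule.span (Localization.Away s) (S : Set V) := by rw [hS]; trivial
  have key : ∀ v : V, v ∈ Submodule.span (Localization.Away s) (S : Set V) →
      ∃ k : ℕ, s ^ k • (toRes (awMap s) V v) ∈ Submodule.span A S' := by
    intro v hv
    induction hv using Submodule.span_induction with
    | mem y hy => exact ⟨0, by rw [pow_zero, one_smul]; exact Submodule.subset_span hy⟩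
    | zero => exact ⟨0, by rw [map_zero, smul_zero]; exact Submodule.zero_mem _⟩
    | add y z _ _ hy hz =>
      obtain ⟨j, hj⟩ := hy
      obtain ⟨k, hk⟩ := hz
      refine ⟨j + k, ?_⟩
      rw [map_add, smul_add]
      refine Submodule.add_mem _ ?_ ?_
      · rw [add_comm, pow_add, mul_smul]
        exact Submodule.smul_mem _ _ hj
      · rw [pow_add, mul_smul]
        exact Submodule.smul_mem _ _ hk
    | smul a y _ hy =>
      obtain ⟨k, hk⟩ := hy
      obtain ⟨n, b, hb⟩ := IsLocalization.Away.surj s a
      refine ⟨n + k, ?_⟩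
      have e : s ^ (n + k) • toRes (awMap s) V (a • y) =
          b • s ^ k • toRes (awMap s) V y := by
        rw [toRes_smul, toRes_smul, toRes_smul, ← mul_smul, ← mul_smul, map_pow, map_pow, ← hb]
        congr 2
        ring
      rw [e]
      exact Submodule.smul_mem _ _ hk
  exact key v hv

omit [IsNoetherianRing A] in
lemma lat_fin {V : Type u} [AddCommGroup V] [Module (Localization.Away s) V]
    {L : Submodule A (Res (awMap s) V)} (h : IsLat s L) : Module.Finite A L :=
  Module.Finite.iff_fg.mpr h.1

variable {nu : AddFn A} (hk : nu.Kills s)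

include hk

lemma lat_le {V : Type u} [AddCommGroup V] [Module (Localization.Away s) V]
    {L L' : Submodule A (Res (awMap s) V)} (h : IsLat s L) (h' : IsLat s L') (hle : L ≤ L') :
    nu.val L = nu.val L' := by
  have := lat_fin h
  have := lat_fin h'
  refine hk.val_eq (Submodule.inclusion hle) ?_ ?_
  · intro x hx
    refine ⟨0, ?_⟩
    rw [pow_zero, one_smul]
    exact Submodule.inclusion_injective hle (by rw [hx, map_zero])
  · rintro ⟨y, hy⟩
    obtain ⟨k, hk⟩ := h.2 y
    exact ⟨k, ⟨s ^ k • y, hk⟩, rfl⟩

lemma lat_eq {V : Type u} [AddCommGroup V] [Module (Localization.Away s) V]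
    {L L' : Submodule A (Res (awMap s) V)} (h : IsLat s L) (h' : IsLat s L') :
    nu.val L = nu.val L' := by
  have h2 : IsLat s (L ⊔ L') := ⟨h.1.sup h'.1, fun v => by
    obtain ⟨k, hk⟩ := h.2 v
    exact ⟨k, Submodule.mem_sup_left hk⟩⟩
  rw [lat_le hk h h2 le_sup_left, lat_le hk h' h2 le_sup_right]

omit hk in
lemma lat_add {V₁ V₂ V₃ : Type u} [AddCommGroup V₁] [Module (Localization.Away s) V₁]
    [AddCommGroup V₂] [Module (Localization.Away s) V₂] [AddCommGroup V₃]
    [Module (Localization.Away s) V₃] (f : V₁ →ₗ[Localization.Away s] V₂)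
    (g : V₂ →ₗ[Localization.Away s] V₃) (hf : Function.Injective f) (hfg : Function.Exact f g)
    (hg : Function.Surjective g) {L : Submodule A (Res (awMap s) V₂)} (h : IsLat s L) :
    IsLat s (L.comap (resMap (awMap s) f)) ∧ IsLat s (L.map (resMap (awMap s) g)) ∧
      nu.val L = nu.val (L.comap (resMap (awMap s) f)) +
        nu.val (L.map (resMap (awMap s) g)) := by
  have hL := lat_fin h
  let i : L.comap (resMap (awMap s) f) →ₗ[A] L :=
    (resMap (awMap s) f).restrict (fun x hx => hx)
  let p : L →ₗ[A] L.map (resMap (awMap s) g) :=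
    (resMap (awMap s) g).restrict (fun x hx => Submodule.mem_map_of_mem hx)
  have hi : Function.Injective i := by
    intro x y hxy
    exact Subtype.ext (hf (congrArg Subtype.val hxy))
  have hp : Function.Surjective p := by
    rintro ⟨y, x, hx, rfl⟩
    exact ⟨⟨x, hx⟩, rfl⟩
  have hip : Function.Exact i p := by
    rintro ⟨y, hy⟩
    constructor
    · intro h0
      obtain ⟨x, hx⟩ := (hfg y).1 (congrArg Subtype.val h0)
      exact ⟨⟨x, show resMap (awMap s) f x ∈ L by
        have : resMap (awMap s) f x = y := hx
        rw [this]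
        exact hy⟩, Subtype.ext hx⟩
    · rintro ⟨⟨x, hx'⟩, hx⟩
      exact Subtype.ext ((hfg y).2 ⟨x, congrArg Subtype.val hx⟩)
  have hfin1 : Module.Finite A (L.comap (resMap (awMap s) f)) :=
    Module.Finite.of_injective i hi
  refine ⟨⟨Module.Finite.iff_fg.mp hfin1, ?_⟩, ⟨h.1.map _, ?_⟩, nu.add' _ _ _ i p hi hip hp hL⟩
  · intro v
    obtain ⟨k, hk⟩ := h.2 (resMap (awMap s) f v)
    refine ⟨k, ?_⟩
    rw [Submodule.mem_comap, map_smul]
    exact hk
  · intro v
    obtain ⟨x, hx⟩ := hg v
    obtain ⟨k, hk⟩ := h.2 (toRes (awMap s) V₂ x)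
    refine ⟨k, s ^ k • toRes (awMap s) V₂ x, hk, ?_⟩
    rw [map_smul, resMap_apply, hx]
    rfl

/-- The additive function on `A_s`-modules. -/
noncomputable def AddFn.latFn : AddFn (Localization.Away s) := by
  classical
  exact
  { val := fun V _ _ =>
      if h : Module.Finite (Localization.Away s) V then nu.val (exists_lat (s := s) V).choose
      else 0
    add' := by
      intro V₁ V₂ V₃ _ _ _ _ _ _ f g hf hfg hg h2
      have : IsNoetherianRing (Localization.Away s) :=
        IsLocalization.isNoetherianRing (Submonoid.powers s) _ inferInstance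
      have h1 : Module.Finite (Localization.Away s) V₁ := Module.Finite.of_injective f hf
      have h3 : Module.Finite (Localization.Away s) V₃ := Module.Finite.of_surjective g hg
      rw [dif_pos h1, dif_pos h2, dif_pos h3]
      obtain ⟨a1, a2, a3⟩ := lat_add (nu := nu) f g hf hfg hg (exists_lat (s := s) V₂).choose_spec
      rw [a3, lat_eq hk a1 (exists_lat (s := s) V₁).choose_spec,
        lat_eq hk a2 (exists_lat (s := s) V₃).choose_spec] }

lemma latFn_val {V : Type u} [AddCommGroup V] [Module (Localization.Away s) V]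
    [hV : Module.Finite (Localization.Away s) V] {W : Type u} [AddCommGroup W] [Module A W]
    [Module.Finite A W] (f : W →ₗ[A] Res (awMap s) V)
    (h1 : ∀ x, f x = 0 → ∃ k : ℕ, s ^ k • x = 0)
    (h2 : ∀ v, ∃ k : ℕ, ∃ x, f x = s ^ k • v) : (AddFn.latFn hk).val V = nu.val W := by
  classical
  have hL : IsLat s (LinearMap.range f) := by
    refine ⟨?_, fun v => ?_⟩
    · rw [LinearMap.range_eq_map]
      exact (Module.Finite.fg_top : (⊤ : Submodule A W).FG).map f
    · obtain ⟨k, x, hx⟩ := h2 v
      exact ⟨k, x, hx⟩
  have e : (AddFn.latFn hk).val V = nu.val (exists_lat (s := s) V).choose := dif_pos hV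
  rw [e, lat_eq hk (exists_lat (s := s) V).choose_spec hL]
  have := lat_fin hL
  refine (hk.val_eq f.rangeRestrict ?_ ?_).symm
  · intro x hx
    exact h1 x (congrArg Subtype.val hx)
  · rintro ⟨_, x, rfl⟩
    exact ⟨0, x, by rw [pow_zero, one_smul]; rfl⟩

end lattices

/-- (LOC1) -/
theorem zpk_of_away {A : Type u} [CommRing A] [IsNoetherianRing A] (s : A)
    (h : ZeroProp (Localization.Away s)) : ZeroPropK A s := by
  intro nu h0 hk W _ _ _
  have hA : (AddFn.latFn hk).val (Localization.Away s) = 0 := by
    rw [← h0]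
    let f : A →ₗ[A] Res (awMap s) (Localization.Away s) :=
      { toFun := fun a => algebraMap A (Localization.Away s) a
        map_add' := fun a b => map_add _ a b
        map_smul' := fun a b => map_mul (algebraMap A (Localization.Away s)) a b }
    refine latFn_val hk f ?_ ?_
    · intro x hx
      have hx' : algebraMap A (Localization.Away s) x = algebraMap A (Localization.Away s) 0 := by
        rw [map_zero]
        exact hx
      obtain ⟨⟨_, k, rfl⟩, hc⟩ := (IsLocalization.eq_iff_exists (Submonoid.powers s) _).1 hx'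
      exact ⟨k, by simpa using hc⟩
    · intro v
      obtain ⟨n, b, hb⟩ := IsLocalization.Away.surj s ((toRes (awMap s) _).symm v)
      refine ⟨n, b, ?_⟩
      show algebraMap A (Localization.Away s) b =
        algebraMap A (Localization.Away s) (s ^ n) * (toRes (awMap s) _).symm v
      rw [← hb, map_pow, mul_comm]
  have hV := h (AddFn.latFn hk) hA (LocalizedModule (Submonoid.powers s) W)
  rw [← hV]
  let f : W →ₗ[A] Res (awMap s) (LocalizedModule (Submonoid.powers s) W) :=
    { toFun := fun x => LocalizedModule.mkLinearMap (Submonoid.powers s) W x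
      map_add' := fun a b => map_add _ a b
      map_smul' := fun a b => by
        show LocalizedModule.mkLinearMap (Submonoid.powers s) W (a • b) =
          algebraMap A (Localization.Away s) a •
            LocalizedModule.mkLinearMap (Submonoid.powers s) W b
        rw [map_smul, algebraMap_smul] }
  refine (latFn_val hk f ?_ ?_).symm
  · intro x hx
    have hx' : LocalizedModule.mkLinearMap (Submonoid.powers s) W x =
        LocalizedModule.mkLinearMap (Submonoid.powers s) W 0 := by
      rw [map_zero]
      exact hx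
    obtain ⟨⟨_, k, rfl⟩, hc⟩ := (IsLocalizedModule.eq_iff_exists (Submonoid.powers s)
      (LocalizedModule.mkLinearMap (Submonoid.powers s) W)).1 hx'
    refine ⟨k, ?_⟩
    rw [smul_zero] at hc
    exact hc
  · intro v
    obtain ⟨⟨x, ⟨_, k, rfl⟩⟩, hx⟩ := IsLocalizedModule.surj (Submonoid.powers s)
      (LocalizedModule.mkLinearMap (Submonoid.powers s) W) ((toRes (awMap s) _).symm v)
    refine ⟨k, x, ?_⟩
    show LocalizedModule.mkLinearMap (Submonoid.powers s) W x =
      algebraMap A (Localization.Away s) (s ^ k) • (toRes (awMap s) _).symm v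
    rw [← hx, algebraMap_smul]
    rfl

/-- (LOC2) -/
theorem ZeroProp.away {A : Type u} [CommRing A] [IsNoetherianRing A] (s : A) (h : ZeroProp A) :
    ZeroProp (Localization.Away s) := by
  have : IsNoetherianRing (Localization.Away s) :=
    IsLocalization.isNoetherianRing (Submonoid.powers s) _ inferInstance
  have : Module.Flat A (Localization.Away s) := IsLocalization.flat _ (Submonoid.powers s)
  intro nu h0 W _ _ _
  have hc : ∀ I : Ideal (Localization.Away s), nu.val (Localization.Away s ⧸ I) = 0 := by
    intro I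
    obtain ⟨J, hJ⟩ : ∃ J : Ideal A, J.map (algebraMap A (Localization.Away s)) = I :=
      ⟨_, IsLocalization.map_under (Submonoid.powers s) _ I⟩
    have h1 : (nu.base (A := A)).val (A ⧸ J) = 0 :=
      h (nu.base (A := A)) (by rw [AddFn.base_self, h0]) (A ⧸ J)
    rw [AddFn.base_val] at h1
    rw [← h1, ← hJ]
    exact nu.val_congr (Algebra.TensorProduct.quotIdealMapEquivTensorQuot
      (Localization.Away s) J).toLinearEquiv
  refine IsNoetherianRing.induction_on_isQuotientEquivQuotientPrime (Localization.Away s) (M := W)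
    (motive := fun M _ _ _ => nu.val M = 0) inferInstance ?_ ?_ ?_
  · intro M _ _ _ _
    exact nu.val_of_subsingleton M
  · intro M _ _ _ p e
    rw [nu.val_congr e]
    exact hc _
  · intro M1 _ _ _ M2 _ _ _ M3 _ _ _ f g hf hg hfg h1 h2
    rw [nu.add' M1 M2 M3 f g hf hfg hg inferInstance, h1, h2, add_zero]

/-- (BIR) -/
theorem zpk_of_bir {C B : Type u} [CommRing C] [IsNoetherianRing C] [CommRing B]
    [IsNoetherianRing B] (σ : C →+* B) (s : C)
    (h1 : ∀ b : B, ∃ (n : ℕ) (c : C), σ s ^ n * b = σ c)
    (h2 : ∀ c : C, σ c = 0 → ∃ n : ℕ, s ^ n * c = 0) (h : ZeroProp C) : ZeroPropK B (σ s) := by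
  refine zpk_of_away (σ s) ?_
  let _ : Algebra C (Localization.Away (σ s)) :=
    ((algebraMap B (Localization.Away (σ s))).comp σ).toAlgebra
  have halg : ∀ c : C, algebraMap C (Localization.Away (σ s)) c =
      algebraMap B (Localization.Away (σ s)) (σ c) := fun c => rfl
  have hloc : IsLocalization (Submonoid.powers s) (Localization.Away (σ s)) := by
    refine ⟨?_, ?_, ?_⟩
    · rintro ⟨_, k, rfl⟩
      show IsUnit (algebraMap B (Localization.Away (σ s)) (σ (s ^ k)))
      rw [map_pow, map_pow]
      exact (IsLocalization.Away.algebraMap_isUnit (σ s)).pow k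
    · intro z
      obtain ⟨n, b, hb⟩ := IsLocalization.Away.surj (σ s) z
      obtain ⟨m, c, hc⟩ := h1 b
      refine ⟨⟨c, ⟨s ^ (m + n), m + n, rfl⟩⟩, ?_⟩
      show z * algebraMap B (Localization.Away (σ s)) (σ (s ^ (m + n))) =
        algebraMap B (Localization.Away (σ s)) (σ c)
      rw [← hc, map_mul, ← hb, map_pow σ, map_pow (algebraMap B _), map_pow (algebraMap B _)]
      ring
    · intro x y hxy
      have hxy' : algebraMap B (Localization.Away (σ s)) (σ x) =
        algebraMap B (Localization.Away (σ s)) (σ y) := hxy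
      obtain ⟨⟨_, k, rfl⟩, hc⟩ := (IsLocalization.eq_iff_exists (Submonoid.powers (σ s)) _).1 hxy'
      have hc' : σ (s ^ k * (x - y)) = 0 := by
        have h3 : σ s ^ k * σ x = σ s ^ k * σ y := hc
        rw [map_mul, map_pow, map_sub, mul_sub, h3, sub_self]
      obtain ⟨n, hn⟩ := h2 _ hc'
      refine ⟨⟨s ^ (n + k), n + k, rfl⟩, ?_⟩
      show s ^ (n + k) * x = s ^ (n + k) * y
      rw [← sub_eq_zero, ← mul_sub, pow_add, mul_assoc]
      exact hn
  have e : Localization.Away s ≃ₐ[C] Localization.Away (σ s) :=
    IsLocalization.algEquiv (Submonoid.powers s) _ _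
  exact (ZeroProp.away s h).of_equiv e.symm.toRingEquiv

end Pool.Agent.HT51
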