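import Pool.Agent.HT51.ChDefs

/-!
# (PB), (COV): the cover `X_i ↦ X_i ^ a`
-/

universe u

namespace Pool.Agent.HT51

open MvPolynomial

section PB

variable (κ : Type u) [Field κ] {σ : Type} [DecidableEq σ]

lemma powX_monomial_mul [Fintype σ] (i : σ) (a : ℕ) (m : σ →₀ ℕ) (c : κ) (j : ℕ) :
    powX κ i a (monomial m c) * X i ^ j = monomial (m.update i (a * m i + j)) c := by
  have h1 : powX κ i a (monomial m c)
      = C c * ∏ k, (if k = i then X i ^ a else X k : MvPolynomial σ κ) ^ (m k) := by
    unfold powX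
    rw [eval₂Hom_monomial, Finsupp.prod_fintype _ _ (fun k => pow_zero _)]
  have h2 : (X i ^ j : MvPolynomial σ κ) = ∏ k, (if k = i then X i ^ j else 1) := by
    rw [Finset.prod_ite_eq']
    simp
  rw [h1, h2, mul_assoc, ← Finset.prod_mul_distrib, monomial_eq,
    Finsupp.prod_fintype _ _ (fun k => pow_zero _)]
  congr 1
  refine Finset.prod_congr rfl fun k _ => ?_
  rw [Finsupp.coe_update]
  by_cases hk : k = i
  · subst hk
    rw [if_pos rfl, if_pos rfl, Function.update_self, ← pow_mul, ← pow_add]
  · rw [if_neg hk, if_neg hk, Function.update_of_ne hk, mul_one]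

lemma coeff_powX_mul [Fintype σ] (i : σ) (a : ℕ) (u : MvPolynomial σ κ) (j : ℕ) (hj : j < a)
    (n : σ →₀ ℕ) : coeff n (powX κ i a u * X i ^ j) =
      if n i % a = j then coeff (n.update i (n i / a)) u else 0 := by
  induction u using MvPolynomial.induction_on' with
  | monomial m c =>
    rw [powX_monomial_mul, coeff_monomial, coeff_monomial]
    by_cases h : m.update i (a * m i + j) = n
    · rw [if_pos h]
      have h1 : n i = a * m i + j := by
        rw [← h, Finsupp.coe_update, Function.update_self]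
      have h2 : n i % a = j := by
        rw [h1, Nat.mul_add_mod, Nat.mod_eq_of_lt hj]
      have h3 : n i / a = m i := by
        rw [h1, Nat.mul_add_div (by omega), Nat.div_eq_of_lt hj, add_zero]
      rw [if_pos h2, if_pos]
      ext k
      rw [Finsupp.coe_update]
      by_cases hk : k = i
      · subst hk
        rw [Function.update_self, h3]
      · rw [Function.update_of_ne hk, ← h, Finsupp.coe_update, Function.update_of_ne hk]
    · rw [if_neg h]
      by_cases h2 : n i % a = j
      · rw [if_pos h2, if_neg]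
        intro h3
        apply h
        ext k
        rw [Finsupp.coe_update]
        by_cases hk : k = i
        · subst hk
          rw [Function.update_self, h3, Finsupp.coe_update, Function.update_self, ← h2]
          exact Nat.div_add_mod _ _
        · rw [Function.update_of_ne hk, h3, Finsupp.coe_update, Function.update_of_ne hk]
      · rw [if_neg h2]
  | add p q hp hq =>
    rw [map_add, add_mul, coeff_add, hp, hq]
    by_cases h2 : n i % a = j
    · rw [if_pos h2, if_pos h2, if_pos h2, coeff_add]
    · rw [if_neg h2, if_neg h2, if_neg h2, add_zero]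

lemma powX_span [Fintype σ] (i : σ) (a : ℕ) (ha : 0 < a) (P : MvPolynomial σ κ) :
    ∃ u : Fin a → MvPolynomial σ κ, P = ∑ j : Fin a, powX κ i a (u j) * X i ^ (j : ℕ) := by
  induction P using MvPolynomial.induction_on' with
  | monomial n c =>
    have hlt : n i % a < a := Nat.mod_lt _ ha
    refine ⟨fun j => if j = ⟨n i % a, hlt⟩ then monomial (n.update i (n i / a)) c else 0, ?_⟩
    rw [Finset.sum_eq_single (⟨n i % a, hlt⟩ : Fin a)]
    · show _ = powX κ i a (if (⟨n i % a, hlt⟩ : Fin a) = ⟨n i % a, hlt⟩ then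
        monomial (n.update i (n i / a)) c else 0) * X i ^ (n i % a)
      rw [if_pos rfl, powX_monomial_mul]
      congr 2
      ext k
      rw [Finsupp.coe_update]
      by_cases hk : k = i
      · subst hk
        rw [Function.update_self, Finsupp.coe_update, Function.update_self]
        exact (Nat.div_add_mod _ _).symm
      · rw [Function.update_of_ne hk, Finsupp.coe_update, Function.update_of_ne hk]
    · intro j _ hj
      show powX κ i a (if j = ⟨n i % a, hlt⟩ then
        monomial (n.update i (n i / a)) c else 0) * X i ^ (j : ℕ) = 0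
      rw [if_neg hj, map_zero, zero_mul]
    · intro h
      exact absurd (Finset.mem_univ _) h
  | add p q hp hq =>
    obtain ⟨u, hu⟩ := hp
    obtain ⟨v, hv⟩ := hq
    refine ⟨fun j => u j + v j, ?_⟩
    conv_lhs => rw [hu, hv]
    rw [← Finset.sum_add_distrib]
    refine Finset.sum_congr rfl fun j _ => ?_
    rw [map_add, add_mul]

lemma powX_indep [Fintype σ] (i : σ) (a : ℕ) (u v : Fin a → MvPolynomial σ κ)
    (h : ∑ j : Fin a, powX κ i a (u j) * X i ^ (j : ℕ)
      = ∑ j : Fin a, powX κ i a (v j) * X i ^ (j : ℕ)) (j : Fin a) : u j = v j := by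
  have key : ∀ (w : Fin a → MvPolynomial σ κ) (m : σ →₀ ℕ),
      coeff (m.update i (a * m i + j)) (∑ l : Fin a, powX κ i a (w l) * X i ^ (l : ℕ))
        = coeff m (w j) := by
    intro w m
    have e1 : (m.update i (a * m i + j)) i = a * m i + j := by
      rw [Finsupp.coe_update, Function.update_self]
    have e2 : (m.update i (a * m i + j)) i % a = j := by
      rw [e1, Nat.mul_add_mod, Nat.mod_eq_of_lt j.2]
    have e3 : (m.update i (a * m i + j)) i / a = m i := by
      have := j.2
      rw [e1, Nat.mul_add_div (by omega), Nat.div_eq_of_lt j.2, add_zero]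
    rw [coeff_sum, Finset.sum_eq_single j]
    · rw [coeff_powX_mul _ _ _ _ _ j.2, if_pos e2, e3]
      congr 1
      ext k
      rw [Finsupp.coe_update]
      by_cases hk : k = i
      · subst hk
        rw [Function.update_self]
      · rw [Function.update_of_ne hk, Finsupp.coe_update, Function.update_of_ne hk]
    · intro l _ hl
      rw [coeff_powX_mul _ _ _ _ _ l.2, if_neg]
      rw [e2]
      intro h2
      exact hl (Fin.ext h2.symm)
    · intro h
      exact absurd (Finset.mem_univ _) h
  ext m
  rw [← key u m, h, key v m]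

/-- (PB) `κ[σ]/(W(X_i^a))` is free over `κ[σ]/(W)` (via `powX`) with basis `x_i^j`, `j < a`. -/
theorem powX_basis (κ : Type u) [Field κ] {σ : Type} [Finite σ] [DecidableEq σ] (i : σ) (a : ℕ)
    (ha : 0 < a) (W : MvPolynomial σ κ) :
    ∃ φ : (MvPolynomial σ κ ⧸ Ideal.span {W}) →+* (MvPolynomial σ κ ⧸ Ideal.span {powX κ i a W}),
      (∀ p, φ (Ideal.Quotient.mk _ p) = Ideal.Quotient.mk _ (powX κ i a p)) ∧
      (∀ d : MvPolynomial σ κ ⧸ Ideal.span {powX κ i a W},
        ∃ u : Fin a → (MvPolynomial σ κ ⧸ Ideal.span {W}),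
          d = ∑ j : Fin a, φ (u j) * (Ideal.Quotient.mk _ (X i)) ^ (j : ℕ)) ∧
      (∀ u : Fin a → (MvPolynomial σ κ ⧸ Ideal.span {W}),
          ∑ j : Fin a, φ (u j) * (Ideal.Quotient.mk _ (X i) :
            MvPolynomial σ κ ⧸ Ideal.span {powX κ i a W}) ^ (j : ℕ) = 0 → ∀ j, u j = 0) := by
  classical
  let _ : Fintype σ := Fintype.ofFinite σ
  have hle : Ideal.span {W} ≤ (Ideal.span {powX κ i a W}).comap (powX κ i a) := by
    rw [Ideal.span_le, Set.singleton_subset_iff]
    exact Ideal.subset_span rfl
  let φ : (MvPolynomial σ κ ⧸ Ideal.span {W}) →+* (MvPolynomial σ κ ⧸ Ideal.span {powX κ i a W}) :=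
    Ideal.quotientMap _ (powX κ i a) hle
  have hφ : ∀ p, φ (Ideal.Quotient.mk _ p) = Ideal.Quotient.mk _ (powX κ i a p) := fun p => rfl
  refine ⟨φ, hφ, ?_, ?_⟩
  · intro d
    obtain ⟨P, rfl⟩ := Ideal.Quotient.mk_surjective d
    obtain ⟨u, hu⟩ := powX_span κ i a ha P
    refine ⟨fun j => Ideal.Quotient.mk _ (u j), ?_⟩
    conv_lhs => rw [hu]
    rw [map_sum]
    refine Finset.sum_congr rfl fun j _ => ?_
    rw [map_mul, map_pow, hφ]
  · intro u hu j
    choose U hU using fun j => Ideal.Quotient.mk_surjective (u j)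
    have h1 : Ideal.Quotient.mk (Ideal.span {powX κ i a W})
        (∑ j : Fin a, powX κ i a (U j) * X i ^ (j : ℕ)) = 0 := by
      rw [← hu, map_sum]
      refine Finset.sum_congr rfl fun j _ => ?_
      rw [map_mul, map_pow, ← hU, hφ]
    rw [Ideal.Quotient.eq_zero_iff_mem, Ideal.mem_span_singleton'] at h1
    obtain ⟨V, hV⟩ := h1
    obtain ⟨v, hv⟩ := powX_span κ i a ha V
    have h2 : ∑ j : Fin a, powX κ i a (v j * W) * X i ^ (j : ℕ)
        = ∑ j : Fin a, powX κ i a (U j) * X i ^ (j : ℕ) := by
      rw [← hV]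
      conv_rhs => rw [hv]
      rw [Finset.sum_mul]
      refine Finset.sum_congr rfl fun j _ => ?_
      rw [map_mul]
      ring
    have h3 := powX_indep κ i a _ _ h2 j
    rw [← hU, ← h3, Ideal.Quotient.eq_zero_iff_mem]
    exact Ideal.mul_mem_left _ _ (Ideal.subset_span rfl)

end PB

open TensorProduct

/-- (COV) as `ZeroProp.of_basis` (Desc.lean), with the killed element. -/
theorem zpk_of_basis {Q D : Type u} [CommRing Q] [IsNoetherianRing Q] [CommRing D]
    [IsNoetherianRing D] [Algebra Q D] {m : ℕ} (hm : 0 < m) (b : Module.Basis (Fin m) Q D)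
    (t : Q) (s : D) (hst : ∃ l : ℕ, 0 < l ∧ s ^ l = algebraMap Q D t) (h : ZeroPropK D s) :
    ZeroPropK Q t := by
  intro nu h0 hkill W _ _ _
  have hfD : Module.Finite Q D := Module.Finite.of_basis b
  have hfin : (algebraMap Q D).Finite := by
    rw [RingHom.Finite]
    convert hfD
    exact Algebra.algebra_ext _ _ (fun r => rfl)
  let nu' : AddFn D := nu.res (algebraMap Q D) hfin
  have key : ∀ (W : Type u) [AddCommGroup W] [Module Q W] [Module.Finite Q W],
      nu'.val (D ⊗[Q] W) = m * nu.val W := by
    intro W _ _ _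
    rw [← nu.val_pi_mul W m]
    have e : (D ⊗[Q] W) ≃ₗ[Q] (Fin m → W) :=
      (TensorProduct.equivFinsuppOfBasisLeft b).trans (Finsupp.linearEquivFunOnFinite Q W (Fin m))
    have e' : (D ⊗[Q] W) ≃ₗ[Q] Res (algebraMap Q D) (D ⊗[Q] W) :=
      { toFun := fun w => w
        invFun := fun w => w
        left_inv := fun w => rfl
        right_inv := fun w => rfl
        map_add' := fun a b => rfl
        map_smul' := fun a w => by
          show a • w = (algebraMap Q D a) • w
          rw [algebraMap_smul] }
    show nu.val (Res (algebraMap Q D) (D ⊗[Q] W)) = _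
    have : Module.Finite Q (D ⊗[Q] W) := Module.Finite.equiv e.symm
    rw [← nu.val_congr e', nu.val_congr e]
  have hD : nu'.val D = 0 := by
    have h1 := key Q
    rw [h0, mul_zero] at h1
    rw [← h1]
    exact (nu'.val_congr (TensorProduct.AlgebraTensorModule.rid Q D D)).symm
  have hk' : nu'.Kills s := by
    obtain ⟨l, hl, hs⟩ := hst
    intro M _ _ hMf hM
    have hres : Module.Finite Q (Res (algebraMap Q D) M) := res_finite _ hfin
    refine hkill (Res (algebraMap Q D) M) hres ?_
    intro x
    show (algebraMap Q D t) • (show M from x) = 0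
    obtain ⟨l', rfl⟩ : ∃ l', l = l' + 1 := ⟨l - 1, by omega⟩
    rw [← hs, pow_succ, mul_smul, hM, smul_zero]
  have h2 := h nu' hD hk' (D ⊗[Q] W)
  rw [key W] at h2
  rcases mul_eq_zero.mp h2 with h3 | h3
  · exfalso
    have : (m : ℂ) ≠ 0 := Nat.cast_ne_zero.mpr hm.ne'
    exact this h3
  · exact h3

end Pool.Agent.HT51
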