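import Pool.Agent.HT51.ChA
import Pool.Agent.HT51.ChB

/-!
# (UNF) the unfolding rule: `κ[σ]/(c X_i^a X_l + g)`

The cover `x_l = y^a`, `u = x_i y`.
-/

universe u

namespace Pool.Agent.HT51

open MvPolynomial

section unf

variable (κ : Type u) [Field κ] {σ : Type} [DecidableEq σ] (i l : σ)

/-- `X_i ↦ X_i X_l`. -/
noncomputable def tauX : MvPolynomial σ κ →+* MvPolynomial σ κ :=
  eval₂Hom C fun j => if j = i then X i * X l else X j

variable {i l}

lemma tauX_C (a : κ) : tauX κ i l (C a) = C a := by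
  unfold tauX
  rw [coe_eval₂Hom, eval₂_C]

lemma tauX_X_self : tauX κ i l (X i) = X i * X l := by
  unfold tauX
  rw [coe_eval₂Hom, eval₂_X, if_pos rfl]

lemma tauX_X_ne {j : σ} (h : j ≠ i) : tauX κ i l (X j) = X j := by
  unfold tauX
  rw [coe_eval₂Hom, eval₂_X, if_neg h]

lemma tauX_injective (hil : i ≠ l) : Function.Injective (tauX κ i l) := by
  let F := FractionRing (MvPolynomial σ κ)
  let ι : MvPolynomial σ κ →+* F := algebraMap _ _
  have hι : Function.Injective ι := IsFractionRing.injective _ _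
  let ρ : MvPolynomial σ κ →+* F :=
    eval₂Hom (ι.comp C) fun j => if j = i then ι (X i) * (ι (X l))⁻¹ else ι (X j)
  have hl : ι (X l) ≠ 0 := by
    rw [Ne, map_eq_zero_iff ι hι]
    exact X_ne_zero l
  have h : ρ.comp (tauX κ i l) = ι := by
    refine MvPolynomial.ringHom_ext (fun a => ?_) (fun j => ?_)
    · rw [RingHom.comp_apply, tauX_C]
      show eval₂ _ _ (C a) = _
      rw [eval₂_C]
      rfl
    · rw [RingHom.comp_apply]
      by_cases hj : j = i
      · subst hj
        rw [tauX_X_self, map_mul]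
        show eval₂ _ _ (X j) * eval₂ _ _ (X l) = _
        rw [eval₂_X, eval₂_X, if_pos rfl, if_neg (Ne.symm hil), mul_assoc, inv_mul_cancel₀ hl,
          mul_one]
      · rw [tauX_X_ne κ hj]
        show eval₂ _ _ (X j) = _
        rw [eval₂_X, if_neg hj]
  intro p q hpq
  apply hι
  rw [← h, RingHom.comp_apply, RingHom.comp_apply, hpq]

lemma tauX_cond (hil : i ≠ l) (P : MvPolynomial σ κ) :
    ∃ (n : ℕ) (P' : MvPolynomial σ κ), X l ^ n * P = tauX κ i l P' := by
  induction P using MvPolynomial.induction_on with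
  | C a => exact ⟨0, C a, by rw [tauX_C, pow_zero, one_mul]⟩
  | add p q hp hq =>
    obtain ⟨n1, p', hp'⟩ := hp
    obtain ⟨n2, q', hq'⟩ := hq
    refine ⟨n1 + n2, X l ^ n2 * p' + X l ^ n1 * q', ?_⟩
    rw [map_add, map_mul, map_mul, map_pow, map_pow, tauX_X_ne κ (Ne.symm hil), ← hp', ← hq']
    ring
  | mul_X p j hp =>
    obtain ⟨n, p', hp'⟩ := hp
    by_cases hj : j = i
    · subst hj
      refine ⟨n + 1, p' * X j, ?_⟩
      rw [map_mul, tauX_X_self, ← hp']
      ring
    · refine ⟨n, p' * X j, ?_⟩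
      rw [map_mul, tauX_X_ne κ hj, ← hp']
      ring

lemma powX_C (j : σ) (a : ℕ) (b : κ) : powX κ j a (C b) = C b := by
  unfold powX
  rw [coe_eval₂Hom, eval₂_C]

lemma powX_X_self (j : σ) (a : ℕ) : powX κ j a (X j) = X j ^ a := by
  unfold powX
  rw [coe_eval₂Hom, eval₂_X, if_pos rfl]

lemma powX_X_ne {j j' : σ} (a : ℕ) (h : j' ≠ j) : powX κ j a (X j') = X j' := by
  unfold powX
  rw [coe_eval₂Hom, eval₂_X, if_neg h]

lemma tauX_powX_rename (hil : i ≠ l) (a : ℕ) (g : MvPolynomial {j : σ // j ≠ i} κ) :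
    tauX κ i l (powX κ l a (rename Subtype.val g)) = powX κ l a (rename Subtype.val g) := by
  have h : ((tauX κ i l).comp (powX κ l a)).comp
      (rename Subtype.val : MvPolynomial {j : σ // j ≠ i} κ →ₐ[κ] MvPolynomial σ κ).toRingHom
      = (powX κ l a).comp
      (rename Subtype.val : MvPolynomial {j : σ // j ≠ i} κ →ₐ[κ] MvPolynomial σ κ).toRingHom := by
    refine MvPolynomial.ringHom_ext (fun b => ?_) (fun j => ?_)
    · show tauX κ i l (powX κ l a (rename Subtype.val (C b))) = powX κ l a (rename Subtype.val (C b))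
      rw [rename_C, powX_C, tauX_C]
    · show tauX κ i l (powX κ l a (rename Subtype.val (X j))) = powX κ l a (rename Subtype.val (X j))
      rw [rename_X]
      by_cases hj : (j : σ) = l
      · rw [hj, powX_X_self, map_pow, tauX_X_ne κ (Ne.symm hil)]
      · rw [powX_X_ne κ a hj, tauX_X_ne κ j.2]
  exact congrArg (fun F => F g) h

end unf

/-- (UNF) `κ[σ]/(c X_i^a X_l + g)`, `g` without `X_i`; the cover `x_l = y^a` and `u = x_i y`.
Proof: `zpk_of_basis` for `powX l a` and `zpk_of_bir` for `X_i ↦ X_i X_l`. -/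
theorem unfold_rule (κ : Type u) [Field κ] {σ : Type} [Finite σ] [DecidableEq σ] (i l : σ)
    (hil : i ≠ l) (a : ℕ) (ha : 0 < a) (c : κ) (g : MvPolynomial {j : σ // j ≠ i} κ)
    (h : ZeroProp (MvPolynomial σ κ ⧸
      Ideal.span {C c * X i ^ a + powX κ l a (rename Subtype.val g)})) :
    ZeroPropK (MvPolynomial σ κ ⧸ Ideal.span {C c * X i ^ a * X l + rename Subtype.val g})
      (Ideal.Quotient.mk _ (X l)) := by
  -- the polynomial of the cover
  have hW : powX κ l a (C c * X i ^ a * X l + rename Subtype.val g)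
      = tauX κ i l (C c * X i ^ a + powX κ l a (rename Subtype.val g)) := by
    rw [map_add, map_mul, map_mul, map_pow, powX_C, powX_X_ne κ a hil, powX_X_self, map_add,
      map_mul, map_pow, tauX_C, tauX_X_self, tauX_powX_rename κ hil]
    ring
  set W := C c * X i ^ a * X l + rename Subtype.val g with hWdef
  set W3 := C c * X i ^ a + powX κ l a (rename Subtype.val g) with hW3def
  obtain ⟨φ, hφ, hgen, huniq⟩ := powX_basis κ l a ha W
  -- the birational map
  let τ : (MvPolynomial σ κ ⧸ Ideal.span {W3}) →+* (MvPolynomial σ κ ⧸ Ideal.span {powX κ l a W}) :=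
    Ideal.Quotient.lift (Ideal.span {W3})
      ((Ideal.Quotient.mk (Ideal.span {powX κ l a W})).comp (tauX κ i l)) (by
        intro p hp
        obtain ⟨q, rfl⟩ := Ideal.mem_span_singleton'.mp hp
        rw [map_mul, RingHom.comp_apply, RingHom.comp_apply, ← hW,
          Ideal.Quotient.eq_zero_iff_mem.mpr (Ideal.mem_span_singleton_self (powX κ l a W)),
          mul_zero])
  have hτ : ∀ p, τ (Ideal.Quotient.mk _ p) = Ideal.Quotient.mk _ (tauX κ i l p) := fun p => rfl
  have hτl : τ (Ideal.Quotient.mk _ (X l)) = Ideal.Quotient.mk _ (X l) := by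
    rw [hτ, tauX_X_ne κ (Ne.symm hil)]
  have hD : ZeroPropK (MvPolynomial σ κ ⧸ Ideal.span {powX κ l a W})
      (Ideal.Quotient.mk _ (X l)) := by
    rw [← hτl]
    refine zpk_of_bir τ _ ?_ ?_ h
    · intro b
      obtain ⟨P, rfl⟩ := Ideal.Quotient.mk_surjective b
      obtain ⟨n, P', hP'⟩ := tauX_cond κ hil P
      refine ⟨n, Ideal.Quotient.mk _ P', ?_⟩
      rw [hτl, hτ, ← map_pow, ← map_mul, hP']
    · intro b hb
      obtain ⟨P, rfl⟩ := Ideal.Quotient.mk_surjective b
      rw [hτ, Ideal.Quotient.eq_zero_iff_mem] at hb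
      obtain ⟨q, hq⟩ := Ideal.mem_span_singleton'.mp hb
      obtain ⟨n, q', hq'⟩ := tauX_cond κ hil q
      refine ⟨n, ?_⟩
      rw [← map_pow, ← map_mul, Ideal.Quotient.eq_zero_iff_mem, Ideal.mem_span_singleton']
      refine ⟨q', tauX_injective κ hil ?_⟩
      rw [map_mul, map_mul, map_pow, tauX_X_ne κ (Ne.symm hil), ← hq', ← hq, hW]
      ring
  -- the free cover
  let _ : Algebra (MvPolynomial σ κ ⧸ Ideal.span {W}) (MvPolynomial σ κ ⧸ Ideal.span {powX κ l a W}) :=
    φ.toAlgebra
  have hsm : ∀ (r : MvPolynomial σ κ ⧸ Ideal.span {W})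
      (d : MvPolynomial σ κ ⧸ Ideal.span {powX κ l a W}), r • d = φ r * d := fun r d => rfl
  let b : Module.Basis (Fin a) (MvPolynomial σ κ ⧸ Ideal.span {W})
      (MvPolynomial σ κ ⧸ Ideal.span {powX κ l a W}) :=
    Module.Basis.mk (v := fun j : Fin a => (Ideal.Quotient.mk _ (X l)) ^ (j : ℕ))
      (by
        rw [Fintype.linearIndependent_iff]
        intro u hu
        exact huniq u hu)
      (by
        intro d _
        obtain ⟨u, hu⟩ := hgen d
        rw [hu]
        refine Submodule.sum_mem _ fun j _ => ?_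
        rw [← hsm]
        exact Submodule.smul_mem _ _ (Submodule.subset_span ⟨j, rfl⟩))
  refine zpk_of_basis ha b (Ideal.Quotient.mk _ (X l)) (Ideal.Quotient.mk _ (X l)) ⟨a, ha, ?_⟩ hD
  show _ = φ _
  rw [hφ, powX_X_self, map_pow]

end Pool.Agent.HT51
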