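import Pool.Agent.HT51.ChDefs

/-!
# The killing rule
-/

universe u

namespace Pool.Agent.HT51

open MvPolynomial

/-- If `s` is regular and `A/(s)` has the vanishing property then additive functions vanishing on
`A` kill `s`. -/
theorem kills_of_zp {A : Type u} [CommRing A] (s : A) (hz : ZeroProp (A ⧸ Ideal.span {s}))
    (hreg : ∀ x : A, s * x = 0 → x = 0) (lam : AddFn A) (h0 : lam.val A = 0) : lam.Kills s := by
  have hbf : (Ideal.Quotient.mk (Ideal.span {s})).Finite :=
    RingHom.Finite.of_surjective _ Ideal.Quotient.mk_surjective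
  let nu : AddFn (A ⧸ Ideal.span {s}) := lam.res (Ideal.Quotient.mk (Ideal.span {s})) hbf
  have hnu0 : nu.val (A ⧸ Ideal.span {s}) = 0 := by
    have h1 := lam.add' A A (A ⧸ Ideal.span {s}) (LinearMap.lsmul A A s)
      (Submodule.mkQ (Ideal.span {s})) (by
        intro x y hxy
        have h2 : s * (x - y) = 0 := by
          rw [mul_sub]
          exact sub_eq_zero.mpr hxy
        exact sub_eq_zero.mp (hreg _ h2)) (by
        intro x
        rw [Submodule.mkQ_apply, Submodule.Quotient.mk_eq_zero, Ideal.mem_span_singleton']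
        constructor
        · rintro ⟨y, hy⟩
          exact ⟨y, by rw [← hy, mul_comm]; rfl⟩
        · rintro ⟨y, hy⟩
          exact ⟨y, by rw [← hy, mul_comm]; rfl⟩) (Submodule.mkQ_surjective _) inferInstance
    have h3 : lam.val (A ⧸ Ideal.span {s}) = 0 := by
      have h4 : lam.val A + 0 = lam.val A + lam.val (A ⧸ Ideal.span {s}) := by
        rw [add_zero]; exact h1
      exact (add_left_cancel h4).symm
    rw [← h3]
    exact (lam.val_congr (M := A ⧸ Ideal.span {s})
      (N := Res (Ideal.Quotient.mk (Ideal.span {s})) (A ⧸ Ideal.span {s}))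
      { toFun := fun x => x
        invFun := fun x => x
        left_inv := fun _ => rfl
        right_inv := fun _ => rfl
        map_add' := fun _ _ => rfl
        map_smul' := fun a x => by
          obtain ⟨y, rfl⟩ := Ideal.Quotient.mk_surjective x
          rfl }).symm
  intro M _ _ hfin hM
  have htor : Module.IsTorsionBySet A M (Ideal.span {s}) := by
    rintro x ⟨y, hy⟩
    obtain ⟨z, rfl⟩ := Ideal.mem_span_singleton'.mp hy
    show (z * s) • x = 0
    rw [mul_smul, hM, smul_zero]
  let _ : Module (A ⧸ Ideal.span {s}) M := htor.module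
  have hsmul : ∀ (b : A) (x : M), (Ideal.Quotient.mk (Ideal.span {s}) b) • x = b • x :=
    fun b x => rfl
  have : Module.Finite (A ⧸ Ideal.span {s}) M := by
    obtain ⟨S, hS⟩ := hfin.fg_top
    refine ⟨S, ?_⟩
    rw [eq_top_iff]
    intro x _
    have hx : x ∈ Submodule.span A (S : Set M) := by rw [hS]; trivial
    induction hx using Submodule.span_induction with
    | mem y hy => exact Submodule.subset_span hy
    | zero => exact zero_mem _
    | add y z _ _ hy hz => exact add_mem (hy trivial) (hz trivial)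
    | smul b y _ hy =>
      rw [← hsmul]
      exact Submodule.smul_mem _ _ (hy trivial)
  rw [← hz nu hnu0 M]
  exact lam.val_congr (M := M) (N := Res (Ideal.Quotient.mk (Ideal.span {s})) M)
    { toFun := fun x => x
      invFun := fun x => x
      left_inv := fun _ => rfl
      right_inv := fun _ => rfl
      map_add' := fun _ _ => rfl
      map_smul' := fun a x => rfl }

section rule

variable (κ : Type u) [Field κ] {σ : Type} [Finite σ] [DecidableEq σ] (i l : σ)

/-- `X_i ↦ X`, `X_l ↦ 0`, `X_j ↦ C X_j`. -/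
noncomputable def thK : MvPolynomial σ κ →+* Polynomial (MvPolynomial {j : σ // j ≠ i ∧ j ≠ l} κ) :=
  eval₂Hom (Polynomial.C.comp C) fun j =>
    if h : j ≠ i ∧ j ≠ l then Polynomial.C (X ⟨j, h⟩) else if j = i then Polynomial.X else 0

/-- The section. -/
noncomputable def psK : Polynomial (MvPolynomial {j : σ // j ≠ i ∧ j ≠ l} κ) →+* MvPolynomial σ κ :=
  Polynomial.eval₂RingHom (rename Subtype.val :
    MvPolynomial {j : σ // j ≠ i ∧ j ≠ l} κ →ₐ[κ] MvPolynomial σ κ).toRingHom (X i)

variable {κ i l}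

omit [Finite σ] in
lemma psK_C (g : MvPolynomial {j : σ // j ≠ i ∧ j ≠ l} κ) :
    psK κ i l (Polynomial.C g) = rename Subtype.val g := by
  unfold psK
  rw [Polynomial.coe_eval₂RingHom, Polynomial.eval₂_C]
  rfl

omit [Finite σ] in
lemma psK_X : psK κ i l Polynomial.X = X i := by
  unfold psK
  rw [Polynomial.coe_eval₂RingHom, Polynomial.eval₂_X]

omit [Finite σ] in
lemma thK_C (x : κ) : thK κ i l (C x) = Polynomial.C (C x) := by
  unfold thK
  rw [coe_eval₂Hom, eval₂_C]
  rfl

omit [Finite σ] in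
lemma thK_Xj (j : {j : σ // j ≠ i ∧ j ≠ l}) : thK κ i l (X j.1) = Polynomial.C (X j) := by
  unfold thK
  rw [coe_eval₂Hom, eval₂_X, dif_pos j.2]

omit [Finite σ] in
lemma thK_Xl (hil : i ≠ l) : thK κ i l (X l) = 0 := by
  unfold thK
  rw [coe_eval₂Hom, eval₂_X, dif_neg (by simp), if_neg hil.symm]

omit [Finite σ] in
lemma thK_Xi : thK κ i l (X i) = Polynomial.X := by
  unfold thK
  rw [coe_eval₂Hom, eval₂_X, dif_neg (by simp), if_pos rfl]

omit [Finite σ] in
lemma thK_rename (g : MvPolynomial {j : σ // j ≠ i ∧ j ≠ l} κ) :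
    thK κ i l (rename Subtype.val g) = Polynomial.C g := by
  have h : (thK κ i l).comp (rename Subtype.val :
      MvPolynomial {j : σ // j ≠ i ∧ j ≠ l} κ →ₐ[κ] MvPolynomial σ κ).toRingHom
      = Polynomial.C := by
    refine MvPolynomial.ringHom_ext ?_ ?_
    · intro a
      show thK κ i l (rename Subtype.val (C a)) = _
      rw [rename_C, thK_C]
    · intro j
      show thK κ i l (rename Subtype.val (X j)) = _
      rw [rename_X, thK_Xj]
  exact RingHom.congr_fun h g

omit [Finite σ] in
lemma thK_psK (q : Polynomial (MvPolynomial {j : σ // j ≠ i ∧ j ≠ l} κ)) :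
    thK κ i l (psK κ i l q) = q := by
  have h1 : (thK κ i l).comp (psK κ i l) = RingHom.id _ := by
    refine Polynomial.ringHom_ext ?_ ?_
    · intro g
      rw [RingHom.comp_apply, RingHom.id_apply, psK_C, thK_rename]
    · rw [RingHom.comp_apply, RingHom.id_apply, psK_X, thK_Xi]
  exact RingHom.congr_fun h1 q

omit [Finite σ] in
lemma psK_thK (hil : i ≠ l) (P : MvPolynomial σ κ) :
    ∃ Q, P = psK κ i l (thK κ i l P) + X l * Q := by
  have h : (Ideal.Quotient.mk (Ideal.span {(X l : MvPolynomial σ κ)})).comp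
      ((psK κ i l).comp (thK κ i l)) = Ideal.Quotient.mk (Ideal.span {(X l : MvPolynomial σ κ)}) := by
    refine MvPolynomial.ringHom_ext ?_ ?_
    · intro a
      rw [RingHom.comp_apply, RingHom.comp_apply, thK_C, psK_C, rename_C]
    · intro j
      rw [RingHom.comp_apply, RingHom.comp_apply]
      by_cases h1 : j ≠ i ∧ j ≠ l
      · rw [thK_Xj ⟨j, h1⟩, psK_C, rename_X]
      · by_cases h2 : j = i
        · rw [h2, thK_Xi, psK_X]
        · have h3 : j = l := by
            by_contra h4
            exact h1 ⟨h2, h4⟩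
          have h5 : Ideal.Quotient.mk (Ideal.span {(X l : MvPolynomial σ κ)}) (X l) = 0 :=
            Ideal.Quotient.eq_zero_iff_mem.mpr (Ideal.mem_span_singleton_self _)
          rw [h3, thK_Xl hil, map_zero, map_zero, h5]
  have h2 : Ideal.Quotient.mk (Ideal.span {(X l : MvPolynomial σ κ)}) (psK κ i l (thK κ i l P))
      = Ideal.Quotient.mk (Ideal.span {(X l : MvPolynomial σ κ)}) P := RingHom.congr_fun h P
  have h3 : P - psK κ i l (thK κ i l P) ∈ Ideal.span {(X l : MvPolynomial σ κ)} :=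
    (Ideal.Quotient.eq).mp h2.symm
  obtain ⟨Q, hQ⟩ := Ideal.mem_span_singleton.mp h3
  exact ⟨Q, by rw [← hQ]; ring⟩

/-- (KILL) `W = X_l V + g0`, `g0` without `X_i, X_l`: `B/(x_l) = (κ[..]/(g0))[X_i]`. -/
theorem kill_rule (κ : Type u) [Field κ] {σ : Type} [Finite σ] [DecidableEq σ] (i l : σ)
    (hil : i ≠ l) (W V : MvPolynomial σ κ) (g0 : MvPolynomial {j : σ // j ≠ i ∧ j ≠ l} κ)
    (hW : W = X l * V + rename Subtype.val g0) (hg0 : g0 ≠ 0)
    (hz : ZeroProp (MvPolynomial {j : σ // j ≠ i ∧ j ≠ l} κ ⧸ Ideal.span {g0}))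
    (lam : AddFn (MvPolynomial σ κ ⧸ Ideal.span {W}))
    (h0 : lam.val (MvPolynomial σ κ ⧸ Ideal.span {W}) = 0) :
    lam.Kills (Ideal.Quotient.mk _ (X l)) := by
  set A0 := MvPolynomial {j : σ // j ≠ i ∧ j ≠ l} κ ⧸ Ideal.span {g0} with hA0
  let Th : MvPolynomial σ κ →+* Polynomial A0 :=
    (Polynomial.mapRingHom (Ideal.Quotient.mk (Ideal.span {g0}))).comp (thK κ i l)
  have hThW : Th W = 0 := by
    rw [hW]
    show (Polynomial.mapRingHom (Ideal.Quotient.mk (Ideal.span {g0}))) (thK κ i l _) = 0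
    rw [map_add, map_mul, thK_Xl hil, zero_mul, zero_add, thK_rename]
    have h1 : Ideal.Quotient.mk (Ideal.span {g0}) g0 = 0 :=
      Ideal.Quotient.eq_zero_iff_mem.mpr (Ideal.subset_span rfl)
    rw [Polynomial.coe_mapRingHom, Polynomial.map_C, h1, Polynomial.C_0]
  let Tb : (MvPolynomial σ κ ⧸ Ideal.span {W}) →+* Polynomial A0 :=
    Ideal.Quotient.lift _ Th (by
      intro y hy
      obtain ⟨z, rfl⟩ := Ideal.mem_span_singleton'.mp hy
      rw [map_mul, hThW, mul_zero])
  have hTb : ∀ P, Tb (Ideal.Quotient.mk _ P) = Th P := fun P => rfl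
  have hsurj : Function.Surjective Tb := by
    intro y
    obtain ⟨q, hq⟩ := Polynomial.map_surjective (Ideal.Quotient.mk (Ideal.span {g0}))
      Ideal.Quotient.mk_surjective y
    refine ⟨Ideal.Quotient.mk _ (psK κ i l q), ?_⟩
    rw [hTb, ← hq]
    show (Polynomial.mapRingHom (Ideal.Quotient.mk (Ideal.span {g0}))) (thK κ i l (psK κ i l q)) = _
    rw [thK_psK]
    rfl
  have hker : RingHom.ker Tb = Ideal.span {Ideal.Quotient.mk (Ideal.span {W}) (X l)} := by
    ext y
    obtain ⟨P, rfl⟩ := Ideal.Quotient.mk_surjective y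
    rw [RingHom.mem_ker, hTb, Ideal.mem_span_singleton']
    constructor
    · intro hP
      obtain ⟨Q, hQ⟩ := psK_thK hil P
      have h1 : thK κ i l P ∈ RingHom.ker (Polynomial.mapRingHom
          (Ideal.Quotient.mk (Ideal.span {g0}))) := hP
      rw [Polynomial.ker_mapRingHom, Ideal.mk_ker, Ideal.map_span, Set.image_singleton,
        Ideal.mem_span_singleton'] at h1
      obtain ⟨q, hq⟩ := h1
      refine ⟨Ideal.Quotient.mk _ (Q - psK κ i l q * V), ?_⟩
      rw [← map_mul, Ideal.Quotient.eq, Ideal.mem_span_singleton']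
      refine ⟨- psK κ i l q, ?_⟩
      have h3 : psK κ i l (thK κ i l P) = psK κ i l q * rename Subtype.val g0 := by
        rw [← hq, map_mul, psK_C]
      rw [h3] at hQ
      rw [hW]
      linear_combination hQ
    · rintro ⟨z, hz⟩
      rw [← hTb, ← hz, map_mul, hTb, show Th (X l) = 0 from by
        show (Polynomial.mapRingHom _) (thK κ i l (X l)) = 0
        rw [thK_Xl hil, map_zero], mul_zero]
  have hzq : ZeroProp ((MvPolynomial σ κ ⧸ Ideal.span {W}) ⧸
      Ideal.span {Ideal.Quotient.mk (Ideal.span {W}) (X l)}) := by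
    refine ZeroProp.of_equiv ?_ (ZeroProp.polynomial hz)
    exact (Ideal.quotEquivOfEq hker.symm).trans (RingHom.quotientKerEquivOfSurjective hsurj)
  refine kills_of_zp _ hzq ?_ lam h0
  intro y hy
  obtain ⟨P, rfl⟩ := Ideal.Quotient.mk_surjective y
  rw [← map_mul, Ideal.Quotient.eq_zero_iff_mem, Ideal.mem_span_singleton'] at hy
  obtain ⟨Q, hQ⟩ := hy
  have hprime : Prime (X l : MvPolynomial σ κ) := MvPolynomial.X_prime
  have h1 : (X l : MvPolynomial σ κ) ∣ rename Subtype.val g0 * Q := by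
    refine ⟨P - V * Q, ?_⟩
    rw [hW] at hQ
    linear_combination hQ
  have h2 : ¬ (X l : MvPolynomial σ κ) ∣ rename Subtype.val g0 := by
    rintro ⟨R, hR⟩
    have h3 := congrArg (thK κ i l) hR
    rw [thK_rename, map_mul, thK_Xl hil, zero_mul] at h3
    exact hg0 (Polynomial.C_eq_zero.mp h3)
  obtain ⟨Q', hQ'⟩ := (hprime.dvd_or_dvd h1).resolve_left h2
  refine Ideal.Quotient.eq_zero_iff_mem.mpr (Ideal.mem_span_singleton'.mpr ⟨Q', ?_⟩)
  refine mul_left_cancel₀ (MvPolynomial.X_ne_zero l) ?_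
  rw [← hQ, hQ']
  ring

end rule

end Pool.Agent.HT51
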