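import Pool.Agent.HT51.LinkZ

/-!
# Definitions for leading forms of Fermat and chain type
-/

universe u

namespace Pool.Agent.HT51

open MvPolynomial

/-- Additive functions vanishing on the ring and killing `s` vanish. -/
def ZeroPropK (A : Type u) [CommRing A] [IsNoetherianRing A] (s : A) : Prop :=
  ∀ nu : AddFn A, nu.val A = 0 → nu.Kills s →
    ∀ (W : Type u) [AddCommGroup W] [Module A W] [Module.Finite A W], nu.val W = 0

/-- The substitution `X i ↦ X i ^ a`. -/
noncomputable def powX (κ : Type u) [Field κ] {σ : Type} [DecidableEq σ] (i : σ) (a : ℕ) :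
    MvPolynomial σ κ →+* MvPolynomial σ κ :=
  eval₂Hom C fun j => if j = i then X i ^ a else X j

/-- `∑ c_j X_j ^ a_j X_{nx j}` (no last factor if `nx j = none`). -/
noncomputable def cform {κ : Type u} [CommRing κ] {σ : Type} [Fintype σ] (c : σ → κ) (a : σ → ℕ)
    (nx : σ → Option σ) : MvPolynomial σ κ :=
  ∑ j, C (c j) * X j ^ a j * (nx j).elim 1 X

end Pool.Agent.HT51
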