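import Pool.Agent.HT51.Defs

/-!
# Merging labels: Jacobi sums
-/

universe u

namespace Pool.Agent.HT51

open Finset

/-- a character with a prescribed value at the generator -/
lemma exists_char (k : Type u) [Field k] [Fintype k] (ω : kˣ) (hω : ∀ x : kˣ, x ∈ Subgroup.zpowers ω) (z : ℂ)
    (hz : z ^ (Fintype.card k - 1) = 1) : ∃ χ : MulChar k ℂ, χ ω = z := by
  classical
  have h2 : 0 < Fintype.card k - 1 := by
    have := Fintype.one_lt_card (α := k)
    omega
  have hz0 : z ≠ 0 := by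
    rintro rfl
    rw [zero_pow (by omega)] at hz
    exact zero_ne_one hz
  have hmem : (Units.mk0 z hz0) ∈ rootsOfUnity (Fintype.card kˣ) ℂ := by
    rw [mem_rootsOfUnity, Fintype.card_units]
    ext
    rw [Units.val_pow_eq_pow_val, Units.val_mk0, Units.val_one]
    exact hz
  exact ⟨MulChar.ofRootOfUnity hmem hω, MulChar.ofRootOfUnity_spec hmem hω⟩

/-- the absolute value of a Jacobi sum -/
lemma norm_jacobi (k : Type u) [Field k] [Fintype k] {χ ψ : MulChar k ℂ} (hχ : χ ≠ 1) (hψ : ψ ≠ 1)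
    (hχψ : χ * ψ ≠ 1) : ‖jacobiSum χ⁻¹ ψ⁻¹‖ ^ 2 = (Fintype.card k : ℝ) := by
  classical
  have hch : ringChar ℂ ≠ ringChar k := by
    rw [ringChar.eq_zero]
    intro h
    obtain ⟨n, hp, hc⟩ := FiniteField.card k (ringChar k)
    rw [← h] at hp
    exact Nat.not_prime_zero hp
  have h1 := jacobiSum_mul_jacobiSum_inv hch hχ hψ hχψ
  have h2 : jacobiSum χ⁻¹ ψ⁻¹ = (starRingEnd ℂ) (jacobiSum χ ψ) := by
    rw [← jacobiSum_ringHomComp]
    congr 1
    · rw [← MulChar.star_eq_inv]
      ext a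
      rfl
    · rw [← MulChar.star_eq_inv]
      ext a
      rfl
  rw [h2, Complex.mul_conj] at h1
  rw [h2, RCLike.norm_conj, ← Complex.normSq_eq_norm_sq]
  exact_mod_cast h1

/-- the labels which are used -/
def lab {N : ℕ} (c : Fin N → Fin N) : Finset (Fin N) := univ.image c

lemma mem_lab {N : ℕ} {c : Fin N → Fin N} {a : Fin N} : a ∈ lab c ↔ ∃ i, c i = a := by
  simp [lab]

lemma lab_merge {N : ℕ} {c : Fin N → Fin N} {a b : Fin N} (hab : a ≠ b) (ha : a ∈ lab c) :
    lab (merge c a b) = (lab c).erase b := by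
  ext x
  rw [mem_erase, mem_lab, mem_lab]
  constructor
  · rintro ⟨i, rfl⟩
    unfold merge
    by_cases h : c i = b
    · rw [if_pos h]
      exact ⟨hab, mem_lab.1 ha⟩
    · rw [if_neg h]
      exact ⟨h, i, rfl⟩
  · rintro ⟨hx, i, rfl⟩
    exact ⟨i, by simp [merge, hx]⟩

lemma zb_merge_same {N : ℕ} (z : Fin N → ℂ) {c : Fin N → Fin N} {a b : Fin N} (hab : a ≠ b) :
    zb z (merge c a b) a = zb z c a * zb z c b := by
  unfold zb
  rw [← prod_union]
  · refine prod_congr ?_ fun _ _ => rfl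
    ext i
    simp only [mem_filter, mem_univ, true_and, mem_union, merge]
    by_cases h : c i = b
    · simp [h]
    · simp [h]
  · rw [disjoint_filter]
    intro i _ h1 h2
    exact hab (h1.symm.trans h2)

lemma zb_merge_other {N : ℕ} (z : Fin N → ℂ) {c : Fin N → Fin N} {a b x : Fin N} (hxa : x ≠ a) (hxb : x ≠ b) :
    zb z (merge c a b) x = zb z c x := by
  unfold zb
  refine prod_congr ?_ fun _ _ => rfl
  ext i
  simp only [mem_filter, mem_univ, true_and, merge]
  by_cases h : c i = b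
  · rw [if_pos h, h]
    exact ⟨fun h => absurd h.symm hxa, fun h => absurd h.symm hxb⟩
  · rw [if_neg h]

lemma zb_pow {N : ℕ} {z : Fin N → ℂ} {m : ℕ} (hz : ∀ i, z i ^ m = 1) (c : Fin N → Fin N) (a : Fin N) :
    zb z c a ^ m = 1 := by
  unfold zb
  rw [← prod_pow]
  exact prod_eq_one fun i _ => hz i

lemma prod_zb {N : ℕ} (z : Fin N → ℂ) (c : Fin N → Fin N) : ∏ a ∈ lab c, zb z c a = ∏ i, z i := by
  unfold zb
  exact prod_fiberwise_of_maps_to (fun i _ => mem_lab.2 ⟨i, rfl⟩) z

/-- the choice of the pair of labels -/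
lemma exists_pair {N : ℕ} (L : Finset (Fin N)) (ζ : Fin N → ℂ) (h1 : ∀ a ∈ L, ζ a ≠ 1) (hp : ∏ a ∈ L, ζ a = 1)
    (h3 : 3 ≤ L.card) (ho : Odd L.card ∨ ∃ a ∈ L, ζ a ≠ -1) :
    ∃ a ∈ L, ∃ b ∈ L, a ≠ b ∧ ζ a * ζ b ≠ 1 ∧
      (L.card = 3 ∨ Odd (L.card - 1) ∨ ∃ x ∈ L.erase b, (if x = a then ζ a * ζ b else ζ x) ≠ -1) := by
  have key : ∃ a ∈ L, ∃ b ∈ L, a ≠ b ∧ ζ a * ζ b ≠ 1 := by
    by_contra hcon
    push Not at hcon
    have hall : ∀ a ∈ L, ζ a = -1 := by
      intro a ha
      have hc1 : 2 ≤ (L.erase a).card := by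
        rw [card_erase_of_mem ha]
        omega
      obtain ⟨b, hb, c, hc, hbc⟩ := one_lt_card.1 (show 1 < (L.erase a).card by omega)
      rw [mem_erase] at hb hc
      have e1 := hcon a ha b hb.2 hb.1.symm
      have e2 := hcon a ha c hc.2 hc.1.symm
      have e3 := hcon b hb.2 c hc.2 hbc
      have ha0 : ζ a ≠ 0 := by
        intro h
        rw [h, zero_mul] at e1
        exact zero_ne_one e1
      have e4 : ζ b = ζ c := mul_left_cancel₀ ha0 (e1.trans e2.symm)
      rw [← e4] at e3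
      have e5 : ζ b = -1 := by
        rcases mul_self_eq_one_iff.1 e3 with h | h
        · exact absurd h (h1 b hb.2)
        · exact h
      rw [e5] at e1
      have : ζ a = -(ζ a * -1) := by ring
      rw [this, e1]
    have hcard : ((-1 : ℂ)) ^ L.card = 1 := by
      rw [prod_congr rfl hall, prod_const] at hp
      exact hp
    rcases ho with ho | ⟨a, ha, ha'⟩
    · rw [ho.neg_one_pow] at hcard
      norm_num at hcard
    · exact ha' (hall a ha)
  obtain ⟨a, ha, b, hb, hab, hne⟩ := key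
  by_cases hgood : L.card = 3 ∨ Odd (L.card - 1) ∨ ∃ x ∈ L.erase b, (if x = a then ζ a * ζ b else ζ x) ≠ -1
  · exact ⟨a, ha, b, hb, hab, hne, hgood⟩
  · rw [not_or, not_or] at hgood
    obtain ⟨g1, g2, g3⟩ := hgood
    push Not at g3
    have hab1 : ζ a * ζ b = -1 := by
      have := g3 a (mem_erase.2 ⟨hab, ha⟩)
      rwa [if_pos rfl] at this
    have hrest : ∀ x ∈ L, x ≠ a → x ≠ b → ζ x = -1 := by
      intro x hx hxa hxb
      have := g3 x (mem_erase.2 ⟨hxb, hx⟩)
      rwa [if_neg hxa] at this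
    obtain ⟨x, hx, hxa, hxb⟩ : ∃ x ∈ L, x ≠ a ∧ x ≠ b := by
      have hc : 0 < ((L.erase a).erase b).card := by
        have h4 := pred_card_le_card_erase (s := L.erase a) (a := b)
        rw [card_erase_of_mem ha] at h4
        omega
      obtain ⟨x, hx⟩ := card_pos.1 hc
      rw [mem_erase, mem_erase] at hx
      exact ⟨x, hx.2.2, hx.2.1, hx.1⟩
    have hζx := hrest x hx hxa hxb
    have ha1 : ζ a ≠ -1 := by
      intro h
      rw [h] at hab1
      have : ζ b = 1 := by
        have : ζ b = -(-1 * ζ b) := by ring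
        rw [this, hab1, neg_neg]
      exact h1 b hb this
    refine ⟨a, ha, x, hx, hxa.symm, ?_, Or.inr (Or.inr ⟨a, mem_erase.2 ⟨hxa.symm, ha⟩, ?_⟩)⟩
    · rw [hζx]
      intro h
      apply ha1
      have : ζ a = -(ζ a * -1) := by ring
      rw [this, h]
    · rw [if_pos rfl, hζx]
      intro h
      apply h1 a ha
      have : ζ a = -(ζ a * -1) := by ring
      rw [this, h, neg_neg]

/-- (COMB) `ω` a generator of `kˣ`, `chi z` the character with `chi z ω = z`. -/
theorem comb (k : Type u) [Field k] [Fintype k] (ω : kˣ) (hω : ∀ x : kˣ, x ∈ Subgroup.zpowers ω)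
    {N : ℕ} (hN : Odd N) (z : Fin N → ℂ) (hz : ∀ i, z i ^ (Fintype.card k - 1) = 1)
    (hz1 : ∀ i, z i ≠ 1) (hprod : ∏ i, z i = 1) :
    ∃ γ : ℂ, ‖γ‖ ^ 2 = (Fintype.card k : ℝ) ^ (N - 2) ∧
      ∀ (V : (Fin N → Fin N) → ℂ) (V0 : ℂ),
        (∀ (c : Fin N → Fin N) (a b : Fin N) (χ ψ : MulChar k ℂ), a ≠ b → (∃ i, c i = a) →
          (∃ i, c i = b) → (∃ i, c i ≠ a ∧ c i ≠ b) → χ ω = zb z c a → ψ ω = zb z c b →
          zb z c a * zb z c b ≠ 1 →
          V c = - jacobiSum χ⁻¹ ψ⁻¹ * V (merge c a b)) →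
        (∀ (c : Fin N → Fin N) (a b : Fin N) (χ : MulChar k ℂ), a ≠ b → (∃ i, c i = a) →
          (∃ i, c i = b) → (∀ i, c i = a ∨ c i = b) → χ ω = zb z c a → zb z c a ≠ 1 →
          V c = χ (-1) * V0) →
        V id = γ * V0 := by
  have main : ∀ m : ℕ, 2 ≤ m → ∀ c : Fin N → Fin N, (lab c).card = m → (∀ a ∈ lab c, zb z c a ≠ 1) →
      (m = 2 ∨ Odd m ∨ ∃ a ∈ lab c, zb z c a ≠ -1) →
      ∃ γ : ℂ, ‖γ‖ ^ 2 = (Fintype.card k : ℝ) ^ (m - 2) ∧
      ∀ (V : (Fin N → Fin N) → ℂ) (V0 : ℂ),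
        (∀ (c : Fin N → Fin N) (a b : Fin N) (χ ψ : MulChar k ℂ), a ≠ b → (∃ i, c i = a) →
          (∃ i, c i = b) → (∃ i, c i ≠ a ∧ c i ≠ b) → χ ω = zb z c a → ψ ω = zb z c b →
          zb z c a * zb z c b ≠ 1 →
          V c = - jacobiSum χ⁻¹ ψ⁻¹ * V (merge c a b)) →
        (∀ (c : Fin N → Fin N) (a b : Fin N) (χ : MulChar k ℂ), a ≠ b → (∃ i, c i = a) →
          (∃ i, c i = b) → (∀ i, c i = a ∨ c i = b) → χ ω = zb z c a → zb z c a ≠ 1 →
          V c = χ (-1) * V0) →
        V c = γ * V0 := by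
    intro m hm
    induction m, hm using Nat.le_induction with
    | base =>
      intro c hc h1 _
      obtain ⟨a, b, hab, hL⟩ := card_eq_two.1 hc
      obtain ⟨χ, hχ⟩ := exists_char k ω hω (zb z c a) (zb_pow hz c a)
      refine ⟨χ (-1), ?_, ?_⟩
      · have h2 : χ (-1) * χ (-1) = 1 := by
          rw [← map_mul, neg_mul_neg, one_mul, map_one]
        have h3 : ‖χ (-1)‖ * ‖χ (-1)‖ = 1 := by rw [← norm_mul, h2, norm_one]
        rw [pow_two, h3]
        simp
      · intro V V0 _ h2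
        refine h2 c a b χ hab (mem_lab.1 (by rw [hL]; simp)) (mem_lab.1 (by rw [hL]; simp)) ?_ hχ
          (h1 a (by rw [hL]; simp))
        intro i
        have : c i ∈ lab c := mem_lab.2 ⟨i, rfl⟩
        rw [hL, mem_insert, mem_singleton] at this
        exact this
    | succ m hm ih =>
      intro c hc h1 ho
      obtain ⟨a, ha, b, hb, hab, hne, hnext⟩ := exists_pair (lab c) (zb z c) h1 ((prod_zb z c).trans hprod) (by omega) (by
        rw [hc]
        rcases ho with h | h | h
        · omega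
        · exact Or.inl h
        · exact Or.inr h)
      have hlab := lab_merge hab ha
      have hcard : (lab (merge c a b)).card = m := by
        rw [hlab, card_erase_of_mem hb, hc]
        rfl
      have hzm : ∀ x ∈ lab (merge c a b), zb z (merge c a b) x = if x = a then zb z c a * zb z c b else zb z c x := by
        intro x hx
        rw [hlab, mem_erase] at hx
        by_cases hxa : x = a
        · rw [if_pos hxa, hxa, zb_merge_same z hab]
        · rw [if_neg hxa, zb_merge_other z hxa hx.1]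
      obtain ⟨γ', hγ', hV⟩ := ih (merge c a b) hcard (by
        intro x hx
        rw [hzm x hx]
        split_ifs with hxa
        · exact hne
        · rw [hlab, mem_erase] at hx
          exact h1 x hx.2) (by
        rw [hc] at hnext
        rcases hnext with h | h | ⟨x, hx, hx'⟩
        · exact Or.inl (by omega)
        · exact Or.inr (Or.inl (by simpa using h))
        · refine Or.inr (Or.inr ⟨x, by rw [hlab]; exact hx, ?_⟩)
          rw [hzm x (by rw [hlab]; exact hx)]
          exact hx')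
      obtain ⟨χ, hχ⟩ := exists_char k ω hω (zb z c a) (zb_pow hz c a)
      obtain ⟨ψ, hψ⟩ := exists_char k ω hω (zb z c b) (zb_pow hz c b)
      have hχ1 : χ ≠ 1 := by
        rintro rfl
        rw [MulChar.one_apply_coe] at hχ
        exact h1 a ha hχ.symm
      have hψ1 : ψ ≠ 1 := by
        rintro rfl
        rw [MulChar.one_apply_coe] at hψ
        exact h1 b hb hψ.symm
      have hχψ : χ * ψ ≠ 1 := by
        intro h
        have h2 : (χ * ψ) ω = 1 := by rw [h, MulChar.one_apply_coe]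
        rw [MulChar.mul_apply, hχ, hψ] at h2
        exact hne h2
      refine ⟨-jacobiSum χ⁻¹ ψ⁻¹ * γ', ?_, ?_⟩
      · rw [norm_mul, mul_pow, hγ', norm_neg, norm_jacobi k hχ1 hψ1 hχψ, show m + 1 - 2 = m - 2 + 1 by omega, pow_succ]
        ring
      · intro V V0 hA hB
        rw [hA c a b χ ψ hab (mem_lab.1 ha) (mem_lab.1 hb) ?_ hχ hψ hne, hV V V0 hA hB]
        · ring
        · have hc2 : 0 < (((lab c).erase a).erase b).card := by
            have h4 := pred_card_le_card_erase (s := (lab c).erase a) (a := b)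
            rw [card_erase_of_mem ha] at h4
            omega
          obtain ⟨x, hx⟩ := card_pos.1 hc2
          rw [mem_erase, mem_erase, mem_lab] at hx
          obtain ⟨hxb, hxa, i, rfl⟩ := hx
          exact ⟨i, hxa, hxb⟩
  have hzid : ∀ a, zb z id a = z a := by
    intro a
    unfold zb
    simp only [id]
    rw [filter_eq' univ a, if_pos (mem_univ a), prod_singleton]
  have hlabid : (lab (id : Fin N → Fin N)).card = N := by
    have : lab (id : Fin N → Fin N) = univ := by
      ext x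
      simp [mem_lab]
    rw [this, card_univ, Fintype.card_fin]
  have hN3 : 2 ≤ N := by
    by_contra h
    have hN1 : N = 1 := by
      obtain ⟨r, hr⟩ := hN
      omega
    subst hN1
    rw [Fin.prod_univ_one] at hprod
    exact hz1 0 hprod
  exact main N hN3 id hlabid (fun a _ => by rw [hzid]; exact hz1 a) (Or.inr (Or.inl hN))

end Pool.Agent.HT51
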