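import Pool.Agent.HT51.AddFn

/-!
# (H), (PZ): additive functions on polynomial rings

(H) An additive function on `C[X]` (`C` Noetherian) which vanishes on `C[X]/pC[X]` for all primes
`p` of `C` vanishes on all finite modules.  (PZ) An additive function on `k[X_1, .., X_n]` which
vanishes on the ring vanishes on all finite modules.
-/

universe u

namespace Pool.Agent.HT51

open Polynomial

section H

variable {C : Type u} [CommRing C]

lemma map_mk_eq_zero_iff (p : Ideal C) (v : C[X]) :
    v.map (Ideal.Quotient.mk p) = 0 ↔ v ∈ p.map (Polynomial.C : C →+* C[X]) := by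
  rw [Ideal.mem_map_C_iff, Polynomial.ext_iff]
  refine forall_congr' fun m => ?_
  rw [Polynomial.coeff_map, Polynomial.coeff_zero, Ideal.Quotient.eq_zero_iff_mem]

/-- Pseudo-division. -/
lemma pseudo_div (p : Ideal C) [p.IsPrime] (q : Ideal C[X])
    (u : C[X]) (hu : u ∈ q) (hup : u ∉ p.map (Polynomial.C : C →+* C[X]))
    (hmin : ∀ v ∈ q, v ∉ p.map (Polynomial.C : C →+* C[X]) →
      (u.map (Ideal.Quotient.mk p)).natDegree ≤ (v.map (Ideal.Quotient.mk p)).natDegree)
    (m : ℕ) : ∀ v ∈ q, (v.map (Ideal.Quotient.mk p)).degree < m →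
      ∃ N : ℕ, Polynomial.C (u.coeff (u.map (Ideal.Quotient.mk p)).natDegree) ^ N * v ∈
        Ideal.span {u} ⊔ p.map (Polynomial.C : C →+* C[X]) := by
  induction m with
  | zero =>
    intro v _ hv
    refine ⟨0, ?_⟩
    rw [pow_zero, one_mul]
    refine Ideal.mem_sup_right ?_
    rw [← map_mk_eq_zero_iff]
    by_contra h
    have h1 := Polynomial.zero_le_degree_iff.mpr h
    exact absurd (lt_of_le_of_lt h1 hv) (by simp)
  | succ m ih =>
    intro v hv hdeg
    by_cases hvp : v ∈ p.map (Polynomial.C : C →+* C[X])
    · exact ⟨0, by rw [pow_zero, one_mul]; exact Ideal.mem_sup_right hvp⟩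
    set ub := u.map (Ideal.Quotient.mk p) with hub
    set vb := v.map (Ideal.Quotient.mk p) with hvb
    have hub0 : ub ≠ 0 := fun h => hup ((map_mk_eq_zero_iff p u).mp h)
    have hvb0 : vb ≠ 0 := fun h => hvp ((map_mk_eq_zero_iff p v).mp h)
    have hle : ub.natDegree ≤ vb.natDegree := hmin v hv hvp
    set c := u.coeff ub.natDegree with hc
    set b := v.coeff vb.natDegree with hb
    have hcb : Ideal.Quotient.mk p c = ub.leadingCoeff := by
      rw [Polynomial.leadingCoeff, hub, Polynomial.coeff_map]
    have hbb : Ideal.Quotient.mk p b = vb.leadingCoeff := by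
      rw [Polynomial.leadingCoeff, hvb, Polynomial.coeff_map]
    let v' : C[X] := Polynomial.C c * v - Polynomial.C b * X ^ (vb.natDegree - ub.natDegree) * u
    have hv' : v' ∈ q := q.sub_mem (q.mul_mem_left _ hv) (q.mul_mem_left _ hu)
    have hmap : v'.map (Ideal.Quotient.mk p) = Polynomial.C ub.leadingCoeff * vb
        - Polynomial.C vb.leadingCoeff * X ^ (vb.natDegree - ub.natDegree) * ub := by
      simp only [v', Polynomial.map_sub, Polynomial.map_mul, Polynomial.map_C, Polynomial.map_pow,
        Polynomial.map_X, hcb, hbb, ← hub, ← hvb]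
    have hlcu : ub.leadingCoeff ≠ 0 := Polynomial.leadingCoeff_ne_zero.mpr hub0
    have hlcv : vb.leadingCoeff ≠ 0 := Polynomial.leadingCoeff_ne_zero.mpr hvb0
    have hlt : (v'.map (Ideal.Quotient.mk p)).degree < vb.degree := by
      rw [hmap]
      have h1 : (Polynomial.C ub.leadingCoeff * vb).degree = vb.degree :=
        Polynomial.degree_C_mul hlcu
      have h2 : (Polynomial.C vb.leadingCoeff * X ^ (vb.natDegree - ub.natDegree) * ub).degree
          = vb.degree := by
        rw [Polynomial.degree_mul, Polynomial.degree_C_mul_X_pow _ hlcv,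
          Polynomial.degree_eq_natDegree hub0, Polynomial.degree_eq_natDegree hvb0]
        norm_cast
        omega
      rw [← h1]
      refine Polynomial.degree_sub_lt_left (h1.trans h2.symm) ?_ ?_
      · exact mul_ne_zero (Polynomial.C_ne_zero.mpr hlcu) hvb0
      · rw [Polynomial.leadingCoeff_mul, Polynomial.leadingCoeff_mul, Polynomial.leadingCoeff_mul,
          Polynomial.leadingCoeff_C, Polynomial.leadingCoeff_C, Polynomial.leadingCoeff_X_pow,
          mul_one, mul_comm]
    have hlt2 : (v'.map (Ideal.Quotient.mk p)).degree < m := by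
      refine lt_of_lt_of_le hlt ?_
      rw [Polynomial.degree_eq_natDegree hvb0] at hdeg ⊢
      have : vb.natDegree < m + 1 := by exact_mod_cast hdeg
      exact_mod_cast Nat.lt_succ_iff.mp this
    obtain ⟨N, hN⟩ := ih v' hv' hlt2
    refine ⟨N + 1, ?_⟩
    have e : Polynomial.C c ^ (N + 1) * v = Polynomial.C c ^ N * v'
        + Polynomial.C c ^ N * (Polynomial.C b * X ^ (vb.natDegree - ub.natDegree)) * u := by
      simp only [v']; ring
    rw [e]
    refine Ideal.add_mem _ hN (Ideal.mem_sup_left ?_)
    exact Ideal.mul_mem_left _ _ (Ideal.subset_span rfl)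

variable [IsNoetherianRing C] (nu : AddFn (Polynomial C))

/-- The value of a quotient of `C[X]` by a prime which is not extended. -/
lemma homotopy_prime (I : Ideal C)
    (ih : ∀ J > I, ∀ (W : Type u) [AddCommGroup W] [Module C[X] W] [Module.Finite C[X] W],
      (∀ c ∈ J, ∀ w : W, Polynomial.C c • w = 0) → nu.val W = 0)
    (h : ∀ p : Ideal C, p.IsPrime → nu.val (Polynomial C ⧸ p.map Polynomial.C) = 0)
    (q : Ideal C[X]) (hq : q.IsPrime) (hIq : ∀ c ∈ I, Polynomial.C c ∈ q) :
    nu.val (C[X] ⧸ q) = 0 := by
  classical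
  have hp : (q.comap (Polynomial.C : C →+* C[X])).IsPrime := Ideal.comap_isPrime _ _
  obtain ⟨p, hpq⟩ : ∃ p, p = q.comap (Polynomial.C : C →+* C[X]) := ⟨_, rfl⟩
  rw [← hpq] at hp
  have hIp : I ≤ p := by rw [hpq]; exact hIq
  rcases lt_or_eq_of_le hIp with hlt | heq
  · refine ih p hlt (C[X] ⧸ q) ?_
    intro c hc w
    obtain ⟨x, rfl⟩ := Ideal.Quotient.mk_surjective w
    rw [hpq] at hc
    have : Polynomial.C c • (Ideal.Quotient.mk q x) = Ideal.Quotient.mk q (Polynomial.C c * x) := rfl
    rw [this, Ideal.Quotient.eq_zero_iff_mem]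
    exact q.mul_mem_right _ hc
  · have hpmap : p.map (Polynomial.C : C →+* C[X]) ≤ q := by
      rw [Ideal.map_le_iff_le_comap, hpq]
    by_cases hqp : q = p.map (Polynomial.C : C →+* C[X])
    · rw [hqp]; exact h p hp
    have hex : ∃ d : ℕ, ∃ u ∈ q, u ∉ p.map (Polynomial.C : C →+* C[X]) ∧
        (u.map (Ideal.Quotient.mk p)).natDegree = d := by
      by_contra hno
      refine hqp (le_antisymm ?_ hpmap)
      intro v hv
      by_contra hv2
      exact hno ⟨_, v, hv, hv2, rfl⟩
    obtain ⟨u, hu, hup, hud⟩ := Nat.find_spec hex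
    have hmin : ∀ v ∈ q, v ∉ p.map (Polynomial.C : C →+* C[X]) →
        (u.map (Ideal.Quotient.mk p)).natDegree ≤ (v.map (Ideal.Quotient.mk p)).natDegree := by
      intro v hv hvp
      rw [hud]
      exact Nat.find_min' hex ⟨v, hv, hvp, rfl⟩
    set c := u.coeff (u.map (Ideal.Quotient.mk p)).natDegree with hc
    set J := Ideal.span {u} ⊔ p.map (Polynomial.C : C →+* C[X]) with hJ
    have hub0 : u.map (Ideal.Quotient.mk p) ≠ 0 := fun h => hup ((map_mk_eq_zero_iff p u).mp h)
    have hcp : c ∉ p := by
      intro h
      rw [← Ideal.Quotient.eq_zero_iff_mem, hc, ← Polynomial.coeff_map] at h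
      exact Polynomial.leadingCoeff_ne_zero.mpr hub0 h
    have hJq : J ≤ q := by
      rw [hJ, sup_le_iff, Ideal.span_le, Set.singleton_subset_iff]
      exact ⟨hu, hpmap⟩
    -- value of `C[X]/J`
    have hM0 : nu.val (C[X] ⧸ p.map (Polynomial.C : C →+* C[X])) = 0 := h p hp
    have hpJ : p.map (Polynomial.C : C →+* C[X]) ≤ J := le_sup_right
    have hvJ : nu.val (C[X] ⧸ J) = 0 := by
      have e := nu.add' (C[X] ⧸ p.map (Polynomial.C : C →+* C[X]))
        (C[X] ⧸ p.map (Polynomial.C : C →+* C[X])) (C[X] ⧸ J)
        (LinearMap.lsmul C[X] _ u) (Submodule.mapQ (p.map Polynomial.C) J LinearMap.id hpJ)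
        ?_ ?_ ?_ inferInstance
      · rw [hM0, zero_add] at e
        exact e.symm
      · rw [injective_iff_map_eq_zero]
        intro x hx
        obtain ⟨x, rfl⟩ := Ideal.Quotient.mk_surjective x
        have hx' : Ideal.Quotient.mk (p.map (Polynomial.C : C →+* C[X])) (u * x) = 0 := hx
        rw [Ideal.Quotient.eq_zero_iff_mem, ← map_mk_eq_zero_iff, Polynomial.map_mul,
          mul_eq_zero] at hx'
        rcases hx' with h1 | h1
        · exact absurd h1 hub0
        · rw [Ideal.Quotient.eq_zero_iff_mem, ← map_mk_eq_zero_iff]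
          exact h1
      · intro x
        obtain ⟨x, rfl⟩ := Ideal.Quotient.mk_surjective x
        constructor
        · intro hx
          have hx' : x ∈ J := by
            rw [← Ideal.Quotient.eq_zero_iff_mem]
            exact hx
          rw [hJ, Ideal.mem_span_singleton_sup] at hx'
          obtain ⟨a, b, hb, hab⟩ := hx'
          refine ⟨Ideal.Quotient.mk _ a, ?_⟩
          show Ideal.Quotient.mk (p.map (Polynomial.C : C →+* C[X])) (u * a) = _
          rw [Ideal.Quotient.eq, ← hab]
          have : u * a - (a * u + b) = -b := by ring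
          rw [this]
          exact Ideal.neg_mem_iff _ |>.mpr hb
        · rintro ⟨y, hy⟩
          obtain ⟨y, rfl⟩ := Ideal.Quotient.mk_surjective y
          have hy' : Ideal.Quotient.mk (p.map (Polynomial.C : C →+* C[X])) (u * y)
            = Ideal.Quotient.mk _ x := hy
          rw [Ideal.Quotient.eq] at hy'
          show Ideal.Quotient.mk J x = 0
          rw [Ideal.Quotient.eq_zero_iff_mem]
          have : x = u * y - (u * y - x) := by ring
          rw [this]
          exact J.sub_mem (J.mul_mem_right _ (Ideal.mem_sup_left (Ideal.subset_span rfl)))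
            (hpJ hy')
      · intro y
        obtain ⟨y, rfl⟩ := Ideal.Quotient.mk_surjective y
        exact ⟨Ideal.Quotient.mk _ y, rfl⟩
    -- uniform exponent
    obtain ⟨N, hN⟩ : ∃ N : ℕ, ∀ v ∈ q, Polynomial.C c ^ N * v ∈ J := by
      have hv1 : ∀ v ∈ q, ∃ N : ℕ, Polynomial.C c ^ N * v ∈ J := by
        intro v hv
        by_cases hv0 : v.map (Ideal.Quotient.mk p) = 0
        · exact ⟨0, by rw [pow_zero, one_mul]; exact hpJ ((map_mk_eq_zero_iff p v).mp hv0)⟩
        · refine pseudo_div p q u hu hup hmin ((v.map (Ideal.Quotient.mk p)).natDegree + 1) v hv ?_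
          rw [Polynomial.degree_eq_natDegree hv0]
          exact_mod_cast Nat.lt_succ_self _
      obtain ⟨S, hS⟩ := (inferInstance : IsNoetherianRing C[X]).noetherian q
      have hSq : ∀ s ∈ S, s ∈ q := by
        intro s hs
        rw [← hS]
        exact Submodule.subset_span hs
      choose! f hf using hv1
      refine ⟨S.sup f, ?_⟩
      intro v hv
      rw [← hS] at hv
      induction hv using Submodule.span_induction with
      | mem s hs =>
        obtain ⟨j, hj⟩ := Nat.exists_eq_add_of_le (Finset.le_sup (f := f) hs)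
        rw [hj, pow_add, mul_comm (Polynomial.C c ^ f s), mul_assoc]
        exact J.mul_mem_left _ (hf s (hSq s hs))
      | zero => rw [mul_zero]; exact J.zero_mem
      | add x y _ _ hx hy => rw [mul_add]; exact J.add_mem hx hy
      | smul a x _ hx =>
        rw [smul_eq_mul, mul_left_comm]
        exact J.mul_mem_left _ hx
    -- the kernel of `C[X]/J → C[X]/q`
    let g : (C[X] ⧸ J) →ₗ[C[X]] (C[X] ⧸ q) := Submodule.mapQ J q LinearMap.id hJq
    have hg : Function.Surjective g := by
      intro y
      obtain ⟨y, rfl⟩ := Ideal.Quotient.mk_surjective y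
      exact ⟨Ideal.Quotient.mk _ y, rfl⟩
    have hK : nu.val (LinearMap.ker g) = 0 := by
      refine ih (p ⊔ Ideal.span {c ^ N}) ?_ (LinearMap.ker g) ?_
      · rw [heq]
        refine lt_of_le_of_ne le_sup_left ?_
        intro h
        apply hcp
        refine hp.mem_of_pow_mem N ?_
        rw [h]
        exact Ideal.mem_sup_right (Ideal.subset_span rfl)
      · rintro d hd ⟨w, hw⟩
        apply Subtype.ext
        show Polynomial.C d • w = 0
        obtain ⟨w, rfl⟩ := Ideal.Quotient.mk_surjective w
        have hwq : w ∈ q := by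
          rw [← Ideal.Quotient.eq_zero_iff_mem]
          exact hw
        show Ideal.Quotient.mk J (Polynomial.C d * w) = 0
        rw [Ideal.Quotient.eq_zero_iff_mem]
        rw [sup_comm, Ideal.mem_span_singleton_sup] at hd
        obtain ⟨a, b, hb, rfl⟩ := hd
        rw [map_add, map_mul, map_pow, add_mul, mul_assoc]
        refine J.add_mem (J.mul_mem_left _ (hN w hwq)) ?_
        exact J.mul_mem_right _ (hpJ (Ideal.mem_map_of_mem _ hb))
    have e2 := nu.val_ker_range g
    rw [hvJ, hK, zero_add, LinearMap.range_eq_top.mpr hg] at e2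
    rw [nu.val_congr (Submodule.topEquiv (R := C[X]) (M := C[X] ⧸ q))] at e2
    exact e2.symm

/-- (H) -/
theorem homotopy
    (h : ∀ p : Ideal C, p.IsPrime → nu.val (Polynomial C ⧸ p.map Polynomial.C) = 0)
    (W : Type u) [AddCommGroup W] [Module (Polynomial C) W] [Module.Finite (Polynomial C) W] :
    nu.val W = 0 := by
  have main : ∀ I : Ideal C, ∀ (W : Type u) [AddCommGroup W] [Module C[X] W]
      [Module.Finite C[X] W], (∀ c ∈ I, ∀ w : W, Polynomial.C c • w = 0) → nu.val W = 0 := by
    intro I
    induction I using IsNoetherian.induction with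
    | hgt I ih =>
      intro W _ _ hfin hI
      revert hI
      induction hfin using IsNoetherianRing.induction_on_isQuotientEquivQuotientPrime C[X] with
      | subsingleton N => intro _; exact nu.val_of_subsingleton N
      | quotient N P e =>
        intro hN
        rw [nu.val_congr e]
        refine homotopy_prime nu I (fun J hJ => ih J hJ) h P.1 P.2 ?_
        intro c hc
        rw [← Ideal.Quotient.eq_zero_iff_mem]
        have h1 := congrArg e (hN c hc (e.symm (Ideal.Quotient.mk P.1 1)))
        rw [map_smul, LinearEquiv.apply_symm_apply, map_zero] at h1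
        have h2 : Polynomial.C c • (Ideal.Quotient.mk P.1 1)
          = Ideal.Quotient.mk P.1 (Polynomial.C c * 1) := rfl
        rwa [h2, mul_one] at h1
      | exact N₁ N₂ N₃ f g hf hg hfg h1 h3 =>
        intro hN
        have k1 : nu.val N₁ = 0 := by
          refine h1 ?_
          intro c hc w
          apply hf
          rw [map_smul, hN c hc, map_zero]
        have k3 : nu.val N₃ = 0 := by
          refine h3 ?_
          intro c hc w
          obtain ⟨v, rfl⟩ := hg w
          rw [← map_smul, hN c hc, map_zero]
        rw [nu.add' N₁ N₂ N₃ f g hf hfg hg inferInstance, k1, k3, add_zero]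
  exact main ⊥ W (fun c hc w => by
    rw [Ideal.mem_bot] at hc
    rw [hc, map_zero, zero_smul])

end H

section base

open TensorProduct

/-- An additive function on `A`-modules from one on `B`-modules by a flat base change. -/
noncomputable def AddFn.base {A B : Type u} [CommRing A] [CommRing B] [Algebra A B]
    [Module.Flat A B] (lam : AddFn B) : AddFn A where
  val M _ _ := lam.val (B ⊗[A] M)
  add' L M N _ _ _ _ _ _ f g hf hfg hg _ :=
    lam.add' (B ⊗[A] L) (B ⊗[A] M) (B ⊗[A] N) (f.baseChange B) (g.baseChange B)
      (Module.Flat.lTensor_preserves_injective_linearMap (M := B) f hf)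
      (lTensor_exact B hfg hg) (LinearMap.lTensor_surjective B hg) inferInstance

lemma AddFn.base_val {A B : Type u} [CommRing A] [CommRing B] [Algebra A B]
    [Module.Flat A B] (lam : AddFn B) (M : Type u) [AddCommGroup M] [Module A M] :
    (lam.base (A := A)).val M = lam.val (B ⊗[A] M) := rfl

lemma AddFn.base_self {A B : Type u} [CommRing A] [CommRing B] [Algebra A B]
    [Module.Flat A B] (lam : AddFn B) : (lam.base (A := A)).val A = lam.val B :=
  lam.val_congr (TensorProduct.AlgebraTensorModule.rid A B B)

lemma AddFn.val_pi {A : Type u} [CommRing A] (lam : AddFn A) (h0 : lam.val A = 0) (d : ℕ) :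
    lam.val (ULift.{u} (Fin d) → A) = 0 := by
  have key : ∀ d : ℕ, lam.val (Fin d → A) = 0 := by
    intro d
    induction d with
    | zero => exact lam.val_of_subsingleton _
    | succ d ih =>
      rw [lam.add' A (Fin (d + 1) → A) (Fin d → A) (LinearMap.single A (fun _ => A) 0)
        (LinearMap.funLeft A A Fin.succ) ?_ ?_ ?_ inferInstance, h0, ih, add_zero]
      · exact LinearMap.ker_eq_bot.mp (LinearMap.ker_single A (fun _ => A) 0)
      · intro x
        constructor
        · intro hx
          refine ⟨x 0, ?_⟩
          ext j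
          refine Fin.cases ?_ (fun j => ?_) j
          · simp
          · have := congrFun hx j
            simpa using this.symm
        · rintro ⟨y, rfl⟩
          ext j
          simp [LinearMap.funLeft]
      · intro y
        refine ⟨Fin.cons 0 y, ?_⟩
        ext j
        simp [LinearMap.funLeft]
  rw [← key d]
  exact lam.val_congr (LinearEquiv.funCongrLeft A A (Equiv.ulift.symm : Fin d ≃ _))

/-- `A` has the property that additive functions vanishing on the ring vanish. -/
def ZeroProp (A : Type u) [CommRing A] : Prop :=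
  ∀ nu : AddFn A, nu.val A = 0 → ∀ (W : Type u) [AddCommGroup W] [Module A W] [Module.Finite A W],
    nu.val W = 0

lemma ZeroProp.of_equiv {A C : Type u} [CommRing A] [CommRing C] (e : A ≃+* C)
    (h : ZeroProp C) : ZeroProp A := by
  intro nu h0 W _ _ _
  have he : (e : A →+* C).Finite := RingHom.Finite.of_surjective _ e.surjective
  have he' : (e.symm : C →+* A).Finite := RingHom.Finite.of_surjective _ e.symm.surjective
  let nu' : AddFn C := nu.res (e : A →+* C) he
  have h0' : nu'.val C = 0 := by
    show nu.val (Res (e : A →+* C) C) = 0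
    rw [← h0]
    refine (nu.val_congr (M := A) (N := Res (e : A →+* C) C) ?_).symm
    exact
      { toFun := fun a => e a
        invFun := fun c => e.symm c
        left_inv := fun a => e.symm_apply_apply a
        right_inv := fun c => e.apply_symm_apply c
        map_add' := fun a b => map_add e a b
        map_smul' := fun a b => map_mul e a b }
  let W' := Res (e.symm : C →+* A) W
  have hW' : Module.Finite C W' := res_finite _ he'
  have h1 := h nu' h0' W'
  rw [← h1]
  show nu.val W = nu.val (Res (e : A →+* C) (Res (e.symm : C →+* A) W))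
  refine nu.val_congr (M := W) ?_
  exact
    { toFun := fun w => w
      invFun := fun w => w
      left_inv := fun w => rfl
      right_inv := fun w => rfl
      map_add' := fun a b => rfl
      map_smul' := fun a w => by
        show a • w = (e.symm (e a)) • w
        rw [e.symm_apply_apply] }

lemma ZeroProp.field (k : Type u) [Field k] : ZeroProp k := by
  intro nu h0 W _ _ _
  rw [nu.val_congr ((Module.finBasis k W).equivFun.trans
    (LinearEquiv.funCongrLeft k k (Equiv.ulift : ULift.{u} (Fin _) ≃ Fin _)))]
  exact nu.val_pi h0 _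

lemma ZeroProp.polynomial {C : Type u} [CommRing C] [IsNoetherianRing C] (h : ZeroProp C) :
    ZeroProp (Polynomial C) := by
  intro nu h0 W _ _ _
  refine homotopy nu ?_ W
  intro p _
  have h1 : (nu.base (A := C)).val (C ⧸ p) = 0 :=
    h (nu.base (A := C)) (by rw [AddFn.base_self, h0]) (C ⧸ p)
  rw [← h1, AddFn.base_val]
  exact nu.val_congr (Algebra.TensorProduct.quotIdealMapEquivTensorQuot (Polynomial C)
    p).toLinearEquiv

lemma ZeroProp.mvPolynomial (k : Type u) [Field k] (σ : Type) [Finite σ] :
    ZeroProp (MvPolynomial σ k) := by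
  induction σ using Finite.induction_empty_option with
  | of_equiv e h =>
    exact h.of_equiv (MvPolynomial.renameEquiv k e).toRingEquiv.symm
  | h_empty =>
    exact (ZeroProp.field k).of_equiv (MvPolynomial.isEmptyAlgEquiv k PEmpty).toRingEquiv
  | h_option h =>
    exact (h.polynomial).of_equiv (MvPolynomial.optionEquivLeft k _).toRingEquiv

/-- (PZ) -/
theorem mvPoly_zero (k : Type u) [Field k] (σ : Type) [Finite σ] (nu : AddFn (MvPolynomial σ k))
    (h0 : nu.val (MvPolynomial σ k) = 0)
    (W : Type u) [AddCommGroup W] [Module (MvPolynomial σ k) W] [Module.Finite (MvPolynomial σ k) W] :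
    nu.val W = 0 := ZeroProp.mvPolynomial k σ nu h0 W

end base

end Pool.Agent.HT51
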