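import Pool.Agent.HT51.DBase
import Pool.Agent.HT51.Homotopy
import Pool.Agent.HT51.VanishC

/-!
# (D1), (D2): induced modules have value `0`, and `lam` kills the coordinates
-/

universe u

namespace Pool.Agent.HT51

open MvPolynomial TensorProduct

section alg

variable (k : Type u) [Field k] {N : ℕ} (n : Fin N → ℕ) (i : Fin N)

/-- The structure map `S = k[X j, j ≠ i] → DiagRing`. -/
noncomputable def diagInc : MvPolynomial {j : Fin N // j ≠ i} k →+* DiagRing k n :=
  (dmk k n).comp ((rename Subtype.val : MvPolynomial {j : Fin N // j ≠ i} k →ₐ[k]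
    MvPolynomial (Fin N) k) : MvPolynomial {j : Fin N // j ≠ i} k →+* MvPolynomial (Fin N) k)

lemma diagInc_apply (p : MvPolynomial {j : Fin N // j ≠ i} k) :
    diagInc k n i p = dmk k n (rename Subtype.val p) := rfl

/-- `DiagRing` as an algebra over `S = k[X j, j ≠ i]`. -/
@[reducible] noncomputable def diagAlg :
    Algebra (MvPolynomial {j : Fin N // j ≠ i} k) (DiagRing k n) := (diagInc k n i).toAlgebra

/-- `DiagRing` is free over `S` with basis `dx i ^ j`, `j < n i`. -/
noncomputable def diagBasis (hn : ∀ i, 0 < n i) :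
    @Module.Basis (Fin (n i)) (MvPolynomial {j : Fin N // j ≠ i} k) (DiagRing k n) _ _
      (diagAlg k n i).toModule :=
  letI := diagAlg k n i
  Module.Basis.mk (v := fun j : Fin (n i) => dx k n i ^ (j : ℕ))
    (by
      rw [Fintype.linearIndependent_iff]
      intro p hp
      refine diag_repr_unique hn i p ?_
      rw [← hp]
      refine Finset.sum_congr rfl fun j _ => ?_
      rw [Algebra.smul_def, mul_comm]
      rfl)
    (by
      intro b _
      obtain ⟨p, hp⟩ := diag_repr hn i b
      rw [hp]
      refine Submodule.sum_mem _ fun j _ => ?_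
      have : dx k n i ^ (j : ℕ) * dmk k n (rename Subtype.val (p j))
          = p j • (dx k n i ^ (j : ℕ)) := by
        rw [Algebra.smul_def, mul_comm]
        rfl
      rw [this]
      exact Submodule.smul_mem _ _ (Submodule.subset_span ⟨j, rfl⟩))

lemma diagBasis_apply (hn : ∀ i, 0 < n i) (j : Fin (n i)) :
    letI := diagAlg k n i
    diagBasis k n i hn j = dx k n i ^ (j : ℕ) := by
  letI := diagAlg k n i
  exact Module.Basis.mk_apply _ _ j

lemma dx_pow_self : dx k n i ^ n i = diagInc k n i (-(∑ j : {j : Fin N // j ≠ i}, X j ^ n j)) := by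
  classical
  have hd : diag k n = X i ^ n i + ∑ j : {j : Fin N // j ≠ i}, X j.1 ^ n j.1 := by
    unfold diag
    rw [Fintype.sum_eq_add_sum_subtype_ne _ i]
  have h : dmk k n (X i ^ n i + ∑ j : {j : Fin N // j ≠ i}, X j.1 ^ n j.1) = 0 := by
    rw [← hd]
    exact Ideal.Quotient.eq_zero_iff_mem.mpr (Ideal.subset_span rfl)
  rw [map_neg, map_sum, eq_neg_iff_add_eq_zero]
  refine Eq.trans ?_ h
  rw [map_add, map_pow, map_sum]
  congr 1
  refine Finset.sum_congr rfl fun j _ => ?_
  rw [diagInc_apply, map_pow, rename_X]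

end alg

section D

variable {k : Type u} [Field k] {N : ℕ} {n : Fin N → ℕ} (hn : ∀ i, 0 < n i)
  (lam : AddFn (DiagRing k n)) (h0 : lam.val (DiagRing k n) = 0)

/-- `lam` extended by `0` to all modules. -/
noncomputable def AddFn.ext0 {B : Type u} [CommRing B] (lam : AddFn B) (W : Type u)
    [AddCommGroup W] [Module B W] : ℂ :=
  open Classical in if Module.Finite B W then lam.val W else 0

lemma AddFn.ext0_fin {B : Type u} [CommRing B] (lam : AddFn B) (W : Type u)
    [AddCommGroup W] [Module B W] [h : Module.Finite B W] : lam.ext0 W = lam.val W := if_pos h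

lemma AddFn.ext0_add {B : Type u} [CommRing B] [IsNoetherianRing B] (lam : AddFn B) (W : Type u)
    [AddCommGroup W] [Module B W] [Module.Finite B W] (V : Submodule B W) :
    lam.ext0 W = lam.ext0 V + lam.ext0 (W ⧸ V) := by
  have : IsNoetherian B W := isNoetherian_of_isNoetherianRing_of_finite B W
  rw [ext0_fin, ext0_fin, ext0_fin]
  exact lam.val_sub_quot V

lemma AddFn.ext0_iso {B : Type u} [CommRing B] (lam : AddFn B) (W W' : Type u)
    [AddCommGroup W] [Module B W] [AddCommGroup W'] [Module B W'] (e : W ≃ₗ[B] W') :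
    lam.ext0 W = lam.ext0 W' := by
  by_cases h : Module.Finite B W
  · have h' : Module.Finite B W' := Module.Finite.equiv e
    rw [ext0_fin, ext0_fin]
    exact lam.val_congr e
  · have h' : ¬ Module.Finite B W' := fun h' => h (Module.Finite.equiv e.symm)
    unfold AddFn.ext0
    rw [if_neg h, if_neg h']

include hn h0

lemma val_induced (i : Fin N) (U : Type u) [AddCommGroup U]
    [Module (MvPolynomial {j : Fin N // j ≠ i} k) U]
    [Module.Finite (MvPolynomial {j : Fin N // j ≠ i} k) U] :
    letI := diagAlg k n i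
    lam.val (DiagRing k n ⊗[MvPolynomial {j : Fin N // j ≠ i} k] U) = 0 := by
  letI := diagAlg k n i
  have hfree : Module.Free (MvPolynomial {j : Fin N // j ≠ i} k) (DiagRing k n) :=
    Module.Free.of_basis (diagBasis k n i hn)
  have h := mvPoly_zero k {j : Fin N // j ≠ i}
    (lam.base (A := MvPolynomial {j : Fin N // j ≠ i} k)) (by rw [AddFn.base_self, h0]) U
  rwa [AddFn.base_val] at h

/-- (D1) modules induced from `k[X j, j ≠ i]` have value `0`. -/
theorem induced_zero (i : Fin N) (W : Type u) [AddCommGroup W] [Module (DiagRing k n) W]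
    [Module.Finite (DiagRing k n) W] (U : AddSubgroup W)
    (hU : ∀ (p : MvPolynomial {j : Fin N // j ≠ i} k), ∀ u ∈ U,
      dmk k n (rename Subtype.val p) • u ∈ U)
    (hgen : ∀ w : W, ∃ u : Fin (n i) → W, (∀ j, u j ∈ U) ∧
      w = ∑ j : Fin (n i), dx k n i ^ (j : ℕ) • u j)
    (hind : ∀ u : Fin (n i) → W, (∀ j, u j ∈ U) →
      ∑ j : Fin (n i), dx k n i ^ (j : ℕ) • u j = 0 → ∀ j, u j = 0) :
    lam.val W = 0 := by
  letI := diagAlg k n i
  letI : Module (MvPolynomial {j : Fin N // j ≠ i} k) W := Module.compHom W (diagInc k n i)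
  have : IsScalarTower (MvPolynomial {j : Fin N // j ≠ i} k) (DiagRing k n) W :=
    IsScalarTower.of_algebraMap_smul fun r x => rfl
  let U' : Submodule (MvPolynomial {j : Fin N // j ≠ i} k) W :=
    { U with smul_mem' := fun p u hu => hU p u hu }
  rw [← AddFn.ext0_fin lam W]
  refine VanC.lam_of_grading (n i) (hn i) (dx k n i) _ (dx_pow_self k n i)
    (diagBasis k n i hn) (diagBasis_apply k n i hn) lam.ext0 (fun W _ _ _ V => lam.ext0_add W V)
    (fun W W' _ _ _ _ e => lam.ext0_iso W W' e) ?_ W U' ?_ ?_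
  · intro U _ _ _
    rw [AddFn.ext0_fin]
    exact val_induced hn lam h0 i U
  · intro w
    refine Submodule.smul_mem _ _ ?_
    obtain ⟨u, hu, rfl⟩ := hgen w
    refine Submodule.sum_mem _ fun j _ => ?_
    exact Submodule.smul_mem _ _ (Submodule.subset_span (hu j))
  · intro u hu h j
    rw [hind u hu h j, smul_zero]

/-- (D2) -/
theorem kills_dx (i : Fin N) : lam.Kills (dx k n i) := by
  intro M _ _ hfin hM
  letI := diagAlg k n i
  rw [← AddFn.ext0_fin lam M]
  refine VanC.lam_of_smul_zero (n i) (hn i) (dx k n i) _ (dx_pow_self k n i)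
    (diagBasis k n i hn) (diagBasis_apply k n i hn) lam.ext0 (fun W _ _ _ V => lam.ext0_add W V)
    (fun W W' _ _ _ _ e => lam.ext0_iso W W' e) ?_ M hM
  intro U _ _ _
  rw [AddFn.ext0_fin]
  exact val_induced hn lam h0 i U

end D

end Pool.Agent.HT51
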