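import Pool.Agent.HT51.DBase
import Pool.Agent.HT51.D12

/-!
# (D3): the sum over the twists by the `n i`-th roots of unity vanishes
-/

universe u

namespace Pool.Agent.HT51

open MvPolynomial TensorProduct

section general

variable {C : Type u} [CommRing C] (lam : AddFn C)

lemma AddFn.val_prod_tw (M L : Type u) [AddCommGroup M] [Module C M] [AddCommGroup L] [Module C L]
    [Module.Finite C M] [Module.Finite C L] : lam.val (M × L) = lam.val M + lam.val L :=
  lam.add' M (M × L) L (LinearMap.inl C M L) (LinearMap.snd C M L) LinearMap.inl_injective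
    Function.Exact.inl_snd LinearMap.snd_surjective inferInstance

lemma AddFn.val_pi_tw : ∀ (m : ℕ) (M : Fin m → Type u) [∀ j, AddCommGroup (M j)]
    [∀ j, Module C (M j)] [∀ j, Module.Finite C (M j)], lam.val (∀ j, M j) = ∑ j, lam.val (M j) := by
  intro m
  induction m with
  | zero =>
    intro M _ _ _
    rw [Finset.univ_eq_empty, Finset.sum_empty]
    exact lam.val_of_subsingleton _
  | succ m ih =>
    intro M _ _ _
    rw [Fin.sum_univ_succ, ← ih (fun j => M j.succ), ← lam.val_prod_tw,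
      lam.val_congr (Fin.consLinearEquiv C M)]

end general

section orth

variable {k : Type u} [Field k] {m : ℕ} {ζ : k}

lemma orth_tw (hζ : IsPrimitiveRoot ζ m) (a b : Fin m) :
    ∑ j : Fin m, ζ ^ ((j : ℕ) * (a : ℕ)) * ζ⁻¹ ^ ((j : ℕ) * (b : ℕ)) = if a = b then (m : k) else 0 := by
  have hm : 0 < m := a.pos
  have hζ0 : ζ ≠ 0 := hζ.ne_zero hm.ne'
  have h1 : ∀ j : Fin m, ζ ^ ((j : ℕ) * (a : ℕ)) * ζ⁻¹ ^ ((j : ℕ) * (b : ℕ))
      = (ζ ^ (a : ℕ) * ζ⁻¹ ^ (b : ℕ)) ^ (j : ℕ) := by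
    intro j
    rw [mul_pow, ← pow_mul, ← pow_mul, mul_comm (j : ℕ), mul_comm (j : ℕ)]
  rw [Finset.sum_congr rfl fun j _ => h1 j]
  by_cases hab : a = b
  · subst hab
    rw [if_pos rfl, ← mul_pow, mul_inv_cancel₀ hζ0]
    simp
  · rw [if_neg hab, Fin.sum_univ_eq_sum_range (fun j => (ζ ^ (a : ℕ) * ζ⁻¹ ^ (b : ℕ)) ^ j)]
    have h2 : ζ ^ (a : ℕ) * ζ⁻¹ ^ (b : ℕ) ≠ 1 := by
      intro h
      apply hab
      have h3 : ζ ^ (a : ℕ) = ζ ^ (b : ℕ) := by
        rw [inv_pow, mul_inv_eq_one₀ (pow_ne_zero _ hζ0)] at h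
        exact h
      exact Fin.ext (hζ.pow_inj a.2 b.2 h3)
    have h3 : (ζ ^ (a : ℕ) * ζ⁻¹ ^ (b : ℕ)) ^ m = 1 := by
      rw [mul_pow, ← pow_mul, ← pow_mul, mul_comm (a : ℕ), mul_comm (b : ℕ), pow_mul, pow_mul,
        hζ.pow_eq_one, inv_pow, hζ.pow_eq_one, inv_one, one_pow, one_pow, one_mul]
    have h4 := mul_neg_geom_sum (ζ ^ (a : ℕ) * ζ⁻¹ ^ (b : ℕ)) m
    rw [h3, sub_self] at h4
    rcases mul_eq_zero.1 h4 with h5 | h5
    · exact absurd (sub_eq_zero.1 h5).symm h2
    · exact h5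

end orth

section abstract

variable {k : Type u} [Field k] {S B : Type u} [CommRing S] [CommRing B] [IsNoetherianRing B]
  [Algebra S B]

/-- (D3), abstract form: `t j` are the twists. -/
theorem twist_abs (lam : AddFn B) {m : ℕ} (x : B) (c : k →+* B) (ζ : k) (hζ : IsPrimitiveRoot ζ m)
    (hm : (m : k) ≠ 0) (bas : Module.Basis (Fin m) S B) (hbas : ∀ j, bas j = x ^ (j : ℕ)) (q : S)
    (hq : x ^ m = algebraMap S B q) (hkill : lam.Kills x)
    (hD1 : ∀ (T : Type u) [AddCommGroup T] [Module B T] [Module.Finite B T] (U : AddSubgroup T),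
      (∀ s : S, ∀ u ∈ U, algebraMap S B s • u ∈ U) →
      (∀ w : T, ∃ u : Fin m → T, (∀ j, u j ∈ U) ∧ w = ∑ j : Fin m, x ^ (j : ℕ) • u j) →
      (∀ u : Fin m → T, (∀ j, u j ∈ U) → ∑ j : Fin m, x ^ (j : ℕ) • u j = 0 → ∀ j, u j = 0) →
      lam.val T = 0)
    (W : Type u) [AddCommGroup W] [Module B W] [Module.Finite B W]
    (t : Fin m → (B →+* B)) (ht1 : ∀ j s, t j (algebraMap S B s) = algebraMap S B s)
    (ht2 : ∀ j, t j x = c (ζ ^ (j : ℕ)) * x) (ht4 : ∀ j, Function.Surjective (t j)) :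
    ∑ j : Fin m, lam.val (Res (t j) W) = 0 := by
  classical
  let modW : Module S W := Module.compHom W (algebraMap S B)
  have towW : IsScalarTower S B W :=
    ⟨fun s b w => by
      rw [Algebra.smul_def, mul_smul]
      rfl⟩
  let modR : ∀ j, Module S (Res (t j) W) := fun j => Module.compHom (Res (t j) W) (algebraMap S B)
  have towR : ∀ j, IsScalarTower S B (Res (t j) W) := fun j => ⟨fun s b w => by
      rw [Algebra.smul_def, mul_smul]
      rfl⟩
  have finR : ∀ j, Module.Finite B (Res (t j) W) := fun j =>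
    res_finite (t j) (RingHom.Finite.of_surjective _ (ht4 j))
  have finS : Module.Finite S B := Module.Finite.of_basis bas
  have finW : Module.Finite S W := Module.Finite.trans B W
  -- the induced module
  have hone : ∀ (b : B) (s : S) (w : W),
      (algebraMap S B s * b) ⊗ₜ[S] w = b ⊗ₜ (algebraMap S B s • w) := by
    intro b s w
    rw [← Algebra.smul_def]
    exact TensorProduct.smul_tmul s b w
  have hrep : ∀ y : TensorProduct S B W,
      ∃ w : Fin m → W, y = ∑ j : Fin m, (x ^ (j : ℕ)) ⊗ₜ w j := by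
    intro y
    obtain ⟨d, hd⟩ := TensorProduct.eq_repr_basis_left bas y
    refine ⟨fun j => d j, ?_⟩
    rw [← hd, Finsupp.sum_fintype _ _ (fun j => TensorProduct.tmul_zero _ _)]
    exact Finset.sum_congr rfl fun j _ => by rw [hbas]
  have hrep0 : ∀ w : Fin m → W, (∑ j : Fin m, (x ^ (j : ℕ)) ⊗ₜ w j :
      TensorProduct S B W) = 0 → ∀ j, w j = 0 := by
    intro w hw j
    have h1 : (Finsupp.equivFunOnFinite.symm w).sum (fun i' v => bas i' ⊗ₜ[S] v) = 0 := by
      rw [Finsupp.sum_fintype _ _ (fun j => TensorProduct.tmul_zero _ _), ← hw]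
      exact Finset.sum_congr rfl fun j _ => by rw [hbas]; rfl
    have h2 := TensorProduct.sum_tmul_basis_left_eq_zero bas _ h1
    exact DFunLike.congr_fun h2 j
  have hT : lam.val (TensorProduct S B W) = 0 := by
    refine hD1 _ (AddMonoidHom.range (TensorProduct.mk S B W 1).toAddMonoidHom) ?_ ?_ ?_
    · rintro p _ ⟨w, rfl⟩
      refine ⟨algebraMap S B p • w, ?_⟩
      show (1 : B) ⊗ₜ (algebraMap S B p • w) = algebraMap S B p • ((1 : B) ⊗ₜ w)
      rw [← hone, TensorProduct.smul_tmul']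
      rfl
    · intro y
      obtain ⟨w, hw⟩ := hrep y
      refine ⟨fun j => 1 ⊗ₜ w j, fun j => ⟨w j, rfl⟩, ?_⟩
      rw [hw]
      refine Finset.sum_congr rfl fun j _ => ?_
      rw [TensorProduct.smul_tmul', smul_eq_mul, mul_one]
    · intro u hu hs
      choose w hw using hu
      have h1 : ∀ j, u j = 1 ⊗ₜ w j := fun j => (hw j).symm
      have h2 := hrep0 w (by
        rw [← hs]
        refine Finset.sum_congr rfl fun j _ => ?_
        rw [h1, TensorProduct.smul_tmul', smul_eq_mul, mul_one])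
      intro j
      rw [h1, h2, TensorProduct.tmul_zero]
  -- the map
  let g : ∀ j, W →ₗ[S] Res (t j) W := fun j =>
    { toFun := fun w => toRes (t j) W w
      map_add' := fun _ _ => rfl
      map_smul' := by
        intro s w
        show toRes (t j) W (algebraMap S B s • w) = algebraMap S B s • toRes (t j) W w
        rw [toRes_smul, ht1] }
  let f : TensorProduct S B W →ₗ[B]
      (∀ j, Res (t j) W) := LinearMap.pi fun j => LinearMap.liftBaseChange (B) (g j)
  have hf : ∀ (b : B) (w : W) j, f (b ⊗ₜ w) j = toRes (t j) W (t j b • w) := by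
    intro b w j
    show LinearMap.liftBaseChange (B) (g j) (b ⊗ₜ w) = _
    rw [LinearMap.liftBaseChange_tmul]
    rfl
  have htp : ∀ (j : Fin m) (l : ℕ), t j (x ^ l) = c ((ζ ^ ((j : ℕ) * l))) * x ^ l := by
    intro j l
    rw [map_pow, ht2, mul_pow, ← map_pow, ← pow_mul]
  have hfs : ∀ (w : Fin m → W) (j : Fin m), f (∑ l : Fin m, (x ^ (l : ℕ)) ⊗ₜ w l) j =
      toRes (t j) W (∑ l : Fin m, (c ((ζ ^ ((j : ℕ) * (l : ℕ)))) * x ^ (l : ℕ)) • w l) := by
    intro w j
    rw [map_sum, Finset.sum_apply, map_sum]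
    refine Finset.sum_congr rfl fun l _ => ?_
    rw [hf, htp]
  have hunit : ∀ w : W, c (m : k) • w = 0 → w = 0 := by
    intro w hw
    have h1 : c ((m : k)⁻¹) • (c (m : k) • w) = w := by
      rw [← mul_smul, ← map_mul, inv_mul_cancel₀ hm, map_one, one_smul]
    rw [← h1, hw, smul_zero]
  have hpi : lam.val (TensorProduct S B W) =
      lam.val (∀ j, Res (t j) W) := hkill.val_eq f ?_ ?_
  · rw [← lam.val_pi_tw, ← hpi, hT]
  · -- kernel
    intro y hy
    obtain ⟨w, rfl⟩ := hrep y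
    have h1 : ∀ j : Fin m, ∑ l : Fin m, (c ((ζ ^ ((j : ℕ) * (l : ℕ)))) * x ^ (l : ℕ)) • w l = 0 := by
      intro j
      have h2 := hfs w j
      rw [hy] at h2
      exact h2.symm
    have h2 : ∀ b : Fin m, x ^ (b : ℕ) • w b = 0 := by
      intro b
      apply hunit
      have h3 : ∑ j : Fin m, c ((ζ⁻¹ ^ ((j : ℕ) * (b : ℕ)))) •
          ∑ l : Fin m, (c ((ζ ^ ((j : ℕ) * (l : ℕ)))) * x ^ (l : ℕ)) • w l = 0 := by
        refine Finset.sum_eq_zero fun j _ => ?_
        rw [h1, smul_zero]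
      simp_rw [Finset.smul_sum] at h3
      rw [Finset.sum_comm] at h3
      have h4 : ∀ l : Fin m, ∑ j : Fin m, c ((ζ⁻¹ ^ ((j : ℕ) * (b : ℕ)))) •
          ((c ((ζ ^ ((j : ℕ) * (l : ℕ)))) * x ^ (l : ℕ)) • w l) =
          c ((if l = b then (m : k) else 0)) • (x ^ (l : ℕ) • w l) := by
        intro l
        rw [← orth_tw hζ l b, map_sum, Finset.sum_smul]
        refine Finset.sum_congr rfl fun j _ => ?_
        rw [← mul_smul, ← mul_smul, ← mul_assoc, ← map_mul, mul_comm (ζ⁻¹ ^ _)]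
      simp_rw [h4] at h3
      rw [Finset.sum_eq_single b (fun l _ hl => by rw [if_neg hl, map_zero, zero_smul])
        (fun h => absurd (Finset.mem_univ _) h), if_pos rfl] at h3
      exact h3
    refine ⟨m, ?_⟩
    rw [Finset.smul_sum]
    refine Finset.sum_eq_zero fun l _ => ?_
    rw [TensorProduct.smul_tmul', smul_eq_mul, hq, hone, ← hq]
    have h3 : x ^ m • w l = 0 := by
      have h4 : m = (m - (l : ℕ)) + (l : ℕ) := by
        have := l.2
        omega
      rw [h4, pow_add, mul_smul, h2, smul_zero]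
    rw [h3, TensorProduct.tmul_zero]
  · -- cokernel
    intro y
    refine ⟨m, ∑ l : Fin m, (x ^ (l : ℕ)) ⊗ₜ (c ((m : k)⁻¹) •
      (x ^ (m - (l : ℕ)) • ∑ j' : Fin m, c ((ζ⁻¹ ^ ((j' : ℕ) * (l : ℕ)))) • (toRes (t j') W).symm (y j'))), ?_⟩
    ext j
    rw [hfs, Pi.smul_apply, res_smul, htp, mul_comm (j : ℕ), pow_mul, hζ.pow_eq_one, one_pow, map_one, one_mul]
    congr 1
    have h1 : ∀ l : Fin m, (c ((ζ ^ ((j : ℕ) * (l : ℕ)))) * x ^ (l : ℕ)) •
        (c ((m : k)⁻¹) • (x ^ (m - (l : ℕ)) • ∑ j' : Fin m,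
          c ((ζ⁻¹ ^ ((j' : ℕ) * (l : ℕ)))) • (toRes (t j') W).symm (y j'))) =
        ∑ j' : Fin m, c ((ζ ^ ((l : ℕ) * (j : ℕ)) * ζ⁻¹ ^ ((l : ℕ) * (j' : ℕ)))) •
          ((c ((m : k)⁻¹) * x ^ m) • (toRes (t j') W).symm (y j')) := by
      intro l
      rw [← mul_smul, ← mul_smul, Finset.smul_sum]
      refine Finset.sum_congr rfl fun j' _ => ?_
      rw [← mul_smul, ← mul_smul]
      congr 1
      have h4 : x ^ m = x ^ (l : ℕ) * x ^ (m - (l : ℕ)) := by
        rw [← pow_add]
        congr 1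
        have := l.2
        omega
      rw [h4, map_mul, mul_comm (l : ℕ) (j : ℕ), mul_comm (l : ℕ) (j' : ℕ)]
      ring
    simp_rw [h1]
    rw [Finset.sum_comm]
    have h2 : ∀ j' : Fin m, ∑ l : Fin m, c ((ζ ^ ((l : ℕ) * (j : ℕ)) * ζ⁻¹ ^ ((l : ℕ) * (j' : ℕ)))) •
          ((c ((m : k)⁻¹) * x ^ m) • (toRes (t j') W).symm (y j')) =
        c ((if j = j' then (m : k) else 0)) •
          ((c ((m : k)⁻¹) * x ^ m) • (toRes (t j') W).symm (y j')) := by
      intro j'
      rw [← orth_tw hζ j j', map_sum, Finset.sum_smul]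
    simp_rw [h2]
    rw [Finset.sum_eq_single j (fun l _ hl => by rw [if_neg (Ne.symm hl), map_zero, zero_smul])
      (fun h => absurd (Finset.mem_univ _) h), if_pos rfl, ← mul_smul, ← mul_assoc, ← map_mul,
      mul_inv_cancel₀ hm, map_one, one_mul]

end abstract

section twist

variable {k : Type u} [Field k] {N : ℕ} {n : Fin N → ℕ}

/-- the structure map `k[X j, j ≠ i] → DiagRing` -/
noncomputable def iotaTw (k : Type u) [Field k] {N : ℕ} (n : Fin N → ℕ) (i : Fin N) :
    MvPolynomial {j : Fin N // j ≠ i} k →+* DiagRing k n :=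
  (dmk k n).comp (rename Subtype.val : MvPolynomial {j : Fin N // j ≠ i} k →ₐ[k] _).toRingHom

lemma iotaTw_apply (i : Fin N) (p : MvPolynomial {j : Fin N // j ≠ i} k) :
    iotaTw k n i p = dmk k n (rename Subtype.val p) := rfl

lemma sc_iotaTw (i : Fin N) (u : Fin N → k) (hu : ∀ l, u l ^ n l = 1) (h1 : ∀ l, l ≠ i → u l = 1)
    (p : MvPolynomial {j : Fin N // j ≠ i} k) : sc u hu (iotaTw k n i p) = iotaTw k n i p := by
  have h : (sc u hu).comp (iotaTw k n i) = iotaTw k n i := by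
    refine MvPolynomial.ringHom_ext (fun a => ?_) (fun j => ?_)
    · rw [RingHom.comp_apply, iotaTw_apply, rename_C, sc_C]
    · rw [RingHom.comp_apply, iotaTw_apply, rename_X, sc_dx, h1 j.1 j.2, C_1, map_one, one_mul]
  exact congrArg (fun f => f p) h

lemma dx_pow_tw (i : Fin N) : ∃ g : MvPolynomial {j : Fin N // j ≠ i} k,
    dx k n i ^ n i = iotaTw k n i g := by
  classical
  refine ⟨- ∑ j : {j : Fin N // j ≠ i}, X j ^ n j, ?_⟩
  have h : dmk k n (diag k n) = 0 := Ideal.Quotient.eq_zero_iff_mem.mpr (Ideal.subset_span rfl)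
  have h2 : diag k n = X i ^ n i + rename Subtype.val
      (∑ j : {j : Fin N // j ≠ i}, (X j : MvPolynomial {j : Fin N // j ≠ i} k) ^ n j) := by
    unfold diag
    rw [Fintype.sum_eq_add_sum_subtype_ne _ i, map_sum]
    congr 1
    refine Finset.sum_congr rfl fun j _ => ?_
    rw [map_pow, rename_X]
  have h3 : dmk k n (X i ^ n i + rename Subtype.val
      (∑ j : {j : Fin N // j ≠ i}, (X j : MvPolynomial {j : Fin N // j ≠ i} k) ^ n j)) = 0 := by
    rw [← h]
    exact congrArg (dmk k n) h2.symm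
  rw [map_add, map_pow] at h3
  rw [map_neg, iotaTw_apply]
  exact eq_neg_of_add_eq_zero_left h3

lemma sc_surj_tw (u : Fin N → k) (hu : ∀ l, u l ^ n l = 1) (hn : ∀ i, 0 < n i) :
    Function.Surjective (sc u hu) := by
  have hu0 : ∀ l, u l ≠ 0 := by
    intro l h
    have := hu l
    rw [h, zero_pow (hn l).ne'] at this
    exact zero_ne_one this
  intro b
  obtain ⟨P, rfl⟩ := Ideal.Quotient.mk_surjective b
  induction P using MvPolynomial.induction_on with
  | C a => exact ⟨dmk k n (C a), sc_C u hu a⟩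
  | add p q hp hq =>
    obtain ⟨x, hx⟩ := hp
    obtain ⟨y, hy⟩ := hq
    exact ⟨x + y, by rw [map_add, hx, hy, map_add]⟩
  | mul_X p l hp =>
    obtain ⟨x, hx⟩ := hp
    refine ⟨x * (dmk k n (C (u l)⁻¹) * dx k n l), ?_⟩
    rw [map_mul, map_mul, sc_C, sc_dx, hx, ← mul_assoc (dmk k n (C (u l)⁻¹)), ← map_mul, ← C_mul,
      inv_mul_cancel₀ (hu0 l), C_1, map_one, one_mul, map_mul]

variable (hn : ∀ i, 0 < n i) (lam : AddFn (DiagRing k n)) (h0 : lam.val (DiagRing k n) = 0)
include hn h0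

/-- (D3) `ζ` a primitive `n i`-th root of unity in `k`. -/
theorem twist_sum (i : Fin N) (ζ : k) (hζ : IsPrimitiveRoot ζ (n i)) (hni : (n i : k) ≠ 0)
    (W : Type u) [AddCommGroup W] [Module (DiagRing k n) W] [Module.Finite (DiagRing k n) W] :
    ∑ j : Fin (n i), lam.val (Res (sc (n := n) (Function.update (fun _ => (1 : k)) i (ζ ^ (j : ℕ)))
      (by
        intro l
        by_cases h : l = i
        · subst h
          rw [Function.update_self, ← pow_mul, mul_comm, pow_mul, hζ.pow_eq_one, one_pow]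
        · rw [Function.update_of_ne h, one_pow])) W) = 0 := by
  have hu : ∀ (j : Fin (n i)) (l : Fin N),
      Function.update (fun _ => (1 : k)) i (ζ ^ (j : ℕ)) l ^ n l = 1 := by
    intro j l
    by_cases h : l = i
    · subst h
      rw [Function.update_self, ← pow_mul, mul_comm, pow_mul, hζ.pow_eq_one, one_pow]
    · rw [Function.update_of_ne h, one_pow]
  let algS : Algebra (MvPolynomial {j : Fin N // j ≠ i} k) (DiagRing k n) := (iotaTw k n i).toAlgebra
  have hsmul : ∀ (s : MvPolynomial {j : Fin N // j ≠ i} k) (b : DiagRing k n),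
      s • b = iotaTw k n i s * b := fun s b => rfl
  have hli : LinearIndependent (MvPolynomial {j : Fin N // j ≠ i} k)
      (fun j : Fin (n i) => dx k n i ^ (j : ℕ)) := by
    rw [Fintype.linearIndependent_iff]
    intro g hg
    refine diag_repr_unique hn i g ?_
    rw [← hg]
    refine Finset.sum_congr rfl fun j _ => ?_
    rw [hsmul, iotaTw_apply, mul_comm]
  have hsp : ⊤ ≤ Submodule.span (MvPolynomial {j : Fin N // j ≠ i} k)
      (Set.range (fun j : Fin (n i) => dx k n i ^ (j : ℕ))) := by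
    intro b _
    obtain ⟨p, hp⟩ := diag_repr hn i b
    rw [hp]
    refine Submodule.sum_mem _ fun j _ => ?_
    have : dx k n i ^ (j : ℕ) * dmk k n (rename Subtype.val (p j)) = p j • dx k n i ^ (j : ℕ) := by
      rw [hsmul, iotaTw_apply, mul_comm]
    rw [this]
    exact Submodule.smul_mem _ _ (Submodule.subset_span ⟨j, rfl⟩)
  obtain ⟨q, hq⟩ := dx_pow_tw (k := k) (n := n) i
  refine twist_abs lam (dx k n i) ((dmk k n).comp C) ζ hζ hni (Module.Basis.mk hli hsp)
    (fun j => Module.Basis.mk_apply hli hsp j) q hq (kills_dx hn lam h0 i)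
    (fun T _ _ _ U hU hgen hind => induced_zero hn lam h0 i T U hU hgen hind) W
    (fun j => sc (n := n) (Function.update (fun _ => (1 : k)) i (ζ ^ (j : ℕ))) (hu j)) ?_ ?_ ?_
  · intro j p
    exact sc_iotaTw i _ _ (fun l hl => Function.update_of_ne hl _ _) p
  · intro j
    rw [sc_dx, Function.update_self]
    rfl
  · intro j
    exact sc_surj_tw _ _ hn

end twist

end Pool.Agent.HT51
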