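import Pool.Agent.HT51.Homotopy

/-!
# Evaluation of modules over `C[X]`
-/

universe u

namespace Pool.Agent.HT51

open Polynomial

section six

variable {C : Type u} [CommRing C] [IsNoetherianRing C] (lam : AddFn C)

/-- additivity over a six term exact sequence -/
lemma AddFn.six {A₁ A₂ A₃ A₄ A₅ A₆ : Type u} [AddCommGroup A₁] [Module C A₁] [AddCommGroup A₂]
    [Module C A₂] [AddCommGroup A₃] [Module C A₃] [AddCommGroup A₄] [Module C A₄]
    [AddCommGroup A₅] [Module C A₅] [AddCommGroup A₆] [Module C A₆]
    (h1 : Module.Finite C A₁) (h2 : Module.Finite C A₂) (h3 : Module.Finite C A₃)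
    (h4 : Module.Finite C A₄) (h5 : Module.Finite C A₅)
    (f₁ : A₁ →ₗ[C] A₂) (f₂ : A₂ →ₗ[C] A₃) (f₃ : A₃ →ₗ[C] A₄) (f₄ : A₄ →ₗ[C] A₅)
    (f₅ : A₅ →ₗ[C] A₆) (e1 : Function.Injective f₁) (e2 : Function.Exact f₁ f₂)
    (e3 : Function.Exact f₂ f₃) (e4 : Function.Exact f₃ f₄) (e5 : Function.Exact f₄ f₅)
    (e6 : Function.Surjective f₅) :
    lam.val A₁ + lam.val A₃ + lam.val A₅ = lam.val A₂ + lam.val A₄ + lam.val A₆ := by
  have k1 : lam.val A₁ = lam.val (LinearMap.range f₁) :=
    lam.val_congr (LinearEquiv.ofInjective f₁ e1)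
  have k2 := lam.val_ker_range f₂
  have k3 := lam.val_ker_range f₃
  have k4 := lam.val_ker_range f₄
  have k5 := lam.val_ker_range f₅
  rw [e2.linearMap_ker_eq] at k2
  rw [e3.linearMap_ker_eq] at k3
  rw [e4.linearMap_ker_eq] at k4
  rw [e5.linearMap_ker_eq] at k5
  have h6 : Module.Finite C A₆ := Module.Finite.of_surjective f₅ e6
  have k6 : lam.val (LinearMap.range f₅) = lam.val A₆ := by
    have := LinearMap.range_eq_top.mpr e6
    refine lam.val_congr (LinearEquiv.ofTop _ this)
  rw [k1, k3, k5, k2, k4, k6]
  ring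

end six

section ev

variable {C : Type u} [CommRing C]

/-- a finite `C[X]`-module killed by `X - c` is finite over `C` -/
lemma finite_of_killed (c : C) (V : Type u) [AddCommGroup V] [Module (Polynomial C) V]
    (hV : Module.Finite (Polynomial C) V) (hk : ∀ v : V, (X - Polynomial.C c) • v = 0) :
    Module.Finite C (Res (Polynomial.C : C →+* C[X]) V) := by
  classical
  have key : ∀ (p : C[X]) (v : V), p • v = Polynomial.C (p.eval c) • v := by
    intro p v
    obtain ⟨q, hq⟩ : X - Polynomial.C c ∣ p - Polynomial.C (p.eval c) :=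
      Polynomial.X_sub_C_dvd_sub_C_eval
    have : (p - Polynomial.C (p.eval c)) • v = 0 := by
      rw [hq, mul_comm, mul_smul, hk, smul_zero]
    rw [sub_smul, sub_eq_zero] at this
    exact this
  obtain ⟨S, hS⟩ := hV.fg_top
  refine ⟨S.image (toRes (Polynomial.C : C →+* C[X]) V), ?_⟩
  rw [eq_top_iff]
  intro w _
  have hw : (toRes (Polynomial.C : C →+* C[X]) V).symm w ∈ Submodule.span C[X] (S : Set V) := by
    rw [hS]; trivial
  have : ∀ v : V, v ∈ Submodule.span C[X] (S : Set V) →
      toRes (Polynomial.C : C →+* C[X]) V v ∈ Submodule.span C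
        (S.image (toRes (Polynomial.C : C →+* C[X]) V) : Set (Res (Polynomial.C : C →+* C[X]) V)) := by
    intro v hv
    induction hv using Submodule.span_induction with
    | mem y hy =>
      refine Submodule.subset_span ?_
      rw [Finset.coe_image]
      exact ⟨y, hy, rfl⟩
    | zero => rw [map_zero]; exact Submodule.zero_mem _
    | add y z _ _ hy hz => rw [map_add]; exact Submodule.add_mem _ hy hz
    | smul a y _ hy =>
      rw [key, ← toRes_smul]
      exact Submodule.smul_mem _ _ hy
  exact this _ hw

/-- kernel of `X - c` -/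
noncomputable abbrev evK (c : C) (W : Type u) [AddCommGroup W] [Module C[X] W] : Submodule C[X] W :=
  LinearMap.ker (LinearMap.lsmul C[X] W (X - Polynomial.C c))

/-- range of `X - c` -/
noncomputable abbrev evR (c : C) (W : Type u) [AddCommGroup W] [Module C[X] W] : Submodule C[X] W :=
  LinearMap.range (LinearMap.lsmul C[X] W (X - Polynomial.C c))

lemma evK_killed (c : C) (W : Type u) [AddCommGroup W] [Module C[X] W] (v : evK c W) :
    (X - Polynomial.C c) • v = 0 := Subtype.ext v.2

lemma evR_killed (c : C) (W : Type u) [AddCommGroup W] [Module C[X] W] (v : W ⧸ evR c W) :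
    (X - Polynomial.C c) • v = 0 := by
  obtain ⟨w, rfl⟩ := Submodule.Quotient.mk_surjective _ v
  rw [← Submodule.Quotient.mk_smul, Submodule.Quotient.mk_eq_zero]
  exact ⟨w, rfl⟩

variable [IsNoetherianRing C]

lemma evK_finite (c : C) (W : Type u) [AddCommGroup W] [Module C[X] W] [Module.Finite C[X] W] :
    Module.Finite C (Res (Polynomial.C : C →+* C[X]) (evK c W)) := by
  have : IsNoetherian C[X] W := isNoetherian_of_isNoetherianRing_of_finite C[X] W
  exact finite_of_killed c _ inferInstance (evK_killed c W)

omit [IsNoetherianRing C] in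
lemma evR_finite (c : C) (W : Type u) [AddCommGroup W] [Module C[X] W] [Module.Finite C[X] W] :
    Module.Finite C (Res (Polynomial.C : C →+* C[X]) (W ⧸ evR c W)) :=
  finite_of_killed c _ inferInstance (evR_killed c W)

/-- the restriction to the kernels of `X - c` -/
noncomputable def evKmap (c : C) {L M : Type u} [AddCommGroup L] [Module C[X] L] [AddCommGroup M] [Module C[X] M]
    (f : L →ₗ[C[X]] M) : evK c L →ₗ[C[X]] evK c M :=
  f.restrict (fun x hx => by
    have hx' : (X - Polynomial.C c) • x = 0 := hx
    show (X - Polynomial.C c) • f x = 0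
    rw [← map_smul, hx', map_zero])

/-- the map induced on the cokernels of `X - c` -/
noncomputable def evRmap (c : C) {L M : Type u} [AddCommGroup L] [Module C[X] L] [AddCommGroup M] [Module C[X] M]
    (f : L →ₗ[C[X]] M) : (L ⧸ evR c L) →ₗ[C[X]] (M ⧸ evR c M) :=
  Submodule.mapQ _ _ f (by
    rintro _ ⟨x, rfl⟩
    refine ⟨f x, ?_⟩
    show (X - Polynomial.C c) • f x = f ((X - Polynomial.C c) • x)
    rw [map_smul])

/-- The additive function `W ↦ lam (W / (X - c)) - lam (ker (X - c))`. -/
noncomputable def evFn (lam : AddFn C) (c : C) : AddFn C[X] where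
  val W _ _ := lam.val (Res (Polynomial.C : C →+* C[X]) (W ⧸ evR c W))
    - lam.val (Res (Polynomial.C : C →+* C[X]) (evK c W))
  add' L M N _ _ _ _ _ _ f g hf hfg hg hM := by
    have hMn : IsNoetherian C[X] M := isNoetherian_of_isNoetherianRing_of_finite C[X] M
    have hL : Module.Finite C[X] L := by
      have := isNoetherian_of_injective f hf
      infer_instance
    have hN : Module.Finite C[X] N := Module.Finite.of_surjective g hg
    let i₁ := LinearMap.lsmul C[X] L (X - Polynomial.C c)
    let i₂ := LinearMap.lsmul C[X] M (X - Polynomial.C c)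
    let i₃ := LinearMap.lsmul C[X] N (X - Polynomial.C c)
    have h₁ : f.comp i₁ = i₂.comp f := by
      ext x
      show f ((X - Polynomial.C c) • x) = (X - Polynomial.C c) • f x
      rw [map_smul]
    have h₂ : g.comp i₂ = i₃.comp g := by
      ext x
      show g ((X - Polynomial.C c) • x) = (X - Polynomial.C c) • g x
      rw [map_smul]
    let δ := SnakeLemma.δ' i₁ i₂ i₃ f g hfg f g hfg h₁ h₂ (evK c N).subtype
      (LinearMap.exact_subtype_ker_map i₃) (evR c L).mkQ (LinearMap.exact_map_mkQ_range i₁) hg hf
    have e3 : Function.Exact (evKmap c g) δ :=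
      SnakeLemma.exact_δ'_right i₁ i₂ i₃ f g hfg f g hfg h₁ h₂ (evK c M).subtype
        (LinearMap.exact_subtype_ker_map i₂) (evK c N).subtype
        (LinearMap.exact_subtype_ker_map i₃) (evR c L).mkQ (LinearMap.exact_map_mkQ_range i₁)
        hg hf (evKmap c g) rfl (Submodule.injective_subtype _)
    have e4 : Function.Exact δ (evRmap c f) :=
      SnakeLemma.exact_δ'_left i₁ i₂ i₃ f g hfg f g hfg h₁ h₂ (evK c N).subtype
        (LinearMap.exact_subtype_ker_map i₃) (evR c L).mkQ (LinearMap.exact_map_mkQ_range i₁)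
        (evR c M).mkQ (LinearMap.exact_map_mkQ_range i₂) hg hf (evRmap c f) rfl
        (Submodule.mkQ_surjective _)
    have e1 : Function.Injective (evKmap c f) := by
      intro x y hxy
      exact Subtype.ext (hf (congrArg Subtype.val hxy))
    have e2 : Function.Exact (evKmap c f) (evKmap c g) := by
      intro x
      constructor
      · intro hx
        obtain ⟨y, hy⟩ := (hfg x.1).mp (congrArg Subtype.val hx)
        refine ⟨⟨y, ?_⟩, Subtype.ext hy⟩
        show (X - Polynomial.C c) • y = 0
        apply hf
        rw [map_smul, hy, map_zero]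
        exact x.2
      · rintro ⟨y, rfl⟩
        exact Subtype.ext ((hfg _).mpr ⟨y.1, rfl⟩)
    have e5 : Function.Exact (evRmap c f) (evRmap c g) := by
      intro x
      obtain ⟨x, rfl⟩ := Submodule.Quotient.mk_surjective _ x
      constructor
      · intro hx
        have hx' : (Submodule.Quotient.mk (g x) : N ⧸ evR c N) = 0 := hx
        rw [Submodule.Quotient.mk_eq_zero] at hx'
        obtain ⟨z, hz⟩ := hx'
        obtain ⟨m, rfl⟩ := hg z
        have hz' : (X - Polynomial.C c) • g m = g x := hz
        obtain ⟨y, hy⟩ := (hfg (x - (X - Polynomial.C c) • m)).mp (by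
          rw [map_sub, map_smul, hz', sub_self])
        refine ⟨Submodule.Quotient.mk y, ?_⟩
        show (Submodule.Quotient.mk (f y) : M ⧸ evR c M) = Submodule.Quotient.mk x
        rw [hy, Submodule.Quotient.eq]
        refine ⟨-m, ?_⟩
        show (X - Polynomial.C c) • (-m) = x - (X - Polynomial.C c) • m - x
        rw [smul_neg]; abel
      · rintro ⟨y, hy⟩
        obtain ⟨y, rfl⟩ := Submodule.Quotient.mk_surjective _ y
        rw [← hy]
        show (Submodule.Quotient.mk (g (f y)) : N ⧸ evR c N) = 0
        rw [(hfg _).mpr ⟨y, rfl⟩]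
        rfl
    have e6 : Function.Surjective (evRmap c g) := by
      intro x
      obtain ⟨x, rfl⟩ := Submodule.Quotient.mk_surjective _ x
      obtain ⟨m, rfl⟩ := hg x
      exact ⟨Submodule.Quotient.mk m, rfl⟩
    have := lam.six (evK_finite c L) (evK_finite c M) (evK_finite c N) (evR_finite c L)
      (evR_finite c M) (resMap (Polynomial.C : C →+* C[X]) (evKmap c f))
      (resMap (Polynomial.C : C →+* C[X]) (evKmap c g))
      (resMap (Polynomial.C : C →+* C[X]) δ)
      (resMap (Polynomial.C : C →+* C[X]) (evRmap c f))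
      (resMap (Polynomial.C : C →+* C[X]) (evRmap c g)) e1 e2 e3 e4 e5 e6
    linear_combination this

/-- The difference of two additive functions. -/
noncomputable def AddFn.sub' {A : Type u} [CommRing A] (mu nu : AddFn A) : AddFn A where
  val W _ _ := mu.val W - nu.val W
  add' L M N _ _ _ _ _ _ f g hf hfg hg hM := by
    rw [mu.add' L M N f g hf hfg hg hM, nu.add' L M N f g hf hfg hg hM]
    ring

omit [IsNoetherianRing C] in
/-- `X - c` is injective modulo a prime of `C` -/
lemma ev_prime_inj (p : Ideal C) (hp : p.IsPrime) (c : C) (w : C[X] ⧸ p.map Polynomial.C)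
    (hw : (X - Polynomial.C c) • w = 0) : w = 0 := by
  obtain ⟨w, rfl⟩ := Ideal.Quotient.mk_surjective w
  have hprime : (p.map (Polynomial.C : C →+* C[X])).IsPrime := Ideal.isPrime_map_C_of_isPrime
  rw [← Ideal.Quotient.mk_eq_mk] at hw ⊢
  rw [← Submodule.Quotient.mk_smul, Submodule.Quotient.mk_eq_zero, smul_eq_mul] at hw
  rw [Submodule.Quotient.mk_eq_zero]
  rcases hprime.mem_or_mem hw with h | h
  · exfalso
    have := (Ideal.mem_map_C_iff.mp h) 1
    rw [coeff_sub, coeff_X_one, coeff_C_succ, sub_zero] at this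
    exact hp.ne_top ((Ideal.eq_top_iff_one _).mpr this)
  · exact h

omit [IsNoetherianRing C] in
lemma evK_prime (lam : AddFn C) (p : Ideal C) (hp : p.IsPrime) (c : C) :
    lam.val (Res (Polynomial.C : C →+* C[X]) (evK c (C[X] ⧸ p.map Polynomial.C))) = 0 := by
  have : Subsingleton (Res (Polynomial.C : C →+* C[X]) (evK c (C[X] ⧸ p.map Polynomial.C))) := by
    refine ⟨fun x y => ?_⟩
    have h : ∀ z : evK c (C[X] ⧸ p.map Polynomial.C), z = 0 := fun z =>
      Subtype.ext (ev_prime_inj p hp c z.1 z.2)
    exact (h x).trans (h y).symm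
  exact lam.val_of_subsingleton _

omit [IsNoetherianRing C] in
/-- evaluation `C[X]/(p, X - c) → C/p` -/
lemma evR_prime (lam : AddFn C) (p : Ideal C) (c : C) :
    lam.val (Res (Polynomial.C : C →+* C[X])
      ((C[X] ⧸ p.map Polynomial.C) ⧸ evR c (C[X] ⧸ p.map Polynomial.C))) = lam.val (C ⧸ p) := by
  let g : C →ₗ[C] Res (Polynomial.C : C →+* C[X])
      ((C[X] ⧸ p.map Polynomial.C) ⧸ evR c (C[X] ⧸ p.map Polynomial.C)) :=
    { toFun := fun b => toRes (Polynomial.C : C →+* C[X]) _ (Submodule.Quotient.mk
        (Submodule.Quotient.mk (Polynomial.C b)))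
      map_add' := fun x y => by rw [map_add]; rfl
      map_smul' := fun x y => by rw [smul_eq_mul, map_mul]; rfl }
  have hg : Function.Surjective g := by
    intro w
    obtain ⟨w, rfl⟩ := (toRes (Polynomial.C : C →+* C[X]) _).surjective w
    obtain ⟨w, rfl⟩ := Submodule.Quotient.mk_surjective _ w
    obtain ⟨w, rfl⟩ := Submodule.Quotient.mk_surjective _ w
    refine ⟨w.eval c, ?_⟩
    show toRes (Polynomial.C : C →+* C[X]) _ (Submodule.Quotient.mk
        (Submodule.Quotient.mk (Polynomial.C (w.eval c)))) = _
    congr 1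
    rw [Submodule.Quotient.eq, ← Submodule.Quotient.mk_sub]
    obtain ⟨q, hq⟩ : X - Polynomial.C c ∣ w - Polynomial.C (w.eval c) :=
      Polynomial.X_sub_C_dvd_sub_C_eval
    refine ⟨Submodule.Quotient.mk (-q), ?_⟩
    show (Submodule.Quotient.mk ((X - Polynomial.C c) * -q) :
      (C[X] ⧸ p.map (Polynomial.C : C →+* C[X]))) = _
    congr 1
    linear_combination hq
  have hk : LinearMap.ker g = p := by
    ext b
    constructor
    · intro hb
      have hb' : (Submodule.Quotient.mk (Submodule.Quotient.mk (Polynomial.C b)) :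
        (C[X] ⧸ p.map (Polynomial.C : C →+* C[X])) ⧸
          evR c (C[X] ⧸ p.map (Polynomial.C : C →+* C[X]))) = 0 := hb
      rw [Submodule.Quotient.mk_eq_zero] at hb'
      obtain ⟨v, hv⟩ := hb'
      obtain ⟨v, rfl⟩ := Submodule.Quotient.mk_surjective _ v
      have hv' : (X - Polynomial.C c) • (Submodule.Quotient.mk v :
        (C[X] ⧸ p.map (Polynomial.C : C →+* C[X]))) = Submodule.Quotient.mk (Polynomial.C b) := hv
      rw [← Submodule.Quotient.mk_smul, Submodule.Quotient.eq, smul_eq_mul] at hv'
      have h1 : ((X - Polynomial.C c) * v - Polynomial.C b).eval c ∈ p := by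
        have h2 : (p.map (Polynomial.C : C →+* C[X])).map (Polynomial.evalRingHom c) = p := by
          rw [Ideal.map_map]
          have : (Polynomial.evalRingHom c).comp Polynomial.C = RingHom.id C := by
            ext x; simp
          rw [this, Ideal.map_id]
        rw [← h2]
        exact Ideal.mem_map_of_mem (Polynomial.evalRingHom c) hv'
      rw [eval_sub, eval_mul, eval_sub, eval_X, eval_C, eval_C, sub_self, zero_mul, zero_sub,
        neg_mem_iff] at h1
      exact h1
    · intro hb
      show toRes (Polynomial.C : C →+* C[X]) _ (Submodule.Quotient.mk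
        (Submodule.Quotient.mk (Polynomial.C b))) = 0
      have : (Submodule.Quotient.mk (Polynomial.C b) :
        (C[X] ⧸ p.map (Polynomial.C : C →+* C[X]))) = 0 := by
        rw [Submodule.Quotient.mk_eq_zero]
        exact Ideal.mem_map_of_mem _ hb
      rw [this]
      rfl
  have e1 := LinearMap.quotKerEquivOfSurjective g hg
  rw [← lam.val_congr e1]
  exact lam.val_congr (Submodule.quotEquivOfEq _ _ hk)

theorem ev_indep (lam : AddFn C) (c d : C) (W : Type u) [AddCommGroup W] [Module C[X] W]
    [Module.Finite C[X] W] : (evFn lam c).val W = (evFn lam d).val W := by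
  have h := homotopy ((evFn lam c).sub' (evFn lam d)) (fun p hp => by
    show (evFn lam c).val _ - (evFn lam d).val _ = 0
    show (lam.val _ - lam.val _) - (lam.val _ - lam.val _) = 0
    rw [evK_prime lam p hp c, evK_prime lam p hp d, evR_prime, evR_prime]
    ring) W
  have h' : (evFn lam c).val W - (evFn lam d).val W = 0 := h
  exact sub_eq_zero.mp h'

end ev

/-- two quotients with the same kernel -/
lemma val_eq_of_ker {C : Type u} [CommRing C] (lam : AddFn C) {A B D : Type u} [AddCommGroup A]
    [Module C A] [AddCommGroup B] [Module C B] [AddCommGroup D] [Module C D] [Module.Finite C B]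
    (q : A →ₗ[C] B) (g : A →ₗ[C] D) (hq : Function.Surjective q) (hg : Function.Surjective g)
    (hk : ∀ x, q x = 0 ↔ g x = 0) : lam.val B = lam.val D := by
  have hqk : LinearMap.ker q = LinearMap.ker g := by
    ext x; exact hk x
  exact lam.val_congr ((LinearMap.quotKerEquivOfSurjective q hq).symm.trans
    ((Submodule.quotEquivOfEq _ _ hqk).trans (LinearMap.quotKerEquivOfSurjective g hg)))

/-- (EV) -/
theorem ev_torsion {C : Type u} [CommRing C] [IsNoetherianRing C] (lam : AddFn C) (s : C)
    (hs : lam.Kills s) (c : Fin 2 → C)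
    (W : Type u) [AddCommGroup W] [Module (Polynomial C) W] [Module.Finite (Polynomial C) W]
    (M : Fin 2 → Type u) [∀ j, AddCommGroup (M j)] [∀ j, Module C (M j)]
    (e : ∀ j, W →+ M j) (heC : ∀ (j : Fin 2) (b : C) (w : W), e j (Polynomial.C b • w) = b • e j w)
    (heX : ∀ (j : Fin 2) (w : W), e j ((Polynomial.X : Polynomial C) • w) = c j • e j w)
    (hsurj : ∀ j, Function.Surjective (e j))
    (hker : ∀ (j : Fin 2) (w : W), e j w = 0 → ∃ v : W, w = (Polynomial.X - Polynomial.C (c j)) • v)
    (htor : ∀ (j : Fin 2) (w : W), (Polynomial.X - Polynomial.C (c j)) • w = 0 →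
      ∃ i : ℕ, Polynomial.C (s ^ i) • w = 0) :
    lam.val (M 0) = lam.val (M 1) := by
  have key : ∀ j, lam.val (M j) = (evFn lam (c j)).val W := by
    intro j
    show _ = lam.val _ - lam.val _
    have h1 : lam.val (Res (Polynomial.C : C →+* C[X]) (evK (c j) W)) = 0 := by
      have := evK_finite (c j) W
      refine hs.torsion _ ?_
      intro x
      obtain ⟨i, hi⟩ := htor j x.1 x.2
      exact ⟨i, Subtype.ext hi⟩
    rw [h1, sub_zero]
    have hfin := evR_finite (c j) W
    let g : Res (Polynomial.C : C →+* C[X]) W →ₗ[C] M j :=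
      { toFun := fun w => e j ((toRes (Polynomial.C : C →+* C[X]) W).symm w)
        map_add' := fun x y => by rw [map_add, map_add]
        map_smul' := fun b w => heC j b w }
    have hg : Function.Surjective g := hsurj j
    have hk : ∀ w : W, (evR (c j) W).mkQ w = 0 ↔ e j w = 0 := by
      intro w
      rw [Submodule.mkQ_apply, Submodule.Quotient.mk_eq_zero]
      constructor
      · rintro ⟨v, rfl⟩
        show e j ((X - Polynomial.C (c j)) • v) = 0
        rw [sub_smul, map_sub, heX, heC, sub_self]
      · intro hw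
        obtain ⟨v, hv⟩ := hker j w hw
        exact ⟨v, hv.symm⟩
    have hq0 : Function.Surjective (evR (c j) W).mkQ := Submodule.mkQ_surjective _
    have hq : Function.Surjective (resMap (Polynomial.C : C →+* C[X]) (evR (c j) W).mkQ) := hq0
    have := val_eq_of_ker lam (resMap (Polynomial.C : C →+* C[X]) (evR (c j) W).mkQ) g hq hg hk
    exact this.symm
  rw [key 0, key 1]
  exact ev_indep lam _ _ W

section pm

variable {C : Type u} [CommRing C] {M : Type u} [AddCommGroup M] [Module C M]

lemma pm_X_smul (n k : ℕ) (m : M) :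
    (X ^ k : C[X]) • PolynomialModule.single C n m = PolynomialModule.single C (k + n) m := by
  rw [X_pow_eq_monomial, PolynomialModule.monomial_smul_single, one_smul]

lemma pm_C_smul (a : C) (n : ℕ) (m : M) :
    (Polynomial.C a) • PolynomialModule.single C n m = PolynomialModule.single C n (a • m) := by
  rw [← monomial_zero_left, PolynomialModule.monomial_smul_single, zero_add]

/-- division by `X - c` -/
lemma pm_div (c : C) (w : PolynomialModule C M) :
    ∃ v : PolynomialModule C M, w = (X - Polynomial.C c) • v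
      + PolynomialModule.single C 0 (PolynomialModule.eval c w) := by
  induction w using PolynomialModule.induction_linear with
  | zero => exact ⟨0, by rw [smul_zero, map_zero, PolynomialModule.single_zero, add_zero]⟩
  | add x y hx hy =>
    obtain ⟨v, hv⟩ := hx
    obtain ⟨v', hv'⟩ := hy
    refine ⟨v + v', ?_⟩
    rw [map_add, PolynomialModule.single_add, smul_add]
    calc x + y = ((X - Polynomial.C c) • v
          + PolynomialModule.single C 0 (PolynomialModule.eval c x))
          + ((X - Polynomial.C c) • v'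
          + PolynomialModule.single C 0 (PolynomialModule.eval c y)) := by rw [← hv, ← hv']
      _ = _ := by abel
  | single n m =>
    obtain ⟨q, hq⟩ : X - Polynomial.C c ∣ X ^ n - Polynomial.C (c ^ n) := by
      rw [map_pow]; exact sub_dvd_pow_sub_pow _ _ n
    refine ⟨q • PolynomialModule.single C 0 m, ?_⟩
    rw [← mul_smul, ← hq, sub_smul, PolynomialModule.eval_single, pm_X_smul, pm_C_smul, add_zero,
      sub_add_cancel]

lemma pm_inj (c : C) (v : PolynomialModule C M) (h : (X - Polynomial.C c) • v = 0) : v = 0 := by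
  have h1 : ∀ n, v.coeff n = c • v.coeff (n + 1) := by
    intro n
    rw [sub_smul, sub_eq_zero] at h
    have h2 := congrArg (fun z => PolynomialModule.coeff z (n + 1)) h
    simp only [← monomial_zero_left, ← monomial_one_one_eq_X,
      PolynomialModule.monomial_smul_apply] at h2
    simpa using h2
  have h2 : ∀ k n, v.coeff n = c ^ k • v.coeff (n + k) := by
    intro k
    induction k with
    | zero => intro n; simp
    | succ k ih =>
      intro n
      rw [ih, h1 (n + k), smul_smul, ← pow_succ, add_assoc]
  rw [← PolynomialModule.coeff_eq_zero]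
  ext n
  obtain ⟨K, hK⟩ := v.coeff.support.exists_nat_subset_range
  rw [h2 K n, Finsupp.notMem_support_iff.mp, smul_zero]
  · rfl
  · intro hm
    have := hK hm
    rw [Finset.mem_range] at this
    omega

end pm

/-- (SC) -/
theorem scal {C : Type u} [CommRing C] [IsNoetherianRing C] (lam : AddFn C)
    (rho : C →+* Polynomial C)
    (hrho : ∀ b : C, ∃ (N : ℕ) (b' : Polynomial C),
      Polynomial.eval₂RingHom rho Polynomial.X b' = Polynomial.X ^ N * Polynomial.C b)
    (c : Fin 2 → C) (hc : ∀ j, IsUnit (c j)) (hcr : ∀ j, rho (c j) = Polynomial.C (c j))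
    (M : Type u) [AddCommGroup M] [Module C M] [Module.Finite C M] :
    lam.val (Res ((Polynomial.evalRingHom (c 0)).comp rho) M)
      = lam.val (Res ((Polynomial.evalRingHom (c 1)).comp rho) M) := by
  classical
  let rh : C[X] →+* C[X] := Polynomial.eval₂RingHom rho Polynomial.X
  have rhC : ∀ b, rh (Polynomial.C b) = rho b := fun b => Polynomial.eval₂_C _ _
  have rhX : rh X = X := Polynomial.eval₂_X _ _
  let P := PolynomialModule C M
  let t : P ≃+ Res rh P := toRes rh P
  have ht : ∀ (p : C[X]) (x : P), p • t x = t (rh p • x) := fun p x => rfl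
  obtain ⟨S, hS⟩ := (Module.Finite.fg_top : (⊤ : Submodule C M).FG)
  let G : Finset (Res rh P) := S.image (fun m => t (PolynomialModule.single C 0 m))
  let W : Submodule C[X] (Res rh P) := Submodule.span C[X] (G : Set (Res rh P))
  have hWfin : Module.Finite C[X] W := Module.Finite.span_finset C[X] G
  -- torsion
  have tor : ∀ w : P, ∃ N : ℕ, (X ^ N : C[X]) • t w ∈ W := by
    have up : ∀ (w : P) (N k : ℕ), (X ^ N : C[X]) • t w ∈ W → (X ^ (k + N) : C[X]) • t w ∈ W := by
      intro w N k h
      rw [pow_add, mul_smul]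
      exact W.smul_mem _ h
    have hadd : ∀ x y : P, (∃ N : ℕ, (X ^ N : C[X]) • t x ∈ W) →
        (∃ N : ℕ, (X ^ N : C[X]) • t y ∈ W) → ∃ N : ℕ, (X ^ N : C[X]) • t (x + y) ∈ W := by
      rintro x y ⟨N, hN⟩ ⟨N', hN'⟩
      refine ⟨N' + N, ?_⟩
      rw [map_add, smul_add]
      refine W.add_mem (up x N N' hN) ?_
      rw [add_comm]
      exact up y N' N hN'
    have hzero : ∃ N : ℕ, (X ^ N : C[X]) • t (0 : P) ∈ W :=
      ⟨0, by rw [map_zero, smul_zero]; exact W.zero_mem⟩
    have hsm : ∀ (a : C) (x : P), (∃ N : ℕ, (X ^ N : C[X]) • t x ∈ W) →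
        ∃ N : ℕ, (X ^ N : C[X]) • t (Polynomial.C a • x) ∈ W := by
      rintro a x ⟨N, hN⟩
      obtain ⟨N', b', hb⟩ := hrho a
      refine ⟨N' + N, ?_⟩
      have : (X ^ (N' + N) : C[X]) • t (Polynomial.C a • x) = b' • ((X ^ N : C[X]) • t x) := by
        rw [ht, ht, ht, smul_smul, smul_smul]
        congr 2
        have hb2 : rh b' = X ^ N' * Polynomial.C a := hb
        rw [hb2, map_pow, map_pow, rhX]
        ring
      rw [this]
      exact W.smul_mem _ hN
    intro w
    induction w using PolynomialModule.induction_linear with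
    | zero => exact hzero
    | add x y hx hy => exact hadd x y hx hy
    | single n m =>
      have hm : m ∈ Submodule.span C (S : Set M) := by rw [hS]; trivial
      induction hm using Submodule.span_induction with
      | mem y hy =>
        refine ⟨0, ?_⟩
        rw [pow_zero, one_smul]
        have : t (PolynomialModule.single C n y)
            = (X ^ n : C[X]) • t (PolynomialModule.single C 0 y) := by
          rw [ht, map_pow, rhX, pm_X_smul, add_zero]
        rw [this]
        refine W.smul_mem _ (Submodule.subset_span ?_)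
        rw [Finset.coe_image]
        exact ⟨y, hy, rfl⟩
      | zero => rw [PolynomialModule.single_zero]; exact hzero
      | add y z _ _ hy hz => rw [PolynomialModule.single_add]; exact hadd _ _ hy hz
      | smul a y _ hy =>
        have := hsm a _ hy
        rwa [pm_C_smul] at this
  -- inverses of the constants
  have inv : ∀ j, ∃ u : C, u * c j = 1 ∧ rho u = Polynomial.C u := by
    intro j
    obtain ⟨u, hu⟩ := (hc j).exists_left_inv
    refine ⟨u, hu, ?_⟩
    have h1 : rho u * Polynomial.C (c j) = 1 := by rw [← hcr, ← map_mul, hu, map_one]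
    have h2 : Polynomial.C (c j) * Polynomial.C u = 1 := by rw [← map_mul, mul_comm, hu, map_one]
    calc rho u = rho u * (Polynomial.C (c j) * Polynomial.C u) := by rw [h2, mul_one]
      _ = (rho u * Polynomial.C (c j)) * Polynomial.C u := by ring
      _ = _ := by rw [h1, one_mul]
  let ee : ∀ j : Fin 2, W →+ Res ((Polynomial.evalRingHom (c j)).comp rho) M := fun j =>
    (toRes ((Polynomial.evalRingHom (c j)).comp rho) M).toAddMonoidHom.comp
      ((PolynomialModule.eval (c j) : PolynomialModule C M →ₗ[C] M).toAddMonoidHom.comp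
        (t.symm.toAddMonoidHom.comp W.subtype.toAddMonoidHom))
  have hee : ∀ (j : Fin 2) (w : W), ee j w = toRes ((Polynomial.evalRingHom (c j)).comp rho) M
      (PolynomialModule.eval (c j) (t.symm w.1)) := fun j w => rfl
  have hts : ∀ (p : C[X]) (w : W), t.symm (p • w).1 = rh p • t.symm w.1 := fun p w => rfl
  refine ev_torsion lam 1 ?_ c W (fun j => Res ((Polynomial.evalRingHom (c j)).comp rho) M) ee
    ?_ ?_ ?_ ?_ ?_
  · intro M' _ _ _ h
    have : Subsingleton M' := ⟨fun x y => by rw [← one_smul C x, ← one_smul C y, h, h]⟩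
    exact lam.val_of_subsingleton M'
  · intro j b w
    rw [hee, hee, hts, rhC, PolynomialModule.eval_smul, toRes_smul]
    rfl
  · intro j w
    rw [hee, hee, hts, rhX, PolynomialModule.eval_smul, toRes_smul, RingHom.comp_apply, hcr j,
      eval_X, coe_evalRingHom, eval_C]
  · intro j m
    obtain ⟨m, rfl⟩ := (toRes ((Polynomial.evalRingHom (c j)).comp rho) M).surjective m
    obtain ⟨N, hN⟩ := tor (PolynomialModule.single C 0 m)
    obtain ⟨u, hu, hur⟩ := inv j
    refine ⟨Polynomial.C (u ^ N) • ⟨_, hN⟩, ?_⟩
    rw [hee, hts]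
    congr 1
    show PolynomialModule.eval (c j) (rh (Polynomial.C (u ^ N)) •
      (rh (X ^ N) • PolynomialModule.single C 0 m)) = m
    rw [rhC, map_pow, map_pow, rhX, hur, PolynomialModule.eval_smul, PolynomialModule.eval_smul,
      PolynomialModule.eval_single, eval_pow, eval_pow, eval_X, eval_C, pow_zero, one_smul,
      smul_smul, ← mul_pow, hu, one_pow, one_smul]
  · intro j w hw
    rw [hee] at hw
    have hw' : PolynomialModule.eval (c j) (t.symm w.1) = 0 := hw
    obtain ⟨v, hv⟩ := pm_div (c j) (t.symm w.1)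
    rw [hw', PolynomialModule.single_zero, add_zero] at hv
    obtain ⟨N, hN⟩ := tor v
    obtain ⟨u, hu, hur⟩ := inv j
    obtain ⟨q, hq⟩ : X - Polynomial.C (c j) ∣ X ^ N - Polynomial.C (c j ^ N) := by
      rw [map_pow]; exact sub_dvd_pow_sub_pow _ _ N
    have hqr : rh q = q := by
      have h1 : (X - Polynomial.C (c j)) * (rh q - q) = 0 := by
        have h2 := congrArg rh hq
        rw [map_sub, map_mul, map_sub, map_pow, rhX, rhC, rhC, hcr j, map_pow, hcr j,
          ← map_pow, hq] at h2
        rw [mul_sub, ← h2, sub_self]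
      have h3 := (monic_X_sub_C (c j)).isRegular.left
      have h4 : (X - Polynomial.C (c j)) * (rh q - q) = (X - Polynomial.C (c j)) * 0 := by
        rw [h1, mul_zero]
      exact sub_eq_zero.mp (h3 h4)
    have hcv : t (Polynomial.C (c j ^ N) • v) ∈ W := by
      have : t (Polynomial.C (c j ^ N) • v) = (X ^ N : C[X]) • t v - q • w.1 := by
        have hw1 : w.1 = t (t.symm w.1) := (t.apply_symm_apply _).symm
        rw [hw1, ht, ht, hqr, map_pow rh, rhX, hv, smul_smul, ← map_sub, ← sub_smul, mul_comm q,
          ← hq, sub_sub_cancel]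
      rw [this]
      exact W.sub_mem hN (W.smul_mem _ w.2)
    have hvW : t v ∈ W := by
      have : t v = Polynomial.C (u ^ N) • t (Polynomial.C (c j ^ N) • v) := by
        rw [ht, rhC, map_pow, hur, smul_smul, ← map_pow, ← map_mul, ← mul_pow, hu, one_pow,
          map_one, one_smul]
      rw [this]
      exact W.smul_mem _ hcv
    refine ⟨⟨t v, hvW⟩, Subtype.ext ?_⟩
    show w.1 = (X - Polynomial.C (c j)) • t v
    rw [ht, map_sub, rhX, rhC, hcr j, ← hv, t.apply_symm_apply]
  · intro j w hw
    refine ⟨0, ?_⟩
    have h1 : (X - Polynomial.C (c j)) • t.symm w.1 = 0 := by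
      have h2 := hts (X - Polynomial.C (c j)) w
      rw [hw, map_sub, rhX, rhC, hcr j] at h2
      rw [← h2]
      exact map_zero t.symm
    have h3 := pm_inj (c j) _ h1
    have h4 : w = 0 := Subtype.ext (by
      rw [← t.apply_symm_apply w.1, h3, map_zero]
      rfl)
    rw [h4, smul_zero]

end Pool.Agent.HT51
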