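import Pool.Agent.HT51.Defs2
import Pool.Agent.HT51.D3
import Pool.Agent.HT51.Eval

/-!
# Reduction to eigenfunctions of the scaling group
-/

universe u

namespace Pool.Agent.HT51

open MvPolynomial

namespace EigAux

section sc

variable {k : Type u} [Field k] {N : ℕ} {n : Fin N → ℕ}

lemma sc_congr {u v : Fin N → k} (hu : ∀ i, u i ^ n i = 1) (hv : ∀ i, v i ^ n i = 1)
    (h : u = v) : sc u hu = sc v hv := by subst h; rfl

lemma hom_ext {T : Type*} [CommRing T] {f g : DiagRing k n →+* T}
    (hC : ∀ a, f (dmk k n (C a)) = g (dmk k n (C a))) (hX : ∀ i, f (dx k n i) = g (dx k n i)) :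
    f = g :=
  Ideal.Quotient.ringHom_ext (MvPolynomial.ringHom_ext hC hX)

lemma sc_comp (u v : Fin N → k) (hu : ∀ i, u i ^ n i = 1) (hv : ∀ i, v i ^ n i = 1)
    (huv : ∀ i, (u i * v i) ^ n i = 1) :
    (sc u hu).comp (sc v hv) = sc (fun i => u i * v i) huv := by
  refine hom_ext (fun a => ?_) (fun i => ?_)
  · rw [RingHom.comp_apply, sc_C, sc_C, sc_C]
  · rw [RingHom.comp_apply, sc_dx, map_mul, sc_C, sc_dx, sc_dx, ← mul_assoc, ← map_mul, ← C_mul,
      mul_comm (v i)]

lemma sc_one (h : ∀ i, (1 : k) ^ n i = 1) : sc (fun _ : Fin N => (1 : k)) h = RingHom.id _ := by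
  refine hom_ext (fun a => ?_) (fun i => ?_)
  · rw [sc_C, RingHom.id_apply]
  · rw [sc_dx, C_1, map_one, one_mul, RingHom.id_apply]

lemma sc_surj (u v : Fin N → k) (hu : ∀ i, u i ^ n i = 1) (hv : ∀ i, v i ^ n i = 1)
    (h : ∀ i, u i * v i = 1) : Function.Surjective (sc u hu) := by
  intro b
  refine ⟨sc v hv b, ?_⟩
  have huv : ∀ i, (u i * v i) ^ n i = 1 := fun i => by rw [h, one_pow]
  have h1 := sc_comp u v hu hv huv
  rw [sc_congr huv (fun i => one_pow _) (funext h), sc_one] at h1
  exact congrArg (fun f => f b) h1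

end sc

lemma val_res_comp {A C D : Type u} [CommRing A] [CommRing C] [CommRing D] (lam : AddFn A)
    (φ : A →+* C) (ψ : C →+* D) (M : Type u) [AddCommGroup M] [Module D M] :
    lam.val (Res φ (Res ψ M)) = lam.val (Res (ψ.comp φ) M) := rfl

lemma val_res_congr' {A C : Type u} [CommRing A] [CommRing C] (lam : AddFn A)
    {φ ψ : A →+* C} (h : φ = ψ) (M : Type u) [AddCommGroup M] [Module C M] :
    lam.val (Res φ M) = lam.val (Res ψ M) := by
  subst h; rfl

lemma val_res_id' {A : Type u} [CommRing A] (lam : AddFn A) (M : Type u) [AddCommGroup M]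
    [Module A M] [Module.Finite A M] : lam.val (Res (RingHom.id A) M) = lam.val M :=
  (lam.val_congr (M := M) (N := Res (RingHom.id A) M)
    { toFun := fun x => x
      invFun := fun x => x
      left_inv := fun _ => rfl
      right_inv := fun _ => rfl
      map_add' := fun _ _ => rfl
      map_smul' := fun _ _ => rfl }).symm

section G

variable {k : Type u} [Field k] [Fintype k] {N : ℕ} {n : Fin N → ℕ} (m : Fin N → ℕ)
  (hnm : ∀ i, n i * m i = Fintype.card k - 1)

/-- The scaling attached to `e`. -/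
noncomputable def sce (e : Fin N → kˣ) : DiagRing k n →+* DiagRing k n :=
  sc (n := n) (fun i => (e i : k) ^ m i) (fun i => unit_pow_card (e i) (m i) (n i) (hnm i))

lemma sce_comp (e f : Fin N → kˣ) : (sce m hnm e).comp (sce m hnm f) = sce m hnm (e * f) := by
  unfold sce
  have h : ∀ i, ((e i : k) ^ m i * (f i : k) ^ m i) ^ n i = 1 := fun i => by
    rw [mul_pow, unit_pow_card _ _ _ (hnm i), unit_pow_card _ _ _ (hnm i), one_mul]
  rw [sc_comp _ _ _ _ h]
  refine sc_congr _ _ ?_
  funext i
  rw [Pi.mul_apply, Units.val_mul, mul_pow]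

lemma sce_one : sce m hnm (1 : Fin N → kˣ) = RingHom.id (DiagRing k n) := by
  unfold sce
  rw [← sc_one (k := k) (n := n) (fun i => one_pow _)]
  refine sc_congr _ _ ?_
  funext i
  rw [Pi.one_apply, Units.val_one, one_pow]

lemma sce_surj (e : Fin N → kˣ) : Function.Surjective (sce m hnm e) := by
  intro b
  refine ⟨sce m hnm e⁻¹ b, ?_⟩
  have h := sce_comp m hnm e e⁻¹
  rw [mul_inv_cancel, sce_one] at h
  exact congrArg (fun f => f b) h

lemma sce_finite (e : Fin N → kˣ) : (sce m hnm e).Finite :=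
  RingHom.Finite.of_surjective _ (sce_surj m hnm e)

open scoped Classical in
/-- A weighted sum of translates of `lam`. -/
noncomputable def wsum (lam : AddFn (DiagRing k n)) (w : (Fin N → kˣ) → ℂ) :
    AddFn (DiagRing k n) where
  val W _ _ := ∑ e : Fin N → kˣ, w e * lam.val (Res (sce m hnm e) W)
  add' L M P _ _ _ _ _ _ f g hf hfg hg hM := by
    rw [← Finset.sum_add_distrib]
    refine Finset.sum_congr rfl fun e _ => ?_
    rw [← mul_add]
    congr 1
    exact (lam.res (sce m hnm e) (sce_finite m hnm e)).add' L M P f g hf hfg hg hM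

open scoped Classical in
lemma wsum_val (lam : AddFn (DiagRing k n)) (w : (Fin N → kˣ) → ℂ) (W : Type u) [AddCommGroup W]
    [Module (DiagRing k n) W] :
    (wsum m hnm lam w).val W = ∑ e : Fin N → kˣ, w e * lam.val (Res (sce m hnm e) W) := rfl

/-- The scaling identifies `DiagRing` with its restriction. -/
noncomputable def sceEquiv (e : Fin N → kˣ) :
    DiagRing k n ≃ₗ[DiagRing k n] Res (sce m hnm e) (DiagRing k n) :=
  LinearEquiv.ofBijective
    { toFun := fun b => toRes (sce m hnm e) (DiagRing k n) (sce m hnm e b)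
      map_add' := fun a b => by rw [map_add, map_add]
      map_smul' := fun a b => by
        rw [RingHom.id_apply, toRes_smul, smul_eq_mul, smul_eq_mul, map_mul] }
    (by
      constructor
      · intro a b h
        have h1 : sce m hnm e a = sce m hnm e b := h
        have h2 := congrArg (sce m hnm e⁻¹) h1
        have h3 : ∀ c, sce m hnm e⁻¹ (sce m hnm e c) = c := fun c => by
          have h4 := sce_comp m hnm e⁻¹ e
          rw [inv_mul_cancel, sce_one] at h4
          exact congrArg (fun f => f c) h4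
        rwa [h3, h3] at h2
      · intro b
        obtain ⟨a, ha⟩ := sce_surj m hnm e b
        exact ⟨a, ha⟩)

lemma wsum_self (lam : AddFn (DiagRing k n)) (h0 : lam.val (DiagRing k n) = 0)
    (w : (Fin N → kˣ) → ℂ) : (wsum m hnm lam w).val (DiagRing k n) = 0 := by
  rw [wsum_val]
  refine Finset.sum_eq_zero fun e _ => ?_
  rw [← lam.val_congr (sceEquiv m hnm e), h0, mul_zero]

/-- The character of `(kˣ) ^ N` attached to `χ`. -/
noncomputable def ch (χ : Fin N → MulChar k ℂ) (e : Fin N → kˣ) : ℂ := ∏ i, χ i (e i)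

omit [Fintype k] in
lemma ch_mul (χ : Fin N → MulChar k ℂ) (e f : Fin N → kˣ) : ch χ (e * f) = ch χ e * ch χ f := by
  unfold ch
  rw [← Finset.prod_mul_distrib]
  refine Finset.prod_congr rfl fun i _ => ?_
  rw [Pi.mul_apply, Units.val_mul, map_mul]

omit [Fintype k] in
lemma ch_one (χ : Fin N → MulChar k ℂ) : ch χ (1 : Fin N → kˣ) = 1 := by
  unfold ch
  refine Finset.prod_eq_one fun i _ => ?_
  rw [Pi.one_apply, Units.val_one, map_one]

omit [Fintype k] in
lemma ch_ne_zero (χ : Fin N → MulChar k ℂ) (e : Fin N → kˣ) : ch χ e ≠ 0 := by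
  intro h
  have h1 := ch_mul χ e e⁻¹
  rw [mul_inv_cancel, ch_one, h, zero_mul] at h1
  exact one_ne_zero h1

/-- The projection of `lam` to the `χ` eigenspace. -/
noncomputable def proj (lam : AddFn (DiagRing k n)) (χ : Fin N → MulChar k ℂ) :
    AddFn (DiagRing k n) :=
  wsum m hnm lam fun e => ((Nat.card (Fin N → MulChar k ℂ) : ℂ))⁻¹ * (ch χ e)⁻¹

lemma proj_eig (lam : AddFn (DiagRing k n)) (χ : Fin N → MulChar k ℂ) :
    Eig m hnm (proj m hnm lam χ) χ := by
  classical
  intro e W _ _ _
  show (proj m hnm lam χ).val (Res (sce m hnm e) W) = ch χ e * (proj m hnm lam χ).val W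
  unfold proj
  rw [wsum_val, wsum_val, Finset.mul_sum]
  refine Fintype.sum_bijective (fun f => e * f) (Group.mulLeft_bijective e) _ _ ?_
  intro f
  rw [val_res_comp, val_res_congr' lam (sce_comp m hnm e f), ch_mul, mul_inv]
  have := ch_ne_zero χ e
  field_simp

/-- Orthogonality. -/
lemma sum_mulChar (a : kˣ) (ha : a ≠ 1) [Fintype (MulChar k ℂ)] :
    ∑ χ : MulChar k ℂ, (χ (a : k))⁻¹ = 0 := by
  classical
  have ha' : (a : k) ≠ 1 := fun h => ha (Units.ext h)
  obtain ⟨χ, hχ⟩ := MulChar.exists_apply_ne_one_of_hasEnoughRootsOfUnity k ℂ ha'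
  have h1 : ∑ ψ : MulChar k ℂ, (ψ (a : k))⁻¹ = ∑ ψ : MulChar k ℂ, ((χ * ψ) (a : k))⁻¹ :=
    (Fintype.sum_bijective (fun ψ => χ * ψ) (Group.mulLeft_bijective χ) _ _ fun ψ => rfl).symm
  simp only [MulChar.mul_apply, mul_inv] at h1
  rw [← Finset.mul_sum] at h1
  have h2 : χ (a : k) ≠ 0 := by
    intro h
    have h3 : χ (a : k) * χ ((a⁻¹ : kˣ) : k) = 1 := by
      rw [← map_mul, ← Units.val_mul, mul_inv_cancel, Units.val_one, map_one]
    rw [h, zero_mul] at h3
    exact zero_ne_one h3
  have h4 : (1 - (χ (a : k))⁻¹) * ∑ ψ : MulChar k ℂ, (ψ (a : k))⁻¹ = 0 := by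
    rw [sub_mul, one_mul, ← h1, sub_self]
  refine (mul_eq_zero.mp h4).resolve_left ?_
  intro h5
  apply hχ
  have h6 : (χ (a : k))⁻¹ = 1 := (sub_eq_zero.mp h5).symm
  rw [← inv_inv (χ (a : k)), h6, inv_one]

lemma sum_ch (e : Fin N → kˣ) (he : e ≠ 1) [Fintype (MulChar k ℂ)] :
    ∑ χ : Fin N → MulChar k ℂ, (ch χ e)⁻¹ = 0 := by
  classical
  obtain ⟨i, hi⟩ : ∃ i, e i ≠ 1 := by
    by_contra h
    push Not at h
    exact he (funext h)
  have h1 : ∑ χ : Fin N → MulChar k ℂ, (ch χ e)⁻¹
      = ∏ j, ∑ χ : MulChar k ℂ, (χ (e j : k))⁻¹ := by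
    rw [Finset.prod_univ_sum]
    rw [Fintype.piFinset_univ]
    refine Finset.sum_congr rfl fun χ _ => ?_
    unfold ch
    rw [Finset.prod_inv_distrib]
  rw [h1]
  exact Finset.prod_eq_zero (Finset.mem_univ i) (sum_mulChar (e i) hi)

lemma sum_proj (lam : AddFn (DiagRing k n)) (W : Type u) [AddCommGroup W]
    [Module (DiagRing k n) W] [Module.Finite (DiagRing k n) W] [Fintype (MulChar k ℂ)] :
    lam.val W = ∑ χ : Fin N → MulChar k ℂ, (proj m hnm lam χ).val W := by
  classical
  unfold proj
  simp only [wsum_val]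
  rw [Finset.sum_comm, Finset.sum_eq_single (1 : Fin N → kˣ)]
  · rw [val_res_congr' lam (sce_one m hnm), val_res_id']
    simp only [ch_one, inv_one, mul_one]
    rw [Finset.sum_const, Finset.card_univ, nsmul_eq_mul, Nat.card_eq_fintype_card, ← mul_assoc,
      mul_inv_cancel₀, one_mul]
    exact_mod_cast Fintype.card_ne_zero
  · intro e _ he
    rw [← Finset.sum_mul, ← Finset.mul_sum, sum_ch e he, mul_zero, zero_mul]
  · intro h
    exact absurd (Finset.mem_univ _) h

lemma card_pos' : 0 < Fintype.card k - 1 := by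
  have := Fintype.one_lt_card (α := k)
  omega

include hnm in
lemma n_pos (i : Fin N) : 0 < n i := by
  rcases Nat.eq_zero_or_pos (n i) with h | h
  · have := hnm i
    rw [h, zero_mul] at this
    have := card_pos' (k := k)
    omega
  · exact h

include hnm in
lemma n_cast_ne (i : Fin N) : (n i : k) ≠ 0 := by
  intro h
  have h1 : ((n i * m i : ℕ) : k) = 0 := by rw [Nat.cast_mul, h, zero_mul]
  rw [hnm i, Nat.cast_sub (Fintype.card_pos (α := k)), FiniteField.cast_card_eq_zero] at h1
  simp at h1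

/-- If some `χ i` is trivial then the eigenfunction vanishes. -/
lemma zero_of_trivial (lam : AddFn (DiagRing k n)) (h0 : lam.val (DiagRing k n) = 0)
    (χ : Fin N → MulChar k ℂ) (hlam : Eig m hnm lam χ) (i : Fin N) (hi : χ i = 1)
    (W : Type u) [AddCommGroup W] [Module (DiagRing k n) W] [Module.Finite (DiagRing k n) W] :
    lam.val W = 0 := by
  classical
  obtain ⟨ω, hω⟩ := IsCyclic.exists_generator (α := kˣ)
  have hord : orderOf ω = Fintype.card k - 1 := by
    rw [← Fintype.card_units]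
    exact orderOf_eq_card_of_forall_mem_zpowers hω |>.trans (Nat.card_eq_fintype_card)
  have hprim : IsPrimitiveRoot (ω : k) (Fintype.card k - 1) := by
    rw [IsPrimitiveRoot.coe_units_iff, ← hord]
    exact IsPrimitiveRoot.orderOf ω
  have hζ : IsPrimitiveRoot ((ω : k) ^ m i) (n i) :=
    hprim.pow (card_pos' (k := k)) (by rw [mul_comm, hnm])
  have h := twist_sum (n_pos m hnm) lam h0 i _ hζ (n_cast_ne m hnm i) W
  have h2 : ∀ j : Fin (n i), lam.val (Res (sc (n := n)
      (Function.update (fun _ => (1 : k)) i (((ω : k) ^ m i) ^ (j : ℕ)))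
      (by
        intro l
        by_cases h : l = i
        · subst h
          rw [Function.update_self, ← pow_mul, mul_comm, pow_mul, hζ.pow_eq_one, one_pow]
        · rw [Function.update_of_ne h, one_pow])) W) = lam.val W := by
    intro j
    have h3 := hlam (Function.update 1 i (ω ^ (j : ℕ))) W inferInstance
    have h4 : ∏ l, χ l ((Function.update (1 : Fin N → kˣ) i (ω ^ (j : ℕ)) l : kˣ) : k) = 1 := by
      refine Finset.prod_eq_one fun l _ => ?_
      by_cases hl : l = i
      · subst hl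
        rw [hi, Function.update_self]
        exact MulChar.one_apply_coe _
      · rw [Function.update_of_ne hl, Pi.one_apply, Units.val_one, map_one]
    rw [h4, one_mul] at h3
    rw [← h3]
    refine val_res_congr' lam (sc_congr _ _ ?_) W
    funext l
    by_cases hl : l = i
    · subst hl
      rw [Function.update_self, Function.update_self, Units.val_pow_eq_pow_val, ← pow_mul,
        ← pow_mul, mul_comm]
    · rw [Function.update_of_ne hl, Function.update_of_ne hl, Pi.one_apply, Units.val_one, one_pow]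
  rw [Finset.sum_congr rfl fun j _ => h2 j, Finset.sum_const, Finset.card_univ, Fintype.card_fin,
    nsmul_eq_mul] at h
  refine (mul_eq_zero.mp h).resolve_left ?_
  exact_mod_cast (n_pos m hnm i).ne'

omit [Fintype k] in
lemma poly_aux {T : Type*} [CommRing T] (x : T) (a b : ℕ) :
    ((Polynomial.X : Polynomial T) ^ a * Polynomial.C x) ^ b
      = Polynomial.X ^ (b * a) * Polynomial.C (x ^ b) := by
  rw [mul_pow, ← pow_mul, mul_comm a, Polynomial.C_pow]

/-- The `X`-scaling `x_i ↦ X ^ m i * x_i`. -/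
noncomputable def rho0 (k : Type u) [Field k] {N : ℕ} (n m : Fin N → ℕ) :
    MvPolynomial (Fin N) k →+* Polynomial (DiagRing k n) :=
  eval₂Hom (Polynomial.C.comp ((dmk k n).comp C)) fun i =>
    Polynomial.X ^ m i * Polynomial.C (dx k n i)

include hnm in
lemma rho0_diag : rho0 k n m (diag k n) = 0 := by
  have hX : ∀ i, rho0 k n m (X i) = Polynomial.X ^ m i * Polynomial.C (dx k n i) := fun i => by
    unfold rho0
    rw [coe_eval₂Hom, eval₂_X]
  have h1 : ∀ i, rho0 k n m (X i ^ n i)
      = Polynomial.X ^ (Fintype.card k - 1) * Polynomial.C (dmk k n (X i ^ n i)) := fun i =>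
    calc rho0 k n m (X i ^ n i) = (rho0 k n m (X i)) ^ n i := map_pow _ _ _
      _ = (Polynomial.X ^ m i * Polynomial.C (dx k n i)) ^ n i :=
        congrArg (fun z => z ^ n i) (hX i)
      _ = Polynomial.X ^ (n i * m i) * Polynomial.C (dx k n i ^ n i) :=
        poly_aux (T := DiagRing k n) (dx k n i) (m i) (n i)
      _ = Polynomial.X ^ (Fintype.card k - 1) * Polynomial.C (dmk k n (X i ^ n i)) := by
        rw [hnm i]
        exact congrArg (fun z => Polynomial.X ^ (Fintype.card k - 1) * Polynomial.C z)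
          (map_pow (dmk k n) (X i) (n i)).symm
  have h : rho0 k n m (∑ i, X i ^ n i)
      = Polynomial.X ^ (Fintype.card k - 1) * Polynomial.C (dmk k n (∑ i, X i ^ n i)) := by
    refine (map_sum (rho0 k n m) _ _).trans ?_
    refine (Finset.sum_congr rfl fun i _ => h1 i).trans ?_
    refine (Finset.mul_sum _ _ _).symm.trans ?_
    exact congrArg (fun z => Polynomial.X ^ (Fintype.card k - 1) * z)
      (map_sum (Polynomial.C.comp (dmk k n)) _ _).symm
  have h2 : dmk k n (diag k n) = 0 := Ideal.Quotient.eq_zero_iff_mem.mpr (Ideal.subset_span rfl)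
  refine Eq.trans h ?_
  exact (congrArg (fun z => Polynomial.X ^ (Fintype.card k - 1) * Polynomial.C z) h2).trans
    (by rw [Polynomial.C_0, mul_zero])

/-- `rho0` on `DiagRing`. -/
noncomputable def rhoG : DiagRing k n →+* Polynomial (DiagRing k n) :=
  Ideal.Quotient.lift (Ideal.span {diag k n}) (rho0 k n m) (by
    intro a ha
    obtain ⟨b, rfl⟩ := Ideal.mem_span_singleton'.mp ha
    rw [map_mul, rho0_diag m hnm, mul_zero])

lemma rhoG_C (a : k) : rhoG m hnm (dmk k n (C a)) = Polynomial.C (dmk k n (C a)) := by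
  unfold rhoG
  rw [Ideal.Quotient.lift_mk]
  unfold rho0
  rw [coe_eval₂Hom, eval₂_C]
  rfl

lemma rhoG_dx (i : Fin N) :
    rhoG m hnm (dx k n i) = Polynomial.X ^ m i * Polynomial.C (dx k n i) := by
  unfold rhoG
  rw [Ideal.Quotient.lift_mk]
  unfold rho0
  rw [coe_eval₂Hom, eval₂_X]

lemma rhoG_cond (b : DiagRing k n) : ∃ (M : ℕ) (b' : Polynomial (DiagRing k n)),
    Polynomial.eval₂RingHom (rhoG m hnm) Polynomial.X b' = Polynomial.X ^ M * Polynomial.C b := by
  obtain ⟨P, rfl⟩ := Ideal.Quotient.mk_surjective b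
  induction P using MvPolynomial.induction_on with
  | C a =>
    refine ⟨0, Polynomial.C (dmk k n (C a)), ?_⟩
    rw [Polynomial.coe_eval₂RingHom, Polynomial.eval₂_C, rhoG_C, pow_zero, one_mul]
  | add p q hp hq =>
    obtain ⟨M1, b1, h1⟩ := hp
    obtain ⟨M2, b2, h2⟩ := hq
    refine ⟨M1 + M2, Polynomial.X ^ M2 * b1 + Polynomial.X ^ M1 * b2, ?_⟩
    rw [map_add, map_mul, map_mul, h1, h2, map_pow, map_pow, map_add, map_add]
    rw [Polynomial.coe_eval₂RingHom, Polynomial.eval₂_X]
    ring
  | mul_X p i hp =>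
    obtain ⟨M1, b1, h1⟩ := hp
    refine ⟨M1 + m i, b1 * Polynomial.C (dx k n i), ?_⟩
    rw [map_mul, h1, map_mul, map_mul]
    rw [Polynomial.coe_eval₂RingHom, Polynomial.eval₂_C, rhoG_dx]
    ring

/-- If the product of the `χ i` is non-trivial then the eigenfunction vanishes. -/
lemma zero_of_prod (lam : AddFn (DiagRing k n))
    (χ : Fin N → MulChar k ℂ) (hlam : Eig m hnm lam χ) (hi : ∏ i, χ i ≠ 1)
    (W : Type u) [AddCommGroup W] [Module (DiagRing k n) W] [Module.Finite (DiagRing k n) W] :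
    lam.val W = 0 := by
  classical
  obtain ⟨ω, hω⟩ : ∃ ω : kˣ, (∏ i, χ i) (ω : k) ≠ 1 := by
    by_contra h
    push Not at h
    exact hi (MulChar.ext fun a => by rw [h a, MulChar.one_apply_coe])
  have h := scal lam (rhoG m hnm) (rhoG_cond m hnm) ![dmk k n (C (ω : k)), 1]
    (by
      intro j
      fin_cases j
      · exact (ω.isUnit.map (C : k →+* MvPolynomial (Fin N) k)).map (dmk k n)
      · exact isUnit_one)
    (by
      intro j
      fin_cases j
      · exact rhoG_C m hnm _
      · show rhoG m hnm 1 = Polynomial.C 1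
        rw [map_one, map_one])
    W
  have h1 : (Polynomial.evalRingHom ((![dmk k n (C (ω : k)), 1] : Fin 2 → DiagRing k n) 0)).comp
      (rhoG m hnm) = sce m hnm (fun _ => ω) := by
    refine hom_ext (fun a => ?_) (fun i => ?_)
    · rw [RingHom.comp_apply, rhoG_C, Polynomial.coe_evalRingHom, Polynomial.eval_C]
      unfold sce
      rw [sc_C]
    · rw [RingHom.comp_apply, rhoG_dx, Polynomial.coe_evalRingHom, Polynomial.eval_mul,
        Polynomial.eval_C, Polynomial.eval_pow, Polynomial.eval_X]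
      unfold sce
      rw [sc_dx, C_pow, map_pow]
      rfl
  have h2 : (Polynomial.evalRingHom ((![dmk k n (C (ω : k)), 1] : Fin 2 → DiagRing k n) 1)).comp
      (rhoG m hnm) = RingHom.id (DiagRing k n) := by
    refine hom_ext (fun a => ?_) (fun i => ?_)
    · rw [RingHom.comp_apply, rhoG_C, Polynomial.coe_evalRingHom, Polynomial.eval_C,
        RingHom.id_apply]
    · rw [RingHom.comp_apply, rhoG_dx, Polynomial.coe_evalRingHom, Polynomial.eval_mul,
        Polynomial.eval_C, Polynomial.eval_pow, Polynomial.eval_X, RingHom.id_apply]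
      show (1 : DiagRing k n) ^ m i * _ = _
      rw [one_pow, one_mul]
  rw [val_res_congr' lam h1, val_res_congr' lam h2, val_res_id'] at h
  have h3 := hlam (fun _ => ω) W inferInstance
  have h4 : lam.val W = (∏ i, χ i (ω : k)) * lam.val W := h.symm.trans h3
  have h5 : (∏ i, χ i) (ω : k) = ∏ i, χ i (ω : k) := by
    have h8 : ∀ s : Finset (Fin N), (∏ i ∈ s, χ i) (ω : k) = ∏ i ∈ s, χ i (ω : k) := by
      intro s
      induction s using Finset.induction_on with
      | empty => rw [Finset.prod_empty, Finset.prod_empty, MulChar.one_apply_coe]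
      | insert a s ha ih => rw [Finset.prod_insert ha, Finset.prod_insert ha, MulChar.mul_apply, ih]
    exact h8 _
  rw [← h5] at h4
  have h6 : (1 - (∏ i, χ i) (ω : k)) * lam.val W = 0 := by
    rw [sub_mul, one_mul, ← h4, sub_self]
  refine (mul_eq_zero.mp h6).resolve_left ?_
  intro h7
  exact hω (sub_eq_zero.mp h7).symm

end G

end EigAux

open EigAux in
/-- (EIG) reduction to eigenfunctions with all characters non-trivial and product trivial. -/
theorem eig_reduction {k : Type u} [Field k] [Fintype k] {N : ℕ} {n : Fin N → ℕ} (m : Fin N → ℕ)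
    (hnm : ∀ i, n i * m i = Fintype.card k - 1)
    (H : ∀ (lam : AddFn (DiagRing k n)), lam.val (DiagRing k n) = 0 →
      ∀ (χ : Fin N → MulChar k ℂ), Eig m hnm lam χ → (∀ i, χ i ≠ 1) → ∏ i, χ i = 1 →
      ∀ (W : Type u) [AddCommGroup W] [Module (DiagRing k n) W],
        Module.Finite (DiagRing k n) W → lam.val W = 0)
    (lam : AddFn (DiagRing k n)) (h0 : lam.val (DiagRing k n) = 0)
    (W : Type u) [AddCommGroup W] [Module (DiagRing k n) W] [Module.Finite (DiagRing k n) W] :
    lam.val W = 0 := by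
  classical
  haveI : Fintype (MulChar k ℂ) := Fintype.ofFinite _
  rw [sum_proj m hnm lam W]
  refine Finset.sum_eq_zero fun χ _ => ?_
  have hE := proj_eig m hnm lam χ
  have hz : (proj m hnm lam χ).val (DiagRing k n) = 0 := wsum_self m hnm lam h0 _
  by_cases h1 : ∃ i, χ i = 1
  · obtain ⟨i, hi⟩ := h1
    exact zero_of_trivial m hnm _ hz χ hE i hi W
  · by_cases h2 : ∏ i, χ i = 1
    · exact H _ hz χ hE (fun i hi => h1 ⟨i, hi⟩) h2 W inferInstance
    · exact zero_of_prod m hnm _ χ hE h2 W

end Pool.Agent.HT51
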