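import Pool.Agent.HT51.K2

/-!
# Module FIN: additive functions multiplied by a constant under a Frobenius push-forward
-/

universe u

namespace Pool.Agent.HT51

/-- An additive function vanishing on all `B ⧸ P`, `P` prime, is zero. -/
lemma AddFn.zero_of_prime {B : Type u} [CommRing B] [IsNoetherianRing B] (nu : AddFn B)
    (h : ∀ P : Ideal B, P.IsPrime → nu.val (B ⧸ P) = 0)
    (W : Type u) [AddCommGroup W] [Module B W] (hW : Module.Finite B W) : nu.val W = 0 := by
  induction hW using IsNoetherianRing.induction_on_isQuotientEquivQuotientPrime B with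
  | subsingleton N => exact nu.val_of_subsingleton N
  | quotient N p e => rw [nu.val_congr e]; exact h _ p.2
  | exact N₁ N₂ N₃ f g hf hg hfg h1 h3 =>
    rw [nu.add' N₁ N₂ N₃ f g hf hfg hg inferInstance, h1, h3, add_zero]

section Domain

variable {D : Type u} [CommRing D] [IsDomain D]

lemma finrank_zero_of_smul (M : Type u) [AddCommGroup M] [Module D M] (a : D) (ha : a ≠ 0)
    (h : ∀ x : M, a • x = 0) : Module.finrank D M = 0 := by
  have ht : Module.rank D M = 0 := by
    rw [rank_eq_zero_iff]
    exact fun x => ⟨a, ha, h x⟩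
  rw [Module.finrank, ht, map_zero]

lemma AddFn.zero_of_domain [IsNoetherianRing D] (nu : AddFn D) (h0 : nu.val D = 0)
    (h : ∀ Q : Ideal D, Q.IsPrime → Q ≠ ⊥ → nu.val (D ⧸ Q) = 0)
    (W : Type u) [AddCommGroup W] [Module D W] (hW : Module.Finite D W) : nu.val W = 0 := by
  refine nu.zero_of_prime ?_ W hW
  intro Q hQ
  by_cases hb : Q = ⊥
  · rw [nu.val_congr (Submodule.quotEquivOfEqBot Q hb), h0]
  · exact h Q hQ hb

/-- Multiplicativity of the rank under a power map. -/
lemma finrank_res [IsNoetherianRing D] (G : D →+* D) (hGf : G.Finite) (s : ℕ) (hs : 0 < s)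
    (hG : ∀ a, G a = a ^ s) (M : Type u) [AddCommGroup M] [Module D M] (hM : Module.Finite D M) :
    (Module.finrank D (Res G M) : ℂ) = Module.finrank D (Res G D) * Module.finrank D M := by
  set nu : AddFn D := ((rkFn D).res G hGf).subMul (rkFn D) (Module.finrank D (Res G D) : ℂ)
    with hnu
  have hv : ∀ (W : Type u) [AddCommGroup W] [Module D W], nu.val W
      = (Module.finrank D (Res G W) : ℂ) - Module.finrank D (Res G D) * Module.finrank D W :=
    fun W _ _ => rfl
  have h := nu.zero_of_domain (by rw [hv, Module.finrank_self]; push_cast; ring) ?_ M hM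
  · rw [hv, sub_eq_zero] at h
    exact h
  · intro Q hQ hb
    obtain ⟨q, hq, hq0⟩ := Submodule.exists_mem_ne_zero_of_ne_bot hb
    have hk : ∀ x : D ⧸ Q, q • x = 0 := by
      intro x
      obtain ⟨x, rfl⟩ := Ideal.Quotient.mk_surjective x
      rw [← Ideal.Quotient.mk_eq_mk, ← Submodule.Quotient.mk_smul, Submodule.Quotient.mk_eq_zero]
      exact Ideal.mul_mem_right _ _ hq
    have hk2 : ∀ x : Res G (D ⧸ Q), q • x = 0 := by
      intro x
      have h1 : q ^ s • ((toRes G (D ⧸ Q)).symm x) = 0 := by
        obtain ⟨t, rfl⟩ := Nat.exists_eq_succ_of_ne_zero hs.ne'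
        rw [pow_succ, mul_smul, hk, smul_zero]
      rw [← hG] at h1
      exact h1
    rw [hv, finrank_zero_of_smul _ q hq0 hk, finrank_zero_of_smul _ q hq0 hk2]
    push_cast
    ring

/-- (RK) the rank of `D` over itself via the iterated Frobenius is an `e`-th power. -/
theorem rank_iterate [IsNoetherianRing D] (p : ℕ)
    [hp : Fact p.Prime] [CharP D p] (hF1 : (frobenius D p).Finite) (e : ℕ) :
    Module.finrank D (Res (iterateFrobenius D p e) D)
      = (Module.finrank D (Res (frobenius D p) D)) ^ e := by
  have key : ∀ e : ℕ, Module.Finite D (Res (iterateFrobenius D p e) D) ∧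
      (Module.finrank D (Res (iterateFrobenius D p e) D) : ℂ)
        = (Module.finrank D (Res (frobenius D p) D) : ℂ) ^ e := by
    intro e
    induction e with
    | zero =>
      let E : D ≃ₗ[D] Res (iterateFrobenius D p 0) D :=
        { toRes (iterateFrobenius D p 0) D with
          map_smul' := fun a x => by
            have h : a * x = iterateFrobenius D p 0 a * x := by
              rw [iterateFrobenius_def, pow_zero, pow_one]
            exact h }
      refine ⟨Module.Finite.equiv E, ?_⟩
      rw [← E.finrank_eq, Module.finrank_self, pow_zero, Nat.cast_one]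
    | succ e ih =>
      obtain ⟨ih1, ih2⟩ := ih
      let E : Res (frobenius D p) (Res (iterateFrobenius D p e) D) ≃ₗ[D]
          Res (iterateFrobenius D p (e + 1)) D :=
        { toFun := fun x => x
          invFun := fun x => x
          left_inv := fun x => rfl
          right_inv := fun x => rfl
          map_add' := fun x y => rfl
          map_smul' := fun a x => by
            have h : ∀ y : D, iterateFrobenius D p e (frobenius D p a) * y
                = iterateFrobenius D p (e + 1) a * y := by
              intro y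
              rw [iterateFrobenius_def, frobenius_def, iterateFrobenius_def, ← pow_mul, pow_succ']
            exact h x }
      have hfin : Module.Finite D (Res (frobenius D p) (Res (iterateFrobenius D p e) D)) :=
        res_finite _ hF1
      refine ⟨Module.Finite.equiv E, ?_⟩
      rw [← E.finrank_eq, finrank_res (frobenius D p) hF1 p hp.out.pos
        (fun a => frobenius_def p a) _ ih1, ih2]
      ring
  exact_mod_cast (key e).2

end Domain

/-- (FIN) -/
theorem fin_vanish {B : Type u} [CommRing B] [IsNoetherianRing B] (p : ℕ) [hp : Fact p.Prime]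
    [CharP B p] (e : ℕ) (he : 0 < e) (hF : (iterateFrobenius B p e).Finite)
    (hF1 : (frobenius B p).Finite)
    (lam : AddFn B) (c : ℂ)
    (hc : ∀ (W : Type u) [AddCommGroup W] [Module B W], Module.Finite B W →
      lam.val (Res (iterateFrobenius B p e) W) = c * lam.val W)
    (hcv : ∀ b : ℕ, c ≠ (b : ℂ) ^ e)
    (W : Type u) [AddCommGroup W] [Module B W] [Module.Finite B W] : lam.val W = 0 := by
  refine lam.zero_of_prime ?_ W inferInstance
  intro P
  refine IsNoetherian.induction (R := B) (M := B)
    (P := fun I => Ideal.IsPrime I → lam.val (B ⧸ I) = 0) ?_ P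
  intro P IH hP
  haveI hDom : IsDomain (B ⧸ P) := Ideal.Quotient.isDomain P
  set mk : B →+* (B ⧸ P) := Ideal.Quotient.mk P with hmk
  have hmks : Function.Surjective mk := Ideal.Quotient.mk_surjective
  have hmkf : mk.Finite := RingHom.Finite.of_surjective mk hmks
  haveI hchar : CharP (B ⧸ P) p := by
    rw [CharP.charP_iff_prime_eq_zero hp.out, ← map_natCast mk, CharP.cast_eq_zero, map_zero]
  have hGf : (iterateFrobenius (B ⧸ P) p e).Finite := by
    have h1 : (iterateFrobenius (B ⧸ P) p e).comp mk = mk.comp (iterateFrobenius B p e) := by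
      ext b
      rw [RingHom.comp_apply, RingHom.comp_apply, iterateFrobenius_def, iterateFrobenius_def,
        map_pow]
    have h2 : ((iterateFrobenius (B ⧸ P) p e).comp mk).Finite := by
      rw [h1]; exact hmkf.comp hF
    exact h2.of_comp_finite
  have hG1 : (frobenius (B ⧸ P) p).Finite := by
    have h1 : (frobenius (B ⧸ P) p).comp mk = mk.comp (frobenius B p) := by
      ext b
      rw [RingHom.comp_apply, RingHom.comp_apply, frobenius_def, frobenius_def, map_pow]
    have h2 : ((frobenius (B ⧸ P) p).comp mk).Finite := by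
      rw [h1]; exact hmkf.comp hF1
    exact h2.of_comp_finite
  have hBP : lam.val (B ⧸ P) = lam.val (Res mk (B ⧸ P)) :=
    lam.val_congr
      { toRes mk (B ⧸ P) with
        map_smul' := fun b x => by
          have h : b • x = mk b * x := by
            rw [Algebra.smul_def, Ideal.Quotient.algebraMap_eq]
          exact h }
  set lD : ℂ := lam.val (Res mk (B ⧸ P)) with hlD
  set nu : AddFn (B ⧸ P) := (lam.res mk hmkf).subMul (rkFn (B ⧸ P)) lD with hnu
  have hv : ∀ (W : Type u) [AddCommGroup W] [Module (B ⧸ P) W], nu.val W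
      = lam.val (Res mk W) - lD * Module.finrank (B ⧸ P) W := fun W _ _ => rfl
  have hnu0 : ∀ (W : Type u) [AddCommGroup W] [Module (B ⧸ P) W], Module.Finite (B ⧸ P) W →
      nu.val W = 0 := by
    refine fun W _ _ hW => nu.zero_of_domain ?_ ?_ W hW
    · rw [hv, Module.finrank_self, Nat.cast_one, mul_one, sub_self]
    · intro Q hQ hb
      obtain ⟨q, hq, hq0⟩ := Submodule.exists_mem_ne_zero_of_ne_bot hb
      have hk : ∀ x : (B ⧸ P) ⧸ Q, q • x = 0 := by
        intro x
        obtain ⟨x, rfl⟩ := Ideal.Quotient.mk_surjective x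
        rw [← Ideal.Quotient.mk_eq_mk, ← Submodule.Quotient.mk_smul, Submodule.Quotient.mk_eq_zero]
        exact Ideal.mul_mem_right _ _ hq
      rw [hv, finrank_zero_of_smul _ q hq0 hk, Nat.cast_zero, mul_zero, sub_zero]
      -- the module is `B ⧸ J`
      let T : B →ₗ[B] Res mk ((B ⧸ P) ⧸ Q) :=
        { toFun := fun b => toRes mk _ (Ideal.Quotient.mk Q (mk b))
          map_add' := fun x y => by rw [map_add, map_add]; rfl
          map_smul' := fun a x => by
            have h : Ideal.Quotient.mk Q (mk (a * x)) = mk a • Ideal.Quotient.mk Q (mk x) := by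
              rw [map_mul, map_mul, Algebra.smul_def, Ideal.Quotient.algebraMap_eq]
            exact h }
      have hTs : Function.Surjective T := by
        intro y
        obtain ⟨d, hd⟩ := Ideal.Quotient.mk_surjective ((toRes mk ((B ⧸ P) ⧸ Q)).symm y)
        obtain ⟨b, rfl⟩ := hmks d
        exact ⟨b, hd⟩
      have hTk : LinearMap.ker T = Q.comap mk := by
        ext b
        rw [LinearMap.mem_ker, Ideal.mem_comap]
        exact Ideal.Quotient.eq_zero_iff_mem
      have hJ : P < Q.comap mk := by
        refine lt_of_le_of_ne ?_ ?_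
        · intro b hb
          rw [Ideal.mem_comap, hmk, Ideal.Quotient.eq_zero_iff_mem.mpr hb]
          exact Q.zero_mem
        · intro hPQ
          obtain ⟨b, rfl⟩ := hmks q
          have hb : b ∈ P := by rw [hPQ]; exact hq
          exact hq0 (Ideal.Quotient.eq_zero_iff_mem.mpr hb)
      have hJp : (Q.comap mk).IsPrime := Ideal.comap_isPrime mk Q
      rw [← lam.val_congr ((Submodule.quotEquivOfEq _ _ hTk.symm).trans
        (T.quotKerEquivOfSurjective hTs))]
      exact IH _ hJ hJp
  -- apply this to the Frobenius push-forward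
  have hGfin : Module.Finite (B ⧸ P) (Res (iterateFrobenius (B ⧸ P) p e) (B ⧸ P)) :=
    res_finite _ hGf
  have h1 := hnu0 (Res (iterateFrobenius (B ⧸ P) p e) (B ⧸ P)) hGfin
  rw [hv, sub_eq_zero, rank_iterate p hG1 e, Nat.cast_pow] at h1
  haveI hfmk : Module.Finite B (Res mk (B ⧸ P)) := res_finite mk hmkf
  have h2 : lam.val (Res mk (Res (iterateFrobenius (B ⧸ P) p e) (B ⧸ P)))
      = lam.val (Res (iterateFrobenius B p e) (Res mk (B ⧸ P))) := by
    haveI : Module.Finite B (Res mk (Res (iterateFrobenius (B ⧸ P) p e) (B ⧸ P))) :=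
      res_finite mk hmkf
    exact lam.val_congr
      { toFun := fun x => x
        invFun := fun x => x
        left_inv := fun x => rfl
        right_inv := fun x => rfl
        map_add' := fun x y => rfl
        map_smul' := fun b x => by
          have h : ∀ y : B ⧸ P, iterateFrobenius (B ⧸ P) p e (mk b) * y
              = mk (iterateFrobenius B p e b) * y := by
            intro y
            rw [iterateFrobenius_def, iterateFrobenius_def, map_pow]
          exact h x }
  rw [h2, hc _ hfmk] at h1
  rw [hBP]
  by_contra hne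
  have h3 : (c - (Module.finrank (B ⧸ P) (Res (frobenius (B ⧸ P) p) (B ⧸ P)) : ℂ) ^ e) * lD
      = 0 := by
    rw [sub_mul, h1]
    ring
  rcases mul_eq_zero.mp h3 with h | h
  · exact hcv _ (sub_eq_zero.mp h)
  · exact hne h

end Pool.Agent.HT51
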