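import Pool.Agent.HT51.DBase
import Pool.Agent.HT21.PdPoly

/-!
# (GEN): matrix factorisations generate

`gen`: an additive function on f.g. modules over `B = k[x_0..x_M]/(f)`, `f` diagonal, that vanishes on
`B` and on the cokernels of the matrix factorisations of `f`, vanishes.

With `S = k[x_1..x_M]`: by dimension shifting over `B` it is enough to treat `Ω` which is `S`-projective
(`pd_S ≤ M` by Hilbert's syzygy theorem).  If `p : S^r → Ω`, `i : Ω → S^r`, `p i = 1`, then `Ω` is the
cokernel of the matrix `(x_0 - A) E + (1 - E)` over `R = S[x_0]`, `E = i p`, `A = i x_0 p`.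
-/

universe u

namespace Pool.Agent.HT51

section core

variable {S R : Type u} [CommRing S] [CommRing R] (ι : S →+* R) (x f : R)

open Matrix

theorem mf_of_split (hgen : ∀ a : R, ∃ P : Polynomial S, P.eval₂ ι x = a)
    (hf : ∀ a : R, f * a = 0 → a = 0)
    (Ω : Type u) [AddCommGroup Ω] [Module (R ⧸ Ideal.span {f}) Ω] (r : ℕ)
    (p : (Fin r → S) →+ Ω) (i : Ω →+ (Fin r → S))
    (hps : ∀ (a : S) (s : Fin r → S), p (a • s) = Ideal.Quotient.mk (Ideal.span {f}) (ι a) • p s)
    (his : ∀ (a : S) (o : Ω), i (Ideal.Quotient.mk (Ideal.span {f}) (ι a) • o) = a • i o)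
    (hpi : ∀ o, p (i o) = o) :
    ∃ F : MF f r,
      Nonempty (Cok (F.phi.map (Ideal.Quotient.mk (Ideal.span {f}))) ≃ₗ[R ⧸ Ideal.span {f}] Ω) := by
  classical
  set q : R →+* R ⧸ Ideal.span {f} := Ideal.Quotient.mk (Ideal.span {f}) with hq
  -- the generators
  set w : Fin r → Ω := fun b => p (Pi.single b 1) with hw
  -- constant vectors
  let cv : (Fin r → S) → (Fin r → R) := fun s b => ι (s b)
  have cv_add : ∀ s t, cv (s + t) = cv s + cv t := fun s t => funext fun b => map_add ι _ _
  have cv_smul : ∀ (a : S) s, cv (a • s) = ι a • cv s := fun a s => funext fun b => map_mul ι _ _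
  have cv_zero : cv 0 = 0 := funext fun b => map_zero ι
  -- the projection
  let π : (Fin r → R) → Ω := fun v => ∑ b, q (v b) • w b
  have π_add : ∀ u v, π (u + v) = π u + π v := by
    intro u v
    simp only [π, Pi.add_apply, map_add, add_smul, Finset.sum_add_distrib]
  have π_smul : ∀ (a : R) v, π (a • v) = q a • π v := by
    intro a v
    simp only [π, Pi.smul_apply, smul_eq_mul, map_mul, mul_smul, Finset.smul_sum]
  have hps' : ∀ s : Fin r → S, p s = ∑ b, q (ι (s b)) • w b := by
    intro s
    have h1 : s = ∑ b, s b • (Pi.single b (1 : S) : Fin r → S) := by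
      funext a
      rw [Finset.sum_apply]
      simp [Pi.single_apply]
    conv_lhs => rw [h1]
    rw [map_sum]
    refine Finset.sum_congr rfl fun b _ => ?_
    rw [hps]
  have π_cv : ∀ s, π (cv s) = p s := fun s => (hps' s).symm
  -- the matrix
  let φ : Matrix (Fin r) (Fin r) R := Matrix.of fun a b =>
    x * ι (i (w b) a) - ι (i (q x • w b) a) + (1 : Matrix (Fin r) (Fin r) R) a b - ι (i (w b) a)
  have φ_apply : ∀ a b, φ a b =
    x * ι (i (w b) a) - ι (i (q x • w b) a) + (1 : Matrix (Fin r) (Fin r) R) a b - ι (i (w b) a) :=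
    fun a b => rfl
  have hφcv : ∀ s, φ *ᵥ cv s = x • cv (i (p s)) - cv (i (q x • p s)) + cv s - cv (i (p s)) := by
    intro s
    have e1 : i (p s) = ∑ b, s b • i (w b) := by
      rw [hps', map_sum]
      exact Finset.sum_congr rfl fun b _ => his _ _
    have e2 : i (q x • p s) = ∑ b, s b • i (q x • w b) := by
      rw [hps', Finset.smul_sum, map_sum]
      refine Finset.sum_congr rfl fun b _ => ?_
      rw [smul_comm, his]
    funext a
    have e3 : ι (i (p s) a) = ∑ b, ι (s b) * ι (i (w b) a) := by
      rw [e1, Finset.sum_apply, map_sum]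
      exact Finset.sum_congr rfl fun b _ => map_mul ι _ _
    have e4 : ι (i (q x • p s) a) = ∑ b, ι (s b) * ι (i (q x • w b) a) := by
      rw [e2, Finset.sum_apply, map_sum]
      exact Finset.sum_congr rfl fun b _ => map_mul ι _ _
    have e5 : ι (s a) = ∑ b, ι (s b) * (1 : Matrix (Fin r) (Fin r) R) a b := by
      simp [Matrix.one_apply]
    show ∑ b, φ a b * ι (s b) = x * ι (i (p s) a) - ι (i (q x • p s) a) + ι (s a) - ι (i (p s) a)
    rw [e3, e4, e5, Finset.mul_sum, ← Finset.sum_sub_distrib, ← Finset.sum_add_distrib,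
      ← Finset.sum_sub_distrib]
    refine Finset.sum_congr rfl fun b _ => ?_
    rw [φ_apply]
    ring
  -- `π ∘ φ = 0`
  have hπφ : ∀ v, π (φ *ᵥ v) = 0 := by
    intro v
    have h1 : φ *ᵥ v = ∑ b, v b • (φ *ᵥ cv (Pi.single b 1)) := by
      have h2 : v = ∑ b, v b • cv (Pi.single b 1) := by
        funext a
        rw [Finset.sum_apply]
        have : ∀ b, (v b • cv (Pi.single b 1)) a = if a = b then v b else 0 := by
          intro b
          show v b * ι ((Pi.single b (1 : S) : Fin r → S) a) = _
          rw [Pi.single_apply]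
          split_ifs with h
          · rw [map_one, mul_one]
          · rw [map_zero, mul_zero]
        simp [this]
      conv_lhs => rw [h2]
      rw [Matrix.mulVec_sum]
      exact Finset.sum_congr rfl fun b _ => Matrix.mulVec_smul _ _ _
    have π_sum : ∀ (g : Fin r → (Fin r → R)), π (∑ b, g b) = ∑ b, π (g b) := by
      intro g
      exact map_sum (⟨⟨π, by simp [π]⟩, π_add⟩ : (Fin r → R) →+ Ω) g Finset.univ
    rw [h1, π_sum]
    refine Finset.sum_eq_zero fun b _ => ?_
    rw [π_smul, hφcv]
    have hneg : ∀ u v, π (u - v) = π u - π v := by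
      intro u v
      have := π_add (u - v) v
      rw [sub_add_cancel] at this
      rw [this]; abel
    rw [hneg, π_add, hneg, π_smul, π_cv, π_cv, π_cv, hpi, hpi, sub_self, zero_add, sub_self,
      smul_zero]
  -- the range
  have hK0 : ∀ v, φ *ᵥ v ∈ LinearMap.range φ.mulVecLin := fun v => ⟨v, rfl⟩
  have hKx : ∀ o : Ω, x • cv (i o) - cv (i (q x • o)) ∈ LinearMap.range φ.mulVecLin := by
    intro o
    have h1 := hφcv (i o)
    rw [hpi, add_sub_assoc, sub_self, add_zero] at h1
    rw [← h1]
    exact hK0 _
  have hKs : ∀ s, cv s - cv (i (p s)) ∈ LinearMap.range φ.mulVecLin := by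
    intro s
    have h1 := hφcv s
    have h2 : cv s - cv (i (p s)) = φ *ᵥ cv s - (x • cv (i (p s)) - cv (i (q x • p s))) := by
      rw [h1]; abel
    rw [h2]
    exact Submodule.sub_mem _ (hK0 _) (hKx _)
  have hKj : ∀ (j : ℕ) s, x ^ j • cv s - cv (i (q (x ^ j) • p s)) ∈ LinearMap.range φ.mulVecLin := by
    intro j s
    induction j with
    | zero => rw [pow_zero, map_one, one_smul, one_smul]; exact hKs s
    | succ j ih =>
      have h1 := Submodule.smul_mem _ x ih
      have h2 := hKx (q (x ^ j) • p s)
      have h3 := Submodule.add_mem _ h1 h2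
      convert h3 using 1
      rw [smul_sub, smul_smul, smul_smul, ← map_mul, ← pow_succ']
      abel
  have hKv : ∀ v, v - cv (i (π v)) ∈ LinearMap.range φ.mulVecLin := by
    have hadd : ∀ u v, u - cv (i (π u)) ∈ LinearMap.range φ.mulVecLin →
        v - cv (i (π v)) ∈ LinearMap.range φ.mulVecLin →
        (u + v) - cv (i (π (u + v))) ∈ LinearMap.range φ.mulVecLin := by
      intro u v hu hv
      have h3 := Submodule.add_mem _ hu hv
      convert h3 using 1
      rw [π_add, map_add, cv_add]
      abel
    have hsingle : ∀ (b : Fin r) (a : R), a • cv (Pi.single b 1) - cv (i (π (a • cv (Pi.single b 1))))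
        ∈ LinearMap.range φ.mulVecLin := by
      intro b a
      obtain ⟨P, rfl⟩ := hgen a
      induction P using Polynomial.induction_on' with
      | add P Q hP hQ =>
        rw [Polynomial.eval₂_add, add_smul]
        exact hadd _ _ hP hQ
      | monomial j s =>
        rw [Polynomial.eval₂_monomial, mul_comm, mul_smul, ← cv_smul, π_smul, π_cv]
        exact hKj j _
    intro v
    have h2 : v = ∑ b, v b • cv (Pi.single b 1) := by
      funext a
      rw [Finset.sum_apply]
      have : ∀ b, (v b • cv (Pi.single b 1)) a = if a = b then v b else 0 := by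
        intro b
        show v b * ι ((Pi.single b (1 : S) : Fin r → S) a) = _
        rw [Pi.single_apply]
        split_ifs with h
        · rw [map_one, mul_one]
        · rw [map_zero, mul_zero]
      simp [this]
    rw [h2]
    refine Finset.sum_induction (fun b => v b • cv (Pi.single b 1))
      (fun u => u - cv (i (π u)) ∈ LinearMap.range φ.mulVecLin) hadd ?_ fun b _ => hsingle b _
    have : π 0 = 0 := by simp [π]
    rw [this, map_zero, cv_zero, sub_zero]
    exact Submodule.zero_mem _
  have hker : ∀ v, π v = 0 → ∃ u, φ *ᵥ u = v := by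
    intro v hv
    have h := hKv v
    rw [hv, map_zero, cv_zero, sub_zero] at h
    exact h
  -- the second matrix
  have hcol : ∀ b : Fin r, ∃ u, φ *ᵥ u = f • (Pi.single b 1 : Fin r → R) := by
    intro b
    apply hker
    rw [π_smul]
    have : q f = 0 := Ideal.Quotient.eq_zero_iff_mem.mpr (Ideal.subset_span rfl)
    rw [this, zero_smul]
  choose u hu using hcol
  let ψ : Matrix (Fin r) (Fin r) R := Matrix.of fun a b => u b a
  have h12 : φ * ψ = f • (1 : Matrix (Fin r) (Fin r) R) := by
    ext a b
    have h := congrFun (hu b) a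
    rw [Matrix.mul_apply]
    have h2 : (φ *ᵥ u b) a = ∑ j, φ a j * ψ j b := rfl
    rw [← h2, h, Matrix.smul_apply, Matrix.one_apply]
    simp [Pi.single_apply]
  have hdet : φ.det * ψ.det = f ^ r := by
    rw [← Matrix.det_mul, h12, Matrix.det_smul, Fintype.card_fin, Matrix.det_one, mul_one]
  have hfr : ∀ (m : ℕ) (a : R), f ^ m * a = 0 → a = 0 := by
    intro m
    induction m with
    | zero => intro a ha; rwa [pow_zero, one_mul] at ha
    | succ m ih =>
      intro a ha
      rw [pow_succ', mul_assoc] at ha
      exact ih _ (hf _ ha)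
  have h21 : ψ * φ = f • (1 : Matrix (Fin r) (Fin r) R) := by
    have h1 : φ * (ψ * φ - f • (1 : Matrix (Fin r) (Fin r) R)) = 0 := by
      rw [Matrix.mul_sub, ← Matrix.mul_assoc, h12, Matrix.smul_mul, Matrix.one_mul,
        Matrix.mul_smul, Matrix.mul_one, sub_self]
    have h2 : φ.det • (ψ * φ - f • (1 : Matrix (Fin r) (Fin r) R)) = 0 := by
      have h3 := congrArg (fun Z => φ.adjugate * Z) h1
      simp only [Matrix.mul_zero] at h3
      rw [← Matrix.mul_assoc, Matrix.adjugate_mul, Matrix.smul_mul, Matrix.one_mul] at h3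
      exact h3
    have h4 : f ^ r • (ψ * φ - f • (1 : Matrix (Fin r) (Fin r) R)) = 0 := by
      rw [← hdet, mul_comm, mul_smul, h2, smul_zero]
    have h5 : ψ * φ - f • (1 : Matrix (Fin r) (Fin r) R) = 0 := by
      ext a b
      have h6 := congrFun (congrFun h4 a) b
      exact hfr r _ h6
    exact sub_eq_zero.mp h5
  refine ⟨⟨φ, ψ, h12, h21⟩, ?_⟩
  -- the cokernel
  let πB : (Fin r → R ⧸ Ideal.span {f}) →ₗ[R ⧸ Ideal.span {f}] Ω :=
    { toFun := fun v => ∑ b, v b • w b
      map_add' := fun u v => by
        simp only [Pi.add_apply, add_smul, Finset.sum_add_distrib]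
      map_smul' := fun a v => by
        simp only [Pi.smul_apply, smul_eq_mul, mul_smul, Finset.smul_sum, RingHom.id_apply] }
  have πB_q : ∀ v : Fin r → R, πB (fun b => q (v b)) = π v := fun v => rfl
  have hsurj : Function.Surjective πB := by
    intro o
    refine ⟨fun b => q (ι (i o b)), ?_⟩
    rw [πB_q (cv (i o)), π_cv, hpi]
  have hmap : ∀ v : Fin r → R, (φ.map q) *ᵥ (fun b => q (v b)) = fun b => q ((φ *ᵥ v) b) := by
    intro v
    funext a
    show ∑ b, q (φ a b) * q (v b) = q (∑ b, φ a b * v b)
    rw [map_sum]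
    exact Finset.sum_congr rfl fun b _ => (map_mul q _ _).symm
  have hlift : ∀ v : Fin r → R ⧸ Ideal.span {f}, ∃ v' : Fin r → R, v = fun b => q (v' b) := by
    intro v
    choose v' hv' using fun b => Ideal.Quotient.mk_surjective (v b)
    exact ⟨v', funext fun b => (hv' b).symm⟩
  have hkerB : LinearMap.range (φ.map q).mulVecLin = LinearMap.ker πB := by
    apply le_antisymm
    · rintro _ ⟨v, rfl⟩
      obtain ⟨v', rfl⟩ := hlift v
      rw [LinearMap.mem_ker]
      show πB ((φ.map q) *ᵥ (fun b => q (v' b))) = 0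
      rw [hmap, πB_q, hπφ]
    · intro v hv
      obtain ⟨v', rfl⟩ := hlift v
      rw [LinearMap.mem_ker, πB_q] at hv
      obtain ⟨u', rfl⟩ := hker v' hv
      refine ⟨fun b => q (u' b), ?_⟩
      show (φ.map q) *ᵥ (fun b => q (u' b)) = _
      rw [hmap]
  exact ⟨(Submodule.quotEquivOfEq _ _ hkerB).trans (πB.quotKerEquivOfSurjective hsurj)⟩

theorem mf_of_projective (hgen : ∀ a : R, ∃ P : Polynomial S, P.eval₂ ι x = a)
    (hf : ∀ a : R, f * a = 0 → a = 0)
    (Ω : Type u) [AddCommGroup Ω] [Module (R ⧸ Ideal.span {f}) Ω]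
    (hproj : Module.Projective S (Res ((Ideal.Quotient.mk (Ideal.span {f})).comp ι) Ω))
    (hfin : Module.Finite S (Res ((Ideal.Quotient.mk (Ideal.span {f})).comp ι) Ω)) :
    ∃ (r : ℕ) (F : MF f r),
      Nonempty (Cok (F.phi.map (Ideal.Quotient.mk (Ideal.span {f}))) ≃ₗ[R ⧸ Ideal.span {f}] Ω) := by
  obtain ⟨r, p, hp⟩ := Module.Finite.exists_fin' S
    (Res ((Ideal.Quotient.mk (Ideal.span {f})).comp ι) Ω)
  obtain ⟨i, hi⟩ := Module.projective_lifting_property p LinearMap.id hp
  refine ⟨r, mf_of_split ι x f hgen hf Ω r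
    ((toRes ((Ideal.Quotient.mk (Ideal.span {f})).comp ι) Ω).symm.toAddMonoidHom.comp
      p.toAddMonoidHom)
    (i.toAddMonoidHom.comp (toRes ((Ideal.Quotient.mk (Ideal.span {f})).comp ι) Ω).toAddMonoidHom)
    ?_ ?_ ?_⟩
  · intro a s
    exact p.map_smul a s
  · intro a o
    exact i.map_smul a (toRes ((Ideal.Quotient.mk (Ideal.span {f})).comp ι) Ω o)
  · intro o
    exact congrArg (fun g => g (toRes ((Ideal.Quotient.mk (Ideal.span {f})).comp ι) Ω o)) hi

end core

section shift

open CategoryTheory

variable {S R : Type u} [CommRing S] [CommRing R] (ι : S →+* R) (x f : R)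

lemma val_pi_zero {B : Type u} [CommRing B] (nu : AddFn B) (h0 : nu.val B = 0) (m : ℕ) :
    nu.val (Fin m → B) = 0 := by
  induction m with
  | zero => exact nu.val_of_subsingleton _
  | succ m ih =>
    have h := nu.add' (Fin m → B) (Fin (m + 1) → B) B
      { toFun := fun v => Fin.cons 0 v
        map_add' := fun u v => by
          funext a
          refine Fin.cases ?_ (fun j => ?_) a
          · simp
          · simp
        map_smul' := fun a v => by
          funext b
          refine Fin.cases ?_ (fun j => ?_) b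
          · simp
          · simp }
      (LinearMap.proj 0)
      (fun u v huv => by
        funext j
        have := congrFun huv j.succ
        simpa using this)
      (by
        intro v
        constructor
        · intro hv
          refine ⟨fun j => v j.succ, ?_⟩
          funext a
          refine Fin.cases ?_ (fun j => ?_) a
          · simpa using hv.symm
          · simp
        · rintro ⟨u, rfl⟩
          simp)
      (fun b => ⟨fun _ => b, rfl⟩) inferInstance
    rw [h, ih, h0, add_zero]

lemma projective_res_pi {B : Type u} [CommRing B] (j : S →+* B)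
    (hfree : Module.Free S (Res j B)) (m : ℕ) : Module.Projective S (Res j (Fin m → B)) := by
  have h : Module.Free S (Fin m → Res j B) := inferInstance
  have h2 : Module.Projective S (Fin m → Res j B) := inferInstance
  let e : (Fin m → Res j B) ≃ₗ[S] Res j (Fin m → B) :=
    { toFun := fun v => v
      invFun := fun v => v
      left_inv := fun _ => rfl
      right_inv := fun _ => rfl
      map_add' := fun _ _ => rfl
      map_smul' := fun _ _ => rfl }
  exact Module.Projective.of_equiv e

theorem gen_aux (hgen : ∀ a : R, ∃ P : Polynomial S, P.eval₂ ι x = a)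
    (hf : ∀ a : R, f * a = 0 → a = 0) [IsNoetherianRing (R ⧸ Ideal.span {f})]
    (hfree : Module.Free S (Res ((Ideal.Quotient.mk (Ideal.span {f})).comp ι)
      (R ⧸ Ideal.span {f})))
    (hfin : ((Ideal.Quotient.mk (Ideal.span {f})).comp ι).Finite)
    (nu : AddFn (R ⧸ Ideal.span {f})) (h0 : nu.val (R ⧸ Ideal.span {f}) = 0)
    (hMF : ∀ (r : ℕ) (F : MF f r),
      nu.val (Cok (F.phi.map (Ideal.Quotient.mk (Ideal.span {f})))) = 0) (c : ℕ) :
    ∀ (W : Type u) [AddCommGroup W] [Module (R ⧸ Ideal.span {f}) W]
      [Module.Finite (R ⧸ Ideal.span {f}) W],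
      HasProjectiveDimensionLE
        (ModuleCat.of S (Res ((Ideal.Quotient.mk (Ideal.span {f})).comp ι) W)) c →
      nu.val W = 0 := by
  induction c with
  | zero =>
    intro W _ _ _ h
    rw [← projective_iff_hasProjectiveDimensionLE_zero, ← IsProjective.iff_projective] at h
    obtain ⟨r, F, ⟨e⟩⟩ := mf_of_projective ι x f hgen hf W h (res_finite _ hfin)
    rw [← nu.val_congr e, hMF]
  | succ c ih =>
    intro W _ _ _ h
    obtain ⟨m, g, hg⟩ := Module.Finite.exists_fin' (R ⧸ Ideal.span {f}) W
    have hex : Function.Exact (LinearMap.ker g).subtype g := LinearMap.exact_subtype_ker_map g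
    have hinj : Function.Injective (LinearMap.ker g).subtype := Submodule.injective_subtype _
    have hadd := nu.add' (LinearMap.ker g) (Fin m → R ⧸ Ideal.span {f}) W
      (LinearMap.ker g).subtype g hinj hex hg inferInstance
    set j := (Ideal.Quotient.mk (Ideal.span {f})).comp ι with hj
    have hex' : Function.Exact (resMap j (LinearMap.ker g).subtype) (resMap j g) := hex
    have hzero : (resMap j g).comp (resMap j (LinearMap.ker g).subtype) = 0 :=
      hex'.linearMap_comp_eq_zero
    have hS := ModuleCat.shortComplex_shortExact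
      (ModuleCat.shortComplexOfCompEqZero (resMap j (LinearMap.ker g).subtype) (resMap j g) hzero)
      hex' hinj hg
    have hP : Projective (ModuleCat.of S (Res j (Fin m → R ⧸ Ideal.span {f}))) :=
      (IsProjective.iff_projective _).1 (projective_res_pi j hfree m)
    have hK : HasProjectiveDimensionLE (ModuleCat.of S (Res j (LinearMap.ker g))) c :=
      (hS.hasProjectiveDimensionLT_X₃_iff c hP).1 h
    have hK0 := ih (LinearMap.ker g) hK
    rw [val_pi_zero nu h0, hK0, zero_add] at hadd
    exact hadd.symm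

end shift

section main

open MvPolynomial

variable {k : Type u} [Field k] {M : ℕ} {n : Fin (M + 1) → ℕ}

lemma gen_poly (a : MvPolynomial (Fin (M + 1)) k) :
    ∃ P : Polynomial (MvPolynomial (Fin M) k),
      P.eval₂ (rename (Fin.succ) : MvPolynomial (Fin M) k →ₐ[k] _).toRingHom (X 0) = a := by
  induction a using MvPolynomial.induction_on with
  | C c =>
    refine ⟨Polynomial.C (C c), ?_⟩
    rw [Polynomial.eval₂_C]
    exact rename_C _ _
  | add p q hp hq =>
    obtain ⟨P, hP⟩ := hp
    obtain ⟨Q, hQ⟩ := hq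
    exact ⟨P + Q, by rw [Polynomial.eval₂_add, hP, hQ]⟩
  | mul_X p i hp =>
    obtain ⟨P, hP⟩ := hp
    refine Fin.cases ?_ (fun j => ?_) i
    · exact ⟨P * Polynomial.X, by rw [Polynomial.eval₂_mul, hP, Polynomial.eval₂_X]⟩
    · refine ⟨P * Polynomial.C (X j), ?_⟩
      rw [Polynomial.eval₂_mul, hP, Polynomial.eval₂_C]
      congr 1
      exact rename_X _ _

/-- the base ring map -/
noncomputable def bmap (k : Type u) [Field k] {M : ℕ} (n : Fin (M + 1) → ℕ) :
    MvPolynomial (Fin M) k →+* DiagRing k n :=
  (dmk k n).comp (rename (Fin.succ) : MvPolynomial (Fin M) k →ₐ[k] _).toRingHom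

/-- the coordinates -/
noncomputable def bsum (k : Type u) [Field k] {M : ℕ} (n : Fin (M + 1) → ℕ) :
    (Fin (n 0) → MvPolynomial (Fin M) k) →ₗ[MvPolynomial (Fin M) k] Res (bmap k n) (DiagRing k n) where
  toFun := fun p => toRes (bmap k n) _ (∑ j : Fin (n 0), dx k n 0 ^ (j : ℕ) * bmap k n (p j))
  map_add' := fun p q => by
    rw [← map_add]
    congr 1
    rw [← Finset.sum_add_distrib]
    refine Finset.sum_congr rfl fun j _ => ?_
    rw [Pi.add_apply, map_add, mul_add]
  map_smul' := fun a p => by
    rw [RingHom.id_apply, toRes_smul]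
    congr 1
    rw [smul_eq_mul, Finset.mul_sum]
    refine Finset.sum_congr rfl fun j _ => ?_
    rw [Pi.smul_apply, smul_eq_mul, map_mul]
    ring

lemma bsum_bij (hn : ∀ i, 0 < n i) : Function.Bijective (bsum k n) := by
  let e : Fin M ≃ {j : Fin (M + 1) // j ≠ 0} := finSuccAboveEquiv (0 : Fin (M + 1))
  have he0 : (Subtype.val : {j : Fin (M + 1) // j ≠ 0} → Fin (M + 1)) ∘ e = Fin.succ := by
    funext j
    show (finSuccAboveEquiv (0 : Fin (M + 1)) j).1 = _
    rw [finSuccAboveEquiv_apply]
    exact congrFun Fin.succAbove_zero j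
  have he : ∀ p : MvPolynomial (Fin M) k,
      rename (Subtype.val : {j : Fin (M + 1) // j ≠ 0} → Fin (M + 1)) (rename e p)
        = rename Fin.succ p := by
    intro p
    rw [rename_rename, he0]
  constructor
  · rw [injective_iff_map_eq_zero]
    intro p hp
    have h1 := diag_repr_unique (k := k) (n := n) hn 0 (fun j => rename e (p j)) (by
      rw [← show _ = (0 : DiagRing k n) from hp]
      refine Finset.sum_congr rfl fun j _ => ?_
      rw [he]
      rfl)
    funext j
    exact rename_injective e e.injective ((h1 j).trans (map_zero _).symm)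
  · intro b
    obtain ⟨p, hp⟩ := diag_repr (k := k) (n := n) hn 0 b
    refine ⟨fun j => rename e.symm (p j), ?_⟩
    refine Eq.trans ?_ hp.symm
    show (∑ j : Fin (n 0), dx k n 0 ^ (j : ℕ) * bmap k n (rename e.symm (p j))) = _
    refine Finset.sum_congr rfl fun j _ => ?_
    congr 1
    show dmk k n (rename Fin.succ (rename e.symm (p j))) = _
    have h3 : rename e (rename e.symm (p j)) = p j := by
      rw [rename_rename]
      have h4 : (e : Fin M → _) ∘ e.symm = id := by
        funext y
        exact e.apply_symm_apply y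
      rw [h4, rename_id_apply]
    rw [← he, h3]

end main

open MvPolynomial in
/-- (GEN) matrix factorisations generate. `N = M + 1` variables. -/
theorem gen (k : Type u) [Field k] {M : ℕ} (n : Fin (M + 1) → ℕ) (hn : ∀ i, 0 < n i)
    (nu : AddFn (DiagRing k n)) (h0 : nu.val (DiagRing k n) = 0)
    (hMF : ∀ (r : ℕ) (F : MF (diag k n) r),
      nu.val (Cok (F.phi.map (Ideal.Quotient.mk (Ideal.span {diag k n})))) = 0)
    (W : Type u) [AddCommGroup W] [Module (DiagRing k n) W] [Module.Finite (DiagRing k n) W] :
    nu.val W = 0 := by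
  let E := LinearEquiv.ofBijective (bsum k n) (bsum_bij (k := k) hn)
  have hfree : Module.Free (MvPolynomial (Fin M) k) (Res (bmap k n) (DiagRing k n)) :=
    Module.Free.of_equiv E
  have hfin : (bmap k n).Finite := by
    have h : Module.Finite (MvPolynomial (Fin M) k) (Res (bmap k n) (DiagRing k n)) :=
      Module.Finite.equiv E
    exact h
  have hdiag : diag k n ≠ 0 := by
    intro h
    have h1 := splitVar_diag_monic (k := k) hn 0
    rw [h, map_zero] at h1
    exact h1.ne_zero rfl
  have hf : ∀ a, diag k n * a = 0 → a = 0 := by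
    intro a ha
    exact (mul_eq_zero.mp ha).resolve_left hdiag
  refine gen_aux (rename (Fin.succ) : MvPolynomial (Fin M) k →ₐ[k] _).toRingHom (X 0) (diag k n)
    gen_poly hf hfree hfin nu h0 hMF M W ?_
  exact Pool.Agent.HT21.pd_mvPolynomial k M _

end Pool.Agent.HT51
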