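import Pool.Agent.HT51.K4
import Pool.Agent.HT51.D3

/-!
# Module K: the value of the Frobenius push-forward of `Cok φ`
-/

universe u

namespace Pool.Agent.HT51

open MvPolynomial

/-- (K2) `Fr`, `FrS` the `q`-Frobenius of `DiagRing` and of `S = k[X j, j ≠ i]`. -/
theorem frob_cok {k : Type u} [Field k] [Fintype k] {N : ℕ} {n : Fin N → ℕ} (m : Fin N → ℕ)
    (hnm : ∀ i, n i * m i = Fintype.card k - 1)
    (lam : AddFn (DiagRing k n)) (h0 : lam.val (DiagRing k n) = 0) (i : Fin N)
    (Fr : DiagRing k n →+* DiagRing k n) (hFr : ∀ b, Fr b = b ^ Fintype.card k)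
    (hFin : Fr.Finite)
    (FrS : MvPolynomial {j : Fin N // j ≠ i} k →+* MvPolynomial {j : Fin N // j ≠ i} k)
    (hFrS : ∀ b, FrS b = b ^ Fintype.card k) {r : ℕ} (F : MF (diag k n) r) :
    lam.val (Res Fr (Cok ((F.phi.map (dmk k n)).map Fr)))
      = (Module.finrank (MvPolynomial {j : Fin N // j ≠ i} k)
          (Res FrS (MvPolynomial {j : Fin N // j ≠ i} k)) : ℂ)
        * lam.val (Cok (F.phi.map (dmk k n))) := by
  have hn : ∀ j, 0 < n j := fun j => (exists_root k (n j) (m j) (hnm j)).1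
  obtain ⟨-, hni, ζ, hζ⟩ := exists_root k (n i) (m i) (hnm i)
  exact frob_cok_aux hn lam i (kills_dx hn lam h0 i) hni ζ hζ
    (fun mu hmu W _ _ _ => twist_sum hn mu hmu i ζ hζ hni W) Fr hFr hFin FrS hFrS F

/-- The push-forward of `DiagRing` along the `q`-Frobenius has value `0`. -/
theorem res_val_zero {k : Type u} [Field k] [Fintype k] {N : ℕ} {n : Fin N → ℕ} (m : Fin N → ℕ)
    (hnm : ∀ i, n i * m i = Fintype.card k - 1)
    (lam : AddFn (DiagRing k n)) (h0 : lam.val (DiagRing k n) = 0) (i : Fin N)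
    (Fr : DiagRing k n →+* DiagRing k n) (hFr : ∀ b, Fr b = b ^ Fintype.card k)
    (hFin : Fr.Finite) : lam.val (Res Fr (DiagRing k n)) = 0 := by
  have hn : ∀ j, 0 < n j := fun j => (exists_root k (n j) (m j) (hnm j)).1
  obtain ⟨-, hni, ζ, hζ⟩ := exists_root k (n i) (m i) (hnm i)
  have hfinFr : Module.Finite (DiagRing k n) (Res Fr (DiagRing k n)) := res_finite Fr hFin
  have hsum := twist_sum hn lam h0 i ζ hζ hni (Res Fr (DiagRing k n))
  have hterm : ∀ j : Fin (n i),
      lam.val (Res (sc (n := n) (Function.update (fun _ => (1 : k)) i (ζ ^ (j : ℕ)))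
        (update_pow_one i ζ hζ.pow_eq_one j)) (Res Fr (DiagRing k n)))
      = lam.val (Res Fr (DiagRing k n)) := by
    intro j
    have hζ0 : ζ ≠ 0 := hζ.ne_zero (hn i).ne'
    have hinv : ζ⁻¹ ^ n i = 1 := by rw [inv_pow, hζ.pow_eq_one, inv_one]
    refine (lam.val_congr (twistEquiv _ (Function.update (fun _ => (1 : k)) i (ζ⁻¹ ^ (j : ℕ)))
      (update_pow_one i ζ hζ.pow_eq_one j) (update_pow_one i ζ⁻¹ hinv j) ?_ Fr ?_)).symm
    · intro l
      by_cases h : l = i
      · subst h
        rw [Function.update_self, Function.update_self, ← mul_pow, mul_inv_cancel₀ hζ0, one_pow]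
      · rw [Function.update_of_ne h, Function.update_of_ne h, one_mul]
    · intro b
      rw [hFr, hFr, map_pow]
  rw [Finset.sum_congr rfl (fun j _ => hterm j), Finset.sum_const, Finset.card_univ,
    Fintype.card_fin, nsmul_eq_mul] at hsum
  rcases mul_eq_zero.mp hsum with h | h
  · exact absurd h (by exact_mod_cast (hn i).ne')
  · exact h

end Pool.Agent.HT51
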