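import Pool.Agent.HT51.K
import Pool.Agent.HT51.Fin
import Pool.Agent.HT51.Defs2

/-!
# Module KAP: the Frobenius of `DiagRing`, and the push-forward of an eigenfunction
-/

universe u

namespace Pool.Agent.HT51

open MvPolynomial

/-- A power map on a finitely generated algebra over a field, surjective on the field, is finite. -/
lemma pow_hom_finite {k A : Type u} [Field k] [CommRing A] (i : k →+* A) (hi : i.FiniteType)
    (s : ℕ) (hs : 0 < s) (G : A →+* A) (hG : ∀ a, G a = a ^ s) (Gk : k →+* k)
    (hGk : ∀ a, Gk a = a ^ s) (hsurj : Function.Surjective Gk) : G.Finite := by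
  have hcomp : G.comp i = i.comp Gk := by
    ext a
    rw [RingHom.comp_apply, RingHom.comp_apply, hG, hGk, map_pow]
  have h1 : (G.comp i).FiniteType := by
    rw [hcomp]
    exact hi.comp (RingHom.FiniteType.of_surjective Gk hsurj)
  have h2 : G.FiniteType := RingHom.FiniteType.of_comp_finiteType h1
  have h3 : G.IsIntegral := by
    intro a
    refine ⟨Polynomial.X ^ s - Polynomial.C a, Polynomial.monic_X_pow_sub_C a hs.ne', ?_⟩
    rw [Polynomial.eval₂_sub, Polynomial.eval₂_pow, Polynomial.eval₂_X, Polynomial.eval₂_C, hG,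
      sub_self]
  exact h3.to_finite h2

section Diag

variable {k : Type u} [Field k] {N : ℕ} {n : Fin N → ℕ}

lemma diag_nontrivial (hn : ∀ i, 0 < n i) : Nontrivial (DiagRing k n) := by
  refine Ideal.Quotient.nontrivial_iff.mpr ?_
  intro h
  have h1 : (1 : MvPolynomial (Fin N) k) ∈ Ideal.span {diag k n} := by rw [h]; trivial
  have hle : Ideal.span {diag k n} ≤ RingHom.ker (constantCoeff : MvPolynomial (Fin N) k →+* k) := by
    rw [Ideal.span_le, Set.singleton_subset_iff]
    show constantCoeff (diag k n) = 0
    unfold diag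
    rw [map_sum]
    refine Finset.sum_eq_zero fun i _ => ?_
    rw [map_pow, constantCoeff_X, zero_pow (hn i).ne']
  have h2 : constantCoeff (1 : MvPolynomial (Fin N) k) = 0 := hle h1
  rw [map_one] at h2
  exact one_ne_zero h2

lemma diag_charP (hn : ∀ i, 0 < n i) (p : ℕ) [CharP k p] : CharP (DiagRing k n) p := by
  haveI := diag_nontrivial (k := k) hn
  exact charP_of_injective_ringHom (f := (dmk k n).comp (C : k →+* MvPolynomial (Fin N) k))
    (RingHom.injective _) p

lemma iC_finiteType : ((dmk k n).comp (C : k →+* MvPolynomial (Fin N) k)).FiniteType := by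
  refine RingHom.FiniteType.comp (RingHom.FiniteType.of_surjective _ Ideal.Quotient.mk_surjective) ?_
  have h : (algebraMap k (MvPolynomial (Fin N) k)).FiniteType := by
    rw [RingHom.finiteType_algebraMap]
    infer_instance
  exact h

variable [Fintype k]

/-- The `q`-Frobenius of `DiagRing` is finite. -/
lemma diag_pow_finite (s : ℕ) (hs : 0 < s) (G : DiagRing k n →+* DiagRing k n)
    (hG : ∀ a, G a = a ^ s) (Gk : k →+* k) (hGk : ∀ a, Gk a = a ^ s) : G.Finite :=
  pow_hom_finite _ (iC_finiteType (k := k) (n := n)) s hs G hG Gk hGk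
    (Finite.surjective_of_injective Gk.injective)

lemma diag_frobenius_finite (p : ℕ) [Fact p.Prime] [CharP k p] [CharP (DiagRing k n) p] :
    (frobenius (DiagRing k n) p).Finite :=
  diag_pow_finite p (Fact.out : p.Prime).pos _ (fun a => frobenius_def p a) (frobenius k p)
    (fun a => frobenius_def p a)

lemma diag_iterateFrobenius_finite (p : ℕ) [Fact p.Prime] [CharP k p] [CharP (DiagRing k n) p]
    (e : ℕ) : (iterateFrobenius (DiagRing k n) p e).Finite :=
  diag_pow_finite (p ^ e) (pow_pos (Fact.out : p.Prime).pos e) _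
    (fun a => iterateFrobenius_def p e a) (iterateFrobenius k p e)
    (fun a => iterateFrobenius_def p e a)

/-- the block map of the discrete partition is the `q`-Frobenius. -/
lemma psiC_id (m : Fin N → ℕ) (hnm : ∀ i, n i * m i = Fintype.card k - 1)
    (Fr : DiagRing k n →+* DiagRing k n) (hFr : ∀ b, Fr b = b ^ Fintype.card k) :
    psiC k n m id = Fr.comp (dmk k n) := by
  have hs : ∀ i, sB k n (id : Fin N → Fin N) i = dx k n i ^ n i := by
    intro i
    unfold sB
    rw [Finset.sum_eq_single i]
    · intro j hj hne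
      exact absurd (Finset.mem_filter.mp hj).2 hne
    · intro h
      exact (h (by simp)).elim
  refine MvPolynomial.ringHom_ext ?_ ?_
  · intro a
    rw [psiC, eval₂Hom_C, RingHom.comp_apply, RingHom.comp_apply, hFr, ← map_pow, ← C_pow,
      FiniteField.pow_card]
  · intro i
    have hc : 1 ≤ Fintype.card k := Fintype.card_pos
    rw [psiC, eval₂Hom_X', RingHom.comp_apply, hFr]
    show sB k n id i ^ m i * dx k n i = _
    rw [hs, ← pow_mul, hnm, ← pow_succ, Nat.sub_add_cancel hc]

/-- The push-forward of an eigenfunction is an eigenfunction with the same characters. -/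
lemma eig_res (m : Fin N → ℕ) (hnm : ∀ i, n i * m i = Fintype.card k - 1)
    (lam : AddFn (DiagRing k n)) (χ : Fin N → MulChar k ℂ) (hlam : Eig m hnm lam χ)
    (Fr : DiagRing k n →+* DiagRing k n) (hFr : ∀ b, Fr b = b ^ Fintype.card k)
    (hFin : Fr.Finite) : Eig m hnm (lam.res Fr hFin) χ := by
  intro e W _ _ hW
  set σ := sc (n := n) (fun i => (e i : k) ^ m i)
      (fun i => unit_pow_card (e i) (m i) (n i) (hnm i)) with hσ
  have hWf : Module.Finite (DiagRing k n) (Res Fr W) := res_finite Fr hFin
  have h1 := hlam e (Res Fr W) hWf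
  show lam.val (Res Fr (Res σ W)) = (∏ i, χ i (e i)) * lam.val (Res Fr W)
  rw [← h1]
  let E : Res σ (Res Fr W) ≃ₗ[DiagRing k n] Res Fr (Res σ W) :=
    { toFun := fun x => x
      invFun := fun x => x
      left_inv := fun x => rfl
      right_inv := fun x => rfl
      map_add' := fun x y => rfl
      map_smul' := fun b x => by
        have h : ∀ y : W, Fr (σ b) • y = σ (Fr b) • y := by
          intro y
          rw [hFr, hFr, map_pow]
        exact h x }
  have hσf : σ.Finite := by
    refine RingHom.Finite.of_surjective σ ?_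
    intro b
    refine ⟨sc (n := n) (fun i => (((e i)⁻¹ : kˣ) : k) ^ m i)
      (fun i => unit_pow_card ((e i)⁻¹) (m i) (n i) (hnm i)) b, ?_⟩
    refine sc_comp _ _ _ _ ?_ b
    intro i
    rw [← mul_pow, Units.mul_inv, one_pow]
  haveI : Module.Finite (DiagRing k n) (Res σ (Res Fr W)) := res_finite σ hσf
  exact (lam.val_congr E).symm

/-- The rank of the polynomial ring over itself via the iterated Frobenius. -/
lemma rank_frS (σ : Type) [Finite σ] (p : ℕ) [Fact p.Prime] [CharP k p] (e : ℕ) :
    ∃ a : ℕ, 0 < a ∧ Module.finrank (MvPolynomial σ k)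
      (Res (iterateFrobenius (MvPolynomial σ k) p e) (MvPolynomial σ k)) = a ^ e := by
  have hft : (C : k →+* MvPolynomial σ k).FiniteType := by
    have h : (algebraMap k (MvPolynomial σ k)).FiniteType := by
      rw [RingHom.finiteType_algebraMap]
      infer_instance
    exact h
  have hfin : (frobenius (MvPolynomial σ k) p).Finite :=
    pow_hom_finite _ hft p (Fact.out : p.Prime).pos _ (fun a => frobenius_def p a)
      (frobenius k p) (fun a => frobenius_def p a)
      (Finite.surjective_of_injective (frobenius k p).injective)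
  refine ⟨Module.finrank (MvPolynomial σ k) (Res (frobenius (MvPolynomial σ k) p)
    (MvPolynomial σ k)), ?_, rank_iterate p hfin e⟩
  haveI : Module.Finite (MvPolynomial σ k) (Res (frobenius (MvPolynomial σ k) p)
    (MvPolynomial σ k)) := res_finite _ hfin
  rw [Nat.pos_iff_ne_zero]
  intro h0
  rw [Module.finrank, Cardinal.toNat_eq_zero] at h0
  rcases h0 with h0 | h0
  · rw [rank_eq_zero_iff] at h0
    obtain ⟨a, ha, h1⟩ := h0 (toRes (frobenius (MvPolynomial σ k) p) (MvPolynomial σ k) 1)
    have h2 : frobenius (MvPolynomial σ k) p a * 1 = 0 := h1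
    rw [mul_one, frobenius_def] at h2
    exact ha (pow_eq_zero_iff (Fact.out : p.Prime).ne_zero |>.mp h2)
  · exact absurd (Module.rank_lt_aleph0 (MvPolynomial σ k) _) (not_lt.mpr h0)

end Diag

end Pool.Agent.HT51
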