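import Pool.Agent.HT51.Filt2
import Pool.Agent.HT51.D12

/-!
# Coordinates of `DiagRing[X]` over `k[x_j : j ≠ i][X]`
-/

universe u

namespace Pool.Agent.HT51

open MvPolynomial

section coord

variable {k : Type u} [Field k] {N : ℕ} {n : Fin N → ℕ}

/-- The image of `k[X j, j ≠ i]` in `DiagRing`. -/
noncomputable def sS (k : Type u) [Field k] {N : ℕ} (n : Fin N → ℕ) (i : Fin N) :
    Subring (DiagRing k n) :=
  ((dmk k n).comp (rename Subtype.val :
    MvPolynomial {j : Fin N // j ≠ i} k →ₐ[k] MvPolynomial (Fin N) k).toRingHom).range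

lemma mem_sS (i : Fin N) (b : DiagRing k n) :
    b ∈ sS k n i ↔ ∃ p : MvPolynomial {j : Fin N // j ≠ i} k, b = dmk k n (rename Subtype.val p) := by
  constructor
  · rintro ⟨p, hp⟩
    exact ⟨p, hp.symm⟩
  · rintro ⟨p, hp⟩
    exact ⟨p, hp.symm⟩

lemma dx_mem_sS (i j : Fin N) (h : j ≠ i) : dx k n j ∈ sS k n i := by
  rw [mem_sS]
  exact ⟨X ⟨j, h⟩, by rw [rename_X]⟩

lemma C_mem_sS (i : Fin N) (a : k) : dmk k n (C a) ∈ sS k n i := by
  rw [mem_sS]
  exact ⟨C a, by rw [rename_C]⟩

variable (hn : ∀ i, 0 < n i)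

include hn in
lemma coord_unique (i : Fin N) (s t : Fin (n i) → DiagRing k n) (hs : ∀ j, s j ∈ sS k n i)
    (ht : ∀ j, t j ∈ sS k n i)
    (h : ∑ j : Fin (n i), dx k n i ^ (j : ℕ) * s j = ∑ j : Fin (n i), dx k n i ^ (j : ℕ) * t j) :
    s = t := by
  choose p hp using fun j => (mem_sS i (s j)).mp (hs j)
  choose p' hp' using fun j => (mem_sS i (t j)).mp (ht j)
  have h1 := diag_repr_unique hn i (fun j => p j - p' j) (by
    have h2 : ∀ j, dmk k n (rename Subtype.val (p j - p' j)) = s j - t j := by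
      intro j
      rw [map_sub, map_sub, ← hp, ← hp']
    simp only [h2, mul_sub, Finset.sum_sub_distrib]
    rw [h, sub_self])
  funext j
  rw [hp, hp', sub_eq_zero.mp (h1 j)]

/-- The coordinates. -/
noncomputable def co (i : Fin N) (j : Fin (n i)) (b : DiagRing k n) : DiagRing k n :=
  dmk k n (rename Subtype.val ((diag_repr hn i b).choose j))

lemma co_mem (i : Fin N) (j : Fin (n i)) (b : DiagRing k n) : co hn i j b ∈ sS k n i := by
  rw [mem_sS]
  exact ⟨_, rfl⟩

lemma co_repr (i : Fin N) (b : DiagRing k n) :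
    b = ∑ j : Fin (n i), dx k n i ^ (j : ℕ) * co hn i j b :=
  (diag_repr hn i b).choose_spec

lemma co_eq (i : Fin N) (b : DiagRing k n) (t : Fin (n i) → DiagRing k n)
    (ht : ∀ j, t j ∈ sS k n i) (h : b = ∑ j : Fin (n i), dx k n i ^ (j : ℕ) * t j)
    (j : Fin (n i)) : co hn i j b = t j :=
  congrFun (coord_unique hn i _ t (fun j => co_mem hn i j b) ht ((co_repr hn i b).symm.trans h)) j

lemma co_add (i : Fin N) (j : Fin (n i)) (b c : DiagRing k n) :
    co hn i j (b + c) = co hn i j b + co hn i j c := by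
  refine co_eq hn i (b + c) (fun j => co hn i j b + co hn i j c)
    (fun j => Subring.add_mem _ (co_mem hn i j b) (co_mem hn i j c)) ?_ j
  simp only [mul_add, Finset.sum_add_distrib]
  rw [← co_repr hn i b, ← co_repr hn i c]

lemma co_zero (i : Fin N) (j : Fin (n i)) : co hn i j (0 : DiagRing k n) = 0 := by
  refine co_eq hn i 0 (fun _ => 0) (fun _ => Subring.zero_mem _) ?_ j
  simp

lemma co_mul (i : Fin N) (j : Fin (n i)) (s b : DiagRing k n) (hs : s ∈ sS k n i) :
    co hn i j (s * b) = s * co hn i j b := by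
  refine co_eq hn i (s * b) (fun j => s * co hn i j b)
    (fun j => Subring.mul_mem _ hs (co_mem hn i j b)) ?_ j
  conv_lhs => rw [co_repr hn i b, Finset.mul_sum]
  refine Finset.sum_congr rfl fun l _ => ?_
  ring

/-- The coordinates as an additive map. -/
noncomputable def coA (i : Fin N) (j : Fin (n i)) : DiagRing k n →+ DiagRing k n where
  toFun := co hn i j
  map_zero' := co_zero hn i j
  map_add' := co_add hn i j

/-- Polynomials with coefficients in `sS`. -/
def sSX (k : Type u) [Field k] {N : ℕ} (n : Fin N → ℕ) (i : Fin N) :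
    Subring (Polynomial (DiagRing k n)) where
  carrier := {P | ∀ l, P.coeff l ∈ sS k n i}
  mul_mem' := by
    intro P Q hP hQ l
    rw [Polynomial.coeff_mul]
    exact Subring.sum_mem _ fun x _ => Subring.mul_mem _ (hP _) (hQ _)
  one_mem' := by
    intro l
    rw [Polynomial.coeff_one]
    split_ifs
    · exact Subring.one_mem _
    · exact Subring.zero_mem _
  add_mem' := by
    intro P Q hP hQ l
    rw [Polynomial.coeff_add]
    exact Subring.add_mem _ (hP _) (hQ _)
  zero_mem' := by
    intro l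
    rw [Polynomial.coeff_zero]
    exact Subring.zero_mem _
  neg_mem' := by
    intro P hP l
    rw [Polynomial.coeff_neg]
    exact Subring.neg_mem _ (hP _)

lemma mem_sSX (i : Fin N) (P : Polynomial (DiagRing k n)) :
    P ∈ sSX k n i ↔ ∀ l, P.coeff l ∈ sS k n i := Iff.rfl

lemma C_mem_sSX (i : Fin N) (b : DiagRing k n) (hb : b ∈ sS k n i) :
    Polynomial.C b ∈ sSX k n i := by
  intro l
  rw [Polynomial.coeff_C]
  split_ifs
  · exact hb
  · exact Subring.zero_mem _

lemma X_mem_sSX (i : Fin N) : (Polynomial.X : Polynomial (DiagRing k n)) ∈ sSX k n i := by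
  intro l
  rw [Polynomial.coeff_X]
  split_ifs
  · exact Subring.one_mem _
  · exact Subring.zero_mem _

/-- The coordinates of a polynomial. -/
noncomputable def cop (i : Fin N) (j : Fin (n i)) (P : Polynomial (DiagRing k n)) :
    Polynomial (DiagRing k n) :=
  ∑ l ∈ P.support, Polynomial.monomial l (co hn i j (P.coeff l))

lemma cop_coeff (i : Fin N) (j : Fin (n i)) (P : Polynomial (DiagRing k n)) (l : ℕ) :
    (cop hn i j P).coeff l = co hn i j (P.coeff l) := by
  unfold cop
  rw [Polynomial.finsetSum_coeff]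
  simp only [Polynomial.coeff_monomial]
  rw [Finset.sum_ite_eq' P.support l]
  split_ifs with h
  · rfl
  · rw [Polynomial.notMem_support_iff.mp h, co_zero]

lemma cop_mem (i : Fin N) (j : Fin (n i)) (P : Polynomial (DiagRing k n)) :
    cop hn i j P ∈ sSX k n i := by
  intro l
  rw [cop_coeff]
  exact co_mem hn i j _

lemma cop_add (i : Fin N) (j : Fin (n i)) (P Q : Polynomial (DiagRing k n)) :
    cop hn i j (P + Q) = cop hn i j P + cop hn i j Q := by
  ext l
  rw [Polynomial.coeff_add, cop_coeff, cop_coeff, cop_coeff, Polynomial.coeff_add, co_add]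

lemma cop_zero (i : Fin N) (j : Fin (n i)) :
    cop hn i j (0 : Polynomial (DiagRing k n)) = 0 := by
  ext l
  rw [cop_coeff, Polynomial.coeff_zero, co_zero]

lemma cop_sum (i : Fin N) (j : Fin (n i)) {ι : Type*} (s : Finset ι)
    (f : ι → Polynomial (DiagRing k n)) :
    cop hn i j (∑ x ∈ s, f x) = ∑ x ∈ s, cop hn i j (f x) := by
  classical
  induction s using Finset.induction_on with
  | empty => simp [cop_zero]
  | insert a s ha ih => rw [Finset.sum_insert ha, Finset.sum_insert ha, cop_add, ih]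

lemma cop_mul (i : Fin N) (j : Fin (n i)) (Q P : Polynomial (DiagRing k n))
    (hQ : Q ∈ sSX k n i) : cop hn i j (Q * P) = Q * cop hn i j P := by
  ext l
  rw [cop_coeff, Polynomial.coeff_mul, Polynomial.coeff_mul]
  have h1 : co hn i j (∑ x ∈ Finset.HasAntidiagonal.antidiagonal l, Q.coeff x.1 * P.coeff x.2)
      = coA hn i j (∑ x ∈ Finset.HasAntidiagonal.antidiagonal l, Q.coeff x.1 * P.coeff x.2) := rfl
  rw [h1, map_sum]
  refine Finset.sum_congr rfl fun x _ => ?_
  show co hn i j _ = _
  rw [co_mul hn i j _ _ (hQ _), cop_coeff]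

lemma cop_repr (i : Fin N) (P : Polynomial (DiagRing k n)) :
    P = ∑ j : Fin (n i), Polynomial.C (dx k n i ^ (j : ℕ)) * cop hn i j P := by
  ext l
  rw [Polynomial.finsetSum_coeff]
  simp only [Polynomial.coeff_C_mul, cop_coeff]
  exact co_repr hn i _

lemma cop_eq (i : Fin N) (t : Fin (n i) → Polynomial (DiagRing k n))
    (ht : ∀ j, t j ∈ sSX k n i) (j : Fin (n i)) :
    cop hn i j (∑ j : Fin (n i), Polynomial.C (dx k n i ^ (j : ℕ)) * t j) = t j := by
  ext l
  rw [cop_coeff]
  refine co_eq hn i _ (fun j => (t j).coeff l) (fun j => ht j l) ?_ j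
  rw [Polynomial.finsetSum_coeff]
  simp only [Polynomial.coeff_C_mul]

end coord

section graded

variable {k : Type u} [Field k] {N : ℕ} {n : Fin N → ℕ} (hn : ∀ i, 0 < n i)
  (lam : AddFn (DiagRing k n)) (h0 : lam.val (DiagRing k n) = 0)

include hn h0

/-- A presentation `B[X]^r/(A, u)` with `A`, `u` defined without the variable `i` has value `0`. -/
lemma graded_zero (i : Fin N) {r : ℕ} (A : Matrix (Fin r) (Fin r) (Polynomial (DiagRing k n)))
    (hA : ∀ a b, A a b ∈ sSX k n i) (u : Polynomial (DiagRing k n)) (hu : u.Monic)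
    (hu' : u ∈ sSX k n i) :
    lam.val ((Fin r → Polynomial (DiagRing k n)) ⧸ sm A u) = 0 := by
  have hfin : Module.Finite (DiagRing k n) ((Fin r → Polynomial (DiagRing k n)) ⧸ sm A u) :=
    finite_quot_sm A u hu
  let V : AddSubgroup (Fin r → Polynomial (DiagRing k n)) :=
    { carrier := {v | ∀ l, v l ∈ sSX k n i}
      add_mem' := fun {v w} hv hw l => Subring.add_mem _ (hv l) (hw l)
      zero_mem' := fun l => Subring.zero_mem _
      neg_mem' := fun {v} hv l => Subring.neg_mem _ (hv l) }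
  let mkA : (Fin r → Polynomial (DiagRing k n)) →+
      ((Fin r → Polynomial (DiagRing k n)) ⧸ sm A u) := (sm A u).mkQ.toAddMonoidHom
  have hsmul : ∀ (b : DiagRing k n) (v : Fin r → Polynomial (DiagRing k n)),
      b • mkA v = mkA (fun l => Polynomial.C b * v l) := by
    intro b v
    have h1 : mkA (fun l => Polynomial.C b * v l) = mkA (b • v) := by
      congr 1
      funext l
      rw [Pi.smul_apply, Polynomial.smul_eq_C_mul]
    rw [h1]
    rfl
  refine induced_zero hn lam h0 i _ (V.map mkA) ?_ ?_ ?_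
  · rintro p _ ⟨v, hv, rfl⟩
    rw [hsmul]
    refine ⟨_, ?_, rfl⟩
    intro l
    exact Subring.mul_mem _ (C_mem_sSX i _ ((mem_sS i _).mpr ⟨p, rfl⟩)) (hv l)
  · intro w
    obtain ⟨v, rfl⟩ := Submodule.Quotient.mk_surjective _ w
    refine ⟨fun j => mkA (fun l => cop hn i j (v l)),
      fun j => ⟨_, fun l => cop_mem hn i j _, rfl⟩, ?_⟩
    simp only [hsmul]
    rw [← map_sum]
    show mkA v = _
    congr 1
    funext l
    rw [Finset.sum_apply]
    exact cop_repr hn i (v l)
  · intro w hw hsum j0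
    choose v hv hvw using hw
    have h1 : ∀ j, w j = mkA (v j) := fun j => (hvw j).symm
    simp only [h1, hsmul] at hsum
    rw [← map_sum] at hsum
    have h2 : (∑ j : Fin (n i), fun l => Polynomial.C (dx k n i ^ (j : ℕ)) * v j l) ∈ sm A u :=
      (Submodule.Quotient.mk_eq_zero _).mp hsum
    obtain ⟨x, z, hxz⟩ := (mem_sm A u _).mp h2
    rw [h1]
    refine (Submodule.Quotient.mk_eq_zero _).mpr ?_
    refine (mem_sm A u _).mpr ⟨fun l => cop hn i j0 (x l), fun l => cop hn i j0 (z l), ?_⟩
    funext l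
    have h3 := congrArg (cop hn i j0) (congrFun hxz l)
    rw [Finset.sum_apply, cop_eq hn i (fun j => v j l) (fun j => hv j l) j0] at h3
    rw [h3]
    simp only [Pi.add_apply, Pi.smul_apply, smul_eq_mul, Matrix.mulVec, dotProduct]
    rw [cop_add, cop_mul hn i j0 _ _ hu', cop_sum]
    congr 1
    refine Finset.sum_congr rfl fun a _ => ?_
    rw [cop_mul hn i j0 _ _ (hA _ _)]

end graded

end Pool.Agent.HT51
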