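import Pool.Agent.HT51.TwoGen
import Pool.Agent.HT51.Block

/-!
# The two label case
-/

universe u

namespace Pool.Agent.HT51

open MvPolynomial

/-- Twisting a cokernel by an involution of the ring. -/
lemma cok_twist {T : Type u} [CommRing T] (lam : AddFn T) (σ τ : T →+* T)
    (hστ : ∀ x, σ (τ x) = x) (hτσ : ∀ x, τ (σ x) = x) {r : ℕ} (A : Matrix (Fin r) (Fin r) T) :
    lam.val (Cok (A.map σ)) = lam.val (Res τ (Cok A)) := by
  let θ0 : (Fin r → T) →ₗ[T] Res τ (Cok A) :=
    { toFun := fun v => toRes τ _ (Submodule.mkQ _ (fun i => τ (v i)))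
      map_add' := fun v w => by
        rw [← map_add, ← map_add]
        congr 2
        funext i
        rw [Pi.add_apply, Pi.add_apply, map_add]
      map_smul' := fun t v => by
        rw [RingHom.id_apply, toRes_smul, ← map_smul]
        congr 2
        funext i
        rw [Pi.smul_apply, Pi.smul_apply, smul_eq_mul, smul_eq_mul, map_mul] }
  have hθ0 : ∀ v, θ0 v = 0 ↔ ∃ w, A.mulVec w = fun i => τ (v i) := by
    intro v
    have h1 : θ0 v = 0 ↔ (fun i => τ (v i)) ∈ LinearMap.range A.mulVecLin :=
      Submodule.Quotient.mk_eq_zero _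
    rw [h1]
    exact Iff.rfl
  let θ := Submodule.liftQ (LinearMap.range (A.map σ).mulVecLin) θ0 (by
    rintro _ ⟨w, rfl⟩
    rw [LinearMap.mem_ker, hθ0]
    refine ⟨fun i => τ (w i), ?_⟩
    funext i
    show _ = τ ((A.map σ).mulVec w i)
    unfold Matrix.mulVec dotProduct
    rw [map_sum]
    refine Finset.sum_congr rfl fun j _ => ?_
    show A i j * τ (w j) = τ (σ (A i j) * w j)
    rw [map_mul, hτσ])
  have hinj : Function.Injective θ := by
    rw [← LinearMap.ker_eq_bot, LinearMap.ker_eq_bot']
    intro x hx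
    obtain ⟨v, rfl⟩ := Submodule.mkQ_surjective _ x
    obtain ⟨w, hw⟩ := (hθ0 v).mp hx
    refine (Submodule.Quotient.mk_eq_zero _).mpr ⟨fun i => σ (w i), ?_⟩
    funext i
    have h2 := congrArg σ (congrFun hw i)
    rw [hστ] at h2
    rw [← h2]
    show (A.map σ).mulVec (fun i => σ (w i)) i = _
    unfold Matrix.mulVec dotProduct
    rw [map_sum]
    refine Finset.sum_congr rfl fun j _ => ?_
    show σ (A i j) * σ (w j) = σ (A i j * w j)
    rw [map_mul]
  have hsurj : Function.Surjective θ := by
    intro y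
    obtain ⟨v, hv⟩ := Submodule.mkQ_surjective _ ((toRes τ _).symm y)
    refine ⟨Submodule.mkQ _ (fun i => σ (v i)), ?_⟩
    have h3 : (fun i => τ (σ (v i))) = v := funext fun i => hτσ (v i)
    show toRes τ _ (Submodule.mkQ _ (fun i => τ (σ (v i)))) = y
    rw [h3, hv]
    rfl
  exact lam.val_congr (LinearEquiv.ofBijective θ ⟨hinj, hsurj⟩)

section two

variable {k : Type u} [Field k] [Fintype k] {N : ℕ} {n : Fin N → ℕ} (m : Fin N → ℕ)
  (hnm : ∀ i, n i * m i = Fintype.card k - 1)

omit [Fintype k] in
lemma sc_sc (u v : Fin N → k) (hu : ∀ i, u i ^ n i = 1) (hv : ∀ i, v i ^ n i = 1)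
    (huv : ∀ i, u i * v i = 1) (x : DiagRing k n) : sc u hu (sc v hv x) = x := by
  have h : (sc u hu).comp (sc v hv) = RingHom.id (DiagRing k n) := by
    refine Ideal.Quotient.ringHom_ext ?_
    refine MvPolynomial.ringHom_ext ?_ ?_
    · intro x
      simp only [RingHom.comp_apply, RingHom.id_apply]
      rw [sc_C, sc_C]
    · intro i
      simp only [RingHom.comp_apply, RingHom.id_apply]
      have h1 : dmk k n (C (v i)) * dmk k n (C (u i)) = 1 := by
        rw [← map_mul, ← map_mul, mul_comm (v i), huv, map_one, map_one]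
      rw [sc_dx, map_mul, sc_C, sc_dx, ← mul_assoc, h1, one_mul]
  exact congrArg (fun φ : DiagRing k n →+* DiagRing k n => φ x) h

/-- The sign `1` on the block, `-1` outside. -/
def sgT (k : Type u) [Field k] {N : ℕ} (c : Fin N → Fin N) (a i : Fin N) : k :=
  if c i = a then 1 else -1

/-- `x_i ↦ (± X) ^ m i * x_i`. -/
noncomputable def rhoT (k : Type u) [Field k] {N : ℕ} (m : Fin N → ℕ) (c : Fin N → Fin N)
    (a : Fin N) : MvPolynomial (Fin N) k →+* Polynomial (MvPolynomial (Fin N) k) :=
  eval₂Hom (Polynomial.C.comp C)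
    fun i => Polynomial.X ^ m i * Polynomial.C (C (sgT k c a i ^ m i) * X i)

omit [Fintype k] in
lemma rhoT_X (c : Fin N → Fin N) (a i : Fin N) :
    rhoT k m c a (X i) = Polynomial.X ^ m i * Polynomial.C (C (sgT k c a i ^ m i) * X i) := by
  unfold rhoT
  rw [coe_eval₂Hom, eval₂_X]

omit [Fintype k] in
lemma rhoT_C (c : Fin N → Fin N) (a : Fin N) (x : k) :
    rhoT k m c a (C x) = Polynomial.C (C x) := by
  unfold rhoT
  rw [coe_eval₂Hom, eval₂_C]
  rfl

lemma sgT_pow_card (c : Fin N → Fin N) (a i : Fin N) :
    sgT k c a i ^ (Fintype.card k - 1) = 1 := by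
  have h : sgT k c a i ≠ 0 := by
    unfold sgT
    split_ifs
    · exact one_ne_zero
    · exact neg_ne_zero.mpr one_ne_zero
  exact FiniteField.pow_card_sub_one_eq_one _ h

include hnm in
lemma rhoT_diag (c : Fin N → Fin N) (a : Fin N) :
    rhoT k m c a (diag k n)
      = Polynomial.X ^ (Fintype.card k - 1) * Polynomial.C (diag k n) := by
  unfold diag
  rw [map_sum, map_sum, Finset.mul_sum]
  refine Finset.sum_congr rfl fun i _ => ?_
  rw [map_pow, rhoT_X, mul_pow, ← pow_mul, mul_comm (m i), hnm, ← map_pow, mul_pow, ← map_pow,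
    ← pow_mul, mul_comm (m i), hnm, sgT_pow_card, map_one, one_mul]

omit [Fintype k] in
lemma eval_block_ne_zero (hn : ∀ i, 0 < n i) (s : Finset (Fin N)) (i : Fin N) (hi : i ∈ s) :
    (∑ j ∈ s, (X j : MvPolynomial (Fin N) k) ^ n j) ≠ 0 := by
  classical
  intro h
  have h1 := congrArg (MvPolynomial.eval (fun j => if j = i then (1 : k) else 0)) h
  rw [map_sum, map_zero] at h1
  have h2 : ∀ j ∈ s, MvPolynomial.eval (fun j => if j = i then (1 : k) else 0)
      ((X j : MvPolynomial (Fin N) k) ^ n j) = if j = i then 1 else 0 := by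
    intro j _
    rw [map_pow, MvPolynomial.eval_X]
    split_ifs with h
    · rw [one_pow]
    · rw [zero_pow (hn j).ne']
  rw [Finset.sum_congr rfl h2, Finset.sum_ite_eq' s i, if_pos hi] at h1
  exact one_ne_zero h1

/-- (B) the two label case -/
theorem two_labels (lam : AddFn (DiagRing k n)) (_h0 : lam.val (DiagRing k n) = 0)
    (χ : Fin N → MulChar k ℂ) (hlam : Eig m hnm lam χ) (c : Fin N → Fin N) (a b : Fin N)
    (hab : a ≠ b) (ha : ∃ i, c i = a) (hb : ∃ i, c i = b) (hc : ∀ i, c i = a ∨ c i = b)
    (hchi : ∏ i ∈ Finset.univ.filter (fun i => c i = a), χ i ≠ 1)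
    {r : ℕ} (F : MF (diag k n) r) :
    lam.val (Cok (F.phi.map (psiC k n m c)))
      = (∏ i ∈ Finset.univ.filter (fun i => c i = b), χ i (-1))
        * lam.val (Cok (F.phi.map (dmk k n))) := by
  classical
  have hcard : 0 < Fintype.card k - 1 := Nat.sub_pos_of_lt Fintype.one_lt_card
  have hn : ∀ i, 0 < n i := fun i => by
    rcases Nat.eq_zero_or_pos (n i) with h | h
    · have := hnm i
      rw [h, zero_mul] at this
      omega
    · exact h
  obtain ⟨i0, hi0⟩ := ha
  set sh : MvPolynomial (Fin N) k := ∑ i ∈ Finset.univ.filter (fun i => c i = a), X i ^ n i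
    with hsh
  have hsh0 : sh ≠ 0 := eval_block_ne_zero hn _ i0 (Finset.mem_filter.mpr ⟨Finset.mem_univ _, hi0⟩)
  have hf0 : diag k n ≠ 0 := eval_block_ne_zero hn _ i0 (Finset.mem_univ _)
  have hgsh : dmk k n sh = sB k n c a := by
    unfold sB
    have h1 : dmk k n sh = ∑ i ∈ Finset.univ.filter (fun i => c i = a), dmk k n (X i ^ n i) :=
      map_sum (dmk k n) _ _
    have h3 : ∀ i, dmk k n (X i ^ n i) = dx k n i ^ n i := fun i => map_pow (dmk k n) _ _
    rw [h1]
    exact Finset.sum_congr rfl fun i _ => h3 i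
  have hsum : sB k n c a + sB k n c b = 0 := by
    rw [← sum_dx_pow n]
    unfold sB
    rw [← Finset.sum_filter_add_sum_filter_not Finset.univ (fun i => c i = a)]
    congr 1
    refine Finset.sum_congr ?_ fun _ _ => rfl
    ext i
    simp only [Finset.mem_filter, Finset.mem_univ, true_and]
    constructor
    · intro h h2
      exact hab (h2.symm.trans h)
    · intro h
      rcases hc i with h2 | h2
      · exact absurd h2 h
      · exact h2
  have hkill : lam.Kills (sB k n c a) := kills_block m hnm lam χ hlam c a hchi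
  have hk1 : lam.Kills (1 : DiagRing k n) := by
    intro M _ _ _ hM
    have : Subsingleton M := ⟨fun x y => by
      have h1 := hM x
      have h2 := hM y
      rw [one_smul] at h1 h2
      rw [h1, h2]⟩
    exact lam.val_of_subsingleton M
  have key := sat_main (dmk k n) (diag k n) (rhoT k m c a) (Fintype.card k - 1)
    (rhoT_diag m hnm c a)
    (by
      intro x hx
      exact Ideal.mem_span_singleton.mp (Ideal.Quotient.eq_zero_iff_mem.mp hx))
    lam hf0 F Ideal.Quotient.mk_surjective ![1, sh]
    (by
      intro j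
      fin_cases j
      · exact one_ne_zero
      · exact hsh0)
    (by
      intro j
      fin_cases j
      · show lam.Kills (dmk k n 1)
        rw [map_one]
        exact hk1
      · show lam.Kills (dmk k n sh)
        rw [hgsh]
        exact hkill)
  have e1 : evc (dmk k n) (rhoT k m c a) sh = psiC k n m c := by
    refine MvPolynomial.ringHom_ext ?_ ?_
    · intro x
      unfold evc psiC
      simp only [RingHom.comp_apply]
      rw [rhoT_C, Polynomial.coe_evalRingHom, Polynomial.eval_C, coe_eval₂Hom, eval₂_C]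
      rfl
    · intro i
      unfold evc psiC
      simp only [RingHom.comp_apply]
      rw [rhoT_X, Polynomial.coe_evalRingHom, Polynomial.eval_mul, Polynomial.eval_C,
        Polynomial.eval_pow, Polynomial.eval_X, coe_eval₂Hom, eval₂_X, map_mul, map_pow, map_mul,
        ← mul_assoc, map_pow, map_pow, hgsh, ← mul_pow]
      congr 2
      unfold sgT
      by_cases h : c i = a
      · rw [if_pos h, map_one, map_one, mul_one, h]
      · have h2 : c i = b := (hc i).resolve_left h
        have hm : dmk k n (C (-1 : k)) + 1 = 0 := by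
          rw [← map_one (dmk k n), ← map_one (C : k →+* MvPolynomial (Fin N) k), ← map_add,
            ← map_add, neg_add_cancel, map_zero, map_zero]
        have h5 : sB k n c a * dmk k n (C (-1 : k)) + sB k n c a = sB k n c b + sB k n c a := by
          rw [add_comm (sB k n c b), hsum]
          calc sB k n c a * dmk k n (C (-1 : k)) + sB k n c a
              = sB k n c a * (dmk k n (C (-1 : k)) + 1) := by rw [mul_add, mul_one]
            _ = 0 := by rw [hm, mul_zero]
        rw [if_neg h, h2]
        exact add_right_cancel h5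
  let e : Fin N → kˣ := fun i => if c i = a then 1 else -1
  have he : ∀ i, ((e i : kˣ) : k) ^ m i * ((e i : kˣ) : k) ^ m i = 1 := by
    intro i
    rw [← mul_pow]
    have : ((e i : kˣ) : k) * ((e i : kˣ) : k) = 1 := by
      by_cases h : c i = a
      · simp [e, h]
      · simp [e, h]
    rw [this, one_pow]
  have e0 : evc (dmk k n) (rhoT k m c a) 1 = (sc (n := n) (fun i => (e i : k) ^ m i)
      (fun i => unit_pow_card (e i) (m i) (n i) (hnm i))).comp (dmk k n) := by
    refine MvPolynomial.ringHom_ext ?_ ?_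
    · intro x
      unfold evc
      simp only [RingHom.comp_apply]
      rw [rhoT_C, Polynomial.coe_evalRingHom, Polynomial.eval_C, sc_C]
    · intro i
      unfold evc
      simp only [RingHom.comp_apply]
      rw [rhoT_X, Polynomial.coe_evalRingHom, Polynomial.eval_mul, Polynomial.eval_C,
        Polynomial.eval_pow, Polynomial.eval_X, one_pow, one_mul, sc_dx, map_mul]
      congr 4
      unfold sgT
      by_cases h : c i = a
      · simp [e, h]
      · simp [e, h]
  have e2 : lam.val (Cok (F.phi.map (evc (dmk k n) (rhoT k m c a) 1)))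
      = (∏ i ∈ Finset.univ.filter (fun i => c i = b), χ i (-1))
        * lam.val (Cok (F.phi.map (dmk k n))) := by
    rw [e0]
    have e3 : F.phi.map ((sc (n := n) (fun i => (e i : k) ^ m i)
      (fun i => unit_pow_card (e i) (m i) (n i) (hnm i))).comp (dmk k n))
      = (F.phi.map (dmk k n)).map (sc (n := n) (fun i => (e i : k) ^ m i)
      (fun i => unit_pow_card (e i) (m i) (n i) (hnm i))) := by
      rw [Matrix.map_map]
      rfl
    rw [e3, cok_twist lam _ (sc (n := n) (fun i => (e i : k) ^ m i)
      (fun i => unit_pow_card (e i) (m i) (n i) (hnm i)))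
      (sc_sc _ _ _ _ he) (sc_sc _ _ _ _ he)]
    rw [hlam e (Cok (F.phi.map (dmk k n))) inferInstance, Finset.prod_filter]
    congr 1
    refine Finset.prod_congr rfl fun i _ => ?_
    by_cases h : c i = a
    · simp [e, h, hab]
    · have h2 : c i = b := (hc i).resolve_left h
      rw [if_pos h2]
      simp [e, h]
  rw [← e2, ← e1]
  exact key.symm

end two

end Pool.Agent.HT51
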