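import Pool.Agent.HT51.V3
import Pool.Agent.HT51.Coord
import Pool.Agent.HT51.Two

/-!
# The merge step
-/

universe u

namespace Pool.Agent.HT51

open MvPolynomial

section zero

variable {k : Type u} [Field k] [Fintype k] [DecidableEq k] {N : ℕ} (n m : Fin N → ℕ)
  {B : Type u} [CommRing B] [Algebra k B] (x : Fin N → B) (c : Fin N → Fin N) (a b : Fin N)

/-- The family at `Y = 0`. -/
noncomputable def zeroHom (k : Type u) [Field k] {B : Type u} [CommRing B] [Algebra k B]
    (m : Fin N → ℕ) (x : Fin N → B) (c : Fin N → Fin N) (a b : Fin N) :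
    MvPolynomial (Fin N) k →+* Polynomial B :=
  eval₂Hom (Polynomial.C.comp (algebraMap k B)) fun i =>
    (if c i = a then (Polynomial.X : Polynomial B) else if c i = b then - Polynomial.X else 0) ^ m i
      * Polynomial.C (x i)

omit [Fintype k] [DecidableEq k] in
lemma zeroHom_eq : (spec (0 : B)).comp (PhiG k n m x c a b) = zeroHom k m x c a b := by
  refine MvPolynomial.ringHom_ext ?_ ?_
  · intro e
    rw [RingHom.comp_apply, PhiG_C]
    unfold zeroHom
    rw [coe_eval₂Hom, eval₂_C]
    simp
  · intro i
    rw [RingHom.comp_apply, PhiG_X, map_mul, map_pow]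
    unfold zeroHom
    rw [coe_eval₂Hom, eval₂_X]
    congr 1
    · congr 1
      unfold wG
      split_ifs
      · simp
      · rw [map_sub]
        have h1 : spec (0 : B) (Polynomial.C (Polynomial.X *
            Polynomial.C (bs n x c a + bs n x c b))) = 0 := by
          show Polynomial.map _ _ = _
          rw [Polynomial.map_C]
          simp
        rw [h1]
        simp
      · show Polynomial.map _ _ = _
        rw [Polynomial.map_C]
        simp
    · simp

lemma zero_pl : ∃ l : ℕ, spec (0 : B) (pl (LG k n x c a b)) = Polynomial.X ^ l := by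
  refine ⟨(LG k n x c a b).length, ?_⟩
  rw [show spec (0 : B) (pl (LG k n x c a b)) = pl ((LG k n x c a b).map
      (Polynomial.evalRingHom (0 : B))) from map_pl _ _]
  have h1 : ∀ y ∈ LG k n x c a b, Polynomial.evalRingHom (0 : B) y = 0 := by
    intro y hy
    unfold LG at hy
    rcases List.mem_cons.mp hy with h | h
    · rw [h]; simp
    · obtain ⟨e, _, rfl⟩ := List.mem_map.mp h
      simp
  generalize LG k n x c a b = L at h1
  induction L with
  | nil => simp [pl]
  | cons y L ih =>
    have h2 := ih (fun z hz => h1 z (List.mem_cons_of_mem _ hz))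
    unfold pl at h2 ⊢
    rw [List.map_cons, List.map_cons, List.prod_cons, h2, h1 y (List.mem_cons_self), map_zero,
      sub_zero, List.length_cons, pow_succ']

end zero

section stepV

variable {k : Type u} [Field k] [Fintype k] {N : ℕ} {n : Fin N → ℕ} (m : Fin N → ℕ)

omit [Fintype k] in
lemma zeroHom_mem (hm : ∀ i, 0 < m i) (c : Fin N → Fin N) (a b i0 : Fin N) (hi0a : c i0 ≠ a)
    (hi0b : c i0 ≠ b) (p : MvPolynomial (Fin N) k) :
    zeroHom k m (dx k n) c a b p ∈ sSX k n i0 := by
  induction p using MvPolynomial.induction_on with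
  | C e =>
    unfold zeroHom
    rw [coe_eval₂Hom, eval₂_C]
    exact C_mem_sSX i0 _ (C_mem_sS i0 e)
  | add p q hp hq => rw [map_add]; exact Subring.add_mem _ hp hq
  | mul_X p i hp =>
    rw [map_mul]
    refine Subring.mul_mem _ hp ?_
    unfold zeroHom
    rw [coe_eval₂Hom, eval₂_X]
    by_cases h : i = i0
    · subst h
      rw [if_neg hi0a, if_neg hi0b, zero_pow (hm i).ne', zero_mul]
      exact Subring.zero_mem _
    · refine Subring.mul_mem _ (Subring.pow_mem _ ?_ _) (C_mem_sSX i0 _ (dx_mem_sS i0 i h))
      split_ifs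
      · exact X_mem_sSX i0
      · exact Subring.neg_mem _ (X_mem_sSX i0)
      · exact Subring.zero_mem _

/-- The scalings attached to a root. -/
noncomputable def epsV (c : Fin N → Fin N) (a b : Fin N) (e f : kˣ) (i : Fin N) : kˣ :=
  if c i = a then e else if c i = b then f else 1

theorem stepV (hnm : ∀ i, n i * m i = Fintype.card k - 1)
    (lam : AddFn (DiagRing k n)) (h0 : lam.val (DiagRing k n) = 0)
    (χ : Fin N → MulChar k ℂ) (hlam : Eig m hnm lam χ) (c : Fin N → Fin N) (a b : Fin N)
    (hab : a ≠ b) (i0 : Fin N) (hi0a : c i0 ≠ a) (hi0b : c i0 ≠ b)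
    (hs : lam.Kills (sB k n (merge c a b) a)) {r : ℕ} (F : MF (diag k n) r) :
    lam.val (Cok (F.phi.map (psiC k n m c)))
      = - jacobiSum (∏ i ∈ Finset.univ.filter (fun i => c i = a), χ i)⁻¹
            (∏ i ∈ Finset.univ.filter (fun i => c i = b), χ i)⁻¹
        * lam.val (Cok (F.phi.map (psiC k n m (merge c a b)))) := by
  classical
  have hx : ∑ i, dx k n i ^ n i = 0 := sum_dx
  have hbs : ∀ K, bs n (dx k n) c K = sB k n c K := fun K => rfl
  have hs' : lam.Kills (bs n (dx k n) c a + bs n (dx k n) c b) := by
    rw [hbs, hbs, ← sB_merge_self c a b hab]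
    exact hs
  -- the specialisation at zero
  have h00 : lam.val ((Fin r → Polynomial (DiagRing k n)) ⧸
      sm ((F.phi.map (PhiG k n m (dx k n) c a b)).map (spec (0 : DiagRing k n)))
        (spec (0 : DiagRing k n) (pl (LG k n (dx k n) c a b)))) = 0 := by
    have hA : (F.phi.map (PhiG k n m (dx k n) c a b)).map (spec (0 : DiagRing k n))
        = F.phi.map (zeroHom k m (dx k n) c a b) := by
      rw [← zeroHom_eq n m (dx k n) c a b]
      rfl
    obtain ⟨l, hl⟩ := zero_pl (k := k) n (dx k n) c a b
    rw [hA, hl]
    refine graded_zero (fun i => (nm_pos hnm i).1) lam h0 i0 _ ?_ _ (Polynomial.monic_X_pow l)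
      (Subring.pow_mem _ (X_mem_sSX i0) l)
    intro u v
    exact zeroHom_mem m (fun i => (nm_pos hnm i).2) c a b i0 hi0a hi0b _
  have hsum := sum_roots n m (dx k n) c a b hnm hx hab lam hs' F h00
  -- the root `s_a`
  have hra : rootHom k n m (dx k n) c a b (bs n (dx k n) c a) = psiC k n m c := by
    refine MvPolynomial.ringHom_ext ?_ ?_
    · intro e
      unfold rootHom
      rw [coe_eval₂Hom, eval₂_C, psiC_C]
      rfl
    · intro i
      unfold rootHom wR
      rw [coe_eval₂Hom, eval₂_X, psiC_X]
      split_ifs with h1 h2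
      · rw [h1, hbs]
      · rw [h2, hbs, hbs, add_sub_cancel_left]
      · rw [hbs]
  -- the root `e s`
  have hre : ∀ e f : kˣ, (e : k) + f = 1 →
      rootHom k n m (dx k n) c a b (algebraMap k (DiagRing k n) (e : k) *
        (bs n (dx k n) c a + bs n (dx k n) c b))
      = (sc (n := n) (fun i => (epsV c a b e f i : k) ^ m i)
          (fun i => unit_pow_card (epsV c a b e f i) (m i) (n i) (hnm i))).comp
        (psiC k n m (merge c a b)) := by
    intro e f hef
    refine MvPolynomial.ringHom_ext ?_ ?_
    · intro e'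
      unfold rootHom
      rw [coe_eval₂Hom, eval₂_C, RingHom.comp_apply, psiC_C, sc_C]
      rfl
    · intro i
      rw [RingHom.comp_apply, psiC_X, map_mul, map_pow, sc_sB, sc_dx]
      unfold rootHom wR
      rw [coe_eval₂Hom, eval₂_X, hbs, hbs]
      have hal : ∀ y : k, algebraMap k (DiagRing k n) y = dmk k n (C y) := fun y => rfl
      have hC : ∀ (y : k) (j : ℕ), dmk k n (C (y ^ j)) = dmk k n (C y) ^ j := by
        intro y j
        rw [C_pow, map_pow]
      rw [hC, hal]
      by_cases h1 : c i = a
      · have hm' : merge c a b i = a := by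
          unfold merge
          rw [if_neg (by rw [h1]; exact hab), h1]
        have he' : epsV c a b e f i = e := by unfold epsV; rw [if_pos h1]
        rw [if_pos h1, hm', he', sB_merge_self c a b hab, mul_pow]
        ring
      · by_cases h2 : c i = b
        · have hm' : merge c a b i = a := by
            unfold merge
            rw [if_pos h2]
          have he' : epsV c a b e f i = f := by unfold epsV; rw [if_neg h1, if_pos h2]
          have hf : dmk k n (C (f : k)) = 1 - dmk k n (C (e : k)) := by
            have hf' : (f : k) = 1 - (e : k) := by rw [← hef]; ring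
            rw [hf', map_sub, map_sub, C_1, map_one]
          have hff : sB k n c a + sB k n c b - dmk k n (C (e : k)) * (sB k n c a + sB k n c b)
              = (sB k n c a + sB k n c b) * (1 - dmk k n (C (e : k))) := by ring
          rw [if_neg h1, if_pos h2, hm', he', sB_merge_self c a b hab, hf, hff, mul_pow,
            mul_assoc]
        · have hm' : merge c a b i = c i := by
            unfold merge
            rw [if_neg h2]
          have he' : epsV c a b e f i = 1 := by unfold epsV; rw [if_neg h1, if_neg h2]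
          rw [if_neg h1, if_neg h2, hm', he', hbs, sB_merge_other c a b (c i) h1 h2]
          simp
  -- the character factor
  have hval : ∀ e f : kˣ, (e : k) + f = 1 →
      lam.val (Cok (F.phi.map (rootHom k n m (dx k n) c a b (algebraMap k (DiagRing k n) (e : k) *
        (bs n (dx k n) c a + bs n (dx k n) c b)))))
      = (∏ i ∈ Finset.univ.filter (fun i => c i = a), χ i)⁻¹ (e : k) *
          (∏ i ∈ Finset.univ.filter (fun i => c i = b), χ i)⁻¹ (f : k) *
          lam.val (Cok (F.phi.map (psiC k n m (merge c a b)))) := by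
    intro e f hef
    have h1 : F.phi.map (rootHom k n m (dx k n) c a b (algebraMap k (DiagRing k n) (e : k) *
        (bs n (dx k n) c a + bs n (dx k n) c b)))
        = (F.phi.map (psiC k n m (merge c a b))).map
          (sc (n := n) (fun i => (epsV c a b e f i : k) ^ m i)
          (fun i => unit_pow_card (epsV c a b e f i) (m i) (n i) (hnm i))) := by
      rw [hre e f hef]
      rfl
    have h2 : ∀ i, (epsV c a b e f i : k) ^ m i * ((epsV c a b e f i)⁻¹ : kˣ) ^ m i = 1 := by
      intro i
      rw [← mul_pow, Units.mul_inv, one_pow]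
    have h3 : ∀ i, (((epsV c a b e f i)⁻¹ : kˣ) : k) ^ m i * (epsV c a b e f i : k) ^ m i = 1 := by
      intro i
      rw [← mul_pow, Units.inv_mul, one_pow]
    rw [h1, cok_twist lam _ (sc (n := n) (fun i => (((epsV c a b e f i)⁻¹ : kˣ) : k) ^ m i)
      (fun i => unit_pow_card (epsV c a b e f i)⁻¹ (m i) (n i) (hnm i)))
      (sc_sc _ _ _ _ h2) (sc_sc _ _ _ _ h3)]
    rw [hlam (fun i => (epsV c a b e f i)⁻¹) (Cok (F.phi.map (psiC k n m (merge c a b))))
      inferInstance]
    congr 1
    have hprod : ∀ (s : Finset (Fin N)) (y : kˣ), (∏ i ∈ s, χ i) (y : k) = ∏ i ∈ s, χ i (y : k) := by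
      intro s y
      induction s using Finset.induction_on with
      | empty => rw [Finset.prod_empty, Finset.prod_empty, MulChar.one_apply_coe]
      | insert i s hi ih => rw [Finset.prod_insert hi, Finset.prod_insert hi, MulChar.mul_apply, ih]
    rw [MulChar.inv_apply', MulChar.inv_apply', ← Units.val_inv_eq_inv_val,
      ← Units.val_inv_eq_inv_val, hprod, hprod, Finset.prod_filter, Finset.prod_filter,
      ← Finset.prod_mul_distrib]
    refine Finset.prod_congr rfl fun i _ => ?_
    unfold epsV
    by_cases h4 : c i = a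
    · have h5 : ¬ c i = b := by rw [h4]; exact hab
      rw [if_pos h4, if_pos h4, if_neg h5, mul_one]
    · by_cases h5 : c i = b
      · rw [if_neg h4, if_pos h5, if_neg h4, if_pos h5, one_mul]
      · rw [if_neg h4, if_neg h5, if_neg h4, if_neg h5, one_mul, inv_one, Units.val_one,
          MulChar.map_one]
  set χa := (∏ i ∈ Finset.univ.filter (fun i => c i = a), χ i)⁻¹ with hχa
  set χb := (∏ i ∈ Finset.univ.filter (fun i => c i = b), χ i)⁻¹ with hχb
  have hJ : jacobiSum χa χb = ∑ e ∈ (Finset.univ.filter fun e : k => e ≠ 0 ∧ e ≠ 1),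
      χa e * χb (1 - e) := by
    unfold jacobiSum
    rw [Finset.sum_filter_of_ne]
    intro e _ he
    constructor
    · rintro rfl
      rw [MulChar.map_zero, zero_mul] at he
      exact he rfl
    · rintro rfl
      rw [sub_self, MulChar.map_zero, mul_zero] at he
      exact he rfl
  have hsum2 : ∑ e ∈ (Finset.univ.filter fun e : k => e ≠ 0 ∧ e ≠ 1),
        lam.val (Cok (F.phi.map (rootHom k n m (dx k n) c a b
          (algebraMap k (DiagRing k n) e * (bs n (dx k n) c a + bs n (dx k n) c b)))))
      = jacobiSum χa χb * lam.val (Cok (F.phi.map (psiC k n m (merge c a b)))) := by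
    rw [hJ, Finset.sum_mul]
    refine Finset.sum_congr rfl fun e he => ?_
    obtain ⟨_, he0, he1⟩ := Finset.mem_filter.mp he
    have h1 := hval (Units.mk0 e he0) (Units.mk0 (1 - e) (sub_ne_zero.mpr he1.symm)) (by
      rw [Units.val_mk0, Units.val_mk0]; ring)
    exact h1
  rw [hra, hsum2] at hsum
  rw [eq_neg_of_add_eq_zero_left hsum, neg_mul]

end stepV

end Pool.Agent.HT51
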