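import Pool.Agent.HT51.Two
import Pool.Agent.HT51.StepV
import Pool.Agent.HT51.K
import Pool.Agent.HT51.Kap
import Pool.Agent.HT51.Fin
import Pool.Agent.HT51.Eig
import Pool.Agent.HT51.Gen
import Pool.Agent.HT51.Comb

/-!
# The core theorem: additive functions on a diagonal hypersurface over a finite field
-/

universe u

namespace Pool.Agent.HT51

open MvPolynomial

section g0

variable {k : Type u} [Field k] [Fintype k]

omit [Fintype k] in
lemma mulChar_ext_gen (ω : kˣ) (hω : ∀ x : kˣ, x ∈ Subgroup.zpowers ω) {χ ψ : MulChar k ℂ}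
    (h : χ (ω : k) = ψ (ω : k)) : χ = ψ := by
  refine MulChar.ext fun x => ?_
  have h1 : χ.toUnitHom ω = ψ.toUnitHom ω := by
    refine Units.ext ?_
    rw [MulChar.coe_toUnitHom, MulChar.coe_toUnitHom, h]
  obtain ⟨j, hj⟩ := Subgroup.mem_zpowers_iff.mp (hω x)
  have h2 : χ.toUnitHom x = ψ.toUnitHom x := by
    rw [← hj, map_zpow, map_zpow, h1]
  have h3 := congrArg (Units.val) h2
  rwa [MulChar.coe_toUnitHom, MulChar.coe_toUnitHom] at h3

omit [Fintype k] in
lemma prod_mulChar_apply {ι : Type*} (s : Finset ι) (χ : ι → MulChar k ℂ) (x : kˣ) :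
    (∏ i ∈ s, χ i) (x : k) = ∏ i ∈ s, χ i (x : k) := by
  classical
  induction s using Finset.induction_on with
  | empty => rw [Finset.prod_empty, Finset.prod_empty, MulChar.one_apply_coe]
  | insert i s hi ih => rw [Finset.prod_insert hi, Finset.prod_insert hi, MulChar.mul_apply, ih]

variable {N : ℕ} {n : Fin N → ℕ} (m : Fin N → ℕ)
  (hnm : ∀ i, n i * m i = Fintype.card k - 1)

/-- All the facts on the Frobenius. -/
theorem kap {k : Type u} [Field k] [Fintype k] {M : ℕ} {n : Fin (M + 1) → ℕ} (m : Fin (M + 1) → ℕ)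
    (hnm : ∀ i, n i * m i = Fintype.card k - 1) :
    ∃ (frB : DiagRing k n →+* DiagRing k n) (hfin : frB.Finite) (p e a : ℕ) (_ : Fact p.Prime)
      (_ : CharP (DiagRing k n) p),
      0 < e ∧ 0 < a ∧ Fintype.card k = p ^ e ∧ frB = iterateFrobenius (DiagRing k n) p e ∧
      (frobenius (DiagRing k n) p).Finite ∧
      psiC k n m id = frB.comp (dmk k n) ∧
      (∀ (lam : AddFn (DiagRing k n)), lam.val (DiagRing k n) = 0 →
        (lam.res frB hfin).val (DiagRing k n) = 0) ∧
      (∀ (lam : AddFn (DiagRing k n)) (χ : Fin (M + 1) → MulChar k ℂ), Eig m hnm lam χ →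
        Eig m hnm (lam.res frB hfin) χ) ∧
      (∀ (lam : AddFn (DiagRing k n)), lam.val (DiagRing k n) = 0 →
        ∀ (r : ℕ) (F : MF (diag k n) r),
        lam.val (Res frB (Cok ((F.phi.map (dmk k n)).map frB)))
          = ((a : ℂ) ^ e) * lam.val (Cok (F.phi.map (dmk k n)))) := by
  obtain ⟨p, hpk⟩ := CharP.exists k
  obtain ⟨e, hp, hq⟩ := FiniteField.card k p
  have hfact : Fact p.Prime := ⟨hp⟩
  have hn : ∀ j, 0 < n j := fun j => (exists_root k (n j) (m j) (hnm j)).1
  have hchar : CharP (DiagRing k n) p := diag_charP hn p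
  have hFr : ∀ b : DiagRing k n, iterateFrobenius (DiagRing k n) p e b = b ^ Fintype.card k := by
    intro b
    rw [iterateFrobenius_def, hq]
  have hFrS : ∀ b : MvPolynomial {j : Fin (M + 1) // j ≠ 0} k,
      iterateFrobenius (MvPolynomial {j : Fin (M + 1) // j ≠ 0} k) p e b
        = b ^ Fintype.card k := by
    intro b
    rw [iterateFrobenius_def, hq]
  obtain ⟨a, ha, har⟩ := rank_frS (k := k) {j : Fin (M + 1) // j ≠ 0} p e
  have hfin := diag_iterateFrobenius_finite (k := k) (n := n) p e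
  refine ⟨iterateFrobenius (DiagRing k n) p e, hfin, p, e, a, hfact, hchar, e.pos, ha, hq, rfl,
    diag_frobenius_finite p, psiC_id m hnm _ hFr, ?_, ?_, ?_⟩
  · intro lam h0
    exact res_val_zero m hnm lam h0 0 _ hFr hfin
  · intro lam χ hlam
    exact eig_res m hnm lam χ hlam _ hFr hfin
  · intro lam h0 r F
    rw [frob_cok m hnm lam h0 0 _ hFr hfin _ hFrS F, har, Nat.cast_pow]

/-- The comparison of the Frobenius twist with the untwisted cokernel. -/
lemma frob_gamma (hN : Odd N) (χ : Fin N → MulChar k ℂ) (hχ : ∀ i, χ i ≠ 1) (hprod : ∏ i, χ i = 1) :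
    ∃ γ : ℂ, ‖γ‖ ^ 2 = (Fintype.card k : ℝ) ^ (N - 2) ∧
      ∀ (lam : AddFn (DiagRing k n)), lam.val (DiagRing k n) = 0 → Eig m hnm lam χ →
      ∀ (r : ℕ) (F : MF (diag k n) r),
        lam.val (Cok (F.phi.map (psiC k n m id))) = γ * lam.val (Cok (F.phi.map (dmk k n))) := by
  classical
  obtain ⟨ω, hω⟩ : ∃ ω : kˣ, ∀ x : kˣ, x ∈ Subgroup.zpowers ω := IsCyclic.exists_generator
  have hzb : ∀ (c : Fin N → Fin N) (a : Fin N), zb (fun i => χ i (ω : k)) c a
      = (∏ i ∈ Finset.univ.filter (fun i => c i = a), χ i) (ω : k) := fun c a =>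
    (prod_mulChar_apply _ χ ω).symm
  have hz : ∀ i, (χ i (ω : k)) ^ (Fintype.card k - 1) = 1 := by
    intro i
    rw [← map_pow, FiniteField.pow_card_sub_one_eq_one _ ω.ne_zero, map_one]
  have hz1 : ∀ i, χ i (ω : k) ≠ 1 := by
    intro i h
    refine hχ i (mulChar_ext_gen ω hω ?_)
    rw [h, MulChar.one_apply_coe]
  have hzp : ∏ i, χ i (ω : k) = 1 := by
    rw [← prod_mulChar_apply, hprod, MulChar.one_apply_coe]
  obtain ⟨γ, hγ, hV⟩ := comb k ω hω hN (fun i => χ i (ω : k)) hz hz1 hzp
  refine ⟨γ, hγ, ?_⟩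
  intro lam h0 hlam r F
  refine hV (fun c => lam.val (Cok (F.phi.map (psiC k n m c))))
    (lam.val (Cok (F.phi.map (dmk k n)))) ?_ ?_
  · rintro c a b χ' ψ hab ha hb ⟨i0, hi0a, hi0b⟩ h1 h2 h3
    have e1 : χ' = ∏ i ∈ Finset.univ.filter (fun i => c i = a), χ i :=
      mulChar_ext_gen ω hω (h1.trans (hzb c a))
    have e2 : ψ = ∏ i ∈ Finset.univ.filter (fun i => c i = b), χ i :=
      mulChar_ext_gen ω hω (h2.trans (hzb c b))
    have hkill : lam.Kills (sB k n (merge c a b) a) := by
      refine kills_block m hnm lam χ hlam (merge c a b) a ?_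
      intro h
      refine h3 ?_
      have h4 := zb_merge_same (fun i => χ i (ω : k)) (c := c) hab
      rw [← h4, hzb, h, MulChar.one_apply_coe]
    have := stepV m hnm lam h0 χ hlam c a b hab i0 hi0a hi0b hkill F
    rw [e1, e2]
    exact this
  · intro c a b χ' hab ha hb hc h1 h2
    have e1 : χ' = ∏ i ∈ Finset.univ.filter (fun i => c i = a), χ i :=
      mulChar_ext_gen ω hω (h1.trans (hzb c a))
    have hne : ∏ i ∈ Finset.univ.filter (fun i => c i = a), χ i ≠ 1 := by
      intro h
      refine h2 ?_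
      rw [hzb, h, MulChar.one_apply_coe]
    have h3 := two_labels m hnm lam h0 χ hlam c a b hab ha hb hc hne F
    show lam.val (Cok (F.phi.map (psiC k n m c))) = _
    rw [h3]
    congr 1
    -- both block characters take the same value at `-1`
    have hcompl : Finset.univ.filter (fun i => c i = b) = Finset.univ.filter (fun i => ¬ c i = a) := by
      ext i
      simp only [Finset.mem_filter, Finset.mem_univ, true_and]
      constructor
      · intro h h4
        exact hab (h4.symm.trans h)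
      · intro h
        exact (hc i).resolve_left h
    have hu : ((-1 : kˣ) : k) = -1 := by rw [Units.val_neg, Units.val_one]
    have h4 : (∏ i ∈ Finset.univ.filter (fun i => c i = a), χ i (-1))
        * (∏ i ∈ Finset.univ.filter (fun i => c i = b), χ i (-1)) = 1 := by
      rw [hcompl, Finset.prod_filter_mul_prod_filter_not, ← hu, ← prod_mulChar_apply, hprod,
        MulChar.one_apply_coe]
    have h5 : (∏ i ∈ Finset.univ.filter (fun i => c i = a), χ i (-1))
        * (∏ i ∈ Finset.univ.filter (fun i => c i = a), χ i (-1)) = 1 := by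
      rw [← Finset.prod_mul_distrib]
      refine Finset.prod_eq_one fun i _ => ?_
      rw [← map_mul, neg_mul_neg, one_mul, map_one]
    have h6 : χ' (-1) = ∏ i ∈ Finset.univ.filter (fun i => c i = a), χ i (-1) := by
      rw [e1, ← hu, prod_mulChar_apply]
    rw [h6]
    exact mul_left_cancel₀ (left_ne_zero_of_mul_eq_one h5) (h4.trans h5.symm)

/-- an arithmetic contradiction -/
lemma arith_aux (p e a b L : ℕ) (hp : p.Prime) (he : 0 < e) (ha : 0 < a)
    (h : (a ^ e) ^ 2 = (b ^ e) ^ 2 * (p ^ e) ^ (2 * L + 1)) : False := by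
  have h1 : (a ^ 2) ^ e = (b ^ 2 * p ^ (2 * L + 1)) ^ e := by
    rw [mul_pow, ← pow_mul, ← pow_mul, ← pow_mul, mul_comm 2 e, mul_comm (2 * L + 1) e, pow_mul,
      pow_mul, pow_mul]
    exact h
  have h2 : a ^ 2 = b ^ 2 * p ^ (2 * L + 1) := Nat.pow_left_injective he.ne' h1
  have hb : b ≠ 0 := by
    rintro rfl
    rw [zero_pow two_ne_zero, zero_mul] at h2
    exact (pow_pos ha 2).ne' h2
  have h3 : (a ^ 2).factorization p = (b ^ 2 * p ^ (2 * L + 1)).factorization p := by rw [h2]
  rw [Nat.factorization_pow, Nat.factorization_mul (pow_ne_zero _ hb) (pow_ne_zero _ hp.ne_zero),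
    Nat.factorization_pow, Nat.factorization_pow] at h3
  simp only [Finsupp.smul_apply, Finsupp.add_apply, smul_eq_mul, hp.factorization_self] at h3
  omega

/-- (G0), the core theorem. -/
theorem g0 (k : Type u) [Field k] [Fintype k] {N : ℕ} (hN : Odd N) (n m : Fin N → ℕ)
    (hnm : ∀ i, n i * m i = Fintype.card k - 1)
    (lam : AddFn (DiagRing k n)) (h0 : lam.val (DiagRing k n) = 0)
    (W : Type u) [AddCommGroup W] [Module (DiagRing k n) W] [Module.Finite (DiagRing k n) W] :
    lam.val W = 0 := by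
  classical
  obtain ⟨M, rfl⟩ : ∃ M, N = M + 1 := ⟨N - 1, by have := hN.pos; omega⟩
  refine eig_reduction m hnm ?_ lam h0 W
  clear h0 lam
  intro lam h0 χ hlam hχ hprod W' _ _ hW'
  have hn : ∀ i, 0 < n i := fun i => EigAux.n_pos m hnm i
  obtain ⟨γ, hγ, hfrob⟩ := frob_gamma m hnm hN χ hχ hprod
  obtain ⟨frB, hfin, p, e, a, hp, hchar, he, ha, hq, hfr, hF1, hpsi, hz, heig, hcok⟩ :=
    kap m hnm
  -- `M` is even and positive
  have hM : ∃ L, M = 2 * L + 2 := by
    obtain ⟨j, hj⟩ := hN
    rcases Nat.eq_zero_or_pos j with h | h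
    · exfalso
      have hM0 : M = 0 := by omega
      subst hM0
      refine hχ 0 ?_
      rw [← hprod, Fin.prod_univ_one]
    · exact ⟨j - 1, by omega⟩
  obtain ⟨L, hL⟩ := hM
  have hγ0 : γ ≠ 0 := by
    rintro rfl
    rw [norm_zero, zero_pow two_ne_zero] at hγ
    have : (0 : ℝ) < (Fintype.card k : ℝ) ^ (M + 1 - 2) :=
      pow_pos (by exact_mod_cast Fintype.card_pos) _
    exact this.ne hγ
  let kappa := lam.res frB hfin
  have hk0 : kappa.val (DiagRing k n) = 0 := hz lam h0
  have hcomp : ∀ (r : ℕ) (F : MF (diag k n) r),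
      kappa.val (Cok (F.phi.map (dmk k n)))
        = ((a : ℂ) ^ e / γ) * lam.val (Cok (F.phi.map (dmk k n))) := by
    intro r F
    have h1 := hfrob kappa hk0 (heig lam χ hlam) r F
    have h2 : kappa.val (Cok (F.phi.map (psiC k n m id)))
        = ((a : ℂ) ^ e) * lam.val (Cok (F.phi.map (dmk k n))) := by
      rw [← hcok lam h0 r F]
      have h3 : F.phi.map (psiC k n m id) = (F.phi.map (dmk k n)).map frB := by
        rw [hpsi, Matrix.map_map]
        rfl
      rw [h3]
      rfl
    rw [h2] at h1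
    rw [div_mul_eq_mul_div, h1, mul_div_cancel_left₀ _ hγ0]
  have hall : ∀ (W : Type u) [AddCommGroup W] [Module (DiagRing k n) W],
      Module.Finite (DiagRing k n) W → kappa.val W = ((a : ℂ) ^ e / γ) * lam.val W := by
    intro W _ _ _
    have h1 := gen k n hn (kappa.subMul lam ((a : ℂ) ^ e / γ))
      (by
        show kappa.val (DiagRing k n) - ((a : ℂ) ^ e / γ) * lam.val (DiagRing k n) = 0
        rw [hk0, h0, mul_zero, sub_zero])
      (fun r F => by
        show kappa.val (Cok (F.phi.map (dmk k n)))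
          - ((a : ℂ) ^ e / γ) * lam.val (Cok (F.phi.map (dmk k n))) = 0
        rw [hcomp, sub_self]) W
    exact sub_eq_zero.mp h1
  have hFe : (iterateFrobenius (DiagRing k n) p e).Finite := by rw [← hfr]; exact hfin
  refine fin_vanish p e he hFe hF1 lam ((a : ℂ) ^ e / γ) ?_ ?_ W'
  · intro W _ _ hW
    have h1 := hall W hW
    have h2 : kappa.val W = lam.val (Res (iterateFrobenius (DiagRing k n) p e) W) :=
      val_res_congr lam hfr W
    rw [← h2, h1]
  · intro b hb
    have h1 : (a : ℂ) ^ e = (b : ℂ) ^ e * γ := by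
      rw [← hb, div_mul_cancel₀ _ hγ0]
    have h2 := congrArg (fun x : ℂ => ‖x‖ ^ 2) h1
    simp only [norm_mul, norm_pow, Complex.norm_natCast, mul_pow] at h2
    rw [hγ, hq] at h2
    have h3 : ((a : ℝ) ^ e) ^ 2 = ((b : ℝ) ^ e) ^ 2 * (((p : ℝ) ^ e)) ^ (2 * L + 1) := by
      have h4 : M + 1 - 2 = 2 * L + 1 := by omega
      rw [h4] at h2
      rw [h2]
      push_cast
      ring
    exact arith_aux p e a b L hp.out he ha (by exact_mod_cast h3)

end g0

end Pool.Agent.HT51
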