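import Pool.Agent.HT51.ChB
import Pool.Agent.HT51.G0

/-!
# (RAD): radical covers in characteristic `p`, and diagonal forms with arbitrary exponents
-/

universe u

namespace Pool.Agent.HT51

open TensorProduct

section Nil

variable {C : Type u} [CommRing C] [IsNoetherianRing C]

/-- The value of a module with a nilpotent endomorphism `T`, `T ^ q = 0`,
`ker (T ^ (q - 1)) ⊆ range T`. -/
lemma AddFn.val_nil (nu : AddFn C) (N : Type u) [AddCommGroup N] [Module C N] [Module.Finite C N]
    (T : N →ₗ[C] N) (q : ℕ) (hT : T ^ (q + 1) = 0)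
    (hker : LinearMap.ker (T ^ q) ≤ LinearMap.range T) :
    nu.val N = (q + 1 : ℕ) * nu.val (LinearMap.ker T) := by
  have hN : IsNoetherian C N := isNoetherian_of_isNoetherianRing_of_finite C N
  have key : ∀ j, j ≤ q + 1 → nu.val (LinearMap.ker (T ^ j)) = (j : ℂ) * nu.val (LinearMap.ker T) := by
    intro j
    induction j with
    | zero =>
      intro _
      have : Subsingleton (LinearMap.ker (T ^ 0)) := by
        refine ⟨?_⟩
        rintro ⟨x, hx⟩ ⟨y, hy⟩
        rw [LinearMap.mem_ker, pow_zero, Module.End.one_apply] at hx hy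
        exact Subtype.ext (hx.trans hy.symm)
      rw [nu.val_of_subsingleton, Nat.cast_zero, zero_mul]
    | succ j ih =>
      intro hj
      have hle : LinearMap.ker T ≤ LinearMap.ker (T ^ (j + 1)) := by
        intro x hx
        rw [LinearMap.mem_ker] at hx ⊢
        rw [pow_succ, Module.End.mul_apply, hx, map_zero]
      have hmap : ∀ x ∈ LinearMap.ker (T ^ (j + 1)), T x ∈ LinearMap.ker (T ^ j) := by
        intro x hx
        rw [LinearMap.mem_ker] at hx ⊢
        rw [pow_succ, Module.End.mul_apply] at hx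
        exact hx
      have e := nu.add' (LinearMap.ker T) (LinearMap.ker (T ^ (j + 1))) (LinearMap.ker (T ^ j))
        (Submodule.inclusion hle) (T.restrict hmap) (Submodule.inclusion_injective hle) ?_ ?_
        inferInstance
      · rw [e, ih (by omega)]
        push_cast
        ring
      · intro x
        constructor
        · intro hx
          have hx' : T x.1 = 0 := congrArg Subtype.val hx
          exact ⟨⟨x.1, hx'⟩, rfl⟩
        · rintro ⟨y, rfl⟩
          apply Subtype.ext
          exact y.2
      · rintro ⟨y, hy⟩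
        have hy2 : y ∈ LinearMap.range T := by
          apply hker
          rw [LinearMap.mem_ker] at hy ⊢
          have hq : q = (q - j) + j := by omega
          rw [hq, pow_add, Module.End.mul_apply, hy, map_zero]
        obtain ⟨x, rfl⟩ := hy2
        refine ⟨⟨x, ?_⟩, rfl⟩
        rw [LinearMap.mem_ker] at hy ⊢
        rw [pow_succ, Module.End.mul_apply]
        exact hy
  rw [← key (q + 1) le_rfl]
  have htop : LinearMap.ker (T ^ (q + 1)) = ⊤ := by
    rw [hT]
    exact LinearMap.ker_zero
  rw [htop]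
  exact (nu.val_congr (Submodule.topEquiv (R := C) (M := N))).symm

end Nil

section Rad

variable {A C : Type u} [CommRing A] [CommRing C] [Algebra A C]
  (M : Type u) [AddCommGroup M] [Module A M] [Module C M] [IsScalarTower A C M]

/-- Multiplication by `x ⊗ 1 - 1 ⊗ x` on `C ⊗ M`. -/
noncomputable def dfT (x : C) : (C ⊗[A] M) →ₗ[C] (C ⊗[A] M) :=
  x • LinearMap.id - ((LinearMap.lsmul C M x).restrictScalars A).baseChange C

variable {M}

lemma dfT_tmul (x c : C) (m : M) :
    dfT (A := A) M x (c ⊗ₜ m) = (x * c) ⊗ₜ m - c ⊗ₜ (x • m) := rfl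

/-- evaluation -/
noncomputable def evT : (C ⊗[A] M) →ₗ[C] M :=
  LinearMap.liftBaseChange C (LinearMap.id : M →ₗ[A] M)

lemma evT_tmul (c : C) (m : M) : evT (A := A) (c ⊗ₜ m) = c • m := by
  unfold evT
  rw [LinearMap.liftBaseChange_tmul]
  rfl

lemma evT_dfT (x : C) (n : C ⊗[A] M) : evT (dfT (A := A) M x n) = 0 := by
  induction n using TensorProduct.induction_on with
  | zero => rw [map_zero, map_zero]
  | tmul c m =>
    rw [dfT_tmul, map_sub, evT_tmul, evT_tmul, smul_smul, mul_comm, sub_self]
  | add n n' h h' => rw [map_add, map_add, h, h', add_zero]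

/-- `n - 1 ⊗ ev n` lies in the range. -/
lemma sub_mem_range {ι : Type} (x : C) (b : Module.Basis ι A C)
    (hb : ∀ j, ∃ k : ℕ, b j = x ^ k) (n : C ⊗[A] M) :
    n - (1 : C) ⊗ₜ[A] evT n ∈ LinearMap.range (dfT (A := A) M x) := by
  have h1 : ∀ (k : ℕ) (m : M), (x ^ k) ⊗ₜ[A] m - (1 : C) ⊗ₜ[A] (x ^ k • m) ∈
      LinearMap.range (dfT (A := A) M x) := by
    intro k
    induction k with
    | zero =>
      intro m
      rw [pow_zero, one_smul, sub_self]
      exact Submodule.zero_mem _
    | succ k ih =>
      intro m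
      have e : (x ^ (k + 1)) ⊗ₜ[A] m - (1 : C) ⊗ₜ[A] (x ^ (k + 1) • m)
          = dfT (A := A) M x ((x ^ k) ⊗ₜ m) +
            ((x ^ k) ⊗ₜ[A] (x • m) - (1 : C) ⊗ₜ[A] (x ^ k • (x • m))) := by
        rw [dfT_tmul, pow_succ', smul_smul, ← pow_succ, ← pow_succ']
        abel
      rw [e]
      exact Submodule.add_mem _ ⟨_, rfl⟩ (ih (x • m))
  have h2 : ∀ (c : C) (m : M), c ⊗ₜ[A] m - (1 : C) ⊗ₜ[A] (c • m) ∈
      LinearMap.range (dfT (A := A) M x) := by
    intro c m
    have hc : c ∈ Submodule.span A (Set.range b) := by rw [b.span_eq]; trivial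
    induction hc using Submodule.span_induction with
    | mem y hy =>
      obtain ⟨j, rfl⟩ := hy
      obtain ⟨k, hk⟩ := hb j
      rw [hk]
      exact h1 k m
    | zero =>
      rw [zero_tmul, zero_smul, tmul_zero, sub_self]
      exact Submodule.zero_mem _
    | add y z _ _ hy hz =>
      rw [add_tmul, add_smul, tmul_add, add_sub_add_comm]
      exact Submodule.add_mem _ hy hz
    | smul r y _ hy =>
      have e : (r • y) ⊗ₜ[A] m - (1 : C) ⊗ₜ[A] ((r • y) • m)
          = (algebraMap A C r) • (y ⊗ₜ[A] m - (1 : C) ⊗ₜ[A] (y • m)) := by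
        rw [algebraMap_smul, smul_sub, ← tmul_smul, ← tmul_smul, smul_assoc, smul_tmul]
      rw [e]
      exact Submodule.smul_mem _ _ hy
  induction n using TensorProduct.induction_on with
  | zero =>
    rw [map_zero, tmul_zero, sub_self]
    exact Submodule.zero_mem _
  | tmul c m =>
    rw [evT_tmul]
    exact h2 c m
  | add n n' h h' =>
    rw [map_add, tmul_add, add_sub_add_comm]
    exact Submodule.add_mem _ h h'

lemma dfT_pow_char (p : ℕ) [hp : Fact p.Prime] (hpC : (p : C) = 0) (x : C) (a : A)
    (ha : algebraMap A C a = x ^ p) : (dfT (A := A) M x) ^ p = 0 := by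
  rcases subsingleton_or_nontrivial (C ⊗[A] M) with hs | hs
  · exact LinearMap.ext fun n => Subsingleton.elim _ _
  have hchar : CharP (Module.End C (C ⊗[A] M)) p := by
    rw [CharP.charP_iff_prime_eq_zero hp.out]
    refine LinearMap.ext fun n => ?_
    have e : ((p : ℕ) : Module.End C (C ⊗[A] M)) n = ((p : ℕ) : C) • n := by
      rw [Nat.cast_smul_eq_nsmul, ← nsmul_one, LinearMap.smul_apply]
      rfl
    rw [e, hpC, zero_smul]
    rfl
  let X : Module.End C (C ⊗[A] M) := x • LinearMap.id
  let Y : Module.End C (C ⊗[A] M) := ((LinearMap.lsmul C M x).restrictScalars A).baseChange C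
  have hXY : Commute X Y := by
    show X * Y = Y * X
    refine LinearMap.ext fun n => ?_
    show x • (Y n) = Y (x • n)
    rw [map_smul]
  have hX : ∀ (k : ℕ) (n : C ⊗[A] M), (X ^ k) n = x ^ k • n := by
    intro k
    induction k with
    | zero => intro n; rw [pow_zero, pow_zero, one_smul]; rfl
    | succ k ih =>
      intro n
      rw [pow_succ, Module.End.mul_apply, ih, pow_succ, mul_smul]
      rfl
  have hY : ∀ (k : ℕ) (c : C) (m : M), (Y ^ k) (c ⊗ₜ m) = c ⊗ₜ (x ^ k • m) := by
    intro k
    induction k with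
    | zero => intro c m; rw [pow_zero, pow_zero, one_smul]; rfl
    | succ k ih =>
      intro c m
      rw [pow_succ, Module.End.mul_apply, pow_succ, mul_smul, ← ih]
      rfl
  have hsub : (X - Y) ^ p = X ^ p - Y ^ p :=
    @sub_pow_char_of_commute (Module.End C (C ⊗[A] M)) _ X Y p hp hchar hXY
  refine hsub.trans ?_
  refine LinearMap.ext fun n => ?_
  show (X ^ p) n - (Y ^ p) n = 0
  rw [sub_eq_zero]
  induction n using TensorProduct.induction_on with
  | zero => rw [map_zero, map_zero]
  | tmul c m =>
    rw [hX, hY, ← ha, algebraMap_smul, algebraMap_smul, smul_tmul', smul_tmul]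
  | add n n' h h' => rw [map_add, map_add, h, h']

/-- the leading coefficient of `T ^ k (1 ⊗ m)`. -/
lemma dfT_pow_lead (x : C) (m : M) (k : ℕ) :
    ∃ f : ℕ → M, f k = m ∧ ((dfT (A := A) M x) ^ k) ((1 : C) ⊗ₜ m) =
      ∑ j ∈ Finset.range (k + 1), (x ^ j) ⊗ₜ[A] f j := by
  induction k with
  | zero =>
    refine ⟨fun _ => m, rfl, ?_⟩
    rw [pow_zero, Finset.sum_range_one, pow_zero]
    rfl
  | succ k ih =>
    obtain ⟨f, hf, hs⟩ := ih
    refine ⟨fun j => (if j = 0 then 0 else f (j - 1)) - (if j = k + 1 then 0 else x • f j), ?_, ?_⟩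
    · show (if k + 1 = 0 then 0 else f (k + 1 - 1)) - (if k + 1 = k + 1 then 0 else x • f (k + 1)) = m
      rw [if_neg (Nat.succ_ne_zero k), if_pos rfl, Nat.add_sub_cancel, sub_zero, hf]
    · rw [pow_succ', Module.End.mul_apply, hs, map_sum]
      have h1 : ∀ j ∈ Finset.range (k + 1), dfT (A := A) M x ((x ^ j) ⊗ₜ[A] f j)
          = (x ^ (j + 1)) ⊗ₜ[A] f j - (x ^ j) ⊗ₜ[A] (x • f j) := by
        intro j _
        rw [dfT_tmul, pow_succ']
      rw [Finset.sum_congr rfl h1, Finset.sum_sub_distrib]
      have h2 : ∑ j ∈ Finset.range (k + 1 + 1), (x ^ j) ⊗ₜ[A]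
          ((if j = 0 then 0 else f (j - 1)) - (if j = k + 1 then 0 else x • f j))
          = ∑ j ∈ Finset.range (k + 1 + 1), (x ^ j) ⊗ₜ[A] (if j = 0 then 0 else f (j - 1)) -
            ∑ j ∈ Finset.range (k + 1 + 1), (x ^ j) ⊗ₜ[A] (if j = k + 1 then 0 else x • f j) := by
        rw [← Finset.sum_sub_distrib]
        refine Finset.sum_congr rfl fun j _ => ?_
        rw [tmul_sub]
      rw [h2]
      congr 1
      · rw [Finset.sum_range_succ' _ (k + 1), if_pos rfl, tmul_zero, add_zero]
        refine Finset.sum_congr rfl fun j _ => ?_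
        rw [if_neg (Nat.succ_ne_zero j), Nat.add_sub_cancel]
      · rw [Finset.sum_range_succ _ (k + 1), if_pos rfl, tmul_zero, add_zero]
        refine Finset.sum_congr rfl fun j hj => ?_
        rw [Finset.mem_range] at hj
        rw [if_neg (by omega)]

/-- (RAD), abstract form. -/
theorem ZeroProp.rad [IsNoetherianRing C] (p : ℕ) [hp : Fact p.Prime] (hpC : (p : C) = 0) (x : C)
    (b : Module.Basis (Fin p) A C) (hb : ∀ j, b j = x ^ (j : ℕ)) (a : A)
    (ha : algebraMap A C a = x ^ p) (h : ZeroProp A) : ZeroProp C := by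
  intro nu h0 M _ _ _
  let _ : Module A M := Module.compHom M (algebraMap A C)
  have : IsScalarTower A C M := ⟨fun a c m => by
    rw [Algebra.smul_def, mul_smul]; rfl⟩
  have : Module.Finite A C := Module.Finite.of_basis b
  have : Module.Finite A M := Module.Finite.trans C M
  have : Module.Free A C := Module.Free.of_basis b
  have h1 : nu.val (C ⊗[A] M) = 0 :=
    h (nu.base (A := A)) (by rw [AddFn.base_self, h0]) M
  obtain ⟨q, hq⟩ : ∃ q, p = q + 1 := ⟨p - 1, by have := hp.out.pos; omega⟩
  set T := dfT (A := A) M x with hT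
  have hTp : T ^ (q + 1) = 0 := by
    rw [← hq]
    exact dfT_pow_char p hpC x a ha
  have hrange : ∀ n, n - (1 : C) ⊗ₜ[A] evT n ∈ LinearMap.range T :=
    fun n => sub_mem_range x b (fun j => ⟨j, hb j⟩) n
  have hlead : ∀ m : M, (T ^ q) ((1 : C) ⊗ₜ[A] m) = 0 → m = 0 := by
    intro m hm
    obtain ⟨f, hf, hs⟩ := dfT_pow_lead (A := A) x m q
    rw [← hT, hm] at hs
    let c : Fin p →₀ M := Finsupp.equivFunOnFinite.symm (fun j => f j)
    have hc : (c.sum fun i n ↦ b i ⊗ₜ[A] n) = 0 := by
      rw [Finsupp.sum_fintype _ _ (fun i => by rw [tmul_zero]), hs]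
      subst hq
      rw [Finset.sum_range (fun j => (x ^ j) ⊗ₜ[A] f j)]
      refine Finset.sum_congr rfl fun j _ => ?_
      rw [hb]
      rfl
    have hc0 := TensorProduct.sum_tmul_basis_left_eq_zero b c hc
    have h2 := DFunLike.congr_fun hc0 (⟨q, by omega⟩ : Fin p)
    have h3 : c (⟨q, by omega⟩ : Fin p) = f q := rfl
    rw [← hf, ← h3, h2]
    rfl
  have hker : LinearMap.ker (T ^ q) ≤ LinearMap.range T := by
    intro n hn
    rw [LinearMap.mem_ker] at hn
    obtain ⟨n', hn'⟩ := hrange n
    have h2 : (T ^ q) ((1 : C) ⊗ₜ[A] evT n) = 0 := by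
      have h3 : (1 : C) ⊗ₜ[A] evT n = n - T n' := by rw [hn']; abel
      rw [h3, map_sub, hn, ← Module.End.mul_apply, ← pow_succ, hTp]
      simp
    have h4 := hlead _ h2
    rw [h4, tmul_zero, sub_zero] at hn'
    exact ⟨n', hn'⟩
  have h2 := nu.val_nil (C ⊗[A] M) T q hTp hker
  -- the value of the kernel
  have hN : IsNoetherian C (C ⊗[A] M) := isNoetherian_of_isNoetherianRing_of_finite C _
  have h3 : nu.val (LinearMap.ker T) = nu.val M := by
    have e1 := nu.val_ker_range T
    have e2 := nu.val_ker_range (evT (A := A) (C := C) (M := M))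
    have e3 : LinearMap.ker (evT (A := A) (C := C) (M := M)) = LinearMap.range T := by
      apply le_antisymm
      · intro n hn
        rw [LinearMap.mem_ker] at hn
        have h4 := hrange n
        rw [hn, tmul_zero, sub_zero] at h4
        exact h4
      · rintro _ ⟨n, rfl⟩
        rw [LinearMap.mem_ker]
        exact evT_dfT x n
    have e4 : LinearMap.range (evT (A := A) (C := C) (M := M)) = ⊤ := by
      rw [LinearMap.range_eq_top]
      intro m
      exact ⟨(1 : C) ⊗ₜ m, by rw [evT_tmul, one_smul]⟩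
    rw [e3, e4, nu.val_congr (Submodule.topEquiv (R := C) (M := M)), e1, add_comm] at e2
    exact add_left_cancel e2
  rw [h1, h3] at h2
  rcases mul_eq_zero.mp h2.symm with h4 | h4
  · exfalso
    exact Nat.cast_ne_zero.mpr (Nat.succ_ne_zero q) h4
  · exact h4

end Rad

open MvPolynomial

/-- (RAD) radicial covers, any characteristic `p` field, any `W`. -/
theorem rad_rule (κ : Type u) [Field κ] (p : ℕ) [Fact p.Prime] [CharP κ p] {σ : Type} [Finite σ]
    [DecidableEq σ] (i : σ) (W : MvPolynomial σ κ)
    (h : ZeroProp (MvPolynomial σ κ ⧸ Ideal.span {W})) :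
    ZeroProp (MvPolynomial σ κ ⧸ Ideal.span {powX κ i p W}) := by
  have hp : p.Prime := Fact.out
  obtain ⟨φ, hφ, hsurj, hinj⟩ := powX_basis κ i p hp.pos W
  let _ : Algebra (MvPolynomial σ κ ⧸ Ideal.span {W})
    (MvPolynomial σ κ ⧸ Ideal.span {powX κ i p W}) := φ.toAlgebra
  let x : MvPolynomial σ κ ⧸ Ideal.span {powX κ i p W} := Ideal.Quotient.mk _ (X i)
  have hli : LinearIndependent (MvPolynomial σ κ ⧸ Ideal.span {W}) (fun j : Fin p => x ^ (j : ℕ)) := by
    rw [Fintype.linearIndependent_iff]
    intro g hg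
    refine hinj g ?_
    rw [← hg]
    rfl
  have hsp : ⊤ ≤ Submodule.span (MvPolynomial σ κ ⧸ Ideal.span {W})
      (Set.range (fun j : Fin p => x ^ (j : ℕ))) := by
    intro d _
    obtain ⟨u, rfl⟩ := hsurj d
    refine Submodule.sum_mem _ fun j _ => ?_
    exact Submodule.smul_mem _ (u j) (Submodule.subset_span ⟨j, rfl⟩)
  refine ZeroProp.rad p ?_ x (Module.Basis.mk hli hsp) (fun j => Module.Basis.mk_apply hli hsp j)
    (Ideal.Quotient.mk _ (X i)) ?_ h
  · have h1 : ((p : ℕ) : MvPolynomial σ κ ⧸ Ideal.span {powX κ i p W})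
        = Ideal.Quotient.mk _ (C ((p : ℕ) : κ)) := by
      rw [map_natCast, map_natCast]
    rw [h1, CharP.cast_eq_zero, C_0, map_zero]
  · show φ (Ideal.Quotient.mk _ (X i)) = x ^ p
    rw [hφ]
    show Ideal.Quotient.mk _ (powX κ i p (X i)) = (Ideal.Quotient.mk _ (X i)) ^ p
    rw [← map_pow]
    congr 1
    simp [powX]

/-- (DG) diagonal forms over finite fields, all exponents. -/
theorem diag_any (κ : Type u) [Field κ] [Finite κ] {σ : Type} [Fintype σ] [DecidableEq σ]
    (hodd : Odd (Fintype.card σ)) (n : σ → ℕ) (hn : ∀ j, 0 < n j) (c : σ → κ) (hc : ∀ j, c j ≠ 0) :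
    ZeroProp (MvPolynomial σ κ ⧸ Ideal.span {∑ j, C (c j) * X j ^ n j}) := by
  obtain ⟨p, hchar⟩ := CharP.exists κ
  have hp : p.Prime := CharP.char_is_prime κ p
  have hpF : Fact p.Prime := ⟨hp⟩
  have key : ∀ (s : ℕ) (n : σ → ℕ), (∀ j, 0 < n j) → ∑ j, n j ≤ s →
      ZeroProp (MvPolynomial σ κ ⧸ Ideal.span {∑ j, C (c j) * X j ^ n j}) := by
    intro s
    induction s with
    | zero =>
      intro n hn hs
      exfalso
      have hne : Nonempty σ := Fintype.card_pos_iff.mp hodd.pos
      obtain ⟨j⟩ := hne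
      have h1 := Finset.single_le_sum (f := n) (fun j _ => Nat.zero_le _) (Finset.mem_univ j)
      have h2 := hn j
      omega
    | succ s ih =>
      intro n hn hs
      by_cases H : ∃ i, p ∣ n i
      · obtain ⟨i, k, hk⟩ := H
        have hk0 : 0 < k := by
          rcases Nat.eq_zero_or_pos k with h | h
          · rw [h, mul_zero] at hk
            have := hn i
            omega
          · exact h
        have hlt : k < n i := by
          rw [hk]
          have := hp.two_le
          nlinarith
        have h1 : ∑ j, Function.update n i k j < ∑ j, n j := by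
          refine Finset.sum_lt_sum (fun j _ => ?_) ⟨i, Finset.mem_univ i, ?_⟩
          · by_cases hj : j = i
            · subst hj
              rw [Function.update_self]
              exact hlt.le
            · rw [Function.update_of_ne hj]
          · rw [Function.update_self]
            exact hlt
        have h2 := ih (Function.update n i k) (fun j => by
          by_cases hj : j = i
          · subst hj
            rw [Function.update_self]
            exact hk0
          · rw [Function.update_of_ne hj]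
            exact hn j) (by omega)
        have h3 := rad_rule κ p i _ h2
        have h4 : powX κ i p (∑ j, C (c j) * X j ^ (Function.update n i k j))
            = ∑ j, C (c j) * X j ^ n j := by
          rw [map_sum]
          refine Finset.sum_congr rfl fun j _ => ?_
          rw [map_mul, map_pow]
          by_cases hj : j = i
          · subst hj
            rw [Function.update_self, hk, pow_mul]
            simp [powX]
          · rw [Function.update_of_ne hj]
            simp [powX, hj]
        rw [h4] at h3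
        exact h3
      · have hn0 : ∀ i, (n i : κ) ≠ 0 := by
          intro i h
          rw [CharP.cast_eq_zero_iff κ p] at h
          exact H ⟨i, h⟩
        let e : σ ≃ Fin (Fintype.card σ) := Fintype.equivFin σ
        have hz : ZeroProp (MvPolynomial (Fin (Fintype.card σ)) κ ⧸
            Ideal.span {dform κ (c ∘ e.symm) (n ∘ e.symm)}) :=
          zp_finite (fun k _ _ N hN n m hnm lam h0 W _ _ _ => g0 k hN n m hnm lam h0 W) κ hodd
            (n ∘ e.symm) (fun i => hn0 _) (c ∘ e.symm) (fun i => hc _)
            (Ideal.Quotient.mkₐ κ _) Ideal.Quotient.mk_surjective Ideal.mk_ker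
        refine hz.of_equiv (Ideal.quotientEquiv _ _ (renameEquiv κ e).toRingEquiv ?_)
        rw [Ideal.map_span, Set.image_singleton]
        congr 2
        show dform κ (c ∘ e.symm) (n ∘ e.symm) = rename e (∑ j, C (c j) * X j ^ n j)
        unfold dform
        rw [map_sum, ← e.symm.sum_comp]
        refine Finset.sum_congr rfl fun j _ => ?_
        simp
  exact key _ n hn le_rfl

end Pool.Agent.HT51
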