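import Pool.Agent.HT51.ChC
import Pool.Agent.HT51.ChD
import Pool.Agent.HT51.ChE

/-!
# Fermat and chain type: the induction
-/

universe u

namespace Pool.Agent.HT51

open MvPolynomial

section restrict

variable {κ : Type u} [Field κ] {σ : Type} [Fintype σ] [DecidableEq σ]

/-- Restriction of the successor map to a subtype. -/
def nxS (P : σ → Prop) [DecidablePred P] (nx : σ → Option σ) : {j : σ // P j} → Option {j : σ // P j} :=
  fun j => (nx j.1).bind fun t => if h : P t then some ⟨t, h⟩ else none

lemma nxS_some {P : σ → Prop} [DecidablePred P] {nx : σ → Option σ} {j t : {j : σ // P j}}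
    (h : nxS P nx j = some t) : nx j.1 = some t.1 := by
  unfold nxS at h
  cases h1 : nx j.1 with
  | none => rw [h1] at h; exact absurd h (by simp)
  | some s =>
    rw [h1, Option.bind_some] at h
    by_cases h2 : P s
    · rw [dif_pos h2] at h
      have h3 := Option.some.inj h
      rw [← h3]
    · rw [dif_neg h2] at h
      exact absurd h (by simp)

lemma nxS_elim {P : σ → Prop} [DecidablePred P] {nx : σ → Option σ} (j : {j : σ // P j})
    (h : ∀ t, nx j.1 = some t → P t) :
    rename Subtype.val ((nxS P nx j).elim (1 : MvPolynomial {j : σ // P j} κ) X)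
      = (nx j.1).elim 1 X := by
  unfold nxS
  cases h1 : nx j.1 with
  | none => simp
  | some s =>
    rw [Option.bind_some, dif_pos (h s h1)]
    simp

lemma rename_cform (P : σ → Prop) [DecidablePred P] (c : σ → κ) (a : σ → ℕ) (nx : σ → Option σ)
    (h : ∀ j t, P j → nx j = some t → P t) :
    rename Subtype.val (cform (fun j : {j : σ // P j} => c j) (fun j => a j) (nxS P nx))
      = ∑ j ∈ Finset.univ.filter P, C (c j) * X j ^ a j * (nx j).elim 1 X := by
  unfold cform
  rw [map_sum, Finset.sum_subtype (Finset.univ.filter P) (p := P) (by simp)]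
  refine Finset.sum_congr rfl fun j _ => ?_
  rw [map_mul, map_mul, map_pow, rename_C, rename_X, nxS_elim j fun t ht => h j.1 t j.2 ht]

lemma cform_ne_zero [Nonempty σ] (c : σ → κ) (hc : ∀ j, c j ≠ 0) (a : σ → ℕ) (ha : ∀ j, 0 < a j)
    (nx : σ → Option σ) (r : σ → ℕ) (hr : ∀ j l, nx j = some l → r j < r l) :
    cform c a nx ≠ 0 := by
  obtain ⟨t, ht⟩ := Finite.exists_max r
  have hnx : nx t = none := by
    cases h : nx t with
    | none => rfl
    | some l => exact absurd (hr t l h) (not_lt.mpr (ht l))
  intro h
  have h1 := congrArg (eval fun j => if j = t then (1 : κ) else 0) h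
  unfold cform at h1
  rw [map_zero, map_sum, Finset.sum_eq_single t] at h1
  · rw [hnx] at h1
    simp at h1
    exact hc t h1
  · intro j _ hj
    rw [map_mul, map_mul, map_pow, eval_X, if_neg hj, zero_pow (ha j).ne', mul_zero, zero_mul]
  · intro h2; exact absurd (Finset.mem_univ t) h2

end restrict

/-- Additive functions for forms of Fermat and chain type over finite fields. -/
theorem cform_zp_aux (κ : Type u) [Field κ] [Finite κ] (m : ℕ) :
    ∀ {σ : Type} [Fintype σ] [DecidableEq σ]
    (_ : Odd (Fintype.card σ)) (c : σ → κ) (_ : ∀ j, c j ≠ 0) (a : σ → ℕ) (_ : ∀ j, 0 < a j)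
    (nx : σ → Option σ) (_ : ∀ i j l, nx i = some l → nx j = some l → i = j)
    (r : σ → ℕ) (_ : ∀ j l, nx j = some l → r j < r l)
    (_ : (Finset.univ.filter fun j => (nx j).isSome).card ≤ m),
    ZeroProp (MvPolynomial σ κ ⧸ Ideal.span {cform c a nx}) := by
  induction m with
  | zero =>
    intro σ _ _ hodd c hc a ha nx hinj r hr hm
    have hnx : ∀ j, nx j = none := by
      intro j
      have h1 : (Finset.univ.filter fun j => (nx j).isSome) = ∅ :=
        Finset.card_eq_zero.mp (Nat.le_zero.mp hm)
      cases h : nx j with
      | none => rfl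
      | some l =>
        have h2 : j ∈ (Finset.univ.filter fun j => (nx j).isSome) := by simp [h]
        rw [h1] at h2
        exact absurd h2 (Finset.notMem_empty _)
    have h3 : cform c a nx = ∑ j, C (c j) * X j ^ a j := by
      unfold cform
      refine Finset.sum_congr rfl fun j _ => ?_
      rw [hnx j]
      simp
    rw [h3]
    exact diag_any κ hodd a ha c hc
  | succ m ih =>
    intro σ _ _ hodd c hc a ha nx hinj r hr hm
    by_cases hem : (Finset.univ.filter fun j => (nx j).isSome) = ∅
    · exact ih hodd c hc a ha nx hinj r hr (by rw [hem]; simp)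
    obtain ⟨i, hi, hmin⟩ := Finset.exists_min_image _ r (Finset.nonempty_iff_ne_empty.mpr hem)
    have hi1 : (nx i).isSome := by simpa using hi
    obtain ⟨l, hl⟩ := Option.isSome_iff_exists.mp hi1
    -- `i` is not a successor
    have hns : ∀ j, nx j ≠ some i := by
      intro j hj
      have h1 := hr j i hj
      have h2 := hmin j (by simp [hj])
      omega
    have hil : i ≠ l := by
      intro h
      have := hr i l hl
      rw [h] at this
      exact lt_irrefl _ this
    -- the polynomial without `i`
    let gi : MvPolynomial {j : σ // j ≠ i} κ :=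
      cform (fun j => c j) (fun j => a j) (nxS (fun j => j ≠ i) nx)
    have hgi : rename Subtype.val gi
        = ∑ j ∈ Finset.univ.filter (fun j => j ≠ i), C (c j) * X j ^ a j * (nx j).elim 1 X :=
      rename_cform (fun j => j ≠ i) c a nx fun j t _ ht h => hns j (by rw [ht, h])
    have hW : cform c a nx = C (c i) * X i ^ a i * X l + rename Subtype.val gi := by
      rw [hgi]
      unfold cform
      rw [← Finset.add_sum_erase _ _ (Finset.mem_univ i), hl]
      congr 1
      refine Finset.sum_congr ?_ fun _ _ => rfl
      ext j
      simp
    -- the polynomial without `i, l`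
    let g0 : MvPolynomial {j : σ // j ≠ i ∧ j ≠ l} κ :=
      cform (fun j => c j) (fun j => a j) (nxS (fun j => j ≠ i ∧ j ≠ l) nx)
    have hg0 : rename Subtype.val g0
        = ∑ j ∈ Finset.univ.filter (fun j => j ≠ i ∧ j ≠ l), C (c j) * X j ^ a j *
          (nx j).elim 1 X := by
      refine rename_cform (fun j => j ≠ i ∧ j ≠ l) c a nx fun j t hj ht => ⟨?_, ?_⟩
      · intro h; exact hns j (by rw [ht, h])
      · intro h
        rw [h] at ht
        exact hj.1 (hinj j i l ht hl)
    have hcard : Fintype.card {j : σ // j ≠ i ∧ j ≠ l} + 2 = Fintype.card σ := by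
      have h1 : (Finset.univ.filter fun j : σ => j ≠ i ∧ j ≠ l).card
          = Fintype.card {j : σ // j ≠ i ∧ j ≠ l} := by
        rw [Fintype.card_subtype]
      have h2 : (Finset.univ.filter fun j : σ => j ≠ i ∧ j ≠ l)
          = (Finset.univ.erase i).erase l := by
        ext j
        simp [and_comm]
      rw [← h1, h2, Finset.card_erase_of_mem (by simp [hil.symm]),
        Finset.card_erase_of_mem (Finset.mem_univ i), Finset.card_univ]
      have h3 : 1 < Fintype.card σ := Fintype.one_lt_card_iff.mpr ⟨i, l, hil⟩
      omega
    have hodd' : Odd (Fintype.card {j : σ // j ≠ i ∧ j ≠ l}) := by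
      rw [← hcard] at hodd
      rcases hodd with ⟨s, hs⟩
      exact ⟨s - 1, by omega⟩
    have hne' : Nonempty {j : σ // j ≠ i ∧ j ≠ l} := by
      refine Fintype.card_pos_iff.mp ?_
      exact hodd'.pos
    have hzg : ZeroProp (MvPolynomial {j : σ // j ≠ i ∧ j ≠ l} κ ⧸ Ideal.span {g0}) := by
      refine ih hodd' _ (fun j => hc j) _ (fun j => ha j) _ ?_ (fun j => r j) ?_ ?_
      · intro j j' t hj hj'
        exact Subtype.ext (hinj j.1 j'.1 t.1 (nxS_some hj) (nxS_some hj'))
      · intro j t hj
        exact hr j.1 t.1 (nxS_some hj)
      · have h1 : ((Finset.univ.filter fun j : {j : σ // j ≠ i ∧ j ≠ l} =>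
            (nxS (fun j => j ≠ i ∧ j ≠ l) nx j).isSome).map (Function.Embedding.subtype _))
            ⊆ (Finset.univ.filter fun j => (nx j).isSome).erase i := by
          intro j hj
          obtain ⟨j', hj', rfl⟩ := Finset.mem_map.mp hj
          have h2 := (Finset.mem_filter.mp hj').2
          obtain ⟨t, ht⟩ := Option.isSome_iff_exists.mp h2
          refine Finset.mem_erase.mpr ⟨j'.2.1, ?_⟩
          refine Finset.mem_filter.mpr ⟨Finset.mem_univ _, ?_⟩
          show (nx j'.1).isSome
          rw [nxS_some ht]
          rfl
        have h3 := Finset.card_le_card h1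
        rw [Finset.card_map, Finset.card_erase_of_mem (by simp [hl])] at h3
        omega
    -- the unfolded polynomial
    let a' : σ → ℕ := fun j => if j = l then a i * a l else a j
    let nx' : σ → Option σ := fun j => if j = i then none else nx j
    have hW3 : C (c i) * X i ^ a i + powX κ l (a i) (rename Subtype.val gi) = cform c a' nx' := by
      rw [hgi, map_sum]
      unfold cform
      rw [← Finset.add_sum_erase _ _ (Finset.mem_univ i)]
      congr 1
      · have h1 : a' i = a i := if_neg hil
        have h2 : nx' i = none := if_pos rfl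
        rw [h1, h2]
        simp
      · refine Finset.sum_congr ?_ fun j hj => ?_
        · ext j; simp
        · have hji : j ≠ i := by simpa using hj
          have h2 : nx' j = nx j := if_neg hji
          rw [h2, map_mul, map_mul, map_pow, powX_C]
          congr 1
          · by_cases hjl : j = l
            · have h1 : a' j = a i * a l := if_pos hjl
              rw [h1, hjl, powX_X_self, ← pow_mul]
            · have h1 : a' j = a j := if_neg hjl
              rw [h1, powX_X_ne κ _ hjl]
          · cases h4 : nx j with
            | none => simp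
            | some t =>
              have htl : t ≠ l := by
                intro h5
                rw [h5] at h4
                exact hji (hinj j i l h4 hl)
              show powX κ l (a i) (X t) = X t
              rw [powX_X_ne κ _ htl]
    have hz3 : ZeroProp (MvPolynomial σ κ ⧸
        Ideal.span {C (c i) * X i ^ a i + powX κ l (a i) (rename Subtype.val gi)}) := by
      rw [hW3]
      refine ih hodd c hc a' ?_ nx' ?_ r ?_ ?_
      · intro j
        show 0 < (if j = l then a i * a l else a j)
        split_ifs
        · exact Nat.mul_pos (ha i) (ha l)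
        · exact ha j
      · intro j j' t hj hj'
        by_cases h1 : j = i
        · have : nx' j = none := if_pos h1
          rw [this] at hj; exact absurd hj (by simp)
        by_cases h2 : j' = i
        · have : nx' j' = none := if_pos h2
          rw [this] at hj'; exact absurd hj' (by simp)
        have h3 : nx' j = nx j := if_neg h1
        have h4 : nx' j' = nx j' := if_neg h2
        rw [h3] at hj
        rw [h4] at hj'
        exact hinj j j' t hj hj'
      · intro j t hj
        by_cases h1 : j = i
        · have : nx' j = none := if_pos h1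
          rw [this] at hj; exact absurd hj (by simp)
        have h3 : nx' j = nx j := if_neg h1
        rw [h3] at hj
        exact hr j t hj
      · have h1 : (Finset.univ.filter fun j => (nx' j).isSome)
            ⊆ (Finset.univ.filter fun j => (nx j).isSome).erase i := by
          intro j hj
          have h2 := (Finset.mem_filter.mp hj).2
          by_cases h3 : j = i
          · have : nx' j = none := if_pos h3
            rw [this] at h2; exact absurd h2 (by simp)
          · have h4 : nx' j = nx j := if_neg h3
            rw [h4] at h2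
            exact Finset.mem_erase.mpr ⟨h3, Finset.mem_filter.mpr ⟨Finset.mem_univ _, h2⟩⟩
        have h3 := Finset.card_le_card h1
        rw [Finset.card_erase_of_mem (by simp [hl])] at h3
        omega
    have hK := unfold_rule κ i l hil (a i) (ha i) (c i) gi hz3
    -- the killing
    have hV : ∃ V : MvPolynomial σ κ, cform c a nx = X l * V + rename Subtype.val g0 := by
      refine ⟨C (c i) * X i ^ a i + C (c l) * X l ^ (a l - 1) * (nx l).elim 1 X, ?_⟩
      rw [hW, hgi, hg0]
      have h1 : (Finset.univ.filter fun j : σ => j ≠ i)
          = insert l (Finset.univ.filter fun j : σ => j ≠ i ∧ j ≠ l) := by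
        ext j
        simp only [Finset.mem_filter, Finset.mem_univ, true_and, Finset.mem_insert]
        constructor
        · intro h
          by_cases h2 : j = l
          · exact Or.inl h2
          · exact Or.inr ⟨h, h2⟩
        · rintro (h | h)
          · rw [h]; exact hil.symm
          · exact h.1
      rw [h1, Finset.sum_insert (by simp)]
      have h2 : (X l ^ a l : MvPolynomial σ κ) = X l * X l ^ (a l - 1) := by
        rw [← pow_succ', Nat.sub_add_cancel (ha l)]
      rw [h2]
      ring
    obtain ⟨V, hV⟩ := hV
    have hg0ne : g0 ≠ 0 :=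
      cform_ne_zero (fun j : {j : σ // j ≠ i ∧ j ≠ l} => c j) (fun j => hc j) (fun j => a j)
        (fun j => ha j) _ (fun j => r j) fun j t hj => hr j.1 t.1 (nxS_some hj)
    intro lam h0 W _ _ _
    have hkill := kill_rule κ i l hil (cform c a nx) V g0 hV hg0ne hzg lam h0
    have hK' : ZeroPropK (MvPolynomial σ κ ⧸ Ideal.span {cform c a nx})
        (Ideal.Quotient.mk _ (X l)) := by
      rw [hW]
      exact hK
    exact hK' lam h0 hkill W

theorem cform_zp (κ : Type u) [Field κ] [Finite κ] {σ : Type} [Fintype σ] [DecidableEq σ]
    (hodd : Odd (Fintype.card σ)) (c : σ → κ) (hc : ∀ j, c j ≠ 0) (a : σ → ℕ) (ha : ∀ j, 0 < a j)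
    (nx : σ → Option σ) (hinj : ∀ i j l, nx i = some l → nx j = some l → i = j)
    (r : σ → ℕ) (hr : ∀ j l, nx j = some l → r j < r l) :
    ZeroProp (MvPolynomial σ κ ⧸ Ideal.span {cform c a nx}) :=
  cform_zp_aux κ _ hodd c hc a ha nx hinj r hr le_rfl

end Pool.Agent.HT51
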