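import Pool.Agent.HT51.LinkZ

/-!
# Spreading out to a finite subfield, general form
-/

universe u

namespace Pool.Agent.HT51

open TensorProduct MvPolynomial

lemma scl_one {κ : Type u} [Field κ] {σ : Type} (p : MvPolynomial σ κ) :
    scl (fun _ => (1 : κ)) p = p := by
  have h1 : scl (fun _ : σ => (1 : κ)) = RingHom.id _ := by
    refine MvPolynomial.ringHom_ext ?_ ?_
    · intro a
      simp
    · intro i
      rw [scl_X, C_1, one_mul, RingHom.id_apply]
  rw [h1, RingHom.id_apply]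

/-- descent along `MvPolynomial σ K → MvPolynomial σ κ` -/
theorem zp_alg_aux {κ K : Type u} [Field κ] [Field K] [Algebra K κ] {σ : Type}
    (f0 : MvPolynomial σ K) (hz : ZeroProp (MvPolynomial σ K ⧸ Ideal.span {f0}))
    {Q : Type u} [CommRing Q] (π : MvPolynomial σ κ →+* Q) (l : Q → MvPolynomial σ κ)
    (hl : ∀ a, π (l a) = a)
    (hker : RingHom.ker π = Ideal.span {map (algebraMap K κ) f0}) (S : Finset Q)
    (hS : ∀ a ∈ S, l a ∈ Set.range (map (σ := σ) (algebraMap K κ))) :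
    ∃ (B : Type u) (_ : CommRing B) (_ : Algebra B Q),
      Module.Flat B Q ∧ ZeroProp B ∧ ∀ a ∈ S, ∃ b : B, algebraMap B Q b = a := by
  have hg : scl (fun _ => (1 : κ)) (map (algebraMap K κ) f0) = map (algebraMap K κ) f0 :=
    scl_one _
  obtain ⟨ι, Ψ, h, hι⟩ := tw_exists f0 (map (algebraMap K κ) f0) (fun _ => (1 : κ))
    (fun _ => one_ne_zero) hg (Ideal.Quotient.mkₐ K (Ideal.span {f0}))
    Ideal.Quotient.mk_surjective Ideal.mk_ker π (fun a => ⟨l a, hl a⟩) hker
  obtain ⟨hA, hAι, hfl⟩ := tw_flat ι Ψ h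
  refine ⟨MvPolynomial σ K ⧸ Ideal.span {f0}, inferInstance, hA, hfl, hz, fun a ha => ?_⟩
  obtain ⟨p, hp⟩ := hS a ha
  refine ⟨Ideal.Quotient.mkₐ K (Ideal.span {f0}) p, ?_⟩
  rw [hAι, hι]
  simp only [inv_one]
  rw [scl_one, hp, hl]

/-- (ALG) as `zp_alg` (LinkZ.lean): spreading out to a finite subfield. General form. -/
theorem zp_alg_gen (κ : Type u) [Field κ] (hκ : ∀ a : κ, a ≠ 0 → ∃ m : ℕ, 0 < m ∧ a ^ m = 1)
    {σ : Type} [Finite σ] (f : MvPolynomial σ κ)
    (h : ∀ (k : Type u) [Field k] [Finite k] (ι : k →+* κ) (f0 : MvPolynomial σ k),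
      map ι f0 = f → ZeroProp (MvPolynomial σ k ⧸ Ideal.span {f0}))
    {Q : Type u} [CommRing Q] (π : MvPolynomial σ κ →+* Q)
    (hπ : Function.Surjective π) (hker : RingHom.ker π = Ideal.span {f}) :
    ZeroProp Q := by
  classical
  have hQ : IsNoetherianRing Q := isNoetherianRing_of_surjective _ _ π hπ
  refine ZeroProp.of_flat fun S => ?_
  choose l hl using hπ
  -- the coefficients
  have hT : ((f.coeffs : Set κ) ∪ ⋃ a ∈ S, ((l a).coeffs : Set κ)).Finite := by
    refine (Finset.finite_toSet _).union ?_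
    exact Set.Finite.biUnion S.finite_toSet fun a _ => Finset.finite_toSet _
  obtain ⟨K, hK, hTK⟩ := exists_small κ hκ _ hT
  have hf0 : f ∈ Set.range (map (σ := σ) (algebraMap K κ)) := by
    refine mem_range_map_iff_coeffs_subset.mpr ?_
    intro x hx
    exact ⟨⟨x, hTK (Or.inl hx)⟩, rfl⟩
  obtain ⟨f0, hf0⟩ := hf0
  refine zp_alg_aux (κ := κ) (K := K) f0 (h K (algebraMap K κ) f0 hf0) π l hl ?_ S ?_
  · rw [hf0, hker]
  · intro a ha
    refine mem_range_map_iff_coeffs_subset.mpr ?_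
    intro x hx
    refine ⟨⟨x, hTK (Or.inr ?_)⟩, rfl⟩
    simp only [Set.mem_iUnion]
    exact ⟨a, ha, hx⟩

end Pool.Agent.HT51
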