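import Pool.Agent.HT21.TorFin

/-!
# Lengths of Tor and passage to the completion

`torLen_flat`: for a flat local extension `A → B` with `m_A B = m_B`, the length of
`Tor_i^B(B ⊗ L, B ⊗ M)` is the length of `Tor_i^A(L, M)`, `i > 0`.

`of_completion`: the case of the completion, for any ring `Q` isomorphic to the completion of `A`.
-/

universe u

namespace Pool.Agent.HT51

open IsLocalRing Pool.Agent.HT21 TensorProduct

namespace Cpl

section Flat

variable {A B : Type u} [CommRing A] [CommRing B] [Algebra A B]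

/-- `B ⊗ A ^ r = B ^ r`. -/
noncomputable def th (A B : Type u) [CommRing A] [CommRing B] [Algebra A B] (r : ℕ) :
    B ⊗[A] (Fin r → A) ≃ₗ[B] (Fin r → B) :=
  TensorProduct.piScalarRight A B B (Fin r)

lemma th_tmul (r : ℕ) (b : B) (v : Fin r → A) (k : Fin r) : th A B r (b ⊗ₜ v) k = v k • b := by
  simp [th]

lemma th_mact {p q : ℕ} (D : Matrix (Fin p) (Fin q) A) (x : B ⊗[A] (Fin q → A)) :
    th A B p ((mact D A).lTensor B x) = mact (D.map (algebraMap A B)) B (th A B q x) := by
  induction x using TensorProduct.induction_on with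
  | zero => simp
  | add x y hx hy => simp only [map_add, hx, hy]
  | tmul b v =>
    funext k
    rw [LinearMap.lTensor_tmul, th_tmul, mact_apply, mact_apply, Finset.sum_smul]
    refine Finset.sum_congr rfl fun l _ => ?_
    rw [th_tmul, Matrix.map_apply, smul_eq_mul, smul_eq_mul, mul_smul, Algebra.smul_def]

lemma ex_base [Module.Flat A B] {p q s : ℕ} (D : Matrix (Fin p) (Fin q) A)
    (D' : Matrix (Fin q) (Fin s) A)
    (h : ∀ c : Fin q → A, mact D A c = 0 ↔ ∃ c', mact D' A c' = c) (c : Fin q → B) :
    mact (D.map (algebraMap A B)) B c = 0 ↔ ∃ c', mact (D'.map (algebraMap A B)) B c' = c := by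
  have h1 : Function.Exact (mact D' A) (mact D A) := fun y => h y
  have h2 := Module.Flat.lTensor_exact B h1
  have h3 := h2 ((th A B q).symm c)
  constructor
  · intro h4
    have h5 : (mact D A).lTensor B ((th A B q).symm c) = 0 := by
      apply (th A B p).injective
      rw [th_mact, LinearEquiv.apply_symm_apply, h4, map_zero]
    obtain ⟨y, hy⟩ := h3.1 h5
    refine ⟨th A B s y, ?_⟩
    rw [← th_mact, hy, LinearEquiv.apply_symm_apply]
  · rintro ⟨c', rfl⟩
    have h5 : (mact D A).lTensor B ((mact D' A).lTensor B ((th A B s).symm c')) = 0 :=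
      (h2 _).2 ⟨_, rfl⟩
    have h6 := congrArg (th A B p) h5
    rw [th_mact, th_mact, LinearEquiv.apply_symm_apply, map_zero] at h6
    exact h6

/-- Base change of a resolution by matrices. -/
noncomputable def baseRes [Module.Flat A B] {V : Type u} [AddCommGroup V] [Module A V] (P : MatRes A V) :
    MatRes B (B ⊗[A] V) where
  r := P.r
  D i := (P.D i).map (algebraMap A B)
  e k := 1 ⊗ₜ P.e k
  surj v := by
    induction v using TensorProduct.induction_on with
    | zero => exact ⟨0, by simp⟩
    | add x y hx hy =>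
      obtain ⟨c, hc⟩ := hx
      obtain ⟨c', hc'⟩ := hy
      exact ⟨c + c', by simp only [Pi.add_apply, add_smul, Finset.sum_add_distrib, hc, hc']⟩
    | tmul b v =>
      obtain ⟨c, hc⟩ := P.surj v
      refine ⟨fun k => c k • b, ?_⟩
      rw [← hc, TensorProduct.tmul_sum]
      refine Finset.sum_congr rfl fun k _ => ?_
      rw [TensorProduct.smul_tmul', smul_eq_mul, mul_one, TensorProduct.tmul_smul,
        TensorProduct.smul_tmul']
  ex0 c := by
    let ε : (Fin (P.r 0) → A) →ₗ[A] V := Fintype.linearCombination A P.e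
    have hε : ∀ c, ε c = ∑ k, c k • P.e k := fun c => by
      simp [ε, Fintype.linearCombination_apply]
    have h1 : Function.Exact (mact (P.D 0) A) ε := fun y => by
      rw [hε]
      exact P.ex0 y
    have h0 : Function.Surjective ε := fun v => by
      obtain ⟨c, hc⟩ := P.surj v
      exact ⟨c, by rw [hε, hc]⟩
    have h2 : Function.Exact ((mact (P.D 0) A).lTensor B) (ε.lTensor B) := lTensor_exact B h1 h0
    have h3 : ∀ x : B ⊗[A] (Fin (P.r 0) → A),
        ε.lTensor B x = ∑ k, (th A B (P.r 0) x k) • ((1 : B) ⊗ₜ[A] P.e k) := by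
      intro x
      induction x using TensorProduct.induction_on with
      | zero => simp
      | add x y hx hy => simp only [map_add, hx, hy, Pi.add_apply, add_smul, Finset.sum_add_distrib]
      | tmul b v =>
        rw [LinearMap.lTensor_tmul, hε, TensorProduct.tmul_sum]
        refine Finset.sum_congr rfl fun k _ => ?_
        rw [th_tmul, TensorProduct.smul_tmul', smul_eq_mul, mul_one, TensorProduct.tmul_smul,
          TensorProduct.smul_tmul']
    have h4 := h3 ((th A B (P.r 0)).symm c)
    rw [LinearEquiv.apply_symm_apply] at h4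
    rw [← h4, h2]
    constructor
    · rintro ⟨y, hy⟩
      refine ⟨th A B (P.r 1) y, ?_⟩
      rw [← th_mact, hy, LinearEquiv.apply_symm_apply]
    · rintro ⟨c', hc'⟩
      refine ⟨(th A B (P.r 1)).symm c', ?_⟩
      apply (th A B (P.r 0)).injective
      rw [th_mact, LinearEquiv.apply_symm_apply, LinearEquiv.apply_symm_apply, hc']
  ex i c := ex_base (P.D i) (P.D (i + 1)) (P.ex i) c

/-- The kernel modulo the image. -/
abbrev QH {R : Type u} [CommRing R] {p q s : ℕ} (φ : Matrix (Fin p) (Fin q) R)
    (ψ : Matrix (Fin q) (Fin s) R) (W : Type u) [AddCommGroup W] [Module R W] : Type u :=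
  ↥(LinearMap.ker (mact φ W)) ⧸ (LinearMap.range (mact ψ W)).submoduleOf (LinearMap.ker (mact φ W))

/-- Base change of the kernel modulo the image. -/
theorem qh_base [Module.Flat A B] {p q s : ℕ} (φ : Matrix (Fin p) (Fin q) A)
    (ψ : Matrix (Fin q) (Fin s) A) (W : Type u) [AddCommGroup W] [Module A W]
    (W' : Type u) [AddCommGroup W'] [Module B W'] [Module A W'] [IsScalarTower A B W']
    (ι : W →ₗ[A] W') (hι : IsBaseChange B ι)
    (h : ∀ w, mact φ W (mact ψ W w) = 0) :
    ∃ e : QH φ ψ W →ₗ[A] QH (φ.map (algebraMap A B)) (ψ.map (algebraMap A B)) W',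
      IsBaseChange B e := by
  have hcomm : ∀ {p q : ℕ} (χ : Matrix (Fin p) (Fin q) A) (w : Fin q → W),
      (ι.compLeft (Fin p)) (mact χ W w) =
        mact (χ.map (algebraMap A B)) W' ((ι.compLeft (Fin q)) w) := by
    intro p q χ w
    funext k
    show ι (∑ l, χ k l • w l) = ∑ l, (χ.map (algebraMap A B)) k l • ι (w l)
    rw [map_sum]
    refine Finset.sum_congr rfl fun l _ => ?_
    rw [map_smul, Matrix.map_apply, algebraMap_smul]
  have hpow : ∀ r : ℕ, IsBaseChange B (ι.compLeft (Fin r)) := fun r =>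
    IsBaseChange.finitePow (Fin r) hι
  have h' : ∀ w, mact (φ.map (algebraMap A B)) W'
      (mact (ψ.map (algebraMap A B)) W' w) = 0 := by
    intro w
    let g : (Fin s → W') →ₗ[B] (Fin p → W') :=
      (mact (φ.map (algebraMap A B)) W') ∘ₗ (mact (ψ.map (algebraMap A B)) W')
    have hg : g = 0 := by
      refine (hpow s).algHom_ext g 0 fun w => ?_
      show mact (φ.map (algebraMap A B)) W'
        (mact (ψ.map (algebraMap A B)) W' ((ι.compLeft (Fin s)) w)) = 0
      rw [← hcomm, ← hcomm, h, map_zero]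
    exact LinearMap.congr_fun hg w
  -- the kernels
  let h₁ : ↥(LinearMap.ker (mact φ W)) →ₗ[A]
      ↥(LinearMap.ker (mact (φ.map (algebraMap A B)) W')) :=
    { toFun := fun x => ⟨(ι.compLeft (Fin q)) x.1, by
        rw [LinearMap.mem_ker, ← hcomm, LinearMap.mem_ker.1 x.2, map_zero]⟩
      map_add' := fun x y => Subtype.ext (by
        show (ι.compLeft (Fin q)) (x.1 + y.1) = _
        rw [map_add]
        rfl)
      map_smul' := fun t x => Subtype.ext (by
        show (ι.compLeft (Fin q)) (t • x.1) = _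
        rw [map_smul]
        rfl) }
  have hb₁ : IsBaseChange B h₁ := by
    refine IsBaseChange.of_left_exact B h₁ (ι.compLeft (Fin q)) (ι.compLeft (Fin p))
      (f := (LinearMap.ker (mact φ W)).subtype) (g := mact φ W)
      (f' := (LinearMap.ker (mact (φ.map (algebraMap A B)) W')).subtype)
      (g' := mact (φ.map (algebraMap A B)) W') ?_ ?_ (hpow q) (hpow p) ?_ ?_ ?_ ?_
    · rfl
    · exact LinearMap.ext fun w => hcomm φ w
    · exact LinearMap.exact_subtype_ker_map _
    · exact Subtype.val_injective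
    · exact LinearMap.exact_subtype_ker_map _
    · exact Subtype.val_injective
  -- the quotients
  let f₁ : (Fin s → W) →ₗ[A] ↥(LinearMap.ker (mact φ W)) :=
    LinearMap.codRestrict _ (mact ψ W) fun w => LinearMap.mem_ker.2 (h w)
  let f₂ : (Fin s → W') →ₗ[B] ↥(LinearMap.ker (mact (φ.map (algebraMap A B)) W')) :=
    LinearMap.codRestrict _ (mact (ψ.map (algebraMap A B)) W')
      fun w => LinearMap.mem_ker.2 (h' w)
  let P := (LinearMap.range (mact ψ W)).submoduleOf (LinearMap.ker (mact φ W))
  let Q := (LinearMap.range (mact (ψ.map (algebraMap A B)) W')).submoduleOf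
    (LinearMap.ker (mact (φ.map (algebraMap A B)) W'))
  have hsub : ∀ x : ↥(LinearMap.ker (mact φ W)), x ∈ P → h₁ x ∈ Q := by
    rintro x ⟨w, hw⟩
    exact ⟨(ι.compLeft (Fin s)) w, by rw [← hcomm, hw]; rfl⟩
  let e₀ : (↥(LinearMap.ker (mact φ W)) ⧸ P) →ₗ[A]
      (↥(LinearMap.ker (mact (φ.map (algebraMap A B)) W')) ⧸ Q.restrictScalars A) :=
    P.mapQ (Q.restrictScalars A) h₁ hsub
  let e := (Submodule.Quotient.restrictScalarsEquiv A Q).toLinearMap ∘ₗ e₀
  refine ⟨e, IsBaseChange.of_right_exact B (ι.compLeft (Fin s)) h₁ e (f := f₁)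
    (g := P.mkQ) (f' := f₂) (g' := Q.mkQ) ?_ ?_ (hpow s) hb₁ ?_ ?_ ?_ ?_⟩
  · refine LinearMap.ext fun w => Subtype.ext ?_
    exact hcomm ψ w
  · exact LinearMap.ext fun w => rfl
  · intro x
    constructor
    · intro hx
      have hx' : x ∈ P := (Submodule.Quotient.mk_eq_zero P).1 hx
      obtain ⟨w, hw⟩ := hx'
      exact ⟨w, Subtype.ext hw⟩
    · rintro ⟨w, rfl⟩
      exact (Submodule.Quotient.mk_eq_zero P).2 ⟨w, rfl⟩
  · exact Submodule.mkQ_surjective P
  · intro x
    constructor
    · intro hx
      have hx' : x ∈ Q := (Submodule.Quotient.mk_eq_zero Q).1 hx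
      obtain ⟨w, hw⟩ := hx'
      exact ⟨w, Subtype.ext hw⟩
    · rintro ⟨w, rfl⟩
      exact (Submodule.Quotient.mk_eq_zero Q).2 ⟨w, rfl⟩
  · exact Submodule.mkQ_surjective Q

end Flat

/-- Flat local base change with `m_A B = m_B` does not change the length of Tor. -/
theorem torLen_flat {A B : Type u} [CommRing A] [IsNoetherianRing A] [IsLocalRing A] [CommRing B]
    [IsLocalRing B] [Algebra A B] [Module.Flat A B] [IsLocalHom (algebraMap A B)]
    (hm : (maximalIdeal A).map (algebraMap A B) = maximalIdeal B)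
    (L M : Type u) [AddCommGroup L] [Module A L] [AddCommGroup M] [Module A M] [Module.Finite A M]
    (i : ℕ) : torLen B (i + 1) (B ⊗[A] L) (B ⊗[A] M) = torLen A (i + 1) L M := by
  obtain ⟨P⟩ := exists_matRes A M
  rw [torLen_matRes P L i, torLen_matRes (baseRes (B := B) P) (B ⊗[A] L) i]
  have hz : ∀ w, mact (P.D i) L (mact (P.D (i + 1)) L w) = 0 := by
    intro w
    exact congrArg (fun g => g.hom w) (mact_comp_zero P L i)
  obtain ⟨e, he⟩ := qh_base (B := B) (P.D i) (P.D (i + 1)) L (B ⊗[A] L) (TensorProduct.mk A B L 1)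
    (TensorProduct.isBaseChange A L B) hz
  have h1 := he.equiv.length_eq
  have h2 := IsLocalRing.length_baseChange A B (↥(LinearMap.ker (mact (P.D i) L)) ⧸
        (LinearMap.range (mact (P.D (i + 1)) L)).submoduleOf (LinearMap.ker (mact (P.D i) L)))
  have h3 : Module.length B (B ⧸ maximalIdeal B) = 1 :=
    Module.length_eq_one_iff.2 (isSimpleModule_iff_quot_maximal.2
      ⟨maximalIdeal B, inferInstance, ⟨LinearEquiv.refl _ _⟩⟩)
  rw [hm, h3, mul_one] at h2
  exact h1.symm.trans h2

/-- The lengths of Tor over a Noetherian local ring are lengths of Tor over its completion. -/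
theorem of_completion {A Q : Type u} [CommRing A] [IsLocalRing A] [IsNoetherianRing A] [CommRing Q]
    (e : AdicCompletion (maximalIdeal A) A ≃+* Q) (L M : Type u) [AddCommGroup L] [Module A L]
    [Module.Finite A L] [AddCommGroup M] [Module A M] [Module.Finite A M] :
    ∃ (L' M' : Type u) (_ : AddCommGroup L') (_ : Module Q L') (_ : Module.Finite Q L')
      (_ : AddCommGroup M') (_ : Module Q M') (_ : Module.Finite Q M'),
      ∀ i, torLen Q (i + 1) L' M' = torLen A (i + 1) L M := by
  let _ : Algebra A Q := (e.toRingHom.comp (algebraMap A (AdicCompletion (maximalIdeal A) A))).toAlgebra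
  have : IsLocalRing Q := e.isLocalRing
  have hlin : (AdicCompletion (maximalIdeal A) A) ≃ₗ[A] Q :=
    { e.toAddEquiv with
      map_smul' := fun a x => by
        show e (a • x) = a • e x
        rw [Algebra.smul_def, Algebra.smul_def, map_mul]
        rfl }
  have : Module.Flat A Q := Module.Flat.of_linearEquiv hlin.symm
  have hmap : (maximalIdeal A).map (algebraMap A Q) = maximalIdeal Q := by
    have h1 : algebraMap A Q =
      (e : _ →+* Q).comp (algebraMap A (AdicCompletion (maximalIdeal A) A)) := rfl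
    rw [h1, ← Ideal.map_map, ← AdicCompletion.maximalIdeal_eq_map]
    exact IsLocalRing.eq_maximalIdeal (Ideal.map_isMaximal_of_equiv e)
  have : IsLocalHom (algebraMap A Q) :=
    ((IsLocalRing.local_hom_TFAE _).out 0 2).mpr hmap.le
  exact ⟨Q ⊗[A] L, Q ⊗[A] M, inferInstance, inferInstance, inferInstance, inferInstance,
    inferInstance, inferInstance, fun i => torLen_flat hmap L M i⟩

/-- Vanishing of theta passes from the completion to the ring. -/
theorem vanish_of_completion {A Q : Type u} [CommRing A] [IsLocalRing A] [IsNoetherianRing A]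
    [CommRing Q] (e : AdicCompletion (maximalIdeal A) A ≃+* Q) (d : ℕ)
    (h : ∀ (L M : Type u) [AddCommGroup L] [Module Q L] [AddCommGroup M] [Module Q M]
      [Module.Finite Q L] [Module.Finite Q M], ∀ i, d < i → torLen Q i L M ≠ ⊤ ∧
        torLen Q (i + 1) L M = torLen Q i L M)
    (L M : Type u) [AddCommGroup L] [Module A L] [AddCommGroup M] [Module A M]
    [Module.Finite A L] [Module.Finite A M] :
    (∀ i, d < i → torLen A i L M ≠ ⊤ ∧ torLen A (i + 1) L M = torLen A i L M) ∧
      ∀ n, d ≤ 2 * n → theta A n L M = 0 := by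
  obtain ⟨L', M', _, _, _, _, _, _, hT⟩ := of_completion e L M
  have h1 : ∀ i, d < i → torLen A i L M ≠ ⊤ ∧ torLen A (i + 1) L M = torLen A i L M := by
    intro i hi
    obtain ⟨j, rfl⟩ : ∃ j, i = j + 1 := ⟨i - 1, by omega⟩
    rw [← hT, ← hT]
    exact h L' M' (j + 1) hi
  refine ⟨h1, fun n hn => ?_⟩
  unfold theta
  rw [(h1 (2 * n + 1) (by omega)).2, sub_self]

end Cpl

end Pool.Agent.HT51
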