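import Pool.Agent.HT51.Defs

/-!
# `DiagRing` is free over `S = k[X j, j ≠ i]` with basis `1, x_i, .., x_i ^ (n i - 1)`
-/

universe u

namespace Pool.Agent.HT51

open MvPolynomial

section base

variable {k : Type u} [Field k] {N : ℕ}

/-- `k[X] ≃ S[X i]`, `S = k[X j, j ≠ i]`. -/
noncomputable def splitVar (k : Type u) [Field k] {N : ℕ} (i : Fin N) :
    MvPolynomial (Fin N) k ≃ₐ[k] Polynomial (MvPolynomial {j : Fin N // j ≠ i} k) :=
  (renameEquiv k (Equiv.optionSubtypeNe i).symm).trans (optionEquivLeft k _)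

lemma splitVar_X_self (i : Fin N) : splitVar k i (X i) = Polynomial.X := by
  unfold splitVar
  rw [AlgEquiv.trans_apply, renameEquiv_apply, rename_X]
  have : (Equiv.optionSubtypeNe i).symm i = none := by
    rw [Equiv.symm_apply_eq]; rfl
  rw [this, optionEquivLeft_X_none]

lemma splitVar_X_ne (i : Fin N) (j : {j : Fin N // j ≠ i}) :
    splitVar k i (X j.1) = Polynomial.C (X j) := by
  unfold splitVar
  rw [AlgEquiv.trans_apply, renameEquiv_apply, rename_X]
  have : (Equiv.optionSubtypeNe i).symm j.1 = some j := by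
    rw [Equiv.symm_apply_eq]; rfl
  rw [this, optionEquivLeft_X_some]

lemma splitVar_rename (i : Fin N) (p : MvPolynomial {j : Fin N // j ≠ i} k) :
    splitVar k i (rename Subtype.val p) = Polynomial.C p := by
  have h : ((splitVar k i : MvPolynomial (Fin N) k →ₐ[k] _).comp
      (rename Subtype.val : MvPolynomial {j : Fin N // j ≠ i} k →ₐ[k] MvPolynomial (Fin N) k))
      = (Polynomial.CAlgHom : MvPolynomial {j : Fin N // j ≠ i} k →ₐ[
          MvPolynomial {j : Fin N // j ≠ i} k] _).restrictScalars k := by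
    refine algHom_ext fun j => ?_
    rw [AlgHom.comp_apply, rename_X]
    exact splitVar_X_ne i j
  exact congrArg (fun f => f p) h

lemma splitVar_symm_X (i : Fin N) : (splitVar k i).symm Polynomial.X = X i := by
  rw [AlgEquiv.symm_apply_eq, splitVar_X_self]

lemma splitVar_symm_C (i : Fin N) (p : MvPolynomial {j : Fin N // j ≠ i} k) :
    (splitVar k i).symm (Polynomial.C p) = rename Subtype.val p := by
  rw [AlgEquiv.symm_apply_eq, splitVar_rename]

variable {n : Fin N → ℕ}

lemma splitVar_diag (i : Fin N) : splitVar k i (diag k n) =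
    Polynomial.X ^ n i + Polynomial.C (∑ j : {j : Fin N // j ≠ i}, X j ^ n j) := by
  classical
  unfold diag
  rw [map_sum]
  rw [Fintype.sum_eq_add_sum_subtype_ne _ i, map_pow, splitVar_X_self, map_sum]
  congr 1
  refine Finset.sum_congr rfl fun j _ => ?_
  rw [map_pow, splitVar_X_ne, map_pow]

lemma splitVar_diag_monic (hn : ∀ i, 0 < n i) (i : Fin N) :
    (splitVar k i (diag k n)).Monic := by
  rw [splitVar_diag]
  exact Polynomial.monic_X_pow_add_C _ (hn i).ne'

lemma splitVar_diag_natDegree (i : Fin N) :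
    (splitVar k i (diag k n)).natDegree = n i := by
  rw [splitVar_diag]
  exact Polynomial.natDegree_X_pow_add_C

/-- The image of a polynomial in `X i`. -/
lemma dmk_splitVar_symm_sum (i : Fin N) {m : ℕ} (p : Fin m → MvPolynomial {j : Fin N // j ≠ i} k) :
    dmk k n ((splitVar k i).symm (∑ j : Fin m, Polynomial.X ^ (j : ℕ) * Polynomial.C (p j)))
      = ∑ j : Fin m, dx k n i ^ (j : ℕ) * dmk k n (rename Subtype.val (p j)) := by
  rw [map_sum, map_sum]
  refine Finset.sum_congr rfl fun j _ => ?_
  rw [map_mul, map_mul, map_pow, map_pow, splitVar_symm_X, splitVar_symm_C]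

theorem diag_repr (hn : ∀ i, 0 < n i) (i : Fin N) (b : DiagRing k n) :
    ∃ p : Fin (n i) → MvPolynomial {j : Fin N // j ≠ i} k,
      b = ∑ j : Fin (n i), dx k n i ^ (j : ℕ) * dmk k n (rename Subtype.val (p j)) := by
  obtain ⟨P, rfl⟩ := Ideal.Quotient.mk_surjective b
  set f := splitVar k i (diag k n) with hf
  have hmon : f.Monic := splitVar_diag_monic hn i
  have hdeg : f.natDegree = n i := splitVar_diag_natDegree i
  set Q := splitVar k i P with hQ
  refine ⟨fun j => (Q %ₘ f).coeff j, ?_⟩
  rw [← dmk_splitVar_symm_sum]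
  have h1 : (∑ j : Fin (n i), Polynomial.X ^ (j : ℕ) * Polynomial.C ((Q %ₘ f).coeff j))
      = Q %ₘ f := by
    have hlt : (Q %ₘ f).natDegree < n i := by
      rw [← hdeg]
      refine Polynomial.natDegree_modByMonic_lt _ hmon ?_
      intro h
      have := hn i
      rw [← hdeg, h, Polynomial.natDegree_one] at this
      exact lt_irrefl _ this
    conv_rhs => rw [(Q %ₘ f).as_sum_range' (n i) hlt]
    rw [Finset.sum_range]
    refine Finset.sum_congr rfl fun j _ => ?_
    rw [← Polynomial.C_mul_X_pow_eq_monomial, mul_comm]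
  rw [h1, Ideal.Quotient.eq]
  have h2 : P - (splitVar k i).symm (Q %ₘ f) = diag k n * (splitVar k i).symm (Q /ₘ f) := by
    apply (splitVar k i).injective
    rw [map_sub, map_mul, AlgEquiv.apply_symm_apply, AlgEquiv.apply_symm_apply, ← hQ, ← hf]
    have := Polynomial.modByMonic_add_div Q f
    linear_combination -this
  rw [h2]
  exact Ideal.mul_mem_right _ _ (Ideal.subset_span rfl)

theorem diag_repr_unique (hn : ∀ i, 0 < n i) (i : Fin N)
    (p : Fin (n i) → MvPolynomial {j : Fin N // j ≠ i} k)
    (h : ∑ j : Fin (n i), dx k n i ^ (j : ℕ) * dmk k n (rename Subtype.val (p j)) = 0) :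
    ∀ j, p j = 0 := by
  set f := splitVar k i (diag k n) with hf
  have hmon : f.Monic := splitVar_diag_monic hn i
  have hdeg : f.natDegree = n i := splitVar_diag_natDegree i
  rw [← dmk_splitVar_symm_sum, Ideal.Quotient.eq_zero_iff_mem, Ideal.mem_span_singleton] at h
  obtain ⟨c, hc⟩ := h
  set Q := ∑ j : Fin (n i), Polynomial.X ^ (j : ℕ) * Polynomial.C (p j) with hQ
  have hdvd : f ∣ Q := by
    refine ⟨splitVar k i c, ?_⟩
    have := congrArg (splitVar k i) hc
    rwa [AlgEquiv.apply_symm_apply, map_mul] at this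
  have hQdeg : Q.degree < f.degree := by
    rw [Polynomial.degree_eq_natDegree hmon.ne_zero, hdeg]
    refine (Polynomial.degree_sum_le _ _).trans_lt ?_
    rw [Finset.sup_lt_iff (by exact WithBot.bot_lt_coe _)]
    intro j _
    rw [mul_comm]
    refine (Polynomial.degree_C_mul_X_pow_le _ _).trans_lt ?_
    exact_mod_cast j.2
  have hQ0 : Q = 0 := Polynomial.eq_zero_of_dvd_of_degree_lt hdvd hQdeg
  intro j
  have := congrArg (fun q => Polynomial.coeff q (j : ℕ)) hQ0
  simp only [hQ, Polynomial.finsetSum_coeff, Polynomial.coeff_zero] at this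
  rw [Finset.sum_eq_single j] at this
  · rwa [mul_comm, Polynomial.coeff_C_mul_X_pow, if_pos rfl] at this
  · intro l _ hl
    rw [mul_comm, Polynomial.coeff_C_mul_X_pow, if_neg]
    intro h
    exact hl (Fin.ext h.symm)
  · intro h; exact absurd (Finset.mem_univ _) h

end base

end Pool.Agent.HT51
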