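import Pool.Agent.HT51.TL

/-!
# Filtration by linear factors
-/

universe u

namespace Pool.Agent.HT51

open Matrix Polynomial

section span

variable {T : Type u} [CommRing T] {r : ℕ}

/-- The span form of `tl2`. -/
lemma tl2_span (A P : Matrix (Fin r) (Fin r) T) (h s u h1 h2 κ : T)
    (hPA : P * A = h • (1 : Matrix (Fin r) (Fin r) T)) (hs : h = s * u) (hu : u = h1 * h2)
    {ι : Type*} (δ : ι → T) (A' P' : ι → Matrix (Fin r) (Fin r) T)
    (hd : ∀ i, A' i * P + A * P' i = δ i • (1 : Matrix (Fin r) (Fin r) T))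
    (hκ : κ ∈ Ideal.span (Set.range δ))
    (hh1 : ∀ x : T, h1 * x = 0 → x = 0)
    (v : Fin r → T) (hv : h1 • v ∈ sm A u) : κ • v ∈ sm A h2 := by
  induction hκ using Submodule.span_induction with
  | mem x hx =>
    obtain ⟨i, rfl⟩ := hx
    exact tl2 A P (A' i) (P' i) h s u h1 h2 (δ i) hPA hs hu (hd i) hh1 v hv
  | zero => rw [zero_smul]; exact Submodule.zero_mem _
  | add x y _ _ hx hy => rw [add_smul]; exact Submodule.add_mem _ hx hy
  | smul a x _ hx => rw [smul_eq_mul, mul_smul]; exact Submodule.smul_mem _ _ hx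

end span

section

variable {C : Type u} [CommRing C] {r : ℕ}

lemma smul_mem_sm {T : Type u} [CommRing T] (A : Matrix (Fin r) (Fin r) T) (u : T)
    (v : Fin r → T) : u • v ∈ sm A u :=
  (mem_sm A u _).mpr ⟨0, v, by rw [Matrix.mulVec_zero, zero_add]⟩

/-- `C[X]^r/(A, u)` is finite over `C` for monic `u`. -/
lemma finite_quot_sm (A : Matrix (Fin r) (Fin r) C[X]) (u : C[X]) (hu : u.Monic) :
    Module.Finite C ((Fin r → C[X]) ⧸ sm A u) := by
  by_cases hnt : Nontrivial C
  swap
  · have : Subsingleton C := not_nontrivial_iff_subsingleton.mp hnt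
    have : Subsingleton ((Fin r → C[X]) ⧸ sm A u) := by
      have h2 : Subsingleton (Fin r → C[X]) := inferInstance
      exact ⟨fun x y => by
        obtain ⟨x, rfl⟩ := Submodule.Quotient.mk_surjective _ x
        obtain ⟨y, rfl⟩ := Submodule.Quotient.mk_surjective _ y
        rw [Subsingleton.elim x y]⟩
    infer_instance
  let d := u.natDegree
  let f : (Fin r → Fin d → C) →ₗ[C] ((Fin r → C[X]) ⧸ sm A u) :=
    ((sm A u).mkQ.restrictScalars C).comp
      (LinearMap.pi fun l => ∑ j : Fin d, (Polynomial.monomial (j : ℕ)).comp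
        ((LinearMap.proj j : (Fin d → C) →ₗ[C] C).comp
          (LinearMap.proj l : (Fin r → Fin d → C) →ₗ[C] (Fin d → C))))
  refine Module.Finite.of_surjective f ?_
  intro y
  obtain ⟨v, rfl⟩ := Submodule.Quotient.mk_surjective _ y
  refine ⟨fun l j => (v l %ₘ u).coeff j, ?_⟩
  have h1 : ∀ l, (∑ j : Fin d, Polynomial.monomial (j : ℕ) ((v l %ₘ u).coeff j)) = v l %ₘ u := by
    intro l
    by_cases h1u : u = 1
    · have hd : d = 0 := by rw [show d = u.natDegree from rfl, h1u, natDegree_one]
      rw [h1u, modByMonic_one]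
      simp
    · have hlt := Polynomial.natDegree_modByMonic_lt (v l) hu h1u
      rw [Fin.sum_univ_eq_sum_range (fun j => Polynomial.monomial j ((v l %ₘ u).coeff j)) d]
      exact (Polynomial.as_sum_range' (v l %ₘ u) d hlt).symm
  have h2 : f (fun l j => (v l %ₘ u).coeff j) = Submodule.Quotient.mk (fun l => v l %ₘ u) := by
    show Submodule.Quotient.mk _ = _
    congr 1
    funext l
    rw [← h1 l]
    simp [LinearMap.pi_apply]
  rw [h2, Submodule.Quotient.eq]
  have h3 : (fun l => v l %ₘ u) - v = u • (fun l => -(v l /ₘ u)) := by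
    funext l
    have := Polynomial.modByMonic_add_div (v l) u
    simp only [Pi.sub_apply, Pi.smul_apply, smul_eq_mul]
    linear_combination this
  rw [h3]
  exact smul_mem_sm A u _

/-- Evaluation identifies `C[X]^r/(A, X - b)` with `C^r/A(b)`. -/
noncomputable def quotEval (A : Matrix (Fin r) (Fin r) C[X]) (b : C) :
    ((Fin r → C[X]) ⧸ sm A (X - Polynomial.C b)) ≃ₗ[C] Cok (A.map (Polynomial.evalRingHom b)) := by
  let g : (Fin r → C[X]) →ₗ[C] (Fin r → C) :=
    LinearMap.pi fun l => (Polynomial.leval b).comp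
      (LinearMap.proj l : (Fin r → C[X]) →ₗ[C] C[X])
  have hg : ∀ v l, g v l = (v l).eval b := fun v l => rfl
  have hgA : ∀ w, g (A *ᵥ w) = (A.map (Polynomial.evalRingHom b)) *ᵥ g w := by
    intro w
    funext l
    rw [hg]
    simp only [Matrix.mulVec, dotProduct, Polynomial.eval_finset_sum, Polynomial.eval_mul,
      Matrix.map_apply, Polynomial.coe_evalRingHom, hg]
  let G : (Fin r → C[X]) →ₗ[C] Cok (A.map (Polynomial.evalRingHom b)) :=
    (LinearMap.range (A.map (Polynomial.evalRingHom b)).mulVecLin).mkQ.comp g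
  have hker : ∀ v, G v = 0 ↔ v ∈ (sm A (X - Polynomial.C b)).restrictScalars C := by
    intro v
    constructor
    · intro h
      have h1 : g v ∈ LinearMap.range (A.map (Polynomial.evalRingHom b)).mulVecLin :=
        (Submodule.Quotient.mk_eq_zero _).mp h
      obtain ⟨w, hw⟩ := (mem_range_mulVec _ _).mp h1
      -- lift w
      have h2 : ∀ l, (v - A *ᵥ (fun a => Polynomial.C (w a))) l = (X - Polynomial.C b) *
          ((v - A *ᵥ (fun a => Polynomial.C (w a))) l /ₘ (X - Polynomial.C b)) := by
        intro l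
        refine (Polynomial.mul_divByMonic_eq_iff_isRoot.mpr ?_).symm
        show ((v - A *ᵥ (fun a => Polynomial.C (w a))) l).eval b = 0
        have h3 : g (v - A *ᵥ (fun a => Polynomial.C (w a))) = 0 := by
          rw [map_sub, hgA, hw, sub_eq_zero]
          congr 1
          funext a
          rw [hg, Polynomial.eval_C]
        exact congrFun h3 l
      refine (mem_sm A _ v).mpr ⟨fun a => Polynomial.C (w a),
        fun l => (v - A *ᵥ (fun a => Polynomial.C (w a))) l /ₘ (X - Polynomial.C b), ?_⟩
      funext l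
      have := h2 l
      simp only [Pi.sub_apply, Pi.add_apply, Pi.smul_apply, smul_eq_mul] at this ⊢
      rw [← this]
      ring
    · intro h
      obtain ⟨w, z, hwz⟩ := (mem_sm A _ v).mp h
      refine (Submodule.Quotient.mk_eq_zero _).mpr ?_
      refine (mem_range_mulVec _ _).mpr ⟨g w, ?_⟩
      rw [hwz, map_add, hgA]
      have : g ((X - Polynomial.C b) • z) = 0 := by
        funext l
        rw [hg]
        simp
      rw [this, add_zero]
  have hsurj : Function.Surjective G := by
    intro y
    obtain ⟨w, rfl⟩ := Submodule.Quotient.mk_surjective _ y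
    refine ⟨fun a => Polynomial.C (w a), ?_⟩
    show Submodule.Quotient.mk _ = _
    congr 1
    funext l
    rw [hg, Polynomial.eval_C]
  have hkereq : LinearMap.ker G = (sm A (X - Polynomial.C b)).restrictScalars C := by
    ext v
    exact hker v
  exact (Submodule.Quotient.restrictScalarsEquiv C (sm A (X - Polynomial.C b))).symm.trans
    ((Submodule.quotEquivOfEq _ _ hkereq.symm).trans (G.quotKerEquivOfSurjective hsurj))

end

end Pool.Agent.HT51
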