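import Pool.Agent.HT51.Filt

/-!
# Filtration by linear factors: the value is the sum of the values at the roots
-/

universe u

namespace Pool.Agent.HT51

open Matrix Polynomial

section

variable {C : Type u} [CommRing C] [IsNoetherianRing C] {r : ℕ}

/-- The product of the `X - b`, `b` in a list. -/
noncomputable def pl (L : List C) : C[X] := (L.map fun b => X - Polynomial.C b).prod

lemma pl_monic (L : List C) : (pl L).Monic := by
  unfold pl
  induction L with
  | nil => simp
  | cons b L ih =>
    rw [List.map_cons, List.prod_cons]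
    exact (monic_X_sub_C b).mul ih

lemma sm_one {T : Type u} [CommRing T] (A : Matrix (Fin r) (Fin r) T) : sm A 1 = ⊤ := by
  rw [eq_top_iff]
  intro v _
  have := smul_mem_sm A 1 v
  rwa [one_smul] at this

lemma monic_mul_eq_zero {u : C[X]} (hu : u.Monic) (x : C[X]) (h : u * x = 0) : x = 0 := by
  rw [mul_comm] at h
  exact hu.mul_left_eq_zero_iff.mp h

variable (lam : AddFn C) {s : C} (hs : lam.Kills s)
  (A P : Matrix (Fin r) (Fin r) C[X]) (h : C[X])
  (hPA : P * A = h • (1 : Matrix (Fin r) (Fin r) C[X]))
  {ι : Type*} (δ : ι → C[X]) (A' P' : ι → Matrix (Fin r) (Fin r) C[X])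
  (hd : ∀ i, A' i * P + A * P' i = δ i • (1 : Matrix (Fin r) (Fin r) C[X]))
  (K : ℕ) (hK : Polynomial.C (s ^ K) ∈ Ideal.span (Set.range δ))

include hs hPA hd hK

/-- The value of `C[X]^r/(A, u)`, `u` a product of linear factors dividing `h`, is the sum of
the values of the cokernels at the roots. -/
lemma filt (L : List C) (s' : C[X]) (hh : h = s' * pl L) :
    lam.val ((Fin r → C[X]) ⧸ sm A (pl L))
      = (L.map fun b => lam.val (Cok (A.map (Polynomial.evalRingHom b)))).sum := by
  induction L generalizing s' with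
  | nil =>
    have : Subsingleton ((Fin r → C[X]) ⧸ sm A (pl ([] : List C))) := by
      have h1 : sm A (pl ([] : List C)) = ⊤ := sm_one A
      have h2 : ∀ x : (Fin r → C[X]) ⧸ sm A (pl ([] : List C)), x = 0 := by
        intro x
        obtain ⟨v, rfl⟩ := Submodule.Quotient.mk_surjective _ x
        rw [Submodule.Quotient.mk_eq_zero, h1]
        trivial
      exact ⟨fun x y => by rw [h2 x, h2 y]⟩
    rw [lam.val_of_subsingleton]
    rfl
  | cons b L ih =>
    have hpl : pl (b :: L) = pl L * (X - Polynomial.C b) := by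
      unfold pl
      rw [List.map_cons, List.prod_cons, mul_comm]
    have ih' := ih (s' * (X - Polynomial.C b)) (by
      rw [hh, hpl]; ring)
    have hf0 : Module.Finite C ((Fin r → C[X]) ⧸ sm A (pl (b :: L))) :=
      finite_quot_sm A _ (pl_monic _)
    have hf1 : Module.Finite C ((Fin r → C[X]) ⧸ sm A (pl L)) :=
      finite_quot_sm A _ (pl_monic _)
    have hf2 : Module.Finite C ((Fin r → C[X]) ⧸ sm A (X - Polynomial.C b)) :=
      finite_quot_sm A _ (monic_X_sub_C b)
    -- the surjection
    have hle : sm A (pl (b :: L)) ≤ sm A (pl L) := by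
      intro v hv
      obtain ⟨w, z, rfl⟩ := (mem_sm A _ v).mp hv
      refine (mem_sm A _ _).mpr ⟨w, (X - Polynomial.C b) • z, ?_⟩
      rw [hpl, mul_smul]
    let g : ((Fin r → C[X]) ⧸ sm A (pl (b :: L))) →ₗ[C] ((Fin r → C[X]) ⧸ sm A (pl L)) :=
      (Submodule.factor hle).restrictScalars C
    have hgs : Function.Surjective g := by
      intro y
      obtain ⟨v, rfl⟩ := Submodule.Quotient.mk_surjective _ y
      exact ⟨Submodule.Quotient.mk v, rfl⟩
    -- the map from the quotient at `b`
    have hmap : sm A (X - Polynomial.C b) ≤ (sm A (pl (b :: L))).comap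
        (pl L • (LinearMap.id : (Fin r → C[X]) →ₗ[C[X]] (Fin r → C[X]))) := by
      intro v hv
      obtain ⟨w, z, rfl⟩ := (mem_sm A _ v).mp hv
      refine (mem_sm A _ _).mpr ⟨pl L • w, z, ?_⟩
      show pl L • (A *ᵥ w + (X - Polynomial.C b) • z) = _
      rw [smul_add, Matrix.mulVec_smul, hpl, mul_smul]
    let f0 : ((Fin r → C[X]) ⧸ sm A (X - Polynomial.C b)) →ₗ[C[X]]
        ((Fin r → C[X]) ⧸ sm A (pl (b :: L))) :=
      Submodule.mapQ _ _ _ hmap
    have hf0mk : ∀ v, f0 (Submodule.Quotient.mk v) = Submodule.Quotient.mk (pl L • v) :=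
      fun v => rfl
    have hcomp : ∀ x, g (f0 x) = 0 := by
      intro x
      obtain ⟨v, rfl⟩ := Submodule.Quotient.mk_surjective _ x
      rw [hf0mk]
      refine (Submodule.Quotient.mk_eq_zero _).mpr ?_
      exact smul_mem_sm A _ _
    let f : ((Fin r → C[X]) ⧸ sm A (X - Polynomial.C b)) →ₗ[C] LinearMap.ker g :=
      (f0.restrictScalars C).codRestrict (LinearMap.ker g) hcomp
    have hker : Module.Finite C (LinearMap.ker g) := by
      have : IsNoetherian C ((Fin r → C[X]) ⧸ sm A (pl (b :: L))) :=
        isNoetherian_of_isNoetherianRing_of_finite C _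
      infer_instance
    have e1 : lam.val ((Fin r → C[X]) ⧸ sm A (X - Polynomial.C b))
        = lam.val (LinearMap.ker g) := by
      refine hs.val_eq f ?_ ?_
      · intro x hx
        obtain ⟨v, rfl⟩ := Submodule.Quotient.mk_surjective _ x
        have h1 : f0 (Submodule.Quotient.mk v) = 0 := congrArg Subtype.val hx
        rw [hf0mk, Submodule.Quotient.mk_eq_zero] at h1
        have h2 := tl2_span A P h s' (pl (b :: L)) (pl L) (X - Polynomial.C b)
          (Polynomial.C (s ^ K)) hPA hh hpl δ A' P' hd hK
          (fun x hx => monic_mul_eq_zero (pl_monic L) x hx) v h1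
        refine ⟨K, ?_⟩
        have h3 : s ^ K • (Submodule.Quotient.mk v : (Fin r → C[X]) ⧸ sm A (X - Polynomial.C b))
            = Submodule.Quotient.mk (Polynomial.C (s ^ K) • v) := by
          rw [← Submodule.Quotient.mk_smul]
          congr 1
          funext l
          simp only [Pi.smul_apply, smul_eq_mul]
          rw [Polynomial.smul_eq_C_mul]
        rw [h3, Submodule.Quotient.mk_eq_zero]
        exact h2
      · rintro ⟨y, hy⟩
        obtain ⟨v, rfl⟩ := Submodule.Quotient.mk_surjective _ y
        have h1 : v ∈ sm A (pl L) := (Submodule.Quotient.mk_eq_zero _).mp hy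
        obtain ⟨w, z, rfl⟩ := (mem_sm A _ v).mp h1
        refine ⟨0, Submodule.Quotient.mk z, ?_⟩
        apply Subtype.ext
        show f0 (Submodule.Quotient.mk z) = _
        rw [pow_zero, one_smul, hf0mk]
        show Submodule.Quotient.mk _ = Submodule.Quotient.mk _
        rw [Submodule.Quotient.eq]
        have : pl L • z - (A *ᵥ w + pl L • z) = A *ᵥ (-w) := by
          rw [Matrix.mulVec_neg]
          abel
        rw [this]
        refine (mem_sm A _ _).mpr ⟨-w, 0, by rw [smul_zero, add_zero]⟩
    have e2 : lam.val ((Fin r → C[X]) ⧸ sm A (pl (b :: L)))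
        = lam.val (LinearMap.ker g) + lam.val ((Fin r → C[X]) ⧸ sm A (pl L)) :=
      lam.add' _ _ _ (LinearMap.ker g).subtype g (Submodule.injective_subtype _)
        (LinearMap.exact_subtype_ker_map g) hgs hf0
    rw [e2, ← e1, ih', List.map_cons, List.sum_cons, lam.val_congr (quotEval A b)]

end

end Pool.Agent.HT51
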