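import Pool.Agent.HT51.ChA

/-!
# (LIN) a variable which occurs linearly
-/

universe u

namespace Pool.Agent.HT51

open MvPolynomial

/-- (LIN) `W = c X_p^a X_q + g`, `g` without `X_q`: after inverting `x_p` one can solve for
`x_q`: localisation of a polynomial ring. -/
theorem lin_rule (κ : Type u) [Field κ] {σ : Type} [Finite σ] [DecidableEq σ] (p q : σ)
    (hpq : p ≠ q) (a : ℕ) (c : κ) (hc : c ≠ 0) (g : MvPolynomial {j : σ // j ≠ q} κ) :
    ZeroPropK (MvPolynomial σ κ ⧸ Ideal.span {C c * X p ^ a * X q + rename Subtype.val g})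
      (Ideal.Quotient.mk _ (X p)) := by
  set W : MvPolynomial σ κ := C c * X p ^ a * X q + rename Subtype.val g with hW
  let R0 := MvPolynomial {j : σ // j ≠ q} κ
  let ι : R0 →+* MvPolynomial σ κ :=
    (rename Subtype.val : MvPolynomial {j : σ // j ≠ q} κ →ₐ[κ] MvPolynomial σ κ).toRingHom
  have hι : ∀ P : R0, ι P = rename Subtype.val P := fun P => rfl
  let f : R0 →+* MvPolynomial σ κ ⧸ Ideal.span {W} := (Ideal.Quotient.mk (Ideal.span {W})).comp ι
  let s : R0 := X ⟨p, hpq⟩
  have hιs : ι s = X p := by rw [hι, rename_X]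
  have hfs : f s = Ideal.Quotient.mk _ (X p) := by
    show Ideal.Quotient.mk _ (ι s) = _
    rw [hιs]
  rw [← hfs]
  -- clearing `x_q`
  have key : ∀ P : MvPolynomial σ κ, ∃ (n : ℕ) (P' : R0),
      (Ideal.Quotient.mk (Ideal.span {W}) (X p)) ^ n * Ideal.Quotient.mk _ P = f P' := by
    intro P
    induction P using MvPolynomial.induction_on with
    | C b =>
      refine ⟨0, C b, ?_⟩
      rw [pow_zero, one_mul]
      show _ = Ideal.Quotient.mk _ (ι (C b))
      rw [hι, rename_C]
    | add P Q hP hQ =>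
      obtain ⟨n, P', hP'⟩ := hP
      obtain ⟨m, Q', hQ'⟩ := hQ
      refine ⟨n + m, s ^ m * P' + s ^ n * Q', ?_⟩
      rw [map_add, map_add, map_mul, map_mul, map_pow, map_pow, ← hP', ← hQ', hfs]
      ring
    | mul_X P j hP =>
      obtain ⟨n, P', hP'⟩ := hP
      by_cases hj : j = q
      · subst hj
        refine ⟨n + a, P' * (C (-c⁻¹) * g), ?_⟩
        have h1 : Ideal.Quotient.mk (Ideal.span {W}) (X p) ^ a * Ideal.Quotient.mk _ (X j)
            = f (C (-c⁻¹) * g) := by
          have h2 : Ideal.Quotient.mk (Ideal.span {W}) (X p ^ a * X j)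
              = Ideal.Quotient.mk _ (ι (C (-c⁻¹) * g)) := by
            rw [Ideal.Quotient.eq, Ideal.mem_span_singleton']
            refine ⟨C c⁻¹, ?_⟩
            have h3 : (C c⁻¹ : MvPolynomial σ κ) * C c = 1 := by
              rw [← C_mul, inv_mul_cancel₀ hc, C_1]
            rw [hι, map_mul, rename_C, hW, C_neg]
            linear_combination (X p ^ a * X j) * h3
          rw [map_mul, map_pow] at h2
          exact h2
        rw [map_mul, map_mul f, ← hP', ← h1, pow_add]
        ring
      · refine ⟨n, P' * X ⟨j, hj⟩, ?_⟩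
        have h1 : f (X ⟨j, hj⟩) = Ideal.Quotient.mk _ (X j) := by
          show Ideal.Quotient.mk _ (ι (X ⟨j, hj⟩)) = _
          rw [hι, rename_X]
        rw [map_mul, map_mul f, ← hP', h1]
        ring
  refine zpk_of_bir f s ?_ ?_ (ZeroProp.mvPolynomial κ {j : σ // j ≠ q})
  · intro b
    obtain ⟨P, rfl⟩ := Ideal.Quotient.mk_surjective b
    obtain ⟨n, P', hP'⟩ := key P
    exact ⟨n, P', by rw [hfs, hP']⟩
  · intro P hP
    refine ⟨0, ?_⟩
    rw [pow_zero, one_mul]
    have hP' : Ideal.Quotient.mk (Ideal.span {W}) (ι P) = 0 := hP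
    rw [Ideal.Quotient.eq_zero_iff_mem, Ideal.mem_span_singleton'] at hP'
    obtain ⟨Q, hQ⟩ := hP'
    let F := FractionRing R0
    let al : R0 →+* F := algebraMap R0 F
    have hal : Function.Injective al := IsFractionRing.injective R0 F
    have hs0 : al s ≠ 0 := by
      rw [Ne, map_eq_zero_iff al hal]
      exact X_ne_zero _
    have hc0 : al (C c) ≠ 0 := by
      rw [Ne, map_eq_zero_iff al hal, C_eq_zero]
      exact hc
    let ρ : MvPolynomial σ κ →+* F := eval₂Hom (al.comp C) fun j =>
      if h : j ≠ q then al (X ⟨j, h⟩) else - al g * (al (C c) * al s ^ a)⁻¹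
    have hρι : ∀ P : R0, ρ (ι P) = al P := by
      intro P
      have h : ρ.comp ι = al := by
        refine MvPolynomial.ringHom_ext (fun b => ?_) (fun j => ?_)
        · show ρ (ι (C b)) = _
          rw [hι, rename_C]
          show eval₂ _ _ (C b) = _
          rw [eval₂_C]
          rfl
        · show ρ (ι (X j)) = _
          rw [hι, rename_X]
          show eval₂ _ _ (X (j : σ)) = _
          rw [eval₂_X, dif_pos j.2]
      exact RingHom.congr_fun h P
    have hρC : ρ (C c) = al (C c) := by
      show eval₂ _ _ (C c) = _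
      rw [eval₂_C]
      rfl
    have hρq : ρ (X q) = - al g * (al (C c) * al s ^ a)⁻¹ := by
      show eval₂ _ _ (X q) = _
      rw [eval₂_X, dif_neg (by simp)]
    have hρW : ρ W = 0 := by
      rw [hW, map_add, map_mul, map_mul, map_pow, ← hιs, hρι, hρC, hρq, ← hι, hρι]
      have hne : al (C c) * al s ^ a ≠ 0 := mul_ne_zero hc0 (pow_ne_zero _ hs0)
      linear_combination (-(al g)) * (mul_inv_cancel₀ hne)
    apply hal
    rw [← hρι, ← hQ, map_mul, hρW, mul_zero, map_zero]

end Pool.Agent.HT51
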