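import Pool.Agent.HT51.LpF
import Pool.Agent.HT51.LpL

/-!
# Invertible polynomials together with hyperbolic pairs
-/

universe u

namespace Pool.Agent.HT51

open MvPolynomial

section

variable {κ : Type u} [CommRing κ] {σ : Type} [Fintype σ] [DecidableEq σ]

/-- the exponent of the `j`-th monomial -/
noncomputable def hexp (a : σ → ℕ) (nx : σ → Option σ) (j : σ) : σ →₀ ℕ :=
  Finsupp.single j (a j) + (nx j).elim 0 (fun l => Finsupp.single l 1)

omit [Fintype σ] in
lemma hexp_apply (a : σ → ℕ) (nx : σ → Option σ) (j i : σ) :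
    hexp a nx j i = (if j = i then a j else 0) + (if nx j = some i then 1 else 0) := by
  unfold hexp
  rw [Finsupp.add_apply, Finsupp.single_apply]
  congr 1
  cases h : nx j with
  | none => simp
  | some l =>
    show Finsupp.single l 1 i = _
    rw [Finsupp.single_apply]
    simp

omit [DecidableEq σ] in
lemma cform_hexp (c : σ → κ) (a : σ → ℕ) (nx : σ → Option σ) :
    cform c a nx = ∑ j, monomial (hexp a nx j) (c j) := by
  unfold cform hexp
  refine Finset.sum_congr rfl fun j _ => ?_
  rw [X_pow_eq_monomial, C_mul_monomial, mul_one]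
  cases nx j with
  | none =>
    show _ * 1 = monomial (_ + 0) _
    rw [mul_one, add_zero]
  | some l =>
    show _ * X l = monomial (_ + Finsupp.single l 1) _
    rw [X, monomial_mul, mul_one]

omit [Fintype σ] [DecidableEq σ] in
/-- the loop `j → j' → j` -/
lemma isLoop_two {nx : σ → Option σ} {j j' : σ} (hjj : j ≠ j') (h1 : nx j = some j')
    (h2 : nx j' = some j) : IsLoop nx 2 (fun k => if k = 0 then j else j') where
  two_le := le_rfl
  inj := by
    intro k l hk hl h
    have hk' : k = 0 ∨ k = 1 := by omega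
    have hl' : l = 0 ∨ l = 1 := by omega
    rcases hk' with rfl | rfl <;> rcases hl' with rfl | rfl
    · rfl
    · exact absurd h (by simpa using hjj)
    · exact absurd h (by simpa using hjj.symm)
    · rfl
  step := by
    intro k hk
    have hk' : k = 0 := by omega
    subst hk'
    simpa using h1
  last := by simpa using h2

lemma hexp_inj (a : σ → ℕ) (ha : ∀ j, 0 < a j) (nx : σ → Option σ) (hloop : LoopOK a nx)
    {j j' : σ} (h : hexp a nx j = hexp a nx j') : j = j' := by
  by_contra hjj
  have h1 := DFunLike.congr_fun h j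
  have h2 := DFunLike.congr_fun h j'
  rw [hexp_apply, hexp_apply, if_pos rfl, if_neg (Ne.symm hjj)] at h1
  rw [hexp_apply, hexp_apply, if_pos rfl, if_neg hjj] at h2
  have hj := ha j
  have hj' := ha j'
  have e1 : nx j' = some j := by
    by_contra hne
    rw [if_neg hne] at h1
    omega
  have e2 : nx j = some j' := by
    by_contra hne
    rw [if_neg hne] at h2
    omega
  rw [if_pos e1] at h1
  rw [if_pos e2] at h2
  obtain ⟨k, hk, hk2⟩ := hloop 2 _ (isLoop_two hjj e2 e1) even_two
  by_cases hk0 : k = 0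
  · simp only [hk0, if_true] at hk2
    omega
  · simp only [hk0, if_false] at hk2
    omega

lemma coeff_cform_hexp (c : σ → κ) (a : σ → ℕ) (ha : ∀ j, 0 < a j) (nx : σ → Option σ)
    (hloop : LoopOK a nx) (j : σ) : coeff (hexp a nx j) (cform c a nx) = c j := by
  rw [cform_hexp, coeff_sum, Finset.sum_eq_single j]
  · rw [coeff_monomial, if_pos rfl]
  · intro i _ hi
    rw [coeff_monomial, if_neg]
    intro h
    exact hi (hexp_inj a ha nx hloop h)
  · intro h
    exact absurd (Finset.mem_univ _) h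

lemma cform_ne_zero_h (c : σ → κ) (a : σ → ℕ) (ha : ∀ j, 0 < a j) (nx : σ → Option σ)
    (hloop : LoopOK a nx) (hc : ∃ j, c j ≠ 0) : cform c a nx ≠ 0 := by
  obtain ⟨j, hj⟩ := hc
  intro h
  have h1 := coeff_cform_hexp c a ha nx hloop j
  rw [h, coeff_zero] at h1
  exact hj h1.symm

end

section restrict

variable {κ : Type u} [Field κ] {σ : Type} [Fintype σ] [DecidableEq σ]

omit [Fintype σ] [DecidableEq σ] in
lemma nxS_of {P : σ → Prop} [DecidablePred P] {nx : σ → Option σ} {j t : {j : σ // P j}}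
    (h : nx j.1 = some t.1) : nxS P nx j = some t := by
  unfold nxS
  rw [h, Option.bind_some, dif_pos t.2]

lemma rename_cform' (P : σ → Prop) [DecidablePred P] (c : σ → κ) (a : σ → ℕ) (nx : σ → Option σ)
    (h : ∀ j t, P j → nx j = some t → P t ∨ c j = 0) :
    rename Subtype.val (cform (fun j : {j : σ // P j} => c j) (fun j => a j) (nxS P nx))
      = ∑ j ∈ Finset.univ.filter P, C (c j) * X j ^ a j * (nx j).elim 1 X := by
  unfold cform
  rw [map_sum, Finset.sum_subtype (Finset.univ.filter P) (p := P) (by simp)]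
  refine Finset.sum_congr rfl fun j _ => ?_
  by_cases hcj : c j = 0
  · simp [hcj]
  · rw [map_mul, map_mul, map_pow, rename_C, rename_X,
      nxS_elim j fun t ht => (h j.1 t j.2 ht).resolve_right hcj]

lemma loopOK_restrict (P : σ → Prop) [DecidablePred P] {a : σ → ℕ} {nx : σ → Option σ}
    (hloop : LoopOK a nx) : LoopOK (fun j : {j : σ // P j} => a j) (nxS P nx) := by
  intro L x hx he
  refine hloop L (fun k => (x k).1) ⟨hx.two_le, ?_, ?_, ?_⟩ he
  · intro j k hj hk h
    exact hx.inj j k hj hk (Subtype.ext h)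
  · intro k hk
    exact nxS_some (hx.step k hk)
  · exact nxS_some hx.last

end restrict

open scoped Classical in
theorem hyp_zp_aux (κ : Type u) [Field κ] [Finite κ] (m : ℕ) :
    ∀ {σ : Type} [Fintype σ] [DecidableEq σ]
    (_ : Odd (Fintype.card σ)) (c : σ → κ) (a : σ → ℕ) (_ : ∀ j, 0 < a j)
    (nx : σ → Option σ) (_ : ∀ i j l, nx i = some l → nx j = some l → i = j)
    (_ : ∀ j, nx j ≠ some j) (_ : LoopOK a nx)
    (_ : ∀ q, c q = 0 → ∃ p, nx p = some q ∧ c p ≠ 0 ∧ ∀ i, nx i = some p → c i = 0)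
    (_ : (Finset.univ.filter fun j => c j = 0).card ≤ m),
    ZeroProp (MvPolynomial σ κ ⧸ Ideal.span {cform c a nx}) := by
  induction m with
  | zero =>
    intro σ _ _ hodd c a ha nx hinj hfix hloop hc hm
    have hc0 : ∀ j, c j ≠ 0 := by
      intro j hj
      have h1 : (Finset.univ.filter fun j => c j = 0) = ∅ :=
        Finset.card_eq_zero.mp (Nat.le_zero.mp hm)
      have h2 : j ∈ (Finset.univ.filter fun j => c j = 0) := by simp [hj]
      rw [h1] at h2
      exact absurd h2 (Finset.notMem_empty _)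
    exact inv_zp κ hodd c hc0 a ha nx hinj hfix hloop
  | succ m ih =>
    intro σ _ _ hodd c a ha nx hinj hfix hloop hc hm
    by_cases hem : ∀ j, c j ≠ 0
    · exact inv_zp κ hodd c hem a ha nx hinj hfix hloop
    push Not at hem
    obtain ⟨q, hq⟩ := hem
    obtain ⟨p, hpq, hcp, hpred⟩ := hc q hq
    have hne : q ≠ p := by
      rintro rfl
      exact hcp hq
    let P : σ → Prop := fun j => j ≠ q ∧ j ≠ p
    let g0 : MvPolynomial {j : σ // j ≠ q ∧ j ≠ p} κ :=
      cform (fun j => c j) (fun j => a j) (nxS (fun j => j ≠ q ∧ j ≠ p) nx)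
    have hg0 : rename Subtype.val g0
        = ∑ j ∈ Finset.univ.filter (fun j => j ≠ q ∧ j ≠ p), C (c j) * X j ^ a j *
          (nx j).elim 1 X := by
      refine rename_cform' (fun j => j ≠ q ∧ j ≠ p) c a nx fun j t hj ht => ?_
      by_cases htp : t = p
      · rw [htp] at ht
        exact Or.inr (hpred j ht)
      · refine Or.inl ⟨?_, htp⟩
        rintro rfl
        exact hj.2 (hinj j p t ht hpq)
    have hW : cform c a nx = C (c p) * X p ^ a p * X q + rename Subtype.val g0 := by
      rw [hg0]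
      unfold cform
      rw [← Finset.add_sum_erase _ _ (Finset.mem_univ p), hpq,
        ← Finset.add_sum_erase _ _ (Finset.mem_erase.mpr ⟨hne, Finset.mem_univ q⟩), hq, C_0,
        zero_mul, zero_mul, zero_add]
      congr 1
      refine Finset.sum_congr ?_ fun _ _ => rfl
      ext j
      simp
    have hcard : Fintype.card {j : σ // j ≠ q ∧ j ≠ p} + 2 = Fintype.card σ := by
      have h1 : (Finset.univ.filter fun j : σ => j ≠ q ∧ j ≠ p).card
          = Fintype.card {j : σ // j ≠ q ∧ j ≠ p} := by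
        rw [Fintype.card_subtype]
      have h2 : (Finset.univ.filter fun j : σ => j ≠ q ∧ j ≠ p)
          = (Finset.univ.erase q).erase p := by
        ext j
        simp [and_comm]
      rw [← h1, h2, Finset.card_erase_of_mem (by simp [hne.symm]),
        Finset.card_erase_of_mem (Finset.mem_univ q), Finset.card_univ]
      have h3 : 1 < Fintype.card σ := Fintype.one_lt_card_iff.mpr ⟨q, p, hne⟩
      omega
    have hodd' : Odd (Fintype.card {j : σ // j ≠ q ∧ j ≠ p}) := by
      rw [← hcard] at hodd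
      rcases hodd with ⟨s, hs⟩
      exact ⟨s - 1, by omega⟩
    have hc' : ∀ q' : {j : σ // j ≠ q ∧ j ≠ p}, c q'.1 = 0 →
        ∃ p' : {j : σ // j ≠ q ∧ j ≠ p}, nxS (fun j => j ≠ q ∧ j ≠ p) nx p' = some q' ∧
          c p'.1 ≠ 0 ∧ ∀ i : {j : σ // j ≠ q ∧ j ≠ p},
            nxS (fun j => j ≠ q ∧ j ≠ p) nx i = some p' → c i.1 = 0 := by
      intro q' hq'
      obtain ⟨p', h1, h2, h3⟩ := hc q'.1 hq'
      have h4 : p' ≠ q := by
        rintro rfl
        exact h2 hq
      have h5 : p' ≠ p := by
        rintro rfl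
        rw [hpq] at h1
        exact q'.2.1 (Option.some.inj h1).symm
      exact ⟨⟨p', h4, h5⟩, nxS_of h1, h2, fun i hi => h3 i.1 (nxS_some hi)⟩
    have hinj' : ∀ i j l, nxS (fun j => j ≠ q ∧ j ≠ p) nx i = some l →
        nxS (fun j => j ≠ q ∧ j ≠ p) nx j = some l → i = j := fun i j l h1 h2 =>
      Subtype.ext (hinj i.1 j.1 l.1 (nxS_some h1) (nxS_some h2))
    have hloop' := loopOK_restrict (fun j => j ≠ q ∧ j ≠ p) hloop
    have hzg : ZeroProp (MvPolynomial {j : σ // j ≠ q ∧ j ≠ p} κ ⧸ Ideal.span {g0}) := by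
      refine ih hodd' _ _ (fun j => ha j) _ hinj' (fun j h => hfix j.1 (nxS_some h)) hloop' hc' ?_
      have h1 : ((Finset.univ.filter fun j : {j : σ // j ≠ q ∧ j ≠ p} => c j.1 = 0).map
          (Function.Embedding.subtype _)) ⊆ (Finset.univ.filter fun j => c j = 0).erase q := by
        intro j hj
        obtain ⟨j', hj', rfl⟩ := Finset.mem_map.mp hj
        have h2 := (Finset.mem_filter.mp hj').2
        exact Finset.mem_erase.mpr ⟨j'.2.1, Finset.mem_filter.mpr ⟨Finset.mem_univ _, h2⟩⟩
      have h3 := Finset.card_le_card h1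
      rw [Finset.card_map, Finset.card_erase_of_mem (by simp [hq])] at h3
      omega
    have hg0ne : g0 ≠ 0 := by
      refine cform_ne_zero_h (fun j : {j : σ // j ≠ q ∧ j ≠ p} => c j) (fun j => a j)
        (fun j => ha j) _ hloop' ?_
      obtain ⟨j⟩ := Fintype.card_pos_iff.mp hodd'.pos
      by_cases hj : c j.1 = 0
      · obtain ⟨p', -, h2, -⟩ := hc' j hj
        exact ⟨p', h2⟩
      · exact ⟨j, hj⟩
    intro lam h0 W _ _ _
    have hkill := kill_rule κ q p hne (cform c a nx) (C (c p) * X p ^ (a p - 1) * X q) g0 (by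
      rw [hW]
      congr 1
      have h2 : (X p ^ a p : MvPolynomial σ κ) = X p * X p ^ (a p - 1) := by
        rw [← pow_succ', Nat.sub_add_cancel (ha p)]
      rw [h2]
      ring) hg0ne hzg lam h0
    let g1 : MvPolynomial {j : σ // j ≠ q} κ :=
      rename (fun j : {j : σ // j ≠ q ∧ j ≠ p} => (⟨j.1, j.2.1⟩ : {j : σ // j ≠ q})) g0
    have hg1 : rename Subtype.val g1 = rename Subtype.val g0 := by
      show rename _ (rename _ g0) = _
      rw [rename_rename]
      rfl
    have hK := lin_rule κ p q hne.symm (a p) (c p) hcp g1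
    rw [hg1, ← hW] at hK
    exact hK lam h0 hkill W

/-- The vanishing property over finite fields for `∑ c_j X_j ^ a_j X_{nx j}`; a coefficient `c_q`
may be zero if `q = nx p` with `c_p ≠ 0` and no monomial ends in `p`. -/
theorem hyp_zp (κ : Type u) [Field κ] [Finite κ] {σ : Type} [Fintype σ] [DecidableEq σ]
    (hodd : Odd (Fintype.card σ)) (c : σ → κ) (a : σ → ℕ) (ha : ∀ j, 0 < a j)
    (nx : σ → Option σ) (hinj : ∀ i j l, nx i = some l → nx j = some l → i = j)
    (hfix : ∀ j, nx j ≠ some j) (hloop : LoopOK a nx)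
    (hc : ∀ q, c q = 0 → ∃ p, nx p = some q ∧ c p ≠ 0 ∧ ∀ i, nx i = some p → c i = 0) :
    ZeroProp (MvPolynomial σ κ ⧸ Ideal.span {cform c a nx}) :=
  hyp_zp_aux κ _ hodd c a ha nx hinj hfix hloop hc le_rfl

end Pool.Agent.HT51
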