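import Mathlib

/-!
# The length over `k[X]` of a module which is killed by powers of the variables is its dimension over `k`
-/

universe u v

set_option linter.unusedSectionVars false

namespace Pool.Agent.HT51

open MvPolynomial

section

variable {k : Type v} [Field k] {N : ℕ} {M : Type u} [AddCommGroup M] [Module k M]
  [Module (MvPolynomial (Fin N) k) M] [IsScalarTower k (MvPolynomial (Fin N) k) M]

/-- a nonzero module killed by powers of the variables has a nonzero element killed by the variables -/
lemma exists_socle [Nontrivial M]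
    (h : ∀ i, ∃ m : ℕ, ∀ x : M, (X i : MvPolynomial (Fin N) k) ^ m • x = 0) :
    ∃ x : M, x ≠ 0 ∧ ∀ i, (X i : MvPolynomial (Fin N) k) • x = 0 := by
  have key : ∀ s : Finset (Fin N), ∃ x : M, x ≠ 0 ∧ ∀ i ∈ s, (X i : MvPolynomial (Fin N) k) • x = 0 := by
    intro s
    induction s using Finset.induction_on with
    | empty =>
      obtain ⟨x, hx⟩ := exists_ne (0 : M)
      exact ⟨x, hx, fun i hi => by simp at hi⟩
    | insert j s hj ih =>
      obtain ⟨x, hx, hs⟩ := ih
      obtain ⟨m, hm⟩ := h j
      classical
      have hex : ∃ m : ℕ, (X j : MvPolynomial (Fin N) k) ^ m • x = 0 := ⟨m, hm x⟩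
      have h0 : Nat.find hex ≠ 0 := by
        intro h0
        have := Nat.find_spec hex
        rw [h0, pow_zero, one_smul] at this
        exact hx this
      obtain ⟨l, hl⟩ : ∃ l, Nat.find hex = l + 1 := Nat.exists_eq_succ_of_ne_zero h0
      refine ⟨(X j : MvPolynomial (Fin N) k) ^ l • x, Nat.find_min hex (by omega), ?_⟩
      intro i hi
      rw [Finset.mem_insert] at hi
      rcases hi with rfl | hi
      · rw [smul_smul, ← pow_succ', ← hl]
        exact Nat.find_spec hex
      · rw [smul_smul, mul_comm, ← smul_smul, hs i hi, smul_zero]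
  obtain ⟨x, hx, hs⟩ := key Finset.univ
  exact ⟨x, hx, fun i => hs i (Finset.mem_univ i)⟩

/-- on an element killed by the variables a polynomial acts by its constant coefficient -/
lemma smul_socle {x : M} (hx : ∀ i, (X i : MvPolynomial (Fin N) k) • x = 0) (p : MvPolynomial (Fin N) k) :
    p • x = constantCoeff p • x := by
  induction p using MvPolynomial.induction_on with
  | C a =>
    rw [constantCoeff_C, ← algebraMap_eq, algebraMap_smul]
  | add p q hp hq => rw [add_smul, hp, hq, map_add, add_smul]
  | mul_X p i hp => rw [← smul_smul, hx, smul_zero, map_mul, constantCoeff_X, mul_zero, zero_smul]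

/-- **length and dimension** -/
theorem length_eq_finrank_of_pow [Module.Finite k M]
    (h : ∀ i, ∃ m : ℕ, ∀ x : M, (X i : MvPolynomial (Fin N) k) ^ m • x = 0) :
    Module.length (MvPolynomial (Fin N) k) M = (Module.finrank k M : ℕ∞) := by
  obtain ⟨d, hd⟩ : ∃ d, d = Module.finrank k M := ⟨_, rfl⟩
  rw [← hd]
  induction d using Nat.strong_induction_on generalizing M with
  | _ d ih =>
    rcases subsingleton_or_nontrivial M with hM | hM
    · rw [Module.length_eq_zero, hd, Module.finrank_zero_of_subsingleton, Nat.cast_zero]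
    · obtain ⟨x, hx0, hx⟩ := exists_socle h
      obtain ⟨S, hS⟩ : ∃ S, S = Submodule.span (MvPolynomial (Fin N) k) {x} := ⟨_, rfl⟩
      have hmem : ∀ y : M, y ∈ S ↔ ∃ a : k, a • x = y := by
        intro y
        rw [hS, Submodule.mem_span_singleton]
        constructor
        · rintro ⟨p, hp⟩
          exact ⟨constantCoeff p, by rw [← smul_socle hx, hp]⟩
        · rintro ⟨a, ha⟩
          exact ⟨C a, by rw [smul_socle hx, constantCoeff_C, ha]⟩
      have hxS : x ∈ S := (hmem x).2 ⟨1, one_smul _ _⟩
      have hsimple : IsSimpleModule (MvPolynomial (Fin N) k) S := by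
        rw [isSimpleModule_iff_toSpanSingleton_surjective]
        refine ⟨⟨⟨x, hxS⟩, 0, fun h0 => hx0 (congrArg Subtype.val h0)⟩, ?_⟩
        rintro ⟨y, hy⟩ hy0 ⟨z, hz⟩
        obtain ⟨a, rfl⟩ := (hmem y).1 hy
        obtain ⟨c, rfl⟩ := (hmem z).1 hz
        have ha : a ≠ 0 := by
          rintro rfl
          exact hy0 (Subtype.ext (zero_smul k x))
        refine ⟨C (c * a⁻¹), Subtype.ext ?_⟩
        show (C (c * a⁻¹) : MvPolynomial (Fin N) k) • (a • x) = c • x
        rw [← algebraMap_eq, algebraMap_smul, smul_smul, mul_assoc, inv_mul_cancel₀ ha, mul_one]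
      have hrS : Module.finrank k S = 1 := by
        refine finrank_eq_one (v := (⟨x, hxS⟩ : S)) (fun h0 => hx0 (congrArg Subtype.val h0)) ?_
        rintro ⟨y, hy⟩
        obtain ⟨a, rfl⟩ := (hmem y).1 hy
        exact ⟨a, rfl⟩
      have h1 : Module.length (MvPolynomial (Fin N) k) M =
          Module.length (MvPolynomial (Fin N) k) S + Module.length (MvPolynomial (Fin N) k) (M ⧸ S) :=
        Module.length_eq_add_of_exact S.subtype S.mkQ S.subtype_injective S.mkQ_surjective
          (LinearMap.exact_subtype_mkQ S)
      have h2 : Module.finrank k M = Module.finrank k S + Module.finrank k (M ⧸ S) := by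
        have := Submodule.finrank_quotient_add_finrank (S.restrictScalars k)
        have e1 : Module.finrank k (M ⧸ S.restrictScalars k) = Module.finrank k (M ⧸ S) := rfl
        have e2 : Module.finrank k (S.restrictScalars k) = Module.finrank k S := rfl
        omega
      have h3 : Module.Finite k (M ⧸ S) := Module.Finite.of_surjective (S.mkQ.restrictScalars k) S.mkQ_surjective
      have h4 := ih (Module.finrank k (M ⧸ S)) (by omega) (M := M ⧸ S) (by
        intro i
        obtain ⟨m, hm⟩ := h i
        refine ⟨m, fun y => ?_⟩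
        obtain ⟨y, rfl⟩ := S.mkQ_surjective y
        rw [← map_smul, hm, map_zero]) rfl
      rw [h1, h4, Module.length_eq_one, hd, h2, hrS, Nat.cast_add, Nat.cast_one]

end

end Pool.Agent.HT51
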