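import Pool.Agent.HT51.SpK
import Pool.Agent.HT51.SpL

/-!
# Flat base change to a field of the homology of a matrix factorisation
-/

universe u

namespace Pool.Agent.HT51

open MvPolynomial Pool.Agent.HT21 TensorProduct

namespace SpF

section General

variable {T K A B : Type u} [CommRing T] [Field K] [Algebra T K] [CommRing A] [Algebra T A] [CommRing B]
  [Algebra K B] [Algebra T B] (j : A →+* B)

/-- base change of the kernel modulo the image -/
theorem hh_base [Module.Flat T K] {r : ℕ} (φ ψ : Matrix (Fin r) (Fin r) A)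
    (W : Type u) [AddCommGroup W] [Module A W] [Module T W] [IsScalarTower T A W]
    (W' : Type u) [AddCommGroup W'] [Module B W'] [Module K W'] [Module T W'] [IsScalarTower K B W']
    [IsScalarTower T B W'] [IsScalarTower T K W'] (ι : W →ₗ[T] W') (hι : IsBaseChange K ι)
    (hj : ∀ (a : A) (w : W), ι (a • w) = j a • ι w)
    (h : ∀ w, mact φ W (mact ψ W w) = 0) (h' : ∀ w, mact (φ.map j) W' (mact (ψ.map j) W' w) = 0) :
    ∃ e : HH φ ψ W →ₗ[T] HH (φ.map j) (ψ.map j) W', IsBaseChange K e := by
  have hcomm : ∀ (χ : Matrix (Fin r) (Fin r) A) (w : Fin r → W),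
      (ι.compLeft (Fin r)) (mact χ W w) = mact (χ.map j) W' ((ι.compLeft (Fin r)) w) := by
    intro χ w
    funext k
    show ι (∑ l, χ k l • w l) = ∑ l, (χ.map j) k l • ι (w l)
    rw [map_sum]
    exact Finset.sum_congr rfl fun l _ => hj _ _
  have hpow : IsBaseChange K (ι.compLeft (Fin r)) := IsBaseChange.finitePow (Fin r) hι
  -- the kernels
  let h₁ : ↥(LinearMap.ker (mact φ W)) →ₗ[T] ↥(LinearMap.ker (mact (φ.map j) W')) :=
    { toFun := fun x => ⟨(ι.compLeft (Fin r)) x.1, by
        rw [LinearMap.mem_ker, ← hcomm, LinearMap.mem_ker.1 x.2, map_zero]⟩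
      map_add' := fun x y => Subtype.ext (by
        show (ι.compLeft (Fin r)) (x.1 + y.1) = _
        rw [map_add]
        rfl)
      map_smul' := fun t x => Subtype.ext (by
        show (ι.compLeft (Fin r)) (t • x.1) = _
        rw [map_smul]
        rfl) }
  have hb₁ : IsBaseChange K h₁ := by
    refine IsBaseChange.of_left_exact K h₁ (ι.compLeft (Fin r)) (ι.compLeft (Fin r))
      (f := (LinearMap.ker (mact φ W)).subtype.restrictScalars T) (g := (mact φ W).restrictScalars T)
      (f' := (LinearMap.ker (mact (φ.map j) W')).subtype.restrictScalars K)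
      (g' := (mact (φ.map j) W').restrictScalars K) ?_ ?_ hpow hpow ?_ ?_ ?_ ?_
    · rfl
    · exact LinearMap.ext fun w => hcomm φ w
    · exact LinearMap.exact_subtype_ker_map _
    · exact Subtype.val_injective
    · exact LinearMap.exact_subtype_ker_map _
    · exact Subtype.val_injective
  -- the quotients
  let p : (Fin r → W) →ₗ[A] ↥(LinearMap.ker (mact φ W)) :=
    LinearMap.codRestrict _ (mact ψ W) fun w => LinearMap.mem_ker.2 (h w)
  let p' : (Fin r → W') →ₗ[B] ↥(LinearMap.ker (mact (φ.map j) W')) :=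
    LinearMap.codRestrict _ (mact (ψ.map j) W') fun w => LinearMap.mem_ker.2 (h' w)
  have hsub : ∀ x : ↥(LinearMap.ker (mact φ W)),
      x ∈ (LinearMap.range (mact ψ W)).submoduleOf (LinearMap.ker (mact φ W)) →
        h₁ x ∈ (LinearMap.range (mact (ψ.map j) W')).submoduleOf (LinearMap.ker (mact (φ.map j) W')) := by
    rintro x ⟨w, hw⟩
    exact ⟨(ι.compLeft (Fin r)) w, by rw [← hcomm, hw]; rfl⟩
  let P := (LinearMap.range (mact ψ W)).submoduleOf (LinearMap.ker (mact φ W))
  let Q := (LinearMap.range (mact (ψ.map j) W')).submoduleOf (LinearMap.ker (mact (φ.map j) W'))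
  let e₀ : (↥(LinearMap.ker (mact φ W)) ⧸ P.restrictScalars T) →ₗ[T]
      (↥(LinearMap.ker (mact (φ.map j) W')) ⧸ Q.restrictScalars T) :=
    (P.restrictScalars T).mapQ (Q.restrictScalars T) h₁ hsub
  let e : HH φ ψ W →ₗ[T] HH (φ.map j) (ψ.map j) W' :=
    (Submodule.Quotient.restrictScalarsEquiv T Q).toLinearMap ∘ₗ e₀ ∘ₗ
      (Submodule.Quotient.restrictScalarsEquiv T P).symm.toLinearMap
  refine ⟨e, IsBaseChange.of_right_exact K (ι.compLeft (Fin r)) h₁ e (f := p.restrictScalars T)
    (g := P.mkQ.restrictScalars T) (f' := p'.restrictScalars K) (g' := Q.mkQ.restrictScalars K) ?_ ?_ hpow hb₁ ?_ ?_ ?_ ?_⟩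
  · refine LinearMap.ext fun w => Subtype.ext ?_
    exact hcomm ψ w
  · exact LinearMap.ext fun w => rfl
  · intro x
    constructor
    · intro hx
      have hx' : x ∈ P := (Submodule.Quotient.mk_eq_zero P).1 hx
      obtain ⟨w, hw⟩ := hx'
      exact ⟨w, Subtype.ext hw⟩
    · rintro ⟨w, rfl⟩
      exact (Submodule.Quotient.mk_eq_zero P).2 ⟨w, rfl⟩
  · exact Submodule.mkQ_surjective P
  · intro x
    constructor
    · intro hx
      have hx' : x ∈ Q := (Submodule.Quotient.mk_eq_zero Q).1 hx
      obtain ⟨w, hw⟩ := hx'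
      exact ⟨w, Subtype.ext hw⟩
    · rintro ⟨w, rfl⟩
      exact (Submodule.Quotient.mk_eq_zero Q).2 ⟨w, rfl⟩
  · exact Submodule.mkQ_surjective Q

end General

/-- a matrix factorisation acts as a complex on the cokernel of another one -/
lemma cok_smul {R : Type u} [CommRing R] {f : R} {s : ℕ} (G : MF f s) (w : Cok G.phi) : f • w = 0 := by
  obtain ⟨x, rfl⟩ := Submodule.Quotient.mk_surjective _ w
  rw [← Submodule.Quotient.mk_smul, Submodule.Quotient.mk_eq_zero]
  refine ⟨G.psi.mulVec x, ?_⟩
  rw [Matrix.mulVecLin_apply, Matrix.mulVec_mulVec, G.phi_psi, Matrix.smul_mulVec, Matrix.one_mulVec]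

lemma mact_zero {R : Type u} [CommRing R] {f : R} {r s : ℕ} (F : MF f r) (G : MF f s)
    (w : Fin r → Cok G.phi) : mact F.phi (Cok G.phi) (mact F.psi (Cok G.phi) w) = 0 := by
  rw [← SpK.mact_mul, F.phi_psi, SpK.mact_smul_one]
  funext k
  exact cok_smul G (w k)

section Poly

variable {T K : Type u} [CommRing T] [Field K] [Algebra T K] {N : ℕ}

/-- the coefficient change as a linear map -/
noncomputable def jl (T K : Type u) [CommRing T] [Field K] [Algebra T K] (N : ℕ) :
    MvPolynomial (Fin N) T →ₗ[T] MvPolynomial (Fin N) K where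
  toFun := MvPolynomial.map (algebraMap T K)
  map_add' := map_add _
  map_smul' := fun t p => by
    rw [MvPolynomial.smul_eq_C_mul, map_mul, map_C, Algebra.smul_def, MvPolynomial.algebraMap_apply]
    rfl

lemma jl_base : IsBaseChange K (jl T K N) :=
  IsBaseChange.of_equiv (MvPolynomial.algebraTensorAlgEquiv T K).toLinearEquiv fun x => by
    show MvPolynomial.algebraTensorAlgEquiv T K (1 ⊗ₜ x) = _
    rw [MvPolynomial.algebraTensorAlgEquiv_tmul, one_smul]
    rfl

/-- base change of the cokernel -/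
theorem cok_base {s : ℕ} (χ : Matrix (Fin s) (Fin s) (MvPolynomial (Fin N) T)) :
    ∃ ι : Cok χ →ₗ[T] Cok (χ.map (MvPolynomial.map (algebraMap T K))), IsBaseChange K ι ∧
      ∀ (a : MvPolynomial (Fin N) T) (w : Cok χ), ι (a • w) = MvPolynomial.map (algebraMap T K) a • ι w := by
  have hcomm : ∀ (x : Fin s → MvPolynomial (Fin N) T),
      ((jl T K N).compLeft (Fin s)) (χ.mulVecLin x) =
        (χ.map (MvPolynomial.map (algebraMap T K))).mulVecLin (((jl T K N).compLeft (Fin s)) x) := by
    intro x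
    funext k
    show MvPolynomial.map (algebraMap T K) (∑ l, χ k l * x l) =
      ∑ l, (χ.map (MvPolynomial.map (algebraMap T K))) k l * MvPolynomial.map (algebraMap T K) (x l)
    rw [map_sum]
    exact Finset.sum_congr rfl fun l _ => map_mul _ _ _
  have hpow : IsBaseChange K ((jl T K N).compLeft (Fin s)) := IsBaseChange.finitePow (Fin s) jl_base
  let P := LinearMap.range χ.mulVecLin
  let Q := LinearMap.range (χ.map (MvPolynomial.map (algebraMap T K))).mulVecLin
  have hsub : P.restrictScalars T ≤ (Q.restrictScalars T).comap ((jl T K N).compLeft (Fin s)) := by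
    rintro x ⟨w, rfl⟩
    exact ⟨((jl T K N).compLeft (Fin s)) w, (hcomm w).symm⟩
  let e₀ : ((Fin s → MvPolynomial (Fin N) T) ⧸ P.restrictScalars T) →ₗ[T]
      ((Fin s → MvPolynomial (Fin N) K) ⧸ Q.restrictScalars T) :=
    (P.restrictScalars T).mapQ (Q.restrictScalars T) ((jl T K N).compLeft (Fin s)) hsub
  let e : Cok χ →ₗ[T] Cok (χ.map (MvPolynomial.map (algebraMap T K))) :=
    (Submodule.Quotient.restrictScalarsEquiv T Q).toLinearMap ∘ₗ e₀ ∘ₗ
      (Submodule.Quotient.restrictScalarsEquiv T P).symm.toLinearMap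
  refine ⟨e, IsBaseChange.of_right_exact K ((jl T K N).compLeft (Fin s)) ((jl T K N).compLeft (Fin s)) e
    (f := χ.mulVecLin.restrictScalars T) (g := P.mkQ.restrictScalars T)
    (f' := (χ.map (MvPolynomial.map (algebraMap T K))).mulVecLin.restrictScalars K)
    (g' := Q.mkQ.restrictScalars K) ?_ ?_ hpow hpow ?_ ?_ ?_ ?_, ?_⟩
  · exact LinearMap.ext fun w => hcomm w
  · exact LinearMap.ext fun w => rfl
  · intro x
    constructor
    · intro hx
      exact (Submodule.Quotient.mk_eq_zero P).1 hx
    · intro hx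
      exact (Submodule.Quotient.mk_eq_zero P).2 hx
  · exact Submodule.mkQ_surjective P
  · intro x
    constructor
    · intro hx
      exact (Submodule.Quotient.mk_eq_zero Q).1 hx
    · intro hx
      exact (Submodule.Quotient.mk_eq_zero Q).2 hx
  · exact Submodule.mkQ_surjective Q
  · intro a w
    obtain ⟨x, rfl⟩ := Submodule.Quotient.mk_surjective _ w
    show Submodule.Quotient.mk (p := Q) (((jl T K N).compLeft (Fin s)) (a • x)) =
      MvPolynomial.map (algebraMap T K) a • Submodule.Quotient.mk (p := Q) (((jl T K N).compLeft (Fin s)) x)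
    rw [← Submodule.Quotient.mk_smul]
    congr 1
    funext k
    exact map_mul (MvPolynomial.map (algebraMap T K)) _ _

end Poly

end SpF

/-- (SpF.1) flat base change to a field. -/
theorem len_base {T K : Type u} [CommRing T] [IsNoetherianRing T] [Field K] [Algebra T K]
    [Module.Flat T K] {N : ℕ}
    (c : Fin N → T) (n : Fin N → ℕ) (hc : ∀ i, IsUnit (c i)) (hn : ∀ i, IsUnit ((n i : ℕ) : T))
    {r s : ℕ} (F : MF (df c n) r) (G : MF (df c n) s) :
    Module.length (MvPolynomial (Fin N) K)
      (HH (F.map (MvPolynomial.map (algebraMap T K))).phi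
        (F.map (MvPolynomial.map (algebraMap T K))).psi
        (Cok (G.map (MvPolynomial.map (algebraMap T K))).phi))
      = (Module.finrank K (K ⊗[T] HH F.phi F.psi (Cok G.phi)) : ℕ∞) := by
  obtain ⟨ι, hι, hj⟩ := SpF.cok_base (K := K) G.phi
  obtain ⟨e, he⟩ := SpF.hh_base (MvPolynomial.map (algebraMap T K)) F.phi F.psi (Cok G.phi)
    (Cok (G.phi.map (MvPolynomial.map (algebraMap T K)))) ι hι hj (SpF.mact_zero F G)
    (SpF.mact_zero (F.map (MvPolynomial.map (algebraMap T K))) (G.map (MvPolynomial.map (algebraMap T K))))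
  have hcK : ∀ i, IsUnit (algebraMap T K (c i)) := fun i => (hc i).map _
  have hnK : ∀ i, IsUnit ((n i : ℕ) : K) := fun i => by
    have := (hn i).map (algebraMap T K)
    rwa [map_natCast] at this
  have key : ∀ (f : MvPolynomial (Fin N) K), f = df (fun i => algebraMap T K (c i)) n → ∀ (F' : MF f r) (G' : MF f s),
      Module.Finite K (HH F'.phi F'.psi (Cok G'.phi)) ∧
        ∀ (i : Fin N) (z : HH F'.phi F'.psi (Cok G'.phi)), (X i : MvPolynomial (Fin N) K) ^ (n i - 1) • z = 0 := by
    rintro f rfl F' G'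
    exact ⟨hh_finite _ n hcK hnK F' G', kill _ n hcK hnK F' _⟩
  obtain ⟨hfin, hkill⟩ := key _ (map_df c n (algebraMap T K)) (F.map (MvPolynomial.map (algebraMap T K)))
    (G.map (MvPolynomial.map (algebraMap T K)))
  rw [length_eq_finrank_of_pow (k := K) fun i => ⟨n i - 1, hkill i⟩]
  congr 1
  exact he.equiv.finrank_eq.symm

end Pool.Agent.HT51
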