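import Pool.Agent.HT51.SpJR
import Pool.Agent.HT51.SpF
import Pool.Agent.HT51.SpL

/-!
# Base change of `HH` and specialisation over a one-dimensional local domain, general form
-/

universe u

namespace Pool.Agent.HT51

open MvPolynomial Pool.Agent.HT21 IsLocalRing TensorProduct

theorem len_base_j {T K : Type u} [CommRing T] [IsNoetherianRing T] [Field K] [Algebra T K]
    [Module.Flat T K] {N : ℕ} {f : MvPolynomial (Fin N) T} {E : ℕ}
    (hE : ∀ i, (X i : MvPolynomial (Fin N) T) ^ E ∈ jacR f)
    {r s : ℕ} (F : MF f r) (G : MF f s) :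
    Module.length (MvPolynomial (Fin N) K)
      (HH (F.map (MvPolynomial.map (algebraMap T K))).phi
        (F.map (MvPolynomial.map (algebraMap T K))).psi
        (Cok (G.map (MvPolynomial.map (algebraMap T K))).phi))
      = (Module.finrank K (K ⊗[T] HH F.phi F.psi (Cok G.phi)) : ℕ∞) := by
  obtain ⟨ι, hι, hj⟩ := SpF.cok_base (K := K) G.phi
  obtain ⟨e, he⟩ := SpF.hh_base (MvPolynomial.map (algebraMap T K)) F.phi F.psi (Cok G.phi)
    (Cok (G.phi.map (MvPolynomial.map (algebraMap T K)))) ι hι hj (SpF.mact_zero F G)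
    (SpF.mact_zero (F.map (MvPolynomial.map (algebraMap T K))) (G.map (MvPolynomial.map (algebraMap T K))))
  have hEK := map_pow_mem_jacR (algebraMap T K) hE
  have hfin := hh_finite_j hEK (F.map (MvPolynomial.map (algebraMap T K)))
    (G.map (MvPolynomial.map (algebraMap T K)))
  have hkill : ∀ (i : Fin N) (z : HH (F.map (MvPolynomial.map (algebraMap T K))).phi
        (F.map (MvPolynomial.map (algebraMap T K))).psi
        (Cok (G.map (MvPolynomial.map (algebraMap T K))).phi)),
      (X i : MvPolynomial (Fin N) K) ^ E • z = 0 := fun i z =>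
    kill_j (F.map (MvPolynomial.map (algebraMap T K))) _ _ (hEK i) z
  rw [length_eq_finrank_of_pow (k := K) fun i => ⟨E, hkill i⟩]
  congr 1
  exact he.equiv.finrank_eq.symm

/-- invariance under extension of fields -/
theorem hd_field_j {k K : Type u} [Field k] [Field K] (j : k →+* K) {N : ℕ}
    (f : MvPolynomial (Fin N) k) (E : ℕ)
    (hE : ∀ i, (X i : MvPolynomial (Fin N) k) ^ E ∈ Ideal.span ({f} ∪ Set.range fun i => pderiv i f))
    {r s : ℕ} (F : MF f r) (G : MF f s) :
    hd (F.map (MvPolynomial.map j)) (G.map (MvPolynomial.map j)) = hd F G := by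
  let _ : Algebra k K := j.toAlgebra
  have key : ∀ {r : ℕ} (F : MF f r),
      Module.length (MvPolynomial (Fin N) K) (HH (F.map (MvPolynomial.map j)).phi
        (F.map (MvPolynomial.map j)).psi (Cok (G.map (MvPolynomial.map j)).phi)) =
      Module.length (MvPolynomial (Fin N) k) (HH F.phi F.psi (Cok G.phi)) := by
    intro r F
    have h1 := len_base_j (T := k) (K := K) hE F G
    have := hh_finite_j hE F G
    have h2 := length_eq_finrank_of_pow (k := k) (N := N) (M := HH F.phi F.psi (Cok G.phi))
      (fun i => ⟨E, fun z => kill_j F (Cok G.phi) _ (hE i) z⟩)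
    rw [h2, ← Module.finrank_baseChange (R := K)]
    exact h1
  unfold hd
  rw [key F]
  congr 2
  exact congrArg ENat.toNat (key F.swap)

/-- the one-dimensional local case -/
theorem hd_local_j {O : Type u} [CommRing O] [IsDomain O] [IsLocalRing O] [IsNoetherianRing O]
    (hO : ∀ q : Ideal O, q.IsPrime → q = ⊥ ∨ q = maximalIdeal O) (hm : maximalIdeal O ≠ ⊥)
    {K : Type u} [Field K] (j : O →+* K) (hj : Function.Injective j) {N : ℕ}
    {f : MvPolynomial (Fin N) O} {E : ℕ} (hu : ∃ m, IsUnit (coeff m f))
    (hE : ∀ i, (X i : MvPolynomial (Fin N) O) ^ E ∈ jacR f)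
    {r s : ℕ} (F : MF f r) (G : MF f s)
    (h0 : hd (F.map (MvPolynomial.map (residue O))) (G.map (MvPolynomial.map (residue O))) = 0) :
    hd (F.map (MvPolynomial.map j)) (G.map (MvPolynomial.map j)) = 0 := by
  let _ : Algebra O K := j.toAlgebra
  have hinj : Function.Injective (algebraMap O K) := hj
  have hflat : Module.Flat O K := flat_field hinj
  have h1 := rank_local hO hm (regM_of_unit hu) (kilE_of_jac hE) F G h0
  have key : ∀ {r : ℕ} (F : MF f r),
      Module.length (MvPolynomial (Fin N) K) (HH (F.map (MvPolynomial.map j)).phi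
        (F.map (MvPolynomial.map j)).psi (Cok (G.map (MvPolynomial.map j)).phi)) =
      (Module.finrank O (HH F.phi F.psi (Cok G.phi)) : ℕ∞) := by
    intro r F
    rw [← finrank_field hinj]
    exact len_base_j hE F G
  have k1 := key F
  have k2 := key F.swap
  have k2' : Module.length (MvPolynomial (Fin N) K) (HH (F.map (MvPolynomial.map j)).psi
        (F.map (MvPolynomial.map j)).phi (Cok (G.map (MvPolynomial.map j)).phi)) =
      (Module.finrank O (HH F.psi F.phi (Cok G.phi)) : ℕ∞) := k2
  unfold hd
  rw [k1, k2', h1, sub_self]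

end Pool.Agent.HT51
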