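import Pool.Agent.HT51.SpNN
import Pool.Agent.HT51.SpJC

/-!
# `hd = 0` may be checked after an extension of the field and a change of variables (helper52)
-/

universe u

namespace Pool.Agent.HT51

open MvPolynomial Pool.Agent.HT21 IsLocalRing

/-- `hd` vanishes for `f` if it vanishes for the image of `f` over a larger field `K`, after any
ring automorphism of the polynomial ring over `K`. -/
theorem hd_geom {k K : Type u} [Field k] [Field K] (i : k →+* K) {N : ℕ}
    (f : MvPolynomial (Fin N) k) (E : ℕ)
    (hE : ∀ l, (X l : MvPolynomial (Fin N) k) ^ E ∈ Ideal.span ({f} ∪ Set.range fun i => pderiv i f))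
    (α : MvPolynomial (Fin N) K ≃+* MvPolynomial (Fin N) K)
    (h : ∀ (r s : ℕ) (F : MF (α (MvPolynomial.map i f)) r) (G : MF (α (MvPolynomial.map i f)) s),
      hd F G = 0)
    {r s : ℕ} (F : MF f r) (G : MF f s) : hd F G = 0 := by
  rw [← hd_field_j i f E hE F G, ← hd_iso α (F.map (MvPolynomial.map i)) (G.map (MvPolynomial.map i))]
  exact h r s _ _

/-- the same with a given polynomial `g = α (map i f)` -/
theorem hd_geom' {k K : Type u} [Field k] [Field K] (i : k →+* K) {N : ℕ}
    (f : MvPolynomial (Fin N) k) (E : ℕ)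
    (hE : ∀ l, (X l : MvPolynomial (Fin N) k) ^ E ∈ Ideal.span ({f} ∪ Set.range fun i => pderiv i f))
    (α : MvPolynomial (Fin N) K ≃+* MvPolynomial (Fin N) K) (g : MvPolynomial (Fin N) K)
    (hg : α (MvPolynomial.map i f) = g)
    (h : ∀ (r s : ℕ) (F : MF g r) (G : MF g s), hd F G = 0)
    {r s : ℕ} (F : MF f r) (G : MF f s) : hd F G = 0 := by
  subst hg
  exact hd_geom i f E hE α h F G

end Pool.Agent.HT51
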