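import Pool.Agent.HT51.SpDefs

/-!
# Spreading out matrix factorisations of a diagonal form to a finitely generated `F_p`-algebra (helper52)
-/

universe u

namespace Pool.Agent.HT51

open MvPolynomial

section

variable {k : Type u} [Field k] {p : ℕ} [Algebra (ZMod p) k] {N : ℕ}

/-- the coefficients of the entries of a matrix -/
noncomputable def matCoeffs {r : ℕ} (A : Matrix (Fin r) (Fin r) (MvPolynomial (Fin N) k)) : Set k :=
  ⋃ a, ⋃ b, (fun m => coeff m (A a b)) '' ((A a b).support : Set (Fin N →₀ ℕ))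

lemma matCoeffs_finite {r : ℕ} (A : Matrix (Fin r) (Fin r) (MvPolynomial (Fin N) k)) :
    (matCoeffs A).Finite :=
  Set.finite_iUnion fun _ => Set.finite_iUnion fun _ => (Finset.finite_toSet _).image _

lemma exists_mat_lift {r : ℕ} (A : Matrix (Fin r) (Fin r) (MvPolynomial (Fin N) k))
    (B : Subalgebra (ZMod p) k) (h : matCoeffs A ⊆ B) :
    ∃ A0 : Matrix (Fin r) (Fin r) (MvPolynomial (Fin N) B),
      A0.map (MvPolynomial.map (B.val : B →+* k)) = A := by
  classical
  have hab : ∀ a b, ∃ q : MvPolynomial (Fin N) B, MvPolynomial.map (B.val : B →+* k) q = A a b := by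
    intro a b
    have hm : ∀ m ∈ (A a b).support, ∃ y : B, (y : k) = coeff m (A a b) := fun m hm =>
      ⟨⟨coeff m (A a b), h (Set.mem_iUnion.mpr ⟨a, Set.mem_iUnion.mpr ⟨b, ⟨m, hm, rfl⟩⟩⟩)⟩, rfl⟩
    choose! y hy using hm
    refine ⟨∑ m ∈ (A a b).support, monomial m (y m), ?_⟩
    rw [map_sum]
    conv_rhs => rw [(A a b).as_sum]
    refine Finset.sum_congr rfl fun m hm => ?_
    rw [map_monomial]
    congr 1
    exact hy m hm
  choose q hq using hab
  exact ⟨fun a b => q a b, by ext1 a b; exact hq a b⟩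

lemma matMap_injective (B : Subalgebra (ZMod p) k) :
    Function.Injective (MvPolynomial.map (B.val : B →+* k) : MvPolynomial (Fin N) B →+* _) :=
  MvPolynomial.map_injective _ Subtype.val_injective

theorem exists_mf_lift {c : Fin N → k} {n : Fin N → ℕ} {r : ℕ} (F : MF (df c n) r)
    (B : Subalgebra (ZMod p) k) (c0 : Fin N → B) (hc : ∀ i, (c0 i : k) = c i)
    (h1 : matCoeffs F.phi ⊆ B) (h2 : matCoeffs F.psi ⊆ B) :
    ∃ F0 : MF (df c0 n) r, F0.phi.map (MvPolynomial.map (B.val : B →+* k)) = F.phi ∧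
      F0.psi.map (MvPolynomial.map (B.val : B →+* k)) = F.psi := by
  obtain ⟨P, hP⟩ := exists_mat_lift F.phi B h1
  obtain ⟨Q, hQ⟩ := exists_mat_lift F.psi B h2
  have hg : MvPolynomial.map (B.val : B →+* k) (df c0 n) = df c n := by
    rw [map_df]
    congr 1
    funext i
    exact hc i
  have hinj := matMap_injective (N := N) B
  have hone : ∀ a b : Fin r, MvPolynomial.map (B.val : B →+* k)
      ((df c0 n • (1 : Matrix (Fin r) (Fin r) (MvPolynomial (Fin N) B))) a b)
        = (df c n • (1 : Matrix (Fin r) (Fin r) (MvPolynomial (Fin N) k))) a b := by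
    intro a b
    rw [Matrix.smul_apply, Matrix.smul_apply, smul_eq_mul, smul_eq_mul, map_mul, hg]
    congr 1
    by_cases hab : a = b
    · subst hab; rw [Matrix.one_apply_eq, Matrix.one_apply_eq, map_one]
    · rw [Matrix.one_apply_ne hab, Matrix.one_apply_ne hab, map_zero]
  have hmul : ∀ (P Q : Matrix (Fin r) (Fin r) (MvPolynomial (Fin N) B)) (P' Q' : Matrix (Fin r) (Fin r)
      (MvPolynomial (Fin N) k)), P.map (MvPolynomial.map (B.val : B →+* k)) = P' →
      Q.map (MvPolynomial.map (B.val : B →+* k)) = Q' →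
      P' * Q' = df c n • (1 : Matrix (Fin r) (Fin r) (MvPolynomial (Fin N) k)) →
      P * Q = df c0 n • (1 : Matrix (Fin r) (Fin r) (MvPolynomial (Fin N) B)) := by
    rintro P Q _ _ rfl rfl hPQ
    ext1 a b
    apply hinj
    rw [hone, ← hPQ, ← Matrix.map_mul, Matrix.map_apply]
  exact ⟨⟨P, Q, hmul P Q _ _ hP hQ F.phi_psi, hmul Q P _ _ hQ hP F.psi_phi⟩, hP, hQ⟩

end

/-- Spreading out: two matrix factorisations of `∑ c i * X i ^ n i`, `c i ≠ 0`, over a field of characteristic `p` are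
defined over a finitely generated `F_p`-subalgebra in which the `c i` and the `n i` are units. -/
theorem spread_out (k : Type u) [Field k] (p : ℕ) [Fact p.Prime] [Algebra (ZMod p) k] {N : ℕ} (c : Fin N → k)
    (hc : ∀ i, c i ≠ 0) (n : Fin N → ℕ) (hn : ∀ i, ((n i : ℕ) : k) ≠ 0) {r s : ℕ}
    (F : MF (df c n) r) (G : MF (df c n) s) :
    ∃ B : Subalgebra (ZMod p) k, B.FG ∧ ∃ c0 : Fin N → B, (∀ i, (c0 i : k) = c i) ∧ (∀ i, IsUnit (c0 i)) ∧
      (∀ i, IsUnit ((n i : ℕ) : B)) ∧ ∃ (F0 : MF (df c0 n) r) (G0 : MF (df c0 n) s),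
        F0.phi.map (MvPolynomial.map (B.val : B →+* k)) = F.phi ∧
        F0.psi.map (MvPolynomial.map (B.val : B →+* k)) = F.psi ∧
        G0.phi.map (MvPolynomial.map (B.val : B →+* k)) = G.phi ∧
        G0.psi.map (MvPolynomial.map (B.val : B →+* k)) = G.psi := by
  classical
  set S : Set k := Set.range c ∪ Set.range (fun i => (c i)⁻¹) ∪ (matCoeffs F.phi ∪ matCoeffs F.psi) ∪
    (matCoeffs G.phi ∪ matCoeffs G.psi) with hS
  have hSfin : S.Finite := ((Set.finite_range c).union (Set.finite_range _)).union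
    ((matCoeffs_finite _).union (matCoeffs_finite _)) |>.union
    ((matCoeffs_finite _).union (matCoeffs_finite _))
  have hsub : S ⊆ Algebra.adjoin (ZMod p) S := Algebra.subset_adjoin
  have hcS : ∀ i, c i ∈ S := fun i => Or.inl (Or.inl (Or.inl ⟨i, rfl⟩))
  have hciS : ∀ i, (c i)⁻¹ ∈ S := fun i => Or.inl (Or.inl (Or.inr ⟨i, rfl⟩))
  let c0 : Fin N → Algebra.adjoin (ZMod p) S := fun i => ⟨c i, hsub (hcS i)⟩
  obtain ⟨F0, hF1, hF2⟩ := exists_mf_lift F (Algebra.adjoin (ZMod p) S) c0 (fun _ => rfl)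
    (fun x hx => hsub (Or.inl (Or.inr (Or.inl hx)))) (fun x hx => hsub (Or.inl (Or.inr (Or.inr hx))))
  obtain ⟨G0, hG1, hG2⟩ := exists_mf_lift G (Algebra.adjoin (ZMod p) S) c0 (fun _ => rfl)
    (fun x hx => hsub (Or.inr (Or.inl hx))) (fun x hx => hsub (Or.inr (Or.inr hx)))
  refine ⟨Algebra.adjoin (ZMod p) S, Subalgebra.fg_def.mpr ⟨S, hSfin, rfl⟩, c0, fun _ => rfl, ?_, ?_, F0, G0,
    hF1, hF2, hG1, hG2⟩
  · intro i
    refine IsUnit.of_mul_eq_one (⟨(c i)⁻¹, hsub (hciS i)⟩ : Algebra.adjoin (ZMod p) S) ?_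
    exact Subtype.ext (mul_inv_cancel₀ (hc i))
  · intro i
    have h1 : ((n i : ℕ) : ZMod p) ≠ 0 := by
      intro h
      apply hn i
      have := congrArg (algebraMap (ZMod p) k) h
      rwa [map_natCast, map_zero] at this
    have h2 : ((n i : ℕ) : Algebra.adjoin (ZMod p) S) =
        algebraMap (ZMod p) (Algebra.adjoin (ZMod p) S) ((n i : ℕ) : ZMod p) := (map_natCast _ _).symm
    rw [h2]
    exact (IsUnit.mk0 _ h1).map _

/-- `hd` depends only on the matrices -/
lemma hd_congr {R : Type u} [CommRing R] {f f' : R} {r s : ℕ}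
    (F : MF f r) (G : MF f s) (F' : MF f' r) (G' : MF f' s)
    (h1 : F'.phi = F.phi) (h2 : F'.psi = F.psi) (h3 : G'.phi = G.phi) : hd F' G' = hd F G := by
  unfold hd
  rw [h1, h2, h3]

end Pool.Agent.HT51
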