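import Mathlib

/-!
# Discrete valuation rings go up along finitely generated extensions of fields
-/

universe u

namespace Pool.Agent.HT51

open Polynomial

/-- `B` dominates `A` (subrings of a field). -/
def Domi {k : Type u} [Field k] (A B : Subring k) : Prop :=
  A ≤ B ∧ ∀ x ∈ A, x⁻¹ ∈ B → x⁻¹ ∈ A

lemma Domi.refl {k : Type u} [Field k] (A : Subring k) : Domi A A := ⟨le_rfl, fun _ _ h => h⟩

lemma Domi.trans {k : Type u} [Field k] {A B C : Subring k} (h1 : Domi A B) (h2 : Domi B C) :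
    Domi A C :=
  ⟨h1.1.trans h2.1, fun x hx h => h1.2 x hx (h2.2 x (h1.1 hx) h)⟩

section val

variable {k : Type u} [Field k] {Γ : Type*} [LinearOrderedCommGroupWithZero Γ] (v : Valuation k Γ)
  (g : Γ) (K : Subfield k)

/-- Values of algebraic elements. -/
lemma val_of_alg (hg : g ≠ 0)
    (hK : ∀ x ∈ K, x ≠ 0 → ∃ e : ℤ, v x = g ^ e) (n : ℕ) (x : k) (hx : x ≠ 0) (p : K[X])
    (hp : p ≠ 0) (hpn : p.natDegree ≤ n) (hpx : aeval x p = 0) :
    ∃ z : ℤ, v x ^ (n.factorial) = g ^ z := by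
  classical
  -- two terms of the same value
  obtain ⟨i, j, hij, hi, hj, he⟩ : ∃ i j, i < j ∧ p.coeff i ≠ 0 ∧ p.coeff j ≠ 0 ∧
      v ((p.coeff i : k) * x ^ i) = v ((p.coeff j : k) * x ^ j) := by
    by_contra hcon
    push Not at hcon
    have hne : p.support.Nonempty := by
      rw [Finset.nonempty_iff_ne_empty, Ne, Polynomial.support_eq_empty]
      exact hp
    obtain ⟨m, hm, hmax⟩ := Finset.exists_max_image p.support
      (fun i => v ((p.coeff i : k) * x ^ i)) hne
    have h1 : v (∑ i ∈ p.support, (p.coeff i : k) * x ^ i) = v ((p.coeff m : k) * x ^ m) := by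
      refine Valuation.map_sum_eq_of_lt v hm ?_
      intro i hi
      rw [Finset.mem_sdiff, Finset.mem_singleton] at hi
      refine lt_of_le_of_ne (hmax i hi.1) ?_
      rcases lt_or_gt_of_ne hi.2 with h | h
      · exact hcon i m h (Polynomial.mem_support_iff.mp hi.1) (Polynomial.mem_support_iff.mp hm)
      · exact (hcon m i h (Polynomial.mem_support_iff.mp hm)
          (Polynomial.mem_support_iff.mp hi.1)).symm
    have h2 : ∑ i ∈ p.support, (p.coeff i : k) * x ^ i = 0 := by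
      rw [← hpx, Polynomial.aeval_eq_sum_range, Finset.sum_subset Polynomial.supp_subset_range_natDegree_succ]
      · rfl
      · intro i _ hi
        rw [Polynomial.notMem_support_iff.mp hi]
        simp
    rw [h2, map_zero, map_mul, map_pow] at h1
    have h3 : (p.coeff m : k) ≠ 0 := by
      intro h
      exact Polynomial.mem_support_iff.mp hm (Subtype.ext h)
    have h4 : v (p.coeff m : k) ≠ 0 := (Valuation.ne_zero_iff v).mpr h3
    have h5 : v x ≠ 0 := (Valuation.ne_zero_iff v).mpr hx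
    exact mul_ne_zero h4 (pow_ne_zero _ h5) h1.symm
  have hi' : (p.coeff i : k) ≠ 0 := fun h => hi (Subtype.ext h)
  have hj' : (p.coeff j : k) ≠ 0 := fun h => hj (Subtype.ext h)
  obtain ⟨a, ha⟩ := hK _ (p.coeff i).2 hi'
  obtain ⟨b, hb⟩ := hK _ (p.coeff j).2 hj'
  have hv : v x ≠ 0 := (Valuation.ne_zero_iff v).mpr hx
  rw [map_mul, map_mul, map_pow, map_pow, ha, hb] at he
  have h1 : v x ^ (j - i) = g ^ (a - b) := by
    have h2 : v x ^ j = v x ^ (j - i) * v x ^ i := by
      rw [← pow_add, Nat.sub_add_cancel hij.le]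
    rw [h2, ← mul_assoc] at he
    have h3 := mul_right_cancel₀ (pow_ne_zero _ hv) he
    rw [zpow_sub₀ hg, h3]
    rw [mul_comm, mul_div_assoc, div_self (zpow_ne_zero _ hg), mul_one]
  have hjn : j ≤ n := (Polynomial.le_natDegree_of_ne_zero hj).trans hpn
  obtain ⟨c, hc⟩ : (j - i) ∣ n.factorial := Nat.dvd_factorial (by omega) (by omega)
  refine ⟨(a - b) * c, ?_⟩
  rw [hc, pow_mul, h1, zpow_mul, zpow_natCast]

end val

/-- A subring of a field on which an integer valued function controls divisibility is a DVR. -/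
lemma dvr_of_w {k : Type u} [Field k] (B : Subring k) (L : Set k)
    (hBL : ∀ x ∈ B, x ∈ L) (hmul : ∀ x ∈ L, ∀ y ∈ L, x * y ∈ L) (hinv : ∀ x ∈ L, x⁻¹ ∈ L)
    (w : k → ℤ) (hw : ∀ x ∈ L, ∀ y ∈ L, x ≠ 0 → y ≠ 0 → w (x * y) = w x + w y)
    (hB : ∀ x ∈ L, x ≠ 0 → (x ∈ B ↔ 0 ≤ w x)) (t : k) (ht : t ∈ B) (ht0 : t ≠ 0)
    (htw : 0 < w t) : IsDiscreteValuationRing B := by
  classical
  -- an element of minimal positive value
  have hex : ∃ n : ℕ, ∃ x ∈ B, x ≠ 0 ∧ w x = n ∧ 0 < n :=
    ⟨(w t).toNat, t, ht, ht0, (Int.toNat_of_nonneg htw.le).symm, by omega⟩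
  obtain ⟨hd1, hd2⟩ := Nat.find_spec hex, fun m hm => Nat.find_min hex (m := m) hm
  set d := Nat.find hex with hd
  obtain ⟨ϖ, hϖB, hϖ0, hϖw, hdpos⟩ := hd1
  have hmin : ∀ x ∈ B, x ≠ 0 → w x < d → w x = 0 := by
    intro x hx hx0 hlt
    by_contra hne
    have h0 := (hB x (hBL x hx) hx0).mp hx
    exact hd2 (w x).toNat (by omega) ⟨x, hx, hx0, (Int.toNat_of_nonneg h0).symm, by omega⟩
  have hw1 : w 1 = 0 := by
    have h := hw 1 (hBL 1 B.one_mem) 1 (hBL 1 B.one_mem) one_ne_zero one_ne_zero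
    rw [mul_one] at h
    omega
  have hwinv : ∀ x ∈ L, x ≠ 0 → w x⁻¹ = - w x := by
    intro x hx hx0
    have h := hw x hx x⁻¹ (hinv x hx) hx0 (inv_ne_zero hx0)
    rw [mul_inv_cancel₀ hx0, hw1] at h
    omega
  have hunit : ∀ x : B, (x : k) ≠ 0 → w x = 0 → IsUnit x := by
    intro x hx0 hx
    have h1 : ((x : k))⁻¹ ∈ B := by
      rw [hB _ (hinv _ (hBL _ x.2)) (inv_ne_zero hx0), hwinv _ (hBL _ x.2) hx0, hx]
      exact le_refl _
    exact IsUnit.of_mul_eq_one ⟨_, h1⟩ (Subtype.ext (mul_inv_cancel₀ hx0))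
  have hunit' : ∀ x : B, IsUnit x → w x = 0 := by
    intro x hx
    obtain ⟨y, hy⟩ := hx.exists_right_inv
    have h1 : (x : k) * (y : k) = 1 := congrArg Subtype.val hy
    have hx0 : (x : k) ≠ 0 := left_ne_zero_of_mul_eq_one h1
    have hy0 : (y : k) ≠ 0 := right_ne_zero_of_mul_eq_one h1
    have h2 := hw x (hBL _ x.2) y (hBL _ y.2) hx0 hy0
    rw [h1, hw1] at h2
    have h3 := (hB _ (hBL _ x.2) hx0).mp x.2
    have h4 := (hB _ (hBL _ y.2) hy0).mp y.2
    omega
  have hpow : ∀ m : ℕ, ϖ ^ m ∈ L ∧ ϖ ^ m ≠ 0 ∧ w (ϖ ^ m) = m * d := by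
    intro m
    refine ⟨hBL _ (B.pow_mem hϖB m), pow_ne_zero _ hϖ0, ?_⟩
    induction m with
    | zero => rw [pow_zero, hw1]; simp
    | succ m ih =>
      rw [pow_succ, hw _ (hBL _ (B.pow_mem hϖB m)) _ (hBL _ hϖB) (pow_ne_zero _ hϖ0) hϖ0, ih, hϖw]
      push_cast
      ring
  refine IsDiscreteValuationRing.ofHasUnitMulPowIrreducibleFactorization
    ⟨⟨ϖ, hϖB⟩, ⟨?_, ?_⟩, ?_⟩
  · intro h
    have := hunit' _ h
    change w ϖ = 0 at this
    omega
  · rintro ⟨a, ha⟩ ⟨b, hb⟩ hab
    have hab' : ϖ = a * b := congrArg Subtype.val hab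
    have ha0 : a ≠ 0 := by rintro rfl; exact hϖ0 (by rw [hab', zero_mul])
    have hb0 : b ≠ 0 := by rintro rfl; exact hϖ0 (by rw [hab', mul_zero])
    have h1 := hw a (hBL a ha) b (hBL b hb) ha0 hb0
    rw [← hab', hϖw] at h1
    have h2 := (hB a (hBL a ha) ha0).mp ha
    have h3 := (hB b (hBL b hb) hb0).mp hb
    by_cases h4 : w a < d
    · exact Or.inl (hunit ⟨a, ha⟩ ha0 (hmin a ha ha0 h4))
    · refine Or.inr (hunit ⟨b, hb⟩ hb0 ?_)
      show w b = 0
      omega
  · rintro ⟨x, hx⟩ hx0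
    have hx0' : x ≠ 0 := fun h => hx0 (Subtype.ext h)
    have h0 := (hB x (hBL x hx) hx0').mp hx
    let m := (w x / d).toNat
    have hm : (m : ℤ) = w x / d := Int.toNat_of_nonneg (Int.ediv_nonneg h0 (by omega))
    obtain ⟨hp1, hp2, hp3⟩ := hpow m
    let y := x * (ϖ ^ m)⁻¹
    have hyL : y ∈ L := hmul _ (hBL x hx) _ (hinv _ hp1)
    have hy0 : y ≠ 0 := mul_ne_zero hx0' (inv_ne_zero hp2)
    have hyw : w y = w x % d := by
      have h1 := hw x (hBL x hx) _ (hinv _ hp1) hx0' (inv_ne_zero hp2)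
      rw [hwinv _ hp1 hp2, hp3, hm] at h1
      have h2 := Int.emod_add_mul_ediv (w x) d
      show w (x * (ϖ ^ m)⁻¹) = _
      rw [h1]
      linarith
    have hyB : y ∈ B := by
      rw [hB y hyL hy0, hyw]
      exact Int.emod_nonneg _ (by omega)
    have hy1 : w y = 0 := by
      refine hmin y hyB hy0 ?_
      rw [hyw]
      exact Int.emod_lt_of_pos _ (by omega)
    obtain ⟨u, hu⟩ := hunit ⟨y, hyB⟩ hy0 hy1
    refine ⟨m, u, ?_⟩
    refine Subtype.ext ?_
    rw [hu]
    show ϖ ^ m * (x * (ϖ ^ m)⁻¹) = x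
    rw [mul_comm x, ← mul_assoc, mul_inv_cancel₀ hp2, one_mul]

/-- The algebraic step. -/
theorem dvr_alg {k : Type u} [Field k] (A : Subring k) [IsDiscreteValuationRing A] (s : k)
    (hs : IsAlgebraic A s) :
    ∃ B : Subring k, IsDiscreteValuationRing B ∧ Domi A B ∧ ∃ a ∈ B, ∃ b ∈ B, b ≠ 0 ∧ s = a / b := by
  classical
  obtain ⟨V, hV⟩ := (LocalSubring.mk A).exists_le_valuationSubring
  obtain ⟨hAV, hloc⟩ := hV
  have hAV' : ∀ x ∈ A, x ∈ V := fun x hx => hAV hx
  have hval1 : ∀ x ∈ A, V.valuation x = 1 → x⁻¹ ∈ A := by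
    intro x hx h1
    have h2 : IsUnit (⟨x, hAV' x hx⟩ : V) := (V.valuation_eq_one_iff _).mpr h1
    have h3 : IsUnit (Subring.inclusion hAV ⟨x, hx⟩) := h2
    have h4 : IsUnit (⟨x, hx⟩ : A) := isUnit_of_map_unit (Subring.inclusion hAV) _ h3
    obtain ⟨y, hy⟩ := h4.exists_right_inv
    have h5 : x * (y : k) = 1 := congrArg Subtype.val hy
    rw [← eq_inv_of_mul_eq_one_right h5]
    exact y.2
  obtain ⟨t, ht⟩ := IsDiscreteValuationRing.exists_irreducible A
  have ht0 : (t : k) ≠ 0 := fun h => ht.ne_zero (Subtype.ext h)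
  set v := V.valuation with hv
  set g := v (t : k) with hg
  have hg0 : g ≠ 0 := (Valuation.ne_zero_iff v).mpr ht0
  have hg1 : g < 1 := by
    refine lt_of_le_of_ne (V.valuation_le_one ⟨t, hAV' _ t.2⟩) ?_
    intro h
    have h1 := hval1 t t.2 h
    exact ht.not_isUnit (IsUnit.of_mul_eq_one ⟨_, h1⟩ (Subtype.ext (mul_inv_cancel₀ ht0)))
  have hvA : ∀ x ∈ A, x ≠ 0 → ∃ m : ℕ, v x = g ^ m := by
    intro x hx hx0
    obtain ⟨m, u, hu⟩ := IsDiscreteValuationRing.eq_unit_mul_pow_irreducible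
      (x := (⟨x, hx⟩ : A)) (fun h => hx0 (congrArg Subtype.val h)) ht
    refine ⟨m, ?_⟩
    have h1 : x = (u : A) * (t : k) ^ m := congrArg Subtype.val hu
    have h2 : v ((u : A) : k) = 1 := by
      have h3 : IsUnit (Subring.inclusion hAV (u : A)) := u.isUnit.map _
      exact (V.valuation_eq_one_iff _).mp h3
    rw [h1, map_mul, map_pow, h2, one_mul]
  let K : Subfield k := Subfield.closure (A : Set k)
  have hAK : ∀ x ∈ A, x ∈ K := fun x hx => Subfield.subset_closure hx
  have hvK : ∀ x ∈ K, x ≠ 0 → ∃ e : ℤ, v x = g ^ e := by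
    intro x hx hx0
    obtain ⟨y, hy, z, hz, rfl⟩ := Subfield.mem_closure_iff.mp hx
    rw [Subring.closure_eq] at hy hz
    have hy0 : y ≠ 0 := by rintro rfl; exact hx0 (zero_div _)
    have hz0 : z ≠ 0 := by rintro rfl; exact hx0 (div_zero _)
    obtain ⟨m, hm⟩ := hvA y hy hy0
    obtain ⟨l, hl⟩ := hvA z hz hz0
    refine ⟨m - l, ?_⟩
    rw [map_div₀, hm, hl, zpow_sub₀ hg0, zpow_natCast, zpow_natCast]
  have hsK : IsIntegral K s := by
    rw [← isAlgebraic_iff_isIntegral]
    obtain ⟨p, hp, hps⟩ := hs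
    let ι : A →+* K := A.subtype.codRestrict K fun x => hAK _ x.2
    have hι : Function.Injective ι := by
      intro x y h
      exact Subtype.ext (congrArg (fun z : K => (z : k)) h)
    refine ⟨p.map ι, (Polynomial.map_ne_zero_iff hι).mpr hp, ?_⟩
    rw [Polynomial.aeval_def, Polynomial.eval₂_map]
    exact hps
  let L := IntermediateField.adjoin K {s}
  have hLfin : FiniteDimensional K L := IntermediateField.adjoin.finiteDimensional hsK
  have hKL : ∀ x ∈ K, x ∈ L := fun x hx => L.algebraMap_mem ⟨x, hx⟩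
  have hsL : s ∈ L := IntermediateField.mem_adjoin_simple_self K s
  set n := Module.finrank K L with hn
  set N := n.factorial with hN
  have hvL : ∀ x ∈ L, x ≠ 0 → ∃ z : ℤ, v x ^ N = g ^ z := by
    intro x hx hx0
    refine val_of_alg v g K hg0 hvK n x hx0 (minpoly K (⟨x, hx⟩ : L))
      (minpoly.ne_zero (Algebra.IsIntegral.isIntegral _)) (minpoly.natDegree_le _) ?_
    have h1 := minpoly.aeval K (⟨x, hx⟩ : L)
    have h2 := congrArg (algebraMap L k) h1
    rw [map_zero, ← Polynomial.aeval_algebraMap_apply] at h2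
    exact h2
  have hNpos : 0 < N := Nat.factorial_pos n
  have hanti := zpow_right_strictAnti₀ (zero_lt_iff.mpr hg0) hg1
  let w : k → ℤ := fun x => if h : x ∈ L ∧ x ≠ 0 then (hvL x h.1 h.2).choose else 0
  have hw : ∀ x ∈ L, x ≠ 0 → v x ^ N = g ^ (w x) := by
    intro x hx hx0
    have h1 : w x = (hvL x hx hx0).choose := dif_pos ⟨hx, hx0⟩
    rw [h1]
    exact (hvL x hx hx0).choose_spec
  let B : Subring k := V.toSubring ⊓ L.toSubfield.toSubring
  have hB : ∀ x, x ∈ B ↔ x ∈ V ∧ x ∈ L := fun x => Iff.rfl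
  have hwB : ∀ x ∈ L, x ≠ 0 → (x ∈ B ↔ 0 ≤ w x) := by
    intro x hx hx0
    rw [hB, ← V.valuation_le_one_iff]
    have h1 : v x ≤ 1 ↔ v x ^ N ≤ 1 := (pow_le_one_iff hNpos.ne').symm
    have h2 : g ^ (w x) ≤ 1 ↔ 0 ≤ w x := by
      have h3 := hanti.le_iff_ge (a := w x) (b := 0)
      simp only [zpow_zero] at h3
      exact h3
    rw [← hv, h1, hw x hx hx0, h2]
    exact and_iff_left hx
  have hwmul : ∀ x ∈ L, ∀ y ∈ L, x ≠ 0 → y ≠ 0 → w (x * y) = w x + w y := by
    intro x hx y hy hx0 hy0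
    have h1 := hw (x * y) (L.mul_mem hx hy) (mul_ne_zero hx0 hy0)
    rw [map_mul, mul_pow, hw x hx hx0, hw y hy hy0, ← zpow_add₀ hg0] at h1
    exact (hanti.injective h1).symm
  have htL : (t : k) ∈ L := hKL _ (hAK _ t.2)
  have hwt : w t = N := by
    have h1 := hw t htL ht0
    rw [← hg, ← zpow_natCast] at h1
    exact (hanti.injective h1).symm
  refine ⟨B, ?_, ⟨fun x hx => ⟨hAV' x hx, hKL _ (hAK _ hx)⟩, ?_⟩, ?_⟩
  · refine dvr_of_w B (L : Set k) (fun x hx => hx.2) (fun x hx y hy => L.mul_mem hx hy)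
      (fun x hx => L.inv_mem hx) w hwmul hwB t ⟨hAV' _ t.2, htL⟩ ht0 ?_
    rw [hwt]
    exact_mod_cast hNpos
  · intro x hx hxB
    by_cases hx0 : x = 0
    · subst hx0
      rw [inv_zero]
      exact A.zero_mem
    · refine hval1 x hx ?_
      have h1 := V.valuation_le_one ⟨x, hAV' x hx⟩
      have h2 := V.valuation_le_one ⟨x⁻¹, hxB.1⟩
      refine le_antisymm h1 ?_
      have h3 : v x * v x⁻¹ = 1 := by rw [← map_mul, mul_inv_cancel₀ hx0, map_one]
      calc (1 : V.ValueGroup) = v x * v x⁻¹ := h3.symm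
        _ ≤ v x * 1 := by gcongr
        _ = v x := mul_one _
  · by_cases hs0 : s = 0
    · exact ⟨0, B.zero_mem, 1, B.one_mem, one_ne_zero, by rw [hs0, zero_div]⟩
    · let m := (w s).natAbs
      have htm : (t : k) ^ m ∈ B := B.pow_mem ⟨hAV' _ t.2, htL⟩ m
      have htm0 : (t : k) ^ m ≠ 0 := pow_ne_zero _ ht0
      have hwtm : w ((t : k) ^ m) = m * N := by
        have h1 := hw _ htm.2 htm0
        rw [map_pow, ← pow_mul, ← hg, ← zpow_natCast] at h1
        have h2 := hanti.injective h1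
        rw [← h2]
        push_cast
        ring
      refine ⟨s * (t : k) ^ m, ?_, (t : k) ^ m, htm, htm0, ?_⟩
      · rw [hwB _ (L.mul_mem hsL htm.2) (mul_ne_zero hs0 htm0), hwmul _ hsL _ htm.2 hs0 htm0, hwtm]
        have h1 : -(m : ℤ) ≤ w s := by
          show -((w s).natAbs : ℤ) ≤ w s
          omega
        have h2 : (m : ℤ) ≤ m * N := by
          have : (1 : ℤ) ≤ N := by exact_mod_cast hNpos
          nlinarith [Int.natCast_nonneg m]
        linarith
      · rw [mul_div_assoc, div_self htm0, mul_one]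

lemma range_dvr {k R : Type u} [Field k] [CommRing R] [IsDomain R] [IsDiscreteValuationRing R]
    (ψ : R →+* k) (hψ : Function.Injective ψ) : IsDiscreteValuationRing ψ.range := by
  let e : R ≃+* ψ.range := RingEquiv.ofBijective ψ.rangeRestrict
    ⟨fun x y h => hψ (congrArg Subtype.val h), ψ.rangeRestrict_surjective⟩
  exact IsDiscreteValuationRing.RingEquivClass.isDiscreteValuationRing e

/-- The transcendental step, with the localisation abstract. -/
theorem dvr_trans_aux {k : Type u} [Field k] (A : Subring k) [IsDiscreteValuationRing A] (s : k)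
    (hs : Transcendental A s) (P : Ideal A[X]) (hP : P.IsPrime)
    (hPm : P = (IsLocalRing.maximalIdeal A).map Polynomial.C)
    (Loc : Type u) [CommRing Loc] [Algebra A[X] Loc] [IsLocalization.AtPrime Loc P]
    [IsDomain Loc] [IsLocalRing Loc] [IsNoetherianRing Loc] :
    ∃ B : Subring k, IsDiscreteValuationRing B ∧ Domi A B ∧ ∃ a ∈ B, ∃ b ∈ B, b ≠ 0 ∧ s = a / b := by
  classical
  obtain ⟨t, ht⟩ := IsDiscreteValuationRing.exists_irreducible A
  have hmt : IsLocalRing.maximalIdeal A = Ideal.span {t} := ht.maximalIdeal_eq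
  have hPt : P = Ideal.span {Polynomial.C t} := by
    rw [hPm, hmt, Ideal.map_span, Set.image_singleton]
  have hinj : Function.Injective (aeval (R := A) s) := transcendental_iff_injective.mp hs
  let φ : A[X] →+* k := (aeval (R := A) s).toRingHom
  have hφ : Function.Injective φ := hinj
  have hunit : ∀ y : P.primeCompl, IsUnit (φ y) := by
    intro y
    refine IsUnit.mk0 _ ?_
    intro h
    have h1 : (y : A[X]) = 0 := hφ (by rw [h, map_zero])
    apply y.2
    rw [h1]
    exact P.zero_mem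
  have hLinj : Function.Injective (algebraMap A[X] Loc) :=
    IsLocalization.injective Loc (Ideal.primeCompl_le_nonZeroDivisors P)
  obtain ⟨ψ, hψ, hψinj⟩ : ∃ ψ : Loc →+* k, (∀ p : A[X], ψ (algebraMap A[X] Loc p) = φ p) ∧
      Function.Injective ψ := by
    refine ⟨IsLocalization.lift (M := P.primeCompl) hunit,
      fun p => IsLocalization.lift_eq hunit p, ?_⟩
    rw [IsLocalization.lift_injective_iff]
    intro p q
    constructor
    · intro h
      rw [hLinj h]
    · intro h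
      rw [hφ h]
  have hfield : ¬ IsField Loc := by
    intro hF
    have h1 : IsLocalRing.maximalIdeal Loc = ⊥ := by
      rw [← IsLocalRing.isField_iff_maximalIdeal_eq]
      exact hF
    have h2 : algebraMap A[X] Loc (Polynomial.C t) ∈ IsLocalRing.maximalIdeal Loc := by
      rw [IsLocalization.AtPrime.to_map_mem_maximal_iff Loc P]
      rw [hPt]
      exact Ideal.mem_span_singleton_self _
    rw [h1, Ideal.mem_bot] at h2
    have h3 : (Polynomial.C t : A[X]) = 0 := hLinj (by rw [h2, map_zero])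
    exact ht.ne_zero (Polynomial.C_eq_zero.mp h3)
  have hdvr : IsDiscreteValuationRing Loc := by
    refine ((IsDiscreteValuationRing.TFAE Loc hfield).out 4 0).mp ?_
    refine ⟨algebraMap A[X] Loc (Polynomial.C t), ?_⟩
    have h1 := congrArg (Ideal.map (algebraMap A[X] Loc)) hPt
    rw [Ideal.map_span, Set.image_singleton] at h1
    have h2 : P.map (algebraMap A[X] Loc) = IsLocalRing.maximalIdeal Loc :=
      IsLocalization.AtPrime.map_eq_maximalIdeal P Loc
    rw [← h2]
    exact h1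
  have hB : IsDiscreteValuationRing ψ.range := range_dvr ψ hψinj
  have hC : ∀ a : A, φ (Polynomial.C a) = (a : k) := by
    intro a
    show aeval s (Polynomial.C a) = _
    rw [aeval_C]
    rfl
  have hAB : ∀ x ∈ A, x ∈ ψ.range := by
    intro x hx
    refine ⟨algebraMap A[X] Loc (Polynomial.C ⟨x, hx⟩), ?_⟩
    rw [hψ, hC]
  refine ⟨ψ.range, hB, ⟨hAB, ?_⟩, s, ?_, 1, Subring.one_mem _, one_ne_zero, (div_one s).symm⟩
  · intro x hx hxB
    by_cases hx0 : x = 0
    · subst hx0
      rw [inv_zero]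
      exact A.zero_mem
    · by_contra hcon
      have hnu : ¬ IsUnit (⟨x, hx⟩ : A) := by
        intro hu
        obtain ⟨y, hy⟩ := hu.exists_right_inv
        have h5 : x * (y : k) = 1 := congrArg Subtype.val hy
        apply hcon
        rw [← eq_inv_of_mul_eq_one_right h5]
        exact y.2
      have h1 : (⟨x, hx⟩ : A) ∈ IsLocalRing.maximalIdeal A := (IsLocalRing.mem_maximalIdeal _).mpr hnu
      have h2 : algebraMap A[X] Loc (Polynomial.C ⟨x, hx⟩) ∈ IsLocalRing.maximalIdeal Loc := by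
        rw [IsLocalization.AtPrime.to_map_mem_maximal_iff Loc P, hPm]
        exact Ideal.mem_map_of_mem _ h1
      obtain ⟨z, hz⟩ := hxB
      rw [IsLocalRing.mem_maximalIdeal] at h2
      apply h2
      refine IsUnit.of_mul_eq_one z (hψinj ?_)
      rw [map_mul, hz, hψ, hC, map_one]
      exact mul_inv_cancel₀ hx0
  · refine ⟨algebraMap A[X] Loc Polynomial.X, ?_⟩
    rw [hψ]
    show aeval s Polynomial.X = s
    rw [aeval_X]

/-- The transcendental step. -/
theorem dvr_trans {k : Type u} [Field k] (A : Subring k) [IsDiscreteValuationRing A] (s : k)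
    (hs : Transcendental A s) :
    ∃ B : Subring k, IsDiscreteValuationRing B ∧ Domi A B ∧ ∃ a ∈ B, ∃ b ∈ B, b ≠ 0 ∧ s = a / b := by
  have hP : ((IsLocalRing.maximalIdeal A).map (Polynomial.C : A →+* A[X])).IsPrime :=
    Ideal.isPrime_map_C_of_isPrime
  exact dvr_trans_aux A s hs _ hP rfl
    (Localization.AtPrime ((IsLocalRing.maximalIdeal A).map (Polynomial.C : A →+* A[X])))

/-- Discrete valuation rings go up (subring form). -/
theorem dvr_up_subring {k : Type u} [Field k] (A : Subring k) (hA : IsDiscreteValuationRing A)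
    (S : Set k) (hS : S.Finite) :
    ∃ B : Subring k, IsDiscreteValuationRing B ∧ Domi A B ∧
      ∀ s ∈ S, ∃ a ∈ B, ∃ b ∈ B, b ≠ 0 ∧ s = a / b := by
  induction S, hS using Set.Finite.induction_on with
  | empty => exact ⟨A, hA, Domi.refl A, fun s hs => absurd hs (Set.notMem_empty s)⟩
  | insert _ _ ih =>
    rename_i s S _ _
    obtain ⟨B, hB, hAB, hfr⟩ := ih
    obtain ⟨B', hB', hBB', hs⟩ : ∃ B' : Subring k, IsDiscreteValuationRing B' ∧ Domi B B' ∧
        ∃ a ∈ B', ∃ b ∈ B', b ≠ 0 ∧ s = a / b := by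
      by_cases h : IsAlgebraic B s
      · exact dvr_alg B s h
      · exact dvr_trans B s h
    refine ⟨B', hB', hAB.trans hBB', ?_⟩
    intro x hx
    rcases Set.mem_insert_iff.mp hx with rfl | hx
    · exact hs
    · obtain ⟨a, ha, b, hb, hb0, he⟩ := hfr x hx
      exact ⟨a, hBB'.1 ha, b, hBB'.1 hb, hb0, he⟩

/-- (W5) Discrete valuation rings (or fields) go up. -/
theorem dvr_up {O k : Type u} [CommRing O] [IsDomain O] [IsLocalRing O] [IsPrincipalIdealRing O]
    [Field k] (j : O →+* k) (hj : Function.Injective j) (S : Set k) (hS : S.Finite) :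
    ∃ (O' K' : Type u) (_ : CommRing O') (_ : IsDomain O') (_ : IsLocalRing O')
      (_ : IsPrincipalIdealRing O') (_ : Field K') (_ : Algebra O' K') (_ : IsFractionRing O' K')
      (a : O →+* O') (b : K' →+* k), IsLocalHom a ∧ b.comp ((algebraMap O' K').comp a) = j ∧
      ∀ x ∈ S, ∃ y, b y = x := by
  classical
  by_cases hO : IsField O
  · refine ⟨k, k, inferInstance, inferInstance, inferInstance, inferInstance, inferInstance,
      Algebra.id k, inferInstance, j, RingHom.id k, ⟨?_⟩, ?_, fun x _ => ⟨x, rfl⟩⟩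
    · intro x hx
      have hx0 : x ≠ 0 := by
        rintro rfl
        rw [map_zero] at hx
        exact not_isUnit_zero hx
      obtain ⟨y, hy⟩ := hO.mul_inv_cancel hx0
      exact IsUnit.of_mul_eq_one y hy
    · ext x
      rfl
  · have hdvr : IsDiscreteValuationRing O :=
      { not_a_field' := by
          rw [Ne, ← IsLocalRing.isField_iff_maximalIdeal_eq]
          exact hO }
    obtain ⟨B, hB, ⟨hAB, hloc⟩, hfr⟩ := dvr_up_subring j.range (range_dvr j hj) S hS
    have hinj : Function.Injective B.subtype := Subtype.val_injective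
    let b : FractionRing B →+* k := IsFractionRing.lift hinj
    have hb : ∀ x : B, b (algebraMap B (FractionRing B) x) = x := fun x =>
      IsFractionRing.lift_algebraMap hinj x
    refine ⟨B, FractionRing B, inferInstance, inferInstance, inferInstance, inferInstance,
      inferInstance, inferInstance, inferInstance, (Subring.inclusion hAB).comp j.rangeRestrict, b,
      ⟨?_⟩, ?_, ?_⟩
    · intro x hx
      obtain ⟨y, hy⟩ := hx.exists_right_inv
      have h1 : j x * (y : k) = 1 := congrArg Subtype.val hy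
      have h2 : (j x)⁻¹ ∈ B := by
        rw [← eq_inv_of_mul_eq_one_right h1]
        exact y.2
      obtain ⟨z, hz⟩ := hloc (j x) ⟨x, rfl⟩ h2
      refine IsUnit.of_mul_eq_one z (hj ?_)
      rw [map_mul, hz, map_one, mul_inv_cancel₀ (left_ne_zero_of_mul_eq_one h1)]
    · ext x
      rw [RingHom.comp_apply, RingHom.comp_apply, hb]
      rfl
    · intro x hx
      obtain ⟨a, ha, c, hc, hc0, rfl⟩ := hfr x hx
      refine ⟨algebraMap B (FractionRing B) ⟨a, ha⟩ / algebraMap B (FractionRing B) ⟨c, hc⟩, ?_⟩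
      rw [map_div₀, hb, hb]

end Pool.Agent.HT51
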