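import Pool.Agent.HT51.SpA

/-!
# (W7) from `hd = 0` to `theta = 0` for any `f` monic in `X 0` whose Jacobian ideal contains powers of the variables (helper52)
-/

universe u

namespace Pool.Agent.HT51

open MvPolynomial Pool.Agent.HT21

/-- the Jacobian ideal kills `HH` -/
lemma kill_jacIdeal {T : Type u} [CommRing T] {N : ℕ} {f : MvPolynomial (Fin N) T} {r : ℕ}
    (F : MF f r) (W : Type u) [AddCommGroup W] [Module (MvPolynomial (Fin N) T) W]
    (a : MvPolynomial (Fin N) T) (ha : a ∈ Ideal.span (Set.range fun i => pderiv i f))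
    (z : HH F.phi F.psi W) : a • z = 0 := by
  induction ha using Submodule.span_induction with
  | mem y hy =>
    obtain ⟨i, rfl⟩ := hy
    obtain ⟨⟨w, hw⟩, rfl⟩ := Submodule.Quotient.mk_surjective _ z
    rw [← Submodule.Quotient.mk_smul, Submodule.Quotient.mk_eq_zero]
    have h2 := SpK.pderiv_smul F W i w (LinearMap.mem_ker.1 hw)
    change (pderiv i f) • w ∈ LinearMap.range (mact F.psi W)
    rw [h2]
    exact LinearMap.mem_range_self _ _
  | zero => exact zero_smul _ _
  | add x y _ _ hx hy => rw [add_smul, hx, hy, add_zero]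
  | smul b y _ hy => rw [smul_assoc, hy, smul_zero]

/-- finite length over a field -/
theorem hh_length_jac {k : Type u} [Field k] {N : ℕ} (f : MvPolynomial (Fin N) k) (E : ℕ)
    (hE : ∀ i, (X i : MvPolynomial (Fin N) k) ^ E ∈ Ideal.span (Set.range fun i => pderiv i f)) {r : ℕ}
    (F : MF f r) (W : Type u) [AddCommGroup W] [Module (MvPolynomial (Fin N) k) W]
    [Module.Finite (MvPolynomial (Fin N) k) W] :
    Module.length (MvPolynomial (Fin N) k) (HH F.phi F.psi W) ≠ ⊤ := by
  let _ : Module k (HH F.phi F.psi W) := Module.compHom _ (algebraMap k (MvPolynomial (Fin N) k))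
  have : IsScalarTower k (MvPolynomial (Fin N) k) (HH F.phi F.psi W) := by
    refine ⟨fun t p m => ?_⟩
    change (t • p) • m = (algebraMap k (MvPolynomial (Fin N) k) t) • (p • m)
    rw [Algebra.smul_def, mul_smul]
  have : Module.Finite k (HH F.phi F.psi W) :=
    SpK.finite_of_pow (fun _ => E) _ fun i z => kill_jacIdeal F W _ (hE i) z
  rw [Module.length_ne_top_iff, isFiniteLength_iff_isNoetherian_isArtinian]
  exact ⟨isNoetherian_of_tower k inferInstance, isArtinian_of_tower k inferInstance⟩

/-- (W7) from `hd = 0` to `theta = 0`, any `f` monic in `X 0` with finite `HH`. -/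
theorem theta_of_hd_gen (k : Type u) [Field k] {M : ℕ} (f : MvPolynomial (Fin (M + 1)) k)
    (hf : IsUnit (finSuccEquiv k M f).leadingCoeff) (E : ℕ)
    (hE : ∀ i, (X i : MvPolynomial (Fin (M + 1)) k) ^ E ∈
      Ideal.span (Set.range fun i => pderiv i f))
    (h : ∀ (r s : ℕ) (F : MF f r) (G : MF f s), hd F G = 0) {Q : Type u} [CommRing Q]
    (π : MvPolynomial (Fin (M + 1)) k →+* Q) (hπ : Function.Surjective π)
    (hker : RingHom.ker π = Ideal.span {f})
    (W V : Type u) [AddCommGroup W] [Module Q W] [Module.Finite Q W] [AddCommGroup V] [Module Q V]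
    [Module.Finite Q V] (e : ℕ) (he : M + 1 ≤ 2 * e + 1) : theta Q e W V = 0 := by
  refine theta_quot_map f hf ?_ h π hπ hker W V e (by omega)
  intro r F W _ _ _
  exact hh_length_jac f E hE F W

/-- `(f, all derivatives)` kills `HH` -/
lemma kill_jac' {T : Type u} [CommRing T] {N : ℕ} {f : MvPolynomial (Fin N) T} {r : ℕ}
    (F : MF f r) (W : Type u) [AddCommGroup W] [Module (MvPolynomial (Fin N) T) W]
    (a : MvPolynomial (Fin N) T) (ha : a ∈ Ideal.span ({f} ∪ Set.range fun i => pderiv i f)) (z : HH F.phi F.psi W) : a • z = 0 := by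
  induction ha using Submodule.span_induction with
  | mem y hy =>
    rcases hy with rfl | ⟨i, rfl⟩
    · obtain ⟨⟨w, hw⟩, rfl⟩ := Submodule.Quotient.mk_surjective _ z
      rw [← Submodule.Quotient.mk_smul, Submodule.Quotient.mk_eq_zero]
      change y • w ∈ LinearMap.range (mact F.psi W)
      have h1 : y • w = mact F.psi W (mact F.phi W w) := by
        rw [← SpK.mact_mul, F.psi_phi, SpK.mact_smul_one]
      rw [h1]
      exact LinearMap.mem_range_self _ _
    · exact kill_jacIdeal F W _ (Ideal.subset_span ⟨i, rfl⟩) z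
  | zero => exact zero_smul _ _
  | add x y _ _ hx hy => rw [add_smul, hx, hy, add_zero]
  | smul b y _ hy => rw [smul_assoc, hy, smul_zero]

/-- finite length over a field, with the ideal `(f, all derivatives)` -/
theorem hh_length_jac' {k : Type u} [Field k] {N : ℕ} (f : MvPolynomial (Fin N) k) (E : ℕ)
    (hE : ∀ i, (X i : MvPolynomial (Fin N) k) ^ E ∈ Ideal.span ({f} ∪ Set.range fun i => pderiv i f)) {r : ℕ}
    (F : MF f r) (W : Type u) [AddCommGroup W] [Module (MvPolynomial (Fin N) k) W]
    [Module.Finite (MvPolynomial (Fin N) k) W] :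
    Module.length (MvPolynomial (Fin N) k) (HH F.phi F.psi W) ≠ ⊤ := by
  let _ : Module k (HH F.phi F.psi W) := Module.compHom _ (algebraMap k (MvPolynomial (Fin N) k))
  have : IsScalarTower k (MvPolynomial (Fin N) k) (HH F.phi F.psi W) := by
    refine ⟨fun t p m => ?_⟩
    change (t • p) • m = (algebraMap k (MvPolynomial (Fin N) k) t) • (p • m)
    rw [Algebra.smul_def, mul_smul]
  have : Module.Finite k (HH F.phi F.psi W) :=
    SpK.finite_of_pow (fun _ => E) _ fun i z => kill_jac' F W _ (hE i) z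
  rw [Module.length_ne_top_iff, isFiniteLength_iff_isNoetherian_isArtinian]
  exact ⟨isNoetherian_of_tower k inferInstance, isArtinian_of_tower k inferInstance⟩

/-- (W7) with `(f, all derivatives)`. -/
theorem theta_of_hd_jac (k : Type u) [Field k] {M : ℕ} (f : MvPolynomial (Fin (M + 1)) k)
    (hf : IsUnit (finSuccEquiv k M f).leadingCoeff) (E : ℕ)
    (hE : ∀ i, (X i : MvPolynomial (Fin (M + 1)) k) ^ E ∈ Ideal.span ({f} ∪ Set.range fun i => pderiv i f))
    (h : ∀ (r s : ℕ) (F : MF f r) (G : MF f s), hd F G = 0) {Q : Type u} [CommRing Q]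
    (π : MvPolynomial (Fin (M + 1)) k →+* Q) (hπ : Function.Surjective π)
    (hker : RingHom.ker π = Ideal.span {f})
    (W V : Type u) [AddCommGroup W] [Module Q W] [Module.Finite Q W] [AddCommGroup V] [Module Q V]
    [Module.Finite Q V] (e : ℕ) (he : M + 1 ≤ 2 * e + 1) : theta Q e W V = 0 := by
  refine theta_quot_map f hf ?_ h π hπ hker W V e (by omega)
  intro r F W _ _ _
  exact hh_length_jac' f E hE F W

/-- the ideal `(f, all derivatives)` under a ring homomorphism -/
lemma jacIdeal_map {T T' : Type u} [CommRing T] [CommRing T'] (a : T →+* T') {N : ℕ}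
    (f : MvPolynomial (Fin N) T) (E : ℕ)
    (hE : ∀ i, (X i : MvPolynomial (Fin N) T) ^ E ∈ Ideal.span ({f} ∪ Set.range fun i => pderiv i f)) :
    ∀ i, (X i : MvPolynomial (Fin N) T') ^ E ∈ Ideal.span ({MvPolynomial.map a f} ∪ Set.range fun i => pderiv i (MvPolynomial.map a f)) := by
  intro i
  have h1 := Ideal.mem_map_of_mem (MvPolynomial.map a) (hE i)
  rw [Ideal.map_span, map_pow, map_X] at h1
  refine Ideal.span_mono ?_ h1
  rintro _ ⟨_, rfl | ⟨l, rfl⟩, rfl⟩
  · exact Or.inl rfl
  · exact Or.inr ⟨l, pderiv_map⟩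

end Pool.Agent.HT51
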