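import Pool.Agent.HT51.SpW4
import Pool.Agent.HT51.SpJC
import Pool.Agent.HT51.SpV
import Pool.Agent.HT51.SpSpread
import Pool.Agent.HT51.SpW7

/-!
# (W6.2) `hd = 0` over any field which contains the local ring `O` (helper52)
-/

universe u

namespace Pool.Agent.HT51

open MvPolynomial Pool.Agent.HT21 IsLocalRing

section lift

variable {K' k : Type u} [Field K'] [Field k] (b : K' →+* k) {N : ℕ}

lemma exists_mat_lift_hom {r : ℕ} (A : Matrix (Fin r) (Fin r) (MvPolynomial (Fin N) k))
    (h : ∀ x ∈ matCoeffs A, ∃ y, b y = x) :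
    ∃ A0 : Matrix (Fin r) (Fin r) (MvPolynomial (Fin N) K'), A0.map (MvPolynomial.map b) = A := by
  classical
  have hab : ∀ a c, ∃ q : MvPolynomial (Fin N) K', MvPolynomial.map b q = A a c := by
    intro a c
    have hm : ∀ m ∈ (A a c).support, ∃ y : K', b y = coeff m (A a c) := fun m hm =>
      h _ (Set.mem_iUnion.mpr ⟨a, Set.mem_iUnion.mpr ⟨c, ⟨m, hm, rfl⟩⟩⟩)
    choose! y hy using hm
    refine ⟨∑ m ∈ (A a c).support, monomial m (y m), ?_⟩
    rw [map_sum]
    conv_rhs => rw [(A a c).as_sum]
    refine Finset.sum_congr rfl fun m hm => ?_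
    rw [map_monomial, hy m hm]
  choose q hq using hab
  exact ⟨fun a c => q a c, by ext1 a c; exact hq a c⟩

theorem exists_mf_lift_hom {g : MvPolynomial (Fin N) K'} {g' : MvPolynomial (Fin N) k}
    (hg : MvPolynomial.map b g = g') {r : ℕ} (F : MF g' r)
    (h1 : ∀ x ∈ matCoeffs F.phi, ∃ y, b y = x) (h2 : ∀ x ∈ matCoeffs F.psi, ∃ y, b y = x) :
    ∃ F0 : MF g r, F0.phi.map (MvPolynomial.map b) = F.phi ∧ F0.psi.map (MvPolynomial.map b) = F.psi := by
  obtain ⟨P, hP⟩ := exists_mat_lift_hom b F.phi h1
  obtain ⟨Q, hQ⟩ := exists_mat_lift_hom b F.psi h2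
  have hinj : Function.Injective (MvPolynomial.map b : MvPolynomial (Fin N) K' →+* MvPolynomial (Fin N) k) :=
    MvPolynomial.map_injective _ b.injective
  have hone : ∀ a c : Fin r, MvPolynomial.map b
      ((g • (1 : Matrix (Fin r) (Fin r) (MvPolynomial (Fin N) K'))) a c)
        = (g' • (1 : Matrix (Fin r) (Fin r) (MvPolynomial (Fin N) k))) a c := by
    intro a c
    rw [Matrix.smul_apply, Matrix.smul_apply, smul_eq_mul, smul_eq_mul, map_mul, hg]
    congr 1
    by_cases hac : a = c
    · subst hac; rw [Matrix.one_apply_eq, Matrix.one_apply_eq, map_one]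
    · rw [Matrix.one_apply_ne hac, Matrix.one_apply_ne hac, map_zero]
  have hmul : ∀ (P Q : Matrix (Fin r) (Fin r) (MvPolynomial (Fin N) K')) (P' Q' : Matrix (Fin r) (Fin r)
      (MvPolynomial (Fin N) k)), P.map (MvPolynomial.map b) = P' →
      Q.map (MvPolynomial.map b) = Q' →
      P' * Q' = g' • (1 : Matrix (Fin r) (Fin r) (MvPolynomial (Fin N) k)) →
      P * Q = g • (1 : Matrix (Fin r) (Fin r) (MvPolynomial (Fin N) K')) := by
    rintro P Q _ _ rfl rfl hPQ
    ext1 a c
    apply hinj
    rw [hone, ← hPQ, ← Matrix.map_mul, Matrix.map_apply]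
  exact ⟨⟨P, Q, hmul P Q _ _ hP hQ F.phi_psi, hmul Q P _ _ hQ hP F.psi_phi⟩, hP, hQ⟩

end lift

lemma finSuccEquiv_map {T T' : Type u} [CommRing T] [CommRing T'] (a : T →+* T') {M : ℕ}
    (f : MvPolynomial (Fin (M + 1)) T) : finSuccEquiv T' M (MvPolynomial.map a f) =
      Polynomial.map (MvPolynomial.map a) (finSuccEquiv T M f) := by
  induction f using MvPolynomial.induction_on with
  | C c =>
    rw [map_C]
    have h1 : finSuccEquiv T M (C c) = Polynomial.C (C c) := (finSuccEquiv T M).commutes c
    have h2 : finSuccEquiv T' M (C (a c)) = Polynomial.C (C (a c)) := (finSuccEquiv T' M).commutes (a c)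
    rw [h1, h2, Polynomial.map_C, map_C]
  | add p q hp hq => rw [map_add, map_add, map_add, Polynomial.map_add, hp, hq]
  | mul_X p i hp =>
    rw [map_mul, map_mul, map_mul, Polynomial.map_mul, hp, map_X]
    congr 1
    refine Fin.cases ?_ (fun l => ?_) i
    · rw [finSuccEquiv_X_zero, finSuccEquiv_X_zero, Polynomial.map_X]
    · rw [finSuccEquiv_X_succ, finSuccEquiv_X_succ, Polynomial.map_C, map_X]

lemma leadingCoeff_map_unit {T T' : Type u} [CommRing T] [CommRing T'] [Nontrivial T'] (a : T →+* T') {M : ℕ}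
    (f : MvPolynomial (Fin (M + 1)) T) (hf : IsUnit (finSuccEquiv T M f).leadingCoeff) :
    IsUnit (finSuccEquiv T' M (MvPolynomial.map a f)).leadingCoeff := by
  have h1 : IsUnit (MvPolynomial.map (σ := Fin M) a (finSuccEquiv T M f).leadingCoeff) := hf.map _
  rw [finSuccEquiv_map, Polynomial.leadingCoeff_map_of_leadingCoeff_ne_zero _ h1.ne_zero]
  exact h1

/-- `hd = 0` for the images of `f` in the extensions of the residue field implies `hd = 0` over every field
which contains the discrete valuation ring (or field) `O`. -/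
theorem hd_gen {O k : Type u} [CommRing O] [IsDomain O] [IsLocalRing O] [IsPrincipalIdealRing O]
    [Field k] (j : O →+* k) (hj : Function.Injective j) {M : ℕ}
    (f : MvPolynomial (Fin (M + 1)) O) (hf : IsUnit (finSuccEquiv O M f).leadingCoeff) (E : ℕ)
    (hE : ∀ i, (X i : MvPolynomial (Fin (M + 1)) O) ^ E ∈ Ideal.span ({f} ∪ Set.range fun i => pderiv i f))
    (hκ : ∀ (κ : Type u) [Field κ] (π : ResidueField O →+* κ) (r s : ℕ)
      (F : MF (MvPolynomial.map (π.comp (residue O)) f) r) (G : MF (MvPolynomial.map (π.comp (residue O)) f) s),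
      hd F G = 0)
    {r s : ℕ} (F : MF (MvPolynomial.map j f) r)
    (G : MF (MvPolynomial.map j f) s) : hd F G = 0 := by
  have hκ' : ∀ (κ : Type u) [Field κ] (π : ResidueField O →+* κ) (g : MvPolynomial (Fin (M + 1)) κ),
      MvPolynomial.map (π.comp (residue O)) f = g → ∀ (r s : ℕ) (F : MF g r) (G : MF g s), hd F G = 0 := by
    rintro κ _ π g rfl
    exact hκ κ π
  have hS : ((matCoeffs F.phi ∪ matCoeffs F.psi) ∪ (matCoeffs G.phi ∪ matCoeffs G.psi)).Finite :=
    ((matCoeffs_finite _).union (matCoeffs_finite _)).union ((matCoeffs_finite _).union (matCoeffs_finite _))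
  obtain ⟨O', K', _, _, _, _, _, _, _, a, b, ha, hb, hSb⟩ := dvr_up j hj _ hS
  have hg : MvPolynomial.map b (MvPolynomial.map (algebraMap O' K') (MvPolynomial.map a f)) =
      MvPolynomial.map j f := by
    rw [MvPolynomial.map_map, MvPolynomial.map_map, ← hb]
    rfl
  obtain ⟨F0, hF1, hF2⟩ := exists_mf_lift_hom b hg F
    (fun x hx => hSb x (Or.inl (Or.inl hx))) (fun x hx => hSb x (Or.inl (Or.inr hx)))
  obtain ⟨G0, hG1, hG2⟩ := exists_mf_lift_hom b hg G
    (fun x hx => hSb x (Or.inr (Or.inl hx))) (fun x hx => hSb x (Or.inr (Or.inr hx)))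
  have hE' := jacIdeal_map a f E hE
  have hEK := jacIdeal_map (algebraMap O' K') _ E hE'
  have hres : MvPolynomial.map ((ResidueField.map a).comp (residue O)) f =
      MvPolynomial.map (residue O') (MvPolynomial.map a f) := by
    rw [MvPolynomial.map_map]
    congr 1
  have hzero : hd F0 G0 = 0 := by
    by_cases hO' : IsField O'
    · -- the field case
      have hbij : Function.Bijective (algebraMap O' K') := by
        refine ⟨IsFractionRing.injective O' K', ?_⟩
        intro x
        obtain ⟨y, z, hz, rfl⟩ := IsFractionRing.div_surjective (A := O') x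
        have hz0 : z ≠ 0 := nonZeroDivisors.ne_zero hz
        obtain ⟨z', hz'⟩ := hO'.mul_inv_cancel hz0
        refine ⟨y * z', ?_⟩
        have h1 : algebraMap O' K' z * algebraMap O' K' z' = 1 := by rw [← map_mul, hz', map_one]
        have h2 : algebraMap O' K' z ≠ 0 := left_ne_zero_of_mul_eq_one h1
        rw [map_mul, eq_div_iff h2, mul_assoc, mul_comm (algebraMap O' K' z'), h1, mul_one]
      let e : O' ≃+* K' := RingEquiv.ofBijective (algebraMap O' K') hbij
      let t : K' →+* ResidueField O' := (residue O').comp (e.symm : K' →+* O')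
      have ht : t.comp (algebraMap O' K') = residue O' := by
        ext x
        show residue O' (e.symm (algebraMap O' K' x)) = residue O' x
        congr 1
        exact e.symm_apply_apply x
      have h1 := hd_field_j t (MvPolynomial.map (algebraMap O' K') (MvPolynomial.map a f)) E hEK F0 G0
      rw [← h1]
      refine hκ' (ResidueField O') (ResidueField.map a) _ ?_ r s _ _
      rw [hres, ← ht, ← MvPolynomial.map_map]
    · refine hd_frac_gen hO' (MvPolynomial.map a f) (leadingCoeff_map_unit a f hf) E hE' ?_ F0 G0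
      exact hκ' (ResidueField O') (ResidueField.map a) _ hres
  have h1 := hd_field_j b (MvPolynomial.map (algebraMap O' K') (MvPolynomial.map a f)) E hEK F0 G0
  rw [hzero] at h1
  rw [← h1]
  exact (hd_congr F G (F0.map (MvPolynomial.map b)) (G0.map (MvPolynomial.map b)) hF1 hF2 hG1).symm

end Pool.Agent.HT51
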