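import Pool.Agent.HT51.SpWNf
import Pool.Agent.HT51.SpW62

/-!
# `hd = 0` over the fields which contain a local principal ideal domain `O`

No variable is monic: only `f ≠ 0` modulo the maximal ideal.
-/

universe u

namespace Pool.Agent.HT51

open MvPolynomial Pool.Agent.HT21 IsLocalRing

lemma exists_red {B : Type u} [CommRing B] (τ : B) (W : Type u) [AddCommGroup W] [Module B W]
    [Module.Finite B W] : ∃ (Wb : Type u) (_ : AddCommGroup Wb) (_ : Module (B ⧸ Ideal.span {τ}) Wb)
      (_ : Module.Finite (B ⧸ Ideal.span {τ}) Wb) (p : W →+ Wb), Function.Surjective p ∧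
      (∀ b v, p (b • v) = Ideal.Quotient.mk (Ideal.span {τ}) b • p v) ∧
      ∀ v, p v = 0 ↔ ∃ w, τ • w = v :=
  ⟨W ⧸ (Ideal.span {τ} • ⊤ : Submodule B W), inferInstance, inferInstance, inferInstance,
    (Submodule.mkQ _).toAddMonoidHom, Submodule.mkQ_surjective _, fun _ _ => rfl,
    fun v => mem_tau τ v⟩

lemma exists_Q {B : Type u} [CommRing B] (τ : B) {A : Type u} [CommRing A] (g : A)
    (π : A →+* B ⧸ Ideal.span {τ}) (hπ : Function.Surjective π)
    (hker : RingHom.ker π = Ideal.span {g})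
    (W : Type u) [AddCommGroup W] [Module B W] [Module.Finite B W]
    (V : Type u) [AddCommGroup V] [Module B V] [Module.Finite B V] :
    ∃ (Q : Type u) (_ : CommRing Q) (πQ : B →+* Q)
      (π : A →+* Q) (Wb Vb : Type u) (_ : AddCommGroup Wb)
      (_ : Module Q Wb) (_ : Module.Finite Q Wb) (_ : AddCommGroup Vb) (_ : Module Q Vb)
      (_ : Module.Finite Q Vb) (pW : W →+ Wb) (pV : V →+ Vb),
      Function.Surjective πQ ∧ Function.Surjective π ∧
      RingHom.ker π = Ideal.span {g} ∧
      (∀ b, πQ b = 0 ↔ ∃ c, τ * c = b) ∧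
      (Function.Surjective pW ∧ (∀ b v, pW (b • v) = πQ b • pW v) ∧
        ∀ v, pW v = 0 ↔ ∃ w, τ • w = v) ∧
      (Function.Surjective pV ∧ (∀ b v, pV (b • v) = πQ b • pV v) ∧
        ∀ v, pV v = 0 ↔ ∃ w, τ • w = v) := by
  obtain ⟨Wb, _, _, _, pW, hW⟩ := exists_red τ W
  obtain ⟨Vb, _, _, _, pV, hV⟩ := exists_red τ V
  refine ⟨B ⧸ Ideal.span {τ}, inferInstance, Ideal.Quotient.mk (Ideal.span {τ}),
    π, Wb, Vb, inferInstance, inferInstance, inferInstance, inferInstance, inferInstance,
    inferInstance, pW, pV, Ideal.Quotient.mk_surjective, hπ, hker, ?_, hW, hV⟩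
  intro b
  rw [Ideal.Quotient.eq_zero_iff_mem, Ideal.mem_span_singleton']
  constructor
  · rintro ⟨a, ha⟩
    exact ⟨a, by rw [mul_comm]; exact ha⟩
  · rintro ⟨a, ha⟩
    exact ⟨a, by rw [mul_comm]; exact ha⟩

lemma hd_of_tor {K : Type u} [Field K] {N : ℕ} (f : MvPolynomial (Fin N) K) (hf : f ≠ 0) {r s : ℕ}
    (F : MF f r) (G : MF f s) (c : ℕ)
    (h : torLen (MvPolynomial (Fin N) K ⧸ Ideal.span {f}) (2 * c + 1)
        (Cok (G.phi.map (Ideal.Quotient.mk (Ideal.span {f}))))
        (Cok (F.phi.map (Ideal.Quotient.mk (Ideal.span {f}))))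
      = torLen (MvPolynomial (Fin N) K ⧸ Ideal.span {f}) (2 * c + 2)
        (Cok (G.phi.map (Ideal.Quotient.mk (Ideal.span {f}))))
        (Cok (F.phi.map (Ideal.Quotient.mk (Ideal.span {f}))))) : hd F G = 0 := by
  obtain ⟨h2, h3⟩ := tor_mf f hf F (Cok (G.phi.map (Ideal.Quotient.mk (Ideal.span {f})))) c
  rw [h2, h3] at h
  rw [hd_eq_quot, h, sub_self]

section

variable {O K : Type u} [CommRing O] [IsDomain O] [IsLocalRing O] [IsPrincipalIdealRing O]
  [Field K] [Algebra O K] [IsFractionRing O K]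

/-- Over `K[X]/(f)` the lengths of Tor are eventually constant if `hd = 0` over the residue field. -/
theorem tor_any (hnf : ¬ IsField O) {M : ℕ} (f : MvPolynomial (Fin (M + 1)) O)
    (hf : MvPolynomial.map (residue O) f ≠ 0) (E : ℕ)
    (hE : ∀ i, (X i : MvPolynomial (Fin (M + 1)) O) ^ E ∈
      Ideal.span ({f} ∪ Set.range fun i => pderiv i f))
    (hκ : ∀ (r s : ℕ) (F : MF (MvPolynomial.map (residue O) f) r)
      (G : MF (MvPolynomial.map (residue O) f) s), hd F G = 0)
    (W' V' : Type u) [AddCommGroup W']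
    [Module (MvPolynomial (Fin (M + 1)) K ⧸ Ideal.span {MvPolynomial.map (algebraMap O K) f}) W']
    [Module.Finite (MvPolynomial (Fin (M + 1)) K ⧸ Ideal.span {MvPolynomial.map (algebraMap O K) f})
      W'] [AddCommGroup V']
    [Module (MvPolynomial (Fin (M + 1)) K ⧸ Ideal.span {MvPolynomial.map (algebraMap O K) f}) V']
    [Module.Finite (MvPolynomial (Fin (M + 1)) K ⧸ Ideal.span {MvPolynomial.map (algebraMap O K) f})
      V'] (i : ℕ) (hi : M + 1 ≤ i) :
    torLen (MvPolynomial (Fin (M + 1)) K ⧸ Ideal.span {MvPolynomial.map (algebraMap O K) f})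
        (i + 2) W' V'
      = torLen (MvPolynomial (Fin (M + 1)) K ⧸ Ideal.span {MvPolynomial.map (algebraMap O K) f})
        (i + 3) W' V' := by
  have hf0 : f ≠ 0 := by
    rintro rfl
    exact hf (map_zero _)
  have hfK : MvPolynomial.map (algebraMap O K) f ≠ 0 := by
    intro h
    apply hf0
    apply MvPolynomial.map_injective _ (IsFractionRing.injective O K)
    rw [map_zero]
    exact h
  obtain ⟨ϖ, hϖ'⟩ := (IsPrincipalIdealRing.principal (maximalIdeal O)).principal
  have hϖ : maximalIdeal O = Ideal.span {ϖ} := hϖ'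
  have h0 : ϖ ≠ 0 := by
    rintro rfl
    apply hnf
    rw [isField_iff_maximalIdeal_eq, hϖ]
    exact Ideal.span_singleton_eq_bot.mpr rfl
  have hinj := qj_inj_any K hnf f hf
  -- lattices
  obtain ⟨W, _, _, _, ⟨LW⟩⟩ := exists_lattice (qj f (MvPolynomial.map (algebraMap O K))) (cstQ f)
    (qj_den f) W'
  obtain ⟨V, _, _, _, ⟨LV⟩⟩ := exists_lattice (qj f (MvPolynomial.map (algebraMap O K))) (cstQ f)
    (qj_den f) V'
  have tB : ∀ b, Ideal.Quotient.mk (Ideal.span {f}) (C ϖ) * b = 0 → b = 0 := fun b hb =>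
    quot_tf_any hnf f hf ϖ h0 b hb
  have hu : IsUnit (qj f (MvPolynomial.map (algebraMap O K)) (Ideal.Quotient.mk (Ideal.span {f}) (C ϖ))) :=
    cstQ_unit K f _ (mem_cstQ.mpr ⟨ϖ, h0, rfl⟩)
  have tW : ∀ w : W, Ideal.Quotient.mk (Ideal.span {f}) (C ϖ) • w = 0 → w = 0 := by
    intro w hw
    have h1 : qj f (MvPolynomial.map (algebraMap O K)) (Ideal.Quotient.mk (Ideal.span {f}) (C ϖ))
        • LW.i w = 0 := by rw [← LW.smul, hw, map_zero]
    exact LW.inj (((hu.smul_eq_zero).mp h1).trans (map_zero _).symm)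
  have tV : ∀ v : V, Ideal.Quotient.mk (Ideal.span {f}) (C ϖ) • v = 0 → v = 0 := by
    intro w hw
    have h1 : qj f (MvPolynomial.map (algebraMap O K)) (Ideal.Quotient.mk (Ideal.span {f}) (C ϖ))
        • LV.i w = 0 := by rw [← LV.smul, hw, map_zero]
    exact LV.inj (((hu.smul_eq_zero).mp h1).trans (map_zero _).symm)
  -- the resolution
  obtain ⟨PV⟩ := exists_matRes (MvPolynomial (Fin (M + 1)) O ⧸ Ideal.span {f}) V
  have hDex : ∀ i, ∃ D : Matrix (Fin (PV.r i)) (Fin (PV.r (i + 1))) (MvPolynomial (Fin (M + 1)) O),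
      D.map (Ideal.Quotient.mk (Ideal.span {f})) = PV.D i := by
    intro i
    choose g hg using fun a b => Ideal.Quotient.mk_surjective (PV.D i a b)
    exact ⟨fun a b => g a b, by ext1 a b; exact hg a b⟩
  choose D hD using hDex
  let _ : Module O (Res (Ideal.Quotient.mk (Ideal.span {f})) W) :=
    Module.compHom _ (C : O →+* MvPolynomial (Fin (M + 1)) O)
  have hST : IsScalarTower O (MvPolynomial (Fin (M + 1)) O)
      (Res (Ideal.Quotient.mk (Ideal.span {f})) W) := ⟨fun a p z => by
    show (a • p) • z = (C a : MvPolynomial (Fin (M + 1)) O) • (p • z)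
    rw [smul_smul, C_mul']⟩
  have hk : ∀ j, M + 1 ≤ j → ∀ (l : Fin (M + 1))
      (z : Fin (PV.r (j + 1)) → Res (Ideal.Quotient.mk (Ideal.span {f})) W),
      mact (D j) (Res (Ideal.Quotient.mk (Ideal.span {f})) W) z = 0 →
      ∃ y, mact (D (j + 1)) (Res (Ideal.Quotient.mk (Ideal.span {f})) W) y
        = (X l : MvPolynomial (Fin (M + 1)) O) ^ E • z := by
    intro j hj l z hz
    have h1 := kill_matRes PV W j (Ideal.Quotient.mk (Ideal.span {f}) (X l ^ E))
      (kill_O f hf0 W V (j + 1) (by omega) _ (hE l)) z (by rw [← hD]; exact hz)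
    rw [← hD] at h1
    exact h1
  -- over `K`
  have hK : ∀ j, M + 1 ≤ j → torLen
      (MvPolynomial (Fin (M + 1)) K ⧸ Ideal.span {MvPolynomial.map (algebraMap O K) f}) (j + 1) W' V'
      = (Module.finrank O (Hq3 (mact (D j) (Res (Ideal.Quotient.mk (Ideal.span {f})) W))
          (mact (D (j + 1)) (Res (Ideal.Quotient.mk (Ideal.span {f})) W))) : ℕ∞) :=
    fun j hj => tor_K_eq f hinj LW LV PV D hD E j (hk j hj)
  have hper : ∀ j, M < j → torLen
      (MvPolynomial (Fin (M + 1)) K ⧸ Ideal.span {MvPolynomial.map (algebraMap O K) f}) (j + 2) W' V'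
      = torLen (MvPolynomial (Fin (M + 1)) K ⧸ Ideal.span {MvPolynomial.map (algebraMap O K) f})
        j W' V' := fun j hj =>
    per (B := MvPolynomial (Fin (M + 1)) K) Ideal.Quotient.mk_surjective
      (MvPolynomial.map (algebraMap O K) f) Ideal.mk_ker (mem_nonZeroDivisors_of_ne_zero hfK) M
      (fun N _ _ _ => pd_mvPolynomial K (M + 1) N) W' V' j hj
  -- over the residue field
  obtain ⟨π0, hπ0, hker0⟩ := exists_piQ f hϖ
  obtain ⟨Q, _, πQ, π, Wb, Vb, _, _, _, _, _, _, pW, pV, hπQ, hπ, hker, hkπ, ⟨hpW, hsW, hkW⟩,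
    ⟨hpV, hsV, hkV⟩⟩ := exists_Q _ _ π0 hπ0 hker0 W V
  have hQ := const_Q (ResidueField O) (MvPolynomial.map (residue O) f) hf E
    (jacIdeal_map (residue O) f E hE) hκ π hπ hker Wb Vb
  have hfin : ∀ j, M < j → torLen Q j Wb Vb ≠ ⊤ := fun j hj => (hQ j hj).1
  have hconst : ∀ n, torLen Q (M + 1 + n) Wb Vb = torLen Q (M + 1) Wb Vb := by
    intro n
    induction n with
    | zero => rfl
    | succ n ih => rw [← add_assoc, (hQ (M + 1 + n) (by omega)).2, ih]
  have hmain : ∀ j, M + 1 ≤ j → ((torLen Q (M + 1) Wb Vb).toNat : ℤ)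
      = (Module.finrank O (Hq3 (mact (D (j + 1)) (Res (Ideal.Quotient.mk (Ideal.span {f})) W))
          (mact (D (j + 1 + 1)) (Res (Ideal.Quotient.mk (Ideal.span {f})) W))) : ℤ)
        + ln O (LinearMap.ker (mulT ϖ (Hq3 (mact (D (j + 1)) (Res (Ideal.Quotient.mk (Ideal.span {f})) W))
          (mact (D (j + 1 + 1)) (Res (Ideal.Quotient.mk (Ideal.span {f})) W)))))
        + ln O (LinearMap.ker (mulT ϖ (Hq3 (mact (D j) (Res (Ideal.Quotient.mk (Ideal.span {f})) W))
          (mact (D (j + 1)) (Res (Ideal.Quotient.mk (Ideal.span {f})) W))))) := by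
    intro j hj
    have h1 := tor_Q_eq f hϖ h0 πQ hπQ hkπ pW hpW hsW hkW pV hpV hsV hkV tB tW tV PV D hD E j
      (fun j' hj' => hk j' (by omega)) (hfin _ (by omega))
    have h2 := hconst (j + 1 + 1 - (M + 1))
    rw [show M + 1 + (j + 1 + 1 - (M + 1)) = j + 1 + 1 by omega] at h2
    rw [← h2]
    exact h1
  have hr : ∀ j, M + 1 ≤ j →
      ((Module.finrank O (Hq3 (mact (D (j + 2)) (Res (Ideal.Quotient.mk (Ideal.span {f})) W))
          (mact (D (j + 2 + 1)) (Res (Ideal.Quotient.mk (Ideal.span {f})) W))) : ℕ) : ℤ)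
      = ((Module.finrank O (Hq3 (mact (D j) (Res (Ideal.Quotient.mk (Ideal.span {f})) W))
          (mact (D (j + 1)) (Res (Ideal.Quotient.mk (Ideal.span {f})) W))) : ℕ) : ℤ) := by
    intro j hj
    have h1 := hK j hj
    have h2 := hK (j + 2) (by omega)
    have h3 := hper (j + 1) (by omega)
    rw [show j + 1 + 2 = j + 2 + 1 by omega, h1, h2] at h3
    exact_mod_cast h3
  have hfinal := num_ev _
    (fun j => ((Module.finrank O (Hq3 (mact (D j) (Res (Ideal.Quotient.mk (Ideal.span {f})) W))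
          (mact (D (j + 1)) (Res (Ideal.Quotient.mk (Ideal.span {f})) W))) : ℕ) : ℤ))
    (fun j => ln O (LinearMap.ker (mulT ϖ (Hq3 (mact (D j) (Res (Ideal.Quotient.mk (Ideal.span {f})) W))
          (mact (D (j + 1)) (Res (Ideal.Quotient.mk (Ideal.span {f})) W))))))
    (M + 1) hmain hr (fun j => Int.natCast_nonneg _) i hi
  rw [show i + 2 = i + 1 + 1 by omega, show i + 3 = i + 2 + 1 by omega, hK (i + 1) (by omega),
    hK (i + 2) (by omega)]
  have h9 : Module.finrank O (Hq3 (mact (D (i + 1)) (Res (Ideal.Quotient.mk (Ideal.span {f})) W))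
          (mact (D (i + 1 + 1)) (Res (Ideal.Quotient.mk (Ideal.span {f})) W)))
      = Module.finrank O (Hq3 (mact (D (i + 2)) (Res (Ideal.Quotient.mk (Ideal.span {f})) W))
          (mact (D (i + 2 + 1)) (Res (Ideal.Quotient.mk (Ideal.span {f})) W))) := by
    exact_mod_cast hfinal
  rw [h9]

/-- the theorem over the fraction field of a discrete valuation ring, no monic variable -/
theorem hd_frac_any (hnf : ¬ IsField O) {M : ℕ} (f : MvPolynomial (Fin (M + 1)) O)
    (hf : MvPolynomial.map (residue O) f ≠ 0) (E : ℕ)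
    (hE : ∀ i, (X i : MvPolynomial (Fin (M + 1)) O) ^ E ∈
      Ideal.span ({f} ∪ Set.range fun i => pderiv i f))
    (hκ : ∀ (r s : ℕ) (F : MF (MvPolynomial.map (residue O) f) r)
      (G : MF (MvPolynomial.map (residue O) f) s), hd F G = 0)
    {r s : ℕ} (F : MF (MvPolynomial.map (algebraMap O K) f) r)
    (G : MF (MvPolynomial.map (algebraMap O K) f) s) : hd F G = 0 := by
  have hfK : MvPolynomial.map (algebraMap O K) f ≠ 0 := by
    intro h
    apply hf
    have h1 : f = 0 := by
      apply MvPolynomial.map_injective _ (IsFractionRing.injective O K)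
      rw [map_zero]
      exact h
    rw [h1, map_zero]
  exact hd_of_tor _ hfK F G (M + 1) (tor_any hnf f hf E hE hκ _ _ (2 * M + 1) (by omega))

end

/-- `hd = 0` over every field which contains the local principal ideal domain `O`, if `hd = 0` over the
extensions of its residue field. -/
theorem hd_gen_any {O k : Type u} [CommRing O] [IsDomain O] [IsLocalRing O] [IsPrincipalIdealRing O]
    [Field k] (j : O →+* k) (hj : Function.Injective j) {M : ℕ}
    (f : MvPolynomial (Fin (M + 1)) O) (hf : MvPolynomial.map (residue O) f ≠ 0) (E : ℕ)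
    (hE : ∀ i, (X i : MvPolynomial (Fin (M + 1)) O) ^ E ∈ Ideal.span ({f} ∪ Set.range fun i => pderiv i f))
    (hκ : ∀ (κ : Type u) [Field κ] (π : ResidueField O →+* κ) (r s : ℕ)
      (F : MF (MvPolynomial.map (π.comp (residue O)) f) r) (G : MF (MvPolynomial.map (π.comp (residue O)) f) s),
      hd F G = 0)
    {r s : ℕ} (F : MF (MvPolynomial.map j f) r)
    (G : MF (MvPolynomial.map j f) s) : hd F G = 0 := by
  have hκ' : ∀ (κ : Type u) [Field κ] (π : ResidueField O →+* κ) (g : MvPolynomial (Fin (M + 1)) κ),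
      MvPolynomial.map (π.comp (residue O)) f = g → ∀ (r s : ℕ) (F : MF g r) (G : MF g s), hd F G = 0 := by
    rintro κ _ π g rfl
    exact hκ κ π
  have hS : ((matCoeffs F.phi ∪ matCoeffs F.psi) ∪ (matCoeffs G.phi ∪ matCoeffs G.psi)).Finite :=
    ((matCoeffs_finite _).union (matCoeffs_finite _)).union ((matCoeffs_finite _).union (matCoeffs_finite _))
  obtain ⟨O', K', _, _, _, _, _, _, _, a, b, ha, hb, hSb⟩ := dvr_up j hj _ hS
  have hg : MvPolynomial.map b (MvPolynomial.map (algebraMap O' K') (MvPolynomial.map a f)) =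
      MvPolynomial.map j f := by
    rw [MvPolynomial.map_map, MvPolynomial.map_map, ← hb]
    rfl
  obtain ⟨F0, hF1, hF2⟩ := exists_mf_lift_hom b hg F
    (fun x hx => hSb x (Or.inl (Or.inl hx))) (fun x hx => hSb x (Or.inl (Or.inr hx)))
  obtain ⟨G0, hG1, hG2⟩ := exists_mf_lift_hom b hg G
    (fun x hx => hSb x (Or.inr (Or.inl hx))) (fun x hx => hSb x (Or.inr (Or.inr hx)))
  have hE' := jacIdeal_map a f E hE
  have hEK := jacIdeal_map (algebraMap O' K') _ E hE'
  have hres : MvPolynomial.map ((ResidueField.map a).comp (residue O)) f =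
      MvPolynomial.map (residue O') (MvPolynomial.map a f) := by
    rw [MvPolynomial.map_map]
    congr 1
  have hf' : MvPolynomial.map (residue O') (MvPolynomial.map a f) ≠ 0 := by
    rw [← hres, ← MvPolynomial.map_map]
    intro h
    apply hf
    apply MvPolynomial.map_injective _ (ResidueField.map a).injective
    rw [h, map_zero]
  have hzero : hd F0 G0 = 0 := by
    by_cases hO' : IsField O'
    · -- the field case
      have hbij : Function.Bijective (algebraMap O' K') := by
        refine ⟨IsFractionRing.injective O' K', ?_⟩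
        intro x
        obtain ⟨y, z, hz, rfl⟩ := IsFractionRing.div_surjective (A := O') x
        have hz0 : z ≠ 0 := nonZeroDivisors.ne_zero hz
        obtain ⟨z', hz'⟩ := hO'.mul_inv_cancel hz0
        refine ⟨y * z', ?_⟩
        have h1 : algebraMap O' K' z * algebraMap O' K' z' = 1 := by rw [← map_mul, hz', map_one]
        have h2 : algebraMap O' K' z ≠ 0 := left_ne_zero_of_mul_eq_one h1
        rw [map_mul, eq_div_iff h2, mul_assoc, mul_comm (algebraMap O' K' z'), h1, mul_one]
      let e : O' ≃+* K' := RingEquiv.ofBijective (algebraMap O' K') hbij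
      let t : K' →+* ResidueField O' := (residue O').comp (e.symm : K' →+* O')
      have ht : t.comp (algebraMap O' K') = residue O' := by
        ext x
        show residue O' (e.symm (algebraMap O' K' x)) = residue O' x
        congr 1
        exact e.symm_apply_apply x
      have h1 := hd_field_j t (MvPolynomial.map (algebraMap O' K') (MvPolynomial.map a f)) E hEK F0 G0
      rw [← h1]
      refine hκ' (ResidueField O') (ResidueField.map a) _ ?_ r s _ _
      rw [hres, ← ht, ← MvPolynomial.map_map]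
    · refine hd_frac_any hO' (MvPolynomial.map a f) hf' E hE' ?_ F0 G0
      exact hκ' (ResidueField O') (ResidueField.map a) _ hres
  have h1 := hd_field_j b (MvPolynomial.map (algebraMap O' K') (MvPolynomial.map a f)) E hEK F0 G0
  rw [hzero] at h1
  rw [← h1]
  exact (hd_congr F G (F0.map (MvPolynomial.map b)) (G0.map (MvPolynomial.map b)) hF1 hF2 hG1).symm

end Pool.Agent.HT51
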