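import Pool.Agent.HT51.LpG
import Pool.Agent.HT51.SpQ
import Pool.Agent.HT51.SpWN

/-!
# The vanishing theorem for leading forms degenerating to invertible polynomials
-/

universe u

namespace Pool.Agent.HT51

open MvPolynomial Pool.Agent.HT21 IsLocalRing

lemma whom_map {T T' : Type u} [CommRing T] [CommRing T'] (φ : T →+* T') {N : ℕ} {w : Fin N → ℕ}
    {D : ℕ} {f : MvPolynomial (Fin N) T} (hf : f.IsWeightedHomogeneous w D) :
    (MvPolynomial.map φ f).IsWeightedHomogeneous w D := by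
  intro m hm
  refine hf fun h => hm ?_
  rw [coeff_map, h, map_zero]

/-- `hd = 0` for a form `F₀` over a field `k` which becomes, over `K` and after an automorphism of
`K[X]`, a form over a local principal ideal domain `O` with isolated singularity whose reduction is
an invertible polynomial. -/
theorem hd_degen {k K : Type u} [Field k] [Field K] (ι : k →+* K) {d : ℕ} (hd2 : Even d)
    (F₀ : MvPolynomial (Fin (d + 1)) k) (E₀ : ℕ)
    (hE₀ : ∀ i, (X i : MvPolynomial (Fin (d + 1)) k) ^ E₀ ∈ jacR F₀)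
    (α : MvPolynomial (Fin (d + 1)) K ≃+* MvPolynomial (Fin (d + 1)) K)
    {O : Type u} [CommRing O] [IsDomain O] [IsLocalRing O] [IsPrincipalIdealRing O]
    (j : O →+* K) (hj : Function.Injective j)
    (F : MvPolynomial (Fin (d + 1)) O) (E : ℕ)
    (hE : ∀ i, (X i : MvPolynomial (Fin (d + 1)) O) ^ E ∈ jacR F)
    (hFα : F.map j = α (F₀.map ι))
    (c : Fin (d + 1) → ResidueField O) (hc : ∀ i, c i ≠ 0) (a : Fin (d + 1) → ℕ)
    (ha : ∀ i, 0 < a i) (nx : Fin (d + 1) → Option (Fin (d + 1)))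
    (hinj : ∀ i j l, nx i = some l → nx j = some l → i = j) (hfix : ∀ i, nx i ≠ some i)
    (hloop : LoopOK a nx) (hred : F.map (residue O) = cform c a nx)
    {r s : ℕ} (Φ : MF F₀ r) (Γ : MF F₀ s) : hd Φ Γ = 0 := by
  classical
  have hodd : Odd (d + 1) := hd2.add_one
  refine hd_geom' ι F₀ E₀ hE₀ α (F.map j) hFα.symm ?_ Φ Γ
  intro r s Φ Γ
  refine hd_gen_any j hj F ?_ E hE ?_ Φ Γ
  · rw [hred]
    exact cform_ne_zero' c hc a ha nx hloop
  · intro κ _ π
    have h1 : MvPolynomial.map (π.comp (residue O)) F = cform (fun i => π (c i)) a nx := by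
      rw [← MvPolynomial.map_map, hred, map_cform]
    have h2 : ∀ i, (X i : MvPolynomial (Fin (d + 1)) κ) ^ E ∈ jacR (cform (fun i => π (c i)) a nx) := by
      intro i
      have h3 := map_mem_jacR (π.comp (residue O)) (hE i)
      rwa [map_pow, map_X, h1] at h3
    intro r s
    rw [h1]
    exact fun Φ Γ => hd_cform hodd _ (fun i => (map_ne_zero π).mpr (hc i)) a ha nx hinj hfix hloop
      h2 Φ Γ

/-- The vanishing theorem. -/
theorem degen_vanish {R : Type u} [CommRing R] [IsLocalRing R] [IsNoetherianRing R] (d : ℕ)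
    (hd2 : Even d) (x : Fin (d + 1) → R)
    (hx : Ideal.span (Set.range x) = maximalIdeal R)
    (hreg : RingTheory.Sequence.IsRegular R (List.ofFn x))
    (w : Fin (d + 1) → ℕ) (hw : ∀ i, 0 < w i) (N : ℕ) (hN : 0 < N)
    (P : MvPolynomial (Fin (d + 1)) R) (hP : P.IsWeightedHomogeneous w N)
    (hJ : Module.Finite (ResidueField R)
      (MvPolynomial (Fin (d + 1)) (ResidueField R) ⧸ jacIdeal (P.map (residue R))))
    {K : Type u} [Field K] (ι : ResidueField R →+* K)
    (α : MvPolynomial (Fin (d + 1)) K ≃+* MvPolynomial (Fin (d + 1)) K)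
    {O : Type u} [CommRing O] [IsDomain O] [IsLocalRing O] [IsPrincipalIdealRing O]
    (j : O →+* K) (hj : Function.Injective j)
    (F : MvPolynomial (Fin (d + 1)) O) (E : ℕ)
    (hE : ∀ i, (X i : MvPolynomial (Fin (d + 1)) O) ^ E ∈ jacR F)
    (hFα : F.map j = α ((P.map (residue R)).map ι))
    (c : Fin (d + 1) → ResidueField O) (hc : ∀ i, c i ≠ 0) (a : Fin (d + 1) → ℕ)
    (ha : ∀ i, 0 < a i) (nx : Fin (d + 1) → Option (Fin (d + 1)))
    (hinj : ∀ i j l, nx i = some l → nx j = some l → i = j) (hfix : ∀ i, nx i ≠ some i)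
    (hloop : LoopOK a nx) (hred : F.map (residue O) = cform c a nx)
    (f : R) (hf : f - aeval x P ∈ (wFilt x w).F (N + 1))
    (L M : Type u) [AddCommGroup L] [Module (R ⧸ Ideal.span {f}) L]
    [AddCommGroup M] [Module (R ⧸ Ideal.span {f}) M]
    [Module.Finite (R ⧸ Ideal.span {f}) L] [Module.Finite (R ⧸ Ideal.span {f}) M] :
    (∀ i, d < i → torLen (R ⧸ Ideal.span {f}) i L M ≠ ⊤ ∧
      torLen (R ⧸ Ideal.span {f}) (i + 1) L M = torLen (R ⧸ Ideal.span {f}) i L M) ∧
    ∀ e, d ≤ 2 * e → theta (R ⧸ Ideal.span {f}) e L M = 0 := by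
  classical
  have hPr : (P.map (residue R)).IsWeightedHomogeneous w N := whom_map _ hP
  obtain ⟨E₀, hE₀⟩ := exists_pow_of_finite hw hPr hJ
  have hP0 : P.map (residue R) ≠ 0 := by
    intro h
    rw [h, map_zero, map_zero] at hFα
    have h1 : F = 0 := MvPolynomial.map_injective j hj (by rw [hFα, map_zero])
    have h2 := cform_ne_zero' c hc a ha nx hloop
    rw [← hred, h1, map_zero] at h2
    exact h2 rfl
  refine link_theta d x hx hreg w hw N hN P hP hP0 hJ ?_ f hf L M
  intro Q _ π hπ hker W V _ _ _ _ _ _ e he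
  exact theta_of_hd_any (ResidueField R) (P.map (residue R)) hP0 E₀ hE₀
    (fun r s Φ Γ => hd_degen ι hd2 _ E₀ hE₀ α j hj F E hE hFα c hc a ha nx hinj hfix hloop
      hred Φ Γ) π hπ hker W V e (by omega)

end Pool.Agent.HT51
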