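import Pool.Agent.HT51.SpJI
import Pool.Agent.HT51.LpFin
import Pool.Agent.HT51.HyF

/-!
# The vanishing theorem with hyperbolic pairs
-/

universe u

namespace Pool.Agent.HT51

open MvPolynomial Pool.Agent.HT21 IsLocalRing

/-- The vanishing theorem; some coefficients of the invertible polynomial may vanish (hyperbolic
pairs). -/
theorem degen_vanish_h {R : Type u} [CommRing R] [IsLocalRing R] [IsNoetherianRing R] (d : ℕ)
    (hd2 : Even d) (x : Fin (d + 1) → R)
    (hx : Ideal.span (Set.range x) = maximalIdeal R)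
    (hreg : RingTheory.Sequence.IsRegular R (List.ofFn x))
    (w : Fin (d + 1) → ℕ) (hw : ∀ i, 0 < w i) (N : ℕ) (hN : 0 < N)
    (P : MvPolynomial (Fin (d + 1)) R) (hP : P.IsWeightedHomogeneous w N)
    (hJ : Module.Finite (ResidueField R)
      (MvPolynomial (Fin (d + 1)) (ResidueField R) ⧸ jacIdeal (P.map (residue R))))
    {K : Type u} [Field K] (ι : ResidueField R →+* K)
    (α : MvPolynomial (Fin (d + 1)) K ≃+* MvPolynomial (Fin (d + 1)) K)
    {O : Type u} [CommRing O] [IsDomain O] [IsLocalRing O] [IsPrincipalIdealRing O]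
    (j : O →+* K) (hj : Function.Injective j)
    (F : MvPolynomial (Fin (d + 1)) O) (E : ℕ)
    (hE : ∀ i, (X i : MvPolynomial (Fin (d + 1)) O) ^ E ∈ jacR F)
    (hFα : F.map j = α ((P.map (residue R)).map ι))
    (c : Fin (d + 1) → ResidueField O) (a : Fin (d + 1) → ℕ)
    (ha : ∀ i, 0 < a i) (nx : Fin (d + 1) → Option (Fin (d + 1)))
    (hinj : ∀ i i' l, nx i = some l → nx i' = some l → i = i') (hfix : ∀ i, nx i ≠ some i)
    (hloop : LoopOK a nx)
    (hc : ∀ q, c q = 0 → ∃ p, nx p = some q ∧ c p ≠ 0 ∧ ∀ i, nx i = some p → c i = 0)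
    (hred : F.map (residue O) = cform c a nx)
    (f : R) (hf : f - aeval x P ∈ (wFilt x w).F (N + 1))
    (L M : Type u) [AddCommGroup L] [Module (R ⧸ Ideal.span {f}) L]
    [AddCommGroup M] [Module (R ⧸ Ideal.span {f}) M]
    [Module.Finite (R ⧸ Ideal.span {f}) L] [Module.Finite (R ⧸ Ideal.span {f}) M] :
    (∀ i, d < i → torLen (R ⧸ Ideal.span {f}) i L M ≠ ⊤ ∧
      torLen (R ⧸ Ideal.span {f}) (i + 1) L M = torLen (R ⧸ Ideal.span {f}) i L M) ∧
    ∀ e, d ≤ 2 * e → theta (R ⧸ Ideal.span {f}) e L M = 0 := by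
  classical
  obtain ⟨E₀, hE₀⟩ := exists_pow_of_finite hw (whom_map _ hP) hJ
  exact inv_vanish_i d x hx hreg w hw N hN P hP E₀ hE₀ ι α j hj F hFα.symm E hE c a nx hred
    (fun κ _ _ c' hc' => hyp_zp κ (by simpa using hd2.add_one) c' a ha nx hinj hfix hloop
      (fun q hq => by
        obtain ⟨p, h1, h2, h3⟩ := hc q ((hc' q).mp hq)
        exact ⟨p, h1, fun h => h2 ((hc' p).mp h), fun i hi => (hc' i).mpr (h3 i hi)⟩))
    f hf L M

end Pool.Agent.HT51
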