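import Pool.Agent.HT51.Cpl
import Pool.Agent.HT21.InitForm

/-!
# Passage from `R/(f)` to rings with a flat map to `R/(f)`
-/

universe u

namespace Pool.Agent.HT51

open MvPolynomial Pool.Agent.HT21 IsLocalRing TensorProduct

lemma mem_max_of_lead {R : Type u} [CommRing R] [IsLocalRing R] [IsNoetherianRing R]
    {m : ℕ} (x : Fin m → R) (w : Fin m → ℕ) (hw : ∀ i, 0 < w i)
    (hx : Ideal.span (Set.range x) = maximalIdeal R)
    (N : ℕ) (hN : 0 < N) (P : MvPolynomial (Fin m) R) (hP : P.IsWeightedHomogeneous w N)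
    (f : R) (hf : f - aeval x P ∈ (wFilt x w).F (N + 1)) : f ∈ maximalIdeal R := by
  have hF1 := F_one x w hw hx
  have h1 : f - aeval x P ∈ (wFilt x w).F 1 := (wFilt x w).anti' (by omega) hf
  have h2 : aeval x P ∈ (wFilt x w).F 1 := (wFilt x w).anti' (by omega) (aeval_mem x w N P hP)
  rw [hF1] at h1 h2
  have h3 := Ideal.add_mem _ h1 h2
  rwa [sub_add_cancel] at h3

theorem vanish_of_flat {R : Type u} [CommRing R] [IsLocalRing R] [IsNoetherianRing R] (f : R)
    (hfm : f ∈ maximalIdeal R) {A : Type u} [CommRing A] [IsLocalRing A] [IsNoetherianRing A]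
    (φ : A →+* R ⧸ Ideal.span {f}) (hφ : φ.Flat)
    (hm : (maximalIdeal A).map φ = (maximalIdeal R).map (Ideal.Quotient.mk (Ideal.span {f})))
    (d : ℕ)
    (h : ∀ (L M : Type u) [AddCommGroup L] [Module (R ⧸ Ideal.span {f}) L] [AddCommGroup M]
      [Module (R ⧸ Ideal.span {f}) M] [Module.Finite (R ⧸ Ideal.span {f}) L]
      [Module.Finite (R ⧸ Ideal.span {f}) M], ∀ i, d < i →
        torLen (R ⧸ Ideal.span {f}) i L M ≠ ⊤ ∧
        torLen (R ⧸ Ideal.span {f}) (i + 1) L M = torLen (R ⧸ Ideal.span {f}) i L M)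
    (L M : Type u) [AddCommGroup L] [Module A L] [AddCommGroup M] [Module A M]
    [Module.Finite A L] [Module.Finite A M] :
    (∀ i, d < i → torLen A i L M ≠ ⊤ ∧ torLen A (i + 1) L M = torLen A i L M) ∧
      ∀ n, d ≤ 2 * n → theta A n L M = 0 := by
  have hle : Ideal.span {f} ≤ maximalIdeal R := by
    rw [Ideal.span_le]
    intro y hy
    rw [Set.mem_singleton_iff] at hy
    subst hy
    exact hfm
  have hnt : Nontrivial (R ⧸ Ideal.span {f}) := by
    refine Ideal.Quotient.nontrivial_iff.mpr ?_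
    intro h
    rw [h, top_le_iff] at hle
    exact (maximalIdeal.isMaximal R).ne_top hle
  have hloc : IsLocalRing (R ⧸ Ideal.span {f}) :=
    IsLocalRing.of_surjective' (Ideal.Quotient.mk (Ideal.span {f})) Ideal.Quotient.mk_surjective
  let _ : Algebra A (R ⧸ Ideal.span {f}) := φ.toAlgebra
  have hflat : Module.Flat A (R ⧸ Ideal.span {f}) := hφ
  have hmax : (maximalIdeal R).map (Ideal.Quotient.mk (Ideal.span {f}))
      = maximalIdeal (R ⧸ Ideal.span {f}) := by
    have h1 : (maximalIdeal R).map (Ideal.Quotient.mk (Ideal.span {f})) ≠ ⊤ := by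
      intro h2
      have h3 := Ideal.comap_map_of_surjective (Ideal.Quotient.mk (Ideal.span {f}))
        Ideal.Quotient.mk_surjective (maximalIdeal R)
      rw [h2, Ideal.comap_top, ← RingHom.ker_eq_comap_bot, Ideal.mk_ker, sup_eq_left.mpr hle] at h3
      exact (maximalIdeal.isMaximal R).ne_top h3.symm
    have h2 : ((maximalIdeal R).map (Ideal.Quotient.mk (Ideal.span {f}))).IsMaximal :=
      (Ideal.map_eq_top_or_isMaximal_of_surjective _ Ideal.Quotient.mk_surjective
        (maximalIdeal.isMaximal R)).resolve_left h1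
    exact IsLocalRing.eq_maximalIdeal h2
  have hm' : (maximalIdeal A).map (algebraMap A (R ⧸ Ideal.span {f}))
      = maximalIdeal (R ⧸ Ideal.span {f}) := by
    rw [← hmax, ← hm]
    rfl
  have hlh : IsLocalHom (algebraMap A (R ⧸ Ideal.span {f})) :=
    ((IsLocalRing.local_hom_TFAE _).out 0 2).mpr hm'.le
  have h1 : ∀ i, d < i → torLen A i L M ≠ ⊤ ∧ torLen A (i + 1) L M = torLen A i L M := by
    intro i hi
    obtain ⟨j, rfl⟩ : ∃ j, i = j + 1 := ⟨i - 1, by omega⟩
    rw [← Cpl.torLen_flat hm' L M j, ← Cpl.torLen_flat hm' L M (j + 1)]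
    exact h _ _ (j + 1) hi
  refine ⟨h1, fun n hn => ?_⟩
  unfold theta
  rw [(h1 (2 * n + 1) (by omega)).2, sub_self]

end Pool.Agent.HT51
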