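import Pool.Agent.HT51.Gen

/-!
# (GEN) for all polynomials which are monic in `x_0` up to a unit

`gen_f`: an additive function on f.g. modules over `B = k[x_0..x_M]/(f)`, `f` with unit leading coefficient
with respect to `x_0`, that vanishes on `B` and on the cokernels of the matrix factorisations of `f`, vanishes.
`gen_diag`: the case `f = ∑ c_i x_i ^ n_i`.
-/

universe u

namespace Pool.Agent.HT51

open MvPolynomial

section

variable {k : Type u} [Field k] {M : ℕ}

/-- the inclusion `k[x_1..x_M] → k[x_0..x_M]` -/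
noncomputable def sInc (k : Type u) [Field k] (M : ℕ) :
    MvPolynomial (Fin M) k →+* MvPolynomial (Fin (M + 1)) k :=
  (rename (Fin.succ) : MvPolynomial (Fin M) k →ₐ[k] _).toRingHom

lemma finSuccEquiv_sInc (s : MvPolynomial (Fin M) k) :
    finSuccEquiv k M (sInc k M s) = Polynomial.C s := by
  have h : ((finSuccEquiv k M : MvPolynomial (Fin (M + 1)) k →ₐ[k] _).comp
      (rename (Fin.succ) : MvPolynomial (Fin M) k →ₐ[k] _))
      = (Polynomial.CAlgHom : MvPolynomial (Fin M) k →ₐ[MvPolynomial (Fin M) k] _).restrictScalars k := by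
    refine algHom_ext fun j => ?_
    rw [AlgHom.comp_apply, rename_X]
    exact finSuccEquiv_X_succ
  exact congrArg (fun f => f s) h

/-- coordinates on the quotient: `B` is free and finite over `k[x_1..x_M]` -/
theorem free_finite_of_monic (f : MvPolynomial (Fin (M + 1)) k)
    (hf : IsUnit (finSuccEquiv k M f).leadingCoeff) :
    Module.Free (MvPolynomial (Fin M) k) (Res ((Ideal.Quotient.mk (Ideal.span {f})).comp (sInc k M))
        (MvPolynomial (Fin (M + 1)) k ⧸ Ideal.span {f})) ∧
      Module.Finite (MvPolynomial (Fin M) k) (Res ((Ideal.Quotient.mk (Ideal.span {f})).comp (sInc k M))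
        (MvPolynomial (Fin (M + 1)) k ⧸ Ideal.span {f})) := by
  obtain ⟨v, hv⟩ := hf
  set e := finSuccEquiv k M with he
  set g : Polynomial (MvPolynomial (Fin M) k) := Polynomial.C ((v⁻¹ : (MvPolynomial (Fin M) k)ˣ) : MvPolynomial (Fin M) k) * e f with hg
  have hmon : g.Monic := by
    rw [hg]
    apply Polynomial.monic_C_mul_of_mul_leadingCoeff_eq_one
    rw [← hv]
    exact v.inv_mul
  have hspan : Ideal.span {f} = (Ideal.span {g}).map (e.symm : Polynomial (MvPolynomial (Fin M) k) ≃ₐ[k] _).toRingEquiv.toRingHom := by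
    rw [Ideal.map_span, Set.image_singleton]
    have h1 : (e.symm.toRingEquiv.toRingHom) g =
        sInc k M ((v⁻¹ : (MvPolynomial (Fin M) k)ˣ) : MvPolynomial (Fin M) k) * f := by
      apply e.injective
      show e (e.symm g) = _
      rw [e.apply_symm_apply, map_mul, he, finSuccEquiv_sInc]
    rw [h1]
    have h2 : IsUnit (sInc k M ((v⁻¹ : (MvPolynomial (Fin M) k)ˣ) : MvPolynomial (Fin M) k)) :=
      (Units.isUnit v⁻¹).map (sInc k M)
    exact (Ideal.span_singleton_mul_left_unit h2 f).symm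
  let E0 : (Polynomial (MvPolynomial (Fin M) k) ⧸ Ideal.span {g}) ≃+*
      (MvPolynomial (Fin (M + 1)) k ⧸ Ideal.span {f}) :=
    Ideal.quotientEquiv _ _ e.symm.toRingEquiv hspan
  have hfree : Module.Free (MvPolynomial (Fin M) k)
      (Polynomial (MvPolynomial (Fin M) k) ⧸ Ideal.span {g}) := hmon.free_quotient
  have hfin : Module.Finite (MvPolynomial (Fin M) k)
      (Polynomial (MvPolynomial (Fin M) k) ⧸ Ideal.span {g}) := hmon.finite_quotient
  let E : (Polynomial (MvPolynomial (Fin M) k) ⧸ Ideal.span {g}) ≃ₗ[MvPolynomial (Fin M) k]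
      Res ((Ideal.Quotient.mk (Ideal.span {f})).comp (sInc k M))
        (MvPolynomial (Fin (M + 1)) k ⧸ Ideal.span {f}) :=
    { toFun := fun b => toRes _ _ (E0 b)
      invFun := fun b => E0.symm ((toRes _ _).symm b)
      left_inv := fun b => E0.symm_apply_apply b
      right_inv := fun b => E0.apply_symm_apply b
      map_add' := fun a b => congrArg (toRes _ _) (map_add E0 a b)
      map_smul' := fun s b => by
        rw [RingHom.id_apply, toRes_smul]
        congr 1
        obtain ⟨P, rfl⟩ := Ideal.Quotient.mk_surjective b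
        have h1 : s • (Ideal.Quotient.mk (Ideal.span {g}) P)
            = Ideal.Quotient.mk (Ideal.span {g}) (Polynomial.C s * P) := by
          rw [← Polynomial.smul_eq_C_mul]
          rfl
        rw [h1]
        show Ideal.Quotient.mk _ (e.symm (Polynomial.C s * P)) = Ideal.Quotient.mk _ (sInc k M s) * Ideal.Quotient.mk _ (e.symm P)
        rw [← map_mul, map_mul e.symm]
        congr 2
        rw [AlgEquiv.symm_apply_eq, finSuccEquiv_sInc] }
  exact ⟨Module.Free.of_equiv E, Module.Finite.equiv E⟩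

/-- (GEN) for `f` with unit leading coefficient in `x_0` -/
theorem gen_f (k : Type u) [Field k] {M : ℕ} (f : MvPolynomial (Fin (M + 1)) k)
    (hf : IsUnit (finSuccEquiv k M f).leadingCoeff)
    (nu : AddFn (MvPolynomial (Fin (M + 1)) k ⧸ Ideal.span {f}))
    (h0 : nu.val (MvPolynomial (Fin (M + 1)) k ⧸ Ideal.span {f}) = 0)
    (hMF : ∀ (r : ℕ) (F : MF f r),
      nu.val (Cok (F.phi.map (Ideal.Quotient.mk (Ideal.span {f})))) = 0)
    (W : Type u) [AddCommGroup W] [Module (MvPolynomial (Fin (M + 1)) k ⧸ Ideal.span {f}) W]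
    [Module.Finite (MvPolynomial (Fin (M + 1)) k ⧸ Ideal.span {f}) W] :
    nu.val W = 0 := by
  obtain ⟨h1, h2⟩ := free_finite_of_monic f hf
  have hne : f ≠ 0 := by
    rintro rfl
    rw [map_zero, Polynomial.leadingCoeff_zero] at hf
    exact hf.ne_zero rfl
  refine gen_aux (sInc k M) (X 0) f gen_poly
    (fun a ha => (mul_eq_zero.mp ha).resolve_left hne) h1 h2 nu h0 hMF M W ?_
  exact Pool.Agent.HT21.pd_mvPolynomial k M _

/-- the leading coefficient of `∑ c_i x_i ^ n_i` in `x_0` -/
lemma leadingCoeff_diag_c (c : Fin (M + 1) → k) (n : Fin (M + 1) → ℕ) (hn : 0 < n 0) (hc : c 0 ≠ 0) :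
    IsUnit (finSuccEquiv k M (∑ i, C (c i) * X i ^ n i)).leadingCoeff := by
  have h1 : finSuccEquiv k M (∑ i, C (c i) * X i ^ n i) =
      Polynomial.C (C (c 0)) * Polynomial.X ^ n 0
        + Polynomial.C (∑ j : Fin M, C (c j.succ) * X j ^ n j.succ) := by
    rw [map_sum, Fin.sum_univ_succ, map_mul, map_pow, finSuccEquiv_X_zero, map_sum]
    congr 1
    · congr 1
      exact (finSuccEquiv k M).commutes (c 0)
    · refine Finset.sum_congr rfl fun j _ => ?_
      rw [map_mul, map_pow, finSuccEquiv_X_succ, map_mul, map_pow]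
      congr 1
      exact (finSuccEquiv k M).commutes (c j.succ)
  have hc' : (C (c 0) : MvPolynomial (Fin M) k) ≠ 0 := by
    rw [Ne, C_eq_zero]
    exact hc
  have h2 : (Polynomial.C (C (c 0) : MvPolynomial (Fin M) k) * Polynomial.X ^ n 0
        + Polynomial.C (∑ j : Fin M, C (c j.succ) * X j ^ n j.succ)).leadingCoeff = C (c 0) := by
    rw [Polynomial.leadingCoeff_add_of_degree_lt']
    · rw [Polynomial.leadingCoeff_mul_X_pow, Polynomial.leadingCoeff_C]
    · rw [Polynomial.degree_C_mul_X_pow _ hc']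
      refine Polynomial.degree_C_le.trans_lt ?_
      exact_mod_cast hn
  rw [h1, h2]
  exact (IsUnit.mk0 (c 0) hc).map C

/-- (GEN) for `f = ∑ c_i x_i ^ n_i` -/
theorem gen_diag (k : Type u) [Field k] {M : ℕ} (c : Fin (M + 1) → k) (n : Fin (M + 1) → ℕ)
    (hn : 0 < n 0) (hc : c 0 ≠ 0) (f : MvPolynomial (Fin (M + 1)) k) (hf : f = ∑ i, C (c i) * X i ^ n i)
    (nu : AddFn (MvPolynomial (Fin (M + 1)) k ⧸ Ideal.span {f}))
    (h0 : nu.val (MvPolynomial (Fin (M + 1)) k ⧸ Ideal.span {f}) = 0)
    (hMF : ∀ (r : ℕ) (F : MF f r),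
      nu.val (Cok (F.phi.map (Ideal.Quotient.mk (Ideal.span {f})))) = 0)
    (W : Type u) [AddCommGroup W] [Module (MvPolynomial (Fin (M + 1)) k ⧸ Ideal.span {f}) W]
    [Module.Finite (MvPolynomial (Fin (M + 1)) k ⧸ Ideal.span {f}) W] :
    nu.val W = 0 :=
  gen_f k f (by rw [hf]; exact leadingCoeff_diag_c c n hn hc) nu h0 hMF W

end

end Pool.Agent.HT51
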