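import Pool.Agent.HT51.Filt2
import Pool.Agent.HT51.Eval

/-!
# Specialisation of a family of matrix factorisations at two values of the parameter
-/

universe u

namespace Pool.Agent.HT51

open Matrix Polynomial

section

variable {B : Type u} [CommRing B] [IsNoetherianRing B] {r : ℕ}

/-- Specialisation of the inner variable. -/
noncomputable abbrev spec (c : B) : B[X][X] →+* B[X] := mapRingHom (evalRingHom c)

lemma spec_ker (c : B) (x : B[X][X]) (hx : spec c x = 0) :
    ∃ y, x = Polynomial.C (X - Polynomial.C c) * y := by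
  have h1 : x ∈ RingHom.ker (spec c) := hx
  rw [Polynomial.ker_mapRingHom, Polynomial.ker_evalRingHom, Ideal.map_span,
    Set.image_singleton, Ideal.mem_span_singleton'] at h1
  obtain ⟨y, hy⟩ := h1
  exact ⟨y, by rw [← hy, mul_comm]⟩

lemma spec_surj (c : B) : Function.Surjective (spec c) := by
  refine Polynomial.map_surjective _ ?_
  intro b
  exact ⟨Polynomial.C b, by simp⟩

/-- The family `B[Y][X]^r/(A, u)` specialised at `Y = c 0` and `Y = c 1`. -/
lemma homot (lam : AddFn B) {s : B} (hs : lam.Kills s)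
    (A P : Matrix (Fin r) (Fin r) B[X][X]) (h u : B[X][X])
    (hAP : A * P = h • (1 : Matrix (Fin r) (Fin r) B[X][X]))
    (hPA : P * A = h • (1 : Matrix (Fin r) (Fin r) B[X][X]))
    (hu : u.Monic) (hh : h = Polynomial.C (Polynomial.C s) * u) (c : Fin 2 → B) :
    lam.val ((Fin r → B[X]) ⧸ sm (A.map (spec (c 0))) (spec (c 0) u))
      = lam.val ((Fin r → B[X]) ⧸ sm (A.map (spec (c 1))) (spec (c 1) u)) := by
  have hfin : Module.Finite B[X] ((Fin r → B[X][X]) ⧸ sm A u) := finite_quot_sm A u hu
  -- specialisation of vectors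
  let sv : ∀ j : Fin 2, (Fin r → B[X][X]) →+ (Fin r → B[X]) := fun j =>
    { toFun := fun v l => spec (c j) (v l)
      map_zero' := by funext l; simp
      map_add' := fun v w => by funext l; simp }
  have hsv : ∀ j v l, sv j v l = spec (c j) (v l) := fun _ _ _ => rfl
  have hsvA : ∀ j w, sv j (A *ᵥ w) = (A.map (spec (c j))) *ᵥ sv j w := by
    intro j w
    funext l
    rw [hsv]
    simp only [Matrix.mulVec, dotProduct, map_sum, map_mul, Matrix.map_apply, hsv]
  have hsvs : ∀ j (a : B[X][X]) w, sv j (a • w) = spec (c j) a • sv j w := by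
    intro j a w
    funext l
    simp only [hsv, Pi.smul_apply, smul_eq_mul, map_mul]
  have hmem : ∀ j v, v ∈ sm A u → sv j v ∈ sm (A.map (spec (c j))) (spec (c j) u) := by
    intro j v hv
    obtain ⟨w, z, rfl⟩ := (mem_sm A u v).mp hv
    refine (mem_sm _ _ _).mpr ⟨sv j w, sv j z, ?_⟩
    rw [map_add, hsvA, hsvs]
  let e : ∀ j : Fin 2, ((Fin r → B[X][X]) ⧸ sm A u) →+
      ((Fin r → B[X]) ⧸ sm (A.map (spec (c j))) (spec (c j) u)) := fun j =>
    QuotientAddGroup.map (sm A u).toAddSubgroup
      (sm (A.map (spec (c j))) (spec (c j) u)).toAddSubgroup (sv j) (fun v hv => hmem j v hv)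
  have hemk : ∀ j v, e j (Submodule.Quotient.mk v) = Submodule.Quotient.mk (sv j v) :=
    fun _ _ => rfl
  refine ev_torsion lam s hs c ((Fin r → B[X][X]) ⧸ sm A u)
    (fun j => (Fin r → B[X]) ⧸ sm (A.map (spec (c j))) (spec (c j) u)) e ?_ ?_ ?_ ?_ ?_
  · intro j b w
    obtain ⟨v, rfl⟩ := Submodule.Quotient.mk_surjective _ w
    rw [← Submodule.Quotient.mk_smul, hemk, hemk, ← Submodule.Quotient.mk_smul]
    congr 1
    funext l
    simp only [hsv, Pi.smul_apply]
    rw [Polynomial.smul_eq_C_mul, map_mul, Polynomial.smul_eq_C_mul]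
    simp
  · intro j w
    obtain ⟨v, rfl⟩ := Submodule.Quotient.mk_surjective _ w
    rw [← Submodule.Quotient.mk_smul, hemk, hemk, ← Submodule.Quotient.mk_smul]
    congr 1
    funext l
    simp only [hsv, Pi.smul_apply]
    rw [Polynomial.smul_eq_C_mul, map_mul, Polynomial.smul_eq_C_mul]
    simp
  · intro j y
    obtain ⟨v, rfl⟩ := Submodule.Quotient.mk_surjective _ y
    choose w hw using fun l => spec_surj (c j) (v l)
    refine ⟨Submodule.Quotient.mk w, ?_⟩
    rw [hemk]
    congr 1
    funext l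
    exact hw l
  · intro j w hw
    obtain ⟨v, rfl⟩ := Submodule.Quotient.mk_surjective _ w
    rw [hemk, Submodule.Quotient.mk_eq_zero] at hw
    obtain ⟨w1, z1, hwz⟩ := (mem_sm _ _ _).mp hw
    choose w2 hw2 using fun l => spec_surj (c j) (w1 l)
    choose z2 hz2 using fun l => spec_surj (c j) (z1 l)
    have h1 : sv j (v - (A *ᵥ w2 + u • z2)) = 0 := by
      rw [map_sub, map_add, hsvA, hsvs, sub_eq_zero, hwz]
      have e1 : sv j w2 = w1 := funext hw2
      have e2 : sv j z2 = z1 := funext hz2
      rw [e1, e2]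
    choose y hy using fun l => spec_ker (c j) _ (congrFun h1 l)
    refine ⟨Submodule.Quotient.mk y, ?_⟩
    rw [← Submodule.Quotient.mk_smul, Submodule.Quotient.eq]
    have h2 : v - (X - Polynomial.C (c j)) • y = A *ᵥ w2 + u • z2 := by
      funext l
      have := hy l
      simp only [Pi.sub_apply, Pi.smul_apply, Pi.add_apply] at this ⊢
      rw [Polynomial.smul_eq_C_mul, ← this]
      ring
    rw [h2]
    exact (mem_sm _ _ _).mpr ⟨w2, z2, rfl⟩
  · intro j w hw
    obtain ⟨v, rfl⟩ := Submodule.Quotient.mk_surjective _ w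
    have h0 : (Polynomial.C (X - Polynomial.C (c j)) : B[X][X]) • v ∈ sm A u := by
      rw [← Submodule.Quotient.mk_eq_zero, ← hw, ← Submodule.Quotient.mk_smul]
      congr 1
      funext l
      simp only [Pi.smul_apply, smul_eq_mul]
      rw [Polynomial.smul_eq_C_mul]
    have h1 := tl1 A P h (Polynomial.C (Polynomial.C s)) u
      (Polynomial.C (X - Polynomial.C (c j))) hAP hPA hh ?_ ?_ v h0
    · refine ⟨1, ?_⟩
      rw [← Submodule.Quotient.mk_smul, Submodule.Quotient.mk_eq_zero]
      obtain ⟨w1, hw1⟩ := (mem_range_mulVec _ _).mp h1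
      refine (mem_sm _ _ _).mpr ⟨w1, 0, ?_⟩
      rw [smul_zero, add_zero, ← hw1]
      funext l
      simp only [Pi.smul_apply, smul_eq_mul]
      rw [Polynomial.smul_eq_C_mul, pow_one]
    · intro x hx
      refine Polynomial.ext fun i => ?_
      have h3 := congrArg (fun p => p.coeff i) hx
      simp only [Polynomial.coeff_C_mul, Polynomial.coeff_zero] at h3
      rw [monic_mul_eq_zero (monic_X_sub_C (c j)) _ h3, Polynomial.coeff_zero]
    · intro x y hxy
      have h3 := congrArg (spec (c j)) hxy
      rw [map_mul, map_mul] at h3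
      have h4 : spec (c j) (Polynomial.C (X - Polynomial.C (c j))) = 0 := by
        simp
      rw [h4, zero_mul] at h3
      have h5 : (spec (c j) u).Monic := hu.map _
      exact spec_ker (c j) x (monic_mul_eq_zero h5 _ h3)

end

end Pool.Agent.HT51
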