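import Pool.Agent.HT51.Defs2

/-!
# The polynomial identity behind the Frobenius relation
-/

universe u

namespace Pool.Agent.HT51

open Polynomial

/-- `∏_{e ∈ k} (t - e) = t^q - t`. -/
lemma prod_sub_eq {k : Type u} [Field k] [Fintype k] {T : Type*} [CommRing T] [Algebra k T]
    (t : T) : ∏ e : k, (t - algebraMap k T e) = t ^ Fintype.card k - t := by
  classical
  have h1 : (X ^ Fintype.card k - X : k[X]) = ∏ e : k, (X - C e) := by
    have hmon : (X ^ Fintype.card k - X : k[X]).Monic := by
      refine Polynomial.monic_X_pow_sub ?_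
      rw [degree_X]
      exact_mod_cast Fintype.one_lt_card
    have hsp := FiniteField.roots_X_pow_card_sub_X k
    have hcard : Multiset.card (X ^ Fintype.card k - X : k[X]).roots
        = (X ^ Fintype.card k - X : k[X]).natDegree := by
      rw [hsp, FiniteField.X_pow_card_sub_X_natDegree_eq k Fintype.one_lt_card]
      rfl
    have h2 := Polynomial.prod_multiset_X_sub_C_of_monic_of_roots_card_eq hmon hcard
    rw [hsp] at h2
    rw [← h2]
    rfl
  have h3 := congrArg (aeval t) h1
  rw [map_sub, map_pow, aeval_X, map_prod] at h3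
  rw [h3]
  refine Finset.prod_congr rfl fun e _ => ?_
  rw [map_sub, aeval_X, aeval_C]

private lemma prod_sub_mul_eq_field {k : Type u} [Field k] [Fintype k] {K : Type u} [Field K]
    [Algebra k K] (a b : K) (hb0 : b ≠ 0) : ∏ e : k, (a - algebraMap k K e * b)
      = a ^ Fintype.card k - a * b ^ (Fintype.card k - 1) := by
  have hq : 1 < Fintype.card k := Fintype.one_lt_card
  have h1 := prod_sub_eq (k := k) (T := K) (a / b)
  have h2 : ∏ e : k, (a - algebraMap k K e * b) = b ^ Fintype.card k
      * ∏ e : k, (a / b - algebraMap k K e) := by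
    have h3 : (b ^ Fintype.card k : K) = ∏ _e : k, b := by
      rw [Finset.prod_const, Finset.card_univ]
    rw [h3, ← Finset.prod_mul_distrib]
    refine Finset.prod_congr rfl fun e _ => ?_
    rw [mul_sub, mul_div_cancel₀ _ hb0, mul_comm b]
  rw [h2, h1, mul_sub, ← mul_pow, mul_div_cancel₀ _ hb0]
  have h5 : b ^ Fintype.card k = b ^ (Fintype.card k - 1) * b := by
    rw [← pow_succ, Nat.sub_add_cancel hq.le]
  rw [h5, mul_assoc, mul_div_cancel₀ _ hb0]
  ring

/-- homogeneous form -/
lemma prod_sub_mul_eq {k : Type u} [Field k] [Fintype k] {T : Type u} [CommRing T] [Algebra k T]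
    (x s : T) : ∏ e : k, (x - algebraMap k T e * s)
      = x ^ Fintype.card k - x * s ^ (Fintype.card k - 1) := by
  classical
  -- universal case
  have key : ∏ e : k, ((MvPolynomial.X 0 : MvPolynomial (Fin 2) k)
        - MvPolynomial.C e * MvPolynomial.X 1)
      = MvPolynomial.X 0 ^ Fintype.card k
        - MvPolynomial.X 0 * MvPolynomial.X 1 ^ (Fintype.card k - 1) := by
    refine IsFractionRing.injective (MvPolynomial (Fin 2) k)
      (FractionRing (MvPolynomial (Fin 2) k)) ?_
    have hb0 : algebraMap (MvPolynomial (Fin 2) k) (FractionRing (MvPolynomial (Fin 2) k))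
        (MvPolynomial.X 1) ≠ 0 := by
      intro h
      have h2 := (IsFractionRing.injective (MvPolynomial (Fin 2) k)
        (FractionRing (MvPolynomial (Fin 2) k))) (h.trans (map_zero _).symm)
      exact MvPolynomial.X_ne_zero _ h2
    have h1 := prod_sub_mul_eq_field (k := k)
      (algebraMap (MvPolynomial (Fin 2) k) (FractionRing (MvPolynomial (Fin 2) k))
        (MvPolynomial.X 0)) _ hb0
    rw [map_prod, map_sub, map_pow, map_mul, map_pow, ← h1]
    refine Finset.prod_congr rfl fun e _ => ?_
    rw [map_sub, map_mul]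
    congr 2
  have h := congrArg (MvPolynomial.aeval (R := k) ![x, s]) key
  rw [map_prod, map_sub, map_pow, map_mul, map_pow, MvPolynomial.aeval_X, MvPolynomial.aeval_X] at h
  have h0 : (![x, s] : Fin 2 → T) 0 = x := rfl
  have h1 : (![x, s] : Fin 2 → T) 1 = s := rfl
  rw [h0, h1] at h
  rw [← h]
  refine Finset.prod_congr rfl fun e _ => ?_
  rw [map_sub, map_mul, MvPolynomial.aeval_X, MvPolynomial.aeval_X, MvPolynomial.aeval_C, h0, h1]

/-- The factorisation of `sa X^(q-1) + sb (y s - X)^(q-1) - s (y s)^(q-1)`, `s = sa + sb`. -/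
lemma factor_identity {k : Type u} [Field k] [Fintype k] [DecidableEq k] {T : Type u} [CommRing T]
    [Algebra k T] (sa sb y x : T)
    (hx : ∀ t : T, x * (x - y * (sa + sb)) * t = 0 → t = 0)
    (hchar : ∀ a b : T, (a - b) ^ Fintype.card k = a ^ Fintype.card k - b ^ Fintype.card k) :
    sa * x ^ (Fintype.card k - 1) + sb * (y * (sa + sb) - x) ^ (Fintype.card k - 1)
        - (sa + sb) * (y * (sa + sb)) ^ (Fintype.card k - 1)
      = (sa + sb) * ((x - y * sa) *
        ∏ e ∈ (Finset.univ.filter fun e : k => e ≠ 0 ∧ e ≠ 1),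
          (x - algebraMap k T e * (y * (sa + sb)))) := by
  have hq : 1 < Fintype.card k := Fintype.one_lt_card
  obtain ⟨Q, hQ⟩ : ∃ Q, Fintype.card k = Q + 1 := ⟨Fintype.card k - 1, by omega⟩
  have hprod : x * (x - y * (sa + sb)) *
      ∏ e ∈ (Finset.univ.filter fun e : k => e ≠ 0 ∧ e ≠ 1),
          (x - algebraMap k T e * (y * (sa + sb)))
      = x ^ Fintype.card k - x * (y * (sa + sb)) ^ (Fintype.card k - 1) := by
    rw [← prod_sub_mul_eq (k := k)]
    have h1 : (Finset.univ : Finset k) = insert 0 (insert 1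
        (Finset.univ.filter fun e : k => e ≠ 0 ∧ e ≠ 1)) := by
      ext e
      simp only [Finset.mem_univ, Finset.mem_insert, Finset.mem_filter, true_and, true_iff]
      tauto
    conv_rhs => rw [h1]
    rw [Finset.prod_insert, Finset.prod_insert]
    · rw [map_zero, zero_mul, sub_zero, map_one, one_mul, mul_assoc]
    · simp
    · simp
  refine sub_eq_zero.mp (hx _ ?_)
  have e1 := hchar (y * (sa + sb)) x
  rw [hQ] at e1 hprod ⊢
  simp only [Nat.add_sub_cancel] at hprod ⊢
  set P := ∏ e ∈ (Finset.univ.filter fun e : k => e ≠ 0 ∧ e ≠ 1),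
          (x - algebraMap k T e * (y * (sa + sb))) with hP
  have e2 : (y * (sa + sb) - x) ^ (Q + 1) = (y * (sa + sb) - x) ^ Q * (y * (sa + sb) - x) :=
    pow_succ _ _
  rw [e2] at e1
  have e3 : x * (x - y * (sa + sb)) * (sa * x ^ Q + sb * (y * (sa + sb) - x) ^ Q
        - (sa + sb) * (y * (sa + sb)) ^ Q
      - (sa + sb) * ((x - y * sa) * P))
      = sa * x ^ (Q + 1) * (x - y * (sa + sb))
        - sb * x * ((y * (sa + sb) - x) ^ Q * (y * (sa + sb) - x))
        - (sa + sb) * x * (x - y * (sa + sb)) * (y * (sa + sb)) ^ Q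
        - (sa + sb) * (x - y * sa) * (x * (x - y * (sa + sb)) * P) := by
    ring
  rw [e3, e1, hprod]
  ring

end Pool.Agent.HT51
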