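import Pool.Agent.HT51.Defs

/-!
# Module K, part 1: cokernels of a matrix factorisation on a module
-/

universe u

namespace Pool.Agent.HT51

open MvPolynomial

section Mat

variable {B : Type u} [CommRing B] {r : ℕ}

/-- The map `W^r → W^r` given by a matrix over `B`, `W` a `B`-module. -/
def matLin (A : Matrix (Fin r) (Fin r) B) (W : Type u) [AddCommGroup W] [Module B W] :
    (Fin r → W) →ₗ[B] (Fin r → W) :=
  LinearMap.pi fun a => ∑ b, A a b • (LinearMap.proj b : (Fin r → W) →ₗ[B] W)

/-- The image of `W^r` under a matrix over `B`, `W` a `B`-module. -/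
def matRange (A : Matrix (Fin r) (Fin r) B) (W : Type u)
    [AddCommGroup W] [Module B W] : Submodule B (Fin r → W) :=
  LinearMap.range (LinearMap.pi fun a => ∑ b, A a b • (LinearMap.proj b : (Fin r → W) →ₗ[B] W))

variable {W V : Type u} [AddCommGroup W] [Module B W] [AddCommGroup V] [Module B V]

lemma matLin_apply (A : Matrix (Fin r) (Fin r) B) (w : Fin r → W) (a : Fin r) :
    matLin A W w a = ∑ b, A a b • w b := by
  simp [matLin, LinearMap.sum_apply]

lemma mem_matRange (A : Matrix (Fin r) (Fin r) B) (v : Fin r → W) :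
    v ∈ matRange A W ↔ ∃ w : Fin r → W, ∀ a, v a = ∑ b, A a b • w b := by
  constructor
  · rintro ⟨w, rfl⟩
    exact ⟨w, fun a => matLin_apply A w a⟩
  · rintro ⟨w, hw⟩
    refine ⟨w, ?_⟩
    funext a
    rw [hw]
    exact matLin_apply A w a

lemma matLin_mul (A A' : Matrix (Fin r) (Fin r) B) (w : Fin r → W) :
    matLin (A * A') W w = matLin A W (matLin A' W w) := by
  funext a
  simp only [matLin_apply, Matrix.mul_apply, Finset.sum_smul, Finset.smul_sum, mul_smul]
  rw [Finset.sum_comm]

lemma matLin_add (A A' : Matrix (Fin r) (Fin r) B) (w : Fin r → W) :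
    matLin (A + A') W w = matLin A W w + matLin A' W w := by
  funext a
  simp only [matLin_apply, Matrix.add_apply, add_smul, Finset.sum_add_distrib, Pi.add_apply]

lemma matLin_zero (w : Fin r → W) :
    matLin (0 : Matrix (Fin r) (Fin r) B) W w = 0 := by
  funext a
  rw [matLin_apply]
  exact Finset.sum_eq_zero fun b _ => by rw [Matrix.zero_apply, zero_smul]

lemma matLin_smul_one (c : B) (w : Fin r → W) :
    matLin (c • (1 : Matrix (Fin r) (Fin r) B)) W w = c • w := by
  funext a
  rw [matLin_apply, Finset.sum_eq_single a]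
  · simp
  · intro b _ hb
    simp [Matrix.one_apply_ne (Ne.symm hb)]
  · intro h; exact absurd (Finset.mem_univ a) h

lemma matLin_comp (A : Matrix (Fin r) (Fin r) B) (f : W →ₗ[B] V) (w : Fin r → W) (a : Fin r) :
    f (matLin A W w a) = matLin A V (fun b => f (w b)) a := by
  rw [matLin_apply, matLin_apply, map_sum]
  simp

/-- The map on cokernels induced by a linear map. -/
def cokMap (A : Matrix (Fin r) (Fin r) B) (f : W →ₗ[B] V) :
    ((Fin r → W) ⧸ matRange A W) →ₗ[B] ((Fin r → V) ⧸ matRange A V) :=
  Submodule.mapQ (matRange A W) (matRange A V) (f.compLeft (Fin r)) (by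
    rintro v ⟨w, rfl⟩
    refine ⟨fun b => f (w b), ?_⟩
    funext a
    exact (matLin_comp A f w a).symm)

lemma cokMap_mk (A : Matrix (Fin r) (Fin r) B) (f : W →ₗ[B] V) (w : Fin r → W) :
    cokMap A f (Submodule.Quotient.mk w) = Submodule.Quotient.mk (fun a => f (w a)) := rfl

end Mat

section K1

variable {k : Type u} [Field k] {N : ℕ} {n : Fin N → ℕ}

lemma pderiv_diag (i : Fin N) :
    pderiv i (diag k n) = C (n i : k) * X i ^ (n i - 1) := by
  classical
  unfold diag
  rw [map_sum, Finset.sum_eq_single i]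
  · rw [Derivation.leibniz_pow, pderiv_X_self]
    simp [nsmul_eq_mul]
  · intro j _ hj
    rw [Derivation.leibniz_pow, pderiv_X_of_ne hj]
    simp
  · intro h; exact absurd (Finset.mem_univ i) h

lemma map_pderiv_mul {r : ℕ} (i : Fin N) (P Q : Matrix (Fin r) (Fin r) (MvPolynomial (Fin N) k)) :
    (P * Q).map (pderiv i) = P.map (pderiv i) * Q + P * Q.map (pderiv i) := by
  funext a b
  simp only [Matrix.map_apply, Matrix.mul_apply, Matrix.add_apply, map_sum, Derivation.leibniz,
    smul_eq_mul]
  rw [← Finset.sum_add_distrib]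
  refine Finset.sum_congr rfl fun c _ => ?_
  ring

lemma dmk_diag : dmk k n (diag k n) = 0 :=
  Ideal.Quotient.eq_zero_iff_mem.mpr (Ideal.subset_span rfl)

/-- The relation `D(φ) ψ + φ D(ψ) = n_i x_i ^ (n_i - 1)` in `DiagRing`. -/
lemma MF.deriv_rel {r : ℕ} (F : MF (diag k n) r) (i : Fin N) :
    ((F.phi.map (pderiv i)).map (dmk k n)) * (F.psi.map (dmk k n))
      + (F.phi.map (dmk k n)) * ((F.psi.map (pderiv i)).map (dmk k n))
      = (dmk k n (C (n i : k)) * dx k n i ^ (n i - 1)) • (1 : Matrix (Fin r) (Fin r) (DiagRing k n)) := by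
  have h : ((F.phi * F.psi).map (pderiv i)).map (dmk k n)
      = ((diag k n • (1 : Matrix (Fin r) (Fin r) (MvPolynomial (Fin N) k))).map
        (pderiv i)).map (dmk k n) := by rw [F.phi_psi]
  rw [map_pderiv_mul] at h
  have h2 : ((F.phi.map (pderiv i) * F.psi + F.phi * F.psi.map (pderiv i)).map (dmk k n))
      = ((F.phi.map (pderiv i)).map (dmk k n)) * (F.psi.map (dmk k n))
      + (F.phi.map (dmk k n)) * ((F.psi.map (pderiv i)).map (dmk k n)) := by
    rw [Matrix.map_add _ (fun x y => map_add (dmk k n) x y), Matrix.map_mul, Matrix.map_mul]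
  rw [← h2, h]
  funext a b
  simp only [Matrix.map_apply, Matrix.smul_apply, smul_eq_mul]
  by_cases hab : a = b
  · subst hab
    rw [Matrix.one_apply_eq, Matrix.one_apply_eq, mul_one, mul_one, pderiv_diag, map_mul, map_pow]
  · rw [Matrix.one_apply_ne hab, Matrix.one_apply_ne hab, mul_zero, mul_zero, map_zero, map_zero]

lemma MF.psi_phi_zero {r : ℕ} (F : MF (diag k n) r) :
    (F.psi.map (dmk k n)) * (F.phi.map (dmk k n)) = 0 := by
  rw [← Matrix.map_mul, F.psi_phi]
  funext a b
  simp only [Matrix.map_apply, Matrix.smul_apply, smul_eq_mul, map_mul, dmk_diag, zero_mul,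
    Matrix.zero_apply]

/-- (K1) -/
theorem mu_exists (lam : AddFn (DiagRing k n))
    (i : Fin N) (hki : lam.Kills (dx k n i)) (hni : (n i : k) ≠ 0) {r : ℕ}
    (F : MF (diag k n) r) :
    ∃ mu : AddFn (DiagRing k n), ∀ (W : Type u) [AddCommGroup W] [Module (DiagRing k n) W],
      mu.val W = lam.val ((Fin r → W) ⧸ matRange (F.phi.map (dmk k n)) W) := by
  set A := F.phi.map (dmk k n) with hA
  refine ⟨⟨fun W _ _ => lam.val ((Fin r → W) ⧸ matRange A W), ?_⟩, fun W _ _ => rfl⟩
  intro L M P _ _ _ _ _ _ f g hf hfg hg hM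
  have hNM : IsNoetherian (DiagRing k n) M := isNoetherian_of_isNoetherianRing_of_finite _ M
  have hL : Module.Finite (DiagRing k n) L := Module.Finite.of_injective f hf
  have hP : Module.Finite (DiagRing k n) P := Module.Finite.of_surjective g hg
  -- the kernel of the first map has value zero
  have hker : lam.val (LinearMap.ker (cokMap A f)) = 0 := by
    refine (hki.pow (n i - 1)) _ inferInstance ?_
    rintro ⟨x, hx⟩
    refine Subtype.ext ?_
    obtain ⟨v, rfl⟩ := Submodule.Quotient.mk_surjective _ x
    have hx' : (Submodule.Quotient.mk (fun a => f (v a)) : (Fin r → M) ⧸ matRange A M) = 0 := hx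
    rw [Submodule.Quotient.mk_eq_zero, mem_matRange] at hx'
    obtain ⟨w, hw⟩ := hx'
    -- psi v = 0
    have hpsi : matLin (F.psi.map (dmk k n)) L v = 0 := by
      funext a
      apply hf
      rw [matLin_comp, Pi.zero_apply, map_zero]
      have h1 : (fun b => f (v b)) = matLin A M w := by
        funext b
        rw [hw, matLin_apply]
      rw [h1, ← matLin_mul, F.psi_phi_zero, matLin_zero]
      rfl
    have hrel : (dmk k n (C (n i : k)) * dx k n i ^ (n i - 1)) • v
        = matLin A L (matLin ((F.psi.map (pderiv i)).map (dmk k n)) L v) := by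
      rw [← matLin_smul_one, ← F.deriv_rel i, matLin_add, matLin_mul, hpsi, map_zero, zero_add,
        matLin_mul]
    have hu : dmk k n (C (n i : k)⁻¹) * dmk k n (C (n i : k)) = 1 := by
      rw [← map_mul, ← C_mul, inv_mul_cancel₀ hni, C_1, map_one]
    have hmem : dx k n i ^ (n i - 1) • v ∈ matRange A L := by
      have h2 : dx k n i ^ (n i - 1) • v = dmk k n (C (n i : k)⁻¹) •
          ((dmk k n (C (n i : k)) * dx k n i ^ (n i - 1)) • v) := by
        funext a
        show dx k n i ^ (n i - 1) • v a = dmk k n (C (n i : k)⁻¹) •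
          ((dmk k n (C (n i : k)) * dx k n i ^ (n i - 1)) • v a)
        rw [smul_smul, ← mul_assoc, hu, one_mul]
      rw [h2, hrel]
      exact Submodule.smul_mem _ _ ⟨_, rfl⟩
    show dx k n i ^ (n i - 1) • (Submodule.Quotient.mk v : (Fin r → L) ⧸ matRange A L) = 0
    rw [← Submodule.Quotient.mk_smul, Submodule.Quotient.mk_eq_zero]
    exact hmem
  have h1 : lam.val ((Fin r → L) ⧸ matRange A L) = lam.val (LinearMap.range (cokMap A f)) := by
    rw [lam.val_ker_range (cokMap A f), hker, zero_add]
  have h2 : lam.val ((Fin r → M) ⧸ matRange A M)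
      = lam.val (LinearMap.range (cokMap A f)) + lam.val ((Fin r → P) ⧸ matRange A P) := by
    refine lam.add' _ _ _ (LinearMap.range (cokMap A f)).subtype (cokMap A g)
      (Submodule.injective_subtype _) ?_ ?_ inferInstance
    · intro y
      obtain ⟨y, rfl⟩ := Submodule.Quotient.mk_surjective _ y
      constructor
      · intro hy
        rw [cokMap_mk, Submodule.Quotient.mk_eq_zero, mem_matRange] at hy
        obtain ⟨w, hw⟩ := hy
        choose w' hw' using fun b => hg (w b)
        have h3 : ∀ a, g (y a - matLin A M w' a) = 0 := by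
          intro a
          rw [map_sub, matLin_comp, hw, matLin_apply, sub_eq_zero]
          simp only [hw']
        choose l hl using fun a => (hfg _).mp (h3 a)
        refine ⟨⟨cokMap A f (Submodule.Quotient.mk l), ⟨_, rfl⟩⟩, ?_⟩
        show cokMap A f (Submodule.Quotient.mk l) = _
        rw [cokMap_mk, Submodule.Quotient.eq]
        refine Submodule.neg_mem_iff _ |>.mp ?_
        refine ⟨w', ?_⟩
        funext a
        show matLin A M w' a = _
        simp [hl]
      · rintro ⟨⟨z, ⟨x, hx⟩⟩, hz⟩
        obtain ⟨l, rfl⟩ := Submodule.Quotient.mk_surjective _ x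
        have hz' : z = Submodule.Quotient.mk y := hz
        rw [← hz', ← hx, cokMap_mk, cokMap_mk, Submodule.Quotient.mk_eq_zero]
        have : (fun a => g (f (l a))) = 0 := by
          funext a
          exact (hfg _).mpr ⟨_, rfl⟩
        rw [this]
        exact Submodule.zero_mem _
    · intro z
      obtain ⟨z, rfl⟩ := Submodule.Quotient.mk_surjective _ z
      choose w hw using fun b => hg (z b)
      refine ⟨Submodule.Quotient.mk w, ?_⟩
      rw [cokMap_mk]
      simp only [hw]
  show lam.val ((Fin r → M) ⧸ matRange A M) = _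
  rw [h2, h1]

end K1

end Pool.Agent.HT51
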