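import Pool.Agent.HT51.K1

/-!
# Module K, part 2: general facts on additive functions and ranks
-/

universe u

namespace Pool.Agent.HT51

section Gen

variable {B B' : Type u} [CommRing B] [CommRing B'] {r : ℕ}

/-- The quotient map onto the restricted cokernel. -/
def resCokMap (φ : B →+* B') (A : Matrix (Fin r) (Fin r) B) :
    (Fin r → Res φ B') →ₗ[B] Res φ (Cok (A.map φ)) where
  toFun w := toRes φ (Cok (A.map φ))
    (Submodule.Quotient.mk (p := LinearMap.range (A.map φ).mulVecLin)
      (fun a => (toRes φ B').symm (w a)))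
  map_add' _ _ := rfl
  map_smul' _ _ := rfl

lemma resCokMap_surj (φ : B →+* B') (A : Matrix (Fin r) (Fin r) B) :
    Function.Surjective (resCokMap φ A) := by
  intro y
  obtain ⟨w, hw⟩ := Submodule.Quotient.mk_surjective _ ((toRes φ (Cok (A.map φ))).symm y)
  exact ⟨fun a => toRes φ B' (w a), hw⟩

lemma resCokMap_ker (φ : B →+* B') (A : Matrix (Fin r) (Fin r) B) :
    LinearMap.ker (resCokMap φ A) = matRange A (Res φ B') := by
  ext v
  rw [LinearMap.mem_ker, mem_matRange]
  constructor
  · intro h
    have h1 : (fun a => (toRes φ B').symm (v a)) ∈ LinearMap.range (A.map φ).mulVecLin :=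
      (Submodule.Quotient.mk_eq_zero _).mp h
    obtain ⟨w, hw⟩ := h1
    refine ⟨fun b => toRes φ B' (w b), fun a => ?_⟩
    have h2 := congrFun hw a
    rw [Matrix.mulVecLin_apply, Matrix.mulVec, dotProduct] at h2
    exact h2.symm
  · rintro ⟨w, hw⟩
    refine (Submodule.Quotient.mk_eq_zero _).mpr ?_
    refine ⟨fun b => (toRes φ B').symm (w b), ?_⟩
    funext a
    rw [Matrix.mulVecLin_apply, Matrix.mulVec, dotProduct]
    exact (hw a).symm

lemma val_res_cok (lam : AddFn B) (φ : B →+* B') (hφ : φ.Finite)
    (A : Matrix (Fin r) (Fin r) B) :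
    lam.val ((Fin r → Res φ B') ⧸ matRange A (Res φ B')) = lam.val (Res φ (Cok (A.map φ))) := by
  haveI : Module.Finite B (Res φ B') := res_finite φ hφ
  exact lam.val_congr ((Submodule.quotEquivOfEq _ _ (resCokMap_ker φ A).symm).trans
    ((resCokMap φ A).quotKerEquivOfSurjective (resCokMap_surj φ A)))

lemma matRange_self (A : Matrix (Fin r) (Fin r) B) :
    matRange A B = LinearMap.range A.mulVecLin := by
  ext v
  rw [mem_matRange]
  constructor
  · rintro ⟨w, hw⟩
    refine ⟨w, ?_⟩
    funext a
    rw [Matrix.mulVecLin_apply, Matrix.mulVec, dotProduct, hw]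
    rfl
  · rintro ⟨w, rfl⟩
    exact ⟨w, fun a => rfl⟩

lemma val_cok_self (lam : AddFn B) (A : Matrix (Fin r) (Fin r) B) :
    lam.val ((Fin r → B) ⧸ matRange A B) = lam.val (Cok A) :=
  lam.val_congr (Submodule.quotEquivOfEq _ _ (matRange_self A))

/-- The value of a power. -/
lemma AddFn.val_pi_fin (lam : AddFn B) (M : Type u) [AddCommGroup M] [Module B M]
    [Module.Finite B M] (n : ℕ) : lam.val (Fin n → M) = n * lam.val M := by
  induction n with
  | zero =>
    rw [lam.val_of_subsingleton]
    simp
  | succ n ih =>
    have h := lam.add' M (Fin (n + 1) → M) (Fin n → M)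
      (LinearMap.single B (fun _ : Fin (n + 1) => M) 0)
      (LinearMap.funLeft B M Fin.succ)
      (Pi.single_injective (M := fun _ : Fin (n + 1) => M) 0) ?_ ?_ inferInstance
    · rw [h, ih]
      push_cast
      ring
    · intro v
      constructor
      · intro hv
        refine ⟨v 0, ?_⟩
        funext j
        refine Fin.cases ?_ (fun j => ?_) j
        · simp
        · have := congrFun hv j
          simp only [LinearMap.funLeft_apply, Pi.zero_apply] at this
          rw [this]
          simp
      · rintro ⟨m, rfl⟩
        funext j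
        simp [LinearMap.funLeft_apply]
    · intro v
      refine ⟨Fin.cons 0 v, ?_⟩
      funext j
      simp [LinearMap.funLeft_apply]

/-- The rank as an additive function. -/
noncomputable def rkFn (S : Type u) [CommRing S] [IsDomain S] : AddFn S where
  val M _ _ := (Module.finrank S M : ℂ)
  add' L M P _ _ _ _ _ _ f g hf hfg hg hM := by
    have h1 : Module.finrank S L = Module.finrank S (LinearMap.range f) :=
      LinearEquiv.finrank_eq (LinearEquiv.ofInjective f hf)
    have h2 : Module.finrank S (M ⧸ LinearMap.range f) = Module.finrank S P := by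
      have hk : LinearMap.range f = LinearMap.ker g := (LinearMap.exact_iff.mp hfg).symm
      rw [hk]
      exact LinearEquiv.finrank_eq (g.quotKerEquivOfSurjective hg)
    have h3 := Submodule.finrank_quotient_add_finrank (LinearMap.range f)
    rw [h1, ← h2, ← h3]
    push_cast
    ring

/-- `mu - c • nu`. -/
noncomputable def AddFn.subMul (mu nu : AddFn B) (c : ℂ) : AddFn B where
  val M _ _ := mu.val M - c * nu.val M
  add' L M P _ _ _ _ _ _ f g hf hfg hg hM := by
    have h1 := mu.add' L M P f g hf hfg hg hM
    have h2 := nu.add' L M P f g hf hfg hg hM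
    rw [h1, h2]
    ring

end Gen

end Pool.Agent.HT51
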