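import Pool.Agent.HT51.K2
import Pool.Agent.HT51.DBase

/-!
# Module K, part 3: the Frobenius twist of the cokernel of a matrix factorisation
-/

universe u

namespace Pool.Agent.HT51

open MvPolynomial

section K3

variable {k : Type u} [Field k] {N : ℕ} {n : Fin N → ℕ}

/-- The structure map `k[X j, j ≠ i] → DiagRing`. -/
noncomputable def iotaS (i : Fin N) : MvPolynomial {j : Fin N // j ≠ i} k →+* DiagRing k n :=
  (dmk k n).comp (rename Subtype.val : MvPolynomial {j : Fin N // j ≠ i} k →ₐ[k]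
    MvPolynomial (Fin N) k).toRingHom

lemma iotaS_apply (i : Fin N) (p : MvPolynomial {j : Fin N // j ≠ i} k) :
    iotaS (n := n) i p = dmk k n (rename Subtype.val p) := rfl

/-- `DiagRing` is free over `k[X j, j ≠ i]` with basis `x_i ^ j`, `j < n i`. -/
noncomputable def bEquiv (hn : ∀ i, 0 < n i) (i : Fin N) :
    (Fin (n i) → MvPolynomial {j : Fin N // j ≠ i} k) ≃+ DiagRing k n :=
  AddEquiv.ofBijective
    (AddMonoidHom.mk' (fun c => ∑ j : Fin (n i), dx k n i ^ (j : ℕ) * iotaS i (c j)) (by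
      intro a b
      rw [← Finset.sum_add_distrib]
      refine Finset.sum_congr rfl fun j _ => ?_
      rw [Pi.add_apply, map_add, mul_add]))
    (by
      constructor
      · rw [injective_iff_map_eq_zero]
        intro c hc
        funext j
        exact diag_repr_unique hn i c hc j
      · intro b
        obtain ⟨p, hp⟩ := diag_repr hn i b
        exact ⟨p, hp.symm⟩)

lemma bEquiv_apply (hn : ∀ i, 0 < n i) (i : Fin N)
    (c : Fin (n i) → MvPolynomial {j : Fin N // j ≠ i} k) :
    bEquiv hn i c = ∑ j : Fin (n i), dx k n i ^ (j : ℕ) * iotaS i (c j) := rfl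

lemma bEquiv_mul (hn : ∀ i, 0 < n i) (i : Fin N) (s : MvPolynomial {j : Fin N // j ≠ i} k)
    (c : Fin (n i) → MvPolynomial {j : Fin N // j ≠ i} k) :
    bEquiv hn i (fun j => s * c j) = iotaS i s * bEquiv hn i c := by
  rw [bEquiv_apply, bEquiv_apply, Finset.mul_sum]
  refine Finset.sum_congr rfl fun j _ => ?_
  rw [map_mul]
  ring

/-- The basis as a linear equivalence. -/
noncomputable def bLin (hn : ∀ i, 0 < n i) (i : Fin N) :
    (Fin (n i) → MvPolynomial {j : Fin N // j ≠ i} k) ≃ₗ[MvPolynomial {j : Fin N // j ≠ i} k]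
      Res (iotaS (k := k) (n := n) i) (DiagRing k n) :=
  { bEquiv hn i with
    map_smul' := fun s c => bEquiv_mul hn i s c }

/-- The basis as a linear equivalence, twisted. -/
noncomputable def bLinTwist (hn : ∀ i, 0 < n i) (i : Fin N)
    (Fr : DiagRing k n →+* DiagRing k n)
    (FrS : MvPolynomial {j : Fin N // j ≠ i} k →+* MvPolynomial {j : Fin N // j ≠ i} k)
    (h : ∀ s, Fr (iotaS i s) = iotaS i (FrS s)) :
    (Fin (n i) → Res FrS (MvPolynomial {j : Fin N // j ≠ i} k))
      ≃ₗ[MvPolynomial {j : Fin N // j ≠ i} k]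
      Res (iotaS (k := k) (n := n) i) (Res Fr (DiagRing k n)) :=
  { bEquiv hn i with
    map_smul' := fun s c => by
      have h1 := bEquiv_mul hn i (FrS s) c
      rw [← h] at h1
      exact h1 }

lemma iotaS_finite (hn : ∀ i, 0 < n i) (i : Fin N) : (iotaS (k := k) (n := n) i).Finite := by
  have h : Module.Finite (MvPolynomial {j : Fin N // j ≠ i} k)
      (Res (iotaS (k := k) (n := n) i) (DiagRing k n)) := Module.Finite.equiv (bLin hn i)
  exact h

lemma rank_diag (hn : ∀ i, 0 < n i) (i : Fin N) :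
    Module.finrank (MvPolynomial {j : Fin N // j ≠ i} k)
      (Res (iotaS (k := k) (n := n) i) (DiagRing k n)) = n i := by
  rw [← LinearEquiv.finrank_eq (bLin (k := k) hn i), Module.finrank_fin_fun]

lemma rank_diag_twist (hn : ∀ i, 0 < n i) (i : Fin N)
    (Fr : DiagRing k n →+* DiagRing k n) (hFin : Fr.Finite)
    (FrS : MvPolynomial {j : Fin N // j ≠ i} k →+* MvPolynomial {j : Fin N // j ≠ i} k)
    (h : ∀ s, Fr (iotaS i s) = iotaS i (FrS s)) :
    (Module.finrank (MvPolynomial {j : Fin N // j ≠ i} k)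
      (Res (iotaS (k := k) (n := n) i) (Res Fr (DiagRing k n))) : ℂ)
      = n i * (Module.finrank (MvPolynomial {j : Fin N // j ≠ i} k)
        (Res FrS (MvPolynomial {j : Fin N // j ≠ i} k)) : ℂ) := by
  have h1 : Module.Finite (DiagRing k n) (Res Fr (DiagRing k n)) := res_finite Fr hFin
  have h2 : Module.Finite (MvPolynomial {j : Fin N // j ≠ i} k)
      (Res (iotaS (k := k) (n := n) i) (Res Fr (DiagRing k n))) :=
    res_finite _ (iotaS_finite hn i)
  have h3 : Module.Finite (MvPolynomial {j : Fin N // j ≠ i} k)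
      (Fin (n i) → Res FrS (MvPolynomial {j : Fin N // j ≠ i} k)) :=
    Module.Finite.equiv (bLinTwist hn i Fr FrS h).symm
  have h4 : Module.Finite (MvPolynomial {j : Fin N // j ≠ i} k)
      (Res FrS (MvPolynomial {j : Fin N // j ≠ i} k)) :=
    Module.Finite.of_surjective (LinearMap.proj (⟨0, hn i⟩ : Fin (n i)) :
      (Fin (n i) → Res FrS (MvPolynomial {j : Fin N // j ≠ i} k))
        →ₗ[MvPolynomial {j : Fin N // j ≠ i} k] _) (LinearMap.proj_surjective _)
  rw [← LinearEquiv.finrank_eq (bLinTwist hn i Fr FrS h)]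
  exact (rkFn (MvPolynomial {j : Fin N // j ≠ i} k)).val_pi_fin
    (Res FrS (MvPolynomial {j : Fin N // j ≠ i} k)) (n i)

lemma sc_comp (u u' : Fin N → k) (hu : ∀ i, u i ^ n i = 1) (hu' : ∀ i, u' i ^ n i = 1)
    (h : ∀ i, u i * u' i = 1) (b : DiagRing k n) : sc u hu (sc u' hu' b) = b := by
  have h1 : (sc u hu).comp (sc u' hu') = RingHom.id (DiagRing k n) := by
    refine Ideal.Quotient.ringHom_ext ?_
    refine MvPolynomial.ringHom_ext ?_ ?_
    · intro a
      show sc u hu (sc u' hu' (dmk k n (C a))) = dmk k n (C a)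
      rw [sc_C, sc_C]
    · intro i
      show sc u hu (sc u' hu' (dx k n i)) = dx k n i
      rw [sc_dx, map_mul, sc_C, sc_dx, ← mul_assoc, ← map_mul, ← C_mul, mul_comm (u' i), h, C_1,
        map_one, one_mul]
  exact congrFun (congrArg DFunLike.coe h1) b

/-- A scaling is an isomorphism of a commuting twist with its own twist. -/
noncomputable def twistEquiv (u u' : Fin N → k) (hu : ∀ i, u i ^ n i = 1)
    (hu' : ∀ i, u' i ^ n i = 1) (h : ∀ i, u i * u' i = 1)
    (Fr : DiagRing k n →+* DiagRing k n) (hFr : ∀ b, Fr (sc u hu b) = sc u hu (Fr b)) :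
    Res Fr (DiagRing k n) ≃ₗ[DiagRing k n] Res (sc u hu) (Res Fr (DiagRing k n)) where
  toFun x := toRes (sc u hu) _ (toRes Fr _ (sc u hu ((toRes Fr _).symm x)))
  map_add' x y := map_add (sc u hu) _ _
  map_smul' b x := by
    have h1 : sc u hu (Fr b * (toRes Fr (DiagRing k n)).symm x)
        = Fr (sc u hu b) * sc u hu ((toRes Fr (DiagRing k n)).symm x) := by rw [hFr, map_mul]
    exact h1
  invFun x := toRes Fr _ (sc u' hu' ((toRes Fr _).symm ((toRes (sc u hu) _).symm x)))
  left_inv x := sc_comp u' u hu' hu (fun i => by rw [mul_comm, h]) _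
  right_inv x := sc_comp u u' hu hu' h _

end K3

end Pool.Agent.HT51
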