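import Pool.Agent.HT51.K3

/-!
# Module K, part 4: the value of the Frobenius twist of `Cok φ`
-/

universe u

namespace Pool.Agent.HT51

open MvPolynomial

variable {k : Type u} [Field k] {N : ℕ} {n : Fin N → ℕ}

lemma update_pow_one (i : Fin N) (ζ : k) (hζ : ζ ^ n i = 1) (j : ℕ) :
    ∀ l, Function.update (fun _ => (1 : k)) i (ζ ^ j) l ^ n l = 1 := by
  intro l
  by_cases h : l = i
  · subst h
    rw [Function.update_self, ← pow_mul, mul_comm, pow_mul, hζ, one_pow]
  · rw [Function.update_of_ne h, one_pow]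

/-- (K2), with (D2) and (D3) as hypotheses. -/
theorem frob_cok_aux [Fintype k] (hn : ∀ i, 0 < n i)
    (lam : AddFn (DiagRing k n)) (i : Fin N) (hki : lam.Kills (dx k n i)) (hni : (n i : k) ≠ 0)
    (ζ : k) (hζ : IsPrimitiveRoot ζ (n i))
    (htw : ∀ (mu : AddFn (DiagRing k n)), mu.val (DiagRing k n) = 0 →
      ∀ (W : Type u) [AddCommGroup W] [Module (DiagRing k n) W] [Module.Finite (DiagRing k n) W],
      ∑ j : Fin (n i), mu.val (Res (sc (n := n) (Function.update (fun _ => (1 : k)) i (ζ ^ (j : ℕ)))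
        (update_pow_one i ζ hζ.pow_eq_one j)) W) = 0)
    (Fr : DiagRing k n →+* DiagRing k n) (hFr : ∀ b, Fr b = b ^ Fintype.card k)
    (hFin : Fr.Finite)
    (FrS : MvPolynomial {j : Fin N // j ≠ i} k →+* MvPolynomial {j : Fin N // j ≠ i} k)
    (hFrS : ∀ b, FrS b = b ^ Fintype.card k) {r : ℕ} (F : MF (diag k n) r) :
    lam.val (Res Fr (Cok ((F.phi.map (dmk k n)).map Fr)))
      = (Module.finrank (MvPolynomial {j : Fin N // j ≠ i} k)
          (Res FrS (MvPolynomial {j : Fin N // j ≠ i} k)) : ℂ)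
        * lam.val (Cok (F.phi.map (dmk k n))) := by
  obtain ⟨mu, hmu⟩ := mu_exists lam i hki hni F
  have hcomm : ∀ s, Fr (iotaS i s) = iotaS i (FrS s) := by
    intro s
    rw [hFr, hFrS, map_pow]
  have e1 : mu.val (Res Fr (DiagRing k n)) = lam.val (Res Fr (Cok ((F.phi.map (dmk k n)).map Fr))) := by
    rw [hmu]
    exact val_res_cok lam Fr hFin (F.phi.map (dmk k n))
  have e2 : mu.val (DiagRing k n) = lam.val (Cok (F.phi.map (dmk k n))) := by
    rw [hmu]
    exact val_cok_self lam (F.phi.map (dmk k n))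
  have hn0 : (n i : ℂ) ≠ 0 := by exact_mod_cast (hn i).ne'
  set rk : AddFn (DiagRing k n) := (rkFn (MvPolynomial {j : Fin N // j ≠ i} k)).res
    (iotaS (k := k) (n := n) i) (iotaS_finite hn i) with hrk
  have hrk1 : rk.val (DiagRing k n) = n i := by
    have h := rank_diag (k := k) hn i
    show (Module.finrank (MvPolynomial {j : Fin N // j ≠ i} k)
      (Res (iotaS (k := k) (n := n) i) (DiagRing k n)) : ℂ) = n i
    rw [h]
  have hrk2 : rk.val (Res Fr (DiagRing k n)) = n i *
      (Module.finrank (MvPolynomial {j : Fin N // j ≠ i} k)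
        (Res FrS (MvPolynomial {j : Fin N // j ≠ i} k)) : ℂ) :=
    rank_diag_twist hn i Fr hFin FrS hcomm
  set mu0 : AddFn (DiagRing k n) := mu.subMul rk (mu.val (DiagRing k n) / n i) with hmu0
  have hv : ∀ (W : Type u) [AddCommGroup W] [Module (DiagRing k n) W],
      mu0.val W = mu.val W - mu.val (DiagRing k n) / n i * rk.val W := fun W _ _ => rfl
  have h0 : mu0.val (DiagRing k n) = 0 := by
    rw [hv, hrk1, div_mul_cancel₀ _ hn0, sub_self]
  haveI hfinFr : Module.Finite (DiagRing k n) (Res Fr (DiagRing k n)) := res_finite Fr hFin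
  have hsum := htw mu0 h0 (Res Fr (DiagRing k n))
  have hterm : ∀ j : Fin (n i),
      mu0.val (Res (sc (n := n) (Function.update (fun _ => (1 : k)) i (ζ ^ (j : ℕ)))
        (update_pow_one i ζ hζ.pow_eq_one j)) (Res Fr (DiagRing k n)))
      = mu0.val (Res Fr (DiagRing k n)) := by
    intro j
    have hζ0 : ζ ≠ 0 := hζ.ne_zero (hn i).ne'
    have hinv : ζ⁻¹ ^ n i = 1 := by rw [inv_pow, hζ.pow_eq_one, inv_one]
    refine (mu0.val_congr (twistEquiv _ (Function.update (fun _ => (1 : k)) i (ζ⁻¹ ^ (j : ℕ)))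
      (update_pow_one i ζ hζ.pow_eq_one j) (update_pow_one i ζ⁻¹ hinv j) ?_ Fr ?_)).symm
    · intro l
      by_cases h : l = i
      · subst h
        rw [Function.update_self, Function.update_self, ← mul_pow, mul_inv_cancel₀ hζ0, one_pow]
      · rw [Function.update_of_ne h, Function.update_of_ne h, one_mul]
    · intro b
      rw [hFr, hFr, map_pow]
  rw [Finset.sum_congr rfl (fun j _ => hterm j), Finset.sum_const, Finset.card_univ,
    Fintype.card_fin, nsmul_eq_mul] at hsum
  have h3 : mu0.val (Res Fr (DiagRing k n)) = 0 := by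
    rcases mul_eq_zero.mp hsum with h | h
    · exact absurd h hn0
    · exact h
  rw [hv, hrk2, sub_eq_zero] at h3
  rw [← e1, ← e2, h3]
  field_simp

/-- A primitive `n i`-th root of unity, and `n i ≠ 0` in `k`. -/
lemma exists_root (k : Type u) [Field k] [Fintype k] (a b : ℕ) (h : a * b = Fintype.card k - 1) :
    0 < a ∧ (a : k) ≠ 0 ∧ ∃ ζ : k, IsPrimitiveRoot ζ a := by
  classical
  have hc : 1 < Fintype.card k := Fintype.one_lt_card
  have hpos : 0 < Fintype.card k - 1 := by omega
  have ha : 0 < a := by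
    rcases Nat.eq_zero_or_pos a with h0 | h0
    · subst h0; simp at h; omega
    · exact h0
  refine ⟨ha, ?_, ?_⟩
  · intro h0
    have h1 : ((a * b : ℕ) : k) = ((Fintype.card k - 1 : ℕ) : k) := by rw [h]
    rw [Nat.cast_mul, h0, zero_mul, Nat.cast_sub hc.le, FiniteField.cast_card_eq_zero] at h1
    simp at h1
  · obtain ⟨g, hg⟩ := IsCyclic.exists_generator (α := kˣ)
    have h2 : orderOf g = Fintype.card k - 1 := by
      rw [orderOf_eq_card_of_forall_mem_zpowers hg, Nat.card_eq_fintype_card, Fintype.card_units]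
    have h3 : IsPrimitiveRoot (g : k) (Fintype.card k - 1) := by
      have := IsPrimitiveRoot.orderOf g
      rw [h2] at this
      exact (IsPrimitiveRoot.coe_units_iff).mpr this
    exact ⟨(g : k) ^ b, h3.pow hpos (by rw [mul_comm]; exact h.symm)⟩

end Pool.Agent.HT51
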