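import Pool.Agent.HT51.Homotopy
import Mathlib

/-!
# The Koszul additive function

For an additive function `lam` on `R/(W)`-modules, `M ↦ lam (M / W M) - lam (ker (W | M))` is an
additive function on `R`-modules.
-/

universe u

namespace Pool.Agent.HT51

section Kos

variable {R : Type u} [CommRing R] (W : R)

/-- the `R/(W)`-module structure on a module killed by `W` -/
@[reducible] noncomputable def kosMod (N : Type u) [AddCommGroup N] [Module R N]
    (h : ∀ x : N, W • x = 0) : Module (R ⧸ Ideal.span {W}) N :=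
  Module.IsTorsionBy.module (r := W) (fun x => h x)

variable (lam : AddFn (R ⧸ Ideal.span {W}))

/-- the value of an `R`-module killed by `W` -/
noncomputable def kosVal (N : Type u) [AddCommGroup N] [Module R N] (h : ∀ x : N, W • x = 0) : ℂ :=
  @AddFn.val _ _ lam N _ (kosMod W N h)

variable {W}

lemma kosMod_finite {N : Type u} [AddCommGroup N] [Module R N] (h : ∀ x : N, W • x = 0)
    [hN : Module.Finite R N] : @Module.Finite (R ⧸ Ideal.span {W}) N _ _ (kosMod W N h) := by
  let _ := kosMod W N h
  obtain ⟨s, hs⟩ := (Module.Finite.fg_top : (⊤ : Submodule R N).FG)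
  refine ⟨⟨s, ?_⟩⟩
  rw [eq_top_iff]
  rintro x -
  have hx : x ∈ Submodule.span R (s : Set N) := by rw [hs]; trivial
  induction hx using Submodule.span_induction with
  | mem y hy => exact Submodule.subset_span hy
  | zero => exact Submodule.zero_mem _
  | add y z _ _ hy hz => exact Submodule.add_mem _ hy hz
  | smul r y _ hy =>
    exact Submodule.smul_mem (Submodule.span (R ⧸ Ideal.span {W}) (s : Set N))
      (Ideal.Quotient.mk (Ideal.span {W}) r) hy

lemma kosVal_add {L M N : Type u} [AddCommGroup L] [Module R L] [AddCommGroup M] [Module R M]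
    [AddCommGroup N] [Module R N] (hL : ∀ x : L, W • x = 0) (hM : ∀ x : M, W • x = 0)
    (hN : ∀ x : N, W • x = 0) (f : L →ₗ[R] M) (g : M →ₗ[R] N) (hf : Function.Injective f)
    (hfg : Function.Exact f g) (hg : Function.Surjective g) [Module.Finite R M] :
    kosVal W lam M hM = kosVal W lam L hL + kosVal W lam N hN := by
  let _ := kosMod W L hL
  let _ := kosMod W M hM
  let _ := kosMod W N hN
  let f' : L →ₗ[R ⧸ Ideal.span {W}] M :=
    { toFun := f
      map_add' := f.map_add
      map_smul' := fun b x => by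
        obtain ⟨r, rfl⟩ := Ideal.Quotient.mk_surjective b
        exact f.map_smul r x }
  let g' : M →ₗ[R ⧸ Ideal.span {W}] N :=
    { toFun := g
      map_add' := g.map_add
      map_smul' := fun b x => by
        obtain ⟨r, rfl⟩ := Ideal.Quotient.mk_surjective b
        exact g.map_smul r x }
  exact lam.add' L M N f' g' hf hfg hg (kosMod_finite hM)

lemma kosVal_congr {M N : Type u} [AddCommGroup M] [Module R M]
    [AddCommGroup N] [Module R N] (hM : ∀ x : M, W • x = 0)
    (hN : ∀ x : N, W • x = 0) (e : M ≃ₗ[R] N) [Module.Finite R M] :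
    kosVal W lam M hM = kosVal W lam N hN := by
  let _ := kosMod W M hM
  let _ := kosMod W N hN
  have := kosMod_finite hM
  let e' : M ≃ₗ[R ⧸ Ideal.span {W}] N :=
    { e with
      map_smul' := fun b x => by
        obtain ⟨r, rfl⟩ := Ideal.Quotient.mk_surjective b
        exact e.map_smul r x }
  exact lam.val_congr e'

lemma kosVal_subsingleton {M : Type u} [AddCommGroup M] [Module R M] [Subsingleton M]
    (hM : ∀ x : M, W • x = 0) : kosVal W lam M hM = 0 := by
  let _ := kosMod W M hM
  exact lam.val_of_subsingleton M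

lemma kos_sub_killed {M : Type u} [AddCommGroup M] [Module R M] (hM : ∀ x : M, W • x = 0)
    (S : Submodule R M) : ∀ x : S, W • x = 0 := fun x => Subtype.ext (hM x)

lemma kosVal_exact [IsNoetherianRing R] {L M N : Type u} [AddCommGroup L] [Module R L]
    [AddCommGroup M] [Module R M]
    [AddCommGroup N] [Module R N] (hM : ∀ x : M, W • x = 0)
    (hN : ∀ x : N, W • x = 0) (f : L →ₗ[R] M) (g : M →ₗ[R] N)
    (hfg : Function.Exact f g) [Module.Finite R M] :
    kosVal W lam M hM = kosVal W lam (LinearMap.range f) (kos_sub_killed hM _) +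
      kosVal W lam (LinearMap.range g) (kos_sub_killed hN _) := by
  refine kosVal_add lam _ _ _ (LinearMap.range f).subtype g.rangeRestrict
    (Submodule.injective_subtype _) ?_ g.surjective_rangeRestrict
  intro x
  constructor
  · intro hx
    have hx' : g x = 0 := congrArg Subtype.val hx
    obtain ⟨y, hy⟩ := (hfg x).1 hx'
    exact ⟨⟨x, y, hy⟩, rfl⟩
  · rintro ⟨⟨x, y, hy⟩, rfl⟩
    apply Subtype.ext
    exact (hfg x).2 ⟨y, hy⟩

variable (W)

lemma kos_ker_killed (M : Type u) [AddCommGroup M] [Module R M] :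
    ∀ x : LinearMap.ker (LinearMap.lsmul R M W), W • x = 0 := fun x => Subtype.ext x.2

lemma kos_quot_killed (M : Type u) [AddCommGroup M] [Module R M] :
    ∀ x : M ⧸ LinearMap.range (LinearMap.lsmul R M W), W • x = 0 := by
  intro x
  obtain ⟨x, rfl⟩ := Submodule.Quotient.mk_surjective _ x
  rw [← Submodule.Quotient.mk_smul, Submodule.Quotient.mk_eq_zero]
  exact ⟨x, rfl⟩

/-- the Koszul additive function -/
noncomputable def kosFn [IsNoetherianRing R] : AddFn R where
  val M _ _ := kosVal W lam (M ⧸ LinearMap.range (LinearMap.lsmul R M W)) (kos_quot_killed W M) -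
    kosVal W lam (LinearMap.ker (LinearMap.lsmul R M W)) (kos_ker_killed W M)
  add' L M N _ _ _ _ _ _ f g hf hfg hg hM := by
    have hMn : IsNoetherian R M := isNoetherian_of_isNoetherianRing_of_finite R M
    have hLn : IsNoetherian R L := isNoetherian_of_injective f hf
    have hNn : IsNoetherian R N := isNoetherian_of_surjective g (LinearMap.range_eq_top.2 hg)
    let a : LinearMap.ker (LinearMap.lsmul R L W) →ₗ[R] LinearMap.ker (LinearMap.lsmul R M W) :=
      f.restrict (fun x hx => by
        rw [LinearMap.mem_ker] at hx ⊢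
        show W • f x = 0
        rw [← map_smul]
        have hx' : W • x = 0 := hx
        rw [hx', map_zero])
    let b : LinearMap.ker (LinearMap.lsmul R M W) →ₗ[R] LinearMap.ker (LinearMap.lsmul R N W) :=
      g.restrict (fun x hx => by
        rw [LinearMap.mem_ker] at hx ⊢
        show W • g x = 0
        rw [← map_smul]
        have hx' : W • x = 0 := hx
        rw [hx', map_zero])
    let c : (L ⧸ LinearMap.range (LinearMap.lsmul R L W)) →ₗ[R]
        (M ⧸ LinearMap.range (LinearMap.lsmul R M W)) :=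
      Submodule.mapQ _ _ f (by
        rintro _ ⟨x, rfl⟩
        exact ⟨f x, (f.map_smul W x).symm⟩)
    let d : (M ⧸ LinearMap.range (LinearMap.lsmul R M W)) →ₗ[R]
        (N ⧸ LinearMap.range (LinearMap.lsmul R N W)) :=
      Submodule.mapQ _ _ g (by
        rintro _ ⟨x, rfl⟩
        exact ⟨g x, (g.map_smul W x).symm⟩)
    have hcomp1 : f.comp (LinearMap.lsmul R L W) = (LinearMap.lsmul R M W).comp f :=
      LinearMap.ext fun x => f.map_smul W x
    have hcomp2 : g.comp (LinearMap.lsmul R M W) = (LinearMap.lsmul R N W).comp g :=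
      LinearMap.ext fun x => g.map_smul W x
    have hι : ∀ (V : Type u) [AddCommGroup V] [Module R V],
        Function.Exact (LinearMap.ker (LinearMap.lsmul R V W)).subtype (LinearMap.lsmul R V W) :=
      fun V _ _ => LinearMap.exact_subtype_ker_map _
    have hπ : ∀ (V : Type u) [AddCommGroup V] [Module R V],
        Function.Exact (LinearMap.lsmul R V W) (LinearMap.range (LinearMap.lsmul R V W)).mkQ :=
      fun V _ _ => LinearMap.exact_map_mkQ_range _
    let δ := SnakeLemma.δ' (LinearMap.lsmul R L W) (LinearMap.lsmul R M W) (LinearMap.lsmul R N W)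
      f g hfg f g hfg hcomp1 hcomp2 (LinearMap.ker (LinearMap.lsmul R N W)).subtype (hι N)
      (LinearMap.range (LinearMap.lsmul R L W)).mkQ (hπ L) hg hf
    have ha : Function.Injective a := by
      intro x y hxy
      apply Subtype.ext
      apply hf
      exact congrArg Subtype.val hxy
    have hab : Function.Exact a b := by
      rintro ⟨x, hx⟩
      constructor
      · intro h
        have h' : g x = 0 := congrArg Subtype.val h
        obtain ⟨y, hy⟩ := (hfg x).1 h'
        refine ⟨⟨y, ?_⟩, Subtype.ext hy⟩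
        rw [LinearMap.mem_ker] at hx ⊢
        apply hf
        show f (W • y) = f 0
        rw [map_smul, hy, map_zero]
        exact hx
      · rintro ⟨y, hy⟩
        apply Subtype.ext
        have hy' : f y.1 = x := congrArg Subtype.val hy
        exact (hfg x).2 ⟨y.1, hy'⟩
    have hbδ : Function.Exact b δ :=
      SnakeLemma.exact_δ'_right _ _ _ _ _ _ _ _ _ _ _ (LinearMap.ker (LinearMap.lsmul R M W)).subtype
        (hι M) _ _ _ _ hg hf b rfl (Submodule.injective_subtype _)
    have hδc : Function.Exact δ c :=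
      SnakeLemma.exact_δ'_left _ _ _ _ _ _ _ _ _ _ _ _ _ _ _
        (LinearMap.range (LinearMap.lsmul R M W)).mkQ (hπ M) hg hf c
        (by apply LinearMap.ext; intro x; rfl) (Submodule.mkQ_surjective _)
    have hcd : Function.Exact c d := by
      intro x
      obtain ⟨x, rfl⟩ := Submodule.Quotient.mk_surjective _ x
      constructor
      · intro h
        have h' : Submodule.Quotient.mk (g x) = (0 : N ⧸ LinearMap.range (LinearMap.lsmul R N W)) := h
        rw [Submodule.Quotient.mk_eq_zero] at h'
        obtain ⟨n, hn⟩ := h'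
        obtain ⟨m, rfl⟩ := hg n
        have hn' : W • g m = g x := hn
        have h3 : g (x - W • m) = 0 := by
          rw [map_sub, map_smul, hn', sub_self]
        obtain ⟨l, hl⟩ := (hfg _).1 h3
        refine ⟨Submodule.Quotient.mk l, ?_⟩
        show Submodule.Quotient.mk (f l) = Submodule.Quotient.mk x
        rw [hl, Submodule.Quotient.eq]
        refine ⟨-m, ?_⟩
        show W • (-m) = x - W • m - x
        rw [smul_neg]
        abel
      · rintro ⟨y, hy⟩
        obtain ⟨y, rfl⟩ := Submodule.Quotient.mk_surjective _ y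
        rw [← hy]
        show Submodule.Quotient.mk (g (f y)) = (0 : N ⧸ LinearMap.range (LinearMap.lsmul R N W))
        rw [(hfg (f y)).2 ⟨y, rfl⟩]
        rfl
    have hd : Function.Surjective d := by
      intro y
      obtain ⟨y, rfl⟩ := Submodule.Quotient.mk_surjective _ y
      obtain ⟨x, rfl⟩ := hg y
      exact ⟨Submodule.Quotient.mk x, rfl⟩
    have e1 := kosVal_congr lam (kos_ker_killed W L) (kos_sub_killed (kos_ker_killed W M) _)
      (LinearEquiv.ofInjective a ha)
    have e2 := kosVal_exact lam (kos_ker_killed W M) (kos_ker_killed W N) a b hab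
    have e3 := kosVal_exact lam (kos_ker_killed W N) (kos_quot_killed W L) b δ hbδ
    have e4 := kosVal_exact lam (kos_quot_killed W L) (kos_quot_killed W M) δ c hδc
    have e5 := kosVal_exact lam (kos_quot_killed W M) (kos_quot_killed W N) c d hcd
    have e6 := kosVal_congr lam (kos_sub_killed (kos_quot_killed W N) _) (kos_quot_killed W N)
      (LinearEquiv.ofTop _ (LinearMap.range_eq_top.2 hd))
    rw [e2, e5, e1, e4, e3, ← e6]
    ring

end Kos

theorem kos_zero {R : Type u} [CommRing R] [IsNoetherianRing R] (W : R) (hR : ZeroProp R)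
    (hW : ∀ x : R, W * x = 0 → x = 0) (lam : AddFn (R ⧸ Ideal.span {W}))
    (h0 : lam.val (R ⧸ Ideal.span {W}) = 0) (I : Ideal R) (hI : ∀ r, W * r ∈ I → r ∈ I) :
    lam.val ((R ⧸ Ideal.span {W}) ⧸ I.map (Ideal.Quotient.mk (Ideal.span {W}))) = 0 := by
  have hself : (kosFn W lam).val R = 0 := by
    have h1 : Subsingleton (LinearMap.ker (LinearMap.lsmul R R W)) := by
      refine ⟨?_⟩
      rintro ⟨x, hx⟩ ⟨y, hy⟩
      rw [LinearMap.mem_ker] at hx hy
      exact Subtype.ext ((hW x hx).trans (hW y hy).symm)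
    have h2 : kosVal W lam (R ⧸ LinearMap.range (LinearMap.lsmul R R W)) (kos_quot_killed W R) = 0 := by
      rw [← h0]
      let _ := kosMod W (R ⧸ LinearMap.range (LinearMap.lsmul R R W)) (kos_quot_killed W R)
      have hfin : Module.Finite (R ⧸ Ideal.span {W}) (R ⧸ LinearMap.range (LinearMap.lsmul R R W)) :=
        kosMod_finite (kos_quot_killed W R)
      have heq : LinearMap.range (LinearMap.lsmul R R W) = Ideal.span {W} := by
        ext x
        rw [Ideal.mem_span_singleton']
        constructor
        · rintro ⟨y, rfl⟩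
          exact ⟨y, mul_comm y W⟩
        · rintro ⟨y, rfl⟩
          exact ⟨y, mul_comm W y⟩
      let e := Submodule.quotEquivOfEq (LinearMap.range (LinearMap.lsmul R R W)) (Ideal.span {W}) heq
      let e' : (R ⧸ LinearMap.range (LinearMap.lsmul R R W)) ≃ₗ[R ⧸ Ideal.span {W}]
          (R ⧸ Ideal.span {W}) :=
        { e with
          map_smul' := fun b x => by
            obtain ⟨r, rfl⟩ := Ideal.Quotient.mk_surjective b
            exact e.map_smul r x }
      exact lam.val_congr e'
    show kosVal W lam (R ⧸ LinearMap.range (LinearMap.lsmul R R W)) (kos_quot_killed W R) -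
      kosVal W lam (LinearMap.ker (LinearMap.lsmul R R W)) (kos_ker_killed W R) = 0
    rw [h2, kosVal_subsingleton, sub_zero]
  have h3 := hR (kosFn W lam) hself (R ⧸ I)
  have h4 : Subsingleton (LinearMap.ker (LinearMap.lsmul R (R ⧸ I) W)) := by
    refine ⟨?_⟩
    have h5 : ∀ x : R ⧸ I, W • x = 0 → x = 0 := by
      intro x hx
      obtain ⟨x, rfl⟩ := Ideal.Quotient.mk_surjective x
      have hx' : Ideal.Quotient.mk I (W * x) = 0 := hx
      rw [Ideal.Quotient.eq_zero_iff_mem] at hx' ⊢
      exact hI x hx'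
    rintro ⟨x, hx⟩ ⟨y, hy⟩
    rw [LinearMap.mem_ker] at hx hy
    exact Subtype.ext ((h5 x hx).trans (h5 y hy).symm)
  have h5 : kosVal W lam ((R ⧸ I) ⧸ LinearMap.range (LinearMap.lsmul R (R ⧸ I) W))
      (kos_quot_killed W (R ⧸ I)) = 0 := by
    have h6 : kosVal W lam ((R ⧸ I) ⧸ LinearMap.range (LinearMap.lsmul R (R ⧸ I) W))
      (kos_quot_killed W (R ⧸ I)) -
      kosVal W lam (LinearMap.ker (LinearMap.lsmul R (R ⧸ I) W)) (kos_ker_killed W (R ⧸ I)) = 0 := h3
    have h7 := kosVal_subsingleton (M := LinearMap.ker (LinearMap.lsmul R (R ⧸ I) W)) lam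
      (kos_ker_killed W (R ⧸ I))
    rw [h7, sub_zero] at h6
    exact h6
  rw [← h5]
  -- the two quotients
  let φ : R →ₗ[R] ((R ⧸ I) ⧸ LinearMap.range (LinearMap.lsmul R (R ⧸ I) W)) :=
    (LinearMap.range (LinearMap.lsmul R (R ⧸ I) W)).mkQ.comp (Submodule.mkQ I)
  let J := I.map (Ideal.Quotient.mk (Ideal.span {W}))
  let ψ : R →ₗ[R] ((R ⧸ Ideal.span {W}) ⧸ J) :=
    ((Submodule.mkQ J).restrictScalars R).comp (Submodule.mkQ (Ideal.span {W}))
  have hφ : Function.Surjective φ :=
    (Submodule.mkQ_surjective _).comp (Submodule.mkQ_surjective _)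
  have hψ : Function.Surjective ψ :=
    (Submodule.mkQ_surjective _).comp (Submodule.mkQ_surjective _)
  have hkφ : LinearMap.ker φ = I ⊔ Ideal.span {W} := by
    ext x
    rw [LinearMap.mem_ker, Submodule.mem_sup]
    have h7 : φ x = 0 ↔ Ideal.Quotient.mk I x ∈ LinearMap.range (LinearMap.lsmul R (R ⧸ I) W) :=
      Submodule.Quotient.mk_eq_zero _
    rw [h7]
    constructor
    · rintro ⟨y, hy⟩
      obtain ⟨y, rfl⟩ := Ideal.Quotient.mk_surjective y
      have hy' : Ideal.Quotient.mk I (W * y) = Ideal.Quotient.mk I x := hy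
      rw [Ideal.Quotient.eq] at hy'
      refine ⟨x - W * y, ?_, W * y, Ideal.mul_mem_right _ _ (Ideal.subset_span rfl), by ring⟩
      have h8 : x - W * y = -(W * y - x) := by ring
      rw [h8]
      exact I.neg_mem hy'
    · rintro ⟨y, hy, z, hz, rfl⟩
      obtain ⟨z, rfl⟩ := Ideal.mem_span_singleton'.1 hz
      refine ⟨Ideal.Quotient.mk I z, ?_⟩
      show Ideal.Quotient.mk I (W * z) = Ideal.Quotient.mk I (y + z * W)
      rw [Ideal.Quotient.eq]
      have h8 : W * z - (y + z * W) = -y := by ring
      rw [h8]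
      exact I.neg_mem hy
  have hkψ : LinearMap.ker ψ = I ⊔ Ideal.span {W} := by
    ext x
    rw [LinearMap.mem_ker]
    have h7 : ψ x = 0 ↔ Ideal.Quotient.mk (Ideal.span {W}) x ∈ J :=
      Submodule.Quotient.mk_eq_zero _
    rw [h7]
    constructor
    · intro h
      have h8 : x ∈ J.comap (Ideal.Quotient.mk (Ideal.span {W})) := h
      rw [Ideal.comap_map_of_surjective _ Ideal.Quotient.mk_surjective] at h8
      have h9 : Ideal.comap (Ideal.Quotient.mk (Ideal.span {W})) ⊥ = Ideal.span {W} :=
        Ideal.mk_ker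
      rw [h9] at h8
      exact h8
    · intro h
      have h8 : x ∈ J.comap (Ideal.Quotient.mk (Ideal.span {W})) := by
        rw [Ideal.comap_map_of_surjective _ Ideal.Quotient.mk_surjective]
        have h9 : Ideal.comap (Ideal.Quotient.mk (Ideal.span {W})) ⊥ = Ideal.span {W} :=
          Ideal.mk_ker
        rw [h9]
        exact h
      exact h8
  let e : ((R ⧸ I) ⧸ LinearMap.range (LinearMap.lsmul R (R ⧸ I) W)) ≃ₗ[R]
      ((R ⧸ Ideal.span {W}) ⧸ J) :=
    (φ.quotKerEquivOfSurjective hφ).symm.trans
      ((Submodule.quotEquivOfEq _ _ (hkφ.trans hkψ.symm)).trans (ψ.quotKerEquivOfSurjective hψ))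
  let _ := kosMod W ((R ⧸ I) ⧸ LinearMap.range (LinearMap.lsmul R (R ⧸ I) W))
    (kos_quot_killed W (R ⧸ I))
  have hfin : Module.Finite (R ⧸ Ideal.span {W})
      ((R ⧸ I) ⧸ LinearMap.range (LinearMap.lsmul R (R ⧸ I) W)) :=
    kosMod_finite (kos_quot_killed W (R ⧸ I))
  let e' : ((R ⧸ I) ⧸ LinearMap.range (LinearMap.lsmul R (R ⧸ I) W)) ≃ₗ[R ⧸ Ideal.span {W}]
      ((R ⧸ Ideal.span {W}) ⧸ J) :=
    { e with
      map_smul' := fun b x => by
        obtain ⟨r, rfl⟩ := Ideal.Quotient.mk_surjective b
        exact e.map_smul r x }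
  exact (lam.val_congr e').symm

end Pool.Agent.HT51
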