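import Pool.Agent.HT51.LpM
import Pool.Agent.HT51.LpKos

/-!
# Additive functions and surjective ring homomorphisms
-/

universe u

namespace Pool.Agent.HT51

section transport

variable {B A : Type u} [CommRing B] [CommRing A] (φ : B →+* A) (hφ : Function.Surjective φ)

/-- If all modules over the quotient `A` have value zero then so have the modules killed by the
kernel. -/
lemma val_of_res (lam : AddFn B)
    (h : ∀ (V : Type u) [AddCommGroup V] [Module A V] [Module.Finite A V],
      (lam.res φ (RingHom.Finite.of_surjective φ hφ)).val V = 0)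
    (M : Type u) [AddCommGroup M] [Module B M] [hfin : Module.Finite B M]
    (hM : ∀ b, φ b = 0 → ∀ m : M, b • m = 0) : lam.val M = 0 := by
  have htor : Module.IsTorsionBySet B M (RingHom.ker φ) := by
    rintro x ⟨y, hy⟩
    exact hM y hy x
  let _ : Module (B ⧸ RingHom.ker φ) M := htor.module
  let g : (B ⧸ RingHom.ker φ) ≃+* A := RingHom.quotientKerEquivOfSurjective hφ
  let _ : Module A M := Module.compHom M (g.symm : A →+* B ⧸ RingHom.ker φ)
  have hsmul : ∀ (b : B) (x : M), φ b • x = b • x := by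
    intro b x
    have h1 : g.symm (φ b) = Ideal.Quotient.mk (RingHom.ker φ) b := by
      rw [RingEquiv.symm_apply_eq]
      rfl
    show g.symm (φ b) • x = b • x
    rw [h1]
    rfl
  have : Module.Finite A M := by
    obtain ⟨S, hS⟩ := hfin.fg_top
    refine ⟨S, ?_⟩
    rw [eq_top_iff]
    intro x _
    have hx : x ∈ Submodule.span B (S : Set M) := by rw [hS]; trivial
    induction hx using Submodule.span_induction with
    | mem y hy => exact Submodule.subset_span hy
    | zero => exact zero_mem _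
    | add y z _ _ hy hz => exact add_mem (hy trivial) (hz trivial)
    | smul b y _ hy =>
      rw [← hsmul]
      exact Submodule.smul_mem _ _ (hy trivial)
  rw [← h M]
  exact lam.val_congr (M := M) (N := Res φ M)
    { toFun := fun x => x
      invFun := fun x => x
      left_inv := fun _ => rfl
      right_inv := fun _ => rfl
      map_add' := fun _ _ => rfl
      map_smul' := fun a x => (hsmul a x).symm }

/-- The value of the restriction at a quotient of the ring. -/
lemma res_val_quot (lam : AddFn B) (J : Ideal A) :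
    (lam.res φ (RingHom.Finite.of_surjective φ hφ)).val (A ⧸ J) = lam.val (B ⧸ J.comap φ) := by
  let f : B →ₗ[B] Res φ (A ⧸ J) :=
    { toFun := fun b => Ideal.Quotient.mk J (φ b)
      map_add' := fun x y => by rw [map_add, map_add]; rfl
      map_smul' := fun x y => by
        show Ideal.Quotient.mk J (φ (x * y)) = φ x • Ideal.Quotient.mk J (φ y)
        rw [map_mul]
        rfl }
  have hf : Function.Surjective f := by
    intro y
    obtain ⟨a, ha⟩ := Ideal.Quotient.mk_surjective (I := J) y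
    obtain ⟨b, hb⟩ := hφ a
    exact ⟨b, by rw [← ha, ← hb]; rfl⟩
  have hk : LinearMap.ker f = J.comap φ := by
    ext b
    rw [LinearMap.mem_ker, Ideal.mem_comap, ← Ideal.Quotient.eq_zero_iff_mem]
    rfl
  rw [← hk]
  exact (lam.val_congr (f.quotKerEquivOfSurjective hf)).symm

/-- The value of the restriction at the ring. -/
lemma res_val_self (lam : AddFn B) :
    (lam.res φ (RingHom.Finite.of_surjective φ hφ)).val A = lam.val (B ⧸ RingHom.ker φ) := by
  let f : B →ₗ[B] Res φ A :=
    { toFun := fun b => φ b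
      map_add' := fun x y => by rw [map_add]; rfl
      map_smul' := fun x y => map_mul φ x y }
  have hk : LinearMap.ker f = RingHom.ker φ := rfl
  rw [← hk]
  exact (lam.val_congr (f.quotKerEquivOfSurjective hφ)).symm

/-- Values of quotients of the ring. -/
lemma val_colon (lam : AddFn B) (I₁ I₂ : Ideal B) (s : B) (h : ∀ r, r ∈ I₁ ↔ s * r ∈ I₂) :
    lam.val (B ⧸ I₂) = lam.val (B ⧸ I₁) + lam.val (B ⧸ (I₂ ⊔ Ideal.span {s})) := by
  have hle : I₁ ≤ Submodule.comap (LinearMap.lsmul B B s) I₂ := fun r hr => (h r).1 hr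
  have hle' : I₂ ≤ Submodule.comap LinearMap.id (I₂ ⊔ Ideal.span {s}) := le_sup_left
  refine lam.add' _ _ _ (Submodule.mapQ I₁ I₂ (LinearMap.lsmul B B s) hle)
    (Submodule.mapQ I₂ (I₂ ⊔ Ideal.span {s}) LinearMap.id hle') ?_ ?_ ?_ inferInstance
  · rw [injective_iff_map_eq_zero]
    intro x hx
    obtain ⟨x, rfl⟩ := Ideal.Quotient.mk_surjective x
    have hx' : Ideal.Quotient.mk I₂ (s * x) = 0 := hx
    rw [Ideal.Quotient.eq_zero_iff_mem] at hx' ⊢
    exact (h x).2 hx'
  · intro x
    obtain ⟨x, rfl⟩ := Ideal.Quotient.mk_surjective x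
    constructor
    · intro hx
      have hx' : Ideal.Quotient.mk (I₂ ⊔ Ideal.span {s}) x = 0 := hx
      rw [Ideal.Quotient.eq_zero_iff_mem, sup_comm, Ideal.mem_span_singleton_sup] at hx'
      obtain ⟨a, b, hb, hab⟩ := hx'
      refine ⟨Ideal.Quotient.mk _ a, ?_⟩
      show Ideal.Quotient.mk I₂ (s * a) = _
      rw [Ideal.Quotient.eq, ← hab]
      have : s * a - (a * s + b) = -b := by ring
      rw [this]
      exact (Ideal.neg_mem_iff _).mpr hb
    · rintro ⟨y, hy⟩
      obtain ⟨y, rfl⟩ := Ideal.Quotient.mk_surjective y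
      have hy' : Ideal.Quotient.mk I₂ (s * y) = Ideal.Quotient.mk _ x := hy
      rw [Ideal.Quotient.eq] at hy'
      show Ideal.Quotient.mk (I₂ ⊔ Ideal.span {s}) x = 0
      rw [Ideal.Quotient.eq_zero_iff_mem]
      have : x = y * s - (s * y - x) := by ring
      rw [this]
      exact Ideal.sub_mem _ (Ideal.mem_sup_right (Ideal.mem_span_singleton'.mpr ⟨y, rfl⟩))
        (Ideal.mem_sup_left hy')
  · intro y
    obtain ⟨y, rfl⟩ := Ideal.Quotient.mk_surjective y
    exact ⟨Ideal.Quotient.mk _ y, rfl⟩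

end transport

section hyp

variable {R : Type u} [CommRing R] [IsNoetherianRing R] {W : R}
  {lam : AddFn (R ⧸ Ideal.span {W})}

omit [IsNoetherianRing R] in
lemma mem_map_mk {I : Ideal R} (hW : W ∈ I) (r : R) :
    Ideal.Quotient.mk (Ideal.span {W}) r ∈ I.map (Ideal.Quotient.mk (Ideal.span {W})) ↔ r ∈ I := by
  rw [Ideal.mem_map_iff_of_surjective _ Ideal.Quotient.mk_surjective]
  constructor
  · rintro ⟨x, hx, hxr⟩
    rw [Ideal.Quotient.eq, Ideal.mem_span_singleton'] at hxr
    obtain ⟨t, ht⟩ := hxr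
    have : r = x - t * W := by rw [ht]; ring
    rw [this]
    exact I.sub_mem hx (I.mul_mem_left _ hW)
  · intro h
    exact ⟨r, h, rfl⟩

/-- Values of quotients, for ideals containing `W`. -/
lemma val_colon' (I₁ I₂ : Ideal R) (h₁ : W ∈ I₁) (h₂ : W ∈ I₂) (s : R)
    (h : ∀ r, r ∈ I₁ ↔ s * r ∈ I₂) :
    lam.val ((R ⧸ Ideal.span {W}) ⧸ I₂.map (Ideal.Quotient.mk (Ideal.span {W}))) =
      lam.val ((R ⧸ Ideal.span {W}) ⧸ I₁.map (Ideal.Quotient.mk (Ideal.span {W}))) +
      lam.val ((R ⧸ Ideal.span {W}) ⧸ (I₂ ⊔ Ideal.span {s}).map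
        (Ideal.Quotient.mk (Ideal.span {W}))) := by
  rw [Ideal.map_sup, Ideal.map_span, Set.image_singleton]
  refine val_colon lam _ _ _ fun r => ?_
  obtain ⟨r, rfl⟩ := Ideal.Quotient.mk_surjective r
  rw [← map_mul, mem_map_mk h₁, mem_map_mk h₂]
  exact h r

variable (hR : ZeroProp R) (hW : ∀ x : R, W * x = 0 → x = 0)
  (h0 : lam.val (R ⧸ Ideal.span {W}) = 0)
include hR hW h0

/-- Restrictions to integral quotients. -/
lemma res_zero {T A : Type u} [CommRing T] [IsDomain T] [CommRing A] (δ : R →+* T)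
    (hδ : Function.Surjective δ) (hδW : δ W ≠ 0) (Ψ : T →+* A)
    (hker : ∀ t, Ψ t = 0 → δ W ∣ t) (φ : R ⧸ Ideal.span {W} →+* A)
    (hφ : ∀ r, φ (Ideal.Quotient.mk _ r) = Ψ (δ r)) (hφs : Function.Surjective φ) :
    (lam.res φ (RingHom.Finite.of_surjective φ hφs)).val A = 0 := by
  rw [res_val_self φ hφs]
  have h1 := kos_zero W hR hW lam h0 (RingHom.ker δ) (fun r hr => by
    rw [RingHom.mem_ker, map_mul, mul_eq_zero] at hr
    exact hr.resolve_left hδW)
  have e : RingHom.ker φ = (RingHom.ker δ).map (Ideal.Quotient.mk (Ideal.span {W})) := by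
    have hW0 : Ψ (δ W) = 0 := by
      rw [← hφ, Ideal.Quotient.eq_zero_iff_mem.mpr (Ideal.mem_span_singleton_self W), map_zero]
    ext b
    obtain ⟨r, rfl⟩ := Ideal.Quotient.mk_surjective b
    rw [RingHom.mem_ker, hφ, Ideal.mem_map_iff_of_surjective _ Ideal.Quotient.mk_surjective]
    constructor
    · intro h
      obtain ⟨t, ht⟩ := hker _ h
      obtain ⟨t, rfl⟩ := hδ t
      refine ⟨r - W * t, ?_, ?_⟩
      · rw [RingHom.mem_ker, map_sub, map_mul, ht, sub_self]
      · rw [Ideal.Quotient.eq, Ideal.mem_span_singleton']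
        exact ⟨-t, by ring⟩
    · rintro ⟨x, hx, hxr⟩
      rw [Ideal.Quotient.eq, Ideal.mem_span_singleton'] at hxr
      obtain ⟨t, ht⟩ := hxr
      have h2 : r = x - t * W := by rw [ht]; ring
      rw [RingHom.mem_ker] at hx
      rw [h2, map_sub, map_mul, hx, zero_sub, map_neg, map_mul, hW0, mul_zero, neg_zero]
  rw [e]
  exact h1

end hyp

end Pool.Agent.HT51
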