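import Pool.Agent.HT51.KpDefs
import Pool.Agent.HT51.LpKa

/-!
# Knörrer periodicity: reduction to the modules `N[Y]`
-/

universe u

namespace Pool.Agent.HT51

open TensorProduct

section kpa

variable {T : Type u} [CommRing T] {g : T} {B : Type u} [CommRing B]
  {m : Polynomial (Polynomial T) →+* B} (hm : ∀ P, m P = 0 ↔ kpW g ∣ P)

include hm in
lemma kpa_XY : m (Polynomial.C Polynomial.X) * m Polynomial.X =
    m (Polynomial.C (Polynomial.C (-g))) := by
  have h1 : m (kpW g) = 0 := (hm _).2 dvd_rfl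
  rw [kpW, map_add, map_mul] at h1
  rw [map_neg Polynomial.C, map_neg Polynomial.C, map_neg m]
  exact eq_neg_of_add_eq_zero_left h1

lemma kpa_E0 (g : T) : kpE0 g = Polynomial.mapRingHom ((Ideal.Quotient.mk (Ideal.span {g})).comp
    (Polynomial.evalRingHom (0 : T))) := by
  refine Polynomial.ringHom_ext (fun a => ?_) ?_
  · rw [kpE0_C, Polynomial.coe_mapRingHom, Polynomial.map_C]
    rfl
  · rw [kpE0_X, Polynomial.coe_mapRingHom, Polynomial.map_X]

lemma kpa_surj0 (g : T) : Function.Surjective (kpE0 g) := by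
  intro y
  obtain ⟨z, rfl⟩ := Polynomial.map_surjective (Ideal.Quotient.mk (Ideal.span {g}))
    Ideal.Quotient.mk_surjective y
  refine ⟨z.map Polynomial.C, ?_⟩
  rw [kpa_E0, Polynomial.coe_mapRingHom, Polynomial.map_map]
  congr 1
  ext t
  simp

include hm in
/-- The kernel of `kpE` is generated by `X`. -/
lemma kpa_ker (P : Polynomial (Polynomial T)) (hP : kpE0 g P = 0) :
    m P ∈ Ideal.span {m (Polynomial.C Polynomial.X)} := by
  rw [kpa_E0, Polynomial.coe_mapRingHom] at hP
  rw [Polynomial.as_sum_range_C_mul_X_pow P, map_sum]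
  refine Ideal.sum_mem _ fun n _ => ?_
  rw [map_mul]
  refine Ideal.mul_mem_right _ _ ?_
  have h1 := congrArg (fun q => q.coeff n) hP
  simp only [Polynomial.coeff_map, Polynomial.coeff_zero, RingHom.comp_apply,
    Polynomial.coe_evalRingHom] at h1
  rw [Ideal.Quotient.eq_zero_iff_mem, Ideal.mem_span_singleton'] at h1
  obtain ⟨t, ht⟩ := h1
  have h2 : P.coeff n = Polynomial.X * (P.coeff n).divX + Polynomial.C t * Polynomial.C g := by
    conv_lhs => rw [← Polynomial.divX_mul_X_add (P.coeff n)]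
    rw [← map_mul, ht, Polynomial.coeff_zero_eq_eval_zero, mul_comm]
  rw [h2, map_add, map_mul, map_add, map_mul]
  refine Ideal.add_mem _ (Ideal.mul_mem_right _ _ (Ideal.subset_span rfl)) ?_
  rw [map_mul, map_mul]
  refine Ideal.mul_mem_left _ _ ?_
  have h3 : m (Polynomial.C (Polynomial.C g)) =
      -(m (Polynomial.C Polynomial.X) * m Polynomial.X) := by
    rw [kpa_XY hm, map_neg, map_neg, map_neg, neg_neg]
  rw [h3]
  exact (Ideal.neg_mem_iff _).2 (Ideal.mul_mem_right _ _ (Ideal.subset_span rfl))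

include hm in
lemma kpa_inj [IsDomain T] (c : Polynomial T) (hc : m (Polynomial.C c) = 0) : c = 0 := by
  rw [hm] at hc
  by_contra h
  obtain ⟨q, hq⟩ := hc
  have h1 : (kpW g).degree = 1 := by
    rw [kpW]
    exact Polynomial.degree_linear Polynomial.X_ne_zero
  have h2 : q ≠ 0 := by
    rintro rfl
    rw [mul_zero] at hq
    exact h (Polynomial.C_eq_zero.1 hq)
  have h3 := congrArg Polynomial.degree hq
  rw [Polynomial.degree_C h, Polynomial.degree_mul, h1, Polynomial.degree_eq_natDegree h2] at h3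
  have h4 : (0 : ℕ) = 1 + q.natDegree := by exact_mod_cast h3
  omega

include hm in
lemma kpa_pow (P : Polynomial (Polynomial T)) : ∃ (n : ℕ) (c : Polynomial T),
    m (Polynomial.C Polynomial.X) ^ n * m P = m (Polynomial.C c) := by
  induction P using Polynomial.induction_on' with
  | add P Q hP hQ =>
    obtain ⟨n, c, h1⟩ := hP
    obtain ⟨k, d, h2⟩ := hQ
    refine ⟨n + k, Polynomial.X ^ k * c + Polynomial.X ^ n * d, ?_⟩
    rw [map_add Polynomial.C, map_mul Polynomial.C, map_mul Polynomial.C, map_add m, map_add m,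
      map_mul m, map_mul m, ← h1, ← h2, map_pow Polynomial.C, map_pow Polynomial.C, map_pow m,
      map_pow m]
    ring
  | monomial n a =>
    refine ⟨n, a * Polynomial.C (-g) ^ n, ?_⟩
    have h1 : m (Polynomial.C Polynomial.X) ^ n * (m (Polynomial.C a) * m Polynomial.X ^ n) =
        m (Polynomial.C a) * (m (Polynomial.C Polynomial.X) * m Polynomial.X) ^ n := by
      ring
    rw [← Polynomial.C_mul_X_pow_eq_monomial, map_mul m, map_pow m, h1, kpa_XY hm,
      map_mul Polynomial.C, map_mul m, map_pow Polynomial.C, map_pow m]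

include hm in
/-- `kp_reduce` for a ring `B` isomorphic to `T[X][Y]/(XY+g)`. -/
theorem kp_reduceB [IsDomain T] [IsNoetherianRing T] [IsNoetherianRing B]
    (hms : Function.Surjective m) (hT : ZeroProp T)
    (φ : B →+* Polynomial (T ⧸ Ideal.span {g})) (hφ : ∀ P, φ (m P) = kpE0 g P)
    (mu : AddFn B) (h0 : mu.val B = 0)
    (h : ∀ (N : Type u) [AddCommGroup N] [Module (T ⧸ Ideal.span {g}) N]
      [Module.Finite (T ⧸ Ideal.span {g}) N],
      mu.val (Res φ (Polynomial (T ⧸ Ideal.span {g}) ⊗[T ⧸ Ideal.span {g}] N)) = 0)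
    (W : Type u) [AddCommGroup W] [Module B W] [Module.Finite B W] :
    mu.val W = 0 := by
  have hz : ZeroPropK B (m (Polynomial.C Polynomial.X)) :=
    zpk_of_bir (m.comp Polynomial.C) Polynomial.X
      (fun b => by
        obtain ⟨P, rfl⟩ := hms b
        exact kpa_pow hm P)
      (fun c hc => ⟨0, by rw [kpa_inj hm c hc, mul_zero]⟩) (ZeroProp.polynomial hT)
  have hφs : Function.Surjective φ := by
    intro y
    obtain ⟨P, rfl⟩ := kpa_surj0 g y
    exact ⟨m P, hφ P⟩
  refine hz mu h0 ?_ W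
  intro M _ _ hM hM0
  refine val_of_res φ hφs mu (fun V => ?_) M (fun b hb x => ?_)
  · refine homotopy _ ?_ V
    intro p _
    have h1 := h ((T ⧸ Ideal.span {g}) ⧸ p)
    rw [← h1]
    exact (mu.res φ (RingHom.Finite.of_surjective _ hφs)).val_congr
      (Algebra.TensorProduct.quotIdealMapEquivTensorQuot (Polynomial (T ⧸ Ideal.span {g}))
        p).toLinearEquiv
  · obtain ⟨P, rfl⟩ := hms b
    rw [hφ] at hb
    obtain ⟨c, hc⟩ := Ideal.mem_span_singleton'.1 (kpa_ker hm P hb)
    rw [← hc, mul_smul, hM0, smul_zero]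

end kpa

/-- (KPA) additive functions on `T[X][Y]/(XY+g)` are determined by the modules `N[Y]`. -/
theorem kp_reduce {T : Type u} [CommRing T] [IsDomain T] [IsNoetherianRing T] (hT : ZeroProp T)
    (g : T) (mu : AddFn (KpB g)) (h0 : mu.val (KpB g) = 0)
    (h : ∀ (N : Type u) [AddCommGroup N] [Module (T ⧸ Ideal.span {g}) N]
      [Module.Finite (T ⧸ Ideal.span {g}) N],
      mu.val (Res (kpE g) (Polynomial (T ⧸ Ideal.span {g}) ⊗[T ⧸ Ideal.span {g}] N)) = 0)
    (W : Type u) [AddCommGroup W] [Module (KpB g) W] [Module.Finite (KpB g) W] :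
    mu.val W = 0 :=
  kp_reduceB (B := KpB g) (m := Ideal.Quotient.mk (Ideal.span {kpW g}))
    (fun P => by rw [Ideal.Quotient.eq_zero_iff_mem, Ideal.mem_span_singleton])
    Ideal.Quotient.mk_surjective hT (kpE g) (fun P => rfl) mu h0 h W

end Pool.Agent.HT51
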