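import Pool.Agent.HT51.AddFn

/-!
# The exact hexagon of `2`-periodic complexes, in terms of lengths
-/

universe u

namespace Pool.Agent.HT51

section ln

variable (R : Type u) [CommRing R]

/-- The length as an integer (`0` if infinite). -/
noncomputable def ln (M : Type u) [AddCommGroup M] [Module R M] : ℤ := ((Module.length R M).toNat : ℤ)

variable {R}
variable {L M N : Type u} [AddCommGroup L] [Module R L] [AddCommGroup M] [Module R M]
  [AddCommGroup N] [Module R N]

lemma ln_congr (e : M ≃ₗ[R] N) : ln R M = ln R N := by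
  unfold ln
  rw [e.length_eq]

lemma ln_exact (hM : IsFiniteLength R M) (f : L →ₗ[R] M) (g : M →ₗ[R] N)
    (hf : Function.Injective f) (hfg : Function.Exact f g) (hg : Function.Surjective g) :
    ln R M = ln R L + ln R N := by
  unfold ln
  have h := Module.length_eq_add_of_exact f g hf hg hfg
  rw [← Module.length_ne_top_iff] at hM
  rw [h] at hM ⊢
  have h1 : Module.length R L ≠ ⊤ := fun h => hM (by rw [h, top_add])
  have h2 : Module.length R N ≠ ⊤ := fun h => hM (by rw [h, add_top])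
  rw [ENat.toNat_add h1 h2]
  push_cast
  rfl

lemma ln_sub_quot (hM : IsFiniteLength R M) (S : Submodule R M) :
    ln R M = ln R S + ln R (M ⧸ S) :=
  ln_exact hM S.subtype S.mkQ (Submodule.injective_subtype S) (LinearMap.exact_subtype_mkQ S)
    (Submodule.mkQ_surjective S)

lemma ln_ker_range (hM : IsFiniteLength R M) (f : M →ₗ[R] N) :
    ln R M = ln R (LinearMap.ker f) + ln R (LinearMap.range f) := by
  rw [ln_sub_quot hM (LinearMap.ker f), ln_congr f.quotKerEquivRange]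

lemma ln_eq_of_ker (q : L →ₗ[R] M) (g : L →ₗ[R] N) (hq : Function.Surjective q)
    (hg : Function.Surjective g) (hk : ∀ x, q x = 0 ↔ g x = 0) : ln R M = ln R N := by
  have hqk : LinearMap.ker q = LinearMap.ker g := by
    ext x; exact hk x
  exact ln_congr ((LinearMap.quotKerEquivOfSurjective q hq).symm.trans
    ((Submodule.quotEquivOfEq _ _ hqk).trans (LinearMap.quotKerEquivOfSurjective g hg)))

lemma fl_of_inj (hM : IsFiniteLength R M) (f : L →ₗ[R] M) (hf : Function.Injective f) :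
    IsFiniteLength R L := by
  rw [← Module.length_ne_top_iff] at hM ⊢
  exact ne_top_of_le_ne_top hM (Module.length_le_of_injective f hf)

lemma fl_of_surj (hM : IsFiniteLength R M) (f : M →ₗ[R] L) (hf : Function.Surjective f) :
    IsFiniteLength R L := by
  rw [← Module.length_ne_top_iff] at hM ⊢
  exact ne_top_of_le_ne_top hM (Module.length_le_of_surjective f hf)

end ln

section Hm

variable {R : Type u} [CommRing R]
variable {L M N : Type u} [AddCommGroup L] [Module R L] [AddCommGroup M] [Module R M]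
  [AddCommGroup N] [Module R N]

/-- `ker φ / (im ψ ∩ ker φ)` -/
abbrev Hm (φ ψ : M →ₗ[R] M) : Type u :=
  (LinearMap.ker φ) ⧸ (LinearMap.range ψ).comap (LinearMap.ker φ).subtype

/-- the induced map -/
def Hmap {φL ψL : L →ₗ[R] L} {φM ψM : M →ₗ[R] M} (f : L →ₗ[R] M)
    (hφ : ∀ x, f (φL x) = φM (f x)) (hψ : ∀ x, f (ψL x) = ψM (f x)) :
    Hm φL ψL →ₗ[R] Hm φM ψM :=
  Submodule.mapQ _ _ (f.restrict (p := LinearMap.ker φL) (q := LinearMap.ker φM) (fun x hx => by
    rw [LinearMap.mem_ker] at hx ⊢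
    rw [← hφ, hx, map_zero])) (by
    rintro ⟨x, hx⟩ ⟨y, hy⟩
    exact ⟨f y, by rw [← hψ, hy]; rfl⟩)

lemma Hmap_mk {φL ψL : L →ₗ[R] L} {φM ψM : M →ₗ[R] M} (f : L →ₗ[R] M)
    (hφ : ∀ x, f (φL x) = φM (f x)) (hψ : ∀ x, f (ψL x) = ψM (f x)) (x : LinearMap.ker φL)
    (h : f x.1 ∈ LinearMap.ker φM) :
    Hmap f hφ hψ (Submodule.Quotient.mk x) = Submodule.Quotient.mk ⟨f x.1, h⟩ := rfl

lemma Hm_mk_eq_zero {φM ψM : M →ₗ[R] M} (x : LinearMap.ker φM) :
    (Submodule.Quotient.mk x : Hm φM ψM) = 0 ↔ ∃ y, ψM y = x.1 := by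
  rw [Submodule.Quotient.mk_eq_zero]
  exact Iff.rfl

variable {φL ψL : L →ₗ[R] L} {φM ψM : M →ₗ[R] M} {φN ψN : N →ₗ[R] N}
  (i : L →ₗ[R] M) (p : M →ₗ[R] N) (hi : Function.Injective i) (hp : Function.Surjective p)
  (hip : Function.Exact i p) (hiφ : ∀ x, i (φL x) = φM (i x)) (hiψ : ∀ x, i (ψL x) = ψM (i x))
  (hpφ : ∀ x, p (φM x) = φN (p x)) (hpψ : ∀ x, p (ψM x) = ψN (p x))
  (h0 : ∀ x, φM (ψM x) = 0) (h1 : ∀ x, ψM (φM x) = 0)

include hi hp hip hpφ hpψ h0 h1 in
theorem hex (hfin : IsFiniteLength R (Hm φN ψN)) :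
    ln R (Hm φN ψN) = ln R (Hm φM ψM ⧸ LinearMap.range (Hmap (φL := φL) (ψL := ψL) i hiφ hiψ))
      + ln R (LinearMap.ker (Hmap (φL := ψL) (ψL := φL) (φM := ψM) (ψM := φM) i hiψ hiφ)) := by
  let a2 : Hm φM ψM →ₗ[R] Hm φN ψN := Hmap p hpφ hpψ
  -- the image part
  have e1 : ln R (LinearMap.range a2) = ln R (Hm φM ψM ⧸ LinearMap.range
      (Hmap (φL := φL) (ψL := ψL) (φM := φM) (ψM := ψM) i hiφ hiψ)) := by
    refine (ln_eq_of_ker (Submodule.mkQ _) (a2.rangeRestrict) (Submodule.mkQ_surjective _)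
      a2.surjective_rangeRestrict ?_).symm
    intro x
    obtain ⟨x, rfl⟩ := Submodule.Quotient.mk_surjective _ x
    rw [Submodule.mkQ_apply, Submodule.Quotient.mk_eq_zero]
    have h2 : a2.rangeRestrict (Submodule.Quotient.mk x) = 0 ↔ a2 (Submodule.Quotient.mk x) = 0 :=
      ⟨fun h => congrArg Subtype.val h, fun h => Subtype.ext h⟩
    rw [h2]
    have hpx : p x.1 ∈ LinearMap.ker φN := by
      rw [LinearMap.mem_ker, ← hpφ, x.2, map_zero]
    have h3 : a2 (Submodule.Quotient.mk x) = 0 ↔ ∃ y, ψN y = p x.1 :=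
      Hm_mk_eq_zero (φM := φN) (ψM := ψN) ⟨p x.1, hpx⟩
    rw [h3]
    constructor
    · rintro ⟨y, hy⟩
      obtain ⟨y, rfl⟩ := Submodule.Quotient.mk_surjective _ y
      have hiy : i y.1 ∈ LinearMap.ker φM := by
        rw [LinearMap.mem_ker, ← hiφ, y.2, map_zero]
      have hy' : (Submodule.Quotient.mk ⟨i y.1, hiy⟩ : Hm φM ψM) = Submodule.Quotient.mk x := hy
      rw [Submodule.Quotient.eq] at hy'
      obtain ⟨z, hz⟩ := hy'
      have hz' : ψM z = i y.1 - x.1 := hz
      refine ⟨-p z, ?_⟩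
      rw [map_neg, ← hpψ, hz', map_sub, (hip _).mpr ⟨_, rfl⟩, zero_sub, neg_neg]
    · rintro ⟨y, hy⟩
      obtain ⟨m, rfl⟩ := hp y
      obtain ⟨l, hl⟩ := (hip (x.1 - ψM m)).mp (by rw [map_sub, hpψ, hy, sub_self])
      have hlk : l ∈ LinearMap.ker φL := by
        rw [LinearMap.mem_ker]
        apply hi
        rw [hiφ, hl, map_sub, x.2, h0, sub_zero, map_zero]
      refine ⟨Submodule.Quotient.mk ⟨l, hlk⟩, ?_⟩
      have hiy : i l ∈ LinearMap.ker φM := by
        rw [LinearMap.mem_ker, ← hiφ, hlk, map_zero]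
      show (Submodule.Quotient.mk ⟨i l, hiy⟩ : Hm φM ψM) = Submodule.Quotient.mk x
      rw [Submodule.Quotient.eq]
      refine ⟨-m, ?_⟩
      show ψM (-m) = i l - x.1
      rw [hl, map_neg]
      abel
  -- the connecting part
  let X : Submodule R M := (LinearMap.range i).comap φM
  let e : L ≃ₗ[R] LinearMap.range i := LinearEquiv.ofInjective i hi
  have he : ∀ (y : LinearMap.range i), i (e.symm y) = y.1 := by
    intro y
    have := congrArg Subtype.val (e.apply_symm_apply y)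
    exact this
  let al : X →ₗ[R] LinearMap.ker ψL :=
    LinearMap.codRestrict (LinearMap.ker ψL)
      (e.symm.toLinearMap.comp (φM.restrict (p := X) (q := LinearMap.range i) (fun x hx => hx)))
      (by
        rintro ⟨x, hx⟩
        rw [LinearMap.mem_ker]
        apply hi
        rw [hiψ, map_zero]
        show ψM (i (e.symm ⟨φM x, hx⟩)) = 0
        rw [he]
        exact h1 x)
  have hal : ∀ x : X, i (al x).1 = φM x.1 := fun x => he ⟨φM x.1, x.2⟩
  let be : X →ₗ[R] LinearMap.ker φN :=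
    LinearMap.codRestrict (LinearMap.ker φN) (p.comp X.subtype) (by
      rintro ⟨x, l, hl⟩
      rw [LinearMap.mem_ker]
      show φN (p x) = 0
      rw [← hpφ, ← hl]
      exact (hip _).mpr ⟨l, rfl⟩)
  let b1 : Hm ψL φL →ₗ[R] Hm ψM φM := Hmap i hiψ hiφ
  have hb1 : ∀ x : LinearMap.ker ψL, b1 (Submodule.Quotient.mk x) = 0 ↔ ∃ y, φM y = i x.1 := by
    intro x
    have hpx : i x.1 ∈ LinearMap.ker ψM := by
      rw [LinearMap.mem_ker, ← hiψ, x.2, map_zero]
    exact Hm_mk_eq_zero (φM := ψM) (ψM := φM) ⟨i x.1, hpx⟩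
  let al' : X →ₗ[R] LinearMap.ker b1 :=
    LinearMap.codRestrict (LinearMap.ker b1) ((Submodule.mkQ _).comp al) (by
      intro x
      rw [LinearMap.mem_ker]
      exact (hb1 (al x)).mpr ⟨x.1, (hal x).symm⟩)
  have e2 : ln R (Hm φN ψN ⧸ LinearMap.range a2) = ln R (LinearMap.ker b1) := by
    refine ln_eq_of_ker ((Submodule.mkQ _).comp ((Submodule.mkQ _).comp be)) al' ?_ ?_ ?_
    · intro y
      obtain ⟨y, rfl⟩ := Submodule.Quotient.mk_surjective _ y
      obtain ⟨y, rfl⟩ := Submodule.Quotient.mk_surjective _ y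
      obtain ⟨m, hm⟩ := hp y.1
      have hmX : m ∈ X := by
        show φM m ∈ LinearMap.range i
        obtain ⟨l, hl⟩ := (hip (φM m)).mp (by rw [hpφ, hm]; exact y.2)
        exact ⟨l, hl⟩
      refine ⟨⟨m, hmX⟩, ?_⟩
      have : be ⟨m, hmX⟩ = y := Subtype.ext hm
      show Submodule.Quotient.mk (Submodule.Quotient.mk (be ⟨m, hmX⟩)) = _
      rw [this]
    · rintro ⟨y, hy⟩
      obtain ⟨y, rfl⟩ := Submodule.Quotient.mk_surjective _ y
      obtain ⟨m, hm⟩ := (hb1 y).mp hy
      have hmX : m ∈ X := ⟨y.1, hm.symm⟩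
      refine ⟨⟨m, hmX⟩, Subtype.ext ?_⟩
      have : al ⟨m, hmX⟩ = y := Subtype.ext (hi ((hal _).trans hm))
      show Submodule.Quotient.mk (al ⟨m, hmX⟩) = _
      rw [this]
    · intro x
      have h2 : al' x = 0 ↔ (Submodule.Quotient.mk (al x) : Hm ψL φL) = 0 :=
        ⟨fun h => congrArg Subtype.val h, fun h => Subtype.ext h⟩
      rw [h2, Hm_mk_eq_zero]
      have h3 : ((Submodule.mkQ (LinearMap.range a2)).comp ((Submodule.mkQ _).comp be)) x = 0 ↔
          (Submodule.Quotient.mk (be x) : Hm φN ψN) ∈ LinearMap.range a2 :=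
        Submodule.Quotient.mk_eq_zero _
      rw [h3]
      constructor
      · rintro ⟨y, hy⟩
        obtain ⟨y, rfl⟩ := Submodule.Quotient.mk_surjective _ y
        have hpy : p y.1 ∈ LinearMap.ker φN := by
          rw [LinearMap.mem_ker, ← hpφ, y.2, map_zero]
        have hy' : (Submodule.Quotient.mk ⟨p y.1, hpy⟩ : Hm φN ψN)
          = Submodule.Quotient.mk (be x) := hy
        rw [Submodule.Quotient.eq] at hy'
        obtain ⟨z, hz⟩ := hy'
        obtain ⟨z, rfl⟩ := hp z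
        have hz' : ψN (p z) = p y.1 - p x.1 := hz
        obtain ⟨l, hl⟩ := (hip (x.1 - y.1 + ψM z)).mp (by
          rw [map_add, map_sub, hpψ, hz']; abel)
        refine ⟨l, hi ?_⟩
        rw [hal, hiφ, hl, map_add, map_sub, y.2, h0, sub_zero, add_zero]
      · rintro ⟨l, hl⟩
        have hk : x.1 - i l ∈ LinearMap.ker φM := by
          rw [LinearMap.mem_ker, map_sub, ← hiφ, hl, hal, sub_self]
        refine ⟨Submodule.Quotient.mk ⟨x.1 - i l, hk⟩, ?_⟩
        have hpy : p (x.1 - i l) ∈ LinearMap.ker φN := by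
          rw [LinearMap.mem_ker, ← hpφ, hk, map_zero]
        show (Submodule.Quotient.mk ⟨p (x.1 - i l), hpy⟩ : Hm φN ψN)
          = Submodule.Quotient.mk (be x)
        congr 1
        refine Subtype.ext ?_
        show p (x.1 - i l) = p x.1
        rw [map_sub, (hip _).mpr ⟨l, rfl⟩, sub_zero]
  rw [ln_sub_quot hfin (LinearMap.range a2), e1, e2]

end Hm

end Pool.Agent.HT51
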