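import Pool.Agent.HT51.SpDefs
import Pool.Agent.HT51.SpHex

/-!
# `HH` and semilinear bijections (restriction to the residue field)
-/

universe u

namespace Pool.Agent.HT51

open Pool.Agent.HT21

section semi

variable {P P' : Type u} [CommRing P] [CommRing P'] (ρ : P →+* P') [RingHomSurjective ρ]

lemma len_semi {M M' : Type u} [AddCommGroup M] [Module P M] [AddCommGroup M'] [Module P' M']
    (f : M →ₛₗ[ρ] M') (hf : Function.Bijective f) : Module.length P M = Module.length P' M' := by
  rw [Module.length, Module.length, WithBot.unbot_inj,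
    Order.krullDim_eq_of_orderIso (Submodule.orderIsoMapComapOfBijective f hf)]

variable {W W' : Type u} [AddCommGroup W] [Module P W] [AddCommGroup W'] [Module P' W']
  {r : ℕ} (φ ψ : Matrix (Fin r) (Fin r) P) (f : W →ₛₗ[ρ] W')

omit [RingHomSurjective ρ] in
lemma mact_semi (A : Matrix (Fin r) (Fin r) P) (w : Fin r → W) :
    (fun a => f (mact A W w a)) = mact (A.map ρ) W' (fun b => f (w b)) := by
  funext a
  show f (∑ l, A a l • w l) = ∑ l, (A.map ρ) a l • f (w l)
  rw [map_sum]
  exact Finset.sum_congr rfl fun l _ => map_smulₛₗ f _ _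

/-- the map on kernels -/
def kerSemi : LinearMap.ker (mact φ W) →ₛₗ[ρ] LinearMap.ker (mact (φ.map ρ) W') where
  toFun w := ⟨fun a => f (w.1 a), by
    rw [LinearMap.mem_ker, ← mact_semi ρ f φ w.1, w.2]
    funext a
    exact map_zero f⟩
  map_add' x y := Subtype.ext (funext fun a => map_add f _ _)
  map_smul' c x := Subtype.ext (funext fun a => map_smulₛₗ f _ _)

/-- the map on `HH` -/
def HHsemi : HH φ ψ W →ₛₗ[ρ] HH (φ.map ρ) (ψ.map ρ) W' :=
  Submodule.mapQ _ _ (kerSemi ρ φ f) (by
    rintro ⟨x, hx⟩ ⟨y, hy⟩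
    refine ⟨fun a => f (y a), ?_⟩
    rw [← mact_semi ρ f ψ y, hy]
    rfl)

omit [RingHomSurjective ρ] in
lemma HH_mk_zero {W : Type u} [AddCommGroup W] [Module P W] (x : LinearMap.ker (mact φ W)) :
    (Submodule.Quotient.mk x : HH φ ψ W) = 0 ↔ ∃ y, mact ψ W y = x.1 := by
  rw [Submodule.Quotient.mk_eq_zero]
  exact Iff.rfl

omit [RingHomSurjective ρ] in
lemma HHsemi_bij (hf : Function.Bijective f) : Function.Bijective (HHsemi ρ φ ψ f) := by
  constructor
  · rw [injective_iff_map_eq_zero]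
    intro z hz
    obtain ⟨x, rfl⟩ := Submodule.Quotient.mk_surjective _ z
    have h1 : (Submodule.Quotient.mk (kerSemi ρ φ f x) : HH (φ.map ρ) (ψ.map ρ) W') = 0 := hz
    rw [HH_mk_zero] at h1 ⊢
    obtain ⟨y, hy⟩ := h1
    choose y' hy' using fun a => hf.2 (y a)
    refine ⟨y', ?_⟩
    funext a
    apply hf.1
    have h2 := congrFun (mact_semi ρ f ψ y') a
    have h3 : (fun b => f (y' b)) = y := funext hy'
    rw [h3, hy] at h2
    exact h2
  · intro z
    obtain ⟨⟨x, hx⟩, rfl⟩ := Submodule.Quotient.mk_surjective _ z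
    choose x' hx' using fun a => hf.2 (x a)
    have h3 : (fun b => f (x' b)) = x := funext hx'
    have h4 : mact φ W x' = 0 := by
      funext a
      apply hf.1
      have h2 := congrFun (mact_semi ρ f φ x') a
      rw [h3, hx] at h2
      rw [h2]
      exact (map_zero f).symm
    refine ⟨Submodule.Quotient.mk ⟨x', h4⟩, ?_⟩
    show (Submodule.Quotient.mk (kerSemi ρ φ f ⟨x', h4⟩) : HH (φ.map ρ) (ψ.map ρ) W') = _
    congr 1
    exact Subtype.ext h3

theorem len_HH_semi (hf : Function.Bijective f) :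
    Module.length P (HH φ ψ W) = Module.length P' (HH (φ.map ρ) (ψ.map ρ) W') :=
  len_semi ρ (HHsemi ρ φ ψ f) (HHsemi_bij ρ φ ψ f hf)

end semi

end Pool.Agent.HT51
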