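import Pool.Agent.HT51.KpDefs
import Pool.Agent.HT51.SpQ
import Pool.Agent.HT51.SpCr

/-!
# Homology of Knoerrer's factorisation on `N[Y]`
-/

universe u

namespace Pool.Agent.HT51

open Pool.Agent.HT21 TensorProduct

section kpc

variable {T : Type u} [CommRing T]

/-- `T[X][Y] → T`, `X, Y ↦ 0`. -/
noncomputable def kpR : Polynomial (Polynomial T) →+* T :=
  (Polynomial.evalRingHom (0 : T)).comp (Polynomial.evalRingHom (0 : Polynomial T))

lemma kpR_surj : Function.Surjective (kpR (T := T)) := fun t => ⟨kpC t, by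
  show ((Polynomial.C (Polynomial.C t)).eval (0 : Polynomial T)).eval (0 : T) = t
  rw [Polynomial.eval_C, Polynomial.eval_C]⟩

lemma kpR_apply (P : Polynomial (Polynomial T)) : kpR P = (P.coeff 0).coeff 0 := by
  show (P.eval (0 : Polynomial T)).eval (0 : T) = _
  rw [Polynomial.coeff_zero_eq_eval_zero, Polynomial.coeff_zero_eq_eval_zero]

variable {r : ℕ} (A B : Matrix (Fin r) (Fin r) T)

lemma knM_ll (i j : Fin r) : knM A B (Fin.castAdd r i) (Fin.castAdd r j) = kpC (A i j) := by
  unfold knM
  rw [Matrix.reindex_apply, Matrix.submatrix_apply, finSumFinEquiv_symm_apply_castAdd,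
    finSumFinEquiv_symm_apply_castAdd]
  rfl

lemma knM_lr (i j : Fin r) : knM A B (Fin.castAdd r i) (Fin.natAdd r j) =
    if i = j then Polynomial.C Polynomial.X else 0 := by
  unfold knM
  rw [Matrix.reindex_apply, Matrix.submatrix_apply, finSumFinEquiv_symm_apply_castAdd,
    finSumFinEquiv_symm_apply_natAdd, Matrix.fromBlocks_apply₁₂, Matrix.smul_apply,
    Matrix.one_apply]
  split_ifs
  · exact mul_one _
  · exact smul_zero _

lemma knM_rl (i j : Fin r) : knM A B (Fin.natAdd r i) (Fin.castAdd r j) =
    if i = j then Polynomial.X else 0 := by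
  unfold knM
  rw [Matrix.reindex_apply, Matrix.submatrix_apply, finSumFinEquiv_symm_apply_castAdd,
    finSumFinEquiv_symm_apply_natAdd, Matrix.fromBlocks_apply₂₁, Matrix.smul_apply,
    Matrix.one_apply]
  split_ifs
  · exact mul_one _
  · exact smul_zero _

lemma knM_rr (i j : Fin r) : knM A B (Fin.natAdd r i) (Fin.natAdd r j) = -kpC (B i j) := by
  unfold knM
  rw [Matrix.reindex_apply, Matrix.submatrix_apply, finSumFinEquiv_symm_apply_natAdd,
    finSumFinEquiv_symm_apply_natAdd]
  rfl

variable (M : Type u) [AddCommGroup M] [Module (Polynomial (Polynomial T)) M]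

lemma mact_knM_l (w : Fin (r + r) → M) (i : Fin r) :
    mact (knM A B) M w (Fin.castAdd r i) =
      mact (A.map kpC) M (fun j => w (Fin.castAdd r j)) i +
        (Polynomial.C Polynomial.X : Polynomial (Polynomial T)) • w (Fin.natAdd r i) := by
  rw [mact_apply, mact_apply, Fin.sum_univ_add]
  congr 1
  · exact Finset.sum_congr rfl fun j _ => by rw [knM_ll]; rfl
  · rw [Finset.sum_eq_single i]
    · rw [knM_lr, if_pos rfl]
    · intro j _ hj
      rw [knM_lr, if_neg (Ne.symm hj), zero_smul]
    · intro h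
      exact absurd (Finset.mem_univ i) h

lemma mact_knM_r (w : Fin (r + r) → M) (i : Fin r) :
    mact (knM A B) M w (Fin.natAdd r i) =
      (Polynomial.X : Polynomial (Polynomial T)) • w (Fin.castAdd r i) -
      mact (B.map kpC) M (fun j => w (Fin.natAdd r j)) i := by
  rw [mact_apply, mact_apply, Fin.sum_univ_add, sub_eq_add_neg]
  congr 1
  · rw [Finset.sum_eq_single i]
    · rw [knM_rl, if_pos rfl]
    · intro j _ hj
      rw [knM_rl, if_neg (Ne.symm hj), zero_smul]
    · intro h
      exact absurd (Finset.mem_univ i) h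
  · rw [← Finset.sum_neg_distrib]
    exact Finset.sum_congr rfl fun j _ => by rw [knM_rr, neg_smul]; rfl

lemma mact_mact {P : Type u} [CommRing P] {W : Type u} [AddCommGroup W] [Module P W]
    (C D : Matrix (Fin r) (Fin r) P) (w : Fin r → W) :
    mact C W (mact D W w) = mact (C * D) W w := by
  funext i
  rw [mact_apply, mact_apply]
  simp only [mact_apply, Matrix.mul_apply, Finset.sum_smul, Finset.smul_sum, mul_smul]
  rw [Finset.sum_comm]

lemma mact_scalar_zero {g : T} (hAB : A * B = g • (1 : Matrix (Fin r) (Fin r) T))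
    (hg : ∀ m : M, (Polynomial.C (Polynomial.C g) : Polynomial (Polynomial T)) • m = 0)
    (w : Fin r → M) : mact (A.map kpC) M (mact (B.map kpC) M w) = 0 := by
  rw [mact_mact, ← Matrix.map_mul, hAB]
  funext i
  rw [mact_apply]
  refine Finset.sum_eq_zero fun j _ => ?_
  rw [Matrix.map_apply, Matrix.smul_apply, Matrix.one_apply]
  split_ifs with h
  · show (kpC (g * 1) : Polynomial (Polynomial T)) • w j = 0
    rw [mul_one]
    exact hg _
  · rw [smul_zero, map_zero, zero_smul]

end kpc

/-- (KPC) homology of Knoerrer's factorisation on `N[Y]`, abstract form. `M`: `X` acts as zero, `Y`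
injectively, `M/YM = N`.  `(a, b) ↦ b mod Y`. -/
theorem kn_len {T : Type u} [CommRing T] [IsDomain T] {g : T} {r : ℕ} (A B : Matrix (Fin r) (Fin r) T)
    (hAB : A * B = g • (1 : Matrix (Fin r) (Fin r) T))
    (hBA : B * A = g • (1 : Matrix (Fin r) (Fin r) T))
    (M N : Type u) [AddCommGroup M] [Module (Polynomial (Polynomial T)) M] [AddCommGroup N]
    [Module T N]
    (hX : ∀ m : M, (Polynomial.C Polynomial.X : Polynomial (Polynomial T)) • m = 0)
    (hg : ∀ m : M, (Polynomial.C (Polynomial.C g) : Polynomial (Polynomial T)) • m = 0)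
    (hY : ∀ m : M, (Polynomial.X : Polynomial (Polynomial T)) • m = 0 → m = 0)
    (π : M →+ N) (hπ : Function.Surjective π)
    (hπT : ∀ (t : T) (m : M), π ((kpC t : Polynomial (Polynomial T)) • m) = t • π m)
    (hker : ∀ m : M, π m = 0 ↔ ∃ m' : M, m = (Polynomial.X : Polynomial (Polynomial T)) • m') :
    Module.length (Polynomial (Polynomial T)) (HH (knM A B) (knM B A) M)
      = Module.length T (HH B A N) := by
  haveI : RingHomSurjective (kpR (T := T)) := ⟨kpR_surj⟩
  have hsem : ∀ (P : Polynomial (Polynomial T)) (m : M), π (P • m) = kpR P • π m := by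
    intro P m
    have h1 : P = Polynomial.X * P.divX + Polynomial.C (Polynomial.X * (P.coeff 0).divX +
        Polynomial.C ((P.coeff 0).coeff 0)) := by
      rw [Polynomial.X_mul_divX_add, Polynomial.X_mul_divX_add]
    rw [kpR_apply]
    conv_lhs => rw [h1]
    rw [add_smul, map_add, mul_smul, (hker _).mpr ⟨_, rfl⟩, zero_add, map_add, map_mul, add_smul,
      mul_smul, hX, zero_add]
    exact hπT _ _
  have hmact : ∀ (C : Matrix (Fin r) (Fin r) T) (v : Fin r → M) (i : Fin r),
      π (mact (C.map kpC) M v i) = mact C N (fun j => π (v j)) i := by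
    intro C v i
    rw [mact_apply, mact_apply, map_sum]
    exact Finset.sum_congr rfl fun j _ => hπT _ _
  have hkM : ∀ w : Fin (r + r) → M, mact (knM A B) M w = 0 ↔
      (∀ i, mact (A.map kpC) M (fun j => w (Fin.castAdd r j)) i = 0) ∧
      (∀ i, (Polynomial.X : Polynomial (Polynomial T)) • w (Fin.castAdd r i) =
        mact (B.map kpC) M (fun j => w (Fin.natAdd r j)) i) := by
    intro w
    constructor
    · intro h
      constructor
      · intro i
        have h2 := mact_knM_l A B M w i
        rw [h, hX, add_zero] at h2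
        exact h2.symm
      · intro i
        have h2 := mact_knM_r A B M w i
        rw [h] at h2
        exact sub_eq_zero.mp h2.symm
    · rintro ⟨h1, h2⟩
      funext i
      refine Fin.addCases (fun i => ?_) (fun i => ?_) i
      · rw [mact_knM_l, h1, hX, add_zero]; rfl
      · rw [mact_knM_r, h2, sub_self]; rfl
  let K0 : LinearMap.ker (mact (knM A B) M) →ₛₗ[kpR (T := T)] LinearMap.ker (mact B N) :=
    { toFun := fun w => ⟨fun i => π (w.1 (Fin.natAdd r i)), by
        rw [LinearMap.mem_ker]
        funext i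
        rw [← hmact B (fun j => w.1 (Fin.natAdd r j)) i, ← ((hkM w.1).mp w.2).2 i]
        exact (hker _).mpr ⟨_, rfl⟩⟩
      map_add' := fun x y => Subtype.ext (funext fun i => map_add π _ _)
      map_smul' := fun c x => Subtype.ext (funext fun i => hsem _ _) }
  let K : HH (knM A B) (knM B A) M →ₛₗ[kpR (T := T)] HH B A N :=
    Submodule.mapQ _ _ K0 (by
      rintro ⟨x, hx⟩ ⟨y, hy⟩
      refine ⟨fun i => -π (y (Fin.natAdd r i)), ?_⟩
      funext i
      show mact A N (fun i => -π (y (Fin.natAdd r i))) i = π (x (Fin.natAdd r i))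
      have h1 : x (Fin.natAdd r i) = _ := (congrFun hy (Fin.natAdd r i)).symm
      have h2 := mact_knM_r B A M y i
      rw [h1]
      refine Eq.trans ?_ (congrArg π h2.symm)
      rw [map_sub, (hker _).mpr ⟨_, rfl⟩, zero_sub, hmact A (fun j => y (Fin.natAdd r j)) i]
      have h3 : (fun i => -π (y (Fin.natAdd r i))) = -(fun i => π (y (Fin.natAdd r i))) := rfl
      rw [h3, map_neg]
      rfl)
  refine len_semi kpR K ⟨?_, ?_⟩
  · rw [injective_iff_map_eq_zero]
    intro z hz
    obtain ⟨⟨w, hw⟩, rfl⟩ := Submodule.Quotient.mk_surjective _ z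
    have h1 : (Submodule.Quotient.mk (K0 ⟨w, hw⟩) : HH B A N) = 0 := hz
    rw [HH_mk_zero] at h1 ⊢
    obtain ⟨n, hn⟩ := h1
    choose d hd using fun i => hπ (n i)
    have hd' : (fun i => π (d i)) = n := funext hd
    have h4 : ∀ i, ∃ c : M, w (Fin.natAdd r i) - mact (A.map kpC) M d i =
        (Polynomial.X : Polynomial (Polynomial T)) • c := by
      intro i
      rw [← hker, map_sub, hmact, hd', hn]
      exact sub_self _
    choose c hc using h4
    have h5 : ∀ i, w (Fin.castAdd r i) = mact (B.map kpC) M c i := by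
      intro i
      have h6 := ((hkM w).mp hw).2 i
      have h7 : (fun j => w (Fin.natAdd r j)) =
          (Polynomial.X : Polynomial (Polynomial T)) • c + mact (A.map kpC) M d := by
        funext j
        rw [Pi.add_apply, Pi.smul_apply, ← hc j, sub_add_cancel]
      rw [h7, map_add, map_smul, mact_scalar_zero B A M hBA hg, add_zero, Pi.smul_apply,
        ← sub_eq_zero, ← smul_sub] at h6
      exact sub_eq_zero.mp (hY _ h6)
    refine ⟨Fin.append c (-d), ?_⟩
    funext i
    refine Fin.addCases (fun i => ?_) (fun i => ?_) i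
    · rw [mact_knM_l, hX, add_zero]
      show _ = w (Fin.castAdd r i)
      rw [h5]
      simp only [Fin.append_left]
    · rw [mact_knM_r]
      show _ = w (Fin.natAdd r i)
      simp only [Fin.append_left, Fin.append_right]
      have h8 : (fun j => (-d) j) = -d := rfl
      rw [h8, map_neg, Pi.neg_apply, sub_neg_eq_add, ← hc i, sub_add_cancel]
  · intro z
    obtain ⟨⟨n, hn⟩, rfl⟩ := Submodule.Quotient.mk_surjective _ z
    choose b hb using fun i => hπ (n i)
    have hb' : (fun i => π (b i)) = n := funext hb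
    have h4 : ∀ i, ∃ a : M, mact (B.map kpC) M b i =
        (Polynomial.X : Polynomial (Polynomial T)) • a := by
      intro i
      rw [← hker, hmact, hb', LinearMap.mem_ker.mp hn]
      rfl
    choose a ha using h4
    have ha' : mact (B.map kpC) M b = (Polynomial.X : Polynomial (Polynomial T)) • a := funext ha
    have hw : mact (knM A B) M (Fin.append a b) = 0 := by
      rw [hkM]
      simp only [Fin.append_left, Fin.append_right]
      constructor
      · intro i
        apply hY
        have h5 := mact_scalar_zero A B M hAB hg b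
        rw [ha', map_smul] at h5
        exact congrFun h5 i
      · intro i
        exact (ha i).symm
    refine ⟨Submodule.Quotient.mk ⟨Fin.append a b, hw⟩, ?_⟩
    show (Submodule.Quotient.mk (K0 ⟨Fin.append a b, hw⟩) : HH B A N) = _
    congr 1
    apply Subtype.ext
    funext i
    show π (Fin.append a b (Fin.natAdd r i)) = n i
    rw [Fin.append_right, hb]


/-- homology over a quotient ring. -/
theorem len_HH_res {P P' : Type u} [CommRing P] [CommRing P'] (ρ : P →+* P')
    [RingHomSurjective ρ] {r : ℕ} (φ ψ : Matrix (Fin r) (Fin r) P) (W : Type u) [AddCommGroup W]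
    [Module P' W] : Module.length P (HH φ ψ (Res ρ W)) =
      Module.length P' (HH (φ.map ρ) (ψ.map ρ) W) :=
  len_HH_semi ρ φ ψ (W := Res ρ W) (W' := W)
    { toFun := fun x => x
      map_add' := fun _ _ => rfl
      map_smul' := fun _ _ => rfl } Function.bijective_id

section kpt

variable {R : Type u} [CommRing R]

/-- `divX` as a linear map. -/
noncomputable def kpDX : Polynomial R →ₗ[R] Polynomial R where
  toFun := Polynomial.divX
  map_add' _ _ := Polynomial.divX_add
  map_smul' c p := by
    rw [Polynomial.smul_eq_C_mul, Polynomial.divX_C_mul, RingHom.id_apply,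
      Polynomial.smul_eq_C_mul]

/-- Multiplication by `X` as a linear map. -/
noncomputable def kpMX : Polynomial R →ₗ[R] Polynomial R := LinearMap.mulLeft R Polynomial.X

lemma kpMX_apply (p : Polynomial R) : kpMX p = Polynomial.X * p := rfl

lemma kpDX_kpMX : kpDX.comp kpMX = (LinearMap.id : Polynomial R →ₗ[R] Polynomial R) := by
  apply LinearMap.ext
  intro p
  show (Polynomial.X * p).divX = p
  ext n
  rw [Polynomial.coeff_divX, Polynomial.coeff_X_mul]

lemma kpMX_kpDX : kpMX.comp kpDX + (Polynomial.monomial 0).comp (Polynomial.lcoeff R 0) =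
    (LinearMap.id : Polynomial R →ₗ[R] Polynomial R) := by
  apply LinearMap.ext
  intro p
  show Polynomial.X * p.divX + Polynomial.monomial 0 (p.coeff 0) = p
  rw [Polynomial.monomial_zero_left, Polynomial.X_mul_divX_add]

lemma lcoeff_kpMX : (Polynomial.lcoeff R 0).comp kpMX = 0 := by
  apply LinearMap.ext
  intro p
  show (Polynomial.X * p).coeff 0 = 0
  rw [Polynomial.coeff_X_mul_zero]

variable (N : Type u) [AddCommGroup N] [Module R N]

/-- The coefficient of `1`. -/
noncomputable def kpPi : Polynomial R ⊗[R] N →ₗ[R] N :=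
  (TensorProduct.lid R N).toLinearMap.comp (LinearMap.rTensor N (Polynomial.lcoeff R 0))

lemma kpPi_surj : Function.Surjective (kpPi (R := R) N) := fun n => ⟨(1 : Polynomial R) ⊗ₜ[R] n, by
  show TensorProduct.lid R N ((LinearMap.rTensor N (Polynomial.lcoeff R 0)) (1 ⊗ₜ[R] n)) = n
  rw [LinearMap.rTensor_tmul, Polynomial.lcoeff_apply, Polynomial.coeff_one_zero,
    TensorProduct.lid_tmul, one_smul]⟩

lemma kpX_smul (m : Polynomial R ⊗[R] N) :
    (Polynomial.X : Polynomial R) • m = LinearMap.rTensor N kpMX m := by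
  induction m using TensorProduct.induction_on with
  | zero => rw [smul_zero, map_zero]
  | tmul p n => rw [TensorProduct.smul_tmul', LinearMap.rTensor_tmul, kpMX_apply, smul_eq_mul]
  | add x y hx hy => rw [smul_add, hx, hy, map_add]

lemma kpC_smul (c : R) (m : Polynomial R ⊗[R] N) :
    (Polynomial.C c : Polynomial R) • m = c • m := by
  induction m using TensorProduct.induction_on with
  | zero => rw [smul_zero, smul_zero]
  | tmul p n => rw [TensorProduct.smul_tmul', TensorProduct.smul_tmul', smul_eq_mul,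
      Polynomial.smul_eq_C_mul]
  | add x y hx hy => rw [smul_add, hx, hy, smul_add]

lemma kpX_inj (m : Polynomial R ⊗[R] N) (h : (Polynomial.X : Polynomial R) • m = 0) : m = 0 := by
  rw [kpX_smul] at h
  have h1 : LinearMap.rTensor N kpDX (LinearMap.rTensor N kpMX m) = m := by
    rw [← LinearMap.comp_apply, ← LinearMap.rTensor_comp, kpDX_kpMX, LinearMap.rTensor_id]
    rfl
  rw [← h1, h, map_zero]

lemma kpPi_ker (m : Polynomial R ⊗[R] N) : kpPi N m = 0 ↔
    ∃ m' : Polynomial R ⊗[R] N, m = (Polynomial.X : Polynomial R) • m' := by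
  constructor
  · intro h
    have h0 : LinearMap.rTensor N (Polynomial.lcoeff R 0) m = 0 :=
      (TensorProduct.lid R N).map_eq_zero_iff.mp h
    refine ⟨LinearMap.rTensor N kpDX m, ?_⟩
    rw [kpX_smul]
    have h1 : m = LinearMap.rTensor N (kpMX.comp kpDX +
        (Polynomial.monomial 0).comp (Polynomial.lcoeff R 0)) m := by
      rw [kpMX_kpDX, LinearMap.rTensor_id]
      rfl
    rw [LinearMap.rTensor_add, LinearMap.add_apply, LinearMap.rTensor_comp, LinearMap.comp_apply,
      LinearMap.rTensor_comp, LinearMap.comp_apply, h0, map_zero, add_zero] at h1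
    exact h1
  · rintro ⟨m', rfl⟩
    rw [kpX_smul]
    show TensorProduct.lid R N (LinearMap.rTensor N (Polynomial.lcoeff R 0)
      (LinearMap.rTensor N kpMX m')) = 0
    rw [← LinearMap.comp_apply (LinearMap.rTensor N (Polynomial.lcoeff R 0)),
      ← LinearMap.rTensor_comp, lcoeff_kpMX, LinearMap.rTensor_zero, LinearMap.zero_apply, map_zero]

end kpt

/-- one half of `kn_len_tensor` -/
theorem kn_len_tensor' {T : Type u} [CommRing T] [IsDomain T] {g : T} {r : ℕ}
    (A B : Matrix (Fin r) (Fin r) T)
    (hAB : A * B = g • (1 : Matrix (Fin r) (Fin r) T))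
    (hBA : B * A = g • (1 : Matrix (Fin r) (Fin r) T))
    (N : Type u) [AddCommGroup N] [Module (T ⧸ Ideal.span {g}) N] :
    Module.length (KpB g) (HH ((knM A B).map (Ideal.Quotient.mk (Ideal.span {kpW g})))
        ((knM B A).map (Ideal.Quotient.mk (Ideal.span {kpW g})))
        (Res (kpE g) (Polynomial (T ⧸ Ideal.span {g}) ⊗[T ⧸ Ideal.span {g}] N)))
      = Module.length (T ⧸ Ideal.span {g}) (HH (B.map (Ideal.Quotient.mk (Ideal.span {g})))
        (A.map (Ideal.Quotient.mk (Ideal.span {g}))) N) := by
  have e1 := len_HH_res (P' := KpB g) (Ideal.Quotient.mk (Ideal.span {kpW g})) (knM A B) (knM B A)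
    (Res (kpE g) (Polynomial (T ⧸ Ideal.span {g}) ⊗[T ⧸ Ideal.span {g}] N))
  have e2 := len_HH_res (Ideal.Quotient.mk (Ideal.span {g})) B A N
  rw [← e1, ← e2]
  have hsm : ∀ (P : Polynomial (Polynomial T))
      (m : Polynomial (T ⧸ Ideal.span {g}) ⊗[T ⧸ Ideal.span {g}] N),
      P • (toRes (C := KpB g) (Ideal.Quotient.mk (Ideal.span {kpW g})) _ (toRes (kpE g) _ m)) =
      toRes (C := KpB g) (Ideal.Quotient.mk (Ideal.span {kpW g})) _
        (toRes (kpE g) _ (kpE0 g P • m)) := by
    intro P m
    rw [toRes_smul, toRes_smul, kpE_mk]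
  have hg0 : Ideal.Quotient.mk (Ideal.span {g}) g = 0 :=
    Ideal.Quotient.eq_zero_iff_mem.mpr (Ideal.mem_span_singleton_self g)
  refine kn_len A B hAB hBA _ _ ?_ ?_ ?_ (kpPi N).toAddMonoidHom (kpPi_surj N) ?_ ?_
  · intro m
    refine (hsm _ m).trans ?_
    rw [kpE0_C, Polynomial.eval_X, map_zero, map_zero, zero_smul]
    rfl
  · intro m
    refine (hsm _ m).trans ?_
    rw [kpE0_C, Polynomial.eval_C, hg0, map_zero, zero_smul]
    rfl
  · intro m hm
    apply kpX_inj N (show Polynomial (T ⧸ Ideal.span {g}) ⊗[T ⧸ Ideal.span {g}] N from m)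
    have h1 := hsm Polynomial.X m
    rw [kpE0_X] at h1
    exact h1.symm.trans hm
  · intro t m
    have h1 := hsm (kpC t) m
    have h2 : kpE0 g (kpC t) = Polynomial.C (Ideal.Quotient.mk (Ideal.span {g}) t) := by
      show kpE0 g (Polynomial.C (Polynomial.C t)) = _
      rw [kpE0_C, Polynomial.eval_C]
    rw [h2] at h1
    refine (congrArg (kpPi N) h1).trans ?_
    refine (congrArg (kpPi N) (kpC_smul N (Ideal.Quotient.mk (Ideal.span {g}) t) m)).trans ?_
    exact map_smul (kpPi N) _ _
  · intro m
    refine (kpPi_ker N m).trans ?_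
    constructor
    · rintro ⟨m', h⟩
      refine ⟨m', ?_⟩
      have h1 := hsm Polynomial.X m'
      rw [kpE0_X] at h1
      exact h.trans h1.symm
    · rintro ⟨m', h⟩
      refine ⟨m', ?_⟩
      have h1 := hsm Polynomial.X m'
      rw [kpE0_X] at h1
      exact h.trans h1

/-- (KPC2) the same for `M = (T/g)[Y] ⊗ N` over the quotient rings. -/
theorem kn_len_tensor {T : Type u} [CommRing T] [IsDomain T] {g : T} {r : ℕ} (F : MF g r)
    (N : Type u) [AddCommGroup N] [Module (T ⧸ Ideal.span {g}) N] :
    Module.length (KpB g) (HH ((kn F).phi.map (Ideal.Quotient.mk (Ideal.span {kpW g})))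
        ((kn F).psi.map (Ideal.Quotient.mk (Ideal.span {kpW g})))
        (Res (kpE g) (Polynomial (T ⧸ Ideal.span {g}) ⊗[T ⧸ Ideal.span {g}] N)))
      = Module.length (T ⧸ Ideal.span {g}) (HH (F.psi.map (Ideal.Quotient.mk (Ideal.span {g})))
        (F.phi.map (Ideal.Quotient.mk (Ideal.span {g}))) N) ∧
    Module.length (KpB g) (HH ((kn F).psi.map (Ideal.Quotient.mk (Ideal.span {kpW g})))
        ((kn F).phi.map (Ideal.Quotient.mk (Ideal.span {kpW g})))
        (Res (kpE g) (Polynomial (T ⧸ Ideal.span {g}) ⊗[T ⧸ Ideal.span {g}] N)))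
      = Module.length (T ⧸ Ideal.span {g}) (HH (F.phi.map (Ideal.Quotient.mk (Ideal.span {g})))
        (F.psi.map (Ideal.Quotient.mk (Ideal.span {g}))) N) :=
  ⟨kn_len_tensor' F.phi F.psi F.phi_psi F.psi_phi N,
    kn_len_tensor' F.psi F.phi F.psi_phi F.phi_psi N⟩

end Pool.Agent.HT51
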