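import Pool.Agent.HT51.KpDefs

/-!
# Knörrer periodicity: the short exact sequence for `N[Y]`
-/

universe u

namespace Pool.Agent.HT51

open Pool.Agent.HT21 TensorProduct

namespace KpD

section Tens

variable {A B : Type u} [CommRing A] [CommRing B] [Algebra A B] {r : ℕ}

/-- The generators of the cokernel. -/
def ge (D : Matrix (Fin r) (Fin r) A) (k : Fin r) : Cok D :=
  (LinearMap.range D.mulVecLin).mkQ (Pi.single k 1)

lemma mk_eq (D : Matrix (Fin r) (Fin r) A) (v : Fin r → A) :
    (LinearMap.range D.mulVecLin).mkQ v = ∑ k, v k • ge D k := by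
  have h : v = ∑ k, v k • (Pi.single k 1 : Fin r → A) := by
    funext i
    simp [Finset.sum_apply, Pi.single_apply]
  conv_lhs => rw [h]
  rw [map_sum]
  refine Finset.sum_congr rfl fun k _ => ?_
  rw [map_smul]
  rfl

lemma tens_surj (D : Matrix (Fin r) (Fin r) A) (v : B ⊗[A] Cok D) :
    ∃ c : Fin r → B, ∑ k, c k • ((1 : B) ⊗ₜ[A] ge D k) = v := by
  induction v using TensorProduct.induction_on with
  | zero => exact ⟨0, by simp⟩
  | add x y hx hy =>
    obtain ⟨c, hc⟩ := hx
    obtain ⟨c', hc'⟩ := hy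
    exact ⟨c + c', by simp only [Pi.add_apply, add_smul, Finset.sum_add_distrib, hc, hc']⟩
  | tmul b v =>
    obtain ⟨w, rfl⟩ := Submodule.mkQ_surjective _ v
    refine ⟨fun k => algebraMap A B (w k) * b, ?_⟩
    rw [mk_eq, TensorProduct.tmul_sum]
    refine Finset.sum_congr rfl fun k _ => ?_
    rw [TensorProduct.smul_tmul', smul_eq_mul, mul_one, TensorProduct.tmul_smul,
      TensorProduct.smul_tmul', Algebra.smul_def]

lemma tens_ex (D : Matrix (Fin r) (Fin r) A) (c : Fin r → B) :
    ∑ k, c k • ((1 : B) ⊗ₜ[A] ge D k) = 0 ↔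
      ∃ c' : Fin r → B, (D.map (algebraMap A B)).mulVec c' = c := by
  let th := TensorProduct.piScalarRight A B B (Fin r)
  have hth : ∀ (b : B) (v : Fin r → A) (k : Fin r), th (b ⊗ₜ v) k = v k • b := fun b v k => by
    simp [th]
  have h1 : Function.Exact D.mulVecLin (LinearMap.range D.mulVecLin).mkQ :=
    LinearMap.exact_map_mkQ_range _
  have h2 := lTensor_exact B h1 (Submodule.mkQ_surjective _)
  have hm : ∀ x : B ⊗[A] (Fin r → A), th ((D.mulVecLin).lTensor B x) =
      (D.map (algebraMap A B)).mulVec (th x) := by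
    intro x
    induction x using TensorProduct.induction_on with
    | zero => simp
    | add x y hx hy => simp only [map_add, hx, hy, Matrix.mulVec_add]
    | tmul b v =>
      funext k
      rw [LinearMap.lTensor_tmul, hth, Matrix.mulVecLin_apply, Matrix.mulVec, dotProduct,
        Matrix.mulVec, dotProduct, Finset.sum_smul]
      refine Finset.sum_congr rfl fun l _ => ?_
      rw [hth, Matrix.map_apply, mul_smul, Algebra.smul_def]
  have h3 : ∀ x : B ⊗[A] (Fin r → A),
      ((LinearMap.range D.mulVecLin).mkQ).lTensor B x = ∑ k, (th x k) • ((1 : B) ⊗ₜ[A] ge D k) := by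
    intro x
    induction x using TensorProduct.induction_on with
    | zero => simp
    | add x y hx hy => simp only [map_add, hx, hy, Pi.add_apply, add_smul, Finset.sum_add_distrib]
    | tmul b v =>
      rw [LinearMap.lTensor_tmul, mk_eq, TensorProduct.tmul_sum]
      refine Finset.sum_congr rfl fun k _ => ?_
      rw [hth, TensorProduct.smul_tmul', smul_eq_mul, mul_one, TensorProduct.tmul_smul,
        TensorProduct.smul_tmul']
  have h4 := h3 (th.symm c)
  rw [LinearEquiv.apply_symm_apply] at h4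
  rw [← h4, h2]
  constructor
  · rintro ⟨y, hy⟩
    refine ⟨th y, ?_⟩
    rw [← hm, hy, LinearEquiv.apply_symm_apply]
  · rintro ⟨c', hc'⟩
    refine ⟨th.symm c', ?_⟩
    apply th.injective
    rw [hm, LinearEquiv.apply_symm_apply, LinearEquiv.apply_symm_apply, hc']

end Tens

section Ring

variable {T : Type u} [CommRing T] (g : T)

lemma kpE_surj : Function.Surjective (kpE g) := by
  intro p
  obtain ⟨q, hq⟩ := Polynomial.map_surjective (Ideal.Quotient.mk (Ideal.span {g}))
    Ideal.Quotient.mk_surjective p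
  refine ⟨Ideal.Quotient.mk _ (q.map Polynomial.C), ?_⟩
  rw [kpE_mk, ← hq]
  unfold kpE0
  rw [Polynomial.coe_eval₂RingHom, Polynomial.eval₂_map]
  have h : ((((Polynomial.C : (T ⧸ Ideal.span {g}) →+* _).comp
    (Ideal.Quotient.mk (Ideal.span {g}))).comp (Polynomial.evalRingHom (0 : T))).comp
      Polynomial.C) = (Polynomial.C : (T ⧸ Ideal.span {g}) →+* _).comp
    (Ideal.Quotient.mk (Ideal.span {g})) := by
    ext t
    simp
  rw [h, ← Polynomial.eval₂_map, Polynomial.eval₂_C_X]

lemma kpE_ker (z : KpB g) (hz : kpE g z = 0) :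
    ∃ b : KpB g, z = Ideal.Quotient.mk (Ideal.span {kpW g}) (Polynomial.C Polynomial.X) * b := by
  obtain ⟨p, rfl⟩ := Ideal.Quotient.mk_surjective z
  rw [kpE_mk] at hz
  -- the coefficients
  have h1 : ∀ n, Ideal.Quotient.mk (Ideal.span {g}) ((p.coeff n).eval 0) = 0 := by
    intro n
    have h2 : kpE0 g p = p.map ((Ideal.Quotient.mk (Ideal.span {g})).comp
        (Polynomial.evalRingHom (0 : T))) := by
      unfold kpE0
      rw [Polynomial.coe_eval₂RingHom, Polynomial.map, RingHom.comp_assoc]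
    rw [h2] at hz
    have h3 := congrArg (fun q => Polynomial.coeff q n) hz
    simpa using h3
  have h2 : p ∈ Ideal.map (Polynomial.C : Polynomial T →+* _)
      (Ideal.span {Polynomial.X, Polynomial.C g}) := by
    rw [Ideal.mem_map_C_iff]
    intro n
    obtain ⟨t, ht⟩ := Ideal.mem_span_singleton'.mp (Ideal.Quotient.eq_zero_iff_mem.mp (h1 n))
    rw [Ideal.mem_span_pair]
    refine ⟨(p.coeff n).divX, Polynomial.C t, ?_⟩
    have h3 := Polynomial.divX_mul_X_add (p.coeff n)
    rw [← Polynomial.C_mul, ht, ← Polynomial.coeff_zero_eq_eval_zero]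
    exact h3
  rw [Ideal.map_span, Set.image_pair, Ideal.mem_span_pair] at h2
  obtain ⟨q1, q2, hq⟩ := h2
  refine ⟨Ideal.Quotient.mk _ (q1 - Polynomial.X * q2), ?_⟩
  rw [← map_mul, Ideal.Quotient.eq, Ideal.mem_span_singleton']
  refine ⟨q2, ?_⟩
  rw [← hq]
  unfold kpW
  ring

end Ring

section Mat

variable {T : Type u} [CommRing T] {r : ℕ}

lemma knM_apply (A B : Matrix (Fin r) (Fin r) T) (x y : Fin r ⊕ Fin r) :
    knM A B (finSumFinEquiv x) (finSumFinEquiv y) = Matrix.fromBlocks (A.map kpC)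
      ((Polynomial.C Polynomial.X : Polynomial (Polynomial T)) • (1 : Matrix (Fin r) (Fin r) _))
      ((Polynomial.X : Polynomial (Polynomial T)) • (1 : Matrix (Fin r) (Fin r) _))
      (-(B.map kpC)) x y := by
  unfold knM
  rw [Matrix.reindex_apply, Matrix.submatrix_apply, Equiv.symm_apply_apply, Equiv.symm_apply_apply]

lemma knM_inl (A B : Matrix (Fin r) (Fin r) T) (v : Fin (r + r) → Polynomial (Polynomial T))
    (i : Fin r) : (knM A B).mulVec v (finSumFinEquiv (Sum.inl i)) =
      ∑ j, kpC (A i j) * v (finSumFinEquiv (Sum.inl j)) +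
        Polynomial.C Polynomial.X * v (finSumFinEquiv (Sum.inr i)) := by
  rw [Matrix.mulVec, dotProduct, ← Equiv.sum_comp finSumFinEquiv, Fintype.sum_sum_type]
  refine congrArg₂ (· + ·) ?_ ?_
  · refine Finset.sum_congr rfl fun j _ => ?_
    rw [knM_apply, Matrix.fromBlocks_apply₁₁, Matrix.map_apply]
  · rw [Finset.sum_eq_single i]
    · rw [knM_apply, Matrix.fromBlocks_apply₁₂, Matrix.smul_apply, Matrix.one_apply_eq,
        smul_eq_mul, mul_one]
    · intro j _ hj
      rw [knM_apply, Matrix.fromBlocks_apply₁₂, Matrix.smul_apply, Matrix.one_apply_ne (Ne.symm hj),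
        smul_zero, zero_mul]
    · intro h
      exact absurd (Finset.mem_univ i) h

lemma knM_inr (A B : Matrix (Fin r) (Fin r) T) (v : Fin (r + r) → Polynomial (Polynomial T))
    (i : Fin r) : (knM A B).mulVec v (finSumFinEquiv (Sum.inr i)) =
      Polynomial.X * v (finSumFinEquiv (Sum.inl i)) -
        ∑ j, kpC (B i j) * v (finSumFinEquiv (Sum.inr j)) := by
  rw [Matrix.mulVec, dotProduct, ← Equiv.sum_comp finSumFinEquiv, Fintype.sum_sum_type,
    sub_eq_add_neg, ← Finset.sum_neg_distrib]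
  refine congrArg₂ (· + ·) ?_ ?_
  · rw [Finset.sum_eq_single i]
    · rw [knM_apply, Matrix.fromBlocks_apply₂₁, Matrix.smul_apply, Matrix.one_apply_eq,
        smul_eq_mul, mul_one]
    · intro j _ hj
      rw [knM_apply, Matrix.fromBlocks_apply₂₁, Matrix.smul_apply, Matrix.one_apply_ne (Ne.symm hj),
        smul_zero, zero_mul]
    · intro h
      exact absurd (Finset.mem_univ i) h
  · refine Finset.sum_congr rfl fun j _ => ?_
    rw [knM_apply, Matrix.fromBlocks_apply₂₂, Matrix.neg_apply, Matrix.map_apply]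
    exact neg_mul _ _

end Mat

section Gen

variable {P B : Type u} [CommRing P] [CommRing B] {n : ℕ}

lemma mulVec_zero (κ : P →+* B) (M N : Matrix (Fin n) (Fin n) P) (w : P) (hw : κ w = 0)
    (h : M * N = w • (1 : Matrix (Fin n) (Fin n) P)) (v : Fin n → B) :
    (M.map κ).mulVec ((N.map κ).mulVec v) = 0 := by
  rw [Matrix.mulVec_mulVec, ← Matrix.map_mul, h]
  have h2 : (w • (1 : Matrix (Fin n) (Fin n) P)).map κ = 0 := by
    ext i j
    rw [Matrix.map_apply, Matrix.smul_apply, smul_eq_mul, map_mul, hw, zero_mul, Matrix.zero_apply]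
  rw [h2, Matrix.zero_mulVec]

lemma sum_mul_neg (x y : Fin n → P) : ∑ j, x j * -y j = -∑ j, x j * y j := by
  simp

lemma add_gen (mu : AddFn B) (h0 : mu.val B = 0) {r : ℕ} (M : Matrix (Fin n) (Fin n) B)
    (p : (Fin n → B) →ₗ[B] (Fin r → B)) (N : Type u) [AddCommGroup N] [Module B N]
    (G : (Fin r → B) →ₗ[B] N) (h1 : ∀ w, p (M.mulVec w) = 0)
    (h2 : ∀ v, p v = 0 → ∃ w, M.mulVec w = v) (h3 : ∀ w, G w = 0 ↔ ∃ v, p v = w)
    (h4 : Function.Surjective G) : mu.val N + mu.val (Cok M) = 0 := by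
  have h5 : LinearMap.range M.mulVecLin ≤ LinearMap.ker p := by
    rintro _ ⟨v, rfl⟩
    rw [LinearMap.mem_ker, Matrix.mulVecLin_apply, h1]
  have h := mu.add' (Cok M) (Fin r → B) N ((LinearMap.range M.mulVecLin).liftQ p h5) G ?_ ?_ h4
    inferInstance
  · rw [add_comm, ← h]
    exact val_pi_zero mu h0 r
  · rw [← LinearMap.ker_eq_bot, LinearMap.ker_eq_bot']
    intro m hm
    obtain ⟨v, rfl⟩ := Submodule.mkQ_surjective _ m
    rw [Submodule.mkQ_apply, Submodule.liftQ_apply] at hm
    obtain ⟨w, hw⟩ := h2 v hm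
    rw [Submodule.mkQ_apply, Submodule.Quotient.mk_eq_zero]
    exact ⟨w, hw⟩
  · intro y
    rw [h3]
    constructor
    · rintro ⟨v, hv⟩
      exact ⟨Submodule.Quotient.mk v, hv⟩
    · rintro ⟨m, hm⟩
      obtain ⟨v, rfl⟩ := Submodule.mkQ_surjective _ m
      exact ⟨v, hm⟩

end Gen

section Main

variable {T : Type u} [CommRing T] {g : T} {r : ℕ}

/-- The first block of Knörrer's matrix. -/
noncomputable def pL (F : MF g r) : (Fin (r + r) → KpB g) →ₗ[KpB g] (Fin r → KpB g) :=
  (LinearMap.funLeft (KpB g) (KpB g) fun i : Fin r => finSumFinEquiv (Sum.inl i)) ∘ₗ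
    ((kn F).phi.map (Ideal.Quotient.mk (Ideal.span {kpW g}))).mulVecLin

lemma pL_mk (F : MF g r) (v : Fin (r + r) → Polynomial (Polynomial T)) (i : Fin r) :
    pL F (fun j => Ideal.Quotient.mk (Ideal.span {kpW g}) (v j)) i =
      Ideal.Quotient.mk (Ideal.span {kpW g}) (∑ j, kpC (F.phi i j) * v (finSumFinEquiv (Sum.inl j)) +
        Polynomial.C Polynomial.X * v (finSumFinEquiv (Sum.inr i))) := by
  rw [← knM_inl F.phi F.psi v i, RingHom.map_mulVec]
  rfl

lemma pL_psi (F : MF g r) (v : Fin (r + r) → KpB g) :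
    pL F (((kn F).psi.map (Ideal.Quotient.mk (Ideal.span {kpW g}))).mulVec v) = 0 := by
  funext i
  exact congrFun (mulVec_zero (Ideal.Quotient.mk (Ideal.span {kpW g})) (kn F).phi (kn F).psi (kpW g)
    (Ideal.Quotient.eq_zero_iff_mem.mpr (Ideal.mem_span_singleton_self (kpW g))) (kn F).phi_psi v)
    (finSumFinEquiv (Sum.inl i))

lemma ker_le [IsDomain T] (hg : g ≠ 0) (F : MF g r) (v : Fin (r + r) → KpB g) (hv : pL F v = 0) :
    ∃ w, ((kn F).psi.map (Ideal.Quotient.mk (Ideal.span {kpW g}))).mulVec w = v := by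
  choose v' hv' using fun j => Ideal.Quotient.mk_surjective (v j)
  have hv1 : v = fun j => Ideal.Quotient.mk (Ideal.span {kpW g}) (v' j) := by
    funext j
    exact (hv' j).symm
  have h1 : ∀ i, ∃ c, c * kpW g = ∑ j, kpC (F.phi i j) * v' (finSumFinEquiv (Sum.inl j)) +
        Polynomial.C Polynomial.X * v' (finSumFinEquiv (Sum.inr i)) := by
    intro i
    have h2 := congrFun hv i
    rw [hv1, pL_mk] at h2
    exact Ideal.mem_span_singleton'.mp (Ideal.Quotient.eq_zero_iff_mem.mp h2)
  choose c hc using h1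
  -- evaluation at `X = 0`
  let ev : Polynomial (Polynomial T) →+* Polynomial T :=
    Polynomial.mapRingHom (Polynomial.evalRingHom (0 : T))
  have hevC : ∀ t : T, ev (kpC t) = Polynomial.C t := fun t => by
    simp [ev]
  have hevX : ev (Polynomial.C Polynomial.X) = 0 := by
    simp [ev]
  have hevW : ev (kpW g) = Polynomial.C g := by
    simp [ev, kpW]
  have hφψ : ∀ i k, ∑ j, F.phi i j * F.psi j k = if i = k then g else 0 := by
    intro i k
    have := congrFun (congrFun F.phi_psi i) k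
    rw [Matrix.mul_apply, Matrix.smul_apply, Matrix.one_apply] at this
    rw [this]
    split_ifs <;> simp
  have hψφ : ∀ i k, ∑ j, F.psi i j * F.phi j k = if i = k then g else 0 := by
    intro i k
    have := congrFun (congrFun F.psi_phi i) k
    rw [Matrix.mul_apply, Matrix.smul_apply, Matrix.one_apply] at this
    rw [this]
    split_ifs <;> simp
  have key : ∀ (S : Type u) [CommRing S] (κ : T →+* S) (A B : Matrix (Fin r) (Fin r) T)
      (_ : ∀ i k, ∑ j, A i j * B j k = if i = k then g else 0) (x : Fin r → S) (i : Fin r),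
      ∑ j, κ (A i j) * ∑ k, κ (B j k) * x k = κ g * x i := by
    intro S _ κ A B hAB x i
    have h2 : ∑ j, κ (A i j) * ∑ k, κ (B j k) * x k = ∑ k, (κ (∑ j, A i j * B j k)) * x k := by
      simp only [Finset.mul_sum, map_sum, map_mul, Finset.sum_mul, mul_assoc]
      rw [Finset.sum_comm]
    rw [h2, Finset.sum_eq_single i]
    · rw [hAB, if_pos rfl]
    · intro k _ hk
      rw [hAB, if_neg (Ne.symm hk), map_zero, zero_mul]
    · intro h
      exact absurd (Finset.mem_univ i) h
  -- `ev a = ψ (ev c)`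
  have h2 : ∀ j, ev (v' (finSumFinEquiv (Sum.inl j))) =
      ∑ k, Polynomial.C (F.psi j k) * ev (c k) := by
    intro j
    have h3 : ∀ i, Polynomial.C g * ev (c i) =
        ∑ j, Polynomial.C (F.phi i j) * ev (v' (finSumFinEquiv (Sum.inl j))) := by
      intro i
      have h4 := congrArg ev (hc i)
      rw [map_mul, hevW, map_add, map_mul, hevX, zero_mul, add_zero, map_sum] at h4
      rw [mul_comm, h4]
      refine Finset.sum_congr rfl fun j _ => ?_
      rw [map_mul, hevC]
    have h5 := key (Polynomial T) Polynomial.C F.psi F.phi hψφ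
      (fun j => ev (v' (finSumFinEquiv (Sum.inl j)))) j
    simp only [← h3] at h5
    have h6 : Polynomial.C g * ∑ k, Polynomial.C (F.psi j k) * ev (c k) =
        Polynomial.C g * ev (v' (finSumFinEquiv (Sum.inl j))) := by
      rw [← h5, Finset.mul_sum]
      refine Finset.sum_congr rfl fun k _ => ?_
      ring
    exact (mul_left_cancel₀ (Polynomial.C_ne_zero.mpr hg) h6).symm
  have h3 : ∀ j, ∃ b, ∑ k, kpC (F.psi j k) * c k - v' (finSumFinEquiv (Sum.inl j)) =
      Polynomial.C Polynomial.X * b := by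
    intro j
    have h4 : ev (∑ k, kpC (F.psi j k) * c k - v' (finSumFinEquiv (Sum.inl j))) = 0 := by
      rw [map_sub, h2, map_sum, sub_eq_zero]
      refine Finset.sum_congr rfl fun k _ => ?_
      rw [map_mul, hevC]
    have h5 : Polynomial.C Polynomial.X ∣
        ∑ k, kpC (F.psi j k) * c k - v' (finSumFinEquiv (Sum.inl j)) := by
      rw [Polynomial.C_dvd_iff_dvd_coeff]
      intro n
      rw [Polynomial.X_dvd_iff, Polynomial.coeff_zero_eq_eval_zero]
      have h6 : (ev (∑ k, kpC (F.psi j k) * c k - v' (finSumFinEquiv (Sum.inl j)))).coeff n = 0 := by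
        rw [h4]
        rfl
      refine Eq.trans ?_ h6
      exact (Polynomial.coeff_map (Polynomial.evalRingHom (0 : T)) n).symm
    exact h5
  choose b hb using h3
  have hX0 : (Polynomial.C Polynomial.X : Polynomial (Polynomial T)) ≠ 0 :=
    Polynomial.C_ne_zero.mpr Polynomial.X_ne_zero
  have h4 : ∀ i, v' (finSumFinEquiv (Sum.inr i)) =
      Polynomial.X * c i + ∑ j, kpC (F.phi i j) * b j := by
    intro i
    apply mul_left_cancel₀ hX0
    have h5 := hc i
    have h6 := key (Polynomial (Polynomial T)) kpC F.phi F.psi hφψ c i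
    have h7 : ∑ j, kpC (F.phi i j) * v' (finSumFinEquiv (Sum.inl j)) =
        kpC g * c i - Polynomial.C Polynomial.X * ∑ j, kpC (F.phi i j) * b j := by
      rw [← h6, Finset.mul_sum, ← Finset.sum_sub_distrib]
      refine Finset.sum_congr rfl fun j _ => ?_
      have h8 := hb j
      have h9 : v' (finSumFinEquiv (Sum.inl j)) =
          ∑ k, kpC (F.psi j k) * c k - Polynomial.C Polynomial.X * b j := by
        rw [← h8]; ring
      rw [h9]
      ring
    rw [h7] at h5
    have h8 : kpW g = Polynomial.C Polynomial.X * Polynomial.X + kpC g := rfl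
    rw [h8] at h5
    linear_combination (-1 : Polynomial (Polynomial T)) * h5
  refine ⟨fun x => Ideal.Quotient.mk (Ideal.span {kpW g})
    (Sum.elim c (fun j => - b j) (finSumFinEquiv.symm x)), ?_⟩
  rw [hv1]
  funext x
  have hw := RingHom.map_mulVec (Ideal.Quotient.mk (Ideal.span {kpW g})) (kn F).psi
    (fun x => Sum.elim c (fun j => - b j) (finSumFinEquiv.symm x)) x
  refine hw.symm.trans (congrArg _ ?_)
  obtain ⟨y, rfl⟩ := finSumFinEquiv.surjective x
  rcases y with j | i
  · refine (knM_inl F.psi F.phi _ j).trans ?_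
    simp only [Equiv.symm_apply_apply, Sum.elim_inl, Sum.elim_inr]
    linear_combination hb j
  · refine (knM_inr F.psi F.phi _ i).trans ?_
    simp only [Equiv.symm_apply_apply, Sum.elim_inl, Sum.elim_inr]
    have h5 := sum_mul_neg (fun j => kpC (F.phi i j)) b
    rw [h4 i]
    linear_combination (-1 : Polynomial (Polynomial T)) * h5

/-- `B^r → N[Y]`. -/
noncomputable def gM (F : MF g r) : (Fin r → KpB g) →ₗ[KpB g]
    Res (kpE g) (Polynomial (T ⧸ Ideal.span {g}) ⊗[T ⧸ Ideal.span {g}]
      (Cok (F.phi.map (Ideal.Quotient.mk (Ideal.span {g}))))) where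
  toFun w := toRes (kpE g) _ (∑ k, kpE g (w k) • ((1 : Polynomial (T ⧸ Ideal.span {g}))
    ⊗ₜ[T ⧸ Ideal.span {g}] ge (F.phi.map (Ideal.Quotient.mk (Ideal.span {g}))) k))
  map_add' u w := by
    rw [← map_add, ← Finset.sum_add_distrib]
    refine congrArg _ (Finset.sum_congr rfl fun k _ => ?_)
    rw [Pi.add_apply, map_add, add_smul]
  map_smul' a w := by
    rw [RingHom.id_apply, toRes_smul, Finset.smul_sum]
    refine congrArg _ (Finset.sum_congr rfl fun k _ => ?_)
    rw [Pi.smul_apply, smul_eq_mul, map_mul, mul_smul]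

lemma gM_apply (F : MF g r) (w : Fin r → KpB g) : gM F w =
    toRes (kpE g) _ (∑ k, kpE g (w k) • ((1 : Polynomial (T ⧸ Ideal.span {g}))
    ⊗ₜ[T ⧸ Ideal.span {g}] ge (F.phi.map (Ideal.Quotient.mk (Ideal.span {g}))) k)) := rfl

lemma gM_surj (F : MF g r) : Function.Surjective (gM F) := by
  intro y
  obtain ⟨c, hc⟩ := tens_surj (F.phi.map (Ideal.Quotient.mk (Ideal.span {g})))
    ((toRes (kpE g) _).symm y)
  choose w hw using fun k => kpE_surj g (c k)
  refine ⟨w, ?_⟩
  rw [gM_apply]
  simp only [hw]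
  rw [hc]
  rfl

lemma gM_ker (F : MF g r) (w : Fin r → KpB g) : gM F w = 0 ↔ ∃ v, pL F v = w := by
  have h0 : gM F w = 0 ↔ ∑ k, kpE g (w k) • ((1 : Polynomial (T ⧸ Ideal.span {g}))
    ⊗ₜ[T ⧸ Ideal.span {g}] ge (F.phi.map (Ideal.Quotient.mk (Ideal.span {g}))) k) = 0 :=
    Iff.rfl
  rw [h0, tens_ex (F.phi.map (Ideal.Quotient.mk (Ideal.span {g}))) (fun k => kpE g (w k))]
  constructor
  · rintro ⟨c', hc'⟩
    choose c hc using fun k => kpE_surj g (c' k)
    choose c1 hc1 using fun k => Ideal.Quotient.mk_surjective (c k)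
    choose w1 hw1 using fun k => Ideal.Quotient.mk_surjective (w k)
    have h1 : ∀ i, ∃ b : KpB g, Ideal.Quotient.mk (Ideal.span {kpW g})
        (w1 i - ∑ j, kpC (F.phi i j) * c1 j) =
          Ideal.Quotient.mk (Ideal.span {kpW g}) (Polynomial.C Polynomial.X) * b := by
      intro i
      apply kpE_ker
      have h2 := congrFun hc' i
      rw [Matrix.mulVec, dotProduct] at h2
      have h3 : kpE g (Ideal.Quotient.mk (Ideal.span {kpW g}) (w1 i)) = kpE g (w i) := by
        rw [hw1]
      have h4 : ∀ j, kpE g (Ideal.Quotient.mk (Ideal.span {kpW g}) (c1 j)) = c' j := by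
        intro j
        rw [hc1, hc]
      rw [map_sub, map_sub, h3, map_sum, map_sum, sub_eq_zero, ← h2]
      refine Finset.sum_congr rfl fun j _ => ?_
      rw [map_mul, map_mul, h4]
      refine congrArg₂ (· * ·) ?_ rfl
      rw [kpE_mk, kpC, RingHom.comp_apply, kpE0_C, Polynomial.eval_C]
      rfl
    choose b hb using h1
    choose b1 hb1 using fun k => Ideal.Quotient.mk_surjective (b k)
    refine ⟨fun x => Ideal.Quotient.mk (Ideal.span {kpW g})
      (Sum.elim c1 b1 (finSumFinEquiv.symm x)), ?_⟩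
    funext i
    rw [pL_mk]
    simp only [Equiv.symm_apply_apply, Sum.elim_inl, Sum.elim_inr]
    have h5 := hb i
    rw [map_sub, hw1, ← hb1, ← map_mul, sub_eq_iff_eq_add] at h5
    rw [h5, add_comm, map_add]
  · rintro ⟨v, rfl⟩
    choose v' hv' using fun j => Ideal.Quotient.mk_surjective (v j)
    have hv1 : v = fun j => Ideal.Quotient.mk (Ideal.span {kpW g}) (v' j) := by
      funext j
      exact (hv' j).symm
    refine ⟨fun j => kpE g (v (finSumFinEquiv (Sum.inl j))), ?_⟩
    funext i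
    rw [hv1, pL_mk, map_add, map_add, map_mul, map_mul, kpE_mk g (Polynomial.C Polynomial.X),
      kpE0_C, Polynomial.eval_X, map_zero, map_zero, zero_mul, add_zero, map_sum, map_sum,
      Matrix.mulVec, dotProduct]
    refine Finset.sum_congr rfl fun j _ => ?_
    rw [map_mul, map_mul]
    refine congrArg₂ (· * ·) ?_ rfl
    rw [kpE_mk, kpC, RingHom.comp_apply, kpE0_C, Polynomial.eval_C]
    rfl

end Main

end KpD

/-- (KPD) `0 → Cok (kn F).psi → B^r → N[Y] → 0` for `N = Cok F.phi`. -/
theorem kn_ses {T : Type u} [CommRing T] [IsDomain T] [IsNoetherianRing T] {g : T} (hg : g ≠ 0)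
    {r : ℕ} (F : MF g r) (mu : AddFn (KpB g)) (h0 : mu.val (KpB g) = 0) :
    mu.val (Res (kpE g) (Polynomial (T ⧸ Ideal.span {g}) ⊗[T ⧸ Ideal.span {g}]
      (Cok (F.phi.map (Ideal.Quotient.mk (Ideal.span {g})))))) +
    mu.val (Cok ((kn F).psi.map (Ideal.Quotient.mk (Ideal.span {kpW g})))) = 0 := by
  exact KpD.add_gen mu h0 ((kn F).psi.map (Ideal.Quotient.mk (Ideal.span {kpW g}))) (KpD.pL F) _
    (KpD.gM F) (KpD.pL_psi F) (KpD.ker_le hg F) (KpD.gM_ker F) (KpD.gM_surj F)

end Pool.Agent.HT51
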