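import Pool.Agent.HT51.SpJR

/-!
# Auxiliary facts: finitely generated fields, coefficients of matrices
-/

universe u

namespace Pool.Agent.HT51

open MvPolynomial Pool.Agent.HT21 IsLocalRing

/-- Transport of a matrix factorisation along an equality. -/
def MF.ofEq {R : Type u} [CommRing R] {f f' : R} (h : f = f') {r : ℕ} (F : MF f r) : MF f' r where
  phi := F.phi
  psi := F.psi
  phi_psi := by rw [← h]; exact F.phi_psi
  psi_phi := by rw [← h]; exact F.psi_phi

lemma hd_congr_mats {R : Type u} [CommRing R] {f f' : R} {r s : ℕ} (F : MF f r) (G : MF f s)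
    (F' : MF f' r) (G' : MF f' s) (h1 : F.phi = F'.phi) (h2 : F.psi = F'.psi)
    (h3 : G.phi = G'.phi) : hd F G = hd F' G' := by
  unfold hd
  rw [h1, h2, h3]

lemma matrix_map_map {T T' T'' : Type u} [CommRing T] [CommRing T'] [CommRing T''] {N r : ℕ}
    (a : T →+* T') (b : T' →+* T'') (c : T →+* T'') (h : b.comp a = c)
    (A : Matrix (Fin r) (Fin r) (MvPolynomial (Fin N) T)) :
    (A.map (MvPolynomial.map a)).map (MvPolynomial.map b) = A.map (MvPolynomial.map c) := by
  funext x y
  show MvPolynomial.map b (MvPolynomial.map a (A x y)) = MvPolynomial.map c (A x y)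
  rw [MvPolynomial.map_map, h]

section

variable {k : Type u} [Field k] {N : ℕ}

/-- the coefficients of the entries of a matrix -/
noncomputable def matCoeffsZ {r : ℕ} (A : Matrix (Fin r) (Fin r) (MvPolynomial (Fin N) k)) : Set k :=
  ⋃ a, ⋃ b, (fun m => coeff m (A a b)) '' ((A a b).support : Set (Fin N →₀ ℕ))

lemma matCoeffsZ_finite {r : ℕ} (A : Matrix (Fin r) (Fin r) (MvPolynomial (Fin N) k)) :
    (matCoeffsZ A).Finite :=
  Set.finite_iUnion fun _ => Set.finite_iUnion fun _ => (Finset.finite_toSet _).image _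

lemma exists_mat_liftZ {r : ℕ} (A : Matrix (Fin r) (Fin r) (MvPolynomial (Fin N) k))
    (B : Subalgebra ℤ k) (h : matCoeffsZ A ⊆ B) :
    ∃ A0 : Matrix (Fin r) (Fin r) (MvPolynomial (Fin N) B),
      A0.map (MvPolynomial.map (B.val : B →+* k)) = A := by
  classical
  have hab : ∀ a b, ∃ q : MvPolynomial (Fin N) B, MvPolynomial.map (B.val : B →+* k) q = A a b := by
    intro a b
    have hm : ∀ m ∈ (A a b).support, ∃ y : B, (y : k) = coeff m (A a b) := fun m hm =>
      ⟨⟨coeff m (A a b), h (Set.mem_iUnion.mpr ⟨a, Set.mem_iUnion.mpr ⟨b, ⟨m, hm, rfl⟩⟩⟩)⟩, rfl⟩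
    choose! y hy using hm
    refine ⟨∑ m ∈ (A a b).support, monomial m (y m), ?_⟩
    rw [map_sum]
    conv_rhs => rw [(A a b).as_sum]
    refine Finset.sum_congr rfl fun m hm => ?_
    rw [map_monomial]
    congr 1
    exact hy m hm
  choose q hq using hab
  exact ⟨fun a b => q a b, by ext1 a b; exact hq a b⟩

lemma matMap_injectiveZ (B : Subalgebra ℤ k) :
    Function.Injective (MvPolynomial.map (B.val : B →+* k) : MvPolynomial (Fin N) B →+* _) :=
  MvPolynomial.map_injective _ Subtype.val_injective

end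

instance isJacobsonRing_int : IsJacobsonRing ℤ := by
  refine isJacobsonRing_iff_prime_eq.mpr fun P hP => ?_
  by_cases h : P = ⊥
  · subst h
    refine le_antisymm (fun x hx => ?_) Ideal.le_jacobson
    by_contra hx0
    obtain ⟨p, hp1, hp2⟩ := Nat.exists_infinite_primes (x.natAbs + 1)
    have hmax : (Ideal.span {(p : ℤ)}).IsMaximal :=
      PrincipalIdealRing.isMaximal_of_irreducible (Nat.prime_iff_prime_int.mp hp2).irreducible
    have h1 : x ∈ Ideal.span {(p : ℤ)} := (Ideal.mem_sInf.mp hx) ⟨bot_le, hmax⟩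
    have h2 : (p : ℤ) ∣ x := Ideal.mem_span_singleton.mp h1
    have h3 : p ∣ x.natAbs := Int.natCast_dvd.mp h2
    have h4 : 0 < x.natAbs := Int.natAbs_pos.mpr hx0
    have h5 := Nat.le_of_dvd h4 h3
    omega
  · have hm : P.IsMaximal := hP.isMaximal h
    exact Ideal.jacobson_eq_self_of_isMaximal

/-- A field which is a finitely generated ring is finite. -/
lemma finite_of_ft (k : Type u) [Field k] (h : (Int.castRingHom k).FiniteType) : Finite k := by
  have h1 : (Int.castRingHom k).Finite := RingHom.finite_iff_finiteType_of_isJacobsonRing.mpr h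
  have h2 : (Int.castRingHom k).IsIntegral := h1.to_isIntegral
  obtain ⟨p, hp⟩ := CharP.exists k
  rcases Nat.eq_zero_or_pos p with h0 | h0
  · exfalso
    subst h0
    have h3 : CharZero k := CharP.charP_to_charZero k
    have h4 : Algebra.IsIntegral ℤ k := ⟨h2⟩
    have h5 : IsField ℤ := isField_of_isIntegral_of_isField (R := ℤ) (S := k)
      (algebraMap ℤ k).injective_int (Field.toIsField k)
    exact Int.not_isField h5
  · have hpp : Fact p.Prime := ⟨(CharP.char_is_prime_or_zero k p).resolve_right h0.ne'⟩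
    have h3 : (ZMod.castHom (dvd_refl p) k).comp (Int.castRingHom (ZMod p)) = Int.castRingHom k :=
      RingHom.ext_int _ _
    rw [← h3] at h1
    have h4 : (ZMod.castHom (dvd_refl p) k).Finite := RingHom.Finite.of_comp_finite h1
    let _ : Algebra (ZMod p) k := (ZMod.castHom (dvd_refl p) k).toAlgebra
    have h5 : Module.Finite (ZMod p) k := h4
    exact Module.finite_of_finite (ZMod p)

end Pool.Agent.HT51
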