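import Mathlib

/-!
# A local domain of dimension one above a non-maximal prime
-/

universe u

namespace Pool.Agent.HT51

open IsLocalRing

theorem prime_step {T : Type u} [CommRing T] [IsNoetherianRing T] (P : Ideal T) (hP : P.IsPrime)
    (hM : ¬ P.IsMaximal) :
    ∃ (O : Type u) (_ : CommRing O) (_ : IsDomain O) (_ : IsLocalRing O) (_ : IsNoetherianRing O)
      (a : T →+* O), (∀ q : Ideal O, q.IsPrime → q = ⊥ ∨ q = maximalIdeal O) ∧
      maximalIdeal O ≠ ⊥ ∧ P < RingHom.ker ((residue O).comp a) ∧
      ∀ (K : Type u) [Field K] (j : T →+* K), RingHom.ker j = P →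
        ∃ j' : O →+* K, j'.comp a = j ∧ Function.Injective j' := by
  classical
  let D : Type u := T ⧸ P
  have hDd : IsDomain D := inferInstanceAs (IsDomain (T ⧸ P))
  have hDn : IsNoetherianRing D := inferInstanceAs (IsNoetherianRing (T ⧸ P))
  have hnf : ¬ IsField D := fun h => hM (Ideal.Quotient.maximal_of_isField P h)
  obtain ⟨x, hx0, hxu⟩ : ∃ x : D, x ≠ 0 ∧ ¬ IsUnit x := by
    by_contra hcon
    push Not at hcon
    refine hnf ⟨⟨0, 1, zero_ne_one⟩, mul_comm, fun {a} ha => ?_⟩
    obtain ⟨u, hu⟩ := hcon a ha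
    exact ⟨((u⁻¹ : Dˣ) : D), by rw [← hu]; exact Units.mul_inv u⟩
  have hne : Ideal.span {x} ≠ (⊤ : Ideal D) := by
    rw [Ne, Ideal.span_singleton_eq_top]
    exact hxu
  obtain ⟨⟨q, hq⟩⟩ := Ideal.nonempty_minimalPrimes hne
  have hqp : q.IsPrime := hq.1.1
  have hxq : x ∈ q := hq.1.2 (Ideal.mem_span_singleton_self x)
  have hprin : (Ideal.span {x}).IsPrincipal := ⟨⟨x, rfl⟩⟩
  have hht : q.height ≤ 1 := Ideal.height_le_one_of_isPrincipal_of_mem_minimalPrimes _ q hq
  let O : Type u := Localization.AtPrime q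
  have hOd : IsDomain O := IsLocalization.isDomain_localization q.primeCompl_le_nonZeroDivisors
  have hOn : IsNoetherianRing O := IsLocalization.isNoetherianRing q.primeCompl O hDn
  have hOl : IsLocalRing O := inferInstanceAs (IsLocalRing (Localization.AtPrime q))
  have hinj : Function.Injective (algebraMap D O) :=
    IsLocalization.injective O q.primeCompl_le_nonZeroDivisors
  have hcm : (maximalIdeal O).comap (algebraMap D O) = q :=
    Localization.AtPrime.under_maximalIdeal
  have hcmem : ∀ y : D, algebraMap D O y ∈ maximalIdeal O ↔ y ∈ q := fun y =>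
    iff_of_eq (congrArg (fun I : Ideal D => y ∈ I) hcm)
  let a : T →+* O := (algebraMap D O).comp (Ideal.Quotient.mk P)
  refine ⟨O, inferInstance, hOd, hOl, hOn, a, ?_, ?_, ?_, ?_⟩
  · intro Q hQ
    by_cases hQm : Q = maximalIdeal O
    · exact Or.inr hQm
    left
    have hQle : Q ≤ maximalIdeal O := le_maximalIdeal hQ.ne_top
    have hlt : Q < maximalIdeal O := lt_of_le_of_ne hQle hQm
    have hmc : ∀ I : Ideal O, (I.comap (algebraMap D O)).map (algebraMap D O) = I := fun I =>
      IsLocalization.map_under q.primeCompl O I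
    have hQ' : Q.comap (algebraMap D O) < q := by
      refine lt_of_le_of_ne (fun y hy => (hcmem y).mp (hQle hy)) ?_
      intro h
      apply hQm
      rw [← hmc Q, h.trans hcm.symm, hmc]
    have hQp : (Q.comap (algebraMap D O)).IsPrime := Ideal.IsPrime.comap _
    have h1 := Ideal.height_le_iff.mp hht _ hQp hQ'
    have h2 : (Q.comap (algebraMap D O)).height ≤ 0 := by
      exact (Order.lt_one_iff.mp h1).le
    have h3 : Q.comap (algebraMap D O) = ⊥ := by
      by_contra hcon
      have hb : (⊥ : Ideal D) < Q.comap (algebraMap D O) := bot_lt_iff_ne_bot.mpr hcon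
      have h4 := Ideal.height_le_iff.mp h2 ⊥ Ideal.isPrime_bot hb
      exact not_lt_bot h4
    rw [← hmc Q, h3, Ideal.map_bot]
  · intro h
    have h1 : algebraMap D O x ∈ maximalIdeal O := (hcmem x).mpr hxq
    rw [h, Ideal.mem_bot] at h1
    exact hx0 (hinj (by rw [h1, map_zero]))
  · have hk : RingHom.ker ((residue O).comp a) = q.comap (Ideal.Quotient.mk P) := by
      ext t
      rw [RingHom.mem_ker, Ideal.mem_comap, ← hcmem]
      exact IsLocalRing.residue_eq_zero_iff _
    rw [hk]
    refine lt_of_le_of_ne ?_ ?_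
    · intro t ht
      rw [Ideal.mem_comap, Ideal.Quotient.eq_zero_iff_mem.mpr ht]
      exact q.zero_mem
    · intro h
      obtain ⟨t, ht⟩ := Ideal.Quotient.mk_surjective x
      have h1 : t ∈ q.comap (Ideal.Quotient.mk P) := by
        rw [Ideal.mem_comap, ht]
        exact hxq
      rw [← h] at h1
      exact hx0 (by rw [← ht]; exact Ideal.Quotient.eq_zero_iff_mem.mpr h1)
  · intro K _ j hj
    let jb : D →+* K := Ideal.Quotient.lift P j fun t ht => by
      rw [← hj] at ht
      exact ht
    have hjb : Function.Injective jb := by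
      rw [injective_iff_map_eq_zero]
      intro y hy
      obtain ⟨t, rfl⟩ := Ideal.Quotient.mk_surjective y
      have h1 : j t = 0 := hy
      refine Ideal.Quotient.eq_zero_iff_mem.mpr ?_
      rw [← hj]
      exact h1
    have hu : ∀ y : q.primeCompl, IsUnit (jb y) := by
      intro y
      refine IsUnit.mk0 _ ?_
      intro h
      have h1 : (y : D) = 0 := hjb (by rw [h, map_zero])
      exact y.2 (by rw [h1]; exact q.zero_mem)
    let j' : O →+* K := IsLocalization.lift (M := q.primeCompl) hu
    have hj' : ∀ y : D, j' (algebraMap D O y) = jb y := fun y => IsLocalization.lift_eq hu y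
    refine ⟨j', RingHom.ext fun t => hj' _, ?_⟩
    rw [injective_iff_map_eq_zero]
    intro z hz
    obtain ⟨⟨y, s⟩, hys⟩ := IsLocalization.surj q.primeCompl z
    have h1 : j' (algebraMap D O y) = 0 := by
      rw [← hys, map_mul, hz, zero_mul]
    rw [hj'] at h1
    have h2 : y = 0 := hjb (by rw [h1, map_zero])
    rw [h2, map_zero] at hys
    have h3 : algebraMap D O s ≠ 0 := by
      intro h
      have h4 : (s : D) = 0 := hinj (by rw [h, map_zero])
      exact s.2 (by rw [h4]; exact q.zero_mem)
    exact (mul_eq_zero.mp hys).resolve_right h3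

end Pool.Agent.HT51
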