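import Pool.Agent.HT51.SpJC
import Pool.Agent.HT51.SpJB
import Pool.Agent.HT51.SpP

/-!
# `hd = 0` over every field, for any form with isolated singularity whose specialisations to finite
fields have the vanishing property
-/

universe u

namespace Pool.Agent.HT51

open MvPolynomial Pool.Agent.HT21 IsLocalRing

/-- The vanishing property for all specialisations to finite fields. -/
def FinZP {T : Type u} [CommRing T] {N : ℕ} (f : MvPolynomial (Fin N) T) : Prop :=
  ∀ (κ : Type u) [Field κ] [Finite κ] (h : T →+* κ),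
    ZeroProp (MvPolynomial (Fin N) κ ⧸ Ideal.span {MvPolynomial.map h f})

lemma FinZP.map {T T' : Type u} [CommRing T] [CommRing T'] {N : ℕ} {f : MvPolynomial (Fin N) T}
    (h : FinZP f) (a : T →+* T') : FinZP (MvPolynomial.map a f) := by
  intro κ _ _ g
  have h1 := h κ (g.comp a)
  rw [← MvPolynomial.map_map] at h1
  exact h1

/-- Noetherian induction over the primes of a finitely generated ring. -/
theorem hd_ringJ (T : Type u) [CommRing T] [IsNoetherianRing T]
    (hT : (Int.castRingHom T).FiniteType) {N : ℕ} {f : MvPolynomial (Fin N) T} {E : ℕ}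
    (hE : ∀ i, (X i : MvPolynomial (Fin N) T) ^ E ∈ jacR f) (hu : ∃ m, IsUnit (coeff m f))
    (hz : FinZP f) {r s : ℕ} (F : MF f r) (G : MF f s) (K : Type u) [Field K] (j : T →+* K) :
    hd (F.map (MvPolynomial.map j)) (G.map (MvPolynomial.map j)) = 0 := by
  suffices H : ∀ P : Ideal T, ∀ (K : Type u) [Field K] (j : T →+* K), RingHom.ker j = P →
      hd (F.map (MvPolynomial.map j)) (G.map (MvPolynomial.map j)) = 0 from H _ K j rfl
  intro P
  induction P using WellFoundedGT.induction with
  | ind P ih =>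
    intro K _ j hj
    have hP : P.IsPrime := by
      rw [← hj]
      exact RingHom.ker_isPrime j
    by_cases hM : P.IsMaximal
    · let _ : Field (T ⧸ P) := Ideal.Quotient.field P
      have hfin : Finite (T ⧸ P) := by
        refine finite_of_ft (T ⧸ P) ?_
        have h2 : (Ideal.Quotient.mk P).comp (Int.castRingHom T) = Int.castRingHom (T ⧸ P) :=
          RingHom.ext_int _ _
        have h3 : ((Ideal.Quotient.mk P).comp (Int.castRingHom T)).FiniteType :=
          RingHom.FiniteType.comp_surjective hT Ideal.Quotient.mk_surjective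
        rw [h2] at h3
        exact h3
      let a : T →+* T ⧸ P := Ideal.Quotient.mk P
      let b : T ⧸ P →+* K := Ideal.Quotient.lift P j fun x hx => by
        rw [← hj] at hx
        exact hx
      have hba : b.comp a = j := RingHom.ext fun x => rfl
      have hf0 : MvPolynomial.map a f ≠ 0 := by
        obtain ⟨m, hm⟩ := hu
        intro h
        have h1 := congrArg (coeff m) h
        rw [coeff_map, coeff_zero] at h1
        exact (hm.map a).ne_zero h1
      have hE' := map_pow_mem_jacR a hE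
      have h1 : hd (F.map (MvPolynomial.map a)) (G.map (MvPolynomial.map a)) = 0 :=
        hd_finite_j hE' hf0 (hz (T ⧸ P) a) _ _
      rw [← h1, ← hd_field_j b _ E hE' (F.map (MvPolynomial.map a)) (G.map (MvPolynomial.map a))]
      refine hd_congr_mats _ _ _ _ ?_ ?_ ?_
      · exact (matrix_map_map a b j hba F.phi).symm
      · exact (matrix_map_map a b j hba F.psi).symm
      · exact (matrix_map_map a b j hba G.phi).symm
    · obtain ⟨O, _, _, _, _, a, hO, hm, hlt, hfac⟩ := prime_step P hP hM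
      obtain ⟨j', hj', hinj⟩ := hfac K j hj
      have h0 := ih _ hlt (ResidueField O) ((residue O).comp a) rfl
      have h1 : hd ((F.map (MvPolynomial.map a)).map (MvPolynomial.map (residue O)))
          ((G.map (MvPolynomial.map a)).map (MvPolynomial.map (residue O))) = 0 := by
        rw [← h0]
        refine hd_congr_mats _ _ _ _ ?_ ?_ ?_
        · exact matrix_map_map a (residue O) _ rfl F.phi
        · exact matrix_map_map a (residue O) _ rfl F.psi
        · exact matrix_map_map a (residue O) _ rfl G.phi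
      have hu' : ∃ m, IsUnit (coeff m (MvPolynomial.map a f)) := by
        obtain ⟨m, hm⟩ := hu
        refine ⟨m, ?_⟩
        rw [coeff_map]
        exact hm.map a
      have h2 := hd_local_j hO hm j' hinj hu' (map_pow_mem_jacR a hE)
        (F.map (MvPolynomial.map a)) (G.map (MvPolynomial.map a)) h1
      rw [← h2]
      refine hd_congr_mats _ _ _ _ ?_ ?_ ?_
      · exact (matrix_map_map a j' j hj' F.phi).symm
      · exact (matrix_map_map a j' j hj' F.psi).symm
      · exact (matrix_map_map a j' j hj' G.phi).symm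

section

variable {k : Type u} [Field k] {N : ℕ}

lemma exists_pol_liftZ (f : MvPolynomial (Fin N) k) (B : Subalgebra ℤ k)
    (h : ∀ m ∈ f.support, coeff m f ∈ B) :
    ∃ q : MvPolynomial (Fin N) B, MvPolynomial.map (B.val : B →+* k) q = f := by
  classical
  have hm : ∀ m ∈ f.support, ∃ y : B, (y : k) = coeff m f := fun m hm => ⟨⟨_, h m hm⟩, rfl⟩
  choose! y hy using hm
  refine ⟨∑ m ∈ f.support, monomial m (y m), ?_⟩
  rw [map_sum]
  conv_rhs => rw [f.as_sum]
  refine Finset.sum_congr rfl fun m hm => ?_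
  rw [map_monomial]
  congr 1
  exact hy m hm

theorem exists_mf_liftJ {f : MvPolynomial (Fin N) k} {r : ℕ} (F : MF f r)
    (B : Subalgebra ℤ k) (f0 : MvPolynomial (Fin N) B)
    (hf : MvPolynomial.map (B.val : B →+* k) f0 = f)
    (h1 : matCoeffsZ F.phi ⊆ B) (h2 : matCoeffsZ F.psi ⊆ B) :
    ∃ F0 : MF f0 r, F0.phi.map (MvPolynomial.map (B.val : B →+* k)) = F.phi ∧
      F0.psi.map (MvPolynomial.map (B.val : B →+* k)) = F.psi := by
  obtain ⟨P, hP⟩ := exists_mat_liftZ F.phi B h1
  obtain ⟨Q, hQ⟩ := exists_mat_liftZ F.psi B h2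
  have hinj := matMap_injectiveZ (N := N) B
  have hone : ∀ a b : Fin r, MvPolynomial.map (B.val : B →+* k)
      ((f0 • (1 : Matrix (Fin r) (Fin r) (MvPolynomial (Fin N) B))) a b)
        = (f • (1 : Matrix (Fin r) (Fin r) (MvPolynomial (Fin N) k))) a b := by
    intro a b
    rw [Matrix.smul_apply, Matrix.smul_apply, smul_eq_mul, smul_eq_mul, map_mul, hf]
    congr 1
    by_cases hab : a = b
    · subst hab; rw [Matrix.one_apply_eq, Matrix.one_apply_eq, map_one]
    · rw [Matrix.one_apply_ne hab, Matrix.one_apply_ne hab, map_zero]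
  have hmul : ∀ (P Q : Matrix (Fin r) (Fin r) (MvPolynomial (Fin N) B)) (P' Q' : Matrix (Fin r) (Fin r)
      (MvPolynomial (Fin N) k)), P.map (MvPolynomial.map (B.val : B →+* k)) = P' →
      Q.map (MvPolynomial.map (B.val : B →+* k)) = Q' →
      P' * Q' = f • (1 : Matrix (Fin r) (Fin r) (MvPolynomial (Fin N) k)) →
      P * Q = f0 • (1 : Matrix (Fin r) (Fin r) (MvPolynomial (Fin N) B)) := by
    rintro P Q _ _ rfl rfl hPQ
    ext1 a b
    apply hinj
    rw [hone, ← hPQ, ← Matrix.map_mul, Matrix.map_apply]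
  exact ⟨⟨P, Q, hmul P Q _ _ hP hQ F.phi_psi, hmul Q P _ _ hQ hP F.psi_phi⟩, hP, hQ⟩

/-- `hd = 0` over every field, for a form `f` with isolated singularity which is defined over a
finitely generated ring `A` such that all its specialisations to finite fields have the vanishing
property. -/
theorem hd_anyJ {f : MvPolynomial (Fin N) k} (hf : f ≠ 0) {E : ℕ}
    (hE : ∀ i, (X i : MvPolynomial (Fin N) k) ^ E ∈ jacR f)
    {A : Type u} [CommRing A] (hA : (Int.castRingHom A).FiniteType) (g : A →+* k)
    (fA : MvPolynomial (Fin N) A) (hfA : MvPolynomial.map g fA = f) (hz : FinZP fA)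
    {r s : ℕ} (F : MF f r) (G : MF f s) : hd F G = 0 := by
  classical
  -- generators of `A`
  have hAt : Algebra.FiniteType ℤ A := by
    refine RingHom.finiteType_algebraMap.mp ?_
    rw [(RingHom.ext_int (algebraMap ℤ A) (Int.castRingHom A) : algebraMap ℤ A = _)]
    exact hA
  obtain ⟨S1, hS1⟩ := hAt.out
  obtain ⟨m0, hm0⟩ := ne_zero_iff.mp hf
  choose a b hab using fun i => mem_jacR_iff'.mp (hE i)
  let cf : MvPolynomial (Fin N) k → Set k := fun p => (fun m => coeff m p) '' (p.support : Set _)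
  have hcf : ∀ p, (cf p).Finite := fun p => (Finset.finite_toSet _).image _
  let S : Set k := (g '' (S1 : Set A)) ∪ {(coeff m0 f)⁻¹} ∪ cf f ∪ (⋃ i, cf (a i)) ∪
    (⋃ i, ⋃ l, cf (b i l)) ∪ (matCoeffsZ F.phi ∪ matCoeffsZ F.psi) ∪
    (matCoeffsZ G.phi ∪ matCoeffsZ G.psi)
  have hSfin : S.Finite :=
    ((((((S1.finite_toSet.image _).union (Set.finite_singleton _)).union (hcf _)).union
      (Set.finite_iUnion fun _ => hcf _)).union
      (Set.finite_iUnion fun _ => Set.finite_iUnion fun _ => hcf _)).union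
      ((matCoeffsZ_finite _).union (matCoeffsZ_finite _))).union
      ((matCoeffsZ_finite _).union (matCoeffsZ_finite _))
  let B : Subalgebra ℤ k := Algebra.adjoin ℤ S
  have hsub : S ⊆ B := Algebra.subset_adjoin
  have hBfg : B.FG := Subalgebra.fg_def.mpr ⟨S, hSfin, rfl⟩
  have hft : Algebra.FiniteType ℤ B := (Subalgebra.fg_iff_finiteType B).mp hBfg
  have hnoe : IsNoetherianRing B := Algebra.FiniteType.isNoetherianRing ℤ B
  have hft' : (Int.castRingHom B).FiniteType := by
    rw [← (RingHom.ext_int (algebraMap ℤ B) (Int.castRingHom B) : algebraMap ℤ B = _)]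
    exact RingHom.finiteType_algebraMap.mpr hft
  -- the image of `A`
  have hgB : ∀ x : A, g x ∈ B := by
    intro x
    have h1 : x ∈ Algebra.adjoin ℤ (S1 : Set A) := by
      rw [hS1]
      trivial
    have h2 : (Algebra.adjoin ℤ (S1 : Set A)).map (g.toIntAlgHom) ≤ B := by
      rw [AlgHom.map_adjoin]
      refine Algebra.adjoin_mono fun y hy => ?_
      exact Or.inl (Or.inl (Or.inl (Or.inl (Or.inl (Or.inl hy)))))
    exact h2 ⟨x, h1, rfl⟩
  let gB : A →+* B := g.codRestrict B.toSubring hgB
  have hgBc : (B.val : B →+* k).comp gB = g := RingHom.ext fun x => rfl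
  let f0 : MvPolynomial (Fin N) B := MvPolynomial.map gB fA
  have hf0 : MvPolynomial.map (B.val : B →+* k) f0 = f := by
    show MvPolynomial.map (B.val : B →+* k) (MvPolynomial.map gB fA) = f
    rw [MvPolynomial.map_map, hgBc, hfA]
  have hz0 : FinZP f0 := hz.map gB
  have hinj := matMap_injectiveZ (N := N) B
  have hu : ∃ m, IsUnit (coeff m f0) := by
    refine ⟨m0, ?_⟩
    refine IsUnit.of_mul_eq_one (⟨(coeff m0 f)⁻¹,
      hsub (Or.inl (Or.inl (Or.inl (Or.inl (Or.inl (Or.inr rfl))))))⟩ : B) ?_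
    refine Subtype.ext ?_
    show ((coeff m0 f0 : B) : k) * (coeff m0 f)⁻¹ = 1
    have h1 : ((coeff m0 f0 : B) : k) = coeff m0 f := by
      rw [← hf0, coeff_map]
      rfl
    rw [h1, mul_inv_cancel₀ hm0]
  have hE0 : ∀ i, (X i : MvPolynomial (Fin N) B) ^ E ∈ jacR f0 := by
    intro i
    obtain ⟨a0, ha0⟩ := exists_pol_liftZ (a i) B fun m hm =>
      hsub (Or.inl (Or.inl (Or.inl (Or.inr (Set.mem_iUnion.mpr ⟨i, ⟨m, hm, rfl⟩⟩)))))
    have hb : ∀ l, ∃ q : MvPolynomial (Fin N) B, MvPolynomial.map (B.val : B →+* k) q = b i l :=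
      fun l => exists_pol_liftZ (b i l) B fun m hm =>
        hsub (Or.inl (Or.inl (Or.inr (Set.mem_iUnion.mpr ⟨i, Set.mem_iUnion.mpr ⟨l, ⟨m, hm, rfl⟩⟩⟩))))
    choose b0 hb0 using hb
    refine mem_jacR_iff'.mpr ⟨a0, b0, ?_⟩
    apply hinj
    rw [map_add, map_mul, map_sum, ha0, hf0, map_pow, map_X, ← hab i]
    congr 1
    refine Finset.sum_congr rfl fun l _ => ?_
    rw [map_mul, hb0, ← pderiv_map, hf0]
  obtain ⟨F0, hF1, hF2⟩ := exists_mf_liftJ F B f0 hf0
    (fun x hx => hsub (Or.inl (Or.inr (Or.inl hx))))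
    (fun x hx => hsub (Or.inl (Or.inr (Or.inr hx))))
  obtain ⟨G0, hG1, hG2⟩ := exists_mf_liftJ G B f0 hf0
    (fun x hx => hsub (Or.inr (Or.inl hx)))
    (fun x hx => hsub (Or.inr (Or.inr hx)))
  have h := hd_ringJ B hft' hE0 hu hz0 F0 G0 k (B.val : B →+* k)
  rw [← h]
  exact hd_congr_mats _ _ _ _ hF1.symm hF2.symm hG1.symm

end

end Pool.Agent.HT51
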