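import Pool.Agent.HT51.SpNN
import Pool.Agent.HT51.SpJZ
import Pool.Agent.HT51.ChA

/-!
# Knörrer periodicity: definitions
-/

universe u

namespace Pool.Agent.HT51

open Pool.Agent.HT21 TensorProduct

/-- The polynomial `X Y + g` in `T[X][Y]`. -/
noncomputable def kpW {T : Type u} [CommRing T] (g : T) : Polynomial (Polynomial T) :=
  Polynomial.C Polynomial.X * Polynomial.X + Polynomial.C (Polynomial.C g)

/-- The ring `T[X][Y]/(X Y + g)`. -/
abbrev KpB {T : Type u} [CommRing T] (g : T) : Type u :=
  Polynomial (Polynomial T) ⧸ Ideal.span {kpW g}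

/-- `T[X][Y] → (T/g)[Y]`, `X ↦ 0`. -/
noncomputable def kpE0 {T : Type u} [CommRing T] (g : T) :
    Polynomial (Polynomial T) →+* Polynomial (T ⧸ Ideal.span {g}) :=
  Polynomial.eval₂RingHom (((Polynomial.C : (T ⧸ Ideal.span {g}) →+* _).comp
    (Ideal.Quotient.mk (Ideal.span {g}))).comp (Polynomial.evalRingHom (0 : T))) Polynomial.X

lemma kpE0_C {T : Type u} [CommRing T] (g : T) (p : Polynomial T) :
    kpE0 g (Polynomial.C p) = Polynomial.C (Ideal.Quotient.mk (Ideal.span {g}) (p.eval 0)) := by
  unfold kpE0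
  rw [Polynomial.coe_eval₂RingHom, Polynomial.eval₂_C]
  rfl

lemma kpE0_X {T : Type u} [CommRing T] (g : T) : kpE0 g Polynomial.X = Polynomial.X := by
  unfold kpE0
  rw [Polynomial.coe_eval₂RingHom, Polynomial.eval₂_X]

lemma kpE0_W {T : Type u} [CommRing T] (g : T) : kpE0 g (kpW g) = 0 := by
  unfold kpW
  rw [map_add, map_mul, kpE0_C, kpE0_C, kpE0_X, Polynomial.eval_X, Polynomial.eval_C, map_zero,
    map_zero, zero_mul, zero_add, Ideal.Quotient.eq_zero_iff_mem.mpr (Ideal.mem_span_singleton_self g),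
    map_zero]

/-- Ring homomorphisms of commutative rings. -/
abbrev RHom (A C : Type u) [CommRing A] [CommRing C] : Type u := A →+* C

/-- `T[X][Y]/(X Y + g) → (T/g)[Y]`, `X ↦ 0`. -/
noncomputable def kpE {T : Type u} [CommRing T] (g : T) :
    RHom (KpB g) (Polynomial (T ⧸ Ideal.span {g})) :=
  Ideal.Quotient.lift (Ideal.span {kpW g}) (kpE0 g) (by
    intro a ha
    obtain ⟨b, rfl⟩ := Ideal.mem_span_singleton'.mp ha
    rw [map_mul, kpE0_W, mul_zero])

lemma kpE_mk {T : Type u} [CommRing T] (g : T) (a : Polynomial (Polynomial T)) :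
    kpE g (Ideal.Quotient.mk (Ideal.span {kpW g}) a) = kpE0 g a := rfl

/-- `T → T[X][Y]`. -/
noncomputable abbrev kpC {T : Type u} [CommRing T] : T →+* Polynomial (Polynomial T) :=
  (Polynomial.C : Polynomial T →+* _).comp Polynomial.C

/-- The block matrix `[[A, X], [Y, -B]]`. -/
noncomputable def knM {T : Type u} [CommRing T] {r : ℕ} (A B : Matrix (Fin r) (Fin r) T) :
    Matrix (Fin (r + r)) (Fin (r + r)) (Polynomial (Polynomial T)) :=
  Matrix.reindex finSumFinEquiv finSumFinEquiv
    (Matrix.fromBlocks (A.map kpC)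
      ((Polynomial.C Polynomial.X : Polynomial (Polynomial T)) • (1 : Matrix (Fin r) (Fin r) _))
      ((Polynomial.X : Polynomial (Polynomial T)) • (1 : Matrix (Fin r) (Fin r) _))
      (-(B.map kpC)))

lemma knM_mul {T : Type u} [CommRing T] {r : ℕ} (A B : Matrix (Fin r) (Fin r) T) (g : T)
    (hAB : A * B = g • (1 : Matrix (Fin r) (Fin r) T))
    (hBA : B * A = g • (1 : Matrix (Fin r) (Fin r) T)) :
    knM A B * knM B A = kpW g • (1 : Matrix (Fin (r + r)) (Fin (r + r)) _) := by
  have hm : ∀ M : Matrix (Fin r) (Fin r) T, M = g • (1 : Matrix (Fin r) (Fin r) T) →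
      M.map kpC = (Polynomial.C (Polynomial.C g) : Polynomial (Polynomial T)) •
        (1 : Matrix (Fin r) (Fin r) (Polynomial (Polynomial T))) := by
    rintro _ rfl
    ext i j
    by_cases h : i = j
    · subst h; simp [kpC]
    · simp [kpC, h]
  have h1 : A.map kpC * B.map kpC = (Polynomial.C (Polynomial.C g) : Polynomial (Polynomial T)) •
      (1 : Matrix (Fin r) (Fin r) (Polynomial (Polynomial T))) := by
    rw [← Matrix.map_mul]; exact hm _ hAB
  have h2 : B.map kpC * A.map kpC = (Polynomial.C (Polynomial.C g) : Polynomial (Polynomial T)) •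
      (1 : Matrix (Fin r) (Fin r) (Polynomial (Polynomial T))) := by
    rw [← Matrix.map_mul]; exact hm _ hBA
  unfold knM
  rw [← Matrix.reindexAlgEquiv_apply (Polynomial (Polynomial T)) (Polynomial (Polynomial T)),
    ← Matrix.reindexAlgEquiv_apply (Polynomial (Polynomial T)) (Polynomial (Polynomial T)),
    ← map_mul, Matrix.fromBlocks_multiply, h1]
  have h3 : Matrix.fromBlocks
      ((Polynomial.C (Polynomial.C g) : Polynomial (Polynomial T)) • (1 : Matrix (Fin r) (Fin r) _) +
        ((Polynomial.C Polynomial.X : Polynomial (Polynomial T)) • (1 : Matrix (Fin r) (Fin r) _)) *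
        ((Polynomial.X : Polynomial (Polynomial T)) • (1 : Matrix (Fin r) (Fin r) _)))
      (A.map kpC * ((Polynomial.C Polynomial.X : Polynomial (Polynomial T)) •
        (1 : Matrix (Fin r) (Fin r) _)) +
        ((Polynomial.C Polynomial.X : Polynomial (Polynomial T)) • (1 : Matrix (Fin r) (Fin r) _)) *
        (-(A.map kpC)))
      (((Polynomial.X : Polynomial (Polynomial T)) • (1 : Matrix (Fin r) (Fin r) _)) * B.map kpC +
        (-(B.map kpC)) * ((Polynomial.X : Polynomial (Polynomial T)) •
        (1 : Matrix (Fin r) (Fin r) _)))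
      (((Polynomial.X : Polynomial (Polynomial T)) • (1 : Matrix (Fin r) (Fin r) _)) *
        ((Polynomial.C Polynomial.X : Polynomial (Polynomial T)) • (1 : Matrix (Fin r) (Fin r) _)) +
        (-(B.map kpC)) * (-(A.map kpC)))
      = kpW g • (1 : Matrix (Fin r ⊕ Fin r) (Fin r ⊕ Fin r) _) := by
    rw [Matrix.neg_mul, Matrix.neg_mul, Matrix.mul_neg, Matrix.mul_neg, neg_neg, h2,
      ← Matrix.fromBlocks_one, Matrix.fromBlocks_smul]
    congr 1
    · rw [Matrix.smul_mul, Matrix.mul_smul, Matrix.one_mul, smul_smul, ← add_smul]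
      congr 1
      unfold kpW
      ring
    · rw [Matrix.mul_smul, Matrix.smul_mul, Matrix.mul_one, Matrix.one_mul, add_neg_cancel,
        smul_zero]
    · rw [Matrix.mul_smul, Matrix.smul_mul, Matrix.mul_one, Matrix.one_mul, add_neg_cancel,
        smul_zero]
    · rw [Matrix.smul_mul, Matrix.mul_smul, Matrix.one_mul, smul_smul, ← add_smul]
      congr 1
      unfold kpW
      ring
  rw [h3, map_smul, map_one]

/-- Knörrer's matrix factorisation of `X Y + g`. -/
noncomputable def kn {T : Type u} [CommRing T] {g : T} {r : ℕ} (F : MF g r) :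
    MF (kpW g) (r + r) where
  phi := knM F.phi F.psi
  psi := knM F.psi F.phi
  phi_psi := knM_mul F.phi F.psi g F.phi_psi F.psi_phi
  psi_phi := knM_mul F.psi F.phi g F.psi_phi F.phi_psi

/-- For every matrix factorisation of `f` the two homologies on every finitely generated module over
`R/(f)` have the same length. -/
def MuZero {R : Type u} [CommRing R] (f : R) : Prop :=
  ∀ (r : ℕ) (F : MF f r) (W : Type u) [AddCommGroup W] [Module (R ⧸ Ideal.span {f}) W]
    [Module.Finite (R ⧸ Ideal.span {f}) W],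
    (Module.length (R ⧸ Ideal.span {f}) (HH (F.phi.map (Ideal.Quotient.mk (Ideal.span {f})))
      (F.psi.map (Ideal.Quotient.mk (Ideal.span {f}))) W)).toNat =
    (Module.length (R ⧸ Ideal.span {f}) (HH (F.psi.map (Ideal.Quotient.mk (Ideal.span {f})))
      (F.phi.map (Ideal.Quotient.mk (Ideal.span {f}))) W)).toNat

end Pool.Agent.HT51
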