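import Pool.Agent.HT51.KpDefs
import Pool.Agent.HT51.GenF

/-!
# Additive functions on hypersurface rings without a monic variable, and `MuZero` under isomorphisms
-/

universe u

namespace Pool.Agent.HT51

open Pool.Agent.HT21 TensorProduct MvPolynomial

namespace KpF

section quot

variable {P P' : Type u} [CommRing P] [CommRing P'] (ε : P ≃+* P') (f : P)

/-- the isomorphism of the quotient rings -/
noncomputable def qe {f' : P'} (hf : ε f = f') : (P ⧸ Ideal.span {f}) ≃+* (P' ⧸ Ideal.span {f'}) :=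
  Ideal.quotientEquiv (Ideal.span {f}) (Ideal.span {f'}) ε (by
    rw [Ideal.map_span, Set.image_singleton]
    congr 2
    exact hf.symm)

lemma qe_mk {f' : P'} (hf : ε f = f') (a : P) :
    qe ε f hf (Ideal.Quotient.mk (Ideal.span {f}) a) = Ideal.Quotient.mk (Ideal.span {f'}) (ε a) :=
  rfl

end quot

/-- restriction of scalars along an isomorphism and back -/
def resres {Q Q' : Type u} [CommRing Q] [CommRing Q'] (ε : Q ≃+* Q') (W : Type u) [AddCommGroup W]
    [Module Q W] :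
    W ≃ₗ[Q] Res (ε : Q →+* Q') (Res (ε.symm : Q' →+* Q) W) where
  toFun := fun x => x
  invFun := fun x => x
  left_inv := fun _ => rfl
  right_inv := fun _ => rfl
  map_add' := fun _ _ => rfl
  map_smul' := fun a x => by
    show a • x = (ε.symm (ε a)) • x
    rw [ε.symm_apply_apply]

/-- the ring itself -/
def resSelf {Q Q' : Type u} [CommRing Q] [CommRing Q'] (ε : Q ≃+* Q') :
    Q ≃ₗ[Q] Res (ε : Q →+* Q') Q' where
  toFun := fun x => ε x
  invFun := fun x => ε.symm x
  left_inv := fun x => ε.symm_apply_apply x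
  right_inv := fun x => ε.apply_symm_apply x
  map_add' := fun x y => map_add ε x y
  map_smul' := fun a x => by
    show ε (a * x) = ε a * ε x
    exact map_mul ε a x

/-- a matrix factorisation of `f'` gives one of `f` -/
lemma exists_mf {P P' : Type u} [CommRing P] [CommRing P'] (ε : P ≃+* P') (f : P) {f' : P'}
    (hf : ε f = f') {r : ℕ} (F : MF f' r) :
    ∃ F₀ : MF f r, F₀.phi = F.phi.map (ε.symm : P' →+* P) ∧
      F₀.psi = F.psi.map (ε.symm : P' →+* P) := by
  have h : (ε.symm : P' →+* P) f' = f := by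
    subst hf
    exact ε.symm_apply_apply f
  subst h
  exact ⟨F.map (ε.symm : P' →+* P), rfl, rfl⟩

lemma map_back {P P' : Type u} [CommRing P] [CommRing P'] (ε : P ≃+* P') (f : P) {f' : P'}
    (hf : ε f = f') {r : ℕ} (A : Matrix (Fin r) (Fin r) P') :
    ((A.map (ε.symm : P' →+* P)).map (Ideal.Quotient.mk (Ideal.span {f}))).map
      (qe ε f hf : _ →+* _) = A.map (Ideal.Quotient.mk (Ideal.span {f'})) := by
  ext1 a b
  show qe ε f hf (Ideal.Quotient.mk (Ideal.span {f}) (ε.symm (A a b))) = _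
  rw [qe_mk, ε.apply_symm_apply]
  rfl

end KpF

/-- (KPF) `gen_f` (GenF.lean) for every `f ≠ 0` (Nagata automorphism `SpNN.T`, as in
`theta_of_hd_any`, SpNN.lean). -/
theorem gen_any (k : Type u) [Field k] {M : ℕ} (f : MvPolynomial (Fin (M + 1)) k) (hf : f ≠ 0)
    (nu : AddFn (MvPolynomial (Fin (M + 1)) k ⧸ Ideal.span {f}))
    (h0 : nu.val (MvPolynomial (Fin (M + 1)) k ⧸ Ideal.span {f}) = 0)
    (hMF : ∀ (r : ℕ) (F : MF f r),
      nu.val (Cok (F.phi.map (Ideal.Quotient.mk (Ideal.span {f})))) = 0)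
    (W : Type u) [AddCommGroup W] [Module (MvPolynomial (Fin (M + 1)) k ⧸ Ideal.span {f}) W]
    [Module.Finite (MvPolynomial (Fin (M + 1)) k ⧸ Ideal.span {f}) W] :
    nu.val W = 0 := by
  let ε : MvPolynomial (Fin (M + 1)) k ≃+* MvPolynomial (Fin (M + 1)) k := (SpNN.T f).toRingEquiv
  have hmon : IsUnit (finSuccEquiv k M (ε f)).leadingCoeff := SpNN.T_leadingcoeff_isUnit f hf
  let δ := KpF.qe ε f (rfl : ε f = ε f)
  have hfin : (δ : (MvPolynomial (Fin (M + 1)) k ⧸ Ideal.span {f}) →+*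
      (MvPolynomial (Fin (M + 1)) k ⧸ Ideal.span {ε f})).Finite :=
    RingHom.Finite.of_surjective _ δ.surjective
  have hfin' : (δ.symm : (MvPolynomial (Fin (M + 1)) k ⧸ Ideal.span {ε f}) →+*
      (MvPolynomial (Fin (M + 1)) k ⧸ Ideal.span {f})).Finite :=
    RingHom.Finite.of_surjective _ δ.symm.surjective
  have hW : Module.Finite (MvPolynomial (Fin (M + 1)) k ⧸ Ideal.span {ε f})
      (Res (δ.symm : (MvPolynomial (Fin (M + 1)) k ⧸ Ideal.span {ε f}) →+*
      (MvPolynomial (Fin (M + 1)) k ⧸ Ideal.span {f})) W) := res_finite _ hfin'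
  have key := gen_f k (ε f) hmon (nu.res (δ : (MvPolynomial (Fin (M + 1)) k ⧸ Ideal.span {f}) →+*
      (MvPolynomial (Fin (M + 1)) k ⧸ Ideal.span {ε f})) hfin) ?_ ?_
    (Res (δ.symm : (MvPolynomial (Fin (M + 1)) k ⧸ Ideal.span {ε f}) →+*
      (MvPolynomial (Fin (M + 1)) k ⧸ Ideal.span {f})) W)
  · rw [nu.val_congr (KpF.resres δ W)]
    exact key
  · show nu.val (Res _ _) = 0
    rw [← nu.val_congr (KpF.resSelf δ)]
    exact h0
  · intro r F
    show nu.val (Res _ _) = 0
    obtain ⟨F₀, h1, -⟩ := KpF.exists_mf ε f rfl F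
    have h2 := hMF r F₀
    obtain ⟨e⟩ := cok_iso δ (F₀.phi.map (Ideal.Quotient.mk (Ideal.span {f})))
    rw [nu.val_congr e, h1, KpF.map_back ε f rfl F.phi] at h2
    exact h2

/-- (KPF2) -/
theorem MuZero.of_equiv {R R' : Type u} [CommRing R] [CommRing R'] (e : R ≃+* R') {f : R}
    (h : MuZero f) : MuZero (e f) := by
  intro r F W _ _ _
  obtain ⟨F₀, h1, h2⟩ := KpF.exists_mf e f rfl F
  let δ := KpF.qe e f (rfl : e f = e f)
  have hfin : (δ : (R ⧸ Ideal.span {f}) →+* (R' ⧸ Ideal.span {e f})).Finite :=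
    RingHom.Finite.of_surjective _ δ.surjective
  have hW : Module.Finite (R ⧸ Ideal.span {f})
      (Res (δ : (R ⧸ Ideal.span {f}) →+* (R' ⧸ Ideal.span {e f})) W) := res_finite _ hfin
  have h3 := h r F₀ (Res (δ : (R ⧸ Ideal.span {f}) →+* (R' ⧸ Ideal.span {e f})) W)
  rw [len_HH_iso, len_HH_iso, h1, h2, KpF.map_back e f rfl F.phi, KpF.map_back e f rfl F.psi] at h3
  exact h3

end Pool.Agent.HT51
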