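import Pool.Agent.HT51.SpJL
import Pool.Agent.HT51.ChDefs

/-!
# Leading forms whose specialisation is of Fermat or chain type
-/

universe u

namespace Pool.Agent.HT51

open MvPolynomial Pool.Agent.HT21 IsLocalRing

lemma map_cform {T T' : Type u} [CommRing T] [CommRing T'] {N : ℕ} (c : Fin N → T) (a : Fin N → ℕ)
    (nx : Fin N → Option (Fin N)) (g : T →+* T') :
    MvPolynomial.map g (cform c a nx) = cform (fun j => g (c j)) a nx := by
  unfold cform
  rw [map_sum]
  refine Finset.sum_congr rfl fun j _ => ?_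
  rw [map_mul, map_mul, map_pow, map_C, map_X]
  congr 1
  cases nx j with
  | none => exact map_one _
  | some l => exact map_X _ _

/-- the exponent of the `j`-th monomial -/
noncomputable def cexp {N : ℕ} (a : Fin N → ℕ) (nx : Fin N → Option (Fin N)) (j : Fin N) :
    Fin N →₀ ℕ :=
  Finsupp.single j (a j) + (nx j).elim 0 (fun l => Finsupp.single l 1)

lemma cform_eq {T : Type u} [CommRing T] {N : ℕ} (c : Fin N → T) (a : Fin N → ℕ)
    (nx : Fin N → Option (Fin N)) : cform c a nx = ∑ j, monomial (cexp a nx j) (c j) := by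
  unfold cform cexp
  refine Finset.sum_congr rfl fun j _ => ?_
  rw [X_pow_eq_monomial, C_mul_monomial, mul_one]
  cases nx j with
  | none =>
    show _ * 1 = monomial (_ + 0) _
    rw [mul_one, add_zero]
  | some l =>
    show _ * X l = monomial (_ + Finsupp.single l 1) _
    rw [X, monomial_mul, mul_one]

lemma coeff_cform {T : Type u} [CommRing T] {N : ℕ} (c : Fin N → T) (a : Fin N → ℕ)
    (ha : ∀ j, 0 < a j) (nx : Fin N → Option (Fin N)) (i : Fin N) (hi : nx i = none) :
    coeff (Finsupp.single i (a i)) (cform c a nx) = c i := by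
  classical
  rw [cform_eq, coeff_sum, Finset.sum_eq_single i]
  · rw [coeff_monomial, if_pos]
    unfold cexp
    rw [hi]
    show _ + 0 = _
    rw [add_zero]
  · intro j _ hj
    rw [coeff_monomial, if_neg]
    intro h
    have h1 := DFunLike.congr_fun h j
    unfold cexp at h1
    rw [Finsupp.add_apply, Finsupp.single_eq_same, Finsupp.single_apply, if_neg (Ne.symm hj)] at h1
    have := ha j
    omega
  · intro h
    exact absurd (Finset.mem_univ i) h

/-- finitely many non-zero elements of a field are images of units of a finitely generated ring -/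
lemma exists_model {κ : Type u} [Field κ] {N : ℕ} (c : Fin N → κ) (hc : ∀ j, c j ≠ 0) :
    ∃ (A : Type u) (_ : CommRing A) (g : A →+* κ) (c0 : Fin N → A),
      (Int.castRingHom A).FiniteType ∧ (∀ j, IsUnit (c0 j)) ∧ ∀ j, g (c0 j) = c j := by
  classical
  let S : Set κ := Set.range c ∪ Set.range fun j => (c j)⁻¹
  have hS : S.Finite := (Set.finite_range c).union (Set.finite_range _)
  let A := Algebra.adjoin ℤ S
  have hft : Algebra.FiniteType ℤ A :=
    (Subalgebra.fg_iff_finiteType A).mp (Subalgebra.fg_def.mpr ⟨S, hS, rfl⟩)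
  have hft' : (Int.castRingHom A).FiniteType := by
    rw [← (RingHom.ext_int (algebraMap ℤ A) (Int.castRingHom A) : algebraMap ℤ A = _)]
    exact RingHom.finiteType_algebraMap.mpr hft
  refine ⟨A, inferInstance, (A.val : A →+* κ),
    fun j => ⟨c j, Algebra.subset_adjoin (Or.inl ⟨j, rfl⟩)⟩, hft', fun j => ?_, fun j => rfl⟩
  refine IsUnit.of_mul_eq_one
    (⟨(c j)⁻¹, Algebra.subset_adjoin (Or.inr ⟨j, rfl⟩)⟩ : A) ?_
  exact Subtype.ext (mul_inv_cancel₀ (hc j))

lemma finZP_cform {A : Type u} [CommRing A] {N : ℕ} (c : Fin N → A) (hc : ∀ j, IsUnit (c j))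
    (a : Fin N → ℕ) (nx : Fin N → Option (Fin N))
    (hFF : ∀ (κ : Type u) [Field κ] [Finite κ] (c : Fin N → κ), (∀ j, c j ≠ 0) →
      ZeroProp (MvPolynomial (Fin N) κ ⧸ Ideal.span {cform c a nx})) : FinZP (cform c a nx) := by
  intro κ _ _ g
  rw [map_cform]
  exact hFF κ _ fun j => ((hc j).map g).ne_zero

lemma whom_rename {T : Type u} [CommRing T] {N : ℕ} (e : Equiv.Perm (Fin N)) {w : Fin N → ℕ}
    {D : ℕ} {f : MvPolynomial (Fin N) T} (hf : f.IsWeightedHomogeneous w D) :
    (rename e f).IsWeightedHomogeneous (fun i => w (e.symm i)) D := by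
  intro m hm
  have h1 : m = (m.mapDomain e.symm).mapDomain e := by
    rw [← Finsupp.mapDomain_comp]
    have : (e ∘ e.symm) = id := by
      funext i
      exact e.apply_symm_apply i
    rw [this, Finsupp.mapDomain_id]
  rw [h1, coeff_rename_mapDomain _ e.injective] at hm
  have h2 := hf hm
  rw [SpW1.weight_eq] at h2 ⊢
  rw [← h2, ← Equiv.sum_comp e]
  refine Finset.sum_congr rfl fun i _ => ?_
  rw [Finsupp.mapDomain_equiv_apply, Equiv.symm_symm]
  show m (e i) * w (e.symm (e i)) = m (e i) * w i
  rw [e.symm_apply_apply]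

/-- The vanishing theorem for leading forms `P` whose reduction to the residue field is defined over
a local principal ideal domain `O` inside the residue field and reduces, modulo the maximal ideal of
`O`, to a form `∑ c_j X_j ^ a_j X_{nx j}` with isolated singularity. -/
theorem inv_vanish {R : Type u} [CommRing R] [IsLocalRing R]
    [IsNoetherianRing R] (d : ℕ) (x : Fin (d + 1) → R)
    (hx : Ideal.span (Set.range x) = maximalIdeal R)
    (hreg : RingTheory.Sequence.IsRegular R (List.ofFn x))
    (w : Fin (d + 1) → ℕ) (hw : ∀ i, 0 < w i) (N : ℕ) (hN : 0 < N)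
    (P : MvPolynomial (Fin (d + 1)) R) (hP : P.IsWeightedHomogeneous w N)
    {O : Type u} [CommRing O] [IsDomain O] [IsLocalRing O] [IsPrincipalIdealRing O]
    (j : O →+* ResidueField R) (hj : Function.Injective j)
    (fO : MvPolynomial (Fin (d + 1)) O) (hfO : MvPolynomial.map j fO = P.map (residue R))
    (c : Fin (d + 1) → ResidueField O) (hc : ∀ i, c i ≠ 0) (a : Fin (d + 1) → ℕ)
    (ha : ∀ i, 0 < a i) (nx : Fin (d + 1) → Option (Fin (d + 1)))
    (hred : MvPolynomial.map (residue O) fO = cform c a nx)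
    (hcase : IsField O ∨ ∃ i, nx i = none)
    (E : ℕ) (hE : ∀ i, (X i : MvPolynomial (Fin (d + 1)) (ResidueField O)) ^ E ∈
      jacIdeal (cform c a nx))
    (hFF : ∀ (κ : Type u) [Field κ] [Finite κ] (c : Fin (d + 1) → κ), (∀ j, c j ≠ 0) →
      ZeroProp (MvPolynomial (Fin (d + 1)) κ ⧸ Ideal.span {cform c a nx}))
    (f : R) (hf : f - aeval x P ∈ (wFilt x w).F (N + 1))
    (L M : Type u) [AddCommGroup L] [Module (R ⧸ Ideal.span {f}) L]
    [AddCommGroup M] [Module (R ⧸ Ideal.span {f}) M]
    [Module.Finite (R ⧸ Ideal.span {f}) L] [Module.Finite (R ⧸ Ideal.span {f}) M] :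
    (∀ i, d < i → torLen (R ⧸ Ideal.span {f}) i L M ≠ ⊤ ∧
      torLen (R ⧸ Ideal.span {f}) (i + 1) L M = torLen (R ⧸ Ideal.span {f}) i L M) ∧
    ∀ e, d ≤ 2 * e → theta (R ⧸ Ideal.span {f}) e L M = 0 := by
  classical
  -- `fO` is weighted homogeneous
  have hfOw : fO.IsWeightedHomogeneous w N := by
    intro m hm
    refine hP (d := m) fun h => hm ?_
    apply hj
    rw [map_zero, ← coeff_map, hfO, coeff_map, h, map_zero]
  have hE1 : ∀ i, (X i : MvPolynomial (Fin (d + 1)) (ResidueField O)) ^ E ∈
      jacR (MvPolynomial.map (residue O) fO) := by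
    rw [hred]
    exact hE
  have hne : MvPolynomial.map (residue O) fO ≠ 0 := by
    intro h
    have h1 := hE1 0
    rw [h] at h1
    have h2 : jacR (0 : MvPolynomial (Fin (d + 1)) (ResidueField O)) = ⊥ := by
      unfold jacR
      rw [Ideal.span_eq_bot]
      rintro y (hy | ⟨i, rfl⟩)
      · exact hy
      · exact map_zero _
    rw [h2, Ideal.mem_bot] at h1
    exact pow_ne_zero E (X_ne_zero 0) h1
  obtain ⟨E', hE'⟩ := jac_nakayama hw hfOw hE1
  have hcase' : IsField O ∨ ∃ e : Equiv.Perm (Fin (d + 1)),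
      IsUnit (finSuccEquiv O d (rename e fO)).leadingCoeff := by
    rcases hcase with hO | ⟨i0, hi0⟩
    · exact Or.inl hO
    · right
      have hco : residue O (coeff (Finsupp.single i0 (a i0)) fO) = c i0 := by
        rw [← coeff_map, hred, coeff_cform c a ha nx i0 hi0]
      have hcu : IsUnit (coeff (Finsupp.single i0 (a i0)) fO) := by
        have h1 : residue O (coeff (Finsupp.single i0 (a i0)) fO) ≠ 0 := by
          rw [hco]
          exact hc i0
        rw [Ne, residue_eq_zero_iff] at h1
        exact notMem_maximalIdeal.mp h1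
      have hwi : w i0 * a i0 = N := by
        have h1 := hfOw hcu.ne_zero
        rw [Finsupp.weight_apply, Finsupp.sum_single_index (by simp), smul_eq_mul, mul_comm] at h1
        exact h1
      let e : Equiv.Perm (Fin (d + 1)) := Equiv.swap 0 i0
      have he0 : e.symm 0 = i0 := by
        show (Equiv.swap 0 i0).symm 0 = i0
        rw [Equiv.symm_swap, Equiv.swap_apply_left]
      have hei : e i0 = 0 := by
        show (Equiv.swap 0 i0) i0 = 0
        rw [Equiv.swap_apply_right]
      refine ⟨e, whom_monic (w := fun i => w (e.symm i)) (D := N) (n := a i0) (fun i => hw _)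
        (whom_rename e hfOw) ?_ ?_⟩
      · show w (e.symm 0) * a i0 = N
        rw [he0, hwi]
      · have h1 : (Finsupp.single (0 : Fin (d + 1)) (a i0)) =
            (Finsupp.single i0 (a i0)).mapDomain e := by
          rw [Finsupp.mapDomain_single, hei]
        rw [h1, coeff_rename_mapDomain _ e.injective]
        exact hcu
  obtain ⟨A, _, g, c0, hA, hu, hg⟩ := exists_model c hc
  refine gen_vanish_j d x hx hreg w hw N hN P hP j hj fO hfO hne hcase' E' hE' hA g
    (cform c0 a nx) ?_ (finZP_cform c0 hu a nx hFF) f hf L M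
  rw [map_cform, hred]
  congr 1
  funext i
  exact hg i

end Pool.Agent.HT51
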