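import Pool.Agent.HT51.LpF
import Pool.Agent.HT51.SpJF

/-!
# `hd = 0` over every field for invertible polynomials with isolated singularity
-/

universe u

namespace Pool.Agent.HT51

open MvPolynomial Pool.Agent.HT21 IsLocalRing

/-- Powers of the variables lie in the Jacobian ideal if the quotient is finite dimensional. -/
theorem exists_pow_of_finite {k : Type u} [Field k] {N : ℕ} {w : Fin N → ℕ} (hw : ∀ i, 0 < w i)
    {D : ℕ} {f : MvPolynomial (Fin N) k} (hf : f.IsWeightedHomogeneous w D)
    (hJ : Module.Finite k (MvPolynomial (Fin N) k ⧸ jacR f)) :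
    ∃ E : ℕ, ∀ i, (X i : MvPolynomial (Fin N) k) ^ E ∈ jacR f := by
  classical
  have key : ∀ i : Fin N, ∃ E : ℕ, (X i : MvPolynomial (Fin N) k) ^ E ∈ jacR f := by
    intro i
    obtain ⟨q, hq, hq0⟩ := IsIntegral.of_finite k (Ideal.Quotient.mk (jacR f) (X i))
    refine ⟨q.natDegree, ?_⟩
    have h1 : Polynomial.aeval (X i : MvPolynomial (Fin N) k) q ∈ jacR f := by
      rw [← Ideal.Quotient.eq_zero_iff_mem]
      have h2 : Ideal.Quotient.mk (jacR f) (Polynomial.aeval (X i : MvPolynomial (Fin N) k) q)
          = Polynomial.aeval (Ideal.Quotient.mk (jacR f) (X i)) q := by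
        have h3 := Polynomial.aeval_algHom_apply (Ideal.Quotient.mkₐ k (jacR f)) (X i) q
        exact h3.symm
      rw [h2]
      exact hq0
    have h4 := SpJN.comp_mem hf h1 (w i * q.natDegree)
    have h5 : weightedHomogeneousComponent w (w i * q.natDegree)
        (Polynomial.aeval (X i : MvPolynomial (Fin N) k) q) = X i ^ q.natDegree := by
      rw [Polynomial.aeval_eq_sum_range, map_sum, Finset.sum_eq_single q.natDegree]
      · rw [hq.coeff_natDegree, one_smul, weightedHomogeneousComponent_eq_self]
        rw [X_pow_eq_monomial]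
        refine isWeightedHomogeneous_monomial w _ _ ?_
        rw [Finsupp.weight_apply, Finsupp.sum_single_index (by simp), smul_eq_mul, mul_comm]
      · intro l _ hl
        rw [map_smul]
        have h6 : weightedHomogeneousComponent w (w i * q.natDegree)
            ((X i : MvPolynomial (Fin N) k) ^ l) = 0 := by
          have h7 : (X i : MvPolynomial (Fin N) k) ^ l ∈
              weightedHomogeneousSubmodule k w (w i * l) := by
            rw [mem_weightedHomogeneousSubmodule, X_pow_eq_monomial]
            refine isWeightedHomogeneous_monomial w _ _ ?_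
            rw [Finsupp.weight_apply, Finsupp.sum_single_index (by simp), smul_eq_mul, mul_comm]
          rw [weightedHomogeneousComponent_of_mem h7, if_neg]
          intro h8
          exact hl (Nat.eq_of_mul_eq_mul_left (hw i) h8).symm
        rw [h6, smul_zero]
      · intro h; exact absurd (Finset.mem_range.mpr (Nat.lt_succ_self _)) h
    rw [h5] at h4
    exact h4
  choose E hE using key
  refine ⟨∑ i, E i, fun i => ?_⟩
  have h1 : E i ≤ ∑ i, E i := Finset.single_le_sum (f := E) (fun _ _ => Nat.zero_le _)
    (Finset.mem_univ i)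
  rw [← Nat.sub_add_cancel h1, pow_add]
  exact Ideal.mul_mem_left _ _ (hE i)

/-- `hd = 0` for invertible polynomials in an odd number of variables over every field. -/
theorem hd_cform {k : Type u} [Field k] {N : ℕ} (hN : Odd N) (c : Fin N → k) (hc : ∀ j, c j ≠ 0)
    (a : Fin N → ℕ) (ha : ∀ j, 0 < a j) (nx : Fin N → Option (Fin N))
    (hinj : ∀ i j l, nx i = some l → nx j = some l → i = j) (hfix : ∀ j, nx j ≠ some j)
    (hloop : LoopOK a nx) {E : ℕ}
    (hE : ∀ i, (X i : MvPolynomial (Fin N) k) ^ E ∈ jacR (cform c a nx))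
    {r s : ℕ} (F : MF (cform c a nx) r) (G : MF (cform c a nx) s) : hd F G = 0 := by
  classical
  have hne : Nonempty (Fin N) := ⟨⟨0, hN.pos⟩⟩
  have hf : cform c a nx ≠ 0 := cform_ne_zero' c hc a ha nx hloop
  obtain ⟨A, _, g, c0, hA, hu, hg⟩ := exists_model c hc
  refine hd_anyJ hf hE hA g (cform c0 a nx) ?_ (finZP_cform c0 hu a nx ?_) F G
  · rw [map_cform]
    congr 1
    funext i
    exact hg i
  · intro κ _ _ c' hc'
    exact inv_zp κ (by rw [Fintype.card_fin]; exact hN) c' hc' a ha nx hinj hfix hloop

end Pool.Agent.HT51
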