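import Pool.Agent.HT51.KpZ
import Pool.Agent.HT51.LpG
import Pool.Agent.HT51.SpQ
import Pool.Agent.HT51.FlatPass

/-!
# The vanishing theorem for leading forms of corank at most three
-/

universe u

namespace Pool.Agent.HT51

open MvPolynomial Pool.Agent.HT21 IsLocalRing

lemma whom_map' {T T' : Type u} [CommRing T] [CommRing T'] (φ : T →+* T') {N : ℕ} {w : Fin N → ℕ}
    {D : ℕ} {f : MvPolynomial (Fin N) T} (hf : f.IsWeightedHomogeneous w D) :
    (MvPolynomial.map φ f).IsWeightedHomogeneous w D := by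
  intro m hm
  refine hf fun h => hm ?_
  rw [coeff_map, h, map_zero]

/-- Corank at most three. -/
theorem corank_vanish {R : Type u} [CommRing R] [IsLocalRing R] [IsNoetherianRing R] (d k : ℕ)
    (x : Fin (d + 1) → R)
    (hx : Ideal.span (Set.range x) = maximalIdeal R)
    (hreg : RingTheory.Sequence.IsRegular R (List.ofFn x))
    (w : Fin (d + 1) → ℕ) (hw : ∀ i, 0 < w i) (N : ℕ) (hN : 0 < N)
    (P : MvPolynomial (Fin (d + 1)) R) (hP : P.IsWeightedHomogeneous w N)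
    (hJ : Module.Finite (ResidueField R)
      (MvPolynomial (Fin (d + 1)) (ResidueField R) ⧸ jacIdeal (P.map (residue R))))
    {K : Type u} [Field K] (ι : ResidueField R →+* K)
    (α : MvPolynomial (Fin (d + 1)) K ≃+* MvPolynomial (Fin 3 ⊕ (Fin k ⊕ Fin k)) K)
    (g : MvPolynomial (Fin 3) K) (hg : Prime g) (E : ℕ) (hE : ∀ i, X i ^ E ∈ jacIdeal g)
    (hα : α ((P.map (residue R)).map ι) = rename Sum.inl g +
      ∑ i : Fin k, X (Sum.inr (Sum.inl i)) * X (Sum.inr (Sum.inr i)))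
    (f : R) (hf : f - aeval x P ∈ (wFilt x w).F (N + 1))
    (L M : Type u) [AddCommGroup L] [Module (R ⧸ Ideal.span {f}) L]
    [AddCommGroup M] [Module (R ⧸ Ideal.span {f}) M]
    [Module.Finite (R ⧸ Ideal.span {f}) L] [Module.Finite (R ⧸ Ideal.span {f}) M] :
    (∀ i, d < i → torLen (R ⧸ Ideal.span {f}) i L M ≠ ⊤ ∧
      torLen (R ⧸ Ideal.span {f}) (i + 1) L M = torLen (R ⧸ Ideal.span {f}) i L M) ∧
    ∀ e, d ≤ 2 * e → theta (R ⧸ Ideal.span {f}) e L M = 0 := by
  classical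
  obtain ⟨E₀, hE₀⟩ := exists_pow_of_finite hw (whom_map' (residue R) hP) hJ
  have hP0 : P.map (residue R) ≠ 0 := jacR_ne_zero hE₀
  refine link_theta d x hx hreg w hw N hN P hP hP0 hJ ?_ f hf L M
  intro Q _ π hπ hker W V _ _ _ _ _ _ e he
  refine theta_of_hd_any (ResidueField R) (P.map (residue R)) hP0 E₀ hE₀ ?_ π hπ hker W V e
    (by omega)
  intro r s Φ Γ
  rw [← hd_field_j ι (P.map (residue R)) E₀ hE₀ Φ Γ,
    ← hd_iso α (Φ.map (MvPolynomial.map ι)) (Γ.map (MvPolynomial.map ι))]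
  have key : ∀ (F : MvPolynomial (Fin 3 ⊕ (Fin k ⊕ Fin k)) K), F = hypF K g k →
      ∀ (r s : ℕ) (Φ : MF F r) (Γ : MF F s), hd Φ Γ = 0 := by
    rintro _ rfl r s Φ Γ
    exact hd_corank K g hg E hE k Φ Γ
  exact key _ hα r s _ _

end Pool.Agent.HT51
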