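import Pool.Agent.HT51.SpDefs
import Pool.Agent.HT51.SpHex

/-!
# The hexagon and the Herbrand function of a `2`-periodic complex
-/

universe u

namespace Pool.Agent.HT51

open Pool.Agent.HT21

section abs

variable {R : Type u} [CommRing R] {M₁ M₂ M₃ : Type u} [AddCommGroup M₁] [Module R M₁]
  [AddCommGroup M₂] [Module R M₂] [AddCommGroup M₃] [Module R M₃]

/-- `ker φ / im ψ`. -/
abbrev HA {M : Type u} [AddCommGroup M] [Module R M] (φ ψ : M →ₗ[R] M) : Type u :=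
  ↥(LinearMap.ker φ) ⧸ (LinearMap.range ψ).submoduleOf (LinearMap.ker φ)

lemma HA_mk_eq_zero {M : Type u} [AddCommGroup M] [Module R M] {φ ψ : M →ₗ[R] M}
    (x : LinearMap.ker φ) : (Submodule.Quotient.mk x : HA φ ψ) = 0 ↔ ∃ y, ψ y = x.1 := by
  rw [Submodule.Quotient.mk_eq_zero]
  exact Iff.rfl

/-- The map induced on `ker φ / im ψ`. -/
def HAmap {φ₁ ψ₁ : M₁ →ₗ[R] M₁} {φ₂ ψ₂ : M₂ →ₗ[R] M₂} (f : M₁ →ₗ[R] M₂)
    (hφ : ∀ x, f (φ₁ x) = φ₂ (f x)) (hψ : ∀ x, f (ψ₁ x) = ψ₂ (f x)) :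
    HA φ₁ ψ₁ →ₗ[R] HA φ₂ ψ₂ :=
  Submodule.mapQ _ _ (f.restrict (p := LinearMap.ker φ₁) (q := LinearMap.ker φ₂) (fun x hx => by
    rw [LinearMap.mem_ker] at hx ⊢
    rw [← hφ, hx, map_zero])) (by
    rintro ⟨x, hx⟩ ⟨y, hy⟩
    exact ⟨f y, by rw [← hψ, hy]; rfl⟩)

lemma HAmap_mk {φ₁ ψ₁ : M₁ →ₗ[R] M₁} {φ₂ ψ₂ : M₂ →ₗ[R] M₂} (f : M₁ →ₗ[R] M₂)
    (hφ : ∀ x, f (φ₁ x) = φ₂ (f x)) (hψ : ∀ x, f (ψ₁ x) = ψ₂ (f x)) (x : M₁)
    (hx : x ∈ LinearMap.ker φ₁) (h : f x ∈ LinearMap.ker φ₂) :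
    HAmap f hφ hψ (Submodule.Quotient.mk ⟨x, hx⟩) = Submodule.Quotient.mk ⟨f x, h⟩ := rfl

/-- Half of the hexagon. -/
theorem hex_abs {φ₁ ψ₁ : M₁ →ₗ[R] M₁} {φ₂ ψ₂ : M₂ →ₗ[R] M₂} {φ₃ ψ₃ : M₃ →ₗ[R] M₃}
    (f : M₁ →ₗ[R] M₂) (g : M₂ →ₗ[R] M₃)
    (hf : Function.Injective f) (hfg : Function.Exact f g) (hg : Function.Surjective g)
    (hfφ : ∀ x, f (φ₁ x) = φ₂ (f x)) (hfψ : ∀ x, f (ψ₁ x) = ψ₂ (f x))
    (hgφ : ∀ x, g (φ₂ x) = φ₃ (g x)) (hgψ : ∀ x, g (ψ₂ x) = ψ₃ (g x))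
    (h12 : ∀ w, φ₂ (ψ₂ w) = 0) (h21 : ∀ w, ψ₂ (φ₂ w) = 0) :
    ∃ d : HA φ₃ ψ₃ →ₗ[R] HA ψ₁ φ₁,
      Function.Exact (HAmap (φ₁ := φ₁) (ψ₁ := ψ₁) f hfφ hfψ)
        (HAmap (φ₁ := φ₂) (ψ₁ := ψ₂) (φ₂ := φ₃) (ψ₂ := ψ₃) g hgφ hgψ) ∧
      Function.Exact (HAmap (φ₁ := φ₂) (ψ₁ := ψ₂) (φ₂ := φ₃) (ψ₂ := ψ₃) g hgφ hgψ) d ∧
      Function.Exact d (HAmap (φ₁ := ψ₁) (ψ₁ := φ₁) (φ₂ := ψ₂) (ψ₂ := φ₂) f hfψ hfφ) := by
  have hfg' : ∀ y, g y = 0 ↔ ∃ x, f x = y := fun y => hfg y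
  have hgf : ∀ x, g (f x) = 0 := fun x => (hfg' _).mpr ⟨x, rfl⟩
  -- the correspondence
  let E : Submodule R (M₂ × M₁) :=
    LinearMap.ker (φ₂.comp (LinearMap.fst R M₂ M₁) - f.comp (LinearMap.snd R M₂ M₁))
  have hE : ∀ x : M₂ × M₁, x ∈ E ↔ φ₂ x.1 = f x.2 := by
    intro x
    show (φ₂.comp (LinearMap.fst R M₂ M₁) - f.comp (LinearMap.snd R M₂ M₁)) x = 0 ↔ _
    rw [LinearMap.sub_apply, sub_eq_zero]
    exact Iff.rfl
  let P0 : E →ₗ[R] LinearMap.ker φ₃ :=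
    LinearMap.codRestrict (LinearMap.ker φ₃)
      (g.comp ((LinearMap.fst R M₂ M₁).comp E.subtype)) (by
      rintro ⟨x, hx⟩
      rw [LinearMap.mem_ker]
      show φ₃ (g x.1) = 0
      rw [← hgφ, (hE x).mp hx, hgf])
  let Q0 : E →ₗ[R] LinearMap.ker ψ₁ :=
    LinearMap.codRestrict (LinearMap.ker ψ₁) ((LinearMap.snd R M₂ M₁).comp E.subtype) (by
      rintro ⟨x, hx⟩
      rw [LinearMap.mem_ker]
      show ψ₁ x.2 = 0
      apply hf
      rw [hfψ, ← (hE x).mp hx, h21, map_zero])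
  let P : E →ₗ[R] HA φ₃ ψ₃ := (Submodule.mkQ _).comp P0
  let Q : E →ₗ[R] HA ψ₁ φ₁ := (Submodule.mkQ _).comp Q0
  have hP0 : ∀ x : E, P x = 0 ↔ ∃ y, ψ₃ y = g x.1.1 := fun x =>
    HA_mk_eq_zero (φ := φ₃) (ψ := ψ₃) (P0 x)
  have hQ0 : ∀ x : E, Q x = 0 ↔ ∃ y, φ₁ y = x.1.2 := fun x =>
    HA_mk_eq_zero (φ := ψ₁) (ψ := φ₁) (Q0 x)
  have hPs : Function.Surjective P := by
    intro z
    obtain ⟨⟨w, hw⟩, rfl⟩ := Submodule.Quotient.mk_surjective _ z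
    obtain ⟨x, rfl⟩ := hg w
    rw [LinearMap.mem_ker, ← hgφ] at hw
    obtain ⟨v, hv⟩ := (hfg' _).mp hw
    exact ⟨⟨(x, v), (hE _).mpr hv.symm⟩, rfl⟩
  have hPQ : ∀ x : E, P x = 0 → Q x = 0 := by
    rintro ⟨⟨x, v⟩, hx⟩ h
    obtain ⟨y, hy⟩ := (hP0 _).mp h
    have hx' : φ₂ x = f v := (hE _).mp hx
    obtain ⟨y, rfl⟩ := hg y
    have hy' : ψ₃ (g y) = g x := hy
    obtain ⟨u, hu⟩ := (hfg' (x - ψ₂ y)).mp (by rw [map_sub, hgψ, hy', sub_self])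
    refine (hQ0 _).mpr ⟨u, hf ?_⟩
    show f (φ₁ u) = f v
    rw [hfφ, hu, map_sub, h12, sub_zero, hx']
  have hle : LinearMap.ker P ≤ LinearMap.ker Q := fun x hx => hPQ x hx
  let d : HA φ₃ ψ₃ →ₗ[R] HA ψ₁ φ₁ :=
    ((LinearMap.ker P).liftQ Q hle).comp
      (P.quotKerEquivOfSurjective hPs).symm.toLinearMap
  have hd : ∀ x : E, d (P x) = Q x := by
    intro x
    have h1 : (P.quotKerEquivOfSurjective hPs).symm (P x) = Submodule.Quotient.mk x := by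
      rw [LinearEquiv.symm_apply_eq]
      rfl
    show ((LinearMap.ker P).liftQ Q hle) ((P.quotKerEquivOfSurjective hPs).symm (P x)) = Q x
    rw [h1]
    rfl
  refine ⟨d, ?_, ?_, ?_⟩
  · intro z
    obtain ⟨⟨x, hx⟩, rfl⟩ := Submodule.Quotient.mk_surjective _ z
    have hgx : g x ∈ LinearMap.ker φ₃ := by
      rw [LinearMap.mem_ker, ← hgφ, hx, map_zero]
    rw [HAmap_mk g hgφ hgψ x hx hgx, HA_mk_eq_zero]
    constructor
    · rintro ⟨y, hy⟩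
      obtain ⟨y, rfl⟩ := hg y
      have hy' : ψ₃ (g y) = g x := hy
      obtain ⟨u, hu⟩ := (hfg' (x - ψ₂ y)).mp (by rw [map_sub, hgψ, hy', sub_self])
      have huk : u ∈ LinearMap.ker φ₁ := by
        rw [LinearMap.mem_ker]
        apply hf
        rw [hfφ, hu, map_sub, h12, sub_zero, map_zero]
        exact hx
      have hfu : f u ∈ LinearMap.ker φ₂ := by
        rw [LinearMap.mem_ker, ← hfφ, huk, map_zero]
      refine ⟨Submodule.Quotient.mk ⟨u, huk⟩, ?_⟩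
      rw [HAmap_mk f hfφ hfψ u huk hfu, Submodule.Quotient.eq]
      refine ⟨-y, ?_⟩
      show ψ₂ (-y) = f u - x
      rw [hu, map_neg]
      abel
    · rintro ⟨z, hz⟩
      obtain ⟨⟨u, hu⟩, rfl⟩ := Submodule.Quotient.mk_surjective _ z
      have hfu : f u ∈ LinearMap.ker φ₂ := by
        rw [LinearMap.mem_ker, ← hfφ, hu, map_zero]
      rw [HAmap_mk f hfφ hfψ u hu hfu, Submodule.Quotient.eq] at hz
      obtain ⟨y, hy⟩ := hz
      have hy' : ψ₂ y = f u - x := hy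
      refine ⟨-g y, ?_⟩
      show ψ₃ (-g y) = g x
      rw [map_neg, ← hgψ, hy', map_sub, hgf, zero_sub, neg_neg]
  · intro z
    obtain ⟨x, rfl⟩ := hPs z
    rw [hd, hQ0]
    obtain ⟨⟨x, v⟩, hx⟩ := x
    have hx' : φ₂ x = f v := (hE _).mp hx
    constructor
    · rintro ⟨y, hy⟩
      have hy' : φ₁ y = v := hy
      have hk : x - f y ∈ LinearMap.ker φ₂ := by
        rw [LinearMap.mem_ker, map_sub, ← hfφ, hy', hx', sub_self]
      have hgk : g (x - f y) ∈ LinearMap.ker φ₃ := by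
        rw [LinearMap.mem_ker, ← hgφ, hk, map_zero]
      refine ⟨Submodule.Quotient.mk ⟨x - f y, hk⟩, ?_⟩
      rw [HAmap_mk g hgφ hgψ _ hk hgk]
      show Submodule.Quotient.mk _ = Submodule.Quotient.mk _
      congr 1
      refine Subtype.ext ?_
      show g (x - f y) = g x
      rw [map_sub, hgf, sub_zero]
    · rintro ⟨w, hw⟩
      obtain ⟨⟨w, hwk⟩, rfl⟩ := Submodule.Quotient.mk_surjective _ w
      have hgk : g w ∈ LinearMap.ker φ₃ := by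
        rw [LinearMap.mem_ker, ← hgφ, hwk, map_zero]
      rw [HAmap_mk g hgφ hgψ _ hwk hgk] at hw
      have hw0 : ((w, 0) : M₂ × M₁) ∈ E := (hE _).mpr (by
        show φ₂ w = f 0
        rw [map_zero]; exact hwk)
      have h1 : P ⟨(w, 0), hw0⟩ = P ⟨(x, v), hx⟩ := hw
      have h2 : Q (⟨(x, v), hx⟩ - ⟨(w, 0), hw0⟩) = 0 := by
        refine hPQ _ ?_
        rw [map_sub, h1, sub_self]
      obtain ⟨y, hy⟩ := (hQ0 _).mp h2
      refine ⟨y, hy.trans ?_⟩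
      show v - 0 = v
      rw [sub_zero]
  · intro z
    obtain ⟨⟨v, hv⟩, rfl⟩ := Submodule.Quotient.mk_surjective _ z
    have hfv : f v ∈ LinearMap.ker ψ₂ := by
      rw [LinearMap.mem_ker, ← hfψ, hv, map_zero]
    rw [HAmap_mk f hfψ hfφ v hv hfv, HA_mk_eq_zero]
    constructor
    · rintro ⟨w, hw⟩
      have hwE : ((w, v) : M₂ × M₁) ∈ E := (hE _).mpr hw
      refine ⟨P ⟨(w, v), hwE⟩, ?_⟩
      rw [hd]
      rfl
    · rintro ⟨z, hz⟩
      obtain ⟨x, rfl⟩ := hPs z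
      rw [hd] at hz
      obtain ⟨⟨x, v'⟩, hx⟩ := x
      have hx' : φ₂ x = f v' := (hE _).mp hx
      have hv'k : v' ∈ LinearMap.ker ψ₁ := (Q0 ⟨(x, v'), hx⟩).2
      have hz' : (Submodule.Quotient.mk ⟨v', hv'k⟩ : HA ψ₁ φ₁) = Submodule.Quotient.mk ⟨v, hv⟩ := hz
      rw [Submodule.Quotient.eq] at hz'
      obtain ⟨y, hy⟩ := hz'
      have hy' : φ₁ y = v' - v := hy
      refine ⟨x - f y, ?_⟩
      show φ₂ (x - f y) = f v
      rw [map_sub, ← hfφ, hy', hx', map_sub]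
      abel

end abs

section mat

variable {R : Type u} [CommRing R] {r : ℕ}

lemma mact_compLeft (A : Matrix (Fin r) (Fin r) R) {W V : Type u} [AddCommGroup W] [Module R W]
    [AddCommGroup V] [Module R V] (f : W →ₗ[R] V) (x : Fin r → W) :
    (f.compLeft (Fin r)) (mact A W x) = mact A V ((f.compLeft (Fin r)) x) := by
  funext k
  show f (∑ l, A k l • x l) = ∑ l, A k l • f (x l)
  rw [map_sum]
  exact Finset.sum_congr rfl fun l _ => map_smul f _ _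

/-- (SpH.1) the hexagon; second half by exchanging `φ` and `ψ`. `HHmap` is induced by `f^r`. -/
theorem hexagon {R : Type u} [CommRing R] {r : ℕ} (φ ψ : Matrix (Fin r) (Fin r) R)
    {W₁ W₂ W₃ : Type u} [AddCommGroup W₁] [Module R W₁] [AddCommGroup W₂] [Module R W₂]
    [AddCommGroup W₃] [Module R W₃] (f : W₁ →ₗ[R] W₂) (g : W₂ →ₗ[R] W₃)
    (hf : Function.Injective f) (hfg : Function.Exact f g) (hg : Function.Surjective g)
    (h12 : ∀ w, mact φ W₂ (mact ψ W₂ w) = 0) (h21 : ∀ w, mact ψ W₂ (mact φ W₂ w) = 0) :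
    ∃ (a : HH φ ψ W₁ →ₗ[R] HH φ ψ W₂) (b : HH φ ψ W₂ →ₗ[R] HH φ ψ W₃)
      (d : HH φ ψ W₃ →ₗ[R] HH ψ φ W₁) (a' : HH ψ φ W₁ →ₗ[R] HH ψ φ W₂)
      (b' : HH ψ φ W₂ →ₗ[R] HH ψ φ W₃) (d' : HH ψ φ W₃ →ₗ[R] HH φ ψ W₁),
      Function.Exact a b ∧ Function.Exact b d ∧ Function.Exact d a' ∧ Function.Exact a' b' ∧
      Function.Exact b' d' ∧ Function.Exact d' a ∧
      (∀ (x : Fin r → W₁) (hx : mact φ W₁ x = 0) (hx' : mact φ W₂ (fun k => f (x k)) = 0),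
        a (Submodule.Quotient.mk ⟨x, hx⟩) = Submodule.Quotient.mk ⟨fun k => f (x k), hx'⟩) ∧
      (∀ (x : Fin r → W₁) (hx : mact ψ W₁ x = 0) (hx' : mact ψ W₂ (fun k => f (x k)) = 0),
        a' (Submodule.Quotient.mk ⟨x, hx⟩) = Submodule.Quotient.mk ⟨fun k => f (x k), hx'⟩) := by
  have hF : Function.Injective (f.compLeft (Fin r)) := by
    intro x y hxy
    funext k
    exact hf (congrFun hxy k)
  have hG : Function.Surjective (g.compLeft (Fin r)) := by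
    intro y
    choose x hx using fun k => hg (y k)
    exact ⟨x, funext hx⟩
  have hFG : Function.Exact (f.compLeft (Fin r)) (g.compLeft (Fin r)) := by
    intro y
    constructor
    · intro h
      have h1 : ∀ k, ∃ x, f x = y k := fun k => (hfg (y k)).mp (congrFun h k)
      choose x hx using h1
      exact ⟨x, funext hx⟩
    · rintro ⟨x, rfl⟩
      funext k
      exact (hfg _).mpr ⟨x k, rfl⟩
  obtain ⟨d, e1, e2, e3⟩ := hex_abs (φ₁ := mact φ W₁) (ψ₁ := mact ψ W₁) (φ₂ := mact φ W₂)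
    (ψ₂ := mact ψ W₂) (φ₃ := mact φ W₃) (ψ₃ := mact ψ W₃) (f.compLeft (Fin r))
    (g.compLeft (Fin r)) hF hFG hG (mact_compLeft φ f) (mact_compLeft ψ f) (mact_compLeft φ g)
    (mact_compLeft ψ g) h12 h21
  obtain ⟨d', e4, e5, e6⟩ := hex_abs (φ₁ := mact ψ W₁) (ψ₁ := mact φ W₁) (φ₂ := mact ψ W₂)
    (ψ₂ := mact φ W₂) (φ₃ := mact ψ W₃) (ψ₃ := mact φ W₃) (f.compLeft (Fin r))
    (g.compLeft (Fin r)) hF hFG hG (mact_compLeft ψ f) (mact_compLeft φ f) (mact_compLeft ψ g)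
    (mact_compLeft φ g) h21 h12
  exact ⟨_, _, d, _, _, d', e1, e2, e3, e4, e5, e6, fun x hx hx' => rfl, fun x hx hx' => rfl⟩

lemma ln_exact_range {R : Type u} [CommRing R] {L M N : Type u} [AddCommGroup L] [Module R L]
    [AddCommGroup M] [Module R M] [AddCommGroup N] [Module R N] (hM : IsFiniteLength R M)
    (f : L →ₗ[R] M) (g : M →ₗ[R] N) (h : Function.Exact f g) :
    ln R M = ln R (LinearMap.range f) + ln R (LinearMap.range g) := by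
  rw [ln_ker_range hM g, h.linearMap_ker_eq]

/-- (SpH.2) the Herbrand function. -/
theorem herb {Q : Type u} [CommRing Q] [IsNoetherianRing Q] {r : ℕ}
    (φ ψ : Matrix (Fin r) (Fin r) Q) (h1 : φ * ψ = 0) (h2 : ψ * φ = 0)
    (hfin : ∀ (W : Type u) [AddCommGroup W] [Module Q W] [Module.Finite Q W],
      Module.length Q (HH φ ψ W) ≠ ⊤ ∧ Module.length Q (HH ψ φ W) ≠ ⊤) :
    ∃ nu : AddFn Q, ∀ (W : Type u) [AddCommGroup W] [Module Q W],
      nu.val W = ((Module.length Q (HH φ ψ W)).toNat : ℂ) -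
        ((Module.length Q (HH ψ φ W)).toNat : ℂ) := by
  have hmul : ∀ (A B : Matrix (Fin r) (Fin r) Q) (W : Type u) [AddCommGroup W] [Module Q W]
      (w : Fin r → W), A * B = 0 → mact A W (mact B W w) = 0 := by
    intro A B W _ _ w hAB
    funext k
    show ∑ l, A k l • ∑ l', B l l' • w l' = 0
    have h3 : ∑ l, A k l • ∑ l', B l l' • w l' = ∑ l', (A * B) k l' • w l' := by
      simp only [Finset.smul_sum, smul_smul, Matrix.mul_apply, Finset.sum_smul]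
      exact Finset.sum_comm
    rw [h3, hAB]
    refine Finset.sum_eq_zero fun l' _ => ?_
    rw [Matrix.zero_apply, zero_smul]
  refine ⟨{ val := fun W _ _ => ((Module.length Q (HH φ ψ W)).toNat : ℂ) -
        ((Module.length Q (HH ψ φ W)).toNat : ℂ)
            add' := ?_ }, fun W _ _ => rfl⟩
  intro L M N _ _ _ _ _ _ f g hf hfg hg hM
  have : IsNoetherian Q M := isNoetherian_of_isNoetherianRing_of_finite Q M
  have hL : Module.Finite Q L := Module.Finite.of_injective f hf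
  have hN : Module.Finite Q N := Module.Finite.of_surjective g hg
  obtain ⟨a, b, d, a', b', d', e1, e2, e3, e4, e5, e6, -, -⟩ := hexagon φ ψ f g hf hfg hg
    (fun w => hmul φ ψ M w h1) (fun w => hmul ψ φ M w h2)
  have fl : ∀ (W : Type u) [AddCommGroup W] [Module Q W] [Module.Finite Q W],
      IsFiniteLength Q (HH φ ψ W) ∧ IsFiniteLength Q (HH ψ φ W) := by
    intro W _ _ _
    exact ⟨Module.length_ne_top_iff.mp (hfin W).1, Module.length_ne_top_iff.mp (hfin W).2⟩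
  have l1 := ln_exact_range (fl L).1 d' a e6
  have l2 := ln_exact_range (fl M).1 a b e1
  have l3 := ln_exact_range (fl N).1 b d e2
  have l4 := ln_exact_range (fl L).2 d a' e3
  have l5 := ln_exact_range (fl M).2 a' b' e4
  have l6 := ln_exact_range (fl N).2 b' d' e5
  have key : ln Q (HH φ ψ M) - ln Q (HH ψ φ M)
      = (ln Q (HH φ ψ L) - ln Q (HH ψ φ L)) + (ln Q (HH φ ψ N) - ln Q (HH ψ φ N)) := by
    rw [l1, l2, l3, l4, l5, l6]
    ring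
  have key2 := congrArg (fun z : ℤ => (z : ℂ)) key
  simp only [ln] at key2
  push_cast at key2
  exact key2

end mat

end Pool.Agent.HT51
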