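import Pool.Agent.HT51.KpDefs
import Pool.Agent.HT51.SpH

/-!
# Symmetry of the difference of lengths `hd`
-/

universe u

namespace Pool.Agent.HT51

open Pool.Agent.HT21 Matrix

section rep

variable {R : Type u} [CommRing R] {r s : ℕ}

/-- Matrices as `r`-tuples of elements of `Cok B`. -/
noncomputable def kpsMk (r : ℕ) (B : Matrix (Fin s) (Fin s) R) :
    Matrix (Fin r) (Fin s) R →ₗ[R] (Fin r → Cok B) :=
  LinearMap.pi fun j => (LinearMap.range B.mulVecLin).mkQ.comp
    (LinearMap.proj (R := R) (φ := fun _ : Fin r => Fin s → R) j)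

lemma kpsMk_apply (B : Matrix (Fin s) (Fin s) R) (X : Matrix (Fin r) (Fin s) R) (j : Fin r) :
    kpsMk r B X j = Submodule.Quotient.mk (X j) := rfl

lemma kpsMk_surj (B : Matrix (Fin s) (Fin s) R) : Function.Surjective (kpsMk r B) := by
  intro w
  choose X hX using fun j => Submodule.Quotient.mk_surjective _ (w j)
  refine ⟨X, ?_⟩
  funext j
  exact hX j

lemma kpsMk_eq_zero (B : Matrix (Fin s) (Fin s) R) (X : Matrix (Fin r) (Fin s) R) :
    kpsMk r B X = 0 ↔ ∃ V : Matrix (Fin r) (Fin s) R, X = V * Bᵀ := by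
  constructor
  · intro h
    have h1 : ∀ j, ∃ v : Fin s → R, B.mulVec v = X j := by
      intro j
      have h2 := congrFun h j
      rw [kpsMk_apply, Pi.zero_apply, Submodule.Quotient.mk_eq_zero] at h2
      obtain ⟨v, hv⟩ := h2
      exact ⟨v, hv⟩
    choose V hV using h1
    refine ⟨V, ?_⟩
    ext j l
    rw [← congrFun (hV j) l, Matrix.mul_apply, Matrix.mulVec, dotProduct]
    refine Finset.sum_congr rfl fun k _ => ?_
    rw [Matrix.transpose_apply, mul_comm]
  · rintro ⟨V, rfl⟩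
    funext j
    rw [kpsMk_apply, Pi.zero_apply, Submodule.Quotient.mk_eq_zero]
    refine ⟨V j, ?_⟩
    funext l
    rw [Matrix.mulVecLin_apply, Matrix.mul_apply, Matrix.mulVec, dotProduct]
    refine Finset.sum_congr rfl fun k _ => ?_
    rw [Matrix.transpose_apply, mul_comm]

lemma mact_kpsMk (A : Matrix (Fin r) (Fin r) R) (B : Matrix (Fin s) (Fin s) R)
    (X : Matrix (Fin r) (Fin s) R) : mact A (Cok B) (kpsMk r B X) = kpsMk r B (A * X) := by
  funext i
  rw [mact_apply, kpsMk_apply]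
  have h : (A * X) i = ∑ l, A i l • X l := by
    funext k
    rw [Matrix.mul_apply, Finset.sum_apply]
    rfl
  rw [h, ← Submodule.mkQ_apply, map_sum]
  refine Finset.sum_congr rfl fun l _ => ?_
  rw [map_smul]
  rfl

lemma kps_range (A : Matrix (Fin r) (Fin r) R) (B : Matrix (Fin s) (Fin s) R)
    (X : Matrix (Fin r) (Fin s) R) : kpsMk r B X ∈ LinearMap.range (mact A (Cok B)) ↔
      ∃ U V : Matrix (Fin r) (Fin s) R, X = A * U + V * Bᵀ := by
  constructor
  · rintro ⟨w, hw⟩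
    obtain ⟨U, rfl⟩ := kpsMk_surj B w
    rw [mact_kpsMk] at hw
    have h0 : kpsMk r B (X - A * U) = 0 := by rw [map_sub, hw, sub_self]
    obtain ⟨V, hV⟩ := (kpsMk_eq_zero B _).mp h0
    exact ⟨U, V, by rw [← hV]; abel⟩
  · rintro ⟨U, V, rfl⟩
    refine ⟨kpsMk r B U, ?_⟩
    rw [mact_kpsMk, map_add, (kpsMk_eq_zero B _).mpr ⟨V, rfl⟩, add_zero]

/-- The length of `HH A A' (Cok B)` from a presentation by matrices. -/
lemma kps_len (A A' : Matrix (Fin r) (Fin r) R) (B : Matrix (Fin s) (Fin s) R) (P : Type u)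
    [AddCommGroup P] [Module R P] (p : P →ₗ[R] Matrix (Fin r) (Fin s) R) (N : Submodule R P)
    (h1 : ∀ x, ∃ V : Matrix (Fin r) (Fin s) R, A * p x = V * Bᵀ)
    (h2 : ∀ X V : Matrix (Fin r) (Fin s) R, A * X = V * Bᵀ → ∃ x, p x = X)
    (h3 : ∀ x, x ∈ N ↔ ∃ U V : Matrix (Fin r) (Fin s) R, p x = A' * U + V * Bᵀ) :
    Module.length R (HH A A' (Cok B)) = Module.length R (P ⧸ N) := by
  have hk : ∀ x, (kpsMk r B).comp p x ∈ LinearMap.ker (mact A (Cok B)) := by
    intro x
    rw [LinearMap.mem_ker, LinearMap.comp_apply, mact_kpsMk, kpsMk_eq_zero]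
    exact h1 x
  let q0 : P →ₗ[R] LinearMap.ker (mact A (Cok B)) := LinearMap.codRestrict _ ((kpsMk r B).comp p) hk
  let q : P →ₗ[R] HH A A' (Cok B) := (Submodule.mkQ _).comp q0
  have hq : Function.Surjective q := by
    refine (Submodule.mkQ_surjective _).comp ?_
    rintro ⟨w, hw⟩
    obtain ⟨X, rfl⟩ := kpsMk_surj B w
    rw [LinearMap.mem_ker, mact_kpsMk, kpsMk_eq_zero] at hw
    obtain ⟨V, hV⟩ := hw
    obtain ⟨x, hx⟩ := h2 X V hV
    refine ⟨x, Subtype.ext ?_⟩
    show kpsMk r B (p x) = kpsMk r B X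
    rw [hx]
  have hN : LinearMap.ker q = N := by
    ext x
    rw [LinearMap.mem_ker, h3, ← kps_range A' B (p x)]
    show Submodule.Quotient.mk (q0 x) = 0 ↔ _
    rw [Submodule.Quotient.mk_eq_zero]
    rfl
  exact (((Submodule.quotEquivOfEq _ _ hN).symm.trans (q.quotKerEquivOfSurjective hq)).length_eq).symm

end rep

section symm

variable {R : Type u} [CommRing R] [IsDomain R] {f : R} {r s : ℕ}

/-- Pairs `(X, Z)` with `F.phi X = Z G.phi^t`. -/
def kpsP (a : Matrix (Fin r) (Fin r) R) (b : Matrix (Fin s) (Fin s) R) :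
    Submodule R (Matrix (Fin r) (Fin s) R × Matrix (Fin r) (Fin s) R) where
  carrier := {x | a * x.1 = x.2 * b}
  add_mem' {x y} hx hy := by
    show a * (x.1 + y.1) = (x.2 + y.2) * b
    rw [Matrix.mul_add, Matrix.add_mul, show a * x.1 = x.2 * b from hx,
      show a * y.1 = y.2 * b from hy]
  zero_mem' := by
    show a * 0 = (0 : Matrix (Fin r) (Fin s) R) * b
    rw [Matrix.mul_zero, Matrix.zero_mul]
  smul_mem' c x hx := by
    show a * (c • x.1) = (c • x.2) * b
    rw [Matrix.mul_smul, Matrix.smul_mul, show a * x.1 = x.2 * b from hx]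

/-- Matrices `X` with `a X = V b` for some `V`. -/
def kpsQ (a : Matrix (Fin r) (Fin r) R) (b : Matrix (Fin s) (Fin s) R) :
    Submodule R (Matrix (Fin r) (Fin s) R) where
  carrier := {x | ∃ V : Matrix (Fin r) (Fin s) R, a * x = V * b}
  add_mem' {x y} hx hy := by
    obtain ⟨V, hV⟩ := hx
    obtain ⟨W, hW⟩ := hy
    exact ⟨V + W, by rw [Matrix.mul_add, Matrix.add_mul, hV, hW]⟩
  zero_mem' := ⟨0, by rw [Matrix.mul_zero, Matrix.zero_mul]⟩
  smul_mem' c x hx := by
    obtain ⟨V, hV⟩ := hx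
    exact ⟨c • V, by rw [Matrix.mul_smul, Matrix.smul_mul, hV]⟩

/-- The submodule of all `a U + V b`. -/
def kpsN (a : Matrix (Fin r) (Fin r) R) (b : Matrix (Fin s) (Fin s) R) :
    Submodule R (Matrix (Fin r) (Fin s) R) where
  carrier := {x | ∃ U V : Matrix (Fin r) (Fin s) R, x = a * U + V * b}
  add_mem' {x y} hx hy := by
    obtain ⟨U, V, rfl⟩ := hx
    obtain ⟨U', V', rfl⟩ := hy
    exact ⟨U + U', V + V', by rw [Matrix.mul_add, Matrix.add_mul]; abel⟩
  zero_mem' := ⟨0, 0, by rw [Matrix.mul_zero, Matrix.zero_mul, add_zero]⟩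
  smul_mem' c x hx := by
    obtain ⟨U, V, rfl⟩ := hx
    exact ⟨c • U, c • V, by rw [Matrix.mul_smul, Matrix.smul_mul, smul_add]⟩

/-- Transposition as a linear map. -/
def kpsT (R : Type u) [CommRing R] (r s : ℕ) :
    Matrix (Fin r) (Fin s) R →ₗ[R] Matrix (Fin s) (Fin r) R where
  toFun X := Xᵀ
  map_add' X Y := Matrix.transpose_add X Y
  map_smul' c X := Matrix.transpose_smul c X

lemma kps_cancel (hf : f ≠ 0) {X Y : Matrix (Fin r) (Fin s) R} (h : f • X = f • Y) : X = Y := by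
  ext i j
  have := congrFun (congrFun h i) j
  simpa [hf] using this

theorem hd_symm {R : Type u} [CommRing R] [IsDomain R] {f : R} (hf : f ≠ 0) {r s : ℕ}
    (F : MF f r) (G : MF f s) : hd F G = hd G F := by
  have hb : G.phiᵀ * G.psiᵀ = f • (1 : Matrix (Fin s) (Fin s) R) := by
    rw [← Matrix.transpose_mul, G.psi_phi, Matrix.transpose_smul, Matrix.transpose_one]
  have hb' : G.psiᵀ * G.phiᵀ = f • (1 : Matrix (Fin s) (Fin s) R) := by
    rw [← Matrix.transpose_mul, G.phi_psi, Matrix.transpose_smul, Matrix.transpose_one]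
  have ea : ∀ X : Matrix (Fin r) (Fin s) R, F.phi * (F.psi * X) = f • X := fun X => by
    rw [← Matrix.mul_assoc, F.phi_psi, Matrix.smul_mul, Matrix.one_mul]
  have ea' : ∀ X : Matrix (Fin r) (Fin s) R, F.psi * (F.phi * X) = f • X := fun X => by
    rw [← Matrix.mul_assoc, F.psi_phi, Matrix.smul_mul, Matrix.one_mul]
  have eb : ∀ X : Matrix (Fin r) (Fin s) R, X * G.phiᵀ * G.psiᵀ = f • X := fun X => by
    rw [Matrix.mul_assoc, hb, Matrix.mul_smul, Matrix.mul_one]
  have eb' : ∀ X : Matrix (Fin r) (Fin s) R, X * G.psiᵀ * G.phiᵀ = f • X := fun X => by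
    rw [Matrix.mul_assoc, hb', Matrix.mul_smul, Matrix.mul_one]
  have H1 : Module.length R (HH F.phi F.psi (Cok G.phi)) =
      Module.length R (HH G.phi G.psi (Cok F.phi)) := by
    let P := kpsP F.phi G.phiᵀ
    let p1 : P →ₗ[R] Matrix (Fin r) (Fin s) R := (LinearMap.fst R _ _).comp P.subtype
    let p2 : P →ₗ[R] Matrix (Fin s) (Fin r) R :=
      (kpsT R r s).comp ((LinearMap.snd R _ _).comp P.subtype)
    rw [kps_len F.phi F.psi G.phi P p1 ((kpsN F.psi G.phiᵀ).comap p1) (fun x => ⟨x.1.2, x.2⟩)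
      (fun X V h => ⟨⟨(X, V), h⟩, rfl⟩) (fun x => Iff.rfl),
      kps_len G.phi G.psi F.phi P p2 ((kpsN F.psi G.phiᵀ).comap p1) ?_ ?_ ?_]
    · intro x
      refine ⟨x.1.1ᵀ, ?_⟩
      have hx : F.phi * x.1.1 = x.1.2 * G.phiᵀ := x.2
      show G.phi * x.1.2ᵀ = _
      have := congrArg Matrix.transpose hx
      rw [Matrix.transpose_mul, Matrix.transpose_mul, Matrix.transpose_transpose] at this
      exact this.symm
    · intro Y V h
      refine ⟨⟨(Vᵀ, Yᵀ), ?_⟩, ?_⟩
      · show F.phi * Vᵀ = Yᵀ * G.phiᵀ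
        rw [← Matrix.transpose_mul, h, Matrix.transpose_mul, Matrix.transpose_transpose]
      · show Yᵀᵀ = Y
        rw [Matrix.transpose_transpose]
    · intro x
      have hx : F.phi * x.1.1 = x.1.2 * G.phiᵀ := x.2
      show (∃ U V : Matrix (Fin r) (Fin s) R, x.1.1 = F.psi * U + V * G.phiᵀ) ↔
        ∃ U V : Matrix (Fin s) (Fin r) R, x.1.2ᵀ = G.psi * U + V * F.phiᵀ
      constructor
      · rintro ⟨U, V, h⟩
        refine ⟨Uᵀ, Vᵀ, ?_⟩
        rw [← Matrix.transpose_mul, ← Matrix.transpose_transpose G.psi, ← Matrix.transpose_mul,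
          ← Matrix.transpose_add]
        congr 1
        apply kps_cancel hf
        rw [← eb x.1.2, ← hx, h, Matrix.mul_add, ea, Matrix.add_mul, smul_add, Matrix.smul_mul,
          ← Matrix.mul_assoc, eb]
      · rintro ⟨U, V, h⟩
        refine ⟨Uᵀ, Vᵀ, ?_⟩
        have h' : x.1.2 = Uᵀ * G.psiᵀ + F.phi * Vᵀ := by
          have := congrArg Matrix.transpose h
          rw [Matrix.transpose_transpose, Matrix.transpose_add, Matrix.transpose_mul,
            Matrix.transpose_mul, Matrix.transpose_transpose] at this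
          exact this
        apply kps_cancel hf
        rw [← ea' x.1.1, hx, h', Matrix.add_mul, eb', Matrix.mul_add, smul_add, Matrix.mul_smul,
          Matrix.mul_assoc, ea']
  have H2 : Module.length R (HH F.psi F.phi (Cok G.phi)) =
      Module.length R (HH G.psi G.phi (Cok F.phi)) := by
    let P := kpsQ F.psi G.phiᵀ
    let p1 : P →ₗ[R] Matrix (Fin r) (Fin s) R := P.subtype
    let p2 : P →ₗ[R] Matrix (Fin s) (Fin r) R := (kpsT R r s).comp P.subtype
    rw [kps_len F.psi F.phi G.phi P p1 ((kpsN F.phi G.phiᵀ).comap p1) (fun x => x.2)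
      (fun X V h => ⟨⟨X, V, h⟩, rfl⟩) (fun x => Iff.rfl),
      kps_len G.psi G.phi F.phi P p2 ((kpsN F.phi G.phiᵀ).comap p1) ?_ ?_ ?_]
    · rintro ⟨X, V, hV⟩
      refine ⟨Vᵀ, ?_⟩
      show G.psi * Xᵀ = _
      rw [← Matrix.transpose_transpose G.psi, ← Matrix.transpose_mul, ← Matrix.transpose_mul]
      congr 1
      apply kps_cancel hf
      rw [← Matrix.smul_mul, ← ea X, hV, ← Matrix.mul_assoc, eb]
    · intro Y V h
      refine ⟨⟨Yᵀ, Vᵀ, ?_⟩, ?_⟩
      · have h' : Yᵀ * G.psiᵀ = F.phi * Vᵀ := by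
          rw [← Matrix.transpose_mul, h, Matrix.transpose_mul, Matrix.transpose_transpose]
        apply kps_cancel hf
        rw [← Matrix.mul_smul, ← eb' Yᵀ, h', Matrix.mul_assoc, ea']
      · show Yᵀᵀ = Y
        rw [Matrix.transpose_transpose]
    · rintro ⟨X, W, hW⟩
      show (∃ U V : Matrix (Fin r) (Fin s) R, X = F.phi * U + V * G.phiᵀ) ↔
        ∃ U V : Matrix (Fin s) (Fin r) R, Xᵀ = G.phi * U + V * F.phiᵀ
      constructor
      · rintro ⟨U, V, h⟩
        refine ⟨Vᵀ, Uᵀ, ?_⟩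
        rw [h, Matrix.transpose_add, Matrix.transpose_mul, Matrix.transpose_mul,
          Matrix.transpose_transpose, add_comm]
      · rintro ⟨U, V, h⟩
        refine ⟨Vᵀ, Uᵀ, ?_⟩
        have := congrArg Matrix.transpose h
        rw [Matrix.transpose_transpose, Matrix.transpose_add, Matrix.transpose_mul,
          Matrix.transpose_mul, Matrix.transpose_transpose, add_comm] at this
        exact this
  unfold hd
  rw [H1, H2]

end symm

end Pool.Agent.HT51
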