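import Pool.Agent.HT51.SpE
import Pool.Agent.HT21.HypAG

/-!
# Matrix factorisations of a form with isolated singularity

`f` is any polynomial such that powers of the variables lie in the ideal `jacR f` generated by `f`
and its partial derivatives.
-/

universe u

namespace Pool.Agent.HT51

open MvPolynomial Pool.Agent.HT21 IsLocalRing

/-- The ideal generated by `f` and its partial derivatives, over any ring. -/
noncomputable def jacR {T : Type u} [CommRing T] {N : ℕ} (f : MvPolynomial (Fin N) T) :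
    Ideal (MvPolynomial (Fin N) T) :=
  Ideal.span ({f} ∪ Set.range fun i => pderiv i f)

lemma jacR_eq {k : Type u} [Field k] {N : ℕ} (f : MvPolynomial (Fin N) k) :
    jacR f = jacIdeal f := rfl

lemma map_mem_jacR {T T' : Type u} [CommRing T] [CommRing T'] {N : ℕ} (j : T →+* T')
    {f a : MvPolynomial (Fin N) T} (ha : a ∈ jacR f) :
    MvPolynomial.map j a ∈ jacR (MvPolynomial.map j f) := by
  unfold jacR at ha ⊢
  have h1 : Ideal.span ({f} ∪ Set.range fun i => pderiv i f) ≤
      (Ideal.span ({MvPolynomial.map j f} ∪ Set.range fun i => pderiv i (MvPolynomial.map j f))).comap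
        (MvPolynomial.map j) := by
    rw [Ideal.span_le]
    rintro y (hy | ⟨i, rfl⟩)
    · rw [Set.mem_singleton_iff] at hy
      subst hy
      exact Ideal.subset_span (Or.inl rfl)
    · refine Ideal.subset_span (Or.inr ⟨i, ?_⟩)
      exact pderiv_map
  exact h1 ha

lemma map_pow_mem_jacR {T T' : Type u} [CommRing T] [CommRing T'] {N : ℕ} (j : T →+* T')
    {f : MvPolynomial (Fin N) T} {E : ℕ}
    (hE : ∀ i, (X i : MvPolynomial (Fin N) T) ^ E ∈ jacR f) :
    ∀ i, (X i : MvPolynomial (Fin N) T') ^ E ∈ jacR (MvPolynomial.map j f) := by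
  intro i
  have h := map_mem_jacR j (hE i)
  rwa [map_pow, map_X] at h

/-- `f` and its derivatives kill `HH`. -/
theorem kill_j {T : Type u} [CommRing T] {N : ℕ} {f : MvPolynomial (Fin N) T} {r : ℕ}
    (F : MF f r) (W : Type u) [AddCommGroup W] [Module (MvPolynomial (Fin N) T) W]
    (a : MvPolynomial (Fin N) T) (ha : a ∈ jacR f) (z : HH F.phi F.psi W) : a • z = 0 := by
  unfold jacR at ha
  induction ha using Submodule.span_induction with
  | mem y hy =>
    rcases hy with hy | ⟨i, rfl⟩
    · rw [Set.mem_singleton_iff] at hy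
      subst hy
      obtain ⟨⟨w, hw⟩, rfl⟩ := Submodule.Quotient.mk_surjective _ z
      rw [← Submodule.Quotient.mk_smul, Submodule.Quotient.mk_eq_zero]
      change y • w ∈ LinearMap.range (mact F.psi W)
      rw [← SpK.mact_smul_one, ← F.psi_phi, SpK.mact_mul, LinearMap.mem_ker.1 hw, map_zero]
      exact Submodule.zero_mem _
    · obtain ⟨⟨w, hw⟩, rfl⟩ := Submodule.Quotient.mk_surjective _ z
      rw [← Submodule.Quotient.mk_smul, Submodule.Quotient.mk_eq_zero]
      have h2 := SpK.pderiv_smul F W i w (LinearMap.mem_ker.1 hw)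
      change (pderiv i f) • w ∈ LinearMap.range (mact F.psi W)
      rw [h2]
      exact LinearMap.mem_range_self _ _
  | zero => exact zero_smul _ _
  | add x y _ _ hx hy => rw [add_smul, hx, hy, add_zero]
  | smul b y _ hy => rw [smul_assoc, hy, smul_zero]

/-- finiteness over `T` -/
theorem hh_finite_j {T : Type u} [CommRing T] [IsNoetherianRing T] {N : ℕ}
    {f : MvPolynomial (Fin N) T} {E : ℕ} (hE : ∀ i, (X i : MvPolynomial (Fin N) T) ^ E ∈ jacR f)
    {r s : ℕ} (F : MF f r) (G : MF f s) : Module.Finite T (HH F.phi F.psi (Cok G.phi)) :=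
  SpK.finite_of_pow (fun _ => E) _ fun i z => kill_j F _ _ (hE i) z

/-- finite length over a field -/
theorem hh_length_j {k : Type u} [Field k] {N : ℕ} {f : MvPolynomial (Fin N) k} {E : ℕ}
    (hE : ∀ i, (X i : MvPolynomial (Fin N) k) ^ E ∈ jacR f) {r : ℕ} (F : MF f r)
    (W : Type u) [AddCommGroup W] [Module (MvPolynomial (Fin N) k) W]
    [Module.Finite (MvPolynomial (Fin N) k) W] :
    Module.length (MvPolynomial (Fin N) k) (HH F.phi F.psi W) ≠ ⊤ := by
  let _ : Module k (HH F.phi F.psi W) := Module.compHom _ (algebraMap k (MvPolynomial (Fin N) k))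
  have : IsScalarTower k (MvPolynomial (Fin N) k) (HH F.phi F.psi W) := by
    refine ⟨fun t p m => ?_⟩
    change (t • p) • m = (algebraMap k (MvPolynomial (Fin N) k) t) • (p • m)
    rw [Algebra.smul_def, mul_smul]
  have : Module.Finite k (HH F.phi F.psi W) :=
    SpK.finite_of_pow (fun _ => E) _ fun i z => kill_j F W _ (hE i) z
  rw [Module.length_ne_top_iff, isFiniteLength_iff_isNoetherian_isArtinian]
  exact ⟨isNoetherian_of_tower k inferInstance, isArtinian_of_tower k inferInstance⟩

/-- An additive function from a matrix factorisation over `k[X]/(f)`. -/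
theorem herb_mf_j {k : Type u} [Field k] {N : ℕ} {f : MvPolynomial (Fin N) k} {E : ℕ}
    (hE : ∀ i, (X i : MvPolynomial (Fin N) k) ^ E ∈ jacR f) (hf : f ≠ 0) {r : ℕ}
    (F : MF f r) :
    ∃ nu : AddFn (MvPolynomial (Fin N) k ⧸ Ideal.span {f}),
      nu.val (MvPolynomial (Fin N) k ⧸ Ideal.span {f}) = 0 ∧
      ∀ (W : Type u) [AddCommGroup W] [Module (MvPolynomial (Fin N) k ⧸ Ideal.span {f}) W],
      nu.val W = ((Module.length (MvPolynomial (Fin N) k ⧸ Ideal.span {f})
          (HH (F.phi.map (Ideal.Quotient.mk (Ideal.span {f})))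
            (F.psi.map (Ideal.Quotient.mk (Ideal.span {f}))) W)).toNat : ℂ) -
        ((Module.length (MvPolynomial (Fin N) k ⧸ Ideal.span {f})
          (HH (F.psi.map (Ideal.Quotient.mk (Ideal.span {f})))
            (F.phi.map (Ideal.Quotient.mk (Ideal.span {f}))) W)).toNat : ℂ) := by
  set π : MvPolynomial (Fin N) k →+* MvPolynomial (Fin N) k ⧸ Ideal.span {f} :=
    Ideal.Quotient.mk (Ideal.span {f}) with hπ
  have hπs : Function.Surjective π := Ideal.Quotient.mk_surjective
  have hf0 : π f = 0 := Ideal.Quotient.eq_zero_iff_mem.mpr (Ideal.subset_span rfl)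
  have h12 : ∀ (A B : Matrix (Fin r) (Fin r) (MvPolynomial (Fin N) k)),
      A * B = f • (1 : Matrix (Fin r) (Fin r) (MvPolynomial (Fin N) k)) →
      A.map π * B.map π = 0 := by
    intro A B h
    rw [← Matrix.map_mul, h]
    ext a b
    rw [Matrix.map_apply, Matrix.smul_apply, smul_eq_mul, map_mul, hf0, zero_mul]
    rfl
  have hlen : ∀ (F : MF f r) (W : Type u) [AddCommGroup W]
      [Module (MvPolynomial (Fin N) k ⧸ Ideal.span {f}) W]
      [Module.Finite (MvPolynomial (Fin N) k ⧸ Ideal.span {f}) W],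
      Module.length (MvPolynomial (Fin N) k ⧸ Ideal.span {f})
        (HH (F.phi.map π) (F.psi.map π) W) ≠ ⊤ := by
    intro F W _ _ _
    rw [← HH_length_res π hπs F.phi F.psi W]
    have hfin : Module.Finite (MvPolynomial (Fin N) k) (Res π W) :=
      res_finite π (RingHom.Finite.of_surjective _ hπs)
    exact hh_length_j hE F (Res π W)
  obtain ⟨nu, hnu⟩ := herb (F.phi.map π) (F.psi.map π) (h12 _ _ F.phi_psi) (h12 _ _ F.psi_phi)
    (fun W _ _ _ => ⟨hlen F W, hlen F.swap W⟩)
  refine ⟨nu, ?_, hnu⟩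
  rw [hnu]
  have s1 := HH_self hf F
  have s2 := HH_self hf F.swap
  have e1 : Module.length (MvPolynomial (Fin N) k ⧸ Ideal.span {f})
      (HH (F.phi.map π) (F.psi.map π) (MvPolynomial (Fin N) k ⧸ Ideal.span {f})) = 0 :=
    Module.length_eq_zero
  have e2 : Module.length (MvPolynomial (Fin N) k ⧸ Ideal.span {f})
      (HH (F.psi.map π) (F.phi.map π) (MvPolynomial (Fin N) k ⧸ Ideal.span {f})) = 0 :=
    Module.length_eq_zero_iff.mpr s2
  rw [e1, e2, sub_self]

/-- `hd = 0` if every additive function on the hypersurface ring which vanishes on the ring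
vanishes. -/
theorem hd_finite_j {k : Type u} [Field k] {N : ℕ} {f : MvPolynomial (Fin N) k} {E : ℕ}
    (hE : ∀ i, (X i : MvPolynomial (Fin N) k) ^ E ∈ jacR f) (hf : f ≠ 0)
    (hz : ZeroProp (MvPolynomial (Fin N) k ⧸ Ideal.span {f})) {r s : ℕ} (F : MF f r)
    (G : MF f s) : hd F G = 0 := by
  obtain ⟨nu, h0, hnu⟩ := herb_mf_j hE hf F
  have h1 := hz nu h0 (Cok (G.phi.map (Ideal.Quotient.mk (Ideal.span {f}))))
  rw [hnu] at h1
  rw [hd_eq_quot]
  have h2 := sub_eq_zero.mp h1
  have h3 := Nat.cast_injective (R := ℂ) h2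
  rw [h3, sub_self]

end Pool.Agent.HT51
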