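import Pool.Agent.HT51.KpA
import Pool.Agent.HT51.KpC
import Pool.Agent.HT51.KpD
import Pool.Agent.HT51.KpS
import Pool.Agent.HT51.SpJK

/-!
# Knörrer periodicity: the step
-/

universe u

namespace Pool.Agent.HT51

open Pool.Agent.HT21 TensorProduct

/-- An additive function from a matrix factorisation. -/
theorem herb_gen {R : Type u} [CommRing R] [IsDomain R] [IsNoetherianRing R] {f : R} (hf : f ≠ 0)
    (hlen : ∀ (r : ℕ) (F : MF f r) (W : Type u) [AddCommGroup W] [Module (R ⧸ Ideal.span {f}) W]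
      [Module.Finite (R ⧸ Ideal.span {f}) W],
      Module.length (R ⧸ Ideal.span {f}) (HH (F.phi.map (Ideal.Quotient.mk (Ideal.span {f})))
        (F.psi.map (Ideal.Quotient.mk (Ideal.span {f}))) W) ≠ ⊤) {r : ℕ} (F : MF f r) :
    ∃ nu : AddFn (R ⧸ Ideal.span {f}), nu.val (R ⧸ Ideal.span {f}) = 0 ∧
      ∀ (W : Type u) [AddCommGroup W] [Module (R ⧸ Ideal.span {f}) W],
      nu.val W = ((Module.length (R ⧸ Ideal.span {f})
          (HH (F.phi.map (Ideal.Quotient.mk (Ideal.span {f})))
            (F.psi.map (Ideal.Quotient.mk (Ideal.span {f}))) W)).toNat : ℂ) -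
        ((Module.length (R ⧸ Ideal.span {f})
          (HH (F.psi.map (Ideal.Quotient.mk (Ideal.span {f})))
            (F.phi.map (Ideal.Quotient.mk (Ideal.span {f}))) W)).toNat : ℂ) := by
  set π : R →+* R ⧸ Ideal.span {f} := Ideal.Quotient.mk (Ideal.span {f}) with hπ
  have hf0 : π f = 0 := Ideal.Quotient.eq_zero_iff_mem.mpr (Ideal.subset_span rfl)
  have h12 : ∀ (A B : Matrix (Fin r) (Fin r) R),
      A * B = f • (1 : Matrix (Fin r) (Fin r) R) → A.map π * B.map π = 0 := by
    intro A B h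
    rw [← Matrix.map_mul, h]
    ext a b
    rw [Matrix.map_apply, Matrix.smul_apply, smul_eq_mul, map_mul, hf0, zero_mul]
    rfl
  obtain ⟨nu, hnu⟩ := herb (F.phi.map π) (F.psi.map π) (h12 _ _ F.phi_psi) (h12 _ _ F.psi_phi)
    (fun W _ _ _ => ⟨hlen r F W, hlen r F.swap W⟩)
  refine ⟨nu, ?_, hnu⟩
  rw [hnu]
  have s1 := HH_self hf F
  have s2 := HH_self hf F.swap
  have e1 : Module.length (R ⧸ Ideal.span {f})
      (HH (F.phi.map π) (F.psi.map π) (R ⧸ Ideal.span {f})) = 0 :=
    Module.length_eq_zero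
  have e2 : Module.length (R ⧸ Ideal.span {f})
      (HH (F.psi.map π) (F.phi.map π) (R ⧸ Ideal.span {f})) = 0 :=
    Module.length_eq_zero_iff.mpr s2
  rw [e1, e2, sub_self]

lemma kpE_surjective {T : Type u} [CommRing T] (g : T) : Function.Surjective (kpE g) := by
  intro y
  induction y using Polynomial.induction_on' with
  | add p q hp hq =>
    obtain ⟨a, rfl⟩ := hp
    obtain ⟨b, rfl⟩ := hq
    exact ⟨a + b, map_add _ _ _⟩
  | monomial n a =>
    obtain ⟨a, rfl⟩ := Ideal.Quotient.mk_surjective a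
    refine ⟨Ideal.Quotient.mk _ (Polynomial.C (Polynomial.C a) * Polynomial.X ^ n), ?_⟩
    rw [kpE_mk, map_mul, map_pow, kpE0_C, kpE0_X, Polynomial.eval_C, Polynomial.C_mul_X_pow_eq_monomial]

lemma kpE_finite {T : Type u} [CommRing T] (g : T) : (kpE g).Finite :=
  RingHom.Finite.of_surjective _ (kpE_surjective g)

lemma kpW_ne_zero {T : Type u} [CommRing T] [Nontrivial T] (g : T) : kpW g ≠ 0 := by
  intro h
  have h1 := congrArg (fun p => (Polynomial.coeff p 1).coeff 1) h
  unfold kpW at h1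
  simp [Polynomial.coeff_C] at h1

theorem MuZero.of_addFn {R : Type u} [CommRing R] [IsDomain R] [IsNoetherianRing R] {f : R}
    (hf : f ≠ 0)
    (hlen : ∀ (r : ℕ) (F : MF f r) (W : Type u) [AddCommGroup W] [Module (R ⧸ Ideal.span {f}) W]
      [Module.Finite (R ⧸ Ideal.span {f}) W],
      Module.length (R ⧸ Ideal.span {f}) (HH (F.phi.map (Ideal.Quotient.mk (Ideal.span {f})))
        (F.psi.map (Ideal.Quotient.mk (Ideal.span {f}))) W) ≠ ⊤)
    (h : ∀ (r : ℕ) (F : MF f r) (nu : AddFn (R ⧸ Ideal.span {f})),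
      nu.val (R ⧸ Ideal.span {f}) = 0 →
      (∀ (W : Type u) [AddCommGroup W] [Module (R ⧸ Ideal.span {f}) W],
        nu.val W = ((Module.length (R ⧸ Ideal.span {f})
          (HH (F.phi.map (Ideal.Quotient.mk (Ideal.span {f})))
            (F.psi.map (Ideal.Quotient.mk (Ideal.span {f}))) W)).toNat : ℂ) -
        ((Module.length (R ⧸ Ideal.span {f})
          (HH (F.psi.map (Ideal.Quotient.mk (Ideal.span {f})))
            (F.phi.map (Ideal.Quotient.mk (Ideal.span {f}))) W)).toNat : ℂ)) →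
      ∀ (W : Type u) [AddCommGroup W] [Module (R ⧸ Ideal.span {f}) W]
        [Module.Finite (R ⧸ Ideal.span {f}) W], nu.val W = 0) : MuZero f := by
  intro r F W _ _ _
  obtain ⟨nu, h0, hnu⟩ := herb_gen hf hlen F
  have h1 := h r F nu h0 hnu W
  rw [hnu] at h1
  exact Nat.cast_injective (R := ℂ) (sub_eq_zero.mp h1)

theorem MuZero.hd_eq {R : Type u} [CommRing R] {f : R} (h : MuZero f) {r s : ℕ}
    (F : MF f r) (G : MF f s) : hd F G = 0 := by
  rw [hd_eq_quot, h r F, sub_self]

/-- The step. -/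
theorem kp_step {T : Type u} [CommRing T] [IsDomain T] [IsNoetherianRing T] (hT : ZeroProp T)
    (g : T) (hg : g ≠ 0)
    (hgen : ∀ nu : AddFn (T ⧸ Ideal.span {g}), nu.val (T ⧸ Ideal.span {g}) = 0 →
      (∀ (r : ℕ) (F : MF g r), nu.val (Cok (F.phi.map (Ideal.Quotient.mk (Ideal.span {g})))) = 0) →
      ∀ (W : Type u) [AddCommGroup W] [Module (T ⧸ Ideal.span {g}) W]
        [Module.Finite (T ⧸ Ideal.span {g}) W], nu.val W = 0)
    (hlen : ∀ (r : ℕ) (F : MF (kpW g) r) (W : Type u) [AddCommGroup W] [Module (KpB g) W]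
      [Module.Finite (KpB g) W],
      Module.length (KpB g) (HH (F.phi.map (Ideal.Quotient.mk (Ideal.span {kpW g})))
        (F.psi.map (Ideal.Quotient.mk (Ideal.span {kpW g}))) W) ≠ ⊤)
    (h : MuZero g) : MuZero (kpW g) := by
  classical
  have hW := kpW_ne_zero g
  -- Knörrer's factorisations
  have hkn : ∀ (s : ℕ) (G : MF g s) (W : Type u) [AddCommGroup W] [Module (KpB g) W]
      [Module.Finite (KpB g) W],
      (Module.length (KpB g) (HH ((kn G).phi.map (Ideal.Quotient.mk (Ideal.span {kpW g})))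
        ((kn G).psi.map (Ideal.Quotient.mk (Ideal.span {kpW g}))) W)).toNat =
      (Module.length (KpB g) (HH ((kn G).psi.map (Ideal.Quotient.mk (Ideal.span {kpW g})))
        ((kn G).phi.map (Ideal.Quotient.mk (Ideal.span {kpW g}))) W)).toNat := by
    intro s G W _ _ _
    obtain ⟨nu, h0, hnu⟩ := herb_gen hW hlen (kn G)
    have h1 : nu.val W = 0 := by
      refine kp_reduce hT g nu h0 ?_ W
      intro N _ _ _
      obtain ⟨e1, e2⟩ := kn_len_tensor G N
      rw [hnu, e1, e2, h s G N, sub_self]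
    rw [hnu] at h1
    exact Nat.cast_injective (R := ℂ) (sub_eq_zero.mp h1)
  refine MuZero.of_addFn hW hlen ?_
  intro r F nu h0 hnu
  -- the modules `N[Y]`, `N` the cokernel of a matrix factorisation
  have hcok : ∀ (s : ℕ) (G : MF g s),
      nu.val (Res (kpE g) (Polynomial (T ⧸ Ideal.span {g}) ⊗[T ⧸ Ideal.span {g}]
        (Cok (G.phi.map (Ideal.Quotient.mk (Ideal.span {g})))))) = 0 := by
    intro s G
    have h1 := kn_ses hg G nu h0
    have h2 : nu.val (Cok ((kn G).psi.map (Ideal.Quotient.mk (Ideal.span {kpW g})))) = 0 := by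
      rw [hnu]
      have h3 : hd F (kn G).swap = 0 := by
        rw [hd_symm hW, hd_eq_quot]
        have h4 := hkn s G (Cok (F.phi.map (Ideal.Quotient.mk (Ideal.span {kpW g}))))
        show ((Module.length (KpB g) (HH ((kn G).psi.map (Ideal.Quotient.mk (Ideal.span {kpW g})))
          ((kn G).phi.map (Ideal.Quotient.mk (Ideal.span {kpW g})))
          (Cok (F.phi.map (Ideal.Quotient.mk (Ideal.span {kpW g})))))).toNat : ℤ) -
          ((Module.length (KpB g) (HH ((kn G).phi.map (Ideal.Quotient.mk (Ideal.span {kpW g})))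
          ((kn G).psi.map (Ideal.Quotient.mk (Ideal.span {kpW g})))
          (Cok (F.phi.map (Ideal.Quotient.mk (Ideal.span {kpW g})))))).toNat : ℤ) = 0
        rw [h4, sub_self]
      rw [hd_eq_quot] at h3
      have h5 := sub_eq_zero.mp h3
      have h6 : (Module.length (KpB g) (HH (F.phi.map (Ideal.Quotient.mk (Ideal.span {kpW g})))
          (F.psi.map (Ideal.Quotient.mk (Ideal.span {kpW g})))
          (Cok ((kn G).psi.map (Ideal.Quotient.mk (Ideal.span {kpW g})))))).toNat =
          (Module.length (KpB g) (HH (F.psi.map (Ideal.Quotient.mk (Ideal.span {kpW g})))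
          (F.phi.map (Ideal.Quotient.mk (Ideal.span {kpW g})))
          (Cok ((kn G).psi.map (Ideal.Quotient.mk (Ideal.span {kpW g})))))).toNat := by
        exact_mod_cast h5
      rw [h6, sub_self]
    rw [h2, add_zero] at h1
    exact h1
  -- the additive function `N ↦ nu (N[Y])`
  let nu1 : AddFn (T ⧸ Ideal.span {g}) := (nu.res (kpE g) (kpE_finite g)).base
  have hval : ∀ (N : Type u) [AddCommGroup N] [Module (T ⧸ Ideal.span {g}) N],
      nu1.val N = nu.val (Res (kpE g) (Polynomial (T ⧸ Ideal.span {g}) ⊗[T ⧸ Ideal.span {g}] N)) :=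
    fun N _ _ => rfl
  -- the trivial matrix factorisation
  let G0 : MF g 1 := ⟨g • 1, 1, by rw [mul_one], by rw [one_mul]⟩
  have hG0 : Nonempty (Cok (G0.phi.map (Ideal.Quotient.mk (Ideal.span {g}))) ≃ₗ[T ⧸ Ideal.span {g}]
      (T ⧸ Ideal.span {g})) := by
    have h1 : G0.phi.map (Ideal.Quotient.mk (Ideal.span {g})) = 0 := by
      ext a b
      rw [Matrix.map_apply]
      show Ideal.Quotient.mk (Ideal.span {g}) (g • (1 : Matrix (Fin 1) (Fin 1) T) a b) = 0
      rw [smul_eq_mul, map_mul, Ideal.Quotient.eq_zero_iff_mem.mpr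
        (Ideal.mem_span_singleton_self g), zero_mul]
    have h2 : LinearMap.range (G0.phi.map (Ideal.Quotient.mk (Ideal.span {g}))).mulVecLin = ⊥ := by
      rw [h1, Matrix.mulVecLin_zero, LinearMap.range_zero]
    exact ⟨(Submodule.quotEquivOfEqBot _ h2).trans (LinearEquiv.funUnique (Fin 1) _ _)⟩
  have h10 : nu1.val (T ⧸ Ideal.span {g}) = 0 := by
    obtain ⟨e⟩ := hG0
    rw [← nu1.val_congr e, hval]
    exact hcok 1 G0
  intro W _ _ _
  refine kp_reduce hT g nu h0 ?_ W
  intro N _ _ _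
  exact hgen nu1 h10 (fun s G => hcok s G) N

end Pool.Agent.HT51
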