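import Pool.Agent.HT51.KpDefs

/-!
# Knörrer periodicity: the polynomial ring in two more variables
-/

universe u

namespace Pool.Agent.HT51

open Pool.Agent.HT21 TensorProduct MvPolynomial

/-- `g + X Y + ...`: `k` hyperbolic planes, the newest variables are `X 0`, `X 1`. -/
noncomputable def susp (κ : Type u) [Field κ] (g : MvPolynomial (Fin 3) κ) :
    (k : ℕ) → MvPolynomial (Fin (3 + 2 * k)) κ
  | 0 => g
  | k + 1 => (X 0 * X 1 + rename (fun i : Fin (3 + 2 * k) => i.succ.succ) (susp κ g k) :
      MvPolynomial (Fin ((3 + 2 * k) + 1 + 1)) κ)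

/-- `finSuccEquiv` on polynomials without the first variable. -/
lemma finSuccEquiv_rename_succ' (κ : Type u) [CommRing κ] {n : ℕ} (f : MvPolynomial (Fin n) κ) :
    finSuccEquiv κ n (rename Fin.succ f) = Polynomial.C f := by
  induction f using MvPolynomial.induction_on with
  | C a =>
    rw [rename_C, finSuccEquiv_apply, coe_eval₂Hom, eval₂_C]
    rfl
  | add p q hp hq => rw [map_add, map_add, hp, hq, map_add]
  | mul_X p i hp => rw [map_mul, map_mul, hp, rename_X, finSuccEquiv_X_succ, map_mul]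

/-- (KPI1) the isomorphism `κ[X_0, X_1, ...] = κ[X_2, ...][X][Y]`. -/
theorem exists_kp_equiv (κ : Type u) [Field κ] {n : ℕ} (f : MvPolynomial (Fin n) κ) :
    ∃ e : Polynomial (Polynomial (MvPolynomial (Fin n) κ)) ≃+* MvPolynomial (Fin (n + 1 + 1)) κ,
      e (kpW f) = X 0 * X 1 + rename (fun i : Fin n => i.succ.succ) f := by
  let e1 : Polynomial (Polynomial (MvPolynomial (Fin n) κ)) ≃+*
      Polynomial (MvPolynomial (Fin (n + 1)) κ) :=
    Polynomial.mapEquiv (finSuccEquiv κ n).toRingEquiv.symm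
  let e2 : Polynomial (MvPolynomial (Fin (n + 1)) κ) ≃+* MvPolynomial (Fin (n + 1 + 1)) κ :=
    (finSuccEquiv κ (n + 1)).toRingEquiv.symm
  have h1C : ∀ p, e1 (Polynomial.C p) = Polynomial.C ((finSuccEquiv κ n).symm p) := by
    intro p
    show Polynomial.map _ (Polynomial.C p) = _
    rw [Polynomial.map_C]
    rfl
  have h1X : e1 Polynomial.X = Polynomial.X := by
    show Polynomial.map _ Polynomial.X = _
    rw [Polynomial.map_X]
  have hs0 : ∀ m : ℕ, (finSuccEquiv κ m).symm Polynomial.X = X 0 := by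
    intro m
    rw [AlgEquiv.symm_apply_eq, finSuccEquiv_X_zero]
  have hsC : ∀ (m : ℕ) (p : MvPolynomial (Fin m) κ),
      (finSuccEquiv κ m).symm (Polynomial.C p) = rename Fin.succ p := by
    intro m p
    rw [AlgEquiv.symm_apply_eq, finSuccEquiv_rename_succ']
  have h2 : ∀ p, e2 p = (finSuccEquiv κ (n + 1)).symm p := fun p => rfl
  refine ⟨e1.trans e2, ?_⟩
  rw [RingEquiv.trans_apply]
  unfold kpW
  rw [map_add, map_mul, h1C, h1C, h1X, hs0, hsC, map_add, map_mul, h2, h2, h2, hs0, hsC, hsC,
    rename_X, rename_rename, mul_comm (X (Fin.succ 0))]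
  rfl

/-- (KPI2) -/
theorem jac_kp (κ : Type u) [Field κ] {n : ℕ} (f : MvPolynomial (Fin n) κ) {E : ℕ} (hE0 : 0 < E)
    (hE : ∀ i, (X i : MvPolynomial (Fin n) κ) ^ E ∈ jacR f) (i : Fin (n + 1 + 1)) :
    (X i : MvPolynomial (Fin (n + 1 + 1)) κ) ^ E ∈
      jacR (X 0 * X 1 + rename (fun i : Fin n => i.succ.succ) f) := by
  have hinj : Function.Injective (fun i : Fin n => i.succ.succ) := fun a b h =>
    Fin.succ_injective _ (Fin.succ_injective _ h)
  set F : MvPolynomial (Fin (n + 1 + 1)) κ := X 0 * X 1 + rename (fun i : Fin n => i.succ.succ) f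
    with hF
  have hne01 : (0 : Fin (n + 1 + 1)) ≠ 1 := by
    intro h
    have := congrArg Fin.val h
    simp at this
  have hd0 : pderiv 0 F = X 1 := by
    rw [hF, map_add, Derivation.leibniz, pderiv_X_self, pderiv_X_of_ne hne01.symm, smul_zero,
      zero_add, smul_eq_mul, mul_one]
    have : pderiv (0 : Fin (n + 1 + 1)) (rename (fun i : Fin n => i.succ.succ) f) = 0 := by
      refine pderiv_eq_zero_of_notMem_vars ?_
      intro h
      have := vars_rename (fun i : Fin n => i.succ.succ) f h
      rw [Finset.mem_image] at this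
      obtain ⟨a, _, ha⟩ := this
      exact Fin.succ_ne_zero _ ha
    rw [this, add_zero]
  have hd1 : pderiv 1 F = X 0 := by
    rw [hF, map_add, Derivation.leibniz, pderiv_X_self, pderiv_X_of_ne hne01, smul_zero,
      add_zero, smul_eq_mul, mul_one]
    have : pderiv (1 : Fin (n + 1 + 1)) (rename (fun i : Fin n => i.succ.succ) f) = 0 := by
      refine pderiv_eq_zero_of_notMem_vars ?_
      intro h
      have := vars_rename (fun i : Fin n => i.succ.succ) f h
      rw [Finset.mem_image] at this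
      obtain ⟨a, _, ha⟩ := this
      have h2 := congrArg Fin.val ha
      simp at h2
    rw [this, add_zero]
  have hd2 : ∀ j : Fin n, pderiv j.succ.succ F = rename (fun i : Fin n => i.succ.succ) (pderiv j f) := by
    intro j
    have h0 : (0 : Fin (n + 1 + 1)) ≠ j.succ.succ := (Fin.succ_ne_zero _).symm
    have h1 : (1 : Fin (n + 1 + 1)) ≠ j.succ.succ := by
      intro h
      have h2 := congrArg Fin.val h
      simp at h2
    rw [hF, map_add, Derivation.leibniz, pderiv_X_of_ne h0, pderiv_X_of_ne h1, smul_zero,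
      smul_zero, add_zero, zero_add, pderiv_rename hinj]
  have hX0 : (X 0 : MvPolynomial (Fin (n + 1 + 1)) κ) ∈ jacR F := by
    rw [← hd1]
    exact Ideal.subset_span (Or.inr ⟨1, rfl⟩)
  have hX1 : (X 1 : MvPolynomial (Fin (n + 1 + 1)) κ) ∈ jacR F := by
    rw [← hd0]
    exact Ideal.subset_span (Or.inr ⟨0, rfl⟩)
  have hFm : F ∈ jacR F := Ideal.subset_span (Or.inl rfl)
  have hfm : rename (fun i : Fin n => i.succ.succ) f ∈ jacR F := by
    have h1 : rename (fun i : Fin n => i.succ.succ) f = F - X 0 * X 1 := by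
      rw [hF, add_sub_cancel_left]
    rw [h1]
    exact Ideal.sub_mem _ hFm (Ideal.mul_mem_left _ _ hX1)
  have hsub : ∀ p ∈ jacR f, rename (fun i : Fin n => i.succ.succ) p ∈ jacR F := by
    intro p hp
    have h1 : jacR f ≤ (jacR F).comap (rename (fun i : Fin n => i.succ.succ) :
        MvPolynomial (Fin n) κ →ₐ[κ] MvPolynomial (Fin (n + 1 + 1)) κ) := by
      unfold jacR
      rw [Ideal.span_le]
      rintro y (hy | ⟨j, rfl⟩)
      · rw [Set.mem_singleton_iff] at hy
        subst hy
        exact hfm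
      · show rename (fun i : Fin n => i.succ.succ) (pderiv j f) ∈
          Ideal.span ({F} ∪ Set.range fun i => pderiv i F)
        rw [← hd2 j]
        exact Ideal.subset_span (Or.inr ⟨j.succ.succ, rfl⟩)
    exact h1 hp
  refine Fin.cases ?_ (fun i => Fin.cases ?_ (fun j => ?_) i) i
  · exact Ideal.pow_mem_of_mem _ hX0 E hE0
  · exact Ideal.pow_mem_of_mem _ hX1 E hE0
  · have := hsub _ (hE j)
    rw [map_pow, rename_X] at this
    exact this

end Pool.Agent.HT51
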