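import Mathlib

/-!
# Length of the cokernel of a square matrix over a one-dimensional domain (helper55)
-/

universe u

namespace Pool.Agent.HT51

namespace KpL

/-- Length of the cokernel. -/
noncomputable def ckl {D : Type u} [CommRing D] {M : Type u} [AddCommGroup M] [Module D M]
    (f : M →ₗ[D] M) : ℕ∞ :=
  Module.length D (M ⧸ LinearMap.range f)

section General

variable {D : Type u} [CommRing D]

lemma ckl_comp {M : Type u} [AddCommGroup M] [Module D M] (g f : M →ₗ[D] M)
    (hg : Function.Injective g) : ckl (g.comp f) = ckl f + ckl g := by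
  have h1 : LinearMap.range f ≤ (LinearMap.range (g.comp f)).comap g := by
    rintro _ ⟨x, rfl⟩
    exact ⟨x, rfl⟩
  have h2 : LinearMap.range (g.comp f) ≤ (LinearMap.range g).comap LinearMap.id := by
    rintro _ ⟨x, rfl⟩
    exact ⟨f x, rfl⟩
  refine Module.length_eq_add_of_exact (R := D)
    (Submodule.mapQ (LinearMap.range f) (LinearMap.range (g.comp f)) g h1)
    (Submodule.mapQ (LinearMap.range (g.comp f)) (LinearMap.range g) LinearMap.id h2) ?_ ?_ ?_
  · rw [injective_iff_map_eq_zero]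
    intro q hq
    obtain ⟨x, rfl⟩ := Submodule.Quotient.mk_surjective _ q
    rw [Submodule.mapQ_apply, Submodule.Quotient.mk_eq_zero] at hq
    obtain ⟨y, hy⟩ := hq
    rw [Submodule.Quotient.mk_eq_zero]
    exact ⟨y, hg hy⟩
  · intro q
    obtain ⟨x, rfl⟩ := Submodule.Quotient.mk_surjective _ q
    exact ⟨Submodule.Quotient.mk x, rfl⟩
  · intro q
    constructor
    · intro hq
      obtain ⟨x, rfl⟩ := Submodule.Quotient.mk_surjective _ q
      rw [Submodule.mapQ_apply, Submodule.Quotient.mk_eq_zero] at hq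
      obtain ⟨y, hy⟩ := hq
      exact ⟨Submodule.Quotient.mk y, by rw [Submodule.mapQ_apply, hy]; rfl⟩
    · rintro ⟨p, rfl⟩
      obtain ⟨x, rfl⟩ := Submodule.Quotient.mk_surjective _ p
      rw [Submodule.mapQ_apply, Submodule.mapQ_apply, Submodule.Quotient.mk_eq_zero]
      exact ⟨x, rfl⟩

lemma ckl_block {M N K : Type u} [AddCommGroup M] [Module D M] [AddCommGroup N] [Module D N]
    [AddCommGroup K] [Module D K] (i : K →ₗ[D] M) (p : M →ₗ[D] N) (hi : Function.Injective i)
    (hp : Function.Surjective p) (hpi : ∀ m, p m = 0 ↔ ∃ k, i k = m)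
    (f : M →ₗ[D] M) (fK : K →ₗ[D] K) (fN : N →ₗ[D] N)
    (hK : ∀ k, f (i k) = i (fK k)) (hN : ∀ m, p (f m) = fN (p m)) (hinj : Function.Injective fN) :
    ckl f = ckl fK + ckl fN := by
  have h1 : LinearMap.range fK ≤ (LinearMap.range f).comap i := by
    rintro _ ⟨x, rfl⟩
    exact ⟨i x, hK x⟩
  have h2 : LinearMap.range f ≤ (LinearMap.range fN).comap p := by
    rintro _ ⟨x, rfl⟩
    exact ⟨p x, (hN x).symm⟩
  refine Module.length_eq_add_of_exact (R := D)
    (Submodule.mapQ (LinearMap.range fK) (LinearMap.range f) i h1)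
    (Submodule.mapQ (LinearMap.range f) (LinearMap.range fN) p h2) ?_ ?_ ?_
  · rw [injective_iff_map_eq_zero]
    intro q hq
    obtain ⟨x, rfl⟩ := Submodule.Quotient.mk_surjective _ q
    rw [Submodule.mapQ_apply, Submodule.Quotient.mk_eq_zero] at hq
    obtain ⟨y, hy⟩ := hq
    have h3 : fN (p y) = 0 := by
      rw [← hN, hy]
      exact (hpi _).mpr ⟨x, rfl⟩
    have h4 : p y = 0 := hinj (by rw [h3, map_zero])
    obtain ⟨k, rfl⟩ := (hpi _).mp h4
    rw [Submodule.Quotient.mk_eq_zero]
    exact ⟨k, hi (by rw [← hK, hy])⟩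
  · intro q
    obtain ⟨x, rfl⟩ := Submodule.Quotient.mk_surjective _ q
    obtain ⟨m, rfl⟩ := hp x
    exact ⟨Submodule.Quotient.mk m, rfl⟩
  · intro q
    constructor
    · intro hq
      obtain ⟨x, rfl⟩ := Submodule.Quotient.mk_surjective _ q
      rw [Submodule.mapQ_apply, Submodule.Quotient.mk_eq_zero] at hq
      obtain ⟨y, hy⟩ := hq
      obtain ⟨m, rfl⟩ := hp y
      have h3 : p (x - f m) = 0 := by rw [map_sub, hN, hy, sub_self]
      obtain ⟨k, hk⟩ := (hpi _).mp h3
      refine ⟨Submodule.Quotient.mk k, ?_⟩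
      rw [Submodule.mapQ_apply, hk, Submodule.Quotient.eq]
      exact ⟨-m, by rw [map_neg]; abel⟩
    · rintro ⟨r, rfl⟩
      obtain ⟨x, rfl⟩ := Submodule.Quotient.mk_surjective _ r
      rw [Submodule.mapQ_apply, Submodule.mapQ_apply, (hpi _).mpr ⟨x, rfl⟩]
      rfl

lemma ckl_of_surjective {M : Type u} [AddCommGroup M] [Module D M] (f : M →ₗ[D] M)
    (hf : Function.Surjective f) : ckl f = 0 := by
  unfold ckl
  rw [Module.length_eq_zero_iff, Submodule.Quotient.subsingleton_iff]
  exact LinearMap.range_eq_top.mpr hf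

lemma ckl_mul (a : D) : ckl (a • (LinearMap.id : D →ₗ[D] D)) = Ring.ord D a := by
  unfold ckl Ring.ord
  have h : LinearMap.range (a • (LinearMap.id : D →ₗ[D] D)) = Ideal.span {a} := by
    ext x
    rw [Ideal.mem_span_singleton']
    constructor
    · rintro ⟨y, rfl⟩
      exact ⟨y, by simp [mul_comm]⟩
    · rintro ⟨y, rfl⟩
      exact ⟨y, by simp [mul_comm]⟩
  rw [h]

end General

section Mat

set_option linter.unusedSectionVars false

variable {D : Type u} [CommRing D] [IsDomain D]

/-- Length of the cokernel of a matrix. -/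
noncomputable def cl {n : ℕ} (A : Matrix (Fin n) (Fin n) D) : ℕ∞ := ckl A.mulVecLin

lemma inj_of_det {n : ℕ} {A : Matrix (Fin n) (Fin n) D} (hA : A.det ≠ 0) :
    Function.Injective A.mulVecLin := by
  rw [injective_iff_map_eq_zero]
  intro v hv
  exact Matrix.eq_zero_of_mulVec_eq_zero hA hv

lemma cl_mul {n : ℕ} (A B : Matrix (Fin n) (Fin n) D) (hA : A.det ≠ 0) :
    cl (A * B) = cl B + cl A := by
  unfold cl
  rw [Matrix.mulVecLin_mul]
  exact ckl_comp _ _ (inj_of_det hA)

lemma cl_unit {n : ℕ} (A : Matrix (Fin n) (Fin n) D) (hA : IsUnit A.det) : cl A = 0 := by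
  refine ckl_of_surjective _ fun v => ?_
  refine ⟨A⁻¹.mulVec v, ?_⟩
  rw [Matrix.mulVecLin_apply, Matrix.mulVec_mulVec, Matrix.mul_nonsing_inv A hA, Matrix.one_mulVec]

/-- Embedding of the first coordinate. -/
def i0 (D : Type u) [CommRing D] (n : ℕ) : D →ₗ[D] (Fin (n + 1) → D) where
  toFun x := Fin.cons x 0
  map_add' x y := by
    ext j
    refine Fin.cases ?_ (fun j => ?_) j <;> simp
  map_smul' a x := by
    ext j
    refine Fin.cases ?_ (fun j => ?_) j <;> simp

/-- Projection to the last coordinates. -/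
def p0 (D : Type u) [CommRing D] (n : ℕ) : (Fin (n + 1) → D) →ₗ[D] (Fin n → D) where
  toFun v := fun j => v j.succ
  map_add' _ _ := rfl
  map_smul' _ _ := rfl

/-- Embedding of the last coordinates. -/
def i1 (D : Type u) [CommRing D] (n : ℕ) : (Fin n → D) →ₗ[D] (Fin (n + 1) → D) where
  toFun x := Fin.cons 0 x
  map_add' x y := by
    ext j
    refine Fin.cases ?_ (fun j => ?_) j <;> simp
  map_smul' a x := by
    ext j
    refine Fin.cases ?_ (fun j => ?_) j <;> simp

/-- Upper triangular blocks. -/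
lemma cl_upper {n : ℕ} (A : Matrix (Fin (n + 1)) (Fin (n + 1)) D)
    (h0 : ∀ i : Fin n, A i.succ 0 = 0) (hd : (A.submatrix Fin.succ Fin.succ).det ≠ 0) :
    cl A = Ring.ord D (A 0 0) + cl (A.submatrix Fin.succ Fin.succ) := by
  rw [← ckl_mul]
  refine ckl_block (i0 D n) (p0 D n) ?_ ?_ ?_ _ _ _ ?_ ?_ (inj_of_det hd)
  · intro x y hxy
    have := congrFun hxy 0
    simpa [i0] using this
  · intro x
    exact ⟨Fin.cons 0 x, by ext j; simp [p0]⟩
  · intro m
    constructor
    · intro h
      refine ⟨m 0, ?_⟩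
      ext j
      refine Fin.cases ?_ (fun j => ?_) j
      · simp [i0]
      · have := congrFun h j
        simp only [p0, LinearMap.coe_mk, AddHom.coe_mk, Pi.zero_apply] at this
        simp [i0, this]
    · rintro ⟨k, rfl⟩
      ext j
      simp [p0, i0]
  · intro k
    ext j
    refine Fin.cases ?_ (fun j => ?_) j
    · simp [i0, Matrix.mulVec, dotProduct, Fin.sum_univ_succ]
    · simp [i0, Matrix.mulVec, dotProduct, Fin.sum_univ_succ, h0]
  · intro m
    ext j
    simp [p0, Matrix.mulVec, dotProduct, Fin.sum_univ_succ, h0]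

/-- Lower triangular with a `1` and a scalar block. -/
lemma cl_lower {n : ℕ} (A : Matrix (Fin (n + 1)) (Fin (n + 1)) D) (h00 : A 0 0 = 1)
    (h0 : ∀ i : Fin n, A 0 i.succ = 0) :
    cl A = cl (A.submatrix Fin.succ Fin.succ) := by
  have h := ckl_block (i1 D n) (LinearMap.proj (R := D) (φ := fun _ : Fin (n + 1) => D) 0)
    (f := A.mulVecLin) (fK := (A.submatrix Fin.succ Fin.succ).mulVecLin)
    (fN := (LinearMap.id : D →ₗ[D] D)) ?_ ?_ ?_ ?_ ?_ (fun x y h => h)
  · unfold cl
    rw [h, ckl_of_surjective (LinearMap.id : D →ₗ[D] D) (fun x => ⟨x, rfl⟩), add_zero]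
  · intro x y hxy
    ext j
    have := congrFun hxy j.succ
    simpa [i1] using this
  · intro x
    exact ⟨Fin.cons x 0, by simp⟩
  · intro m
    constructor
    · intro h
      refine ⟨fun j => m j.succ, ?_⟩
      ext j
      refine Fin.cases ?_ (fun j => ?_) j
      · simpa [i1] using h.symm
      · simp [i1]
    · rintro ⟨k, rfl⟩
      simp [i1]
  · intro k
    ext j
    refine Fin.cases ?_ (fun j => ?_) j
    · simp [i1, Matrix.mulVec, dotProduct, Fin.sum_univ_succ, h0]
    · simp [i1, Matrix.mulVec, dotProduct, Fin.sum_univ_succ]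
  · intro m
    simp [Matrix.mulVec, dotProduct, Fin.sum_univ_succ, h0, h00]

lemma cl_scalar (a : D) (ha : a ≠ 0) : ∀ n : ℕ,
    cl (a • (1 : Matrix (Fin n) (Fin n) D)) = n • Ring.ord D a := by
  intro n
  induction n with
  | zero =>
    rw [zero_smul]
    exact cl_unit _ (by simp)
  | succ n ih =>
    have hs : (a • (1 : Matrix (Fin (n + 1)) (Fin (n + 1)) D)).submatrix Fin.succ Fin.succ
        = a • (1 : Matrix (Fin n) (Fin n) D) := by
      ext i j
      simp [Matrix.one_apply, Fin.succ_inj]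
    rw [cl_upper, hs, ih]
    · simp [add_smul, add_comm]
    · intro i
      simp [Fin.succ_ne_zero]
    · rw [hs, Matrix.det_smul, Matrix.det_one]
      simp [ha]

/-- The elimination matrix. -/
def elim {n : ℕ} (A : Matrix (Fin (n + 1)) (Fin (n + 1)) D) :
    Matrix (Fin (n + 1)) (Fin (n + 1)) D := fun i j =>
  Fin.cases (motive := fun _ => D) (if j = 0 then 1 else 0)
    (fun i' => if j = 0 then - A i'.succ 0 else if j = i'.succ then A 0 0 else 0) i

lemma elim_sub {n : ℕ} (A : Matrix (Fin (n + 1)) (Fin (n + 1)) D) :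
    (elim A).submatrix Fin.succ Fin.succ = A 0 0 • (1 : Matrix (Fin n) (Fin n) D) := by
  ext i j
  by_cases h : i = j
  · subst h
    simp [elim, Fin.succ_ne_zero]
  · have h' : ¬ j = i := fun h2 => h h2.symm
    simp [elim, Fin.succ_ne_zero, Fin.succ_inj, h, h']

lemma elim_det {n : ℕ} (A : Matrix (Fin (n + 1)) (Fin (n + 1)) D) :
    (elim A).det = A 0 0 ^ n := by
  rw [Matrix.det_succ_row_zero, Fin.sum_univ_succ]
  have h1 : ∀ i : Fin n, elim A 0 i.succ = 0 := by
    intro i
    simp [elim, Fin.succ_ne_zero]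
  have h2 : elim A 0 0 = 1 := by simp [elim]
  simp only [h1, h2, mul_zero, zero_mul, Finset.sum_const_zero, add_zero]
  have h3 : (elim A).submatrix Fin.succ (Fin.succAbove 0) = A 0 0 • (1 : Matrix (Fin n) (Fin n) D) := by
    rw [← elim_sub]
    rfl
  rw [h3, Matrix.det_smul, Matrix.det_one]
  simp

lemma elim_mul_col {n : ℕ} (A : Matrix (Fin (n + 1)) (Fin (n + 1)) D) (i : Fin n) :
    (elim A * A) i.succ 0 = 0 := by
  rw [Matrix.mul_apply, Fin.sum_univ_succ]
  rw [Finset.sum_eq_single i]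
  · simp [elim, Fin.succ_ne_zero]
    ring
  · intro j _ hj
    simp [elim, Fin.succ_ne_zero, Fin.succ_inj, hj]
  · intro h
    exact absurd (Finset.mem_univ i) h

lemma elim_mul_zero {n : ℕ} (A : Matrix (Fin (n + 1)) (Fin (n + 1)) D) :
    (elim A * A) 0 0 = A 0 0 := by
  rw [Matrix.mul_apply, Fin.sum_univ_succ]
  simp [elim, Fin.succ_ne_zero]

lemma main {n : ℕ}
    (hD : ∀ δ : D, δ ≠ 0 → Ring.ord D δ ≠ ⊤)
    (ih : ∀ A : Matrix (Fin n) (Fin n) D, A.det ≠ 0 → cl A = Ring.ord D A.det)
    (A : Matrix (Fin (n + 1)) (Fin (n + 1)) D) (hA : A.det ≠ 0) (ha : A 0 0 ≠ 0) :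
    cl A = Ring.ord D A.det := by
  have hE : (elim A).det ≠ 0 := by
    rw [elim_det]; exact pow_ne_zero _ ha
  have hdet : A 0 0 ^ n * A.det = A 0 0 * ((elim A * A).submatrix Fin.succ Fin.succ).det := by
    have h1 : (elim A * A).det = A 0 0 ^ n * A.det := by rw [Matrix.det_mul, elim_det]
    rw [← h1, Matrix.det_succ_column_zero, Fin.sum_univ_succ]
    simp only [elim_mul_col, mul_zero, zero_mul, Finset.sum_const_zero, add_zero, elim_mul_zero]
    have h3 : (elim A * A).submatrix (Fin.succAbove 0) Fin.succ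
        = (elim A * A).submatrix Fin.succ Fin.succ := rfl
    rw [h3]
    simp
  have hs : ((elim A * A).submatrix Fin.succ Fin.succ).det ≠ 0 := by
    intro h
    rw [h, mul_zero] at hdet
    exact (mul_ne_zero (pow_ne_zero _ ha) hA) hdet
  have h1 : cl (elim A * A) = cl A + n • Ring.ord D (A 0 0) := by
    rw [cl_mul _ _ hE, cl_lower (elim A) (by simp [elim])
      (fun i => by simp [elim, Fin.succ_ne_zero]), elim_sub, cl_scalar _ ha]
  have h2 : cl (elim A * A) = Ring.ord D (A 0 0 ^ n * A.det) := by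
    rw [cl_upper _ (elim_mul_col A) hs, ih _ hs, elim_mul_zero, hdet,
      Ring.ord_mul D (mem_nonZeroDivisors_of_ne_zero hs)]
  rw [Ring.ord_mul D (mem_nonZeroDivisors_of_ne_zero hA),
    Ring.ord_pow (mem_nonZeroDivisors_of_ne_zero ha), h1, add_comm] at h2
  refine WithTop.add_left_cancel ?_ h2
  obtain ⟨m, hm⟩ := ENat.ne_top_iff_exists.mp (hD _ ha)
  rw [← hm, nsmul_eq_mul]
  exact ENat.natCast_ne_top (n * m)

theorem cl_det (hD : ∀ δ : D, δ ≠ 0 → Ring.ord D δ ≠ ⊤) : ∀ (n : ℕ)
    (A : Matrix (Fin n) (Fin n) D), A.det ≠ 0 → cl A = Ring.ord D A.det := by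
  intro n
  induction n with
  | zero =>
    intro A _
    rw [Matrix.det_fin_zero, Ring.ord_one]
    exact cl_unit _ (by simp)
  | succ n ih =>
    intro A hA
    by_cases ha : A 0 0 = 0
    · obtain ⟨i, hi⟩ : ∃ i, A i 0 ≠ 0 := by
        by_contra hcon
        push Not at hcon
        exact hA (Matrix.det_eq_zero_of_column_eq_zero 0 hcon)
      have hi0 : (0 : Fin (n + 1)) ≠ i := by
        rintro rfl
        exact hi ha
      have hT : (Matrix.transvection (0 : Fin (n + 1)) i (1 : D)).det = 1 :=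
        Matrix.det_transvection_of_ne _ _ hi0 _
      have hT0 : (Matrix.transvection (0 : Fin (n + 1)) i (1 : D)).det ≠ 0 := by
        rw [hT]; exact one_ne_zero
      have h1 : (Matrix.transvection (0 : Fin (n + 1)) i (1 : D) * A) 0 0 ≠ 0 := by
        rw [Matrix.transvection_mul_apply_same, ha, zero_add, one_mul]
        exact hi
      have h2 := main hD ih (Matrix.transvection (0 : Fin (n + 1)) i (1 : D) * A)
        (by rw [Matrix.det_mul, hT, one_mul]; exact hA) h1
      have h3 : cl (Matrix.transvection (0 : Fin (n + 1)) i (1 : D)) = 0 :=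
        cl_unit _ (by rw [hT]; exact isUnit_one)
      rw [cl_mul _ _ hT0, h3, add_zero, Matrix.det_mul, hT, one_mul] at h2
      exact h2
    · exact main hD ih A hA ha

end Mat

end KpL

/-- (KPL) length of the cokernel of a square matrix over a one-dimensional domain. -/
theorem len_det {D : Type u} [CommRing D] [IsDomain D] [IsNoetherianRing D]
    (hD : ∀ δ : D, δ ≠ 0 → Module.length D (D ⧸ Ideal.span {δ}) ≠ ⊤) {n : ℕ}
    (A : Matrix (Fin n) (Fin n) D) (hA : A.det ≠ 0) :
    Module.length D ((Fin n → D) ⧸ LinearMap.range A.mulVecLin)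
      = Module.length D (D ⧸ Ideal.span {A.det}) :=
  KpL.cl_det (fun δ h => hD δ h) n A hA

end Pool.Agent.HT51
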