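import Pool.Agent.HT51.SpH

/-!
# Lengths of the homologies of a block factorisation of zero
-/

universe u

namespace Pool.Agent.HT51

open Pool.Agent.HT21

section abstract_block

variable {R : Type u} [CommRing R] {V M₁ M₂ : Type u} [AddCommGroup V] [Module R V]
  [AddCommGroup M₁] [Module R M₁] [AddCommGroup M₂] [Module R M₂]

/-- `ker φ / im ψ` embeds into `M₂ / p₂ im ψ`. -/
lemma kpm_one (φ ψ : V →ₗ[R] V) (h1 : ∀ v, φ (ψ v) = 0) (p : V →ₗ[R] M₂)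
    (hk : ∀ v, φ v = 0 → p v = 0 → v = 0) :
    Module.length R (HA φ ψ) + Module.length R (M₂ ⧸ (LinearMap.ker φ).map p) =
      Module.length R (M₂ ⧸ (LinearMap.range ψ).map p) := by
  have hle : (LinearMap.range ψ).map p ≤ (LinearMap.ker φ).map p := by
    apply Submodule.map_mono
    rintro _ ⟨v, rfl⟩
    exact h1 v
  let g0 : LinearMap.ker φ →ₗ[R] M₂ ⧸ (LinearMap.range ψ).map p :=
    ((LinearMap.range ψ).map p).mkQ.comp (p.comp (LinearMap.ker φ).subtype)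
  have hg0 : ∀ x : LinearMap.ker φ, g0 x = 0 ↔
      x ∈ (LinearMap.range ψ).submoduleOf (LinearMap.ker φ) := by
    intro x
    show Submodule.Quotient.mk (p x.1) = 0 ↔ x.1 ∈ LinearMap.range ψ
    rw [Submodule.Quotient.mk_eq_zero]
    constructor
    · rintro ⟨y, hy, hyx⟩
      have h3 : y = x.1 := by
        have h4 : φ (y - x.1) = 0 := by
          obtain ⟨v, rfl⟩ := hy
          rw [map_sub, h1, x.2, sub_zero]
        exact sub_eq_zero.mp (hk _ h4 (by rw [map_sub, hyx, sub_self]))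
      rw [← h3]
      exact hy
    · intro h
      exact ⟨x.1, h, rfl⟩
  let g : HA φ ψ →ₗ[R] M₂ ⧸ (LinearMap.range ψ).map p :=
    Submodule.liftQ _ g0 (fun x hx => (hg0 x).mpr hx)
  have hg : Function.Injective g := by
    rw [injective_iff_map_eq_zero]
    intro z hz
    obtain ⟨x, rfl⟩ := Submodule.Quotient.mk_surjective _ z
    rw [Submodule.Quotient.mk_eq_zero]
    exact (hg0 x).mp hz
  symm
  refine Module.length_eq_add_of_exact g (Submodule.factor hle) hg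
    (Submodule.factor_surjective hle) ?_
  intro z
  obtain ⟨y, rfl⟩ := Submodule.Quotient.mk_surjective _ z
  show Submodule.Quotient.mk y = 0 ↔ _
  rw [Submodule.Quotient.mk_eq_zero]
  constructor
  · rintro ⟨v, hv, rfl⟩
    exact ⟨Submodule.Quotient.mk ⟨v, hv⟩, rfl⟩
  · rintro ⟨w, hw⟩
    obtain ⟨x, rfl⟩ := Submodule.Quotient.mk_surjective _ w
    have h5 : Submodule.Quotient.mk (p x.1) =
        (Submodule.Quotient.mk y : M₂ ⧸ (LinearMap.range ψ).map p) := hw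
    rw [Submodule.Quotient.eq] at h5
    have h6 : p x.1 - y ∈ (LinearMap.ker φ).map p := hle h5
    have h7 : p x.1 ∈ (LinearMap.ker φ).map p := ⟨x.1, x.2, rfl⟩
    have h8 := Submodule.sub_mem _ h7 h6
    rwa [sub_sub_cancel] at h8

/-- `len (cok α) = len (M₂ / p₂ ker φ) + len (M₁ / p₁ im φ)`. -/
lemma kpm_two (φ ψ : V →ₗ[R] V) (h2 : ∀ v, ψ (φ v) = 0) (p₁ : V →ₗ[R] M₁) (p₂ : V →ₗ[R] M₂)
    (i₁ : M₁ →ₗ[R] V) (i₂ : M₂ →ₗ[R] V) (hi : ∀ v, i₁ (p₁ v) + i₂ (p₂ v) = v)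
    (h21 : ∀ x, p₂ (i₁ x) = 0) (h22 : ∀ y, p₂ (i₂ y) = y)
    (hk : ∀ v, ψ v = 0 → p₁ v = 0 → v = 0) :
    Module.length R (M₁ ⧸ LinearMap.range (p₁.comp (φ.comp i₁))) =
      Module.length R (M₂ ⧸ (LinearMap.ker φ).map p₂) +
        Module.length R (M₁ ⧸ (LinearMap.range φ).map p₁) := by
  have hle : LinearMap.range (p₁.comp (φ.comp i₁)) ≤ (LinearMap.range φ).map p₁ := by
    rintro _ ⟨x, rfl⟩
    exact ⟨φ (i₁ x), ⟨i₁ x, rfl⟩, rfl⟩
  let f0 : M₂ →ₗ[R] M₁ ⧸ LinearMap.range (p₁.comp (φ.comp i₁)) :=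
    (LinearMap.range (p₁.comp (φ.comp i₁))).mkQ.comp (p₁.comp (φ.comp i₂))
  have hf0 : ∀ y : M₂, f0 y = 0 ↔ y ∈ (LinearMap.ker φ).map p₂ := by
    intro y
    show Submodule.Quotient.mk (p₁ (φ (i₂ y))) = 0 ↔ _
    rw [Submodule.Quotient.mk_eq_zero]
    constructor
    · rintro ⟨x, hx⟩
      have hx' : p₁ (φ (i₁ x)) = p₁ (φ (i₂ y)) := hx
      refine ⟨i₂ y - i₁ x, ?_, ?_⟩
      · refine hk _ (h2 _) ?_
        rw [map_sub, map_sub, hx', sub_self]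
      · rw [map_sub, h21, h22, sub_zero]
    · rintro ⟨v, hv, rfl⟩
      refine ⟨- p₁ v, ?_⟩
      show p₁ (φ (i₁ (- p₁ v))) = p₁ (φ (i₂ (p₂ v)))
      have h5 : φ (i₁ (p₁ v)) + φ (i₂ (p₂ v)) = 0 := by
        rw [← map_add, hi]
        exact hv
      rw [map_neg, map_neg, ← eq_neg_of_add_eq_zero_right h5]
  let f : M₂ ⧸ (LinearMap.ker φ).map p₂ →ₗ[R] M₁ ⧸ LinearMap.range (p₁.comp (φ.comp i₁)) :=
    Submodule.liftQ _ f0 (fun y hy => (hf0 y).mpr hy)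
  have hf : Function.Injective f := by
    rw [injective_iff_map_eq_zero]
    intro z hz
    obtain ⟨y, rfl⟩ := Submodule.Quotient.mk_surjective _ z
    rw [Submodule.Quotient.mk_eq_zero]
    exact (hf0 y).mp hz
  refine Module.length_eq_add_of_exact f (Submodule.factor hle) hf
    (Submodule.factor_surjective hle) ?_
  intro z
  obtain ⟨x, rfl⟩ := Submodule.Quotient.mk_surjective _ z
  show Submodule.Quotient.mk x = 0 ↔ _
  rw [Submodule.Quotient.mk_eq_zero]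
  constructor
  · rintro ⟨_, ⟨v, rfl⟩, rfl⟩
    refine ⟨Submodule.Quotient.mk (p₂ v), ?_⟩
    show Submodule.Quotient.mk (p₁ (φ (i₂ (p₂ v)))) = Submodule.Quotient.mk (p₁ (φ v))
    rw [Submodule.Quotient.eq]
    refine ⟨- p₁ v, ?_⟩
    show p₁ (φ (i₁ (- p₁ v))) = p₁ (φ (i₂ (p₂ v))) - p₁ (φ v)
    have h9 : φ v = φ (i₁ (p₁ v)) + φ (i₂ (p₂ v)) := by rw [← map_add, hi]
    rw [h9, map_add, map_neg, map_neg, map_neg]
    abel
  · rintro ⟨w, hw⟩
    obtain ⟨y, rfl⟩ := Submodule.Quotient.mk_surjective _ w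
    have h5 : Submodule.Quotient.mk (p₁ (φ (i₂ y))) =
        (Submodule.Quotient.mk x : M₁ ⧸ LinearMap.range (p₁.comp (φ.comp i₁))) := hw
    rw [Submodule.Quotient.eq] at h5
    have h6 : p₁ (φ (i₂ y)) - x ∈ (LinearMap.range φ).map p₁ := hle h5
    have h7 : p₁ (φ (i₂ y)) ∈ (LinearMap.range φ).map p₁ := ⟨_, ⟨i₂ y, rfl⟩, rfl⟩
    have h8 := Submodule.sub_mem _ h7 h6
    rwa [sub_sub_cancel] at h8

end abstract_block

/-- (KPM) block factorisations of zero over a domain. -/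
theorem len_block {D : Type u} [CommRing D] [IsDomain D] {m₁ m₂ : ℕ}
    (φ ψ : Matrix (Fin m₁ ⊕ Fin m₂) (Fin m₁ ⊕ Fin m₂) D) (h1 : φ * ψ = 0) (h2 : ψ * φ = 0)
    (hα : φ.toBlocks₁₁.det ≠ 0) (hδ : ψ.toBlocks₂₂.det ≠ 0)
    (hlα : Module.length D ((Fin m₁ → D) ⧸ LinearMap.range φ.toBlocks₁₁.mulVecLin) ≠ ⊤)
    (hlδ : Module.length D ((Fin m₂ → D) ⧸ LinearMap.range ψ.toBlocks₂₂.mulVecLin) ≠ ⊤) :
    Module.length D (HA φ.mulVecLin ψ.mulVecLin) +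
        Module.length D ((Fin m₁ → D) ⧸ LinearMap.range φ.toBlocks₁₁.mulVecLin) =
      Module.length D (HA ψ.mulVecLin φ.mulVecLin) +
        Module.length D ((Fin m₂ → D) ⧸ LinearMap.range ψ.toBlocks₂₂.mulVecLin) := by
  have e1 : ∀ v, φ.mulVecLin (ψ.mulVecLin v) = 0 := by
    intro v
    rw [Matrix.mulVecLin_apply, Matrix.mulVecLin_apply, Matrix.mulVec_mulVec, h1, Matrix.zero_mulVec]
  have e2 : ∀ v, ψ.mulVecLin (φ.mulVecLin v) = 0 := by
    intro v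
    rw [Matrix.mulVecLin_apply, Matrix.mulVecLin_apply, Matrix.mulVec_mulVec, h2, Matrix.zero_mulVec]
  let p₁ : (Fin m₁ ⊕ Fin m₂ → D) →ₗ[D] (Fin m₁ → D) := LinearMap.funLeft D D Sum.inl
  let p₂ : (Fin m₁ ⊕ Fin m₂ → D) →ₗ[D] (Fin m₂ → D) := LinearMap.funLeft D D Sum.inr
  let i₁ : (Fin m₁ → D) →ₗ[D] (Fin m₁ ⊕ Fin m₂ → D) :=
    LinearMap.pi (fun s => Sum.elim (fun a => LinearMap.proj a) (fun _ => 0) s)
  let i₂ : (Fin m₂ → D) →ₗ[D] (Fin m₁ ⊕ Fin m₂ → D) :=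
    LinearMap.pi (fun s => Sum.elim (fun _ => 0) (fun b => LinearMap.proj b) s)
  have hi : ∀ v, i₁ (p₁ v) + i₂ (p₂ v) = v := by
    intro v
    funext s
    rcases s with a | b
    · show v (Sum.inl a) + 0 = _
      rw [add_zero]
    · show 0 + v (Sum.inr b) = _
      rw [zero_add]
  have h12 : ∀ y, p₁ (i₂ y) = 0 := fun y => rfl
  have h21 : ∀ x, p₂ (i₁ x) = 0 := fun x => rfl
  have h11 : ∀ x, p₁ (i₁ x) = x := fun x => rfl
  have h22 : ∀ y, p₂ (i₂ y) = y := fun y => rfl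
  have ea : φ.toBlocks₁₁.mulVecLin = p₁.comp (φ.mulVecLin.comp i₁) := by
    refine LinearMap.ext fun x => ?_
    funext a
    show (φ.toBlocks₁₁.mulVec x) a = (φ.mulVec (i₁ x)) (Sum.inl a)
    rw [Matrix.mulVec, Matrix.mulVec, dotProduct, dotProduct, Fintype.sum_sum_type]
    have h0 : ∑ b, φ (Sum.inl a) (Sum.inr b) * i₁ x (Sum.inr b) = 0 :=
      Finset.sum_eq_zero fun b _ => mul_zero _
    rw [h0, add_zero]
    rfl
  have ed : ψ.toBlocks₂₂.mulVecLin = p₂.comp (ψ.mulVecLin.comp i₂) := by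
    refine LinearMap.ext fun x => ?_
    funext a
    show (ψ.toBlocks₂₂.mulVec x) a = (ψ.mulVec (i₂ x)) (Sum.inr a)
    rw [Matrix.mulVec, Matrix.mulVec, dotProduct, dotProduct, Fintype.sum_sum_type]
    have h0 : ∑ b, ψ (Sum.inr a) (Sum.inl b) * i₂ x (Sum.inl b) = 0 :=
      Finset.sum_eq_zero fun b _ => mul_zero _
    rw [h0, zero_add]
    rfl
  have k2 : ∀ v, φ.mulVecLin v = 0 → p₂ v = 0 → v = 0 := by
    intro v hv hp
    have h5 := hi v
    rw [hp, map_zero, add_zero] at h5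
    have h6 : φ.toBlocks₁₁.mulVec (p₁ v) = 0 := by
      rw [← Matrix.mulVecLin_apply, ea]
      show p₁ (φ.mulVecLin (i₁ (p₁ v))) = 0
      rw [h5, hv, map_zero]
    rw [← h5, Matrix.eq_zero_of_mulVec_eq_zero hα h6, map_zero]
  have k1 : ∀ v, ψ.mulVecLin v = 0 → p₁ v = 0 → v = 0 := by
    intro v hv hp
    have h5 := hi v
    rw [hp, map_zero, zero_add] at h5
    have h6 : ψ.toBlocks₂₂.mulVec (p₂ v) = 0 := by
      rw [← Matrix.mulVecLin_apply, ed]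
      show p₂ (ψ.mulVecLin (i₂ (p₂ v))) = 0
      rw [h5, hv, map_zero]
    rw [← h5, Matrix.eq_zero_of_mulVec_eq_zero hδ h6, map_zero]
  have A1 := kpm_one φ.mulVecLin ψ.mulVecLin e1 p₂ k2
  have A2 := kpm_one ψ.mulVecLin φ.mulVecLin e2 p₁ k1
  have B1 := kpm_two φ.mulVecLin ψ.mulVecLin e2 p₁ p₂ i₁ i₂ hi h21 h22 k1
  have B2 := kpm_two ψ.mulVecLin φ.mulVecLin e1 p₂ p₁ i₂ i₁
    (fun v => by rw [add_comm]; exact hi v) h12 h11 k2
  rw [ea, ed, B1, B2, ← add_assoc, A1, ← add_assoc, A2, add_comm]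

end Pool.Agent.HT51
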