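import Mathlib

/-! A minor of maximal size of a square matrix over a domain, in block form. -/

universe u

namespace Pool.Agent.HT51

open Matrix Module

theorem kpr_equiv {n r : ℕ} (f : Fin r → Fin n) (hf : Function.Injective f) :
    ∃ e : Fin n ≃ Fin r ⊕ Fin (n - r), ∀ i, e.symm (Sum.inl i) = f i := by
  classical
  have hc : Fintype.card {x // ¬ x ∈ Set.range f} = n - r := by
    rw [Fintype.card_subtype_compl]
    have : Fintype.card {x // x ∈ Set.range f} = r := by
      rw [← Fintype.card_congr (Equiv.ofInjective f hf), Fintype.card_fin]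
    rw [Fintype.card_fin, this]
  let e1 : Fin n ≃ {x // x ∈ Set.range f} ⊕ {x // ¬ x ∈ Set.range f} :=
    (Equiv.sumCompl (fun x => x ∈ Set.range f)).symm
  let e2 : {x // x ∈ Set.range f} ≃ Fin r := (Equiv.ofInjective f hf).symm
  let e3 : {x // ¬ x ∈ Set.range f} ≃ Fin (n - r) := Fintype.equivFinOfCardEq hc
  refine ⟨e1.trans (Equiv.sumCongr e2 e3), fun i => ?_⟩
  simp [e1, e2]

/-- independent rows -/
theorem kpr_rows {K : Type*} [Field K] {m : Type*} [Fintype m] {n : ℕ} (A : Matrix (Fin n) m K) :
    ∃ f : Fin A.rank → Fin n, Function.Injective f ∧ LinearIndependent K (fun i => A (f i)) := by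
  classical
  obtain ⟨κ, a, ha, hs, hl⟩ := exists_linearIndependent' K (fun i => A i)
  have : Finite κ := Finite.of_injective a ha
  have := Fintype.ofFinite κ
  have hc : Fintype.card κ = A.rank := by
    rw [← finrank_span_eq_card hl, hs, ← Matrix.rank_transpose, Matrix.rank_eq_finrank_span_cols]
    rfl
  let e : Fin A.rank ≃ κ := (Fintype.equivFinOfCardEq hc).symm
  exact ⟨a ∘ e, ha.comp e.injective, hl.comp e e.injective⟩

/-- (KPR) a minor of maximal size, in block form. -/
theorem exists_minor {D : Type u} [CommRing D] [IsDomain D] {n : ℕ} (A : Matrix (Fin n) (Fin n) D) :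
    ∃ (m₁ m₂ : ℕ) (e e' : Fin n ≃ Fin m₁ ⊕ Fin m₂),
      m₁ = (A.map (algebraMap D (FractionRing D))).rank ∧
      (Matrix.reindex e e' A).toBlocks₁₁.det ≠ 0 := by
  classical
  set B := A.map (algebraMap D (FractionRing D)) with hB
  obtain ⟨f, hf, hlf⟩ := kpr_rows B
  -- the matrix of the chosen rows, transposed
  let C : Matrix (Fin n) (Fin B.rank) (FractionRing D) := (B.submatrix f id)ᵀ
  have hCr : C.rank = B.rank := by
    have h1 : (B.submatrix f id).rank = Fintype.card (Fin B.rank) := by
      apply LinearIndependent.rank_matrix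
      exact hlf
    rw [Fintype.card_fin] at h1
    exact (Matrix.rank_transpose _).trans h1
  obtain ⟨g0, hg0, hlg0⟩ := kpr_rows C
  let c : Fin B.rank ≃ Fin C.rank := finCongr hCr.symm
  let g : Fin B.rank → Fin n := g0 ∘ c
  have hg : Function.Injective g := hg0.comp c.injective
  have hlg : LinearIndependent (FractionRing D) (fun i => C (g i)) := hlg0.comp c c.injective
  obtain ⟨e, he⟩ := kpr_equiv f hf
  obtain ⟨e', he'⟩ := kpr_equiv g hg
  refine ⟨B.rank, n - B.rank, e, e', rfl, ?_⟩
  have h1 : (Matrix.reindex e e' A).toBlocks₁₁ = A.submatrix f g := by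
    ext i j
    simp [Matrix.toBlocks₁₁, he, he']
  rw [h1]
  intro h0
  have h2 : (B.submatrix f g).det = 0 := by
    have h3 : B.submatrix f g = (algebraMap D (FractionRing D)).mapMatrix (A.submatrix f g) := by
      ext i j
      simp [hB]
    rw [h3, ← RingHom.map_det, h0, map_zero]
  have h4 : IsUnit (B.submatrix f g)ᵀ := by
    rw [← Matrix.linearIndependent_rows_iff_isUnit]
    exact hlg
  have h5 : (B.submatrix f g)ᵀ.det ≠ 0 := by
    have := (Matrix.isUnit_iff_isUnit_det _).1 h4
    exact this.ne_zero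
  rw [Matrix.det_transpose] at h5
  exact h5 h2

end Pool.Agent.HT51
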