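import Pool.Agent.HT51.KpDefs
import Pool.Agent.HT51.KpL
import Pool.Agent.HT51.KpM
import Pool.Agent.HT51.KpR

/-!
# Dimension one: the two homologies of a matrix factorisation over a one-dimensional domain
-/

universe u

namespace Pool.Agent.HT51

open Pool.Agent.HT21

namespace KpN

variable {D : Type u} [CommRing D]

lemma mact_self {n : ℕ} (A : Matrix (Fin n) (Fin n) D) : mact A D = A.mulVecLin :=
  LinearMap.ext fun _ => rfl

/-- lengths of quotients under a linear equivalence -/
lemma length_congr {M M' : Type u} [AddCommGroup M] [Module D M] [AddCommGroup M'] [Module D M']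
    (a : M ≃ₗ[D] M') (K B : Submodule D M) (K' B' : Submodule D M')
    (hK : ∀ x, a x ∈ K' ↔ x ∈ K) (hB : ∀ x, a x ∈ B' ↔ x ∈ B) :
    Module.length D (↥K ⧸ B.submoduleOf K) = Module.length D (↥K' ⧸ B'.submoduleOf K') := by
  have hK' : K.map (a : M →ₗ[D] M') = K' := by
    ext y
    constructor
    · rintro ⟨x, hx, rfl⟩
      exact (hK x).2 hx
    · intro hy
      refine ⟨a.symm y, (hK _).1 ?_, a.apply_symm_apply y⟩
      rwa [a.apply_symm_apply]
  subst hK'
  refine (Submodule.Quotient.equiv (B.submoduleOf K) _ (a.submoduleMap K) ?_).length_eq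
  ext y
  constructor
  · rintro ⟨x, hx, rfl⟩
    exact (hB x).2 hx
  · intro hy
    refine ⟨(a.submoduleMap K).symm y, ?_, LinearEquiv.apply_symm_apply _ y⟩
    change ((a.submoduleMap K).symm y : M) ∈ B
    rw [← hB]
    have h1 : a ((a.submoduleMap K).symm y : M) = y :=
      congrArg Subtype.val ((a.submoduleMap K).apply_symm_apply y)
    rw [h1]
    exact hy

/-- the homology of a reindexed pair -/
lemma HA_reindex {n m₁ m₂ : ℕ} (A B : Matrix (Fin n) (Fin n) D) (e e' : Fin n ≃ Fin m₁ ⊕ Fin m₂) :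
    Module.length D (HA (Matrix.reindex e e' A).mulVecLin (Matrix.reindex e' e B).mulVecLin)
      = Module.length D (HH A B D) := by
  have hA : ∀ (C : Matrix (Fin n) (Fin n) D) (e e' : Fin n ≃ Fin m₁ ⊕ Fin m₂) (x : Fin n → D),
      (Matrix.reindex e e' C).mulVec (x ∘ e'.symm) = C.mulVec x ∘ e.symm := by
    intro C e e' x
    rw [Matrix.reindex_apply, Matrix.submatrix_mulVec_equiv]
    congr 1
    congr 1
    funext i
    simp
  refine (length_congr (LinearEquiv.funCongrLeft D D e'.symm) _ _ _ _ ?_ ?_).symm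
  · intro x
    rw [LinearMap.mem_ker, LinearMap.mem_ker, mact_self, Matrix.mulVecLin_apply,
      Matrix.mulVecLin_apply]
    change (Matrix.reindex e e' A).mulVec (x ∘ e'.symm) = 0 ↔ _
    rw [hA]
    constructor
    · intro h
      funext i
      have := congrFun h (e i)
      simpa using this
    · intro h
      rw [h]
      rfl
  · intro x
    rw [LinearMap.mem_range, LinearMap.mem_range, mact_self]
    constructor
    · rintro ⟨y, hy⟩
      refine ⟨y ∘ e, ?_⟩
      rw [Matrix.mulVecLin_apply] at hy ⊢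
      have h1 := hA B e' e (y ∘ e)
      have h2 : (y ∘ e) ∘ e.symm = y := by
        funext i
        simp
      rw [h2, hy] at h1
      funext i
      have := congrFun h1 (e' i)
      simpa using this.symm
    · rintro ⟨y, rfl⟩
      exact ⟨y ∘ e.symm, hA B e' e y⟩

/-- homologies of finite length are torsion -/
lemma torsion [IsDomain D] {n : ℕ} {A B : Matrix (Fin n) (Fin n) D}
    (hDD : Module.length D D = ⊤) (hf : Module.length D (HH A B D) ≠ ⊤)
    {x : Fin n → D} (hx : A.mulVec x = 0) : ∃ d : D, d ≠ 0 ∧ ∃ y, B.mulVec y = d • x := by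
  by_contra hcon
  push Not at hcon
  apply hf
  rw [eq_top_iff, ← hDD]
  have hxk : x ∈ LinearMap.ker (mact A D) := by
    rw [mact_self]
    exact hx
  let z : HH A B D := Submodule.Quotient.mk ⟨x, hxk⟩
  refine Module.length_le_of_injective (LinearMap.toSpanSingleton D (HH A B D) z) ?_
  rw [injective_iff_map_eq_zero]
  intro d hd
  by_contra hd0
  rw [LinearMap.toSpanSingleton_apply] at hd
  have h1 : (Submodule.Quotient.mk (d • (⟨x, hxk⟩ : LinearMap.ker (mact A D))) : HH A B D) = 0 := hd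
  rw [Submodule.Quotient.mk_eq_zero] at h1
  obtain ⟨y, hy⟩ := h1
  exact hcon d hd0 y hy

/-- the ranks add up -/
lemma rank_add [IsDomain D] {n : ℕ} {A B : Matrix (Fin n) (Fin n) D} (hAB : A * B = 0)
    (h : ∀ x : Fin n → D, A.mulVec x = 0 → ∃ d : D, d ≠ 0 ∧ ∃ y, B.mulVec y = d • x) :
    (A.map (algebraMap D (FractionRing D))).rank +
      (B.map (algebraMap D (FractionRing D))).rank = n := by
  set L := FractionRing D
  set j : D →+* L := algebraMap D L
  have hj : Function.Injective j := IsFractionRing.injective D L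
  have hmap : ∀ (C : Matrix (Fin n) (Fin n) D) (v : Fin n → D),
      (C.map j).mulVec (fun i => j (v i)) = fun i => j (C.mulVec v i) := by
    intro C v
    funext i
    exact (RingHom.map_mulVec j C v i).symm
  have hker : LinearMap.ker (A.map j).mulVecLin = LinearMap.range (B.map j).mulVecLin := by
    apply le_antisymm
    · intro v hv
      rw [LinearMap.mem_ker, Matrix.mulVecLin_apply] at hv
      obtain ⟨b, hb⟩ := IsLocalization.exist_integer_multiples_of_finite (nonZeroDivisors D) v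
      choose x hx using hb
      have hb0 : j b ≠ 0 := fun h0 => nonZeroDivisors.coe_ne_zero b (hj (by rw [h0, map_zero]))
      have hx' : (fun i => j (x i)) = j b • v := by
        funext i
        rw [Pi.smul_apply, smul_eq_mul]
        have := hx i
        rw [Algebra.smul_def] at this
        exact this
      have hAx : A.mulVec x = 0 := by
        funext i
        apply hj
        have h1 := congrFun (hmap A x) i
        rw [hx', Matrix.mulVec_smul, hv, smul_zero] at h1
        rw [← h1]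
        simp
      obtain ⟨d, hd, y, hy⟩ := h x hAx
      have hd0 : j d ≠ 0 := fun h0 => hd (hj (by rw [h0, map_zero]))
      refine ⟨(j d * j b)⁻¹ • fun i => j (y i), ?_⟩
      rw [map_smul, Matrix.mulVecLin_apply, hmap, hy]
      have h2 : (fun i => j ((d • x) i)) = (j d * j b) • v := by
        rw [mul_smul, ← hx']
        funext i
        simp
      rw [h2, smul_smul, inv_mul_cancel₀ (mul_ne_zero hd0 hb0), one_smul]
    · rintro _ ⟨v, rfl⟩
      rw [LinearMap.mem_ker, Matrix.mulVecLin_apply, Matrix.mulVecLin_apply, Matrix.mulVec_mulVec,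
        ← Matrix.map_mul, hAB]
      simp
  have h1 := LinearMap.finrank_range_add_finrank_ker (A.map j).mulVecLin
  rw [hker, Module.finrank_fin_fun] at h1
  exact h1

section det

variable {T : Type u} [CommRing T]

lemma det_eq {g : T} {m₁ m₂ : ℕ} {Φ Ψ : Matrix (Fin m₁ ⊕ Fin m₂) (Fin m₁ ⊕ Fin m₂) T}
    (h : Φ * Ψ = g • (1 : Matrix _ _ T)) :
    Φ.det * Ψ.toBlocks₂₂.det = Φ.toBlocks₁₁.det * g ^ m₂ := by
  have h1 : Φ * Matrix.fromBlocks 1 Ψ.toBlocks₁₂ 0 Ψ.toBlocks₂₂ =
      Matrix.fromBlocks Φ.toBlocks₁₁ 0 Φ.toBlocks₂₁ (g • (1 : Matrix (Fin m₂) (Fin m₂) T)) := by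
    have h2 : Matrix.fromBlocks Φ.toBlocks₁₁ Φ.toBlocks₁₂ Φ.toBlocks₂₁ Φ.toBlocks₂₂ *
        Matrix.fromBlocks Ψ.toBlocks₁₁ Ψ.toBlocks₁₂ Ψ.toBlocks₂₁ Ψ.toBlocks₂₂ =
        Matrix.fromBlocks (g • (1 : Matrix (Fin m₁) (Fin m₁) T)) 0 0
          (g • (1 : Matrix (Fin m₂) (Fin m₂) T)) := by
      rw [Matrix.fromBlocks_toBlocks, Matrix.fromBlocks_toBlocks, h, ← Matrix.fromBlocks_one,
        Matrix.fromBlocks_smul, smul_zero, smul_zero]
    rw [Matrix.fromBlocks_multiply, Matrix.fromBlocks_inj] at h2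
    conv_lhs => rw [← Matrix.fromBlocks_toBlocks Φ]
    rw [Matrix.fromBlocks_multiply, h2.2.1, h2.2.2.2]
    simp
  have h3 := congrArg Matrix.det h1
  rw [Matrix.det_mul, Matrix.det_fromBlocks_zero₂₁, Matrix.det_fromBlocks_zero₁₂, Matrix.det_one,
    one_mul, Matrix.det_smul, Matrix.det_one, mul_one, Fintype.card_fin] at h3
  exact h3

lemma det_reindex {n m₁ m₂ : ℕ} (A : Matrix (Fin n) (Fin n) T) (e e' : Fin n ≃ Fin m₁ ⊕ Fin m₂) :
    Associated (Matrix.reindex e e' A).det A.det := by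
  have h1 : Matrix.reindex e e' A =
      Matrix.reindex e e (A.submatrix id (e.trans e'.symm : Equiv.Perm (Fin n))) := by
    ext i j
    simp
  rw [h1, Matrix.det_reindex_self, Matrix.det_permute']
  have h2 : IsUnit (((Equiv.Perm.sign (e.trans e'.symm : Equiv.Perm (Fin n)) : ℤˣ) : ℤ) : T) :=
    (Units.isUnit _).map (Int.castRingHom T)
  obtain ⟨u, hu⟩ := h2
  rw [← hu, mul_comm]
  exact (associated_mul_unit_left _ _ u.isUnit)

lemma reindex_mul {n m₁ m₂ : ℕ} {A B : Matrix (Fin n) (Fin n) T} {g : T}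
    (h : A * B = g • (1 : Matrix (Fin n) (Fin n) T)) (e e' : Fin n ≃ Fin m₁ ⊕ Fin m₂) :
    Matrix.reindex e e' A * Matrix.reindex e' e B = g • (1 : Matrix _ _ T) := by
  rw [Matrix.reindex_apply, Matrix.reindex_apply, Matrix.submatrix_mul_equiv, h]
  ext i j
  simp [Matrix.one_apply]

/-- the exponent of `g` in the determinant is bounded by the complementary size of a minor not
divisible by `g` -/
lemma exp_le [IsDomain T] {g : T} (hg : Prime g) {n m₁ m₂ s : ℕ} {A B : Matrix (Fin n) (Fin n) T}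
    (h : A * B = g • (1 : Matrix (Fin n) (Fin n) T)) (hs : Associated A.det (g ^ s))
    (e e' : Fin n ≃ Fin m₁ ⊕ Fin m₂) (hm : ¬ g ∣ (Matrix.reindex e e' A).toBlocks₁₁.det) :
    s ≤ m₂ := by
  by_contra hlt
  push Not at hlt
  have h1 := det_eq (reindex_mul h e e')
  have h2 : g ^ (m₂ + 1) ∣ (Matrix.reindex e e' A).det :=
    (pow_dvd_pow g hlt).trans ((det_reindex A e e').trans hs).symm.dvd
  have h3 : g ^ (m₂ + 1) ∣ (Matrix.reindex e e' A).toBlocks₁₁.det * g ^ m₂ := by
    rw [← h1]
    exact h2.mul_right _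
  rw [pow_succ, mul_comm _ (g ^ m₂)] at h3
  exact hm ((mul_dvd_mul_iff_left (pow_ne_zero _ hg.ne_zero)).1 h3)

end det

end KpN

open KpN in
/-- (KPN) dimension one. -/
theorem dim1_len {T : Type u} [CommRing T] [IsDomain T] {g : T} (hg : Prime g) {n : ℕ} (F : MF g n)
    {D : Type u} [CommRing D] [IsDomain D] [IsNoetherianRing D] (π : T →+* D)
    (hπ : Function.Surjective π) (hπg : π g = 0)
    (hD : ∀ δ : D, δ ≠ 0 → Module.length D (D ⧸ Ideal.span {δ}) ≠ ⊤)
    (hDD : Module.length D D = ⊤)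
    (hf1 : Module.length D (HH (F.phi.map π) (F.psi.map π) D) ≠ ⊤)
    (hf2 : Module.length D (HH (F.psi.map π) (F.phi.map π) D) ≠ ⊤) :
    Module.length D (HH (F.phi.map π) (F.psi.map π) D)
      = Module.length D (HH (F.psi.map π) (F.phi.map π) D) := by
  have hzero : ∀ {A B : Matrix (Fin n) (Fin n) T}, A * B = g • (1 : Matrix (Fin n) (Fin n) T) →
      A.map π * B.map π = 0 := by
    intro A B h
    rw [← Matrix.map_mul, h]
    ext i j
    simp [hπg]
  have h12 := hzero F.phi_psi
  have h21 := hzero F.psi_phi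
  have hrank := rank_add h12 fun x hx => torsion hDD hf1 hx
  obtain ⟨m₁, m₂, e, e', hm₁, hminor⟩ := exists_minor (F.phi.map π)
  obtain ⟨l₁, l₂, i, i', hl₁, hminor'⟩ := exists_minor (F.psi.map π)
  have hn : n = m₁ + m₂ := by
    have := Fintype.card_congr e
    simpa using this
  have hn' : n = l₁ + l₂ := by
    have := Fintype.card_congr i
    simpa using this
  rw [← hm₁, ← hl₁] at hrank
  -- the determinant of `phi`
  have hdet : F.phi.det * F.psi.det = g ^ n := by
    rw [← Matrix.det_mul, F.phi_psi, Matrix.det_smul, Matrix.det_one, mul_one, Fintype.card_fin]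
  obtain ⟨s, hsn, hs⟩ := (dvd_prime_pow hg n).1 (Dvd.intro _ hdet)
  have hs' : Associated F.psi.det (g ^ (n - s)) := by
    obtain ⟨u, hu⟩ := hs.symm
    have h1 : g ^ s * (u * F.psi.det) = g ^ s * g ^ (n - s) := by
      rw [← mul_assoc, hu, hdet, ← pow_add, Nat.add_sub_cancel' hsn]
    have h2 := mul_left_cancel₀ (pow_ne_zero _ hg.ne_zero) h1
    rw [← h2, mul_comm]
    exact associated_mul_unit_right _ _ u.isUnit
  have hmap : ∀ {p₁ p₂ : ℕ} (A : Matrix (Fin n) (Fin n) T) (a a' : Fin n ≃ Fin p₁ ⊕ Fin p₂),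
      (Matrix.reindex a a' (A.map π)).toBlocks₁₁.det = π (Matrix.reindex a a' A).toBlocks₁₁.det := by
    intro p₁ p₂ A a a'
    rw [RingHom.map_det]
    rfl
  have hmap' : ∀ {p₁ p₂ : ℕ} (A : Matrix (Fin n) (Fin n) T) (a a' : Fin n ≃ Fin p₁ ⊕ Fin p₂),
      (Matrix.reindex a a' (A.map π)).toBlocks₂₂.det = π (Matrix.reindex a a' A).toBlocks₂₂.det := by
    intro p₁ p₂ A a a'
    rw [RingHom.map_det]
    rfl
  have hnd : ∀ {x : T}, π x ≠ 0 → ¬ g ∣ x := by
    rintro x hx ⟨y, rfl⟩
    rw [map_mul, hπg, zero_mul] at hx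
    exact hx rfl
  rw [hmap] at hminor hminor'
  have hs1 : s ≤ m₂ := exp_le hg F.phi_psi hs e e' (hnd hminor)
  have hs2 : n - s ≤ l₂ := exp_le hg F.psi_phi hs' i i' (hnd hminor')
  have hsm : s = m₂ := by omega
  -- `det δ` and `det α` are associated
  have hdd := det_eq (reindex_mul F.phi_psi e e')
  have hass : Associated (Matrix.reindex e' e F.psi).toBlocks₂₂.det
      (Matrix.reindex e e' F.phi).toBlocks₁₁.det := by
    obtain ⟨u, hu⟩ := ((det_reindex F.phi e e').trans hs).symm
    rw [← hu, hsm, mul_assoc, mul_comm _ (g ^ m₂)] at hdd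
    have h2 := mul_left_cancel₀ (pow_ne_zero _ hg.ne_zero) hdd
    rw [← h2, mul_comm]
    exact associated_mul_unit_right _ _ u.isUnit
  have hass' := hass.map π
  have hδ : (Matrix.reindex e' e (F.psi.map π)).toBlocks₂₂.det ≠ 0 := by
    rw [hmap']
    exact fun h0 => hminor (hass'.eq_zero_iff.1 h0)
  have hα : (Matrix.reindex e e' (F.phi.map π)).toBlocks₁₁.det ≠ 0 := by
    rw [hmap]
    exact hminor
  have hlα := len_det hD _ hα
  have hlδ := len_det hD _ hδ
  have hspan : Ideal.span {(Matrix.reindex e' e (F.psi.map π)).toBlocks₂₂.det} =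
      Ideal.span {(Matrix.reindex e e' (F.phi.map π)).toBlocks₁₁.det} := by
    rw [hmap, hmap']
    exact Ideal.span_singleton_eq_span_singleton.2 hass'
  have hmul : ∀ {A B : Matrix (Fin n) (Fin n) D}, A * B = 0 →
      ∀ (a a' : Fin n ≃ Fin m₁ ⊕ Fin m₂), Matrix.reindex a a' A * Matrix.reindex a' a B = 0 := by
    intro A B h a a'
    rw [Matrix.reindex_apply, Matrix.reindex_apply, Matrix.submatrix_mul_equiv, h]
    rfl
  have hfin := hD _ hα
  have key := len_block (Matrix.reindex e e' (F.phi.map π)) (Matrix.reindex e' e (F.psi.map π))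
    (hmul h12 e e') (hmul h21 e' e) hα hδ (by rw [hlα]; exact hfin)
    (by rw [hlδ, hspan]; exact hfin)
  rw [hlα, hlδ, hspan, HA_reindex, HA_reindex] at key
  exact WithTop.add_right_cancel hfin key

end Pool.Agent.HT51
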