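import Pool.Agent.HT51.KpN
import Pool.Agent.HT51.Fin

/-!
# Surfaces with isolated singularity (helper91)

For a matrix factorisation of a prime element `g` of `κ[x, y, z]` with isolated singularity the two
homologies on every finitely generated module have the same length.
-/

universe u

namespace Pool.Agent.HT51

open MvPolynomial Pool.Agent.HT21

/-- On a module of finite length the two homologies have the same length. -/
theorem len_of_fl {D : Type u} [CommRing D] {r : ℕ} (A B : Matrix (Fin r) (Fin r) D)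
    (W : Type u) [AddCommGroup W] [Module D W] (hAB : ∀ w, mact A W (mact B W w) = 0)
    (hBA : ∀ w, mact B W (mact A W w) = 0) (hW : IsFiniteLength D (Fin r → W)) :
    (Module.length D (HH A B W)).toNat = (Module.length D (HH B A W)).toNat := by
  have key : ∀ (A B : Matrix (Fin r) (Fin r) D), (∀ w, mact A W (mact B W w) = 0) →
      ln D (HH A B W) = ln D (Fin r → W) - ln D (LinearMap.range (mact A W)) -
        ln D (LinearMap.range (mact B W)) := by
    intro A B hAB
    have hle : LinearMap.range (mact B W) ≤ LinearMap.ker (mact A W) := by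
      rintro _ ⟨w, rfl⟩
      exact hAB w
    have hk : IsFiniteLength D (LinearMap.ker (mact A W)) :=
      fl_of_inj hW (LinearMap.ker (mact A W)).subtype (Submodule.injective_subtype _)
    have e1 := ln_ker_range hW (mact A W)
    have e2 := ln_sub_quot hk ((LinearMap.range (mact B W)).submoduleOf (LinearMap.ker (mact A W)))
    have e3 : ln D ((LinearMap.range (mact B W)).submoduleOf (LinearMap.ker (mact A W)))
        = ln D (LinearMap.range (mact B W)) :=
      ln_congr (R := D) (M := ((LinearMap.range (mact B W)).submoduleOf (LinearMap.ker (mact A W))))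
        (N := (LinearMap.range (mact B W))) (Submodule.submoduleOfEquivOfLe hle)
    rw [e3] at e2
    rw [e1, e2]
    ring
  have h1 := key A B hAB
  have h2 := key B A hBA
  have h3 : ln D (HH A B W) = ln D (HH B A W) := by
    rw [h1, h2]
    ring
  unfold ln at h3
  exact_mod_cast h3

/-- The map of a matrix factorisation on the module `D`, `D` a quotient by an ideal containing
`f`. -/
lemma mact_map_zero {R D : Type u} [CommRing R] [CommRing D] {f : R} {r : ℕ}
    (A B : Matrix (Fin r) (Fin r) R) (hAB : A * B = f • (1 : Matrix (Fin r) (Fin r) R))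
    (π : R →+* D) (hf : π f = 0) (W : Type u) [AddCommGroup W] [Module D W] (w : Fin r → W) :
    mact (A.map π) W (mact (B.map π) W w) = 0 := by
  have h0 : A.map π * B.map π = 0 := by
    rw [← Matrix.map_mul, hAB]
    ext a b
    rw [Matrix.map_apply, Matrix.smul_apply, smul_eq_mul, map_mul, hf, zero_mul]
    rfl
  funext k
  show ∑ l, (A.map π) k l • ∑ l', (B.map π) l l' • w l' = 0
  have h3 : ∑ l, (A.map π) k l • ∑ l', (B.map π) l l' • w l'
      = ∑ l', (A.map π * B.map π) k l' • w l' := by
    simp only [Finset.smul_sum, smul_smul, Matrix.mul_apply, Finset.sum_smul]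
    exact Finset.sum_comm
  rw [h3, h0]
  refine Finset.sum_eq_zero fun l' _ => ?_
  rw [Matrix.zero_apply, zero_smul]

/-- The two homologies over a domain of dimension at most one. -/
theorem len_dim_le_one {T : Type u} [CommRing T] [IsDomain T] {g : T} (hg : Prime g) {n : ℕ}
    (F : MF g n) {D : Type u} [CommRing D] [IsDomain D] [IsNoetherianRing D] (π : T →+* D)
    (hπ : Function.Surjective π) (hπg : π g = 0) (hdim : ringKrullDim D ≤ 1)
    (hf1 : Module.length D (HH (F.phi.map π) (F.psi.map π) D) ≠ ⊤)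
    (hf2 : Module.length D (HH (F.psi.map π) (F.phi.map π) D) ≠ ⊤) :
    (Module.length D (HH (F.phi.map π) (F.psi.map π) D)).toNat
      = (Module.length D (HH (F.psi.map π) (F.phi.map π) D)).toNat := by
  have hk : Ring.KrullDimLE 1 D := Ring.krullDimLE_iff.mpr (by exact_mod_cast hdim)
  by_cases hDD : Module.length D D = ⊤
  · rw [dim1_len hg F π hπ hπg (fun δ hδ => Module.length_ne_top_iff.mpr
      (isFiniteLength_quotient_span_singleton D (mem_nonZeroDivisors_of_ne_zero hδ))) hDD hf1 hf2]
  · have hfl : IsFiniteLength D D := Module.length_ne_top_iff.mp hDD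
    have hfl2 : IsFiniteLength D (Fin n → D) := by
      obtain ⟨hn, ha⟩ := isFiniteLength_iff_isNoetherian_isArtinian.mp hfl
      exact isFiniteLength_iff_isNoetherian_isArtinian.mpr ⟨inferInstance, inferInstance⟩
    exact len_of_fl _ _ D (mact_map_zero F.phi F.psi F.phi_psi π hπg D)
      (mact_map_zero F.psi F.phi F.psi_phi π hπg D) hfl2

/-- (KPT) surfaces. -/
theorem mu_zero_three (κ : Type u) [Field κ] (g : MvPolynomial (Fin 3) κ) (hg : Prime g) (E : ℕ)
    (hE : ∀ i, (X i : MvPolynomial (Fin 3) κ) ^ E ∈ jacR g) : MuZero g := by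
  intro r F W _ _ _
  have hg0 : g ≠ 0 := hg.ne_zero
  have hpr : (Ideal.span {g}).IsPrime := (Ideal.span_singleton_prime hg0).mpr hg
  obtain ⟨nu, h0, hnu⟩ := herb_mf_j hE hg0 F
  have key : nu.val W = 0 := by
    refine nu.zero_of_domain h0 ?_ W inferInstance
    intro Q hQ hQ0
    obtain ⟨q, hq, hq0⟩ := Submodule.exists_mem_ne_zero_of_ne_bot hQ0
    have hdom : IsDomain ((MvPolynomial (Fin 3) κ ⧸ Ideal.span {g}) ⧸ Q) :=
      Ideal.Quotient.isDomain Q
    let mkQ : (MvPolynomial (Fin 3) κ ⧸ Ideal.span {g}) →+*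
      (MvPolynomial (Fin 3) κ ⧸ Ideal.span {g}) ⧸ Q := Ideal.Quotient.mk Q
    have hQs : Function.Surjective mkQ := Ideal.Quotient.mk_surjective
    let π : MvPolynomial (Fin 3) κ →+* (MvPolynomial (Fin 3) κ ⧸ Ideal.span {g}) ⧸ Q :=
      mkQ.comp (Ideal.Quotient.mk (Ideal.span {g}))
    have hπs : Function.Surjective π := hQs.comp Ideal.Quotient.mk_surjective
    have hπg : π g = 0 := by
      show mkQ (Ideal.Quotient.mk (Ideal.span {g}) g) = 0
      rw [Ideal.Quotient.eq_zero_iff_mem.mpr (Ideal.mem_span_singleton_self g), map_zero]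
    -- the dimension
    have hdim : ringKrullDim ((MvPolynomial (Fin 3) κ ⧸ Ideal.span {g}) ⧸ Q) ≤ 1 := by
      have d1 : ringKrullDim (MvPolynomial (Fin 3) κ) = 3 := by
        rw [MvPolynomial.ringKrullDim_of_isNoetherianRing, ringKrullDim_eq_zero_of_field]
        simp
      have d2 : ringKrullDim (MvPolynomial (Fin 3) κ ⧸ Ideal.span {g}) + 1 ≤
          ringKrullDim (MvPolynomial (Fin 3) κ) :=
        ringKrullDim_quotient_succ_le_of_nonZeroDivisor (mem_nonZeroDivisors_of_ne_zero hg0)
      have d3 : ringKrullDim ((MvPolynomial (Fin 3) κ ⧸ Ideal.span {g}) ⧸ Q) + 1 ≤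
          ringKrullDim (MvPolynomial (Fin 3) κ ⧸ Ideal.span {g}) :=
        ringKrullDim_succ_le_of_surjective mkQ hQs (mem_nonZeroDivisors_of_ne_zero hq0)
          (Ideal.Quotient.eq_zero_iff_mem.mpr hq)
      rw [d1] at d2
      have e2 : (3 : WithBot ℕ∞) = 2 + 1 := by norm_num
      have e1 : (2 : WithBot ℕ∞) = 1 + 1 := by norm_num
      rw [e2, ENat.WithBot.add_le_add_one_right_iff] at d2
      have d4 := d3.trans d2
      rw [e1, ENat.WithBot.add_le_add_one_right_iff] at d4
      exact d4
    let e : ((MvPolynomial (Fin 3) κ ⧸ Ideal.span {g}) ⧸ Q)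
        ≃ₗ[MvPolynomial (Fin 3) κ ⧸ Ideal.span {g}]
        Res mkQ ((MvPolynomial (Fin 3) κ ⧸ Ideal.span {g}) ⧸ Q) :=
      { toFun := fun a => a
        invFun := fun a => a
        left_inv := fun _ => rfl
        right_inv := fun _ => rfl
        map_add' := fun _ _ => rfl
        map_smul' := fun a b => by
          obtain ⟨b, rfl⟩ := Ideal.Quotient.mk_surjective b
          rfl }
    -- finiteness
    have hfl : ∀ F : MF g r, Module.length ((MvPolynomial (Fin 3) κ ⧸ Ideal.span {g}) ⧸ Q)
        (HH (F.phi.map π) (F.psi.map π) ((MvPolynomial (Fin 3) κ ⧸ Ideal.span {g}) ⧸ Q)) ≠ ⊤ := by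
      intro F
      rw [← HH_length_res π hπs F.phi F.psi]
      have hfin : Module.Finite (MvPolynomial (Fin 3) κ)
          (Res π ((MvPolynomial (Fin 3) κ ⧸ Ideal.span {g}) ⧸ Q)) :=
        res_finite π (RingHom.Finite.of_surjective _ hπs)
      exact hh_length_j hE F _
    rw [nu.val_congr e, hnu, HH_length_res mkQ hQs, HH_length_res mkQ hQs]
    have hm := len_dim_le_one hg F π hπs hπg hdim (hfl F) (hfl F.swap)
    rw [sub_eq_zero]
    exact congrArg (fun n : ℕ => (n : ℂ)) hm
  rw [hnu] at key
  exact Nat.cast_injective (R := ℂ) (sub_eq_zero.mp key)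

end Pool.Agent.HT51
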