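import Pool.Agent.HT51.KpG
import Pool.Agent.HT51.KpI
import Pool.Agent.HT51.KpF
import Pool.Agent.HT51.KpT
import Pool.Agent.HT51.SpQ

/-!
# Hyperbolic planes over three variables
-/

universe u

namespace Pool.Agent.HT51

open Pool.Agent.HT21 TensorProduct MvPolynomial

theorem lenfin_of_equiv {R R' : Type u} [CommRing R] [CommRing R'] (e : R ≃+* R') {f : R}
    (h : ∀ (r : ℕ) (F : MF (e f) r) (W : Type u) [AddCommGroup W] [Module R' W]
      [Module.Finite R' W], Module.length R' (HH F.phi F.psi W) ≠ ⊤)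
    (r : ℕ) (F : MF f r) (W : Type u) [AddCommGroup W] [Module (R ⧸ Ideal.span {f}) W]
    [Module.Finite (R ⧸ Ideal.span {f}) W] :
    Module.length (R ⧸ Ideal.span {f}) (HH (F.phi.map (Ideal.Quotient.mk (Ideal.span {f})))
        (F.psi.map (Ideal.Quotient.mk (Ideal.span {f}))) W) ≠ ⊤ := by
  have hfin1 : Module.Finite R (Res (Ideal.Quotient.mk (Ideal.span {f})) W) :=
    res_finite _ (RingHom.Finite.of_surjective _ Ideal.Quotient.mk_surjective)
  have hfin2 : Module.Finite R'
      (Res (e.symm : R' →+* R) (Res (Ideal.Quotient.mk (Ideal.span {f})) W)) :=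
    res_finite _ (RingHom.Finite.of_surjective _ e.symm.surjective)
  have h1 := h r (F.map (e : R →+* R'))
    (Res (e.symm : R' →+* R) (Res (Ideal.Quotient.mk (Ideal.span {f})) W))
  have h2 := HH_length_res (e : R →+* R') e.surjective F.phi F.psi
    (Res (e.symm : R' →+* R) (Res (Ideal.Quotient.mk (Ideal.span {f})) W))
  let i : Res (e : R →+* R') (Res (e.symm : R' →+* R) (Res (Ideal.Quotient.mk (Ideal.span {f})) W))
      ≃ₗ[R] Res (Ideal.Quotient.mk (Ideal.span {f})) W :=
    { toFun := fun x => x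
      invFun := fun x => x
      left_inv := fun _ => rfl
      right_inv := fun _ => rfl
      map_add' := fun _ _ => rfl
      map_smul' := fun a x =>
        congrArg (fun b : R => @HSMul.hSMul (R ⧸ Ideal.span {f}) W W _
          (Ideal.Quotient.mk (Ideal.span {f}) b) x) (e.symm_apply_apply a) }
  rw [← HH_length_res _ Ideal.Quotient.mk_surjective, ← HH_length_congr F.phi F.psi i, h2]
  exact h1

lemma susp_props (κ : Type u) [Field κ] (g : MvPolynomial (Fin 3) κ) (E : ℕ)
    (hE0 : 0 < E) (hE : ∀ i, (X i : MvPolynomial (Fin 3) κ) ^ E ∈ jacR g) (k : ℕ) :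
    (∀ i, (X i : MvPolynomial (Fin (3 + 2 * k)) κ) ^ E ∈ jacR (susp κ g k)) := by
  induction k with
  | zero => exact hE
  | succ k ih => exact fun i => jac_kp κ (susp κ g k) hE0 ih i

lemma jacR_ne_zero {k : Type u} [Field k] {n : ℕ} {f : MvPolynomial (Fin (n + 1)) k} {E : ℕ}
    (hE : ∀ i, (X i : MvPolynomial (Fin (n + 1)) k) ^ E ∈ jacR f) : f ≠ 0 := by
  intro h
  have h1 := hE 0
  rw [h] at h1
  have h2 : jacR (0 : MvPolynomial (Fin (n + 1)) k) = ⊥ := by
    unfold jacR
    rw [Ideal.span_eq_bot]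
    rintro y (hy | ⟨i, rfl⟩)
    · exact hy
    · exact map_zero _
  rw [h2, Ideal.mem_bot] at h1
  exact pow_ne_zero E (X_ne_zero 0) h1

theorem mu_zero_susp (κ : Type u) [Field κ] (g : MvPolynomial (Fin 3) κ) (hg : Prime g) (E : ℕ)
    (hE0 : 0 < E) (hE : ∀ i, (X i : MvPolynomial (Fin 3) κ) ^ E ∈ jacR g) (k : ℕ) :
    MuZero (susp κ g k) := by
  induction k with
  | zero => exact mu_zero_three κ g hg E hE
  | succ k ih =>
    have hEk := susp_props κ g E hE0 hE k
    have hEk1 := susp_props κ g E hE0 hE (k + 1)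
    obtain ⟨e, he⟩ := exists_kp_equiv κ (susp κ g k)
    have hek : e (kpW (susp κ g k)) = susp κ g (k + 1) := he
    have h3 : 3 + 2 * k = (2 + 2 * k) + 1 := by ring
    have hgen : ∀ (m : ℕ) (f : MvPolynomial (Fin m) κ)
        (_ : ∀ i, (X i : MvPolynomial (Fin m) κ) ^ E ∈ jacR f) (_ : ∃ n, m = n + 1),
        f ≠ 0 ∧ ∀ nu : AddFn (MvPolynomial (Fin m) κ ⧸ Ideal.span {f}),
          nu.val (MvPolynomial (Fin m) κ ⧸ Ideal.span {f}) = 0 →
          (∀ (r : ℕ) (F : MF f r),
            nu.val (Cok (F.phi.map (Ideal.Quotient.mk (Ideal.span {f})))) = 0) →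
          ∀ (W : Type u) [AddCommGroup W] [Module (MvPolynomial (Fin m) κ ⧸ Ideal.span {f}) W]
            [Module.Finite (MvPolynomial (Fin m) κ ⧸ Ideal.span {f}) W], nu.val W = 0 := by
      rintro _ f hf ⟨n, rfl⟩
      have hf0 := jacR_ne_zero hf
      exact ⟨hf0, fun nu h0 h W => gen_any κ f hf0 nu h0 h W⟩
    obtain ⟨hf0, hgen⟩ := hgen _ (susp κ g k) hEk ⟨_, h3⟩
    have h4 : MuZero (kpW (susp κ g k)) := by
      refine kp_step (ZeroProp.mvPolynomial κ _) (susp κ g k) hf0 hgen ?_ ih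
      refine lenfin_of_equiv e ?_
      intro r F W _ _ _
      refine hh_length_j (E := E) ?_ F W
      rw [hek]
      exact hEk1
    have h5 := h4.of_equiv e
    rw [hek] at h5
    exact h5

/-- The model `g(x, y, z) + ∑ u_i v_i`. -/
noncomputable def hypF (κ : Type u) [Field κ] (g : MvPolynomial (Fin 3) κ) (k : ℕ) :
    MvPolynomial (Fin 3 ⊕ (Fin k ⊕ Fin k)) κ :=
  rename Sum.inl g + ∑ i : Fin k, X (Sum.inr (Sum.inl i)) * X (Sum.inr (Sum.inr i))

lemma exists_rename (κ : Type u) [Field κ] (g : MvPolynomial (Fin 3) κ) (k : ℕ) :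
    ∃ e : Fin (3 + 2 * k) ≃ Fin 3 ⊕ (Fin k ⊕ Fin k), rename e (susp κ g k) = hypF κ g k := by
  induction k with
  | zero =>
    refine ⟨(Equiv.sumEmpty (Fin 3) (Fin 0 ⊕ Fin 0)).symm, ?_⟩
    unfold hypF
    rw [Finset.univ_eq_empty, Finset.sum_empty, add_zero]
    rfl
  | succ k ih =>
    obtain ⟨e, he⟩ := ih
    let s : Fin 3 ⊕ (Fin k ⊕ Fin k) → Fin 3 ⊕ (Fin (k + 1) ⊕ Fin (k + 1)) :=
      Sum.map id (Sum.map Fin.succ Fin.succ)
    have hs : Function.Injective s :=
      Function.injective_id.sumMap ((Fin.succ_injective k).sumMap (Fin.succ_injective k))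
    let t : Fin ((3 + 2 * k) + 1 + 1) → Fin 3 ⊕ (Fin (k + 1) ⊕ Fin (k + 1)) :=
      Fin.cons (Sum.inr (Sum.inl 0)) (Fin.cons (Sum.inr (Sum.inr 0)) (fun i => s (e i)))
    have ht0 : t 0 = Sum.inr (Sum.inl 0) := rfl
    have ht1 : t 1 = Sum.inr (Sum.inr 0) := rfl
    have ht2 : ∀ i : Fin (3 + 2 * k), t i.succ.succ = s (e i) := fun i => rfl
    have hs0 : ∀ a, s a ≠ Sum.inr (Sum.inl 0) := by
      rintro (a | a | a) h
      · exact absurd h (by simp [s])
      · have h1 : (Sum.inr (Sum.inl a.succ) : Fin 3 ⊕ (Fin (k + 1) ⊕ Fin (k + 1)))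
            = Sum.inr (Sum.inl 0) := h
        exact Fin.succ_ne_zero a (Sum.inl.inj (Sum.inr.inj h1))
      · exact absurd h (by simp [s])
    have hs1 : ∀ a, s a ≠ Sum.inr (Sum.inr 0) := by
      rintro (a | a | a) h
      · exact absurd h (by simp [s])
      · exact absurd h (by simp [s])
      · have h1 : (Sum.inr (Sum.inr a.succ) : Fin 3 ⊕ (Fin (k + 1) ⊕ Fin (k + 1)))
            = Sum.inr (Sum.inr 0) := h
        exact Fin.succ_ne_zero a (Sum.inr.inj (Sum.inr.inj h1))
    have htinj : Function.Injective t := by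
      intro a b
      refine Fin.cases ?_ (fun a => ?_) a <;> refine Fin.cases ?_ (fun b => ?_) b
      · intro _; rfl
      · refine Fin.cases ?_ (fun b => ?_) b
        · intro h; exact absurd h (by rw [ht0]; show _ ≠ t 1; rw [ht1]; simp)
        · intro h; rw [ht0, ht2] at h; exact absurd h.symm (hs0 _)
      · refine Fin.cases ?_ (fun a => ?_) a
        · intro h; exact absurd h (by rw [ht0]; show t 1 ≠ _; rw [ht1]; simp)
        · intro h; rw [ht0, ht2] at h; exact absurd h (hs0 _)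
      · refine Fin.cases ?_ (fun a => ?_) a <;> refine Fin.cases ?_ (fun b => ?_) b
        · intro _; rfl
        · intro h
          have h1 : t 1 = t b.succ.succ := h
          rw [ht1, ht2] at h1; exact absurd h1.symm (hs1 _)
        · intro h
          have h1 : t a.succ.succ = t 1 := h
          rw [ht1, ht2] at h1; exact absurd h1 (hs1 _)
        · intro h
          rw [ht2, ht2] at h
          rw [e.injective (hs h)]
    have hcard : Fintype.card (Fin ((3 + 2 * k) + 1 + 1))
        = Fintype.card (Fin 3 ⊕ (Fin (k + 1) ⊕ Fin (k + 1))) := by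
      simp only [Fintype.card_fin, Fintype.card_sum]
      ring
    have htbij : Function.Bijective t :=
      (Fintype.bijective_iff_injective_and_card t).mpr ⟨htinj, hcard⟩
    refine ⟨Equiv.ofBijective t htbij, ?_⟩
    show rename t (X 0 * X 1 + rename (fun i : Fin (3 + 2 * k) => i.succ.succ) (susp κ g k))
      = hypF κ g (k + 1)
    rw [map_add, map_mul, rename_X, rename_X, ht0, ht1, rename_rename]
    have h1 : t ∘ (fun i : Fin (3 + 2 * k) => i.succ.succ) = s ∘ e := by
      funext i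
      exact ht2 i
    rw [h1, ← rename_rename, he]
    unfold hypF
    rw [map_add, rename_rename, map_sum, Fin.sum_univ_succ]
    have h2 : s ∘ Sum.inl = Sum.inl := rfl
    rw [h2]
    have h3 : ∀ i : Fin k, rename s (X (Sum.inr (Sum.inl i)) * X (Sum.inr (Sum.inr i)) :
        MvPolynomial (Fin 3 ⊕ (Fin k ⊕ Fin k)) κ) =
        X (Sum.inr (Sum.inl i.succ)) * X (Sum.inr (Sum.inr i.succ)) := by
      intro i
      rw [map_mul, rename_X, rename_X]
      rfl
    rw [Finset.sum_congr rfl fun i _ => h3 i]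
    ring

theorem hd_corank (κ : Type u) [Field κ] (g : MvPolynomial (Fin 3) κ) (hg : Prime g) (E : ℕ)
    (hE : ∀ i, (X i : MvPolynomial (Fin 3) κ) ^ E ∈ jacR g) (k : ℕ) {r s : ℕ}
    (F : MF (hypF κ g k) r) (G : MF (hypF κ g k) s) : hd F G = 0 := by
  have hE' : ∀ i, (X i : MvPolynomial (Fin 3) κ) ^ (E + 1) ∈ jacR g := fun i => by
    rw [pow_succ]
    exact Ideal.mul_mem_right _ _ (hE i)
  have h1 := mu_zero_susp κ g hg (E + 1) (Nat.succ_pos _) hE' k
  obtain ⟨e, he⟩ := exists_rename κ g k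
  have h2 := h1.of_equiv (renameEquiv κ e).toRingEquiv
  have h3 : (renameEquiv κ e).toRingEquiv (susp κ g k) = hypF κ g k := he
  rw [h3] at h2
  exact h2.hd_eq F G

end Pool.Agent.HT51
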