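import Pool.Agent.HT51.LinkZ
import Pool.Agent.HT21.FinalA
import Pool.Agent.HT21.Std
import Pool.Agent.HT21.ThetaAdd

/-!
# From the core theorem `G0` to `theta = 0` for diagonal leading forms

`R` regular local of dimension `d + 1`, `d` even, the residue field algebraic over a finite field,
`f` with weighted leading form `∑ c i * x i ^ n i`.
-/

universe u

namespace Pool.Agent.HT51

open MvPolynomial IsLocalRing Pool.Agent.HT21

section fn

variable {Q : Type u} [CommRing Q] [IsNoetherianRing Q] (V : Type u) [AddCommGroup V] [Module Q V]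
  (c e : ℕ) (he : c < 2 * e + 1)
  (hper : ∀ (W : Type u) [AddCommGroup W] [Module Q W] [Module.Finite Q W] (i : ℕ), c < i →
    torLen Q (i + 2) W V = torLen Q i W V)
  (hfin : ∀ (W : Type u) [AddCommGroup W] [Module Q W] [Module.Finite Q W] (i : ℕ), c < i →
    torLen Q i W V ≠ ⊤)

/-- `theta(-, V)` as an additive function. -/
noncomputable def thetaFn : AddFn Q where
  val W _ _ := ((theta Q e W V : ℤ) : ℂ)
  add' L M N _ _ _ _ _ _ f g hf hfg hg hM := by
    have h := theta_add V c (fun W _ _ _ => hper W) (fun W _ _ _ => hfin W) M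
      (LinearMap.ker g) e he
    have e1 : L ≃ₗ[Q] LinearMap.ker g :=
      (LinearEquiv.ofInjective f hf).trans
        (LinearEquiv.ofEq _ _ (LinearMap.exact_iff.mp hfg).symm)
    have e2 : (M ⧸ LinearMap.ker g) ≃ₗ[Q] N := g.quotKerEquivOfSurjective hg
    rw [h, ← theta_congr V L _ e1 e, theta_congr V _ N e2 e]
    push_cast
    rfl

lemma thetaFn_val (W : Type u) [AddCommGroup W] [Module Q W] :
    (thetaFn V c e he hper hfin).val W = ((theta Q e W V : ℤ) : ℂ) := rfl

lemma thetaFn_self : (thetaFn V c e he hper hfin).val Q = 0 := by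
  rw [thetaFn_val, theta, torLen_projective, torLen_projective]
  simp

include hper hfin he in
lemma theta_zero (hz : ZeroProp Q) (W : Type u) [AddCommGroup W] [Module Q W]
    [Module.Finite Q W] : theta Q e W V = 0 := by
  have h := hz (thetaFn V c e he hper hfin) (thetaFn_self V c e he hper hfin) W
  rw [thetaFn_val] at h
  exact_mod_cast h

end fn

/-- finite dimensionality from nilpotency of the variables -/
lemma link_finite {k : Type u} [Field k] {n : ℕ} (J : Ideal (MvPolynomial (Fin n) k))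
    (a : Fin n → ℕ) (h : ∀ i, (X i : MvPolynomial (Fin n) k) ^ a i ∈ J) :
    Module.Finite k (MvPolynomial (Fin n) k ⧸ J) := by
  have hint : Algebra.IsIntegral k (MvPolynomial (Fin n) k ⧸ J) := by
    constructor
    intro y
    obtain ⟨p, rfl⟩ := Ideal.Quotient.mk_surjective y
    induction p using MvPolynomial.induction_on with
    | C a => exact isIntegral_algebraMap (R := k) (A := MvPolynomial (Fin n) k ⧸ J) (x := a)
    | add p q hp hq =>
      rw [map_add]
      exact hp.add hq
    | mul_X p i hp =>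
      rw [map_mul]
      refine hp.mul ?_
      refine IsIntegral.of_pow (n := a i + 1) (Nat.succ_pos _) ?_
      rw [← map_pow, Ideal.Quotient.eq_zero_iff_mem.mpr]
      · exact isIntegral_zero
      · rw [pow_succ]
        exact Ideal.mul_mem_right _ _ (h i)
  exact Algebra.IsIntegral.finite

lemma link_jac {k : Type u} [Field k] {m : ℕ} (c : Fin m → k) (hc : ∀ i, c i ≠ 0)
    (n : Fin m → ℕ) (hn : ∀ i, (n i : k) ≠ 0) :
    Module.Finite k (MvPolynomial (Fin m) k ⧸ jacIdeal (dform k c n)) := by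
  classical
  refine link_finite _ (fun i => n i - 1) fun i => ?_
  have h1 : pderiv i (dform k c n) ∈ jacIdeal (dform k c n) :=
    Ideal.subset_span (Or.inr ⟨i, rfl⟩)
  have h2 : pderiv i (dform k c n) = C (c i * n i) * X i ^ (n i - 1) := by
    unfold dform
    rw [map_sum, Finset.sum_eq_single i]
    · rw [pderiv_C_mul, pderiv_pow, pderiv_X_self, mul_one, C_mul, map_natCast, mul_assoc]
    · intro j _ hj
      rw [pderiv_C_mul, pderiv_pow, pderiv_X_of_ne hj, mul_zero, mul_zero]
    · intro h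
      exact absurd (Finset.mem_univ i) h
  have h3 : (X i : MvPolynomial (Fin m) k) ^ (n i - 1)
      = C (c i * n i)⁻¹ * (C (c i * n i) * X i ^ (n i - 1)) := by
    rw [← mul_assoc, ← C_mul, inv_mul_cancel₀ (mul_ne_zero (hc i) (hn i)), C_1, one_mul]
  rw [h3, ← h2]
  exact Ideal.mul_mem_left _ _ h1

theorem diag_vanish (hG : G0.{u}) {R : Type u} [CommRing R] [IsLocalRing R] [IsNoetherianRing R]
    (d : ℕ) (hd : Even d) (x : Fin (d + 1) → R)
    (hx : Ideal.span (Set.range x) = maximalIdeal R)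
    (hreg : RingTheory.Sequence.IsRegular R (List.ofFn x))
    (hκ : ∀ a : ResidueField R, a ≠ 0 → ∃ m : ℕ, 0 < m ∧ a ^ m = 1)
    (n w : Fin (d + 1) → ℕ) (N : ℕ) (hN : 0 < N) (hwn : ∀ i, w i * n i = N)
    (c : Fin (d + 1) → R) (hc : ∀ i, IsUnit (c i)) (hn : ∀ i, IsUnit ((n i : ℕ) : R))
    (f : R) (hf : f - ∑ i, c i * x i ^ n i ∈ (wFilt x w).F (N + 1))
    (L M : Type u) [AddCommGroup L] [Module (R ⧸ Ideal.span {f}) L]
    [AddCommGroup M] [Module (R ⧸ Ideal.span {f}) M]
    [Module.Finite (R ⧸ Ideal.span {f}) L] [Module.Finite (R ⧸ Ideal.span {f}) M] :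
    (∀ i, d < i → torLen (R ⧸ Ideal.span {f}) i L M ≠ ⊤ ∧
      torLen (R ⧸ Ideal.span {f}) (i + 1) L M = torLen (R ⧸ Ideal.span {f}) i L M) ∧
    ∀ e, d ≤ 2 * e → theta (R ⧸ Ideal.span {f}) e L M = 0 := by
  classical
  have hw : ∀ i, 0 < w i := by
    intro i
    refine Nat.pos_of_ne_zero fun h => ?_
    have := hwn i
    rw [h, zero_mul] at this
    omega
  let P : MvPolynomial (Fin (d + 1)) R := ∑ i, C (c i) * X i ^ n i
  have hP : P.IsWeightedHomogeneous w N := by
    refine IsWeightedHomogeneous.sum _ _ _ fun i _ => ?_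
    have h1 := (isWeightedHomogeneous_C w (c i)).mul ((isWeightedHomogeneous_X R w i).pow (n i))
    rw [zero_add, smul_eq_mul, mul_comm (n i) (w i), hwn] at h1
    exact h1
  have hPm : P.map (residue R) = dform (ResidueField R) (fun i => residue R (c i)) n := by
    show map (residue R) (∑ i, C (c i) * X i ^ n i) = _
    unfold dform
    rw [map_sum]
    refine Finset.sum_congr rfl fun i _ => ?_
    rw [map_mul, map_pow, map_C, map_X]
  have hck : ∀ i, residue R (c i) ≠ 0 := fun i =>
    ((hc i).map (residue R)).ne_zero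
  have hnk : ∀ i, ((n i : ℕ) : ResidueField R) ≠ 0 := by
    intro i
    have h1 := ((hn i).map (residue R)).ne_zero
    rwa [map_natCast] at h1
  have hn0 : ∀ i, n i ≠ 0 := by
    intro i h
    refine hnk i ?_
    rw [h, Nat.cast_zero]
  have hP0 : P.map (residue R) ≠ 0 := by
    intro h
    have h1 := congrArg (coeff (Finsupp.single (0 : Fin (d + 1)) (n 0))) h
    rw [hPm, coeff_zero] at h1
    unfold dform at h1
    rw [coeff_sum, Finset.sum_eq_single (0 : Fin (d + 1))] at h1
    · rw [coeff_C_mul, coeff_X_pow, if_pos rfl, mul_one] at h1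
      exact hck 0 h1
    · intro j _ hj
      rw [coeff_C_mul, coeff_X_pow, if_neg, mul_zero]
      intro h2
      rcases (Finsupp.single_eq_single_iff _ _ _ _).mp h2 with h3 | h3
      · exact hj h3.1
      · exact hn0 j h3.1
    · intro h2
      exact absurd (Finset.mem_univ _) h2
  have hf' : f - aeval x P ∈ (wFilt x w).F (N + 1) := by
    have h1 : aeval x P = ∑ i, c i * x i ^ n i := by
      show aeval x (∑ i, C (c i) * X i ^ n i) = _
      rw [map_sum]
      refine Finset.sum_congr rfl fun i _ => ?_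
      rw [map_mul, map_pow, aeval_X, aeval_C]
      rfl
    rw [h1]
    exact hf
  have hJ : Module.Finite (ResidueField R) (MvPolynomial (Fin (d + 1)) (ResidueField R) ⧸
      jacIdeal (P.map (residue R))) := by
    rw [hPm]
    exact link_jac _ hck n hnk
  -- the graded ring
  obtain ⟨φ, hφ, hker, -, -⟩ := gr_hyp x w hw hx hreg.toIsWeaklyRegular N P hP hP0 f hf'
  rw [hPm] at hker
  have hz : ZeroProp (wFilt (fun i => Ideal.Quotient.mk (Ideal.span {f}) (x i)) w).gr :=
    zp_alg hG (ResidueField R) hκ (by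
      obtain ⟨r, rfl⟩ := hd
      exact ⟨r, by ring⟩) n hnk _ hck φ hφ hker
  have hnoeth : IsNoetherianRing (wFilt (fun i => Ideal.Quotient.mk (Ideal.span {f}) (x i)) w).gr :=
    isNoetherianRing_of_surjective _ _ φ hφ
  let 𝓛 := MFilt.std (wFilt (fun i => Ideal.Quotient.mk (Ideal.span {f}) (x i)) w) L
  let 𝓜 := MFilt.std (wFilt (fun i => Ideal.Quotient.mk (Ideal.span {f}) (x i)) w) M
  have hL : 𝓛.Good := MFilt.std_good _ L
  have hM : 𝓜.Good := MFilt.std_good _ M
  have hLf := gr_finite 𝓛 hL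
  have hMf := gr_finite 𝓜 hM
  obtain ⟨h1, h2⟩ := tangent_cone d x w hw hx hreg N hN P hP hP0 f hf' hJ L M 𝓛 𝓜 hL hM
  have hth : ∀ e, d ≤ 2 * e → theta (R ⧸ Ideal.span {f}) e L M = 0 := by
    intro e he
    rw [h2 e he]
    refine theta_zero 𝓜.gr d e (by omega) ?_ ?_ hz 𝓛.gr
    · intro W _ _ _ i hi
      exact hypG_per d x w hw hx hreg N hN P hP hP0 f hf' W 𝓜.gr i hi
    · intro W _ _ _ i hi
      exact hypG_fin d x w hw hx hreg N hN P hP hP0 f hf' hJ W 𝓜.gr i hi
  refine ⟨fun i hi => ⟨(h1 i hi).1, ?_⟩, hth⟩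
  refine const_of_theta_zero L M d (fun i hi => ?_) (fun i hi => (h1 i hi).1)
    (fun e he => hth e (by omega)) i hi
  exact hypA d x w hw hx hreg N hN P hP hP0 f hf' L M i hi

end Pool.Agent.HT51
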