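import Pool.Agent.HT51.Twist

/-!
# From diagonal hypersurface rings over finite fields to `κ[X]/(∑ c i X i ^ n i)`,
`κ` algebraic over a finite field
-/

universe u

namespace Pool.Agent.HT51

open TensorProduct MvPolynomial

/-- The form `∑ c i * X i ^ n i`. -/
noncomputable def dform (κ : Type u) [Field κ] {N : ℕ} (c : Fin N → κ) (n : Fin N → ℕ) :
    MvPolynomial (Fin N) κ := ∑ i, C (c i) * X i ^ n i

theorem exists_big (κ : Type u) [Field κ] [Finite κ] {N : ℕ} (n : Fin N → ℕ)
    (hn : ∀ i, (n i : κ) ≠ 0) (c : Fin N → κ) (hc : ∀ i, c i ≠ 0) :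
    ∃ (k : Type u) (_ : Field k) (_ : Fintype k) (_ : Algebra κ k) (_ : FiniteDimensional κ k)
      (b : Fin N → k), (∀ i, b i ≠ 0) ∧ (∀ i, b i ^ n i = algebraMap κ k (c i)) ∧
      ∀ i, n i ∣ Fintype.card k - 1 := by
  classical
  have hn0 : ∀ i, 0 < n i := by
    intro i
    refine Nat.pos_of_ne_zero fun h => hn i ?_
    rw [h, Nat.cast_zero]
  have h1 : ∀ i, ∃ b : AlgebraicClosure κ, b ^ n i = algebraMap κ (AlgebraicClosure κ) (c i) :=
    fun i => IsAlgClosed.exists_pow_nat_eq _ (hn0 i)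
  choose b hb using h1
  have h2 : ∀ i, ∃ ζ : AlgebraicClosure κ, IsPrimitiveRoot ζ (n i) := by
    intro i
    have : NeZero ((n i : ℕ) : κ) := ⟨hn i⟩
    exact HasEnoughRootsOfUnity.exists_primitiveRoot (AlgebraicClosure κ) (n i)
  choose ζ hζ using h2
  let S : Set (AlgebraicClosure κ) := Set.range b ∪ Set.range ζ
  have : Finite S := Set.Finite.to_subtype ((Set.finite_range b).union (Set.finite_range ζ))
  let K := IntermediateField.adjoin κ S
  have hK : FiniteDimensional κ K :=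
    IntermediateField.finiteDimensional_adjoin fun x _ => Algebra.IsIntegral.isIntegral x
  have hKf : Finite K := Module.finite_of_finite κ
  let _ : Fintype K := Fintype.ofFinite K
  have hbK : ∀ i, b i ∈ K := fun i =>
    IntermediateField.subset_adjoin κ S (Or.inl ⟨i, rfl⟩)
  have hζK : ∀ i, ζ i ∈ K := fun i =>
    IntermediateField.subset_adjoin κ S (Or.inr ⟨i, rfl⟩)
  have hb0 : ∀ i, b i ≠ 0 := by
    intro i h
    have h3 := hb i
    rw [h, zero_pow (hn0 i).ne'] at h3
    exact hc i ((map_eq_zero (algebraMap κ (AlgebraicClosure κ))).mp h3.symm)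
  refine ⟨K, inferInstance, inferInstance, inferInstance, hK, fun i => ⟨b i, hbK i⟩, ?_, ?_, ?_⟩
  · intro i h
    exact hb0 i (congrArg Subtype.val h)
  · intro i
    refine Subtype.ext ?_
    exact hb i
  · intro i
    have h3 : IsPrimitiveRoot (⟨ζ i, hζK i⟩ : K) (n i) :=
      IsPrimitiveRoot.coe_submonoidClass_iff.mp (hζ i)
    refine h3.dvd_of_pow_eq_one _ ?_
    refine FiniteField.pow_card_sub_one_eq_one _ ?_
    intro h
    have h4 := h3.pow_eq_one
    rw [h, zero_pow (hn0 i).ne'] at h4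
    exact zero_ne_one h4

/-- The statement of the core theorem `g0`. -/
def G0 : Prop :=
  ∀ (k : Type u) [Field k] [Fintype k] {N : ℕ} (_ : Odd N) (n m : Fin N → ℕ)
    (_ : ∀ i, n i * m i = Fintype.card k - 1)
    (lam : AddFn (DiagRing k n)) (_ : lam.val (DiagRing k n) = 0)
    (W : Type u) [AddCommGroup W] [Module (DiagRing k n) W] [Module.Finite (DiagRing k n) W],
    lam.val W = 0

lemma scl_dform {κ k : Type u} [Field κ] [Field k] [Algebra κ k] {N : ℕ} (n : Fin N → ℕ)
    (c : Fin N → κ) (c' b : Fin N → k) (h : ∀ i, c' i * b i ^ n i = algebraMap κ k (c i)) :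
    scl b (dform k c' n) = map (algebraMap κ k) (dform κ c n) := by
  unfold dform
  rw [map_sum, map_sum]
  refine Finset.sum_congr rfl fun i _ => ?_
  rw [map_mul, map_mul, map_pow, map_pow, scl_C, scl_X, map_C, map_X, mul_pow, ← C_pow, ← h,
    C_mul, mul_assoc]

lemma diag_eq (k : Type u) [Field k] {N : ℕ} (n : Fin N → ℕ) : diag k n = dform k (fun _ => 1) n := by
  unfold diag dform
  refine Finset.sum_congr rfl fun i _ => ?_
  rw [C_1, one_mul]

theorem zp_finite (hG : G0.{u}) (κ : Type u) [Field κ] [Finite κ] {N : ℕ} (hN : Odd N)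
    (n : Fin N → ℕ) (hn : ∀ i, (n i : κ) ≠ 0) (c : Fin N → κ) (hc : ∀ i, c i ≠ 0)
    {Q : Type u} [CommRing Q] [Algebra κ Q] (π : MvPolynomial (Fin N) κ →ₐ[κ] Q)
    (hπ : Function.Surjective π) (hker : RingHom.ker π.toRingHom = Ideal.span {dform κ c n}) :
    ZeroProp Q := by
  obtain ⟨k, _, _, _, _, b, hb0, hb, hd⟩ := exists_big κ n hn c hc
  have hg : scl b (diag k n) = map (algebraMap κ k) (dform κ c n) := by
    rw [diag_eq]
    refine scl_dform n c _ b fun i => ?_
    rw [one_mul, hb]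
  obtain ⟨ι, Ψ, h, -⟩ := tw_exists (dform κ c n) (diag k n) b hb0 hg π hπ hker (dmk k n)
    Ideal.Quotient.mk_surjective Ideal.mk_ker
  refine tw_descend ι Ψ h ?_
  choose m hm using hd
  intro lam h0 W _ _ _
  exact hG k hN n m (fun i => (hm i).symm) lam h0 W

/-- `κ` such that every non-zero element is a root of unity. -/
theorem exists_small (κ : Type u) [Field κ] (hκ : ∀ a : κ, a ≠ 0 → ∃ m : ℕ, 0 < m ∧ a ^ m = 1)
    (S : Set κ) (hS : S.Finite) : ∃ K : Subfield κ, Finite K ∧ S ⊆ K := by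
  classical
  -- positive characteristic
  obtain ⟨p, hp⟩ := CharP.exists κ
  have hp0 : p ≠ 0 := by
    rintro rfl
    have : CharZero κ := CharP.charP_to_charZero κ
    obtain ⟨m, hm, h⟩ := hκ 2 two_ne_zero
    have h2 : ((2 ^ m : ℕ) : κ) = ((1 : ℕ) : κ) := by
      push_cast
      exact h
    have h3 := Nat.cast_injective h2
    have h4 : 1 < 2 ^ m := Nat.one_lt_two_pow hm.ne'
    omega
  have hpp : Fact p.Prime := ⟨(CharP.char_is_prime_or_zero κ p).resolve_right hp0⟩
  let _ : Algebra (ZMod p) κ := ZMod.algebra κ p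
  have hint : ∀ a : κ, IsIntegral (ZMod p) a := by
    intro a
    rcases eq_or_ne a 0 with rfl | ha
    · exact isIntegral_zero
    · obtain ⟨m, hm, h⟩ := hκ a ha
      refine IsIntegral.of_pow hm ?_
      rw [h]
      exact isIntegral_one
  have : Finite S := hS
  let K := IntermediateField.adjoin (ZMod p) S
  have hK : FiniteDimensional (ZMod p) K :=
    IntermediateField.finiteDimensional_adjoin fun x _ => hint x
  have hKf : Finite K := Module.finite_of_finite (ZMod p)
  exact ⟨K.toSubfield, hKf, fun x hx => IntermediateField.subset_adjoin (ZMod p) S hx⟩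

theorem zp_alg (hG : G0.{u}) (κ : Type u) [Field κ]
    (hκ : ∀ a : κ, a ≠ 0 → ∃ m : ℕ, 0 < m ∧ a ^ m = 1) {N : ℕ} (hN : Odd N)
    (n : Fin N → ℕ) (hn : ∀ i, (n i : κ) ≠ 0) (c : Fin N → κ) (hc : ∀ i, c i ≠ 0)
    {Q : Type u} [CommRing Q] (π : MvPolynomial (Fin N) κ →+* Q)
    (hπ : Function.Surjective π) (hker : RingHom.ker π = Ideal.span {dform κ c n}) :
    ZeroProp Q := by
  classical
  have hQ : IsNoetherianRing Q := isNoetherianRing_of_surjective _ _ π hπ
  refine ZeroProp.of_flat fun S => ?_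
  choose l hl using hπ
  -- the coefficients
  let T : Set κ := Set.range c ∪ ⋃ a ∈ S, ((l a).coeffs : Set κ)
  have hT : T.Finite := by
    refine (Set.finite_range c).union ?_
    exact Set.Finite.biUnion S.finite_toSet fun a _ => Finset.finite_toSet _
  obtain ⟨K, hK, hTK⟩ := exists_small κ hκ T hT
  have hcK : ∀ i, c i ∈ K := fun i => hTK (Or.inl ⟨i, rfl⟩)
  let c0 : Fin N → K := fun i => ⟨c i, hcK i⟩
  have hc0 : ∀ i, c0 i ≠ 0 := fun i h => hc i (congrArg Subtype.val h)
  have hn0 : ∀ i, (n i : K) ≠ 0 := by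
    intro i h
    refine hn i ?_
    have h2 := congrArg (algebraMap K κ) h
    rw [map_natCast, map_zero] at h2
    exact h2
  let Q0 : Type u := MvPolynomial (Fin N) K ⧸ Ideal.span {dform K c0 n}
  let π0 : MvPolynomial (Fin N) K →ₐ[K] Q0 := Ideal.Quotient.mkₐ K (Ideal.span {dform K c0 n})
  have hπ0 : Function.Surjective π0 := Ideal.Quotient.mk_surjective
  have hker0 : RingHom.ker π0.toRingHom = Ideal.span {dform K c0 n} := Ideal.mk_ker
  have hz : ZeroProp Q0 := zp_finite hG K hN n hn0 c0 hc0 π0 hπ0 hker0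
  have hg : scl (fun _ => (1 : κ)) (dform κ c n) = map (algebraMap K κ) (dform K c0 n) := by
    refine scl_dform n c0 c _ fun i => ?_
    rw [one_pow, mul_one]
    rfl
  obtain ⟨ι, Ψ, h, hι⟩ := tw_exists (dform K c0 n) (dform κ c n) (fun _ => (1 : κ))
    (fun _ => one_ne_zero) hg π0 hπ0 hker0 π (fun a => ⟨l a, hl a⟩) hker
  obtain ⟨hA, hAι, hfl⟩ := tw_flat ι Ψ h
  refine ⟨Q0, inferInstance, hA, hfl, hz, fun a ha => ?_⟩
  have hscl : ∀ p : MvPolynomial (Fin N) κ, scl (fun _ => ((1 : κ))⁻¹) p = p := by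
    intro p
    have h1 : scl (fun _ : Fin N => ((1 : κ))⁻¹) = RingHom.id _ := by
      refine MvPolynomial.ringHom_ext ?_ ?_
      · intro a
        simp
      · intro i
        rw [scl_X, inv_one, C_1, one_mul, RingHom.id_apply]
    rw [h1, RingHom.id_apply]
  have hr : l a ∈ Set.range (map (σ := Fin N) (algebraMap K κ)) := by
    refine mem_range_map_iff_coeffs_subset.mpr ?_
    intro x hx
    refine ⟨⟨x, hTK (Or.inr ?_)⟩, rfl⟩
    simp only [Set.mem_iUnion]
    exact ⟨a, ha, hx⟩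
  obtain ⟨p, hp⟩ := hr
  refine ⟨π0 p, ?_⟩
  rw [hAι, hι, hscl, hp, hl]

end Pool.Agent.HT51
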