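import Pool.Agent.HT51.ChDefs

/-!
# Loops of the successor map
-/

universe u

namespace Pool.Agent.HT51

open MvPolynomial

/-- `x 0 → x 1 → ... → x (L-1) → x 0` is a loop of `nx`. -/
structure IsLoop {σ : Type} (nx : σ → Option σ) (L : ℕ) (x : ℕ → σ) : Prop where
  two_le : 2 ≤ L
  inj : ∀ j k, j < L → k < L → x j = x k → j = k
  step : ∀ k, k + 1 < L → nx (x k) = some (x (k + 1))
  last : nx (x (L - 1)) = some (x 0)

end Pool.Agent.HT51
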