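import Pool.Agent.HT51.LpKd

/-!
# Loops: the base case
-/

universe u

namespace Pool.Agent.HT51

open MvPolynomial

section base

variable {κ : Type u} [Field κ] {σ : Type}

open Classical in
/-- `X_j ↦ X_j` as a constant for `O j`, `X_j ↦ X_j` for `T j`, `X_j ↦ 0` for the rest. -/
noncomputable def ke0 (κ : Type u) [Field κ] {σ : Type} (O T : σ → Prop) :
    MvPolynomial σ κ →+* MvPolynomial {j : σ // T j} (MvPolynomial {j : σ // O j} κ) :=
  eval₂Hom ((C : MvPolynomial {j : σ // O j} κ →+* _).comp C) fun j =>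
    if h : O j then C (X ⟨j, h⟩) else if h : T j then X ⟨j, h⟩ else 0

/-- A section of `ke0`. -/
noncomputable def keS (κ : Type u) [Field κ] {σ : Type} (O T : σ → Prop) :
    MvPolynomial {j : σ // T j} (MvPolynomial {j : σ // O j} κ) →+* MvPolynomial σ κ :=
  eval₂Hom ((rename Subtype.val : MvPolynomial {j : σ // O j} κ →ₐ[κ] MvPolynomial σ κ) :
    MvPolynomial {j : σ // O j} κ →+* MvPolynomial σ κ) fun j => X j.1

lemma ke0_C (O T : σ → Prop) (c : κ) : ke0 κ O T (C c) = C (C c) := by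
  unfold ke0
  rw [eval₂Hom_C]
  rfl

lemma ke0_X_O {O T : σ → Prop} {j : σ} (h : O j) : ke0 κ O T (X j) = C (X ⟨j, h⟩) := by
  unfold ke0
  rw [eval₂Hom_X', dif_pos h]

lemma ke0_X_T {O T : σ → Prop} {j : σ} (h : ¬ O j) (h' : T j) : ke0 κ O T (X j) = X ⟨j, h'⟩ := by
  unfold ke0
  rw [eval₂Hom_X', dif_neg h, dif_pos h']

lemma ke0_X_D {O T : σ → Prop} {j : σ} (h : ¬ O j) (h' : ¬ T j) : ke0 κ O T (X j) = 0 := by
  unfold ke0
  rw [eval₂Hom_X', dif_neg h, dif_neg h']

lemma ke0_rename (O T : σ → Prop) (q : MvPolynomial {j : σ // O j} κ) :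
    ke0 κ O T (rename Subtype.val q) = C q := by
  have h : (ke0 κ O T).comp ((rename Subtype.val : MvPolynomial {j : σ // O j} κ →ₐ[κ]
      MvPolynomial σ κ) : MvPolynomial {j : σ // O j} κ →+* MvPolynomial σ κ) = C := by
    apply MvPolynomial.ringHom_ext
    · intro c
      show ke0 κ O T (rename Subtype.val (C c)) = _
      rw [rename_C, ke0_C]
    · intro j
      show ke0 κ O T (rename Subtype.val (X j)) = _
      rw [rename_X, ke0_X_O j.2]
  exact DFunLike.congr_fun h q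

lemma keS_C (O T : σ → Prop) (q : MvPolynomial {j : σ // O j} κ) :
    keS κ O T (C q) = rename Subtype.val q := by
  unfold keS
  rw [eval₂Hom_C]
  rfl

lemma keS_X (O T : σ → Prop) (j : {j : σ // T j}) : keS κ O T (X j) = X j.1 := by
  unfold keS
  rw [eval₂Hom_X']

lemma ke0_keS {O T : σ → Prop} (hOT : ∀ j, O j → ¬ T j)
    (t : MvPolynomial {j : σ // T j} (MvPolynomial {j : σ // O j} κ)) :
    ke0 κ O T (keS κ O T t) = t := by
  have h : (ke0 κ O T).comp (keS κ O T) = RingHom.id _ := by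
    apply MvPolynomial.ringHom_ext
    · intro q
      rw [RingHom.comp_apply, keS_C, ke0_rename]
      rfl
    · intro j
      rw [RingHom.comp_apply, keS_X, ke0_X_T (fun h => hOT _ h j.2) j.2]
      rfl
  exact DFunLike.congr_fun h t

lemma ke0_span {O T D : σ → Prop} (hD : ∀ j, D j ↔ ¬ O j ∧ ¬ T j) {r : MvPolynomial σ κ}
    (hr : r ∈ Ideal.span {y | ∃ j, D j ∧ y = (X j : MvPolynomial σ κ)}) : ke0 κ O T r = 0 := by
  have h : Ideal.span {y | ∃ j, D j ∧ y = (X j : MvPolynomial σ κ)} ≤ RingHom.ker (ke0 κ O T) := by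
    rw [Ideal.span_le]
    rintro y ⟨j, hj, rfl⟩
    exact ke0_X_D ((hD j).1 hj).1 ((hD j).1 hj).2
  exact h hr

lemma keS_sub {O T D : σ → Prop} (hD : ∀ j, D j ↔ ¬ O j ∧ ¬ T j) (r : MvPolynomial σ κ) :
    r - keS κ O T (ke0 κ O T r) ∈ Ideal.span {y | ∃ j, D j ∧ y = (X j : MvPolynomial σ κ)} := by
  have h : (Ideal.Quotient.mk (Ideal.span {y | ∃ j, D j ∧ y = (X j : MvPolynomial σ κ)})).comp
      ((keS κ O T).comp (ke0 κ O T)) =
      Ideal.Quotient.mk (Ideal.span {y | ∃ j, D j ∧ y = (X j : MvPolynomial σ κ)}) := by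
    apply MvPolynomial.ringHom_ext
    · intro c
      rw [RingHom.comp_apply, RingHom.comp_apply, ke0_C, keS_C, rename_C]
    · intro j
      rw [RingHom.comp_apply, RingHom.comp_apply]
      by_cases hO : O j
      · rw [ke0_X_O hO, keS_C, rename_X]
      · by_cases hT : T j
        · rw [ke0_X_T hO hT, keS_X]
        · rw [ke0_X_D hO hT, map_zero, map_zero]
          symm
          exact Ideal.Quotient.eq_zero_iff_mem.mpr (Ideal.subset_span ⟨j, (hD j).2 ⟨hO, hT⟩, rfl⟩)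
  have h2 := DFunLike.congr_fun h r
  exact (Ideal.Quotient.eq).mp h2.symm

lemma thL_eq {O T : σ → Prop} {Q : Type u} [CommRing Q]
    (ψ : MvPolynomial {j : σ // O j} κ →+* Q) (r : MvPolynomial σ κ) :
    thL O ψ T r = rename Subtype.val (MvPolynomial.map ψ (ke0 κ O T r)) := by
  have h : thL O ψ T = ((rename Subtype.val : MvPolynomial {j : σ // T j} Q →ₐ[Q]
      MvPolynomial σ Q) : MvPolynomial {j : σ // T j} Q →+* MvPolynomial σ Q).comp
      ((MvPolynomial.map ψ).comp (ke0 κ O T)) := by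
    apply MvPolynomial.ringHom_ext
    · intro c
      show thL O ψ T (C c) = rename Subtype.val (MvPolynomial.map ψ (ke0 κ O T (C c)))
      rw [ke0_C, map_C, rename_C]
      unfold thL
      rw [eval₂Hom_C]
      rfl
    · intro j
      show thL O ψ T (X j) = rename Subtype.val (MvPolynomial.map ψ (ke0 κ O T (X j)))
      unfold thL
      rw [eval₂Hom_X']
      by_cases hO : O j
      · rw [dif_pos hO, ke0_X_O hO, map_C, rename_C]
      · rw [dif_neg hO]
        by_cases hT : T j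
        · rw [if_pos hT, ke0_X_T hO hT, map_X, rename_X]
        · rw [if_neg hT, ke0_X_D hO hT, map_zero, map_zero]
  exact DFunLike.congr_fun h r

variable {W : MvPolynomial σ κ} {O T D : σ → Prop} {g : MvPolynomial {j : σ // O j} κ}

lemma ke0_W (hD : ∀ j, D j ↔ ¬ O j ∧ ¬ T j)
    (hg : W - rename Subtype.val g ∈ Ideal.span {y | ∃ j, D j ∧ y = (X j : MvPolynomial σ κ)}) :
    ke0 κ O T W = C g := by
  have h := ke0_span (T := T) hD hg
  rw [map_sub, ke0_rename, sub_eq_zero] at h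
  exact h

section K

variable {K : Type u} [CommRing K] (m : MvPolynomial {j : σ // O j} κ →+* K)
  (hm : ∀ q, m q = 0 ↔ g ∣ q) (hms : Function.Surjective m)

/-- The map to the polynomial ring over `K = κ[O]/(g)`. -/
noncomputable def keφ (m : MvPolynomial {j : σ // O j} κ →+* K) (hm : ∀ q, m q = 0 ↔ g ∣ q)
    (hD : ∀ j, D j ↔ ¬ O j ∧ ¬ T j)
    (hg : W - rename Subtype.val g ∈ Ideal.span {y | ∃ j, D j ∧ y = (X j : MvPolynomial σ κ)}) :
    (MvPolynomial σ κ ⧸ Ideal.span {W}) →+* MvPolynomial {j : σ // T j} K :=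
  Ideal.Quotient.lift _ ((MvPolynomial.map m).comp (ke0 κ O T))
    (by
      intro y hy
      obtain ⟨z, rfl⟩ := Ideal.mem_span_singleton'.mp hy
      rw [RingHom.comp_apply, map_mul, ke0_W hD hg, map_mul, map_C, (hm g).2 dvd_rfl, map_zero,
        mul_zero])

lemma keφ_mk (hD : ∀ j, D j ↔ ¬ O j ∧ ¬ T j)
    (hg : W - rename Subtype.val g ∈ Ideal.span {y | ∃ j, D j ∧ y = (X j : MvPolynomial σ κ)})
    (r : MvPolynomial σ κ) : keφ m hm hD hg (Ideal.Quotient.mk _ r) =
      MvPolynomial.map m (ke0 κ O T r) := rfl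

lemma ke0_surj (hOT : ∀ j, O j → ¬ T j) : Function.Surjective (ke0 κ O T) :=
  fun t => ⟨_, ke0_keS hOT t⟩

include hms in
lemma keφ_surj (hOT : ∀ j, O j → ¬ T j) (hD : ∀ j, D j ↔ ¬ O j ∧ ¬ T j)
    (hg : W - rename Subtype.val g ∈ Ideal.span {y | ∃ j, D j ∧ y = (X j : MvPolynomial σ κ)}) :
    Function.Surjective (keφ m hm hD hg) := by
  intro y
  obtain ⟨t, rfl⟩ := MvPolynomial.map_surjective m hms y
  obtain ⟨r, rfl⟩ := ke0_surj hOT t
  exact ⟨Ideal.Quotient.mk _ r, rfl⟩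

include hm in
lemma map_mk_zero (t : MvPolynomial {j : σ // T j} (MvPolynomial {j : σ // O j} κ))
    (ht : MvPolynomial.map m t = 0) : C g ∣ t := by
  have h1 : t ∈ RingHom.ker (MvPolynomial.map m :
      MvPolynomial {j : σ // T j} (MvPolynomial {j : σ // O j} κ) →+* _) := ht
  have h2 : RingHom.ker m = Ideal.span {g} := by
    ext q
    rw [RingHom.mem_ker, hm, Ideal.mem_span_singleton]
  rw [MvPolynomial.ker_map, h2, Ideal.map_span, Set.image_singleton,
    Ideal.mem_span_singleton] at h1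
  exact h1

lemma keφ_ker (hOT : ∀ j, O j → ¬ T j) (hD : ∀ j, D j ↔ ¬ O j ∧ ¬ T j)
    (hg : W - rename Subtype.val g ∈ Ideal.span {y | ∃ j, D j ∧ y = (X j : MvPolynomial σ κ)})
    {M : Type u} [AddCommGroup M] [Module (MvPolynomial σ κ ⧸ Ideal.span {W}) M]
    (hM : ∀ j, D j → ∀ x : M, (Ideal.Quotient.mk (Ideal.span {W}) (X j)) • x = 0)
    (b : MvPolynomial σ κ ⧸ Ideal.span {W}) (hb : keφ m hm hD hg b = 0) (x : M) : b • x = 0 := by
  obtain ⟨r, rfl⟩ := Ideal.Quotient.mk_surjective b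
  rw [keφ_mk] at hb
  obtain ⟨t, ht⟩ := map_mk_zero m hm _ hb
  have h1 : ke0 κ O T (r - keS κ O T t * W) = 0 := by
    rw [map_sub, map_mul, ke0_W hD hg, ke0_keS hOT, ht, mul_comm, sub_self]
  have h2 := keS_sub (D := D) hD (r - keS κ O T t * W)
  rw [h1, map_zero, sub_zero] at h2
  have h3 : Ideal.Quotient.mk (Ideal.span {W}) r =
      Ideal.Quotient.mk (Ideal.span {W}) (r - keS κ O T t * W) := by
    rw [Ideal.Quotient.eq, Ideal.mem_span_singleton']
    exact ⟨keS κ O T t, by ring⟩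
  rw [h3]
  exact kill_span hM h2 x

include hms hm in
/-- The base case: reduction to the values at the primes of `K = κ[O]/(g)`. -/
theorem base_redK [IsNoetherianRing K] (lam : AddFn (MvPolynomial σ κ ⧸ Ideal.span {W}))
    (hOT : ∀ j, O j → ¬ T j) [Finite {j : σ // T j}]
    (hD : ∀ j, D j ↔ ¬ O j ∧ ¬ T j)
    (hg : W - rename Subtype.val g ∈ Ideal.span {y | ∃ j, D j ∧ y = (X j : MvPolynomial σ κ)})
    (h : ∀ p : Ideal K, p.IsPrime → PL lam O (Q := K ⧸ p) ((Ideal.Quotient.mk p).comp m) T = 0) :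
    Van lam D := by
  intro M _ _ _ hM
  refine val_of_res (keφ m hm hD hg) (keφ_surj m hm hms hOT hD hg) lam (fun V => ?_) M
    (keφ_ker m hm hOT hD hg hM)
  refine mv_homotopy {j : σ // T j} _ ?_ V
  intro p hp
  rw [res_val_quot (keφ m hm hD hg) (keφ_surj m hm hms hOT hD hg)]
  rw [← h p hp]
  unfold PL
  have hW : W ∈ RingHom.ker (thL O ((Ideal.Quotient.mk p).comp m) T) := by
    rw [RingHom.mem_ker, thL_eq, ke0_W hD hg, map_C, rename_C, RingHom.comp_apply,
      (hm g).2 dvd_rfl, map_zero, map_zero]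
  have key : (p.map (C : K →+* MvPolynomial {j : σ // T j} K)).comap (keφ m hm hD hg) =
      (RingHom.ker (thL O ((Ideal.Quotient.mk p).comp m) T)).map
        (Ideal.Quotient.mk (Ideal.span {W})) := by
    ext b
    obtain ⟨r, rfl⟩ := Ideal.Quotient.mk_surjective b
    rw [mem_map_mk hW, Ideal.mem_comap, keφ_mk, RingHom.mem_ker, thL_eq]
    have h3 : (rename Subtype.val (MvPolynomial.map ((Ideal.Quotient.mk p).comp m)
        (ke0 κ O T r)) = 0) ↔
        MvPolynomial.map ((Ideal.Quotient.mk p).comp m) (ke0 κ O T r) = 0 :=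
      map_eq_zero_iff _ (rename_injective _ Subtype.val_injective)
    rw [h3, ← MvPolynomial.map_map]
    have h4 : p.map (C : K →+* MvPolynomial {j : σ // T j} K) =
        RingHom.ker (MvPolynomial.map (Ideal.Quotient.mk p) :
          MvPolynomial {j : σ // T j} K →+* _) := by
      rw [MvPolynomial.ker_map, Ideal.mk_ker]
    rw [h4, RingHom.mem_ker]
  rw [key]

include hms hm in
/-- The base case, when `K = κ[O]/(g)` has the vanishing property. -/
theorem base_evenK [IsNoetherianRing K] [Finite σ]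
    (lam : AddFn (MvPolynomial σ κ ⧸ Ideal.span {W}))
    (hOT : ∀ j, O j → ¬ T j) (hD : ∀ j, D j ↔ ¬ O j ∧ ¬ T j)
    (hg : W - rename Subtype.val g ∈ Ideal.span {y | ∃ j, D j ∧ y = (X j : MvPolynomial σ κ)})
    (hW0 : W ≠ 0) (h0 : lam.val (MvPolynomial σ κ ⧸ Ideal.span {W}) = 0) (hg0 : g ≠ 0)
    (hz : ZeroProp K) : Van lam D := by
  intro M _ _ _ hM
  refine val_of_res (keφ m hm hD hg) (keφ_surj m hm hms hOT hD hg) lam (fun V => ?_) M
    (keφ_ker m hm hOT hD hg hM)
  refine ZeroProp.mv {j : σ // T j} hz _ ?_ V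
  refine res_zero (ZeroProp.mvPolynomial κ σ) (fun x hx => (mul_eq_zero.mp hx).resolve_left hW0)
    h0 (ke0 κ O T) (ke0_surj hOT) ?_ (MvPolynomial.map m) ?_
    (keφ m hm hD hg) (keφ_mk m hm hD hg) (keφ_surj m hm hms hOT hD hg)
  · rw [ke0_W hD hg, Ne, C_eq_zero]
    exact hg0
  · intro t ht
    rw [ke0_W hD hg]
    exact map_mk_zero m hm t ht

end K

end base

/-- The base case: reduction to the values at the integral quotients of `κ[O]/(g)`. -/
theorem base_red {κ : Type u} [Field κ] {σ : Type} [Fintype σ] {W : MvPolynomial σ κ}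
    (lam : AddFn (MvPolynomial σ κ ⧸ Ideal.span {W})) (O T D : σ → Prop) (hOT : ∀ j, O j → ¬ T j)
    (hD : ∀ j, D j ↔ ¬ O j ∧ ¬ T j) (g : MvPolynomial {j : σ // O j} κ)
    (hg : W - rename Subtype.val g ∈ Ideal.span {y | ∃ j, D j ∧ y = (X j : MvPolynomial σ κ)})
    (h : ∀ (Q : Type u) [CommRing Q] [IsDomain Q] (ψ : MvPolynomial {j : σ // O j} κ →+* Q),
      Function.Surjective ψ → ψ g = 0 → PL lam O ψ T = 0) :
    Van lam D := by
  have hm : ∀ q, Ideal.Quotient.mk (Ideal.span {g}) q = 0 ↔ g ∣ q :=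
    fun q => by rw [Ideal.Quotient.eq_zero_iff_mem, Ideal.mem_span_singleton]
  refine base_redK (Ideal.Quotient.mk (Ideal.span {g})) hm
    Ideal.Quotient.mk_surjective lam hOT hD hg ?_
  intro p hp
  refine h ((MvPolynomial {j : σ // O j} κ ⧸ Ideal.span {g}) ⧸ p) _
    (Ideal.Quotient.mk_surjective.comp Ideal.Quotient.mk_surjective) ?_
  rw [RingHom.comp_apply, (hm g).2 dvd_rfl, map_zero]

/-- The base case, when `κ[O]/(g)` has the vanishing property. -/
theorem base_even {κ : Type u} [Field κ] {σ : Type} [Fintype σ] {W : MvPolynomial σ κ}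
    (lam : AddFn (MvPolynomial σ κ ⧸ Ideal.span {W})) (O T D : σ → Prop) (hOT : ∀ j, O j → ¬ T j)
    (hD : ∀ j, D j ↔ ¬ O j ∧ ¬ T j) (g : MvPolynomial {j : σ // O j} κ)
    (hg : W - rename Subtype.val g ∈ Ideal.span {y | ∃ j, D j ∧ y = (X j : MvPolynomial σ κ)})
    (hW0 : W ≠ 0) (h0 : lam.val (MvPolynomial σ κ ⧸ Ideal.span {W}) = 0) (hg0 : g ≠ 0)
    (hz : ZeroProp (MvPolynomial {j : σ // O j} κ ⧸ Ideal.span {g})) : Van lam D :=
  base_evenK (Ideal.Quotient.mk (Ideal.span {g}))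
    (fun q => by rw [Ideal.Quotient.eq_zero_iff_mem, Ideal.mem_span_singleton])
    Ideal.Quotient.mk_surjective lam hOT hD hg hW0 h0 hg0 hz

/-- `base_even` without the hypothesis that `W` is not zero. -/
theorem base_even' {κ : Type u} [Field κ] {σ : Type} [Fintype σ] {W : MvPolynomial σ κ}
    (lam : AddFn (MvPolynomial σ κ ⧸ Ideal.span {W})) (O T D : σ → Prop) (hOT : ∀ j, O j → ¬ T j)
    (hD : ∀ j, D j ↔ ¬ O j ∧ ¬ T j) (g : MvPolynomial {j : σ // O j} κ)
    (hg : W - rename Subtype.val g ∈ Ideal.span {y | ∃ j, D j ∧ y = (X j : MvPolynomial σ κ)})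
    (h0 : lam.val (MvPolynomial σ κ ⧸ Ideal.span {W}) = 0) (hg0 : g ≠ 0)
    (hz : ZeroProp (MvPolynomial {j : σ // O j} κ ⧸ Ideal.span {g})) : Van lam D := by
  refine base_even lam O T D hOT hD g hg ?_ h0 hg0 hz
  intro hW
  have h1 := ke0_W (T := T) hD hg
  rw [hW, map_zero] at h1
  exact hg0 (C_eq_zero.1 h1.symm)

end Pool.Agent.HT51
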