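import Pool.Agent.HT51.LpKr
import Pool.Agent.HT51.LpKe

/-!
# A variable on a loop is killed
-/

universe u

namespace Pool.Agent.HT51

open MvPolynomial

section gen

variable {κ : Type u} [Field κ] {σ : Type} [Fintype σ]

omit [Fintype σ] in
lemma Van.mono {W : MvPolynomial σ κ} {lam : AddFn (MvPolynomial σ κ ⧸ Ideal.span {W})}
    {D D' : σ → Prop} (h : Van lam D) (hD : ∀ j, D j → D' j) : Van lam D' :=
  fun M _ _ _ hM => h M fun j hj m => hM j (hD j hj) m

omit [Fintype σ] in
lemma rename_not_mem {O D : σ → Prop} (hDO : ∀ j, D j → ¬ O j)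
    {g : MvPolynomial {j : σ // O j} κ} (hg0 : g ≠ 0) :
    (rename Subtype.val g : MvPolynomial σ κ) ∉
      Ideal.span {y | ∃ j, D j ∧ y = (X j : MvPolynomial σ κ)} := by
  classical
  intro h
  let ε : MvPolynomial σ κ →ₐ[κ] MvPolynomial {j : σ // O j} κ :=
    aeval fun j => if h : O j then X ⟨j, h⟩ else 0
  have h1 : ε (rename Subtype.val g) = g := by
    have h2 : ε.comp (rename Subtype.val : MvPolynomial {j : σ // O j} κ →ₐ[κ] MvPolynomial σ κ) =
        AlgHom.id κ _ := by
      apply MvPolynomial.algHom_ext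
      intro j
      rw [AlgHom.comp_apply, rename_X]
      show aeval _ (X j.1) = _
      rw [aeval_X, dif_pos j.2]
      rfl
    exact DFunLike.congr_fun h2 g
  have h3 : ∀ r ∈ Ideal.span {y | ∃ j, D j ∧ y = (X j : MvPolynomial σ κ)}, ε r = 0 := by
    intro r hr
    induction hr using Submodule.span_induction with
    | mem y hy =>
      obtain ⟨j, hj, rfl⟩ := hy
      show aeval _ (X j) = _
      rw [aeval_X, dif_neg (hDO j hj)]
    | zero => exact map_zero ε
    | add y z _ _ hy hz => rw [map_add, hy, hz, add_zero]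
    | smul b y _ hy => rw [smul_eq_mul, map_mul, hy, mul_zero]
  rw [h3 _ h] at h1
  exact hg0 h1.symm

variable {O : σ → Prop} {Q : Type u} [CommRing Q] (ψ : MvPolynomial {j : σ // O j} κ →+* Q)
  {T : σ → Prop}

omit [Fintype σ] in
lemma thL_C (b : κ) : thL O ψ T (C b) = C (ψ (C b)) := by
  unfold thL
  rw [coe_eval₂Hom, eval₂_C]
  rfl

omit [Fintype σ] in
lemma thL_O (j : {j : σ // O j}) : thL O ψ T (X j.1) = C (ψ (X j)) := by
  unfold thL
  rw [coe_eval₂Hom, eval₂_X, dif_pos j.2]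

omit [Fintype σ] in
lemma thL_T {j : σ} (hO : ¬ O j) (hT : T j) : thL O ψ T (X j) = X j := by
  unfold thL
  rw [coe_eval₂Hom, eval₂_X, dif_neg hO, if_pos hT]

omit [Fintype σ] in
lemma thL_N {j : σ} (hO : ¬ O j) (hT : ¬ T j) : thL O ψ T (X j) = 0 := by
  unfold thL
  rw [coe_eval₂Hom, eval₂_X, dif_neg hO, if_neg hT]

omit [Fintype σ] in
lemma thL_rename (t : MvPolynomial {j : σ // O j} κ) :
    thL O ψ T (rename Subtype.val t) = C (ψ t) := by
  have h : (thL O ψ T).comp (rename Subtype.val :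
      MvPolynomial {j : σ // O j} κ →ₐ[κ] MvPolynomial σ κ).toRingHom =
      (C : Q →+* MvPolynomial σ Q).comp ψ := by
    refine MvPolynomial.ringHom_ext ?_ ?_
    · intro b
      show thL O ψ T (rename Subtype.val (C b)) = C (ψ (C b))
      rw [rename_C, thL_C]
    · intro j
      show thL O ψ T (rename Subtype.val (X j)) = C (ψ (X j))
      rw [rename_X, thL_O]
  exact RingHom.congr_fun h t

end gen

section loop

variable {κ : Type u} [Field κ] {σ : Type} [Fintype σ] [DecidableEq σ]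
  {c : σ → κ} (hc : ∀ j, c j ≠ 0) {a : σ → ℕ} (ha : ∀ j, 0 < a j)
  {nx : σ → Option σ} (hinj : ∀ i j l, nx i = some l → nx j = some l → i = j) {L : ℕ}
  {x : ℕ → σ} (hx : IsLoop nx L x)
  {g : MvPolynomial {j : σ // ∀ k, k < L → j ≠ x k} κ}
  (hg : rename Subtype.val g = ∑ j ∈ Finset.univ.filter (fun j => ∀ k, k < L → j ≠ x k),
    C (c j) * X j ^ a j * (nx j).elim 1 X)
  {W : MvPolynomial σ κ} (hW : W = cform c a nx)
  {lam : AddFn (MvPolynomial σ κ ⧸ Ideal.span {W})}
  (h0 : lam.val (MvPolynomial σ κ ⧸ Ideal.span {W}) = 0)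

/-- The removed variables. -/
def Dm (L : ℕ) (x : ℕ → σ) (m : ℕ) (j : σ) : Prop :=
  ∃ i, i < L ∧ (i = 0 ∨ (m ≤ i ∧ Even (L - i))) ∧ j = x i

include hc hinj hx hW h0 in
/-- Removing variables. -/
theorem van_down (h : Van lam (Dm L x 1)) : Van lam (Dm L x L) := by
  have hL := hx.two_le
  have key : ∀ n, n < L → Van lam (Dm L x (L - n)) → Van lam (Dm L x L) := by
    intro n
    induction n with
    | zero =>
      intro _ h
      exact h
    | succ n ih =>
      intro hn h
      refine ih (by omega) ?_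
      obtain ⟨m, hm⟩ : ∃ m, m = L - (n + 1) := ⟨_, rfl⟩
      have hm' : L - n = m + 1 := by omega
      rw [← hm] at h
      rw [hm']
      rcases Nat.even_or_odd (n + 1) with he | ho
      · have hm2 : m + 2 ≤ L := by
          rcases he with ⟨r, hr⟩
          omega
        obtain ⟨l, hl1, hl2⟩ : ∃ l, nx (x (m + 1)) = some l ∧ Dm L x (m + 1) l := by
          rcases Nat.lt_or_ge (m + 2) L with h1 | h1
          · refine ⟨x (m + 2), hx.step (m + 1) h1, m + 2, h1, Or.inr ⟨by omega, ?_⟩, rfl⟩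
            obtain ⟨r, hr⟩ := he
            exact ⟨r - 1, by omega⟩
          · have h2 : m + 1 = L - 1 := by omega
            rw [h2]
            exact ⟨x 0, hx.last, 0, by omega, Or.inl rfl, rfl⟩
        have nD : ∀ i, i < L → (i = m ∨ i = m + 1) → ¬ Dm L x (m + 1) (x i) := by
          rintro i hi h3 ⟨i', hi', h4, h5⟩
          have h6 := hx.inj _ _ hi hi' h5
          subst h6
          obtain ⟨r, hr⟩ := he
          rcases h4 with h4 | ⟨h4, r', hr'⟩ <;> omega
        refine van_lin c hc a nx hinj hW lam h0 (Dm L x (m + 1)) (x m) (x (m + 1)) l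
          (nD m (by omega) (Or.inl rfl)) (nD (m + 1) (by omega) (Or.inr rfl)) ?_
          (hx.step m (by omega)) hl1 hl2 ?_
        · intro h3
          have := hx.inj _ _ (by omega) (by omega) h3
          omega
        · refine h.mono ?_
          rintro j ⟨i, hi, h3, rfl⟩
          rcases h3 with h3 | ⟨h3, h4⟩
          · exact Or.inl ⟨i, hi, Or.inl h3, rfl⟩
          · rcases Nat.lt_or_ge m i with h5 | h5
            · exact Or.inl ⟨i, hi, Or.inr ⟨h5, h4⟩, rfl⟩
            · have : i = m := by omega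
              rw [this]
              exact Or.inr rfl
      · refine h.mono ?_
        rintro j ⟨i, hi, h3, rfl⟩
        refine ⟨i, hi, ?_, rfl⟩
        rcases h3 with h3 | ⟨h3, h4⟩
        · exact Or.inl h3
        · right
          refine ⟨?_, h4⟩
          obtain ⟨r, hr⟩ := ho
          obtain ⟨r', hr'⟩ := h4
          omega
  exact key (L - 1) (by omega) (by
    have : L - (L - 1) = 1 := by omega
    rw [this]
    exact h)

/-- The remaining variables. -/
def Tm (L : ℕ) (x : ℕ → σ) (j : σ) : Prop := ∃ i, i < L ∧ 0 < i ∧ Odd (L - i) ∧ j = x i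

include hx in
omit [Fintype σ] [DecidableEq σ] in
lemma Dm_iff (j : σ) : Dm L x 1 j ↔ ¬ (∀ k, k < L → j ≠ x k) ∧ ¬ Tm L x j := by
  have hL := hx.two_le
  constructor
  · rintro ⟨i, hi, h1, rfl⟩
    refine ⟨fun h => h i hi rfl, ?_⟩
    rintro ⟨i', hi', h2, h3, h4⟩
    have := hx.inj _ _ hi hi' h4
    subst this
    rcases h1 with h1 | ⟨h1, h5⟩
    · omega
    · obtain ⟨r, hr⟩ := h3
      obtain ⟨r', hr'⟩ := h5
      omega
  · rintro ⟨h1, h2⟩
    push Not at h1
    obtain ⟨i, hi, rfl⟩ := h1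
    refine ⟨i, hi, ?_, rfl⟩
    by_contra h3
    push Not at h3
    apply h2
    refine ⟨i, hi, by omega, ?_, rfl⟩
    rw [← Nat.not_even_iff_odd]
    exact h3.2 (by omega)

omit [Fintype σ] [DecidableEq σ] in
lemma O_not_Tm (j : σ) (h : ∀ k, k < L → j ≠ x k) : ¬ Tm L x j := by
  rintro ⟨i, hi, -, -, h1⟩
  exact h i hi h1

include ha hx hg hW in
/-- The equation modulo the removed variables. -/
lemma sub_mem_span : W - rename Subtype.val g ∈
    Ideal.span {y | ∃ j, Dm L x 1 j ∧ y = (X j : MvPolynomial σ κ)} := by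
  have hL := hx.two_le
  rw [hg, hW, cform, ← Finset.sum_filter_add_sum_filter_not Finset.univ
    (fun j => ∀ k, k < L → j ≠ x k), add_sub_cancel_left]
  refine Ideal.sum_mem _ fun j hj => ?_
  rw [Finset.mem_filter] at hj
  have hj2 := hj.2
  push Not at hj2
  obtain ⟨k, hk, rfl⟩ := hj2
  by_cases hD : Dm L x 1 (x k)
  · refine Ideal.mul_mem_right _ _ (Ideal.mul_mem_left _ _ ?_)
    have hm : (X (x k) : MvPolynomial σ κ) ∈
        Ideal.span {y | ∃ j, Dm L x 1 j ∧ y = (X j : MvPolynomial σ κ)} :=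
      Ideal.subset_span ⟨_, hD, rfl⟩
    exact Ideal.pow_mem_of_mem _ hm _ (ha _)
  · have hT : 0 < k ∧ Odd (L - k) := by
      by_contra h1
      rw [Classical.not_and_iff_not_or_not] at h1
      apply hD
      refine ⟨k, hk, ?_, rfl⟩
      rcases h1 with h1 | h1
      · exact Or.inl (by omega)
      · rw [Nat.not_odd_iff_even] at h1
        rcases Nat.eq_zero_or_pos k with h2 | h2
        · exact Or.inl h2
        · exact Or.inr ⟨h2, h1⟩
    obtain ⟨hk0, r, hr⟩ := hT
    refine Ideal.mul_mem_left _ _ ?_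
    rcases Nat.lt_or_ge (k + 1) L with h1 | h1
    · rw [hx.step k h1]
      exact Ideal.subset_span ⟨x (k + 1), ⟨k + 1, h1, Or.inr ⟨by omega, r, by omega⟩, rfl⟩, rfl⟩
    · have h2 : k = L - 1 := by omega
      rw [h2, hx.last]
      exact Ideal.subset_span ⟨x 0, ⟨0, by omega, Or.inl rfl, rfl⟩, rfl⟩

/-- The loop, continued periodically. -/
def yy (L : ℕ) (x : ℕ → σ) (k : ℕ) : σ := x (k % L)

omit [Fintype σ] [DecidableEq σ] in
lemma yy_add (k : ℕ) : yy L x (k + L) = yy L x k := by
  unfold yy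
  rw [Nat.add_mod_right]

include hx in
omit [Fintype σ] [DecidableEq σ] in
lemma yy_eq {l i i' : ℕ} (hi : i < L) (hi' : i' < L) (h : yy L x (l + i) = yy L x (l + i')) :
    i = i' := by
  have hL := hx.two_le
  have h1 := hx.inj _ _ (Nat.mod_lt _ (by omega)) (Nat.mod_lt _ (by omega)) h
  have h2 : i ≡ i' [MOD L] := Nat.ModEq.add_left_cancel' l h1
  exact Nat.ModEq.eq_of_lt_of_lt h2 hi hi'

include hx in
omit [Fintype σ] [DecidableEq σ] in
lemma yy_step (k : ℕ) : nx (yy L x k) = some (yy L x (k + 1)) := by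
  have hL := hx.two_le
  unfold yy
  have h1 := Nat.mod_lt k (y := L) (by omega)
  rcases Nat.lt_or_ge (k % L + 1) L with h2 | h2
  · rw [hx.step _ h2]
    congr 2
    rw [Nat.add_mod k 1 L, Nat.mod_eq_of_lt (a := 1) (by omega), Nat.mod_eq_of_lt h2]
  · have h3 : k % L = L - 1 := by omega
    have h4 : (k + 1) % L = 0 := by
      rw [Nat.add_mod k 1 L, h3, Nat.mod_eq_of_lt (a := 1) (by omega),
        show L - 1 + 1 = L by omega, Nat.mod_self]
    rw [h3, h4, hx.last]

include hx in
omit [Fintype σ] [DecidableEq σ] in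
lemma yy_O (k : ℕ) : ¬ ∀ i, i < L → yy L x k ≠ x i := by
  intro h
  have hL := hx.two_le
  exact h _ (Nat.mod_lt _ (by omega)) rfl

/-- The set of every second variable, from the second variable after `l` on. -/
def Jl (L : ℕ) (x : ℕ → σ) (l : ℕ) (j : σ) : Prop :=
  ∃ i, 2 ≤ i ∧ i < L ∧ Even i ∧ j = yy L x (l + i)

omit [Fintype σ] [DecidableEq σ] in
lemma Jl_zero (ho : Odd L) : Jl L x 0 = Tm L x := by
  funext j
  apply propext
  obtain ⟨r, hr⟩ := ho
  constructor
  · rintro ⟨i, h1, h2, ⟨r', hr'⟩, rfl⟩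
    refine ⟨i, h2, by omega, ⟨r - r', by omega⟩, ?_⟩
    unfold yy
    rw [zero_add, Nat.mod_eq_of_lt h2]
  · rintro ⟨i, h1, h2, ⟨r', hr'⟩, rfl⟩
    refine ⟨i, by omega, h1, ⟨r - r', by omega⟩, ?_⟩
    unfold yy
    rw [zero_add, Nat.mod_eq_of_lt h1]

include hx in
omit [Fintype σ] [DecidableEq σ] in
/-- Removing the first variable of the arrow. -/
lemma Kl_u (ho : Odd L) (l : ℕ) :
    (fun j => (Jl L x l j ∨ j = yy L x (l + 1)) ∧ j ≠ yy L x (l + 1)) = Jl L x l := by
  funext j
  apply propext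
  have hL := hx.two_le
  constructor
  · rintro ⟨h1 | h1, h2⟩
    · exact h1
    · exact absurd h1 h2
  · intro h
    refine ⟨Or.inl h, ?_⟩
    rintro rfl
    obtain ⟨i, h1, h2, h3, h4⟩ := h
    have := yy_eq hx (by omega) h2 h4
    omega

include hx in
omit [Fintype σ] [DecidableEq σ] in
/-- Removing the second variable of the arrow. -/
lemma Kl_v (ho : Odd L) (l : ℕ) :
    (fun j => (Jl L x l j ∨ j = yy L x (l + 1)) ∧ j ≠ yy L x (l + 2)) = Jl L x (l + 2) := by
  funext j
  apply propext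
  have hL := hx.two_le
  obtain ⟨r, hr⟩ := ho
  have hL3 : 3 ≤ L := by omega
  constructor
  · rintro ⟨⟨i, h1, h2, ⟨r', hr'⟩, rfl⟩ | rfl, h4⟩
    · have h5 : i ≠ 2 := by
        rintro rfl
        exact h4 rfl
      refine ⟨i - 2, by omega, by omega, ⟨r' - 1, by omega⟩, ?_⟩
      congr 1
      omega
    · refine ⟨L - 1, by omega, by omega, ⟨r, by omega⟩, ?_⟩
      rw [show l + 2 + (L - 1) = l + 1 + L by omega, yy_add]
  · rintro ⟨i, h1, h2, ⟨r', hr'⟩, rfl⟩
    rcases Nat.lt_or_ge (i + 2) L with h3 | h3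
    · refine ⟨Or.inl ⟨i + 2, by omega, h3, ⟨r' + 1, by omega⟩, by congr 1; omega⟩, ?_⟩
      intro h4
      rw [show l + 2 + i = l + (i + 2) by omega] at h4
      have := yy_eq hx h3 (by omega) h4
      omega
    · have h5 : i = L - 1 := by omega
      have h6 : yy L x (l + 2 + i) = yy L x (l + 1) := by
        rw [show l + 2 + i = l + 1 + L by omega, yy_add]
      rw [h6]
      refine ⟨Or.inr rfl, ?_⟩
      intro h4
      have := yy_eq hx (by omega) (by omega) h4
      omega

include hc ha hx hg hW h0 in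
/-- The relation between two values. -/
lemma odd_step (ho : Odd L) {Q : Type u} [CommRing Q] [IsDomain Q]
    (ψ : MvPolynomial {j : σ // ∀ k, k < L → j ≠ x k} κ →+* Q) (hψ : Function.Surjective ψ)
    (hψg : ψ g = 0) (l : ℕ) :
    (a (yy L x (l + 1)) : ℂ) * PL lam (fun j => ∀ k, k < L → j ≠ x k) ψ (Jl L x l) +
      PL lam (fun j => ∀ k, k < L → j ≠ x k) ψ (Jl L x (l + 2)) = 0 := by
  have hL := hx.two_le
  obtain ⟨r, hr⟩ := ho
  have hL3 : 3 ≤ L := by omega
  have ho : Odd L := ⟨r, hr⟩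
  set u := yy L x (l + 1) with hu
  set v := yy L x (l + 2) with hv
  have huv : u ≠ v := by
    intro h
    have := yy_eq hx (by omega) (by omega) h
    omega
  have hW1 : thL (fun j => ∀ k, k < L → j ≠ x k) ψ (fun j => Jl L x l j ∨ j = u) W =
      C (ψ (C (c u))) * X u ^ a u * X v := by
    have hOu := yy_O hx (l + 1)
    have hOv := yy_O hx (l + 2)
    have hvT : Jl L x l v := ⟨2, le_rfl, by omega, ⟨1, rfl⟩, rfl⟩
    rw [hW, cform, ← Finset.sum_filter_add_sum_filter_not Finset.univ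
      (fun j => ∀ k, k < L → j ≠ x k), ← hg, map_add, thL_rename, hψg, C_0, zero_add, map_sum]
    rw [Finset.sum_eq_single u]
    · rw [map_mul, map_mul, map_pow, thL_C, thL_T ψ hOu (Or.inr rfl), yy_step hx (l + 1)]
      simp only [Option.elim_some]
      rw [show l + 1 + 1 = l + 2 by omega, thL_T ψ hOv (Or.inl hvT)]
    · intro j hj hju
      rw [Finset.mem_filter] at hj
      by_cases hjT : Jl L x l j
      · obtain ⟨i, h1, h2, h3, rfl⟩ := hjT
        have hn : thL (fun j => ∀ k, k < L → j ≠ x k) ψ (fun j => Jl L x l j ∨ j = u)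
            (X (yy L x (l + i + 1))) = 0 := by
          refine thL_N ψ (yy_O hx _) ?_
          have key : ∀ i', i' < L → 1 ≤ i' → i' ≠ i + 1 → yy L x (l + i + 1) ≠ yy L x (l + i') := by
            intro i' h4 h5 h6 h7
            rcases Nat.lt_or_ge (i + 1) L with h8 | h8
            · exact h6 (yy_eq hx h8 h4 (by rw [← h7]; congr 1)).symm
            · have h9 : l + i + 1 = l + 0 + L := by omega
              rw [h9, yy_add] at h7
              have := yy_eq hx (by omega) h4 h7
              omega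
          rintro (⟨i', h4, h5, h6, h7⟩ | h7)
          · refine key i' h5 (by omega) ?_ h7
            obtain ⟨s, hs⟩ := h3
            obtain ⟨s', hs'⟩ := h6
            omega
          · exact key 1 (by omega) le_rfl (by omega) h7
        rw [map_mul, yy_step hx]
        simp only [Option.elim_some]
        rw [hn, mul_zero]
      · have hn : thL (fun j => ∀ k, k < L → j ≠ x k) ψ (fun j => Jl L x l j ∨ j = u) (X j) = 0 := by
          refine thL_N ψ hj.2 ?_
          rintro (h | h)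
          · exact hjT h
          · exact hju h
        rw [map_mul, map_mul, map_pow, hn, zero_pow (ha j).ne', mul_zero, zero_mul]
    · intro h
      refine absurd ?_ h
      rw [Finset.mem_filter]
      exact ⟨Finset.mem_univ _, hOu⟩
  have hW0 : W ≠ 0 := by
    intro h
    rw [h, map_zero] at hW1
    have h1 : ψ (C (c u)) ≠ 0 := by
      have h2 : IsUnit (C (c u) : MvPolynomial {j : σ // ∀ k, k < L → j ≠ x k} κ) :=
        (IsUnit.mk0 _ (hc u)).map C
      exact (h2.map ψ).ne_zero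
    have h3 : (C (ψ (C (c u))) : MvPolynomial σ Q) ≠ 0 := by
      rw [Ne, C_eq_zero]
      exact h1
    exact mul_ne_zero (mul_ne_zero h3 (pow_ne_zero _ (X_ne_zero _))) (X_ne_zero _) hW1.symm
  have h := rel_step hW0 lam h0 (fun j => ∀ k, k < L → j ≠ x k) ψ
    (fun j => Jl L x l j ∨ j = u) u v huv (yy_O hx (l + 1)) (yy_O hx (l + 2)) (Or.inr rfl)
    (Or.inl ⟨2, le_rfl, by omega, ⟨1, rfl⟩, rfl⟩) (a u) (c u) (hc u) hW1
  rw [Kl_u hx ho l, Kl_v hx ho l] at h
  exact h

include hc ha hx hg hW h0 in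
/-- The values are zero. -/
lemma odd_zero (ho : Odd L) {Q : Type u} [CommRing Q] [IsDomain Q]
    (ψ : MvPolynomial {j : σ // ∀ k, k < L → j ≠ x k} κ →+* Q) (hψ : Function.Surjective ψ)
    (hψg : ψ g = 0) : PL lam (fun j => ∀ k, k < L → j ≠ x k) ψ (Jl L x 0) = 0 := by
  have key : ∀ n : ℕ, ∃ q : ℕ, 0 < q ∧
      PL lam (fun j => ∀ k, k < L → j ≠ x k) ψ (Jl L x (2 * n)) =
        (-1) ^ n * q * PL lam (fun j => ∀ k, k < L → j ≠ x k) ψ (Jl L x 0) := by
    intro n
    induction n with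
    | zero => exact ⟨1, one_pos, by simp⟩
    | succ n ih =>
      obtain ⟨q, hq, h1⟩ := ih
      refine ⟨a (yy L x (2 * n + 1)) * q, Nat.mul_pos (ha _) hq, ?_⟩
      have h2 := odd_step hc ha hx hg hW h0 ho ψ hψ hψg (2 * n)
      rw [h1] at h2
      rw [show 2 * (n + 1) = 2 * n + 2 by ring, eq_neg_of_add_eq_zero_right h2]
      push_cast
      ring
  obtain ⟨q, hq, h1⟩ := key L
  have h2 : Jl L x (2 * L) = Jl L x 0 := by
    funext j
    unfold Jl
    have h3 : ∀ i, yy L x (2 * L + i) = yy L x (0 + i) := by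
      intro i
      rw [show 2 * L + i = 0 + i + L + L by ring, yy_add, yy_add]
    simp only [h3]
  rw [h2, ho.neg_one_pow] at h1
  have h3 : ((q : ℂ) + 1) * PL lam (fun j => ∀ k, k < L → j ≠ x k) ψ (Jl L x 0) = 0 := by
    linear_combination h1
  rcases mul_eq_zero.mp h3 with h4 | h4
  · exfalso
    have h5 : ((q + 1 : ℕ) : ℂ) ≠ 0 := Nat.cast_ne_zero.mpr (by omega)
    apply h5
    push_cast
    exact h4
  · exact h4

include hc ha hinj hx hg hW h0 in
/-- (LK), with the equation as a variable. -/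
theorem loop_kill_aux (hg0 : Even L → g ≠ 0)
    (hz : Even L → ZeroProp (MvPolynomial {j : σ // ∀ k, k < L → j ≠ x k} κ ⧸ Ideal.span {g})) :
    lam.Kills (Ideal.Quotient.mk _ (X (x 0))) := by
  have hL := hx.two_le
  have hbase : Van lam (Dm L x 1) := by
    rcases Nat.even_or_odd L with he | ho
    · have hW0 : W ≠ 0 := by
        intro h
        have h1 := sub_mem_span ha hx hg hW
        rw [h, zero_sub] at h1
        refine rename_not_mem (O := fun j => ∀ k, k < L → j ≠ x k) (D := Dm L x 1) ?_ (hg0 he)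
          ((Ideal.neg_mem_iff _).mp h1)
        intro j hj
        exact ((Dm_iff hx j).1 hj).1
      exact base_even lam (fun j => ∀ k, k < L → j ≠ x k) (Tm L x) (Dm L x 1)
        (fun j h => O_not_Tm j h) (Dm_iff hx) g (sub_mem_span ha hx hg hW) hW0 h0 (hg0 he) (hz he)
    · refine base_red lam (fun j => ∀ k, k < L → j ≠ x k) (Tm L x) (Dm L x 1)
        (fun j h => O_not_Tm j h) (Dm_iff hx) g (sub_mem_span ha hx hg hW) ?_
      intro Q _ _ ψ hψ hψg
      rw [← Jl_zero ho]
      exact odd_zero hc ha hx hg hW h0 ho ψ hψ hψg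
  have h := van_down hc hinj hx hW h0 hbase
  intro M _ _ _ hM
  refine h M ?_
  rintro j ⟨i, hi, h1, rfl⟩ m
  have : i = 0 := by
    rcases h1 with h1 | ⟨h1, -⟩
    · exact h1
    · omega
  rw [this]
  exact hM m

end loop

/-- (LK) a variable on a loop is killed. -/
theorem loop_kill (κ : Type u) [Field κ] {σ : Type} [Fintype σ] [DecidableEq σ]
    (_hodd : Odd (Fintype.card σ)) (c : σ → κ) (hc : ∀ j, c j ≠ 0) (a : σ → ℕ) (ha : ∀ j, 0 < a j)
    (nx : σ → Option σ) (hinj : ∀ i j l, nx i = some l → nx j = some l → i = j) (L : ℕ)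
    (x : ℕ → σ) (hx : IsLoop nx L x)
    (g : MvPolynomial {j : σ // ∀ k, k < L → j ≠ x k} κ) (hg0 : Even L → g ≠ 0)
    (hg : rename Subtype.val g = ∑ j ∈ Finset.univ.filter (fun j => ∀ k, k < L → j ≠ x k),
      C (c j) * X j ^ a j * (nx j).elim 1 X)
    (hz : Even L → ZeroProp (MvPolynomial {j : σ // ∀ k, k < L → j ≠ x k} κ ⧸ Ideal.span {g}))
    (lam : AddFn (MvPolynomial σ κ ⧸ Ideal.span {cform c a nx}))
    (h0 : lam.val (MvPolynomial σ κ ⧸ Ideal.span {cform c a nx}) = 0) :
    lam.Kills (Ideal.Quotient.mk _ (X (x 0))) :=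
  loop_kill_aux hc ha hinj hx hg rfl h0 hg0 hz

end Pool.Agent.HT51
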