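import Pool.Agent.HT51.ChC
import Pool.Agent.HT51.LpDefs

/-!
# Unfolding: general substitutions `X_j ↦ X_j X_l ^ e_j`, and loops
-/

universe u

namespace Pool.Agent.HT51

open MvPolynomial

/-! ### `ZeroPropK` and localisation -/

theorem ZeroPropK.away {A : Type u} [CommRing A] [IsNoetherianRing A] {s : A}
    (h : ZeroPropK A s) : ZeroProp (Localization.Away s) := by
  have : IsNoetherianRing (Localization.Away s) :=
    IsLocalization.isNoetherianRing (Submonoid.powers s) _ inferInstance
  have : Module.Flat A (Localization.Away s) := IsLocalization.flat _ (Submonoid.powers s)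
  intro nu h0 W _ _ _
  have hk : (nu.base (A := A)).Kills s := by
    intro M _ _ _ hM
    rw [AddFn.base_val]
    have hs : IsUnit (algebraMap A (Localization.Away s) s) :=
      IsLocalization.Away.algebraMap_isUnit s
    have : Subsingleton (TensorProduct A (Localization.Away s) M) := by
      refine subsingleton_of_forall_eq 0 fun z => ?_
      have hz : algebraMap A (Localization.Away s) s • z = 0 := by
        induction z using TensorProduct.induction_on with
        | zero => exact smul_zero _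
        | tmul x m =>
          rw [algebraMap_smul, ← TensorProduct.tmul_smul, hM m, TensorProduct.tmul_zero]
        | add x y hx hy => rw [smul_add, hx, hy, add_zero]
      exact (hs.smul_eq_zero).1 hz
    exact nu.val_of_subsingleton _
  have hc : ∀ I : Ideal (Localization.Away s), nu.val (Localization.Away s ⧸ I) = 0 := by
    intro I
    obtain ⟨J, hJ⟩ : ∃ J : Ideal A, J.map (algebraMap A (Localization.Away s)) = I :=
      ⟨_, IsLocalization.map_under (Submonoid.powers s) _ I⟩
    have h1 : (nu.base (A := A)).val (A ⧸ J) = 0 :=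
      h (nu.base (A := A)) (by rw [AddFn.base_self, h0]) hk (A ⧸ J)
    rw [AddFn.base_val] at h1
    rw [← h1, ← hJ]
    exact nu.val_congr (Algebra.TensorProduct.quotIdealMapEquivTensorQuot
      (Localization.Away s) J).toLinearEquiv
  refine IsNoetherianRing.induction_on_isQuotientEquivQuotientPrime (Localization.Away s) (M := W)
    (motive := fun M _ _ _ => nu.val M = 0) inferInstance ?_ ?_ ?_
  · intro M _ _ _ _
    exact nu.val_of_subsingleton M
  · intro M _ _ _ p e
    rw [nu.val_congr e]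
    exact hc _
  · intro M1 _ _ _ M2 _ _ _ M3 _ _ _ f g hf hg hfg h1 h2
    rw [nu.add' M1 M2 M3 f g hf hfg hg inferInstance, h1, h2, add_zero]

/-- The localisations agree. -/
theorem away_bir {C B : Type u} [CommRing C] [CommRing B] (σ : C →+* B) (s : C)
    (h1 : ∀ b : B, ∃ (n : ℕ) (c : C), σ s ^ n * b = σ c)
    (h2 : ∀ c : C, σ c = 0 → ∃ n : ℕ, s ^ n * c = 0) :
    Nonempty (Localization.Away s ≃+* Localization.Away (σ s)) := by
  let _ : Algebra C (Localization.Away (σ s)) :=
    ((algebraMap B (Localization.Away (σ s))).comp σ).toAlgebra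
  have hloc : IsLocalization (Submonoid.powers s) (Localization.Away (σ s)) := by
    refine ⟨?_, ?_, ?_⟩
    · rintro ⟨_, k, rfl⟩
      show IsUnit (algebraMap B (Localization.Away (σ s)) (σ (s ^ k)))
      rw [map_pow, map_pow]
      exact (IsLocalization.Away.algebraMap_isUnit (σ s)).pow k
    · intro z
      obtain ⟨n, b, hb⟩ := IsLocalization.Away.surj (σ s) z
      obtain ⟨m, c, hc⟩ := h1 b
      refine ⟨⟨c, ⟨s ^ (m + n), m + n, rfl⟩⟩, ?_⟩
      show z * algebraMap B (Localization.Away (σ s)) (σ (s ^ (m + n))) =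
        algebraMap B (Localization.Away (σ s)) (σ c)
      rw [← hc, map_mul, ← hb, map_pow σ, map_pow (algebraMap B _), map_pow (algebraMap B _)]
      ring
    · intro x y hxy
      have hxy' : algebraMap B (Localization.Away (σ s)) (σ x) =
        algebraMap B (Localization.Away (σ s)) (σ y) := hxy
      obtain ⟨⟨_, k, rfl⟩, hc⟩ := (IsLocalization.eq_iff_exists (Submonoid.powers (σ s)) _).1 hxy'
      have hc' : σ (s ^ k * (x - y)) = 0 := by
        have h3 : σ s ^ k * σ x = σ s ^ k * σ y := hc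
        rw [map_mul, map_pow, map_sub, mul_sub, h3, sub_self]
      obtain ⟨n, hn⟩ := h2 _ hc'
      refine ⟨⟨s ^ (n + k), n + k, rfl⟩, ?_⟩
      show s ^ (n + k) * x = s ^ (n + k) * y
      rw [← sub_eq_zero, ← mul_sub, pow_add, mul_assoc]
      exact hn
  exact ⟨(IsLocalization.algEquiv (Submonoid.powers s) _ _ :
    Localization.Away s ≃ₐ[C] Localization.Away (σ s)).toRingEquiv⟩

theorem zpk_bir_iff {C B : Type u} [CommRing C] [IsNoetherianRing C] [CommRing B]
    [IsNoetherianRing B] (σ : C →+* B) (s : C)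
    (h1 : ∀ b : B, ∃ (n : ℕ) (c : C), σ s ^ n * b = σ c)
    (h2 : ∀ c : C, σ c = 0 → ∃ n : ℕ, s ^ n * c = 0) :
    ZeroPropK C s ↔ ZeroPropK B (σ s) := by
  obtain ⟨e⟩ := away_bir σ s h1 h2
  have : IsNoetherianRing (Localization.Away s) :=
    IsLocalization.isNoetherianRing (Submonoid.powers s) _ inferInstance
  have : IsNoetherianRing (Localization.Away (σ s)) :=
    IsLocalization.isNoetherianRing (Submonoid.powers (σ s)) _ inferInstance
  exact ⟨fun h => zpk_of_away (σ s) (h.away.of_equiv e.symm),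
    fun h => zpk_of_away s (h.away.of_equiv e)⟩

theorem ZeroProp.zpk {A : Type u} [CommRing A] [IsNoetherianRing A] (h : ZeroProp A) (s : A) :
    ZeroPropK A s := fun nu h0 _ W _ _ _ => h nu h0 W

/-! ### the substitution `X_j ↦ X_j X_l ^ e_j` -/

section tauE

variable (κ : Type u) [Field κ] {σ : Type} (l : σ) (e : σ → ℕ)

/-- `X_j ↦ X_j X_l ^ e_j`. -/
noncomputable def tauE : MvPolynomial σ κ →+* MvPolynomial σ κ :=
  eval₂Hom C fun j => X j * X l ^ e j

lemma tauE_C (a : κ) : tauE κ l e (C a) = C a := by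
  unfold tauE
  rw [coe_eval₂Hom, eval₂_C]

lemma tauE_X (j : σ) : tauE κ l e (X j) = X j * X l ^ e j := by
  unfold tauE
  rw [coe_eval₂Hom, eval₂_X]

variable {e}

lemma tauE_X_l (hl : e l = 0) : tauE κ l e (X l) = X l := by
  rw [tauE_X, hl, pow_zero, mul_one]

lemma tauE_injective (hl : e l = 0) : Function.Injective (tauE κ l e) := by
  let F := FractionRing (MvPolynomial σ κ)
  let ι : MvPolynomial σ κ →+* F := algebraMap _ _
  have hι : Function.Injective ι := IsFractionRing.injective _ _
  let ρ : MvPolynomial σ κ →+* F := eval₂Hom (ι.comp C) fun j => ι (X j) * ((ι (X l)) ^ e j)⁻¹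
  have hl0 : ι (X l) ≠ 0 := by
    rw [Ne, map_eq_zero_iff ι hι]
    exact X_ne_zero l
  have h : ρ.comp (tauE κ l e) = ι := by
    refine MvPolynomial.ringHom_ext (fun a => ?_) (fun j => ?_)
    · rw [RingHom.comp_apply, tauE_C]
      show eval₂ _ _ (C a) = _
      rw [eval₂_C]
      rfl
    · rw [RingHom.comp_apply, tauE_X, map_mul, map_pow]
      show eval₂ _ _ (X j) * eval₂ _ _ (X l) ^ e j = _
      rw [eval₂_X, eval₂_X, hl, pow_zero, inv_one, mul_one, mul_assoc,
        inv_mul_cancel₀ (pow_ne_zero _ hl0), mul_one]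
  intro p q hpq
  apply hι
  rw [← h, RingHom.comp_apply, RingHom.comp_apply, hpq]

lemma tauE_cond (hl : e l = 0) (P : MvPolynomial σ κ) :
    ∃ (n : ℕ) (P' : MvPolynomial σ κ), X l ^ n * P = tauE κ l e P' := by
  induction P using MvPolynomial.induction_on with
  | C a => exact ⟨0, C a, by rw [tauE_C, pow_zero, one_mul]⟩
  | add p q hp hq =>
    obtain ⟨n1, p', hp'⟩ := hp
    obtain ⟨n2, q', hq'⟩ := hq
    refine ⟨n1 + n2, X l ^ n2 * p' + X l ^ n1 * q', ?_⟩
    rw [map_add, map_mul, map_mul, map_pow, map_pow, tauE_X_l κ l hl, ← hp', ← hq']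
    ring
  | mul_X p j hp =>
    obtain ⟨n, p', hp'⟩ := hp
    refine ⟨n + e j, p' * X j, ?_⟩
    rw [map_mul, tauE_X, ← hp']
    ring

variable [Finite σ]

/-- `κ[σ]/(F)` and `κ[σ]/(tauE F)` agree after inverting `x_l`. -/
theorem tauE_iff (hl : e l = 0) (F G : MvPolynomial σ κ) (hG : tauE κ l e F = G) :
    ZeroPropK (MvPolynomial σ κ ⧸ Ideal.span {F}) (Ideal.Quotient.mk _ (X l)) ↔
      ZeroPropK (MvPolynomial σ κ ⧸ Ideal.span {G}) (Ideal.Quotient.mk _ (X l)) := by
  let τ : (MvPolynomial σ κ ⧸ Ideal.span {F}) →+* (MvPolynomial σ κ ⧸ Ideal.span {G}) :=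
    Ideal.Quotient.lift (Ideal.span {F})
      ((Ideal.Quotient.mk (Ideal.span {G})).comp (tauE κ l e)) (by
        intro p hp
        obtain ⟨q, rfl⟩ := Ideal.mem_span_singleton'.mp hp
        rw [map_mul, RingHom.comp_apply, RingHom.comp_apply, hG,
          Ideal.Quotient.eq_zero_iff_mem.mpr (Ideal.mem_span_singleton_self G),
          mul_zero])
  have hτ : ∀ p, τ (Ideal.Quotient.mk _ p) = Ideal.Quotient.mk _ (tauE κ l e p) := fun p => rfl
  have hτl : τ (Ideal.Quotient.mk _ (X l)) = Ideal.Quotient.mk _ (X l) := by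
    rw [hτ, tauE_X_l κ l hl]
  rw [← hτl]
  refine zpk_bir_iff τ _ ?_ ?_
  · intro b
    obtain ⟨P, rfl⟩ := Ideal.Quotient.mk_surjective b
    obtain ⟨n, P', hP'⟩ := tauE_cond κ l hl P
    refine ⟨n, Ideal.Quotient.mk _ P', ?_⟩
    rw [hτl, hτ, ← map_pow, ← map_mul, hP']
  · intro b hb
    obtain ⟨P, rfl⟩ := Ideal.Quotient.mk_surjective b
    rw [hτ, Ideal.Quotient.eq_zero_iff_mem] at hb
    obtain ⟨q, hq⟩ := Ideal.mem_span_singleton'.mp hb
    obtain ⟨n, q', hq'⟩ := tauE_cond κ l hl q
    refine ⟨n, ?_⟩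
    rw [← map_pow, ← map_mul, Ideal.Quotient.eq_zero_iff_mem, Ideal.mem_span_singleton']
    refine ⟨q', tauE_injective κ l hl ?_⟩
    rw [map_mul, map_mul, map_pow, tauE_X_l κ l hl, ← hq', ← hq, hG]
    ring

variable [DecidableEq σ]

/-- The free cover `x_l = y ^ M`. -/
theorem powX_zpk (M : ℕ) (hM : 0 < M) (W : MvPolynomial σ κ)
    (h : ZeroPropK (MvPolynomial σ κ ⧸ Ideal.span {powX κ l M W}) (Ideal.Quotient.mk _ (X l))) :
    ZeroPropK (MvPolynomial σ κ ⧸ Ideal.span {W}) (Ideal.Quotient.mk _ (X l)) := by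
  obtain ⟨φ, hφ, hgen, huniq⟩ := powX_basis κ l M hM W
  let _ : Algebra (MvPolynomial σ κ ⧸ Ideal.span {W}) (MvPolynomial σ κ ⧸ Ideal.span {powX κ l M W}) :=
    φ.toAlgebra
  have hsm : ∀ (r : MvPolynomial σ κ ⧸ Ideal.span {W})
      (d : MvPolynomial σ κ ⧸ Ideal.span {powX κ l M W}), r • d = φ r * d := fun r d => rfl
  let b : Module.Basis (Fin M) (MvPolynomial σ κ ⧸ Ideal.span {W})
      (MvPolynomial σ κ ⧸ Ideal.span {powX κ l M W}) :=
    Module.Basis.mk (v := fun j : Fin M => (Ideal.Quotient.mk _ (X l)) ^ (j : ℕ))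
      (by
        rw [Fintype.linearIndependent_iff]
        intro u hu
        exact huniq u hu)
      (by
        intro d _
        obtain ⟨u, hu⟩ := hgen d
        rw [hu]
        refine Submodule.sum_mem _ fun j _ => ?_
        rw [← hsm]
        exact Submodule.smul_mem _ _ (Submodule.subset_span ⟨j, rfl⟩))
  refine zpk_of_basis hM b (Ideal.Quotient.mk _ (X l)) (Ideal.Quotient.mk _ (X l)) ⟨M, hM, ?_⟩ h
  show _ = φ _
  rw [hφ, powX_X_self, map_pow]

/-- (UNF), general: cover `x_l = y ^ M` and monomial substitution with exponents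
`e₁ - e₂` in `y`. -/
theorem unfold_gen (M : ℕ) (hM : 0 < M) (e₁ e₂ : σ → ℕ) (h1 : e₁ l = 0) (h2 : e₂ l = 0)
    (W W3 : MvPolynomial σ κ) (hW : tauE κ l e₁ (powX κ l M W) = tauE κ l e₂ W3)
    (h : ZeroProp (MvPolynomial σ κ ⧸ Ideal.span {W3})) :
    ZeroPropK (MvPolynomial σ κ ⧸ Ideal.span {W}) (Ideal.Quotient.mk _ (X l)) := by
  refine powX_zpk κ l M hM W ?_
  rw [tauE_iff κ l h1 (powX κ l M W) _ hW, ← tauE_iff κ l h2 W3 _ rfl]
  exact h.zpk _

end tauE

/-! ### loops -/

section loops

variable {κ : Type u} [Field κ] {σ : Type} [DecidableEq σ]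

/-- `∏_{1 ≤ j < k} a_j` -/
def loopM (a : σ → ℕ) (x : ℕ → σ) (k : ℕ) : ℕ := ∏ j ∈ Finset.Ico 1 k, a (x j)

lemma loopM_succ (a : σ → ℕ) (x : ℕ → σ) {k : ℕ} (hk : 1 ≤ k) :
    loopM a x (k + 1) = loopM a x k * a (x k) := by
  unfold loopM
  rw [Finset.prod_Ico_succ_top hk]

lemma loopM_one (a : σ → ℕ) (x : ℕ → σ) : loopM a x 1 = 1 := by
  unfold loopM
  rw [Finset.Ico_self, Finset.prod_empty]

lemma loopM_pos (a : σ → ℕ) (ha : ∀ j, 0 < a j) (x : ℕ → σ) (k : ℕ) : 0 < loopM a x k :=
  Finset.prod_pos fun j _ => ha _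

lemma loopM_range (a : σ → ℕ) (x : ℕ → σ) {L : ℕ} (hL : 1 ≤ L) :
    ∏ k ∈ Finset.range L, a (x k) = a (x 0) * loopM a x L := by
  unfold loopM
  rw [Finset.range_eq_Ico, Finset.prod_eq_prod_Ico_succ_bot (by omega)]

/-- exponents of the substitution; `P` selects the parity of `L - k` -/
def loopE (a : σ → ℕ) (x : ℕ → σ) (L : ℕ) (P : ℕ → Prop) [DecidablePred P] (j : σ) : ℕ :=
  ∑ k ∈ Finset.Ico 1 L, if x k = j ∧ P (L - k) then loopM a x k else 0

variable {a : σ → ℕ} {nx : σ → Option σ} {L : ℕ} {x : ℕ → σ}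

lemma loopE_x (hx : IsLoop nx L x) (P : ℕ → Prop) [DecidablePred P] {k : ℕ} (h1 : 1 ≤ k)
    (hk : k < L) : loopE a x L P (x k) = if P (L - k) then loopM a x k else 0 := by
  unfold loopE
  rw [Finset.sum_eq_single k]
  · simp only [true_and]
  · intro b hb hbk
    rw [Finset.mem_Ico] at hb
    rw [if_neg]
    rintro ⟨h, -⟩
    exact hbk (hx.inj b k hb.2 hk h)
  · intro h
    exact absurd (Finset.mem_Ico.2 ⟨h1, hk⟩) h

lemma loopE_zero (P : ℕ → Prop) [DecidablePred P] {j : σ}
    (hj : ∀ k, 1 ≤ k → k < L → x k ≠ j) : loopE a x L P j = 0 := by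
  unfold loopE
  refine Finset.sum_eq_zero fun k hk => ?_
  rw [Finset.mem_Ico] at hk
  rw [if_neg]
  rintro ⟨h, -⟩
  exact hj k hk.1 hk.2 h

lemma loopE_x0 (hx : IsLoop nx L x) (P : ℕ → Prop) [DecidablePred P] :
    loopE a x L P (x 0) = 0 := by
  refine loopE_zero P fun k h1 hk h => ?_
  have := hx.inj k 0 hk (by omega) h
  omega

/-- One term of the form. -/
lemma loop_term (c : σ → κ) (hinj : ∀ i j l, nx i = some l → nx j = some l → i = j)
    (hx : IsLoop nx L x) (r : ℕ)
    (hr : (r : ℤ) = ∏ k ∈ Finset.range L, (a (x k) : ℤ) + (-1) ^ (L - 1)) (j : σ) :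
    tauE κ (x 0) (loopE a x L Even) (powX κ (x 0) (loopM a x L)
      (C (c j) * X j ^ a j * (nx j).elim 1 X)) =
    tauE κ (x 0) (loopE a x L Odd) (C (c j) * X j ^ (Function.update a (x 0) r) j *
      ((Function.update nx (x (L - 1)) none) j).elim 1 X) := by
  have hL2 := hx.two_le
  have hM := loopM_range a x (L := L) (by omega)
  by_cases hj : ∃ k, k < L ∧ x k = j
  · obtain ⟨k, hk, rfl⟩ := hj
    rcases Nat.eq_zero_or_pos k with rfl | hk1
    · -- `k = 0`
      have h0 : x (L - 1) ≠ x 0 := fun h => by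
        have := hx.inj _ _ (by omega) (by omega) h
        omega
      have h01 : x 1 ≠ x 0 := fun h => by
        have := hx.inj 1 0 (by omega) (by omega) h
        omega
      rw [Function.update_self, Function.update_of_ne (Ne.symm h0), hx.step 0 (by omega)]
      simp only [Option.elim_some, zero_add, map_mul, map_pow, powX_C, tauE_C]
      rw [powX_X_self, powX_X_ne κ _ h01, map_pow, tauE_X_l κ _ (loopE_x0 hx _), tauE_X, tauE_X,
        tauE_X, loopE_x hx _ le_rfl (by omega), loopE_x hx _ le_rfl (by omega),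
        loopE_x0 hx _, loopM_one, pow_zero, mul_one]
      rcases Nat.even_or_odd (L - 1) with h | h
      · have ho : ¬ Odd (L - 1) := Nat.not_odd_iff_even.2 h
        rw [if_pos h, if_neg ho]
        have hr' : r = a (x 0) * loopM a x L + 1 := by
          rw [h.neg_one_pow] at hr
          rw [← hM]
          exact_mod_cast hr
        rw [hr']
        ring
      · have he : ¬ Even (L - 1) := Nat.not_even_iff_odd.2 h
        rw [if_pos h, if_neg he]
        have hr' : r + 1 = a (x 0) * loopM a x L := by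
          rw [h.neg_one_pow] at hr
          rw [← hM]
          zify
          rw [hr]
          ring
        have : loopM a x L * a (x 0) = r + 1 := by rw [hr', mul_comm]
        rw [← pow_mul, this]
        ring
    · have hk0 : x k ≠ x 0 := fun h => by
        have := hx.inj k 0 hk (by omega) h
        omega
      rw [Function.update_of_ne hk0]
      by_cases hkL : k = L - 1
      · -- last
        subst hkL
        rw [Function.update_self, hx.last]
        simp only [Option.elim_some, Option.elim_none, map_mul, map_pow, powX_C, tauE_C, map_one,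
          mul_one]
        have hLM : loopM a x L = loopM a x (L - 1) * a (x (L - 1)) := by
          rw [← loopM_succ a x (by omega : 1 ≤ L - 1)]
          congr 1
          omega
        have h1 : L - (L - 1) = 1 := by omega
        rw [powX_X_self, powX_X_ne κ _ hk0, map_pow, tauE_X_l κ _ (loopE_x0 hx _), tauE_X, tauE_X,
          loopE_x hx _ hk1 hk, loopE_x hx _ hk1 hk, h1, if_neg (by decide), if_pos (by decide),
          hLM]
        ring
      · have hk' : k + 1 < L := by omega
        have hkl : x k ≠ x (L - 1) := fun h => hkL (hx.inj _ _ hk (by omega) h)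
        have hk10 : x (k + 1) ≠ x 0 := fun h => by
          have := hx.inj (k + 1) 0 hk' (by omega) h
          omega
        rw [Function.update_of_ne hkl, hx.step k hk']
        simp only [Option.elim_some, map_mul, map_pow, powX_C, tauE_C]
        rw [powX_X_ne κ _ hk0, powX_X_ne κ _ hk10, tauE_X, tauE_X, tauE_X, tauE_X,
          loopE_x hx _ hk1 hk, loopE_x hx _ hk1 hk, loopE_x hx _ (by omega) hk',
          loopE_x hx _ (by omega) hk', loopM_succ a x hk1]
        have hsub : L - k = L - (k + 1) + 1 := by omega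
        rcases Nat.even_or_odd (L - (k + 1)) with h | h
        · have ho : ¬ Odd (L - (k + 1)) := Nat.not_odd_iff_even.2 h
          have h2 : Odd (L - k) := by rw [hsub]; exact h.add_one
          have h3 : ¬ Even (L - k) := Nat.not_even_iff_odd.2 h2
          rw [if_pos h, if_neg ho, if_pos h2, if_neg h3]
          ring
        · have ho : ¬ Even (L - (k + 1)) := Nat.not_even_iff_odd.2 h
          have h2 : Even (L - k) := by rw [hsub]; exact h.add_one
          have h3 : ¬ Odd (L - k) := Nat.not_odd_iff_even.2 h2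
          rw [if_pos h, if_neg ho, if_pos h2, if_neg h3]
          ring
  · push Not at hj
    have hj0 : j ≠ x 0 := fun h => hj 0 (by omega) h.symm
    have hjl : j ≠ x (L - 1) := fun h => hj (L - 1) (by omega) h.symm
    rw [Function.update_of_ne hj0, Function.update_of_ne hjl]
    have hjE : ∀ (P : ℕ → Prop) [DecidablePred P], loopE a x L P j = 0 := fun P _ =>
      loopE_zero P fun k _ hk => hj k hk
    have key : ∀ i : σ, (∀ k, k < L → x k ≠ i) →
        tauE κ (x 0) (loopE a x L Even) (powX κ (x 0) (loopM a x L) (X i)) = X i ∧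
        tauE κ (x 0) (loopE a x L Odd) (X i : MvPolynomial σ κ) = X i := by
      intro i hi
      have h1 : ∀ (P : ℕ → Prop) [DecidablePred P], loopE a x L P i = 0 := fun P _ =>
        loopE_zero P fun k _ hk => hi k hk
      rw [powX_X_ne κ _ (fun h => hi 0 (by omega) h.symm), tauE_X, tauE_X, h1, h1, pow_zero,
        mul_one]
      exact ⟨rfl, rfl⟩
    have hel : tauE κ (x 0) (loopE a x L Even) (powX κ (x 0) (loopM a x L)
        ((nx j).elim 1 X : MvPolynomial σ κ)) =
        tauE κ (x 0) (loopE a x L Odd) ((nx j).elim 1 X : MvPolynomial σ κ) := by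
      cases hn : nx j with
      | none => simp only [Option.elim_none, map_one]
      | some i =>
        simp only [Option.elim_some]
        have hi : ∀ k, k < L → x k ≠ i := by
          rintro k hk rfl
          rcases Nat.eq_zero_or_pos k with rfl | hk1
          · exact hjl (hinj _ _ _ hn hx.last)
          · have h2 := hx.step (k - 1) (by omega)
            rw [Nat.sub_add_cancel hk1] at h2
            exact hj (k - 1) (by omega) (hinj _ _ _ h2 hn)
        rw [(key i hi).1, (key i hi).2]
    rw [map_mul, map_mul, map_mul, map_mul, map_mul, map_mul, hel, map_pow, map_pow, map_pow,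
      (key j hj).1, (key j hj).2, powX_C, tauE_C, tauE_C]

/-- (LU) unfolding a loop into a chain. -/
theorem loop_unfold (κ : Type u) [Field κ] {σ : Type} [Fintype σ] [DecidableEq σ]
    (c : σ → κ) (a : σ → ℕ) (ha : ∀ j, 0 < a j) (nx : σ → Option σ)
    (hinj : ∀ i j l, nx i = some l → nx j = some l → i = j) (L : ℕ) (x : ℕ → σ)
    (hx : IsLoop nx L x) (r : ℕ)
    (hr : (r : ℤ) = ∏ k ∈ Finset.range L, (a (x k) : ℤ) + (-1) ^ (L - 1)) (hr0 : 0 < r)
    (h : ZeroProp (MvPolynomial σ κ ⧸ Ideal.span {cform c (Function.update a (x 0) r)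
      (Function.update nx (x (L - 1)) none)})) :
    ZeroPropK (MvPolynomial σ κ ⧸ Ideal.span {cform c a nx})
      (Ideal.Quotient.mk _ (X (x 0))) := by
  refine unfold_gen κ (x 0) (loopM a x L) (loopM_pos a ha x L) (loopE a x L Even)
    (loopE a x L Odd) (loopE_x0 hx _) (loopE_x0 hx _) _ _ ?_ h
  unfold cform
  rw [map_sum, map_sum, map_sum]
  exact Finset.sum_congr rfl fun j _ => loop_term c hinj hx r hr j

end loops

end Pool.Agent.HT51
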