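import Pool.Agent.HT51.ChF
import Pool.Agent.HT51.LpU
import Pool.Agent.HT51.LpK

/-!
# Invertible polynomials: the induction with loops
-/

universe u

namespace Pool.Agent.HT51

open MvPolynomial

/-- Loops of even length carry an exponent `≥ 2`. -/
def LoopOK {σ : Type} (a : σ → ℕ) (nx : σ → Option σ) : Prop :=
  ∀ (L : ℕ) (x : ℕ → σ), IsLoop nx L x → Even L → ∃ k, k < L ∧ 2 ≤ a (x k)

lemma IsLoop.mono {σ : Type} {nx nx' : σ → Option σ}
    (h : ∀ j l, nx' j = some l → nx j = some l) {L : ℕ} {x : ℕ → σ} (hx : IsLoop nx' L x) :
    IsLoop nx L x :=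
  ⟨hx.two_le, hx.inj, fun k hk => h _ _ (hx.step k hk), h _ _ hx.last⟩

lemma LoopOK.mono {σ : Type} {a a' : σ → ℕ} {nx nx' : σ → Option σ} (h : LoopOK a nx)
    (h1 : ∀ j l, nx' j = some l → nx j = some l)
    (h2 : ∀ j l, nx' j = some l → a j ≤ a' j) : LoopOK a' nx' := by
  intro L x hx hL
  obtain ⟨k, hk, hk2⟩ := h L x (hx.mono h1) hL
  refine ⟨k, hk, hk2.trans ?_⟩
  by_cases h3 : k + 1 < L
  · exact h2 _ _ (hx.step k h3)
  · have h4 : k = L - 1 := by omega
    rw [h4]
    exact h2 _ _ hx.last

lemma LoopOK.sub {σ : Type} {P : σ → Prop} [DecidablePred P] {a : σ → ℕ} {nx : σ → Option σ}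
    [Fintype σ] [DecidableEq σ]
    (h : LoopOK a nx) : LoopOK (fun j : {j : σ // P j} => a j) (nxS P nx) := by
  intro L x hx hL
  exact h L (fun k => (x k).1) ⟨hx.two_le,
    fun j k hj hk hjk => hx.inj j k hj hk (Subtype.ext hjk),
    fun k hk => nxS_some (hx.step k hk), nxS_some hx.last⟩ hL

/-- In a loop every element is the successor of an element of the loop. -/
lemma IsLoop.pred {σ : Type} {nx : σ → Option σ} {L : ℕ} {x : ℕ → σ} (hx : IsLoop nx L x)
    (k : ℕ) (hk : k < L) : ∃ j, j < L ∧ nx (x j) = some (x k) := by
  have h2 := hx.two_le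
  rcases Nat.eq_zero_or_pos k with h | h
  · exact ⟨L - 1, by omega, by rw [h]; exact hx.last⟩
  · refine ⟨k - 1, by omega, ?_⟩
    have h3 := hx.step (k - 1) (by omega)
    rwa [Nat.sub_add_cancel h] at h3

lemma exists_loop {σ : Type} [Finite σ] (nx : σ → Option σ) (hfix : ∀ j, nx j ≠ some j)
    (hno : ∀ i, (nx i).isSome → ∃ j, nx j = some i) (i0 : σ) (hi0 : (nx i0).isSome) :
    ∃ (L : ℕ) (x : ℕ → σ), IsLoop nx L x := by
  classical
  choose! p hp using hno
  let q : {j : σ // (nx j).isSome} → {j : σ // (nx j).isSome} :=
    fun j => ⟨p j.1, by rw [hp j.1 j.2]; rfl⟩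
  have hq : Function.Injective q := by
    intro j k h
    have h1 : p j.1 = p k.1 := congrArg Subtype.val h
    have h2 := hp j.1 j.2
    have h3 := hp k.1 k.2
    rw [h1, h3] at h2
    exact Subtype.ext (Option.some.inj h2).symm
  have hnq : ∀ j : {j : σ // (nx j).isSome}, nx (q j).1 = some j.1 := fun j => hp j.1 j.2
  let y : {j : σ // (nx j).isSome} := ⟨i0, hi0⟩
  have hper : y ∈ Function.periodicPts q := hq.mem_periodicPts y
  have hL0 : 0 < Function.minimalPeriod q y := Function.minimalPeriod_pos_of_mem_periodicPts hper
  have hqL : q^[Function.minimalPeriod q y] y = y := Function.iterate_minimalPeriod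
  set L := Function.minimalPeriod q y with hL
  have h2 : 2 ≤ L := by
    by_contra h
    have h1 : L = 1 := by omega
    rw [h1, Function.iterate_one] at hqL
    have h3 := hnq y
    rw [hqL] at h3
    exact hfix _ h3
  refine ⟨L, fun k => (q^[L - 1 - k] y).1, h2, ?_, ?_, ?_⟩
  · intro j k hj hk hjk
    have h3 : q^[L - 1 - j] y = q^[L - 1 - k] y := Subtype.ext hjk
    have h4 := Function.iterate_injOn_Iio_minimalPeriod (f := q) (x := y)
      (show L - 1 - j ∈ Set.Iio (Function.minimalPeriod q y) from by
        rw [Set.mem_Iio, ← hL]; omega)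
      (show L - 1 - k ∈ Set.Iio (Function.minimalPeriod q y) from by
        rw [Set.mem_Iio, ← hL]; omega) h3
    omega
  · intro k hk
    have h3 : L - 1 - k = (L - 1 - (k + 1)) + 1 := by omega
    show nx (q^[L - 1 - k] y).1 = some (q^[L - 1 - (k + 1)] y).1
    rw [h3, Function.iterate_succ_apply', hnq]
  · show nx (q^[L - 1 - (L - 1)] y).1 = some (q^[L - 1 - 0] y).1
    have h3 : q (q^[L - 1] y) = y := by
      rw [← Function.iterate_succ_apply' q (L - 1) y, Nat.succ_eq_add_one,
        Nat.sub_add_cancel hL0, hqL]
    rw [Nat.sub_self, Nat.sub_zero, Function.iterate_zero, id]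
    have h4 := hnq (q^[L - 1] y)
    rw [h3] at h4
    exact h4

lemma cform_ne_zero' {κ : Type u} [Field κ] {σ : Type} [Fintype σ] [DecidableEq σ] [Nonempty σ]
    (c : σ → κ) (hc : ∀ j, c j ≠ 0) (a : σ → ℕ) (ha : ∀ j, 0 < a j) (nx : σ → Option σ)
    (hloop : LoopOK a nx) : cform c a nx ≠ 0 := by
  obtain ⟨j⟩ := ‹Nonempty σ›
  let mon : σ → (σ →₀ ℕ) := fun k =>
    Finsupp.single k (a k) + (nx k).elim 0 (fun l => Finsupp.single l 1)
  have hmon : ∀ k, C (c k) * X k ^ a k * (nx k).elim 1 X = monomial (mon k) (c k) := by
    intro k
    show _ = monomial (Finsupp.single k (a k) + (nx k).elim 0 (fun l => Finsupp.single l 1)) (c k)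
    cases h : nx k with
    | none =>
      show C (c k) * X k ^ a k * 1 = monomial (Finsupp.single k (a k) + 0) (c k)
      rw [mul_one, add_zero, C_mul_X_pow_eq_monomial]
    | some l =>
      show C (c k) * X k ^ a k * X l
        = monomial (Finsupp.single k (a k) + Finsupp.single l 1) (c k)
      rw [C_mul_X_pow_eq_monomial, show (X l : MvPolynomial σ κ)
        = monomial (Finsupp.single l 1) 1 from rfl, monomial_mul, mul_one]
  have key : ∀ k i, k ≠ i → mon k = mon i → nx i = some k ∧ a k = 1 := by
    intro k i hki h
    have e : mon k k = mon i k := by rw [h]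
    have e1 : a k ≤ mon k k := by
      show a k ≤ (Finsupp.single k (a k) + (nx k).elim 0 (fun l => Finsupp.single l 1) : σ →₀ ℕ) k
      rw [Finsupp.add_apply, Finsupp.single_eq_same]
      omega
    have e2 : mon i k = ((nx i).elim 0 (fun l => Finsupp.single l 1) : σ →₀ ℕ) k := by
      show (Finsupp.single i (a i) + (nx i).elim 0 (fun l => Finsupp.single l 1) : σ →₀ ℕ) k = _
      rw [Finsupp.add_apply, Finsupp.single_eq_of_ne hki, zero_add]
    have hak := ha k
    cases h1 : nx i with
    | none =>
      rw [h1] at e2
      have e3 : mon i k = 0 := e2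
      omega
    | some l =>
      rw [h1] at e2
      have e3 : mon i k = (Finsupp.single l 1 : σ →₀ ℕ) k := e2
      rw [Finsupp.single_apply] at e3
      by_cases hlk : l = k
      · rw [if_pos hlk] at e3
        exact ⟨by rw [hlk], by omega⟩
      · rw [if_neg hlk] at e3
        omega
  intro h0
  have h1 := congrArg (coeff (mon j)) h0
  unfold cform at h1
  rw [coeff_sum, Finset.sum_eq_single j, hmon, coeff_monomial, if_pos rfl, coeff_zero] at h1
  · exact hc j h1
  · intro k _ hk
    rw [hmon, coeff_monomial, if_neg]
    intro hkj
    obtain ⟨h2, h3⟩ := key k j hk hkj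
    obtain ⟨h4, h5⟩ := key j k hk.symm hkj.symm
    obtain ⟨i, hi, hi2⟩ := hloop 2 (fun n => if n = 0 then k else j) ⟨le_rfl, by
      intro s t hs ht hst
      have hs' : s = 0 ∨ s = 1 := by omega
      have ht' : t = 0 ∨ t = 1 := by omega
      rcases hs' with rfl | rfl <;> rcases ht' with rfl | rfl
      · rfl
      · exact absurd hst (by simpa using hk)
      · exact absurd hst (by simpa using hk.symm)
      · rfl, by
      intro s hs
      have hs' : s = 0 := by omega
      subst hs'
      simpa using h4, by simpa using h2⟩ ⟨1, rfl⟩
    have hi' : i = 0 ∨ i = 1 := by omega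
    rcases hi' with rfl | rfl
    · have : 2 ≤ a k := by simpa using hi2
      omega
    · have : 2 ≤ a j := by simpa using hi2
      omega
  · intro h2; exact absurd (Finset.mem_univ j) h2

/-- Invertible polynomials over finite fields. -/
theorem inv_zp_aux (κ : Type u) [Field κ] [Finite κ] (m : ℕ) :
    ∀ {σ : Type} [Fintype σ] [DecidableEq σ]
    (_ : Odd (Fintype.card σ)) (c : σ → κ) (_ : ∀ j, c j ≠ 0) (a : σ → ℕ) (_ : ∀ j, 0 < a j)
    (nx : σ → Option σ) (_ : ∀ i j l, nx i = some l → nx j = some l → i = j)
    (_ : ∀ j, nx j ≠ some j) (_ : LoopOK a nx)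
    (_ : (Finset.univ.filter fun j => (nx j).isSome).card ≤ m),
    ZeroProp (MvPolynomial σ κ ⧸ Ideal.span {cform c a nx}) := by
  induction m with
  | zero =>
    intro σ _ _ hodd c hc a ha nx hinj hfix hloop hm
    have hnx : ∀ j, nx j = none := by
      intro j
      have h1 : (Finset.univ.filter fun j => (nx j).isSome) = ∅ :=
        Finset.card_eq_zero.mp (Nat.le_zero.mp hm)
      cases h : nx j with
      | none => rfl
      | some l =>
        have h2 : j ∈ (Finset.univ.filter fun j => (nx j).isSome) := by simp [h]
        rw [h1] at h2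
        exact absurd h2 (Finset.notMem_empty _)
    have h3 : cform c a nx = ∑ j, C (c j) * X j ^ a j := by
      unfold cform
      refine Finset.sum_congr rfl fun j _ => ?_
      rw [hnx j]
      simp
    rw [h3]
    exact diag_any κ hodd a ha c hc
  | succ m ih =>
    intro σ _ _ hodd c hc a ha nx hinj hfix hloop hm
    by_cases hem : (Finset.univ.filter fun j => (nx j).isSome) = ∅
    · exact ih hodd c hc a ha nx hinj hfix hloop (by rw [hem]; simp)
    by_cases hhead : ∃ i, (nx i).isSome ∧ ∀ j, nx j ≠ some i
    swap
    · -- a loop
      have hno : ∀ i, (nx i).isSome → ∃ j, nx j = some i := by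
        intro i hi
        by_contra h
        exact hhead ⟨i, hi, fun j hj => h ⟨j, hj⟩⟩
      obtain ⟨i0, hi0⟩ := Finset.nonempty_iff_ne_empty.mpr hem
      obtain ⟨L, x, hx⟩ := exists_loop nx hfix hno i0 (by simpa using hi0)
      have hL2 := hx.two_le
      have hclosed : ∀ j t, (∀ k, k < L → j ≠ x k) → nx j = some t → ∀ k, k < L → t ≠ x k := by
        intro j t hj ht k hk h
        obtain ⟨i, hi, hi2⟩ := hx.pred k hk
        rw [h] at ht
        exact hj i hi (hinj j (x i) _ ht hi2)
      let g : MvPolynomial {j : σ // ∀ k, k < L → j ≠ x k} κ :=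
        cform (fun j => c j) (fun j => a j) (nxS (fun j => ∀ k, k < L → j ≠ x k) nx)
      have hg : rename Subtype.val g
          = ∑ j ∈ Finset.univ.filter (fun j => ∀ k, k < L → j ≠ x k),
            C (c j) * X j ^ a j * (nx j).elim 1 X :=
        rename_cform (fun j => ∀ k, k < L → j ≠ x k) c a nx hclosed
      have hcard : Fintype.card {j : σ // ∀ k, k < L → j ≠ x k} + L = Fintype.card σ := by
        have h1 : (Finset.univ.filter fun j : σ => ∀ k, k < L → j ≠ x k).card
            = Fintype.card {j : σ // ∀ k, k < L → j ≠ x k} := by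
          rw [Fintype.card_subtype]
        have h2 : (Finset.univ.filter fun j : σ => ∀ k, k < L → j ≠ x k)
            = Finset.univ \ (Finset.range L).image x := by
          ext j
          simp only [Finset.mem_filter, Finset.mem_univ, true_and, Finset.mem_sdiff,
            Finset.mem_image, Finset.mem_range, not_exists, not_and]
          exact ⟨fun h k hk hkj => h k hk hkj.symm, fun h k hk hkj => h k hk hkj.symm⟩
        have h3 : ((Finset.range L).image x).card = L := by
          rw [Finset.card_image_of_injOn, Finset.card_range]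
          intro s hs t ht hst
          exact hx.inj s t (Finset.mem_range.mp (Finset.mem_coe.mp hs))
            (Finset.mem_range.mp (Finset.mem_coe.mp ht)) hst
        have h4 := Finset.card_sdiff_add_card_eq_card (Finset.subset_univ ((Finset.range L).image x))
        rw [h3, ← h2, h1, Finset.card_univ] at h4
        exact h4
      have hodd' : Even L → Odd (Fintype.card {j : σ // ∀ k, k < L → j ≠ x k}) := by
        intro hL
        rcases hodd with ⟨s, hs⟩
        rcases hL with ⟨t, ht⟩
        exact ⟨s - t, by omega⟩
      have hg0 : Even L → g ≠ 0 := by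
        intro hL
        have : Nonempty {j : σ // ∀ k, k < L → j ≠ x k} :=
          Fintype.card_pos_iff.mp (hodd' hL).pos
        exact cform_ne_zero' (fun j : {j : σ // ∀ k, k < L → j ≠ x k} => c j) (fun j => hc j)
          (fun j => a j) (fun j => ha j) _ hloop.sub
      have hz : Even L →
          ZeroProp (MvPolynomial {j : σ // ∀ k, k < L → j ≠ x k} κ ⧸ Ideal.span {g}) := by
        intro hL
        refine ih (hodd' hL) _ (fun j => hc j) _ (fun j => ha j) _ ?_ ?_ hloop.sub ?_
        · intro j j' t hj hj'
          exact Subtype.ext (hinj j.1 j'.1 t.1 (nxS_some hj) (nxS_some hj'))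
        · intro j hj
          exact hfix j.1 (nxS_some hj)
        · have h1 : ((Finset.univ.filter fun j : {j : σ // ∀ k, k < L → j ≠ x k} =>
              (nxS (fun j => ∀ k, k < L → j ≠ x k) nx j).isSome).map
                (Function.Embedding.subtype _))
              ⊆ (Finset.univ.filter fun j => (nx j).isSome).erase (x (L - 1)) := by
            intro j hj
            obtain ⟨j', hj', rfl⟩ := Finset.mem_map.mp hj
            have h2 := (Finset.mem_filter.mp hj').2
            obtain ⟨t, ht⟩ := Option.isSome_iff_exists.mp h2
            refine Finset.mem_erase.mpr ⟨j'.2 (L - 1) (by omega), ?_⟩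
            refine Finset.mem_filter.mpr ⟨Finset.mem_univ _, ?_⟩
            show (nx j'.1).isSome
            rw [nxS_some ht]
            rfl
          have h3 := Finset.card_le_card h1
          rw [Finset.card_map, Finset.card_erase_of_mem (by simp [hx.last])] at h3
          omega
      obtain ⟨r, hr, hr0⟩ : ∃ r : ℕ,
          (r : ℤ) = ∏ k ∈ Finset.range L, (a (x k) : ℤ) + (-1) ^ (L - 1) ∧ 0 < r := by
        have hprod : (∏ k ∈ Finset.range L, (a (x k) : ℤ))
            = ((∏ k ∈ Finset.range L, a (x k) : ℕ) : ℤ) := by push_cast; rfl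
        rcases Nat.even_or_odd L with hL | hL
        · obtain ⟨k, hk, hk2⟩ := hloop L x hx hL
          have h1 : 2 ≤ ∏ k ∈ Finset.range L, a (x k) := by
            refine hk2.trans (Nat.le_of_dvd (Finset.prod_pos fun k _ => ha (x k))
              (Finset.dvd_prod_of_mem _ (Finset.mem_range.mpr hk)))
          have h2 : Odd (L - 1) := by
            rcases hL with ⟨t, ht⟩
            exact ⟨t - 1, by omega⟩
          refine ⟨∏ k ∈ Finset.range L, a (x k) - 1, ?_, by omega⟩
          rw [hprod, h2.neg_one_pow, Nat.cast_sub (by omega)]
          push_cast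
          ring
        · have h2 : Even (L - 1) := by
            rcases hL with ⟨t, ht⟩
            exact ⟨t, by omega⟩
          refine ⟨∏ k ∈ Finset.range L, a (x k) + 1, ?_, by omega⟩
          rw [hprod, h2.neg_one_pow]
          push_cast
          ring
      have hupd : ∀ j l, Function.update nx (x (L - 1)) none j = some l → nx j = some l := by
        intro j l h
        by_cases h1 : j = x (L - 1)
        · rw [h1, Function.update_self] at h
          exact absurd h (by simp)
        · rwa [Function.update_of_ne h1] at h
      have hU : ZeroProp (MvPolynomial σ κ ⧸ Ideal.span {cform c (Function.update a (x 0) r)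
          (Function.update nx (x (L - 1)) none)}) := by
        refine ih hodd c hc _ ?_ _ ?_ ?_ ?_ ?_
        · intro j
          by_cases h1 : j = x 0
          · rw [h1, Function.update_self]; exact hr0
          · rw [Function.update_of_ne h1]; exact ha j
        · intro i j l hi hj
          exact hinj i j l (hupd i l hi) (hupd j l hj)
        · intro j hj
          exact hfix j (hupd j j hj)
        · -- loops of the new map avoid `x 0`
          intro L' y hy hL'
          have h0 : ∀ k, k < L' → y k ≠ x 0 := by
            intro k hk h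
            obtain ⟨i, hi, hi2⟩ := hy.pred k hk
            rw [h] at hi2
            have h1 := hinj (y i) (x (L - 1)) _ (hupd _ _ hi2) hx.last
            rw [h1, Function.update_self] at hi2
            exact absurd hi2 (by simp)
          obtain ⟨k, hk, hk2⟩ := hloop L' y (hy.mono hupd) hL'
          exact ⟨k, hk, by rw [Function.update_of_ne (h0 k hk)]; exact hk2⟩
        · have h1 : (Finset.univ.filter fun j =>
              (Function.update nx (x (L - 1)) none j).isSome)
              ⊆ (Finset.univ.filter fun j => (nx j).isSome).erase (x (L - 1)) := by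
            intro j hj
            have h2 := (Finset.mem_filter.mp hj).2
            obtain ⟨t, ht⟩ := Option.isSome_iff_exists.mp h2
            have h3 : j ≠ x (L - 1) := by
              intro h
              rw [h, Function.update_self] at h2
              exact absurd h2 (by simp)
            refine Finset.mem_erase.mpr ⟨h3, Finset.mem_filter.mpr ⟨Finset.mem_univ _, ?_⟩⟩
            rw [hupd j t ht]
            rfl
          have h3 := Finset.card_le_card h1
          rw [Finset.card_erase_of_mem (by simp [hx.last])] at h3
          omega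
      intro lam h0 W _ _ _
      exact loop_unfold κ c a ha nx hinj L x hx r hr hr0 hU lam h0
        (loop_kill κ hodd c hc a ha nx hinj L x hx g hg0 hg hz lam h0) W
    obtain ⟨i, hi1, hns⟩ := hhead
    obtain ⟨l, hl⟩ := Option.isSome_iff_exists.mp hi1
    have hil : i ≠ l := by
      intro h
      rw [← h] at hl
      exact hfix i hl
    -- the polynomial without `i`
    let gi : MvPolynomial {j : σ // j ≠ i} κ :=
      cform (fun j => c j) (fun j => a j) (nxS (fun j => j ≠ i) nx)
    have hgi : rename Subtype.val gi
        = ∑ j ∈ Finset.univ.filter (fun j => j ≠ i), C (c j) * X j ^ a j * (nx j).elim 1 X :=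
      rename_cform (fun j => j ≠ i) c a nx fun j t _ ht h => hns j (by rw [ht, h])
    have hW : cform c a nx = C (c i) * X i ^ a i * X l + rename Subtype.val gi := by
      rw [hgi]
      unfold cform
      rw [← Finset.add_sum_erase _ _ (Finset.mem_univ i), hl]
      congr 1
      refine Finset.sum_congr ?_ fun _ _ => rfl
      ext j
      simp
    -- the polynomial without `i, l`
    let g0 : MvPolynomial {j : σ // j ≠ i ∧ j ≠ l} κ :=
      cform (fun j => c j) (fun j => a j) (nxS (fun j => j ≠ i ∧ j ≠ l) nx)
    have hg0 : rename Subtype.val g0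
        = ∑ j ∈ Finset.univ.filter (fun j => j ≠ i ∧ j ≠ l), C (c j) * X j ^ a j *
          (nx j).elim 1 X := by
      refine rename_cform (fun j => j ≠ i ∧ j ≠ l) c a nx fun j t hj ht => ⟨?_, ?_⟩
      · intro h; exact hns j (by rw [ht, h])
      · intro h
        rw [h] at ht
        exact hj.1 (hinj j i l ht hl)
    have hcard : Fintype.card {j : σ // j ≠ i ∧ j ≠ l} + 2 = Fintype.card σ := by
      have h1 : (Finset.univ.filter fun j : σ => j ≠ i ∧ j ≠ l).card
          = Fintype.card {j : σ // j ≠ i ∧ j ≠ l} := by
        rw [Fintype.card_subtype]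
      have h2 : (Finset.univ.filter fun j : σ => j ≠ i ∧ j ≠ l)
          = (Finset.univ.erase i).erase l := by
        ext j
        simp [and_comm]
      rw [← h1, h2, Finset.card_erase_of_mem (by simp [hil.symm]),
        Finset.card_erase_of_mem (Finset.mem_univ i), Finset.card_univ]
      have h3 : 1 < Fintype.card σ := Fintype.one_lt_card_iff.mpr ⟨i, l, hil⟩
      omega
    have hodd' : Odd (Fintype.card {j : σ // j ≠ i ∧ j ≠ l}) := by
      rw [← hcard] at hodd
      rcases hodd with ⟨s, hs⟩
      exact ⟨s - 1, by omega⟩
    have hne' : Nonempty {j : σ // j ≠ i ∧ j ≠ l} := by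
      refine Fintype.card_pos_iff.mp ?_
      exact hodd'.pos
    have hzg : ZeroProp (MvPolynomial {j : σ // j ≠ i ∧ j ≠ l} κ ⧸ Ideal.span {g0}) := by
      refine ih hodd' _ (fun j => hc j) _ (fun j => ha j) _ ?_ ?_ hloop.sub ?_
      · intro j j' t hj hj'
        exact Subtype.ext (hinj j.1 j'.1 t.1 (nxS_some hj) (nxS_some hj'))
      · intro j hj
        exact hfix j.1 (nxS_some hj)
      · have h1 : ((Finset.univ.filter fun j : {j : σ // j ≠ i ∧ j ≠ l} =>
            (nxS (fun j => j ≠ i ∧ j ≠ l) nx j).isSome).map (Function.Embedding.subtype _))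
            ⊆ (Finset.univ.filter fun j => (nx j).isSome).erase i := by
          intro j hj
          obtain ⟨j', hj', rfl⟩ := Finset.mem_map.mp hj
          have h2 := (Finset.mem_filter.mp hj').2
          obtain ⟨t, ht⟩ := Option.isSome_iff_exists.mp h2
          refine Finset.mem_erase.mpr ⟨j'.2.1, ?_⟩
          refine Finset.mem_filter.mpr ⟨Finset.mem_univ _, ?_⟩
          show (nx j'.1).isSome
          rw [nxS_some ht]
          rfl
        have h3 := Finset.card_le_card h1
        rw [Finset.card_map, Finset.card_erase_of_mem (by simp [hl])] at h3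
        omega
    -- the unfolded polynomial
    let a' : σ → ℕ := fun j => if j = l then a i * a l else a j
    let nx' : σ → Option σ := fun j => if j = i then none else nx j
    have hW3 : C (c i) * X i ^ a i + powX κ l (a i) (rename Subtype.val gi) = cform c a' nx' := by
      rw [hgi, map_sum]
      unfold cform
      rw [← Finset.add_sum_erase _ _ (Finset.mem_univ i)]
      congr 1
      · have h1 : a' i = a i := if_neg hil
        have h2 : nx' i = none := if_pos rfl
        rw [h1, h2]
        simp
      · refine Finset.sum_congr ?_ fun j hj => ?_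
        · ext j; simp
        · have hji : j ≠ i := by simpa using hj
          have h2 : nx' j = nx j := if_neg hji
          rw [h2, map_mul, map_mul, map_pow, powX_C]
          congr 1
          · by_cases hjl : j = l
            · have h1 : a' j = a i * a l := if_pos hjl
              rw [h1, hjl, powX_X_self, ← pow_mul]
            · have h1 : a' j = a j := if_neg hjl
              rw [h1, powX_X_ne κ _ hjl]
          · cases h4 : nx j with
            | none => simp
            | some t =>
              have htl : t ≠ l := by
                intro h5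
                rw [h5] at h4
                exact hji (hinj j i l h4 hl)
              show powX κ l (a i) (X t) = X t
              rw [powX_X_ne κ _ htl]
    have hz3 : ZeroProp (MvPolynomial σ κ ⧸
        Ideal.span {C (c i) * X i ^ a i + powX κ l (a i) (rename Subtype.val gi)}) := by
      rw [hW3]
      refine ih hodd c hc a' ?_ nx' ?_ ?_ ?_ ?_
      · intro j
        show 0 < (if j = l then a i * a l else a j)
        split_ifs
        · exact Nat.mul_pos (ha i) (ha l)
        · exact ha j
      · intro j j' t hj hj'
        by_cases h1 : j = i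
        · have : nx' j = none := if_pos h1
          rw [this] at hj; exact absurd hj (by simp)
        by_cases h2 : j' = i
        · have : nx' j' = none := if_pos h2
          rw [this] at hj'; exact absurd hj' (by simp)
        have h3 : nx' j = nx j := if_neg h1
        have h4 : nx' j' = nx j' := if_neg h2
        rw [h3] at hj
        rw [h4] at hj'
        exact hinj j j' t hj hj'
      · intro j hj
        by_cases h1 : j = i
        · have : nx' j = none := if_pos h1
          rw [this] at hj; exact absurd hj (by simp)
        have h3 : nx' j = nx j := if_neg h1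
        rw [h3] at hj
        exact hfix j hj
      · refine hloop.mono ?_ ?_
        · intro j t hj
          by_cases h1 : j = i
          · have : nx' j = none := if_pos h1
            rw [this] at hj; exact absurd hj (by simp)
          have h3 : nx' j = nx j := if_neg h1
          rwa [h3] at hj
        · intro j t _
          show a j ≤ (if j = l then a i * a l else a j)
          split_ifs with h1
          · rw [h1]
            exact Nat.le_mul_of_pos_left _ (ha i)
          · exact le_rfl
      · have h1 : (Finset.univ.filter fun j => (nx' j).isSome)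
            ⊆ (Finset.univ.filter fun j => (nx j).isSome).erase i := by
          intro j hj
          have h2 := (Finset.mem_filter.mp hj).2
          by_cases h3 : j = i
          · have : nx' j = none := if_pos h3
            rw [this] at h2; exact absurd h2 (by simp)
          · have h4 : nx' j = nx j := if_neg h3
            rw [h4] at h2
            exact Finset.mem_erase.mpr ⟨h3, Finset.mem_filter.mpr ⟨Finset.mem_univ _, h2⟩⟩
        have h3 := Finset.card_le_card h1
        rw [Finset.card_erase_of_mem (by simp [hl])] at h3
        omega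
    have hK := unfold_rule κ i l hil (a i) (ha i) (c i) gi hz3
    -- the killing
    have hV : ∃ V : MvPolynomial σ κ, cform c a nx = X l * V + rename Subtype.val g0 := by
      refine ⟨C (c i) * X i ^ a i + C (c l) * X l ^ (a l - 1) * (nx l).elim 1 X, ?_⟩
      rw [hW, hgi, hg0]
      have h1 : (Finset.univ.filter fun j : σ => j ≠ i)
          = insert l (Finset.univ.filter fun j : σ => j ≠ i ∧ j ≠ l) := by
        ext j
        simp only [Finset.mem_filter, Finset.mem_univ, true_and, Finset.mem_insert]
        constructor
        · intro h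
          by_cases h2 : j = l
          · exact Or.inl h2
          · exact Or.inr ⟨h, h2⟩
        · rintro (h | h)
          · rw [h]; exact hil.symm
          · exact h.1
      rw [h1, Finset.sum_insert (by simp)]
      have h2 : (X l ^ a l : MvPolynomial σ κ) = X l * X l ^ (a l - 1) := by
        rw [← pow_succ', Nat.sub_add_cancel (ha l)]
      rw [h2]
      ring
    obtain ⟨V, hV⟩ := hV
    have hg0ne : g0 ≠ 0 :=
      cform_ne_zero' (fun j : {j : σ // j ≠ i ∧ j ≠ l} => c j) (fun j => hc j) (fun j => a j)
        (fun j => ha j) _ hloop.sub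
    intro lam h0 W _ _ _
    have hkill := kill_rule κ i l hil (cform c a nx) V g0 hV hg0ne hzg lam h0
    have hK' : ZeroPropK (MvPolynomial σ κ ⧸ Ideal.span {cform c a nx})
        (Ideal.Quotient.mk _ (X l)) := by
      rw [hW]
      exact hK
    exact hK' lam h0 hkill W

theorem inv_zp (κ : Type u) [Field κ] [Finite κ] {σ : Type} [Fintype σ] [DecidableEq σ]
    (hodd : Odd (Fintype.card σ)) (c : σ → κ) (hc : ∀ j, c j ≠ 0) (a : σ → ℕ) (ha : ∀ j, 0 < a j)
    (nx : σ → Option σ) (hinj : ∀ i j l, nx i = some l → nx j = some l → i = j)
    (hfix : ∀ j, nx j ≠ some j)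
    (hloop : ∀ (L : ℕ) (x : ℕ → σ), IsLoop nx L x → Even L → ∃ k, k < L ∧ 2 ≤ a (x k)) :
    ZeroProp (MvPolynomial σ κ ⧸ Ideal.span {cform c a nx}) :=
  inv_zp_aux κ _ hodd c hc a ha nx hinj hfix hloop le_rfl

end Pool.Agent.HT51
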