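import Pool.Agent.HT51.LpKa
import Pool.Agent.HT51.LpL
import Pool.Agent.HT51.LpDefs

/-!
# Loops: removing a variable
-/

universe u

namespace Pool.Agent.HT51

open MvPolynomial

section lin

variable {κ : Type u} [Field κ] {σ : Type} [Fintype σ] [DecidableEq σ]

/-- The additive function vanishes on modules killed by the variables in `D`. -/
def Van {W : MvPolynomial σ κ} (lam : AddFn (MvPolynomial σ κ ⧸ Ideal.span {W})) (D : σ → Prop) :
    Prop :=
  ∀ (M : Type u) [AddCommGroup M] [Module (MvPolynomial σ κ ⧸ Ideal.span {W}) M]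
    [Module.Finite (MvPolynomial σ κ ⧸ Ideal.span {W}) M],
    (∀ j, D j → ∀ m : M, (Ideal.Quotient.mk (Ideal.span {W}) (X j)) • m = 0) → lam.val M = 0

open Classical in
/-- Setting the variables in `D` to zero. -/
noncomputable def dl (κ : Type u) [Field κ] {σ : Type} (D : σ → Prop) :
    MvPolynomial σ κ →ₐ[κ] MvPolynomial {j : σ // ¬ D j} κ :=
  aeval fun j => if h : ¬ D j then X ⟨j, h⟩ else 0

omit [Fintype σ] [DecidableEq σ] in
lemma dl_X_of {D : σ → Prop} {j : σ} (h : ¬ D j) : dl κ D (X j) = X ⟨j, h⟩ := by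
  unfold dl
  rw [aeval_X, dif_pos h]

omit [Fintype σ] [DecidableEq σ] in
lemma dl_X_zero {D : σ → Prop} {j : σ} (h : D j) : dl κ D (X j) = 0 := by
  unfold dl
  rw [aeval_X, dif_neg (not_not.mpr h)]

omit [Fintype σ] [DecidableEq σ] in
lemma dl_rename {D : σ → Prop} (t : MvPolynomial {j : σ // ¬ D j} κ) :
    dl κ D (rename Subtype.val t) = t := by
  have h : (dl κ D).comp (rename Subtype.val : MvPolynomial {j : σ // ¬ D j} κ →ₐ[κ] _) =
      AlgHom.id κ _ := by
    apply MvPolynomial.algHom_ext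
    intro j
    rw [AlgHom.comp_apply, rename_X, dl_X_of j.2]
    rfl
  exact DFunLike.congr_fun h t

omit [Fintype σ] [DecidableEq σ] in
lemma dl_sub {D : σ → Prop} (r : MvPolynomial σ κ) :
    r - rename Subtype.val (dl κ D r) ∈ Ideal.span {y | ∃ j, D j ∧ y = (X j : MvPolynomial σ κ)} := by
  have h : (Ideal.Quotient.mkₐ κ (Ideal.span {y | ∃ j, D j ∧ y = (X j : MvPolynomial σ κ)})).comp
      ((rename Subtype.val : MvPolynomial {j : σ // ¬ D j} κ →ₐ[κ] _).comp (dl κ D)) =
      Ideal.Quotient.mkₐ κ (Ideal.span {y | ∃ j, D j ∧ y = (X j : MvPolynomial σ κ)}) := by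
    apply MvPolynomial.algHom_ext
    intro j
    rw [AlgHom.comp_apply, AlgHom.comp_apply]
    by_cases hj : D j
    · rw [dl_X_zero hj, map_zero, map_zero]
      symm
      exact Ideal.Quotient.eq_zero_iff_mem.mpr (Ideal.subset_span ⟨j, hj, rfl⟩)
    · rw [dl_X_of hj, rename_X]
  have h2 := DFunLike.congr_fun h r
  exact (Ideal.Quotient.eq).mp h2.symm

omit [Fintype σ] [DecidableEq σ] in
/-- The ideal of the variables in `D` kills. -/
lemma kill_span {W : MvPolynomial σ κ} {D : σ → Prop} {M : Type u} [AddCommGroup M]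
    [Module (MvPolynomial σ κ ⧸ Ideal.span {W}) M]
    (h : ∀ j, D j → ∀ m : M, (Ideal.Quotient.mk (Ideal.span {W}) (X j)) • m = 0)
    {r : MvPolynomial σ κ} (hr : r ∈ Ideal.span {y | ∃ j, D j ∧ y = (X j : MvPolynomial σ κ)})
    (m : M) : (Ideal.Quotient.mk (Ideal.span {W}) r) • m = 0 := by
  induction hr using Submodule.span_induction with
  | mem y hy =>
    obtain ⟨j, hj, rfl⟩ := hy
    exact h j hj m
  | zero =>
    rw [map_zero]
    exact zero_smul (MvPolynomial σ κ ⧸ Ideal.span {W}) m
  | add y z _ _ hy hz => rw [map_add, add_smul, hy, hz, add_zero]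
  | smul a y _ hy => rw [smul_eq_mul, map_mul, mul_smul, hy, smul_zero]

/-- (LIN) removing the predecessor `p` of a variable `q` with removed successor. -/
theorem van_lin (c : σ → κ) (hc : ∀ j, c j ≠ 0) (a : σ → ℕ) (nx : σ → Option σ)
    (hinj : ∀ i j l, nx i = some l → nx j = some l → i = j)
    {W : MvPolynomial σ κ} (hW : W = cform c a nx)
    (lam : AddFn (MvPolynomial σ κ ⧸ Ideal.span {W}))
    (h0 : lam.val (MvPolynomial σ κ ⧸ Ideal.span {W}) = 0)
    (D : σ → Prop) (p q l : σ) (hp : ¬ D p) (hq : ¬ D q) (hne : p ≠ q) (hpq : nx p = some q)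
    (hql : nx q = some l) (hl : D l) (h : Van lam (fun j => D j ∨ j = p)) : Van lam D := by
  classical
  let p' : {j : σ // ¬ D j} := ⟨p, hp⟩
  let q' : {j : σ // ¬ D j} := ⟨q, hq⟩
  -- the equation
  obtain ⟨g, hg⟩ : ∃ g : MvPolynomial {j : {j : σ // ¬ D j} // j ≠ q'} κ,
      dl κ D W = C (c p) * X p' ^ a p * X q' + rename Subtype.val g := by
    let S := (rename Subtype.val : MvPolynomial {j : {j : σ // ¬ D j} // j ≠ q'} κ →ₐ[κ]
      MvPolynomial {j : σ // ¬ D j} κ).range
    have hX : ∀ j, j ≠ q → dl κ D (X j) ∈ S := by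
      intro j hj
      by_cases hD : D j
      · rw [dl_X_zero hD]
        exact S.zero_mem
      · rw [dl_X_of hD]
        exact ⟨X ⟨⟨j, hD⟩, fun h => hj (congrArg Subtype.val h)⟩, by simp⟩
    have hmem : ∑ j ∈ Finset.univ.erase p, dl κ D (C (c j) * X j ^ a j * (nx j).elim 1 X) ∈ S := by
      refine Subalgebra.sum_mem _ fun j hj => ?_
      have hjp : j ≠ p := Finset.ne_of_mem_erase hj
      by_cases hjq : j = q
      · subst hjq
        rw [hql]
        simp only [Option.elim_some, map_mul, dl_X_zero hl, mul_zero]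
        exact S.zero_mem
      · rw [map_mul, map_mul, map_pow]
        refine S.mul_mem (S.mul_mem ?_ (S.pow_mem (hX j hjq) _)) ?_
        · have : dl κ D (C (c j)) = algebraMap κ _ (c j) := by
            rw [← algebraMap_eq, AlgHom.commutes]
          rw [this]
          exact S.algebraMap_mem _
        · cases hn : nx j with
          | none =>
            simp only [Option.elim_none, map_one]
            exact S.one_mem
          | some m =>
            simp only [Option.elim_some]
            refine hX m ?_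
            rintro rfl
            exact hjp (hinj _ _ _ hn hpq)
    obtain ⟨g, hg⟩ := hmem
    refine ⟨g, ?_⟩
    rw [hW, cform, map_sum, ← Finset.add_sum_erase _ _ (Finset.mem_univ p)]
    congr 1
    · rw [map_mul, map_mul, map_pow, hpq]
      simp only [Option.elim_some]
      rw [dl_X_of hp, dl_X_of hq]
      congr 2
      rw [← algebraMap_eq, AlgHom.commutes, algebraMap_eq]
    · exact hg.symm
  let G : MvPolynomial {j : σ // ¬ D j} κ := C (c p) * X p' ^ a p * X q' + rename Subtype.val g
  have hzp : ZeroPropK (MvPolynomial {j : σ // ¬ D j} κ ⧸ Ideal.span {G})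
      (Ideal.Quotient.mk _ (X p')) :=
    lin_rule κ p' q' (fun h => hne (congrArg Subtype.val h)) (a p) (c p) (hc p) g
  -- the map
  let φ : (MvPolynomial σ κ ⧸ Ideal.span {W}) →+* (MvPolynomial {j : σ // ¬ D j} κ ⧸ Ideal.span {G}) :=
    Ideal.Quotient.lift _ ((Ideal.Quotient.mk (Ideal.span {G})).comp (dl κ D).toRingHom) (by
      intro y hy
      obtain ⟨z, rfl⟩ := Ideal.mem_span_singleton'.mp hy
      show Ideal.Quotient.mk (Ideal.span {G}) (dl κ D (z * W)) = 0
      rw [map_mul, hg, Ideal.Quotient.eq_zero_iff_mem]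
      exact Ideal.mul_mem_left _ _ (Ideal.mem_span_singleton_self _))
  have hφ : ∀ r, φ (Ideal.Quotient.mk _ r) = Ideal.Quotient.mk (Ideal.span {G}) (dl κ D r) :=
    fun r => rfl
  have hδs : Function.Surjective (dl κ D) := fun t => ⟨_, dl_rename t⟩
  have hφs : Function.Surjective φ := by
    intro y
    obtain ⟨t, rfl⟩ := Ideal.Quotient.mk_surjective y
    obtain ⟨r, rfl⟩ := hδs t
    exact ⟨Ideal.Quotient.mk _ r, rfl⟩
  -- `W` is not zero
  have hG0 : G ≠ 0 := by
    intro h1
    let ε : MvPolynomial {j : σ // ¬ D j} κ →ₐ[κ] MvPolynomial {j : σ // ¬ D j} κ :=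
      aeval fun j => if j = q' then 0 else X j
    have hε : ε (rename Subtype.val g) = rename Subtype.val g := by
      have h2 : ε.comp (rename Subtype.val : MvPolynomial {j : {j : σ // ¬ D j} // j ≠ q'} κ →ₐ[κ]
          MvPolynomial {j : σ // ¬ D j} κ) = rename Subtype.val := by
        apply MvPolynomial.algHom_ext
        intro j
        rw [AlgHom.comp_apply, rename_X]
        show aeval _ (X j.1) = _
        rw [aeval_X, if_neg j.2]
      exact DFunLike.congr_fun h2 g
    have hεq : ε (X q') = 0 := by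
      show aeval _ (X q') = _
      rw [aeval_X, if_pos rfl]
    have h3 : ε G = rename Subtype.val g := by
      show ε (C (c p) * X p' ^ a p * X q' + rename Subtype.val g) = _
      rw [map_add, map_mul, hεq, mul_zero, zero_add, hε]
    rw [h1, map_zero] at h3
    have h4 : C (c p) * X p' ^ a p * X q' = (0 : MvPolynomial {j : σ // ¬ D j} κ) := by
      have h5 : C (c p) * X p' ^ a p * X q' + rename Subtype.val g = 0 := h1
      rwa [← h3, add_zero] at h5
    have h6 : (C (c p) : MvPolynomial {j : σ // ¬ D j} κ) ≠ 0 := by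
      rw [Ne, C_eq_zero]
      exact hc p
    exact mul_ne_zero (mul_ne_zero h6 (pow_ne_zero _ (X_ne_zero _))) (X_ne_zero _) h4
  have hW0 : W ≠ 0 := by
    intro h1
    apply hG0
    show C (c p) * X p' ^ a p * X q' + rename Subtype.val g = 0
    rw [← hg, h1, map_zero]
  let nu := lam.res φ (RingHom.Finite.of_surjective φ hφs)
  have hnu0 : nu.val (MvPolynomial {j : σ // ¬ D j} κ ⧸ Ideal.span {G}) = 0 := by
    refine res_zero (ZeroProp.mvPolynomial κ σ) (fun x hx => (mul_eq_zero.mp hx).resolve_left hW0)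
      h0 (dl κ D).toRingHom hδs ?_ (Ideal.Quotient.mk (Ideal.span {G})) ?_ φ hφ hφs
    · show dl κ D W ≠ 0
      rw [hg]
      exact hG0
    · intro t ht
      rw [Ideal.Quotient.eq_zero_iff_mem, Ideal.mem_span_singleton] at ht
      show dl κ D W ∣ t
      rw [hg]
      exact ht
  have hkill : nu.Kills (Ideal.Quotient.mk _ (X p')) := by
    intro V _ _ hV hV0
    have : Module.Finite (MvPolynomial σ κ ⧸ Ideal.span {W}) (Res φ V) :=
      res_finite φ (RingHom.Finite.of_surjective φ hφs)
    refine h (Res φ V) ?_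
    rintro j (hj | rfl) m
    · show φ (Ideal.Quotient.mk _ (X j)) • (toRes φ V).symm m = 0
      rw [hφ, dl_X_zero hj, map_zero]
      exact zero_smul (MvPolynomial {j : σ // ¬ D j} κ ⧸ Ideal.span {G}) ((toRes φ V).symm m)
    · show φ (Ideal.Quotient.mk _ (X j)) • (toRes φ V).symm m = 0
      rw [hφ, dl_X_of hp]
      exact hV0 _
  intro M _ _ _ hM
  refine val_of_res φ hφs lam (fun V => hzp nu hnu0 hkill V) M ?_
  intro b hb m
  obtain ⟨r, rfl⟩ := Ideal.Quotient.mk_surjective b
  rw [hφ, Ideal.Quotient.eq_zero_iff_mem, Ideal.mem_span_singleton'] at hb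
  obtain ⟨t, ht⟩ := hb
  have h1 : dl κ D (r - rename Subtype.val t * W) = 0 := by
    rw [map_sub, map_mul, dl_rename, hg, ← ht, sub_self]
  have h2 := dl_sub (D := D) (r - rename Subtype.val t * W)
  rw [h1, map_zero, sub_zero] at h2
  have h3 : Ideal.Quotient.mk (Ideal.span {W}) r =
      Ideal.Quotient.mk (Ideal.span {W}) (r - rename Subtype.val t * W) := by
    rw [Ideal.Quotient.eq, Ideal.mem_span_singleton']
    exact ⟨rename Subtype.val t, by ring⟩
  rw [h3]
  exact kill_span hM h2 m

end lin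

end Pool.Agent.HT51
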