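import Pool.Agent.HT51.LpKb

/-!
# Loops: values of the quotients by primes
-/

universe u

namespace Pool.Agent.HT51

open MvPolynomial

open Classical in
/-- `X_j ↦ ψ X_j` for `j` with `O j` (off the loop), `X_j ↦ X_j` for the other `j` with `T j`,
`X_j ↦ 0` for the rest. -/
noncomputable def thL {κ : Type u} [Field κ] {σ : Type} (O : σ → Prop) {Q : Type u} [CommRing Q]
    (ψ : MvPolynomial {j : σ // O j} κ →+* Q) (T : σ → Prop) :
    MvPolynomial σ κ →+* MvPolynomial σ Q :=
  eval₂Hom ((C.comp ψ).comp C) fun j =>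
    if h : O j then C (ψ (X ⟨j, h⟩)) else if T j then X j else 0

/-- The value of the additive function at `κ[σ] / ker (thL O ψ T)`. -/
noncomputable def PL {κ : Type u} [Field κ] {σ : Type} {W : MvPolynomial σ κ}
    (lam : AddFn (MvPolynomial σ κ ⧸ Ideal.span {W})) (O : σ → Prop) {Q : Type u} [CommRing Q]
    (ψ : MvPolynomial {j : σ // O j} κ →+* Q) (T : σ → Prop) : ℂ :=
  lam.val ((MvPolynomial σ κ ⧸ Ideal.span {W}) ⧸
    (RingHom.ker (thL O ψ T)).map (Ideal.Quotient.mk (Ideal.span {W})))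

end Pool.Agent.HT51
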