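import Pool.Agent.HT51.LpKd

/-!
# Loops: the relation between two values
-/

universe u

namespace Pool.Agent.HT51

open MvPolynomial

section

variable {κ : Type u} [Field κ] {σ : Type} {O : σ → Prop} {Q : Type u} [CommRing Q]
  (ψ : MvPolynomial {j : σ // O j} κ →+* Q) {T : σ → Prop}

lemma thL_X1 {j : σ} (hO : ¬ O j) (hT : T j) : thL O ψ T (X j) = X j := by
  unfold thL
  rw [coe_eval₂Hom, eval₂_X, dif_neg hO, if_pos hT]

lemma thL_X0 {j : σ} (hO : ¬ O j) (hT : ¬ T j) : thL O ψ T (X j) = 0 := by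
  unfold thL
  rw [coe_eval₂Hom, eval₂_X, dif_neg hO, if_neg hT]

open Classical in
/-- Removing a variable. -/
lemma ker_thL_sup {u : σ} (hu : ¬ O u) (hT : T u) :
    RingHom.ker (thL O ψ T) ⊔ Ideal.span {X u} = RingHom.ker (thL O ψ (fun j => T j ∧ j ≠ u)) := by
  -- the substitution `X_u ↦ 0`
  let ε : MvPolynomial σ κ →+* MvPolynomial σ κ :=
    eval₂Hom C fun j => if j = u then 0 else X j
  let ε' : MvPolynomial σ Q →+* MvPolynomial σ Q :=
    eval₂Hom C fun j => if j = u then 0 else X j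
  have hεu : ∀ j, ε (X j) = if j = u then 0 else X j := by
    intro j
    show eval₂Hom C _ (X j) = _
    rw [coe_eval₂Hom, eval₂_X]
  have hε'u : ∀ j, ε' (X j) = if j = u then 0 else X j := by
    intro j
    show eval₂Hom C _ (X j) = _
    rw [coe_eval₂Hom, eval₂_X]
  have hεC : ∀ b, ε (C b) = C b := by
    intro b
    show eval₂Hom C _ (C b) = _
    rw [coe_eval₂Hom, eval₂_C]
  have hε'C : ∀ b, ε' (C b) = C b := by
    intro b
    show eval₂Hom C _ (C b) = _
    rw [coe_eval₂Hom, eval₂_C]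
  have hC : ∀ (T : σ → Prop) (b : κ), thL O ψ T (C b) = C (ψ (C b)) := by
    intro T b
    unfold thL
    rw [coe_eval₂Hom, eval₂_C]
    rfl
  have hX : ∀ (T : σ → Prop) (j : σ) (h : O j), thL O ψ T (X j) = C (ψ (X ⟨j, h⟩)) := by
    intro T j h
    unfold thL
    rw [coe_eval₂Hom, eval₂_X, dif_pos h]
  -- the two compositions
  have h1 : (thL O ψ T).comp ε = thL O ψ (fun j => T j ∧ j ≠ u) := by
    refine MvPolynomial.ringHom_ext ?_ ?_
    · intro b
      rw [RingHom.comp_apply, hεC, hC, hC]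
    · intro j
      rw [RingHom.comp_apply, hεu]
      by_cases hj : j = u
      · subst hj
        rw [if_pos rfl, map_zero, thL_X0 ψ hu (fun h => h.2 rfl)]
      · rw [if_neg hj]
        by_cases hOj : O j
        · rw [hX _ j hOj, hX _ j hOj]
        · by_cases hTj : T j
          · rw [thL_X1 ψ hOj hTj, thL_X1 ψ hOj ⟨hTj, hj⟩]
          · rw [thL_X0 ψ hOj hTj, thL_X0 ψ hOj (fun h => hTj h.1)]
  have h2 : ε'.comp (thL O ψ T) = thL O ψ (fun j => T j ∧ j ≠ u) := by
    refine MvPolynomial.ringHom_ext ?_ ?_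
    · intro b
      rw [RingHom.comp_apply, hC, hC, hε'C]
    · intro j
      rw [RingHom.comp_apply]
      by_cases hOj : O j
      · rw [hX _ j hOj, hX _ j hOj, hε'C]
      · by_cases hTj : T j
        · rw [thL_X1 ψ hOj hTj, hε'u]
          by_cases hj : j = u
          · rw [if_pos hj, thL_X0 ψ hOj (fun h => h.2 hj)]
          · rw [if_neg hj, thL_X1 ψ hOj ⟨hTj, hj⟩]
        · rw [thL_X0 ψ hOj hTj, map_zero, thL_X0 ψ hOj (fun h => hTj h.1)]
  have h3 : ∀ r, r - ε r ∈ Ideal.span {(X u : MvPolynomial σ κ)} := by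
    intro r
    have h : (Ideal.Quotient.mk (Ideal.span {(X u : MvPolynomial σ κ)})).comp ε =
        Ideal.Quotient.mk (Ideal.span {(X u : MvPolynomial σ κ)}) := by
      refine MvPolynomial.ringHom_ext ?_ ?_
      · intro b
        rw [RingHom.comp_apply, hεC]
      · intro j
        rw [RingHom.comp_apply, hεu]
        by_cases hj : j = u
        · subst hj
          rw [if_pos rfl, map_zero]
          exact (Ideal.Quotient.eq_zero_iff_mem.mpr (Ideal.mem_span_singleton_self _)).symm
        · rw [if_neg hj]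
    exact (Ideal.Quotient.eq).mp (RingHom.congr_fun h r).symm
  apply le_antisymm
  · rw [sup_le_iff]
    constructor
    · intro r hr
      rw [RingHom.mem_ker] at hr ⊢
      rw [← h2, RingHom.comp_apply, hr, map_zero]
    · rw [Ideal.span_le, Set.singleton_subset_iff, SetLike.mem_coe, RingHom.mem_ker]
      exact thL_X0 ψ hu (fun h => h.2 rfl)
  · intro r hr
    rw [RingHom.mem_ker, ← h1, RingHom.comp_apply] at hr
    have e : r = ε r + (r - ε r) := by ring
    rw [e]
    exact Ideal.add_mem _ (Ideal.mem_sup_left hr) (Ideal.mem_sup_right (h3 r))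

end

theorem rel_step {κ : Type u} [Field κ] {σ : Type} [Fintype σ] {W : MvPolynomial σ κ}
    (hW0 : W ≠ 0) (lam : AddFn (MvPolynomial σ κ ⧸ Ideal.span {W}))
    (h0 : lam.val (MvPolynomial σ κ ⧸ Ideal.span {W}) = 0) (O : σ → Prop) {Q : Type u}
    [CommRing Q] [IsDomain Q] (ψ : MvPolynomial {j : σ // O j} κ →+* Q)
    (T : σ → Prop) (u v : σ) (huv : u ≠ v) (hOu : ¬ O u) (hOv : ¬ O v)
    (hu : T u) (hv : T v) (a : ℕ) (c : κ) (hc : c ≠ 0)
    (hW : thL O ψ T W = C (ψ (C c)) * X u ^ a * X v) :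
    (a : ℂ) * PL lam O ψ (fun j => T j ∧ j ≠ u) + PL lam O ψ (fun j => T j ∧ j ≠ v) = 0 := by
  obtain ⟨I, hI⟩ : ∃ I, I = RingHom.ker (thL O ψ T) := ⟨_, rfl⟩
  have hprime : I.IsPrime := by
    rw [hI]
    exact RingHom.ker_isPrime _
  have hXu : X u ∉ I := by
    rw [hI, RingHom.mem_ker, thL_X1 ψ hOu hu]
    exact X_ne_zero u
  have hXv : X v ∉ I := by
    rw [hI, RingHom.mem_ker, thL_X1 ψ hOv hv]
    exact X_ne_zero v
  have hψc : ψ (C c) ≠ 0 := by
    have h2 : IsUnit (C c : MvPolynomial {j : σ // O j} κ) := (IsUnit.mk0 _ hc).map C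
    exact (h2.map ψ).ne_zero
  have hCc : thL O ψ T (C c) = C (ψ (C c)) := by
    unfold thL
    rw [coe_eval₂Hom, eval₂_C]
    rfl
  have hWI : W - C c * X u ^ a * X v ∈ I := by
    rw [hI, RingHom.mem_ker, map_sub, hW, map_mul, map_mul, map_pow, hCc, thL_X1 ψ hOu hu,
      thL_X1 ψ hOv hv, sub_self]
  have hWn : W ∉ I := by
    rw [hI, RingHom.mem_ker, hW]
    have h3 : (C (ψ (C c)) : MvPolynomial σ Q) ≠ 0 := by
      rw [Ne, C_eq_zero]
      exact hψc
    exact mul_ne_zero (mul_ne_zero h3 (pow_ne_zero _ (X_ne_zero _))) (X_ne_zero _)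
  obtain ⟨v1, hv1⟩ : ∃ v1 : Ideal (MvPolynomial σ κ) → ℂ, v1 = fun J =>
    lam.val ((MvPolynomial σ κ ⧸ Ideal.span {W}) ⧸ J.map (Ideal.Quotient.mk (Ideal.span {W}))) :=
    ⟨_, rfl⟩
  -- the ideals of the filtration
  have hpow : ∀ i, X u ^ i * X v ∉ I := by
    intro i h
    rcases hprime.mem_or_mem h with h | h
    · exact hXu (hprime.mem_of_pow_mem _ h)
    · exact hXv h
  have hWmem : ∀ i ≤ a, W ∈ I ⊔ Ideal.span {X u ^ i * X v} := by
    intro i hi
    have e : W = (W - C c * X u ^ a * X v) + C c * X u ^ (a - i) * (X u ^ i * X v) := by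
      have : X u ^ a = (X u ^ (a - i) * X u ^ i : MvPolynomial σ κ) := by
        rw [← pow_add]
        congr 1
        omega
      rw [this]
      ring
    rw [e]
    exact Ideal.add_mem _ (Ideal.mem_sup_left hWI) (Ideal.mem_sup_right
      (Ideal.mul_mem_left _ _ (Ideal.mem_span_singleton_self _)))
  have hstep : ∀ i, i + 1 ≤ a → v1 (I ⊔ Ideal.span {X u ^ (i + 1) * X v}) =
      v1 (I ⊔ Ideal.span {X u}) + v1 (I ⊔ Ideal.span {X u ^ i * X v}) := by
    intro i hi
    have hWu : W ∈ I ⊔ Ideal.span {X u} := by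
      have e : W = (W - C c * X u ^ a * X v) + C c * X u ^ (a - 1) * X v * X u := by
        have : X u ^ a = (X u ^ (a - 1) * X u : MvPolynomial σ κ) := by
          rw [← pow_succ]
          congr 1
          omega
        rw [this]
        ring
      rw [e]
      exact Ideal.add_mem _ (Ideal.mem_sup_left hWI) (Ideal.mem_sup_right
        (Ideal.mul_mem_left _ _ (Ideal.mem_span_singleton_self _)))
    have h := val_colon' (lam := lam) (I ⊔ Ideal.span {X u})
      (I ⊔ Ideal.span {X u ^ (i + 1) * X v}) hWu (hWmem _ hi) (X u ^ i * X v) ?_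
    · have e : I ⊔ Ideal.span {X u ^ (i + 1) * X v} ⊔ Ideal.span {X u ^ i * X v} =
          I ⊔ Ideal.span {X u ^ i * X v} := by
        rw [sup_assoc]
        congr 1
        rw [sup_eq_right, Ideal.span_le, Set.singleton_subset_iff, SetLike.mem_coe,
          Ideal.mem_span_singleton']
        exact ⟨X u, by ring⟩
      rw [e] at h
      rw [hv1]
      exact h
    · intro r
      rw [sup_comm I, Ideal.mem_span_singleton_sup, sup_comm I, Ideal.mem_span_singleton_sup]
      constructor
      · rintro ⟨s, t, ht, hst⟩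
        refine ⟨s, X u ^ i * X v * t, I.mul_mem_left _ ht, ?_⟩
        rw [← hst]
        ring
      · rintro ⟨s, t, ht, hst⟩
        refine ⟨s, r - s * X u, ?_, by ring⟩
        have h2 : X u ^ i * X v * (r - s * X u) ∈ I := by
          have e : X u ^ i * X v * (r - s * X u) = t := by
            rw [mul_sub, ← hst]
            ring
          rw [e]
          exact ht
        exact (hprime.mem_or_mem h2).resolve_left (hpow i)
  have hsum : ∀ i ≤ a, v1 (I ⊔ Ideal.span {X u ^ i * X v}) =
      i * v1 (I ⊔ Ideal.span {X u}) + v1 (I ⊔ Ideal.span {X v}) := by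
    intro i
    induction i with
    | zero =>
      intro _
      rw [pow_zero, one_mul]
      push_cast
      ring
    | succ i ih =>
      intro hi
      rw [hstep i hi, ih (by omega)]
      push_cast
      ring
  have hzero : v1 (I ⊔ Ideal.span {X u ^ a * X v}) = 0 := by
    have h := kos_zero W (ZeroProp.mvPolynomial κ σ)
      (fun x hx => (mul_eq_zero.mp hx).resolve_left hW0) lam h0 I
      (fun r hr => (hprime.mem_or_mem hr).resolve_left hWn)
    have e : (I ⊔ Ideal.span {X u ^ a * X v}).map (Ideal.Quotient.mk (Ideal.span {W})) =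
        I.map (Ideal.Quotient.mk (Ideal.span {W})) := by
      rw [Ideal.map_sup, sup_eq_left, Ideal.map_span, Set.image_singleton, Ideal.span_le,
        Set.singleton_subset_iff, SetLike.mem_coe]
      have hinv : C c⁻¹ * C c = (1 : MvPolynomial σ κ) := by
        rw [← C_mul, inv_mul_cancel₀ hc, C_1]
      have e2 : Ideal.Quotient.mk (Ideal.span {W}) (X u ^ a * X v) =
          Ideal.Quotient.mk (Ideal.span {W}) (-(C c⁻¹ * (W - C c * X u ^ a * X v))) := by
        rw [Ideal.Quotient.eq, Ideal.mem_span_singleton']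
        refine ⟨C c⁻¹, ?_⟩
        linear_combination (X u ^ a * X v) * hinv
      rw [e2]
      exact Ideal.mem_map_of_mem _ ((Ideal.neg_mem_iff _).mpr (I.mul_mem_left _ hWI))
    rw [hv1]
    show lam.val (_ ⧸ (I ⊔ Ideal.span {X u ^ a * X v}).map (Ideal.Quotient.mk (Ideal.span {W}))) = 0
    rw [e]
    exact h
  rw [hsum a le_rfl, hI, ker_thL_sup ψ hOu hu, ker_thL_sup ψ hOv hv, hv1] at hzero
  exact hzero

end Pool.Agent.HT51
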