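import Pool.Agent.HT51.Homotopy

/-!
# Homotopy invariance for polynomial rings in several variables
-/

universe u

namespace Pool.Agent.HT51

open MvPolynomial TensorProduct

/-- Additive functions on `R` vanish if they vanish on the `R/pR`, `p` a prime ideal of `C`. -/
def HPr {C R : Type u} [CommRing C] [CommRing R] (ι : C →+* R) : Prop :=
  ∀ nu : AddFn R, (∀ p : Ideal C, p.IsPrime → nu.val (R ⧸ p.map ι) = 0) →
    ∀ (M : Type u) [AddCommGroup M] [Module R M] [Module.Finite R M], nu.val M = 0

lemma HPr.of_equiv {C R R' : Type u} [CommRing C] [CommRing R] [CommRing R'] {ι : C →+* R}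
    {ι' : C →+* R'} (e : R' ≃+* R) (he : (e : R' →+* R).comp ι' = ι) (h : HPr ι) : HPr ι' := by
  intro nu h0 M _ _ _
  have hef : (e : R' →+* R).Finite := RingHom.Finite.of_surjective _ e.surjective
  have hef' : (e.symm : R →+* R').Finite := RingHom.Finite.of_surjective _ e.symm.surjective
  let nu' : AddFn R := nu.res (e : R' →+* R) hef
  have h0' : ∀ p : Ideal C, p.IsPrime → nu'.val (R ⧸ p.map ι) = 0 := by
    intro p hp
    rw [← h0 p hp]
    show nu.val (Res (e : R' →+* R) (R ⧸ p.map ι)) = _
    have hmap : p.map ι = (p.map ι').map (e : R' →+* R) := by rw [Ideal.map_map, he]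
    let E : (R' ⧸ p.map ι') ≃+* (R ⧸ p.map ι) := Ideal.quotientEquiv _ _ e hmap
    refine (nu.val_congr (M := R' ⧸ p.map ι') (N := Res (e : R' →+* R) (R ⧸ p.map ι)) ?_).symm
    exact
      { toFun := fun a => E a
        invFun := fun c => E.symm c
        left_inv := fun a => E.symm_apply_apply a
        right_inv := fun c => E.apply_symm_apply c
        map_add' := fun a b => map_add E a b
        map_smul' := fun a b => by
          obtain ⟨b, rfl⟩ := Ideal.Quotient.mk_surjective b
          show E (Ideal.Quotient.mk _ (a * b)) = Ideal.Quotient.mk _ (e a * e b)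
          exact congrArg (Ideal.Quotient.mk _) (map_mul e a b) }
  let M' := Res (e.symm : R →+* R') M
  have hM' : Module.Finite R M' := res_finite _ hef'
  have h1 := h nu' h0' M'
  rw [← h1]
  show nu.val M = nu.val (Res (e : R' →+* R) (Res (e.symm : R →+* R') M))
  refine nu.val_congr (M := M) ?_
  exact
    { toFun := fun w => w
      invFun := fun w => w
      left_inv := fun w => rfl
      right_inv := fun w => rfl
      map_add' := fun a b => rfl
      map_smul' := fun a w => by
        show a • w = (e.symm (e a)) • w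
        rw [e.symm_apply_apply] }

lemma HPr.polynomial {C R : Type u} [CommRing C] [CommRing R] [IsNoetherianRing R] {ι : C →+* R}
    (h : HPr ι) : HPr ((Polynomial.C : R →+* Polynomial R).comp ι) := by
  intro nu h0 M _ _ _
  refine homotopy nu ?_ M
  intro q _
  have h1 : (nu.base (A := R)).val (R ⧸ q) = 0 := by
    refine h (nu.base (A := R)) ?_ (R ⧸ q)
    intro p hp
    rw [AddFn.base_val]
    have h2 := h0 p hp
    rw [← Ideal.map_map] at h2
    rw [← h2]
    exact (nu.val_congr (Algebra.TensorProduct.quotIdealMapEquivTensorQuot (Polynomial R)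
      (p.map ι)).toLinearEquiv).symm
  rw [← h1, AddFn.base_val]
  exact nu.val_congr (Algebra.TensorProduct.quotIdealMapEquivTensorQuot (Polynomial R)
    q).toLinearEquiv

lemma HPr.id (C : Type u) [CommRing C] [IsNoetherianRing C] : HPr (RingHom.id C) := by
  intro nu h0 M _ _ _
  refine IsNoetherianRing.induction_on_isQuotientEquivQuotientPrime C (M := M)
    (motive := fun M _ _ _ => nu.val M = 0) inferInstance ?_ ?_ ?_
  · intro M _ _ _ _
    exact nu.val_of_subsingleton M
  · intro M _ _ _ p e
    rw [nu.val_congr e]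
    have h1 := h0 p.1 p.2
    rw [Ideal.map_id] at h1
    exact h1
  · intro M1 _ _ _ M2 _ _ _ M3 _ _ _ f g hf hg hfg h1 h2
    rw [nu.add' M1 M2 M3 f g hf hfg hg inferInstance, h1, h2, add_zero]

lemma HPr.mv (C : Type u) [CommRing C] [IsNoetherianRing C] (τ : Type) [Finite τ] :
    HPr (MvPolynomial.C : C →+* MvPolynomial τ C) := by
  induction τ using Finite.induction_empty_option with
  | of_equiv e h =>
    refine h.of_equiv (MvPolynomial.renameEquiv C e).toRingEquiv.symm ?_
    refine RingHom.ext fun x => ?_
    show (MvPolynomial.renameEquiv C e).symm (MvPolynomial.C x) = _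
    rw [AlgEquiv.symm_apply_eq]
    show _ = rename e (MvPolynomial.C x)
    rw [rename_C]
  | h_empty =>
    refine (HPr.id C).of_equiv (MvPolynomial.isEmptyAlgEquiv C PEmpty).toRingEquiv ?_
    refine RingHom.ext fun x => ?_
    exact (MvPolynomial.isEmptyAlgEquiv C PEmpty).commutes x
  | h_option h =>
    refine h.polynomial.of_equiv (MvPolynomial.optionEquivLeft C _).toRingEquiv ?_
    refine RingHom.ext fun x => ?_
    exact MvPolynomial.optionEquivLeft_C C _ x

theorem mv_homotopy {C : Type u} [CommRing C] [IsNoetherianRing C] (τ : Type) [Finite τ]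
    (nu : AddFn (MvPolynomial τ C))
    (h : ∀ p : Ideal C, p.IsPrime → nu.val (MvPolynomial τ C ⧸ p.map MvPolynomial.C) = 0)
    (M : Type u) [AddCommGroup M] [Module (MvPolynomial τ C) M]
    [Module.Finite (MvPolynomial τ C) M] : nu.val M = 0 :=
  HPr.mv C τ nu h M

theorem ZeroProp.mv {C : Type u} [CommRing C] [IsNoetherianRing C] (τ : Type) [Finite τ]
    (h : ZeroProp C) : ZeroProp (MvPolynomial τ C) := by
  intro nu h0 W _ _ _
  refine mv_homotopy τ nu ?_ W
  intro p _
  have h1 : (nu.base (A := C)).val (C ⧸ p) = 0 :=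
    h (nu.base (A := C)) (by rw [AddFn.base_self, h0]) (C ⧸ p)
  rw [← h1, AddFn.base_val]
  exact nu.val_congr (Algebra.TensorProduct.quotIdealMapEquivTensorQuot (MvPolynomial τ C)
    p).toLinearEquiv

end Pool.Agent.HT51
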