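import Pool.Agent.HT51.SpDefs

/-!
# The derivatives of the form kill the homology of a matrix factorisation
-/

universe u

namespace Pool.Agent.HT51

open MvPolynomial Pool.Agent.HT21 IsLocalRing TensorProduct

namespace SpK

lemma mact_mul {R : Type u} [CommRing R] {p q r : ℕ} (A : Matrix (Fin p) (Fin q) R)
    (B : Matrix (Fin q) (Fin r) R) (W : Type u) [AddCommGroup W] [Module R W] (w : Fin r → W) :
    mact (A * B) W w = mact A W (mact B W w) := by
  funext k
  simp only [mact_apply, Matrix.mul_apply, Finset.sum_smul, Finset.smul_sum, mul_smul]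
  exact Finset.sum_comm

lemma mact_add {R : Type u} [CommRing R] {p q : ℕ} (A B : Matrix (Fin p) (Fin q) R)
    (W : Type u) [AddCommGroup W] [Module R W] (w : Fin q → W) :
    mact (A + B) W w = mact A W w + mact B W w := by
  funext k
  simp only [mact_apply, Matrix.add_apply, add_smul, Finset.sum_add_distrib, Pi.add_apply]

lemma mact_smul_one {R : Type u} [CommRing R] {p : ℕ} (f : R)
    (W : Type u) [AddCommGroup W] [Module R W] (w : Fin p → W) :
    mact (f • (1 : Matrix (Fin p) (Fin p) R)) W w = f • w := by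
  classical
  funext k
  simp only [mact_apply, Matrix.smul_apply, Matrix.one_apply, smul_eq_mul, mul_ite, mul_one,
    mul_zero, ite_smul, zero_smul, Finset.sum_ite_eq, Finset.mem_univ, if_true, Pi.smul_apply]

/-- entrywise derivative of a product -/
lemma map_pderiv_mul {T : Type u} [CommRing T] {N p q r : ℕ} (i : Fin N)
    (A : Matrix (Fin p) (Fin q) (MvPolynomial (Fin N) T))
    (B : Matrix (Fin q) (Fin r) (MvPolynomial (Fin N) T)) :
    (A * B).map (pderiv i) = A * B.map (pderiv i) + A.map (pderiv i) * B := by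
  refine Matrix.ext fun a b => ?_
  simp only [Matrix.map_apply, Matrix.mul_apply, Matrix.add_apply, map_sum, Derivation.leibniz,
    smul_eq_mul, ← Finset.sum_add_distrib]
  refine Finset.sum_congr rfl fun x _ => ?_
  ring

lemma pderiv_df {T : Type u} [CommRing T] {N : ℕ} (c : Fin N → T) (n : Fin N → ℕ) (i : Fin N) :
    pderiv i (df c n) = C (c i * n i) * X i ^ (n i - 1) := by
  classical
  unfold df
  rw [map_sum, Finset.sum_eq_single i]
  · rw [pderiv_C_mul, pderiv_pow, pderiv_X_self, mul_one, C_mul, map_natCast, mul_assoc]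
  · intro j _ hj
    rw [pderiv_C_mul, pderiv_pow, pderiv_X_of_ne hj, mul_zero, mul_zero]
  · intro h
    exact absurd (Finset.mem_univ i) h

/-- the derivatives of `f` kill the homology -/
lemma pderiv_smul {T : Type u} [CommRing T] {N : ℕ} {f : MvPolynomial (Fin N) T} {r : ℕ}
    (F : MF f r) (W : Type u) [AddCommGroup W] [Module (MvPolynomial (Fin N) T) W] (i : Fin N)
    (w : Fin r → W) (hw : mact F.phi W w = 0) :
    (pderiv i f) • w = mact F.psi W (mact (F.phi.map (pderiv i)) W w) := by
  classical
  have h1 : (F.psi * F.phi).map (pderiv i)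
      = (f • (1 : Matrix (Fin r) (Fin r) (MvPolynomial (Fin N) T))).map (pderiv i) := by
    rw [F.psi_phi]
  rw [map_pderiv_mul] at h1
  have h2 : (f • (1 : Matrix (Fin r) (Fin r) (MvPolynomial (Fin N) T))).map (pderiv i)
      = (pderiv i f) • (1 : Matrix (Fin r) (Fin r) (MvPolynomial (Fin N) T)) := by
    refine Matrix.ext fun a b => ?_
    by_cases hab : a = b
    · subst hab
      simp [Matrix.map_apply, Matrix.smul_apply]
    · simp [Matrix.map_apply, Matrix.smul_apply, Matrix.one_apply_ne hab]
  rw [h2] at h1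
  rw [← mact_smul_one, ← h1, mact_add, mact_mul, mact_mul _ F.phi, hw, map_zero, add_zero]

/-- finite modules killed by powers of the variables are finite over the coefficients -/
lemma finite_of_pow {T : Type u} [CommRing T] {N : ℕ} (a : Fin N → ℕ) (M : Type u)
    [AddCommGroup M] [Module (MvPolynomial (Fin N) T) M] [Module T M]
    [IsScalarTower T (MvPolynomial (Fin N) T) M] [Module.Finite (MvPolynomial (Fin N) T) M]
    (h : ∀ i, ∀ z : M, (X i : MvPolynomial (Fin N) T) ^ a i • z = 0) : Module.Finite T M := by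
  classical
  set J : Ideal (MvPolynomial (Fin N) T) := Module.annihilator (MvPolynomial (Fin N) T) M with hJ
  have hint : Algebra.IsIntegral T (MvPolynomial (Fin N) T ⧸ J) := by
    constructor
    intro y
    obtain ⟨p, rfl⟩ := Ideal.Quotient.mk_surjective y
    induction p using MvPolynomial.induction_on with
    | C a => exact isIntegral_algebraMap (R := T) (A := MvPolynomial (Fin N) T ⧸ J) (x := a)
    | add p q hp hq =>
      rw [map_add]
      exact hp.add hq
    | mul_X p i hp =>
      rw [map_mul]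
      refine hp.mul ?_
      refine IsIntegral.of_pow (n := a i + 1) (Nat.succ_pos _) ?_
      rw [← map_pow, Ideal.Quotient.eq_zero_iff_mem.mpr]
      · exact isIntegral_zero
      · rw [pow_succ]
        exact Ideal.mul_mem_right _ _ (Module.mem_annihilator.2 (h i))
  have hfT : Module.Finite T (MvPolynomial (Fin N) T ⧸ J) := Algebra.IsIntegral.finite
  have htor : Module.IsTorsionBySet (MvPolynomial (Fin N) T) M (J : Set (MvPolynomial (Fin N) T)) :=
    fun x p => Module.mem_annihilator.1 p.2 x
  letI : Module (MvPolynomial (Fin N) T ⧸ J) M := htor.module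
  have : IsScalarTower (MvPolynomial (Fin N) T) (MvPolynomial (Fin N) T ⧸ J) M :=
    htor.isScalarTower
  have : IsScalarTower T (MvPolynomial (Fin N) T ⧸ J) M := by
    refine ⟨fun t y m => ?_⟩
    obtain ⟨p, rfl⟩ := Ideal.Quotient.mk_surjective y
    have h1 : (t • (Ideal.Quotient.mk J p) : MvPolynomial (Fin N) T ⧸ J)
        = Ideal.Quotient.mk J (t • p) := rfl
    rw [h1]
    change (t • p) • m = t • (p • m)
    exact smul_assoc t p m
  have : Module.Finite (MvPolynomial (Fin N) T ⧸ J) M :=
    Module.Finite.of_restrictScalars_finite (MvPolynomial (Fin N) T) _ _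
  exact Module.Finite.trans (MvPolynomial (Fin N) T ⧸ J) M

end SpK

/-- (SpK) the derivatives of `f` kill `HH`; over a ring in which `c i`, `n i` are units
`X i ^ (n i - 1)` kills it. -/
theorem kill {T : Type u} [CommRing T] {N : ℕ} (c : Fin N → T) (n : Fin N → ℕ)
    (hc : ∀ i, IsUnit (c i)) (hn : ∀ i, IsUnit ((n i : ℕ) : T)) {r : ℕ} (F : MF (df c n) r)
    (W : Type u) [AddCommGroup W] [Module (MvPolynomial (Fin N) T) W] (i : Fin N)
    (z : HH F.phi F.psi W) : (X i : MvPolynomial (Fin N) T) ^ (n i - 1) • z = 0 := by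
  obtain ⟨⟨w, hw⟩, rfl⟩ := Submodule.Quotient.mk_surjective _ z
  rw [← Submodule.Quotient.mk_smul, Submodule.Quotient.mk_eq_zero]
  obtain ⟨u, hu⟩ := (hc i).mul (hn i)
  have h1 : (X i : MvPolynomial (Fin N) T) ^ (n i - 1)
      = C ((u⁻¹ : Tˣ) : T) * pderiv i (df c n) := by
    rw [SpK.pderiv_df, ← mul_assoc, ← C_mul, ← hu, Units.inv_mul, C_1, one_mul]
  have h2 := SpK.pderiv_smul F W i w (LinearMap.mem_ker.1 hw)
  change (X i : MvPolynomial (Fin N) T) ^ (n i - 1) • w ∈ LinearMap.range (mact F.psi W)
  rw [h1, mul_smul, h2, ← map_smul]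
  exact LinearMap.mem_range_self _ _

/-- (SpK.2) finiteness over `T`. -/
theorem hh_finite {T : Type u} [CommRing T] [IsNoetherianRing T] {N : ℕ} (c : Fin N → T)
    (n : Fin N → ℕ) (hc : ∀ i, IsUnit (c i)) (hn : ∀ i, IsUnit ((n i : ℕ) : T)) {r s : ℕ}
    (F : MF (df c n) r) (G : MF (df c n) s) :
    Module.Finite T (HH F.phi F.psi (Cok G.phi)) :=
  SpK.finite_of_pow (fun i => n i - 1) _ fun i z => kill c n hc hn F _ i z

/-- (SpK.3) finite length over a field. -/
theorem hh_length {k : Type u} [Field k] {N : ℕ} (c : Fin N → k) (n : Fin N → ℕ)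
    (hc : ∀ i, c i ≠ 0) (hn : ∀ i, ((n i : ℕ) : k) ≠ 0) {r : ℕ} (F : MF (df c n) r)
    (W : Type u) [AddCommGroup W] [Module (MvPolynomial (Fin N) k) W]
    [Module.Finite (MvPolynomial (Fin N) k) W] :
    Module.length (MvPolynomial (Fin N) k) (HH F.phi F.psi W) ≠ ⊤ := by
  letI : Module k (HH F.phi F.psi W) := Module.compHom _ (algebraMap k (MvPolynomial (Fin N) k))
  have : IsScalarTower k (MvPolynomial (Fin N) k) (HH F.phi F.psi W) := by
    refine ⟨fun t p m => ?_⟩
    change (t • p) • m = (algebraMap k (MvPolynomial (Fin N) k) t) • (p • m)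
    rw [Algebra.smul_def, mul_smul]
  have : Module.Finite k (HH F.phi F.psi W) :=
    SpK.finite_of_pow (fun i => n i - 1) _ fun i z =>
      kill c n (fun i => (hc i).isUnit) (fun i => (hn i).isUnit) F W i z
  rw [Module.length_ne_top_iff, isFiniteLength_iff_isNoetherian_isArtinian]
  exact ⟨isNoetherian_of_tower k inferInstance, isArtinian_of_tower k inferInstance⟩

end Pool.Agent.HT51
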