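import Pool.Agent.HT51.SpT
import Pool.Agent.HT51.GenF
import Pool.Agent.HT21.TorFin
import Pool.Agent.HT21.TorLes

/-!
# Shift in the second variable

`torLen_shift`: `Tor_{i+2}(W, V) = Tor_{i+1}(W, ker g)` (in lengths) for `g : Q^m → V` surjective.
`tor_syz`: every finite `V` over `k[X]/(∑ c i X i ^ n i)` has a high syzygy which is the cokernel of
a matrix factorisation.
-/

universe u

namespace Pool.Agent.HT51

open MvPolynomial Pool.Agent.HT21

section shift

variable {Q : Type u} [CommRing Q] {V : Type u} [AddCommGroup V] [Module Q V] {m : ℕ}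
  (g : (Fin m → Q) →ₗ[Q] V)

lemma pi_sum_single (c : Fin m → Q) : c = ∑ k, c k • (Pi.single k 1 : Fin m → Q) := by
  funext l
  rw [Finset.sum_apply, Finset.sum_eq_single l]
  · rw [Pi.smul_apply, Pi.single_eq_same, smul_eq_mul, mul_one]
  · intro b _ hb
    rw [Pi.smul_apply, Pi.single_eq_of_ne (Ne.symm hb), smul_zero]
  · intro h
    exact absurd (Finset.mem_univ l) h

lemma map_pi_sum (c : Fin m → Q) : ∑ k, c k • g (Pi.single k 1) = g c := by
  conv_rhs => rw [pi_sum_single c]
  rw [map_sum]
  exact Finset.sum_congr rfl fun k _ => (map_smul g _ _).symm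

/-- The first matrix of the resolution of `V`. -/
def D0 {q : ℕ} (e : Fin q → LinearMap.ker g) : Matrix (Fin m) (Fin q) Q := fun a l => (e l).1 a

lemma mact_D0 {q : ℕ} (e : Fin q → LinearMap.ker g) (c : Fin q → Q) :
    mact (D0 g e) Q c = ((∑ l, c l • e l : LinearMap.ker g) : Fin m → Q) := by
  funext a
  rw [mact_apply]
  have h : ((∑ l, c l • e l : LinearMap.ker g) : Fin m → Q) = ∑ l, c l • (e l).1 := by
    rw [AddSubmonoidClass.coe_finsetSum]
    rfl
  rw [h, Finset.sum_apply]
  exact Finset.sum_congr rfl fun l _ => mul_comm _ _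

/-- Prepend `g` to a resolution of its kernel. -/
noncomputable def shiftRes (hg : Function.Surjective g) (P : MatRes Q (LinearMap.ker g)) :
    MatRes Q V where
  r i := match i with
    | 0 => m
    | i + 1 => P.r i
  D i := match i with
    | 0 => D0 g P.e
    | i + 1 => P.D i
  e k := g (Pi.single k 1)
  surj := by
    intro v
    obtain ⟨c, rfl⟩ := hg v
    exact ⟨c, map_pi_sum g c⟩
  ex0 := by
    intro c
    rw [show ∑ k, c k • g (Pi.single k 1) = g c from map_pi_sum g c]
    constructor
    · intro hc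
      obtain ⟨c', hc'⟩ := P.surj ⟨c, hc⟩
      refine ⟨c', ?_⟩
      show mact (D0 g P.e) Q c' = c
      rw [mact_D0, hc']
    · rintro ⟨c', hc'⟩
      have h : mact (D0 g P.e) Q c' = c := hc'
      rw [mact_D0] at h
      rw [← h]
      exact (∑ l, c' l • P.e l : LinearMap.ker g).2
  ex := by
    intro i
    cases i with
    | zero =>
      intro c
      show mact (D0 g P.e) Q c = 0 ↔ ∃ c', mact (P.D 0) Q c' = c
      rw [mact_D0, ← P.ex0 c]
      constructor
      · intro h; exact Subtype.ext h
      · intro h; rw [h]; rfl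
    | succ i =>
      intro c
      exact P.ex i c

theorem torLen_shift [IsNoetherianRing Q] [Module.Finite Q V] (hg : Function.Surjective g)
    (W : Type u) [AddCommGroup W] [Module Q W] (i : ℕ) :
    torLen Q (i + 2) W V = torLen Q (i + 1) W (LinearMap.ker g) := by
  obtain ⟨P⟩ := exists_matRes Q (LinearMap.ker g)
  rw [torLen_matRes P W i]
  exact torLen_matRes (shiftRes g hg P) W (i + 1)

end shift

section syz

open CategoryTheory

variable {S R : Type u} [CommRing S] [CommRing R] (ι : S →+* R) (x f : R)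

theorem syz_aux (hgen : ∀ a : R, ∃ P : Polynomial S, P.eval₂ ι x = a)
    (hf : ∀ a : R, f * a = 0 → a = 0) [IsNoetherianRing (R ⧸ Ideal.span {f})]
    (hfree : Module.Free S (Res ((Ideal.Quotient.mk (Ideal.span {f})).comp ι)
      (R ⧸ Ideal.span {f})))
    (hfin : ((Ideal.Quotient.mk (Ideal.span {f})).comp ι).Finite) (c : ℕ) :
    ∀ (V : Type u) [AddCommGroup V] [Module (R ⧸ Ideal.span {f}) V]
      [Module.Finite (R ⧸ Ideal.span {f}) V],
      HasProjectiveDimensionLE
        (ModuleCat.of S (Res ((Ideal.Quotient.mk (Ideal.span {f})).comp ι) V)) c →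
      ∃ (m r : ℕ) (F : MF f r), ∀ (W : Type u) [AddCommGroup W]
        [Module (R ⧸ Ideal.span {f}) W] (i : ℕ),
        torLen (R ⧸ Ideal.span {f}) (i + 1 + m) W V
          = torLen (R ⧸ Ideal.span {f}) (i + 1) W
            (Cok (F.phi.map (Ideal.Quotient.mk (Ideal.span {f})))) := by
  induction c with
  | zero =>
    intro V _ _ _ h
    rw [← projective_iff_hasProjectiveDimensionLE_zero, ← IsProjective.iff_projective] at h
    obtain ⟨r, F, ⟨e⟩⟩ := mf_of_projective ι x f hgen hf V h (res_finite _ hfin)
    exact ⟨0, r, F, fun W _ _ i => torLen_congr (LinearEquiv.refl _ W) e.symm (i + 1)⟩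
  | succ c ih =>
    intro V _ _ _ h
    obtain ⟨m, g, hg⟩ := Module.Finite.exists_fin' (R ⧸ Ideal.span {f}) V
    have hex : Function.Exact (LinearMap.ker g).subtype g := LinearMap.exact_subtype_ker_map g
    have hinj : Function.Injective (LinearMap.ker g).subtype := Submodule.injective_subtype _
    set j := (Ideal.Quotient.mk (Ideal.span {f})).comp ι with hj
    have hex' : Function.Exact (resMap j (LinearMap.ker g).subtype) (resMap j g) := hex
    have hzero : (resMap j g).comp (resMap j (LinearMap.ker g).subtype) = 0 :=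
      hex'.linearMap_comp_eq_zero
    have hS := ModuleCat.shortComplex_shortExact
      (ModuleCat.shortComplexOfCompEqZero (resMap j (LinearMap.ker g).subtype) (resMap j g) hzero)
      hex' hinj hg
    have hP : Projective (ModuleCat.of S (Res j (Fin m → R ⧸ Ideal.span {f}))) :=
      (IsProjective.iff_projective _).1 (projective_res_pi j hfree m)
    have hK : HasProjectiveDimensionLE (ModuleCat.of S (Res j (LinearMap.ker g))) c :=
      (hS.hasProjectiveDimensionLT_X₃_iff c hP).1 h
    obtain ⟨m', r, F, hF⟩ := ih (LinearMap.ker g) hK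
    refine ⟨m' + 1, r, F, fun W _ _ i => ?_⟩
    rw [← hF W i]
    have h1 := torLen_shift g hg W (i + m')
    rw [show i + 1 + (m' + 1) = i + m' + 2 by omega, show i + 1 + m' = i + m' + 1 by omega]
    exact h1

end syz

/-- (SpS) shift in the second variable: every finite `V` has a high syzygy which is the cokernel of
a matrix factorisation, and the lengths of Tor are shifted. -/
theorem tor_syz (k : Type u) [Field k] {M : ℕ} (c : Fin (M + 1) → k) (n : Fin (M + 1) → ℕ)
    (hc : ∀ i, c i ≠ 0) (hn : ∀ i, 0 < n i) (V : Type u) [AddCommGroup V]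
    [Module (MvPolynomial (Fin (M + 1)) k ⧸ Ideal.span {df c n}) V]
    [Module.Finite (MvPolynomial (Fin (M + 1)) k ⧸ Ideal.span {df c n}) V] :
    ∃ (m r : ℕ) (F : MF (df c n) r), ∀ (W : Type u) [AddCommGroup W]
      [Module (MvPolynomial (Fin (M + 1)) k ⧸ Ideal.span {df c n}) W] (i : ℕ),
      torLen (MvPolynomial (Fin (M + 1)) k ⧸ Ideal.span {df c n}) (i + 1 + m) W V
        = torLen (MvPolynomial (Fin (M + 1)) k ⧸ Ideal.span {df c n}) (i + 1) W
          (Cok (F.phi.map (Ideal.Quotient.mk (Ideal.span {df c n})))) := by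
  have hf : IsUnit (finSuccEquiv k M (df c n)).leadingCoeff :=
    leadingCoeff_diag_c c n (hn 0) (hc 0)
  obtain ⟨h1, h2⟩ := free_finite_of_monic (df c n) hf
  have hne : df c n ≠ 0 := by
    intro h
    rw [h, map_zero, Polynomial.leadingCoeff_zero] at hf
    exact hf.ne_zero rfl
  refine syz_aux (sInc k M) (X 0) (df c n) gen_poly
    (fun a ha => (mul_eq_zero.mp ha).resolve_left hne) h1 h2 M V ?_
  exact Pool.Agent.HT21.pd_mvPolynomial k M _

end Pool.Agent.HT51
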