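import Pool.Agent.HT51.SpCmp
import Pool.Agent.HT51.SpS
import Pool.Agent.HT51.SpH
import Pool.Agent.HT51.SpK

/-!
# Theta vanishes over `k[X]/(∑ c_i X_i ^ n_i)` once `hd` vanishes (helper52)

`theta_of_hd`: by `syz_le` the second module is the cokernel of a matrix factorisation `F`; then `theta(W, -)` is
`± (length HH(φ, ψ; W) - length HH(ψ, φ; W))`, an additive function of `W` (`herb`) which vanishes on the ring and on the
cokernels of the matrix factorisations (`hd = 0`), so it vanishes by `gen_f`.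
-/

universe u

namespace Pool.Agent.HT51

open MvPolynomial Pool.Agent.HT21

section syz

open CategoryTheory

variable {S R : Type u} [CommRing S] [CommRing R] (ι : S →+* R) (x f : R)

theorem syz_aux_le (hgen : ∀ a : R, ∃ P : Polynomial S, P.eval₂ ι x = a)
    (hf : ∀ a : R, f * a = 0 → a = 0) [IsNoetherianRing (R ⧸ Ideal.span {f})]
    (hfree : Module.Free S (Res ((Ideal.Quotient.mk (Ideal.span {f})).comp ι)
      (R ⧸ Ideal.span {f})))
    (hfin : ((Ideal.Quotient.mk (Ideal.span {f})).comp ι).Finite) (c : ℕ) :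
    ∀ (V : Type u) [AddCommGroup V] [Module (R ⧸ Ideal.span {f}) V]
      [Module.Finite (R ⧸ Ideal.span {f}) V],
      HasProjectiveDimensionLE
        (ModuleCat.of S (Res ((Ideal.Quotient.mk (Ideal.span {f})).comp ι) V)) c →
      ∃ (m r : ℕ) (F : MF f r), m ≤ c ∧ ∀ (W : Type u) [AddCommGroup W]
        [Module (R ⧸ Ideal.span {f}) W] (i : ℕ),
        torLen (R ⧸ Ideal.span {f}) (i + 1 + m) W V
          = torLen (R ⧸ Ideal.span {f}) (i + 1) W
            (Cok (F.phi.map (Ideal.Quotient.mk (Ideal.span {f})))) := by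
  induction c with
  | zero =>
    intro V _ _ _ h
    rw [← projective_iff_hasProjectiveDimensionLE_zero, ← IsProjective.iff_projective] at h
    obtain ⟨r, F, ⟨e⟩⟩ := mf_of_projective ι x f hgen hf V h (res_finite _ hfin)
    exact ⟨0, r, F, le_rfl, fun W _ _ i => torLen_congr (LinearEquiv.refl _ W) e.symm (i + 1)⟩
  | succ c ih =>
    intro V _ _ _ h
    obtain ⟨m, g, hg⟩ := Module.Finite.exists_fin' (R ⧸ Ideal.span {f}) V
    have hex : Function.Exact (LinearMap.ker g).subtype g := LinearMap.exact_subtype_ker_map g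
    have hinj : Function.Injective (LinearMap.ker g).subtype := Submodule.injective_subtype _
    set j := (Ideal.Quotient.mk (Ideal.span {f})).comp ι with hj
    have hex' : Function.Exact (resMap j (LinearMap.ker g).subtype) (resMap j g) := hex
    have hzero : (resMap j g).comp (resMap j (LinearMap.ker g).subtype) = 0 :=
      hex'.linearMap_comp_eq_zero
    have hS := ModuleCat.shortComplex_shortExact
      (ModuleCat.shortComplexOfCompEqZero (resMap j (LinearMap.ker g).subtype) (resMap j g) hzero)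
      hex' hinj hg
    have hP : Projective (ModuleCat.of S (Res j (Fin m → R ⧸ Ideal.span {f}))) :=
      (IsProjective.iff_projective _).1 (projective_res_pi j hfree m)
    have hK : HasProjectiveDimensionLE (ModuleCat.of S (Res j (LinearMap.ker g))) c :=
      (hS.hasProjectiveDimensionLT_X₃_iff c hP).1 h
    obtain ⟨m', r, F, hm, hF⟩ := ih (LinearMap.ker g) hK
    refine ⟨m' + 1, r, F, by omega, fun W _ _ i => ?_⟩
    rw [← hF W i]
    have h1 := torLen_shift g hg W (i + m')
    rw [show i + 1 + (m' + 1) = i + m' + 2 by omega, show i + 1 + m' = i + m' + 1 by omega]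
    exact h1

end syz

section theta

variable {k : Type u} [Field k] {M : ℕ}

/-- `tor_syz` with a bound for the number of steps, for every `f` with unit leading coefficient in `X 0`. -/
theorem syz_le (f : MvPolynomial (Fin (M + 1)) k) (hf : IsUnit (finSuccEquiv k M f).leadingCoeff)
    (V : Type u) [AddCommGroup V] [Module (MvPolynomial (Fin (M + 1)) k ⧸ Ideal.span {f}) V]
    [Module.Finite (MvPolynomial (Fin (M + 1)) k ⧸ Ideal.span {f}) V] :
    ∃ (m r : ℕ) (F : MF f r), m ≤ M ∧ ∀ (W : Type u) [AddCommGroup W]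
      [Module (MvPolynomial (Fin (M + 1)) k ⧸ Ideal.span {f}) W] (i : ℕ),
      torLen (MvPolynomial (Fin (M + 1)) k ⧸ Ideal.span {f}) (i + 1 + m) W V
        = torLen (MvPolynomial (Fin (M + 1)) k ⧸ Ideal.span {f}) (i + 1) W
          (Cok (F.phi.map (Ideal.Quotient.mk (Ideal.span {f})))) := by
  obtain ⟨h1, h2⟩ := free_finite_of_monic f hf
  have hne : f ≠ 0 := by
    intro h
    rw [h, map_zero, Polynomial.leadingCoeff_zero] at hf
    exact hf.ne_zero rfl
  refine syz_aux_le (sInc k M) (X 0) f gen_poly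
    (fun a ha => (mul_eq_zero.mp ha).resolve_left hne) h1 h2 M V ?_
  exact Pool.Agent.HT21.pd_mvPolynomial k M _

/-- Theta vanishes over `k[X]/(f)` if `hd` vanishes for all matrix factorisations of `f` and the homologies have finite
length (`f` with unit leading coefficient in `X 0`). -/
theorem theta_quot (f : MvPolynomial (Fin (M + 1)) k) (hf : IsUnit (finSuccEquiv k M f).leadingCoeff)
    (hlen : ∀ (r : ℕ) (F : MF f r) (W : Type u) [AddCommGroup W] [Module (MvPolynomial (Fin (M + 1)) k) W]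
      [Module.Finite (MvPolynomial (Fin (M + 1)) k) W],
      Module.length (MvPolynomial (Fin (M + 1)) k) (HH F.phi F.psi W) ≠ ⊤)
    (h : ∀ (r s : ℕ) (F : MF f r) (G : MF f s), hd F G = 0)
    (W V : Type u) [AddCommGroup W] [Module (MvPolynomial (Fin (M + 1)) k ⧸ Ideal.span {f}) W]
    [Module.Finite (MvPolynomial (Fin (M + 1)) k ⧸ Ideal.span {f}) W] [AddCommGroup V]
    [Module (MvPolynomial (Fin (M + 1)) k ⧸ Ideal.span {f}) V]
    [Module.Finite (MvPolynomial (Fin (M + 1)) k ⧸ Ideal.span {f}) V] (e : ℕ) (he : M ≤ 2 * e) :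
    theta (MvPolynomial (Fin (M + 1)) k ⧸ Ideal.span {f}) e W V = 0 := by
  have hne : f ≠ 0 := by
    intro h
    rw [h, map_zero, Polynomial.leadingCoeff_zero] at hf
    exact hf.ne_zero rfl
  obtain ⟨m, r, F, hm, hF⟩ := syz_le f hf V
  set q := Ideal.Quotient.mk (Ideal.span {f}) with hq
  have hqf : q f = 0 := Ideal.Quotient.eq_zero_iff_mem.mpr (Ideal.mem_span_singleton_self f)
  have hone : ((f • (1 : Matrix (Fin r) (Fin r) (MvPolynomial (Fin (M + 1)) k))).map q) = 0 := by
    ext a b
    rw [Matrix.map_apply, Matrix.smul_apply, smul_eq_mul, map_mul, hqf, zero_mul]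
    rfl
  have h12 : F.phi.map q * F.psi.map q = 0 := by
    rw [← Matrix.map_mul, F.phi_psi, hone]
  have h21 : F.psi.map q * F.phi.map q = 0 := by
    rw [← Matrix.map_mul, F.psi_phi, hone]
  have hfinq : (q : MvPolynomial (Fin (M + 1)) k →+* _).Finite :=
    RingHom.Finite.of_surjective _ Ideal.Quotient.mk_surjective
  have hfin : ∀ (W : Type u) [AddCommGroup W] [Module (MvPolynomial (Fin (M + 1)) k ⧸ Ideal.span {f}) W]
      [Module.Finite (MvPolynomial (Fin (M + 1)) k ⧸ Ideal.span {f}) W],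
      Module.length (MvPolynomial (Fin (M + 1)) k ⧸ Ideal.span {f}) (HH (F.phi.map q) (F.psi.map q) W) ≠ ⊤ ∧
      Module.length (MvPolynomial (Fin (M + 1)) k ⧸ Ideal.span {f}) (HH (F.psi.map q) (F.phi.map q) W) ≠ ⊤ := by
    intro W _ _ _
    have : Module.Finite (MvPolynomial (Fin (M + 1)) k) (Res q W) := res_finite q hfinq
    rw [len_HH q Ideal.Quotient.mk_surjective (toRes q W).symm (fun _ _ => rfl) F.phi F.psi,
      len_HH q Ideal.Quotient.mk_surjective (toRes q W).symm (fun _ _ => rfl) F.psi F.phi]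
    exact ⟨hlen r F (Res q W), hlen r F.swap (Res q W)⟩
  obtain ⟨nu, hnu⟩ := herb (F.phi.map q) (F.psi.map q) h12 h21 hfin
  have htor : ∀ (W : Type u) [AddCommGroup W] [Module (MvPolynomial (Fin (M + 1)) k ⧸ Ideal.span {f}) W] (i : ℕ),
      torLen (MvPolynomial (Fin (M + 1)) k ⧸ Ideal.span {f}) (2 * i + 1) W (Cok (F.phi.map q))
        = Module.length (MvPolynomial (Fin (M + 1)) k ⧸ Ideal.span {f}) (HH (F.phi.map q) (F.psi.map q) W) ∧
      torLen (MvPolynomial (Fin (M + 1)) k ⧸ Ideal.span {f}) (2 * i + 2) W (Cok (F.phi.map q))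
        = Module.length (MvPolynomial (Fin (M + 1)) k ⧸ Ideal.span {f}) (HH (F.psi.map q) (F.phi.map q) W) :=
    fun W _ _ i => tor_mf f hne F W i
  have hnu0 : nu.val (MvPolynomial (Fin (M + 1)) k ⧸ Ideal.span {f}) = 0 := by
    rw [hnu]
    obtain ⟨h1, h2⟩ := htor (MvPolynomial (Fin (M + 1)) k ⧸ Ideal.span {f}) 0
    rw [← h1, ← h2, torLen_projective, torLen_projective]
    simp
  have hzero : nu.val W = 0 := by
    refine gen_f k f hf nu hnu0 ?_ W
    intro s G
    rw [hnu, len_HH_cok G F.phi F.psi, len_HH_cok G F.psi F.phi]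
    have h1 := h r s F G
    unfold hd at h1
    exact_mod_cast h1
  rw [hnu] at hzero
  have hz : (Module.length (MvPolynomial (Fin (M + 1)) k ⧸ Ideal.span {f}) (HH (F.phi.map q) (F.psi.map q) W)).toNat
      = (Module.length (MvPolynomial (Fin (M + 1)) k ⧸ Ideal.span {f}) (HH (F.psi.map q) (F.phi.map q) W)).toNat := by
    exact_mod_cast sub_eq_zero.mp hzero
  unfold theta
  rcases Nat.even_or_odd' m with ⟨a, ha | ha⟩
  · have e1 := hF W (2 * (e - a) + 1)
    have e2 := hF W (2 * (e - a))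
    rw [show 2 * (e - a) + 1 + 1 + m = 2 * e + 2 by omega] at e1
    rw [show 2 * (e - a) + 1 + m = 2 * e + 1 by omega] at e2
    rw [e1, e2, (htor W (e - a)).1, show 2 * (e - a) + 1 + 1 = 2 * (e - a) + 2 from rfl, (htor W (e - a)).2, hz,
      sub_self]
  · have e1 := hF W (2 * (e - a))
    have e2 := hF W (2 * (e - a - 1) + 1)
    rw [show 2 * (e - a) + 1 + m = 2 * e + 2 by omega] at e1
    rw [show 2 * (e - a - 1) + 1 + 1 + m = 2 * e + 1 by omega] at e2
    rw [e1, e2, (htor W (e - a)).1, show 2 * (e - a - 1) + 1 + 1 = 2 * (e - a - 1) + 2 from rfl,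
      (htor W (e - a - 1)).2, hz, sub_self]

/-- The same over any ring isomorphic to `k[X]/(f)`. -/
theorem theta_quot_map (f : MvPolynomial (Fin (M + 1)) k) (hf : IsUnit (finSuccEquiv k M f).leadingCoeff)
    (hlen : ∀ (r : ℕ) (F : MF f r) (W : Type u) [AddCommGroup W] [Module (MvPolynomial (Fin (M + 1)) k) W]
      [Module.Finite (MvPolynomial (Fin (M + 1)) k) W],
      Module.length (MvPolynomial (Fin (M + 1)) k) (HH F.phi F.psi W) ≠ ⊤)
    (h : ∀ (r s : ℕ) (F : MF f r) (G : MF f s), hd F G = 0)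
    {Q : Type u} [CommRing Q] (π : MvPolynomial (Fin (M + 1)) k →+* Q) (hπ : Function.Surjective π)
    (hker : RingHom.ker π = Ideal.span {f})
    (W V : Type u) [AddCommGroup W] [Module Q W] [Module.Finite Q W] [AddCommGroup V] [Module Q V]
    [Module.Finite Q V] (e : ℕ) (he : M ≤ 2 * e) : theta Q e W V = 0 := by
  have hQ : IsNoetherianRing Q := isNoetherianRing_of_surjective _ _ π hπ
  let ε : (MvPolynomial (Fin (M + 1)) k ⧸ Ideal.span {f}) ≃+* Q :=
    (Ideal.quotEquivOfEq hker.symm).trans (RingHom.quotientKerEquivOfSurjective hπ)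
  have hfinε : (ε : (MvPolynomial (Fin (M + 1)) k ⧸ Ideal.span {f}) →+* Q).Finite :=
    RingHom.Finite.of_surjective _ ε.surjective
  have h1 : Module.Finite (MvPolynomial (Fin (M + 1)) k ⧸ Ideal.span {f}) (Res (ε : _ →+* Q) W) :=
    res_finite _ hfinε
  have h2 : Module.Finite (MvPolynomial (Fin (M + 1)) k ⧸ Ideal.span {f}) (Res (ε : _ →+* Q) V) :=
    res_finite _ hfinε
  rw [← theta_iso ε W V e]
  exact theta_quot f hf hlen h _ _ e he

end theta

/-- Theta vanishes over `k[X]/(∑ c_i X_i ^ n_i)` if `hd` vanishes for all pairs of matrix factorisations. -/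
theorem theta_of_hd (K : Type u) [Field K] {N : ℕ} (hN : 0 < N) (c : Fin N → K) (n : Fin N → ℕ)
    (hc : ∀ i, c i ≠ 0) (hn : ∀ i, ((n i : ℕ) : K) ≠ 0)
    (h : ∀ (r s : ℕ) (F : MF (df c n) r) (G : MF (df c n) s), hd F G = 0) {Q : Type u} [CommRing Q]
    (π : MvPolynomial (Fin N) K →+* Q) (hπ : Function.Surjective π)
    (hker : RingHom.ker π = Ideal.span {df c n})
    (W V : Type u) [AddCommGroup W] [Module Q W] [Module.Finite Q W] [AddCommGroup V] [Module Q V]
    [Module.Finite Q V] (e : ℕ) (he : N ≤ 2 * e + 1) : theta Q e W V = 0 := by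
  obtain ⟨M, rfl⟩ := Nat.exists_eq_succ_of_ne_zero hN.ne'
  have hn0 : 0 < n 0 := by
    refine Nat.pos_of_ne_zero fun h0 => hn 0 ?_
    rw [h0, Nat.cast_zero]
  refine theta_quot_map (df c n) (leadingCoeff_diag_c c n hn0 (hc 0)) ?_ h π hπ hker W V e (by omega)
  intro r F W _ _ _
  exact hh_length c n hc hn F W

end Pool.Agent.HT51
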