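import Pool.Agent.HT51.SpCx
import Pool.Agent.HT51.SpF

/-!
# Specialisation over a one-dimensional local domain
-/

universe u

namespace Pool.Agent.HT51

open MvPolynomial IsLocalRing Pool.Agent.HT21 TensorProduct

/-- specialisation over a one-dimensional local domain -/
theorem hd_local {O : Type u} [CommRing O] [IsDomain O] [IsLocalRing O] [IsNoetherianRing O]
    (hO : ∀ q : Ideal O, q.IsPrime → q = ⊥ ∨ q = maximalIdeal O) (hm : maximalIdeal O ≠ ⊥)
    {K : Type u} [Field K] (j : O →+* K) (hj : Function.Injective j) {N : ℕ} (hN : 0 < N)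
    (c : Fin N → O) (n : Fin N → ℕ) (hc : ∀ i, IsUnit (c i)) (hn : ∀ i, IsUnit ((n i : ℕ) : O))
    {r s : ℕ} (F : MF (df c n) r) (G : MF (df c n) s)
    (h0 : hd (F.map (MvPolynomial.map (residue O))) (G.map (MvPolynomial.map (residue O))) = 0) :
    hd (F.map (MvPolynomial.map j)) (G.map (MvPolynomial.map j)) = 0 := by
  have hn0 : ∀ i, n i ≠ 0 := by
    intro i h
    have := hn i
    rw [h, Nat.cast_zero] at this
    exact not_isUnit_zero this
  have h5 := rank_local hO hm (df_regular hN c n hc hn0) (kil_df c n hc hn) F G h0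
  let := j.toAlgebra
  have hinj : Function.Injective (algebraMap O K) := hj
  have := flat_field (O := O) (K := K) hinj
  have h6 := len_base (K := K) c n hc hn F G
  have h7 := len_base (K := K) c n hc hn F.sw G
  rw [finrank_field hinj] at h6 h7
  have h8 : hd (F.map (MvPolynomial.map j)) (G.map (MvPolynomial.map j))
      = (Module.finrank O (HH F.phi F.psi (Cok G.phi)) : ℤ)
        - Module.finrank O (HH F.psi F.phi (Cok G.phi)) := by
    unfold hd
    refine congrArg₂ (· - ·) (congrArg _ ?_) (congrArg _ ?_)
    · exact (congrArg ENat.toNat h6).trans (ENat.toNat_natCast _)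
    · exact (congrArg ENat.toNat h7).trans (ENat.toNat_natCast _)
  rw [h8, h5, sub_self]

end Pool.Agent.HT51
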