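import Pool.Agent.HT51.SpDefs
import Pool.Agent.HT21.TorMat

/-!
# Tor against the cokernel of a matrix factorisation; length and dimension

`torLen_cok_odd`, `torLen_cok_even`: with `Q = R/(f)`, `R` a domain, `f ≠ 0`, `F` a matrix
factorisation of `f`: `Tor_i^Q(W, Cok φ)`, `i > 0`, computed by the periodic resolution.

`length_eq_of_nilp`: if `Q = k + J` and `J ^ s` kills `M` then `length_Q M = length_k M`.
-/

universe u

namespace Pool.Agent.HT51

open Pool.Agent.HT21

section per

variable {B : Type u} [CommRing B] {r : ℕ} (A A' : Matrix (Fin r) (Fin r) B)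

lemma mact_self (c : Fin r → B) : mact A B c = A.mulVec c := by
  funext k
  rw [mact_apply]
  rfl

/-- The periodic resolution of the cokernel of `A`. -/
noncomputable def perRes (h1 : ∀ c, A.mulVec c = 0 ↔ ∃ c', A'.mulVec c' = c)
    (h2 : ∀ c, A'.mulVec c = 0 ↔ ∃ c', A.mulVec c' = c) : MatRes B (Cok A) where
  r _ := r
  D i := if Even i then A else A'
  e k := Submodule.Quotient.mk (Pi.single k 1)
  surj := by
    intro v
    obtain ⟨c, rfl⟩ := Submodule.Quotient.mk_surjective _ v
    refine ⟨c, ?_⟩
    have h : c = ∑ k, c k • (Pi.single k 1 : Fin r → B) := by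
      funext l
      rw [Finset.sum_apply, Finset.sum_eq_single l]
      · rw [Pi.smul_apply, Pi.single_eq_same, smul_eq_mul, mul_one]
      · intro b _ hb
        rw [Pi.smul_apply, Pi.single_eq_of_ne (Ne.symm hb), smul_zero]
      · intro h
        exact absurd (Finset.mem_univ l) h
    conv_rhs => rw [h]
    exact (map_sum (Submodule.mkQ (LinearMap.range A.mulVecLin)) _ _).symm
  ex0 := by
    intro c
    have h : c = ∑ k, c k • (Pi.single k 1 : Fin r → B) := by
      funext l
      rw [Finset.sum_apply, Finset.sum_eq_single l]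
      · rw [Pi.smul_apply, Pi.single_eq_same, smul_eq_mul, mul_one]
      · intro b _ hb
        rw [Pi.smul_apply, Pi.single_eq_of_ne (Ne.symm hb), smul_zero]
      · intro h
        exact absurd (Finset.mem_univ l) h
    have h3 : ∑ k, c k • (Submodule.Quotient.mk (Pi.single k 1) : Cok A)
        = Submodule.Quotient.mk c := by
      conv_rhs => rw [h]
      exact (map_sum (Submodule.mkQ (LinearMap.range A.mulVecLin)) _ _).symm
    rw [h3, Submodule.Quotient.mk_eq_zero]
    constructor
    · rintro ⟨c', hc'⟩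
      refine ⟨c', ?_⟩
      rw [if_pos (by decide : Even 0), mact_self]
      exact hc'
    · rintro ⟨c', hc'⟩
      rw [if_pos (by decide : Even 0), mact_self] at hc'
      exact ⟨c', hc'⟩
  ex := by
    intro i c
    by_cases hi : Even i
    · rw [if_pos hi, if_neg (by rw [Nat.even_add_one]; exact not_not.mpr hi)]
      simp only [mact_self]
      exact h1 c
    · rw [if_neg hi, if_pos (by rw [Nat.even_add_one]; exact hi)]
      simp only [mact_self]
      exact h2 c

theorem torLen_per_odd (h1 : ∀ c, A.mulVec c = 0 ↔ ∃ c', A'.mulVec c' = c)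
    (h2 : ∀ c, A'.mulVec c = 0 ↔ ∃ c', A.mulVec c' = c) (W : Type u) [AddCommGroup W] [Module B W]
    (i : ℕ) : torLen B (2 * i + 1) W (Cok A)
      = qlen (LinearMap.range (mact A' W)) (LinearMap.ker (mact A W)) := by
  have h := torLen_matRes (perRes A A' h1 h2) W (2 * i)
  have e1 : (perRes A A' h1 h2).D (2 * i) = A := if_pos (even_two_mul i)
  have e2 : (perRes A A' h1 h2).D (2 * i + 1) = A' :=
    if_neg (by rw [Nat.even_add_one]; exact not_not.mpr (even_two_mul i))
  rw [h, e1, e2]
  rfl

theorem torLen_per_even (h1 : ∀ c, A.mulVec c = 0 ↔ ∃ c', A'.mulVec c' = c)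
    (h2 : ∀ c, A'.mulVec c = 0 ↔ ∃ c', A.mulVec c' = c) (W : Type u) [AddCommGroup W] [Module B W]
    (i : ℕ) : torLen B (2 * i + 2) W (Cok A)
      = qlen (LinearMap.range (mact A W)) (LinearMap.ker (mact A' W)) := by
  have h := torLen_matRes (perRes A A' h1 h2) W (2 * i + 1)
  have e1 : (perRes A A' h1 h2).D (2 * i + 1) = A' :=
    if_neg (by rw [Nat.even_add_one]; exact not_not.mpr (even_two_mul i))
  have e2 : (perRes A A' h1 h2).D (2 * i + 1 + 1) = A :=
    if_pos (by rw [Nat.even_add_one, Nat.even_add_one]; exact not_not.mpr (even_two_mul i))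
  rw [show 2 * i + 2 = 2 * i + 1 + 1 from rfl, h, e1, e2]
  rfl

end per

section mf

variable {R : Type u} [CommRing R] [IsDomain R] {f : R} (hf : f ≠ 0)

/-- The matrix factorisation with `phi` and `psi` exchanged. -/
def MF.swap {R : Type u} [CommRing R] {f : R} {r : ℕ} (F : MF f r) : MF f r :=
  ⟨F.psi, F.phi, F.psi_phi, F.phi_psi⟩

include hf in
lemma MF.exact {r : ℕ} (F : MF f r) (c : Fin r → R ⧸ Ideal.span {f}) :
    (F.phi.map (Ideal.Quotient.mk (Ideal.span {f}))).mulVec c = 0 ↔
      ∃ c', (F.psi.map (Ideal.Quotient.mk (Ideal.span {f}))).mulVec c' = c := by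
  have hmap : ∀ (A : Matrix (Fin r) (Fin r) R) (v : Fin r → R),
      (A.map (Ideal.Quotient.mk (Ideal.span {f}))).mulVec
        (fun i => Ideal.Quotient.mk (Ideal.span {f}) (v i))
      = fun i => Ideal.Quotient.mk (Ideal.span {f}) (A.mulVec v i) := by
    intro A v
    funext i
    exact (RingHom.map_mulVec (Ideal.Quotient.mk (Ideal.span {f})) A v i).symm
  have hlift : ∀ c : Fin r → R ⧸ Ideal.span {f}, ∃ v : Fin r → R,
      (fun i => Ideal.Quotient.mk (Ideal.span {f}) (v i)) = c := by
    intro c
    choose v hv using fun i => Ideal.Quotient.mk_surjective (c i)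
    exact ⟨v, funext hv⟩
  constructor
  · intro hc
    obtain ⟨v, rfl⟩ := hlift c
    rw [hmap] at hc
    have h1 : ∀ i, ∃ y : R, F.phi.mulVec v i = f * y := by
      intro i
      have h2 := congrFun hc i
      have h3 : F.phi.mulVec v i ∈ Ideal.span {f} := Ideal.Quotient.eq_zero_iff_mem.mp h2
      obtain ⟨y, hy⟩ := Ideal.mem_span_singleton'.mp h3
      exact ⟨y, by rw [← hy, mul_comm]⟩
    choose y hy using h1
    have h4 : F.phi.mulVec v = f • y := funext hy
    have h5 : F.psi.mulVec (F.phi.mulVec v) = f • F.psi.mulVec y := by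
      rw [h4, Matrix.mulVec_smul]
    rw [Matrix.mulVec_mulVec, F.psi_phi, Matrix.smul_mulVec, Matrix.one_mulVec] at h5
    have h6 : v = F.psi.mulVec y := by
      funext i
      have h7 := congrFun h5 i
      simp only [Pi.smul_apply, smul_eq_mul] at h7
      exact mul_left_cancel₀ hf h7
    refine ⟨fun i => Ideal.Quotient.mk (Ideal.span {f}) (y i), ?_⟩
    rw [hmap, h6]
  · rintro ⟨c', rfl⟩
    obtain ⟨y, rfl⟩ := hlift c'
    rw [hmap, hmap, Matrix.mulVec_mulVec, F.phi_psi, Matrix.smul_mulVec, Matrix.one_mulVec]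
    funext i
    rw [Pi.smul_apply, smul_eq_mul]
    exact Ideal.Quotient.eq_zero_iff_mem.mpr
      (Ideal.mul_mem_right _ _ (Ideal.mem_span_singleton_self f))

include hf

/-- `Tor` in odd degrees against the cokernel of a matrix factorisation. -/
theorem torLen_cok_odd {r : ℕ} (F : MF f r) (W : Type u) [AddCommGroup W]
    [Module (R ⧸ Ideal.span {f}) W] (i : ℕ) :
    torLen (R ⧸ Ideal.span {f}) (2 * i + 1) W
        (Cok (F.phi.map (Ideal.Quotient.mk (Ideal.span {f}))))
      = qlen (LinearMap.range (mact (F.psi.map (Ideal.Quotient.mk (Ideal.span {f}))) W))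
          (LinearMap.ker (mact (F.phi.map (Ideal.Quotient.mk (Ideal.span {f}))) W)) :=
  torLen_per_odd _ _ (F.exact hf) (F.swap.exact hf) W i

/-- `Tor` in even degrees against the cokernel of a matrix factorisation. -/
theorem torLen_cok_even {r : ℕ} (F : MF f r) (W : Type u) [AddCommGroup W]
    [Module (R ⧸ Ideal.span {f}) W] (i : ℕ) :
    torLen (R ⧸ Ideal.span {f}) (2 * i + 2) W
        (Cok (F.phi.map (Ideal.Quotient.mk (Ideal.span {f}))))
      = qlen (LinearMap.range (mact (F.phi.map (Ideal.Quotient.mk (Ideal.span {f}))) W))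
          (LinearMap.ker (mact (F.psi.map (Ideal.Quotient.mk (Ideal.span {f}))) W)) :=
  torLen_per_even _ _ (F.exact hf) (F.swap.exact hf) W i

/-- (SpT) Tor in terms of `HH`. -/
theorem tor_mf' {r : ℕ} (F : MF f r)
    (W : Type u) [AddCommGroup W] [Module (R ⧸ Ideal.span {f}) W] (i : ℕ) :
    torLen (R ⧸ Ideal.span {f}) (2 * i + 1) W
        (Cok (F.phi.map (Ideal.Quotient.mk (Ideal.span {f}))))
      = Module.length (R ⧸ Ideal.span {f}) (HH (F.phi.map (Ideal.Quotient.mk (Ideal.span {f})))
        (F.psi.map (Ideal.Quotient.mk (Ideal.span {f}))) W) ∧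
    torLen (R ⧸ Ideal.span {f}) (2 * i + 2) W
        (Cok (F.phi.map (Ideal.Quotient.mk (Ideal.span {f}))))
      = Module.length (R ⧸ Ideal.span {f}) (HH (F.psi.map (Ideal.Quotient.mk (Ideal.span {f})))
        (F.phi.map (Ideal.Quotient.mk (Ideal.span {f}))) W) :=
  ⟨torLen_cok_odd hf F W i, torLen_cok_even hf F W i⟩

end mf

/-- (SpT) Tor in terms of `HH`. -/
theorem tor_mf {R : Type u} [CommRing R] [IsDomain R] (f : R) (hf : f ≠ 0) {r : ℕ} (F : MF f r)
    (W : Type u) [AddCommGroup W] [Module (R ⧸ Ideal.span {f}) W] (i : ℕ) :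
    torLen (R ⧸ Ideal.span {f}) (2 * i + 1) W
        (Cok (F.phi.map (Ideal.Quotient.mk (Ideal.span {f}))))
      = Module.length (R ⧸ Ideal.span {f}) (HH (F.phi.map (Ideal.Quotient.mk (Ideal.span {f})))
        (F.psi.map (Ideal.Quotient.mk (Ideal.span {f}))) W) ∧
    torLen (R ⧸ Ideal.span {f}) (2 * i + 2) W
        (Cok (F.phi.map (Ideal.Quotient.mk (Ideal.span {f}))))
      = Module.length (R ⧸ Ideal.span {f}) (HH (F.psi.map (Ideal.Quotient.mk (Ideal.span {f})))
        (F.phi.map (Ideal.Quotient.mk (Ideal.span {f}))) W) :=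
  tor_mf' hf F W i

section len

variable {k Q : Type u} [Field k] [CommRing Q] [Algebra k Q] (J : Ideal Q)
  (hJ : ∀ q : Q, ∃ a : k, q - algebraMap k Q a ∈ J)

include hJ

lemma length_eq_of_killed (M : Type u) [AddCommGroup M] [Module Q M] [Module k M]
    [IsScalarTower k Q M] (h : ∀ q ∈ J, ∀ m : M, q • m = 0) :
    Module.length Q M = Module.length k M := by
  have hsm : ∀ q : Q, ∃ a : k, ∀ m : M, q • m = a • m := by
    intro q
    obtain ⟨a, ha⟩ := hJ q
    refine ⟨a, fun m => ?_⟩
    have h1 := h _ ha m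
    rw [sub_smul, algebraMap_smul, sub_eq_zero] at h1
    exact h1
  let e : Submodule Q M ≃o Submodule k M :=
    { toFun := fun N => N.restrictScalars k
      invFun := fun N =>
        { carrier := N
          add_mem' := N.add_mem
          zero_mem' := N.zero_mem
          smul_mem' := fun q m hm => by
            obtain ⟨a, ha⟩ := hsm q
            rw [ha]
            exact N.smul_mem a hm }
      left_inv := fun N => by ext; rfl
      right_inv := fun N => by ext; rfl
      map_rel_iff' := Iff.rfl }
  apply WithBot.coe_injective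
  rw [Module.coe_length, Module.coe_length, Order.krullDim_eq_of_orderIso e]

/-- Length over `Q = k + J` is the dimension over `k` for modules killed by a power of `J`. -/
theorem length_eq_of_nilp (s : ℕ) : ∀ (M : Type u) [AddCommGroup M] [Module Q M] [Module k M]
    [IsScalarTower k Q M], (∀ q ∈ J ^ s, ∀ m : M, q • m = 0) →
    Module.length Q M = Module.length k M := by
  induction s with
  | zero =>
    intro M _ _ _ _ h
    have : Subsingleton M := ⟨fun x y => by
      have h1 := h 1 (by rw [pow_zero, Ideal.one_eq_top]; trivial)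
      rw [← one_smul Q x, ← one_smul Q y, h1, h1]⟩
    rw [Module.length_eq_zero, Module.length_eq_zero]
  | succ s ih =>
    intro M _ _ _ _ h
    let N : Submodule Q M := J • (⊤ : Submodule Q M)
    have e1 : Module.length Q M = Module.length Q N + Module.length Q (M ⧸ N) :=
      Module.length_eq_add_of_exact N.subtype N.mkQ N.injective_subtype N.mkQ_surjective
        (LinearMap.exact_subtype_mkQ N)
    have e2 : Module.length k M = Module.length k N + Module.length k (M ⧸ N) :=
      Module.length_eq_add_of_exact (N.subtype.restrictScalars k) (N.mkQ.restrictScalars k)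
        N.injective_subtype N.mkQ_surjective (LinearMap.exact_subtype_mkQ N)
    rw [e1, e2, ih N ?_, length_eq_of_killed J hJ (M ⧸ N) ?_]
    · intro q hq m
      obtain ⟨m, rfl⟩ := Submodule.Quotient.mk_surjective _ m
      rw [← Submodule.Quotient.mk_smul, Submodule.Quotient.mk_eq_zero]
      exact Submodule.smul_mem_smul hq trivial
    · rintro q hq ⟨m, hm⟩
      refine Subtype.ext ?_
      show q • m = 0
      refine Submodule.smul_induction_on hm ?_ ?_
      · intro j hj x _
        rw [← mul_smul]
        exact h _ (by rw [pow_succ]; exact Ideal.mul_mem_mul hq hj) x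
      · intro x y hx hy
        rw [smul_add, hx, hy, add_zero]

end len

end Pool.Agent.HT51
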