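import Pool.Agent.HT51.SpDefs
import Pool.Agent.HT51.SpT
import Pool.Agent.HT21.TorFin

/-!
# Comparison of lengths along ring homomorphisms (helper52)

`qlen_cmp`, `len_HH`: lengths of subquotients given by matrices over a ring and over a quotient ring agree.
`cokEquiv`: `Cok G.phi` over `R` and over `R/(f)` agree.  `torLen_iso`: `torLen` is invariant under ring isomorphisms.
-/

universe u

namespace Pool.Agent.HT51

open MvPolynomial Pool.Agent.HT21

section cmp

variable {R Q : Type u} [CommRing R] [CommRing Q] (π : R →+* Q) (hπ : Function.Surjective π)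

include hπ in
lemma len_res_surj (M : Type u) [AddCommGroup M] [Module Q M] :
    Module.length R (Res π M) = Module.length Q M := by
  let _ : Algebra R Q := π.toAlgebra
  let _ : Module Q (Res π M) := inferInstanceAs (Module Q M)
  have : IsScalarTower R Q (Res π M) := ⟨fun a q m => by
    show (π a * q) • m = π a • (q • m)
    rw [mul_smul]⟩
  exact Module.length_eq_of_surjective (R := Q) (S := R) (M := Res π M) hπ

variable {p q s : ℕ} (φ : Matrix (Fin p) (Fin q) R) (ψ : Matrix (Fin q) (Fin s) R) {W' W : Type u}
  [AddCommGroup W'] [Module R W']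
  [AddCommGroup W] [Module Q W] (e : W' ≃+ W) (he : ∀ (a : R) (w : W'), e (a • w) = π a • e w)

include he in
lemma mact_cmp {p q : ℕ} (A : Matrix (Fin p) (Fin q) R) (v : Fin q → W') :
    mact (A.map π) W (fun k => e (v k)) = fun k => e (mact A W' v k) := by
  funext k
  rw [mact_apply, mact_apply, map_sum]
  exact Finset.sum_congr rfl fun l _ => (he _ _).symm

include hπ he in
/-- Comparison of the lengths of `ker φ / im ψ`. -/
theorem qlen_cmp : qlen (LinearMap.range (mact (ψ.map π) W)) (LinearMap.ker (mact (φ.map π) W))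
    = qlen (LinearMap.range (mact ψ W')) (LinearMap.ker (mact φ W')) := by
  unfold qlen
  rw [← len_res_surj π hπ]
  have hmem : ∀ v : LinearMap.ker (mact φ W'), (fun k => e (v.1 k)) ∈ LinearMap.ker (mact (φ.map π) W) := by
    intro v
    rw [LinearMap.mem_ker, mact_cmp π e he]
    have h1 : mact φ W' v.1 = 0 := v.2
    funext k
    rw [h1]
    exact map_zero e
  let F : LinearMap.ker (mact φ W') →ₗ[R] Res π (↥(LinearMap.ker (mact (φ.map π) W)) ⧸
      (LinearMap.range (mact (ψ.map π) W)).submoduleOf (LinearMap.ker (mact (φ.map π) W))) :=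
    { toFun := fun v => toRes π _ (Submodule.Quotient.mk ⟨fun k => e (v.1 k), hmem v⟩)
      map_add' := fun u v => by
        rw [← map_add, ← Submodule.Quotient.mk_add]
        congr 2
        refine Subtype.ext (funext fun k => ?_)
        exact map_add e _ _
      map_smul' := fun a v => by
        rw [RingHom.id_apply, toRes_smul, ← Submodule.Quotient.mk_smul]
        congr 2
        refine Subtype.ext (funext fun k => ?_)
        exact he _ _ }
  have hsurj : Function.Surjective F := by
    intro y
    obtain ⟨w, hw⟩ := Submodule.Quotient.mk_surjective _ ((toRes π _).symm y)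
    have hk : (fun k => e.symm (w.1 k)) ∈ LinearMap.ker (mact φ W') := by
      rw [LinearMap.mem_ker]
      have h1 := mact_cmp π e he φ (fun k => e.symm (w.1 k))
      simp only [AddEquiv.apply_symm_apply] at h1
      have h2 : mact (φ.map π) W w.1 = 0 := w.2
      rw [show (fun k => w.1 k) = w.1 from rfl, h2] at h1
      funext k
      have h3 := congrFun h1 k
      exact (AddEquiv.map_eq_zero_iff e).mp h3.symm
    refine ⟨⟨fun k => e.symm (w.1 k), hk⟩, ?_⟩
    have h4 : F ⟨fun k => e.symm (w.1 k), hk⟩ = toRes π _ (Submodule.Quotient.mk w) := by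
      show toRes π _ (Submodule.Quotient.mk _) = _
      congr 2
      refine Subtype.ext (funext fun k => ?_)
      exact e.apply_symm_apply _
    rw [h4, hw]
    rfl
  have hker : (LinearMap.range (mact ψ W')).submoduleOf (LinearMap.ker (mact φ W')) = LinearMap.ker F := by
    ext v
    constructor
    · rintro ⟨u, hu⟩
      rw [LinearMap.mem_ker]
      have h1 : (Submodule.Quotient.mk ⟨fun k => e (v.1 k), hmem v⟩ : ↥(LinearMap.ker (mact (φ.map π) W)) ⧸
          (LinearMap.range (mact (ψ.map π) W)).submoduleOf (LinearMap.ker (mact (φ.map π) W))) = 0 := by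
        rw [Submodule.Quotient.mk_eq_zero]
        refine ⟨fun k => e (u k), ?_⟩
        rw [mact_cmp π e he, hu]
        rfl
      exact congrArg (toRes π _) h1
    · intro hv
      rw [LinearMap.mem_ker] at hv
      have h1 : (Submodule.Quotient.mk ⟨fun k => e (v.1 k), hmem v⟩ : ↥(LinearMap.ker (mact (φ.map π) W)) ⧸
          (LinearMap.range (mact (ψ.map π) W)).submoduleOf (LinearMap.ker (mact (φ.map π) W))) = 0 := hv
      rw [Submodule.Quotient.mk_eq_zero] at h1
      obtain ⟨u, hu⟩ := h1
      refine ⟨fun k => e.symm (u k), ?_⟩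
      have h2 := mact_cmp π e he ψ (fun k => e.symm (u k))
      simp only [AddEquiv.apply_symm_apply] at h2
      rw [show (fun k => u k) = u from rfl, hu] at h2
      funext k
      have h3 := congrFun h2 k
      exact e.injective h3.symm
  exact (((Submodule.quotEquivOfEq _ _ hker).trans (F.quotKerEquivOfSurjective hsurj)).length_eq).symm

include hπ he in
/-- Comparison of lengths of `HH`. -/
theorem len_HH {r : ℕ} (φ ψ : Matrix (Fin r) (Fin r) R) :
    Module.length Q (HH (φ.map π) (ψ.map π) W) = Module.length R (HH φ ψ W') := by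
  rw [← qlen_eq, ← qlen_eq]
  exact qlen_cmp π hπ φ ψ e he

end cmp

section cok

variable {R : Type u} [CommRing R] {f : R} {s : ℕ} (G : MF f s)

/-- `Cok G.phi` over `R` and over `R/(f)` agree. -/
theorem exists_cokEquiv : ∃ e : Cok G.phi ≃+ Cok (G.phi.map (Ideal.Quotient.mk (Ideal.span {f}))),
    ∀ (a : R) (w : Cok G.phi), e (a • w) = Ideal.Quotient.mk (Ideal.span {f}) a • e w := by
  set q : R →+* R ⧸ Ideal.span {f} := Ideal.Quotient.mk (Ideal.span {f}) with hq
  have hmap : ∀ v : Fin s → R, (G.phi.map q).mulVec (fun b => q (v b)) = fun b => q (G.phi.mulVec v b) := by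
    intro v
    funext i
    exact (RingHom.map_mulVec q G.phi v i).symm
  let g : (Fin s → R) →ₗ[R] Res q (Cok (G.phi.map q)) :=
    { toFun := fun v => toRes q _ (Submodule.Quotient.mk (fun i => q (v i)))
      map_add' := fun u v => by
        rw [← map_add, ← Submodule.Quotient.mk_add]
        congr 2
      map_smul' := fun a v => by
        rw [RingHom.id_apply, toRes_smul, ← Submodule.Quotient.mk_smul]
        congr 2 }
  have hg : ∀ v, g v = toRes q _ (Submodule.Quotient.mk (fun i => q (v i))) := fun _ => rfl
  have hsurj : Function.Surjective g := by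
    intro y
    obtain ⟨w, hw⟩ := Submodule.Quotient.mk_surjective _ ((toRes q _).symm y)
    choose v hv using fun i => Ideal.Quotient.mk_surjective (w i)
    refine ⟨v, ?_⟩
    have h1 : (fun i => q (v i)) = w := funext hv
    rw [hg, h1, hw]
    rfl
  have hker : LinearMap.range G.phi.mulVecLin = LinearMap.ker g := by
    ext v
    constructor
    · rintro ⟨u, rfl⟩
      rw [LinearMap.mem_ker, hg]
      have h1 : (Submodule.Quotient.mk (fun i => q (G.phi.mulVec u i)) : Cok (G.phi.map q)) = 0 := by
        rw [Submodule.Quotient.mk_eq_zero]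
        exact ⟨fun b => q (u b), hmap u⟩
      exact congrArg (toRes q _) h1
    · intro hv
      rw [LinearMap.mem_ker] at hv
      have h1 : (Submodule.Quotient.mk (fun i => q (v i)) : Cok (G.phi.map q)) = 0 := hv
      rw [Submodule.Quotient.mk_eq_zero] at h1
      obtain ⟨c', hc'⟩ := h1
      choose u hu using fun i => Ideal.Quotient.mk_surjective (c' i)
      have h2 : (fun i => q (u i)) = c' := funext hu
      have h3 : (fun b => q (G.phi.mulVec u b)) = fun i => q (v i) := by
        rw [← hmap, h2]
        exact hc'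
      have h4 : ∀ i, ∃ y, v i - G.phi.mulVec u i = f * y := by
        intro i
        have h5 := congrFun h3 i
        have h6 : v i - G.phi.mulVec u i ∈ Ideal.span {f} := Ideal.Quotient.eq.mp h5.symm
        obtain ⟨y, hy⟩ := Ideal.mem_span_singleton'.mp h6
        exact ⟨y, by rw [← hy, mul_comm]⟩
      choose y hy using h4
      refine ⟨u + G.psi.mulVec y, ?_⟩
      rw [Matrix.mulVecLin_apply, Matrix.mulVec_add, Matrix.mulVec_mulVec, G.phi_psi, Matrix.smul_mulVec,
        Matrix.one_mulVec]
      funext i
      rw [Pi.add_apply, Pi.smul_apply, smul_eq_mul, ← hy i]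
      ring
  let E : Cok G.phi ≃ₗ[R] Res q (Cok (G.phi.map q)) :=
    (Submodule.quotEquivOfEq _ _ hker).trans (g.quotKerEquivOfSurjective hsurj)
  refine ⟨E.toAddEquiv.trans (toRes q _).symm, fun a w => ?_⟩
  have h1 := E.map_smul a w
  show (toRes q _).symm (E (a • w)) = q a • (toRes q _).symm (E w)
  rw [h1]
  rfl

/-- `hd` in terms of lengths over `R/(f)`. -/
theorem len_HH_cok {r : ℕ} (φ ψ : Matrix (Fin r) (Fin r) R) :
    Module.length (R ⧸ Ideal.span {f}) (HH (φ.map (Ideal.Quotient.mk (Ideal.span {f})))
      (ψ.map (Ideal.Quotient.mk (Ideal.span {f}))) (Cok (G.phi.map (Ideal.Quotient.mk (Ideal.span {f})))))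
      = Module.length R (HH φ ψ (Cok G.phi)) := by
  obtain ⟨e, he⟩ := exists_cokEquiv G
  exact len_HH _ Ideal.Quotient.mk_surjective e he φ ψ

end cok

section iso

variable {A B : Type u} [CommRing A] [CommRing B] (ε : A ≃+* B)

/-- transport of a resolution along a ring isomorphism -/
noncomputable def MatRes.iso {V : Type u} [AddCommGroup V] [Module B V] (P : MatRes B V) :
    MatRes A (Res (ε : A →+* B) V) := by
  have hD : ∀ {p q : ℕ} (D : Matrix (Fin p) (Fin q) B) (v : Fin q → B),
      mact (D.map (ε.symm : B →+* A)) A (fun k => ε.symm (v k)) = fun k => ε.symm (mact D B v k) :=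
    fun D v => mact_cmp (ε.symm : B →+* A) (ε.symm.toAddEquiv) (fun a w => map_mul ε.symm a w) D v
  have hsum : ∀ (c : Fin (P.r 0) → A), (∑ k, c k • toRes (ε : A →+* B) V (P.e k)) =
      toRes (ε : A →+* B) V (∑ k, ε (c k) • P.e k) := by
    intro c
    rw [map_sum]
    rfl
  have hiff : ∀ {p q : ℕ} (D : Matrix (Fin p) (Fin q) B) (c : Fin p → A),
      (∃ c' : Fin q → B, mact D B c' = fun k => ε (c k)) ↔
        ∃ c' : Fin q → A, mact (D.map (ε.symm : B →+* A)) A c' = c := by
    intro p q D c
    constructor
    · rintro ⟨c', hc'⟩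
      refine ⟨fun k => ε.symm (c' k), ?_⟩
      rw [hD, hc']
      funext k
      exact ε.symm_apply_apply _
    · rintro ⟨c', rfl⟩
      refine ⟨fun k => ε (c' k), ?_⟩
      have h1 := hD D (fun k => ε (c' k))
      simp only [RingEquiv.symm_apply_apply] at h1
      funext k
      have h2 := congrFun h1 k
      rw [h2, RingEquiv.apply_symm_apply]
  refine
    { r := P.r
      D := fun i => (P.D i).map (ε.symm : B →+* A)
      e := fun k => toRes (ε : A →+* B) V (P.e k)
      surj := ?_
      ex0 := ?_
      ex := ?_ }
  · intro v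
    obtain ⟨c, hc⟩ := P.surj ((toRes (ε : A →+* B) V).symm v)
    refine ⟨fun k => ε.symm (c k), ?_⟩
    rw [hsum]
    simp only [RingEquiv.apply_symm_apply]
    rw [hc]
    rfl
  · intro c
    rw [hsum, ← hiff, ← P.ex0]
    exact AddEquiv.map_eq_zero_iff _
  · intro i c
    rw [← hiff, ← P.ex i]
    have h1 := hD (P.D i) (fun k => ε (c k))
    simp only [RingEquiv.symm_apply_apply] at h1
    rw [show (fun k => c k) = c from rfl] at h1
    rw [h1]
    constructor
    · intro h
      funext k
      have := congrFun h k
      exact (map_eq_zero_iff ε.symm ε.symm.injective).mp this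
    · intro h
      funext k
      rw [h]
      exact map_zero ε.symm

/-- `torLen` is invariant under ring isomorphisms. -/
theorem torLen_iso [IsNoetherianRing B] (W V : Type u) [AddCommGroup W] [Module B W] [AddCommGroup V]
    [Module B V] [Module.Finite B V] (i : ℕ) :
    torLen A (i + 1) (Res (ε : A →+* B) W) (Res (ε : A →+* B) V) = torLen B (i + 1) W V := by
  obtain ⟨P⟩ := exists_matRes B V
  rw [torLen_matRes P W i]
  refine (torLen_matRes (MatRes.iso ε P) (Res (ε : A →+* B) W) i).trans ?_
  refine qlen_cmp (ε.symm : B →+* A) ε.symm.surjective (P.D i) (P.D (i + 1)) (toRes (ε : A →+* B) W) ?_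
  intro b w
  show toRes (ε : A →+* B) W (b • w) = toRes (ε : A →+* B) W (ε (ε.symm b) • w)
  rw [RingEquiv.apply_symm_apply]

theorem theta_iso [IsNoetherianRing B] (W V : Type u) [AddCommGroup W] [Module B W] [AddCommGroup V]
    [Module B V] [Module.Finite B V] (e : ℕ) :
    theta A e (Res (ε : A →+* B) W) (Res (ε : A →+* B) V) = theta B e W V := by
  unfold theta
  rw [show 2 * e + 2 = (2 * e + 1) + 1 from rfl, torLen_iso ε W V, torLen_iso ε W V]

end iso

end Pool.Agent.HT51
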