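import Pool.Agent.HT51.LinkZ
import Pool.Agent.HT21.TorMat

/-!
# Definitions for the extension to all residue fields of characteristic `p`
-/

universe u

namespace Pool.Agent.HT51

open MvPolynomial Pool.Agent.HT21

/-- The form `∑ c i * X i ^ n i` over a commutative ring. -/
noncomputable def df {T : Type u} [CommRing T] {N : ℕ} (c : Fin N → T) (n : Fin N → ℕ) :
    MvPolynomial (Fin N) T := ∑ i, C (c i) * X i ^ n i

lemma df_eq_dform {κ : Type u} [Field κ] {N : ℕ} (c : Fin N → κ) (n : Fin N → ℕ) :
    df c n = dform κ c n := rfl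

lemma map_df {T T' : Type u} [CommRing T] [CommRing T'] {N : ℕ} (c : Fin N → T) (n : Fin N → ℕ)
    (j : T →+* T') : MvPolynomial.map j (df c n) = df (fun i => j (c i)) n := by
  unfold df
  rw [map_sum]
  refine Finset.sum_congr rfl fun i _ => ?_
  rw [map_mul, map_pow, map_C, map_X]

/-- The image of a matrix factorisation. -/
def MF.map {R R' : Type u} [CommRing R] [CommRing R'] {f : R} {r : ℕ} (F : MF f r)
    (j : R →+* R') : MF (j f) r where
  phi := F.phi.map j
  psi := F.psi.map j
  phi_psi := by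
    rw [← Matrix.map_mul, F.phi_psi]
    ext a b
    simp [Matrix.one_apply, apply_ite j]
  psi_phi := by
    rw [← Matrix.map_mul, F.psi_phi]
    ext a b
    simp [Matrix.one_apply, apply_ite j]

/-- `ker φ / im ψ` on `W ^ r`. -/
abbrev HH {R : Type u} [CommRing R] {r : ℕ} (φ ψ : Matrix (Fin r) (Fin r) R) (W : Type u)
    [AddCommGroup W] [Module R W] : Type u :=
  ↥(LinearMap.ker (mact φ W)) ⧸ (LinearMap.range (mact ψ W)).submoduleOf (LinearMap.ker (mact φ W))

/-- The difference of the lengths of `ker φ / im ψ` and `ker ψ / im φ` on `(Cok φ')^r`. -/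
noncomputable def hd {R : Type u} [CommRing R] {f : R} {r s : ℕ} (F : MF f r) (G : MF f s) : ℤ :=
  ((Module.length R (HH F.phi F.psi (Cok G.phi))).toNat : ℤ) -
    ((Module.length R (HH F.psi F.phi (Cok G.phi))).toNat : ℤ)

lemma qlen_eq {R : Type u} [CommRing R] {r : ℕ} (φ ψ : Matrix (Fin r) (Fin r) R) (W : Type u)
    [AddCommGroup W] [Module R W] :
    qlen (LinearMap.range (mact ψ W)) (LinearMap.ker (mact φ W)) = Module.length R (HH φ ψ W) := rfl

end Pool.Agent.HT51
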