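import Pool.Agent.HT51.SpHb
import Pool.Agent.HT51.SpDefs

/-!
# Specialisation over a one-dimensional local domain: the step with `t`
-/

universe u

namespace Pool.Agent.HT51

open MvPolynomial IsLocalRing Pool.Agent.HT21

section len

variable {O : Type u} [CommRing O] {N : ℕ}

private lemma xk_mul {M : Type u} [AddCommGroup M] [Module (MvPolynomial (Fin N) O) M]
    (e : ℕ) (hk : ∀ i (m : M), (X i : MvPolynomial (Fin N) O) ^ e • m = 0)
    (α : Fin N →₀ ℕ) (i : Fin N) (hi : e ≤ α i) (a : O) (m : M) :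
    monomial α a • m = 0 := by
  have h1 : monomial α a = monomial (α - Finsupp.single i e) a * (X i) ^ e := by
    rw [X_pow_eq_monomial, monomial_mul, mul_one, tsub_add_cancel_of_le]
    rw [Finsupp.single_le_iff]
    exact hi
  rw [h1, mul_smul, hk, smul_zero]

/-- f.g. over `O[X]` and killed by powers of the `X i`: f.g. over `O` -/
theorem fin_PO (M : Type u) [AddCommGroup M] [Module (MvPolynomial (Fin N) O) M] [Module O M]
    [IsScalarTower O (MvPolynomial (Fin N) O) M] [hM : Module.Finite (MvPolynomial (Fin N) O) M]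
    (e : ℕ) (hk : ∀ i (m : M), (X i : MvPolynomial (Fin N) O) ^ e • m = 0) :
    Module.Finite O M := by
  classical
  obtain ⟨S, hS⟩ := hM.fg_top
  let B : Finset (Fin N → Fin e) := Finset.univ
  let T : Finset M := (Finset.product S B).image
    (fun p => (monomial (Finsupp.equivFunOnFinite.symm (fun i => ((p.2 i : Fin e) : ℕ))) (1 : O)) • p.1)
  refine ⟨T, ?_⟩
  rw [eq_top_iff]
  have key : ∀ (p : MvPolynomial (Fin N) O) (s : M), s ∈ S → p • s ∈ Submodule.span O (T : Set M) := by
    intro p s hs
    induction p using MvPolynomial.induction_on' with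
    | monomial α a =>
      by_cases h : ∃ i, e ≤ α i
      · obtain ⟨i, hi⟩ := h
        rw [xk_mul e hk α i hi]
        exact Submodule.zero_mem _
      · push Not at h
        have h1 : monomial α a = a • monomial α (1 : O) := by
          rw [smul_monomial, smul_eq_mul, mul_one]
        rw [h1, smul_assoc]
        refine Submodule.smul_mem _ _ (Submodule.subset_span ?_)
        rw [Finset.mem_coe, Finset.mem_image]
        refine ⟨(s, fun i => ⟨α i, h i⟩), Finset.mem_product.mpr ⟨hs, Finset.mem_univ _⟩, ?_⟩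
        have h2 : Finsupp.equivFunOnFinite.symm (fun i => (((⟨α i, h i⟩ : Fin e)) : ℕ)) = α := by
          ext i
          rfl
        show (monomial (Finsupp.equivFunOnFinite.symm (fun i => (((⟨α i, h i⟩ : Fin e)) : ℕ)))
          (1 : O)) • s = _
        rw [h2]
    | add p q hp hq => rw [add_smul]; exact Submodule.add_mem _ hp hq
  intro m _
  have hm : m ∈ Submodule.span (MvPolynomial (Fin N) O) (S : Set M) := by rw [hS]; trivial
  have key2 : ∀ m, m ∈ Submodule.span (MvPolynomial (Fin N) O) (S : Set M) →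
      m ∈ Submodule.span O (T : Set M) := by
    intro m hm
    rw [Submodule.mem_span_finset] at hm
    obtain ⟨f, -, hf⟩ := hm
    rw [← hf]
    exact Submodule.sum_mem _ fun s hs => key (f s) s hs
  exact key2 m hm

/-- the ideal generated by the variables -/
private noncomputable def XJ (O : Type u) [CommRing O] (N : ℕ) : Ideal (MvPolynomial (Fin N) O) :=
  Ideal.span (Set.range X)

private lemma xj_split (q : MvPolynomial (Fin N) O) : ∃ a : O, q - C a ∈ XJ O N := by
  induction q using MvPolynomial.induction_on with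
  | C a => exact ⟨a, by rw [sub_self]; exact Ideal.zero_mem _⟩
  | add p q hp hq =>
    obtain ⟨a, ha⟩ := hp
    obtain ⟨b, hb⟩ := hq
    refine ⟨a + b, ?_⟩
    have : p + q - C (a + b) = (p - C a) + (q - C b) := by rw [C_add]; ring
    rw [this]
    exact Ideal.add_mem _ ha hb
  | mul_X p i _ =>
    refine ⟨0, ?_⟩
    rw [C_0, sub_zero]
    exact Ideal.mul_mem_left _ _ (Ideal.subset_span ⟨i, rfl⟩)

private lemma len_killed (M : Type u) [AddCommGroup M] [Module (MvPolynomial (Fin N) O) M]
    [Module O M] [IsScalarTower O (MvPolynomial (Fin N) O) M]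
    (h : ∀ q ∈ XJ O N, ∀ m : M, q • m = 0) :
    Module.length (MvPolynomial (Fin N) O) M = Module.length O M := by
  have hsm : ∀ q : MvPolynomial (Fin N) O, ∃ a : O, ∀ m : M, q • m = a • m := by
    intro q
    obtain ⟨a, ha⟩ := xj_split q
    refine ⟨a, fun m => ?_⟩
    have h1 := h _ ha m
    rw [sub_smul, sub_eq_zero] at h1
    rw [h1, ← algebraMap_smul (MvPolynomial (Fin N) O) a m]
    rfl
  let e : Submodule (MvPolynomial (Fin N) O) M ≃o Submodule O M :=
    { toFun := fun N => N.restrictScalars O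
      invFun := fun N =>
        { carrier := N
          add_mem' := N.add_mem
          zero_mem' := N.zero_mem
          smul_mem' := fun q m hm => by
            obtain ⟨a, ha⟩ := hsm q
            rw [ha]
            exact N.smul_mem a hm }
      left_inv := fun N => by ext; rfl
      right_inv := fun N => by ext; rfl
      map_rel_iff' := Iff.rfl }
  apply WithBot.coe_injective
  rw [Module.coe_length, Module.coe_length, Order.krullDim_eq_of_orderIso e]

private theorem len_nilp (s : ℕ) : ∀ (M : Type u) [AddCommGroup M]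
    [Module (MvPolynomial (Fin N) O) M] [Module O M]
    [IsScalarTower O (MvPolynomial (Fin N) O) M], (∀ q ∈ XJ O N ^ s, ∀ m : M, q • m = 0) →
    Module.length (MvPolynomial (Fin N) O) M = Module.length O M := by
  induction s with
  | zero =>
    intro M _ _ _ _ h
    have : Subsingleton M := ⟨fun x y => by
      have h1 := h 1 (by rw [pow_zero, Ideal.one_eq_top]; trivial)
      rw [← one_smul (MvPolynomial (Fin N) O) x, ← one_smul (MvPolynomial (Fin N) O) y, h1, h1]⟩
    rw [Module.length_eq_zero, Module.length_eq_zero]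
  | succ s ih =>
    intro M _ _ _ _ h
    let K : Submodule (MvPolynomial (Fin N) O) M := XJ O N • ⊤
    have e1 : Module.length (MvPolynomial (Fin N) O) M
        = Module.length (MvPolynomial (Fin N) O) K + Module.length (MvPolynomial (Fin N) O) (M ⧸ K) :=
      Module.length_eq_add_of_exact K.subtype K.mkQ K.injective_subtype K.mkQ_surjective
        (LinearMap.exact_subtype_mkQ K)
    have e2 : Module.length O M = Module.length O K + Module.length O (M ⧸ K) :=
      Module.length_eq_add_of_exact (K.subtype.restrictScalars O) (K.mkQ.restrictScalars O)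
        K.injective_subtype K.mkQ_surjective (LinearMap.exact_subtype_mkQ K)
    rw [e1, e2, ih K ?_, len_killed (M ⧸ K) ?_]
    · intro q hq m
      obtain ⟨m, rfl⟩ := Submodule.Quotient.mk_surjective _ m
      rw [← Submodule.Quotient.mk_smul, Submodule.Quotient.mk_eq_zero]
      exact Submodule.smul_mem_smul hq trivial
    · rintro q hq ⟨m, hm⟩
      refine Subtype.ext ?_
      show q • m = 0
      refine Submodule.smul_induction_on hm ?_ ?_
      · intro j hj x _
        rw [← mul_smul]
        exact h _ (by rw [pow_succ]; exact Ideal.mul_mem_mul hq hj) x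
      · intro x y hx hy
        rw [smul_add, hx, hy, add_zero]

/-- killed by powers of the `X i`: the length over `O[X]` is the length over `O` -/
theorem len_PO (M : Type u) [AddCommGroup M] [Module (MvPolynomial (Fin N) O) M]
    [Module O M] [IsScalarTower O (MvPolynomial (Fin N) O) M] (e : ℕ)
    (hk : ∀ i (m : M), (X i : MvPolynomial (Fin N) O) ^ e • m = 0) :
    Module.length (MvPolynomial (Fin N) O) M = Module.length O M := by
  classical
  obtain ⟨s, h1⟩ : ∃ s, XJ O N ^ s
      ≤ Ideal.span (Set.range fun i => (X i : MvPolynomial (Fin N) O) ^ e) := by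
    refine Ideal.exists_pow_le_of_le_radical_of_fg ?_ ?_
    · unfold XJ
      rw [Ideal.span_le]
      rintro _ ⟨i, rfl⟩
      exact ⟨e, Ideal.subset_span ⟨i, rfl⟩⟩
    · exact Submodule.fg_span (Set.finite_range _)
  refine len_nilp s M fun q hq m => ?_
  have h2 := h1 hq
  refine Submodule.span_induction (p := fun q _ => q • m = 0) ?_ ?_ ?_ ?_ h2
  · rintro _ ⟨i, rfl⟩
    exact hk i m
  · rw [zero_smul]
  · intro x y _ _ hx hy
    rw [add_smul, hx, hy, add_zero]
  · intro a x _ hx
    rw [smul_eq_mul, mul_smul, hx, smul_zero]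

end len

section spec

lemma mact_comp {R : Type u} [CommRing R] {r : ℕ} (A : Matrix (Fin r) (Fin r) R) {W V : Type u}
    [AddCommGroup W] [Module R W] [AddCommGroup V] [Module R V] (f : W →ₗ[R] V) (w : Fin r → W) :
    (fun a => f (mact A W w a)) = mact A V (fun b => f (w b)) := by
  funext a
  show f (∑ l, A a l • w l) = ∑ l, A a l • f (w l)
  rw [map_sum]
  exact Finset.sum_congr rfl fun l _ => map_smul f _ _

variable {O : Type u} [CommRing O] [IsDomain O] [IsLocalRing O] [IsNoetherianRing O] (t : O)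
  (hO : ∀ q : Ideal O, q.IsPrime → q = ⊥ ∨ q = maximalIdeal O) (ht0 : t ≠ 0)
  (htm : t ∈ maximalIdeal O)

/-- `V / tV` -/
abbrev VmodT {O : Type u} [CommRing O] (N : ℕ) (t : O) (V : Type u) [AddCommGroup V]
    [Module (MvPolynomial (Fin N) O) V] : Type u :=
  V ⧸ LinearMap.range (LinearMap.lsmul (MvPolynomial (Fin N) O) V (C t))

variable {N : ℕ} (V : Type u) [AddCommGroup V] [Module (MvPolynomial (Fin N) O) V]
  [Module O V] [IsScalarTower O (MvPolynomial (Fin N) O) V]
  {r : ℕ} (φ ψ : Matrix (Fin r) (Fin r) (MvPolynomial (Fin N) O))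
  (hz1 : ∀ w, mact φ V (mact ψ V w) = 0) (hz2 : ∀ w, mact ψ V (mact φ V w) = 0)
  (htV : ∀ v : V, (C t : MvPolynomial (Fin N) O) • v = 0 → v = 0) (e : ℕ)
  (hk1 : ∀ i (z : HH φ ψ V), (X i : MvPolynomial (Fin N) O) ^ e • z = 0)
  (hk2 : ∀ i (z : HH ψ φ V), (X i : MvPolynomial (Fin N) O) ^ e • z = 0)
  (hk3 : ∀ i (z : HH φ ψ (VmodT N t V)), (X i : MvPolynomial (Fin N) O) ^ e • z = 0)

/-- lengths over `O[X]` and over `O` of a quotient by `t` -/
lemma ln_quot_t (H : Type u) [AddCommGroup H] [Module (MvPolynomial (Fin N) O) H] [Module O H]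
    [IsScalarTower O (MvPolynomial (Fin N) O) H] (e : ℕ)
    (hk : ∀ i (m : H), (X i : MvPolynomial (Fin N) O) ^ e • m = 0)
    (f : H →ₗ[MvPolynomial (Fin N) O] H) (hf : ∀ x, f x = t • x) :
    ln (MvPolynomial (Fin N) O) (H ⧸ LinearMap.range f) = ln O (H ⧸ LinearMap.range (mulT t H)) := by
  have h1 : ln (MvPolynomial (Fin N) O) (H ⧸ LinearMap.range f)
      = ln O (H ⧸ LinearMap.range f) := by
    unfold ln
    rw [len_PO (H ⧸ LinearMap.range f) e ?_]
    intro i m
    obtain ⟨m, rfl⟩ := Submodule.Quotient.mk_surjective _ m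
    rw [← Submodule.Quotient.mk_smul, hk, Submodule.Quotient.mk_zero]
  rw [h1]
  refine ln_eq_of_ker ((LinearMap.range f).mkQ.restrictScalars O) (Submodule.mkQ _)
    (Submodule.mkQ_surjective _) (Submodule.mkQ_surjective _) ?_
  intro x
  rw [LinearMap.restrictScalars_apply, Submodule.mkQ_apply, Submodule.mkQ_apply,
    Submodule.Quotient.mk_eq_zero, Submodule.Quotient.mk_eq_zero]
  constructor
  · rintro ⟨y, hy⟩
    exact ⟨y, by rw [← hy, hf]; rfl⟩
  · rintro ⟨y, hy⟩
    exact ⟨y, by rw [← hy, hf]; rfl⟩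

lemma ln_ker_t (H : Type u) [AddCommGroup H] [Module (MvPolynomial (Fin N) O) H] [Module O H]
    [IsScalarTower O (MvPolynomial (Fin N) O) H] (e : ℕ)
    (hk : ∀ i (m : H), (X i : MvPolynomial (Fin N) O) ^ e • m = 0)
    (f : H →ₗ[MvPolynomial (Fin N) O] H) (hf : ∀ x, f x = t • x) :
    ln (MvPolynomial (Fin N) O) (LinearMap.ker f) = ln O (LinearMap.ker (mulT t H)) := by
  have h1 : ln (MvPolynomial (Fin N) O) (LinearMap.ker f) = ln O (LinearMap.ker f) := by
    unfold ln
    rw [len_PO (LinearMap.ker f) e ?_]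
    rintro i ⟨m, hm⟩
    exact Subtype.ext (hk i m)
  rw [h1]
  have hiff : ∀ x, f x = 0 ↔ mulT t H x = 0 := fun x => by rw [hf]; rfl
  exact ln_congr
    { toFun := fun x => ⟨x.1, (hiff x.1).mp x.2⟩
      invFun := fun x => ⟨x.1, (hiff x.1).mpr x.2⟩
      left_inv := fun x => rfl
      right_inv := fun x => rfl
      map_add' := fun x y => rfl
      map_smul' := fun a x => rfl }

include hO ht0 hz1 hz2 htV hk1 hk2 hk3 in
lemma spec_half [Module.Finite (MvPolynomial (Fin N) O) V] :
    ln (MvPolynomial (Fin N) O) (HH φ ψ (VmodT N t V))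
      = ln O (HH φ ψ V ⧸ LinearMap.range (mulT t (HH φ ψ V)))
        + ln O (LinearMap.ker (mulT t (HH ψ φ V))) := by
  let P := MvPolynomial (Fin N) O
  let W := VmodT N t V
  let q : V →ₗ[P] W := Submodule.mkQ _
  have hq : Function.Surjective q := Submodule.mkQ_surjective _
  have hqk : ∀ v, q v = 0 ↔ ∃ y, (C t : P) • y = v := fun v => Submodule.Quotient.mk_eq_zero _
  let i : (Fin r → V) →ₗ[P] (Fin r → V) := LinearMap.lsmul P (Fin r → V) (C t)
  let p : (Fin r → V) →ₗ[P] (Fin r → W) := q.compLeft (Fin r)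
  have hpp : ∀ x a, p x a = q (x a) := fun x a => rfl
  have hi : Function.Injective i := by
    rw [injective_iff_map_eq_zero]
    intro x hx
    funext a
    exact htV _ (congrFun hx a)
  have hp : Function.Surjective p := by
    intro y
    choose x hx using fun a => hq (y a)
    exact ⟨x, funext hx⟩
  have hip : Function.Exact i p := by
    intro x
    constructor
    · intro hx
      have h1 : ∀ a, ∃ y, (C t : P) • y = x a := fun a => (hqk _).mp (congrFun hx a)
      choose y hy using h1
      exact ⟨y, funext hy⟩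
    · rintro ⟨y, rfl⟩
      funext a
      exact (hqk _).mpr ⟨y a, rfl⟩
  have hiA : ∀ (A : Matrix (Fin r) (Fin r) P) (x : Fin r → V), i (mact A V x) = mact A V (i x) :=
    fun A x => (map_smul (mact A V) (C t : P) x).symm
  have hpA : ∀ (A : Matrix (Fin r) (Fin r) P) (x : Fin r → V), p (mact A V x) = mact A W (p x) :=
    fun A x => mact_comp A q x
  have hNoeth : IsNoetherian P V := isNoetherian_of_isNoetherianRing_of_finite P V
  have hfin : IsFiniteLength P (Hm (mact φ W) (mact ψ W)) := by
    have hk3' : ∀ i (z : Hm (mact φ W) (mact ψ W)), (X i : P) ^ e • z = 0 := hk3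
    have h1 : Module.Finite P (Hm (mact φ W) (mact ψ W)) := inferInstance
    have h2 : Module.Finite O (Hm (mact φ W) (mact ψ W)) := fin_PO _ e hk3'
    have h3 : IsFiniteLength O (Hm (mact φ W) (mact ψ W)) := by
      refine fl_of_killed t hO ht0 _ h2 ?_
      intro z
      obtain ⟨⟨z, hz⟩, rfl⟩ := Submodule.Quotient.mk_surjective _ z
      rw [← Submodule.Quotient.mk_smul]
      have h4 : t • (⟨z, hz⟩ : LinearMap.ker (mact φ W)) = 0 := by
        refine Subtype.ext ?_
        funext a
        obtain ⟨v, hv⟩ := hq (z a)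
        show t • z a = 0
        rw [← algebraMap_smul P t (z a), ← hv]
        show (C t : P) • q v = 0
        rw [← map_smul]
        exact (hqk _).mpr ⟨v, rfl⟩
      rw [h4, Submodule.Quotient.mk_zero]
    rw [← Module.length_ne_top_iff] at h3 ⊢
    rw [len_PO _ e hk3']
    exact h3
  have key := hex (φL := mact φ V) (ψL := mact ψ V) (φM := mact φ V) (ψM := mact ψ V)
    (φN := mact φ W) (ψN := mact ψ W) i p hi hp hip (hiA φ) (hiA ψ) (hpA φ) (hpA ψ) hz1 hz2 hfin
  have e1 : ln P (HH φ ψ (VmodT N t V)) = ln P (Hm (mact φ W) (mact ψ W)) := rfl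
  rw [e1, key]
  congr 1
  · refine ln_quot_t t (HH φ ψ V) e hk1 _ ?_
    intro x
    obtain ⟨⟨x, hx⟩, rfl⟩ := Submodule.Quotient.mk_surjective _ x
    rw [← algebraMap_smul P t]
    rfl
  · refine ln_ker_t t (HH ψ φ V) e hk2 _ ?_
    intro x
    obtain ⟨⟨x, hx⟩, rfl⟩ := Submodule.Quotient.mk_surjective _ x
    rw [← algebraMap_smul P t]
    rfl

include hO ht0 htm hz1 hz2 htV hk1 hk2 hk3 in
/-- **The step with `t`.** -/
theorem spec_t [Module.Finite (MvPolynomial (Fin N) O) V]
    (hk4 : ∀ i (z : HH ψ φ (VmodT N t V)), (X i : MvPolynomial (Fin N) O) ^ e • z = 0) :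
    ln (MvPolynomial (Fin N) O) (HH φ ψ (VmodT N t V)) - ln (MvPolynomial (Fin N) O) (HH ψ φ (VmodT N t V))
      = ln O (O ⧸ Ideal.span {t}) *
        ((Module.finrank O (HH φ ψ V) : ℤ) - Module.finrank O (HH ψ φ V)) := by
  have hNoeth : IsNoetherian (MvPolynomial (Fin N) O) V :=
    isNoetherian_of_isNoetherianRing_of_finite _ V
  have f1 : Module.Finite O (HH φ ψ V) := fin_PO _ e hk1
  have f2 : Module.Finite O (HH ψ φ V) := fin_PO _ e hk2
  rw [spec_half t hO ht0 V φ ψ hz1 hz2 htV e hk1 hk2 hk3,
    spec_half t hO ht0 V ψ φ hz2 hz1 htV e hk2 hk1 hk4]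
  have g1 := et_rank t hO ht0 htm (HH φ ψ V)
  have g2 := et_rank t hO ht0 htm (HH ψ φ V)
  unfold et at g1 g2
  linear_combination g1 - g2

end spec

end Pool.Agent.HT51
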