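import Pool.Agent.HT51.SpCv
import Pool.Agent.HT51.SpCr
import Pool.Agent.HT51.SpK

/-!
# Specialisation over a one-dimensional local domain: all ideals containing `t`
-/

universe u

namespace Pool.Agent.HT51

open MvPolynomial IsLocalRing Pool.Agent.HT21

/-! ### regularity of the form modulo every ideal -/

section reg

lemma df_regular_aux {R : Type u} [CommRing R] {M : ℕ} (c : Fin (M + 1) → R)
    (n : Fin (M + 1) → ℕ) (hc : IsUnit (c 0)) (hn : n 0 ≠ 0)
    (w : MvPolynomial (Fin (M + 1)) R) (h : df c n * w = 0) : w = 0 := by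
  obtain ⟨u, hu⟩ := hc
  let E := MvPolynomial.finSuccEquiv R M
  let g : MvPolynomial (Fin M) R := ∑ j : Fin M, C (c j.succ) * X j ^ n j.succ
  have h1 : E (df c n) = Polynomial.C (C (c 0)) *
      (Polynomial.X ^ n 0 + Polynomial.C (C ((u⁻¹ : Rˣ) : R) * g)) := by
    have h2 : (C (c 0) : MvPolynomial (Fin M) R) * (C ((u⁻¹ : Rˣ) : R) * g) = g := by
      rw [← mul_assoc, ← C_mul, ← hu, Units.mul_inv, C_1, one_mul]
    rw [mul_add, ← Polynomial.C_mul, h2]
    unfold df
    rw [Fin.sum_univ_succ, map_add, map_sum, map_mul, map_pow]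
    congr 1
    · show E (C (c 0)) * E (X 0) ^ n 0 = _
      rw [show E (C (c 0)) = Polynomial.C (C (c 0)) from
        E.commutes (c 0),
        show E (X 0) = Polynomial.X from MvPolynomial.finSuccEquiv_X_zero]
    · show _ = Polynomial.C (∑ j : Fin M, C (c j.succ) * X j ^ n j.succ)
      rw [map_sum]
      refine Finset.sum_congr rfl fun j _ => ?_
      rw [map_mul, map_pow]
      show E (C (c j.succ)) * E (X j.succ) ^ n j.succ = _
      rw [show E (C (c j.succ)) = Polynomial.C (C (c j.succ)) from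
        E.commutes (c j.succ),
        show E (X j.succ) = Polynomial.C (X j) from MvPolynomial.finSuccEquiv_X_succ, map_mul,
        map_pow]
  have h3 : (Polynomial.X ^ n 0 + Polynomial.C (C ((u⁻¹ : Rˣ) : R) * g)).Monic :=
    Polynomial.monic_X_pow_add_C _ hn
  have h4 : (Polynomial.X ^ n 0 + Polynomial.C (C ((u⁻¹ : Rˣ) : R) * g)) * E w = 0 := by
    have h5 := congrArg E h
    rw [map_mul, map_zero, h1] at h5
    have h6 : Polynomial.C (C ((u⁻¹ : Rˣ) : R)) * (Polynomial.C (C (c 0)) *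
      (Polynomial.X ^ n 0 + Polynomial.C (C ((u⁻¹ : Rˣ) : R) * g)) * E w) = 0 := by
      rw [h5, mul_zero]
    rw [← mul_assoc, ← mul_assoc, ← Polynomial.C_mul, ← C_mul, ← hu, Units.inv_mul, C_1,
      Polynomial.C_1, one_mul] at h6
    exact h6
  have h7 : E w = 0 := by
    refine h3.isRegular.left ?_
    show _ * E w = _ * 0
    rw [h4, mul_zero]
  exact (map_eq_zero_iff E E.injective).mp h7

/-- `f` is regular modulo every ideal of the base -/
def RegM {O : Type u} [CommRing O] {N : ℕ} (f : MvPolynomial (Fin N) O) : Prop :=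
  ∀ (I : Ideal O) (w : MvPolynomial (Fin N) O),
    f * w ∈ I.map (C : O →+* MvPolynomial (Fin N) O) → w ∈ I.map (C : O →+* MvPolynomial (Fin N) O)

/-- the form is regular modulo every ideal of the base -/
lemma df_regular {O : Type u} [CommRing O] {N : ℕ} (hN : 0 < N) (c : Fin N → O) (n : Fin N → ℕ)
    (hc : ∀ i, IsUnit (c i)) (hn : ∀ i, n i ≠ 0) : RegM (df c n) := by
  intro I w h
  obtain ⟨M, rfl⟩ : ∃ M, N = M + 1 := ⟨N - 1, by omega⟩
  have hk : ∀ p : MvPolynomial (Fin (M + 1)) O,
      p ∈ I.map (C : O →+* MvPolynomial (Fin (M + 1)) O) ↔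
        MvPolynomial.map (Ideal.Quotient.mk I) p = 0 := by
    intro p
    rw [mem_map_C_iff]
    constructor
    · intro hp
      ext m
      rw [coeff_map, coeff_zero, Ideal.Quotient.eq_zero_iff_mem]
      exact hp m
    · intro hp m
      rw [← Ideal.Quotient.eq_zero_iff_mem, ← coeff_map, hp, coeff_zero]
  rw [hk] at h ⊢
  rw [map_mul, map_df] at h
  exact df_regular_aux _ n ((hc 0).map _) (hn 0) _ h

end reg

section fam

variable {O : Type u} [CommRing O] {N : ℕ} {f : MvPolynomial (Fin N) O} {s : ℕ}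
  (G : MF f s)

/-- `I V` -/
noncomputable abbrev IV (G : MF f s) (I : Ideal O) : Submodule (MvPolynomial (Fin N) O) (Cok G.phi) :=
  (I.map (C : O →+* MvPolynomial (Fin N) O)) • ⊤

lemma mem_IV (I : Ideal O) (z : Fin s → MvPolynomial (Fin N) O)
    (hz : ∀ j, z j ∈ I.map (C : O →+* MvPolynomial (Fin N) O)) :
    (Submodule.Quotient.mk z : Cok G.phi) ∈ IV G I := by
  have h1 : (Submodule.Quotient.mk z : Cok G.phi)
      = ∑ j, z j • (Submodule.Quotient.mk (Pi.single j 1) : Cok G.phi) := by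
    have h2 : z = ∑ j, z j • (Pi.single j 1 : Fin s → MvPolynomial (Fin N) O) := by
      funext a
      rw [Finset.sum_apply, Finset.sum_eq_single a]
      · rw [Pi.smul_apply, Pi.single_eq_same, smul_eq_mul, mul_one]
      · intro b _ hb
        rw [Pi.smul_apply, Pi.single_eq_of_ne (Ne.symm hb), smul_zero]
      · intro h; exact absurd (Finset.mem_univ a) h
    conv_lhs => rw [h2]
    rw [← Submodule.mkQ_apply, map_sum]
    refine Finset.sum_congr rfl fun j _ => ?_
    rw [map_smul]
    rfl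
  rw [h1]
  exact Submodule.sum_mem _ fun j _ => Submodule.smul_mem_smul (hz j) trivial

lemma exists_of_mem_IV (I : Ideal O) (v : Cok G.phi) (hv : v ∈ IV G I) :
    ∃ z : Fin s → MvPolynomial (Fin N) O,
      (∀ j, z j ∈ I.map (C : O →+* MvPolynomial (Fin N) O)) ∧ v = Submodule.Quotient.mk z := by
  refine Submodule.smul_induction_on hv ?_ ?_
  · intro p hp y _
    obtain ⟨y, rfl⟩ := Submodule.Quotient.mk_surjective _ y
    refine ⟨p • y, fun j => ?_, rfl⟩
    rw [Pi.smul_apply, smul_eq_mul]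
    exact Ideal.mul_mem_right _ _ hp
  · rintro x y ⟨z, hz, rfl⟩ ⟨z', hz', rfl⟩
    exact ⟨z + z', fun j => Ideal.add_mem _ (hz j) (hz' j), rfl⟩

/-- the colon property = flatness -/
lemma colon_IV (hreg : RegM f) (I J : Ideal O) (a : O)
    (hJ : ∀ b, a * b ∈ I → b ∈ J) (v : Cok G.phi)
    (hv : (C a : MvPolynomial (Fin N) O) • v ∈ IV G I) : v ∈ IV G J := by
  obtain ⟨x, rfl⟩ := Submodule.Quotient.mk_surjective _ v
  obtain ⟨z, hz, hxz⟩ := exists_of_mem_IV G I _ hv
  rw [← Submodule.Quotient.mk_smul, Submodule.Quotient.eq] at hxz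
  obtain ⟨w, hw⟩ := hxz
  have hw' : G.phi.mulVec w = (C a : MvPolynomial (Fin N) O) • x - z := hw
  -- `f w` is in `(I + a)`
  have h1 : f • w = (C a : MvPolynomial (Fin N) O) • G.psi.mulVec x - G.psi.mulVec z := by
    have h2 := congrArg (fun y => G.psi.mulVec y) hw'
    change _ = _ at h2
    rw [Matrix.mulVec_mulVec, G.psi_phi, Matrix.smul_mulVec, Matrix.one_mulVec, Matrix.mulVec_sub,
      Matrix.mulVec_smul] at h2
    exact h2
  let I' : Ideal O := I ⊔ Ideal.span {a}
  have hI' : I'.map (C : O →+* MvPolynomial (Fin N) O)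
      = I.map (C : O →+* MvPolynomial (Fin N) O) ⊔ Ideal.span {(C a : MvPolynomial (Fin N) O)} := by
    rw [Ideal.map_sup, Ideal.map_span, Set.image_singleton]
  have hψz : ∀ j, G.psi.mulVec z j ∈ I.map (C : O →+* MvPolynomial (Fin N) O) := by
    intro j
    rw [Matrix.mulVec, dotProduct]
    exact Ideal.sum_mem _ fun l _ => Ideal.mul_mem_left _ _ (hz l)
  have h3 : ∀ j, w j ∈ I'.map (C : O →+* MvPolynomial (Fin N) O) := by
    intro j
    refine hreg I' (w j) ?_
    have h4 := congrFun h1 j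
    rw [Pi.smul_apply, smul_eq_mul, Pi.sub_apply, Pi.smul_apply, smul_eq_mul] at h4
    rw [h4, hI']
    refine Ideal.sub_mem _ ?_ ?_
    · refine Ideal.mem_sup_right ?_
      exact Ideal.mul_mem_right _ _ (Ideal.mem_span_singleton_self _)
    · exact Ideal.mem_sup_left (hψz j)
  have h5 : ∀ j, ∃ p q, p ∈ I.map (C : O →+* MvPolynomial (Fin N) O) ∧
      w j = p + C a * q := by
    intro j
    have h6 := h3 j
    rw [hI', Submodule.mem_sup] at h6
    obtain ⟨p, hp, q, hq, hpq⟩ := h6
    obtain ⟨q', hq'⟩ := Ideal.mem_span_singleton'.mp hq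
    exact ⟨p, q', hp, by rw [← hpq, ← hq', mul_comm]⟩
  choose p q hp hpq using h5
  have hwpq : w = p + (C a : MvPolynomial (Fin N) O) • q := by
    funext j
    rw [Pi.add_apply, Pi.smul_apply, smul_eq_mul]
    exact hpq j
  -- `a (x - φ q)` is in `I`
  have h7 : (C a : MvPolynomial (Fin N) O) • (x - G.phi.mulVec q) = z + G.phi.mulVec p := by
    have h8 : (C a : MvPolynomial (Fin N) O) • x = z + G.phi.mulVec w := by
      rw [hw']; abel
    rw [smul_sub, h8, hwpq, Matrix.mulVec_add, Matrix.mulVec_smul]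
    abel
  have h9 : ∀ j, (x - G.phi.mulVec q) j ∈ J.map (C : O →+* MvPolynomial (Fin N) O) := by
    intro j
    rw [mem_map_C_iff]
    intro m
    apply hJ
    have h10 := congrFun h7 j
    rw [Pi.smul_apply, smul_eq_mul] at h10
    have h11 : (C a : MvPolynomial (Fin N) O) * (x - G.phi.mulVec q) j
        ∈ I.map (C : O →+* MvPolynomial (Fin N) O) := by
      rw [h10, Pi.add_apply]
      refine Ideal.add_mem _ (hz j) ?_
      rw [Matrix.mulVec, dotProduct]
      exact Ideal.sum_mem _ fun l _ => Ideal.mul_mem_left _ _ (hp l)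
    have h12 := (mem_map_C_iff.mp h11) m
    rwa [coeff_C_mul] at h12
  have h13 : (Submodule.Quotient.mk x : Cok G.phi)
      = Submodule.Quotient.mk (x - G.phi.mulVec q) := by
    rw [Submodule.Quotient.eq]
    refine ⟨q, ?_⟩
    show G.phi.mulVec q = x - (x - G.phi.mulVec q)
    abel
  rw [h13]
  exact mem_IV G J _ h9

end fam

end Pool.Agent.HT51
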