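import Pool.Agent.HT51.SpCw

/-!
# Specialisation over a one-dimensional local domain
-/

universe u

namespace Pool.Agent.HT51

open MvPolynomial IsLocalRing Pool.Agent.HT21 TensorProduct

section ses

variable {P : Type u} [CommRing P] {r : ℕ} (φ ψ : Matrix (Fin r) (Fin r) P)

/-- `length HH φ ψ W - length HH ψ φ W` -/
noncomputable def ThW (W : Type u) [AddCommGroup W] [Module P W] : ℤ :=
  ln P (HH φ ψ W) - ln P (HH ψ φ W)

theorem thW_ses {W₁ W₂ W₃ : Type u} [AddCommGroup W₁] [Module P W₁] [AddCommGroup W₂] [Module P W₂]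
    [AddCommGroup W₃] [Module P W₃] (f : W₁ →ₗ[P] W₂) (g : W₂ →ₗ[P] W₃)
    (hf : Function.Injective f) (hfg : Function.Exact f g) (hg : Function.Surjective g)
    (h12 : ∀ w, mact φ W₂ (mact ψ W₂ w) = 0) (h21 : ∀ w, mact ψ W₂ (mact φ W₂ w) = 0)
    (f1 : IsFiniteLength P (HH φ ψ W₁)) (f1' : IsFiniteLength P (HH ψ φ W₁))
    (f2 : IsFiniteLength P (HH φ ψ W₂)) (f2' : IsFiniteLength P (HH ψ φ W₂))
    (f3 : IsFiniteLength P (HH φ ψ W₃)) (f3' : IsFiniteLength P (HH ψ φ W₃)) :
    ThW φ ψ W₂ = ThW φ ψ W₁ + ThW φ ψ W₃ := by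
  have hi : Function.Injective (f.compLeft (Fin r)) := by
    intro x y hxy
    funext a
    exact hf (congrFun hxy a)
  have hp : Function.Surjective (g.compLeft (Fin r)) := by
    intro y
    choose x hx using fun a => hg (y a)
    exact ⟨x, funext hx⟩
  have hip : Function.Exact (f.compLeft (Fin r)) (g.compLeft (Fin r)) := by
    intro x
    constructor
    · intro hx
      have h1 : ∀ a, ∃ y, f y = x a := fun a => (hfg _).mp (congrFun hx a)
      choose y hy using h1
      exact ⟨y, funext hy⟩
    · rintro ⟨y, rfl⟩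
      funext a
      exact (hfg _).mpr ⟨y a, rfl⟩
  exact th_add (φL := mact φ W₁) (ψL := mact ψ W₁) (φM := mact φ W₂) (ψM := mact ψ W₂)
    (φN := mact φ W₃) (ψN := mact ψ W₃) (f.compLeft (Fin r)) (g.compLeft (Fin r)) hi hp hip
    (fun x => mact_comp φ f x) (fun x => mact_comp ψ f x) (fun x => mact_comp φ g x)
    (fun x => mact_comp ψ g x) h12 h21 f1 f1' f2 f2' f3 f3'

lemma thW_subsingleton (W : Type u) [AddCommGroup W] [Module P W] [Subsingleton W] :
    ThW φ ψ W = 0 := by
  have h1 : ∀ (A B : Matrix (Fin r) (Fin r) P), Subsingleton (HH A B W) := by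
    intro A B
    refine ⟨fun x y => ?_⟩
    obtain ⟨x, rfl⟩ := Submodule.Quotient.mk_surjective _ x
    obtain ⟨y, rfl⟩ := Submodule.Quotient.mk_surjective _ y
    have : x = y := Subtype.ext (funext fun a => Subsingleton.elim _ _)
    rw [this]
  have := h1 φ ψ
  have := h1 ψ φ
  unfold ThW ln
  rw [Module.length_eq_zero, Module.length_eq_zero]
  simp

end ses

section kl

/-- `X i ^ E` kills `HH` -/
def KilE {O : Type u} [CommRing O] {N : ℕ} (f : MvPolynomial (Fin N) O) (E : ℕ) : Prop :=
  ∀ (r : ℕ) (F : MF f r) (W : Type u) [AddCommGroup W] [Module (MvPolynomial (Fin N) O) W]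
    (i : Fin N) (z : HH F.phi F.psi W), (X i : MvPolynomial (Fin N) O) ^ E • z = 0

variable {O : Type u} [CommRing O] {N : ℕ}

lemma kil_df (c : Fin N → O) (n : Fin N → ℕ)
    (hc : ∀ i, IsUnit (c i)) (hn : ∀ i, IsUnit ((n i : ℕ) : O)) : KilE (df c n) (∑ j, n j) := by
  intro r F W _ _ i z
  have h1 : n i - 1 ≤ ∑ j, n j :=
    (Nat.sub_le _ _).trans (Finset.single_le_sum (fun j _ => Nat.zero_le (n j)) (Finset.mem_univ i))
  obtain ⟨k, hk⟩ := Nat.exists_eq_add_of_le h1
  rw [hk, add_comm, pow_add, mul_smul, kill c n hc hn F W i z, smul_zero]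

/-- exchange of `φ` and `ψ` -/
def MF.sw {R : Type u} [CommRing R] {f : R} {r : ℕ} (F : MF f r) : MF f r :=
  ⟨F.psi, F.phi, F.psi_phi, F.phi_psi⟩

variable {f : MvPolynomial (Fin N) O} {r s : ℕ} (F : MF f r) (G : MF f s)
  (W : Type u) [AddCommGroup W] [Module (MvPolynomial (Fin N) O) W]

lemma f_smul_cok (v : Cok G.phi) : f • v = 0 := by
  obtain ⟨v, rfl⟩ := Submodule.Quotient.mk_surjective _ v
  rw [← Submodule.Quotient.mk_smul, Submodule.Quotient.mk_eq_zero]
  refine ⟨G.psi.mulVec v, ?_⟩
  show G.phi.mulVec (G.psi.mulVec v) = _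
  rw [Matrix.mulVec_mulVec, G.phi_psi, Matrix.smul_mulVec, Matrix.one_mulVec]

lemma f_smul_quot (S : Submodule (MvPolynomial (Fin N) O) (Cok G.phi)) (w : Cok G.phi ⧸ S) :
    f • w = 0 := by
  obtain ⟨w, rfl⟩ := Submodule.Quotient.mk_surjective _ w
  rw [← Submodule.Quotient.mk_smul, f_smul_cok, Submodule.Quotient.mk_zero]

lemma quot_killed (t : O) (I : Ideal O) (htI : t ∈ I) (w : Cok G.phi ⧸ IV G I) : t • w = 0 := by
  obtain ⟨w, rfl⟩ := Submodule.Quotient.mk_surjective _ w
  rw [← algebraMap_smul (MvPolynomial (Fin N) O) t, ← Submodule.Quotient.mk_smul,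
    Submodule.Quotient.mk_eq_zero]
  exact Submodule.smul_mem_smul (Ideal.mem_map_of_mem _ htI) trivial

lemma hz_of (hW : ∀ w : W, f • w = 0) (w : Fin r → W) :
    mact F.phi W (mact F.psi W w) = 0 := by
  rw [← SpK.mact_mul, F.phi_psi, SpK.mact_smul_one]
  funext a
  exact hW _

end kl

section main

variable {O : Type u} [CommRing O] [IsDomain O] [IsLocalRing O] [IsNoetherianRing O] (t : O)
  (hO : ∀ q : Ideal O, q.IsPrime → q = ⊥ ∨ q = maximalIdeal O) (ht0 : t ≠ 0)
  {N : ℕ} {f : MvPolynomial (Fin N) O} {E : ℕ} (hreg : RegM f) (hK : KilE f E) {r s : ℕ}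
  (F : MF f r) (G : MF f s)

include hO ht0 hK in
lemma fl_HH (W : Type u) [AddCommGroup W] [Module (MvPolynomial (Fin N) O) W] [Module O W]
    [IsScalarTower O (MvPolynomial (Fin N) O) W] [Module.Finite (MvPolynomial (Fin N) O) W]
    (hW : ∀ w : W, t • w = 0) :
    IsFiniteLength (MvPolynomial (Fin N) O) (HH F.phi F.psi W) := by
  have : IsNoetherian (MvPolynomial (Fin N) O) W :=
    isNoetherian_of_isNoetherianRing_of_finite _ W
  have h2 : Module.Finite O (HH F.phi F.psi W) :=
    fin_PO _ E (fun i z => hK r F W i z)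
  have h3 : IsFiniteLength O (HH F.phi F.psi W) := by
    refine fl_of_killed t hO ht0 _ h2 ?_
    intro z
    obtain ⟨⟨z, hz⟩, rfl⟩ := Submodule.Quotient.mk_surjective _ z
    rw [← Submodule.Quotient.mk_smul]
    have h4 : t • (⟨z, hz⟩ : LinearMap.ker (mact F.phi W)) = 0 :=
      Subtype.ext (funext fun a => hW (z a))
    rw [h4, Submodule.Quotient.mk_zero]
  rw [← Module.length_ne_top_iff] at h3 ⊢
  rw [len_PO _ E (fun i z => hK r F W i z)]
  exact h3

include hO ht0 hreg hK in
/-- the three ideals `I : a`, `I`, `I + a` -/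
lemma thW_step (I J : Ideal O) (a : O) (hJ : ∀ b, a * b ∈ I ↔ b ∈ J) (htI : t ∈ I) :
    ThW F.phi F.psi (Cok G.phi ⧸ IV G I) = ThW F.phi F.psi (Cok G.phi ⧸ IV G J)
      + ThW F.phi F.psi (Cok G.phi ⧸ IV G (I ⊔ Ideal.span {a})) := by
  let P := MvPolynomial (Fin N) O
  have hIJ : I ≤ J := fun b hb => (hJ b).mp (I.mul_mem_left a hb)
  have htJ : t ∈ J := hIJ htI
  have htI' : t ∈ I ⊔ Ideal.span {a} := Ideal.mem_sup_left htI
  have hle : IV G J ≤ (IV G I).comap (LinearMap.lsmul P (Cok G.phi) (C a)) := by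
    intro v hv
    obtain ⟨z, hz, rfl⟩ := exists_of_mem_IV G J v hv
    show (C a : P) • (Submodule.Quotient.mk z : Cok G.phi) ∈ IV G I
    rw [← Submodule.Quotient.mk_smul]
    refine mem_IV G I _ fun j => ?_
    rw [Pi.smul_apply, smul_eq_mul, mem_map_C_iff]
    intro m
    rw [coeff_C_mul]
    exact (hJ _).mpr (mem_map_C_iff.mp (hz j) m)
  let fm : (Cok G.phi ⧸ IV G J) →ₗ[P] (Cok G.phi ⧸ IV G I) :=
    Submodule.mapQ _ _ (LinearMap.lsmul P (Cok G.phi) (C a)) hle
  have hle2 : IV G I ≤ IV G (I ⊔ Ideal.span {a}) :=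
    Submodule.smul_mono_left (Ideal.map_mono le_sup_left)
  let g : (Cok G.phi ⧸ IV G I) →ₗ[P] (Cok G.phi ⧸ IV G (I ⊔ Ideal.span {a})) :=
    Submodule.factor hle2
  have hf : Function.Injective fm := by
    rw [injective_iff_map_eq_zero]
    intro x hx
    obtain ⟨v, rfl⟩ := Submodule.Quotient.mk_surjective _ x
    have h1 : (Submodule.Quotient.mk ((C a : P) • v) : Cok G.phi ⧸ IV G I) = 0 := hx
    rw [Submodule.Quotient.mk_eq_zero] at h1 ⊢
    exact colon_IV G hreg I J a (fun b hb => (hJ b).mp hb) v h1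
  have hg : Function.Surjective g := by
    intro y
    obtain ⟨v, rfl⟩ := Submodule.Quotient.mk_surjective _ y
    exact ⟨Submodule.Quotient.mk v, rfl⟩
  have hfg : Function.Exact fm g := by
    intro x
    obtain ⟨v, rfl⟩ := Submodule.Quotient.mk_surjective _ x
    have h1 : g (Submodule.Quotient.mk v) = 0 ↔ v ∈ IV G (I ⊔ Ideal.span {a}) :=
      Submodule.Quotient.mk_eq_zero _
    rw [h1]
    constructor
    · intro hv
      obtain ⟨z, hz, rfl⟩ := exists_of_mem_IV G _ v hv
      have h5 : ∀ j, ∃ p q, p ∈ I.map (C : O →+* MvPolynomial (Fin N) O) ∧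
          z j = p + C a * q := by
        intro j
        have h6 := hz j
        rw [Ideal.map_sup, Ideal.map_span, Set.image_singleton, Submodule.mem_sup] at h6
        obtain ⟨p, hp, q, hq, hpq⟩ := h6
        obtain ⟨q', hq'⟩ := Ideal.mem_span_singleton'.mp hq
        exact ⟨p, q', hp, by rw [← hpq, ← hq', mul_comm]⟩
      choose p q hp hpq using h5
      refine ⟨Submodule.Quotient.mk (Submodule.Quotient.mk q), ?_⟩
      show (Submodule.Quotient.mk ((C a : P) • (Submodule.Quotient.mk q : Cok G.phi)) :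
        Cok G.phi ⧸ IV G I) = Submodule.Quotient.mk (Submodule.Quotient.mk z)
      rw [Submodule.Quotient.eq, ← Submodule.Quotient.mk_smul, ← Submodule.Quotient.mk_sub]
      refine mem_IV G I _ fun j => ?_
      rw [Pi.sub_apply, Pi.smul_apply, smul_eq_mul, hpq]
      have : C a * q j - (p j + C a * q j) = - p j := by ring
      rw [this]
      exact Ideal.neg_mem_iff _ |>.mpr (hp j)
    · rintro ⟨y, hy⟩
      obtain ⟨y, rfl⟩ := Submodule.Quotient.mk_surjective _ y
      have hy' : (Submodule.Quotient.mk ((C a : P) • y) : Cok G.phi ⧸ IV G I)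
        = Submodule.Quotient.mk v := hy
      rw [Submodule.Quotient.eq] at hy'
      have h2 : v = (C a : P) • y - ((C a : P) • y - v) := by abel
      rw [h2]
      refine Submodule.sub_mem _ ?_ (hle2 hy')
      refine Submodule.smul_mem_smul ?_ trivial
      exact Ideal.mem_map_of_mem _ (Ideal.mem_sup_right (Ideal.mem_span_singleton_self a))
  exact thW_ses F.phi F.psi fm g hf hfg hg
    (hz_of F _ (f_smul_quot G _)) (hz_of F.sw _ (f_smul_quot G _))
    (fl_HH t hO ht0 hK F _ (quot_killed G t J htJ))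
    (fl_HH t hO ht0 hK F.sw _ (quot_killed G t J htJ))
    (fl_HH t hO ht0 hK F _ (quot_killed G t I htI))
    (fl_HH t hO ht0 hK F.sw _ (quot_killed G t I htI))
    (fl_HH t hO ht0 hK F _ (quot_killed G t _ htI'))
    (fl_HH t hO ht0 hK F.sw _ (quot_killed G t _ htI'))

include hO ht0 hreg hK in
/-- vanishing for all ideals containing `t` -/
theorem thW_zero (h0 : ThW F.phi F.psi (Cok G.phi ⧸ IV G (maximalIdeal O)) = 0)
    (I : Ideal O) : t ∈ I → ThW F.phi F.psi (Cok G.phi ⧸ IV G I) = 0 := by
  induction I using WellFoundedGT.induction with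
  | ind I ih =>
    intro htI
    by_cases hp : I.IsPrime
    · have hIm := prime_eq_of_mem t hO ht0 I hp htI
      rw [hIm]
      exact h0
    · by_cases htop : I = ⊤
      · have : Subsingleton (Cok G.phi ⧸ IV G I) := by
          refine ⟨fun x y => ?_⟩
          obtain ⟨x, rfl⟩ := Submodule.Quotient.mk_surjective _ x
          obtain ⟨y, rfl⟩ := Submodule.Quotient.mk_surjective _ y
          rw [Submodule.Quotient.eq, ← one_smul (MvPolynomial (Fin N) O) (x - y)]
          refine Submodule.smul_mem_smul ?_ trivial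
          rw [htop, Ideal.map_top]
          trivial
        exact thW_subsingleton F.phi F.psi _
      · rw [Ideal.isPrime_iff] at hp
        push Not at hp
        obtain ⟨a, b, hab, ha, hb⟩ := hp htop
        let J : Ideal O := Submodule.comap (LinearMap.lsmul O O a) I
        have hJ : ∀ b, a * b ∈ I ↔ b ∈ J := fun b => Iff.rfl
        have hIJ : I ≤ J := fun b hb => (hJ b).mp (I.mul_mem_left a hb)
        have h1 : I < J := lt_of_le_of_ne hIJ fun h => hb (by rw [h]; exact hab)
        have h2 : I < I ⊔ Ideal.span {a} := by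
          refine lt_of_le_of_ne le_sup_left fun h => ha ?_
          rw [h]
          exact Ideal.mem_sup_right (Ideal.mem_span_singleton_self a)
        rw [thW_step t hO ht0 hreg hK F G I J a hJ htI, ih J h1 (hIJ htI),
          ih _ h2 (Ideal.mem_sup_left htI), add_zero]

end main

section res

variable {O : Type u} [CommRing O] [IsLocalRing O] {N : ℕ} {f : MvPolynomial (Fin N) O}
  {r s : ℕ} (F : MF f r) (G : MF f s)

/-- reduction of vectors modulo the maximal ideal -/
noncomputable def redV (O : Type u) [CommRing O] [IsLocalRing O] (N s : ℕ) :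
    (Fin s → MvPolynomial (Fin N) O) →ₛₗ[MvPolynomial.map (σ := Fin N) (residue O)]
      (Fin s → MvPolynomial (Fin N) (ResidueField O)) where
  toFun x := fun j => MvPolynomial.map (residue O) (x j)
  map_add' x y := funext fun j => map_add _ _ _
  map_smul' a x := funext fun j => map_mul _ _ _

lemma redV_mulVec (A : Matrix (Fin s) (Fin s) (MvPolynomial (Fin N) O))
    (w : Fin s → MvPolynomial (Fin N) O) :
    redV O N s (A.mulVec w) = (A.map (MvPolynomial.map (residue O))).mulVec (redV O N s w) :=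
  funext fun j => RingHom.map_mulVec (MvPolynomial.map (residue O)) A w j

/-- reduction of the cokernel -/
noncomputable def redCok : Cok G.phi →ₛₗ[MvPolynomial.map (σ := Fin N) (residue O)]
    Cok (G.map (MvPolynomial.map (residue O))).phi :=
  Submodule.mapQ _ _ (redV O N s) (by
    rintro _ ⟨w, rfl⟩
    exact ⟨redV O N s w, (redV_mulVec G.phi w).symm⟩)

noncomputable def redCokQ : (Cok G.phi ⧸ IV G (maximalIdeal O))
    →ₛₗ[MvPolynomial.map (σ := Fin N) (residue O)] Cok (G.map (MvPolynomial.map (residue O))).phi :=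
  Submodule.liftQ _ (redCok G) (by
    intro v hv
    obtain ⟨z, hz, rfl⟩ := exists_of_mem_IV G _ v hv
    show (Submodule.Quotient.mk (redV O N s z) :
      Cok (G.map (MvPolynomial.map (residue O))).phi) = 0
    have : redV O N s z = 0 := by
      funext j
      show MvPolynomial.map (residue O) (z j) = 0
      ext m
      rw [coeff_map, coeff_zero, residue_eq_zero_iff]
      exact mem_map_C_iff.mp (hz j) m
    rw [this, Submodule.Quotient.mk_zero])

lemma map_residue_surj : Function.Surjective (MvPolynomial.map (σ := Fin N) (residue O)) :=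
  MvPolynomial.map_surjective _ residue_surjective

lemma redCokQ_bij : Function.Bijective (redCokQ G) := by
  constructor
  · rw [injective_iff_map_eq_zero]
    intro x hx
    obtain ⟨v, rfl⟩ := Submodule.Quotient.mk_surjective _ x
    obtain ⟨z, rfl⟩ := Submodule.Quotient.mk_surjective _ v
    have h1 : (Submodule.Quotient.mk (redV O N s z) :
      Cok (G.map (MvPolynomial.map (residue O))).phi) = 0 := hx
    rw [Submodule.Quotient.mk_eq_zero] at h1 ⊢
    obtain ⟨w, hw⟩ := h1
    choose w' hw' using fun j => map_residue_surj (O := O) (N := N) (w j)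
    have hw2 : redV O N s w' = w := funext hw'
    have h2 : redV O N s (z - G.phi.mulVec w') = 0 := by
      rw [map_sub, redV_mulVec, hw2, ← hw]
      exact sub_self _
    have h3 : (Submodule.Quotient.mk z : Cok G.phi)
        = Submodule.Quotient.mk (z - G.phi.mulVec w') := by
      rw [Submodule.Quotient.eq]
      refine ⟨w', ?_⟩
      show G.phi.mulVec w' = z - (z - G.phi.mulVec w')
      abel
    rw [h3]
    refine mem_IV G _ _ fun j => ?_
    rw [mem_map_C_iff]
    intro m
    have h4 : MvPolynomial.map (residue O) ((z - G.phi.mulVec w') j) = 0 := congrFun h2 j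
    rw [← residue_eq_zero_iff, ← coeff_map, h4, coeff_zero]
  · intro y
    obtain ⟨y, rfl⟩ := Submodule.Quotient.mk_surjective _ y
    choose y' hy' using fun j => map_residue_surj (O := O) (N := N) (y j)
    have hy2 : redV O N s y' = y := funext hy'
    refine ⟨Submodule.Quotient.mk (Submodule.Quotient.mk y'), ?_⟩
    show (Submodule.Quotient.mk (redV O N s y') :
      Cok (G.map (MvPolynomial.map (residue O))).phi) = _
    rw [hy2]

/-- the residue case -/
lemma thW_residue : ThW F.phi F.psi (Cok G.phi ⧸ IV G (maximalIdeal O))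
    = hd (F.map (MvPolynomial.map (residue O))) (G.map (MvPolynomial.map (residue O))) := by
  have : RingHomSurjective (MvPolynomial.map (σ := Fin N) (residue O)) := ⟨map_residue_surj⟩
  unfold ThW ln hd
  rw [len_HH_semi (MvPolynomial.map (residue O)) F.phi F.psi (redCokQ G) (redCokQ_bij G),
    len_HH_semi (MvPolynomial.map (residue O)) F.psi F.phi (redCokQ G) (redCokQ_bij G)]
  rfl

end res

section tor

variable {O : Type u} [CommRing O] [IsDomain O] [IsLocalRing O] [IsNoetherianRing O]

/-- specialisation over a one-dimensional local domain, ranks -/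
theorem rank_local (hO : ∀ q : Ideal O, q.IsPrime → q = ⊥ ∨ q = maximalIdeal O)
    (hm : maximalIdeal O ≠ ⊥) {N : ℕ} {f : MvPolynomial (Fin N) O} {E : ℕ} (hreg : RegM f)
    (hK : KilE f E) {r s : ℕ} (F : MF f r) (G : MF f s)
    (h0 : hd (F.map (MvPolynomial.map (residue O))) (G.map (MvPolynomial.map (residue O))) = 0) :
    Module.finrank O (HH F.phi F.psi (Cok G.phi)) = Module.finrank O (HH F.psi F.phi (Cok G.phi)) := by
  obtain ⟨t, htm, ht0⟩ := Submodule.exists_mem_ne_zero_of_ne_bot hm
  have h1 : ThW F.phi F.psi (Cok G.phi ⧸ IV G (Ideal.span {t})) = 0 := by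
    refine thW_zero t hO ht0 hreg hK F G ?_ _ (Ideal.mem_span_singleton_self t)
    rw [thW_residue]
    exact h0
  have h2 : IV G (Ideal.span {t})
      = LinearMap.range (LinearMap.lsmul (MvPolynomial (Fin N) O) (Cok G.phi) (C t)) := by
    ext v
    unfold IV
    rw [Ideal.map_span, Set.image_singleton, Submodule.ideal_span_singleton_smul,
      Submodule.mem_smul_pointwise_iff_exists]
    constructor
    · rintro ⟨b, _, hb⟩
      exact ⟨b, hb⟩
    · rintro ⟨b, hb⟩
      exact ⟨b, trivial, hb⟩
  rw [h2] at h1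
  have h3 := spec_t t hO ht0 htm (Cok G.phi) F.phi F.psi
    (hz_of F _ (f_smul_cok G)) (hz_of F.sw _ (f_smul_cok G)) (by
      intro v hv
      have h4 := colon_IV G hreg ⊥ ⊥ t (fun b hb => by
        rw [Ideal.mem_bot] at hb ⊢
        exact (mul_eq_zero.mp hb).resolve_left ht0) v (by
        rw [hv]
        exact Submodule.zero_mem _)
      unfold IV at h4
      rw [Ideal.map_bot, Submodule.bot_smul] at h4
      exact h4) E
    (fun i z => hK _ F _ i z) (fun i z => hK _ F.sw _ i z)
    (fun i z => hK _ F _ i z) (fun i z => hK _ F.sw _ i z)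
  have h4 := ln_t_pos t hO ht0 htm
  have h6 : ln O (O ⧸ Ideal.span {t}) *
      ((Module.finrank O (HH F.phi F.psi (Cok G.phi)) : ℤ)
        - Module.finrank O (HH F.psi F.phi (Cok G.phi))) = 0 := h3.symm.trans h1
  have h7 := (mul_eq_zero.mp h6).resolve_left h4.ne'
  exact_mod_cast sub_eq_zero.mp h7

end tor

section final

/-- the rank of a base change to a field containing the domain -/
lemma finrank_field {O K : Type u} [CommRing O] [IsDomain O] [Field K] [Algebra O K]
    (hinj : Function.Injective (algebraMap O K)) (H : Type u) [AddCommGroup H] [Module O H] :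
    Module.finrank K (K ⊗[O] H) = Module.finrank O H := by
  have : FaithfulSMul O K := (faithfulSMul_iff_algebraMap_injective O K).mpr hinj
  let := FractionRing.liftAlgebra O K
  have h1 : Module.finrank (FractionRing O) (FractionRing O ⊗[O] H) = Module.finrank O H := by
    rw [IsLocalization.finrank_eq (R := O) (FractionRing O) (nonZeroDivisors O) le_rfl]
    exact IsLocalizedModule.finrank_eq (nonZeroDivisors O)
      (TensorProduct.mk O (FractionRing O) H 1) le_rfl
  rw [← h1, ← Module.finrank_baseChange (R := K) (S := FractionRing O)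
    (M' := FractionRing O ⊗[O] H)]
  exact (TensorProduct.AlgebraTensorModule.cancelBaseChange O (FractionRing O) K K H).symm.finrank_eq

lemma flat_field {O K : Type u} [CommRing O] [IsDomain O] [Field K] [Algebra O K]
    (hinj : Function.Injective (algebraMap O K)) : Module.Flat O K := by
  have : FaithfulSMul O K := (faithfulSMul_iff_algebraMap_injective O K).mpr hinj
  let := FractionRing.liftAlgebra O K
  exact Module.Flat.trans O (FractionRing O) K

end final

end Pool.Agent.HT51
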