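import Pool.Agent.HT51.SpHex
import Pool.Agent.HT51.K1

/-!
# Diagonal forms over a commutative ring, matrix factorisations, and the difference `hd`
-/

universe u

namespace Pool.Agent.HT51

open MvPolynomial

/-- The form `∑ c i * X i ^ n i` over any commutative ring. -/
noncomputable def gform (O : Type u) [CommRing O] {N : ℕ} (c : Fin N → O) (n : Fin N → ℕ) :
    MvPolynomial (Fin N) O := ∑ i, C (c i) * X i ^ n i

lemma map_gform {O O' : Type u} [CommRing O] [CommRing O'] (h : O →+* O') {N : ℕ} (c : Fin N → O)
    (n : Fin N → ℕ) : MvPolynomial.map h (gform O c n) = gform O' (fun i => h (c i)) n := by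
  unfold gform
  rw [map_sum]
  refine Finset.sum_congr rfl fun i _ => ?_
  rw [map_mul, map_pow, map_C, map_X]

/-- Base change of a matrix factorisation of `gform`. -/
noncomputable def MF.mapO {O O' : Type u} [CommRing O] [CommRing O'] (h : O →+* O') {N : ℕ}
    {c : Fin N → O} {n : Fin N → ℕ} {r : ℕ} (F : MF (gform O c n) r) :
    MF (gform O' (fun i => h (c i)) n) r where
  phi := F.phi.map (MvPolynomial.map h)
  psi := F.psi.map (MvPolynomial.map h)
  phi_psi := by
    rw [← Matrix.map_mul, F.phi_psi, ← map_gform]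
    funext a b
    simp only [Matrix.map_apply, Matrix.smul_apply, smul_eq_mul, map_mul]
    congr 1
    by_cases hab : a = b
    · subst hab; rw [Matrix.one_apply_eq, Matrix.one_apply_eq, map_one]
    · rw [Matrix.one_apply_ne hab, Matrix.one_apply_ne hab, map_zero]
  psi_phi := by
    rw [← Matrix.map_mul, F.psi_phi, ← map_gform]
    funext a b
    simp only [Matrix.map_apply, Matrix.smul_apply, smul_eq_mul, map_mul]
    congr 1
    by_cases hab : a = b
    · subst hab; rw [Matrix.one_apply_eq, Matrix.one_apply_eq, map_one]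
    · rw [Matrix.one_apply_ne hab, Matrix.one_apply_ne hab, map_zero]

/-- `matLin` of a matrix over `O[X]` as an `O`-linear map. -/
noncomputable def matO {O : Type u} [CommRing O] {N r : ℕ} (A : Matrix (Fin r) (Fin r) (MvPolynomial (Fin N) O))
    (V : Type u) [AddCommGroup V] [Module O V] [Module (MvPolynomial (Fin N) O) V]
    [IsScalarTower O (MvPolynomial (Fin N) O) V] : (Fin r → V) →ₗ[O] (Fin r → V) :=
  (matLin A V).restrictScalars O

/-- `dim ker φ_V / im ψ_V - dim ker ψ_V / im φ_V`, `V = Cok G.phi`. -/
noncomputable def hdk (k : Type u) [Field k] {N : ℕ} {c : Fin N → k} {n : Fin N → ℕ} {r s : ℕ}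
    (F : MF (gform k c n) r) (G : MF (gform k c n) s) : ℤ :=
  (Module.finrank k (Hm (matO F.phi (Cok G.phi)) (matO F.psi (Cok G.phi))) : ℤ)
    - Module.finrank k (Hm (matO F.psi (Cok G.phi)) (matO F.phi (Cok G.phi)))

end Pool.Agent.HT51
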