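import Pool.Agent.HT51.SpR
import Pool.Agent.HT51.SpT
import Pool.Agent.HT51.SpH
import Pool.Agent.HT51.SpK

/-!
# `hd = 0` over a finite field
-/

universe u

namespace Pool.Agent.HT51

open MvPolynomial Pool.Agent.HT21

lemma df_ne_zero {k : Type u} [CommRing k] {N : ℕ} (c : Fin N → k) (n : Fin N → ℕ) (i : Fin N)
    (hc : c i ≠ 0) (hn : ∀ i, n i ≠ 0) : df c n ≠ 0 := by
  classical
  intro h
  have h1 := congrArg (coeff (Finsupp.single i (n i))) h
  rw [coeff_zero] at h1
  unfold df at h1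
  rw [coeff_sum, Finset.sum_eq_single i] at h1
  · rw [coeff_C_mul, coeff_X_pow, if_pos rfl, mul_one] at h1
    exact hc h1
  · intro j _ hj
    rw [coeff_C_mul, coeff_X_pow, if_neg, mul_zero]
    intro h2
    rcases (Finsupp.single_eq_single_iff _ _ _ _).mp h2 with h3 | h3
    · exact hj h3.1
    · exact hn j h3.1
  · intro h2
    exact absurd (Finset.mem_univ _) h2

/-- `HH` vanishes on the ring itself. -/
lemma HH_self {R : Type u} [CommRing R] [IsDomain R] {f : R} (hf : f ≠ 0) {r : ℕ} (F : MF f r) :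
    Subsingleton (HH (F.phi.map (Ideal.Quotient.mk (Ideal.span {f})))
      (F.psi.map (Ideal.Quotient.mk (Ideal.span {f}))) (R ⧸ Ideal.span {f})) := by
  refine ⟨fun x y => ?_⟩
  have h0 : ∀ x : HH (F.phi.map (Ideal.Quotient.mk (Ideal.span {f})))
      (F.psi.map (Ideal.Quotient.mk (Ideal.span {f}))) (R ⧸ Ideal.span {f}), x = 0 := by
    intro x
    obtain ⟨⟨v, hv⟩, rfl⟩ := Submodule.Quotient.mk_surjective _ x
    rw [Submodule.Quotient.mk_eq_zero]
    have hv' : (F.phi.map (Ideal.Quotient.mk (Ideal.span {f}))).mulVec v = 0 := by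
      rw [← mact_self]
      exact hv
    obtain ⟨w, hw⟩ := (F.exact hf v).mp hv'
    refine ⟨w, ?_⟩
    rw [mact_self]
    exact hw
  rw [h0 x, h0 y]

/-- An additive function from a matrix factorisation over `k[X]/(f)`. -/
theorem herb_mf {k : Type u} [Field k] {N : ℕ} (c : Fin N → k) (n : Fin N → ℕ)
    (hc : ∀ i, c i ≠ 0) (hn : ∀ i, ((n i : ℕ) : k) ≠ 0) (hf : df c n ≠ 0) {r : ℕ}
    (F : MF (df c n) r) :
    ∃ nu : AddFn (MvPolynomial (Fin N) k ⧸ Ideal.span {df c n}),
      nu.val (MvPolynomial (Fin N) k ⧸ Ideal.span {df c n}) = 0 ∧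
      ∀ (W : Type u) [AddCommGroup W] [Module (MvPolynomial (Fin N) k ⧸ Ideal.span {df c n}) W],
      nu.val W = ((Module.length (MvPolynomial (Fin N) k ⧸ Ideal.span {df c n})
          (HH (F.phi.map (Ideal.Quotient.mk (Ideal.span {df c n})))
            (F.psi.map (Ideal.Quotient.mk (Ideal.span {df c n}))) W)).toNat : ℂ) -
        ((Module.length (MvPolynomial (Fin N) k ⧸ Ideal.span {df c n})
          (HH (F.psi.map (Ideal.Quotient.mk (Ideal.span {df c n})))
            (F.phi.map (Ideal.Quotient.mk (Ideal.span {df c n}))) W)).toNat : ℂ) := by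
  set π : MvPolynomial (Fin N) k →+* MvPolynomial (Fin N) k ⧸ Ideal.span {df c n} :=
    Ideal.Quotient.mk (Ideal.span {df c n}) with hπ
  have hπs : Function.Surjective π := Ideal.Quotient.mk_surjective
  have hf0 : π (df c n) = 0 := Ideal.Quotient.eq_zero_iff_mem.mpr (Ideal.subset_span rfl)
  have h12 : ∀ (A B : Matrix (Fin r) (Fin r) (MvPolynomial (Fin N) k)),
      A * B = (df c n) • (1 : Matrix (Fin r) (Fin r) (MvPolynomial (Fin N) k)) →
      A.map π * B.map π = 0 := by
    intro A B h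
    rw [← Matrix.map_mul, h]
    ext a b
    rw [Matrix.map_apply, Matrix.smul_apply, smul_eq_mul, map_mul, hf0, zero_mul]
    rfl
  have hlen : ∀ (F : MF (df c n) r) (W : Type u) [AddCommGroup W]
      [Module (MvPolynomial (Fin N) k ⧸ Ideal.span {df c n}) W]
      [Module.Finite (MvPolynomial (Fin N) k ⧸ Ideal.span {df c n}) W],
      Module.length (MvPolynomial (Fin N) k ⧸ Ideal.span {df c n})
        (HH (F.phi.map π) (F.psi.map π) W) ≠ ⊤ := by
    intro F W _ _ _
    rw [← HH_length_res π hπs F.phi F.psi W]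
    have hfin : Module.Finite (MvPolynomial (Fin N) k) (Res π W) :=
      res_finite π (RingHom.Finite.of_surjective _ hπs)
    exact hh_length c n hc hn F (Res π W)
  obtain ⟨nu, hnu⟩ := herb (F.phi.map π) (F.psi.map π) (h12 _ _ F.phi_psi) (h12 _ _ F.psi_phi)
    (fun W _ _ _ => ⟨hlen F W, hlen F.swap W⟩)
  refine ⟨nu, ?_, hnu⟩
  rw [hnu]
  have s1 := HH_self hf F
  have s2 := HH_self hf F.swap
  have e1 : Module.length (MvPolynomial (Fin N) k ⧸ Ideal.span {df c n})
      (HH (F.phi.map π) (F.psi.map π) (MvPolynomial (Fin N) k ⧸ Ideal.span {df c n})) = 0 :=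
    Module.length_eq_zero
  have e2 : Module.length (MvPolynomial (Fin N) k ⧸ Ideal.span {df c n})
      (HH (F.psi.map π) (F.phi.map π) (MvPolynomial (Fin N) k ⧸ Ideal.span {df c n})) = 0 :=
    Module.length_eq_zero_iff.mpr s2
  rw [e1, e2, sub_self]

/-- `hd` in terms of the additive function. -/
lemma hd_eq_quot {R : Type u} [CommRing R] {f : R} {r s : ℕ} (F : MF f r) (G : MF f s) :
    hd F G = ((Module.length (R ⧸ Ideal.span {f})
        (HH (F.phi.map (Ideal.Quotient.mk (Ideal.span {f})))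
          (F.psi.map (Ideal.Quotient.mk (Ideal.span {f})))
          (Cok (G.phi.map (Ideal.Quotient.mk (Ideal.span {f})))))).toNat : ℤ) -
      ((Module.length (R ⧸ Ideal.span {f})
        (HH (F.psi.map (Ideal.Quotient.mk (Ideal.span {f})))
          (F.phi.map (Ideal.Quotient.mk (Ideal.span {f})))
          (Cok (G.phi.map (Ideal.Quotient.mk (Ideal.span {f})))))).toNat : ℤ) := by
  unfold hd
  rw [HH_length_cok F.phi F.psi G, HH_length_cok F.psi F.phi G]

theorem hd_finite (hG : G0.{u}) (k : Type u) [Field k] [Finite k] {N : ℕ} (hN : Odd N)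
    (c : Fin N → k) (n : Fin N → ℕ) (hc : ∀ i, c i ≠ 0) (hn : ∀ i, ((n i : ℕ) : k) ≠ 0)
    {r s : ℕ} (F : MF (df c n) r) (G : MF (df c n) s) : hd F G = 0 := by
  have hN0 : 0 < N := hN.pos
  have hn0 : ∀ i, n i ≠ 0 := by
    intro i h
    refine hn i ?_
    rw [h, Nat.cast_zero]
  have hf : df c n ≠ 0 := df_ne_zero c n ⟨0, hN0⟩ (hc _) hn0
  obtain ⟨nu, h0, hnu⟩ := herb_mf c n hc hn hf F
  have hz : ZeroProp (MvPolynomial (Fin N) k ⧸ Ideal.span {df c n}) :=
    zp_finite hG k hN n hn c hc (Ideal.Quotient.mkₐ k (Ideal.span {df c n}))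
      Ideal.Quotient.mk_surjective Ideal.mk_ker
  have h1 := hz nu h0 (Cok (G.phi.map (Ideal.Quotient.mk (Ideal.span {df c n}))))
  rw [hnu] at h1
  rw [hd_eq_quot]
  have h2 := sub_eq_zero.mp h1
  have h3 := Nat.cast_injective (R := ℂ) h2
  rw [h3, sub_self]

end Pool.Agent.HT51
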