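import Pool.Agent.HT51.SpDefs
import Pool.Agent.HT51.SpT
import Pool.Agent.HT51.SpL
import Pool.Agent.HT51.SpK
import Pool.Agent.HT51.SpF

/-!
# The difference of the lengths does not change under an extension of fields
-/

universe u

namespace Pool.Agent.HT51

open MvPolynomial Pool.Agent.HT21 TensorProduct

/-- **(SpF.2)** invariance under extension of fields. -/
theorem hd_field {k K : Type u} [Field k] [Field K] (j : k →+* K) {N : ℕ}
    (c : Fin N → k) (n : Fin N → ℕ) (hc : ∀ i, c i ≠ 0) (hn : ∀ i, ((n i : ℕ) : k) ≠ 0)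
    {r s : ℕ} (F : MF (df c n) r) (G : MF (df c n) s) :
    hd (F.map (MvPolynomial.map j)) (G.map (MvPolynomial.map j)) = hd F G := by
  let _ : Algebra k K := j.toAlgebra
  have hc' : ∀ i, IsUnit (c i) := fun i => (hc i).isUnit
  have hn' : ∀ i, IsUnit ((n i : ℕ) : k) := fun i => (hn i).isUnit
  have key : ∀ {r : ℕ} (F : MF (df c n) r),
      Module.length (MvPolynomial (Fin N) K) (HH (F.map (MvPolynomial.map j)).phi
        (F.map (MvPolynomial.map j)).psi (Cok (G.map (MvPolynomial.map j)).phi)) =
      Module.length (MvPolynomial (Fin N) k) (HH F.phi F.psi (Cok G.phi)) := by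
    intro r F
    have h1 := len_base (T := k) (K := K) c n hc' hn' F G
    have := hh_finite c n hc' hn' F G
    have h2 := length_eq_finrank_of_pow (k := k) (N := N) (M := HH F.phi F.psi (Cok G.phi))
      (fun i => ⟨n i - 1, fun z => kill c n hc' hn' F (Cok G.phi) i z⟩)
    rw [h2, ← Module.finrank_baseChange (R := K)]
    exact h1
  unfold hd
  rw [key F]
  congr 2
  exact congrArg ENat.toNat (key F.swap)

end Pool.Agent.HT51
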