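import Pool.Agent.HT51.SpHex
import Pool.Agent.HT51.K2

/-!
# Euler characteristic of a `2`-periodic complex; Herbrand quotient of an element of a
one-dimensional local domain
-/

universe u

namespace Pool.Agent.HT51

open IsLocalRing

section euler

variable {R : Type u} [CommRing R]
variable {L M N : Type u} [AddCommGroup L] [Module R L] [AddCommGroup M] [Module R M]
  [AddCommGroup N] [Module R N]
variable {φL ψL : L →ₗ[R] L} {φM ψM : M →ₗ[R] M} {φN ψN : N →ₗ[R] N}
  (i : L →ₗ[R] M) (p : M →ₗ[R] N) (hi : Function.Injective i) (hp : Function.Surjective p)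
  (hip : Function.Exact i p) (hiφ : ∀ x, i (φL x) = φM (i x)) (hiψ : ∀ x, i (ψL x) = ψM (i x))
  (hpφ : ∀ x, p (φM x) = φN (p x)) (hpψ : ∀ x, p (ψM x) = ψN (p x))
  (h0 : ∀ x, φM (ψM x) = 0) (h1 : ∀ x, ψM (φM x) = 0)

/-- The Euler characteristic of the `2`-periodic complex `(φ, ψ)`. -/
noncomputable def th (φ ψ : M →ₗ[R] M) : ℤ := ln R (Hm φ ψ) - ln R (Hm ψ φ)

include hi hp hip hiφ hiψ hpφ hpψ h0 h1 in
theorem th_add (fL0 : IsFiniteLength R (Hm φL ψL)) (fL1 : IsFiniteLength R (Hm ψL φL))
    (fM0 : IsFiniteLength R (Hm φM ψM)) (fM1 : IsFiniteLength R (Hm ψM φM))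
    (fN0 : IsFiniteLength R (Hm φN ψN)) (fN1 : IsFiniteLength R (Hm ψN φN)) :
    th φM ψM = th φL ψL + th φN ψN := by
  have e0 := hex i p hi hp hip hiφ hiψ hpφ hpψ h0 h1 fN0
  have e1 := hex i p hi hp hip hiψ hiφ hpψ hpφ h1 h0 fN1
  have g0 := ln_sub_quot fM0 (LinearMap.range (Hmap (φL := φL) (ψL := ψL) (φM := φM) (ψM := ψM)
    i hiφ hiψ))
  have g1 := ln_sub_quot fM1 (LinearMap.range (Hmap (φL := ψL) (ψL := φL) (φM := ψM) (ψM := φM)
    i hiψ hiφ))
  have k0 := ln_ker_range fL0 (Hmap (φL := φL) (ψL := ψL) (φM := φM) (ψM := ψM) i hiφ hiψ)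
  have k1 := ln_ker_range fL1 (Hmap (φL := ψL) (ψL := φL) (φM := ψM) (ψM := φM) i hiψ hiφ)
  unfold th
  rw [e0, e1, g0, g1, k0, k1]
  ring

end euler

section et

variable {O : Type u} [CommRing O] (t : O)
variable (H : Type u) [AddCommGroup H] [Module O H]

/-- multiplication by `t` -/
abbrev mulT (t : O) (H : Type u) [AddCommGroup H] [Module O H] : H →ₗ[O] H := LinearMap.lsmul O H t

/-- `length (H/tH) - length (H[t])`. -/
noncomputable def et : ℤ := ln O (H ⧸ LinearMap.range (mulT t H)) - ln O (LinearMap.ker (mulT t H))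

/-- `Hm t 0 = ker t` -/
noncomputable def hmKer : Hm (mulT t H) (0 : H →ₗ[O] H) ≃ₗ[O] LinearMap.ker (mulT t H) :=
  Submodule.quotEquivOfEqBot _ (by
    rw [eq_bot_iff]
    rintro ⟨x, hx⟩ ⟨y, hy⟩
    exact Subtype.ext hy.symm)

/-- `Hm 0 t = H / t H` -/
noncomputable def hmCok : Hm (0 : H →ₗ[O] H) (mulT t H) ≃ₗ[O] H ⧸ LinearMap.range (mulT t H) :=
  Submodule.Quotient.equiv _ _ (LinearEquiv.ofTop (LinearMap.ker (0 : H →ₗ[O] H))
    LinearMap.ker_zero) (by
    ext x
    constructor
    · rintro ⟨y, hy, rfl⟩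
      exact hy
    · intro hx
      exact ⟨⟨x, by rw [LinearMap.mem_ker]; rfl⟩, hx, rfl⟩)

lemma et_eq : et t H = - th (mulT t H) (0 : H →ₗ[O] H) := by
  unfold et th
  rw [ln_congr (hmKer t H), ln_congr (hmCok t H)]
  ring

end et

section loc

variable {O : Type u} [CommRing O] [IsDomain O] [IsLocalRing O] [IsNoetherianRing O] (t : O)
  (hO : ∀ q : Ideal O, q.IsPrime → q = ⊥ ∨ q = maximalIdeal O) (ht0 : t ≠ 0)
  (htm : t ∈ maximalIdeal O)

include hO ht0 in
lemma prime_eq_of_mem (p : Ideal O) (hp : p.IsPrime) (ht : t ∈ p) : p = maximalIdeal O := by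
  rcases hO p hp with h | h
  · rw [h] at ht
    exact absurd ((Submodule.mem_bot O).mp ht) ht0
  · exact h

include hO ht0 in
/-- finite modules killed by `t` have finite length -/
lemma fl_of_killed (H : Type u) [AddCommGroup H] [Module O H] (hH : Module.Finite O H)
    (hk : ∀ x : H, t • x = 0) : IsFiniteLength O H := by
  have key : (∀ x : H, t • x = 0) → IsFiniteLength O H := by
    refine IsNoetherianRing.induction_on_isQuotientEquivQuotientPrime (A := O) hH
      (motive := fun N _ _ _ => (∀ x : N, t • x = 0) → IsFiniteLength O N) ?_ ?_ ?_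
    · intro N _ _ _ _ _
      exact IsFiniteLength.of_subsingleton
    · intro N _ _ _ p e hN
      have htp : t ∈ p.1 := by
        have h1 := hN (e.symm (Ideal.Quotient.mk p.1 1))
        rw [← map_smul, e.symm.map_eq_zero_iff] at h1
        rw [← Ideal.Quotient.mk_eq_mk, ← Submodule.Quotient.mk_smul,
          Submodule.Quotient.mk_eq_zero, smul_eq_mul, mul_one] at h1
        exact h1
      have hpm := prime_eq_of_mem t hO ht0 p.1 p.2 htp
      have hs : IsSimpleModule O (O ⧸ p.1) := by
        rw [hpm]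
        exact isSimpleModule_iff_isCoatom.mpr (maximalIdeal.isMaximal O).out
      have hl : Module.length O N ≠ ⊤ := by
        rw [e.length_eq, Module.length_eq_one]
        exact ENat.one_ne_top
      exact Module.length_ne_top_iff.mp hl
    · intro L _ _ _ M _ _ _ N _ _ _ f g hf hg hfg hL hN hM
      have h1 : IsFiniteLength O L := hL (fun x => hf (by rw [map_smul, hM, map_zero]))
      have h2 : IsFiniteLength O N := hN (fun x => by
        obtain ⟨y, rfl⟩ := hg x
        rw [← map_smul, hM, map_zero])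
      rw [← Module.length_ne_top_iff] at h1 h2 ⊢
      rw [Module.length_eq_add_of_exact f g hf hg hfg]
      exact WithTop.add_ne_top.mpr ⟨h1, h2⟩
  exact key hk

variable (H : Type u) [AddCommGroup H] [Module O H]

include hO ht0 in
lemma fl_ker [Module.Finite O H] : IsFiniteLength O (LinearMap.ker (mulT t H)) := by
  have : IsNoetherian O H := isNoetherian_of_isNoetherianRing_of_finite O H
  exact fl_of_killed t hO ht0 _ inferInstance (fun x => Subtype.ext x.2)

include hO ht0 in
lemma fl_cok [Module.Finite O H] : IsFiniteLength O (H ⧸ LinearMap.range (mulT t H)) := by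
  refine fl_of_killed t hO ht0 _ inferInstance (fun x => ?_)
  obtain ⟨x, rfl⟩ := Submodule.Quotient.mk_surjective _ x
  rw [← Submodule.Quotient.mk_smul, Submodule.Quotient.mk_eq_zero]
  exact ⟨x, rfl⟩

include hO ht0 in
lemma fl_hm0 [Module.Finite O H] : IsFiniteLength O (Hm (mulT t H) (0 : H →ₗ[O] H)) :=
  fl_of_inj (fl_ker t hO ht0 H) (hmKer t H).toLinearMap (hmKer t H).injective

include hO ht0 in
lemma fl_hm1 [Module.Finite O H] : IsFiniteLength O (Hm (0 : H →ₗ[O] H) (mulT t H)) :=
  fl_of_inj (fl_cok t hO ht0 H) (hmCok t H).toLinearMap (hmCok t H).injective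

include hO ht0 in
/-- `et` is additive -/
noncomputable def etFn : AddFn O where
  val H _ _ := ((et t H : ℤ) : ℂ)
  add' L M N _ _ _ _ _ _ f g hf hfg hg hM := by
    have : IsNoetherian O M := isNoetherian_of_isNoetherianRing_of_finite O M
    have : Module.Finite O L := Module.Finite.of_injective f hf
    have : Module.Finite O N := Module.Finite.of_surjective g hg
    have h := th_add (φL := mulT t L) (ψL := 0) (φM := mulT t M) (ψM := 0) (φN := mulT t N) (ψN := 0)
      f g hf hg hfg (fun x => map_smul f t x) (fun x => by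
        rw [LinearMap.zero_apply, LinearMap.zero_apply, map_zero])
      (fun x => map_smul g t x) (fun x => by
        rw [LinearMap.zero_apply, LinearMap.zero_apply, map_zero])
      (fun x => by rw [LinearMap.zero_apply, map_zero]) (fun x => rfl)
      (fl_hm0 t hO ht0 L) (fl_hm1 t hO ht0 L) (fl_hm0 t hO ht0 M) (fl_hm1 t hO ht0 M)
      (fl_hm0 t hO ht0 N) (fl_hm1 t hO ht0 N)
    rw [et_eq, et_eq, et_eq, h]
    push_cast
    ring


include hO ht0 in
lemma etFn_val (H : Type u) [AddCommGroup H] [Module O H] :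
    (etFn t hO ht0).val H = ((et t H : ℤ) : ℂ) := rfl

lemma ln_quot_bot (M : Type u) [AddCommGroup M] [Module O M] (S : Submodule O M) (hS : S = ⊥) :
    ln O (M ⧸ S) = ln O M := ln_congr (Submodule.quotEquivOfEqBot S hS)

lemma ln_of_subsingleton (M : Type u) [AddCommGroup M] [Module O M] [Subsingleton M] :
    ln O M = 0 := by
  unfold ln
  rw [Module.length_eq_zero]
  rfl

lemma ln_top (M : Type u) [AddCommGroup M] [Module O M] (S : Submodule O M) (hS : S = ⊤) :
    ln O S = ln O M := by
  rw [hS]
  exact ln_congr Submodule.topEquiv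

include hO ht0 htm in
/-- The Herbrand quotient of `t`. -/
theorem et_rank [Module.Finite O H] :
    et t H = ln O (O ⧸ Ideal.span {t}) * (Module.finrank O H : ℤ) := by
  have key : ((etFn t hO ht0).subMul (rkFn O) ((ln O (O ⧸ Ideal.span {t}) : ℤ) : ℂ)).val H = 0 := by
    have hH : Module.Finite O H := inferInstance
    set nu := (etFn t hO ht0).subMul (rkFn O) ((ln O (O ⧸ Ideal.span {t}) : ℤ) : ℂ) with hnu
    refine IsNoetherianRing.induction_on_isQuotientEquivQuotientPrime (A := O) hH
      (motive := fun N _ _ _ => nu.val N = 0) ?_ ?_ ?_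
    · intro N _ _ _ _
      exact nu.val_of_subsingleton N
    · intro N _ _ _ p e
      rw [nu.val_congr e]
      show ((et t (O ⧸ p.1) : ℤ) : ℂ) - ((ln O (O ⧸ Ideal.span {t}) : ℤ) : ℂ) *
        (Module.finrank O (O ⧸ p.1) : ℂ) = 0
      rcases hO p.1 p.2 with h | h
      · -- the zero ideal
        have e1 : (O ⧸ p.1) ≃ₗ[O] O := Submodule.quotEquivOfEqBot p.1 h
        have hr : Module.finrank O (O ⧸ p.1) = 1 := by
          rw [e1.finrank_eq, Module.finrank_self]
        have he : et t (O ⧸ p.1) = et t O := by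
          have h1 := (etFn t hO ht0).val_congr e1
          rw [etFn_val, etFn_val] at h1
          exact_mod_cast h1
        have h2 : et t O = ln O (O ⧸ Ideal.span {t}) := by
          unfold et
          have h3 : LinearMap.range (mulT t O) = Ideal.span {t} := by
            ext x
            rw [Ideal.mem_span_singleton']
            constructor
            · rintro ⟨y, rfl⟩
              exact ⟨y, mul_comm y t⟩
            · rintro ⟨y, rfl⟩
              exact ⟨y, mul_comm t y⟩
          have h4 : ln O (LinearMap.ker (mulT t O)) = 0 := by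
            have : Subsingleton (LinearMap.ker (mulT t O)) := by
              refine ⟨fun x y => ?_⟩
              have hz : ∀ z : LinearMap.ker (mulT t O), z.1 = 0 := fun z => by
                have h5 : t * z.1 = 0 := z.2
                exact (mul_eq_zero.mp h5).resolve_left ht0
              exact Subtype.ext ((hz x).trans (hz y).symm)
            exact ln_of_subsingleton _
          rw [h4, sub_zero, h3]
        rw [he, h2, hr]
        push_cast
        ring
      · -- the maximal ideal
        have htp : t ∈ p.1 := by rw [h]; exact htm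
        have hk : ∀ x : O ⧸ p.1, t • x = 0 := by
          intro x
          obtain ⟨x, rfl⟩ := Ideal.Quotient.mk_surjective x
          rw [← Ideal.Quotient.mk_eq_mk, ← Submodule.Quotient.mk_smul,
            Submodule.Quotient.mk_eq_zero, smul_eq_mul]
          exact p.1.mul_mem_right _ htp
        have h1 : LinearMap.range (mulT t (O ⧸ p.1)) = ⊥ := by
          rw [eq_bot_iff]
          rintro _ ⟨x, rfl⟩
          exact hk x
        have h2 : LinearMap.ker (mulT t (O ⧸ p.1)) = ⊤ := by
          rw [eq_top_iff]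
          intro x _
          exact hk x
        have he : et t (O ⧸ p.1) = 0 := by
          unfold et
          rw [ln_quot_bot _ _ h1, ln_top _ _ h2, sub_self]
        have hr : Module.finrank O (O ⧸ p.1) = 0 := by
          rw [Module.finrank_eq_zero_iff_isTorsion]
          intro x
          exact ⟨⟨t, mem_nonZeroDivisors_of_ne_zero ht0⟩, hk x⟩
        rw [he, hr]
        push_cast
        ring
    · intro L _ _ _ M _ _ _ N _ _ _ f g hf hg hfg hL hN
      rw [nu.add' L M N f g hf hfg hg inferInstance, hL, hN, add_zero]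
  have key2 : ((et t H : ℤ) : ℂ) - ((ln O (O ⧸ Ideal.span {t}) : ℤ) : ℂ) *
        (Module.finrank O H : ℂ) = 0 := key
  have key3 : ((et t H : ℤ) : ℂ) = ((ln O (O ⧸ Ideal.span {t}) * (Module.finrank O H : ℤ) : ℤ) : ℂ) := by
    push_cast
    exact sub_eq_zero.mp key2
  exact_mod_cast key3

include hO ht0 htm in
lemma ln_t_pos : 0 < ln O (O ⧸ Ideal.span {t}) := by
  have h1 : IsFiniteLength O (O ⧸ Ideal.span {t}) := by
    refine fl_of_killed t hO ht0 _ inferInstance (fun x => ?_)
    obtain ⟨x, rfl⟩ := Ideal.Quotient.mk_surjective x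
    rw [← Ideal.Quotient.mk_eq_mk, ← Submodule.Quotient.mk_smul,
      Submodule.Quotient.mk_eq_zero, smul_eq_mul]
    exact Ideal.mul_mem_right _ _ (Ideal.mem_span_singleton_self t)
  have h2 : Nontrivial (O ⧸ Ideal.span {t}) := by
    refine Ideal.Quotient.nontrivial_iff.mpr fun h => ?_
    have h3 : (1 : O) ∈ Ideal.span {t} := by rw [h]; trivial
    have h4 : (1 : O) ∈ maximalIdeal O := (Ideal.span_singleton_le_iff_mem _).mpr htm h3
    exact (maximalIdeal.isMaximal O).ne_top ((Ideal.eq_top_iff_one _).mpr h4)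
  unfold ln
  have h3 : 0 < Module.length O (O ⧸ Ideal.span {t}) := Module.length_pos
  have h4 := Module.length_ne_top_iff.mpr h1
  have h5 : (Module.length O (O ⧸ Ideal.span {t})).toNat ≠ 0 := by
    intro h
    rcases (ENat.toNat_eq_zero).mp h with h6 | h6
    · exact h3.ne' h6
    · exact h4 h6
  omega

end loc

end Pool.Agent.HT51
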