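import Pool.Agent.HT51.SpJF
import Pool.Agent.HT51.SpQ

/-!
# The geometric form: the leading form becomes good over an extension field, after an automorphism
-/

universe u

namespace Pool.Agent.HT51

open MvPolynomial Pool.Agent.HT21 IsLocalRing

/-- `hd = 0` over every field which contains `O`, for a weighted homogeneous form over the local
principal ideal domain `O` whose reduction is `∑ c_j X_j ^ a_j X_{nx j}` with isolated singularity. -/
theorem inv_hd {O K : Type u} [CommRing O] [IsDomain O] [IsLocalRing O] [IsPrincipalIdealRing O]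
    [Field K] (j : O →+* K) (hj : Function.Injective j) {d : ℕ}
    (w : Fin (d + 1) → ℕ) (hw : ∀ i, 0 < w i) (N : ℕ)
    (fO : MvPolynomial (Fin (d + 1)) O) (hfOw : fO.IsWeightedHomogeneous w N)
    (c : Fin (d + 1) → ResidueField O) (hc : ∀ i, c i ≠ 0) (a : Fin (d + 1) → ℕ)
    (ha : ∀ i, 0 < a i) (nx : Fin (d + 1) → Option (Fin (d + 1)))
    (hred : MvPolynomial.map (residue O) fO = cform c a nx)
    (hcase : IsField O ∨ ∃ i, nx i = none)
    (E : ℕ) (hE : ∀ i, (X i : MvPolynomial (Fin (d + 1)) (ResidueField O)) ^ E ∈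
      jacIdeal (cform c a nx))
    (hFF : ∀ (κ : Type u) [Field κ] [Finite κ] (c : Fin (d + 1) → κ), (∀ j, c j ≠ 0) →
      ZeroProp (MvPolynomial (Fin (d + 1)) κ ⧸ Ideal.span {cform c a nx}))
    {r s : ℕ} (F : MF (MvPolynomial.map j fO) r) (G : MF (MvPolynomial.map j fO) s) :
    hd F G = 0 := by
  classical
  have hE1 : ∀ i, (X i : MvPolynomial (Fin (d + 1)) (ResidueField O)) ^ E ∈
      jacR (MvPolynomial.map (residue O) fO) := by
    rw [hred]
    exact hE
  have hne : MvPolynomial.map (residue O) fO ≠ 0 := by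
    intro h
    have h1 := hE1 0
    rw [h] at h1
    have h2 : jacR (0 : MvPolynomial (Fin (d + 1)) (ResidueField O)) = ⊥ := by
      unfold jacR
      rw [Ideal.span_eq_bot]
      rintro y (hy | ⟨i, rfl⟩)
      · exact hy
      · exact map_zero _
    rw [h2, Ideal.mem_bot] at h1
    exact pow_ne_zero E (X_ne_zero 0) h1
  obtain ⟨E', hE'⟩ := jac_nakayama hw hfOw hE1
  have hcase' : IsField O ∨ ∃ e : Equiv.Perm (Fin (d + 1)),
      IsUnit (finSuccEquiv O d (rename e fO)).leadingCoeff := by
    rcases hcase with hO | ⟨i0, hi0⟩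
    · exact Or.inl hO
    · right
      have hco : residue O (coeff (Finsupp.single i0 (a i0)) fO) = c i0 := by
        rw [← coeff_map, hred, coeff_cform c a ha nx i0 hi0]
      have hcu : IsUnit (coeff (Finsupp.single i0 (a i0)) fO) := by
        have h1 : residue O (coeff (Finsupp.single i0 (a i0)) fO) ≠ 0 := by
          rw [hco]
          exact hc i0
        rw [Ne, residue_eq_zero_iff] at h1
        exact notMem_maximalIdeal.mp h1
      have hwi : w i0 * a i0 = N := by
        have h1 := hfOw hcu.ne_zero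
        rw [Finsupp.weight_apply, Finsupp.sum_single_index (by simp), smul_eq_mul, mul_comm] at h1
        exact h1
      let e : Equiv.Perm (Fin (d + 1)) := Equiv.swap 0 i0
      have he0 : e.symm 0 = i0 := by
        show (Equiv.swap 0 i0).symm 0 = i0
        rw [Equiv.symm_swap, Equiv.swap_apply_left]
      have hei : e i0 = 0 := by
        show (Equiv.swap 0 i0) i0 = 0
        rw [Equiv.swap_apply_right]
      refine ⟨e, whom_monic (w := fun i => w (e.symm i)) (D := N) (n := a i0) (fun i => hw _)
        (whom_rename e hfOw) ?_ ?_⟩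
      · show w (e.symm 0) * a i0 = N
        rw [he0, hwi]
      · have h1 : (Finsupp.single (0 : Fin (d + 1)) (a i0)) =
            (Finsupp.single i0 (a i0)).mapDomain e := by
          rw [Finsupp.mapDomain_single, hei]
        rw [h1, coeff_rename_mapDomain _ e.injective]
        exact hcu
  obtain ⟨A, _, g, c0, hA, hu, hg⟩ := exists_model c hc
  refine hd_over j hj fO hne hcase' E' hE' hA g (cform c0 a nx) ?_ (finZP_cform c0 hu a nx hFF) F G
  rw [map_cform, hred]
  congr 1
  funext i
  exact hg i

/-- The vanishing theorem in geometric form: over some extension field `K` of the residue field and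
after some automorphism of the polynomial ring over `K`, the reduction of the leading form `P` is
defined over a local principal ideal domain `O` inside `K` and reduces modulo the maximal ideal of `O`
to a form `∑ c_j X_j ^ a_j X_{nx j}` with isolated singularity. -/
theorem inv_vanish_geom {R : Type u} [CommRing R] [IsLocalRing R]
    [IsNoetherianRing R] (d : ℕ) (x : Fin (d + 1) → R)
    (hx : Ideal.span (Set.range x) = maximalIdeal R)
    (hreg : RingTheory.Sequence.IsRegular R (List.ofFn x))
    (w : Fin (d + 1) → ℕ) (hw : ∀ i, 0 < w i) (N : ℕ) (hN : 0 < N)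
    (P : MvPolynomial (Fin (d + 1)) R) (hP : P.IsWeightedHomogeneous w N)
    (EP : ℕ) (hEP : ∀ i, (X i : MvPolynomial (Fin (d + 1)) (ResidueField R)) ^ EP ∈
      jacIdeal (P.map (residue R)))
    {K : Type u} [Field K] (ι : ResidueField R →+* K)
    (α : MvPolynomial (Fin (d + 1)) K ≃+* MvPolynomial (Fin (d + 1)) K)
    {O : Type u} [CommRing O] [IsDomain O] [IsLocalRing O] [IsPrincipalIdealRing O]
    (j : O →+* K) (hj : Function.Injective j)
    (w' : Fin (d + 1) → ℕ) (hw' : ∀ i, 0 < w' i) (N' : ℕ)
    (fO : MvPolynomial (Fin (d + 1)) O) (hfOw : fO.IsWeightedHomogeneous w' N')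
    (hα : α (MvPolynomial.map ι (P.map (residue R))) = MvPolynomial.map j fO)
    (c : Fin (d + 1) → ResidueField O) (hc : ∀ i, c i ≠ 0) (a : Fin (d + 1) → ℕ)
    (ha : ∀ i, 0 < a i) (nx : Fin (d + 1) → Option (Fin (d + 1)))
    (hred : MvPolynomial.map (residue O) fO = cform c a nx)
    (hcase : IsField O ∨ ∃ i, nx i = none)
    (E : ℕ) (hE : ∀ i, (X i : MvPolynomial (Fin (d + 1)) (ResidueField O)) ^ E ∈
      jacIdeal (cform c a nx))
    (hFF : ∀ (κ : Type u) [Field κ] [Finite κ] (c : Fin (d + 1) → κ), (∀ j, c j ≠ 0) →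
      ZeroProp (MvPolynomial (Fin (d + 1)) κ ⧸ Ideal.span {cform c a nx}))
    (f : R) (hf : f - aeval x P ∈ (wFilt x w).F (N + 1))
    (L M : Type u) [AddCommGroup L] [Module (R ⧸ Ideal.span {f}) L]
    [AddCommGroup M] [Module (R ⧸ Ideal.span {f}) M]
    [Module.Finite (R ⧸ Ideal.span {f}) L] [Module.Finite (R ⧸ Ideal.span {f}) M] :
    (∀ i, d < i → torLen (R ⧸ Ideal.span {f}) i L M ≠ ⊤ ∧
      torLen (R ⧸ Ideal.span {f}) (i + 1) L M = torLen (R ⧸ Ideal.span {f}) i L M) ∧
    ∀ e, d ≤ 2 * e → theta (R ⧸ Ideal.span {f}) e L M = 0 := by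
  have hP0 : P.map (residue R) ≠ 0 := by
    intro h
    have h1 := hEP 0
    rw [h] at h1
    have h2 : jacIdeal (0 : MvPolynomial (Fin (d + 1)) (ResidueField R)) = ⊥ := by
      unfold jacIdeal
      rw [Ideal.span_eq_bot]
      rintro y (hy | ⟨i, rfl⟩)
      · exact hy
      · exact map_zero _
    rw [h2, Ideal.mem_bot] at h1
    exact pow_ne_zero EP (X_ne_zero 0) h1
  refine link_theta d x hx hreg w hw N hN P hP hP0 (link_finite _ (fun _ => EP) hEP) ?_ f hf L M
  intro Q _ π hπ hker W V _ _ _ _ _ _ e he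
  refine theta_of_hd_any (ResidueField R) (P.map (residue R)) hP0 EP hEP ?_ π hπ hker W V e
    (by omega)
  intro r s F G
  exact hd_geom' ι (P.map (residue R)) EP hEP α _ hα
    (fun r s F G => inv_hd j hj w' hw' N' fO hfOw c hc a ha nx hred hcase E hE hFF F G) F G

end Pool.Agent.HT51
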