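import Pool.Agent.HT51.SpJH
import Pool.Agent.HT51.SpWN

/-!
# The geometric form without a monic variable and without weights over `O`
-/

universe u

namespace Pool.Agent.HT51

open MvPolynomial Pool.Agent.HT21 IsLocalRing

/-- `hd = 0` over every field which contains `O`, if the reduction of `fO` comes from a finitely
generated ring over which it satisfies `FinZP`. -/
theorem hd_over_any {O k : Type u} [CommRing O] [IsDomain O] [IsLocalRing O]
    [IsPrincipalIdealRing O] [Field k] (j : O →+* k) (hj : Function.Injective j) {d : ℕ}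
    (fO : MvPolynomial (Fin (d + 1)) O) (hne : MvPolynomial.map (residue O) fO ≠ 0)
    (E : ℕ) (hE : ∀ i, (X i : MvPolynomial (Fin (d + 1)) O) ^ E ∈ jacR fO)
    {A : Type u} [CommRing A] (hA : (Int.castRingHom A).FiniteType) (g : A →+* ResidueField O)
    (fA : MvPolynomial (Fin (d + 1)) A)
    (hfA : MvPolynomial.map g fA = MvPolynomial.map (residue O) fO) (hz : FinZP fA)
    {r s : ℕ} (F : MF (MvPolynomial.map j fO) r) (G : MF (MvPolynomial.map j fO) s) :
    hd F G = 0 := by
  refine hd_gen_any j hj fO hne E hE ?_ F G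
  intro κ _ π r s F G
  have h2 : MvPolynomial.map (π.comp (residue O)) fO = MvPolynomial.map (π.comp g) fA := by
    rw [← MvPolynomial.map_map, ← MvPolynomial.map_map, hfA]
  have h3 : MvPolynomial.map (π.comp (residue O)) fO ≠ 0 := by
    intro h
    rw [← MvPolynomial.map_map] at h
    exact hne (MvPolynomial.map_injective _ π.injective (by rw [h, map_zero]))
  exact hd_anyJ h3 (map_pow_mem_jacR _ hE) hA (π.comp g) fA h2.symm hz F G

lemma ne_zero_of_jac {k : Type u} [Field k] {d E : ℕ} {F : MvPolynomial (Fin (d + 1)) k}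
    (hE : ∀ i, (X i : MvPolynomial (Fin (d + 1)) k) ^ E ∈ jacR F) : F ≠ 0 := by
  intro h
  have h1 := hE 0
  rw [h] at h1
  have h2 : jacR (0 : MvPolynomial (Fin (d + 1)) k) = ⊥ := by
    unfold jacR
    rw [Ideal.span_eq_bot]
    rintro y (hy | ⟨i, rfl⟩)
    · exact hy
    · exact map_zero _
  rw [h2, Ideal.mem_bot] at h1
  exact pow_ne_zero E (X_ne_zero 0) h1

/-- `hd = 0` over every field which contains `O`, for a polynomial over the local principal ideal
domain `O` with isolated singularity over `O` whose reduction is `∑ c_j X_j ^ a_j X_{nx j}`. -/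
theorem inv_hd_i {O K : Type u} [CommRing O] [IsDomain O] [IsLocalRing O] [IsPrincipalIdealRing O]
    [Field K] (j : O →+* K) (hj : Function.Injective j) {d : ℕ}
    (fO : MvPolynomial (Fin (d + 1)) O)
    (E : ℕ) (hE : ∀ i, (X i : MvPolynomial (Fin (d + 1)) O) ^ E ∈ jacR fO)
    (c : Fin (d + 1) → ResidueField O) (a : Fin (d + 1) → ℕ)
    (nx : Fin (d + 1) → Option (Fin (d + 1)))
    (hred : MvPolynomial.map (residue O) fO = cform c a nx)
    (hFF : ∀ (κ : Type u) [Field κ] [Finite κ] (c' : Fin (d + 1) → κ),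
      (∀ i, c' i = 0 ↔ c i = 0) →
      ZeroProp (MvPolynomial (Fin (d + 1)) κ ⧸ Ideal.span {cform c' a nx}))
    {r s : ℕ} (F : MF (MvPolynomial.map j fO) r) (G : MF (MvPolynomial.map j fO) s) :
    hd F G = 0 := by
  have hne : MvPolynomial.map (residue O) fO ≠ 0 := ne_zero_of_jac (map_pow_mem_jacR _ hE)
  obtain ⟨A, _, g, c0, hA, hu, hz0, hg⟩ := exists_model' c
  have hz : FinZP (cform c0 a nx) := by
    intro κ _ _ h
    rw [map_cform]
    refine hFF κ _ fun i => ⟨fun hi => ?_, fun hi => ?_⟩
    · by_contra hci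
      exact ((hu i hci).map h).ne_zero hi
    · rw [hz0 i hi, map_zero]
  refine hd_over_any j hj fO hne E hE hA g (cform c0 a nx) ?_ hz F G
  rw [map_cform, hred]
  congr 1
  funext i
  exact hg i

/-- The vanishing theorem in geometric form: over some extension field `K` of the residue field and
after some automorphism of the polynomial ring over `K`, the reduction of the leading form `P` is
defined over a local principal ideal domain `O` inside `K`, has an isolated singularity over `O` and
reduces modulo the maximal ideal of `O` to a form `∑ c_j X_j ^ a_j X_{nx j}`. -/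
theorem inv_vanish_i {R : Type u} [CommRing R] [IsLocalRing R]
    [IsNoetherianRing R] (d : ℕ) (x : Fin (d + 1) → R)
    (hx : Ideal.span (Set.range x) = maximalIdeal R)
    (hreg : RingTheory.Sequence.IsRegular R (List.ofFn x))
    (w : Fin (d + 1) → ℕ) (hw : ∀ i, 0 < w i) (N : ℕ) (hN : 0 < N)
    (P : MvPolynomial (Fin (d + 1)) R) (hP : P.IsWeightedHomogeneous w N)
    (EP : ℕ) (hEP : ∀ i, (X i : MvPolynomial (Fin (d + 1)) (ResidueField R)) ^ EP ∈
      jacR (P.map (residue R)))
    {K : Type u} [Field K] (ι : ResidueField R →+* K)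
    (α : MvPolynomial (Fin (d + 1)) K ≃+* MvPolynomial (Fin (d + 1)) K)
    {O : Type u} [CommRing O] [IsDomain O] [IsLocalRing O] [IsPrincipalIdealRing O]
    (j : O →+* K) (hj : Function.Injective j)
    (fO : MvPolynomial (Fin (d + 1)) O)
    (hα : α (MvPolynomial.map ι (P.map (residue R))) = MvPolynomial.map j fO)
    (E : ℕ) (hE : ∀ i, (X i : MvPolynomial (Fin (d + 1)) O) ^ E ∈ jacR fO)
    (c : Fin (d + 1) → ResidueField O) (a : Fin (d + 1) → ℕ)
    (nx : Fin (d + 1) → Option (Fin (d + 1)))
    (hred : MvPolynomial.map (residue O) fO = cform c a nx)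
    (hFF : ∀ (κ : Type u) [Field κ] [Finite κ] (c' : Fin (d + 1) → κ),
      (∀ i, c' i = 0 ↔ c i = 0) →
      ZeroProp (MvPolynomial (Fin (d + 1)) κ ⧸ Ideal.span {cform c' a nx}))
    (f : R) (hf : f - aeval x P ∈ (wFilt x w).F (N + 1))
    (L M : Type u) [AddCommGroup L] [Module (R ⧸ Ideal.span {f}) L]
    [AddCommGroup M] [Module (R ⧸ Ideal.span {f}) M]
    [Module.Finite (R ⧸ Ideal.span {f}) L] [Module.Finite (R ⧸ Ideal.span {f}) M] :
    (∀ i, d < i → torLen (R ⧸ Ideal.span {f}) i L M ≠ ⊤ ∧
      torLen (R ⧸ Ideal.span {f}) (i + 1) L M = torLen (R ⧸ Ideal.span {f}) i L M) ∧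
    ∀ e, d ≤ 2 * e → theta (R ⧸ Ideal.span {f}) e L M = 0 := by
  have hP0 : P.map (residue R) ≠ 0 := ne_zero_of_jac hEP
  refine link_theta d x hx hreg w hw N hN P hP hP0 (link_finite _ (fun _ => EP) hEP) ?_ f hf L M
  intro Q _ π hπ hker W V _ _ _ _ _ _ e he
  refine theta_of_hd_any (ResidueField R) (P.map (residue R)) hP0 EP hEP ?_ π hπ hker W V e
    (by omega)
  intro r s F G
  exact hd_geom' ι (P.map (residue R)) EP hEP α _ hα
    (fun r s F G => inv_hd_i j hj fO E hE c a nx hred hFF F G) F G

end Pool.Agent.HT51
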