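import Pool.Agent.HT51.SpDefs
import Pool.Agent.HT51.SpS

/-!
# Definitions for leading forms with a diagonal specialisation

`Dg w n D f`: over a local ring `O`, `f` is weighted homogeneous of degree `D`, the coefficients of
the `X i ^ n i` (`w i * n i = D`) are units and all other coefficients lie in the maximal ideal.

`Lat j S V V'`: `V` (a module over `B`) is a lattice in the module `V'` over `B'`, `j : B → B'`.
-/

universe u

namespace Pool.Agent.HT51

open MvPolynomial IsLocalRing

/-- `f` is weighted homogeneous of degree `D`, the coefficients of the `X i ^ n i` are units and all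
other coefficients are in the maximal ideal. -/
structure Dg {O : Type u} [CommRing O] [IsLocalRing O] {N : ℕ} (w n : Fin N → ℕ) (D : ℕ)
    (f : MvPolynomial (Fin N) O) : Prop where
  hom : f.IsWeightedHomogeneous w D
  w_pos : ∀ i, 0 < w i
  D_pos : 0 < D
  hwn : ∀ i, w i * n i = D
  unit : ∀ i, IsUnit (f.coeff (Finsupp.single i (n i)))
  unit_n : ∀ i, IsUnit ((n i : ℕ) : O)
  off : ∀ m, (∀ i, m ≠ Finsupp.single i (n i)) → f.coeff m ∈ maximalIdeal O

/-- `V` is a lattice in `V'`. -/
structure Lat {B B' : Type u} [CommRing B] [CommRing B'] (j : B →+* B') (S : Set B)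
    (V V' : Type u) [AddCommGroup V] [Module B V] [AddCommGroup V'] [Module B' V'] where
  i : V →+ V'
  smul : ∀ (b : B) (x : V), i (b • x) = j b • i x
  inj : Function.Injective i
  ex : ∀ y : V', ∃ s ∈ S, ∃ x : V, i x = j s • y

/-- the nonzero constants of `O[X]` -/
def cst (O : Type u) [CommRing O] (N : ℕ) : Set (MvPolynomial (Fin N) O) :=
  {s | ∃ t : O, t ≠ 0 ∧ s = C t}

end Pool.Agent.HT51
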