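import Pool.Agent.HT51.SpK
import Pool.Agent.HT51.SpWDefs

/-!
# Leading forms with a diagonal specialisation: derivatives, Jacobian ideal, reduction
-/

universe u

namespace Pool.Agent.HT51

open MvPolynomial Pool.Agent.HT21 IsLocalRing

/-- (W1.1) the derivatives of `f` kill `HH` (any ring, any `f`). -/
theorem kill_pderiv {T : Type u} [CommRing T] {N : ℕ} {f : MvPolynomial (Fin N) T} {r : ℕ}
    (F : MF f r) (W : Type u) [AddCommGroup W] [Module (MvPolynomial (Fin N) T) W] (i : Fin N)
    (z : HH F.phi F.psi W) : (pderiv i f) • z = 0 := by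
  obtain ⟨⟨w, hw⟩, rfl⟩ := Submodule.Quotient.mk_surjective _ z
  rw [← Submodule.Quotient.mk_smul, Submodule.Quotient.mk_eq_zero]
  have h2 := SpK.pderiv_smul F W i w (LinearMap.mem_ker.1 hw)
  change (pderiv i f) • w ∈ LinearMap.range (mact F.psi W)
  rw [h2]
  exact LinearMap.mem_range_self _ _

namespace SpW1

lemma weight_eq {N : ℕ} (w : Fin N → ℕ) (m : Fin N →₀ ℕ) :
    Finsupp.weight w m = ∑ i, m i * w i := by
  rw [Finsupp.weight_apply, Finsupp.sum_fintype]
  · rfl
  · intro i
    simp

variable {O : Type u} [CommRing O] [IsLocalRing O] {N : ℕ} {w n : Fin N → ℕ} {D : ℕ}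
  {f : MvPolynomial (Fin N) O}

lemma n_pos (h : Dg w n D f) (i : Fin N) : 0 < n i := by
  refine Nat.pos_of_ne_zero fun h0 => ?_
  have h1 := h.hwn i
  rw [h0, mul_zero] at h1
  exact absurd h1.symm h.D_pos.ne'

/-- the unit coefficient of the derivative -/
lemma unit_u (h : Dg w n D f) (i : Fin N) :
    IsUnit (f.coeff (Finsupp.single i (n i)) * ((n i : ℕ) : O)) := (h.unit i).mul (h.unit_n i)

/-- the derivative without its pure power -/
noncomputable def g (n : Fin N → ℕ) (f : MvPolynomial (Fin N) O) (i : Fin N) :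
    MvPolynomial (Fin N) O :=
  pderiv i f - monomial (Finsupp.single i (n i - 1))
    (f.coeff (Finsupp.single i (n i)) * ((n i : ℕ) : O))

lemma coeff_g (h : Dg w n D f) (i : Fin N) (k : Fin N →₀ ℕ) :
    (g n f i).coeff k ∈ maximalIdeal O := by
  classical
  have hn := n_pos h i
  unfold g
  rw [coeff_sub, coeff_pderiv, coeff_monomial]
  by_cases hk : Finsupp.single i (n i - 1) = k
  · subst hk
    rw [if_pos rfl, ← Finsupp.single_add, Nat.sub_add_cancel hn, Finsupp.single_eq_same]
    have h1 : (((n i - 1 : ℕ) : O) + 1) = ((n i : ℕ) : O) := by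
      rw [← Nat.cast_succ, Nat.succ_eq_add_one, Nat.sub_add_cancel hn]
    rw [h1, sub_self]
    exact Ideal.zero_mem _
  · rw [if_neg hk, sub_zero]
    refine Ideal.mul_mem_right _ _ (h.off _ fun j hj => ?_)
    by_cases hij : j = i
    · subst hij
      apply hk
      have h2 : k = Finsupp.single j (n j) - Finsupp.single j 1 := by
        rw [← hj, add_tsub_cancel_right]
      rw [h2, ← Finsupp.single_tsub]
    · have h2 := DFunLike.congr_fun hj i
      rw [Finsupp.add_apply, Finsupp.single_eq_same, Finsupp.single_apply, if_neg hij] at h2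
      omega

lemma hom_g (h : Dg w n D f) (i : Fin N) : (g n f i).IsWeightedHomogeneous w (D - w i) := by
  have hn := n_pos h i
  have h1 : D - w i + w i = D := by
    refine Nat.sub_add_cancel ?_
    rw [← h.hwn i]
    exact Nat.le_mul_of_pos_right _ hn
  have h2 := IsWeightedHomogeneous.pderiv (i := i) h.hom h1
  have h3 : (monomial (Finsupp.single i (n i - 1))
      (f.coeff (Finsupp.single i (n i)) * ((n i : ℕ) : O))).IsWeightedHomogeneous w (D - w i) := by
    refine isWeightedHomogeneous_monomial w _ _ ?_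
    rw [Finsupp.weight_apply, Finsupp.sum_single_index (by simp)]
    rw [smul_eq_mul, ← h.hwn i, Nat.sub_mul, one_mul, mul_comm (w i)]
  exact (weightedHomogeneousSubmodule O w (D - w i)).sub_mem h2 h3

/-- the Jacobian ideal -/
noncomputable def J (f : MvPolynomial (Fin N) O) : Ideal (MvPolynomial (Fin N) O) :=
  Ideal.span (Set.range fun i => pderiv i f)

/-- the image of the part of weight `e` -/
noncomputable def Ne (w : Fin N → ℕ) (f : MvPolynomial (Fin N) O) (e : ℕ) :
    Submodule O (MvPolynomial (Fin N) O ⧸ J f) :=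
  Submodule.span O ((fun m => Ideal.Quotient.mk (J f) (monomial m 1)) ''
    {m | Finsupp.weight w m = e})

lemma fg_Ne (h : Dg w n D f) (e : ℕ) : (Ne w f e).FG :=
  Submodule.fg_span ((Finsupp.finite_of_nat_weight_eq w (fun i => (h.w_pos i).ne') e).image _)

lemma mem_smul {e : ℕ} {p : MvPolynomial (Fin N) O} (hp : p.IsWeightedHomogeneous w e)
    (hc : ∀ k, p.coeff k ∈ maximalIdeal O) :
    Ideal.Quotient.mk (J f) p ∈ maximalIdeal O • Ne w f e := by
  have h1 : p = ∑ m ∈ p.support, (p.coeff m) • monomial m (1 : O) := by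
    conv_lhs => rw [p.as_sum]
    refine Finset.sum_congr rfl fun m _ => ?_
    rw [smul_monomial, smul_eq_mul, mul_one]
  rw [h1, map_sum]
  refine Submodule.sum_mem _ fun m hm => ?_
  have h2 : Ideal.Quotient.mk (J f) ((p.coeff m) • monomial m (1 : O))
      = (p.coeff m) • Ideal.Quotient.mk (J f) (monomial m (1 : O)) := rfl
  rw [h2]
  exact Submodule.smul_mem_smul (hc m) (Submodule.subset_span ⟨m, hp (mem_support_iff.1 hm), rfl⟩)

lemma exists_big (h : Dg w n D f) {m : Fin N →₀ ℕ} (hm : N * D < Finsupp.weight w m) :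
    ∃ i, n i - 1 ≤ m i := by
  by_contra hcon
  push Not at hcon
  rw [weight_eq] at hm
  have h1 : ∑ i, m i * w i ≤ ∑ _i : Fin N, D := by
    refine Finset.sum_le_sum fun i _ => ?_
    rw [← h.hwn i, mul_comm (w i)]
    have := hcon i
    exact Nat.mul_le_mul_right _ (by omega)
  rw [Finset.sum_const, Finset.card_univ, Fintype.card_fin, smul_eq_mul] at h1
  omega

lemma Ne_le (h : Dg w n D f) {e : ℕ} (he : N * D < e) :
    Ne w f e ≤ maximalIdeal O • Ne w f e := by
  refine Submodule.span_le.2 ?_
  rintro _ ⟨m, hm, rfl⟩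
  have hm' : Finsupp.weight w m = e := hm
  obtain ⟨i, hi⟩ := exists_big h (m := m) (by rw [hm']; exact he)
  have hn := n_pos h i
  set m' : Fin N →₀ ℕ := m - Finsupp.single i (n i - 1) with hm'def
  have hmm : m' + Finsupp.single i (n i - 1) = m := by
    rw [hm'def]
    refine tsub_add_cancel_of_le ?_
    rw [Finsupp.single_le_iff]
    exact hi
  obtain ⟨u, hu⟩ := unit_u h i
  -- the identity
  have key : (u : O) • (monomial m (1 : O) : MvPolynomial (Fin N) O)
      = monomial m' 1 * pderiv i f - monomial m' 1 * g n f i := by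
    rw [← mul_sub]
    have h1 : pderiv i f - g n f i = monomial (Finsupp.single i (n i - 1)) (u : O) := by
      unfold g
      rw [sub_sub_cancel, hu]
    rw [h1, monomial_mul, hmm, one_mul, smul_monomial, smul_eq_mul, mul_one]
  have h2 : (u : O) • Ideal.Quotient.mk (J f) (monomial m (1 : O))
      = - Ideal.Quotient.mk (J f) (monomial m' 1 * g n f i) := by
    have h3 : (u : O) • Ideal.Quotient.mk (J f) (monomial m (1 : O))
        = Ideal.Quotient.mk (J f) ((u : O) • monomial m (1 : O)) := rfl
    rw [h3, key, map_sub]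
    have h4 : Ideal.Quotient.mk (J f) (monomial m' 1 * pderiv i f) = 0 :=
      Ideal.Quotient.eq_zero_iff_mem.2
        (Ideal.mul_mem_left _ _ (Ideal.subset_span (Set.mem_range_self i)))
    rw [h4, zero_sub]
  have h5 : Ideal.Quotient.mk (J f) (monomial m' 1 * g n f i) ∈ maximalIdeal O • Ne w f e := by
    refine mem_smul ?_ ?_
    · have h6 := (isWeightedHomogeneous_monomial (R := O) w m' 1 rfl).mul (hom_g h i)
      have h7 : Finsupp.weight w m' + (D - w i) = e := by
        have h8 : Finsupp.weight w m' + (n i - 1) * w i = e := by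
          rw [← hm', ← hmm, map_add]
          congr 1
          rw [Finsupp.weight_apply, Finsupp.sum_single_index (by simp), smul_eq_mul]
        rw [← h8, ← h.hwn i, Nat.sub_mul, one_mul, mul_comm (w i)]
      rw [h7] at h6
      exact h6
    · have h6 : monomial m' 1 * g n f i ∈ Ideal.map C (maximalIdeal O) :=
        Ideal.mul_mem_left _ _ (mem_map_C_iff.2 (coeff_g h i))
      exact mem_map_C_iff.1 h6
  have h9 : Ideal.Quotient.mk (J f) (monomial m (1 : O))
      = ((u⁻¹ : Oˣ) : O) • ((u : O) • Ideal.Quotient.mk (J f) (monomial m (1 : O))) := by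
    rw [smul_smul, Units.inv_mul, one_smul]
  change Ideal.Quotient.mk (J f) (monomial m (1 : O)) ∈ maximalIdeal O • Ne w f e
  rw [h9, h2]
  exact Submodule.smul_mem _ _ (Submodule.neg_mem _ h5)

lemma monomial_mem (h : Dg w n D f) {m : Fin N →₀ ℕ} (hm : N * D < Finsupp.weight w m) :
    monomial m (1 : O) ∈ J f := by
  have h1 : Ne w f (Finsupp.weight w m) = ⊥ :=
    Submodule.eq_bot_of_le_smul_of_le_jacobson_bot (maximalIdeal O) _ (fg_Ne h _) (Ne_le h hm)
      (maximalIdeal_le_jacobson _)
  have h2 : Ideal.Quotient.mk (J f) (monomial m (1 : O)) ∈ Ne w f (Finsupp.weight w m) :=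
    Submodule.subset_span ⟨m, rfl, rfl⟩
  rw [h1, Submodule.mem_bot] at h2
  exact Ideal.Quotient.eq_zero_iff_mem.1 h2

end SpW1

/-- (W1.2) Nakayama: monomials of large weight are in the Jacobian ideal. -/
theorem dg_jac {O : Type u} [CommRing O] [IsLocalRing O] {N : ℕ} {w n : Fin N → ℕ} {D : ℕ}
    {f : MvPolynomial (Fin N) O} (h : Dg w n D f) :
    ∃ E : ℕ, ∀ i, (X i : MvPolynomial (Fin N) O) ^ E ∈
      Ideal.span (Set.range fun i => pderiv i f) := by
  refine ⟨N * D + 1, fun i => ?_⟩
  rw [X_pow_eq_monomial]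
  refine SpW1.monomial_mem h ?_
  rw [Finsupp.weight_apply, Finsupp.sum_single_index (by simp), smul_eq_mul]
  exact (Nat.lt_succ_self _).trans_le (Nat.le_mul_of_pos_right _ (h.w_pos i))

/-- (W1.3) the reduction is diagonal. -/
theorem dg_residue {O : Type u} [CommRing O] [IsLocalRing O] {N : ℕ} {w n : Fin N → ℕ} {D : ℕ}
    {f : MvPolynomial (Fin N) O} (h : Dg w n D f) :
    MvPolynomial.map (residue O) f
      = df (fun i => residue O (f.coeff (Finsupp.single i (n i)))) n := by
  classical
  refine MvPolynomial.ext _ _ fun m => ?_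
  unfold df
  rw [coeff_map, coeff_sum]
  have h1 : ∀ i, coeff m (C (residue O (f.coeff (Finsupp.single i (n i)))) *
      (X i : MvPolynomial (Fin N) (ResidueField O)) ^ n i)
      = if Finsupp.single i (n i) = m then residue O (f.coeff (Finsupp.single i (n i))) else 0 := by
    intro i
    rw [coeff_C_mul, coeff_X_pow, mul_ite, mul_one, mul_zero]
  simp_rw [h1]
  by_cases hm : ∃ i, m = Finsupp.single i (n i)
  · obtain ⟨i, rfl⟩ := hm
    rw [Finset.sum_eq_single i, if_pos rfl]
    · intro j _ hj
      refine if_neg fun h2 => ?_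
      have h3 := DFunLike.congr_fun h2 i
      rw [Finsupp.single_eq_same, Finsupp.single_apply, if_neg hj] at h3
      exact (SpW1.n_pos h i).ne h3
    · intro h2
      exact absurd (Finset.mem_univ i) h2
  · push Not at hm
    rw [Finset.sum_eq_zero fun i _ => if_neg fun h2 => hm i h2.symm]
    rw [residue_eq_zero_iff]
    exact h.off m hm

/-- (W1.4) monic in `X 0`. -/
theorem dg_monic {O : Type u} [CommRing O] [IsDomain O] [IsLocalRing O] {M : ℕ}
    {w n : Fin (M + 1) → ℕ} {D : ℕ} {f : MvPolynomial (Fin (M + 1)) O} (h : Dg w n D f) :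
    IsUnit (finSuccEquiv O M f).leadingCoeff := by
  classical
  -- coefficients vanish unless the weight is `D`
  have h0 : ∀ (k : ℕ) (m : Fin M →₀ ℕ), coeff (m.cons k) f ≠ 0 →
      k * w 0 + ∑ i, m i * w i.succ = D := by
    intro k m hk
    have h1 := h.hom hk
    rw [SpW1.weight_eq, Fin.sum_univ_succ] at h1
    simpa using h1
  have h1 : (finSuccEquiv O M f).coeff (n 0) = C (f.coeff (Finsupp.single 0 (n 0))) := by
    refine MvPolynomial.ext _ _ fun m => ?_
    rw [finSuccEquiv_coeff_coeff, coeff_C]
    by_cases hm : 0 = m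
    · subst hm
      rw [if_pos rfl]
      congr 1
      ext i
      refine Fin.cases ?_ (fun j => ?_) i
      · simp
      · simp
    · rw [if_neg hm]
      by_contra hne
      have h2 := h0 _ _ hne
      have h3 : ∑ i, m i * w i.succ = 0 := by
        have := h.hwn 0
        rw [mul_comm] at this
        omega
      apply hm
      ext i
      have h4 := (Finset.sum_eq_zero_iff.1 h3) i (Finset.mem_univ i)
      rcases Nat.mul_eq_zero.1 h4 with h5 | h5
      · rw [h5]
        rfl
      · exact absurd h5 (h.w_pos _).ne'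
  have hu : IsUnit (C (f.coeff (Finsupp.single 0 (n 0))) : MvPolynomial (Fin M) O) :=
    (h.unit 0).map C
  have h2 : (finSuccEquiv O M f).natDegree = n 0 := by
    refine Polynomial.natDegree_eq_of_le_of_coeff_ne_zero ?_ ?_
    · rw [Polynomial.natDegree_le_iff_coeff_eq_zero]
      intro k hk
      refine MvPolynomial.ext _ _ fun m => ?_
      rw [finSuccEquiv_coeff_coeff, coeff_zero]
      by_contra hne
      have h3 := h0 _ _ hne
      have h4 := h.hwn 0
      have h5 : w 0 * n 0 < k * w 0 := by
        rw [mul_comm]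
        exact Nat.mul_lt_mul_of_pos_right hk (h.w_pos 0)
      omega
    · rw [h1]
      exact hu.ne_zero
  rw [Polynomial.leadingCoeff, h2, h1]
  exact hu

end Pool.Agent.HT51
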