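import Pool.Agent.HT51.SpJR
import Pool.Agent.HT51.SpW1

/-!
# Graded Nakayama for the Jacobian ideal

`f` weighted homogeneous over a local ring `O`: if powers of the variables lie in the ideal of the
reduction of `f` and its derivatives, the same is true over `O`.
-/

universe u

namespace Pool.Agent.HT51

open MvPolynomial Pool.Agent.HT21 IsLocalRing

namespace SpJN

variable {O : Type u} [CommRing O] {N : ℕ} {w : Fin N → ℕ} {D : ℕ}
  {f : MvPolynomial (Fin N) O}

lemma pderiv_hom (hf : f.IsWeightedHomogeneous w D) (i : Fin N) :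
    ∃ d, (pderiv i f).IsWeightedHomogeneous w d := by
  by_cases h : w i ≤ D
  · exact ⟨D - w i, IsWeightedHomogeneous.pderiv hf (Nat.sub_add_cancel h)⟩
  · refine ⟨0, ?_⟩
    have h1 : pderiv i f = 0 := by
      ext m
      rw [coeff_pderiv, coeff_zero]
      have h2 : coeff (m + Finsupp.single i 1) f = 0 := by
        by_contra hne
        have h3 := hf hne
        rw [map_add, Finsupp.weight_apply w (Finsupp.single i 1),
          Finsupp.sum_single_index (by simp), one_smul] at h3
        omega
      rw [h2]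
      ring
    rw [h1]
    exact isWeightedHomogeneous_zero O w 0

attribute [local instance] MvPolynomial.weightedGradedAlgebra in
lemma comp_mem (hf : f.IsWeightedHomogeneous w D) {p : MvPolynomial (Fin N) O} (hp : p ∈ jacR f)
    (e : ℕ) : weightedHomogeneousComponent w e p ∈ jacR f := by
  refine weightedHomogeneousComponent_mem_of_mem O w ?_ hp e
  refine Ideal.homogeneous_span _ _ ?_
  rintro x (hx | ⟨i, rfl⟩)
  · rw [Set.mem_singleton_iff] at hx
    subst hx
    exact ⟨D, hf⟩
  · exact pderiv_hom hf i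

/-- the image of the part of weight `e` -/
noncomputable def Ne (w : Fin N → ℕ) (f : MvPolynomial (Fin N) O) (e : ℕ) :
    Submodule O (MvPolynomial (Fin N) O ⧸ jacR f) :=
  Submodule.span O ((fun m => Ideal.Quotient.mk (jacR f) (monomial m 1)) ''
    {m | Finsupp.weight w m = e})

lemma fg_Ne (hw : ∀ i, 0 < w i) (e : ℕ) : (Ne w f e).FG :=
  Submodule.fg_span ((Finsupp.finite_of_nat_weight_eq w (fun i => (hw i).ne') e).image _)

lemma mem_smul [IsLocalRing O] {e : ℕ} {p : MvPolynomial (Fin N) O}
    (hp : p.IsWeightedHomogeneous w e) (hc : ∀ k, p.coeff k ∈ maximalIdeal O) :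
    Ideal.Quotient.mk (jacR f) p ∈ maximalIdeal O • Ne w f e := by
  have h1 : p = ∑ m ∈ p.support, (p.coeff m) • monomial m (1 : O) := by
    conv_lhs => rw [p.as_sum]
    refine Finset.sum_congr rfl fun m _ => ?_
    rw [smul_monomial, smul_eq_mul, mul_one]
  rw [h1, map_sum]
  refine Submodule.sum_mem _ fun m hm => ?_
  have h2 : Ideal.Quotient.mk (jacR f) ((p.coeff m) • monomial m (1 : O))
      = (p.coeff m) • Ideal.Quotient.mk (jacR f) (monomial m (1 : O)) := rfl
  rw [h2]
  exact Submodule.smul_mem_smul (hc m) (Submodule.subset_span ⟨m, hp (mem_support_iff.1 hm), rfl⟩)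

lemma exists_big {E : ℕ} {m : Fin N →₀ ℕ} (hm : E * ∑ i, w i < Finsupp.weight w m) :
    ∃ i, E ≤ m i := by
  by_contra hcon
  push Not at hcon
  rw [SpW1.weight_eq, Finset.mul_sum] at hm
  have h1 : ∑ i, m i * w i ≤ ∑ i, E * w i :=
    Finset.sum_le_sum fun i _ => Nat.mul_le_mul_right _ (hcon i).le
  omega

lemma Ne_le [IsLocalRing O] (hf : f.IsWeightedHomogeneous w D) {E : ℕ}
    (hE : ∀ i, (X i : MvPolynomial (Fin N) (ResidueField O)) ^ E ∈
      jacR (MvPolynomial.map (residue O) f)) {e : ℕ} (he : E * ∑ i, w i < e) :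
    Ne w f e ≤ maximalIdeal O • Ne w f e := by
  classical
  refine Submodule.span_le.2 ?_
  rintro _ ⟨m, hm, rfl⟩
  have hm' : Finsupp.weight w m = e := hm
  obtain ⟨i, hi⟩ := exists_big (E := E) (m := m) (by rw [hm']; exact he)
  -- the monomial over the residue field
  have h1 : monomial m (1 : ResidueField O) ∈ jacR (MvPolynomial.map (residue O) f) := by
    have h2 : monomial m (1 : ResidueField O)
        = monomial (m - Finsupp.single i E) 1 * (X i) ^ E := by
      rw [X_pow_eq_monomial, monomial_mul, one_mul, tsub_add_cancel_of_le]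
      rw [Finsupp.single_le_iff]
      exact hi
    rw [h2]
    exact Ideal.mul_mem_left _ _ (hE i)
  obtain ⟨a, b, hab⟩ := mem_jacR_iff'.mp h1
  have hsurj : Function.Surjective (MvPolynomial.map (σ := Fin N) (residue O)) :=
    MvPolynomial.map_surjective _ residue_surjective
  obtain ⟨a0, rfl⟩ := hsurj a
  choose b0 hb0 using fun l => hsurj (b l)
  set p : MvPolynomial (Fin N) O := a0 * f + ∑ l, b0 l * pderiv l f with hp
  have hpJ : p ∈ jacR f := mem_jacR_iff'.mpr ⟨a0, b0, rfl⟩
  have hpm : MvPolynomial.map (residue O) p = monomial m (1 : ResidueField O) := by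
    rw [← hab, hp, map_add, map_mul, map_sum]
    congr 1
    refine Finset.sum_congr rfl fun l _ => ?_
    rw [map_mul, hb0, pderiv_map]
  have h3 : Ideal.Quotient.mk (jacR f) (monomial m (1 : O))
      = Ideal.Quotient.mk (jacR f) (weightedHomogeneousComponent w e (monomial m (1 : O) - p)) := by
    rw [map_sub, weightedHomogeneousComponent_eq_self
      (isWeightedHomogeneous_monomial (R := O) w m 1 hm'), map_sub,
      Ideal.Quotient.eq_zero_iff_mem.mpr (comp_mem hf hpJ e), sub_zero]
  show Ideal.Quotient.mk (jacR f) (monomial m (1 : O)) ∈ maximalIdeal O • Ne w f e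
  rw [h3]
  refine mem_smul (weightedHomogeneousComponent_isWeightedHomogeneous e _) fun k => ?_
  rw [coeff_weightedHomogeneousComponent]
  split_ifs with h4
  · rw [← residue_eq_zero_iff, ← coeff_map, map_sub, hpm, map_monomial, map_one, sub_self,
      coeff_zero]
  · exact Submodule.zero_mem _

lemma monomial_mem [IsLocalRing O] (hw : ∀ i, 0 < w i) (hf : f.IsWeightedHomogeneous w D) {E : ℕ}
    (hE : ∀ i, (X i : MvPolynomial (Fin N) (ResidueField O)) ^ E ∈
      jacR (MvPolynomial.map (residue O) f)) {m : Fin N →₀ ℕ}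
    (hm : E * ∑ i, w i < Finsupp.weight w m) : monomial m (1 : O) ∈ jacR f := by
  have h1 : Ne w f (Finsupp.weight w m) = ⊥ :=
    Submodule.eq_bot_of_le_smul_of_le_jacobson_bot (maximalIdeal O) _ (fg_Ne hw _)
      (Ne_le hf hE hm) (maximalIdeal_le_jacobson _)
  have h2 : Ideal.Quotient.mk (jacR f) (monomial m (1 : O)) ∈ Ne w f (Finsupp.weight w m) :=
    Submodule.subset_span ⟨m, rfl, rfl⟩
  rw [h1, Submodule.mem_bot] at h2
  exact Ideal.Quotient.eq_zero_iff_mem.1 h2

end SpJN

/-- Graded Nakayama. -/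
theorem jac_nakayama {O : Type u} [CommRing O] [IsLocalRing O] {N : ℕ} {w : Fin N → ℕ} {D : ℕ}
    {f : MvPolynomial (Fin N) O} (hw : ∀ i, 0 < w i) (hf : f.IsWeightedHomogeneous w D) {E : ℕ}
    (hE : ∀ i, (X i : MvPolynomial (Fin N) (ResidueField O)) ^ E ∈
      jacR (MvPolynomial.map (residue O) f)) :
    ∃ E' : ℕ, ∀ i, (X i : MvPolynomial (Fin N) O) ^ E' ∈ jacR f := by
  refine ⟨E * ∑ i, w i + 1, fun i => ?_⟩
  rw [X_pow_eq_monomial]
  refine SpJN.monomial_mem hw hf hE ?_
  rw [Finsupp.weight_apply, Finsupp.sum_single_index (by simp), smul_eq_mul]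
  exact (Nat.lt_succ_self _).trans_le (Nat.le_mul_of_pos_right _ (hw i))

/-- A weighted homogeneous form with a unit coefficient at a power of `X 0` is monic in `X 0` up to
a unit. -/
theorem whom_monic {O : Type u} [CommRing O] [Nontrivial O] {M : ℕ} {w : Fin (M + 1) → ℕ} {D n : ℕ}
    {f : MvPolynomial (Fin (M + 1)) O} (hw : ∀ i, 0 < w i) (hf : f.IsWeightedHomogeneous w D)
    (hn : w 0 * n = D) (hu : IsUnit (f.coeff (Finsupp.single 0 n))) :
    IsUnit (finSuccEquiv O M f).leadingCoeff := by
  classical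
  -- coefficients vanish unless the weight is `D`
  have h0 : ∀ (k : ℕ) (m : Fin M →₀ ℕ), coeff (m.cons k) f ≠ 0 →
      k * w 0 + ∑ i, m i * w i.succ = D := by
    intro k m hk
    have h1 := hf hk
    rw [SpW1.weight_eq, Fin.sum_univ_succ] at h1
    simpa using h1
  have h1 : (finSuccEquiv O M f).coeff n = C (f.coeff (Finsupp.single 0 n)) := by
    refine MvPolynomial.ext _ _ fun m => ?_
    rw [finSuccEquiv_coeff_coeff, coeff_C]
    by_cases hm : 0 = m
    · subst hm
      rw [if_pos rfl]
      congr 1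
      ext i
      refine Fin.cases ?_ (fun j => ?_) i
      · simp
      · simp
    · rw [if_neg hm]
      by_contra hne
      have h2 := h0 _ _ hne
      have h3 : ∑ i, m i * w i.succ = 0 := by
        rw [mul_comm] at hn
        omega
      apply hm
      ext i
      have h4 := (Finset.sum_eq_zero_iff.1 h3) i (Finset.mem_univ i)
      rcases Nat.mul_eq_zero.1 h4 with h5 | h5
      · rw [h5]
        rfl
      · exact absurd h5 (hw _).ne'
  have hu' : IsUnit (C (f.coeff (Finsupp.single 0 n)) : MvPolynomial (Fin M) O) := hu.map C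
  have h2 : (finSuccEquiv O M f).natDegree = n := by
    refine Polynomial.natDegree_eq_of_le_of_coeff_ne_zero ?_ ?_
    · rw [Polynomial.natDegree_le_iff_coeff_eq_zero]
      intro k hk
      refine MvPolynomial.ext _ _ fun m => ?_
      rw [finSuccEquiv_coeff_coeff, coeff_zero]
      by_contra hne
      have h3 := h0 _ _ hne
      have h5 : w 0 * n < k * w 0 := by
        rw [mul_comm]
        exact Nat.mul_lt_mul_of_pos_right hk (hw 0)
      omega
    · rw [h1]
      exact hu'.ne_zero
  rw [Polynomial.leadingCoeff, h2, h1]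
  exact hu'

end Pool.Agent.HT51
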