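import Pool.Agent.HT51.SpCr
import Pool.Agent.HT51.SpW7
import Pool.Agent.HT51.SpJK

/-!
# From `hd = 0` to `theta = 0` without a monic variable

The first section repeats the change of variables from Mathlib's `NoetherNormalization.lean`
(Nagata), whose lemmas are private there.
-/

universe u

namespace Pool.Agent.HT51

namespace SpNN

section equivT

open Polynomial MvPolynomial Ideal Nat RingHom List

variable {k : Type u} [Field k] {n : ℕ} (f : MvPolynomial (Fin (n + 1)) k)
variable (v w : Fin (n + 1) →₀ ℕ)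


variable {f v} in
lemma lt_up (vlt : ∀ i, v i < (2 + f.totalDegree)) : ∀ l ∈ ofFn v, l < (2 + f.totalDegree) := by
  grind


lemma t1_comp_t1_neg (c : k) :
    (NoetherNormalization.T1 f c).comp (NoetherNormalization.T1 f (-c)) = AlgHom.id _ _ := by
  rw [comp_aeval, ← MvPolynomial.aeval_X_left]
  ext i v
  cases i using Fin.cases <;> simp

/-- the change of variables -/
noncomputable abbrev T := AlgEquiv.ofAlgHom (NoetherNormalization.T1 f 1)
  (NoetherNormalization.T1 f (-1))
  (t1_comp_t1_neg f 1) (by simpa using t1_comp_t1_neg f (-1))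

lemma sum_r_mul_ne (vlt : ∀ i, v i < (2 + f.totalDegree)) (wlt : ∀ i, w i < (2 + f.totalDegree)) (ne : v ≠ w) :
    ∑ x : Fin (n + 1), (fun (i : Fin (n + 1)) ↦ (2 + f.totalDegree) ^ i.1) x * v x ≠ ∑ x : Fin (n + 1), (fun (i : Fin (n + 1)) ↦ (2 + f.totalDegree) ^ i.1) x * w x := by
  intro h
  refine ne <| Finsupp.ext <| congrFun <| ofFn_inj.mp ?_
  apply ofDigits_inj_of_len_eq (Nat.lt_add_right f.totalDegree one_lt_two)
    (by simp) (lt_up vlt) (lt_up wlt)
  simpa only [ofDigits_eq_sum_mapIdx, mapIdx_eq_ofFn, get_ofFn, length_ofFn,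
    Fin.val_cast, mul_comm, sum_ofFn] using! h

lemma degreeOf_zero_t {a : k} (ha : a ≠ 0) : ((T f) (monomial v a)).degreeOf 0 =
    ∑ i : Fin (n + 1), ((fun (i : Fin (n + 1)) ↦ (2 + f.totalDegree) ^ i.1) i) * v i := by
  rw [← natDegree_finSuccEquiv, monomial_eq, Finsupp.prod_pow v fun a ↦ X a]
  simp only [Fin.prod_univ_succ, Fin.sum_univ_succ, map_mul, map_prod, map_pow,
    AlgEquiv.ofAlgHom_apply, MvPolynomial.aeval_C, MvPolynomial.aeval_X, if_pos, Fin.succ_ne_zero,
    ite_false, one_smul, map_add, finSuccEquiv_X_zero, finSuccEquiv_X_succ, algebraMap_eq]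
  have h (i : Fin n) :
      (Polynomial.C (X (R := k) i) + Polynomial.X ^ (fun (i : Fin (n + 1)) ↦ (2 + f.totalDegree) ^ i.1) i.succ) ^ v i.succ ≠ 0 :=
    pow_ne_zero (v i.succ) (leadingCoeff_ne_zero.mp <| by simp [add_comm, leadingCoeff_X_pow_add_C])
  rw [natDegree_mul (by simp [ha]) (mul_ne_zero (by simp) (Finset.prod_ne_zero_iff.mpr
    (fun i _ ↦ h i))), natDegree_mul (by simp) (Finset.prod_ne_zero_iff.mpr (fun i _ ↦ h i)),
    natDegree_prod _ _ (fun i _ ↦ h i), natDegree_finSuccEquiv, degreeOf_C]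
  simpa only [natDegree_pow, zero_add, natDegree_X, mul_one, Fin.val_zero, pow_zero, one_mul,
    add_right_inj] using Finset.sum_congr rfl (fun i _ ↦ by
    rw [add_comm (Polynomial.C _), natDegree_X_pow_add_C, mul_comm])

lemma degreeOf_t_ne_of_ne (hv : v ∈ f.support) (hw : w ∈ f.support) (ne : v ≠ w) :
    (T f <| monomial v <| coeff v f).degreeOf 0 ≠
    (T f <| monomial w <| coeff w f).degreeOf 0 := by
  rw [degreeOf_zero_t _ _ <| mem_support_iff.mp hv, degreeOf_zero_t _ _ <| mem_support_iff.mp hw]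
  refine sum_r_mul_ne f v w (fun i ↦ ?_) (fun i ↦ ?_) ne <;>
  exact lt_of_le_of_lt ((monomial_le_degreeOf i ‹_›).trans (degreeOf_le_totalDegree f i))
    (by lia)

lemma leadingCoeff_finSuccEquiv_t :
    (finSuccEquiv k n ((T f) ((monomial v) (coeff v f)))).leadingCoeff =
    algebraMap k _ (coeff v f) := by
  rw [monomial_eq, Finsupp.prod_fintype]
  · simp only [map_mul, map_prod, leadingCoeff_mul, leadingCoeff_prod]
    rw [AlgEquiv.ofAlgHom_apply, algHom_C, algebraMap_eq, finSuccEquiv_apply,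
      eval₂Hom_C, coe_comp]
    simp only [AlgEquiv.ofAlgHom_apply, Function.comp_apply, leadingCoeff_C, map_pow,
      leadingCoeff_pow, algebraMap_eq]
    have : ∀ j, ((finSuccEquiv k n) ((NoetherNormalization.T1 f) 1 (X j))).leadingCoeff = 1 :=
      fun j ↦ by
      by_cases h : j = 0
      · simp [h, finSuccEquiv_apply]
      · simp only [aeval_eq_bind₁, bind₁_X_right, if_neg h, one_smul, map_add, map_pow]
        obtain ⟨i, rfl⟩ := Fin.exists_succ_eq.mpr h
        simp [finSuccEquiv_X_succ, finSuccEquiv_X_zero, add_comm]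
    simp only [this, one_pow, Finset.prod_const_one, mul_one]
  exact fun i ↦ pow_zero _

/-- `T` maps `f` into some polynomial in `X 0` with invertible leading coefficient. -/
lemma T_leadingcoeff_isUnit (fne : f ≠ 0) :
    IsUnit (finSuccEquiv k n (T f f)).leadingCoeff := by
  obtain ⟨v, vin, vs⟩ := Finset.exists_max_image f.support
    (fun v ↦ (T f ((monomial v) (coeff v f))).degreeOf 0) (support_nonempty.mpr fne)
  set h := fun w ↦ (MvPolynomial.monomial w) (coeff w f)
  simp only [← natDegree_finSuccEquiv] at vs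
  replace vs : ∀ x ∈ f.support \ {v}, (finSuccEquiv k n ((T f) (h x))).degree <
      (finSuccEquiv k n ((T f) (h v))).degree := by
    intro x hx
    obtain ⟨h1, h2⟩ := Finset.mem_sdiff.mp hx
    apply degree_lt_degree <| lt_of_le_of_ne (vs x h1) ?_
    simpa only [natDegree_finSuccEquiv]
      using degreeOf_t_ne_of_ne f _ _ h1 vin <| ne_of_not_mem_cons h2
  have coeff : (finSuccEquiv k n ((T f) (h v + ∑ x ∈ f.support \ {v}, h x))).leadingCoeff =
      (finSuccEquiv k n ((T f) (h v))).leadingCoeff := by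
    simp only [map_add, map_sum]
    rw [add_comm]
    apply leadingCoeff_add_of_degree_lt <| (lt_of_le_of_lt <| degree_sum_le _ _) ?_
    have h2 : h v ≠ 0 := by simpa [h] using mem_support_iff.mp vin
    replace h2 : (finSuccEquiv k n ((T f) (h v))) ≠ 0 := fun eq ↦ h2 <|
      by simpa only [map_eq_zero_iff _ (AlgEquiv.injective _)] using eq
    exact (Finset.sup_lt_iff <| Ne.bot_lt (fun x ↦ h2 <| degree_eq_bot.mp x)).mpr vs
  nth_rw 2 [← f.support_sum_monomial_coeff]
  rw [Finset.sum_eq_add_sum_sdiff_singleton_of_mem vin h]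
  rw [leadingCoeff_finSuccEquiv_t] at coeff
  simpa only [coeff, algebraMap_eq] using (mem_support_iff.mp vin).isUnit.map MvPolynomial.C

end equivT

end SpNN

open MvPolynomial Pool.Agent.HT21

section iso

variable {P P' : Type u} [CommRing P] [CommRing P'] (ε : P ≃+* P')

/-- `HH` under an isomorphism of rings, restriction of scalars -/
lemma len_HH_iso {r : ℕ} (φ ψ : Matrix (Fin r) (Fin r) P) (W : Type u) [AddCommGroup W]
    [Module P' W] : Module.length P (HH φ ψ (Res (ε : P →+* P') W))
      = Module.length P' (HH (φ.map (ε : P →+* P')) (ψ.map (ε : P →+* P')) W) :=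
  HH_length_res (ε : P →+* P') ε.surjective φ ψ W

/-- the cokernel under an isomorphism of rings -/
lemma cok_iso {s : ℕ} (A : Matrix (Fin s) (Fin s) P) :
    Nonempty (Cok A ≃ₗ[P] Res (ε : P →+* P') (Cok (A.map (ε : P →+* P')))) := by
  let g : (Fin s → P) →ₗ[P] Res (ε : P →+* P') (Fin s → P') :=
    { toFun := fun x => (fun j => ε (x j) : Fin s → P')
      map_add' := fun x y => funext fun j => map_add ε _ _
      map_smul' := fun a x => funext fun j => map_mul ε _ _ }
  have hgs : ∀ y : Fin s → P', ∃ x : Fin s → P, (fun j => ε (x j)) = y := fun y =>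
    ⟨fun j => ε.symm (y j), funext fun j => ε.apply_symm_apply _⟩
  have hmul : ∀ x : Fin s → P, (A.map (ε : P →+* P')).mulVecLin (fun j => ε (x j))
      = fun j => ε (A.mulVecLin x j) := by
    intro x
    funext k
    show ∑ l, ε (A k l) * ε (x l) = ε (∑ l, A k l * x l)
    rw [map_sum]
    simp only [map_mul]
  let p : (Fin s → P) →ₗ[P] Res (ε : P →+* P') (Cok (A.map (ε : P →+* P'))) :=
    (resMap (ε : P →+* P') (Submodule.mkQ (LinearMap.range
      (A.map (ε : P →+* P')).mulVecLin))).comp g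
  have hp : Function.Surjective p := by
    intro y
    obtain ⟨z, hz⟩ := Submodule.mkQ_surjective _ y
    obtain ⟨x, rfl⟩ := hgs z
    exact ⟨x, hz⟩
  have hker : LinearMap.ker p = LinearMap.range A.mulVecLin := by
    ext x
    rw [LinearMap.mem_ker]
    constructor
    · intro hx
      have h1 : (Submodule.Quotient.mk (fun j => ε (x j)) : Cok (A.map (ε : P →+* P'))) = 0 := hx
      rw [Submodule.Quotient.mk_eq_zero] at h1
      obtain ⟨y, hy⟩ := h1
      obtain ⟨z, rfl⟩ := hgs y
      rw [hmul] at hy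
      exact ⟨z, funext fun j => ε.injective (congrFun hy j)⟩
    · rintro ⟨z, rfl⟩
      have h1 : (Submodule.Quotient.mk (fun j => ε (A.mulVecLin z j)) :
          Cok (A.map (ε : P →+* P'))) = 0 := by
        rw [Submodule.Quotient.mk_eq_zero]
        exact ⟨fun j => ε (z j), hmul z⟩
      exact h1
  exact ⟨(Submodule.quotEquivOfEq _ _ hker.symm).trans (p.quotKerEquivOfSurjective hp)⟩

/-- `hd` under an isomorphism of rings -/
lemma hd_iso {f : P} {r s : ℕ} (F : MF f r) (G : MF f s) :
    hd (F.map (ε : P →+* P')) (G.map (ε : P →+* P')) = hd F G := by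
  obtain ⟨e⟩ := cok_iso ε G.phi
  unfold hd
  rw [HH_length_congr F.phi F.psi e, HH_length_congr F.psi F.phi e, len_HH_iso, len_HH_iso]
  rfl

end iso

/-- `hd = 0` for all matrix factorisations of `f` implies `theta = 0`, any `f ≠ 0` over a field with
powers of the variables in `(f, all derivatives)`. -/
theorem theta_of_hd_any (k : Type u) [Field k] {M : ℕ} (f : MvPolynomial (Fin (M + 1)) k)
    (hf : f ≠ 0) (E : ℕ)
    (hE : ∀ i, (X i : MvPolynomial (Fin (M + 1)) k) ^ E ∈
      Ideal.span ({f} ∪ Set.range fun i => pderiv i f))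
    (h : ∀ (r s : ℕ) (F : MF f r) (G : MF f s), hd F G = 0) {Q : Type u} [CommRing Q]
    (π : MvPolynomial (Fin (M + 1)) k →+* Q) (hπ : Function.Surjective π)
    (hker : RingHom.ker π = Ideal.span {f})
    (W V : Type u) [AddCommGroup W] [Module Q W] [Module.Finite Q W] [AddCommGroup V] [Module Q V]
    [Module.Finite Q V] (e : ℕ) (he : M + 1 ≤ 2 * e + 1) : theta Q e W V = 0 := by
  let ε : MvPolynomial (Fin (M + 1)) k ≃+* MvPolynomial (Fin (M + 1)) k := (SpNN.T f).toRingEquiv
  let δ : MvPolynomial (Fin (M + 1)) k ≃+* MvPolynomial (Fin (M + 1)) k := ε.symm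
  have hδ : (δ : MvPolynomial (Fin (M + 1)) k →+* MvPolynomial (Fin (M + 1)) k) (ε f) = f :=
    ε.symm_apply_apply f
  have hmon : IsUnit (finSuccEquiv k M (ε f)).leadingCoeff := SpNN.T_leadingcoeff_isUnit f hf
  have hlen0 : ∀ (g : MvPolynomial (Fin (M + 1)) k), g = f → ∀ (r : ℕ) (F : MF g r)
      (W : Type u) [AddCommGroup W] [Module (MvPolynomial (Fin (M + 1)) k) W]
      [Module.Finite (MvPolynomial (Fin (M + 1)) k) W],
      Module.length (MvPolynomial (Fin (M + 1)) k) (HH F.phi F.psi W) ≠ ⊤ := by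
    rintro g rfl r F W _ _ _
    exact hh_length_jac' g E hE F W
  have h0 : ∀ (g : MvPolynomial (Fin (M + 1)) k), g = f → ∀ (r s : ℕ) (F : MF g r) (G : MF g s),
      hd F G = 0 := by
    rintro g rfl
    exact h
  refine theta_quot_map (ε f) hmon ?_ ?_
    (π.comp (δ : MvPolynomial (Fin (M + 1)) k →+* MvPolynomial (Fin (M + 1)) k))
    (hπ.comp δ.surjective) ?_ W V e (by omega)
  · intro r F W _ _ _
    have hfin : Module.Finite (MvPolynomial (Fin (M + 1)) k)
        (Res (ε : MvPolynomial (Fin (M + 1)) k →+* MvPolynomial (Fin (M + 1)) k) W) :=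
      res_finite _ (RingHom.Finite.of_surjective _ ε.surjective)
    have h1 := len_HH_iso ε (F.phi.map
      (δ : MvPolynomial (Fin (M + 1)) k →+* MvPolynomial (Fin (M + 1)) k))
      (F.psi.map (δ : MvPolynomial (Fin (M + 1)) k →+* MvPolynomial (Fin (M + 1)) k)) W
    have h2 : ∀ A : Matrix (Fin r) (Fin r) (MvPolynomial (Fin (M + 1)) k),
        (A.map (δ : MvPolynomial (Fin (M + 1)) k →+* MvPolynomial (Fin (M + 1)) k)).map
          (ε : MvPolynomial (Fin (M + 1)) k →+* MvPolynomial (Fin (M + 1)) k) = A := by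
      intro A
      ext1 a b
      exact ε.apply_symm_apply _
    rw [h2, h2] at h1
    rw [← h1]
    exact hlen0 _ hδ r
      (F.map (δ : MvPolynomial (Fin (M + 1)) k →+* MvPolynomial (Fin (M + 1)) k)) _
  · intro r s F G
    rw [← hd_iso δ F G]
    exact h0 _ hδ r s _ _
  · ext x
    rw [RingHom.mem_ker, RingHom.comp_apply, ← RingHom.mem_ker, hker, Ideal.mem_span_singleton',
      Ideal.mem_span_singleton']
    constructor
    · rintro ⟨a, ha⟩
      refine ⟨ε a, ?_⟩
      rw [← map_mul, ha]
      exact ε.apply_symm_apply x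
    · rintro ⟨a, rfl⟩
      refine ⟨ε.symm a, ?_⟩
      show _ = ε.symm (a * ε f)
      rw [map_mul, ε.symm_apply_apply]

end Pool.Agent.HT51
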