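import Pool.Agent.HT51.Link

/-!
# From `theta = 0` over `k[X]/(f0)` to the regular local ring
-/

universe u

namespace Pool.Agent.HT51

open MvPolynomial IsLocalRing Pool.Agent.HT21

/-- If `theta` vanishes over `k[X]/(P mod m)`, then `theta` vanishes over `R/(f)` for every `f` with
leading form `P`. -/
theorem link_theta {R : Type u} [CommRing R] [IsLocalRing R] [IsNoetherianRing R]
    (d : ℕ) (x : Fin (d + 1) → R)
    (hx : Ideal.span (Set.range x) = maximalIdeal R)
    (hreg : RingTheory.Sequence.IsRegular R (List.ofFn x))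
    (w : Fin (d + 1) → ℕ) (hw : ∀ i, 0 < w i) (N : ℕ) (hN : 0 < N)
    (P : MvPolynomial (Fin (d + 1)) R) (hP : P.IsWeightedHomogeneous w N)
    (hP0 : P.map (residue R) ≠ 0)
    (hJ : Module.Finite (ResidueField R) (MvPolynomial (Fin (d + 1)) (ResidueField R) ⧸
      jacIdeal (P.map (residue R))))
    (hz : ∀ {Q : Type u} [CommRing Q] (π : MvPolynomial (Fin (d + 1)) (ResidueField R) →+* Q),
      Function.Surjective π → RingHom.ker π = Ideal.span {P.map (residue R)} →
      ∀ (W V : Type u) [AddCommGroup W] [Module Q W] [Module.Finite Q W] [AddCommGroup V]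
        [Module Q V] [Module.Finite Q V] (e : ℕ), d ≤ 2 * e → theta Q e W V = 0)
    (f : R) (hf : f - aeval x P ∈ (wFilt x w).F (N + 1))
    (L M : Type u) [AddCommGroup L] [Module (R ⧸ Ideal.span {f}) L]
    [AddCommGroup M] [Module (R ⧸ Ideal.span {f}) M]
    [Module.Finite (R ⧸ Ideal.span {f}) L] [Module.Finite (R ⧸ Ideal.span {f}) M] :
    (∀ i, d < i → torLen (R ⧸ Ideal.span {f}) i L M ≠ ⊤ ∧
      torLen (R ⧸ Ideal.span {f}) (i + 1) L M = torLen (R ⧸ Ideal.span {f}) i L M) ∧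
    ∀ e, d ≤ 2 * e → theta (R ⧸ Ideal.span {f}) e L M = 0 := by
  classical
  -- the graded ring
  obtain ⟨φ, hφ, hker, -, -⟩ := gr_hyp x w hw hx hreg.toIsWeaklyRegular N P hP hP0 f hf
  have hnoeth : IsNoetherianRing (wFilt (fun i => Ideal.Quotient.mk (Ideal.span {f}) (x i)) w).gr :=
    isNoetherianRing_of_surjective _ _ φ hφ
  let 𝓛 := MFilt.std (wFilt (fun i => Ideal.Quotient.mk (Ideal.span {f}) (x i)) w) L
  let 𝓜 := MFilt.std (wFilt (fun i => Ideal.Quotient.mk (Ideal.span {f}) (x i)) w) M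
  have hL : 𝓛.Good := MFilt.std_good _ L
  have hM : 𝓜.Good := MFilt.std_good _ M
  have hLf := gr_finite 𝓛 hL
  have hMf := gr_finite 𝓜 hM
  obtain ⟨h1, h2⟩ := tangent_cone d x w hw hx hreg N hN P hP hP0 f hf hJ L M 𝓛 𝓜 hL hM
  have hth : ∀ e, d ≤ 2 * e → theta (R ⧸ Ideal.span {f}) e L M = 0 := by
    intro e he
    rw [h2 e he]
    exact hz φ hφ hker 𝓛.gr 𝓜.gr e he
  refine ⟨fun i hi => ⟨(h1 i hi).1, ?_⟩, hth⟩
  refine const_of_theta_zero L M d (fun i hi => ?_) (fun i hi => (h1 i hi).1)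
    (fun e he => hth e (by omega)) i hi
  exact hypA d x w hw hx hreg N hN P hP hP0 f hf L M i hi

end Pool.Agent.HT51
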