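import Pool.Agent.HT51.SpJZ
import Pool.Agent.HT51.SpJN
import Pool.Agent.HT51.SpW62
import Pool.Agent.HT51.SpW8
import Pool.Agent.HT51.SpNN

/-!
# `theta = 0` in a regular local ring: the leading form specialises to a good form

`P` weighted homogeneous, its reduction to the residue field `k` is defined over a local principal
ideal domain `O` inside `k` (a field, or a discrete valuation ring over which the form is monic in one
variable), powers of the variables lie in the Jacobian ideal, and the reduction to the residue field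
of `O` is defined over a finitely generated ring such that all its specialisations to finite fields
have the vanishing property.
-/

universe u

namespace Pool.Agent.HT51

open MvPolynomial Pool.Agent.HT21 IsLocalRing

section perm

variable {T : Type u} [CommRing T] {N : ℕ} (e : Equiv.Perm (Fin N))

lemma rename_mem_jacR {f a : MvPolynomial (Fin N) T} (ha : a ∈ jacR f) :
    rename e a ∈ jacR (rename e f) := by
  obtain ⟨b, c, rfl⟩ := mem_jacR_iff'.mp ha
  refine mem_jacR_iff'.mpr ⟨rename e b, fun i => rename e (c (e.symm i)), ?_⟩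
  rw [map_add, map_mul, map_sum]
  congr 1
  rw [← Equiv.sum_comp e]
  refine Finset.sum_congr rfl fun i _ => ?_
  show rename e (c (e.symm (e i))) * pderiv (e i) (rename e f) = rename e (c i * pderiv i f)
  rw [e.symm_apply_apply, map_mul, pderiv_rename e.injective]

lemma jac_rename {f : MvPolynomial (Fin N) T} {E : ℕ}
    (hE : ∀ i, (X i : MvPolynomial (Fin N) T) ^ E ∈ jacR f) :
    ∀ i, (X i : MvPolynomial (Fin N) T) ^ E ∈ jacR (rename e f) := by
  intro i
  have h := rename_mem_jacR e (hE (e.symm i))
  rwa [map_pow, rename_X, e.apply_symm_apply] at h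

/-- renaming as a ring isomorphism -/
noncomputable def renR (T : Type u) [CommRing T] {N : ℕ} (e : Equiv.Perm (Fin N)) :
    MvPolynomial (Fin N) T ≃+* MvPolynomial (Fin N) T :=
  (renameEquiv T e).toRingEquiv

lemma renR_apply (f : MvPolynomial (Fin N) T) :
    (renR T e : MvPolynomial (Fin N) T →+* MvPolynomial (Fin N) T) f = rename e f := rfl

lemma map_span_rename (f : MvPolynomial (Fin N) T) :
    Ideal.span {rename e f} = (Ideal.span {f}).map
      (renR T e : MvPolynomial (Fin N) T →+* MvPolynomial (Fin N) T) := by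
  rw [Ideal.map_span, Set.image_singleton]
  rfl

lemma zeroProp_rename {κ : Type u} [Field κ] (f : MvPolynomial (Fin N) κ)
    (h : ZeroProp (MvPolynomial (Fin N) κ ⧸ Ideal.span {f})) :
    ZeroProp (MvPolynomial (Fin N) κ ⧸ Ideal.span {MvPolynomial.rename e f}) := by
  have e1 : (MvPolynomial (Fin N) κ ⧸ Ideal.span {f}) ≃+*
      (MvPolynomial (Fin N) κ ⧸ Ideal.span {MvPolynomial.rename e f}) :=
    Ideal.quotientEquiv (Ideal.span {f}) (Ideal.span {MvPolynomial.rename e f}) (renR κ e)
      (map_span_rename e f)
  exact ZeroProp.of_equiv e1.symm h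

lemma FinZP.rename {f : MvPolynomial (Fin N) T} (h : FinZP f) :
    FinZP (MvPolynomial.rename e f) := by
  intro κ _ _ g
  have h2 : MvPolynomial.map g (MvPolynomial.rename e f)
      = MvPolynomial.rename e (MvPolynomial.map g f) := map_rename g e f
  rw [h2]
  exact zeroProp_rename e _ (h κ g)

end perm

/-- The residue field of a field. -/
noncomputable def fieldRes {O k : Type u} [CommRing O] [IsLocalRing O] [Field k] (hO : IsField O)
    (j : O →+* k) : {j' : ResidueField O →+* k // j'.comp (residue O) = j} := by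
  have hb : Function.Bijective (residue O) := by
    refine ⟨?_, residue_surjective⟩
    rw [injective_iff_map_eq_zero]
    intro a ha
    by_contra h0
    obtain ⟨b, hb⟩ := hO.mul_inv_cancel h0
    have h1 := congrArg (residue O) hb
    rw [map_mul, ha, zero_mul, map_one] at h1
    exact zero_ne_one h1
  let e : O ≃+* ResidueField O := RingEquiv.ofBijective (residue O) hb
  refine ⟨j.comp (e.symm : ResidueField O →+* O), RingHom.ext fun x => ?_⟩
  show j (e.symm (e x)) = j x
  rw [e.symm_apply_apply]

/-- `hd = 0` over a field which contains `O`. -/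
theorem hd_over {O k : Type u} [CommRing O] [IsDomain O] [IsLocalRing O] [IsPrincipalIdealRing O]
    [Field k] (j : O →+* k) (hj : Function.Injective j) {d : ℕ}
    (fO : MvPolynomial (Fin (d + 1)) O) (hne : MvPolynomial.map (residue O) fO ≠ 0)
    (hcase : IsField O ∨ ∃ e : Equiv.Perm (Fin (d + 1)),
      IsUnit (finSuccEquiv O d (rename e fO)).leadingCoeff)
    (E : ℕ) (hE : ∀ i, (X i : MvPolynomial (Fin (d + 1)) O) ^ E ∈ jacR fO)
    {A : Type u} [CommRing A] (hA : (Int.castRingHom A).FiniteType) (g : A →+* ResidueField O)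
    (fA : MvPolynomial (Fin (d + 1)) A)
    (hfA : MvPolynomial.map g fA = MvPolynomial.map (residue O) fO) (hz : FinZP fA)
    {r s : ℕ} (F : MF (MvPolynomial.map j fO) r) (G : MF (MvPolynomial.map j fO) s) :
    hd F G = 0 := by
  have hne' : ∀ {T : Type u} [Field T] (a : ResidueField O →+* T),
      MvPolynomial.map (a.comp (residue O)) fO ≠ 0 := by
    intro T _ a h
    rw [← MvPolynomial.map_map] at h
    exact hne (MvPolynomial.map_injective _ a.injective (by rw [h, map_zero]))
  rcases hcase with hO | ⟨e, hlc⟩
  · obtain ⟨j', hj'⟩ := fieldRes hO j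
    have h1 : MvPolynomial.map (j'.comp g) fA = MvPolynomial.map j fO := by
      rw [← MvPolynomial.map_map, hfA, MvPolynomial.map_map, hj']
    have h2 : MvPolynomial.map j fO ≠ 0 := by
      rw [← hj']
      exact hne' j'
    exact hd_anyJ h2 (map_pow_mem_jacR j hE) hA (j'.comp g) fA h1 hz F G
  · have h1 : rename e (MvPolynomial.map j fO) = MvPolynomial.map j (rename e fO) :=
      (map_rename j e fO).symm
    rw [← hd_iso (renR k e) F G]
    let F' : MF (MvPolynomial.map j (rename e fO)) r :=
      (F.map (renR k e : MvPolynomial (Fin (d + 1)) k →+* MvPolynomial (Fin (d + 1)) k)).ofEq h1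
    let G' : MF (MvPolynomial.map j (rename e fO)) s :=
      (G.map (renR k e : MvPolynomial (Fin (d + 1)) k →+* MvPolynomial (Fin (d + 1)) k)).ofEq h1
    show hd F' G' = 0
    refine hd_gen j hj (rename e fO) hlc E (jac_rename e hE) ?_ F' G'
    intro κ _ π r s F G
    have h2 : MvPolynomial.map (π.comp (residue O)) (rename e fO)
        = MvPolynomial.map (π.comp g) (rename e fA) := by
      rw [map_rename, map_rename, ← MvPolynomial.map_map, ← MvPolynomial.map_map, hfA]
    have h3 : MvPolynomial.map (π.comp (residue O)) (rename e fO) ≠ 0 := by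
      rw [map_rename]
      intro h
      refine hne' π ?_
      exact (rename_injective e e.injective) (by rw [h, map_zero])
    exact hd_anyJ h3 (map_pow_mem_jacR _ (jac_rename e hE)) hA (π.comp g) (rename e fA) h2.symm
      (hz.rename e) F G

theorem gen_vanish_j {R : Type u} [CommRing R] [IsLocalRing R] [IsNoetherianRing R]
    (d : ℕ) (x : Fin (d + 1) → R)
    (hx : Ideal.span (Set.range x) = maximalIdeal R)
    (hreg : RingTheory.Sequence.IsRegular R (List.ofFn x))
    (w : Fin (d + 1) → ℕ) (hw : ∀ i, 0 < w i) (N : ℕ) (hN : 0 < N)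
    (P : MvPolynomial (Fin (d + 1)) R) (hP : P.IsWeightedHomogeneous w N)
    {O : Type u} [CommRing O] [IsDomain O] [IsLocalRing O] [IsPrincipalIdealRing O]
    (j : O →+* ResidueField R) (hj : Function.Injective j)
    (fO : MvPolynomial (Fin (d + 1)) O) (hfO : MvPolynomial.map j fO = P.map (residue R))
    (hne : MvPolynomial.map (residue O) fO ≠ 0)
    (hcase : IsField O ∨ ∃ e : Equiv.Perm (Fin (d + 1)),
      IsUnit (finSuccEquiv O d (rename e fO)).leadingCoeff)
    (E : ℕ) (hE : ∀ i, (X i : MvPolynomial (Fin (d + 1)) O) ^ E ∈ jacR fO)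
    {A : Type u} [CommRing A] (hA : (Int.castRingHom A).FiniteType) (g : A →+* ResidueField O)
    (fA : MvPolynomial (Fin (d + 1)) A)
    (hfA : MvPolynomial.map g fA = MvPolynomial.map (residue O) fO) (hz : FinZP fA)
    (f : R) (hf : f - aeval x P ∈ (wFilt x w).F (N + 1))
    (L M : Type u) [AddCommGroup L] [Module (R ⧸ Ideal.span {f}) L]
    [AddCommGroup M] [Module (R ⧸ Ideal.span {f}) M]
    [Module.Finite (R ⧸ Ideal.span {f}) L] [Module.Finite (R ⧸ Ideal.span {f}) M] :
    (∀ i, d < i → torLen (R ⧸ Ideal.span {f}) i L M ≠ ⊤ ∧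
      torLen (R ⧸ Ideal.span {f}) (i + 1) L M = torLen (R ⧸ Ideal.span {f}) i L M) ∧
    ∀ e, d ≤ 2 * e → theta (R ⧸ Ideal.span {f}) e L M = 0 := by
  classical
  -- a unit coefficient
  obtain ⟨m, hm⟩ := ne_zero_iff.mp hne
  have hmu : IsUnit (coeff m fO) := by
    rw [coeff_map, Ne, residue_eq_zero_iff] at hm
    exact notMem_maximalIdeal.mp hm
  have hP0 : P.map (residue R) ≠ 0 := by
    rw [← hfO]
    intro h
    have h1 := congrArg (coeff m) h
    rw [coeff_map, coeff_zero] at h1
    exact (hmu.map j).ne_zero h1
  have hEk : ∀ i, (X i : MvPolynomial (Fin (d + 1)) (ResidueField R)) ^ E ∈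
      jacR (P.map (residue R)) := by
    rw [← hfO]
    exact map_pow_mem_jacR j hE
  have hJ : Module.Finite (ResidueField R) (MvPolynomial (Fin (d + 1)) (ResidueField R) ⧸
      jacIdeal (P.map (residue R))) :=
    link_finite _ (fun _ => E) hEk
  -- `hd = 0`
  have hhd : ∀ (r s : ℕ) (F : MF (P.map (residue R)) r)
      (G : MF (P.map (residue R)) s), hd F G = 0 := by
    intro r s
    rw [← hfO]
    intro F G
    exact hd_over j hj fO hne hcase E hE hA g fA hfA hz F G
  refine link_theta d x hx hreg w hw N hN P hP hP0 hJ ?_ f hf L M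
  intro Q _ π hπ hker W V _ _ _ _ _ _ e he
  exact theta_of_hd_any (ResidueField R) (P.map (residue R)) hP0 E hEk hhd π hπ hker W V e
    (by omega)

end Pool.Agent.HT51
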