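import Pool.Agent.HT51.SpJK
import Pool.Agent.HT51.SpCx

/-!
# A polynomial with a unit coefficient is regular modulo every ideal of the base
-/

universe u

namespace Pool.Agent.HT51

open MvPolynomial Pool.Agent.HT21 IsLocalRing

lemma mv_regular {A : Type u} [CommRing A] : ∀ (N : ℕ) (f : MvPolynomial (Fin N) A)
    (m : Fin N →₀ ℕ), IsUnit (coeff m f) → ∀ w : MvPolynomial (Fin N) A, f * w = 0 → w = 0 := by
  intro N
  induction N with
  | zero =>
    intro f m hm w h
    have h1 : f = C (coeff 0 f) := by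
      ext m'
      rw [Subsingleton.elim m' 0, coeff_zero_C]
    rw [Subsingleton.elim m 0] at hm
    have h2 : IsUnit f := by
      rw [h1]
      exact hm.map C
    exact (h2.mul_right_eq_zero).mp h
  | succ N ih =>
    intro f m hm w h
    have h1 : (finSuccEquiv A N f) ∈ nonZeroDivisors (Polynomial (MvPolynomial (Fin N) A)) := by
      rw [Polynomial.mem_nonZeroDivisors_iff]
      intro a ha
      have h2 := congrArg (fun p => Polynomial.coeff p (m 0)) ha
      simp only [Polynomial.coeff_smul, Polynomial.coeff_zero, smul_eq_mul] at h2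
      rw [mul_comm] at h2
      refine ih _ m.tail ?_ a h2
      rw [finSuccEquiv_coeff_coeff, Finsupp.cons_tail]
      exact hm
    have h3 : finSuccEquiv A N f * finSuccEquiv A N w = 0 := by
      rw [← map_mul, h, map_zero]
    have h4 := (mem_nonZeroDivisors_iff.mp h1).1 _ h3
    exact (map_eq_zero_iff _ (finSuccEquiv A N).injective).mp h4

lemma regM_of_unit {O : Type u} [CommRing O] {N : ℕ} {f : MvPolynomial (Fin N) O}
    (hu : ∃ m, IsUnit (coeff m f)) : RegM f := by
  intro I w h
  have hk : ∀ p : MvPolynomial (Fin N) O,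
      p ∈ I.map (C : O →+* MvPolynomial (Fin N) O) ↔
        MvPolynomial.map (Ideal.Quotient.mk I) p = 0 := by
    intro p
    rw [mem_map_C_iff]
    constructor
    · intro hp
      ext m
      rw [coeff_map, coeff_zero, Ideal.Quotient.eq_zero_iff_mem]
      exact hp m
    · intro hp m
      rw [← Ideal.Quotient.eq_zero_iff_mem, ← coeff_map, hp, coeff_zero]
  rw [hk] at h ⊢
  rw [map_mul] at h
  obtain ⟨m, hm⟩ := hu
  refine mv_regular N _ m ?_ _ h
  rw [coeff_map]
  exact hm.map _

lemma kilE_of_jac {O : Type u} [CommRing O] {N : ℕ} {f : MvPolynomial (Fin N) O} {E : ℕ}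
    (hE : ∀ i, (X i : MvPolynomial (Fin N) O) ^ E ∈ jacR f) : KilE f E :=
  fun _ F W _ _ i z => kill_j F W _ (hE i) z

/-- membership in `jacR` -/
lemma mem_jacR_iff' {T : Type u} [CommRing T] {N : ℕ} {f p : MvPolynomial (Fin N) T} :
    p ∈ jacR f ↔ ∃ (a : MvPolynomial (Fin N) T) (b : Fin N → MvPolynomial (Fin N) T),
      a * f + ∑ i, b i * pderiv i f = p := by
  unfold jacR
  rw [Set.singleton_union, Ideal.mem_span_insert]
  constructor
  · rintro ⟨a, z, hz, h⟩
    obtain ⟨b, hb⟩ := Ideal.mem_span_range_iff_exists_fun.mp hz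
    exact ⟨a, b, by rw [hb, h]⟩
  · rintro ⟨a, b, h⟩
    exact ⟨a, _, Ideal.mem_span_range_iff_exists_fun.mpr ⟨b, rfl⟩, h.symm⟩

end Pool.Agent.HT51
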