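import Pool.Agent.HT51.SpK
import Pool.Agent.HT51.Link

/-!
# The Jacobian ideal kills the homology of a matrix factorisation
-/

universe u

namespace Pool.Agent.HT51

open MvPolynomial Pool.Agent.HT21 IsLocalRing TensorProduct

/-- the Jacobian ideal (generated by `f` and its derivatives) kills `HH` -/
theorem kill_jac {T : Type u} [CommRing T] {N : ℕ} {f : MvPolynomial (Fin N) T} {r : ℕ}
    (F : MF f r) (W : Type u) [AddCommGroup W] [Module (MvPolynomial (Fin N) T) W]
    {p : MvPolynomial (Fin N) T}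
    (hp : p ∈ Ideal.span ({f} ∪ Set.range fun i : Fin N => pderiv i f))
    (z : HH F.phi F.psi W) : p • z = 0 := by
  have h1 : Ideal.span ({f} ∪ Set.range fun i : Fin N => pderiv i f)
      ≤ Module.annihilator (MvPolynomial (Fin N) T) (HH F.phi F.psi W) := by
    rw [Ideal.span_le]
    rintro q (hq | ⟨i, rfl⟩)
    · rw [Set.mem_singleton_iff] at hq
      subst hq
      refine Module.mem_annihilator.2 fun z => ?_
      obtain ⟨⟨w, hw⟩, rfl⟩ := Submodule.Quotient.mk_surjective _ z
      rw [← Submodule.Quotient.mk_smul, Submodule.Quotient.mk_eq_zero]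
      change q • w ∈ LinearMap.range (mact F.psi W)
      rw [← SpK.mact_smul_one, ← F.psi_phi, SpK.mact_mul, LinearMap.mem_ker.1 hw, map_zero]
      exact Submodule.zero_mem _
    · refine Module.mem_annihilator.2 fun z => ?_
      obtain ⟨⟨w, hw⟩, rfl⟩ := Submodule.Quotient.mk_surjective _ z
      rw [← Submodule.Quotient.mk_smul, Submodule.Quotient.mk_eq_zero]
      change (pderiv i f) • w ∈ LinearMap.range (mact F.psi W)
      rw [SpK.pderiv_smul F W i w (LinearMap.mem_ker.1 hw)]
      exact LinearMap.mem_range_self _ _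
  exact Module.mem_annihilator.1 (h1 hp) z

/-- finiteness over the coefficients, any `f` whose Jacobian ideal contains powers of the
variables -/
theorem hh_finite_gen {T : Type u} [CommRing T] [IsNoetherianRing T] {N : ℕ}
    {f : MvPolynomial (Fin N) T} (E : ℕ)
    (hE : ∀ i, (X i : MvPolynomial (Fin N) T) ^ E ∈
      Ideal.span ({f} ∪ Set.range fun i : Fin N => pderiv i f))
    {r s : ℕ} (F : MF f r) (G : MF f s) : Module.Finite T (HH F.phi F.psi (Cok G.phi)) :=
  SpK.finite_of_pow (fun _ => E) _ fun i z => kill_jac F _ (hE i) z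

/-- the same for any finite module -/
theorem hh_finite_gen' {T : Type u} [CommRing T] [IsNoetherianRing T] {N : ℕ}
    {f : MvPolynomial (Fin N) T} (E : ℕ)
    (hE : ∀ i, (X i : MvPolynomial (Fin N) T) ^ E ∈
      Ideal.span ({f} ∪ Set.range fun i : Fin N => pderiv i f))
    {r : ℕ} (F : MF f r) (W : Type u) [AddCommGroup W] [Module (MvPolynomial (Fin N) T) W]
    [Module.Finite (MvPolynomial (Fin N) T) W] [Module T (HH F.phi F.psi W)]
    [IsScalarTower T (MvPolynomial (Fin N) T) (HH F.phi F.psi W)] :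
    Module.Finite T (HH F.phi F.psi W) :=
  SpK.finite_of_pow (fun _ => E) _ fun i z => kill_jac F _ (hE i) z

/-- finite length over a field, any `f` whose Jacobian ideal contains powers of the variables -/
theorem hh_length_gen {k : Type u} [Field k] {N : ℕ} {f : MvPolynomial (Fin N) k} (E : ℕ)
    (hE : ∀ i, (X i : MvPolynomial (Fin N) k) ^ E ∈
      Ideal.span ({f} ∪ Set.range fun i : Fin N => pderiv i f))
    {r : ℕ} (F : MF f r) (W : Type u) [AddCommGroup W] [Module (MvPolynomial (Fin N) k) W]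
    [Module.Finite (MvPolynomial (Fin N) k) W] :
    Module.length (MvPolynomial (Fin N) k) (HH F.phi F.psi W) ≠ ⊤ := by
  letI : Module k (HH F.phi F.psi W) := Module.compHom _ (algebraMap k (MvPolynomial (Fin N) k))
  have : IsScalarTower k (MvPolynomial (Fin N) k) (HH F.phi F.psi W) := by
    refine ⟨fun t p m => ?_⟩
    change (t • p) • m = (algebraMap k (MvPolynomial (Fin N) k) t) • (p • m)
    rw [Algebra.smul_def, mul_smul]
  have : Module.Finite k (HH F.phi F.psi W) := hh_finite_gen' E hE F W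
  rw [Module.length_ne_top_iff, isFiniteLength_iff_isNoetherian_isArtinian]
  exact ⟨isNoetherian_of_tower k inferInstance, isArtinian_of_tower k inferInstance⟩

/-- powers of the variables in the Jacobian ideal of a diagonal form with at most one exponent
which is not a unit -/
theorem df_jac1 {T : Type u} [CommRing T] {N : ℕ} (c : Fin N → T) (n : Fin N → ℕ)
    (hc : ∀ i, IsUnit (c i)) (i₀ : Fin N) (hn : ∀ i, i ≠ i₀ → IsUnit ((n i : ℕ) : T)) (i : Fin N) :
    (X i : MvPolynomial (Fin N) T) ^ n i ∈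
      Ideal.span ({df c n} ∪ Set.range fun i : Fin N => pderiv i (df c n)) := by
  classical
  have h1 : ∀ j, j ≠ i₀ → (X j : MvPolynomial (Fin N) T) ^ n j ∈
      Ideal.span ({df c n} ∪ Set.range fun i : Fin N => pderiv i (df c n)) := by
    intro j hj
    obtain ⟨u, hu⟩ := (hc j).mul (hn j hj)
    have h2 : (X j : MvPolynomial (Fin N) T) ^ (n j - 1)
        = C ((u⁻¹ : Tˣ) : T) * pderiv j (df c n) := by
      rw [SpK.pderiv_df, ← mul_assoc, ← C_mul, ← hu, Units.inv_mul, C_1, one_mul]
    have h3 : (X j : MvPolynomial (Fin N) T) ^ (n j - 1) ∈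
        Ideal.span ({df c n} ∪ Set.range fun i : Fin N => pderiv i (df c n)) := by
      rw [h2]
      exact Ideal.mul_mem_left _ _ (Ideal.subset_span (Or.inr ⟨j, rfl⟩))
    exact Ideal.pow_mem_of_pow_mem _ h3 (Nat.sub_le _ _)
  by_cases hi : i = i₀
  · subst hi
    obtain ⟨u, hu⟩ := hc i
    have h2 : C (c i) * (X i : MvPolynomial (Fin N) T) ^ n i
        = df c n - ∑ j ∈ Finset.univ.erase i, C (c j) * X j ^ n j := by
      unfold df
      rw [← Finset.add_sum_erase _ _ (Finset.mem_univ i), add_sub_cancel_right]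
    have h3 : (X i : MvPolynomial (Fin N) T) ^ n i
        = C ((u⁻¹ : Tˣ) : T) * (C (c i) * (X i : MvPolynomial (Fin N) T) ^ n i) := by
      rw [← mul_assoc, ← C_mul, ← hu, Units.inv_mul, C_1, one_mul]
    rw [h3, h2]
    refine Ideal.mul_mem_left _ _ (Ideal.sub_mem _ (Ideal.subset_span (Or.inl rfl)) ?_)
    refine Ideal.sum_mem _ fun j hj => Ideal.mul_mem_left _ _ (h1 j (Finset.ne_of_mem_erase hj))
  · exact h1 i hi

/-- powers of the variables kill the homology, diagonal form with at most one exponent which is not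
a unit -/
theorem kill1 {T : Type u} [CommRing T] {N : ℕ} (c : Fin N → T) (n : Fin N → ℕ)
    (hc : ∀ i, IsUnit (c i)) (i₀ : Fin N) (hn : ∀ i, i ≠ i₀ → IsUnit ((n i : ℕ) : T)) {r : ℕ}
    (F : MF (df c n) r) (W : Type u) [AddCommGroup W] [Module (MvPolynomial (Fin N) T) W]
    (i : Fin N) (z : HH F.phi F.psi W) : (X i : MvPolynomial (Fin N) T) ^ n i • z = 0 :=
  kill_jac F W (df_jac1 c n hc i₀ hn i) z

/-- finiteness over `T` -/
theorem hh_finite1 {T : Type u} [CommRing T] [IsNoetherianRing T] {N : ℕ} (c : Fin N → T)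
    (n : Fin N → ℕ) (hc : ∀ i, IsUnit (c i)) (i₀ : Fin N)
    (hn : ∀ i, i ≠ i₀ → IsUnit ((n i : ℕ) : T)) {r s : ℕ}
    (F : MF (df c n) r) (G : MF (df c n) s) :
    Module.Finite T (HH F.phi F.psi (Cok G.phi)) :=
  SpK.finite_of_pow (fun i => n i) _ fun i z => kill1 c n hc i₀ hn F _ i z

/-- finite length over a field -/
theorem hh_length1 {k : Type u} [Field k] {N : ℕ} (c : Fin N → k) (n : Fin N → ℕ)
    (hc : ∀ i, c i ≠ 0) (i₀ : Fin N) (hn : ∀ i, i ≠ i₀ → ((n i : ℕ) : k) ≠ 0) {r : ℕ}
    (F : MF (df c n) r)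
    (W : Type u) [AddCommGroup W] [Module (MvPolynomial (Fin N) k) W]
    [Module.Finite (MvPolynomial (Fin N) k) W] :
    Module.length (MvPolynomial (Fin N) k) (HH F.phi F.psi W) ≠ ⊤ := by
  refine hh_length_gen (∑ i, n i) (fun i => ?_) F W
  exact Ideal.pow_mem_of_pow_mem _
    (df_jac1 c n (fun i => (hc i).isUnit) i₀ (fun i hi => (hn i hi).isUnit) i)
    (Finset.single_le_sum (f := n) (fun _ _ => Nat.zero_le _) (Finset.mem_univ i))

end Pool.Agent.HT51
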