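import Pool.Agent.HT51.SpDefs

/-!
# Change of rings for `HH`
-/

universe u

namespace Pool.Agent.HT51

open MvPolynomial Pool.Agent.HT21

section

variable {R : Type u} [CommRing R] {r : ℕ} (φ ψ : Matrix (Fin r) (Fin r) R)

/-- `HH` depends only on the module up to isomorphism. -/
lemma HH_congr {W W' : Type u} [AddCommGroup W] [Module R W] [AddCommGroup W'] [Module R W']
    (e : W ≃ₗ[R] W') : Nonempty (HH φ ψ W ≃ₗ[R] HH φ ψ W') := by
  let E : (Fin r → W) ≃ₗ[R] (Fin r → W') := LinearEquiv.piCongrRight fun _ => e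
  have hE : ∀ (χ : Matrix (Fin r) (Fin r) R) (w : Fin r → W), mact χ W' (E w) = E (mact χ W w) := by
    intro χ w
    funext k
    show ∑ l, χ k l • e (w l) = e (∑ l, χ k l • w l)
    rw [map_sum]
    simp only [map_smul]
  have hk : (LinearMap.ker (mact φ W)).map (E : (Fin r → W) →ₗ[R] (Fin r → W'))
      = LinearMap.ker (mact φ W') := by
    ext w
    constructor
    · rintro ⟨v, hv, rfl⟩
      show mact φ W' (E v) = 0
      rw [hE, (show mact φ W v = 0 from hv), map_zero]
    · intro hw
      refine ⟨E.symm w, ?_, E.apply_symm_apply w⟩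
      show mact φ W (E.symm w) = 0
      apply E.injective
      rw [← hE, E.apply_symm_apply, map_zero]
      exact hw
  let K : ↥(LinearMap.ker (mact φ W)) ≃ₗ[R] ↥(LinearMap.ker (mact φ W')) :=
    (E.submoduleMap (LinearMap.ker (mact φ W))).trans (LinearEquiv.ofEq _ _ hk)
  have hK : ∀ x, ((K x : ↥(LinearMap.ker (mact φ W'))) : Fin r → W') = E x.1 := fun x => rfl
  refine ⟨Submodule.Quotient.equiv _ _ K ?_⟩
  ext x
  constructor
  · rintro ⟨y, ⟨z, hz⟩, rfl⟩
    refine ⟨E z, ?_⟩
    show mact ψ W' (E z) = (K y : Fin r → W')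
    rw [hE, hK]
    congr 1
  · rintro ⟨z, hz⟩
    refine ⟨K.symm x, ⟨E.symm z, ?_⟩, K.apply_symm_apply x⟩
    show mact ψ W (E.symm z) = ((K.symm x : ↥(LinearMap.ker (mact φ W))) : Fin r → W)
    apply E.injective
    rw [← hE, E.apply_symm_apply, ← hK, K.apply_symm_apply]
    exact hz

lemma HH_length_congr {W W' : Type u} [AddCommGroup W] [Module R W] [AddCommGroup W'] [Module R W']
    (e : W ≃ₗ[R] W') : Module.length R (HH φ ψ W) = Module.length R (HH φ ψ W') := by
  obtain ⟨E⟩ := HH_congr φ ψ e
  exact E.length_eq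

end

/-- Lengths do not change under restriction along a surjective ring map. -/
lemma length_res {R Q : Type u} [CommRing R] [CommRing Q] (π : R →+* Q)
    (hπ : Function.Surjective π) (M : Type u) [AddCommGroup M] [Module Q M] :
    Module.length R (Res π M) = Module.length Q M := by
  let _ : Algebra R Q := π.toAlgebra
  let _ : Module R M := Module.compHom M π
  have : IsScalarTower R Q M := ⟨fun a c x => by
    rw [Algebra.smul_def, mul_smul]
    rfl⟩
  exact (Module.length_eq_of_surjective (R := Q) (M := M) (S := R) hπ)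

/-- `HH` of a restricted module. -/
lemma HH_res {R Q : Type u} [CommRing R] [CommRing Q] (π : R →+* Q) {r : ℕ}
    (φ ψ : Matrix (Fin r) (Fin r) R) (W : Type u) [AddCommGroup W] [Module Q W] :
    Nonempty (HH φ ψ (Res π W) ≃ₗ[R] Res π (HH (φ.map π) (ψ.map π) W)) := by
  have hm : ∀ (χ : Matrix (Fin r) (Fin r) R) (w : Fin r → W),
      mact χ (Res π W) w = mact (χ.map π) W w := fun χ w => rfl
  let K : ↥(LinearMap.ker (mact φ (Res π W))) →ₗ[R] Res π ↥(LinearMap.ker (mact (φ.map π) W)) :=
    { toFun := fun x => (⟨x.1, x.2⟩ : ↥(LinearMap.ker (mact (φ.map π) W)))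
      map_add' := fun x y => rfl
      map_smul' := fun a x => rfl }
  let P : ↥(LinearMap.ker (mact φ (Res π W))) →ₗ[R] Res π (HH (φ.map π) (ψ.map π) W) :=
    (resMap π (Submodule.mkQ ((LinearMap.range (mact (ψ.map π) W)).submoduleOf
      (LinearMap.ker (mact (φ.map π) W))))).comp K
  have hP : Function.Surjective P := by
    intro y
    obtain ⟨x, hx⟩ := Submodule.mkQ_surjective ((LinearMap.range (mact (ψ.map π) W)).submoduleOf
      (LinearMap.ker (mact (φ.map π) W))) y
    exact ⟨⟨x.1, x.2⟩, hx⟩
  have hker : LinearMap.ker P = (LinearMap.range (mact ψ (Res π W))).submoduleOf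
      (LinearMap.ker (mact φ (Res π W))) := by
    ext x
    rw [LinearMap.mem_ker]
    constructor
    · intro hx
      have h1 : (Submodule.Quotient.mk (⟨x.1, x.2⟩ : ↥(LinearMap.ker (mact (φ.map π) W))) :
          HH (φ.map π) (ψ.map π) W) = 0 := hx
      rw [Submodule.Quotient.mk_eq_zero] at h1
      exact h1
    · intro hx
      have h1 : (Submodule.Quotient.mk (⟨x.1, x.2⟩ : ↥(LinearMap.ker (mact (φ.map π) W))) :
          HH (φ.map π) (ψ.map π) W) = 0 := by
        rw [Submodule.Quotient.mk_eq_zero]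
        exact hx
      exact h1
  exact ⟨(Submodule.quotEquivOfEq _ _ hker.symm).trans (P.quotKerEquivOfSurjective hP)⟩

lemma HH_length_res {R Q : Type u} [CommRing R] [CommRing Q] (π : R →+* Q)
    (hπ : Function.Surjective π) {r : ℕ}
    (φ ψ : Matrix (Fin r) (Fin r) R) (W : Type u) [AddCommGroup W] [Module Q W] :
    Module.length R (HH φ ψ (Res π W)) = Module.length Q (HH (φ.map π) (ψ.map π) W) := by
  obtain ⟨E⟩ := HH_res π φ ψ W
  rw [E.length_eq, length_res π hπ]

/-- The cokernel of a matrix factorisation over `R` and over `R/(f)`. -/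
lemma Cok_res {R : Type u} [CommRing R] {f : R} {s : ℕ} (G : MF f s) :
    Nonempty (Cok G.phi ≃ₗ[R] Res (Ideal.Quotient.mk (Ideal.span {f}))
      (Cok (G.phi.map (Ideal.Quotient.mk (Ideal.span {f}))))) := by
  set π : R →+* R ⧸ Ideal.span {f} := Ideal.Quotient.mk (Ideal.span {f}) with hπ
  let A : (Fin s → R) →ₗ[R] Res π (Fin s → R ⧸ Ideal.span {f}) :=
    { toFun := fun v => (fun k => π (v k) : Fin s → R ⧸ Ideal.span {f})
      map_add' := fun x y => by
        show (fun k => π ((x + y) k)) = fun k => π (x k) + π (y k)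
        funext k
        rw [Pi.add_apply, map_add]
      map_smul' := fun a x => by
        show (fun k => π ((a • x) k)) = fun k => π a * π (x k)
        funext k
        rw [Pi.smul_apply, smul_eq_mul, map_mul] }
  let P : (Fin s → R) →ₗ[R] Res π (Cok (G.phi.map π)) :=
    (resMap π (Submodule.mkQ (LinearMap.range (G.phi.map π).mulVecLin))).comp A
  have hA : ∀ y : Fin s → R ⧸ Ideal.span {f}, ∃ v : Fin s → R, (fun k => π (v k)) = y := by
    intro y
    choose v hv using fun k => Ideal.Quotient.mk_surjective (y k)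
    exact ⟨v, funext hv⟩
  have hP : Function.Surjective P := by
    intro y
    obtain ⟨x, hx⟩ := Submodule.mkQ_surjective (LinearMap.range (G.phi.map π).mulVecLin) y
    obtain ⟨v, hv⟩ := hA x
    refine ⟨v, ?_⟩
    show Submodule.mkQ (LinearMap.range (G.phi.map π).mulVecLin) (fun k => π (v k)) = y
    rw [hv]
    exact hx
  have hmul : ∀ v : Fin s → R, (G.phi.map π).mulVecLin (fun k => π (v k))
      = fun k => π (G.phi.mulVecLin v k) := by
    intro v
    funext k
    show ∑ l, π (G.phi k l) * π (v l) = π (∑ l, G.phi k l * v l)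
    rw [map_sum]
    simp only [map_mul]
  have hker : LinearMap.ker P = LinearMap.range G.phi.mulVecLin := by
    ext x
    rw [LinearMap.mem_ker]
    constructor
    · intro hx
      have h1 : (Submodule.Quotient.mk (fun k => π (x k)) : Cok (G.phi.map π)) = 0 := hx
      rw [Submodule.Quotient.mk_eq_zero] at h1
      obtain ⟨y, hy⟩ := h1
      obtain ⟨v, rfl⟩ := hA y
      rw [hmul] at hy
      have h2 : ∀ k, ∃ u, x k = G.phi.mulVecLin v k + f * u := by
        intro k
        have h3 := congrFun hy k
        have h4 : x k - G.phi.mulVecLin v k ∈ Ideal.span {f} := by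
          rw [← Ideal.Quotient.eq]
          exact h3.symm
        obtain ⟨u, hu⟩ := Ideal.mem_span_singleton'.mp h4
        refine ⟨u, ?_⟩
        rw [mul_comm f u, hu]
        ring
      choose u hu using h2
      refine ⟨v + G.psi.mulVecLin u, ?_⟩
      rw [map_add]
      have h5 : G.phi.mulVecLin (G.psi.mulVecLin u) = fun k => f * u k := by
        rw [← LinearMap.comp_apply, ← Matrix.mulVecLin_mul, G.phi_psi]
        funext k
        simp
      rw [h5]
      funext k
      rw [Pi.add_apply, hu k]
    · rintro ⟨v, rfl⟩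
      have h1 : (Submodule.Quotient.mk (fun k => π (G.phi.mulVecLin v k)) : Cok (G.phi.map π)) = 0 := by
        rw [Submodule.Quotient.mk_eq_zero]
        exact ⟨fun k => π (v k), hmul v⟩
      exact h1
  exact ⟨(Submodule.quotEquivOfEq _ _ hker.symm).trans (P.quotKerEquivOfSurjective hP)⟩

/-- `HH` of a cokernel over `R` and over `R/(f)`. -/
lemma HH_length_cok {R : Type u} [CommRing R] {f : R} {r s : ℕ} (φ ψ : Matrix (Fin r) (Fin r) R)
    (G : MF f s) :
    Module.length R (HH φ ψ (Cok G.phi)) =
      Module.length (R ⧸ Ideal.span {f}) (HH (φ.map (Ideal.Quotient.mk (Ideal.span {f})))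
        (ψ.map (Ideal.Quotient.mk (Ideal.span {f})))
        (Cok (G.phi.map (Ideal.Quotient.mk (Ideal.span {f}))))) := by
  obtain ⟨e⟩ := Cok_res G
  rw [HH_length_congr φ ψ e, HH_length_res _ Ideal.Quotient.mk_surjective]

end Pool.Agent.HT51
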