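import Pool.Agent.HT51.SpW1

/-!
# Leading forms with a diagonal specialisation: the Jacobian ideal when one exponent is not a unit
-/

universe u

namespace Pool.Agent.HT51

open MvPolynomial Pool.Agent.HT21 IsLocalRing

namespace SpW1b

open SpW1 (weight_eq)

variable {O : Type u} [CommRing O] [IsLocalRing O] {N : ℕ} {w n : Fin N → ℕ} {D : ℕ}
  {f : MvPolynomial (Fin N) O}

lemma n_pos (hD : 0 < D) (hwn : ∀ i, w i * n i = D) (i : Fin N) : 0 < n i := by
  refine Nat.pos_of_ne_zero fun h0 => ?_
  have h1 := hwn i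
  rw [h0, mul_zero] at h1
  exact absurd h1.symm hD.ne'

/-- the Jacobian ideal -/
noncomputable def J (f : MvPolynomial (Fin N) O) : Ideal (MvPolynomial (Fin N) O) :=
  Ideal.span ({f} ∪ Set.range fun i => pderiv i f)

/-- the image of the part of weight `e` -/
noncomputable def Ne (w : Fin N → ℕ) (f : MvPolynomial (Fin N) O) (e : ℕ) :
    Submodule O (MvPolynomial (Fin N) O ⧸ J f) :=
  Submodule.span O ((fun m => Ideal.Quotient.mk (J f) (monomial m 1)) ''
    {m | Finsupp.weight w m = e})

lemma fg_Ne (hw : ∀ i, 0 < w i) (e : ℕ) : (Ne w f e).FG :=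
  Submodule.fg_span ((Finsupp.finite_of_nat_weight_eq w (fun i => (hw i).ne') e).image _)

lemma mem_smul {e : ℕ} {p : MvPolynomial (Fin N) O} (hp : p.IsWeightedHomogeneous w e)
    (hc : ∀ k, p.coeff k ∈ maximalIdeal O) :
    Ideal.Quotient.mk (J f) p ∈ maximalIdeal O • Ne w f e := by
  have h1 : p = ∑ m ∈ p.support, (p.coeff m) • monomial m (1 : O) := by
    conv_lhs => rw [p.as_sum]
    refine Finset.sum_congr rfl fun m _ => ?_
    rw [smul_monomial, smul_eq_mul, mul_one]
  rw [h1, map_sum]
  refine Submodule.sum_mem _ fun m hm => ?_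
  have h2 : Ideal.Quotient.mk (J f) ((p.coeff m) • monomial m (1 : O))
      = (p.coeff m) • Ideal.Quotient.mk (J f) (monomial m (1 : O)) := rfl
  rw [h2]
  exact Submodule.smul_mem_smul (hc m) (Submodule.subset_span ⟨m, hp (mem_support_iff.1 hm), rfl⟩)

lemma exists_big (hwn : ∀ i, w i * n i = D) {m : Fin N →₀ ℕ}
    (hm : N * D < Finsupp.weight w m) : ∃ i, n i ≤ m i := by
  by_contra hcon
  push Not at hcon
  rw [weight_eq] at hm
  have h1 : ∑ i, m i * w i ≤ ∑ _i : Fin N, D := by
    refine Finset.sum_le_sum fun i _ => ?_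
    rw [← hwn i, mul_comm (w i)]
    exact Nat.mul_le_mul_right _ (hcon i).le
  rw [Finset.sum_const, Finset.card_univ, Fintype.card_fin, smul_eq_mul] at h1
  omega

/-- the general step: `u X^k = q + g` with `q` in the ideal (times anything) modulo small terms -/
lemma step {e : ℕ} {m m' k : Fin N →₀ ℕ} (hmm : m' + k = m) (hm : Finsupp.weight w m = e)
    {u : O} (hu : IsUnit u) {q g : MvPolynomial (Fin N) O}
    (hq : Ideal.Quotient.mk (J f) (monomial m' 1 * q) ∈ maximalIdeal O • Ne w f e)
    (hg : g.IsWeightedHomogeneous w (Finsupp.weight w k)) (hgc : ∀ l, g.coeff l ∈ maximalIdeal O)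
    (h : monomial k u = q - g) :
    Ideal.Quotient.mk (J f) (monomial m (1 : O)) ∈ maximalIdeal O • Ne w f e := by
  obtain ⟨u, rfl⟩ := hu
  have key : (u : O) • (monomial m (1 : O) : MvPolynomial (Fin N) O)
      = monomial m' 1 * q - monomial m' 1 * g := by
    rw [← mul_sub, ← h, monomial_mul, hmm, one_mul, smul_monomial, smul_eq_mul, mul_one]
  have h2 : (u : O) • Ideal.Quotient.mk (J f) (monomial m (1 : O))
      = Ideal.Quotient.mk (J f) (monomial m' 1 * q)
        - Ideal.Quotient.mk (J f) (monomial m' 1 * g) := by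
    have h3 : (u : O) • Ideal.Quotient.mk (J f) (monomial m (1 : O))
        = Ideal.Quotient.mk (J f) ((u : O) • monomial m (1 : O)) := rfl
    rw [h3, key, map_sub]
  have h5 : Ideal.Quotient.mk (J f) (monomial m' 1 * g) ∈ maximalIdeal O • Ne w f e := by
    refine mem_smul ?_ ?_
    · have h6 := (isWeightedHomogeneous_monomial (R := O) w m' 1 rfl).mul hg
      have h7 : Finsupp.weight w m' + Finsupp.weight w k = e := by rw [← hm, ← hmm, map_add]
      rw [h7] at h6
      exact h6
    · have h6 : monomial m' 1 * g ∈ Ideal.map C (maximalIdeal O) :=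
        Ideal.mul_mem_left _ _ (mem_map_C_iff.2 hgc)
      exact mem_map_C_iff.1 h6
  have h9 : Ideal.Quotient.mk (J f) (monomial m (1 : O))
      = ((u⁻¹ : Oˣ) : O) • ((u : O) • Ideal.Quotient.mk (J f) (monomial m (1 : O))) := by
    rw [smul_smul, Units.inv_mul, one_smul]
  rw [h9, h2]
  exact Submodule.smul_mem _ _ (Submodule.sub_mem _ hq h5)

/-- monomials with a large exponent of a variable whose exponent `n i` is a unit -/
lemma step_unit (hom : f.IsWeightedHomogeneous w D) (hD : 0 < D)
    (hwn : ∀ i, w i * n i = D) (unit : ∀ i, IsUnit (f.coeff (Finsupp.single i (n i))))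
    (off : ∀ m, (∀ i, m ≠ Finsupp.single i (n i)) → f.coeff m ∈ maximalIdeal O)
    {i : Fin N} (hni : IsUnit ((n i : ℕ) : O)) {e : ℕ} {m : Fin N →₀ ℕ} (hi : n i - 1 ≤ m i)
    (hm : Finsupp.weight w m = e) :
    Ideal.Quotient.mk (J f) (monomial m (1 : O)) ∈ maximalIdeal O • Ne w f e := by
  classical
  have hn := n_pos hD hwn i
  have hmm : (m - Finsupp.single i (n i - 1)) + Finsupp.single i (n i - 1) = m := by
    refine tsub_add_cancel_of_le ?_
    rw [Finsupp.single_le_iff]
    exact hi
  have hwk : Finsupp.weight w (Finsupp.single i (n i - 1)) = D - w i := by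
    rw [Finsupp.weight_apply, Finsupp.sum_single_index (by simp)]
    rw [smul_eq_mul, ← hwn i, Nat.sub_mul, one_mul, mul_comm (w i)]
  refine step (q := pderiv i f) (g := pderiv i f - monomial (Finsupp.single i (n i - 1))
    (f.coeff (Finsupp.single i (n i)) * ((n i : ℕ) : O))) hmm hm ((unit i).mul hni) ?_ ?_ ?_ ?_
  · have h4 : Ideal.Quotient.mk (J f)
        (monomial (m - Finsupp.single i (n i - 1)) 1 * pderiv i f) = 0 :=
      Ideal.Quotient.eq_zero_iff_mem.2
        (Ideal.mul_mem_left _ _ (Ideal.subset_span (Or.inr (Set.mem_range_self i))))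
    rw [h4]
    exact Submodule.zero_mem _
  · rw [hwk]
    have h1 : D - w i + w i = D := by
      refine Nat.sub_add_cancel ?_
      rw [← hwn i]
      exact Nat.le_mul_of_pos_right _ hn
    have h2 := IsWeightedHomogeneous.pderiv (i := i) hom h1
    exact (weightedHomogeneousSubmodule O w (D - w i)).sub_mem h2
      (isWeightedHomogeneous_monomial w _ _ hwk)
  · intro k
    rw [coeff_sub, coeff_pderiv, coeff_monomial]
    by_cases hk : Finsupp.single i (n i - 1) = k
    · subst hk
      rw [if_pos rfl, ← Finsupp.single_add, Nat.sub_add_cancel hn, Finsupp.single_eq_same]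
      have h1 : (((n i - 1 : ℕ) : O) + 1) = ((n i : ℕ) : O) := by
        rw [← Nat.cast_succ, Nat.succ_eq_add_one, Nat.sub_add_cancel hn]
      rw [h1, sub_self]
      exact Ideal.zero_mem _
    · rw [if_neg hk, sub_zero]
      refine Ideal.mul_mem_right _ _ (off _ fun j hj => ?_)
      by_cases hij : j = i
      · subst hij
        apply hk
        have h2 : k = Finsupp.single j (n j) - Finsupp.single j 1 := by
          rw [← hj, add_tsub_cancel_right]
        rw [h2, ← Finsupp.single_tsub]
      · have h2 := DFunLike.congr_fun hj i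
        rw [Finsupp.add_apply, Finsupp.single_eq_same, Finsupp.single_apply, if_neg hij] at h2
        omega
  · rw [sub_sub_cancel]

/-- the pure coefficients -/
lemma coeff_pure (hD : 0 < D) (hwn : ∀ i, w i * n i = D) (f : MvPolynomial (Fin N) O)
    (off : ∀ m, (∀ i, m ≠ Finsupp.single i (n i)) → f.coeff m ∈ maximalIdeal O)
    (l : Fin N →₀ ℕ) :
    (f - ∑ i, monomial (Finsupp.single i (n i)) (f.coeff (Finsupp.single i (n i)))).coeff l
      ∈ maximalIdeal O := by
  classical
  rw [coeff_sub, coeff_sum]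
  simp_rw [coeff_monomial]
  by_cases hm : ∃ i, l = Finsupp.single i (n i)
  · obtain ⟨i, rfl⟩ := hm
    rw [Finset.sum_eq_single i, if_pos rfl, sub_self]
    · exact Ideal.zero_mem _
    · intro j _ hj
      refine if_neg fun h2 => ?_
      have h3 := DFunLike.congr_fun h2 i
      rw [Finsupp.single_eq_same, Finsupp.single_apply, if_neg hj] at h3
      exact (n_pos hD hwn i).ne h3
    · intro h2
      exact absurd (Finset.mem_univ i) h2
  · push Not at hm
    rw [Finset.sum_eq_zero fun i _ => if_neg fun h2 => hm i h2.symm, sub_zero]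
    exact off l hm

lemma Ne_le (hom : f.IsWeightedHomogeneous w D) (hD : 0 < D)
    (hwn : ∀ i, w i * n i = D) (unit : ∀ i, IsUnit (f.coeff (Finsupp.single i (n i))))
    (off : ∀ m, (∀ i, m ≠ Finsupp.single i (n i)) → f.coeff m ∈ maximalIdeal O)
    (i₀ : Fin N) (hn : ∀ i, i ≠ i₀ → IsUnit ((n i : ℕ) : O)) {e : ℕ} (he : N * D < e) :
    Ne w f e ≤ maximalIdeal O • Ne w f e := by
  classical
  refine Submodule.span_le.2 ?_
  rintro _ ⟨m, hm, rfl⟩
  have hm' : Finsupp.weight w m = e := hm
  change Ideal.Quotient.mk (J f) (monomial m (1 : O)) ∈ maximalIdeal O • Ne w f e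
  obtain ⟨i, hi⟩ := exists_big hwn (m := m) (by rw [hm']; exact he)
  by_cases hi0 : i = i₀
  · subst hi0
    have hwk : ∀ j, Finsupp.weight w (Finsupp.single j (n j)) = D := by
      intro j
      rw [Finsupp.weight_apply, Finsupp.sum_single_index (by simp), smul_eq_mul, mul_comm]
      exact hwn j
    have hmm : (m - Finsupp.single i (n i)) + Finsupp.single i (n i) = m := by
      refine tsub_add_cancel_of_le ?_
      rw [Finsupp.single_le_iff]
      exact hi
    have hwm : Finsupp.weight w (m - Finsupp.single i (n i)) + D = e := by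
      rw [← hm', ← hwk i, ← map_add, hmm]
    refine step (q := f - ∑ j ∈ Finset.univ.erase i,
        monomial (Finsupp.single j (n j)) (f.coeff (Finsupp.single j (n j))))
      (g := f - ∑ j, monomial (Finsupp.single j (n j)) (f.coeff (Finsupp.single j (n j))))
      hmm hm' (unit i) ?_ ?_ ?_ ?_
    · rw [mul_sub, map_sub]
      refine Submodule.sub_mem _ ?_ ?_
      · have h4 : Ideal.Quotient.mk (J f) (monomial (m - Finsupp.single i (n i)) 1 * f) = 0 :=
          Ideal.Quotient.eq_zero_iff_mem.2
            (Ideal.mul_mem_left _ _ (Ideal.subset_span (Or.inl rfl)))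
        rw [h4]
        exact Submodule.zero_mem _
      · rw [Finset.mul_sum, map_sum]
        refine Submodule.sum_mem _ fun j hj => ?_
        have hji : j ≠ i := Finset.ne_of_mem_erase hj
        have h5 : monomial (m - Finsupp.single i (n i)) (1 : O) *
            monomial (Finsupp.single j (n j)) (f.coeff (Finsupp.single j (n j)))
            = (f.coeff (Finsupp.single j (n j))) • monomial
              (m - Finsupp.single i (n i) + Finsupp.single j (n j)) (1 : O) := by
          rw [monomial_mul, one_mul, smul_monomial, smul_eq_mul, mul_one]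
        have h6 : Ideal.Quotient.mk (J f) ((f.coeff (Finsupp.single j (n j))) • monomial
              (m - Finsupp.single i (n i) + Finsupp.single j (n j)) (1 : O))
            = (f.coeff (Finsupp.single j (n j))) • Ideal.Quotient.mk (J f) (monomial
              (m - Finsupp.single i (n i) + Finsupp.single j (n j)) (1 : O)) := rfl
        rw [h5, h6]
        refine Submodule.smul_mem _ _ (step_unit hom hD hwn unit off (hn j hji) (i := j) ?_ ?_)
        · rw [Finsupp.add_apply, Finsupp.single_eq_same]
          omega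
        · rw [map_add, hwk j, hwm]
    · rw [hwk i]
      refine (weightedHomogeneousSubmodule O w D).sub_mem hom
        (Submodule.sum_mem _ fun j _ => isWeightedHomogeneous_monomial w _ _ (hwk j))
    · exact coeff_pure hD hwn f off
    · rw [← Finset.add_sum_erase _ _ (Finset.mem_univ i)]
      ring
  · exact step_unit hom hD hwn unit off (hn i hi0) (by omega) hm'

lemma monomial_mem (hom : f.IsWeightedHomogeneous w D) (hw : ∀ i, 0 < w i) (hD : 0 < D)
    (hwn : ∀ i, w i * n i = D) (unit : ∀ i, IsUnit (f.coeff (Finsupp.single i (n i))))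
    (off : ∀ m, (∀ i, m ≠ Finsupp.single i (n i)) → f.coeff m ∈ maximalIdeal O)
    (i₀ : Fin N) (hn : ∀ i, i ≠ i₀ → IsUnit ((n i : ℕ) : O)) {m : Fin N →₀ ℕ}
    (hm : N * D < Finsupp.weight w m) :
    monomial m (1 : O) ∈ J f := by
  have h1 : Ne w f (Finsupp.weight w m) = ⊥ :=
    Submodule.eq_bot_of_le_smul_of_le_jacobson_bot (maximalIdeal O) _ (fg_Ne hw _)
      (Ne_le hom hD hwn unit off i₀ hn hm) (maximalIdeal_le_jacobson _)
  have h2 : Ideal.Quotient.mk (J f) (monomial m (1 : O)) ∈ Ne w f (Finsupp.weight w m) :=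
    Submodule.subset_span ⟨m, rfl, rfl⟩
  rw [h1, Submodule.mem_bot] at h2
  exact Ideal.Quotient.eq_zero_iff_mem.1 h2

end SpW1b

/-- Nakayama: monomials of large weight are in the Jacobian ideal (generated by `f` and its
derivatives) when all exponents but one are units. -/
theorem dg_jac1 {O : Type u} [CommRing O] [IsLocalRing O] {N : ℕ} {w n : Fin N → ℕ} {D : ℕ}
    {f : MvPolynomial (Fin N) O}
    (hom : f.IsWeightedHomogeneous w D) (hw : ∀ i, 0 < w i) (hD : 0 < D)
    (hwn : ∀ i, w i * n i = D) (unit : ∀ i, IsUnit (f.coeff (Finsupp.single i (n i))))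
    (off : ∀ m, (∀ i, m ≠ Finsupp.single i (n i)) → f.coeff m ∈ maximalIdeal O)
    (i₀ : Fin N) (hn : ∀ i, i ≠ i₀ → IsUnit ((n i : ℕ) : O)) :
    ∃ E : ℕ, ∀ i, (X i : MvPolynomial (Fin N) O) ^ E ∈
      Ideal.span ({f} ∪ Set.range fun i => pderiv i f) := by
  refine ⟨N * D + 1, fun i => ?_⟩
  rw [X_pow_eq_monomial]
  refine SpW1b.monomial_mem hom hw hD hwn unit off i₀ hn ?_
  rw [Finsupp.weight_apply, Finsupp.sum_single_index (by simp), smul_eq_mul]
  exact (Nat.lt_succ_self _).trans_le (Nat.le_mul_of_pos_right _ (hw i))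

end Pool.Agent.HT51
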