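import Pool.Agent.HT51.SpW1b

/-!
# Graded Nakayama for the Jacobian ideal of a weighted homogeneous polynomial over a local ring
-/

universe u

namespace Pool.Agent.HT51

open MvPolynomial Pool.Agent.HT21 IsLocalRing

namespace SpW1c

open SpW1 (weight_eq)
open SpW1b (J Ne fg_Ne step)

attribute [local instance] MvPolynomial.weightedGradedAlgebra

variable {O : Type u} [CommRing O] [IsLocalRing O] {N : ℕ} {w : Fin N → ℕ} {D : ℕ}
  {f : MvPolynomial (Fin N) O}

/-- the Jacobian ideal of a weighted homogeneous polynomial is homogeneous -/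
lemma hom_J (hf : f.IsWeightedHomogeneous w D) :
    (J f).IsHomogeneous (weightedHomogeneousSubmodule O w) := by
  refine Ideal.homogeneous_span _ _ ?_
  rintro q (hq | ⟨i, rfl⟩)
  · rw [Set.mem_singleton_iff] at hq
    subst hq
    exact ⟨D, hf⟩
  · by_cases h : w i ≤ D
    · exact ⟨D - w i, IsWeightedHomogeneous.pderiv (i := i) hf (Nat.sub_add_cancel h)⟩
    · refine ⟨0, ?_⟩
      have h0 : pderiv i f = 0 := by
        refine MvPolynomial.ext _ _ fun m => ?_
        rw [coeff_pderiv, coeff_zero]
        by_cases hc : f.coeff (m + Finsupp.single i 1) = 0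
        · rw [hc, zero_mul]
        · exfalso
          have h1 := hf hc
          rw [map_add, Finsupp.weight_apply w (Finsupp.single i 1),
            Finsupp.sum_single_index (by simp), smul_eq_mul, one_mul] at h1
          omega
      change pderiv i f ∈ weightedHomogeneousSubmodule O w 0
      rw [h0]
      exact Submodule.zero_mem _

/-- the reduced Jacobian ideal -/
lemma map_J : Ideal.span ({MvPolynomial.map (residue O) f} ∪
      Set.range fun i => pderiv i (MvPolynomial.map (residue O) f))
    = Ideal.map (MvPolynomial.map (residue O)) (J f) := by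
  unfold J
  rw [Ideal.map_span, Set.image_union, Set.image_singleton, ← Set.range_comp]
  congr 3
  funext i
  exact pderiv_map

/-- powers of the variables are in the Jacobian ideal up to small forms -/
lemma exists_split (hf : f.IsWeightedHomogeneous w D) {E : ℕ} {i : Fin N}
    (hE : (X i : MvPolynomial (Fin N) (ResidueField O)) ^ E ∈
      Ideal.span ({MvPolynomial.map (residue O) f} ∪
        Set.range fun i => pderiv i (MvPolynomial.map (residue O) f))) :
    ∃ q g : MvPolynomial (Fin N) O, q ∈ J f ∧
      g.IsWeightedHomogeneous w (Finsupp.weight w (Finsupp.single i E)) ∧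
      (∀ l, g.coeff l ∈ maximalIdeal O) ∧ monomial (Finsupp.single i E) 1 = q - g := by
  classical
  rw [map_J, Ideal.mem_map_iff_of_surjective _ (MvPolynomial.map_surjective _
    IsLocalRing.residue_surjective)] at hE
  obtain ⟨s, hs, hs1⟩ := hE
  set e := Finsupp.weight w (Finsupp.single i E) with he
  have hX : (monomial (Finsupp.single i E) (1 : O)).IsWeightedHomogeneous w e :=
    isWeightedHomogeneous_monomial w _ _ rfl
  refine ⟨weightedHomogeneousComponent w e s,
    weightedHomogeneousComponent w e s - monomial (Finsupp.single i E) 1, ?_, ?_, ?_, ?_⟩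
  · exact weightedHomogeneousComponent_mem_of_mem O w (hom_J hf) hs e
  · exact (weightedHomogeneousSubmodule O w e).sub_mem
      (weightedHomogeneousComponent_mem w s e) hX
  · intro l
    have h1 : weightedHomogeneousComponent w e s - monomial (Finsupp.single i E) 1
        = weightedHomogeneousComponent w e (s - monomial (Finsupp.single i E) 1) := by
      rw [map_sub, hX.weightedHomogeneousComponent_same]
    rw [h1, coeff_weightedHomogeneousComponent]
    split_ifs
    · rw [← residue_eq_zero_iff, ← coeff_map, map_sub, hs1, map_monomial, map_one,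
        X_pow_eq_monomial, sub_self, coeff_zero]
    · exact Ideal.zero_mem _
  · rw [sub_sub_cancel]

lemma exists_big {E : ℕ} {m : Fin N →₀ ℕ} (hm : E * ∑ i, w i < Finsupp.weight w m) :
    ∃ i, E ≤ m i := by
  by_contra hcon
  push Not at hcon
  rw [weight_eq] at hm
  have h1 : ∑ i, m i * w i ≤ E * ∑ i, w i := by
    rw [Finset.mul_sum]
    exact Finset.sum_le_sum fun i _ => Nat.mul_le_mul_right _ (hcon i).le
  omega

lemma Ne_le (hf : f.IsWeightedHomogeneous w D) {E : ℕ}
    (hE : ∀ i, (X i : MvPolynomial (Fin N) (ResidueField O)) ^ E ∈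
      Ideal.span ({MvPolynomial.map (residue O) f} ∪
        Set.range fun i => pderiv i (MvPolynomial.map (residue O) f)))
    {e : ℕ} (he : E * ∑ i, w i < e) :
    Ne w f e ≤ maximalIdeal O • Ne w f e := by
  classical
  refine Submodule.span_le.2 ?_
  rintro _ ⟨m, hm, rfl⟩
  have hm' : Finsupp.weight w m = e := hm
  change Ideal.Quotient.mk (J f) (monomial m (1 : O)) ∈ maximalIdeal O • Ne w f e
  obtain ⟨i, hi⟩ := exists_big (m := m) (E := E) (by rw [hm']; exact he)
  obtain ⟨q, g, hq, hg, hgc, h⟩ := exists_split hf (hE i)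
  have hmm : (m - Finsupp.single i E) + Finsupp.single i E = m := by
    refine tsub_add_cancel_of_le ?_
    rw [Finsupp.single_le_iff]
    exact hi
  refine step hmm hm' isUnit_one ?_ hg hgc h
  have h4 : Ideal.Quotient.mk (J f) (monomial (m - Finsupp.single i E) 1 * q) = 0 :=
    Ideal.Quotient.eq_zero_iff_mem.2 (Ideal.mul_mem_left _ _ hq)
  rw [h4]
  exact Submodule.zero_mem _

lemma monomial_mem (hw : ∀ i, 0 < w i) (hf : f.IsWeightedHomogeneous w D) {E : ℕ}
    (hE : ∀ i, (X i : MvPolynomial (Fin N) (ResidueField O)) ^ E ∈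
      Ideal.span ({MvPolynomial.map (residue O) f} ∪
        Set.range fun i => pderiv i (MvPolynomial.map (residue O) f)))
    {m : Fin N →₀ ℕ} (hm : E * ∑ i, w i < Finsupp.weight w m) : monomial m (1 : O) ∈ J f := by
  have h1 : Ne w f (Finsupp.weight w m) = ⊥ :=
    Submodule.eq_bot_of_le_smul_of_le_jacobson_bot (maximalIdeal O) _ (fg_Ne hw _)
      (Ne_le hf hE hm) (maximalIdeal_le_jacobson _)
  have h2 : Ideal.Quotient.mk (J f) (monomial m (1 : O)) ∈ Ne w f (Finsupp.weight w m) :=
    Submodule.subset_span ⟨m, rfl, rfl⟩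
  rw [h1, Submodule.mem_bot] at h2
  exact Ideal.Quotient.eq_zero_iff_mem.1 h2

end SpW1c

/-- **graded Nakayama**: if the Jacobian ideal of the reduction contains powers of the variables, so
does the Jacobian ideal of `f`. -/
theorem jac_up {O : Type u} [CommRing O] [IsLocalRing O] {N : ℕ} {w : Fin N → ℕ}
    (hw : ∀ i, 0 < w i) {D : ℕ} {f : MvPolynomial (Fin N) O} (hf : f.IsWeightedHomogeneous w D)
    (E : ℕ) (hE : ∀ i, (X i : MvPolynomial (Fin N) (ResidueField O)) ^ E ∈
      Ideal.span ({MvPolynomial.map (residue O) f} ∪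
        Set.range fun i => pderiv i (MvPolynomial.map (residue O) f))) :
    ∃ E' : ℕ, ∀ i, (X i : MvPolynomial (Fin N) O) ^ E' ∈
      Ideal.span ({f} ∪ Set.range fun i => pderiv i f) := by
  refine ⟨E * (∑ i, w i) + 1, fun i => ?_⟩
  rw [X_pow_eq_monomial]
  refine SpW1c.monomial_mem hw hf hE ?_
  rw [Finsupp.weight_apply, Finsupp.sum_single_index (by simp), smul_eq_mul]
  exact (Nat.lt_succ_self _).trans_le (Nat.le_mul_of_pos_right _ (hw i))

/-- a weighted homogeneous polynomial with a unit pure coefficient is monic (up to a unit) -/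
theorem monic_up {O : Type u} [CommRing O] [IsDomain O] {M : ℕ} {w : Fin (M + 1) → ℕ}
    (hw : ∀ i, 0 < w i) {D : ℕ} {f : MvPolynomial (Fin (M + 1)) O}
    (hf : f.IsWeightedHomogeneous w D) (n₀ : ℕ) (h0 : w 0 * n₀ = D)
    (hu0 : IsUnit (f.coeff (Finsupp.single 0 n₀))) :
    IsUnit (finSuccEquiv O M f).leadingCoeff := by
  classical
  have hc : ∀ (k : ℕ) (m : Fin M →₀ ℕ), coeff (m.cons k) f ≠ 0 →
      k * w 0 + ∑ i, m i * w i.succ = D := by
    intro k m hk
    have h1 := hf hk
    rw [SpW1.weight_eq, Fin.sum_univ_succ] at h1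
    simpa using h1
  have h1 : (finSuccEquiv O M f).coeff n₀ = C (f.coeff (Finsupp.single 0 n₀)) := by
    refine MvPolynomial.ext _ _ fun m => ?_
    rw [finSuccEquiv_coeff_coeff, coeff_C]
    by_cases hm : 0 = m
    · subst hm
      rw [if_pos rfl]
      congr 1
      ext i
      refine Fin.cases ?_ (fun j => ?_) i
      · simp
      · simp
    · rw [if_neg hm]
      by_contra hne
      have h2 := hc _ _ hne
      have h3 : ∑ i, m i * w i.succ = 0 := by
        rw [mul_comm] at h0
        omega
      apply hm
      ext i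
      have h4 := (Finset.sum_eq_zero_iff.1 h3) i (Finset.mem_univ i)
      rcases Nat.mul_eq_zero.1 h4 with h5 | h5
      · rw [h5]
        rfl
      · exact absurd h5 (hw _).ne'
  have hu : IsUnit (C (f.coeff (Finsupp.single 0 n₀)) : MvPolynomial (Fin M) O) := hu0.map C
  have h2 : (finSuccEquiv O M f).natDegree = n₀ := by
    refine Polynomial.natDegree_eq_of_le_of_coeff_ne_zero ?_ ?_
    · rw [Polynomial.natDegree_le_iff_coeff_eq_zero]
      intro k hk
      refine MvPolynomial.ext _ _ fun m => ?_
      rw [finSuccEquiv_coeff_coeff, coeff_zero]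
      by_contra hne
      have h3 := hc _ _ hne
      have h5 : w 0 * n₀ < k * w 0 := by
        rw [mul_comm]
        exact Nat.mul_lt_mul_of_pos_right hk (hw 0)
      omega
    · rw [h1]
      exact hu.ne_zero
  rw [Polynomial.leadingCoeff, h2, h1]
  exact hu

end Pool.Agent.HT51
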