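import Pool.Agent.HT51.SpWDefs

/-!
# Lattices and syzygies
-/

universe u

namespace Pool.Agent.HT51

open Pool.Agent.HT21 CategoryTheory

section den

variable {B B' : Type u} [CommRing B] [CommRing B'] (j : B →+* B') (T : Submonoid B)
  (hB : ∀ y : B', ∃ s ∈ T, ∃ b : B, j b = j s * y)

include hB in
/-- common denominators -/
lemma common_den {r : ℕ} (y : Fin r → B') :
    ∃ s ∈ T, ∃ b : Fin r → B, ∀ k, j (b k) = j s * y k := by
  classical
  choose s hs b hb using fun k => hB (y k)
  refine ⟨∏ k, s k, T.prod_mem fun k _ => hs k, fun k => (∏ l ∈ Finset.univ.erase k, s l) * b k,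
    fun k => ?_⟩
  rw [map_mul, hb, ← Finset.mul_prod_erase Finset.univ s (Finset.mem_univ k), map_mul]
  ring

variable {j T} {V V' : Type u} [AddCommGroup V] [Module B V] [AddCommGroup V'] [Module B' V']
  (L : Lat j (T : Set B) V V') (hT : ∀ s ∈ T, IsUnit (j s))

/-- the linear map `y ↦ ∑ y k • i (v k)` -/
noncomputable def Lat.lc {r : ℕ} (v : Fin r → V) : (Fin r → B') →ₗ[B'] V' :=
  Fintype.linearCombination B' (fun k => L.i (v k))

lemma Lat.lc_apply {r : ℕ} (v : Fin r → V) (y : Fin r → B') :
    L.lc v y = ∑ k, y k • L.i (v k) := rfl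

lemma Lat.lc_j {r : ℕ} (v : Fin r → V) (b : Fin r → B) :
    L.lc v (fun k => j (b k)) = L.i (∑ k, b k • v k) := by
  rw [Lat.lc_apply, map_sum]
  exact Finset.sum_congr rfl fun k _ => (L.smul _ _).symm

include hT in
lemma Lat.lc_surj {r : ℕ} (v : Fin r → V) (hv : ∀ x : V, ∃ b : Fin r → B, ∑ k, b k • v k = x) :
    Function.Surjective (L.lc v) := by
  intro y
  obtain ⟨s, hs, x, hx⟩ := L.ex y
  obtain ⟨b, rfl⟩ := hv x
  obtain ⟨u, hu⟩ := hT s hs
  refine ⟨(↑u⁻¹ : B') • (fun k => j (b k)), ?_⟩
  rw [map_smul, L.lc_j, hx, ← hu, smul_smul, Units.inv_mul, one_smul]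

include L hB hT in
/-- presentations of lattices -/
theorem lat_cok {r : ℕ} (A : Matrix (Fin r) (Fin r) B) (e : Cok A ≃ₗ[B] V) :
    Nonempty (Cok (A.map j) ≃ₗ[B'] V') := by
  classical
  let v : Fin r → V := fun k => e (Submodule.Quotient.mk (Pi.single k 1))
  have hv : ∀ b : Fin r → B, ∑ k, b k • v k = e (Submodule.Quotient.mk b) := by
    intro b
    have h : b = ∑ k, b k • (Pi.single k 1 : Fin r → B) := pi_sum_single b
    conv_rhs => rw [h]
    have h2 : (Submodule.Quotient.mk (∑ k, b k • (Pi.single k 1 : Fin r → B)) : Cok A)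
        = ∑ k, b k • (Submodule.Quotient.mk (Pi.single k 1) : Cok A) :=
      map_sum (Submodule.mkQ (LinearMap.range A.mulVecLin)) _ _
    rw [h2, map_sum]
    exact Finset.sum_congr rfl fun k _ => (map_smul e _ _).symm
  have hmul : ∀ b : Fin r → B, (A.map j).mulVecLin (fun k => j (b k))
      = fun k => j (A.mulVecLin b k) := by
    intro b
    funext k
    show ∑ l, j (A k l) * j (b l) = j (∑ l, A k l * b l)
    rw [map_sum]
    simp only [map_mul]
  have hsurj : Function.Surjective (L.lc v) := L.lc_surj hT v (fun x => by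
    obtain ⟨b, hb⟩ := Submodule.Quotient.mk_surjective _ (e.symm x)
    exact ⟨b, by rw [hv, hb, e.apply_symm_apply]⟩)
  have hker : LinearMap.ker (L.lc v) = LinearMap.range (A.map j).mulVecLin := by
    ext y
    rw [LinearMap.mem_ker]
    constructor
    · intro hy
      obtain ⟨s, hs, b, hb⟩ := common_den j T hB y
      have hb' : (fun k => j (b k)) = j s • y := funext hb
      have h1 : L.lc v (fun k => j (b k)) = 0 := by rw [hb', map_smul, hy, smul_zero]
      rw [L.lc_j, hv] at h1
      have h2 : e (Submodule.Quotient.mk b) = 0 := L.inj (by rw [h1, map_zero])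
      have h3 : (Submodule.Quotient.mk b : Cok A) = 0 := by
        rw [← map_zero e] at h2
        exact e.injective h2
      rw [Submodule.Quotient.mk_eq_zero] at h3
      obtain ⟨c, hc⟩ := h3
      obtain ⟨u, hu⟩ := hT s hs
      refine ⟨(↑u⁻¹ : B') • (fun k => j (c k)), ?_⟩
      rw [map_smul, hmul, hc, hb', ← hu, smul_smul, Units.inv_mul, one_smul]
    · rintro ⟨y, rfl⟩
      obtain ⟨s, hs, b, hb⟩ := common_den j T hB y
      have hb' : (fun k => j (b k)) = j s • y := funext hb
      obtain ⟨u, hu⟩ := hT s hs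
      have h1 : j s • L.lc v ((A.map j).mulVecLin y) = 0 := by
        rw [← map_smul, ← map_smul, ← hb', hmul, L.lc_j, hv]
        have h2 : (Submodule.Quotient.mk (A.mulVecLin b) : Cok A) = 0 := by
          rw [Submodule.Quotient.mk_eq_zero]
          exact ⟨b, rfl⟩
        rw [h2, map_zero, map_zero]
      rw [← hu] at h1
      have h4 := congrArg (fun z => (↑u⁻¹ : B') • z) h1
      simp only [smul_smul, Units.inv_mul, one_smul, smul_zero] at h4
      exact h4
  exact ⟨(Submodule.quotEquivOfEq _ _ hker.symm).trans ((L.lc v).quotKerEquivOfSurjective hsurj)⟩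

/-- the kernel of a presentation of a lattice is a lattice -/
noncomputable def Lat.kerLat (hB : ∀ y : B', ∃ s ∈ T, ∃ b : B, j b = j s * y)
    (hj : Function.Injective j) {m : ℕ} (g : (Fin m → B) →ₗ[B] V) :
    Lat j (T : Set B) (LinearMap.ker g)
      (LinearMap.ker (L.lc (fun k => g (Pi.single k 1)))) where
  i := 
    { toFun := fun b => ⟨fun k => j (b.1 k), by
        rw [LinearMap.mem_ker, L.lc_j, map_pi_sum, b.2, map_zero]⟩
      map_zero' := Subtype.ext (funext fun k => map_zero j)
      map_add' := fun a b => Subtype.ext (funext fun k => map_add j _ _) }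
  smul := fun b x => Subtype.ext (funext fun k => map_mul j _ _)
  inj := by
    intro a b hab
    refine Subtype.ext (funext fun k => hj ?_)
    exact congrFun (congrArg Subtype.val hab) k
  ex := by
    rintro ⟨y, hy⟩
    obtain ⟨s, hs, b, hb⟩ := common_den j T hB y
    have hb' : (fun k => j (b k)) = j s • y := funext hb
    rw [LinearMap.mem_ker] at hy
    have h1 : L.lc (fun k => g (Pi.single k 1)) (fun k => j (b k)) = 0 := by
      rw [hb', map_smul, hy, smul_zero]
    rw [L.lc_j, map_pi_sum] at h1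
    have h2 : g b = 0 := L.inj (by rw [h1, map_zero])
    exact ⟨s, hs, ⟨b, h2⟩, Subtype.ext hb'⟩

end den

section syz

variable {S R R' : Type u} [CommRing S] [CommRing R] [CommRing R'] (ι : S →+* R) (x f : R)
  (σ : R →+* R')

/-- the induced map of the hypersurface rings -/
noncomputable def qj : R ⧸ Ideal.span {f} →+* R' ⧸ Ideal.span {σ f} :=
  Ideal.quotientMap (Ideal.span {σ f}) σ (by
    rw [Ideal.span_singleton_le_iff_mem]
    exact Ideal.mem_span_singleton_self _)

lemma qj_mk (a : R) : qj f σ (Ideal.Quotient.mk _ a) = Ideal.Quotient.mk _ (σ a) := rfl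

theorem lat_syz_aux (hgen : ∀ a : R, ∃ P : Polynomial S, P.eval₂ ι x = a)
    (hf : ∀ a : R, f * a = 0 → a = 0) [IsNoetherianRing (R ⧸ Ideal.span {f})]
    [IsNoetherianRing (R' ⧸ Ideal.span {σ f})]
    (hfree : Module.Free S (Res ((Ideal.Quotient.mk (Ideal.span {f})).comp ι)
      (R ⧸ Ideal.span {f})))
    (hfin : ((Ideal.Quotient.mk (Ideal.span {f})).comp ι).Finite)
    (T : Submonoid (R ⧸ Ideal.span {f})) (hT : ∀ s ∈ T, IsUnit (qj f σ s))
    (hB : ∀ y : R' ⧸ Ideal.span {σ f}, ∃ s ∈ T, ∃ b : R ⧸ Ideal.span {f}, qj f σ b = qj f σ s * y)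
    (hj : Function.Injective (qj f σ)) (c : ℕ) :
    ∀ (V : Type u) [AddCommGroup V] [Module (R ⧸ Ideal.span {f}) V]
      [Module.Finite (R ⧸ Ideal.span {f}) V] (V' : Type u) [AddCommGroup V']
      [Module (R' ⧸ Ideal.span {σ f}) V'] (_ : Lat (qj f σ) (T : Set _) V V'),
      HasProjectiveDimensionLE
        (ModuleCat.of S (Res ((Ideal.Quotient.mk (Ideal.span {f})).comp ι) V)) c →
      ∃ (m r : ℕ) (F : MF f r), ∀ (W : Type u) [AddCommGroup W]
        [Module (R' ⧸ Ideal.span {σ f}) W] (i : ℕ),
        torLen (R' ⧸ Ideal.span {σ f}) (i + 1 + m) W V'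
          = torLen (R' ⧸ Ideal.span {σ f}) (i + 1) W
            (Cok ((F.map σ).phi.map (Ideal.Quotient.mk (Ideal.span {σ f})))) := by
  induction c with
  | zero =>
    intro V _ _ _ V' _ _ L h
    rw [← projective_iff_hasProjectiveDimensionLE_zero, ← IsProjective.iff_projective] at h
    obtain ⟨r, F, ⟨e⟩⟩ := mf_of_projective ι x f hgen hf V h (res_finite _ hfin)
    obtain ⟨e'⟩ := lat_cok hB L hT (F.phi.map (Ideal.Quotient.mk (Ideal.span {f}))) e
    have h1 : (F.phi.map (Ideal.Quotient.mk (Ideal.span {f}))).map (qj f σ)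
        = (F.map σ).phi.map (Ideal.Quotient.mk (Ideal.span {σ f})) := by
      ext a b
      rfl
    rw [h1] at e'
    exact ⟨0, r, F, fun W _ _ i => torLen_congr (LinearEquiv.refl _ W) e'.symm (i + 1)⟩
  | succ c ih =>
    intro V _ _ _ V' _ _ L h
    obtain ⟨m, g, hg⟩ := Module.Finite.exists_fin' (R ⧸ Ideal.span {f}) V
    have hex : Function.Exact (LinearMap.ker g).subtype g := LinearMap.exact_subtype_ker_map g
    have hinj : Function.Injective (LinearMap.ker g).subtype := Submodule.injective_subtype _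
    set q := (Ideal.Quotient.mk (Ideal.span {f})).comp ι with hq
    have hex' : Function.Exact (resMap q (LinearMap.ker g).subtype) (resMap q g) := hex
    have hzero : (resMap q g).comp (resMap q (LinearMap.ker g).subtype) = 0 :=
      hex'.linearMap_comp_eq_zero
    have hS := ModuleCat.shortComplex_shortExact
      (ModuleCat.shortComplexOfCompEqZero (resMap q (LinearMap.ker g).subtype) (resMap q g) hzero)
      hex' hinj hg
    have hP : Projective (ModuleCat.of S (Res q (Fin m → R ⧸ Ideal.span {f}))) :=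
      (IsProjective.iff_projective _).1 (projective_res_pi q hfree m)
    have hK : HasProjectiveDimensionLE (ModuleCat.of S (Res q (LinearMap.ker g))) c :=
      (hS.hasProjectiveDimensionLT_X₃_iff c hP).1 h
    have hg' : Function.Surjective (L.lc (fun k => g (Pi.single k 1))) :=
      L.lc_surj hT _ (fun x => by
        obtain ⟨b, rfl⟩ := hg x
        exact ⟨b, map_pi_sum g b⟩)
    obtain ⟨m', r, F, hF⟩ := ih (LinearMap.ker g) _ (L.kerLat hB hj g) hK
    have hfinV' : Module.Finite (R' ⧸ Ideal.span {σ f}) V' := Module.Finite.of_surjective _ hg'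
    refine ⟨m' + 1, r, F, fun W _ _ i => ?_⟩
    rw [← hF W i]
    have h1 := torLen_shift _ hg' W (i + m')
    rw [show i + 1 + (m' + 1) = i + m' + 2 by omega, show i + 1 + m' = i + m' + 1 by omega]
    exact h1

end syz

end Pool.Agent.HT51
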