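import Pool.Agent.HT21.PdPoly

/-!
# Polynomial rings over a principal ideal domain: projective dimension
-/

universe u

namespace Pool.Agent.HT51

open CategoryTheory

section pid

variable {O : Type u} [CommRing O] [IsDomain O] [IsPrincipalIdealRing O]

omit [IsDomain O] in
/-- divisible modules over a principal ideal domain are injective -/
lemma injective_of_div (A : Type u) [AddCommGroup A] [Module O A]
    (h : ∀ (a : O) (y : A), a ≠ 0 → ∃ x, a • x = y) : Module.Injective O A := by
  refine Module.Baer.injective fun I g => ?_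
  obtain ⟨m, rfl⟩ := IsPrincipalIdealRing.principal I
  have hm : m ∈ Submodule.span O {m} := Submodule.subset_span rfl
  by_cases h0 : m = 0
  · refine ⟨0, fun n hn => ?_⟩
    obtain ⟨c, hc⟩ := Submodule.mem_span_singleton.mp hn
    have hn0 : (⟨n, hn⟩ : Submodule.span O {m}) = 0 := Subtype.ext (by
      show n = 0
      rw [← hc, h0, smul_zero])
    rw [hn0, map_zero, LinearMap.zero_apply]
  · obtain ⟨y, hy⟩ := h m (g ⟨m, hm⟩) h0
    refine ⟨LinearMap.toSpanSingleton O A y, fun n hn => ?_⟩
    obtain ⟨c, hc⟩ := Submodule.mem_span_singleton.mp hn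
    have hn0 : (⟨n, hn⟩ : Submodule.span O {m}) = c • ⟨m, hm⟩ := Subtype.ext hc.symm
    rw [LinearMap.toSpanSingleton_apply, hn0, map_smul, ← hy, ← hc, smul_eq_mul, mul_smul]

omit [IsPrincipalIdealRing O] in
/-- injective modules over a domain are divisible -/
lemma div_of_injective (A : Type u) [AddCommGroup A] [Module O A] [Module.Injective O A]
    (a : O) (y : A) (ha : a ≠ 0) : ∃ x, a • x = y := by
  have hinj : Function.Injective (LinearMap.lsmul O O a) := fun x z hxz =>
    mul_left_cancel₀ ha hxz
  obtain ⟨φ, hφ⟩ := Module.Injective.out (LinearMap.lsmul O O a) hinj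
    (LinearMap.toSpanSingleton O A y)
  refine ⟨φ 1, ?_⟩
  rw [← map_smul]
  have h1 := hφ 1
  rw [LinearMap.toSpanSingleton_apply, one_smul] at h1
  exact h1

/-- submodules of projective modules over a principal ideal domain are projective -/
theorem projective_submodule (F : Type u) [AddCommGroup F] [Module O F] [Module.Projective O F]
    (N : Submodule O F) : Module.Projective O N := by
  refine Module.Projective.of_lifting_property fun {A} {B} _ _ _ _ p g hp => ?_
  let pres := (EnoughInjectives.presentation (ModuleCat.of O A)).some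
  let I : ModuleCat.{u} O := pres.J
  have hI0 : Injective (ModuleCat.of O I) := pres.injective
  have hI : Module.Injective O I := Module.injective_module_of_injective_object O I
  let f : A →ₗ[O] I := pres.f.hom
  have hf : Function.Injective f := (ModuleCat.mono_iff_injective pres.f).mp pres.mono
  let K : Submodule O I := (LinearMap.ker p).map f
  have hJ : Module.Injective O (I ⧸ K) := injective_of_div _ (fun a y ha => by
    obtain ⟨y, rfl⟩ := Submodule.Quotient.mk_surjective _ y
    obtain ⟨x, rfl⟩ := div_of_injective I a y ha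
    exact ⟨Submodule.Quotient.mk x, rfl⟩)
  let u0 : A ⧸ LinearMap.ker p →ₗ[O] I ⧸ K := Submodule.mapQ _ _ f (Submodule.le_comap_map _ _)
  let u : B →ₗ[O] I ⧸ K := u0.comp (p.quotKerEquivOfSurjective hp).symm.toLinearMap
  have hu : ∀ a, u (p a) = Submodule.Quotient.mk (f a) := by
    intro a
    have h1 : (p.quotKerEquivOfSurjective hp).symm (p a) = Submodule.Quotient.mk a := by
      rw [LinearEquiv.symm_apply_eq]
      rfl
    show u0 ((p.quotKerEquivOfSurjective hp).symm (p a)) = _
    rw [h1]
    rfl
  obtain ⟨φ, hφ⟩ := Module.Injective.out N.subtype N.injective_subtype (u.comp g)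
  obtain ⟨ψ, hψ⟩ := Module.projective_lifting_property (Submodule.mkQ K) φ
    (Submodule.mkQ_surjective K)
  have hψ' : ∀ x, (Submodule.Quotient.mk (ψ x) : I ⧸ K) = φ x := fun x => LinearMap.congr_fun hψ x
  have key : ∀ n : N, ∃ a : A, f a = ψ n ∧ p a = g n := by
    intro n
    obtain ⟨m, hm⟩ := hp (g n)
    have h1 : (Submodule.Quotient.mk (ψ n) : I ⧸ K) = Submodule.Quotient.mk (f m) := by
      rw [hψ', ← hu, hm]
      exact hφ n
    rw [Submodule.Quotient.eq] at h1
    obtain ⟨m', hm', h2⟩ := h1
    refine ⟨m + m', ?_, ?_⟩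
    · rw [map_add, h2]; abel
    · rw [map_add, hm, (show p m' = 0 from hm'), add_zero]
  let h0 : N →ₗ[O] LinearMap.range f := LinearMap.codRestrict _ (ψ.comp N.subtype) (fun n => by
    obtain ⟨a, ha, -⟩ := key n
    exact ⟨a, ha⟩)
  refine ⟨(LinearEquiv.ofInjective f hf).symm.toLinearMap.comp h0, ?_⟩
  ext n
  obtain ⟨a, ha, ha'⟩ := key n
  have h3 : (LinearEquiv.ofInjective f hf).symm (h0 n) = a := by
    rw [LinearEquiv.symm_apply_eq]
    exact Subtype.ext ha.symm
  show p ((LinearEquiv.ofInjective f hf).symm (h0 n)) = g n
  rw [h3, ha']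

theorem pd_pid (M : Type u) [AddCommGroup M] [Module O M] :
    HasProjectiveDimensionLE (ModuleCat.of O M) 1 := by
  have hsurj : Function.Surjective (Finsupp.linearCombination O (id : M → M)) :=
    Finsupp.linearCombination_surjective O Function.surjective_id
  have hS := LinearMap.shortExact_shortComplexKer hsurj
  have hP : Projective (ModuleCat.of O (M →₀ O)) :=
    (IsProjective.iff_projective _).1 inferInstance
  have hK : HasProjectiveDimensionLE
      (ModuleCat.of O (LinearMap.ker (Finsupp.linearCombination O (id : M → M)))) 0 := by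
    rw [← projective_iff_hasProjectiveDimensionLE_zero, ← IsProjective.iff_projective]
    exact projective_submodule _ _
  exact (hS.hasProjectiveDimensionLT_X₃_iff 0 hP).2 hK

theorem pd_mvPolynomial_pid (m : ℕ) (M : Type u) [AddCommGroup M]
    [Module (MvPolynomial (Fin m) O) M] :
    HasProjectiveDimensionLE (ModuleCat.of (MvPolynomial (Fin m) O) M) (m + 1) := by
  induction m generalizing M with
  | zero =>
    let : Module O M := Module.compHom M (MvPolynomial.C : O →+* MvPolynomial (Fin 0) O)
    let e : O ≃+* MvPolynomial (Fin 0) O := (MvPolynomial.isEmptyAlgEquiv O (Fin 0)).symm.toRingEquiv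
    let := RingHomInvPair.of_ringEquiv e
    let := RingHomInvPair.of_ringEquiv e.symm
    let e' : M ≃ₛₗ[RingHomClass.toRingHom e] M :=
      { toFun := id
        invFun := id
        left_inv := fun _ => rfl
        right_inv := fun _ => rfl
        map_add' := fun _ _ => rfl
        map_smul' := fun c x => by
          show (MvPolynomial.C c : MvPolynomial (Fin 0) O) • x = (e c) • x
          rfl }
    have h1 : HasProjectiveDimensionLE (ModuleCat.of O M) (0 + 1) := pd_pid M
    exact ModuleCat.hasProjectiveDimensionLE_of_semiLinearEquiv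
      (M := ModuleCat.of O M) (N := ModuleCat.of (MvPolynomial (Fin 0) O) M) e e' (0 + 1)
  | succ m ih =>
    let e : Polynomial (MvPolynomial (Fin m) O) ≃+* MvPolynomial (Fin (m + 1)) O :=
      (MvPolynomial.finSuccEquiv O m).symm.toRingEquiv
    let : Module (Polynomial (MvPolynomial (Fin m) O)) M := Module.compHom M e.toRingHom
    let := RingHomInvPair.of_ringEquiv e
    let := RingHomInvPair.of_ringEquiv e.symm
    let e' : M ≃ₛₗ[RingHomClass.toRingHom e] M :=
      { toFun := id
        invFun := id
        left_inv := fun _ => rfl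
        right_inv := fun _ => rfl
        map_add' := fun _ _ => rfl
        map_smul' := fun c x => rfl }
    have h1 : HasProjectiveDimensionLE (ModuleCat.of (Polynomial (MvPolynomial (Fin m) O)) M)
        (m + 1 + 1) := Pool.Agent.HT21.pd_polynomial (m + 1) (fun N _ _ => ih N) M
    exact ModuleCat.hasProjectiveDimensionLE_of_semiLinearEquiv
      (M := ModuleCat.of (Polynomial (MvPolynomial (Fin m) O)) M)
      (N := ModuleCat.of (MvPolynomial (Fin (m + 1)) O) M) e e' (m + 1 + 1)

end pid

end Pool.Agent.HT51
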