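import Pool.Agent.HT51.SpW2
import Pool.Agent.HT51.SpW2a

/-!
# Hypersurface rings over a domain, monic in `X 0`
-/

universe u

namespace Pool.Agent.HT51

open MvPolynomial

section

variable {O : Type u} [CommRing O] {M : ℕ}

/-- the inclusion `O[x_1..x_M] → O[x_0..x_M]` -/
noncomputable def sIncO (O : Type u) [CommRing O] (M : ℕ) :
    MvPolynomial (Fin M) O →+* MvPolynomial (Fin (M + 1)) O :=
  (rename (Fin.succ) : MvPolynomial (Fin M) O →ₐ[O] _).toRingHom

lemma sIncO_C (t : O) : sIncO O M (C t) = C t := rename_C _ _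

lemma finSuccEquiv_sIncO (s : MvPolynomial (Fin M) O) :
    finSuccEquiv O M (sIncO O M s) = Polynomial.C s := by
  have h : ((finSuccEquiv O M : MvPolynomial (Fin (M + 1)) O →ₐ[O] _).comp
      (rename (Fin.succ) : MvPolynomial (Fin M) O →ₐ[O] _))
      = (Polynomial.CAlgHom : MvPolynomial (Fin M) O →ₐ[MvPolynomial (Fin M) O] _).restrictScalars O := by
    refine algHom_ext fun j => ?_
    rw [AlgHom.comp_apply, rename_X]
    exact finSuccEquiv_X_succ
  exact congrArg (fun f => f s) h

lemma gen_polyO (a : MvPolynomial (Fin (M + 1)) O) :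
    ∃ P : Polynomial (MvPolynomial (Fin M) O), P.eval₂ (sIncO O M) (X 0) = a := by
  induction a using MvPolynomial.induction_on with
  | C c =>
    refine ⟨Polynomial.C (C c), ?_⟩
    rw [Polynomial.eval₂_C]
    exact rename_C _ _
  | add p q hp hq =>
    obtain ⟨P, hP⟩ := hp
    obtain ⟨Q, hQ⟩ := hq
    exact ⟨P + Q, by rw [Polynomial.eval₂_add, hP, hQ]⟩
  | mul_X p i hp =>
    obtain ⟨P, hP⟩ := hp
    refine Fin.cases ?_ (fun j => ?_) i
    · exact ⟨P * Polynomial.X, by rw [Polynomial.eval₂_mul, hP, Polynomial.eval₂_X]⟩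
    · refine ⟨P * Polynomial.C (X j), ?_⟩
      rw [Polynomial.eval₂_mul, hP, Polynomial.eval₂_C]
      congr 1
      exact rename_X _ _

/-- `O[X]/(f)` is free and finite over `O[x_1..x_M]` -/
theorem free_finite_of_monicO [Nontrivial O] (f : MvPolynomial (Fin (M + 1)) O)
    (hf : IsUnit (finSuccEquiv O M f).leadingCoeff) :
    Module.Free (MvPolynomial (Fin M) O) (Res ((Ideal.Quotient.mk (Ideal.span {f})).comp (sIncO O M))
        (MvPolynomial (Fin (M + 1)) O ⧸ Ideal.span {f})) ∧
      Module.Finite (MvPolynomial (Fin M) O) (Res ((Ideal.Quotient.mk (Ideal.span {f})).comp (sIncO O M))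
        (MvPolynomial (Fin (M + 1)) O ⧸ Ideal.span {f})) := by
  obtain ⟨v, hv⟩ := hf
  set e := finSuccEquiv O M with he
  set g : Polynomial (MvPolynomial (Fin M) O) := Polynomial.C ((v⁻¹ : (MvPolynomial (Fin M) O)ˣ) : MvPolynomial (Fin M) O) * e f with hg
  have hmon : g.Monic := by
    rw [hg]
    apply Polynomial.monic_C_mul_of_mul_leadingCoeff_eq_one
    rw [← hv]
    exact v.inv_mul
  have hspan : Ideal.span {f} = (Ideal.span {g}).map (e.symm : Polynomial (MvPolynomial (Fin M) O) ≃ₐ[O] _).toRingEquiv.toRingHom := by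
    rw [Ideal.map_span, Set.image_singleton]
    have h1 : (e.symm.toRingEquiv.toRingHom) g =
        sIncO O M ((v⁻¹ : (MvPolynomial (Fin M) O)ˣ) : MvPolynomial (Fin M) O) * f := by
      apply e.injective
      show e (e.symm g) = _
      rw [e.apply_symm_apply, map_mul, he, finSuccEquiv_sIncO]
    rw [h1]
    have h2 : IsUnit (sIncO O M ((v⁻¹ : (MvPolynomial (Fin M) O)ˣ) : MvPolynomial (Fin M) O)) :=
      (Units.isUnit v⁻¹).map (sIncO O M)
    exact (Ideal.span_singleton_mul_left_unit h2 f).symm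
  let E0 : (Polynomial (MvPolynomial (Fin M) O) ⧸ Ideal.span {g}) ≃+*
      (MvPolynomial (Fin (M + 1)) O ⧸ Ideal.span {f}) :=
    Ideal.quotientEquiv _ _ e.symm.toRingEquiv hspan
  have hfree : Module.Free (MvPolynomial (Fin M) O)
      (Polynomial (MvPolynomial (Fin M) O) ⧸ Ideal.span {g}) := hmon.free_quotient
  have hfin : Module.Finite (MvPolynomial (Fin M) O)
      (Polynomial (MvPolynomial (Fin M) O) ⧸ Ideal.span {g}) := hmon.finite_quotient
  let E : (Polynomial (MvPolynomial (Fin M) O) ⧸ Ideal.span {g}) ≃ₗ[MvPolynomial (Fin M) O]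
      Res ((Ideal.Quotient.mk (Ideal.span {f})).comp (sIncO O M))
        (MvPolynomial (Fin (M + 1)) O ⧸ Ideal.span {f}) :=
    { toFun := fun b => toRes _ _ (E0 b)
      invFun := fun b => E0.symm ((toRes _ _).symm b)
      left_inv := fun b => E0.symm_apply_apply b
      right_inv := fun b => E0.apply_symm_apply b
      map_add' := fun a b => congrArg (toRes _ _) (map_add E0 a b)
      map_smul' := fun s b => by
        rw [RingHom.id_apply, toRes_smul]
        congr 1
        obtain ⟨P, rfl⟩ := Ideal.Quotient.mk_surjective b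
        have h1 : s • (Ideal.Quotient.mk (Ideal.span {g}) P)
            = Ideal.Quotient.mk (Ideal.span {g}) (Polynomial.C s * P) := by
          rw [← Polynomial.smul_eq_C_mul]
          rfl
        rw [h1]
        show Ideal.Quotient.mk _ (e.symm (Polynomial.C s * P)) = Ideal.Quotient.mk _ (sIncO O M s) * Ideal.Quotient.mk _ (e.symm P)
        rw [← map_mul, map_mul e.symm]
        congr 2
        rw [AlgEquiv.symm_apply_eq, finSuccEquiv_sIncO] }
  exact ⟨Module.Free.of_equiv E, Module.Finite.equiv E⟩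

/-- `O[X]/(f)` has no `O`-torsion -/
lemma quot_torsion_free [IsDomain O] (f : MvPolynomial (Fin (M + 1)) O)
    (hf : IsUnit (finSuccEquiv O M f).leadingCoeff) (t : O) (ht : t ≠ 0)
    (b : MvPolynomial (Fin (M + 1)) O ⧸ Ideal.span {f})
    (h : Ideal.Quotient.mk (Ideal.span {f}) (C t) * b = 0) : b = 0 := by
  obtain ⟨h1, -⟩ := free_finite_of_monicO f hf
  have h2 : (C t : MvPolynomial (Fin M) O) •
      toRes ((Ideal.Quotient.mk (Ideal.span {f})).comp (sIncO O M)) _ b = 0 := by
    rw [toRes_smul]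
    show toRes _ _ (Ideal.Quotient.mk (Ideal.span {f}) (sIncO O M (C t)) * b) = 0
    rw [sIncO_C, h, map_zero]
  have h3 : (C t : MvPolynomial (Fin M) O) ≠ 0 := by
    rw [Ne, C_eq_zero]
    exact ht
  have h4 := (smul_eq_zero.mp h2).resolve_left h3
  exact h4

variable {K : Type u} [Field K] [Algebra O K] [IsFractionRing O K]

/-- clearing denominators -/
lemma clear_den [IsDomain O] {N : ℕ} (p : MvPolynomial (Fin N) K) :
    ∃ t : O, t ≠ 0 ∧ ∃ b : MvPolynomial (Fin N) O,
      MvPolynomial.map (algebraMap O K) b = C (algebraMap O K t) * p := by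
  induction p using MvPolynomial.induction_on with
  | C c =>
    obtain ⟨⟨b, t⟩, hb⟩ := IsLocalization.surj (nonZeroDivisors O) c
    refine ⟨t, nonZeroDivisors.ne_zero t.2, C b, ?_⟩
    rw [map_C, ← C_mul, ← hb, mul_comm]
  | add p q hp hq =>
    obtain ⟨t, ht, b, hb⟩ := hp
    obtain ⟨s, hs, c, hc⟩ := hq
    refine ⟨t * s, mul_ne_zero ht hs, C s * b + C t * c, ?_⟩
    rw [map_add, map_mul, map_mul, map_C, map_C, hb, hc, map_mul, C_mul]
    ring
  | mul_X p i hp =>
    obtain ⟨t, ht, b, hb⟩ := hp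
    refine ⟨t, ht, b * X i, ?_⟩
    rw [map_mul, hb, map_X]
    ring

/-- the images of the non-zero constants -/
noncomputable def cstQ [IsDomain O] {N : ℕ} (f : MvPolynomial (Fin N) O) :
    Submonoid (MvPolynomial (Fin N) O ⧸ Ideal.span {f}) :=
  (nonZeroDivisors O).map ((Ideal.Quotient.mk (Ideal.span {f})).comp (C : O →+* MvPolynomial (Fin N) O))

lemma mem_cstQ [IsDomain O] {N : ℕ} {f : MvPolynomial (Fin N) O}
    {s : MvPolynomial (Fin N) O ⧸ Ideal.span {f}} :
    s ∈ cstQ f ↔ ∃ t : O, t ≠ 0 ∧ Ideal.Quotient.mk (Ideal.span {f}) (C t) = s := by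
  constructor
  · rintro ⟨t, ht, rfl⟩
    exact ⟨t, nonZeroDivisors.ne_zero ht, rfl⟩
  · rintro ⟨t, ht, rfl⟩
    exact ⟨t, mem_nonZeroDivisors_of_ne_zero ht, rfl⟩

variable (K) in
lemma cstQ_unit [IsDomain O] {N : ℕ} (f : MvPolynomial (Fin N) O)
    (s : MvPolynomial (Fin N) O ⧸ Ideal.span {f}) (hs : s ∈ cstQ f) :
    IsUnit (qj f (MvPolynomial.map (algebraMap O K)) s) := by
  obtain ⟨t, ht, rfl⟩ := mem_cstQ.mp hs
  rw [qj_mk, map_C]
  have h1 : algebraMap O K t ≠ 0 := by
    intro h
    apply ht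
    apply IsFractionRing.injective O K
    rw [h, map_zero]
  exact ((IsUnit.mk0 _ h1).map C).map _

lemma qj_den [IsDomain O] {N : ℕ} (f : MvPolynomial (Fin N) O)
    (y : MvPolynomial (Fin N) K ⧸ Ideal.span {MvPolynomial.map (algebraMap O K) f}) :
    ∃ s ∈ cstQ f, ∃ b : MvPolynomial (Fin N) O ⧸ Ideal.span {f},
      qj f (MvPolynomial.map (algebraMap O K)) b = qj f (MvPolynomial.map (algebraMap O K)) s * y := by
  obtain ⟨p, rfl⟩ := Ideal.Quotient.mk_surjective y
  obtain ⟨t, ht, b, hb⟩ := clear_den (O := O) p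
  refine ⟨_, mem_cstQ.mpr ⟨t, ht, rfl⟩, Ideal.Quotient.mk _ b, ?_⟩
  rw [qj_mk, qj_mk, hb, map_C, map_mul]

variable (K) in
lemma qj_injective [IsDomain O] (f : MvPolynomial (Fin (M + 1)) O)
    (hf : IsUnit (finSuccEquiv O M f).leadingCoeff) :
    Function.Injective (qj f (MvPolynomial.map (algebraMap O K))) := by
  rw [injective_iff_map_eq_zero]
  intro b hb
  obtain ⟨b, rfl⟩ := Ideal.Quotient.mk_surjective b
  rw [qj_mk, Ideal.Quotient.eq_zero_iff_mem] at hb
  obtain ⟨q, hq⟩ := Ideal.mem_span_singleton'.mp hb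
  obtain ⟨t, ht, c, hc⟩ := clear_den (O := O) q
  refine quot_torsion_free f hf t ht _ ?_
  rw [← map_mul, Ideal.Quotient.eq_zero_iff_mem]
  refine Ideal.mem_span_singleton'.mpr ⟨c, ?_⟩
  apply MvPolynomial.map_injective _ (IsFractionRing.injective O K)
  rw [map_mul, map_mul, hc, ← hq, map_C]
  ring

end

/-- every finite module contains a finite lattice -/
theorem exists_lattice {B B' : Type u} [CommRing B] [CommRing B'] (j : B →+* B') (T : Submonoid B)
    (hB : ∀ y : B', ∃ s ∈ T, ∃ b : B, j b = j s * y)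
    (V' : Type u) [AddCommGroup V'] [Module B' V'] [Module.Finite B' V'] :
    ∃ (V : Type u) (_ : AddCommGroup V) (_ : Module B V) (_ : Module.Finite B V),
      Nonempty (Lat j (T : Set B) V V') := by
  obtain ⟨m, g, hg⟩ := Module.Finite.exists_fin' B' V'
  let v : Fin m → Res j V' := fun k => toRes j V' (g (Pi.single k 1))
  let V0 : Submodule B (Res j V') := Submodule.span B (Set.range v)
  refine ⟨V0, inferInstance, inferInstance, ?_, ⟨?_⟩⟩
  · exact Module.Finite.span_of_finite B (Set.finite_range v)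
  · refine
      { i := (toRes j V').symm.toAddMonoidHom.comp V0.subtype.toAddMonoidHom
        smul := fun b x => rfl
        inj := fun a b hab => Subtype.ext hab
        ex := ?_ }
    intro y
    obtain ⟨c, rfl⟩ := hg y
    obtain ⟨s, hs, b, hb⟩ := common_den j T hB c
    have hb' : (fun k => j (b k)) = j s • c := funext hb
    refine ⟨s, hs, ⟨∑ k, b k • v k, Submodule.sum_mem _ fun k _ =>
      Submodule.smul_mem _ _ (Submodule.subset_span ⟨k, rfl⟩)⟩, ?_⟩
    show (∑ k, b k • v k : Res j V') = toRes j V' (j s • g c)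
    rw [← map_smul, ← hb']
    have h1 := map_pi_sum g (fun k => j (b k))
    rw [← h1, map_sum]
    rfl

/-- (W2) lattices and matrix factorisations -/
theorem lat_tor' {O K : Type u} [CommRing O] [IsDomain O] [IsPrincipalIdealRing O]
    [Field K] [Algebra O K] [IsFractionRing O K] {M : ℕ}
    (f : MvPolynomial (Fin (M + 1)) O) (hf : IsUnit (finSuccEquiv O M f).leadingCoeff)
    (V : Type u) [AddCommGroup V]
    [Module (MvPolynomial (Fin (M + 1)) K ⧸ Ideal.span {MvPolynomial.map (algebraMap O K) f}) V]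
    [Module.Finite
      (MvPolynomial (Fin (M + 1)) K ⧸ Ideal.span {MvPolynomial.map (algebraMap O K) f}) V] :
    ∃ (m r : ℕ) (F : MF f r), ∀ (W : Type u) [AddCommGroup W]
      [Module (MvPolynomial (Fin (M + 1)) K ⧸ Ideal.span {MvPolynomial.map (algebraMap O K) f}) W]
      (i : ℕ),
      Pool.Agent.HT21.torLen (MvPolynomial (Fin (M + 1)) K ⧸ Ideal.span {MvPolynomial.map (algebraMap O K) f})
          (i + 1 + m) W V
        = Pool.Agent.HT21.torLen (MvPolynomial (Fin (M + 1)) K ⧸ Ideal.span {MvPolynomial.map (algebraMap O K) f})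
          (i + 1) W (Cok ((F.map (MvPolynomial.map (algebraMap O K))).phi.map
            (Ideal.Quotient.mk (Ideal.span {MvPolynomial.map (algebraMap O K) f})))) := by
  obtain ⟨h1, h2⟩ := free_finite_of_monicO f hf
  have hne : f ≠ 0 := by
    intro h
    rw [h, map_zero, Polynomial.leadingCoeff_zero] at hf
    exact hf.ne_zero rfl
  obtain ⟨V0, _, _, _, ⟨L⟩⟩ := exists_lattice (qj f (MvPolynomial.map (algebraMap O K))) (cstQ f)
    (qj_den f) V
  exact lat_syz_aux (sIncO O M) (X 0) f (MvPolynomial.map (algebraMap O K)) gen_polyO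
    (fun a ha => (mul_eq_zero.mp ha).resolve_left hne) h1 h2 (cstQ f) (cstQ_unit K f) (qj_den f)
    (qj_injective K f hf) (M + 1) V0 V L (pd_mvPolynomial_pid M _)

end Pool.Agent.HT51
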