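import Pool.Agent.HT51.SpWDefs
import Pool.Agent.HT51.SpCr
import Pool.Agent.HT51.SpCv

/-!
# `HH` of a lattice
-/

universe u

namespace Pool.Agent.HT51

open MvPolynomial Pool.Agent.HT21

section lat

variable {O K : Type u} [CommRing O] [IsDomain O] [Field K]
    [Algebra O K] {N r : ℕ}
    (V V' : Type u) [AddCommGroup V] [Module (MvPolynomial (Fin N) O) V]
    [AddCommGroup V'] [Module (MvPolynomial (Fin N) K) V']
    (L : Lat (MvPolynomial.map (algebraMap O K)) (cst O N) V V')

variable {V V'}

/-- the semilinear inclusion of a lattice -/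
def Lat.lin : V →ₛₗ[MvPolynomial.map (σ := Fin N) (algebraMap O K)] V' where
  toFun := L.i
  map_add' := L.i.map_add
  map_smul' := L.smul

include L in
/-- common denominators -/
lemma Lat.ex_fam (y : Fin r → V') : ∃ (t : O) (x : Fin r → V), t ≠ 0 ∧
    ∀ a, L.i (x a) = (C (algebraMap O K t) : MvPolynomial (Fin N) K) • y a := by
  classical
  choose s hs x hx using fun a => L.ex (y a)
  choose t ht hst using hs
  refine ⟨∏ a, t a, fun a => (C (∏ b ∈ Finset.univ.erase a, t b) : MvPolynomial (Fin N) O) • x a,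
    Finset.prod_ne_zero_iff.mpr fun a _ => ht a, fun a => ?_⟩
  rw [L.smul, hx, hst, map_C, map_C, smul_smul, ← C_mul, ← map_mul,
    Finset.prod_erase_mul _ _ (Finset.mem_univ a)]

end lat

theorem lat_HH {O K : Type u} [CommRing O] [IsDomain O] [IsNoetherianRing O] [Field K]
    [Algebra O K] [IsFractionRing O K] {N r : ℕ} (φ ψ : Matrix (Fin r) (Fin r) (MvPolynomial (Fin N) O))
    (V V' : Type u) [AddCommGroup V] [Module (MvPolynomial (Fin N) O) V]
    [Module.Finite (MvPolynomial (Fin N) O) V]
    [AddCommGroup V'] [Module (MvPolynomial (Fin N) K) V']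
    (L : Lat (MvPolynomial.map (algebraMap O K)) (cst O N) V V')
    (E : ℕ) (hE : ∀ (i : Fin N) (z : HH φ ψ V), (X i : MvPolynomial (Fin N) O) ^ E • z = 0)
    [Module O (HH φ ψ V)] [IsScalarTower O (MvPolynomial (Fin N) O) (HH φ ψ V)] :
    Module.length (MvPolynomial (Fin N) K) (HH (φ.map (MvPolynomial.map (algebraMap O K)))
      (ψ.map (MvPolynomial.map (algebraMap O K))) V') = (Module.finrank O (HH φ ψ V) : ℕ∞) := by
  let j : MvPolynomial (Fin N) O →+* MvPolynomial (Fin N) K := MvPolynomial.map (algebraMap O K)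
  let H := HH φ ψ V
  let H' := HH (φ.map j) (ψ.map j) V'
  let l : V →ₛₗ[j] V' := L.lin
  let g : H →ₛₗ[j] H' := HHsemi j φ ψ l
  let : Module K H' := Module.compHom _ (C : K →+* MvPolynomial (Fin N) K)
  have hKs : ∀ (a : K) (z : H'), a • z = (C a : MvPolynomial (Fin N) K) • z := fun a z => rfl
  let : Module O H' := Module.compHom _ (algebraMap O K)
  have hOs : ∀ (a : O) (z : H'), a • z = algebraMap O K a • z := fun a z => rfl
  have : IsScalarTower K (MvPolynomial (Fin N) K) H' := ⟨fun a p z => by
    rw [hKs, smul_smul, C_mul']⟩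
  have : IsScalarTower O K H' := ⟨fun a b z => by
    rw [hOs, smul_smul, Algebra.smul_def]⟩
  let g' : H →ₗ[O] H' :=
    { toFun := g
      map_add' := map_add g
      map_smul' := fun a z => by
        rw [← algebraMap_smul (MvPolynomial (Fin N) O) a z, RingHom.id_apply]
        refine (map_smulₛₗ g _ _).trans ?_
        rw [hOs, hKs]
        congr 1
        exact map_C _ a }
  have hNoeth : IsNoetherian (MvPolynomial (Fin N) O) V :=
    isNoetherian_of_isNoetherianRing_of_finite _ V
  have hfin : Module.Finite O H := fin_PO _ E hE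
  have hloc : IsLocalizedModule (nonZeroDivisors O) g' := by
    refine ⟨?_, ?_, ?_⟩
    · rintro ⟨t, ht⟩
      have ht0 : algebraMap O K t ≠ 0 := IsLocalization.to_map_ne_zero_of_mem_nonZeroDivisors K le_rfl ht
      rw [Module.End.isUnit_iff]
      constructor
      · intro x y hxy
        have h1 : algebraMap O K t • x = algebraMap O K t • y := hxy
        exact (smul_right_injective _ ht0) h1
      · intro y
        refine ⟨(algebraMap O K t)⁻¹ • y, ?_⟩
        show algebraMap O K t • (algebraMap O K t)⁻¹ • y = y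
        rw [smul_inv_smul₀ ht0]
    · intro y
      obtain ⟨⟨y, hy⟩, rfl⟩ := Submodule.Quotient.mk_surjective _ y
      obtain ⟨t, x, ht, hx⟩ := L.ex_fam y
      have hx' : (fun a => l (x a)) = (C (algebraMap O K t) : MvPolynomial (Fin N) K) • y :=
        funext hx
      have h1 : mact φ V x = 0 := by
        funext a
        apply L.inj
        have h2 := congrFun (mact_semi j l φ x) a
        rw [hx', map_smul, hy, smul_zero] at h2
        exact h2.trans (map_zero L.i).symm
      refine ⟨⟨Submodule.Quotient.mk ⟨x, h1⟩, ⟨t, mem_nonZeroDivisors_of_ne_zero ht⟩⟩, ?_⟩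
      show (C (algebraMap O K t) : MvPolynomial (Fin N) K) • (Submodule.Quotient.mk ⟨y, hy⟩ : H') =
        Submodule.Quotient.mk (kerSemi j φ l ⟨x, h1⟩)
      rw [← Submodule.Quotient.mk_smul]
      congr 1
      exact Subtype.ext hx'.symm
    · intro z₁ z₂ hz
      obtain ⟨z, hzz⟩ : ∃ z, z = z₁ - z₂ := ⟨_, rfl⟩
      have h1 : g' z = 0 := by rw [hzz, map_sub, hz, sub_self]
      suffices ∃ c : nonZeroDivisors O, c • z = 0 by
        obtain ⟨c, hc⟩ := this
        refine ⟨c, ?_⟩
        rw [hzz, smul_sub, sub_eq_zero] at hc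
        exact hc
      clear hzz hz
      obtain ⟨⟨x, hx⟩, rfl⟩ := Submodule.Quotient.mk_surjective _ z
      have h2 : (Submodule.Quotient.mk (kerSemi j φ l ⟨x, hx⟩) : H') = 0 := h1
      rw [HH_mk_zero] at h2
      obtain ⟨w, hw⟩ := h2
      obtain ⟨t, w', ht, hw'⟩ := L.ex_fam w
      refine ⟨⟨t, mem_nonZeroDivisors_of_ne_zero ht⟩, ?_⟩
      show t • (Submodule.Quotient.mk ⟨x, hx⟩ : H) = 0
      rw [← algebraMap_smul (MvPolynomial (Fin N) O) t, ← Submodule.Quotient.mk_smul, HH_mk_zero]
      refine ⟨w', ?_⟩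
      funext a
      apply L.inj
      have h3 := congrFun (mact_semi j l ψ w') a
      have h4 : (fun b => l (w' b)) = (C (algebraMap O K t) : MvPolynomial (Fin N) K) • w :=
        funext hw'
      rw [h4, map_smul, hw] at h3
      refine h3.trans ?_
      show (C (algebraMap O K t) : MvPolynomial (Fin N) K) • L.i (x a)
        = L.i ((C t : MvPolynomial (Fin N) O) • x a)
      rw [L.smul]
      congr 1
      exact (map_C _ t).symm
  have hfin' : Module.Finite K H' := by
    exact Module.Finite.of_isLocalizedModule (nonZeroDivisors O) (Rₚ := K) g'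
  have hk' : ∀ (i : Fin N) (z : H'), (X i : MvPolynomial (Fin N) K) ^ E • z = 0 := by
    intro i z
    obtain ⟨⟨x, t⟩, hxt⟩ := hloc.surj z
    have ht0 : algebraMap O K t.1 ≠ 0 :=
      IsLocalization.to_map_ne_zero_of_mem_nonZeroDivisors K le_rfl t.2
    have h1 : (C (algebraMap O K t.1) : MvPolynomial (Fin N) K) • z = g x := hxt
    have h2 : z = (C (algebraMap O K t.1)⁻¹ : MvPolynomial (Fin N) K) • g x := by
      rw [← h1, smul_smul, ← C_mul, inv_mul_cancel₀ ht0, C_1, one_smul]
    have h3 : (X i : MvPolynomial (Fin N) K) ^ E • g x = 0 := by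
      have h4 : (X i : MvPolynomial (Fin N) K) ^ E = j (X i ^ E) := by
        rw [map_pow]
        congr 1
        exact (map_X _ i).symm
      rw [h4, ← map_smulₛₗ g, hE, map_zero]
    rw [h2, smul_comm, h3, smul_zero]
  have h5 : Module.length (MvPolynomial (Fin N) K) H' = Module.length K H' := len_PO H' E hk'
  have h6 : Module.finrank K H' = Module.finrank O H := by
    rw [IsLocalization.finrank_eq (R := O) K (nonZeroDivisors O) le_rfl]
    exact IsLocalizedModule.finrank_eq (nonZeroDivisors O) g' le_rfl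
  have h7 : Module.length K H' = (Module.finrank K H' : ℕ∞) := Module.length_eq_finrank K H'
  exact (h5.trans h7).trans (by rw [h6])

end Pool.Agent.HT51
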