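import Pool.Agent.HT51.SpW4a
import Pool.Agent.HT51.SpW3

/-!
# Specialisation over a discrete valuation ring: the theorem over the fraction field
-/

universe u

namespace Pool.Agent.HT51

open MvPolynomial IsLocalRing Pool.Agent.HT21

section lat

variable {O K : Type u} [CommRing O] [IsDomain O] [Field K] [Algebra O K] [IsFractionRing O K]
  {N : ℕ} {f : MvPolynomial (Fin N) O}

/-- extension of scalars on vectors -/
noncomputable def extV (O K : Type u) [CommRing O] [Field K] [Algebra O K] (N s : ℕ) :
    (Fin s → MvPolynomial (Fin N) O) →ₛₗ[MvPolynomial.map (σ := Fin N) (algebraMap O K)]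
      (Fin s → MvPolynomial (Fin N) K) where
  toFun x := fun j => MvPolynomial.map (algebraMap O K) (x j)
  map_add' _ _ := _root_.funext fun _ => map_add _ _ _
  map_smul' _ _ := _root_.funext fun _ => map_mul _ _ _

omit [IsDomain O] [IsFractionRing O K] in
lemma extV_mulVec {s : ℕ} (A : Matrix (Fin s) (Fin s) (MvPolynomial (Fin N) O))
    (w : Fin s → MvPolynomial (Fin N) O) :
    extV O K N s (A.mulVec w) = (A.map (MvPolynomial.map (algebraMap O K))).mulVec (extV O K N s w) :=
  funext fun j => RingHom.map_mulVec (MvPolynomial.map (algebraMap O K)) A w j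

/-- extension of scalars on cokernels -/
noncomputable def cokExt (K : Type u) [Field K] [Algebra O K] {s : ℕ} (G : MF f s) :
    Cok G.phi →ₛₗ[MvPolynomial.map (σ := Fin N) (algebraMap O K)]
      Cok (G.map (MvPolynomial.map (algebraMap O K))).phi :=
  Submodule.mapQ _ _ (extV O K N s) (by
    rintro _ ⟨w, rfl⟩
    exact ⟨extV O K N s w, (extV_mulVec G.phi w).symm⟩)

/-- the cokernel over `O` is a lattice in the cokernel over `K` -/
noncomputable def cokLat (hreg : RegM f) {s : ℕ} (G : MF f s) :
    Lat (MvPolynomial.map (algebraMap O K)) (cst O N) (Cok G.phi)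
      (Cok (G.map (MvPolynomial.map (algebraMap O K))).phi) where
  i := (cokExt K G).toAddMonoidHom
  smul := fun b x => (cokExt K G).map_smulₛₗ b x
  inj := by
    refine (injective_iff_map_eq_zero _).mpr ?_
    intro x hx
    obtain ⟨v, rfl⟩ := Submodule.Quotient.mk_surjective _ x
    have h1 : (Submodule.Quotient.mk (extV O K N s v) :
      Cok (G.map (MvPolynomial.map (algebraMap O K))).phi) = 0 := hx
    rw [Submodule.Quotient.mk_eq_zero] at h1
    obtain ⟨u, hu⟩ := h1
    obtain ⟨b, hb, c, hc⟩ := common_den (MvPolynomial.map (algebraMap O K))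
      ((nonZeroDivisors O).map (C : O →+* MvPolynomial (Fin N) O)) (fun y => by
        obtain ⟨t, ht, b, hb⟩ := clear_den (O := O) y
        exact ⟨C t, ⟨t, mem_nonZeroDivisors_of_ne_zero ht, rfl⟩, b, by rw [map_C]; exact hb⟩) u
    obtain ⟨t, ht, rfl⟩ := hb
    have ht0 : t ≠ 0 := nonZeroDivisors.ne_zero ht
    have hc' : extV O K N s c
        = (MvPolynomial.map (algebraMap O K) (C t : MvPolynomial (Fin N) O)) • u := by
      funext j
      exact hc j
    have h2 : (C t : MvPolynomial (Fin N) O) • v = G.phi.mulVec c := by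
      have h3 : extV O K N s ((C t : MvPolynomial (Fin N) O) • v)
          = extV O K N s (G.phi.mulVec c) := by
        rw [extV_mulVec, hc', Matrix.mulVec_smul, map_smulₛₗ]
        congr 1
        exact hu.symm
      funext j
      exact MvPolynomial.map_injective _ (IsFractionRing.injective O K) (congrFun h3 j)
    have h4 : (C t : MvPolynomial (Fin N) O) • (Submodule.Quotient.mk v : Cok G.phi) = 0 := by
      rw [← Submodule.Quotient.mk_smul, Submodule.Quotient.mk_eq_zero]
      exact ⟨c, h2.symm⟩
    have h5 := colon_IV G hreg ⊥ ⊥ t (fun b hb => by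
      rw [Ideal.mem_bot] at hb ⊢
      exact (mul_eq_zero.mp hb).resolve_left ht0) (Submodule.Quotient.mk v) (by
      rw [h4]
      exact Submodule.zero_mem _)
    unfold IV at h5
    rw [Ideal.map_bot, Submodule.bot_smul] at h5
    exact h5
  ex := by
    intro y
    obtain ⟨u, rfl⟩ := Submodule.Quotient.mk_surjective _ y
    obtain ⟨b, hb, c, hc⟩ := common_den (MvPolynomial.map (algebraMap O K))
      ((nonZeroDivisors O).map (C : O →+* MvPolynomial (Fin N) O)) (fun y => by
        obtain ⟨t, ht, b, hb⟩ := clear_den (O := O) y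
        exact ⟨C t, ⟨t, mem_nonZeroDivisors_of_ne_zero ht, rfl⟩, b, by rw [map_C]; exact hb⟩) u
    obtain ⟨t, ht, rfl⟩ := hb
    have hc' : extV O K N s c
        = (MvPolynomial.map (algebraMap O K) (C t : MvPolynomial (Fin N) O)) • u := by
      funext j
      exact hc j
    refine ⟨C t, ⟨t, nonZeroDivisors.ne_zero ht, rfl⟩, Submodule.Quotient.mk c, ?_⟩
    show (Submodule.Quotient.mk (extV O K N s c) :
      Cok (G.map (MvPolynomial.map (algebraMap O K))).phi) = _
    rw [hc', Submodule.Quotient.mk_smul]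

end lat

section main

variable {O K : Type u} [CommRing O] [IsDomain O] [IsLocalRing O] [IsPrincipalIdealRing O]
    [Field K] [Algebra O K] [IsFractionRing O K]

/-- matrix factorisations over `O` -/
theorem hd_OO (hnf : ¬ IsField O) {N : ℕ} {f : MvPolynomial (Fin N) O} {E : ℕ}
    (hreg : RegM f) (hK : KilE f E) {r s : ℕ} (F : MF f r) (G : MF f s)
    (h0 : hd (F.map (MvPolynomial.map (residue O))) (G.map (MvPolynomial.map (residue O))) = 0) :
    hd (F.map (MvPolynomial.map (algebraMap O K))) (G.map (MvPolynomial.map (algebraMap O K)))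
      = 0 := by
  have hm : maximalIdeal O ≠ ⊥ := fun h => hnf (isField_iff_maximalIdeal_eq.mpr h)
  have hO : ∀ q : Ideal O, q.IsPrime → q = ⊥ ∨ q = maximalIdeal O := by
    intro q hq
    by_cases h : q = ⊥
    · exact Or.inl h
    · exact Or.inr (eq_maximalIdeal (IsPrime.to_maximal_ideal h))
  have h1 := rank_local hO hm hreg hK F G h0
  unfold hd
  have e1 := lat_HH F.phi F.psi (Cok G.phi) (Cok (G.map (MvPolynomial.map (algebraMap O K))).phi)
    (cokLat hreg G) E (fun i z => hK r F _ i z)
  have e2 := lat_HH F.psi F.phi (Cok G.phi) (Cok (G.map (MvPolynomial.map (algebraMap O K))).phi)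
    (cokLat hreg G) E (fun i z => hK r F.swap _ i z)
  have e3 : Module.length (MvPolynomial (Fin N) K)
      (HH (F.map (MvPolynomial.map (algebraMap O K))).phi
        (F.map (MvPolynomial.map (algebraMap O K))).psi
        (Cok (G.map (MvPolynomial.map (algebraMap O K))).phi))
      = (Module.finrank O (HH F.phi F.psi (Cok G.phi)) : ℕ∞) := e1
  have e4 : Module.length (MvPolynomial (Fin N) K)
      (HH (F.map (MvPolynomial.map (algebraMap O K))).psi
        (F.map (MvPolynomial.map (algebraMap O K))).phi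
        (Cok (G.map (MvPolynomial.map (algebraMap O K))).phi))
      = (Module.finrank O (HH F.psi F.phi (Cok G.phi)) : ℕ∞) := e2
  rw [e3, e4, h1, sub_self]

lemma kilE_of_jac_w {T : Type u} [CommRing T] {N : ℕ} {f : MvPolynomial (Fin N) T} {E : ℕ}
    (hE : ∀ i, (X i : MvPolynomial (Fin N) T) ^ E ∈
      Ideal.span ({f} ∪ Set.range fun i => pderiv i f)) : KilE f E :=
  fun _ F W _ _ i z => kill_jac' F W _ (hE i) z

lemma parity_aux (a b : ℕ → ℕ∞) {A1 A2 B1 B2 : ℕ∞}
    (ha : ∀ c, a (2 * c + 1) = A1 ∧ a (2 * c + 2) = A2)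
    (hb : ∀ c, b (2 * c + 1) = B1 ∧ b (2 * c + 2) = B2) (m : ℕ)
    (h : ∀ i, a (i + 1 + m) = b (i + 1)) (hB : (B1.toNat : ℤ) - B2.toNat = 0) :
    (A1.toNat : ℤ) - A2.toNat = 0 := by
  have b1 : b 1 = B1 := (hb 0).1
  have b2 : b 2 = B2 := (hb 0).2
  have h1 := h 0
  have h2 := h 1
  rw [show 0 + 1 = 1 from rfl, b1] at h1
  rw [show 1 + 1 = 2 from rfl, b2] at h2
  obtain ⟨c, hc | hc⟩ := m.even_or_odd'
  · subst hc
    rw [show 1 + 2 * c = 2 * c + 1 by omega, (ha c).1] at h1
    rw [show 2 + 2 * c = 2 * c + 2 by omega, (ha c).2] at h2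
    rw [h1, h2]
    exact hB
  · subst hc
    rw [show 1 + (2 * c + 1) = 2 * c + 2 by omega, (ha c).2] at h1
    rw [show 2 + (2 * c + 1) = 2 * (c + 1) + 1 by omega, (ha (c + 1)).1] at h2
    rw [h1, h2]
    linarith

/-- (W4) the theorem over the fraction field of a discrete valuation ring -/
theorem hd_frac_gen (hnf : ¬ IsField O) {M : ℕ} (f : MvPolynomial (Fin (M + 1)) O)
    (hf : IsUnit (finSuccEquiv O M f).leadingCoeff) (E : ℕ)
    (hE : ∀ i, (X i : MvPolynomial (Fin (M + 1)) O) ^ E ∈
      Ideal.span ({f} ∪ Set.range fun i => pderiv i f))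
    (hκ : ∀ (r s : ℕ) (F : MF (MvPolynomial.map (residue O) f) r)
      (G : MF (MvPolynomial.map (residue O) f) s), hd F G = 0)
    {r s : ℕ} (F : MF (MvPolynomial.map (algebraMap O K) f) r)
    (G : MF (MvPolynomial.map (algebraMap O K) f) s) : hd F G = 0 := by
  have hreg := regM_of_monic f hf
  have hKil : KilE f E := kilE_of_jac_w hE
  have hne0 : f ≠ 0 := by
    intro h
    rw [h, map_zero, Polynomial.leadingCoeff_zero] at hf
    exact hf.ne_zero rfl
  have hne : MvPolynomial.map (algebraMap O K) f ≠ 0 := by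
    intro h
    apply hne0
    apply MvPolynomial.map_injective _ (IsFractionRing.injective O K)
    rw [map_zero]
    exact h
  have hEK := jacIdeal_map (algebraMap O K) f E hE
  -- the second matrix factorisation defined over `O`
  have key : ∀ (s' : ℕ) (G' : MF f s'), hd F (G'.map (MvPolynomial.map (algebraMap O K))) = 0 := by
    intro s' G'
    set q := Ideal.Quotient.mk (Ideal.span {(MvPolynomial.map (algebraMap O K) f)}) with hq
    obtain ⟨m, r', F', hF'⟩ := lat_tor' (K := K) f hf (Cok (F.phi.map q))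
    have h2 : hd (F'.map (MvPolynomial.map (algebraMap O K)))
        (G'.map (MvPolynomial.map (algebraMap O K))) = 0 :=
      hd_OO hnf hreg hKil F' G' (hκ _ _ _ _)
    rw [hd_eq_quot] at h2 ⊢
    exact parity_aux
      (fun i => torLen (MvPolynomial (Fin (M + 1)) K ⧸
        Ideal.span {MvPolynomial.map (algebraMap O K) f}) i
        (Cok ((G'.map (MvPolynomial.map (algebraMap O K))).phi.map q)) (Cok (F.phi.map q)))
      (fun i => torLen (MvPolynomial (Fin (M + 1)) K ⧸
        Ideal.span {MvPolynomial.map (algebraMap O K) f}) i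
        (Cok ((G'.map (MvPolynomial.map (algebraMap O K))).phi.map q))
        (Cok ((F'.map (MvPolynomial.map (algebraMap O K))).phi.map q)))
      (tor_mf _ hne F (Cok ((G'.map (MvPolynomial.map (algebraMap O K))).phi.map q)))
      (tor_mf _ hne (F'.map (MvPolynomial.map (algebraMap O K)))
        (Cok ((G'.map (MvPolynomial.map (algebraMap O K))).phi.map q)))
      m (fun i => hF' _ i) h2
  obtain ⟨nu, h0, hnu⟩ := herb_mf_w (MvPolynomial.map (algebraMap O K) f) E hEK hne F
  have hz : ∀ (s' : ℕ) (G' : MF (MvPolynomial.map (algebraMap O K) f) s'), nu.val (Cok (G'.phi.map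
      (Ideal.Quotient.mk (Ideal.span {(MvPolynomial.map (algebraMap O K) f)})))) = ((hd F G' : ℤ) : ℂ) := by
    intro s' G'
    rw [hnu, hd_eq_quot]
    push_cast
    rfl
  have h1 : nu.val (Cok (G.phi.map (Ideal.Quotient.mk (Ideal.span {(MvPolynomial.map (algebraMap O K) f)})))) = 0 := by
    refine lat_gen f hf nu h0 ?_ _
    intro s' G'
    rw [hz s' (G'.map (MvPolynomial.map (algebraMap O K))), key]
    norm_num
  rw [hz] at h1
  exact_mod_cast h1

end main

end Pool.Agent.HT51
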