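import Pool.Agent.HT51.SpW2b
import Pool.Agent.HT51.SpW7
import Pool.Agent.HT51.SpE
import Pool.Agent.HT51.SpCx

/-!
# Additive functions and lattices; regularity modulo ideals of the base
-/

universe u

namespace Pool.Agent.HT51

open MvPolynomial Pool.Agent.HT21

section syz

open CategoryTheory

variable {S R R' : Type u} [CommRing S] [CommRing R] [CommRing R'] (ι : S →+* R) (x f : R)
  (σ : R →+* R')

theorem lat_gen_aux (hgen : ∀ a : R, ∃ P : Polynomial S, P.eval₂ ι x = a)
    (hf : ∀ a : R, f * a = 0 → a = 0) [IsNoetherianRing (R ⧸ Ideal.span {f})]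
    [IsNoetherianRing (R' ⧸ Ideal.span {σ f})]
    (hfree : Module.Free S (Res ((Ideal.Quotient.mk (Ideal.span {f})).comp ι)
      (R ⧸ Ideal.span {f})))
    (hfin : ((Ideal.Quotient.mk (Ideal.span {f})).comp ι).Finite)
    (T : Submonoid (R ⧸ Ideal.span {f})) (hT : ∀ s ∈ T, IsUnit (qj f σ s))
    (hB : ∀ y : R' ⧸ Ideal.span {σ f}, ∃ s ∈ T, ∃ b : R ⧸ Ideal.span {f}, qj f σ b = qj f σ s * y)
    (hj : Function.Injective (qj f σ))
    (nu : AddFn (R' ⧸ Ideal.span {σ f})) (h0 : nu.val (R' ⧸ Ideal.span {σ f}) = 0)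
    (hMF : ∀ (r : ℕ) (F : MF f r),
      nu.val (Cok ((F.map σ).phi.map (Ideal.Quotient.mk (Ideal.span {σ f})))) = 0) (c : ℕ) :
    ∀ (V : Type u) [AddCommGroup V] [Module (R ⧸ Ideal.span {f}) V]
      [Module.Finite (R ⧸ Ideal.span {f}) V] (V' : Type u) [AddCommGroup V']
      [Module (R' ⧸ Ideal.span {σ f}) V'] (_ : Lat (qj f σ) (T : Set _) V V'),
      HasProjectiveDimensionLE
        (ModuleCat.of S (Res ((Ideal.Quotient.mk (Ideal.span {f})).comp ι) V)) c →
      nu.val V' = 0 := by
  induction c with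
  | zero =>
    intro V _ _ _ V' _ _ L h
    rw [← projective_iff_hasProjectiveDimensionLE_zero, ← IsProjective.iff_projective] at h
    obtain ⟨r, F, ⟨e⟩⟩ := mf_of_projective ι x f hgen hf V h (res_finite _ hfin)
    obtain ⟨e'⟩ := lat_cok hB L hT (F.phi.map (Ideal.Quotient.mk (Ideal.span {f}))) e
    have h1 : (F.phi.map (Ideal.Quotient.mk (Ideal.span {f}))).map (qj f σ)
        = (F.map σ).phi.map (Ideal.Quotient.mk (Ideal.span {σ f})) := by
      ext a b
      rfl
    rw [h1] at e'
    rw [← nu.val_congr e', hMF]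
  | succ c ih =>
    intro V _ _ _ V' _ _ L h
    obtain ⟨m, g, hg⟩ := Module.Finite.exists_fin' (R ⧸ Ideal.span {f}) V
    have hex : Function.Exact (LinearMap.ker g).subtype g := LinearMap.exact_subtype_ker_map g
    have hinj : Function.Injective (LinearMap.ker g).subtype := Submodule.injective_subtype _
    set q := (Ideal.Quotient.mk (Ideal.span {f})).comp ι with hq
    have hex' : Function.Exact (resMap q (LinearMap.ker g).subtype) (resMap q g) := hex
    have hzero : (resMap q g).comp (resMap q (LinearMap.ker g).subtype) = 0 :=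
      hex'.linearMap_comp_eq_zero
    have hS := ModuleCat.shortComplex_shortExact
      (ModuleCat.shortComplexOfCompEqZero (resMap q (LinearMap.ker g).subtype) (resMap q g) hzero)
      hex' hinj hg
    have hP : Projective (ModuleCat.of S (Res q (Fin m → R ⧸ Ideal.span {f}))) :=
      (IsProjective.iff_projective _).1 (projective_res_pi q hfree m)
    have hK : HasProjectiveDimensionLE (ModuleCat.of S (Res q (LinearMap.ker g))) c :=
      (hS.hasProjectiveDimensionLT_X₃_iff c hP).1 h
    have hg' : Function.Surjective (L.lc (fun k => g (Pi.single k 1))) :=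
      L.lc_surj hT _ (fun x => by
        obtain ⟨b, rfl⟩ := hg x
        exact ⟨b, map_pi_sum g b⟩)
    have hK0 := ih (LinearMap.ker g) _ (L.kerLat hB hj g) hK
    have hadd := nu.add' (LinearMap.ker (L.lc (fun k => g (Pi.single k 1))))
      (Fin m → R' ⧸ Ideal.span {σ f}) V'
      (LinearMap.ker (L.lc (fun k => g (Pi.single k 1)))).subtype
      (L.lc (fun k => g (Pi.single k 1))) (Submodule.injective_subtype _)
      (LinearMap.exact_subtype_ker_map _) hg' inferInstance
    rw [val_pi_zero nu h0, hK0, zero_add] at hadd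
    exact hadd.symm

end syz

/-- additive functions over `K[X]/(f)` that vanish on the ring and on the cokernels of the matrix
factorisations defined over `O` -/
theorem lat_gen {O K : Type u} [CommRing O] [IsDomain O] [IsPrincipalIdealRing O]
    [Field K] [Algebra O K] [IsFractionRing O K] {M : ℕ}
    (f : MvPolynomial (Fin (M + 1)) O) (hf : IsUnit (finSuccEquiv O M f).leadingCoeff)
    (nu : AddFn (MvPolynomial (Fin (M + 1)) K ⧸ Ideal.span {MvPolynomial.map (algebraMap O K) f}))
    (h0 : nu.val (MvPolynomial (Fin (M + 1)) K ⧸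
      Ideal.span {MvPolynomial.map (algebraMap O K) f}) = 0)
    (hMF : ∀ (r : ℕ) (F : MF f r), nu.val (Cok ((F.map (MvPolynomial.map (algebraMap O K))).phi.map
            (Ideal.Quotient.mk (Ideal.span {MvPolynomial.map (algebraMap O K) f})))) = 0)
    (V : Type u) [AddCommGroup V]
    [Module (MvPolynomial (Fin (M + 1)) K ⧸ Ideal.span {MvPolynomial.map (algebraMap O K) f}) V]
    [Module.Finite
      (MvPolynomial (Fin (M + 1)) K ⧸ Ideal.span {MvPolynomial.map (algebraMap O K) f}) V] :
    nu.val V = 0 := by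
  obtain ⟨h1, h2⟩ := free_finite_of_monicO f hf
  have hne : f ≠ 0 := by
    intro h
    rw [h, map_zero, Polynomial.leadingCoeff_zero] at hf
    exact hf.ne_zero rfl
  obtain ⟨V0, _, _, _, ⟨L⟩⟩ := exists_lattice (qj f (MvPolynomial.map (algebraMap O K))) (cstQ f)
    (qj_den f) V
  exact lat_gen_aux (sIncO O M) (X 0) f (MvPolynomial.map (algebraMap O K)) gen_polyO
    (fun a ha => (mul_eq_zero.mp ha).resolve_left hne) h1 h2 (cstQ f) (cstQ_unit K f) (qj_den f)
    (qj_injective K f hf) nu h0 hMF (M + 1) V0 V L (pd_mvPolynomial_pid M _)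

/-- `f` monic in `X 0` (up to a unit) is regular modulo the ideals of the base -/
theorem regM_of_monic {O : Type u} [CommRing O] {M : ℕ} (f : MvPolynomial (Fin (M + 1)) O)
    (hf : IsUnit (finSuccEquiv O M f).leadingCoeff) : RegM f := by
  intro I w h
  set J : Ideal (MvPolynomial (Fin M) O) := I.map (C : O →+* MvPolynomial (Fin M) O) with hJ
  set θ := Polynomial.mapRingHom (Ideal.Quotient.mk J) with hθ
  have key : ∀ p : MvPolynomial (Fin (M + 1)) O,
      p ∈ I.map (C : O →+* MvPolynomial (Fin (M + 1)) O) ↔ θ (finSuccEquiv O M p) = 0 := by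
    intro p
    rw [mem_map_C_iff]
    constructor
    · intro hp
      ext i
      rw [hθ, Polynomial.coe_mapRingHom, Polynomial.coeff_map, Polynomial.coeff_zero,
        Ideal.Quotient.eq_zero_iff_mem, hJ, mem_map_C_iff]
      intro m
      rw [finSuccEquiv_coeff_coeff]
      exact hp _
    · intro hp m
      have h1 := congrArg (fun q => Polynomial.coeff q (m 0)) hp
      simp only [hθ, Polynomial.coe_mapRingHom, Polynomial.coeff_map, Polynomial.coeff_zero] at h1
      rw [Ideal.Quotient.eq_zero_iff_mem, hJ, mem_map_C_iff] at h1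
      have h2 := h1 (Finsupp.tail m)
      rw [finSuccEquiv_coeff_coeff, Finsupp.cons_tail] at h2
      exact h2
  rw [key] at h ⊢
  rw [map_mul, map_mul] at h
  obtain ⟨v, hv⟩ := hf
  set g : Polynomial (MvPolynomial (Fin M) O) :=
    Polynomial.C ((v⁻¹ : (MvPolynomial (Fin M) O)ˣ) : MvPolynomial (Fin M) O)
      * finSuccEquiv O M f with hg
  have hmon : g.Monic := by
    rw [hg]
    apply Polynomial.monic_C_mul_of_mul_leadingCoeff_eq_one
    rw [← hv]
    exact v.inv_mul
  have hmon' : (θ g).Monic := hmon.map _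
  refine hmon'.isRegular.left ?_
  show θ g * _ = θ g * 0
  rw [mul_zero, hg, map_mul, mul_assoc, h, mul_zero]

/-- an additive function from a matrix factorisation over `k[X]/(f)` -/
theorem herb_mf_w {k : Type u} [Field k] {N : ℕ} (f : MvPolynomial (Fin N) k) (E : ℕ)
    (hE : ∀ i, (X i : MvPolynomial (Fin N) k) ^ E ∈
      Ideal.span ({f} ∪ Set.range fun i => pderiv i f)) (hf : f ≠ 0) {r : ℕ} (F : MF f r) :
    ∃ nu : AddFn (MvPolynomial (Fin N) k ⧸ Ideal.span {f}),
      nu.val (MvPolynomial (Fin N) k ⧸ Ideal.span {f}) = 0 ∧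
      ∀ (W : Type u) [AddCommGroup W] [Module (MvPolynomial (Fin N) k ⧸ Ideal.span {f}) W],
      nu.val W = ((Module.length (MvPolynomial (Fin N) k ⧸ Ideal.span {f})
          (HH (F.phi.map (Ideal.Quotient.mk (Ideal.span {f})))
            (F.psi.map (Ideal.Quotient.mk (Ideal.span {f}))) W)).toNat : ℂ) -
        ((Module.length (MvPolynomial (Fin N) k ⧸ Ideal.span {f})
          (HH (F.psi.map (Ideal.Quotient.mk (Ideal.span {f})))
            (F.phi.map (Ideal.Quotient.mk (Ideal.span {f}))) W)).toNat : ℂ) := by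
  set π : MvPolynomial (Fin N) k →+* MvPolynomial (Fin N) k ⧸ Ideal.span {f} :=
    Ideal.Quotient.mk (Ideal.span {f}) with hπ
  have hπs : Function.Surjective π := Ideal.Quotient.mk_surjective
  have hf0 : π f = 0 := Ideal.Quotient.eq_zero_iff_mem.mpr (Ideal.subset_span rfl)
  have h12 : ∀ (A B : Matrix (Fin r) (Fin r) (MvPolynomial (Fin N) k)),
      A * B = f • (1 : Matrix (Fin r) (Fin r) (MvPolynomial (Fin N) k)) →
      A.map π * B.map π = 0 := by
    intro A B h
    rw [← Matrix.map_mul, h]
    ext a b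
    rw [Matrix.map_apply, Matrix.smul_apply, smul_eq_mul, map_mul, hf0, zero_mul]
    rfl
  have hlen : ∀ (F : MF f r) (W : Type u) [AddCommGroup W]
      [Module (MvPolynomial (Fin N) k ⧸ Ideal.span {f}) W]
      [Module.Finite (MvPolynomial (Fin N) k ⧸ Ideal.span {f}) W],
      Module.length (MvPolynomial (Fin N) k ⧸ Ideal.span {f})
        (HH (F.phi.map π) (F.psi.map π) W) ≠ ⊤ := by
    intro F W _ _ _
    rw [← HH_length_res π hπs F.phi F.psi W]
    have hfin : Module.Finite (MvPolynomial (Fin N) k) (Res π W) :=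
      res_finite π (RingHom.Finite.of_surjective _ hπs)
    exact hh_length_jac' f E hE F (Res π W)
  obtain ⟨nu, hnu⟩ := herb (F.phi.map π) (F.psi.map π) (h12 _ _ F.phi_psi) (h12 _ _ F.psi_phi)
    (fun W _ _ _ => ⟨hlen F W, hlen F.swap W⟩)
  refine ⟨nu, ?_, hnu⟩
  rw [hnu]
  have s1 := HH_self hf F
  have s2 := HH_self hf F.swap
  have e1 : Module.length (MvPolynomial (Fin N) k ⧸ Ideal.span {f})
      (HH (F.phi.map π) (F.psi.map π) (MvPolynomial (Fin N) k ⧸ Ideal.span {f})) = 0 :=
    Module.length_eq_zero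
  have e2 : Module.length (MvPolynomial (Fin N) k ⧸ Ideal.span {f})
      (HH (F.psi.map π) (F.phi.map π) (MvPolynomial (Fin N) k ⧸ Ideal.span {f})) = 0 :=
    Module.length_eq_zero_iff.mpr s2
  rw [e1, e2, sub_self]

end Pool.Agent.HT51
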