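import Pool.Agent.HT51.SpCv
import Pool.Agent.HT51.SpCmp

/-!
# The Tor sequence of multiplication by `t`, in terms of lengths

`les3`: `C` a complex of modules without `t`-torsion, `D = C/tC`:
`length H_1(D) = length H_1(C)/t + length H_0(C)[t]`.
-/

universe u

namespace Pool.Agent.HT51

open MvPolynomial Pool.Agent.HT21

/-- homology -/
abbrev Hq3 {R : Type u} [CommRing R] {A B C : Type u} [AddCommGroup A] [Module R A]
    [AddCommGroup B] [Module R B] [AddCommGroup C] [Module R C] (φ : B →ₗ[R] C) (ψ : A →ₗ[R] B) :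
    Type u :=
  ↥(LinearMap.ker φ) ⧸ (LinearMap.range ψ).submoduleOf (LinearMap.ker φ)

section les

variable {R : Type u} [CommRing R] {C2 C1 C0 Cm D2 D1 D0 : Type u}
  [AddCommGroup C2] [Module R C2] [AddCommGroup C1] [Module R C1] [AddCommGroup C0] [Module R C0]
  [AddCommGroup Cm] [Module R Cm] [AddCommGroup D2] [Module R D2] [AddCommGroup D1] [Module R D1]
  [AddCommGroup D0] [Module R D0]

lemma Hq3_mk_zero (φ : C1 →ₗ[R] C0) (ψ : C2 →ₗ[R] C1) (x : LinearMap.ker φ) :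
    (Submodule.Quotient.mk x : Hq3 φ ψ) = 0 ↔ ∃ y, ψ y = x.1 := by
  rw [Submodule.Quotient.mk_eq_zero]
  exact Iff.rfl

/-- the sequence of multiplication by `t` -/
theorem les3 (t : R) (ψ : C2 →ₗ[R] C1) (φ : C1 →ₗ[R] C0) (χ : C0 →ₗ[R] Cm) (ψ' : D2 →ₗ[R] D1)
    (φ' : D1 →ₗ[R] D0) (p2 : C2 →ₗ[R] D2) (p1 : C1 →ₗ[R] D1) (p0 : C0 →ₗ[R] D0)
    (hp2 : Function.Surjective p2) (hp1 : Function.Surjective p1)
    (k1 : ∀ x, p1 x = 0 ↔ ∃ y, t • y = x) (k0 : ∀ x, p0 x = 0 ↔ ∃ y, t • y = x)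
    (t0 : ∀ x : C0, t • x = 0 → x = 0) (tm : ∀ x : Cm, t • x = 0 → x = 0)
    (hψ : ∀ x, p1 (ψ x) = ψ' (p2 x)) (hφ : ∀ x, p0 (φ x) = φ' (p1 x))
    (h10 : ∀ x, φ (ψ x) = 0) (h0m : ∀ x, χ (φ x) = 0)
    (hfin : IsFiniteLength R (Hq3 φ' ψ')) :
    ln R (Hq3 φ' ψ') = ln R (Hq3 φ ψ ⧸ LinearMap.range (LinearMap.lsmul R (Hq3 φ ψ) t))
      + ln R (LinearMap.ker (LinearMap.lsmul R (Hq3 χ φ) t)) := by
  have hres : ∀ x ∈ LinearMap.ker φ, p1 x ∈ LinearMap.ker φ' := by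
    intro x hx
    rw [LinearMap.mem_ker] at hx ⊢
    rw [← hφ, hx, map_zero]
  let a2 : Hq3 φ ψ →ₗ[R] Hq3 φ' ψ' :=
    Submodule.mapQ _ _ (p1.restrict (p := LinearMap.ker φ) (q := LinearMap.ker φ') hres) (by
      rintro ⟨x, hx⟩ ⟨y, hy⟩
      exact ⟨p2 y, by rw [← hψ, hy]; rfl⟩)
  have ha2 : ∀ x : LinearMap.ker φ, a2 (Submodule.Quotient.mk x)
      = Submodule.Quotient.mk ⟨p1 x.1, hres x.1 x.2⟩ := fun x => rfl
  -- the kernel of `a2`
  have hk2 : ∀ x : Hq3 φ ψ, a2 x = 0 ↔ ∃ y : Hq3 φ ψ, t • y = x := by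
    intro x
    obtain ⟨x, rfl⟩ := Submodule.Quotient.mk_surjective _ x
    rw [ha2, Hq3_mk_zero]
    constructor
    · rintro ⟨y', hy'⟩
      obtain ⟨y, rfl⟩ := hp2 y'
      rw [← hψ] at hy'
      have h1 : p1 (x.1 - ψ y) = 0 := by
        rw [map_sub, hy', sub_self]
      obtain ⟨z, hz⟩ := (k1 _).mp h1
      have h2 : φ z = 0 := by
        refine t0 _ ?_
        rw [← map_smul, hz, map_sub, h10, sub_zero]
        exact x.2
      refine ⟨Submodule.Quotient.mk ⟨z, h2⟩, ?_⟩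
      rw [← Submodule.Quotient.mk_smul, ← sub_eq_zero, ← Submodule.Quotient.mk_sub, Hq3_mk_zero]
      refine ⟨-y, ?_⟩
      show ψ (-y) = t • z - x.1
      rw [hz, map_neg]
      abel
    · rintro ⟨y, hy⟩
      obtain ⟨y, rfl⟩ := Submodule.Quotient.mk_surjective _ y
      rw [← Submodule.Quotient.mk_smul, ← sub_eq_zero, ← Submodule.Quotient.mk_sub, Hq3_mk_zero] at hy
      obtain ⟨z, hz⟩ := hy
      have hz' : ψ z = t • y.1 - x.1 := hz
      refine ⟨-(p2 z), ?_⟩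
      have h3 : p1 (t • y.1) = 0 := (k1 _).mpr ⟨y.1, rfl⟩
      show ψ' (-(p2 z)) = p1 x.1
      rw [map_neg, ← hψ, hz', map_sub, h3, zero_sub, neg_neg]
  have e1 : ln R (LinearMap.range a2)
      = ln R (Hq3 φ ψ ⧸ LinearMap.range (LinearMap.lsmul R (Hq3 φ ψ) t)) := by
    refine ln_eq_of_ker a2.rangeRestrict (Submodule.mkQ _) a2.surjective_rangeRestrict
      (Submodule.mkQ_surjective _) ?_
    intro x
    have h2 : a2.rangeRestrict x = 0 ↔ a2 x = 0 :=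
      ⟨fun h => congrArg Subtype.val h, fun h => Subtype.ext h⟩
    rw [h2, hk2, Submodule.mkQ_apply, Submodule.Quotient.mk_eq_zero]
    exact Iff.rfl
  -- the cokernel of `a2`
  let K2 : Submodule R (C1 × C0) :=
    LinearMap.ker (φ.comp (LinearMap.fst R C1 C0) - t • LinearMap.snd R C1 C0)
  have hK2 : ∀ z : K2, φ z.1.1 = t • z.1.2 := fun z => sub_eq_zero.mp z.2
  let q : K2 →ₗ[R] Hq3 φ' ψ' ⧸ LinearMap.range a2 :=
    { toFun := fun z => Submodule.Quotient.mk (Submodule.Quotient.mk ⟨p1 z.1.1, by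
        rw [LinearMap.mem_ker, ← hφ, hK2]
        exact (k0 _).mpr ⟨_, rfl⟩⟩)
      map_add' := fun a b => by
        rw [← Submodule.Quotient.mk_add, ← Submodule.Quotient.mk_add]
        congr 2
        exact Subtype.ext (map_add p1 _ _)
      map_smul' := fun a b => by
        rw [RingHom.id_apply, ← Submodule.Quotient.mk_smul, ← Submodule.Quotient.mk_smul]
        congr 2
        exact Subtype.ext (map_smul p1 _ _) }
  let g : K2 →ₗ[R] LinearMap.ker (LinearMap.lsmul R (Hq3 χ φ) t) :=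
    { toFun := fun z => ⟨Submodule.Quotient.mk ⟨z.1.2, by
        rw [LinearMap.mem_ker]
        refine tm _ ?_
        rw [← map_smul, ← hK2, h0m]⟩, by
        rw [LinearMap.mem_ker]
        show t • (Submodule.Quotient.mk _ : Hq3 χ φ) = 0
        rw [← Submodule.Quotient.mk_smul, Hq3_mk_zero]
        exact ⟨z.1.1, hK2 z⟩⟩
      map_add' := fun a b => rfl
      map_smul' := fun a b => rfl }
  have hqs : Function.Surjective q := by
    intro y
    obtain ⟨y, rfl⟩ := Submodule.Quotient.mk_surjective _ y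
    obtain ⟨⟨y, hy⟩, rfl⟩ := Submodule.Quotient.mk_surjective _ y
    obtain ⟨x, rfl⟩ := hp1 y
    rw [LinearMap.mem_ker, ← hφ, k0] at hy
    obtain ⟨w, hw⟩ := hy
    refine ⟨⟨(x, w), ?_⟩, rfl⟩
    show φ x - t • w = 0
    rw [hw, sub_self]
  have hgs : Function.Surjective g := by
    rintro ⟨y, hy⟩
    obtain ⟨⟨w, hw⟩, rfl⟩ := Submodule.Quotient.mk_surjective _ y
    rw [LinearMap.mem_ker] at hy
    have hy' : t • (Submodule.Quotient.mk ⟨w, hw⟩ : Hq3 χ φ) = 0 := hy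
    rw [← Submodule.Quotient.mk_smul, Hq3_mk_zero] at hy'
    obtain ⟨x, hx⟩ := hy'
    have hx' : φ x = t • w := hx
    refine ⟨⟨(x, w), ?_⟩, rfl⟩
    show φ x - t • w = 0
    rw [hx', sub_self]
  have hkk : ∀ z, q z = 0 ↔ g z = 0 := by
    intro z
    have hg0 : g z = 0 ↔ ∃ y, φ y = z.1.2 := by
      have h2 : g z = 0 ↔ (g z).1 = 0 := ⟨fun h => congrArg Subtype.val h, fun h => Subtype.ext h⟩
      rw [h2]
      exact Hq3_mk_zero χ φ _
    have hq0 : q z = 0 ↔ ∃ x : Hq3 φ ψ, a2 x = Submodule.Quotient.mk ⟨p1 z.1.1, by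
        rw [LinearMap.mem_ker, ← hφ, hK2]
        exact (k0 _).mpr ⟨_, rfl⟩⟩ := by
      show (Submodule.Quotient.mk _ : Hq3 φ' ψ' ⧸ LinearMap.range a2) = 0 ↔ _
      rw [Submodule.Quotient.mk_eq_zero]
      exact Iff.rfl
    rw [hq0, hg0]
    constructor
    · rintro ⟨x, hx⟩
      obtain ⟨c, rfl⟩ := Submodule.Quotient.mk_surjective _ x
      rw [ha2, ← sub_eq_zero, ← Submodule.Quotient.mk_sub, Hq3_mk_zero] at hx
      obtain ⟨y', hy'⟩ := hx
      obtain ⟨y, rfl⟩ := hp2 y'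
      have h1 : ψ' (p2 y) = p1 c.1 - p1 z.1.1 := hy'
      have h2 : p1 (ψ y - c.1 + z.1.1) = 0 := by
        rw [map_add, map_sub, hψ, h1]
        abel
      obtain ⟨v, hv⟩ := (k1 _).mp h2
      refine ⟨v, ?_⟩
      have h3 : t • (φ v - z.1.2) = 0 := by
        rw [smul_sub, ← map_smul, hv, map_add, map_sub, h10, hK2,
          (show φ c.1 = 0 from c.2)]
        abel
      exact sub_eq_zero.mp (t0 _ h3)
    · rintro ⟨v, hv⟩
      have h1 : z.1.1 - t • v ∈ LinearMap.ker φ := by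
        rw [LinearMap.mem_ker, map_sub, map_smul, hK2, hv, sub_self]
      refine ⟨Submodule.Quotient.mk ⟨z.1.1 - t • v, h1⟩, ?_⟩
      rw [ha2]
      congr 1
      refine Subtype.ext ?_
      show p1 (z.1.1 - t • v) = p1 z.1.1
      rw [map_sub, (k1 _).mpr ⟨v, rfl⟩, sub_zero]
  have e2 : ln R (Hq3 φ' ψ' ⧸ LinearMap.range a2)
      = ln R (LinearMap.ker (LinearMap.lsmul R (Hq3 χ φ) t)) := ln_eq_of_ker q g hqs hgs hkk
  rw [ln_sub_quot hfin (LinearMap.range a2), e1, e2]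

end les

end Pool.Agent.HT51
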