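import Pool.Agent.HT51.SpW3
import Pool.Agent.HT51.SpCmp

/-!
# The homology of a complex of matrices over a lattice (helper52)

Rectangular version of `lat_HH`.
-/

universe u

namespace Pool.Agent.HT51

open MvPolynomial Pool.Agent.HT21

/-- `ker A / im B` on `W ^ q`, rectangular matrices -/
abbrev H3 {R : Type u} [CommRing R] {p q s : ℕ} (A : Matrix (Fin p) (Fin q) R)
    (B : Matrix (Fin q) (Fin s) R) (W : Type u) [AddCommGroup W] [Module R W] : Type u :=
  ↥(LinearMap.ker (mact A W)) ⧸ (LinearMap.range (mact B W)).submoduleOf (LinearMap.ker (mact A W))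

section semi

variable {P P' : Type u} [CommRing P] [CommRing P'] (ρ : P →+* P')
variable {W W' : Type u} [AddCommGroup W] [Module P W] [AddCommGroup W'] [Module P' W']
  {p q s : ℕ} (A : Matrix (Fin p) (Fin q) P) (B : Matrix (Fin q) (Fin s) P) (f : W →ₛₗ[ρ] W')

lemma mact_semi3 (w : Fin q → W) :
    (fun a => f (mact A W w a)) = mact (A.map ρ) W' (fun b => f (w b)) := by
  funext a
  show f (∑ l, A a l • w l) = ∑ l, (A.map ρ) a l • f (w l)
  rw [map_sum]
  exact Finset.sum_congr rfl fun l _ => map_smulₛₗ f _ _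

/-- the map on kernels -/
def kerSemi3 : LinearMap.ker (mact A W) →ₛₗ[ρ] LinearMap.ker (mact (A.map ρ) W') where
  toFun w := ⟨fun a => f (w.1 a), by
    rw [LinearMap.mem_ker, ← mact_semi3 ρ A f w.1, w.2]
    funext a
    exact map_zero f⟩
  map_add' x y := Subtype.ext (funext fun a => map_add f _ _)
  map_smul' c x := Subtype.ext (funext fun a => map_smulₛₗ f _ _)

/-- the map on the homology -/
def H3semi : H3 A B W →ₛₗ[ρ] H3 (A.map ρ) (B.map ρ) W' :=
  Submodule.mapQ _ _ (kerSemi3 ρ A f) (by
    rintro ⟨x, hx⟩ ⟨y, hy⟩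
    refine ⟨fun a => f (y a), ?_⟩
    rw [← mact_semi3 ρ B f y, hy]
    rfl)

lemma H3_mk_zero {W : Type u} [AddCommGroup W] [Module P W] (x : LinearMap.ker (mact A W)) :
    (Submodule.Quotient.mk x : H3 A B W) = 0 ↔ ∃ y, mact B W y = x.1 := by
  rw [Submodule.Quotient.mk_eq_zero]
  exact Iff.rfl

end semi

theorem lat_H3' {O K : Type u} [CommRing O] [IsDomain O] [IsNoetherianRing O] [Field K]
    [Algebra O K] [IsFractionRing O K] {N p q s : ℕ}
    (A : Matrix (Fin p) (Fin q) (MvPolynomial (Fin N) O))
    (B : Matrix (Fin q) (Fin s) (MvPolynomial (Fin N) O))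
    (V V' : Type u) [AddCommGroup V] [Module (MvPolynomial (Fin N) O) V]
    [Module.Finite (MvPolynomial (Fin N) O) V]
    [AddCommGroup V'] [Module (MvPolynomial (Fin N) K) V']
    (L : Lat (MvPolynomial.map (algebraMap O K)) (cst O N) V V')
    (E : ℕ) (hE : ∀ (i : Fin N) (z : H3 A B V), (X i : MvPolynomial (Fin N) O) ^ E • z = 0)
    [Module O (H3 A B V)] [IsScalarTower O (MvPolynomial (Fin N) O) (H3 A B V)] :
    Module.length (MvPolynomial (Fin N) K) (H3 (A.map (MvPolynomial.map (algebraMap O K)))
      (B.map (MvPolynomial.map (algebraMap O K))) V') = (Module.finrank O (H3 A B V) : ℕ∞) := by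
  let j : MvPolynomial (Fin N) O →+* MvPolynomial (Fin N) K := MvPolynomial.map (algebraMap O K)
  let H := H3 A B V
  let H' := H3 (A.map j) (B.map j) V'
  let l : V →ₛₗ[j] V' := L.lin
  let g : H →ₛₗ[j] H' := H3semi j A B l
  let : Module K H' := Module.compHom _ (C : K →+* MvPolynomial (Fin N) K)
  have hKs : ∀ (a : K) (z : H'), a • z = (C a : MvPolynomial (Fin N) K) • z := fun a z => rfl
  let : Module O H' := Module.compHom _ (algebraMap O K)
  have hOs : ∀ (a : O) (z : H'), a • z = algebraMap O K a • z := fun a z => rfl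
  have : IsScalarTower K (MvPolynomial (Fin N) K) H' := ⟨fun a p z => by
    rw [hKs, smul_smul, C_mul']⟩
  have : IsScalarTower O K H' := ⟨fun a b z => by
    rw [hOs, smul_smul, Algebra.smul_def]⟩
  let g' : H →ₗ[O] H' :=
    { toFun := g
      map_add' := map_add g
      map_smul' := fun a z => by
        rw [← algebraMap_smul (MvPolynomial (Fin N) O) a z, RingHom.id_apply]
        refine (map_smulₛₗ g _ _).trans ?_
        rw [hOs, hKs]
        congr 1
        exact map_C _ a }
  have hNoeth : IsNoetherian (MvPolynomial (Fin N) O) V :=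
    isNoetherian_of_isNoetherianRing_of_finite _ V
  have hfin : Module.Finite O H := fin_PO _ E hE
  have hloc : IsLocalizedModule (nonZeroDivisors O) g' := by
    refine ⟨?_, ?_, ?_⟩
    · rintro ⟨t, ht⟩
      have ht0 : algebraMap O K t ≠ 0 := IsLocalization.to_map_ne_zero_of_mem_nonZeroDivisors K le_rfl ht
      rw [Module.End.isUnit_iff]
      constructor
      · intro x y hxy
        have h1 : algebraMap O K t • x = algebraMap O K t • y := hxy
        exact (smul_right_injective _ ht0) h1
      · intro y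
        refine ⟨(algebraMap O K t)⁻¹ • y, ?_⟩
        show algebraMap O K t • (algebraMap O K t)⁻¹ • y = y
        rw [smul_inv_smul₀ ht0]
    · intro y
      obtain ⟨⟨y, hy⟩, rfl⟩ := Submodule.Quotient.mk_surjective _ y
      obtain ⟨t, x, ht, hx⟩ := L.ex_fam y
      have hx' : (fun a => l (x a)) = (C (algebraMap O K t) : MvPolynomial (Fin N) K) • y :=
        funext hx
      have h1 : mact A V x = 0 := by
        funext a
        apply L.inj
        have h2 := congrFun (mact_semi3 j A l x) a
        rw [hx', map_smul, hy, smul_zero] at h2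
        exact h2.trans (map_zero L.i).symm
      refine ⟨⟨Submodule.Quotient.mk ⟨x, h1⟩, ⟨t, mem_nonZeroDivisors_of_ne_zero ht⟩⟩, ?_⟩
      show (C (algebraMap O K t) : MvPolynomial (Fin N) K) • (Submodule.Quotient.mk ⟨y, hy⟩ : H') =
        Submodule.Quotient.mk (kerSemi3 j A l ⟨x, h1⟩)
      rw [← Submodule.Quotient.mk_smul]
      congr 1
      exact Subtype.ext hx'.symm
    · intro z₁ z₂ hz
      obtain ⟨z, hzz⟩ : ∃ z, z = z₁ - z₂ := ⟨_, rfl⟩
      have h1 : g' z = 0 := by rw [hzz, map_sub, hz, sub_self]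
      suffices ∃ c : nonZeroDivisors O, c • z = 0 by
        obtain ⟨c, hc⟩ := this
        refine ⟨c, ?_⟩
        rw [hzz, smul_sub, sub_eq_zero] at hc
        exact hc
      clear hzz hz
      obtain ⟨⟨x, hx⟩, rfl⟩ := Submodule.Quotient.mk_surjective _ z
      have h2 : (Submodule.Quotient.mk (kerSemi3 j A l ⟨x, hx⟩) : H') = 0 := h1
      rw [H3_mk_zero] at h2
      obtain ⟨w, hw⟩ := h2
      obtain ⟨t, w', ht, hw'⟩ := L.ex_fam w
      refine ⟨⟨t, mem_nonZeroDivisors_of_ne_zero ht⟩, ?_⟩
      show t • (Submodule.Quotient.mk ⟨x, hx⟩ : H) = 0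
      rw [← algebraMap_smul (MvPolynomial (Fin N) O) t, ← Submodule.Quotient.mk_smul, H3_mk_zero]
      refine ⟨w', ?_⟩
      funext a
      apply L.inj
      have h3 := congrFun (mact_semi3 j B l w') a
      have h4 : (fun b => l (w' b)) = (C (algebraMap O K t) : MvPolynomial (Fin N) K) • w :=
        funext hw'
      rw [h4, map_smul, hw] at h3
      refine h3.trans ?_
      show (C (algebraMap O K t) : MvPolynomial (Fin N) K) • L.i (x a)
        = L.i ((C t : MvPolynomial (Fin N) O) • x a)
      rw [L.smul]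
      congr 1
      exact (map_C _ t).symm
  have hfin' : Module.Finite K H' := by
    exact Module.Finite.of_isLocalizedModule (nonZeroDivisors O) (Rₚ := K) g'
  have hk' : ∀ (i : Fin N) (z : H'), (X i : MvPolynomial (Fin N) K) ^ E • z = 0 := by
    intro i z
    obtain ⟨⟨x, t⟩, hxt⟩ := hloc.surj z
    have ht0 : algebraMap O K t.1 ≠ 0 :=
      IsLocalization.to_map_ne_zero_of_mem_nonZeroDivisors K le_rfl t.2
    have h1 : (C (algebraMap O K t.1) : MvPolynomial (Fin N) K) • z = g x := hxt
    have h2 : z = (C (algebraMap O K t.1)⁻¹ : MvPolynomial (Fin N) K) • g x := by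
      rw [← h1, smul_smul, ← C_mul, inv_mul_cancel₀ ht0, C_1, one_smul]
    have h3 : (X i : MvPolynomial (Fin N) K) ^ E • g x = 0 := by
      have h4 : (X i : MvPolynomial (Fin N) K) ^ E = j (X i ^ E) := by
        rw [map_pow]
        congr 1
        exact (map_X _ i).symm
      rw [h4, ← map_smulₛₗ g, hE, map_zero]
    rw [h2, smul_comm, h3, smul_zero]
  have h5 : Module.length (MvPolynomial (Fin N) K) H' = Module.length K H' := len_PO H' E hk'
  have h6 : Module.finrank K H' = Module.finrank O H := by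
    rw [IsLocalization.finrank_eq (R := O) K (nonZeroDivisors O) le_rfl]
    exact IsLocalizedModule.finrank_eq (nonZeroDivisors O) g' le_rfl
  have h7 : Module.length K H' = (Module.finrank K H' : ℕ∞) := Module.length_eq_finrank K H'
  exact (h5.trans h7).trans (by rw [h6])

/-- the homology of a lattice has the rank of the homology over the fraction field -/
theorem lat_H3 {O K : Type u} [CommRing O] [IsDomain O] [IsNoetherianRing O] [Field K]
    [Algebra O K] [IsFractionRing O K] {N p q s : ℕ}
    (A : Matrix (Fin p) (Fin q) (MvPolynomial (Fin N) O))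
    (B : Matrix (Fin q) (Fin s) (MvPolynomial (Fin N) O))
    (V V' : Type u) [AddCommGroup V] [Module (MvPolynomial (Fin N) O) V]
    [Module.Finite (MvPolynomial (Fin N) O) V] [Module O V]
    [IsScalarTower O (MvPolynomial (Fin N) O) V]
    [AddCommGroup V'] [Module (MvPolynomial (Fin N) K) V']
    (L : Lat (MvPolynomial.map (algebraMap O K)) (cst O N) V V')
    (E : ℕ) (hE : ∀ (i : Fin N) (z : Fin q → V), mact A V z = 0 →
      ∃ y, mact B V y = (X i : MvPolynomial (Fin N) O) ^ E • z) :
    qlen (LinearMap.range (mact (B.map (MvPolynomial.map (algebraMap O K))) V'))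
      (LinearMap.ker (mact (A.map (MvPolynomial.map (algebraMap O K))) V')) =
      (Module.finrank O (↥(LinearMap.ker (mact A V)) ⧸
        (LinearMap.range (mact B V)).submoduleOf (LinearMap.ker (mact A V))) : ℕ∞) := by
  have hE' : ∀ (i : Fin N) (z : H3 A B V), (X i : MvPolynomial (Fin N) O) ^ E • z = 0 := by
    intro i z
    obtain ⟨⟨x, hx⟩, rfl⟩ := Submodule.Quotient.mk_surjective _ z
    obtain ⟨y, hy⟩ := hE i x hx
    rw [← Submodule.Quotient.mk_smul, H3_mk_zero]
    exact ⟨y, hy⟩
  exact lat_H3' A B V V' L E hE'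

end Pool.Agent.HT51
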