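import Pool.Agent.HT51.SpWNa
import Pool.Agent.HT51.SpW2b

/-!
# Resolutions by matrices: reduction modulo `t` and localisation
-/

universe u

namespace Pool.Agent.HT51

open MvPolynomial Pool.Agent.HT21 CategoryTheory

/-- `Tor` is the homology of the matrices of a resolution -/
theorem torMod_matRes {R : Type u} [CommRing R] {V : Type u} [AddCommGroup V] [Module R V]
    (P : MatRes R V) (W : Type u) [AddCommGroup W] [Module R W] (i : ℕ) :
    Nonempty (TorMod R (i + 1) W V ≃ₗ[R] Hq3 (mact (P.D i) W) (mact (P.D (i + 1)) W)) := by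
  let F := (MonoidalCategory.tensoringLeft (ModuleCat.{u} R)).obj (ModuleCat.of R W)
  let K := (F.mapHomologicalComplex (ComplexShape.down ℕ)).obj (mrCx P)
  let e1 : ((Tor (ModuleCat.{u} R) (i + 1)).obj (ModuleCat.of R W)).obj (ModuleCat.of R V)
      ≅ K.homology (i + 1) := (mrRes P).isoLeftDerivedObj F (i + 1)
  let e2 : K.homology (i + 1) ≅ (K.sc' (i + 1 + 1) (i + 1) i).homology :=
    ShortComplex.homologyMapIso (K.isoSc' (i + 1 + 1) (i + 1) i (by simp) (by simp))
  let e3 : (K.sc' (i + 1 + 1) (i + 1) i).homology ≅ (mrS P W i).homology :=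
    ShortComplex.homologyMapIso (mrIso P W i)
  let e4 := (mrS P W i).moduleCatHomologyIso
  have h2 : LinearMap.range (mrS P W i).moduleCatToCycles
      = (LinearMap.range (mact (P.D (i + 1)) W)).submoduleOf (LinearMap.ker (mrS P W i).g.hom) := by
    ext ⟨x, hx⟩
    constructor
    · rintro ⟨y, hy⟩
      exact ⟨y, congrArg Subtype.val hy⟩
    · rintro ⟨y, hy⟩
      exact ⟨y, Subtype.ext hy⟩
  exact ⟨((e1 ≪≫ e2 ≪≫ e3 ≪≫ e4).toLinearEquiv).trans (Submodule.quotEquivOfEq _ _ h2)⟩

/-- if `x` kills `Tor` then it kills the homology of the matrices -/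
lemma kill_matRes {R : Type u} [CommRing R] {V : Type u} [AddCommGroup V] [Module R V]
    (P : MatRes R V) (W : Type u) [AddCommGroup W] [Module R W] (i : ℕ) (x : R)
    (hx : ∀ z : TorMod R (i + 1) W V, x • z = 0) (w : Fin (P.r (i + 1)) → W)
    (hw : mact (P.D i) W w = 0) : ∃ u, mact (P.D (i + 1)) W u = x • w := by
  obtain ⟨e⟩ := torMod_matRes P W i
  have h1 : x • (Submodule.Quotient.mk ⟨w, hw⟩ : Hq3 (mact (P.D i) W) (mact (P.D (i + 1)) W)) = 0 := by
    have h2 := congrArg e (hx (e.symm (Submodule.Quotient.mk ⟨w, hw⟩)))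
    rw [map_smul, e.apply_symm_apply, map_zero] at h2
    exact h2
  rw [← Submodule.Quotient.mk_smul, Hq3_mk_zero] at h1
  exact h1

lemma mact_sl {B B' : Type u} [CommRing B] [CommRing B'] (π : B →+* B') {M M' : Type u}
    [AddCommGroup M] [Module B M] [AddCommGroup M'] [Module B' M'] (l : M →+ M')
    (hl : ∀ b m, l (b • m) = π b • l m) {p q : ℕ} (A : Matrix (Fin p) (Fin q) B) (v : Fin q → M) :
    mact (A.map π) M' (fun k => l (v k)) = fun k => l (mact A M v k) := by
  funext k
  rw [mact_apply, mact_apply, map_sum]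
  exact Finset.sum_congr rfl fun l _ => (hl _ _).symm

lemma mact_ring {B B' : Type u} [CommRing B] [CommRing B'] (π : B →+* B')
    {p q : ℕ} (A : Matrix (Fin p) (Fin q) B) (v : Fin q → B) :
    mact (A.map π) B' (fun k => π (v k)) = fun k => π (mact A B v k) :=
  mact_sl π π.toAddMonoidHom (fun b m => map_mul π b m) A v

lemma mr_dd {R : Type u} [CommRing R] {V : Type u} [AddCommGroup V] [Module R V]
    (P : MatRes R V) (W : Type u) [AddCommGroup W] [Module R W] (i : ℕ)
    (x : Fin (P.r (i + 1 + 1)) → W) : mact (P.D i) W (mact (P.D (i + 1)) W x) = 0 := by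
  have h := mact_comp_zero P W i
  have h2 := congrArg (fun l => l.hom x) h
  exact h2

section quot

variable {B Q : Type u} [CommRing B] [CommRing Q] {V V' : Type u} [AddCommGroup V] [Module B V]
  [AddCommGroup V'] [Module Q V'] (P : MatRes B V) (t : B) (π : B →+* Q)
  (hπ : Function.Surjective π) (hkπ : ∀ b, π b = 0 ↔ ∃ c, t * c = b) (tB : ∀ b, t * b = 0 → b = 0)
  (p : V →+ V') (hp : Function.Surjective p) (hsm : ∀ b v, p (b • v) = π b • p v)
  (hkp : ∀ v, p v = 0 ↔ ∃ w, t • w = v) (tV : ∀ v : V, t • v = 0 → v = 0)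

/-- reduction of a resolution modulo `t` -/
noncomputable def mrQuot : MatRes Q V' := by
  have hl : ∀ {n : ℕ} (c : Fin n → Q), ∃ b : Fin n → B, c = fun k => π (b k) := by
    intro n c
    choose b hb using fun k => hπ (c k)
    exact ⟨b, funext fun k => (hb k).symm⟩
  have hdiv : ∀ {n : ℕ} (b : Fin n → B), (fun k => π (b k)) = 0 → ∃ c : Fin n → B, b = t • c := by
    intro n b hb
    choose c hc using fun k => (hkπ (b k)).mp (congrFun hb k)
    exact ⟨c, funext fun k => (hc k).symm⟩
  have hsum : ∀ b : Fin (P.r 0) → B, ∑ k, π (b k) • p (P.e k) = p (∑ k, b k • P.e k) := by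
    intro b
    rw [map_sum]
    exact Finset.sum_congr rfl fun k _ => (hsm _ _).symm
  have htsum : ∀ b : Fin (P.r 0) → B, ∑ k, (t • b) k • P.e k = t • ∑ k, b k • P.e k := by
    intro b
    rw [Finset.smul_sum]
    refine Finset.sum_congr rfl fun k _ => ?_
    rw [Pi.smul_apply, smul_eq_mul, mul_smul]
  have hsub : ∀ b c : Fin (P.r 0) → B, ∑ k, (b - c) k • P.e k
      = ∑ k, b k • P.e k - ∑ k, c k • P.e k := by
    intro b c
    rw [← Finset.sum_sub_distrib]
    refine Finset.sum_congr rfl fun k _ => ?_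
    rw [Pi.sub_apply, sub_smul]
  have htf : ∀ {n : ℕ} (b : Fin n → B), t • b = 0 → b = 0 := by
    intro n b hb
    funext k
    exact tB _ (congrFun hb k)
  refine
    { r := P.r
      D := fun i => (P.D i).map π
      e := fun k => p (P.e k)
      surj := ?_
      ex0 := ?_
      ex := ?_ }
  · intro v
    obtain ⟨v, rfl⟩ := hp v
    obtain ⟨c, rfl⟩ := P.surj v
    exact ⟨fun k => π (c k), hsum c⟩
  · intro c
    obtain ⟨b, rfl⟩ := hl c
    constructor
    · intro h
      rw [hsum] at h
      obtain ⟨v, hv⟩ := (hkp _).mp h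
      obtain ⟨c, rfl⟩ := P.surj v
      have h1 : ∑ k, (b - t • c) k • P.e k = 0 := by
        rw [hsub, htsum, hv, sub_self]
      obtain ⟨c', hc'⟩ := (P.ex0 _).mp h1
      refine ⟨fun k => π (c' k), ?_⟩
      rw [mact_ring, hc']
      funext k
      show π (b k - t * c k) = π (b k)
      rw [map_sub, (hkπ (t * c k)).mpr ⟨_, rfl⟩, sub_zero]
    · rintro ⟨c', hc'⟩
      obtain ⟨c', rfl⟩ := hl c'
      rw [mact_ring] at hc'
      have h1 := (P.ex0 (mact (P.D 0) B c')).mpr ⟨c', rfl⟩
      rw [← hc', hsum, h1, map_zero]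
  · intro i c
    obtain ⟨b, rfl⟩ := hl c
    constructor
    · intro h
      rw [mact_ring] at h
      obtain ⟨c, hc⟩ := hdiv _ h
      -- `c` is a boundary
      have h1 : ∃ c', mact (P.D i) B c' = c := by
        rcases i with _ | i
        · rw [← P.ex0]
          refine tV _ ?_
          rw [← htsum, ← hc]
          exact (P.ex0 _).mpr ⟨b, rfl⟩
        · rw [← P.ex]
          refine htf _ ?_
          rw [← map_smul, ← hc]
          exact mr_dd P B i b
      obtain ⟨c', rfl⟩ := h1
      have h2 : mact (P.D i) B (b - t • c') = 0 := by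
        rw [map_sub, map_smul, ← hc, sub_self]
      obtain ⟨d, hd⟩ := (P.ex i _).mp h2
      refine ⟨fun k => π (d k), ?_⟩
      rw [mact_ring, hd]
      funext k
      show π (b k - t * c' k) = π (b k)
      rw [map_sub, (hkπ (t * c' k)).mpr ⟨_, rfl⟩, sub_zero]
    · rintro ⟨c', hc'⟩
      obtain ⟨c', rfl⟩ := hl c'
      rw [mact_ring] at hc'
      rw [← hc', mact_ring, mr_dd P B i c']
      funext k
      exact map_zero π

end quot

section loc

variable {B B' : Type u} [CommRing B] [CommRing B'] (j : B →+* B') (T : Submonoid B)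
  (hB : ∀ y : B', ∃ s ∈ T, ∃ b : B, j b = j s * y) (hT : ∀ s ∈ T, IsUnit (j s))
  (hj : Function.Injective j)
  {V V' : Type u} [AddCommGroup V] [Module B V] [AddCommGroup V'] [Module B' V']
  (L : Lat j (T : Set B) V V') (P : MatRes B V)

/-- localisation of a resolution -/
noncomputable def mrLoc : MatRes B' V' := by
  have hsum : ∀ b : Fin (P.r 0) → B, ∑ k, j (b k) • L.i (P.e k) = L.i (∑ k, b k • P.e k) := by
    intro b
    rw [map_sum]
    exact Finset.sum_congr rfl fun k _ => (L.smul _ _).symm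
  have hsc : ∀ (u : B') (y : Fin (P.r 0) → B'), ∑ k, (u • y) k • L.i (P.e k)
      = u • ∑ k, y k • L.i (P.e k) := by
    intro u y
    rw [Finset.smul_sum]
    refine Finset.sum_congr rfl fun k _ => ?_
    rw [Pi.smul_apply, smul_eq_mul, mul_smul]
  have hden : ∀ {n : ℕ} (y : Fin n → B'), ∃ (u : B'ˣ) (b : Fin n → B),
      (fun k => j (b k)) = (u : B') • y := by
    intro n y
    obtain ⟨s, hs, b, hb⟩ := common_den j T hB y
    obtain ⟨u, hu⟩ := hT s hs
    exact ⟨u, b, funext fun k => by rw [hb, ← hu]; rfl⟩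
  have hback : ∀ {n : ℕ} (u : B'ˣ) (y : Fin n → B') (b : Fin n → B),
      (fun k => j (b k)) = (u : B') • y → y = (↑u⁻¹ : B') • (fun k => j (b k)) := by
    intro n u y b h
    rw [h, smul_smul, Units.inv_mul, one_smul]
  refine
    { r := P.r
      D := fun i => (P.D i).map j
      e := fun k => L.i (P.e k)
      surj := ?_
      ex0 := ?_
      ex := ?_ }
  · intro y
    obtain ⟨s, hs, x, hx⟩ := L.ex y
    obtain ⟨c, rfl⟩ := P.surj x
    obtain ⟨u, hu⟩ := hT s hs
    refine ⟨(↑u⁻¹ : B') • (fun k => j (c k)), ?_⟩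
    rw [hsc, hsum, hx, ← hu, smul_smul, Units.inv_mul, one_smul]
  · intro y
    obtain ⟨u, b, hub⟩ := hden y
    constructor
    · intro h
      have h1 : L.i (∑ k, b k • P.e k) = 0 := by
        rw [← hsum]
        have h2 : ∑ k, j (b k) • L.i (P.e k) = ∑ k, ((u : B') • y) k • L.i (P.e k) := by
          rw [← hub]
        rw [h2, hsc, h, smul_zero]
      have h2 : ∑ k, b k • P.e k = 0 := L.inj (by rw [h1, map_zero])
      obtain ⟨c, hc⟩ := (P.ex0 b).mp h2
      refine ⟨(↑u⁻¹ : B') • (fun k => j (c k)), ?_⟩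
      rw [map_smul, mact_ring, hc]
      exact (hback u y b hub).symm
    · rintro ⟨c, rfl⟩
      obtain ⟨v, d, hvd⟩ := hden c
      rw [hback v c d hvd, map_smul, mact_ring, hsc, hsum, (P.ex0 _).mpr ⟨d, rfl⟩, map_zero,
        smul_zero]
  · intro i y
    obtain ⟨u, b, hub⟩ := hden y
    constructor
    · intro h
      have h1 : mact ((P.D i).map j) B' (fun k => j (b k)) = 0 := by
        rw [hub, map_smul, h, smul_zero]
      rw [mact_ring] at h1
      have h2 : mact (P.D i) B b = 0 := by
        funext k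
        apply hj
        rw [Pi.zero_apply, map_zero]
        exact congrFun h1 k
      obtain ⟨c, hc⟩ := (P.ex i b).mp h2
      refine ⟨(↑u⁻¹ : B') • (fun k => j (c k)), ?_⟩
      rw [map_smul, mact_ring, hc]
      exact (hback u y b hub).symm
    · rintro ⟨c, rfl⟩
      obtain ⟨v, d, hvd⟩ := hden c
      rw [hback v c d hvd, map_smul, mact_ring, map_smul, mact_ring, mr_dd P B i d]
      have h3 : (fun k : Fin (P.r i) => j ((0 : Fin (P.r i) → B) k)) = 0 := by
        funext k
        exact map_zero j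
      rw [h3, smul_zero]

end loc

end Pool.Agent.HT51
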