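import Pool.Agent.HT51.SpNN
import Pool.Agent.HT51.SpCv
import Pool.Agent.HT21.HypAG
import Pool.Agent.HT21.ThetaAdd
import Pool.Agent.HT51.SpW2a

/-!
# Lengths of Tor over a field are eventually constant; powers of the variables kill Tor over `O[X]/(f)`
-/

universe u

namespace Pool.Agent.HT51

open MvPolynomial Pool.Agent.HT21

theorem const_Q (k : Type u) [Field k] {M : ℕ} (f : MvPolynomial (Fin (M + 1)) k)
    (hf : f ≠ 0) (E : ℕ)
    (hE : ∀ i, (X i : MvPolynomial (Fin (M + 1)) k) ^ E ∈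
      Ideal.span ({f} ∪ Set.range fun i => pderiv i f))
    (h : ∀ (r s : ℕ) (F : MF f r) (G : MF f s), hd F G = 0) {Q : Type u} [CommRing Q]
    (π : MvPolynomial (Fin (M + 1)) k →+* Q) (hπ : Function.Surjective π)
    (hker : RingHom.ker π = Ideal.span {f})
    (W V : Type u) [AddCommGroup W] [Module Q W] [Module.Finite Q W] [AddCommGroup V] [Module Q V]
    [Module.Finite Q V] (i : ℕ) (hi : M < i) :
    torLen Q i W V ≠ ⊤ ∧ torLen Q (i + 1) W V = torLen Q i W V := by
  have hJ : Module.Finite k (MvPolynomial (Fin (M + 1)) k ⧸ jacIdeal f) := by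
    refine fin_PO (N := M + 1) (MvPolynomial (Fin (M + 1)) k ⧸ jacIdeal f) E fun i m => ?_
    obtain ⟨m, rfl⟩ := Ideal.Quotient.mk_surjective m
    have h1 : (X i : MvPolynomial (Fin (M + 1)) k) ^ E • Ideal.Quotient.mk (jacIdeal f) m
        = Ideal.Quotient.mk (jacIdeal f) (X i ^ E * m) := rfl
    rw [h1, Ideal.Quotient.eq_zero_iff_mem]
    exact Ideal.mul_mem_right _ _ (hE i)
  have hlen := hypAG_length π hπ f hker hJ
  let _ : Algebra (MvPolynomial (Fin (M + 1)) k) Q := π.toAlgebra
  have hfin : ∀ i, M < i → torLen Q i W V ≠ ⊤ := fun i hi =>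
    torLen_ne_top (B := MvPolynomial (Fin (M + 1)) k) hπ f hker (mem_nonZeroDivisors_of_ne_zero hf) M
      (fun N _ _ _ => pd_mvPolynomial k (M + 1) N) W V
      (fun j => (pderiv j).restrictScalars ℤ) hlen i hi
  refine ⟨hfin i hi, const_of_theta_zero W V M ?_ hfin ?_ i hi⟩
  · intro i hi
    exact per (B := MvPolynomial (Fin (M + 1)) k) hπ f hker (mem_nonZeroDivisors_of_ne_zero hf) M
      (fun N _ _ _ => pd_mvPolynomial k (M + 1) N) W V i hi
  · intro e he
    exact theta_of_hd_any k f hf E hE h π hπ hker W V e (by omega)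

/-- `X i ^ E` kills `Tor` over `O[X]/(f)` in high degrees -/
theorem kill_O {O : Type u} [CommRing O] [IsDomain O] [IsPrincipalIdealRing O] {N : ℕ}
    (f : MvPolynomial (Fin N) O) (hf : f ≠ 0)
    (W V : Type u) [AddCommGroup W] [Module (MvPolynomial (Fin N) O ⧸ Ideal.span {f}) W]
    [Module.Finite (MvPolynomial (Fin N) O ⧸ Ideal.span {f}) W] [AddCommGroup V]
    [Module (MvPolynomial (Fin N) O ⧸ Ideal.span {f}) V] (i : ℕ) (hi : N < i)
    (a : MvPolynomial (Fin N) O) (ha : a ∈ Ideal.span ({f} ∪ Set.range fun i => pderiv i f))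
    (z : TorMod (MvPolynomial (Fin N) O ⧸ Ideal.span {f}) i W V) :
    Ideal.Quotient.mk (Ideal.span {f}) a • z = 0 := by
  have key : Ideal.span ({f} ∪ Set.range fun i => pderiv i f) ≤
      Ideal.comap (Ideal.Quotient.mk (Ideal.span {f}))
        (LinearMap.ker (LinearMap.toSpanSingleton (MvPolynomial (Fin N) O ⧸ Ideal.span {f})
          (TorMod (MvPolynomial (Fin N) O ⧸ Ideal.span {f}) i W V) z)) := by
    rw [Ideal.span_le]
    rintro y (hy | ⟨j, rfl⟩)
    · rw [Set.mem_singleton_iff] at hy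
      have h1 : Ideal.Quotient.mk (Ideal.span {f}) y = 0 := by
        rw [hy]
        exact Ideal.Quotient.eq_zero_iff_mem.mpr (Ideal.mem_span_singleton_self f)
      show Ideal.Quotient.mk (Ideal.span {f}) y ∈ LinearMap.ker _
      rw [h1]
      exact Submodule.zero_mem _
    · exact jac (B := MvPolynomial (Fin N) O) (Q := MvPolynomial (Fin N) O ⧸ Ideal.span {f})
        Ideal.Quotient.mk_surjective f Ideal.mk_ker (mem_nonZeroDivisors_of_ne_zero hf) N
        (fun M _ _ _ => pd_mvPolynomial_pid N M) W V i hi ((pderiv j).restrictScalars ℤ) z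
  exact key ha

/-- the numbers -/
lemma num_ev (c : ℤ) (r τ : ℕ → ℤ) (i0 : ℕ) (h : ∀ i, i0 ≤ i → c = r (i + 1) + τ (i + 1) + τ i)
    (hr : ∀ i, i0 ≤ i → r (i + 2) = r i) (hτ : ∀ i, 0 ≤ τ i) (i : ℕ) (hi : i0 ≤ i) :
    r (i + 1) = r (i + 2) := by
  have hstep : ∀ i, i0 ≤ i → τ (i + 2) - τ i = r (i + 1) - r (i + 2) := by
    intro i hi
    have h1 := h i hi
    have h2 := h (i + 1) (by omega)
    rw [show i + 1 + 1 = i + 2 from rfl] at h2
    linarith
  have hper : ∀ n i, i0 ≤ i → r (i + 2 * n) = r i := by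
    intro n
    induction n with
    | zero => intro i _; rfl
    | succ n ih =>
      intro i hi
      rw [show i + 2 * (n + 1) = i + 2 * n + 2 by ring, hr _ (by omega), ih i hi]
  have hsum : ∀ n i, i0 ≤ i → τ (i + 2 * n) = τ i + n * (r (i + 1) - r (i + 2)) := by
    intro n
    induction n with
    | zero => intro i _; simp
    | succ n ih =>
      intro i hi
      have h1 := hstep (i + 2 * n) (by omega)
      have h2 := ih i hi
      have h3 := hper n (i + 1) (by omega)
      have h4 := hper n (i + 2) (by omega)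
      rw [show i + 1 + 2 * n = i + 2 * n + 1 by ring] at h3
      rw [show i + 2 + 2 * n = i + 2 * n + 2 by ring] at h4
      rw [show i + 2 * (n + 1) = i + 2 * n + 2 by ring]
      rw [h3, h4] at h1
      push_cast
      linarith
  have hnn : ∀ i, i0 ≤ i → 0 ≤ r (i + 1) - r (i + 2) := by
    intro i hi
    by_contra hcon
    push Not at hcon
    have h1 := hsum (τ i + 1).toNat i hi
    have h2 := hτ (i + 2 * (τ i + 1).toNat)
    have h3 : ((τ i + 1).toNat : ℤ) = τ i + 1 := Int.toNat_of_nonneg (by have := hτ i; omega)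
    rw [h3] at h1
    have h4 : r (i + 1) - r (i + 2) ≤ -1 := by omega
    nlinarith [hτ i]
  have h1 := hnn i hi
  have h2 := hnn (i + 1) (by omega)
  have h3 := hr (i + 1) (by omega)
  rw [show i + 1 + 2 = i + 1 + 1 + 1 by ring] at h3
  rw [show i + 1 + 2 = i + 1 + 1 + 1 by ring, h3] at h2
  rw [show i + 1 + 1 = i + 2 by ring] at h2
  linarith

end Pool.Agent.HT51
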