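import Pool.Agent.HT51.SpWNc
import Pool.Agent.HT51.SpWNd

/-!
# `O[X]/(f)` for `f` non-zero modulo the maximal ideal
-/

universe u

namespace Pool.Agent.HT51

open MvPolynomial Pool.Agent.HT21 IsLocalRing

section

variable {O : Type u} [CommRing O] [IsDomain O] [IsLocalRing O] [IsPrincipalIdealRing O]

omit [IsDomain O] [IsPrincipalIdealRing O] in
lemma map_residue_eq_zero {N : ℕ} {ϖ : O} (hϖ : maximalIdeal O = Ideal.span {ϖ})
    (a : MvPolynomial (Fin N) O) :
    MvPolynomial.map (residue O) a = 0 ↔ ∃ b, C ϖ * b = a := by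
  rw [← RingHom.mem_ker, ker_map, ker_residue, hϖ, Ideal.map_span, Set.image_singleton,
    Ideal.mem_span_singleton']
  constructor
  · rintro ⟨b, hb⟩
    exact ⟨b, by rw [mul_comm]; exact hb⟩
  · rintro ⟨b, hb⟩
    exact ⟨b, by rw [mul_comm]; exact hb⟩

omit [IsPrincipalIdealRing O] in
lemma dvr_step {N : ℕ} (f : MvPolynomial (Fin N) O) (hf : MvPolynomial.map (residue O) f ≠ 0)
    {ϖ : O} (hϖ : maximalIdeal O = Ideal.span {ϖ}) (h0 : ϖ ≠ 0) (a : MvPolynomial (Fin N) O)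
    (h : C ϖ * a ∈ Ideal.span {f}) : a ∈ Ideal.span {f} := by
  obtain ⟨q, hq⟩ := Ideal.mem_span_singleton'.mp h
  have h1 : MvPolynomial.map (residue O) q * MvPolynomial.map (residue O) f = 0 := by
    rw [← map_mul, hq]
    exact (map_residue_eq_zero hϖ _).mpr ⟨a, rfl⟩
  obtain ⟨q', hq'⟩ := (map_residue_eq_zero hϖ q).mp ((mul_eq_zero.mp h1).resolve_right hf)
  refine Ideal.mem_span_singleton'.mpr ⟨q', ?_⟩
  have h2 : (C ϖ : MvPolynomial (Fin N) O) ≠ 0 := by
    rw [Ne, C_eq_zero]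
    exact h0
  apply mul_left_cancel₀ h2
  rw [← hq, ← hq', mul_assoc]

lemma tf_any (hnf : ¬ IsField O) {N : ℕ} (f : MvPolynomial (Fin N) O)
    (hf : MvPolynomial.map (residue O) f ≠ 0) (t : O) (ht : t ≠ 0) (a : MvPolynomial (Fin N) O)
    (h : C t * a ∈ Ideal.span {f}) : a ∈ Ideal.span {f} := by
  have hdvr : IsDiscreteValuationRing O :=
    { not_a_field' := by
        rw [Ne, ← IsLocalRing.isField_iff_maximalIdeal_eq]
        exact hnf }
  obtain ⟨ϖ, hϖ⟩ := IsDiscreteValuationRing.exists_irreducible O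
  have hm : maximalIdeal O = Ideal.span {ϖ} := hϖ.maximalIdeal_eq
  obtain ⟨n, u, rfl⟩ := IsDiscreteValuationRing.eq_unit_mul_pow_irreducible ht hϖ
  have h1 : C (ϖ ^ n) * a ∈ Ideal.span {f} := by
    have h2 : C (ϖ ^ n) * a = C ((u⁻¹ : Oˣ) : O) * (C ((u : O) * ϖ ^ n) * a) := by
      rw [← mul_assoc, ← C_mul, ← mul_assoc, Units.inv_mul, one_mul]
    rw [h2]
    exact Ideal.mul_mem_left _ _ h
  clear h ht
  induction n with
  | zero =>
    rw [pow_zero, C_1, one_mul] at h1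
    exact h1
  | succ n ih =>
    refine ih ?_
    refine dvr_step f hf hm hϖ.ne_zero _ ?_
    rw [← mul_assoc, ← C_mul, ← pow_succ']
    exact h1

lemma quot_tf_any (hnf : ¬ IsField O) {N : ℕ} (f : MvPolynomial (Fin N) O)
    (hf : MvPolynomial.map (residue O) f ≠ 0) (t : O) (ht : t ≠ 0)
    (b : MvPolynomial (Fin N) O ⧸ Ideal.span {f})
    (h : Ideal.Quotient.mk (Ideal.span {f}) (C t) * b = 0) : b = 0 := by
  obtain ⟨a, rfl⟩ := Ideal.Quotient.mk_surjective b
  rw [← map_mul, Ideal.Quotient.eq_zero_iff_mem] at h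
  rw [Ideal.Quotient.eq_zero_iff_mem]
  exact tf_any hnf f hf t ht a h

variable (K : Type u) [Field K] [Algebra O K] [IsFractionRing O K]

lemma qj_inj_any (hnf : ¬ IsField O) {N : ℕ} (f : MvPolynomial (Fin N) O)
    (hf : MvPolynomial.map (residue O) f ≠ 0) :
    Function.Injective (qj f (MvPolynomial.map (algebraMap O K))) := by
  rw [injective_iff_map_eq_zero]
  intro b hb
  obtain ⟨b, rfl⟩ := Ideal.Quotient.mk_surjective b
  rw [qj_mk, Ideal.Quotient.eq_zero_iff_mem] at hb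
  obtain ⟨q, hq⟩ := Ideal.mem_span_singleton'.mp hb
  obtain ⟨t, ht, c, hc⟩ := clear_den (O := O) q
  refine quot_tf_any hnf f hf t ht _ ?_
  rw [← map_mul, Ideal.Quotient.eq_zero_iff_mem]
  refine Ideal.mem_span_singleton'.mpr ⟨c, ?_⟩
  apply MvPolynomial.map_injective _ (IsFractionRing.injective O K)
  rw [map_mul, map_mul, hc, ← hq, map_C]
  ring

/-- `O[X]/(f, ϖ)` as a quotient of `k[X]` -/
lemma exists_piQ {N : ℕ} (f : MvPolynomial (Fin N) O) {ϖ : O}
    (hϖ : maximalIdeal O = Ideal.span {ϖ}) :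
    ∃ π : MvPolynomial (Fin N) (ResidueField O) →+*
        (MvPolynomial (Fin N) O ⧸ Ideal.span {f}) ⧸
          Ideal.span {Ideal.Quotient.mk (Ideal.span {f}) (C ϖ)},
      Function.Surjective π ∧ RingHom.ker π = Ideal.span {MvPolynomial.map (residue O) f} := by
  set θ : MvPolynomial (Fin N) O →+* (MvPolynomial (Fin N) O ⧸ Ideal.span {f}) ⧸
      Ideal.span {Ideal.Quotient.mk (Ideal.span {f}) (C ϖ)} :=
    (Ideal.Quotient.mk (Ideal.span {Ideal.Quotient.mk (Ideal.span {f}) (C ϖ)})).comp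
      (Ideal.Quotient.mk (Ideal.span {f})) with hθ
  have hθ0 : ∀ a, θ a = 0 ↔ ∃ b c, C ϖ * b + c * f = a := by
    intro a
    rw [hθ, RingHom.comp_apply, Ideal.Quotient.eq_zero_iff_mem, Ideal.mem_span_singleton']
    constructor
    · rintro ⟨b, hb⟩
      obtain ⟨b, rfl⟩ := Ideal.Quotient.mk_surjective b
      rw [← map_mul, Ideal.Quotient.eq, ← neg_mem_iff, neg_sub] at hb
      obtain ⟨c, hc⟩ := Ideal.mem_span_singleton'.mp hb
      refine ⟨b, c, ?_⟩
      rw [hc]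
      ring
    · rintro ⟨b, c, rfl⟩
      refine ⟨Ideal.Quotient.mk _ b, ?_⟩
      rw [← map_mul, Ideal.Quotient.eq, ← neg_mem_iff, neg_sub]
      refine Ideal.mem_span_singleton'.mpr ⟨c, ?_⟩
      ring
  have hs : Function.Surjective (MvPolynomial.map (σ := Fin N) (residue O)) :=
    MvPolynomial.map_surjective _ residue_surjective
  have hle : RingHom.ker (MvPolynomial.map (σ := Fin N) (residue O)) ≤ RingHom.ker θ := by
    intro a ha
    rw [RingHom.mem_ker] at ha ⊢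
    obtain ⟨b, hb⟩ := (map_residue_eq_zero hϖ a).mp ha
    exact (hθ0 a).mpr ⟨b, 0, by rw [zero_mul, add_zero]; exact hb⟩
  let π := (RingHom.liftOfSurjective (MvPolynomial.map (σ := Fin N) (residue O)) hs) ⟨θ, hle⟩
  have hπ : ∀ a, π (MvPolynomial.map (residue O) a) = θ a := fun a =>
    RingHom.liftOfRightInverse_comp_apply _ _ _ ⟨θ, hle⟩ a
  refine ⟨π, ?_, ?_⟩
  · intro y
    obtain ⟨y, rfl⟩ := Ideal.Quotient.mk_surjective y
    obtain ⟨y, rfl⟩ := Ideal.Quotient.mk_surjective y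
    exact ⟨_, hπ y⟩
  · ext y
    obtain ⟨a, rfl⟩ := hs y
    rw [RingHom.mem_ker, hπ, hθ0, Ideal.mem_span_singleton']
    constructor
    · rintro ⟨b, c, rfl⟩
      refine ⟨MvPolynomial.map (residue O) c, ?_⟩
      rw [map_add, map_mul (MvPolynomial.map (residue O)) c f,
        (map_residue_eq_zero hϖ (C ϖ * b)).mpr ⟨b, rfl⟩, zero_add]
    · rintro ⟨c, hc⟩
      obtain ⟨c, rfl⟩ := hs c
      have h1 : MvPolynomial.map (residue O) (a - c * f) = 0 := by
        rw [map_sub, map_mul, hc, sub_self]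
      obtain ⟨b, hb⟩ := (map_residue_eq_zero hϖ _).mp h1
      exact ⟨b, c, by rw [hb]; ring⟩

end

end Pool.Agent.HT51
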