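import Pool.Agent.HT51.SpWNb
import Pool.Agent.HT51.SpWNe

/-!
# Tor over `O[X]/(f)`, over the fraction field and over the residue field
-/

universe u

namespace Pool.Agent.HT51

open MvPolynomial Pool.Agent.HT21 IsLocalRing

lemma mact_lin {R : Type u} [CommRing R] {p q : ℕ} (A : Matrix (Fin p) (Fin q) R) {W V : Type u}
    [AddCommGroup W] [Module R W] [AddCommGroup V] [Module R V] (f : W →ₗ[R] V) (w : Fin q → W) :
    f.compLeft (Fin p) (mact A W w) = mact A V (f.compLeft (Fin q) w) := by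
  funext a
  show f (∑ l, A a l • w l) = ∑ l, A a l • f (w l)
  rw [map_sum]
  exact Finset.sum_congr rfl fun l _ => map_smul f _ _

lemma ln_mod {O : Type u} [CommRing O] [IsLocalRing O] {ϖ : O}
    (hϖ : maximalIdeal O = Ideal.span {ϖ}) : ln O (O ⧸ Ideal.span {ϖ}) = 1 := by
  have hs : IsSimpleModule O (O ⧸ Ideal.span {ϖ}) := by
    rw [← hϖ]
    exact isSimpleModule_iff_isCoatom.mpr (maximalIdeal.isMaximal O).out
  unfold ln
  rw [Module.length_eq_one]
  rfl

section K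

variable {O : Type u} [CommRing O] [IsDomain O] [IsNoetherianRing O]
  {K : Type u} [Field K] [Algebra O K] [IsFractionRing O K] {N : ℕ} (f : MvPolynomial (Fin N) O)
  {W : Type u} [AddCommGroup W] [Module (MvPolynomial (Fin N) O ⧸ Ideal.span {f}) W]
  [Module.Finite (MvPolynomial (Fin N) O ⧸ Ideal.span {f}) W]
  {V : Type u} [AddCommGroup V] [Module (MvPolynomial (Fin N) O ⧸ Ideal.span {f}) V]

/-- a lattice over `O[X]/(f)` as a lattice over `O[X]` -/
noncomputable def latP {W' : Type u} [AddCommGroup W']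
    [Module (MvPolynomial (Fin N) K ⧸ Ideal.span {MvPolynomial.map (algebraMap O K) f}) W']
    (LW : Lat (qj f (MvPolynomial.map (algebraMap O K))) (cstQ f : Set _) W W') :
    Lat (MvPolynomial.map (algebraMap O K)) (cst O N)
      (Res (Ideal.Quotient.mk (Ideal.span {f})) W)
      (Res (Ideal.Quotient.mk (Ideal.span {MvPolynomial.map (algebraMap O K) f})) W') where
  i := LW.i
  smul := fun b x => LW.smul (Ideal.Quotient.mk _ b) x
  inj := LW.inj
  ex := fun y => by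
    obtain ⟨s, hs, x, hx⟩ := LW.ex y
    obtain ⟨t, ht, rfl⟩ := mem_cstQ.mp hs
    exact ⟨C t, ⟨t, ht, rfl⟩, x, hx⟩

theorem tor_K_eq (hinj : Function.Injective (qj f (MvPolynomial.map (algebraMap O K))))
    {W' V' : Type u} [AddCommGroup W']
    [Module (MvPolynomial (Fin N) K ⧸ Ideal.span {MvPolynomial.map (algebraMap O K) f}) W']
    [AddCommGroup V']
    [Module (MvPolynomial (Fin N) K ⧸ Ideal.span {MvPolynomial.map (algebraMap O K) f}) V']
    (LW : Lat (qj f (MvPolynomial.map (algebraMap O K))) (cstQ f : Set _) W W')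
    (LV : Lat (qj f (MvPolynomial.map (algebraMap O K))) (cstQ f : Set _) V V')
    (PV : MatRes (MvPolynomial (Fin N) O ⧸ Ideal.span {f}) V)
    (D : ∀ i, Matrix (Fin (PV.r i)) (Fin (PV.r (i + 1))) (MvPolynomial (Fin N) O))
    (hD : ∀ i, (D i).map (Ideal.Quotient.mk (Ideal.span {f})) = PV.D i)
    [Module O (Res (Ideal.Quotient.mk (Ideal.span {f})) W)]
    [IsScalarTower O (MvPolynomial (Fin N) O) (Res (Ideal.Quotient.mk (Ideal.span {f})) W)]
    (E : ℕ) (i : ℕ) (hk : ∀ (l : Fin N)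
      (z : Fin (PV.r (i + 1)) → Res (Ideal.Quotient.mk (Ideal.span {f})) W),
      mact (D i) (Res (Ideal.Quotient.mk (Ideal.span {f})) W) z = 0 →
      ∃ y, mact (D (i + 1)) (Res (Ideal.Quotient.mk (Ideal.span {f})) W) y
        = (X l : MvPolynomial (Fin N) O) ^ E • z) :
    torLen (MvPolynomial (Fin N) K ⧸ Ideal.span {MvPolynomial.map (algebraMap O K) f}) (i + 1) W' V'
      = (Module.finrank O (Hq3 (mact (D i) (Res (Ideal.Quotient.mk (Ideal.span {f})) W))
          (mact (D (i + 1)) (Res (Ideal.Quotient.mk (Ideal.span {f})) W))) : ℕ∞) := by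
  have hfin : Module.Finite (MvPolynomial (Fin N) O) (Res (Ideal.Quotient.mk (Ideal.span {f})) W) :=
    res_finite _ (RingHom.Finite.of_surjective _ Ideal.Quotient.mk_surjective)
  have h1 := torLen_matRes (mrLoc (qj f (MvPolynomial.map (algebraMap O K))) (cstQ f) (qj_den f)
    (cstQ_unit K f) hinj LV PV) W' i
  have h2 : ∀ i, (PV.D i).map (qj f (MvPolynomial.map (algebraMap O K)))
      = ((D i).map (MvPolynomial.map (algebraMap O K))).map
        (Ideal.Quotient.mk (Ideal.span {MvPolynomial.map (algebraMap O K) f})) := by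
    intro i
    rw [← hD]
    rfl
  have h3 := qlen_cmp (Ideal.Quotient.mk (Ideal.span {MvPolynomial.map (algebraMap O K) f}))
    Ideal.Quotient.mk_surjective ((D i).map (MvPolynomial.map (algebraMap O K)))
    ((D (i + 1)).map (MvPolynomial.map (algebraMap O K)))
    (toRes (Ideal.Quotient.mk (Ideal.span {MvPolynomial.map (algebraMap O K) f})) W').symm
    (fun a w => rfl)
  have h4 := lat_H3 (D i) (D (i + 1)) (Res (Ideal.Quotient.mk (Ideal.span {f})) W)
    (Res (Ideal.Quotient.mk (Ideal.span {MvPolynomial.map (algebraMap O K) f})) W')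
    (latP f LW) E hk
  rw [← h2, ← h2] at h3
  exact h1.trans (h3.trans h4)

end K

section Q

variable {O : Type u} [CommRing O] [IsDomain O] [IsLocalRing O] [IsPrincipalIdealRing O]
  {N : ℕ} (f : MvPolynomial (Fin N) O)
  {W : Type u} [AddCommGroup W] [Module (MvPolynomial (Fin N) O ⧸ Ideal.span {f}) W]
  [Module.Finite (MvPolynomial (Fin N) O ⧸ Ideal.span {f}) W]
  {V : Type u} [AddCommGroup V] [Module (MvPolynomial (Fin N) O ⧸ Ideal.span {f}) V]

lemma mem_tau {B : Type u} [CommRing B] (τ : B) {V : Type u} [AddCommGroup V] [Module B V] (v : V) :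
    (Submodule.Quotient.mk v : V ⧸ (Ideal.span {τ} • ⊤ : Submodule B V)) = 0 ↔ ∃ w, τ • w = v := by
  rw [Submodule.Quotient.mk_eq_zero, Submodule.ideal_span_singleton_smul,
    Submodule.mem_smul_pointwise_iff_exists]
  constructor
  · rintro ⟨w, -, hw⟩
    exact ⟨w, hw⟩
  · rintro ⟨w, hw⟩
    exact ⟨w, trivial, hw⟩

theorem spec_P {ϖ : O} (hϖ : maximalIdeal O = Ideal.span {ϖ}) (h0 : ϖ ≠ 0)
    (Wp : Type u) [AddCommGroup Wp] [Module (MvPolynomial (Fin N) O) Wp]
    [Module.Finite (MvPolynomial (Fin N) O) Wp] [Module O Wp]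
    [IsScalarTower O (MvPolynomial (Fin N) O) Wp] (Wq : Type u) [AddCommGroup Wq]
    [Module (MvPolynomial (Fin N) O) Wq] (p : Wp →ₗ[MvPolynomial (Fin N) O] Wq)
    (hp : Function.Surjective p)
    (hp0 : ∀ w, p w = 0 ↔ ∃ y, (C ϖ : MvPolynomial (Fin N) O) • y = w)
    (tW : ∀ w : Wp, (C ϖ : MvPolynomial (Fin N) O) • w = 0 → w = 0) {a b c d : ℕ}
    (A : Matrix (Fin a) (Fin b) (MvPolynomial (Fin N) O))
    (B : Matrix (Fin b) (Fin c) (MvPolynomial (Fin N) O))
    (G : Matrix (Fin c) (Fin d) (MvPolynomial (Fin N) O))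
    (hAB : ∀ x, mact A Wp (mact B Wp x) = 0) (hBG : ∀ x, mact B Wp (mact G Wp x) = 0) (E : ℕ)
    (hk0 : ∀ (l : Fin N) (z : Fin b → Wp), mact A Wp z = 0 →
      ∃ y, mact B Wp y = (X l : MvPolynomial (Fin N) O) ^ E • z)
    (hk1 : ∀ (l : Fin N) (z : Fin c → Wp), mact B Wp z = 0 →
      ∃ y, mact G Wp y = (X l : MvPolynomial (Fin N) O) ^ E • z)
    (hfin : Module.length (MvPolynomial (Fin N) O) (Hq3 (mact B Wq) (mact G Wq)) ≠ ⊤) :
    ln (MvPolynomial (Fin N) O) (Hq3 (mact B Wq) (mact G Wq))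
      = (Module.finrank O (Hq3 (mact B Wp) (mact G Wp)) : ℤ)
        + ln O (LinearMap.ker (mulT ϖ (Hq3 (mact B Wp) (mact G Wp))))
        + ln O (LinearMap.ker (mulT ϖ (Hq3 (mact A Wp) (mact B Wp)))) := by
  have hNoeth : IsNoetherian (MvPolynomial (Fin N) O) Wp :=
    isNoetherian_of_isNoetherianRing_of_finite _ _
  have hps : ∀ n, Function.Surjective (p.compLeft (Fin n)) := by
    intro n y
    choose x hx using fun a => hp (y a)
    exact ⟨x, funext hx⟩
  have hpk : ∀ (n : ℕ) (x : Fin n → Wp), p.compLeft (Fin n) x = 0 ↔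
      ∃ y, (C ϖ : MvPolynomial (Fin N) O) • y = x := by
    intro n x
    constructor
    · intro h
      choose y hy using fun a => (hp0 (x a)).mp (congrFun h a)
      exact ⟨y, funext hy⟩
    · rintro ⟨y, rfl⟩
      funext a
      exact (hp0 _).mpr ⟨y a, rfl⟩
  have hpt : ∀ (n : ℕ) (x : Fin n → Wp), (C ϖ : MvPolynomial (Fin N) O) • x = 0 → x = 0 := by
    intro n x h
    funext a
    exact tW _ (congrFun h a)
  have key := les3 (C ϖ : MvPolynomial (Fin N) O) (mact G Wp) (mact B Wp) (mact A Wp)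
    (mact G Wq) (mact B Wq) (p.compLeft _) (p.compLeft _) (p.compLeft _) (hps _) (hps _)
    (hpk _) (hpk _) (hpt _) (hpt _) (fun x => mact_lin _ p x) (fun x => mact_lin _ p x) hBG hAB
    (Module.length_ne_top_iff.mp hfin)
  have hkH : ∀ {a b c : ℕ} (A : Matrix (Fin a) (Fin b) (MvPolynomial (Fin N) O))
      (B : Matrix (Fin b) (Fin c) (MvPolynomial (Fin N) O))
      (_ : ∀ (l : Fin N) (z : Fin b → Wp), mact A Wp z = 0 →
      ∃ y, mact B Wp y = (X l : MvPolynomial (Fin N) O) ^ E • z)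
      (l : Fin N) (z : Hq3 (mact A Wp) (mact B Wp)), (X l : MvPolynomial (Fin N) O) ^ E • z = 0 := by
    intro a b c A B hk l z
    obtain ⟨⟨z, hz⟩, rfl⟩ := Submodule.Quotient.mk_surjective _ z
    rw [← Submodule.Quotient.mk_smul, Hq3_mk_zero]
    exact hk l z hz
  have e1 := ln_quot_t ϖ (Hq3 (mact B Wp) (mact G Wp)) E (hkH B G hk1)
    (LinearMap.lsmul (MvPolynomial (Fin N) O) _ (C ϖ))
    (fun x => algebraMap_smul (MvPolynomial (Fin N) O) ϖ x)
  have e2 := ln_ker_t ϖ (Hq3 (mact A Wp) (mact B Wp)) E (hkH A B hk0)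
    (LinearMap.lsmul (MvPolynomial (Fin N) O) _ (C ϖ))
    (fun x => algebraMap_smul (MvPolynomial (Fin N) O) ϖ x)
  have hO : ∀ q : Ideal O, q.IsPrime → q = ⊥ ∨ q = maximalIdeal O := by
    intro q hq
    by_cases h : q = ⊥
    · exact Or.inl h
    · exact Or.inr (eq_maximalIdeal (IsPrime.to_maximal_ideal h))
  have hfinO : Module.Finite O (Hq3 (mact B Wp) (mact G Wp)) := fin_PO _ E (hkH B G hk1)
  have e3 := et_rank ϖ hO h0 (by rw [hϖ]; exact Ideal.mem_span_singleton_self ϖ)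
    (Hq3 (mact B Wp) (mact G Wp))
  rw [ln_mod hϖ, one_mul] at e3
  unfold et at e3
  rw [e1, e2] at key
  linarith

theorem tor_quot {B Q : Type u} [CommRing B] [CommRing Q] {V V' : Type u} [AddCommGroup V]
    [Module B V] [AddCommGroup V'] [Module Q V'] (P : MatRes B V) (t : B) (π : B →+* Q)
    (hπ : Function.Surjective π) (hkπ : ∀ b, π b = 0 ↔ ∃ c, t * c = b)
    (tB : ∀ b, t * b = 0 → b = 0) (p : V →+ V') (hp : Function.Surjective p)
    (hsm : ∀ b v, p (b • v) = π b • p v) (hkp : ∀ v, p v = 0 ↔ ∃ w, t • w = v)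
    (tV : ∀ v : V, t • v = 0 → v = 0) (W : Type u) [AddCommGroup W] [Module Q W] (i : ℕ) :
    torLen Q (i + 1) W V' = qlen (LinearMap.range (mact ((P.D (i + 1)).map π) W))
      (LinearMap.ker (mact ((P.D i).map π) W)) :=
  torLen_matRes (mrQuot P t π hπ hkπ tB p hp hsm hkp tV) W i

theorem tor_Q_eq {ϖ : O} (hϖ : maximalIdeal O = Ideal.span {ϖ}) (h0 : ϖ ≠ 0)
    {Q : Type u} [CommRing Q] (πQ : (MvPolynomial (Fin N) O ⧸ Ideal.span {f}) →+* Q)
    (hπQ : Function.Surjective πQ)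
    (hkπ : ∀ b, πQ b = 0 ↔ ∃ c, Ideal.Quotient.mk (Ideal.span {f}) (C ϖ) * c = b)
    {Wb Vb : Type u} [AddCommGroup Wb] [Module Q Wb] [AddCommGroup Vb] [Module Q Vb]
    (pW : W →+ Wb) (hpW : Function.Surjective pW) (hsW : ∀ b v, pW (b • v) = πQ b • pW v)
    (hkW : ∀ v, pW v = 0 ↔ ∃ w, Ideal.Quotient.mk (Ideal.span {f}) (C ϖ) • w = v)
    (pV : V →+ Vb) (hpV : Function.Surjective pV) (hsV : ∀ b v, pV (b • v) = πQ b • pV v)
    (hkV : ∀ v, pV v = 0 ↔ ∃ w, Ideal.Quotient.mk (Ideal.span {f}) (C ϖ) • w = v)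
    (tB : ∀ b, Ideal.Quotient.mk (Ideal.span {f}) (C ϖ) * b = 0 → b = 0)
    (tW : ∀ w : W, Ideal.Quotient.mk (Ideal.span {f}) (C ϖ) • w = 0 → w = 0)
    (tV : ∀ v : V, Ideal.Quotient.mk (Ideal.span {f}) (C ϖ) • v = 0 → v = 0)
    (PV : MatRes (MvPolynomial (Fin N) O ⧸ Ideal.span {f}) V)
    (D : ∀ i, Matrix (Fin (PV.r i)) (Fin (PV.r (i + 1))) (MvPolynomial (Fin N) O))
    (hD : ∀ i, (D i).map (Ideal.Quotient.mk (Ideal.span {f})) = PV.D i)
    [Module O (Res (Ideal.Quotient.mk (Ideal.span {f})) W)]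
    [IsScalarTower O (MvPolynomial (Fin N) O) (Res (Ideal.Quotient.mk (Ideal.span {f})) W)]
    (E : ℕ) (i : ℕ) (hk : ∀ j, i ≤ j → ∀ (l : Fin N)
      (z : Fin (PV.r (j + 1)) → Res (Ideal.Quotient.mk (Ideal.span {f})) W),
      mact (D j) (Res (Ideal.Quotient.mk (Ideal.span {f})) W) z = 0 →
      ∃ y, mact (D (j + 1)) (Res (Ideal.Quotient.mk (Ideal.span {f})) W) y
        = (X l : MvPolynomial (Fin N) O) ^ E • z)
    (hfin : torLen Q (i + 1 + 1) Wb Vb ≠ ⊤) :
    ((torLen Q (i + 1 + 1) Wb Vb).toNat : ℤ)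
      = (Module.finrank O (Hq3 (mact (D (i + 1)) (Res (Ideal.Quotient.mk (Ideal.span {f})) W))
          (mact (D (i + 1 + 1)) (Res (Ideal.Quotient.mk (Ideal.span {f})) W))) : ℤ)
        + ln O (LinearMap.ker (mulT ϖ (Hq3 (mact (D (i + 1)) (Res (Ideal.Quotient.mk (Ideal.span {f})) W))
          (mact (D (i + 1 + 1)) (Res (Ideal.Quotient.mk (Ideal.span {f})) W)))))
        + ln O (LinearMap.ker (mulT ϖ (Hq3 (mact (D i) (Res (Ideal.Quotient.mk (Ideal.span {f})) W))
          (mact (D (i + 1)) (Res (Ideal.Quotient.mk (Ideal.span {f})) W))))) := by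
  have hfinW : Module.Finite (MvPolynomial (Fin N) O)
      (Res (Ideal.Quotient.mk (Ideal.span {f})) W) :=
    res_finite _ (RingHom.Finite.of_surjective _ Ideal.Quotient.mk_surjective)
  have h1 := tor_quot PV (Ideal.Quotient.mk (Ideal.span {f}) (C ϖ)) πQ hπQ hkπ tB pV hpV hsV hkV tV
    Wb (i + 1)
  have h2 : ∀ i, (PV.D i).map πQ = (D i).map (πQ.comp (Ideal.Quotient.mk (Ideal.span {f}))) := by
    intro i
    rw [← hD]
    rfl
  have h3 := qlen_cmp (πQ.comp (Ideal.Quotient.mk (Ideal.span {f})))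
    (hπQ.comp Ideal.Quotient.mk_surjective) (D (i + 1)) (D (i + 1 + 1))
    (toRes (πQ.comp (Ideal.Quotient.mk (Ideal.span {f}))) Wb).symm (fun a w => rfl)
  rw [← h2, ← h2] at h3
  have h4 := h1.trans h3
  have hdd : ∀ (i : ℕ) (x : Fin (PV.r (i + 1 + 1)) → Res (Ideal.Quotient.mk (Ideal.span {f})) W),
      mact (D i) (Res (Ideal.Quotient.mk (Ideal.span {f})) W)
        (mact (D (i + 1)) (Res (Ideal.Quotient.mk (Ideal.span {f})) W) x) = 0 := by
    intro i x
    have h := mr_dd PV W i x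
    rw [← hD, ← hD] at h
    exact h
  have h5 := spec_P hϖ h0 (Res (Ideal.Quotient.mk (Ideal.span {f})) W)
    (Res (πQ.comp (Ideal.Quotient.mk (Ideal.span {f}))) Wb)
    { toFun := fun w => toRes (πQ.comp (Ideal.Quotient.mk (Ideal.span {f}))) _ (pW w)
      map_add' := fun a b => map_add pW a b
      map_smul' := fun a b => hsW (Ideal.Quotient.mk (Ideal.span {f}) a) b } hpW hkW tW
    (D i) (D (i + 1)) (D (i + 1 + 1)) (hdd _) (hdd _) E (hk i le_rfl) (hk (i + 1) (by omega))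
    (fun h => hfin (h4.trans h))
  rw [← h5]
  unfold ln
  rw [h4]
  rfl

end Q

end Pool.Agent.HT51
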