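import Pool.Agent.HT51.Defs

/-!
# Torsion lemmas for matrix factorisations
-/

universe u

namespace Pool.Agent.HT51

open Matrix

section

variable {T : Type u} [CommRing T] {r : ℕ}

/-- The submodule `A T^r + u T^r`. -/
def sm (A : Matrix (Fin r) (Fin r) T) (u : T) : Submodule T (Fin r → T) :=
  LinearMap.range A.mulVecLin ⊔
    LinearMap.range (u • (LinearMap.id : (Fin r → T) →ₗ[T] (Fin r → T)))

lemma mem_sm (A : Matrix (Fin r) (Fin r) T) (u : T) (v : Fin r → T) :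
    v ∈ sm A u ↔ ∃ w z : Fin r → T, v = A *ᵥ w + u • z := by
  unfold sm
  rw [Submodule.mem_sup]
  constructor
  · rintro ⟨_, ⟨w, rfl⟩, _, ⟨z, rfl⟩, rfl⟩
    exact ⟨w, z, rfl⟩
  · rintro ⟨w, z, rfl⟩
    exact ⟨_, ⟨w, rfl⟩, _, ⟨z, rfl⟩, rfl⟩

lemma mem_range_mulVec (A : Matrix (Fin r) (Fin r) T) (v : Fin r → T) :
    v ∈ LinearMap.range A.mulVecLin ↔ ∃ w : Fin r → T, v = A *ᵥ w :=
  ⟨fun ⟨w, hw⟩ => ⟨w, hw.symm⟩, fun ⟨w, hw⟩ => ⟨w, hw.symm⟩⟩

private lemma smul_one_mulVec (h : T) (v : Fin r → T) :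
    (h • (1 : Matrix (Fin r) (Fin r) T)) *ᵥ v = h • v := by
  rw [Matrix.smul_mulVec, Matrix.one_mulVec]

/-- TL1 -/
lemma tl1 (A P : Matrix (Fin r) (Fin r) T) (h s u e : T)
    (hAP : A * P = h • (1 : Matrix (Fin r) (Fin r) T))
    (hPA : P * A = h • (1 : Matrix (Fin r) (Fin r) T)) (hs : h = s * u)
    (he : ∀ x : T, e * x = 0 → x = 0) (hu : ∀ x y : T, u * x = e * y → ∃ y', x = e * y')
    (v : Fin r → T) (hv : e • v ∈ sm A u) : s • v ∈ LinearMap.range A.mulVecLin := by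
  obtain ⟨w, z, hwz⟩ := (mem_sm A u _).mp hv
  have h1 : e • (P *ᵥ v) = u • (s • w + P *ᵥ z) := by
    have h2 := congrArg (fun y => P *ᵥ y) hwz
    change _ = _ at h2
    rw [Matrix.mulVec_smul, Matrix.mulVec_add, Matrix.mulVec_mulVec, hPA, smul_one_mulVec,
      Matrix.mulVec_smul] at h2
    rw [h2, hs, smul_add, smul_smul, mul_comm s u]
  have h3 : ∃ y : Fin r → T, s • w + P *ᵥ z = e • y := by
    have h4 : ∀ i, ∃ y', (s • w + P *ᵥ z) i = e * y' := by
      intro i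
      refine hu _ ((P *ᵥ v) i) ?_
      have := congrFun h1 i
      simp only [Pi.smul_apply, smul_eq_mul] at this
      exact this.symm
    choose y hy using h4
    exact ⟨y, funext hy⟩
  obtain ⟨y, hy⟩ := h3
  refine (mem_range_mulVec A _).mpr ⟨y, ?_⟩
  have h5 : e • (s • v - A *ᵥ y) = 0 := by
    have h6 : e • (s • v) = A *ᵥ (s • w + P *ᵥ z) := by
      rw [Matrix.mulVec_add, Matrix.mulVec_mulVec, hAP, smul_one_mulVec, Matrix.mulVec_smul,
        smul_comm e s v, hwz, smul_add, smul_smul, hs]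
    rw [smul_sub, h6, hy, Matrix.mulVec_smul, sub_self]
  have h7 : s • v - A *ᵥ y = 0 := by
    funext i
    have := congrFun h5 i
    simp only [Pi.smul_apply, smul_eq_mul, Pi.zero_apply] at this
    exact he _ this
  exact sub_eq_zero.mp h7

/-- TL2 -/
lemma tl2 (A P A' P' : Matrix (Fin r) (Fin r) T) (h s u h1 h2 δ : T)
    (hPA : P * A = h • (1 : Matrix (Fin r) (Fin r) T)) (hs : h = s * u) (hu : u = h1 * h2)
    (hd : A' * P + A * P' = δ • (1 : Matrix (Fin r) (Fin r) T))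
    (hh1 : ∀ x : T, h1 * x = 0 → x = 0)
    (v : Fin r → T) (hv : h1 • v ∈ sm A u) : δ • v ∈ sm A h2 := by
  obtain ⟨w, z, hwz⟩ := (mem_sm A u _).mp hv
  have e1 : P *ᵥ v = h2 • (s • w + P *ᵥ z) := by
    have h2' := congrArg (fun y => P *ᵥ y) hwz
    change _ = _ at h2'
    rw [Matrix.mulVec_smul, Matrix.mulVec_add, Matrix.mulVec_mulVec, hPA, smul_one_mulVec,
      Matrix.mulVec_smul] at h2'
    have h5 : h1 • (P *ᵥ v - h2 • (s • w + P *ᵥ z)) = 0 := by
      rw [smul_sub, h2', smul_smul, ← hu, hs, smul_add, smul_smul, mul_comm s u, sub_self]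
    have h7 : P *ᵥ v - h2 • (s • w + P *ᵥ z) = 0 := by
      funext i
      have := congrFun h5 i
      simp only [Pi.smul_apply, smul_eq_mul, Pi.zero_apply] at this
      exact hh1 _ this
    exact sub_eq_zero.mp h7
  refine (mem_sm A h2 _).mpr ⟨P' *ᵥ v, A' *ᵥ (s • w + P *ᵥ z), ?_⟩
  have e2 : δ • v = (A' * P + A * P') *ᵥ v := by
    rw [hd, smul_one_mulVec]
  rw [e2, Matrix.add_mulVec, ← Matrix.mulVec_mulVec, ← Matrix.mulVec_mulVec, e1,
    Matrix.mulVec_smul, add_comm]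

end

end Pool.Agent.HT51
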