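import Pool.Agent.HT51.Desc

/-!
# Base change of hypersurface rings

`κ → k` fields, `g` over `κ`, `g'` over `k` with `g'(b X) = g(X)`, `Q = κ[X]/(g)`,
`D = k[X]/(g')`: then `D ≃ Q ⊗ k`.
-/

universe u

namespace Pool.Agent.HT51

open TensorProduct MvPolynomial

/-- The substitution `X i ↦ b i * X i`. -/
noncomputable def scl {k : Type u} [Field k] {σ : Type} (b : σ → k) :
    MvPolynomial σ k →+* MvPolynomial σ k :=
  eval₂Hom C fun i => C (b i) * X i

@[simp] lemma scl_C {k : Type u} [Field k] {σ : Type} (b : σ → k) (a : k) : scl b (C a) = C a := by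
  unfold scl
  rw [coe_eval₂Hom, eval₂_C]

@[simp] lemma scl_X {k : Type u} [Field k] {σ : Type} (b : σ → k) (i : σ) :
    scl b (X i) = C (b i) * X i := by
  unfold scl
  rw [coe_eval₂Hom, eval₂_X]

lemma scl_inv {k : Type u} [Field k] {σ : Type} (b : σ → k) (hb : ∀ i, b i ≠ 0)
    (p : MvPolynomial σ k) :
    scl (fun i => (b i)⁻¹) (scl b p) = p := by
  have h : (scl (fun i => (b i)⁻¹)).comp (scl b) = RingHom.id _ := by
    refine MvPolynomial.ringHom_ext ?_ ?_
    · intro a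
      simp
    · intro i
      rw [RingHom.comp_apply, scl_X, map_mul, scl_C, scl_X, ← mul_assoc, ← C_mul,
        mul_inv_cancel₀ (hb i), C_1, one_mul, RingHom.id_apply]
  exact congrArg (fun f => f p) h

theorem tw_exists {κ k : Type u} [Field κ] [Field k] [Algebra κ k] {σ : Type}
    (g : MvPolynomial σ κ) (g' : MvPolynomial σ k) (b : σ → k) (hb : ∀ i, b i ≠ 0)
    (hg : scl b g' = map (algebraMap κ k) g)
    {Q D : Type u} [CommRing Q] [Algebra κ Q] [CommRing D]
    (π : MvPolynomial σ κ →ₐ[κ] Q) (hπ : Function.Surjective π)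
    (hker : RingHom.ker π.toRingHom = Ideal.span {g})
    (π' : MvPolynomial σ k →+* D) (hπ' : Function.Surjective π')
    (hker' : RingHom.ker π' = Ideal.span {g'}) :
    ∃ (ι : Q →+* D) (Ψ : D ≃+* (Q ⊗[κ] k)), (∀ q, Ψ (ι q) = q ⊗ₜ (1 : k)) ∧
      ∀ p, ι (π p) = π' (scl (fun i => (b i)⁻¹) (map (algebraMap κ k) p)) := by
  -- the map `ι`
  have hι : ∃ ι : Q →+* D, ∀ p, ι (π p) = π' (scl (fun i => (b i)⁻¹) (map (algebraMap κ k) p)) := by
    let F : MvPolynomial σ κ →+* D :=
      π'.comp ((scl fun i => (b i)⁻¹).comp (map (algebraMap κ k)))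
    have hF : RingHom.ker π.toRingHom ≤ RingHom.ker F := by
      rw [hker, Ideal.span_singleton_le_iff_mem, RingHom.mem_ker]
      show π' (scl (fun i => (b i)⁻¹) (map (algebraMap κ k) g)) = 0
      rw [← hg, scl_inv b hb, ← RingHom.mem_ker, hker']
      exact Ideal.subset_span rfl
    refine ⟨RingHom.liftOfSurjective π.toRingHom hπ ⟨F, hF⟩, fun p => ?_⟩
    exact RingHom.liftOfRightInverse_comp_apply π.toRingHom _ _ ⟨F, hF⟩ p
  obtain ⟨ι, hι⟩ := hι
  -- the map `ψ`
  have hψ : ∃ ψ : D →+* (Q ⊗[κ] k), (∀ a, ψ (π' (C a)) = (1 : Q) ⊗ₜ a) ∧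
      ∀ i, ψ (π' (X i)) = π (X i) ⊗ₜ (b i) := by
    let inr : k →+* (Q ⊗[κ] k) := (Algebra.TensorProduct.includeRight : k →ₐ[κ] Q ⊗[κ] k).toRingHom
    have hinr : ∀ a, inr a = (1 : Q) ⊗ₜ a := fun a => rfl
    let E : MvPolynomial σ k →+* (Q ⊗[κ] k) := eval₂Hom inr fun i => π (X i) ⊗ₜ[κ] (b i)
    let E0 : MvPolynomial σ k →+* (Q ⊗[κ] k) := eval₂Hom inr fun i => π (X i) ⊗ₜ[κ] (1 : k)
    have hEC : ∀ a, E (C a) = (1 : Q) ⊗ₜ a := fun a => eval₂_C _ _ _
    have hEX : ∀ i, E (X i) = π (X i) ⊗ₜ (b i) := fun i => eval₂_X _ _ _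
    have hE0C : ∀ a, E0 (C a) = (1 : Q) ⊗ₜ a := fun a => eval₂_C _ _ _
    have hE0X : ∀ i, E0 (X i) = π (X i) ⊗ₜ (1 : k) := fun i => eval₂_X _ _ _
    have h1 : E = E0.comp (scl b) := by
      refine MvPolynomial.ringHom_ext ?_ ?_
      · intro a
        rw [RingHom.comp_apply, scl_C, hEC, hE0C]
      · intro i
        rw [RingHom.comp_apply, scl_X, map_mul, hEX, hE0X, hE0C,
          Algebra.TensorProduct.tmul_mul_tmul, one_mul, mul_one]
    have h2 : E0.comp (map (algebraMap κ k)) =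
        (Algebra.TensorProduct.includeLeftRingHom : Q →+* Q ⊗[κ] k).comp π.toRingHom := by
      refine MvPolynomial.ringHom_ext ?_ ?_
      · intro a
        rw [RingHom.comp_apply, map_C, hE0C]
        show (1 : Q) ⊗ₜ[κ] (algebraMap κ k a) = (π (C a)) ⊗ₜ[κ] (1 : k)
        have : π (C a) = algebraMap κ Q a := π.commutes a
        rw [this, Algebra.algebraMap_eq_smul_one, Algebra.algebraMap_eq_smul_one,
          TensorProduct.smul_tmul]
      · intro i
        rw [RingHom.comp_apply, map_X, hE0X]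
        rfl
    have hE : RingHom.ker π' ≤ RingHom.ker E := by
      rw [hker', Ideal.span_singleton_le_iff_mem, RingHom.mem_ker, h1, RingHom.comp_apply, hg,
        ← RingHom.comp_apply, h2, RingHom.comp_apply]
      have : g ∈ RingHom.ker π.toRingHom := by
        rw [hker]
        exact Ideal.subset_span rfl
      rw [RingHom.mem_ker.mp this, map_zero]
    refine ⟨RingHom.liftOfSurjective π' hπ' ⟨E, hE⟩, fun a => ?_, fun i => ?_⟩
    · exact (RingHom.liftOfRightInverse_comp_apply π' _ _ ⟨E, hE⟩ (C a)).trans (hEC a)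
    · exact (RingHom.liftOfRightInverse_comp_apply π' _ _ ⟨E, hE⟩ (X i)).trans (hEX i)
  obtain ⟨ψ, hψC, hψX⟩ := hψ
  have hιC : ∀ a, ι (π (C a)) = π' (C (algebraMap κ k a)) := by
    intro a
    rw [hι, map_C, scl_C]
  have hιX : ∀ i, ι (π (X i)) = π' (C (b i)⁻¹) * π' (X i) := by
    intro i
    rw [hι, map_X, scl_X, map_mul]
  have hψι : ∀ q, ψ (ι q) = q ⊗ₜ (1 : k) := by
    intro q
    obtain ⟨p, rfl⟩ := hπ q
    have h : ψ.comp (ι.comp π.toRingHom)
        = (Algebra.TensorProduct.includeLeftRingHom : Q →+* Q ⊗[κ] k).comp π.toRingHom := by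
      refine MvPolynomial.ringHom_ext ?_ ?_
      · intro a
        show ψ (ι (π (C a))) = (π (C a)) ⊗ₜ[κ] (1 : k)
        have : π (C a) = algebraMap κ Q a := π.commutes a
        rw [hιC, hψC, this, Algebra.algebraMap_eq_smul_one, Algebra.algebraMap_eq_smul_one,
          TensorProduct.smul_tmul]
      · intro i
        show ψ (ι (π (X i))) = (π (X i)) ⊗ₜ[κ] (1 : k)
        rw [hιX, map_mul, hψC, hψX, Algebra.TensorProduct.tmul_mul_tmul, one_mul,
          inv_mul_cancel₀ (hb i)]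
    exact congrArg (fun f => f p) h
  have hbij : Function.Bijective ψ := by
    let _ : Algebra κ D := (π'.comp (C.comp (algebraMap κ k))).toAlgebra
    let Φ : (Q ⊗[κ] k) →ₐ[κ] D :=
      Algebra.TensorProduct.lift
        ({ toRingHom := ι
           commutes' := by
            intro r
            show ι (algebraMap κ Q r) = π' (C (algebraMap κ k r))
            rw [← hιC]
            congr 1
            exact (π.commutes r).symm } : Q →ₐ[κ] D)
        ({ toRingHom := π'.comp C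
           commutes' := fun r => rfl } : k →ₐ[κ] D)
        (fun x y => Commute.all _ _)
    have hΦ : ∀ q a, Φ (q ⊗ₜ a) = ι q * π' (C a) := by
      intro q a
      exact Algebra.TensorProduct.lift_tmul _ _ _ _ _
    refine Function.bijective_iff_has_inverse.mpr ⟨Φ, ?_, ?_⟩
    · intro x
      obtain ⟨p, rfl⟩ := hπ' x
      have h : Φ.toRingHom.comp (ψ.comp π') = π' := by
        refine MvPolynomial.ringHom_ext ?_ ?_
        · intro a
          show Φ (ψ (π' (C a))) = π' (C a)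
          rw [hψC, hΦ, map_one, one_mul]
        · intro i
          show Φ (ψ (π' (X i))) = π' (X i)
          rw [hψX, hΦ, hιX, mul_right_comm, ← map_mul, ← C_mul, inv_mul_cancel₀ (hb i), C_1,
            map_one, one_mul]
      exact congrArg (fun f => f p) h
    · intro t
      induction t with
      | zero => rw [map_zero, map_zero]
      | add x y hx hy => rw [map_add, map_add, hx, hy]
      | tmul x y =>
        rw [hΦ, map_mul, hψι, hψC, Algebra.TensorProduct.tmul_mul_tmul, mul_one, one_mul]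
  exact ⟨ι, RingEquiv.ofBijective ψ hbij, hψι, hι⟩

section cor

variable {κ k : Type u} [Field κ] [Field k] [Algebra κ k] {Q D : Type u} [CommRing Q]
  [Algebra κ Q] [CommRing D] (ι : Q →+* D) (Ψ : D ≃+* (Q ⊗[κ] k))

/-- `Q`-linearity of `Ψ`. -/
lemma tw_linear (h : ∀ q, Ψ (ι q) = q ⊗ₜ (1 : k)) :
    ∃ _ : Algebra Q D, (algebraMap Q D = ι) ∧ Nonempty (D ≃ₗ[Q] (Q ⊗[κ] k)) := by
  let _ : Algebra Q D := ι.toAlgebra
  refine ⟨inferInstance, rfl, ⟨{ Ψ.toAddEquiv with map_smul' := ?_ }⟩⟩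
  intro q x
  show Ψ (ι q * x) = q • Ψ x
  rw [map_mul, h]
  induction Ψ x with
  | zero => rw [mul_zero, smul_zero]
  | add x y hx hy => rw [smul_add, ← hx, ← hy, mul_add]
  | tmul x y =>
    rw [Algebra.TensorProduct.tmul_mul_tmul, one_mul, TensorProduct.smul_tmul']
    rfl

lemma tw_descend [FiniteDimensional κ k] (h : ∀ q, Ψ (ι q) = q ⊗ₜ (1 : k)) (hD : ZeroProp D) :
    ZeroProp Q := by
  obtain ⟨_, -, ⟨e⟩⟩ := tw_linear ι Ψ h
  exact ZeroProp.of_basis (Module.finrank_pos (R := κ) (M := k))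
    ((Algebra.TensorProduct.basis Q (Module.finBasis κ k)).map e.symm) hD

lemma tw_flat (h : ∀ q, Ψ (ι q) = q ⊗ₜ (1 : k)) :
    ∃ _ : Algebra Q D, (algebraMap Q D = ι) ∧ Module.Flat Q D := by
  obtain ⟨_, h1, ⟨e⟩⟩ := tw_linear ι Ψ h
  exact ⟨inferInstance, h1, Module.Flat.of_linearEquiv e⟩

end cor

end Pool.Agent.HT51
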