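import Pool.Agent.HT51.Eval
import Pool.Agent.HT51.Defs2

/-!
# The saturated twist of a matrix factorisation
-/

universe u

namespace Pool.Agent.HT51

open Polynomial Matrix

section twoGen

variable {R T : Type u} [CommRing R] [CommRing T] (g : R →+* T) {r : ℕ}
  (A : Matrix (Fin r) (Fin r) R[X])

/-- The image in `T[X]^r` of the `X`-saturation of `A R[X]^r`. -/
noncomputable def satL (hg : Function.Surjective g) : Submodule T[X] (Fin r → T[X]) where
  carrier := {v | ∃ v' : Fin r → R[X], (∀ i, v i = (v' i).map g) ∧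
    ∃ (l : ℕ) (w : Fin r → R[X]), (X : R[X]) ^ l • v' = A *ᵥ w}
  zero_mem' := ⟨0, fun i => by simp, 0, 0, by simp⟩
  add_mem' := by
    rintro v v₂ ⟨v', hv', l, w, hw⟩ ⟨v₂', hv₂', l₂, w₂, hw₂⟩
    refine ⟨v' + v₂', fun i => ?_, l + l₂, (X : R[X]) ^ l₂ • w + (X : R[X]) ^ l • w₂, ?_⟩
    · rw [Pi.add_apply, Pi.add_apply, hv', hv₂', Polynomial.map_add]
    · rw [Matrix.mulVec_add, Matrix.mulVec_smul, Matrix.mulVec_smul, ← hw, ← hw₂, smul_add,
        smul_smul, smul_smul, ← pow_add, ← pow_add, add_comm l₂ l]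
  smul_mem' := by
    rintro q v ⟨v', hv', l, w, hw⟩
    obtain ⟨q', hq'⟩ := Polynomial.map_surjective g hg q
    refine ⟨q' • v', fun i => ?_, l, q' • w, ?_⟩
    · rw [Pi.smul_apply, Pi.smul_apply, smul_eq_mul, smul_eq_mul, hv', Polynomial.map_mul, hq']
    · rw [Matrix.mulVec_smul, ← hw, smul_comm]

/-- The quotient `T[X]^r / satL`. -/
abbrev SatW (hg : Function.Surjective g) : Type u := (Fin r → T[X]) ⧸ satL g A hg

/-- The fibre of `SatW` at `X = c`. -/
abbrev SatQ (hg : Function.Surjective g) (c : T) : Type u :=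
  SatW g A hg ⧸ LinearMap.range (LinearMap.lsmul T[X] (SatW g A hg) (X - C c))

variable (hg : Function.Surjective g)

/-- The map `T^r → SatQ c`. -/
noncomputable def satTheta (c : T) : (Fin r → T) →ₗ[T] Res (C : T →+* T[X]) (SatQ g A hg c) where
  toFun v := toRes C _ (Submodule.mkQ _ (Submodule.mkQ _ (fun i => C (v i))))
  map_add' v w := by
    rw [← map_add, ← map_add, ← map_add]
    congr 3
    funext i
    rw [Pi.add_apply, Pi.add_apply, map_add]
  map_smul' t v := by
    rw [RingHom.id_apply, toRes_smul, ← map_smul, ← map_smul]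
    congr 3
    funext i
    rw [Pi.smul_apply, Pi.smul_apply, smul_eq_mul, smul_eq_mul, map_mul]

lemma satTheta_eq_zero_iff (c : T) (v : Fin r → T) :
    satTheta g A hg c v = 0 ↔ ∃ z : Fin r → T[X],
      (fun i => C (v i)) - (X - C c) • z ∈ satL g A hg := by
  have h1 : satTheta g A hg c v = 0 ↔
      (Submodule.mkQ (satL g A hg) (fun i => C (v i))) ∈
        LinearMap.range (LinearMap.lsmul T[X] (SatW g A hg) (X - C c)) :=
    Submodule.Quotient.mk_eq_zero _
  rw [h1]
  constructor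
  · rintro ⟨w, hw⟩
    obtain ⟨z, rfl⟩ := Submodule.mkQ_surjective _ w
    refine ⟨z, ?_⟩
    rw [← Submodule.Quotient.mk_eq_zero, Submodule.Quotient.mk_sub, Submodule.Quotient.mk_smul,
      sub_eq_zero]
    exact hw.symm
  · rintro ⟨z, hz⟩
    refine ⟨Submodule.mkQ _ z, ?_⟩
    rw [← Submodule.Quotient.mk_eq_zero, Submodule.Quotient.mk_sub, Submodule.Quotient.mk_smul,
      sub_eq_zero] at hz
    exact hz.symm

lemma satTheta_surj (c : T) : Function.Surjective (satTheta g A hg c) := by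
  intro q
  obtain ⟨q, rfl⟩ : ∃ q', q = toRes C _ q' := ⟨(toRes C _).symm q, rfl⟩
  obtain ⟨w, rfl⟩ := Submodule.mkQ_surjective _ q
  obtain ⟨v, rfl⟩ := Submodule.mkQ_surjective _ w
  refine ⟨fun i => (v i).eval c, ?_⟩
  have h : ∀ i, ∃ z : T[X], v i - C ((v i).eval c) = (X - C c) * z := fun i => by
    exact Polynomial.X_sub_C_dvd_sub_C_eval
  choose z hz using h
  have h2 : v - (fun i => C ((v i).eval c)) = (X - C c) • z := funext hz
  have key : Submodule.mkQ (LinearMap.range (LinearMap.lsmul T[X] (SatW g A hg) (X - C c)))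
      (Submodule.mkQ (satL g A hg) (fun i => C ((v i).eval c)))
      = Submodule.mkQ (LinearMap.range (LinearMap.lsmul T[X] (SatW g A hg) (X - C c)))
      (Submodule.mkQ (satL g A hg) v) := by
    rw [← sub_eq_zero, ← map_sub, ← map_sub]
    refine (Submodule.Quotient.mk_eq_zero _).mpr ⟨Submodule.mkQ _ (-z), ?_⟩
    rw [LinearMap.lsmul_apply, ← map_smul, smul_neg, ← h2, neg_sub]
  exact congrArg (toRes C _) key

variable (f : R) (ρ : R →+* R[X]) (e : ℕ) (hρ : ρ f = X ^ e * C f)
  (hker : ∀ x, g x = 0 → f ∣ x)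

/-- The composite `R → R[X] → R → T`, evaluation at `c`. -/
noncomputable def evc (g : R →+* T) (ρ : R →+* R[X]) (c : R) : R →+* T :=
  g.comp ((evalRingHom c).comp ρ)

lemma satTheta_range (F : MF f r) (c : R) (w : Fin r → T) :
    satTheta g (F.phi.map ρ) hg (g c) ((F.phi.map (evc g ρ c)) *ᵥ w) = 0 := by
  rw [satTheta_eq_zero_iff]
  have h : ∀ i, ∃ y, g y = w i := fun i => hg (w i)
  choose w' hw' using h
  have h : ∀ i, ∃ z : R[X], (F.phi.map ρ *ᵥ (fun i => C (w' i))) i
      - C (((F.phi.map ρ *ᵥ (fun i => C (w' i))) i).eval c) = (X - C c) * z := fun i => by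
    exact Polynomial.X_sub_C_dvd_sub_C_eval
  choose z hz using h
  refine ⟨fun i => - (z i).map g, (F.phi.map ρ *ᵥ (fun i => C (w' i))), fun i => ?_, 0,
    (fun i => C (w' i)), by rw [pow_zero, one_smul]⟩
  have h1 := congrArg (Polynomial.map g) (hz i)
  rw [Polynomial.map_sub, Polynomial.map_mul, Polynomial.map_sub, Polynomial.map_X,
    Polynomial.map_C, Polynomial.map_C] at h1
  have h2 : g (((F.phi.map ρ *ᵥ (fun i => C (w' i))) i).eval c)
      = (F.phi.map (evc g ρ c) *ᵥ w) i := by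
    unfold Matrix.mulVec dotProduct
    rw [Polynomial.eval_finsetSum, map_sum]
    refine Finset.sum_congr rfl fun j _ => ?_
    rw [Polynomial.eval_mul, Polynomial.eval_C, map_mul, hw']
    rfl
  rw [h2] at h1
  rw [Pi.sub_apply, Pi.smul_apply, smul_eq_mul, mul_neg, sub_neg_eq_add, ← h1]
  ring

lemma satTheta_ker (F : MF f r) (c : R) (v : Fin r → T)
    (hv : satTheta g (F.phi.map ρ) hg (g c) v = 0) :
    ∃ l : ℕ, ∃ w : Fin r → T, (g c) ^ l • v = (F.phi.map (evc g ρ c)) *ᵥ w := by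
  rw [satTheta_eq_zero_iff] at hv
  obtain ⟨z, v', hv', l, w, hw⟩ := hv
  refine ⟨l, fun i => g ((w i).eval c), ?_⟩
  funext i
  have h1 : v i = g ((v' i).eval c) := by
    have h2 := congrArg (Polynomial.eval (g c)) (hv' i)
    rw [Pi.sub_apply, Pi.smul_apply, smul_eq_mul, Polynomial.eval_sub, Polynomial.eval_mul,
      Polynomial.eval_sub, Polynomial.eval_X, Polynomial.eval_C, Polynomial.eval_C, sub_self,
      zero_mul, sub_zero, Polynomial.eval_map_apply] at h2
    exact h2
  have h3 := congrArg (fun p => g (Polynomial.eval c p)) (congrFun hw i)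
  simp only [Pi.smul_apply, smul_eq_mul, Polynomial.eval_mul, Polynomial.eval_pow,
    Polynomial.eval_X, map_mul, map_pow] at h3
  rw [Pi.smul_apply, smul_eq_mul, h1, h3]
  unfold Matrix.mulVec dotProduct
  rw [Polynomial.eval_finsetSum, map_sum]
  refine Finset.sum_congr rfl fun j _ => ?_
  rw [Polynomial.eval_mul, map_mul]
  rfl

/-- `Cok (phi (c)) → SatQ c` preserves the value if `lam` kills `c`. -/
lemma sat_val [IsNoetherianRing T] (lam : AddFn T) (F : MF f r) (c : R) (hc : lam.Kills (g c)) :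
    Module.Finite T (Res (C : T →+* T[X]) (SatQ g (F.phi.map ρ) hg (g c))) ∧
    lam.val (Cok (F.phi.map (evc g ρ c)))
      = lam.val (Res (C : T →+* T[X]) (SatQ g (F.phi.map ρ) hg (g c))) := by
  have hfin : Module.Finite T (Res (C : T →+* T[X]) (SatQ g (F.phi.map ρ) hg (g c))) :=
    Module.Finite.of_surjective _ (satTheta_surj g (F.phi.map ρ) hg (g c))
  refine ⟨hfin, ?_⟩
  let θ := Submodule.liftQ (LinearMap.range (F.phi.map (evc g ρ c)).mulVecLin)
    (satTheta g (F.phi.map ρ) hg (g c)) (by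
      rintro _ ⟨w, rfl⟩
      exact satTheta_range g hg f ρ F c w)
  refine hc.val_eq θ ?_ ?_
  · intro x hx
    obtain ⟨v, rfl⟩ := Submodule.mkQ_surjective _ x
    obtain ⟨l, w, hw⟩ := satTheta_ker g hg f ρ F c v hx
    refine ⟨l, ?_⟩
    rw [← map_smul, hw]
    exact (Submodule.Quotient.mk_eq_zero _).mpr ⟨w, rfl⟩
  · intro y
    obtain ⟨v, rfl⟩ := satTheta_surj g (F.phi.map ρ) hg (g c) y
    refine ⟨0, Submodule.mkQ _ v, ?_⟩
    rw [pow_zero, one_smul]
    rfl

include hρ hker in
/-- `SatW` has no `X - c`-torsion. -/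
lemma sat_torsion [IsDomain R] (hf : f ≠ 0) (F : MF f r) (c : R) (hc : c ≠ 0)
    (w : SatW g (F.phi.map ρ) hg) (hw : (X - C (g c)) • w = 0) : w = 0 := by
  obtain ⟨v, rfl⟩ := Submodule.mkQ_surjective _ w
  rw [← map_smul] at hw
  have hw2 := (Submodule.Quotient.mk_eq_zero _).mp hw
  refine (Submodule.Quotient.mk_eq_zero _).mpr ?_
  obtain ⟨v', hv', l, w, hw⟩ := hw2
  have h : ∀ i, ∃ y : R[X], y.map g = v i := fun i => Polynomial.map_surjective g hg (v i)
  choose y hy using h
  have h : ∀ i, ∃ z : R[X], v' i - (X - C c) * y i = C f * z := by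
    intro i
    have : C f ∣ v' i - (X - C c) * y i := by
      rw [Polynomial.C_dvd_iff_dvd_coeff]
      intro j
      refine hker _ ?_
      rw [← Polynomial.coeff_map, Polynomial.map_sub, Polynomial.map_mul, Polynomial.map_sub,
        Polynomial.map_X, Polynomial.map_C, hy, ← hv', Pi.smul_apply, smul_eq_mul, sub_self,
        Polynomial.coeff_zero]
    exact this
  choose z hz using h
  have hz' : v' = (X - C c) • y + C f • z := by
    funext i
    rw [Pi.add_apply, Pi.smul_apply, Pi.smul_apply, smul_eq_mul, smul_eq_mul, ← hz i]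
    ring
  have hAP : (F.phi.map ρ) * (F.psi.map ρ) = (X ^ e * C f) • (1 : Matrix (Fin r) (Fin r) R[X]) := by
    have := congrArg (fun M : Matrix (Fin r) (Fin r) R => M.map ρ) F.phi_psi
    simp only [Matrix.map_mul] at this
    rw [this, ← hρ]
    ext i j
    simp [Matrix.one_apply, apply_ite ρ]
  have hPA : (F.psi.map ρ) * (F.phi.map ρ) = (X ^ e * C f) • (1 : Matrix (Fin r) (Fin r) R[X]) := by
    have := congrArg (fun M : Matrix (Fin r) (Fin r) R => M.map ρ) F.psi_phi
    simp only [Matrix.map_mul] at this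
    rw [this, ← hρ]
    ext i j
    simp [Matrix.one_apply, apply_ite ρ]
  -- `X^(l+e) (X - c) y = A u`
  have h1 : (X : R[X]) ^ (l + e) • ((X - C c) • y)
      = F.phi.map ρ *ᵥ ((X : R[X]) ^ e • w - (X : R[X]) ^ l • (F.psi.map ρ *ᵥ z)) := by
    rw [Matrix.mulVec_sub, Matrix.mulVec_smul, Matrix.mulVec_smul, Matrix.mulVec_mulVec, hAP,
      Matrix.smul_mulVec, Matrix.one_mulVec, ← hw, hz', smul_add, smul_add, smul_smul, smul_smul,
      smul_smul, smul_smul, smul_smul, smul_smul]
    have e1 : (X : R[X]) ^ e * X ^ l * (C f) = X ^ l * (X ^ e * C f) := by ring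
    have e2 : (X : R[X]) ^ (l + e) * (X - C c) = X ^ e * X ^ l * (X - C c) := by ring
    rw [e1, e2, add_sub_cancel_right]
  set u := (X : R[X]) ^ e • w - (X : R[X]) ^ l • (F.psi.map ρ *ᵥ z) with hu
  have h2 : (X : R[X]) ^ (l + e) • ((X - C c) • (F.psi.map ρ *ᵥ y)) = (X ^ e * C f) • u := by
    have := congrArg (fun x => F.psi.map ρ *ᵥ x) h1
    simp only [Matrix.mulVec_smul, Matrix.mulVec_mulVec] at this
    rw [this, hPA, Matrix.smul_mulVec, Matrix.one_mulVec]
  have h3 : ∀ i, ∃ u', u i = (X - C c) * u' := by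
    intro i
    have h4 := congrFun h2 i
    simp only [Pi.smul_apply, smul_eq_mul] at h4
    have h5 : (X - C c) ∣ (X ^ e * C f) * u i := by
      rw [← h4]
      exact Dvd.intro (X ^ (l + e) * (F.psi.map ρ *ᵥ y) i) (by ring)
    rcases (Polynomial.prime_X_sub_C c).dvd_or_dvd h5 with h6 | h6
    · exfalso
      rw [Polynomial.dvd_iff_isRoot, Polynomial.IsRoot.def, Polynomial.eval_mul,
        Polynomial.eval_pow, Polynomial.eval_X, Polynomial.eval_C] at h6
      exact mul_ne_zero (pow_ne_zero _ hc) hf h6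
    · exact h6
  choose u' hu' using h3
  have hu2 : u = (X - C c) • u' := funext hu'
  refine ⟨y, fun i => (hy i).symm, l + e, u', ?_⟩
  rw [hu2, Matrix.mulVec_smul, smul_comm] at h1
  have h7 : ∀ i, ((X : R[X]) ^ (l + e) • y) i = (F.phi.map ρ *ᵥ u') i := by
    intro i
    have h8 := congrFun h1 i
    rw [Pi.smul_apply, Pi.smul_apply, smul_eq_mul, smul_eq_mul] at h8
    exact mul_left_cancel₀ (Polynomial.X_sub_C_ne_zero c) h8
  exact funext h7

include hρ hker in
/-- The values of `lam` on the specialisations of a matrix factorisation at `X = c 0`, `c 1`. -/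
theorem sat_main [IsDomain R] [IsNoetherianRing T] (lam : AddFn T) (hf : f ≠ 0) (F : MF f r)
    (hg : Function.Surjective g)
    (c : Fin 2 → R) (hc0 : ∀ j, c j ≠ 0) (hc : ∀ j, lam.Kills (g (c j))) :
    lam.val (Cok (F.phi.map (evc g ρ (c 0)))) = lam.val (Cok (F.phi.map (evc g ρ (c 1)))) := by
  rw [(sat_val g hg f ρ lam F (c 0) (hc 0)).2, (sat_val g hg f ρ lam F (c 1) (hc 1)).2]
  have h1 : lam.Kills (1 : T) := by
    intro M _ _ _ hM
    have : Subsingleton M := ⟨fun x y => by
      have h1 := hM x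
      have h2 := hM y
      rw [one_smul] at h1 h2
      rw [h1, h2]⟩
    exact lam.val_of_subsingleton M
  refine ev_torsion lam 1 h1 (fun j => g (c j)) (SatW g (F.phi.map ρ) hg)
    (fun j => Res (C : T →+* T[X]) (SatQ g (F.phi.map ρ) hg (g (c j))))
    (fun j => (toRes C (SatQ g (F.phi.map ρ) hg (g (c j)))).toAddMonoidHom.comp
      (Submodule.mkQ _).toAddMonoidHom) ?_ ?_ ?_ ?_ ?_
  · intro j b w
    rfl
  · intro j w
    show toRes C _ (Submodule.mkQ _ ((X : T[X]) • w)) = g (c j) • toRes C _ (Submodule.mkQ _ w)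
    rw [toRes_smul, ← map_smul]
    refine congrArg (toRes C _) ?_
    rw [← sub_eq_zero, ← map_sub]
    refine (Submodule.Quotient.mk_eq_zero _).mpr ⟨w, ?_⟩
    rw [LinearMap.lsmul_apply, sub_smul]
  · intro j y
    obtain ⟨w, hw⟩ := Submodule.mkQ_surjective _ ((toRes C _).symm y)
    exact ⟨w, by
      show toRes C _ (Submodule.mkQ _ w) = y
      rw [hw]
      rfl⟩
  · intro j w hw
    have hw2 : Submodule.mkQ (LinearMap.range (LinearMap.lsmul T[X] (SatW g (F.phi.map ρ) hg)
      (X - C (g (c j))))) w = 0 := hw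
    obtain ⟨v, hv⟩ := (Submodule.Quotient.mk_eq_zero _).mp hw2
    exact ⟨v, hv.symm⟩
  · intro j w hw
    refine ⟨0, ?_⟩
    rw [sat_torsion g hg f ρ e hρ hker hf F (c j) (hc0 j) w hw, smul_zero]

end twoGen

end Pool.Agent.HT51
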