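import Pool.Agent.HT51.Ident
import Pool.Agent.HT51.Filt2

/-!
# Auxiliary facts for the merge step
-/

universe u

namespace Pool.Agent.HT51

open MvPolynomial

section num

variable {k : Type u} [Field k] [Fintype k] {N : ℕ} {n m : Fin N → ℕ}
  (hnm : ∀ i, n i * m i = Fintype.card k - 1)

include hnm

lemma nm_pos (i : Fin N) : 0 < n i ∧ 0 < m i := by
  have h1 : 1 < Fintype.card k := Fintype.one_lt_card
  have h2 := hnm i
  constructor
  · rcases Nat.eq_zero_or_pos (n i) with h | h
    · rw [h, zero_mul] at h2; omega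
    · exact h
  · rcases Nat.eq_zero_or_pos (m i) with h | h
    · rw [h, mul_zero] at h2; omega
    · exact h

lemma n_ne_zero (i : Fin N) : (n i : k) ≠ 0 := by
  intro h
  have h1 : 1 ≤ Fintype.card k := Fintype.card_pos
  have h2 : ((n i * m i : ℕ) : k) = ((Fintype.card k - 1 : ℕ) : k) := by rw [hnm i]
  rw [Nat.cast_mul, h, zero_mul, Nat.cast_sub h1, FiniteField.cast_card_eq_zero] at h2
  simp at h2

end num

section frob

variable (k : Type u) [Field k] [Fintype k] {T : Type*} [CommRing T] [Algebra k T]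

lemma sub_pow_q (a b : T) : (a - b) ^ Fintype.card k = a ^ Fintype.card k - b ^ Fintype.card k :=
  map_sub (FiniteField.frobeniusAlgHom k T) a b

lemma sum_pow_q {ι : Type*} (s : Finset ι) (f : ι → T) :
    (∑ i ∈ s, f i) ^ Fintype.card k = ∑ i ∈ s, f i ^ Fintype.card k :=
  map_sum (FiniteField.frobeniusAlgHom k T) f s

end frob

section mf

variable {R T : Type u} [CommRing R] [CommRing T]

lemma MF.map_phi_psi {f : R} {r : ℕ} (F : MF f r) (Φ : R →+* T) :
    F.phi.map Φ * F.psi.map Φ = Φ f • (1 : Matrix (Fin r) (Fin r) T) := by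
  rw [← Matrix.map_mul, F.phi_psi]
  ext i j
  simp only [Matrix.map_apply, Matrix.smul_apply, smul_eq_mul, map_mul]
  by_cases h : i = j
  · subst h; simp
  · simp [h]

lemma MF.map_psi_phi {f : R} {r : ℕ} (F : MF f r) (Φ : R →+* T) :
    F.psi.map Φ * F.phi.map Φ = Φ f • (1 : Matrix (Fin r) (Fin r) T) := by
  rw [← Matrix.map_mul, F.psi_phi]
  ext i j
  simp only [Matrix.map_apply, Matrix.smul_apply, smul_eq_mul, map_mul]
  by_cases h : i = j
  · subst h; simp
  · simp [h]

end mf

section der

variable {k : Type u} [Field k] {N : ℕ} {n : Fin N → ℕ}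

lemma pderiv_diag (i : Fin N) : pderiv i (diag k n) = C (n i : k) * X i ^ (n i - 1) := by
  classical
  unfold diag
  rw [map_sum, Finset.sum_eq_single i]
  · rw [pderiv_pow, pderiv_X_self, mul_one]
    simp
  · intro j _ hj
    rw [pderiv_pow, pderiv_X_of_ne hj, mul_zero]
  · intro h; exact absurd (Finset.mem_univ _) h

lemma MF.pderiv_eq {r : ℕ} (F : MF (diag k n) r) (i : Fin N) :
    F.phi.map (pderiv i) * F.psi + F.phi * F.psi.map (pderiv i)
      = (C (n i : k) * X i ^ (n i - 1) : MvPolynomial (Fin N) k) •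
        (1 : Matrix (Fin r) (Fin r) (MvPolynomial (Fin N) k)) := by
  have h1 := congrArg (fun M : Matrix (Fin r) (Fin r) (MvPolynomial (Fin N) k) =>
    M.map (pderiv i)) F.phi_psi
  change (F.phi * F.psi).map (pderiv i) = (diag k n • 1 : Matrix (Fin r) (Fin r) _).map (pderiv i)
    at h1
  have h2 : (F.phi * F.psi).map (pderiv i)
      = F.phi.map (pderiv i) * F.psi + F.phi * F.psi.map (pderiv i) := by
    refine Matrix.ext fun a b => ?_
    show pderiv i ((F.phi * F.psi) a b) = (F.phi.map (pderiv i) * F.psi) a b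
      + (F.phi * F.psi.map (pderiv i)) a b
    simp only [Matrix.map_apply, Matrix.mul_apply, map_sum, Derivation.leibniz,
      smul_eq_mul, Finset.sum_add_distrib]
    rw [add_comm]
    congr 1
    refine Finset.sum_congr rfl fun x _ => ?_
    ring
  rw [← h2, h1, ← pderiv_diag]
  refine Matrix.ext fun a b => ?_
  simp only [Matrix.map_apply, Matrix.smul_apply, smul_eq_mul]
  by_cases h : a = b
  · subst h; simp
  · simp [h]

lemma MF.pderiv_map {T : Type u} [CommRing T] {r : ℕ} (F : MF (diag k n) r)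
    (Ψ : MvPolynomial (Fin N) k →+* T) (i : Fin N) :
    (F.phi.map (pderiv i)).map Ψ * F.psi.map Ψ + F.phi.map Ψ * (F.psi.map (pderiv i)).map Ψ
      = Ψ (C (n i : k) * X i ^ (n i - 1)) • (1 : Matrix (Fin r) (Fin r) T) := by
  ext a b
  have h2 := congrFun (congrFun (F.pderiv_eq i) a) b
  have h3 := congrArg Ψ h2
  simp only [Matrix.add_apply, Matrix.mul_apply, Matrix.map_apply, map_add, map_sum, map_mul,
    Matrix.smul_apply, smul_eq_mul] at h3 ⊢
  rw [h3]
  by_cases h : a = b
  · subst h; simp
  · simp [h]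

end der

section blocks

variable {k : Type u} [Field k] {N : ℕ} {n : Fin N → ℕ}

lemma dmk_diag : dmk k n (diag k n) = 0 :=
  Ideal.Quotient.eq_zero_iff_mem.mpr (Ideal.subset_span rfl)

lemma sum_dx : ∑ i, dx k n i ^ n i = 0 := by
  have h := dmk_diag (k := k) (n := n)
  unfold diag at h
  rw [map_sum] at h
  refine Eq.trans ?_ h
  exact Finset.sum_congr rfl fun i _ => (map_pow _ _ _).symm

lemma sum_sB (c : Fin N → Fin N) : ∑ K, sB k n c K = 0 := by
  unfold sB
  rw [Finset.sum_fiberwise]
  exact sum_dx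

lemma sB_merge_self (c : Fin N → Fin N) (a b : Fin N) (hab : a ≠ b) :
    sB k n (merge c a b) a = sB k n c a + sB k n c b := by
  unfold sB merge
  rw [← Finset.sum_union]
  · refine Finset.sum_congr ?_ fun _ _ => rfl
    ext i
    simp only [Finset.mem_filter, Finset.mem_univ, true_and, Finset.mem_union]
    split_ifs with h
    · simp [h]
    · simp [h]
  · rw [Finset.disjoint_left]
    intro i hi hi'
    simp only [Finset.mem_filter, Finset.mem_univ, true_and] at hi hi'
    exact hab (hi.symm.trans hi')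

lemma sB_merge_other (c : Fin N → Fin N) (a b K : Fin N) (ha : K ≠ a) (hb : K ≠ b) :
    sB k n (merge c a b) K = sB k n c K := by
  unfold sB merge
  refine Finset.sum_congr ?_ fun _ _ => rfl
  ext i
  simp only [Finset.mem_filter, Finset.mem_univ, true_and]
  split_ifs with h
  · constructor
    · intro h1; exact absurd h1.symm ha
    · intro h1; rw [← h1] at hb; exact absurd h hb
  · rfl

lemma sc_sB (c : Fin N → Fin N) (K : Fin N) (u : Fin N → k) (hu : ∀ i, u i ^ n i = 1) :
    sc (n := n) u hu (sB k n c K) = sB k n c K := by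
  unfold sB
  rw [map_sum]
  refine Finset.sum_congr rfl fun i _ => ?_
  rw [map_pow, sc_dx, mul_pow, ← map_pow, ← C_pow, hu, C_1, map_one, one_mul]

lemma sum_sB_pow [Fintype k] (c : Fin N → Fin N) (a b : Fin N) (hab : a ≠ b) :
    ∑ K ∈ Finset.univ.filter (fun K => K ≠ a ∧ K ≠ b), sB k n c K ^ Fintype.card k
      = - (sB k n c a + sB k n c b) ^ Fintype.card k := by
  classical
  have h1 : (∑ K ∈ Finset.univ.filter (fun K => K ≠ a ∧ K ≠ b), sB k n c K)
      = - (sB k n c a + sB k n c b) := by
    have h2 := sum_sB (k := k) (n := n) c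
    have h3 : (Finset.univ : Finset (Fin N)) = insert a (insert b
        (Finset.univ.filter fun K : Fin N => K ≠ a ∧ K ≠ b)) := by
      ext e
      simp only [Finset.mem_univ, Finset.mem_insert, Finset.mem_filter, true_and, true_iff]
      tauto
    rw [h3, Finset.sum_insert, Finset.sum_insert] at h2
    · linear_combination h2
    · simp
    · simp [hab]
  rw [← sum_pow_q k, h1]
  have h4 := sub_pow_q k (T := DiagRing k n) 0 (sB k n c a + sB k n c b)
  rw [zero_sub, zero_pow (Fintype.card_ne_zero), zero_sub] at h4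
  exact h4

lemma psiC_X (m : Fin N → ℕ) (c : Fin N → Fin N) (i : Fin N) :
    psiC k n m c (X i) = sB k n c (c i) ^ m i * dx k n i := by
  unfold psiC
  rw [coe_eval₂Hom, eval₂_X]

lemma psiC_C (m : Fin N → ℕ) (c : Fin N → Fin N) (e : k) :
    psiC k n m c (C e) = dmk k n (C e) := by
  unfold psiC
  rw [coe_eval₂Hom, eval₂_C]
  rfl

/-- fibrewise sums with two distinguished labels -/
lemma sum_labels {A : Type*} [AddCommMonoid A] (c : Fin N → Fin N) (a b : Fin N) (hab : a ≠ b)
    (g : Fin N → A) :
    ∑ i, g i = ∑ i ∈ Finset.univ.filter (fun i => c i = a), g i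
      + (∑ i ∈ Finset.univ.filter (fun i => c i = b), g i
      + ∑ K ∈ Finset.univ.filter (fun K => K ≠ a ∧ K ≠ b),
        ∑ i ∈ Finset.univ.filter (fun i => c i = K), g i) := by
  classical
  have h3 : (Finset.univ : Finset (Fin N)) = insert a (insert b
      (Finset.univ.filter fun K : Fin N => K ≠ a ∧ K ≠ b)) := by
    ext e
    simp only [Finset.mem_univ, Finset.mem_insert, Finset.mem_filter, true_and, true_iff]
    tauto
  have h4 : ∑ i, g i = ∑ K, ∑ i ∈ Finset.univ.filter (fun i => c i = K), g i :=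
    (Finset.sum_fiberwise _ _ _).symm
  rw [h4, h3, Finset.sum_insert, Finset.sum_insert]
  · rw [← h3]
  · simp
  · simp [hab]

end blocks

end Pool.Agent.HT51
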