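import Pool.Agent.HT51.V1
import Pool.Agent.HT51.Homot

/-!
# The family of the merge step over an abstract base
-/

universe u

namespace Pool.Agent.HT51

open MvPolynomial

section family

variable {k : Type u} [Field k] [Fintype k] [DecidableEq k] {N : ℕ} (n m : Fin N → ℕ)
  {B : Type u} [CommRing B] [Algebra k B] (x : Fin N → B) (c : Fin N → Fin N) (a b : Fin N)

/-- block sums -/
def bs (n : Fin N → ℕ) (x : Fin N → B) (c : Fin N → Fin N) (K : Fin N) : B :=
  ∑ i ∈ Finset.univ.filter (fun i => c i = K), x i ^ n i

/-- The base points of the family: `X` on block `a`, `s Y - X` on block `b`, `s_K Y` on the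
other blocks. -/
noncomputable def wG (n : Fin N → ℕ) (x : Fin N → B) (c : Fin N → Fin N) (a b i : Fin N) :
    Polynomial (Polynomial B) :=
  if c i = a then Polynomial.X
  else if c i = b then
    Polynomial.C (Polynomial.X * Polynomial.C (bs n x c a + bs n x c b)) - Polynomial.X
  else Polynomial.C (Polynomial.X * Polynomial.C (bs n x c (c i)))

/-- The family. -/
noncomputable def PhiG (k : Type u) [Field k] {B : Type u} [CommRing B] [Algebra k B]
    (n m : Fin N → ℕ) (x : Fin N → B) (c : Fin N → Fin N) (a b : Fin N) :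
    MvPolynomial (Fin N) k →+* Polynomial (Polynomial B) :=
  eval₂Hom ((Polynomial.C.comp Polynomial.C).comp (algebraMap k B))
    fun i => wG n x c a b i ^ m i * Polynomial.C (Polynomial.C (x i))

omit [Fintype k] [DecidableEq k] in
lemma PhiG_X (i : Fin N) :
    PhiG k n m x c a b (X i) = wG n x c a b i ^ m i * Polynomial.C (Polynomial.C (x i)) := by
  unfold PhiG
  rw [coe_eval₂Hom, eval₂_X]

omit [Fintype k] [DecidableEq k] in
lemma PhiG_C (e : k) :
    PhiG k n m x c a b (C e) = Polynomial.C (Polynomial.C (algebraMap k B e)) := by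
  unfold PhiG
  rw [coe_eval₂Hom, eval₂_C]
  rfl

/-- The list of roots. -/
noncomputable def LG (k : Type u) [Field k] [Fintype k] [DecidableEq k] {B : Type u} [CommRing B]
    [Algebra k B] (n : Fin N → ℕ) (x : Fin N → B)
    (c : Fin N → Fin N) (a b : Fin N) : List (Polynomial B) :=
  (Polynomial.X * Polynomial.C (bs n x c a)) ::
    ((Finset.univ.filter fun e : k => e ≠ 0 ∧ e ≠ 1).toList.map fun e =>
      Polynomial.C (algebraMap k B e) *
        (Polynomial.X * Polynomial.C (bs n x c a + bs n x c b)))

lemma pl_LG :
    pl (LG k n x c a b) = (Polynomial.X - Polynomial.C (Polynomial.X) *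
        Polynomial.C (Polynomial.C (bs n x c a))) *
      ∏ e ∈ (Finset.univ.filter fun e : k => e ≠ 0 ∧ e ≠ 1),
        (Polynomial.X - algebraMap k (Polynomial (Polynomial B)) e *
          (Polynomial.C (Polynomial.X) *
            (Polynomial.C (Polynomial.C (bs n x c a)) +
              Polynomial.C (Polynomial.C (bs n x c b))))) := by
  unfold pl LG
  rw [List.map_cons, List.prod_cons, List.map_map, map_mul]
  congr 1
  rw [Finset.prod_map_toList]
  refine Finset.prod_congr rfl fun e _ => ?_
  have : algebraMap k (Polynomial (Polynomial B)) e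
    = Polynomial.C (Polynomial.C (algebraMap k B e)) := rfl
  rw [this]
  simp only [Function.comp, map_mul, map_add]

lemma sum_bs_pow (hx : ∑ i, x i ^ n i = 0) (hab : a ≠ b) :
    ∑ K ∈ Finset.univ.filter (fun K => K ≠ a ∧ K ≠ b), bs n x c K ^ Fintype.card k
      = - (bs n x c a + bs n x c b) ^ Fintype.card k := by
  have h1 : (∑ K ∈ Finset.univ.filter (fun K => K ≠ a ∧ K ≠ b), bs n x c K)
      = - (bs n x c a + bs n x c b) := by
    have h2 : ∑ K, bs n x c K = 0 := by
      unfold bs
      rw [Finset.sum_fiberwise]
      exact hx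
    have h3 : (Finset.univ : Finset (Fin N)) = insert a (insert b
        (Finset.univ.filter fun K : Fin N => K ≠ a ∧ K ≠ b)) := by
      ext e
      simp only [Finset.mem_univ, Finset.mem_insert, Finset.mem_filter, true_and, true_iff]
      tauto
    rw [h3, Finset.sum_insert, Finset.sum_insert] at h2
    · linear_combination h2
    · simp
    · simp [hab]
  rw [← sum_pow_q k, h1]
  have h4 := sub_pow_q k (T := B) 0 (bs n x c a + bs n x c b)
  rw [zero_sub, zero_pow (Fintype.card_ne_zero), zero_sub] at h4
  exact h4

lemma PhiG_diag (hnm : ∀ i, n i * m i = Fintype.card k - 1) (hx : ∑ i, x i ^ n i = 0)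
    (hab : a ≠ b) [IsNoetherianRing B] :
    PhiG k n m x c a b (diag k n)
      = Polynomial.C (Polynomial.C (bs n x c a + bs n x c b)) * pl (LG k n x c a b) := by
  set sa := bs n x c a with hsa
  set sb := bs n x c b with hsb
  have hCC : ∀ x y : B, (Polynomial.C (Polynomial.C (x + y)) : Polynomial (Polynomial B))
      = Polynomial.C (Polynomial.C x) + Polynomial.C (Polynomial.C y) := by
    intro x y
    rw [map_add, map_add]
  have h1 := factor_identity (k := k) (T := Polynomial (Polynomial B))
    (Polynomial.C (Polynomial.C sa)) (Polynomial.C (Polynomial.C sb)) (Polynomial.C Polynomial.X)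
    Polynomial.X (by
      intro t ht
      have hmon : ((Polynomial.X : Polynomial (Polynomial B)) * (Polynomial.X -
          Polynomial.C (Polynomial.X * Polynomial.C (sa + sb)))).Monic :=
        Polynomial.monic_X.mul (Polynomial.monic_X_sub_C _)
      refine monic_mul_eq_zero hmon t ?_
      rw [← ht, map_mul, hCC])
    (sub_pow_q k)
  rw [pl_LG, hCC, ← h1]
  unfold diag
  rw [map_sum]
  have h2 : ∀ i, PhiG k n m x c a b (X i ^ n i) = wG n x c a b i ^ (Fintype.card k - 1) *
      Polynomial.C (Polynomial.C (x i ^ n i)) := by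
    intro i
    rw [map_pow, PhiG_X, mul_pow, ← pow_mul, mul_comm (m i), hnm, ← map_pow, ← map_pow]
  simp only [h2]
  rw [sum_labels c a b hab]
  have ha : ∑ i ∈ Finset.univ.filter (fun i => c i = a), wG n x c a b i ^ (Fintype.card k - 1) *
      Polynomial.C (Polynomial.C (x i ^ n i))
      = Polynomial.C (Polynomial.C sa) * Polynomial.X ^ (Fintype.card k - 1) := by
    rw [hsa]
    unfold bs
    rw [map_sum, map_sum, Finset.sum_mul]
    refine Finset.sum_congr rfl fun i hi => ?_
    have hi' : c i = a := (Finset.mem_filter.mp hi).2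
    unfold wG
    rw [if_pos hi', mul_comm]
  have hb : ∑ i ∈ Finset.univ.filter (fun i => c i = b), wG n x c a b i ^ (Fintype.card k - 1) *
      Polynomial.C (Polynomial.C (x i ^ n i))
      = Polynomial.C (Polynomial.C sb) * (Polynomial.C Polynomial.X *
        (Polynomial.C (Polynomial.C sa) + Polynomial.C (Polynomial.C sb)) - Polynomial.X)
          ^ (Fintype.card k - 1) := by
    have hb1 : (Polynomial.C (Polynomial.C sb) : Polynomial (Polynomial B))
        = ∑ i ∈ Finset.univ.filter (fun i => c i = b), Polynomial.C (Polynomial.C (x i ^ n i)) := by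
      rw [hsb]
      unfold bs
      rw [map_sum, map_sum]
    have hb2 : ∀ t : Polynomial (Polynomial B), Polynomial.C (Polynomial.C sb) * t
        = ∑ i ∈ Finset.univ.filter (fun i => c i = b),
          Polynomial.C (Polynomial.C (x i ^ n i)) * t := by
      intro t
      rw [hb1, Finset.sum_mul]
    rw [hb2]
    refine Finset.sum_congr rfl fun i hi => ?_
    have hi' : c i = b := (Finset.mem_filter.mp hi).2
    unfold wG
    rw [if_neg (by rw [hi']; exact hab.symm), if_pos hi', mul_comm, map_mul, hCC, ← hsa, ← hsb]
  have hK : ∀ K ∈ Finset.univ.filter (fun K => K ≠ a ∧ K ≠ b),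
      ∑ i ∈ Finset.univ.filter (fun i => c i = K), wG n x c a b i ^ (Fintype.card k - 1) *
      Polynomial.C (Polynomial.C (x i ^ n i))
      = Polynomial.C (Polynomial.X ^ (Fintype.card k - 1)) *
        Polynomial.C (Polynomial.C (bs n x c K ^ Fintype.card k)) := by
    intro K hK
    obtain ⟨_, hKa, hKb⟩ := Finset.mem_filter.mp hK
    have h3 : bs n x c K ^ Fintype.card k = bs n x c K ^ (Fintype.card k - 1) * bs n x c K := by
      rw [← pow_succ, Nat.sub_add_cancel Fintype.card_pos]
    have h4 : ∀ i ∈ Finset.univ.filter (fun i => c i = K), wG n x c a b i ^ (Fintype.card k - 1) *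
        Polynomial.C (Polynomial.C (x i ^ n i))
        = Polynomial.C (Polynomial.X ^ (Fintype.card k - 1)) *
          Polynomial.C (Polynomial.C (bs n x c K ^ (Fintype.card k - 1))) *
          Polynomial.C (Polynomial.C (x i ^ n i)) := by
      intro i hi
      have hi' : c i = K := (Finset.mem_filter.mp hi).2
      unfold wG
      rw [if_neg (by rw [hi']; exact hKa), if_neg (by rw [hi']; exact hKb), hi', ← map_pow,
        mul_pow, map_mul, ← map_pow]
    have h6 : ∑ i ∈ Finset.univ.filter (fun i => c i = K),
        (Polynomial.C (Polynomial.C (x i ^ n i)) : Polynomial (Polynomial B))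
        = Polynomial.C (Polynomial.C (bs n x c K)) := by
      unfold bs
      rw [map_sum, map_sum]
    rw [Finset.sum_congr rfl h4, ← Finset.mul_sum, h6, h3, map_mul, map_mul, ← mul_assoc]
  rw [ha, hb, Finset.sum_congr rfl hK, ← Finset.mul_sum, ← map_sum, ← map_sum,
    sum_bs_pow (k := k) n x c a b hx hab]
  have h7 : (Polynomial.C (Polynomial.C ((bs n x c a + bs n x c b) ^ Fintype.card k)) :
      Polynomial (Polynomial B))
      = (Polynomial.C (Polynomial.C sa) + Polynomial.C (Polynomial.C sb)) ^ Fintype.card k := by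
    rw [map_pow, map_pow, hCC]
  have h5 : ∀ t : Polynomial (Polynomial B), t ^ Fintype.card k
      = t * t ^ (Fintype.card k - 1) := by
    intro t
    rw [← pow_succ', Nat.sub_add_cancel Fintype.card_pos]
  rw [map_neg, map_neg, h7, h5, map_pow, mul_pow]
  ring

end family

end Pool.Agent.HT51
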