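import Pool.Agent.HT51.V2

/-!
# Sum over the roots
-/

universe u

namespace Pool.Agent.HT51

open MvPolynomial

lemma map_pl {C D : Type u} [CommRing C] [CommRing D] (f : C →+* D) (L : List C) :
    Polynomial.mapRingHom f (pl L) = pl (L.map f) := by
  unfold pl
  rw [map_list_prod, List.map_map, List.map_map]
  congr 1
  refine List.map_congr_left fun b _ => ?_
  simp

section

variable {k : Type u} [Field k] [Fintype k] [DecidableEq k] {N : ℕ} (n m : Fin N → ℕ)
  {B : Type u} [CommRing B] [Algebra k B] (x : Fin N → B) (c : Fin N → Fin N) (a b : Fin N)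

/-- The value of the base points at `Y = 1`, `X = t`. -/
noncomputable def wR (n : Fin N → ℕ) (x : Fin N → B) (c : Fin N → Fin N) (a b : Fin N) (t : B)
    (i : Fin N) : B :=
  if c i = a then t else if c i = b then bs n x c a + bs n x c b - t else bs n x c (c i)

/-- The ring homomorphism at a root. -/
noncomputable def rootHom (k : Type u) [Field k] {B : Type u} [CommRing B] [Algebra k B]
    (n m : Fin N → ℕ) (x : Fin N → B) (c : Fin N → Fin N) (a b : Fin N) (t : B) :
    MvPolynomial (Fin N) k →+* B :=
  eval₂Hom (algebraMap k B) fun i => wR n x c a b t i ^ m i * x i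

omit [Fintype k] [DecidableEq k] in
lemma spec_wG_one (i : Fin N) : spec (1 : B) (wG n x c a b i) =
    if c i = a then Polynomial.X
    else if c i = b then Polynomial.C (bs n x c a + bs n x c b) - Polynomial.X
    else Polynomial.C (bs n x c (c i)) := by
  unfold wG
  split_ifs
  · simp
  · rw [map_sub]
    congr 1
    · show Polynomial.map _ _ = _
      rw [Polynomial.map_C]
      simp
    · simp
  · show Polynomial.map _ _ = _
    rw [Polynomial.map_C]
    simp

omit [Fintype k] [DecidableEq k] in
lemma rootHom_eq (t : B) :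
    (Polynomial.evalRingHom t).comp ((spec (1 : B)).comp (PhiG k n m x c a b))
      = rootHom k n m x c a b t := by
  refine MvPolynomial.ringHom_ext ?_ ?_
  · intro e
    rw [RingHom.comp_apply, RingHom.comp_apply, PhiG_C]
    unfold rootHom
    rw [coe_eval₂Hom, eval₂_C]
    simp
  · intro i
    rw [RingHom.comp_apply, RingHom.comp_apply, PhiG_X, map_mul, map_mul, map_pow, map_pow,
      spec_wG_one]
    unfold rootHom wR
    rw [coe_eval₂Hom, eval₂_X]
    split_ifs <;> simp

lemma mem_span_pow (hnm : ∀ i, n i * m i = Fintype.card k - 1) {T : Type u} [CommRing T]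
    (Ψ : MvPolynomial (Fin N) k →+* T) (i : Fin N) :
    Ψ (X i ^ n i) ∈ Ideal.span (Set.range fun i : Fin N =>
      Ψ (C (n i : k) * X i ^ (n i - 1))) := by
  have h1 : (X i ^ n i : MvPolynomial (Fin N) k)
      = (C ((n i : k)⁻¹) * X i) * (C (n i : k) * X i ^ (n i - 1)) := by
    have h2 : (C ((n i : k)⁻¹) * C (n i : k) : MvPolynomial (Fin N) k) = 1 := by
      rw [← C_mul, inv_mul_cancel₀ (n_ne_zero hnm i), C_1]
    have h3 : (X i ^ n i : MvPolynomial (Fin N) k) = X i * X i ^ (n i - 1) := by
      rw [← pow_succ', Nat.sub_add_cancel (nm_pos hnm i).1]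
    rw [h3]
    linear_combination (- X i * X i ^ (n i - 1)) * h2
  rw [h1, map_mul]
  exact Ideal.mul_mem_left _ _ (Ideal.subset_span ⟨i, rfl⟩)

lemma C_pow_mem (hnm : ∀ i, n i * m i = Fintype.card k - 1) (hx : ∑ i, x i ^ n i = 0)
    (hab : a ≠ b) :
    Polynomial.C ((bs n x c a + bs n x c b) ^ Fintype.card k) ∈ Ideal.span
      (Set.range fun i : Fin N => ((spec (1 : B)).comp (PhiG k n m x c a b))
        (C (n i : k) * X i ^ (n i - 1))) := by
  set Ψ := (spec (1 : B)).comp (PhiG k n m x c a b) with hΨ
  have h1 : Polynomial.C ((bs n x c a + bs n x c b) ^ Fintype.card k)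
      = - ∑ K ∈ Finset.univ.filter (fun K => K ≠ a ∧ K ≠ b),
        ∑ i ∈ Finset.univ.filter (fun i => c i = K), Ψ (X i ^ n i) := by
    have h2 : ∀ K ∈ Finset.univ.filter (fun K => K ≠ a ∧ K ≠ b),
        ∑ i ∈ Finset.univ.filter (fun i => c i = K), Ψ (X i ^ n i)
        = Polynomial.C (bs n x c K ^ Fintype.card k) := by
      intro K hK
      obtain ⟨_, hKa, hKb⟩ := Finset.mem_filter.mp hK
      have h3 : bs n x c K ^ Fintype.card k = bs n x c K ^ (Fintype.card k - 1) * bs n x c K := by
        rw [← pow_succ, Nat.sub_add_cancel Fintype.card_pos]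
      have h4 : ∀ i ∈ Finset.univ.filter (fun i => c i = K), Ψ (X i ^ n i)
          = Polynomial.C (bs n x c K ^ (Fintype.card k - 1)) * Polynomial.C (x i ^ n i) := by
        intro i hi
        have hi' : c i = K := (Finset.mem_filter.mp hi).2
        rw [hΨ, RingHom.comp_apply, map_pow, PhiG_X, map_pow, map_mul, map_pow, spec_wG_one,
          if_neg (by rw [hi']; exact hKa), if_neg (by rw [hi']; exact hKb), hi', mul_pow,
          ← pow_mul, mul_comm (m i), hnm, ← map_pow]
        congr 1
        simp
      have h6 : ∑ i ∈ Finset.univ.filter (fun i => c i = K),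
          (Polynomial.C (x i ^ n i) : Polynomial B) = Polynomial.C (bs n x c K) := by
        unfold bs
        rw [map_sum]
      rw [Finset.sum_congr rfl h4, ← Finset.mul_sum, h6, h3, map_mul]
    rw [Finset.sum_congr rfl h2, ← map_sum, sum_bs_pow (k := k) n x c a b hx hab, map_neg, neg_neg]
  rw [h1]
  refine Ideal.neg_mem_iff _ |>.mpr ?_
  refine Ideal.sum_mem _ fun K _ => Ideal.sum_mem _ fun i _ => ?_
  exact mem_span_pow n m hnm Ψ i

/-- The sum over the roots vanishes if the specialisation at `Y = 0` has value `0`. -/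
lemma sum_roots (hnm : ∀ i, n i * m i = Fintype.card k - 1) (hx : ∑ i, x i ^ n i = 0)
    (hab : a ≠ b) [IsNoetherianRing B] (lam : AddFn B)
    (hs : lam.Kills (bs n x c a + bs n x c b)) {r : ℕ} (F : MF (diag k n) r)
    (h00 : lam.val ((Fin r → Polynomial B) ⧸
      sm ((F.phi.map (PhiG k n m x c a b)).map (spec (0 : B))) (spec (0 : B) (pl (LG k n x c a b))))
        = 0) :
    lam.val (Cok (F.phi.map (rootHom k n m x c a b (bs n x c a))))
      + ∑ e ∈ (Finset.univ.filter fun e : k => e ≠ 0 ∧ e ≠ 1),
        lam.val (Cok (F.phi.map (rootHom k n m x c a b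
          (algebraMap k B e * (bs n x c a + bs n x c b))))) = 0 := by
  set s := bs n x c a + bs n x c b with hsdef
  have h1 := homot lam hs (F.phi.map (PhiG k n m x c a b)) (F.psi.map (PhiG k n m x c a b))
    (PhiG k n m x c a b (diag k n)) (pl (LG k n x c a b)) (F.map_phi_psi _) (F.map_psi_phi _)
    (pl_monic _) (PhiG_diag n m x c a b hnm hx hab) ![0, 1]
  have hc0 : (![0, 1] : Fin 2 → B) 0 = 0 := rfl
  have hc1 : (![0, 1] : Fin 2 → B) 1 = 1 := rfl
  rw [hc0, hc1, h00] at h1
  have hL : spec (1 : B) (pl (LG k n x c a b)) = pl ((LG k n x c a b).map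
      (Polynomial.evalRingHom (1 : B))) := map_pl _ _
  rw [hL] at h1
  have h2 := filt lam hs ((F.phi.map (PhiG k n m x c a b)).map (spec (1 : B)))
    ((F.psi.map (PhiG k n m x c a b)).map (spec (1 : B)))
    (((spec (1 : B)).comp (PhiG k n m x c a b)) (diag k n))
    (F.map_psi_phi ((spec (1 : B)).comp (PhiG k n m x c a b)))
    (fun i : Fin N => ((spec (1 : B)).comp (PhiG k n m x c a b)) (C (n i : k) * X i ^ (n i - 1)))
    (fun i => (F.phi.map (pderiv i)).map ((spec (1 : B)).comp (PhiG k n m x c a b)))
    (fun i => (F.psi.map (pderiv i)).map ((spec (1 : B)).comp (PhiG k n m x c a b)))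
    (fun i => F.pderiv_map ((spec (1 : B)).comp (PhiG k n m x c a b)) i)
    (Fintype.card k) (C_pow_mem n m x c a b hnm hx hab)
    ((LG k n x c a b).map (Polynomial.evalRingHom (1 : B))) (Polynomial.C s) (by
      rw [RingHom.comp_apply, PhiG_diag n m x c a b hnm hx hab, map_mul, hL]
      congr 1
      show Polynomial.map _ _ = _
      rw [Polynomial.map_C]
      simp [hsdef])
  have h3 : ∀ t : B, (((F.phi.map (PhiG k n m x c a b)).map (spec (1 : B))).map
      (Polynomial.evalRingHom t)) = F.phi.map (rootHom k n m x c a b t) := by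
    intro t
    rw [← rootHom_eq]
    rfl
  have h4 : (List.map (fun t => lam.val (Cok (((F.phi.map (PhiG k n m x c a b)).map
      (spec (1 : B))).map (Polynomial.evalRingHom t))))
        ((LG k n x c a b).map (Polynomial.evalRingHom (1 : B)))).sum = 0 := by
    rw [← h2]
    exact h1.symm
  have h5 : (fun t => lam.val (Cok (((F.phi.map (PhiG k n m x c a b)).map
      (spec (1 : B))).map (Polynomial.evalRingHom t))))
      = fun t => lam.val (Cok (F.phi.map (rootHom k n m x c a b t))) := by
    funext t
    rw [h3]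
  rw [h5] at h4
  rw [← h4]
  unfold LG
  rw [List.map_cons, List.map_cons, List.sum_cons, List.map_map, List.map_map,
    Finset.sum_map_toList]
  congr 1
  · have : Polynomial.evalRingHom (1 : B) (Polynomial.X * Polynomial.C (bs n x c a))
        = bs n x c a := by simp
    rw [this]
  · refine Finset.sum_congr rfl fun e _ => ?_
    have : Polynomial.evalRingHom (1 : B) (Polynomial.C (algebraMap k B e) *
        (Polynomial.X * Polynomial.C (bs n x c a + bs n x c b)))
        = algebraMap k B e * s := by simp [hsdef]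
    simp only [Function.comp]
    rw [this]

end

end Pool.Agent.HT51
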